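import Pool.Agent.TDC.StNa

set_option autoImplicit false

/-! **NSchA.** Existence of an integral affine scheme (with affineness in the statement) with function field `K(E)(t_1, …, t_m)`. -/

namespace TDC

open scoped Topology
open AlgebraicGeometry CategoryTheory

section ring

variable (K : Type) [Field K] (m : ℕ)

/-- the polynomial ring `K[x, t_1, …, t_m]` -/
private abbrev NSchA_A : Type := MvPolynomial (Fin (m + 1)) K

/-- the polynomial `Y² - (x³ + 1)` -/
private noncomputable def NSchA_f : Polynomial (NSchA_A K m) :=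
  Polynomial.X ^ 2 - Polynomial.C (MvPolynomial.X 0 ^ 3 + 1)

private theorem NSchA_deg : (NSchA_f K m).natDegree = 2 := Polynomial.natDegree_X_pow_sub_C

private theorem NSchA_monic : (NSchA_f K m).Monic := Polynomial.monic_X_pow_sub_C _ two_ne_zero

private theorem NSchA_sq (a : NSchA_A K m) : a ^ 2 ≠ MvPolynomial.X 0 ^ 3 + 1 := by
  intro h
  have h1 := congrArg (MvPolynomial.aeval (R := K)
    (fun i : Fin (m + 1) => if i = 0 then (Polynomial.X : Polynomial K) else 0)) h
  simp only [map_pow, map_add, map_one, MvPolynomial.aeval_X, if_true] at h1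
  have h2 := congrArg Polynomial.natDegree h1
  have h3 : (Polynomial.X ^ 3 + 1 : Polynomial K).natDegree = 3 := by
    have := Polynomial.natDegree_X_pow_add_C (R := K) (n := 3) (r := 1)
    rwa [Polynomial.C_1] at this
  rw [Polynomial.natDegree_pow, h3] at h2
  omega

private theorem NSchA_prime : Prime (NSchA_f K m) := by
  rw [← UniqueFactorizationMonoid.irreducible_iff_prime]
  rw [(NSchA_monic K m).irreducible_iff_roots_eq_zero_of_degree_le_three (NSchA_deg K m).ge
    ((NSchA_deg K m).le.trans (by norm_num))]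
  refine Multiset.eq_zero_of_forall_notMem fun a ha => ?_
  have h1 := (Polynomial.mem_roots (NSchA_monic K m).ne_zero).1 ha
  rw [Polynomial.IsRoot.def] at h1
  unfold NSchA_f at h1
  rw [Polynomial.eval_sub, Polynomial.eval_pow, Polynomial.eval_X, Polynomial.eval_C,
    sub_eq_zero] at h1
  exact NSchA_sq K m a h1

/-- the ring `K[E°][t_1, …, t_m]` -/
private abbrev NSchA_R : Type := AdjoinRoot (NSchA_f K m)

private theorem NSchA_dom : IsDomain (NSchA_R K m) := AdjoinRoot.isDomain_of_prime (NSchA_prime K m)

private theorem NSchA_inj : Function.Injective (algebraMap (NSchA_A K m) (NSchA_R K m)) := by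
  refine AdjoinRoot.of.injective_of_degree_ne_zero ?_
  rw [Polynomial.degree_eq_natDegree (NSchA_monic K m).ne_zero, NSchA_deg]
  norm_num

/-- the point in a field -/
private theorem NSchA_efun (L : Type) [Field L] [Algebra K L] (φ : NSchA_R K m →ₐ[K] L)
    (hφ : Function.Injective φ) (hL : ∀ z : L, ∃ a b : NSchA_R K m, z = φ a / φ b) :
    ∃ (x y : L) (t : Fin m → Lˣ), EFun K x y t := by
  obtain ⟨X, hX⟩ : ∃ X : Fin (m + 1) → NSchA_R K m, ∀ i, X i =
    algebraMap (NSchA_A K m) (NSchA_R K m) (MvPolynomial.X i) := ⟨_, fun _ => rfl⟩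
  have hX0 : ∀ i, φ (X i) ≠ 0 := by
    intro i h
    have h1 : X i = 0 := hφ (by rw [h, map_zero])
    rw [hX] at h1
    have h2 := NSchA_inj K m (h1.trans (map_zero _).symm)
    exact MvPolynomial.X_ne_zero i h2
  obtain ⟨t, ht⟩ : ∃ t : Fin m → Lˣ, ∀ i, (t i : L) = φ (X i.succ) :=
    ⟨fun i => Units.mk0 _ (hX0 i.succ), fun _ => rfl⟩
  have hcons : (Fin.cons (φ (X 0)) (fun i => (t i : L)) : Fin (m + 1) → L) =
      (φ.comp (IsScalarTower.toAlgHom K (NSchA_A K m) (NSchA_R K m))) ∘ MvPolynomial.X := by
    funext i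
    refine Fin.cases ?_ (fun j => ?_) i
    · rw [Fin.cons_zero, hX]; rfl
    · rw [Fin.cons_succ, ht, hX]; rfl
  refine ⟨φ (X 0), φ (AdjoinRoot.root (NSchA_f K m)), t, ?_, ?_, ?_⟩
  · -- the equation
    have h1 : AdjoinRoot.mk (NSchA_f K m)
        (Polynomial.X ^ 2 - Polynomial.C (MvPolynomial.X 0 ^ 3 + 1)) = 0 := AdjoinRoot.mk_self
    rw [map_sub, map_pow, AdjoinRoot.mk_X, AdjoinRoot.mk_C, sub_eq_zero] at h1
    rw [← map_pow, h1, hX, map_add, map_pow, map_one, map_add, map_pow, map_one]
    rfl
  · -- independence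
    rw [hcons]
    refine (MvPolynomial.algebraicIndependent_X (Fin (m + 1)) K).map' ?_
    exact hφ.comp (NSchA_inj K m)
  · -- generation
    obtain ⟨F, hF⟩ : ∃ F : IntermediateField K L, F = IntermediateField.adjoin K
      (insert (φ (X 0)) (insert (φ (AdjoinRoot.root (NSchA_f K m)))
        (Set.range fun i => (t i : L)))) := ⟨_, rfl⟩
    rw [← hF]
    have hFX : ∀ i, φ (X i) ∈ F := by
      intro i
      rw [hF]
      refine IntermediateField.subset_adjoin K _ ?_
      refine Fin.cases ?_ (fun j => ?_) i
      · exact Set.mem_insert _ _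
      · exact Set.mem_insert_of_mem _ (Set.mem_insert_of_mem _ ⟨j, ht j⟩)
    have hFy : φ (AdjoinRoot.root (NSchA_f K m)) ∈ F := by
      rw [hF]
      exact IntermediateField.subset_adjoin K _
        (Set.mem_insert_of_mem _ (Set.mem_insert _ _))
    have hFA : ∀ a : NSchA_A K m, φ (algebraMap (NSchA_A K m) (NSchA_R K m) a) ∈ F := by
      intro a
      induction a using MvPolynomial.induction_on with
      | C c =>
        have h1 : algebraMap (NSchA_A K m) (NSchA_R K m) (MvPolynomial.C c) =
            algebraMap K (NSchA_R K m) c := by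
          rw [IsScalarTower.algebraMap_apply K (NSchA_A K m) (NSchA_R K m)]
          rfl
        rw [h1, AlgHom.commutes]
        exact F.algebraMap_mem c
      | add p q hp hq => rw [map_add, map_add]; exact add_mem hp hq
      | mul_X p i hp =>
        rw [map_mul, map_mul, ← hX]
        exact mul_mem hp (hFX i)
    have hFR : ∀ a : NSchA_R K m, φ a ∈ F := by
      intro a
      induction a using AdjoinRoot.induction_on with
      | ih p =>
        induction p using Polynomial.induction_on' with
        | add p q hp hq => rw [map_add, map_add]; exact add_mem hp hq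
        | monomial n a =>
          rw [← Polynomial.C_mul_X_pow_eq_monomial, map_mul, map_pow, AdjoinRoot.mk_X,
            AdjoinRoot.mk_C, map_mul, map_pow]
          exact mul_mem (hFA a) (pow_mem hFy n)
    rw [eq_top_iff]
    intro z _
    obtain ⟨a, b, rfl⟩ := hL z
    exact div_mem (hFR a) (hFR b)

end ring

section scheme

private theorem NSchA_inj1 {X : Scheme.{0}} [IsIntegral X] (U : X.Opens)
    (h : genericPoint X ∈ U) (f : Γ(X, U)) (hf : X.evaluation U (genericPoint X) h f = 0) :
    f = 0 := by
  rw [Scheme.evaluation_eq_zero_iff_notMem_basicOpen] at hf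
  by_contra h1
  apply hf
  have h2 : X.basicOpen f ≠ ⊥ := fun h => h1 ((basicOpen_eq_bot_iff f).1 h)
  refine ((genericPoint_spec X).mem_open_set_iff (X.basicOpen f).isOpen).2 ?_
  have h3 : ((X.basicOpen f : X.Opens) : Set X).Nonempty := by
    rw [Set.nonempty_iff_ne_empty]
    intro h4
    apply h2
    ext x
    constructor
    · intro hx
      rw [h4] at hx
      exact absurd hx (Set.notMem_empty _)
    · intro hx
      exact absurd hx (Set.notMem_empty _)
  obtain ⟨x, hx⟩ := h3
  exact ⟨x, by simp, hx⟩

private theorem NSchA_inj2 {X : Scheme.{0}} [IsIntegral X] (f : Γ(X, ⊤))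
    (hf : (X.Γevaluation (genericPoint X)).hom f = 0) : f = 0 :=
  NSchA_inj1 ⊤ trivial f hf

private theorem NSchA_surj {X : Scheme.{0}} [IsIntegral X] [IsAffine X]
    (z : X.residueField (genericPoint X)) :
    ∃ a b : Γ(X, ⊤), z = (X.Γevaluation (genericPoint X)).hom a /
      (X.Γevaluation (genericPoint X)).hom b := by
  obtain ⟨y, hy⟩ := X.residue_surjective (genericPoint X) z
  have : Nonempty (⊤ : X.Opens) := ⟨⟨genericPoint X, trivial⟩⟩
  have := functionField_isFractionRing_of_isAffineOpen X ⊤ (isAffineOpen_top X)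
  obtain ⟨⟨a, b⟩, hab⟩ := IsLocalization.surj (nonZeroDivisors Γ(X, ⊤))
    (S := X.functionField) y
  have hb : (b : Γ(X, ⊤)) ≠ 0 := nonZeroDivisors.ne_zero b.2
  refine ⟨a, b, ?_⟩
  have h3 : (X.Γevaluation (genericPoint X)).hom b ≠ 0 := fun h => hb (NSchA_inj2 _ h)
  rw [eq_div_iff h3]
  have h2 := congrArg (X.residue (genericPoint X)) hab
  rw [map_mul, hy] at h2
  exact h2

end scheme

/-- **NSchA**. `NSch` with affineness. -/
def St_NSchA : Prop :=
  ∀ (K : Type) [NormedField K] (m : ℕ), ∃ (X : Scheme.{0}) (s : X ⟶ Spec (.of K)) (_ : IsIntegral X),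
    IsAffine X ∧ IsSeparated s ∧ LocallyOfFiniteType s ∧ QuasiCompact s ∧
    ∃ (x y : X.residueField (genericPoint X)) (t : Fin m → (X.residueField (genericPoint X))ˣ),
      letI : Algebra K (X.residueField (genericPoint X)) := (kmap s (genericPoint X)).toAlgebra
      EFun K x y t

theorem thm_NSchA : St_NSchA := by
  intro K _ m
  have hdom : IsDomain (NSchA_R K m) := NSchA_dom K m
  have hint : IsIntegral (Spec (.of (NSchA_R K m))) := inferInstance
  refine ⟨Spec (.of (NSchA_R K m)), Spec.map (CommRingCat.ofHom (algebraMap K (NSchA_R K m))),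
    hint, inferInstance, inferInstance, ?_, inferInstance, ?_⟩
  · rw [HasRingHomProperty.Spec_iff (P := @LocallyOfFiniteType)]
    have h1 : Algebra.FiniteType K (NSchA_R K m) := inferInstance
    exact (RingHom.finiteType_algebraMap).2 h1
  · obtain ⟨φ, hφ⟩ : ∃ φ : NSchA_R K m →+*
        (Spec (.of (NSchA_R K m))).residueField (genericPoint (Spec (.of (NSchA_R K m)))),
        φ = ((Spec (.of (NSchA_R K m))).Γevaluation (genericPoint _)).hom.comp
          (Scheme.ΓSpecIso (.of (NSchA_R K m))).inv.hom := ⟨_, rfl⟩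
    have hk : kmap (Spec.map (CommRingCat.ofHom (algebraMap K (NSchA_R K m))))
        (genericPoint (Spec (.of (NSchA_R K m)))) = φ.comp (algebraMap K (NSchA_R K m)) := by
      have h1 := Scheme.ΓSpecIso_inv_naturality (CommRingCat.ofHom (algebraMap K (NSchA_R K m)))
      ext a
      have h2 := congrArg (fun g => g.hom a) h1
      rw [hφ]
      exact congrArg ((Spec (.of (NSchA_R K m))).Γevaluation (genericPoint _)).hom h2.symm
    let _ : Algebra K ((Spec (.of (NSchA_R K m))).residueField
      (genericPoint (Spec (.of (NSchA_R K m))))) :=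
      (kmap (Spec.map (CommRingCat.ofHom (algebraMap K (NSchA_R K m))))
        (genericPoint (Spec (.of (NSchA_R K m))))).toAlgebra
    refine NSchA_efun K m _ { φ with commutes' := fun a => ?_ } ?_ ?_
    · exact (RingHom.congr_fun hk a).symm
    · have h1 : Function.Injective φ := by
        rw [injective_iff_map_eq_zero]
        intro a ha
        rw [hφ] at ha
        have h2 := NSchA_inj2 _ ha
        have h3 : Function.Injective (Scheme.ΓSpecIso (.of (NSchA_R K m))).inv.hom := by
          intro u v huv
          have h4 := congrArg (Scheme.ΓSpecIso (.of (NSchA_R K m))).hom.hom huv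
          simpa using h4
        exact h3 (h2.trans (map_zero _).symm)
      exact h1
    · intro z
      obtain ⟨a, b, hab⟩ := NSchA_surj z
      refine ⟨(Scheme.ΓSpecIso (.of (NSchA_R K m))).hom.hom a,
        (Scheme.ΓSpecIso (.of (NSchA_R K m))).hom.hom b, ?_⟩
      have h1 : ∀ c : Γ(Spec (.of (NSchA_R K m)), ⊤),
          φ ((Scheme.ΓSpecIso (.of (NSchA_R K m))).hom.hom c) =
            ((Spec (.of (NSchA_R K m))).Γevaluation (genericPoint _)).hom c := by
        intro c
        rw [hφ]
        have h2 : (Scheme.ΓSpecIso (.of (NSchA_R K m))).inv.hom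
            ((Scheme.ΓSpecIso (.of (NSchA_R K m))).hom.hom c) = c := by simp
        exact congrArg ((Spec (.of (NSchA_R K m))).Γevaluation (genericPoint _)).hom h2
      rw [hab, ← h1, ← h1]
      rfl

end TDC
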