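import Pool.Agent.TDC.StF

/-! TDC, module FFace: dual and perp of faces of cones. -/

set_option autoImplicit false

namespace TDC

private theorem FFace_mem {n : ℕ} (V : Finset (Fin n → ℤ)) (v : Fin n → ℤ) (hv : v ∈ V) :
    (fun k => (v k : ℝ)) ∈ coneOf V := by
  classical
  refine ⟨fun w => if w = v then 1 else 0, fun w => by dsimp only; split_ifs <;> norm_num, ?_⟩
  rw [Finset.sum_eq_single v]
  · simp
  · intro w _ hw
    simp [hw]
  · intro h
    exact absurd hv h

private theorem FFace_cast {n : ℕ} (m v : Fin n → ℤ) :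
    pr m (fun k => (v k : ℝ)) = ((∑ k, m k * v k : ℤ) : ℝ) := by
  unfold pr
  push_cast
  rfl

private theorem FFace_pr {n : ℕ} (V : Finset (Fin n → ℤ)) (a : (Fin n → ℤ) → ℝ)
    (m : Fin n → ℤ) :
    pr m (∑ v ∈ V, a v • fun k => (v k : ℝ)) =
      ∑ v ∈ V, a v * ((∑ k, m k * v k : ℤ) : ℝ) := by
  unfold pr
  simp only [Finset.sum_apply, Pi.smul_apply, smul_eq_mul, Finset.mul_sum]
  rw [Finset.sum_comm]
  refine Finset.sum_congr rfl fun v _ => ?_
  push_cast
  rw [Finset.mul_sum]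
  refine Finset.sum_congr rfl fun k _ => ?_
  ring

private theorem FFace_one {n : ℕ} (V W : Finset (Fin n → ℤ)) (h : coneOf V ⊆ coneOf W) :
    dualOf W ≤ dualOf V ∧ perpOf W ≤ perpOf V := by
  constructor
  · intro m hm v hv
    obtain ⟨a, ha, hau⟩ := h (FFace_mem V v hv)
    have h1 := FFace_pr W a m
    rw [← hau, FFace_cast] at h1
    have h2 : (0 : ℝ) ≤ ((∑ k, m k * v k : ℤ) : ℝ) := by
      rw [h1]
      refine Finset.sum_nonneg fun w hw => mul_nonneg (ha w) ?_
      exact_mod_cast hm w hw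
    exact_mod_cast h2
  · intro m hm v hv
    obtain ⟨a, ha, hau⟩ := h (FFace_mem V v hv)
    have h1 := FFace_pr W a m
    rw [← hau, FFace_cast] at h1
    have h2 : ((∑ k, m k * v k : ℤ) : ℝ) = 0 := by
      rw [h1]
      refine Finset.sum_eq_zero fun w hw => ?_
      have h3 : (∑ k, m k * w k : ℤ) = 0 := hm w hw
      rw [h3]
      simp
    exact_mod_cast h2

theorem thm_FFace : St_FFace := by
  intro n
  refine ⟨FFace_one, ?_⟩
  intro V W m hm hW
  have hsub : coneOf W ⊆ coneOf V := by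
    rw [hW]
    exact Set.inter_subset_left
  have hmW : m ∈ perpOf W := by
    intro v hv
    have h1 : (fun k => (v k : ℝ)) ∈ faceOf V m := by
      rw [← hW]
      exact FFace_mem W v hv
    have h2 : pr m (fun k => (v k : ℝ)) = 0 := h1.2
    rw [FFace_cast] at h2
    exact_mod_cast h2
  refine ⟨hmW, fun m' => ⟨fun hm' => ?_, ?_⟩⟩
  · refine ⟨∑ v ∈ V, (∑ k, m' k * v k).natAbs, fun v hv => ?_⟩
    have e1 : ∑ k, (m' + (∑ v ∈ V, (∑ k, m' k * v k).natAbs) • m) k * v k =
        ∑ k, m' k * v k +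
          ((∑ v ∈ V, (∑ k, m' k * v k).natAbs : ℕ) : ℤ) * ∑ k, m k * v k := by
      rw [Finset.mul_sum, ← Finset.sum_add_distrib]
      refine Finset.sum_congr rfl fun k _ => ?_
      rw [Pi.add_apply, Pi.smul_apply, nsmul_eq_mul]
      ring
    rw [e1]
    have h0 : 0 ≤ ∑ k, m k * v k := hm v hv
    rcases h0.eq_or_lt with h | h
    · rw [← h, mul_zero, add_zero]
      have h1 : (fun k => (v k : ℝ)) ∈ coneOf W := by
        rw [hW]
        refine ⟨FFace_mem V v hv, ?_⟩
        show pr m (fun k => (v k : ℝ)) = 0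
        rw [FFace_cast, ← h]
        simp
      obtain ⟨a, ha, hau⟩ := h1
      have h2 := FFace_pr W a m'
      rw [← hau, FFace_cast] at h2
      have h3 : (0 : ℝ) ≤ ((∑ k, m' k * v k : ℤ) : ℝ) := by
        rw [h2]
        refine Finset.sum_nonneg fun w hw => mul_nonneg (ha w) ?_
        exact_mod_cast hm' w hw
      exact_mod_cast h3
    · have h1 : (∑ k, m' k * v k).natAbs ≤ ∑ v ∈ V, (∑ k, m' k * v k).natAbs :=
        Finset.single_le_sum (f := fun v => (∑ k, m' k * v k).natAbs) (fun _ _ => Nat.zero_le _) hv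
      have h2 : ((∑ k, m' k * v k).natAbs : ℤ) ≤
          ((∑ v ∈ V, (∑ k, m' k * v k).natAbs : ℕ) : ℤ) := by exact_mod_cast h1
      have h3 : -((∑ k, m' k * v k).natAbs : ℤ) ≤ ∑ k, m' k * v k := by
        rw [Int.natCast_natAbs]
        exact neg_abs_le _
      have h4 : ((∑ v ∈ V, (∑ k, m' k * v k).natAbs : ℕ) : ℤ) ≤
          ((∑ v ∈ V, (∑ k, m' k * v k).natAbs : ℕ) : ℤ) * ∑ k, m k * v k := by
        refine le_mul_of_one_le_right (by positivity) ?_
        omega
      linarith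
  · rintro ⟨r, hr⟩
    have h1 := (FFace_one W V hsub).1 hr
    intro v hv
    have h2 := h1 v hv
    have h3 : ∑ k, m k * v k = 0 := hmW v hv
    have e1 : ∑ k, (m' + r • m) k * v k = ∑ k, m' k * v k + (r : ℤ) * ∑ k, m k * v k := by
      rw [Finset.mul_sum, ← Finset.sum_add_distrib]
      refine Finset.sum_congr rfl fun k _ => ?_
      rw [Pi.add_apply, Pi.smul_apply, nsmul_eq_mul]
      ring
    rw [e1, h3, mul_zero, add_zero] at h2
    exact h2

end TDC
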