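import Pool.Agent.TDC.StF

set_option autoImplicit false

/-! **FVal.** Elementary facts about `N_ℝ(Σ)`. No hypotheses are assumed. -/

namespace TDC

open scoped Topology

private theorem FVal_evm_add {n : ℕ} {G : AddSubgroup (Fin n → ℤ)} (δ : G →+ ℝ)
    {a b : Fin n → ℤ} (ha : a ∈ G) (hb : b ∈ G) : evm δ (a + b) = evm δ a + evm δ b := by
  unfold evm
  rw [dif_pos ha, dif_pos hb, dif_pos (G.add_mem ha hb), ← map_add]
  rfl

private theorem FVal_perp_le {n : ℕ} (V : Finset (Fin n → ℤ)) {m : Fin n → ℤ}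
    (h : m ∈ perpOf V) : m ∈ dualOf V := fun v hv => (h v hv).ge

private theorem FVal_split {n : ℕ} (V : Finset (Fin n → ℤ)) {a b : Fin n → ℤ}
    (ha : a ∈ dualOf V) (hb : b ∈ dualOf V) (hab : a + b ∈ perpOf V) :
    a ∈ perpOf V ∧ b ∈ perpOf V := by
  have key : ∀ v ∈ V, ∑ k, a k * v k = 0 ∧ ∑ k, b k * v k = 0 := by
    intro v hv
    have h1 : 0 ≤ ∑ k, a k * v k := ha v hv
    have h2 : 0 ≤ ∑ k, b k * v k := hb v hv
    have h3 : ∑ k, (a + b) k * v k = 0 := hab v hv
    have h4 : ∑ k, (a + b) k * v k = ∑ k, a k * v k + ∑ k, b k * v k := by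
      rw [← Finset.sum_add_distrib]
      exact Finset.sum_congr rfl fun k _ => by rw [Pi.add_apply]; ring
    constructor <;> linarith
  exact ⟨fun v hv => (key v hv).1, fun v hv => (key v hv).2⟩

private theorem FVal_zero {n : ℕ} {Δ : Fan n} (y : NR Δ) : y.val 0 = 1 := by
  unfold NR.val
  have h0 : (0 : Fin n → ℤ) ∈ Δ.perp y.i := (Δ.perp y.i).zero_mem
  rw [if_pos h0]
  unfold evm
  rw [dif_pos h0]
  have h1 : (⟨0, h0⟩ : Δ.perp y.i) = 0 := rfl
  rw [h1, map_zero, Real.exp_zero]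

private theorem FVal_ne {n : ℕ} {Δ : Fan n} (y : NR Δ) (m : Fin n → ℤ) :
    y.val m ≠ 0 ↔ m ∈ Δ.perp y.i := by
  unfold NR.val
  split_ifs with h
  · exact ⟨fun _ => h, fun _ => Real.exp_ne_zero _⟩
  · exact ⟨fun h1 => absurd rfl h1, fun h1 => absurd h1 h⟩

private theorem FVal_log {n : ℕ} {Δ : Fan n} (y : NR Δ) (m : Fin n → ℤ)
    (hm : m ∈ Δ.perp y.i) : Real.log (y.val m) = evm y.φ m := by
  unfold NR.val
  rw [if_pos hm, Real.log_exp]

private theorem FVal_open {n : ℕ} {Δ : Fan n} (j : Δ.ι) (m : Δ.dual j) (a b : ℝ) :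
    IsOpen {y : NR Δ | Δ.cone y.i ⊆ Δ.cone j ∧ a < y.val m ∧ y.val m < b} :=
  TopologicalSpace.isOpen_generateFrom_of_mem ⟨j, m, a, b, rfl⟩

theorem thm_FVal : St_FVal := by
  intro n Δ
  refine ⟨?_, ?_, ?_, ?_⟩
  · intro y
    refine ⟨FVal_zero y, ?_, ?_, FVal_ne y, FVal_log y⟩
    · intro m
      unfold NR.val
      split_ifs
      · exact (Real.exp_pos _).le
      · exact le_refl _
    · intro a ha b hb
      by_cases hab : a + b ∈ Δ.perp y.i
      · obtain ⟨h1, h2⟩ := FVal_split (Δ.gens y.i) ha hb hab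
        have h1' : a ∈ Δ.perp y.i := h1
        have h2' : b ∈ Δ.perp y.i := h2
        unfold NR.val
        rw [if_pos hab, if_pos h1', if_pos h2', FVal_evm_add _ h1' h2', Real.exp_add]
      · have h0 : ¬ (a ∈ Δ.perp y.i ∧ b ∈ Δ.perp y.i) := fun h =>
          hab ((Δ.perp y.i).add_mem h.1 h.2)
        have h1 : y.val (a + b) = 0 := by
          by_contra h
          exact hab ((FVal_ne y _).1 h)
        rw [h1]
        symm
        rw [mul_eq_zero]
        by_contra h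
        rw [not_or] at h
        exact h0 ⟨(FVal_ne y _).1 h.1, (FVal_ne y _).1 h.2⟩
  · intro y y' h1 h2 h3
    have hi : y.i = y'.i := Δ.inj _ _ (Set.Subset.antisymm h1 h2)
    obtain ⟨i, φ⟩ := y
    obtain ⟨i', φ'⟩ := y'
    have hi' : i = i' := hi
    subst hi'
    have hφ : φ = φ' := by
      ext m
      have hm : (m : Fin n → ℤ) ∈ Δ.perp i := m.2
      have h4 := h3 m (FVal_perp_le _ hm)
      have h5 := FVal_log (⟨i, φ⟩ : NR Δ) m hm
      have h6 := FVal_log (⟨i, φ'⟩ : NR Δ) m hm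
      rw [h4, h6] at h5
      have h7 : evm φ' m = evm φ m := h5
      unfold evm at h7
      rw [dif_pos hm, dif_pos hm] at h7
      exact h7.symm
    rw [hφ]
  · intro j
    have h1 := FVal_open (Δ := Δ) j 0 0 2
    have h2 : {y : NR Δ | Δ.cone y.i ⊆ Δ.cone j} = {y : NR Δ | Δ.cone y.i ⊆ Δ.cone j ∧
        0 < y.val ((0 : Δ.dual j) : Fin n → ℤ) ∧ y.val ((0 : Δ.dual j) : Fin n → ℤ) < 2} := by
      ext y
      have h3 : y.val ((0 : Δ.dual j) : Fin n → ℤ) = 1 := FVal_zero y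
      simp only [Set.mem_ofPred_eq]
      rw [h3]
      constructor
      · intro h
        exact ⟨h, by norm_num, by norm_num⟩
      · intro h
        exact h.1
    rw [h2]
    exact h1
  · intro j m y hy
    apply ContinuousAt.continuousWithinAt
    have hy' : Δ.cone y.i ⊆ Δ.cone j := hy
    refine tendsto_order.2 ⟨fun a ha => ?_, fun b hb => ?_⟩
    · have h1 := (FVal_open j m a (y.val m + 1)).mem_nhds
        (show y ∈ {y : NR Δ | Δ.cone y.i ⊆ Δ.cone j ∧ a < y.val m ∧ y.val m < _} from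
          ⟨hy', ha, by linarith⟩)
      filter_upwards [h1] with z hz
      exact hz.2.1
    · have h1 := (FVal_open j m (y.val m - 1) b).mem_nhds
        (show y ∈ {z : NR Δ | Δ.cone z.i ⊆ Δ.cone j ∧ (y.val m - 1) < z.val m ∧ z.val m < b} from
          ⟨hy', by linarith, hb⟩)
      filter_upwards [h1] with z hz
      exact hz.2.2

end TDC
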