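import Pool.Agent.TDC.Defs4
import Pool.Agent.TDC.NsTro
import Pool.Agent.TDC.NsPul
import Pool.Agent.TDC.NsLin
import Pool.Agent.TDC.FFace
import Pool.Agent.TDC.FVal

/-!
# TDN: the cohomology groups of `Trop_φ(X)` and the maps `trop_φ^*`
-/

namespace TDC

open scoped Topology
open AlgebraicGeometry CategoryTheory

section

variable {N : ℕ} {Δ : Fan N} {K : Type} [NormedField K] {X : Scheme.{0}} {s : X ⟶ Spec (.of K)}
  (μ : TorMap Δ X) (T : An s → NR Δ) (hT : IsTropOf μ T) (p q : ℕ)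

/-- the space of closed superforms of bidegree `(p,q)` on `Trop_φ(X)` -/
def closedR : Submodule ℝ (FamR μ T hT p q) where
  carrier := {ω | IsDbarR ω 0}
  zero_mem' := (thm_NsLin N Δ K X s μ T hT p q).2.2.2.1
  add_mem' := by
    intro a b ha hb
    have h := (thm_NsLin N Δ K X s μ T hT p q).2.2.2.2.1 a b 0 0 ha hb
    rw [add_zero] at h
    exact h
  smul_mem' := by
    intro c a ha
    have h := (thm_NsLin N Δ K X s μ T hT p q).2.2.2.2.2.1 c a 0 ha
    rw [smul_zero] at h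
    exact h

/-- the space of families with compact support -/
def suppR : Submodule ℝ (FamR μ T hT p q) where
  carrier := {ω | CSuppR ω}
  zero_mem' := ⟨∅, isCompact_empty, fun _ _ => rfl⟩
  add_mem' := by
    rintro a b ⟨C, hC, h⟩ ⟨C', hC', h'⟩
    refine ⟨C ∪ C', hC.union hC', fun x hx => ?_⟩
    rw [Pi.add_apply, h x fun h0 => hx (Or.inl h0), h' x fun h0 => hx (Or.inr h0), add_zero]
  smul_mem' := by
    rintro c a ⟨C, hC, h⟩
    exact ⟨C, hC, fun x hx => by rw [Pi.smul_apply, h x hx, smul_zero]⟩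

/-- the space of exact superforms of bidegree `(p,q)` on `Trop_φ(X)` -/
def exactR : (q : ℕ) → Submodule ℝ (FamR μ T hT p q)
  | 0 => ⊥
  | q + 1 =>
    { carrier := {ω | ∃ η : FamR μ T hT p q, IsDbarR η ω}
      zero_mem' := ⟨0, (thm_NsLin N Δ K X s μ T hT p q).2.2.2.1⟩
      add_mem' := by
        rintro a b ⟨η, h⟩ ⟨η', h'⟩
        exact ⟨η + η', (thm_NsLin N Δ K X s μ T hT p q).2.2.2.2.1 _ _ _ _ h h'⟩
      smul_mem' := by
        rintro c a ⟨η, h⟩
        exact ⟨c • η, (thm_NsLin N Δ K X s μ T hT p q).2.2.2.2.2.1 _ _ _ h⟩ }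

/-- all `d''η`, `η` a superform of bidegree `(p,q-1)` on `Trop_φ(X)` with compact support -/
def exactRc : (q : ℕ) → Submodule ℝ (FamR μ T hT p q)
  | 0 => ⊥
  | q + 1 =>
    { carrier := {ω | ∃ η : FamR μ T hT p q, CSuppR η ∧ IsDbarR η ω}
      zero_mem' := ⟨0, (suppR μ T hT p q).zero_mem, (thm_NsLin N Δ K X s μ T hT p q).2.2.2.1⟩
      add_mem' := by
        rintro a b ⟨η, hc, h⟩ ⟨η', hc', h'⟩
        exact ⟨η + η', (suppR μ T hT p q).add_mem hc hc',
          (thm_NsLin N Δ K X s μ T hT p q).2.2.2.2.1 _ _ _ _ h h'⟩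
      smul_mem' := by
        rintro c a ⟨η, hc, h⟩
        exact ⟨c • η, (suppR μ T hT p q).smul_mem c hc,
          (thm_NsLin N Δ K X s μ T hT p q).2.2.2.2.2.1 _ _ _ h⟩ }

/-- the cohomology group `H^{p,q}(Trop_φ(X))` -/
abbrev HR : Type := closedR μ T hT p q ⧸ (exactR μ T hT p q).comap (closedR μ T hT p q).subtype

/-- the cohomology group with compact supports `H_c^{p,q}(Trop_φ(X))` -/
abbrev HRc : Type :=
  (closedR μ T hT p q ⊓ suppR μ T hT p q : Submodule ℝ (FamR μ T hT p q)) ⧸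
    (exactRc μ T hT p q).comap
      (closedR μ T hT p q ⊓ suppR μ T hT p q : Submodule ℝ (FamR μ T hT p q)).subtype

private theorem pullR_closed : closedR μ T hT p q ≤ (closedA s p q).comap (pullR μ T hT p q) := by
  intro ω hω
  have h := (thm_NsPul (thm_NsTro thm_FFace thm_FVal) N Δ K X s μ T hT p q).2 ω 0 hω
  rw [map_zero] at h
  exact h

private theorem pullR_exact : ∀ q, exactR μ T hT p q ≤ (exactA s p q).comap (pullR μ T hT p q)
  | 0 => by
    intro ω hω
    have h : ω = 0 := hω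
    rw [h]
    exact Submodule.zero_mem _
  | q + 1 => by
    rintro ω ⟨η, h⟩
    exact ⟨pullR μ T hT p q η,
      (thm_NsPul (thm_NsTro thm_FFace thm_FVal) N Δ K X s μ T hT p q).2 η ω h⟩

/-- the map `trop_φ^* : H^{p,q}(Trop_φ(X)) → H^{p,q}(X^an)` -/
noncomputable def tropH : HR μ T hT p q →ₗ[ℝ] HA s p q :=
  Submodule.mapQ _ _ ((pullR μ T hT p q).restrict (pullR_closed μ T hT p q)) (by
    rintro ⟨ω, h0⟩ h
    exact pullR_exact μ T hT p q h)

/-- `trop_φ^*` maps families with compact support to families with compact support (this is true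
if `φ` is a closed embedding, since `trop_φ` is then proper) -/
def PropR : Prop := ∀ (p q : ℕ) (ω : FamR μ T hT p q), CSuppR ω → CSuppA (pullR μ T hT p q ω)

private theorem pullR_exactc (hp : PropR μ T hT) :
    ∀ q, exactRc μ T hT p q ≤ (exactAc s p q).comap (pullR μ T hT p q)
  | 0 => by
    intro ω hω
    have h : ω = 0 := hω
    rw [h]
    exact Submodule.zero_mem _
  | q + 1 => by
    rintro ω ⟨η, hc, h⟩
    exact ⟨pullR μ T hT p q η, hp p q η hc,
      (thm_NsPul (thm_NsTro thm_FFace thm_FVal) N Δ K X s μ T hT p q).2 η ω h⟩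

/-- the map `trop_φ^* : H_c^{p,q}(Trop_φ(X)) → H_c^{p,q}(X^an)` -/
noncomputable def tropHc (hp : PropR μ T hT) : HRc μ T hT p q →ₗ[ℝ] HAc s p q :=
  Submodule.mapQ _ _ ((pullR μ T hT p q).restrict (p := closedR μ T hT p q ⊓ suppR μ T hT p q)
    (q := closedA s p q ⊓ suppA s p q)
    (fun ω hω => ⟨pullR_closed μ T hT p q hω.1, hp p q ω hω.2⟩)) (by
    rintro ⟨ω, h0⟩ h
    exact pullR_exactc μ T hT p hp q h)

end

end TDC
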