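import Pool.Agent.TDC.DefsNs2

/-!
# TDN, module NsFin: `trop_φ^*` is not surjective in bidegree `(m+1,m+1)`
-/

namespace TDC

open scoped Topology
open AlgebraicGeometry CategoryTheory

/-- **NsFin** (uses `NsRed`, `NsPro`). Theorem N for schemes: `X` integral with function field
`K(E)(t_1, …, t_m)`, `φ` a closed embedding of `X` in a toric variety. -/
def St_NsFin : Prop :=
  ∀ (K : Type) [NontriviallyNormedField K] [IsUltrametricDist K] (X : Scheme.{0}) [IsIntegral X]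
    (s : X ⟶ Spec (.of K)) (c : ℂ →+* K) (m : ℕ)
    (x y : X.residueField (genericPoint X)) (t : Fin m → (X.residueField (genericPoint X))ˣ),
    (Set.range fun a : K => ‖a‖).Countable → ResC c →
    @EFun K (X.residueField (genericPoint X)) _ _ (kmap s (genericPoint X)).toAlgebra m x y t →
    ∀ (N : ℕ) (Δ : Fan N) (Y : Scheme.{0}) (s' : Y ⟶ Spec (.of K)) (τ : Toric Δ s') (φ : X ⟶ Y),
      φ ≫ s' = s → IsClosedImmersion φ →
      ∀ (T : An s → NR Δ) (hT : IsTropOf (τ.pull φ) T),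
        (∃ hp : PropR (τ.pull φ) T hT,
          ¬ Function.Surjective (tropHc (τ.pull φ) T hT (m + 1) (m + 1) hp)) ∧
        (CompactSpace (An s) →
          ¬ Function.Surjective (tropH (τ.pull φ) T hT (m + 1) (m + 1)))

theorem thm_NsFin (h1 : St_NsRed) (h2 : St_NsPro) : St_NsFin := by
  intro K _ _ X _ s c m x y t hcount hres hE N Δ Y s' τ φ hφ hcl T hT
  obtain ⟨w, hw, hwc, hno⟩ := h1 K X s c m x y t hcount hres hE N Δ (τ.pull φ) T hT
  have hform : ∀ ω : FamR (τ.pull φ) T hT (m + 1) (m + 1), IsDbarR ω 0 → IsFormR ω := fun ω h =>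
    ((thm_NsLin N Δ K X s (τ.pull φ) T hT (m + 1) (m + 1)).2.2.2.2.2.2 ω 0 h).1
  have hp : PropR (τ.pull φ) T hT := by
    rintro p q ω ⟨C, hC, h⟩
    obtain ⟨C', hC', hsub⟩ := h2 N Δ K X Y s s' τ φ hφ hcl T hT C hC
    refine ⟨C', hC', fun z hz => ?_⟩
    funext δ ε
    exact h _ fun hz' => hz (hsub hz')
  constructor
  · refine ⟨hp, fun hsur => ?_⟩
    obtain ⟨u, hu⟩ := hsur (Submodule.Quotient.mk ⟨w, hw, hwc⟩)
    obtain ⟨⟨ω, hω, hωc⟩, rfl⟩ := Submodule.Quotient.mk_surjective _ u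
    have h3 : tropHc (τ.pull φ) T hT (m + 1) (m + 1) hp (Submodule.Quotient.mk ⟨ω, hω, hωc⟩) =
        Submodule.Quotient.mk ((pullR (τ.pull φ) T hT (m + 1) (m + 1)).restrict
          (p := closedR (τ.pull φ) T hT (m + 1) (m + 1) ⊓ suppR (τ.pull φ) T hT (m + 1) (m + 1))
          (q := closedA s (m + 1) (m + 1) ⊓ suppA s (m + 1) (m + 1)) _ ⟨ω, hω, hωc⟩) :=
      Submodule.mapQ_apply _ _ _ _
    rw [h3] at hu
    have h4 := (Submodule.Quotient.eq _).1 hu.symm
    obtain ⟨η, hη, hd⟩ := h4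
    exact hno ω η (hform ω hω) (hp _ _ ω hωc) hη hd
  · intro hcpt hsur
    have hall : ∀ (p q : ℕ) (η : FamA s p q), CSuppA η := fun p q η =>
      ⟨Set.univ, isCompact_univ, fun z hz => absurd (Set.mem_univ z) hz⟩
    obtain ⟨u, hu⟩ := hsur (Submodule.Quotient.mk ⟨w, hw⟩)
    obtain ⟨⟨ω, hω⟩, rfl⟩ := Submodule.Quotient.mk_surjective _ u
    have h3 : tropH (τ.pull φ) T hT (m + 1) (m + 1) (Submodule.Quotient.mk ⟨ω, hω⟩) =
        Submodule.Quotient.mk ((pullR (τ.pull φ) T hT (m + 1) (m + 1)).restrict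
          (p := closedR (τ.pull φ) T hT (m + 1) (m + 1))
          (q := closedA s (m + 1) (m + 1)) _ ⟨ω, hω⟩) :=
      Submodule.mapQ_apply _ _ _ _
    rw [h3] at hu
    have h4 := (Submodule.Quotient.eq _).1 hu.symm
    obtain ⟨η, hd⟩ := h4
    exact hno ω η (hform ω hω) (hall _ _ _) (hall _ _ _) hd

end TDC
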