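import Pool.Agent.TDC.StF

set_option autoImplicit false

/-!
# TDC, module FCom (helper8): the superforms on `N_ℝ(Σ)` form a vector space, `d''` is linear
-/

namespace TDC

open scoped Topology

section

variable {R R' p q : ℕ}

/-! ### superforms on `ℝ^R` -/

private theorem FCom_dd {α : SF R p q} (h : α.Smooth) : α.dd.Smooth := by
  intro I
  have h1 : ContDiff ℝ (⊤ : ℕ∞) (fderiv ℝ (α I)) := by
    apply ContDiff.fderiv_right (h I)
    exact le_of_eq rfl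
  exact (ContinuousAlternatingMap.alternatizeUncurryFinCLM ℝ (Fin R → ℝ) ℝ).contDiff.comp h1

private theorem FCom_smul {α : SF R p q} (c : ℝ) (h : α.Smooth) :
    SF.Smooth (fun I t => c • α I t : SF R p q) := fun I => (h I).const_smul c

private theorem FCom_smul_dd (c : ℝ) (α : SF R p q) :
    SF.dd (fun I t => c • α I t : SF R p q) = (fun I t => c • α.dd I t) := by
  funext I t
  exact extDeriv_fun_smul c (α I)

private theorem FCom_zero : SF.Smooth (0 : SF R p q) := fun _ => contDiff_const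

private theorem FCom_zero_dd : SF.dd (0 : SF R p q) = 0 := by
  funext I t
  have h := extDeriv_fun_smul (𝕜 := ℝ) (x := t) (0 : ℝ)
    (fun _ : Fin R → ℝ => (0 : (Fin R → ℝ) [⋀^Fin q]→L[ℝ] ℝ))
  simp only [zero_smul] at h
  exact h

/-- restriction to the coordinates in the image of `ι` -/
private noncomputable def FCom_rs (ι : Fin R' → Fin R) : (Fin R → ℝ) →L[ℝ] (Fin R' → ℝ) :=
  ContinuousLinearMap.pi fun i => ContinuousLinearMap.proj (ι i)

open Classical in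
/-- the superform on `ℝ^R` obtained from one on `ℝ^R'` via the coordinate map `ι` -/
private noncomputable def FCom_ext (ι : Fin R' → Fin R) (α : SF R' p q) : SF R p q := fun I t =>
  ∑ I₁ ∈ Finset.univ.filter (fun I₁ : Fin p → Fin R' => ι ∘ I₁ = I),
    (α I₁ (FCom_rs ι t)).compContinuousLinearMap (FCom_rs ι)

private theorem FCom_sm1 (ι : Fin R' → Fin R) {α : SF R' p q} (h : α.Smooth)
    (I₁ : Fin p → Fin R') : ContDiff ℝ (⊤ : ℕ∞) (fun t : Fin R → ℝ =>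
      (α I₁ (FCom_rs ι t)).compContinuousLinearMap (FCom_rs ι)) := by
  have h1 : ContDiff ℝ (⊤ : ℕ∞) (ContinuousAlternatingMap.compContinuousLinearMapCLM (𝕜 := ℝ)
    (ι := Fin q) (F := ℝ) (FCom_rs ι)) := ContinuousLinearMap.contDiff _
  exact h1.comp ((h I₁).comp (FCom_rs ι).contDiff)

private theorem FCom_sm (ι : Fin R' → Fin R) {α : SF R' p q} (h : α.Smooth) :
    (FCom_ext ι α).Smooth := fun _ => ContDiff.sum fun I₁ _ => FCom_sm1 ι h I₁

private theorem FCom_exsum {E : Type*} [NormedAddCommGroup E] [NormedSpace ℝ E] {J : Type*}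
    (s : Finset J) (ω : J → E → E [⋀^Fin q]→L[ℝ] ℝ) (x : E)
    (h : ∀ j ∈ s, DifferentiableAt ℝ (ω j) x) :
    extDeriv (fun t => ∑ j ∈ s, ω j t) x = ∑ j ∈ s, extDeriv (ω j) x := by
  classical
  induction s using Finset.induction_on with
  | empty =>
    simp only [Finset.sum_empty]
    have := extDeriv_fun_smul (𝕜 := ℝ) (x := x) (0 : ℝ) (fun _ : E => (0 : E [⋀^Fin q]→L[ℝ] ℝ))
    simp only [zero_smul] at this
    exact this
  | insert a s ha ih =>
    simp only [Finset.sum_insert ha]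
    rw [extDeriv_fun_add (h a (Finset.mem_insert_self a s))
      (DifferentiableAt.fun_sum fun j hj => h j (Finset.mem_insert_of_mem hj)),
      ih fun j hj => h j (Finset.mem_insert_of_mem hj)]

private theorem FCom_ext_dd (ι : Fin R' → Fin R) {α : SF R' p q} (h : α.Smooth) :
    (FCom_ext ι α).dd = FCom_ext ι α.dd := by
  funext I t
  unfold SF.dd FCom_ext
  rw [FCom_exsum _ _ t fun I₁ _ => (FCom_sm1 ι h I₁).contDiffAt.differentiableAt (by simp)]
  refine Finset.sum_congr rfl fun I₁ _ => ?_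
  have h1 := extDeriv_pullback (𝕜 := ℝ) (r := (⊤ : ℕ∞)) (ω := α I₁) (f := FCom_rs ι) (x := t)
    ((h I₁).contDiffAt.differentiableAt (by simp)) (FCom_rs ι).contDiff.contDiffAt
    (by
      simp only [minSmoothness_of_isRCLikeNormedField]
      exact WithTop.coe_le_coe.2 (le_top : (2 : ℕ∞) ≤ ⊤))
  simpa only [ContinuousLinearMap.fderiv] using h1

private theorem FCom_add_dd {α β : SF R p q} (hα : α.Smooth) (hβ : β.Smooth) :
    (α + β).dd = α.dd + β.dd := by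
  funext I t
  exact extDeriv_add ((hα I).contDiffAt.differentiableAt (by simp))
    ((hβ I).contDiffAt.differentiableAt (by simp))

/-! ### the pull-back -/

variable {n : ℕ} {Δ : Fan n}

private theorem FCom_pull_zero (y : NR Δ) (F : Fin R → Fin n → ℤ) :
    pullT y F (0 : SF R p q) = 0 := by
  funext δ ε
  unfold pullT
  exact Finset.sum_eq_zero fun I _ => mul_zero _

private theorem FCom_pull_smul (y : NR Δ) (F : Fin R → Fin n → ℤ) (c : ℝ) (α : SF R p q) :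
    pullT y F (fun I t => c • α I t : SF R p q) = c • pullT y F α := by
  funext δ ε
  show pullT y F _ δ ε = c * pullT y F α δ ε
  unfold pullT
  rw [Finset.mul_sum]
  refine Finset.sum_congr rfl fun I _ => ?_
  show _ * (c * α I (fun l => evm y.φ (F l)) _) = _
  ring

private theorem FCom_pull_add (y : NR Δ) (F : Fin R → Fin n → ℤ) (α β : SF R p q) :
    pullT y F (α + β) = pullT y F α + pullT y F β := by
  funext δ ε
  show pullT y F (α + β) δ ε = pullT y F α δ ε + pullT y F β δ ε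
  unfold pullT
  rw [← Finset.sum_add_distrib]
  refine Finset.sum_congr rfl fun I _ => ?_
  rw [← mul_add]
  rfl

private theorem FCom_pull_ext (y : NR Δ) (ι : Fin R' → Fin R) (F : Fin R → Fin n → ℤ)
    (α : SF R' p q) : pullT y F (FCom_ext ι α) = pullT y (F ∘ ι) α := by
  classical
  funext δ ε
  show ∑ I : Fin p → Fin R, (Matrix.of fun k l => evm (δ k) (F (I l))).det *
    FCom_ext ι α I (fun l => evm y.φ (F l)) (fun k l => evm (ε k) (F l)) =
    ∑ I : Fin p → Fin R', (Matrix.of fun k l => evm (δ k) ((F ∘ ι) (I l))).det *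
    α I (fun l => evm y.φ ((F ∘ ι) l)) (fun k l => evm (ε k) ((F ∘ ι) l))
  rw [← Finset.sum_fiberwise_of_maps_to (s := Finset.univ) (t := Finset.univ)
    (g := fun I₁ : Fin p → Fin R' => ι ∘ I₁) (fun _ _ => Finset.mem_univ _)]
  refine Finset.sum_congr rfl fun I _ => ?_
  unfold FCom_ext
  rw [ContinuousAlternatingMap.sum_apply, Finset.mul_sum]
  refine Finset.sum_congr (by congr) fun I₁ hI => ?_
  have e : ι ∘ I₁ = I := (Finset.mem_filter.1 hI).2
  subst e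
  rfl

/-- two local presentations can be put on the same tuple of characters -/
private theorem FCom_comb {R₁ R₂ : ℕ} (F₁ : Fin R₁ → Fin n → ℤ) (F₂ : Fin R₂ → Fin n → ℤ)
    {α₁ : SF R₁ p q} {α₂ : SF R₂ p q} (h₁ : α₁.Smooth) (h₂ : α₂.Smooth) :
    ∃ α : SF (R₁ + R₂) p q, α.Smooth ∧
      (∀ z : NR Δ, pullT z (Fin.append F₁ F₂) α = pullT z F₁ α₁ + pullT z F₂ α₂) ∧
      (∀ z : NR Δ, pullT z (Fin.append F₁ F₂) α.dd = pullT z F₁ α₁.dd + pullT z F₂ α₂.dd) := by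
  have e1 : Fin.append F₁ F₂ ∘ Fin.castAdd R₂ = F₁ := by
    funext i
    exact Fin.append_left F₁ F₂ i
  have e2 : Fin.append F₁ F₂ ∘ Fin.natAdd R₁ = F₂ := by
    funext i
    exact Fin.append_right F₁ F₂ i
  refine ⟨FCom_ext (Fin.castAdd R₂) α₁ + FCom_ext (Fin.natAdd R₁) α₂, ?_, fun z => ?_,
    fun z => ?_⟩
  · exact fun I => (FCom_sm _ h₁ I).add (FCom_sm _ h₂ I)
  · rw [FCom_pull_add, FCom_pull_ext, FCom_pull_ext, e1, e2]
  · rw [FCom_add_dd (FCom_sm _ h₁) (FCom_sm _ h₂), FCom_ext_dd _ h₁, FCom_ext_dd _ h₂,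
      FCom_pull_add, FCom_pull_ext, FCom_pull_ext, e1, e2]

private theorem FCom_perp (i : Δ.ι) {R₁ R₂ : ℕ} {F₁ : Fin R₁ → Fin n → ℤ}
    {F₂ : Fin R₂ → Fin n → ℤ} (h₁ : ∀ l, F₁ l ∈ Δ.perp i) (h₂ : ∀ l, F₂ l ∈ Δ.perp i) :
    ∀ l, Fin.append F₁ F₂ l ∈ Δ.perp i := by
  intro l
  refine Fin.addCases (fun a => ?_) (fun a => ?_) l
  · rw [Fin.append_left]
    exact h₁ a
  · rw [Fin.append_right]
    exact h₂ a

private theorem FCom_val_zero (y : NR Δ) : y.val 0 = 1 := by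
  unfold NR.val
  rw [if_pos (Δ.perp y.i).zero_mem]
  have h : evm y.φ 0 = 0 := by
    unfold evm
    rw [dif_pos (Δ.perp y.i).zero_mem]
    exact y.φ.map_zero
  rw [h, Real.exp_zero]

private theorem FCom_near (y : NR Δ) : ∀ᶠ z in 𝓝 y, Δ.cone z.i ⊆ Δ.cone y.i := by
  have h : IsOpen {z : NR Δ | Δ.cone z.i ⊆ Δ.cone y.i ∧ (0 : ℝ) < z.val 0 ∧ z.val 0 < 2} :=
    TopologicalSpace.isOpen_generateFrom_of_mem ⟨y.i, 0, 0, 2, rfl⟩
  have hy : y ∈ {z : NR Δ | Δ.cone z.i ⊆ Δ.cone y.i ∧ (0 : ℝ) < z.val 0 ∧ z.val 0 < 2} := by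
    refine ⟨subset_rfl, ?_, ?_⟩ <;> rw [FCom_val_zero] <;> norm_num
  filter_upwards [h.mem_nhds hy] with z hz
  exact hz.1

end

theorem thm_FCom : St_FCom := by
  intro n Δ p q
  refine ⟨?_, ?_, ?_, ?_, ?_, ?_, ?_⟩
  · intro y
    refine ⟨0, Fin.elim0, 0, fun l => l.elim0, FCom_zero, ?_⟩
    filter_upwards [FCom_near y] with z hz
    exact ⟨hz, (FCom_pull_zero z _).symm⟩
  · intro ω₁ ω₂ h₁ h₂ y
    obtain ⟨R₁, F₁, α₁, p₁, s₁, e₁⟩ := h₁ y
    obtain ⟨R₂, F₂, α₂, p₂, s₂, e₂⟩ := h₂ y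
    obtain ⟨α, s, a, -⟩ := FCom_comb (Δ := Δ) F₁ F₂ s₁ s₂
    refine ⟨R₁ + R₂, Fin.append F₁ F₂, α, FCom_perp y.i p₁ p₂, s, ?_⟩
    filter_upwards [e₁, e₂] with z hz₁ hz₂
    refine ⟨hz₁.1, ?_⟩
    rw [a z, ← hz₁.2, ← hz₂.2]
    rfl
  · intro c ω h y
    obtain ⟨R, F, α, p₁, s, e⟩ := h y
    refine ⟨R, F, fun I t => c • α I t, p₁, FCom_smul c s, ?_⟩
    filter_upwards [e] with z hz
    refine ⟨hz.1, ?_⟩
    rw [FCom_pull_smul, ← hz.2]
    rfl
  · intro y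
    refine ⟨0, Fin.elim0, 0, fun l => l.elim0, FCom_zero, ?_⟩
    filter_upwards [FCom_near y] with z hz
    refine ⟨hz, (FCom_pull_zero z _).symm, ?_⟩
    rw [FCom_zero_dd]
    exact (FCom_pull_zero z _).symm
  · intro η₁ η₂ ω₁ ω₂ h₁ h₂ y
    obtain ⟨R₁, F₁, α₁, p₁, s₁, e₁⟩ := h₁ y
    obtain ⟨R₂, F₂, α₂, p₂, s₂, e₂⟩ := h₂ y
    obtain ⟨α, s, a, b⟩ := FCom_comb (Δ := Δ) F₁ F₂ s₁ s₂
    refine ⟨R₁ + R₂, Fin.append F₁ F₂, α, FCom_perp y.i p₁ p₂, s, ?_⟩
    filter_upwards [e₁, e₂] with z hz₁ hz₂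
    refine ⟨hz₁.1, ?_, ?_⟩
    · rw [a z, ← hz₁.2.1, ← hz₂.2.1]
      rfl
    · rw [b z, ← hz₁.2.2, ← hz₂.2.2]
      rfl
  · intro c η ω h y
    obtain ⟨R, F, α, p₁, s, e⟩ := h y
    refine ⟨R, F, fun I t => c • α I t, p₁, FCom_smul c s, ?_⟩
    filter_upwards [e] with z hz
    refine ⟨hz.1, ?_, ?_⟩
    · rw [FCom_pull_smul, ← hz.2.1]
      rfl
    · rw [FCom_smul_dd, FCom_pull_smul, ← hz.2.2]
      rfl
  · intro η ω h
    refine ⟨fun y => ?_, fun y => ?_⟩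
    · obtain ⟨R, F, α, p₁, s, e⟩ := h y
      refine ⟨R, F, α, p₁, s, ?_⟩
      filter_upwards [e] with z hz
      exact ⟨hz.1, hz.2.1⟩
    · obtain ⟨R, F, α, p₁, s, e⟩ := h y
      refine ⟨R, F, α.dd, p₁, FCom_dd s, ?_⟩
      filter_upwards [e] with z hz
      exact ⟨hz.1, hz.2.2⟩

end TDC
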