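import Pool.Agent.TDC.DefsF
import Pool.Agent.TDC.FCom

/-!
# TDC: the cohomology groups of superforms on the tropical toric variety `N_ℝ(Σ)`
-/

namespace TDC

open scoped Topology

section cohomology

variable {n : ℕ} (Δ : Fan n) (p q : ℕ)

/-- the space of closed superforms of bidegree `(p,q)` on `N_ℝ(Σ)` -/
def closedT : Submodule ℝ (FamT Δ p q) where
  carrier := {ω | IsDbarT ω 0}
  zero_mem' := (thm_FCom n Δ p q).2.2.2.1
  add_mem' := by
    intro a b ha hb
    have h := (thm_FCom n Δ p q).2.2.2.2.1 a b 0 0 ha hb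
    rw [add_zero] at h
    exact h
  smul_mem' := by
    intro c a ha
    have h := (thm_FCom n Δ p q).2.2.2.2.2.1 c a 0 ha
    rw [smul_zero] at h
    exact h

/-- the space of families with compact support -/
def suppT : Submodule ℝ (FamT Δ p q) where
  carrier := {ω | CSuppT ω}
  zero_mem' := ⟨∅, isCompact_empty, fun _ _ => rfl⟩
  add_mem' := by
    rintro a b ⟨C, hC, h⟩ ⟨C', hC', h'⟩
    refine ⟨C ∪ C', hC.union hC', fun x hx => ?_⟩
    rw [Pi.add_apply, h x fun h0 => hx (Or.inl h0), h' x fun h0 => hx (Or.inr h0), add_zero]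
  smul_mem' := by
    rintro c a ⟨C, hC, h⟩
    exact ⟨C, hC, fun x hx => by rw [Pi.smul_apply, h x hx, smul_zero]⟩

/-- the space of exact superforms of bidegree `(p,q)`: all `d''η`, `η` of bidegree `(p,q-1)` -/
def exactT : (q : ℕ) → Submodule ℝ (FamT Δ p q)
  | 0 => ⊥
  | q + 1 =>
    { carrier := {ω | ∃ η : FamT Δ p q, IsDbarT η ω}
      zero_mem' := ⟨0, (thm_FCom n Δ p q).2.2.2.1⟩
      add_mem' := by
        rintro a b ⟨η, h⟩ ⟨η', h'⟩
        exact ⟨η + η', (thm_FCom n Δ p q).2.2.2.2.1 _ _ _ _ h h'⟩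
      smul_mem' := by
        rintro c a ⟨η, h⟩
        exact ⟨c • η, (thm_FCom n Δ p q).2.2.2.2.2.1 _ _ _ h⟩ }

/-- all `d''η`, `η` of bidegree `(p,q-1)` with compact support -/
def exactTc : (q : ℕ) → Submodule ℝ (FamT Δ p q)
  | 0 => ⊥
  | q + 1 =>
    { carrier := {ω | ∃ η : FamT Δ p q, CSuppT η ∧ IsDbarT η ω}
      zero_mem' := ⟨0, (suppT Δ p q).zero_mem, (thm_FCom n Δ p q).2.2.2.1⟩
      add_mem' := by
        rintro a b ⟨η, hc, h⟩ ⟨η', hc', h'⟩
        exact ⟨η + η', (suppT Δ p q).add_mem hc hc',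
          (thm_FCom n Δ p q).2.2.2.2.1 _ _ _ _ h h'⟩
      smul_mem' := by
        rintro c a ⟨η, hc, h⟩
        exact ⟨c • η, (suppT Δ p q).smul_mem c hc,
          (thm_FCom n Δ p q).2.2.2.2.2.1 _ _ _ h⟩ }

/-- the cohomology group `H^{p,q}(N_ℝ(Σ))` -/
abbrev HT : Type := closedT Δ p q ⧸ (exactT Δ p q).comap (closedT Δ p q).subtype

/-- the cohomology group with compact supports `H_c^{p,q}(N_ℝ(Σ))` -/
abbrev HTc : Type :=
  (closedT Δ p q ⊓ suppT Δ p q : Submodule ℝ (FamT Δ p q)) ⧸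
    (exactTc Δ p q).comap (closedT Δ p q ⊓ suppT Δ p q : Submodule ℝ (FamT Δ p q)).subtype

end cohomology

end TDC
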