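import Pool.Agent.TDC.Defs3

/-!
# TDC: statements of the modules, group 2 (with proofs in the docstrings)
-/

namespace TDC

open scoped Topology
open MeasureTheory Polynomial

/-- **GenA** (uses `Fini`, `Real`, `DetZ`, `IndG`). `ω = F^*α`, `α` of bidegree `(m+1,m+1)`, smooth
with compact support in `U`: modulo `d''(F^*β)` we may assume that the component `α'_I` meets,
in its support, every sheet only separately.
Proof. For every `I` take the finite set `A I` of `Fini`, let `𝒜` be the set of the affine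
subspaces `{c + M s}` (they are sections of `t ↦ t∘I`, so non-empty of dimension `m+1`) and
apply `Real` to `α I`. At a point `x`, in `pull F α x = ∑_I det · α_I(log|F(x)|)(ε(F))` the terms
with `F∘I` not independent vanish (`DetZ`); for the others `x` is a Gauss point (`IndG`),
`log|F(x)|` lies on a sheet `A₀ ∈ A I` and all `ε(F) = M ε(F∘I)` are in its direction, so
`α_I(..)(..) = dβ_I(..)(..) + α'_I(..)(..)`. -/
def St_GenA : Prop :=
  ∀ (K L : Type) [NormedField K] [Field L] [Algebra K L] (m : ℕ), TrLe K L (m + 1) →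
    ∀ (R : ℕ) (F : Fin R → Lˣ) (U : Set (Fin R → ℝ)) (α : SF R (m + 1) (m + 1)), IsOpen U →
      α.CC → (∀ I, tsupport (α I) ⊆ U) →
      ∃ (A : (Fin (m + 1) → Fin R) → Finset (Matrix (Fin R) (Fin (m + 1)) ℝ × (Fin R → ℝ)))
        (β : SF R (m + 1) m) (α' : SF R (m + 1) (m + 1)),
        (∀ I, ∀ A₀ ∈ A I, ∀ (s : Fin (m + 1) → ℝ) (i : Fin (m + 1)),
          (A₀.2 + A₀.1.mulVec s) (I i) = s i) ∧
        (∀ I, ∀ x : Pt (algebraMap K L), Gauss x (F ∘ I) → ∃ A₀ ∈ A I,
          logv x F = A₀.2 + A₀.1.mulVec (logv x (F ∘ I)) ∧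
          ∀ ε : Tan x, ev F ε = A₀.1.mulVec (ev (F ∘ I) ε)) ∧
        β.CC ∧ (∀ I, tsupport (β I) ⊆ U) ∧ α'.CC ∧ (∀ I, tsupport (α' I) ⊆ U) ∧
        (∀ I, ∀ A₀ ∈ A I, ∀ A₁ ∈ A I, ∀ s : Fin (m + 1) → ℝ,
          A₀.2 + A₀.1.mulVec s ∈ tsupport (α' I) →
          A₀.2 + A₀.1.mulVec s = A₁.2 + A₁.1.mulVec s → A₀ = A₁) ∧
        (pull F α : Fam (algebraMap K L) (m + 1) (m + 1)) = pull F β.dd + pull F α'

/-- **GenB**. One component `I`, supports meeting the sheets separately: the form is a finite sum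
of tube forms.
Proof. Let `g = F ∘ I` and `a = α' I`. For `t₀ ∈ tsupport a` not on any sheet take a ball around
`t₀` which misses all sheets (closed sets): for `ψ` supported there the form of `ψ a` is zero (at an
`x` with `g` dependent by `DetZ`, otherwise by the sheets hypothesis, `IndG`).
For `t₀ = A(s₀)`, `A = A₀` (the only sheet through `t₀`, `A(s) = c + M s`), choose `η > 0` such that
`𝒰 = {t : |t∘I - s₀| ≤ η, |t - A(t∘I)| ≤ η}` is contained in `U` and misses all other sheets. Let
`χ(t) = κ(t - A(t∘I))`, `κ` a smooth bump, `1` on the ball of radius `η/2`, `0` outside the ball of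
radius `η`; `lo = s₀ - η`, `hi = s₀ + η`. For a Gauss point `x` of `g` with `s = log|g(x)|` in the
box, `log|F(x)| = A₁(s)` for a sheet `A₁`: if `A₁ = A` then `χ = 1` near `log|F(x)|`, else
`log|F(x)| ∉ 𝒰` so `|t - A(t∘I)| > η` near it and `χ = 0` there: clean. For `ψ` smooth supported
in the open tube (`|t∘I - s₀| < η`, `|t - A(t∘I)| < η/2`), compactly:
`pull F (single I (ψ a)) = tf F g χ b` with `b(s) = ψ(A(s)) a(A(s))(M e_1, …, M e_{m+1})`
(a top form composed with the linear map `M` is its value on the basis times the determinant;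
`ε(F) = M ε(g)`; where `ψ(log|F(x)|) = 0` both sides vanish). `b` is smooth, supported in the box,
since `A(s)∘I = s`. If `x` is not in `O` then `log|F(x)| ∉ U` and `χ(log|F(x)|) = 0` for
Gauss `x` over the box (if it were `1` then `log|F(x)| ∈ 𝒰 ⊆ U`).
Finite cover of the compact set `tsupport a`, smooth partition of unity. -/
def St_GenB : Prop :=
  ∀ (K L : Type) [NormedField K] [Field L] [Algebra K L] (m : ℕ), 
    ∀ (R : ℕ) (F : Fin R → Lˣ) (U : Set (Fin R → ℝ)) (I : Fin (m + 1) → Fin R)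
      (A : Finset (Matrix (Fin R) (Fin (m + 1)) ℝ × (Fin R → ℝ)))
      (a : (Fin R → ℝ) → (Fin R → ℝ) [⋀^Fin (m + 1)]→L[ℝ] ℝ), IsOpen U →
      ContDiff ℝ (⊤ : ℕ∞) a → HasCompactSupport a → tsupport a ⊆ U →
      (∀ A₀ ∈ A, ∀ (s : Fin (m + 1) → ℝ) (i : Fin (m + 1)),
          (A₀.2 + A₀.1.mulVec s) (I i) = s i) →
      (∀ x : Pt (algebraMap K L), Gauss x (F ∘ I) → ∃ A₀ ∈ A,
          logv x F = A₀.2 + A₀.1.mulVec (logv x (F ∘ I)) ∧
          ∀ ε : Tan x, ev F ε = A₀.1.mulVec (ev (F ∘ I) ε)) →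
      (∀ A₀ ∈ A, ∀ A₁ ∈ A, ∀ s : Fin (m + 1) → ℝ, A₀.2 + A₀.1.mulVec s ∈ tsupport a →
          A₀.2 + A₀.1.mulVec s = A₁.2 + A₁.1.mulVec s → A₀ = A₁) →
      ∃ l : List (TD L (m + 1)),
        (∀ D ∈ l, D.Good (algebraMap K L) {x | logv x F ∈ U}) ∧
        (pull F (fun I' t => if I' = I then a t else 0) :
          Fam (algebraMap K L) (m + 1) (m + 1)) = (l.map (TD.form (algebraMap K L))).sum

/-- **Gene** (assembly of `GenA`, `GenB`): every `F^*α` is, modulo exact forms with primitive
vanishing off `O = {x | log|F(x)| ∈ U}`, a finite sum of tube forms vanishing off `O`.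
(`pull F α'` is the sum over `I` of its components; `pull F β.dd ∈ Wx` since outside `O` the point
`log|F(x)|` is not in `U ⊇ tsupport (β I)`, so `β I` and its exterior derivative vanish there;
`β` is properly supported.) -/
def St_Gene : Prop :=
  ∀ (K L : Type) [NormedField K] [Field L] [Algebra K L] (m : ℕ), TrLe K L (m + 1) →
    ∀ (R : ℕ) (F : Fin R → Lˣ) (U : Set (Fin R → ℝ)) (α : SF R (m + 1) (m + 1)), IsOpen U →
      α.CC → (∀ I, tsupport (α I) ⊆ U) →
      ∃ l : List (TD L (m + 1)),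
        (∀ D ∈ l, D.Good (algebraMap K L) {x | logv x F ∈ U}) ∧
        (pull F α : Fam (algebraMap K L) (m + 1) (m + 1)) -
            (l.map (TD.form (algebraMap K L))).sum ∈
          Wx (algebraMap K L) (m + 1) m {x | logv x F ∈ U}

/-- **PUni** (partition of unity). A compactly supported form is globally a pull-back, with support
control. `C` compact, `ω = 0` off `C`, `C ⊆ O` open.
Proof. For `x ∈ C` choose a chart `(F_x, α_x)` valid on an open set `N_x ∋ x`; a basis of
neighbourhoods of `x` is given by `{y : |log|f_i(y)| - log|f_i(x)|| < ε, i ≤ k}`, `f_i ∈ Mˣ`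
(`f = 0` gives no condition; `log` is a homeomorphism on positive reals), so after adding functions
to `F_x` we may assume `{y : log|F_x(y)| ∈ B(log|F_x(x)|, 2ε_x)} ⊆ N_x ∩ O` (combine tuples with
`Fin.append`; a superform on `ℝ^R` is pulled back to `ℝ^{R+R'}`, see `Comb`). Finitely many of
the sets with radius `ε_x` cover `C`. Let `F` be the
concatenation of all `F_{x_j}`, `ρ_j(t)` a smooth bump in the coordinates of `F_{x_j}`, `1` on the
ball of radius `ε`, supported in the ball of radius `2ε`, `ρ = ∑ ρ_j ≥ 1` on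
`log|F|(C)`, `θ(ρ)` smooth with `θ(u) = 1/u` for `u ≥ 1/2` and `θ = 0` near `0`. Then
`ω = pull F α` for `α = κ ∑_j θ(ρ) ρ_j α_{x_j}`, `κ` smooth of compact support, `1` on the compact
set `log|F|(C)`: off `C`: `ω = 0`, and at `y ∉ C` the value of `pull F α` is
`κ θ(ρ) ∑ ρ_j ω(y) = 0`. (For all `y`, `ρ_j(log|F(y)|) ≠ 0` implies
`y ∈ N_{x_j}`, where the chart is valid.) `U` = set of `t` with some coordinates block
`t_j ∈ B(·, 2ε_j)` (open); `tsupport (α I)` is contained in it since the `ρ_j` have support in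
the closed balls of radius `3ε/2` say. -/
def St_PUni : Prop :=
  ∀ (K M : Type) [NormedField K] [Field M] (φ : K →+* M) (p q : ℕ) (ω : Fam φ p q)
    (C O : Set (Pt φ)), IsForm ω → IsCompact C → (∀ x, x ∉ C → ω x = 0) → IsOpen O → C ⊆ O →
    ∃ (R : ℕ) (F : Fin R → Mˣ) (α : SF R p q) (U : Set (Fin R → ℝ)), α.CC ∧ IsOpen U ∧
      (∀ I, tsupport (α I) ⊆ U) ∧ {x : Pt φ | logv x F ∈ U} ⊆ O ∧ ω = pull F α

/-- **Pair**. The same for a pair `(η, ω)` with `ω = d''η` locally: there is one `F` and one `γ`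
with `η = F^*γ`, `ω = F^*(d''γ)` exactly.
Proof. As in `PUni`, `γ = κ ∑_j θ(ρ) ρ_j γ_j`. `d''γ = κθρ_j d''γ_j` summed plus
`∑_j d(κ θ ρ_j) ∧ γ_j`; at a point `y ∈ C'` (`C'` compact, both forms vanish off it; choose
`κ = 1` and `∑θρ_j = 1` near `log|F|(C')`), the values of the pull-backs of all `γ_j` with
`ρ_j ≠ 0` near are equal to `η(y)`, so the second sum has value
`(∑_j d(κθρ_j)(ε(F))) ∧ η(y) = 0` as `κ θ ∑ρ_j = 1` near; at `y ∉ C'`: `η = 0` near `y`
(off a closed set), `ω = 0`, and the sum is `∑_j d(..)∧ 0 + κθρ_j·0`. -/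
def St_Pair : Prop :=
  ∀ (K M : Type) [NormedField K] [Field M] (φ : K →+* M) (p q : ℕ) (η : Fam φ p q)
    (ω : Fam φ p (q + 1)), IsDbar η ω → CSupp η → CSupp ω →
    ∃ (R : ℕ) (F : Fin R → Mˣ) (γ : SF R p q), γ.CC ∧ η = pull F γ ∧ ω = pull F γ.dd

/-- **Comb**. Combining charts: for `(F₁, α₁)`, `(F₂, α₂)` there is `α` on
`ℝ^{R₁+R₂}` with `pull (append F₁ F₂) α = pull F₁ α₁ + pull F₂ α₂`, the same for `dd`, smooth, and
properly supported if `α₁, α₂` are.
Proof: for `ι : Fin R₁ → Fin R` injective let `(ext ι α)_I(t) = ∑_{I₁ : ι∘I₁ = I}` of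
`(α I₁ (t∘ι)).compContinuousLinearMap (restriction to the coordinates ι)`. Then
`pull F (ext ι α) = pull (F∘ι) α`, and `ext` commutes with `dd` (`extDeriv_pullback` for a
linear map). -/
def St_Comb : Prop :=
  ∀ (K M : Type) [NormedField K] [Field M] (φ : K →+* M) (p q R₁ R₂ : ℕ)
    (F₁ : Fin R₁ → Mˣ) (F₂ : Fin R₂ → Mˣ) (α₁ : SF R₁ p q) (α₂ : SF R₂ p q),
    α₁.Smooth → α₂.Smooth →
    ∃ α : SF (R₁ + R₂) p q, α.Smooth ∧ (α₁.PC → α₂.PC → α.PC) ∧
      (pull (Fin.append F₁ F₂) α : Fam φ p q) = pull F₁ α₁ + pull F₂ α₂ ∧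
      (pull (Fin.append F₁ F₂) α.dd : Fam φ p (q + 1)) = pull F₁ α₁.dd + pull F₂ α₂.dd

/-- **WtoD** (uses `Comb`, `CSu`). An element of `Wx` has a primitive which is a compactly supported
form vanishing off `O`: it is a finite sum of `pull F γ.dd` with multiples; combine the charts
(`Comb`); compact support by `CSu`. -/
def St_WtoD : Prop :=
  ∀ (K L : Type) [NormedField K] [Field L] [Algebra K L] (n q : ℕ), TrLe K L n →
    ∀ (O : Set (Pt (algebraMap K L))), ∀ ω ∈ Wx (algebraMap K L) n q O,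
      ∃ η : Fam (algebraMap K L) n q, IsForm η ∧ CSupp η ∧ IsDbar η ω ∧ (∀ x, x ∉ O → η x = 0) ∧
        CSupp ω ∧ IsForm ω

/-! ## Towers -/

/-- **Rank**. `L = L'(t)`, `L'` of transcendence degree `≤ m` over `K`.
(1) `L` has transcendence degree `≤ m+1`.
(2) If `g = (g_1..g_{m+1})` is independent at `x` then there are `g'_1..g'_m ∈ L'ˣ` independent at
`x|L'` and an `f ∈ Lˣ` whose value is free over the values of `L'`.
Proof of (2). Let `g' : Fin r → L'ˣ` be independent at `z = x|L'` with `r` maximal (`r ≤ m` by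
`IndG` and `TrLe`: independent values imply algebraic independence). Then every value of `L'`
has a power in `|K^*| ⟨|g'|⟩`. Two elements `f_1, f_2 ∈ Lˣ` are algebraically
dependent over `L'` (`L'(t)` has transcendence degree one): two monomials of the relation have the
same value, so some `|f_1^a f_2^b| ∈ |L'|`, `(a,b) ≠ 0`. So the values of `L` modulo those which
have a power in `|L'|` have rational rank `≤ 1`, hence `m + 1 ≤ r + 1`, so `r = m`, and the
rank is exactly one: some `f` has a value with no power in `|L'|`, i.e. `Free`. -/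
def St_Rank : Prop :=
  ∀ (K L' L : Type) [NormedField K] [Field L'] [Field L] [Algebra K L'] [Algebra K L]
    [Algebra L' L] [IsScalarTower K L' L] (m : ℕ) (t : Lˣ), TrLe K L' m →
    RatOver L' L (t : L) → TrLe K L (m + 1) ∧
      ∀ (x : Pt (algebraMap K L)) (g : Fin (m + 1) → Lˣ), Indep x g →
        ∃ g' : Fin m → L'ˣ, Indep (res L' x) g' ∧ ∃ f : Lˣ, Free (res L' x) (x.v f)

/-- **KeyE**. Key polynomials exist: if some `f ∈ Lˣ` has a free value, then some polynomial in `t`
has (write `f Q(t) = P(t)`: if both values of `P(t)`, `Q(t)` had a power in `|L'|` so would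
`|f|`), after division by the leading coefficient monic; take one of minimal degree. The degree is
positive (`Q = 1` has value `1`). -/
def St_KeyE : Prop :=
  ∀ (K L' L : Type) [NormedField K] [Field L'] [Field L] [Algebra K L'] [Algebra K L]
    [Algebra L' L] [IsScalarTower K L' L] (t : Lˣ), RatOver L' L (t : L) →
    ∀ (x : Pt (algebraMap K L)) (f : Lˣ), Free (res L' x) (x.v f) →
      ∃ Q : L'[X], KeyPol x (t : L) Q ∧ 0 < Q.natDegree

/-- **Irre**. A key polynomial is irreducible over the completion of `(L', z)`, `z = x|L'`.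
Proof. `F` = completion of `L'` for `z`. The seminorm `P ↦ x.v(P(t))` on `L'[X]` extends by
continuity to a multiplicative norm on `F[X]`: e.g. embed `F` in the completion `L^` of `(L,x)`
isometrically and evaluate at `t`. If `Q = A B` over `F`, `A`, `B` monic of smaller degree (monic
factors), then `|Q(t)| = |A(t)||B(t)|`; if both values had a power in `|L'|` (all values of `F^*` are
values of `L'^*`) so would `|Q(t)|`; say `|A(t)|` has none. Approximate the coefficients of `A` by
elements of `L'`: `A' ∈ L'[X]` monic of the same degree with `|(A - A')(t)| < |A(t)|`, so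
`|A'(t)| = |A(t)|` is free: contradiction to minimality. (If `A = 0` no.) -/
def St_Irre : Prop :=
  ∀ (K L' L : Type) [NontriviallyNormedField K] [Field L'] [Field L] [Algebra K L']
    [Algebra K L] [Algebra L' L] [IsScalarTower K L' L] (t : Lˣ), RatOver L' L (t : L) →
    ∀ (x : Pt (algebraMap K L)) (Q : L'[X]), KeyPol x (t : L) Q → 0 < Q.natDegree →
      Irreducible (Q.map (inc (res L' x).v))

/-- **Root**. The geometry of the fibre over `z`. `F` = completion of `(L', z)`, `A` = algebraic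
closure of `F` with the spectral norm `‖·‖`, `Q ∈ L'[X]` irreducible over `F`, `θ ∈ A` a root of
`Q`. For `x` over `z` with free value of `Q(t)` there is `r > 0`, different from all `‖θ - α‖`,
such that `|P(t)(x)| = |lc P| ∏ max(r, ‖θ - α‖)` over the roots `α` of `P` in `A`.
Proof. Let `L^` be the completion of `(L, x)`; `F → L^` isometric (extension of `L' → L → L^` by
uniform continuity); `Ω` = algebraic closure of `L^` with its spectral norm, a multiplicative
norm extending the one of `L^`. Choose an `F`-embedding `j : A → Ω` (`IsAlgClosed.lift`); it is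
isometric for the spectral norm of `A/F` (uniqueness of the extension of the norm from the
complete field `F` to the algebraic extension `j(A)`, `spectralNorm_unique_field_norm_ext`). In
`Ω`: `Q(t) = lc ∏ (t - j θ_i)` over the roots `θ_i` of `Q` in `A`; the values of `A` have powers in
`|L'|` (for `α ≠ 0`, `‖α‖^k = ` norm of the constant coefficient of the minimal polynomial, in
`|F^*| = |L'^*|`); as `|Q(t)|` is free, some `r := ‖t - jθ_i‖` has no power in `|L'|`, so
it is different from all `‖α‖`, `α ∈ A`. All roots of `Q` are conjugate over `F` (`Q`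
irreducible): replacing `j` by `j ∘ σ`, `σ ∈ Aut(A/F)`, we may assume `θ_i = θ`. For `P ∈ L'[X]`,
`P(t) = lc ∏ (t - jα)` and `‖t - jα‖ = ‖(t - jθ) + j(θ - α)‖ = max(r, ‖θ-α‖)`, the two
norms being different. -/
def St_Root : Prop :=
  ∀ (K L' L : Type) [NontriviallyNormedField K] [Field L'] [Field L] [Algebra K L']
    [Algebra K L] [Algebra L' L] [IsScalarTower K L' L] (t : Lˣ), RatOver L' L (t : L) →
    ∀ (z : Pt (algebraMap K L')) (Q : L'[X]), Irreducible (Q.map (inc z.v)) →
    ∀ θ : AlgebraicClosure z.v.Completion,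
      Polynomial.eval₂ (algebraMap _ (AlgebraicClosure z.v.Completion)) θ (Q.map (inc z.v)) = 0 →
    ∀ x : Pt (algebraMap K L), res L' x = z → Free z (x.v (aeval (t : L) Q)) →
      ∃ r : ℝ, 0 < r ∧
        (∀ α, spectralNorm z.v.Completion (AlgebraicClosure z.v.Completion) (θ - α) ≠ r) ∧
        ∀ P : L'[X], P ≠ 0 → x.v (aeval (t : L) P) = z.v P.leadingCoeff *
          ((((P.map (inc z.v)).map
            (algebraMap z.v.Completion (AlgebraicClosure z.v.Completion))).roots).map
            (fun α => max r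
              (spectralNorm z.v.Completion (AlgebraicClosure z.v.Completion) (θ - α)))).prod

/-- **Uniq** (uses `Irre`, `Root`). The point over `z` is determined by the value of a key polynomial.
Proof. `z = x|L'`; `Q` is irreducible over the completion (`Irre`); fix a root `θ ∈ A`. By `Root`,
`x'`, `x''` are given by the formula with radii `r'`, `r''`; the value of `Q` is a strictly
increasing function of the radius `∏ max(r, ‖θ - θ_i‖)` (monic; one factor is `max(r, 0) = r`, all
factors are positive and non-decreasing), so `r' = r''`; hence `x'` and `x''` agree on all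
polynomials in `t`, so on `L`. -/
def St_Uniq : Prop :=
  ∀ (K L' L : Type) [NontriviallyNormedField K] [Field L'] [Field L] [Algebra K L']
    [Algebra K L] [Algebra L' L] [IsScalarTower K L' L] (t : Lˣ), RatOver L' L (t : L) →
    ∀ (x : Pt (algebraMap K L)) (Q : L'[X]), KeyPol x (t : L) Q → 0 < Q.natDegree →
    ∀ x' x'' : Pt (algebraMap K L), res L' x' = res L' x → res L' x'' = res L' x →
      x'.v (aeval (t : L) Q) = x''.v (aeval (t : L) Q) →
      Free (res L' x) (x'.v (aeval (t : L) Q)) → x' = x''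

/-- **SelU** (uses `Uniq`, `IndG`). A selecting cut-off for `z = x|L'` and `g'` selects `x` for
`(g', q)`, `q = Q(t)`.
Proof. Independence: if `|∏ g'_i^{k_i} q^l| ∈ |K|` then `l = 0` (otherwise `|q|^{|l|} ∈ |L'|`,
against `Free`), then `k = 0`. Gauss by `IndG`. Cleanness: for a Gauss point `y` of `(g', q)` with
`log|(g',q)(y)|` in the ball of radius `ρ` around `log|(g',q)(x)|` (sup norm) `res y` is a Gauss point
of `g'` (a polynomial in the first variables) with `log|g'|` in the ball around `log|g'(z)|`, and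
`log|up F₀ (y)| = log|F₀(res y)|`. Selection: if `log|(g',q)(y)| = log|(g',q)(x)|` and `χ' ≠ 0` then
`res y = z`, `|q(y)| = |q(x)|` free, so `y = x` by `Uniq`. -/
def St_SelU : Prop :=
  ∀ (K L' L : Type) [NontriviallyNormedField K] [Field L'] [Field L] [Algebra K L']
    [Algebra K L] [Algebra L' L] [IsScalarTower K L' L] (t : Lˣ), RatOver L' L (t : L) →
    ∀ (m R : ℕ) (x : Pt (algebraMap K L)) (g' : Fin m → L'ˣ) (F₀ : Fin R → L'ˣ)
      (χ' : (Fin R → ℝ) → ℝ) (Q : L'[X]) (q : Lˣ), Indep (res L' x) g' →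
      Sel (res L' x) F₀ g' χ' → KeyPol x (t : L) Q → 0 < Q.natDegree →
      (q : L) = aeval (t : L) Q →
      Indep x (Fin.snoc (α := fun _ => Lˣ) (up L g') q) ∧
        Sel x (up L F₀) (Fin.snoc (α := fun _ => Lˣ) (up L g') q) χ'

/-- **CleU**. A cut-off from `L'`, clean over `S`, is clean for `(g', q)` over
`{u | (u_1..u_m) ∈ S}`, for every `q ∈ Lˣ` (restriction to `L'` of a Gauss point of `(g', q)` is a
Gauss point of `g'`). -/
def St_CleU : Prop :=
  ∀ (K L' L : Type) [NormedField K] [Field L'] [Field L] [Algebra K L']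
    [Algebra K L] [Algebra L' L] [IsScalarTower K L' L] (m R : ℕ) (F₀ : Fin R → L'ˣ)
    (g' : Fin m → L'ˣ) (χ' : (Fin R → ℝ) → ℝ) (S : Set (Fin m → ℝ)) (q : Lˣ),
    Clean (algebraMap K L') F₀ g' χ' S →
    Clean (algebraMap K L) (up L F₀) (Fin.snoc (α := fun _ => Lˣ) (up L g') q) χ'
      {u | (fun i : Fin m => u i.castSucc) ∈ S}

/-- **Push** (uses `GCpt`, `DetZ`, `IndG`). Far out along the fibre `|Q(t)| = |t|^d`.
Proof. The set of Gauss points `z` of `g'` in `L'` with `log|g'(z)| ∈ C` is compact (`GCpt`), so the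
coefficients of `Q = X^d + ∑_{j<d} c_j X^j` satisfy `|c_j(z)| ≤ B` on it, `B ≥ 1`. Let
`T₀ = d log(B+1) + 1`. At a point `y` over such a `z`: if `|t(y)| ≤ B + 1` then
`|Q(t)(y)| ≤ (B+1)^d < e^{T₀}`; if `|t(y)| > B + 1` then `|Q(t)(y)| = |t(y)|^d`.
Let `y` be a point with both forms not obviously zero. Left side not zero: `(g', q)` independent
(`DetZ`), `res y` Gauss for `g'` (`IndG`), coefficient `≠ 0` so `log|g'| ∈ C`,
`log|q| > T₀`: so `|q| = |t|^d`, `log|q| = d log|t|` and `ev q ε = d ev t ε` (since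
`|q/t^d| = 1`), which gives the factor `d` in both determinants. Right side not zero:
`(g', t)` independent, `log|g'| ∈ C`, `d log|t| > T₀`: so `|t| > B + 1` and again
`|q| = |t|^d`. -/
def St_Push : Prop :=
  ∀ (K L' L : Type) [NormedField K] [Field L'] [Field L] [Algebra K L']
    [Algebra K L] [Algebra L' L] [IsScalarTower K L' L] (t : Lˣ), RatOver L' L (t : L) →
    ∀ (m R : ℕ), TrLe K L' m → ∀ (F₀ : Fin R → L'ˣ) (g' : Fin m → L'ˣ)
      (χ' : (Fin R → ℝ) → ℝ) (C : Set (Fin m → ℝ)) (Q : L'[X]) (q : Lˣ), IsCompact C →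
      Q.Monic → 0 < Q.natDegree → (q : L) = aeval (t : L) Q →
      ∃ T₀ : ℝ, ∀ b : (Fin (m + 1) → ℝ) → ℝ,
        (∀ u, b u ≠ 0 → (fun i : Fin m => u i.castSucc) ∈ C ∧ T₀ < u (Fin.last m)) →
        (tf (up L F₀) (Fin.snoc (α := fun _ => Lˣ) (up L g') q) χ' b :
          Fam (algebraMap K L) (m + 1) (m + 1)) =
        tf (up L F₀) (Fin.snoc (α := fun _ => Lˣ) (up L g') t) χ'
          (fun u => (Q.natDegree : ℝ) ^ 2 * b (Fin.snoc (α := fun _ => ℝ)
            (fun i : Fin m => u i.castSucc) (Q.natDegree * u (Fin.last m))))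

/-- **PhiT** (uses `CleU`). (1) `Phi` of a tube form is a tube form (expansion of the two determinants
along the last column, the signs `(-1)^m` cancel). (2) `Phi` maps moves to moves: the generator
`tf F g χ (∂_j c)` goes to `tf (up F) (g,t) χ (∂_{j} (c ⊗ β))`. -/
def St_PhiT : Prop :=
  ∀ (K L' L : Type) [NormedField K] [Field L'] [Field L] [Algebra K L']
    [Algebra K L] [Algebra L' L] [IsScalarTower K L' L] (t : Lˣ) (m : ℕ) (β : ℝ → ℝ),
    ContDiff ℝ (⊤ : ℕ∞) β → HasCompactSupport β →
    (∀ (R : ℕ) (F₀ : Fin R → L'ˣ) (g' : Fin m → L'ˣ) (χ' : (Fin R → ℝ) → ℝ)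
      (b : (Fin m → ℝ) → ℝ),
      Phi t β (tf F₀ g' χ' b : Fam (algebraMap K L') m m) =
        (tf (up L F₀) (Fin.snoc (α := fun _ => Lˣ) (up L g') t) χ'
          (fun u => b (fun i : Fin m => u i.castSucc) * β (u (Fin.last m))) :
          Fam (algebraMap K L) (m + 1) (m + 1))) ∧
    ∀ ω ∈ W0 (algebraMap K L') m Set.univ,
      Phi t β ω ∈ W0 (algebraMap K L) (m + 1) Set.univ

/-- **TowR**. The rational tower. `L = K(t_0..t_n)`, `L' = K(t_0..t_{n-1}) ⊆ L`.
(`RatOver`: `t_n` is transcendental over `L'` because `t` is algebraically independent; every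
element of `L = L'(t_n)` is a quotient of polynomials.) Also `L` is finitely generated and has
transcendence degree `≤ n`. (1) for all `n`; (2) the step. -/
def St_TowR : Prop :=
  (∀ (K L : Type) [Field K] [Field L] [Algebra K L] (n : ℕ) (t : Fin n → Lˣ), RatN K L n t →
    TrLe K L n ∧ (⊤ : IntermediateField K L).FG) ∧
  ∀ (K L : Type) [Field K] [Field L] [Algebra K L] (n : ℕ) (t : Fin (n + 1) → Lˣ),
    RatN K L (n + 1) t → ∃ (L' : IntermediateField K L) (t' : Fin n → L'ˣ),
      RatN K L' n t' ∧ RatOver L' L (t (Fin.last n) : L) ∧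
        ∀ i : Fin n, ((t' i : L') : L) = t i.castSucc

end TDC
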