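import Pool.Agent.TDC.Defs3

/-!
# TDC: statements of the modules, group 3: the local step and the rational case
-/

namespace TDC

open scoped Topology
open MeasureTheory Polynomial

/-- **PhiO** (uses `CleU`, compare `PhiT`). `Phi` and moves with support control.
Generator `tf F g χ (∂_j c)` of `W0 (algebraMap K L') m {z | log|t'(z)| ∈ V}`, `χ` clean over `S`:
its image is `tf (up F) (g,t) χ (∂_j (c ⊗ β))`, `j` read as `castSucc j`,
`(c ⊗ β)(u) = c(u_1..u_m) β(u_{m+1})`, clean over `{u | (u_1..u_m) ∈ S}` (`CleU`), compact support in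
`{u | (u_1..u_m) ∈ tsupport c, u_{m+1} ∈ tsupport β}`. Support condition: `x` with
`log|(t',t)(x)| ∉ V'`, `(g, t)` independent at `x` (so `g` independent at `res x`),
`log|g| ∈ tsupport c`, `log|t(x)| ∈ tsupport β`: then `log|t'(res x)| ∉ V`, so
`χ(log|F(res x)|) = 0`. -/
def St_PhiO : Prop :=
  ∀ (K L' L : Type) [NormedField K] [Field L'] [Field L] [Algebra K L']
    [Algebra K L] [Algebra L' L] [IsScalarTower K L' L] (t : Lˣ) (m : ℕ) (β : ℝ → ℝ),
    ContDiff ℝ (⊤ : ℕ∞) β → HasCompactSupport β →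
    ∀ (t' : Fin m → L'ˣ) (V : Set (Fin m → ℝ)) (V' : Set (Fin (m + 1) → ℝ)),
      (∀ v ∈ V, ∀ τ ∈ tsupport β, (Fin.snoc (α := fun _ => ℝ) v τ : Fin (m + 1) → ℝ) ∈ V') →
      ∀ ω ∈ W0 (algebraMap K L') m {z | logv z t' ∈ V},
        Phi t β ω ∈ W0 (algebraMap K L) (m + 1)
          {x | logv x (Fin.snoc (α := fun _ => Lˣ) (up L t') t) ∈ V'}

/-- **Newt** (uses `Irre`). The Newton polygon of a key polynomial `Q = X^d + ∑ c_j X^j` at
`z = x|L'` has one slope: `|c_j|^d ≤ |c_0|^{d-j}`.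
Proof: `Q` is irreducible over the completion `F` of `(L', z)`; for a root `θ` in the algebraic
closure `Q` is its minimal polynomial, the spectral norm of `θ` is
`max |c_j|^{1/(d-j)}` (definition of `spectralValue`) and also `|c_0|^{1/d}`
(`spectralNorm_eq_norm_coeff_zero_rpow`). -/
def St_Newt : Prop :=
  ∀ (K L' L : Type) [NontriviallyNormedField K] [Field L'] [Field L] [Algebra K L']
    [Algebra K L] [Algebra L' L] [IsScalarTower K L' L] (t : Lˣ), RatOver L' L (t : L) →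
    ∀ (x : Pt (algebraMap K L)) (Q : L'[X]), KeyPol x (t : L) Q → 0 < Q.natDegree →
      ∀ j < Q.natDegree, (res L' x).v (Q.coeff j) ^ Q.natDegree ≤
        (res L' x).v (Q.coeff 0) ^ (Q.natDegree - j)

/-- **LoPu** (uses `Newt`, `Shri`, `IndG`). The local push. Let `z = x|L'`, `d = deg Q`,
`σ₀ = log|q(x)|`, `τ₀ = log|t(x)|`, and `ρ_θ = |c_0(z)|^{1/d}`.
Facts at `x`: `|t(x)| ≥ ρ_θ` (otherwise `|Q(t)| = |c_0|`, not free, by `Newt`), `|q(x)| ≤ |t(x)|^d`,
and `|q(x)| = |t(x)|^d` if `|t(x)| > ρ_θ`.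
Choice: `ε' > 0` small, `lo = σ₀ - ε₁`, `hi = d τ₀ + d ε`, `lo₂ = d τ₀ + d ε/3`,
`hi₂ = d τ₀ + 2 d ε/3`; `ρ` so small that every Gauss point `z'` of `g'` with
`|log|g'(z')| - log|g'(z)|| < ρ` and `χ' ≠ 0` lies in a given neighbourhood `N' ⊆ N` of `z` (`Shri` for
`L'` and the selecting property: near the other points of the fibre `χ' = 0`), and
`χ'` is clean over the ball of radius `ρ`. If `c_0(z) ≠ 0`: on `N'`
`|c_j(z')| ≤ (ρ_θ e^{ε'})^{d-j}` for `j < d`, and `|c_0(z')| = |c_0|`-close: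
`|c_0(z')| ≥ ρ_θ^d e^{-ε'}`. (If `c_0(z) = 0` then all `c_j(z) = 0`, `j < d`, so `Q = X^d`, hence
`Q = X` by minimality, `q = t`, everything trivial.) So over `z' ∈ N'`: (i) if
`|t(y)| > ρ_θ e^{ε'}` then `|q(y)| = |t(y)|^d`; (ii) if
`|t(y)| ≤ ρ_θ e^{ε'}` then `|q(y)| ≤ (ρ_θ e^{ε'})^d`.
(b) upper bound: in case (i) `log|t(y)| = log|q(y)|/d < hi/d = τ₀ + ε`; in case (ii)
`log|t(y)| ≤ log ρ_θ + ε' ≤ τ₀ + ε'`. Lower bound: if `|t(x)| > ρ_θ` choose `ε', ε₁` with
`d (log ρ_θ + ε') < d τ₀ - ε₁`: case (ii) is impossible and `log|t(y)| > lo/d ≥ τ₀ - ε`. If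
`|t(x)| = ρ_θ` and `|t(y)| ≤ ρ_θ e^{-ε}` then (as `d ε' < ε`) the constant term dominates:
`|q(y)| = |c_0(z')| ∈ |L'|`; but all values of `L'` at `res y` have a power in `|K^*| ⟨|g'|⟩` (`TrLe`:
`m+1` elements of `L'` are algebraically dependent, `g'` independent), so `(g', q)` would not be
independent at `y`.
(c) `lo₂ < log|q(y)|` or `lo₂ < d log|t(y)|` excludes case (ii) when `ε' < ε/3`. -/
def St_LoPu : Prop :=
  ∀ (K L' L : Type) [NontriviallyNormedField K] [Field L'] [Field L] [Algebra K L']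
    [Algebra K L] [Algebra L' L] [IsScalarTower K L' L] (t : Lˣ), RatOver L' L (t : L) →
    ∀ (m R : ℕ), TrLe K L' m → ∀ (x : Pt (algebraMap K L)) (g' : Fin m → L'ˣ)
      (F₀ : Fin R → L'ˣ) (χ' : (Fin R → ℝ) → ℝ) (Q : L'[X]) (q : Lˣ),
      Indep (res L' x) g' → Sel (res L' x) F₀ g' χ' → KeyPol x (t : L) Q → 0 < Q.natDegree →
      (q : L) = aeval (t : L) Q →
      ∀ N : Set (Pt (algebraMap K L')), IsOpen N → res L' x ∈ N → ∀ ε > 0,
      ∃ ρ lo hi lo₂ hi₂ : ℝ, 0 < ρ ∧ lo < Real.log (x.v q) ∧ Real.log (x.v q) < hi ∧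
        lo ≤ lo₂ ∧ lo₂ < hi₂ ∧ hi₂ ≤ hi ∧
        Clean (algebraMap K L') F₀ g' χ' (Metric.ball (logv (res L' x) g') ρ) ∧
        (∀ z' : Pt (algebraMap K L'), Indep z' g' →
          logv z' g' ∈ Metric.ball (logv (res L' x) g') ρ → χ' (logv z' F₀) ≠ 0 → z' ∈ N) ∧
        (∀ y : Pt (algebraMap K L), Indep y (Fin.snoc (α := fun _ => Lˣ) (up L g') q) →
          logv (res L' y) g' ∈ Metric.ball (logv (res L' x) g') ρ →
          lo < Real.log (y.v q) → Real.log (y.v q) < hi → χ' (logv (res L' y) F₀) ≠ 0 →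
          |Real.log (y.v t) - Real.log (x.v t)| < ε) ∧
        (∀ y : Pt (algebraMap K L), Indep (res L' y) g' →
          logv (res L' y) g' ∈ Metric.ball (logv (res L' x) g') ρ → χ' (logv (res L' y) F₀) ≠ 0 →
          (lo₂ < Real.log (y.v q) ∧ Real.log (y.v q) < hi₂) ∨
            (lo₂ < Q.natDegree * Real.log (y.v t) ∧ Q.natDegree * Real.log (y.v t) < hi₂) →
          y.v q = y.v t ^ Q.natDegree) ∧
        Q.natDegree * (Real.log (x.v t) - ε) < lo₂ ∧ hi₂ < Q.natDegree * (Real.log (x.v t) + ε)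

/-- **StA** (uses `Mov`, `LoPu`, `CleU`, `PhiT`, `IndG`). One point of the fibre. `T = (t', t)`.
Let `ε > 0` with `ball(log|T(x)|, ε) ⊆ V'` (sup norm), `N = {z | dist (log|t'(z)|) (log|t'(res x)|) < ε}`;
`LoPu` gives `ρ, lo, hi, lo₂, hi₂`. Let `S = ball(log|g'(z)|, ρ) × (lo, hi)`, an open box
containing `log|(g', q)(x)|` (the sup norm ball is a box; for `m = 0` it is everything). `χ'` is clean
over `S` (`CleU`). Given `SC b S`: `Mov` on the box `S`; support condition: if `y` is not in the set,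
`h = (g', q)` independent at `y`, over `S` and `χ'(log|F₀(res y)|) ≠ 0` then `res y ∈ N` (`g'` is
independent at `res y`) and `|log|t(y)| - log|t(x)|| < ε`, so `log|T(y)| ∈ V'`, contradiction. So
modulo `W0` we may replace `b` by `b'(u_1..u_m) β̃(u_{m+1})`, `b'` smooth with compact support in the
ball and `∫ b' = 1`, `β̃` smooth with compact support in `(lo₂, hi₂)`, `∫ β̃ = ∫ b`. By the
fourth property of `LoPu`, `|q| = |t|^d` at every `y` where one of the two sides is not zero, so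
`tf (up F₀) (g', q) χ' (b'⊗β̃) = tf (up F₀) (g', t) χ' (b'⊗β)`, `β(τ) = d² β̃(d τ)`
(`log|q| = d log|t|`, `ev q = d ev t` since `|q/t^d| = 1`), and this is
`Phi t β (tf F₀ g' χ' b')` (`PhiT`). The data `(F₀, g', χ', ball, b')` are good for
`V_e = ball(log|t'(z)|, ε)` by the second property of `LoPu`;
`tsupport β ⊆ (log|t(x)| - ε, log|t(x)| + ε)`. -/
def St_StA : Prop :=
  ∀ (K L' L : Type) [NontriviallyNormedField K] [Field L'] [Field L] [Algebra K L']
    [Algebra K L] [Algebra L' L] [IsScalarTower K L' L] (m : ℕ) (t : Lˣ) (t' : Fin m → L'ˣ),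
    RatOver L' L (t : L) → TrLe K L' m → ∀ (V' : Set (Fin (m + 1) → ℝ)), IsOpen V' →
    ∀ (R : ℕ) (x : Pt (algebraMap K L)) (g' : Fin m → L'ˣ)
      (F₀ : Fin R → L'ˣ) (χ' : (Fin R → ℝ) → ℝ) (Q : L'[X]) (q : Lˣ),
      Indep (res L' x) g' → Sel (res L' x) F₀ g' χ' → KeyPol x (t : L) Q → 0 < Q.natDegree →
      (q : L) = aeval (t : L) Q →
      logv x (Fin.snoc (α := fun _ => Lˣ) (up L t') t) ∈ V' →
      ∃ S ∈ 𝓝 (logv x (Fin.snoc (α := fun _ => Lˣ) (up L g') q)),
        ∀ b : (Fin (m + 1) → ℝ) → ℝ, SC b S →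
          ∃ e : TD L' m × Set (Fin m → ℝ) × (ℝ → ℝ),
            (IsOpen e.2.1 ∧ e.1.Good (algebraMap K L') {z | logv z t' ∈ e.2.1} ∧
              ContDiff ℝ (⊤ : ℕ∞) e.2.2 ∧ HasCompactSupport e.2.2 ∧
              ∀ v ∈ e.2.1, ∀ τ ∈ tsupport e.2.2,
                (Fin.snoc (α := fun _ => ℝ) v τ : Fin (m + 1) → ℝ) ∈ V') ∧
            (tf (up L F₀) (Fin.snoc (α := fun _ => Lˣ) (up L g') q) χ' b -
                Phi t e.2.2 (e.1.form (algebraMap K L')) :
              Fam (algebraMap K L) (m + 1) (m + 1)) ∈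
              W0 (algebraMap K L) (m + 1)
                {x | logv x (Fin.snoc (α := fun _ => Lˣ) (up L t') t) ∈ V'}

/-- **StB** (uses `Mov`, `Spli`, `Chan`, `SelE`, `FinF`, `GenI`, `DetZ`). Reduction of tube data to
small bumps at finitely many points, in coordinates chosen in advance for every point.
Proof. `D = (F,g,χ,lo,hi,b)`. If the box is empty, `b = 0` and the form is `0` (`X = ∅`). Otherwise
let `s₁ ∈ box` be generic (`GenI`), `X` the finite (`FinF`) set of the Gauss points `x` of `g` with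
`log|g(x)| = s₁`, `χ(log|F(x)|) ≠ 0`; they are independent (`GenI`) and in `O` by the support
condition. `SelE` gives `(F'_x, χ'_x)` selecting `x ∈ X` for `g`; `Chan` compares with the given
`(Ff x, hf x, χf x)`: `M_x`, `δ_x`. Let `δ > 0` be smaller than the `δ` of `Spli`, all `δ_x`, with
`ball(s₁, δ) ⊆ box`, and such that `‖M_x(u - log|h(x)|)‖ ≤ δ` implies `u ∈ interior (Sf x)`
(`M_x` invertible). Let `b̃` be smooth, with compact support in `ball(s₁, δ/2)` and the same
integral as `b`. `Mov`: `D.form ≡ tf F g χ b̃` modulo `W0 O`; `Spli`, `Chan`: this is the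
sum over `X` of `tf (Ff x) (hf x) (χf x) b_x`, `b_x(u) = det(M_x)² b̃(s₁ + M_x(u - log|h(x)|))`. -/
def St_StB : Prop :=
  ∀ (K L : Type) [NontriviallyNormedField K] [Field L] [Algebra K L] (n : ℕ),
    (Set.range fun a : K => ‖a‖).Countable → TrLe K L n → (⊤ : IntermediateField K L).FG →
    ∀ (O : Set (Pt (algebraMap K L))) (D : TD L n), D.Good (algebraMap K L) O →
    ∀ (Rf : Pt (algebraMap K L) → ℕ) (Ff : ∀ x, Fin (Rf x) → Lˣ)
      (hf : Pt (algebraMap K L) → Fin n → Lˣ) (χf : ∀ x, (Fin (Rf x) → ℝ) → ℝ)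
      (Sf : Pt (algebraMap K L) → Set (Fin n → ℝ)),
      (∀ x, Indep x D.g → x ∈ O →
        Indep x (hf x) ∧ Sel x (Ff x) (hf x) (χf x) ∧ Sf x ∈ 𝓝 (logv x (hf x))) →
      ∃ (X : Finset (Pt (algebraMap K L))) (bf : Pt (algebraMap K L) → (Fin n → ℝ) → ℝ),
        (∀ x ∈ X, Indep x D.g ∧ x ∈ O ∧ SC (bf x) (Sf x)) ∧
        D.form (algebraMap K L) - ∑ x ∈ X, tf (Ff x) (hf x) (χf x) (bf x) ∈
          W0 (algebraMap K L) n O

/-- **Step** (assembly of `StA`, `StB` with `Rank`, `KeyE`, `SelE`, `SelU`, `IndG`). The local step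
of the induction, `L = L'(t)`, `T = (t', t)`.
Proof. For every `x` with `D.g` independent at `x` and `log|T(x)| ∈ V'`: `Rank` gives `g'`
independent at `res x` and an element with free value, `KeyE` a key polynomial `Q` of positive
degree, `q` the unit `Q(t)` (its value is positive, being free), `SelE` for `L'` gives `(F₀, χ')`
selecting `res x` for `g'`, `SelU`: `(up F₀, χ')` selects `x` for `h = (g', q)`, independent at `x`;
`StA` gives the neighbourhood `S` of `log|h(x)|`. (Choose all this with `Classical.choice`,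
arbitrary data at the other `x`.) `StB`, then `StA` for every `x ∈ X`. -/
def St_Step : Prop :=
  ∀ (K L' L : Type) [NontriviallyNormedField K] [Field L'] [Field L] [Algebra K L']
    [Algebra K L] [Algebra L' L] [IsScalarTower K L' L] (m : ℕ) (t : Lˣ) (t' : Fin m → L'ˣ),
    (Set.range fun a : K => ‖a‖).Countable → RatOver L' L (t : L) → TrLe K L' m →
    (⊤ : IntermediateField K L').FG → (⊤ : IntermediateField K L).FG →
    ∀ (V' : Set (Fin (m + 1) → ℝ)), IsOpen V' →
    ∀ D : TD L (m + 1), D.Good (algebraMap K L)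
        {x | logv x (Fin.snoc (α := fun _ => Lˣ) (up L t') t) ∈ V'} →
      ∃ l : List (TD L' m × Set (Fin m → ℝ) × (ℝ → ℝ)),
        (∀ e ∈ l, IsOpen e.2.1 ∧ e.1.Good (algebraMap K L') {z | logv z t' ∈ e.2.1} ∧
          ContDiff ℝ (⊤ : ℕ∞) e.2.2 ∧ HasCompactSupport e.2.2 ∧
          ∀ v ∈ e.2.1, ∀ τ ∈ tsupport e.2.2,
            (Fin.snoc (α := fun _ => ℝ) v τ : Fin (m + 1) → ℝ) ∈ V') ∧
        D.form (algebraMap K L) -
            (l.map fun e => Phi t e.2.2 (e.1.form (algebraMap K L'))).sum ∈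
          W0 (algebraMap K L) (m + 1)
            {x | logv x (Fin.snoc (α := fun _ => Lˣ) (up L t') t) ∈ V'}

/-- **LocR** (uses `Step`, `PhiT`, `PhiO`, `TowR`). The rational case, local version: over
`{x | log|t(x)| ∈ V}` every tube form is equivalent to some `t^*(b)`, `b` supported in `V`.
Proof: induction on `n`. `n = 0`: `L = K` (`adjoin ∅ = ⊤`), `Pt` has one point (or none) and
a form of type `(0,0)` is a number `c`; if `V` is empty the form is `0` by `Good` (every `x` is not in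
`O`, independence over the empty tuple holds, or `b = 0`), else take `b = c` (a function on the
one-point space). `n + 1`: `TowR` gives `L'`, `t'` and `t = t_n`; `Step`; by induction
`D'.form = std t' b' + w`, `w ∈ W0 … V_e`, `SC b' V_e`; `Phi t β (std t' b') = std t (b' ⊗ β)`
(`PhiT` with `R = 0`, `χ = 1`), `SC (b'⊗β) V'`, and `Phi t β w ∈ W0 … V'` (`PhiO`). Sum up. -/
def St_LocR : Prop :=
  ∀ (K L : Type) [NontriviallyNormedField K] [Field L] [Algebra K L] (n : ℕ) (t : Fin n → Lˣ),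
    (Set.range fun a : K => ‖a‖).Countable → RatN K L n t →
    ∀ (V : Set (Fin n → ℝ)), IsOpen V → ∀ D : TD L n,
      D.Good (algebraMap K L) {x | logv x t ∈ V} →
      ∃ b : (Fin n → ℝ) → ℝ, SC b V ∧
        D.form (algebraMap K L) - std (algebraMap K L) t b ∈
          W0 (algebraMap K L) n {x | logv x t ∈ V}

/-- **FldA** (uses `PUni`, `Gene`, `LocR`, `EM`, `WtoD`, `TowR`). The theorem over the function field,
local version: a form of type `(n,n)` with compact support over the open set `V ⊆ ℝ^n` is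
`t^*(b) + d''η`, `SC b V`, `η` a form with compact support vanishing off `{x | log|t(x)| ∈ V}`.
Proof: `PUni` with `O = {x | log|t(x)| ∈ V}` (open) gives `ω = pull F α` with
`{x | log|F(x)| ∈ U} ⊆ O`; `Gene` gives tube data good for the smaller set, hence for `O`, and
`Wx` for the smaller set is contained in `Wx` for `O`; `LocR`; `EM`; `WtoD`. -/
def St_FldA : Prop :=
  ∀ (K L : Type) [NontriviallyNormedField K] [Field L] [Algebra K L] (m : ℕ)
    (t : Fin (m + 1) → Lˣ), (Set.range fun a : K => ‖a‖).Countable → RatN K L (m + 1) t →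
    ∀ (V : Set (Fin (m + 1) → ℝ)), IsOpen V →
    ∀ (ω : Fam (algebraMap K L) (m + 1) (m + 1)) (C : Set (Pt (algebraMap K L))), IsForm ω →
      IsCompact C → (∀ x, x ∉ C → ω x = 0) → (∀ x ∈ C, logv x t ∈ V) →
      ∃ (b : (Fin (m + 1) → ℝ) → ℝ) (η : Fam (algebraMap K L) (m + 1) m), SC b V ∧
        IsForm η ∧ CSupp η ∧ (∀ x, logv x t ∉ V → η x = 0) ∧
        IsDbar η (ω - std (algebraMap K L) t b)

/-- **StdF** (uses `GCpt`, `CSu`). `t^*(b)` for `b` smooth with compact support is a form with compact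
support: `std φ t b = pull t (top b)`; `top b` is properly supported. -/
def St_StdF : Prop :=
  ∀ (K L : Type) [NormedField K] [Field L] [Algebra K L] (n : ℕ) (t : Fin n → Lˣ)
    (b : (Fin n → ℝ) → ℝ), TrLe K L n → ContDiff ℝ (⊤ : ℕ∞) b → HasCompactSupport b →
    (pull t (top b) : Fam (algebraMap K L) n n) = std (algebraMap K L) t b ∧
      IsForm (std (algebraMap K L) t b) ∧ CSupp (std (algebraMap K L) t b)

end TDC
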