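import Pool.Agent.TDC.St4

/-!
# TDC: statements of the modules, group 6: the kernel of `b ↦ [t^*b]`
-/

namespace TDC

open scoped Topology
open MeasureTheory AlgebraicGeometry CategoryTheory

/-- **ZerC** (uses `Div`, `EM`, `WtoD`, `StdF`, `UpA`, `ExtE`). If `∫ b = 0` then `t^*(b)` is
`d''` of a compactly supported form.
Proof. The support of `b` is contained in a box, so by `Div` `b = ∑ ∂_j c_j`, `c_j` smooth with compact
support in the box. Over the function field `L = κ(η)`: `std t b = ∑_j tf F₀ t 1 (∂_j c_j)`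
(`F₀` the empty tuple, `R = 0`, `χ = 1`, which is clean), so `std t b ∈ W0 ⊤`, hence in `Wx` (`EM`), so
(`WtoD`) there is a compactly supported form `η` with `IsDbar η (std t b)`. Extend `η` by zero
(`ExtE`, `UpA`); `ω₀` is the extension of `std t b` by zero (`StdF`: `pull t (top b) = std t b`). -/
def St_ZerC : Prop :=
  ∀ (K : Type) [NormedField K] (X : Scheme.{0}) [IsIntegral X]
    (s : X ⟶ Spec (.of K)) (m : ℕ) (t : Fin (m + 1) → (X.residueField (genericPoint X))ˣ),
    @TrLe K (X.residueField (genericPoint X)) _ _ (kmap s (genericPoint X)).toAlgebra (m + 1) →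
    ∀ (b : (Fin (m + 1) → ℝ) → ℝ) (ω₀ : FamA s (m + 1) (m + 1)),
      ContDiff ℝ (⊤ : ℕ∞) b → HasCompactSupport b → ∫ u, b u = 0 → IsTrop t b ω₀ →
      ∃ η : FamA s (m + 1) m, IsFormA η ∧ CSuppA η ∧ IsDbarA η ω₀

/-- **DnD** (uses `EmbA` (1)). Restriction of pairs to the generic points: evaluate the units at the
generic point; `gen s` is continuous. (If the chart is on `U` near `gen s v` then
`η ∈ U`.) -/
def St_DnD : Prop :=
  ∀ (K : Type) [NormedField K] (X : Scheme.{0}) [IsIntegral X] (s : X ⟶ Spec (.of K)) (p q : ℕ)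
    (η : FamA s p q) (ω : FamA s p (q + 1)), IsDbarA η ω →
    IsDbar (fun v => η (gen s v) : Fam (kmap s (genericPoint X)) p q)
      (fun v => ω (gen s v) : Fam (kmap s (genericPoint X)) p (q + 1))

/-- **InjF** (phase 2, see `StT.lean`). Injectivity over the function field. -/
def St_InjF : Prop :=
  ∀ (K L : Type) [NontriviallyNormedField K] [IsUltrametricDist K] [Field L] [Algebra K L] (m : ℕ)
    (t : Fin (m + 1) → Lˣ), (Set.range fun a : K => ‖a‖).Countable → RatN K L (m + 1) t →
    ∀ (R : ℕ) (F : Fin R → Lˣ) (γ : SF R (m + 1) m) (b : (Fin (m + 1) → ℝ) → ℝ), γ.PC →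
      ContDiff ℝ (⊤ : ℕ∞) b → HasCompactSupport b →
      (∀ y : Pt (algebraMap K L), pull F γ.dd y = pull t (top b) y) → ∫ u, b u = 0

/-- **InjC** (uses `InjF`, `DnD`, `DnA`, `Pair`, `StdF`, `TowR`). Injectivity on `X^an`: if
`t^*(b) = d''η` with `η` of compact support then `∫ b = 0`.
Proof. `IsDbarA η ω₀` makes both forms (`IsFormA`: same charts, `α.dd` is smooth if
`α` is). Restrict to the generic points: `IsDbar` (`DnD`), compact supports (`DnA` for `η`; for `ω₀`:
its restriction is `pull t (top b) = std t b`, `StdF`). `Pair` gives one chart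
`(F, γ)`, `γ.CC`, with `η = pull F γ`, `pull t (top b) = pull F γ.dd`; `γ.CC` implies
`γ.PC` (`C` = image of the support under `t ↦ t ∘ I`). `InjF`. -/
def St_InjC : Prop :=
  ∀ (K : Type) [NontriviallyNormedField K] [IsUltrametricDist K] (X : Scheme.{0}) [IsIntegral X]
    (s : X ⟶ Spec (.of K)) (m : ℕ) (t : Fin (m + 1) → (X.residueField (genericPoint X))ˣ),
    (Set.range fun a : K => ‖a‖).Countable →
    @RatN K (X.residueField (genericPoint X)) _ _ (kmap s (genericPoint X)).toAlgebra (m + 1) t →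
    ∀ (b : (Fin (m + 1) → ℝ) → ℝ) (ω₀ : FamA s (m + 1) (m + 1)) (η : FamA s (m + 1) m),
      ContDiff ℝ (⊤ : ℕ∞) b → HasCompactSupport b → IsTrop t b ω₀ → CSuppA η → IsDbarA η ω₀ →
      ∫ u, b u = 0

end TDC
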