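import Pool.Agent.TDC.StG
import Pool.Agent.TDC.St2
import Pool.Agent.TDC.St3
import Pool.Agent.TDC.St6

/-!
# TDC, toric side: final form of the comparison in terms of forms
-/

namespace TDC

open scoped Topology
open MeasureTheory AlgebraicGeometry CategoryTheory

/-- **GFin**. For a toric variety of dimension `m+1`: `trop^*` is surjective and injective on
`H^{m+1,m+1}` and on `H_c^{m+1,m+1}`, in terms of forms. -/
def St_GFin : Prop :=
  ∀ (K : Type) [NontriviallyNormedField K] [IsUltrametricDist K],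
    (Set.range fun a : K => ‖a‖).Countable →
    ∀ (m : ℕ) (Δ : Fan (m + 1)) (X : Scheme.{0}) [IsIntegral X] (s : X ⟶ Spec (.of K))
      (τ : Toric Δ s) (T : An s → NR Δ) (hT : IsTropMap τ T),
      (∀ ω : FamA s (m + 1) (m + 1), IsFormA ω →
        ∃ α : FamT Δ (m + 1) (m + 1), IsFormT α ∧ ∃ η : FamA s (m + 1) m,
          IsDbarA η (ω - tropPull τ T hT (m + 1) (m + 1) α)) ∧
      (∀ α : FamT Δ (m + 1) (m + 1), IsFormT α → ∀ η : FamA s (m + 1) m,
        IsDbarA η (tropPull τ T hT (m + 1) (m + 1) α) →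
          ∃ β : FamT Δ (m + 1) m, IsDbarT β α) ∧
      (∀ ω : FamA s (m + 1) (m + 1), IsFormA ω → CSuppA ω →
        ∃ α : FamT Δ (m + 1) (m + 1), IsFormT α ∧ CSuppT α ∧ ∃ η : FamA s (m + 1) m,
          CSuppA η ∧ IsDbarA η (ω - tropPull τ T hT (m + 1) (m + 1) α)) ∧
      (∀ α : FamT Δ (m + 1) (m + 1), IsFormT α → CSuppT α → ∀ η : FamA s (m + 1) m,
        CSuppA η → IsDbarA η (tropPull τ T hT (m + 1) (m + 1) α) →
          ∃ β : FamT Δ (m + 1) m, CSuppT β ∧ IsDbarT β α)

private theorem GFin_dx {m : ℕ} : (dx (id : Fin m → Fin m)) (fun k => Pi.single k 1) = 1 := by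
  rw [dx_apply]
  have : (Matrix.of fun i j => (Pi.single i 1 : Fin m → ℝ) (id j)) = 1 := by
    ext i j
    rw [Matrix.of_apply, id, Matrix.one_apply, Pi.single_apply]
    exact if_congr eq_comm rfl rfl
  rw [this, Matrix.det_one]

private theorem GFin_supp {m : ℕ} (b : (Fin m → ℝ) → ℝ) :
    Function.support (fun u => b u • dx (id : Fin m → Fin m)) = Function.support b := by
  ext u
  rw [Function.mem_support, Function.mem_support]
  constructor
  · intro h h0
    exact h (by rw [h0, zero_smul])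
  · intro h h0
    apply h
    have := congrArg (fun g : (Fin m → ℝ) [⋀^Fin m]→L[ℝ] ℝ => g fun k => Pi.single k 1) h0
    simp only [ContinuousAlternatingMap.smul_apply, GFin_dx, smul_eq_mul, mul_one] at this
    exact this

private theorem GFin_tsupp {m : ℕ} (b : (Fin m → ℝ) → ℝ) :
    tsupport (fun u => b u • dx (id : Fin m → Fin m)) = tsupport b := by
  unfold tsupport
  rw [GFin_supp]

theorem thm_GFin (hDec : St_GDec) (hCmp : St_GCmp) (hTop : St_FTop) (hCS : St_FCS)
    (hCpl : St_GCpl) (hInj : St_InjC) (hCor : St_GCor) (hStd : St_GStd) (hPul : St_GPul)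
    (hDnA : St_DnA) (hStdF : St_StdF) (hTowR : St_TowR) (hComb : St_CombA)
    (hZero : St_FZero) : St_GFin := by
  intro K _ _ hK m Δ X _ s τ T hT
  obtain ⟨i₀, hi₀⟩ := (hZero (m + 1) Δ).1
  obtain ⟨t, ht, hRat⟩ := (hCor (m + 1) Δ K X s τ).2
  let _ := (kmap s (genericPoint X)).toAlgebra
  have hTr : TrLe K (X.residueField (genericPoint X)) (m + 1) := (hTowR.1 K _ (m + 1) t hRat).1
  obtain ⟨-, hstd2, hstd3⟩ := hStd (m + 1) Δ i₀ K X s τ T hT t hi₀ ht
  obtain ⟨hT1, hT2, hT3, hT4, hT5⟩ := hTop m Δ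
  -- injectivity with compact supports
  have injc : ∀ α : FamT Δ (m + 1) (m + 1), IsFormT α → CSuppT α → ∀ η : FamA s (m + 1) m,
      CSuppA η → IsDbarA η (tropPull τ T hT (m + 1) (m + 1) α) →
        ∃ β : FamT Δ (m + 1) m, CSuppT β ∧ IsDbarT β α := by
    intro α hα hαc η hηc hη
    obtain ⟨b, hb, hbF, rfl⟩ := (hT2 α).1 hα
    have hbF' : Fine Δ (tsupport fun u => b u • dx (id : Fin (m + 1) → Fin (m + 1))) := by
      rw [GFin_tsupp]; exact hbF
    have hbc : HasCompactSupport b := by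
      have h1 := (hCS (m + 1) Δ (m + 1) (fun u => b u • dx id) hbF').1 hαc
      have h2 : IsCompact (tsupport fun u => b u • dx (id : Fin (m + 1) → Fin (m + 1))) := h1
      rw [GFin_tsupp] at h2
      exact h2
    have hform := (hPul (m + 1) Δ K X s τ T hT (m + 1) (m + 1)).1 _ hα
    have hext := (hDnA K X s (m + 1) (m + 1) hTr _ hform).2.1
    have htrop : IsTrop t b (tropPull τ T hT (m + 1) (m + 1)
        (extT Δ fun u => b u • dx id)) := by
      refine ⟨fun v => ?_, fun x hx => hext.2 x hx⟩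
      have h1 := hstd3 b v
      have h2 := (hStdF K (X.residueField (genericPoint X)) (m + 1) t b hTr hb hbc).1
      have h3 := congrFun h2 v
      exact h1.trans h3.symm
    have hint := hInj K X s m t hK hRat b _ η hb hbc htrop hηc hη
    obtain ⟨β, hβc, hβ⟩ := ((hT5 b hb hbc).2.2).1 hint
    exact ⟨β, hβc, hβ⟩
  refine ⟨?_, ?_, ?_, injc⟩
  · intro ω hω
    obtain ⟨b, η, hb, hbF, -, hη⟩ := hDec m Δ K X s τ T hT hK ω hω
    exact ⟨extT Δ fun u => b u • dx id, (hT2 _).2 ⟨b, hb, hbF, rfl⟩, η, hη⟩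
  · intro α hα η hη
    by_cases hc : Δ.Complete
    · have hηf : IsFormA η := ((hComb K X s (m + 1) m).2.2.2.2.2.2 η _ hη).1
      have hηc : CSuppA η := hCpl (m + 1) Δ K X s τ hc m η hηf
      obtain ⟨β, -, hβ⟩ := injc α hα (hT3 hc (m + 1) α hα) η hηc hη
      exact ⟨β, hβ⟩
    · exact hT4 hc α hα
  · intro ω hω hωc
    obtain ⟨b, η, hb, hbc, -, hηc, hη⟩ := (hCmp m Δ K X s τ T hT).2 hK ω hω hωc
    obtain ⟨h1, h2, -⟩ := hT5 b hb hbc
    exact ⟨extT Δ fun u => b u • dx id, h1, h2, η, hηc, hη⟩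

end TDC
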