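import Pool.Agent.TDC.St4

/-!
# TDC, module CombU (helper30): universal form of `Comb`
-/

namespace TDC

open scoped Topology

section

variable {R R' p q : ℕ}

/-- restriction to the coordinates in the image of `ι` -/
private noncomputable def CombU_rs (ι : Fin R' → Fin R) : (Fin R → ℝ) →L[ℝ] (Fin R' → ℝ) :=
  ContinuousLinearMap.pi fun i => ContinuousLinearMap.proj (ι i)

private theorem CombU_rs_apply (ι : Fin R' → Fin R) (t : Fin R → ℝ) : CombU_rs ι t = t ∘ ι := rfl

open Classical in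
/-- the superform on `ℝ^R` obtained from one on `ℝ^R'` via the coordinate map `ι` -/
private noncomputable def CombU_ext (ι : Fin R' → Fin R) (α : SF R' p q) : SF R p q := fun I t =>
  ∑ I₁ ∈ Finset.univ.filter (fun I₁ : Fin p → Fin R' => ι ∘ I₁ = I),
    (α I₁ (CombU_rs ι t)).compContinuousLinearMap (CombU_rs ι)

private theorem CombU_sm1 (ι : Fin R' → Fin R) {α : SF R' p q} (h : α.Smooth)
    (I₁ : Fin p → Fin R') : ContDiff ℝ (⊤ : ℕ∞) (fun t : Fin R → ℝ =>
      (α I₁ (CombU_rs ι t)).compContinuousLinearMap (CombU_rs ι)) := by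
  have h1 : ContDiff ℝ (⊤ : ℕ∞) (ContinuousAlternatingMap.compContinuousLinearMapCLM (𝕜 := ℝ)
    (ι := Fin q) (F := ℝ) (CombU_rs ι)) := ContinuousLinearMap.contDiff _
  exact h1.comp ((h I₁).comp (CombU_rs ι).contDiff)

private theorem CombU_sm (ι : Fin R' → Fin R) {α : SF R' p q} (h : α.Smooth) :
    (CombU_ext ι α).Smooth := fun _ => ContDiff.sum fun I₁ _ => CombU_sm1 ι h I₁

private theorem CombU_exsum {E : Type*} [NormedAddCommGroup E] [NormedSpace ℝ E] {J : Type*}
    (s : Finset J) (ω : J → E → E [⋀^Fin q]→L[ℝ] ℝ) (x : E)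
    (h : ∀ j ∈ s, DifferentiableAt ℝ (ω j) x) :
    extDeriv (fun t => ∑ j ∈ s, ω j t) x = ∑ j ∈ s, extDeriv (ω j) x := by
  classical
  induction s using Finset.induction_on with
  | empty =>
    simp only [Finset.sum_empty]
    have := extDeriv_fun_smul (𝕜 := ℝ) (x := x) (0 : ℝ) (fun _ : E => (0 : E [⋀^Fin q]→L[ℝ] ℝ))
    simp only [zero_smul] at this
    exact this
  | insert a s ha ih =>
    simp only [Finset.sum_insert ha]
    rw [extDeriv_fun_add (h a (Finset.mem_insert_self a s))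
      (DifferentiableAt.fun_sum fun j hj => h j (Finset.mem_insert_of_mem hj)),
      ih fun j hj => h j (Finset.mem_insert_of_mem hj)]

private theorem CombU_dd (ι : Fin R' → Fin R) {α : SF R' p q} (h : α.Smooth) :
    (CombU_ext ι α).dd = CombU_ext ι α.dd := by
  funext I t
  unfold SF.dd CombU_ext
  rw [CombU_exsum _ _ t fun I₁ _ => (CombU_sm1 ι h I₁).contDiffAt.differentiableAt (by simp)]
  refine Finset.sum_congr rfl fun I₁ _ => ?_
  have h1 := extDeriv_pullback (𝕜 := ℝ) (r := (⊤ : ℕ∞)) (ω := α I₁) (f := CombU_rs ι) (x := t)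
    ((h I₁).contDiffAt.differentiableAt (by simp)) (CombU_rs ι).contDiff.contDiffAt
    (by
      simp only [minSmoothness_of_isRCLikeNormedField]
      exact WithTop.coe_le_coe.2 (le_top : (2 : ℕ∞) ≤ ⊤))
  simpa only [ContinuousLinearMap.fderiv] using h1

private theorem CombU_add_dd {α β : SF R p q} (hα : α.Smooth) (hβ : β.Smooth) :
    (α + β).dd = α.dd + β.dd := by
  funext I t
  exact extDeriv_add ((hα I).contDiffAt.differentiableAt (by simp))
    ((hβ I).contDiffAt.differentiableAt (by simp))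

section field

variable {K M : Type} [NormedField K] [Field M] {φ : K →+* M}

private theorem CombU_pull (ι : Fin R' → Fin R) (F : Fin R → Mˣ) (α : SF R' p q) :
    (pull F (CombU_ext ι α) : Fam φ p q) = pull (F ∘ ι) α := by
  classical
  funext x δ ε
  show ∑ I : Fin p → Fin R, (Matrix.of fun i j => ev F (δ i) (I j)).det *
    CombU_ext ι α I (logv x F) (fun i => ev F (ε i)) =
    ∑ I : Fin p → Fin R', (Matrix.of fun i j => ev (F ∘ ι) (δ i) (I j)).det *
    α I (logv x (F ∘ ι)) (fun i => ev (F ∘ ι) (ε i))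
  rw [← Finset.sum_fiberwise_of_maps_to (s := Finset.univ) (t := Finset.univ)
    (g := fun I₁ : Fin p → Fin R' => ι ∘ I₁) (fun _ _ => Finset.mem_univ _)]
  refine Finset.sum_congr rfl fun I _ => ?_
  unfold CombU_ext
  rw [ContinuousAlternatingMap.sum_apply, Finset.mul_sum]
  refine Finset.sum_congr (by congr) fun I₁ hI => ?_
  have e : ι ∘ I₁ = I := (Finset.mem_filter.1 hI).2
  subst e
  rfl

private theorem CombU_add_pull (F : Fin R → Mˣ) (α β : SF R p q) :
    (pull F (α + β) : Fam φ p q) = pull F α + pull F β := by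
  funext x δ ε
  show ∑ I : Fin p → Fin R, (Matrix.of fun i j => ev F (δ i) (I j)).det *
    (α + β) I (logv x F) (fun i => ev F (ε i)) =
    ∑ I : Fin p → Fin R, (Matrix.of fun i j => ev F (δ i) (I j)).det *
    α I (logv x F) (fun i => ev F (ε i)) +
    ∑ I : Fin p → Fin R, (Matrix.of fun i j => ev F (δ i) (I j)).det *
    β I (logv x F) (fun i => ev F (ε i))
  rw [← Finset.sum_add_distrib]
  refine Finset.sum_congr rfl fun I _ => ?_
  rw [← mul_add]
  rfl

end field

end

theorem thm_CombU : St_CombU := by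
  intro p q R₁ R₂ α₁ α₂ h₁ h₂
  refine ⟨CombU_ext (Fin.castAdd R₂) α₁ + CombU_ext (Fin.natAdd R₁) α₂,
    fun I => (CombU_sm _ h₁ I).add (CombU_sm _ h₂ I), ?_⟩
  intro K M _ _ φ x F₁ F₂
  have e1 : Fin.append F₁ F₂ ∘ Fin.castAdd R₂ = F₁ := by
    funext i
    exact Fin.append_left F₁ F₂ i
  have e2 : Fin.append F₁ F₂ ∘ Fin.natAdd R₁ = F₂ := by
    funext i
    exact Fin.append_right F₁ F₂ i
  have h3 : (pull (Fin.append F₁ F₂) (CombU_ext (Fin.castAdd R₂) α₁ +
      CombU_ext (Fin.natAdd R₁) α₂) : Fam φ p q) = pull F₁ α₁ + pull F₂ α₂ := by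
    rw [CombU_add_pull, CombU_pull, CombU_pull, e1, e2]
  have h4 : (pull (Fin.append F₁ F₂) (CombU_ext (Fin.castAdd R₂) α₁ +
      CombU_ext (Fin.natAdd R₁) α₂).dd : Fam φ p (q + 1)) = pull F₁ α₁.dd + pull F₂ α₂.dd := by
    rw [CombU_add_dd (CombU_sm _ h₁) (CombU_sm _ h₂), CombU_dd _ h₁, CombU_dd _ h₂, CombU_add_pull,
      CombU_pull, CombU_pull, e1, e2]
  exact ⟨fun δ ε => congrFun (congrFun (congrFun h3 x) δ) ε,
    fun δ ε => congrFun (congrFun (congrFun h4 x) δ) ε⟩

end TDC
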