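import Pool.Agent.TDC.CombA
import Pool.Agent.TDC.CombU

/-!
# TDC: the tropical Dolbeault cohomology groups of `X^an`
-/

namespace TDC

open scoped Topology
open AlgebraicGeometry CategoryTheory

section cohomology

variable {K : Type} [NormedField K] {X : Scheme.{0}} (s : X ⟶ Spec (.of K)) (p q : ℕ)

/-- the space of closed forms of bidegree `(p,q)` on `X^an` -/
def closedA : Submodule ℝ (FamA s p q) where
  carrier := {ω | IsDbarA ω 0}
  zero_mem' := (thm_CombA thm_CombU K X s p q).2.2.2.1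
  add_mem' := by
    intro a b ha hb
    have h := (thm_CombA thm_CombU K X s p q).2.2.2.2.1 a b 0 0 ha hb
    rw [add_zero] at h
    exact h
  smul_mem' := by
    intro c a ha
    have h := (thm_CombA thm_CombU K X s p q).2.2.2.2.2.1 c a 0 ha
    rw [smul_zero] at h
    exact h

/-- the space of families with compact support -/
def suppA : Submodule ℝ (FamA s p q) where
  carrier := {ω | CSuppA ω}
  zero_mem' := ⟨∅, isCompact_empty, fun _ _ => rfl⟩
  add_mem' := by
    rintro a b ⟨C, hC, h⟩ ⟨C', hC', h'⟩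
    refine ⟨C ∪ C', hC.union hC', fun x hx => ?_⟩
    rw [Pi.add_apply, h x fun h0 => hx (Or.inl h0), h' x fun h0 => hx (Or.inr h0), add_zero]
  smul_mem' := by
    rintro c a ⟨C, hC, h⟩
    exact ⟨C, hC, fun x hx => by rw [Pi.smul_apply, h x hx, smul_zero]⟩

/-- the space of exact forms of bidegree `(p,q)`: all `d''η`, `η` a form of bidegree `(p,q-1)` -/
def exactA : (q : ℕ) → Submodule ℝ (FamA s p q)
  | 0 => ⊥
  | q + 1 =>
    { carrier := {ω | ∃ η : FamA s p q, IsDbarA η ω}
      zero_mem' := ⟨0, (thm_CombA thm_CombU K X s p q).2.2.2.1⟩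
      add_mem' := by
        rintro a b ⟨η, h⟩ ⟨η', h'⟩
        exact ⟨η + η', (thm_CombA thm_CombU K X s p q).2.2.2.2.1 _ _ _ _ h h'⟩
      smul_mem' := by
        rintro c a ⟨η, h⟩
        exact ⟨c • η, (thm_CombA thm_CombU K X s p q).2.2.2.2.2.1 _ _ _ h⟩ }

/-- all `d''η`, `η` a form of bidegree `(p,q-1)` with compact support -/
def exactAc : (q : ℕ) → Submodule ℝ (FamA s p q)
  | 0 => ⊥
  | q + 1 =>
    { carrier := {ω | ∃ η : FamA s p q, CSuppA η ∧ IsDbarA η ω}
      zero_mem' := ⟨0, (suppA s p q).zero_mem, (thm_CombA thm_CombU K X s p q).2.2.2.1⟩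
      add_mem' := by
        rintro a b ⟨η, hc, h⟩ ⟨η', hc', h'⟩
        exact ⟨η + η', (suppA s p q).add_mem hc hc',
          (thm_CombA thm_CombU K X s p q).2.2.2.2.1 _ _ _ _ h h'⟩
      smul_mem' := by
        rintro c a ⟨η, hc, h⟩
        exact ⟨c • η, (suppA s p q).smul_mem c hc,
          (thm_CombA thm_CombU K X s p q).2.2.2.2.2.1 _ _ _ h⟩ }

/-- the tropical Dolbeault cohomology group `H^{p,q}(X^an)` -/
abbrev HA : Type := closedA s p q ⧸ (exactA s p q).comap (closedA s p q).subtype

/-- the tropical Dolbeault cohomology group with compact supports `H_c^{p,q}(X^an)` -/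
abbrev HAc : Type :=
  (closedA s p q ⊓ suppA s p q : Submodule ℝ (FamA s p q)) ⧸
    (exactAc s p q).comap (closedA s p q ⊓ suppA s p q : Submodule ℝ (FamA s p q)).subtype

end cohomology

end TDC
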