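import Pool.Agent.TDC.St6
import Pool.Agent.TDC.Defs4

/-!
# TDC: statements of the modules, group 7: the cohomology group with compact supports
-/

namespace TDC

open scoped Topology
open MeasureTheory AlgebraicGeometry CategoryTheory

/-- **CohC** (uses `ThmC`, `TroF`, `ZerC`, `InjC`, `Clos`, `CombA`, `TowR`). `H_c^{n,n}(X^an) = ℝ` for
`K(X) = K(t_1..t_n)`, the isomorphism maps `[t^*b]` to `∫ b`; the same for `H^{n,n}` if `X^an` is
compact.
Proof. `TrLe` from `TowR`. Let `Z = closedA ⊓ suppA`, `B = exactAc`. For `b` smooth with compact support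
`t^*b` is the unique `ω₀` with `IsTrop t b ω₀` (its values are prescribed), it exists, is a form
with compact support (`TroF`), and is closed (`Clos`); it is linear in `b` (`pullAt v t (top b)` is).
For `ω ∈ Z` there is `b` with `ω - t^*b ∈ B` (`ThmC`; closed forms are forms, `CombA`), and
`∫ b` is unique: if `ω - t^*b = d''η`, `ω - t^*b' = d''η'` then `t^*(b - b') = d''(η' - η)`
(`CombA`), so `∫ (b - b') = 0` (`InjC`). This defines a linear map `Z → ℝ`, `ω ↦ ∫ b`, onto (a
bump function), whose kernel is `B ∩ Z` (`ZerC`). Pass to the quotient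
(`LinearMap.quotKerEquivOfSurjective` or `Submodule.liftQ`). If `X^an` is compact every family has compact
support, so `closedA ≤ suppA` and `exactA = exactAc`: the same argument. -/
def St_CohC : Prop :=
  ∀ (K : Type) [NontriviallyNormedField K] [IsUltrametricDist K] (X : Scheme.{0}) [IsIntegral X]
    (s : X ⟶ Spec (.of K)) (m : ℕ) (t : Fin (m + 1) → (X.residueField (genericPoint X))ˣ),
    (Set.range fun a : K => ‖a‖).Countable →
    @RatN K (X.residueField (genericPoint X)) _ _ (kmap s (genericPoint X)).toAlgebra (m + 1) t →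
    (∃ e : HAc s (m + 1) (m + 1) ≃ₗ[ℝ] ℝ,
      ∀ (b : (Fin (m + 1) → ℝ) → ℝ) (ω₀ : FamA s (m + 1) (m + 1)),
        ContDiff ℝ (⊤ : ℕ∞) b → HasCompactSupport b → IsTrop t b ω₀ →
        ∃ h : ω₀ ∈ closedA s (m + 1) (m + 1) ⊓ suppA s (m + 1) (m + 1),
          e (Submodule.Quotient.mk ⟨ω₀, h⟩) = ∫ u, b u) ∧
    (CompactSpace (An s) → ∃ e : HA s (m + 1) (m + 1) ≃ₗ[ℝ] ℝ,
      ∀ (b : (Fin (m + 1) → ℝ) → ℝ) (ω₀ : FamA s (m + 1) (m + 1)),
        ContDiff ℝ (⊤ : ℕ∞) b → HasCompactSupport b → IsTrop t b ω₀ →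
        ∃ h : ω₀ ∈ closedA s (m + 1) (m + 1),
          e (Submodule.Quotient.mk ⟨ω₀, h⟩) = ∫ u, b u)

end TDC
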