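import Pool.Agent.TDC.Defs5
import Pool.Agent.TDC.St7
import Pool.Agent.TDC.GFin

/-!
# TDC: the comparison theorem for toric varieties, in terms of cohomology groups
-/

namespace TDC

open scoped Topology
open MeasureTheory AlgebraicGeometry CategoryTheory

private theorem TorH_exA {K : Type} [NormedField K] {X : Scheme.{0}} (s : X ⟶ Spec (.of K))
    (p q : ℕ) (ω : FamA s p (q + 1)) :
    ω ∈ exactA s p (q + 1) ↔ ∃ η : FamA s p q, IsDbarA η ω := Iff.rfl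

private theorem TorH_exAc {K : Type} [NormedField K] {X : Scheme.{0}} (s : X ⟶ Spec (.of K))
    (p q : ℕ) (ω : FamA s p (q + 1)) :
    ω ∈ exactAc s p (q + 1) ↔ ∃ η : FamA s p q, CSuppA η ∧ IsDbarA η ω := Iff.rfl

private theorem TorH_clA {K : Type} [NormedField K] {X : Scheme.{0}} (s : X ⟶ Spec (.of K))
    (p q : ℕ) (ω : FamA s p q) : ω ∈ closedA s p q ↔ IsDbarA ω 0 := Iff.rfl

private theorem TorH_clAc {K : Type} [NormedField K] {X : Scheme.{0}} (s : X ⟶ Spec (.of K))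
    (p q : ℕ) (ω : FamA s p q) : ω ∈ closedA s p q ⊓ suppA s p q ↔ IsDbarA ω 0 ∧ CSuppA ω := Iff.rfl

private theorem TorH_exT {n : ℕ} (Δ : Fan n) (p q : ℕ) (ω : FamT Δ p (q + 1)) :
    ω ∈ exactT Δ p (q + 1) ↔ ∃ η : FamT Δ p q, IsDbarT η ω := Iff.rfl

private theorem TorH_exTc {n : ℕ} (Δ : Fan n) (p q : ℕ) (ω : FamT Δ p (q + 1)) :
    ω ∈ exactTc Δ p (q + 1) ↔ ∃ η : FamT Δ p q, CSuppT η ∧ IsDbarT η ω := Iff.rfl

private theorem TorH_clT {n : ℕ} (Δ : Fan n) (p q : ℕ) (ω : FamT Δ p q) :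
    ω ∈ closedT Δ p q ↔ IsDbarT ω 0 := Iff.rfl

private theorem TorH_clTc {n : ℕ} (Δ : Fan n) (p q : ℕ) (ω : FamT Δ p q) :
    ω ∈ closedT Δ p q ⊓ suppT Δ p q ↔ IsDbarT ω 0 ∧ CSuppT ω := Iff.rfl


private theorem TorH_abs {V W : Type} [AddCommGroup V] [Module ℝ V] [AddCommGroup W] [Module ℝ W]
    (P : V →ₗ[ℝ] W) (Zv Bv : Submodule ℝ V) (Zw Bw : Submodule ℝ W)
    (hZ : ∀ v ∈ Zv, P v ∈ Zw) (hB : ∀ v ∈ Bv, P v ∈ Bw)
    (hsur : ∀ w ∈ Zw, ∃ v ∈ Zv, w - P v ∈ Bw) (hinj : ∀ v ∈ Zv, P v ∈ Bw → v ∈ Bv) :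
    ∃ f : (Zv ⧸ Bv.comap Zv.subtype) →ₗ[ℝ] (Zw ⧸ Bw.comap Zw.subtype),
      (∀ (v : V) (h : v ∈ Zv), ∃ h' : P v ∈ Zw,
        f (Submodule.Quotient.mk ⟨v, h⟩) = Submodule.Quotient.mk ⟨P v, h'⟩) ∧
      Function.Bijective f := by
  let Pr : Zv →ₗ[ℝ] Zw := P.restrict hZ
  have hP : Bv.comap Zv.subtype ≤ (Bw.comap Zw.subtype).comap Pr := by
    rintro ⟨v, hv⟩ h
    exact hB v h
  refine ⟨Submodule.mapQ _ _ Pr hP, fun v h => ⟨hZ v h, rfl⟩, ?_, ?_⟩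
  · refine (injective_iff_map_eq_zero _).2 fun a ha => ?_
    obtain ⟨⟨v, hv⟩, rfl⟩ := Submodule.Quotient.mk_surjective _ a
    have h1 : Submodule.Quotient.mk (Pr ⟨v, hv⟩) = (0 : Zw ⧸ Bw.comap Zw.subtype) := ha
    rw [Submodule.Quotient.mk_eq_zero] at h1
    rw [Submodule.Quotient.mk_eq_zero]
    exact hinj v hv h1
  · intro a
    obtain ⟨⟨w, hw⟩, rfl⟩ := Submodule.Quotient.mk_surjective _ a
    obtain ⟨v, hv, hvw⟩ := hsur w hw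
    refine ⟨Submodule.Quotient.mk ⟨v, hv⟩, ?_⟩
    show Submodule.Quotient.mk (Pr ⟨v, hv⟩) = _
    symm
    rw [Submodule.Quotient.eq]
    exact hvw

private theorem TorH_f {m : ℕ} {Δ : Fan (m + 1)} {K : Type} [NormedField K] {X : Scheme.{0}}
    (s : X ⟶ Spec (.of K)) (P : FamT Δ (m + 1) (m + 1) →ₗ[ℝ] FamA s (m + 1) (m + 1))
    (hcl : ∀ ω, IsDbarT ω 0 → IsDbarA (P ω) 0)
    (hex : ∀ (η : FamT Δ (m + 1) m) ω, IsDbarT η ω → ∃ η' : FamA s (m + 1) m, IsDbarA η' (P ω))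
    (hsur : ∀ ω : FamA s (m + 1) (m + 1), IsDbarA ω 0 → ∃ α : FamT Δ (m + 1) (m + 1),
      IsDbarT α 0 ∧ ∃ η : FamA s (m + 1) m, IsDbarA η (ω - P α))
    (hinj : ∀ α : FamT Δ (m + 1) (m + 1), IsDbarT α 0 → ∀ η : FamA s (m + 1) m,
      IsDbarA η (P α) → ∃ β : FamT Δ (m + 1) m, IsDbarT β α) :
    ∃ f : HT Δ (m + 1) (m + 1) →ₗ[ℝ] HA s (m + 1) (m + 1),
      (∀ (ω : FamT Δ (m + 1) (m + 1)) (h : ω ∈ closedT Δ (m + 1) (m + 1)),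
        ∃ h' : P ω ∈ closedA s (m + 1) (m + 1),
          f (Submodule.Quotient.mk ⟨ω, h⟩) = Submodule.Quotient.mk ⟨P ω, h'⟩) ∧
      Function.Bijective f := by
  refine TorH_abs P (closedT Δ (m + 1) (m + 1)) (exactT Δ (m + 1) (m + 1))
    (closedA s (m + 1) (m + 1)) (exactA s (m + 1) (m + 1)) ?_ ?_ ?_ ?_
  · intro ω h
    exact (TorH_clA s _ _ _).2 (hcl ω ((TorH_clT Δ _ _ _).1 h))
  · intro ω h
    obtain ⟨η, hη⟩ := (TorH_exT Δ _ _ _).1 h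
    exact (TorH_exA s _ _ _).2 (hex η ω hη)
  · intro ω h
    obtain ⟨α, h1, h2⟩ := hsur ω ((TorH_clA s _ _ _).1 h)
    exact ⟨α, (TorH_clT Δ _ _ _).2 h1, (TorH_exA s _ _ _).2 h2⟩
  · intro α h h'
    obtain ⟨η, hη⟩ := (TorH_exA s _ _ _).1 h'
    exact (TorH_exT Δ _ _ _).2 (hinj α ((TorH_clT Δ _ _ _).1 h) η hη)

private theorem TorH_g {m : ℕ} {Δ : Fan (m + 1)} {K : Type} [NormedField K] {X : Scheme.{0}}
    (s : X ⟶ Spec (.of K)) (P : FamT Δ (m + 1) (m + 1) →ₗ[ℝ] FamA s (m + 1) (m + 1))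
    (hcl : ∀ ω, IsDbarT ω 0 → CSuppT ω → IsDbarA (P ω) 0 ∧ CSuppA (P ω))
    (hex : ∀ (η : FamT Δ (m + 1) m) ω, CSuppT η → IsDbarT η ω →
      ∃ η' : FamA s (m + 1) m, CSuppA η' ∧ IsDbarA η' (P ω))
    (hsur : ∀ ω : FamA s (m + 1) (m + 1), IsDbarA ω 0 → CSuppA ω →
      ∃ α : FamT Δ (m + 1) (m + 1), IsDbarT α 0 ∧ CSuppT α ∧
        ∃ η : FamA s (m + 1) m, CSuppA η ∧ IsDbarA η (ω - P α))
    (hinj : ∀ α : FamT Δ (m + 1) (m + 1), IsDbarT α 0 → CSuppT α → ∀ η : FamA s (m + 1) m,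
      CSuppA η → IsDbarA η (P α) → ∃ β : FamT Δ (m + 1) m, CSuppT β ∧ IsDbarT β α) :
    ∃ g : HTc Δ (m + 1) (m + 1) →ₗ[ℝ] HAc s (m + 1) (m + 1),
      (∀ (ω : FamT Δ (m + 1) (m + 1))
        (h : ω ∈ closedT Δ (m + 1) (m + 1) ⊓ suppT Δ (m + 1) (m + 1)),
        ∃ h' : P ω ∈ closedA s (m + 1) (m + 1) ⊓ suppA s (m + 1) (m + 1),
          g (Submodule.Quotient.mk ⟨ω, h⟩) = Submodule.Quotient.mk ⟨P ω, h'⟩) ∧
      Function.Bijective g := by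
  refine TorH_abs P (closedT Δ (m + 1) (m + 1) ⊓ suppT Δ (m + 1) (m + 1))
    (exactTc Δ (m + 1) (m + 1)) (closedA s (m + 1) (m + 1) ⊓ suppA s (m + 1) (m + 1))
    (exactAc s (m + 1) (m + 1)) ?_ ?_ ?_ ?_
  · intro ω h
    obtain ⟨h1, h2⟩ := (TorH_clTc Δ _ _ _).1 h
    exact (TorH_clAc s _ _ _).2 (hcl ω h1 h2)
  · intro ω h
    obtain ⟨η, hc, hη⟩ := (TorH_exTc Δ _ _ _).1 h
    exact (TorH_exAc s _ _ _).2 (hex η ω hc hη)
  · intro ω h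
    obtain ⟨h1, h2⟩ := (TorH_clAc s _ _ _).1 h
    obtain ⟨α, h3, h4, h5⟩ := hsur ω h1 h2
    exact ⟨α, (TorH_clTc Δ _ _ _).2 ⟨h3, h4⟩, (TorH_exAc s _ _ _).2 h5⟩
  · intro α h h'
    obtain ⟨h1, h2⟩ := (TorH_clTc Δ _ _ _).1 h
    obtain ⟨η, hc, hη⟩ := (TorH_exAc s _ _ _).1 h'
    exact (TorH_exTc Δ _ _ _).2 (hinj α h1 h2 η hc hη)

/-- **TorH**. `X` a toric variety of dimension `n = m+1` over `K`, with fan `Δ`. The
tropicalization map `T : X^an → N_ℝ(Σ)` exists, is unique and continuous;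
`trop^* : H^{n,n}(N_ℝ(Σ)) → H^{n,n}(X^an)` and
`trop^* : H_c^{n,n}(N_ℝ(Σ)) → H_c^{n,n}(X^an)` are bijective; `dim H_c^{n,n}(X^an) = 1`,
`dim H^{n,n}(X^an) = 1` for a complete fan, `H^{n,n}(X^an) = 0` otherwise. -/
def St_TorH : Prop :=
  ∀ (K : Type) [NontriviallyNormedField K] [IsUltrametricDist K],
    (Set.range fun a : K => ‖a‖).Countable →
    ∀ (m : ℕ) (Δ : Fan (m + 1)) (X : Scheme.{0}) [IsIntegral X] (s : X ⟶ Spec (.of K))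
      (τ : Toric Δ s),
      ∃ (T : An s → NR Δ) (hT : IsTropMap τ T),
        (∀ T', IsTropMap τ T' → T' = T) ∧ Continuous T ∧
        ∃ (f : HT Δ (m + 1) (m + 1) →ₗ[ℝ] HA s (m + 1) (m + 1))
          (g : HTc Δ (m + 1) (m + 1) →ₗ[ℝ] HAc s (m + 1) (m + 1)),
          (∀ (ω : FamT Δ (m + 1) (m + 1)) (h : ω ∈ closedT Δ (m + 1) (m + 1)),
            ∃ h' : tropPull τ T hT (m + 1) (m + 1) ω ∈ closedA s (m + 1) (m + 1),
              f (Submodule.Quotient.mk ⟨ω, h⟩) =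
                Submodule.Quotient.mk ⟨tropPull τ T hT (m + 1) (m + 1) ω, h'⟩) ∧
          (∀ (ω : FamT Δ (m + 1) (m + 1))
            (h : ω ∈ closedT Δ (m + 1) (m + 1) ⊓ suppT Δ (m + 1) (m + 1)),
            ∃ h' : tropPull τ T hT (m + 1) (m + 1) ω ∈
                closedA s (m + 1) (m + 1) ⊓ suppA s (m + 1) (m + 1),
              g (Submodule.Quotient.mk ⟨ω, h⟩) =
                Submodule.Quotient.mk ⟨tropPull τ T hT (m + 1) (m + 1) ω, h'⟩) ∧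
          Function.Bijective f ∧ Function.Bijective g ∧
          Module.finrank ℝ (HAc s (m + 1) (m + 1)) = 1 ∧
          (Δ.Complete → Module.finrank ℝ (HA s (m + 1) (m + 1)) = 1) ∧
          (¬ Δ.Complete → Subsingleton (HA s (m + 1) (m + 1)))

private theorem TorH_fin {V : Type} [AddCommGroup V] [Module ℝ V] (Z S B B' : Submodule ℝ V)
    (h1 : Z ⊓ S = Z) (h2 : B = B')
    (h : Module.finrank ℝ ((Z ⊓ S : Submodule ℝ V) ⧸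
      B.comap (Z ⊓ S : Submodule ℝ V).subtype) = 1) :
    Module.finrank ℝ (Z ⧸ B'.comap Z.subtype) = 1 := by
  subst h2
  rw [h1] at h
  exact h

private theorem TorH_zero {V : Type} [AddCommGroup V] [Module ℝ V] (Z B : Submodule ℝ V)
    (h : ∀ v ∈ Z, v ∈ B) : ∀ a : Z ⧸ B.comap Z.subtype, a = 0 := by
  intro a
  obtain ⟨⟨v, hv⟩, rfl⟩ := Submodule.Quotient.mk_surjective _ a
  rw [Submodule.Quotient.mk_eq_zero]
  exact h v hv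


private theorem TorH_pull {m : ℕ} {Δ : Fan (m + 1)} {K : Type} [NormedField K] {X : Scheme.{0}}
    {s : X ⟶ Spec (.of K)} {τ : Toric Δ s} {T : An s → NR Δ} {hT : IsTropMap τ T}
    (P : FamT Δ (m + 1) (m + 1) →ₗ[ℝ] FamA s (m + 1) (m + 1))
    (hP : P = tropPull τ T hT (m + 1) (m + 1))
    (Q : FamT Δ (m + 1) m →ₗ[ℝ] FamA s (m + 1) m) (hQ : Q = tropPull τ T hT (m + 1) m)
    (hPul : St_GPul) :
    (∀ ω, IsDbarT ω 0 → IsDbarA (P ω) 0) ∧ ∀ η ω, IsDbarT η ω → IsDbarA (Q η) (P ω) := by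
  subst hP hQ
  refine ⟨fun ω h => ?_, (hPul (m + 1) Δ K X s τ T hT (m + 1) m).2⟩
  have h1 := (hPul (m + 1) Δ K X s τ T hT (m + 1) (m + 1)).2 ω 0 h
  rw [map_zero] at h1
  exact h1

private theorem TorH_mainf (hFin : St_GFin) (hPul : St_GPul) (hTop : St_FTop)
    (K : Type) [NontriviallyNormedField K] [IsUltrametricDist K]
    (hK : (Set.range fun a : K => ‖a‖).Countable) (m : ℕ) (Δ : Fan (m + 1)) (X : Scheme.{0})
    [IsIntegral X] (s : X ⟶ Spec (.of K)) (τ : Toric Δ s) (T : An s → NR Δ)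
    (hT : IsTropMap τ T)
    (P : FamT Δ (m + 1) (m + 1) →ₗ[ℝ] FamA s (m + 1) (m + 1))
    (hP : P = tropPull τ T hT (m + 1) (m + 1)) :
    (∀ ω, IsDbarT ω 0 → IsDbarA (P ω) 0) ∧
    (∀ (η : FamT Δ (m + 1) m) ω, IsDbarT η ω → ∃ η' : FamA s (m + 1) m, IsDbarA η' (P ω)) ∧
    (∀ ω : FamA s (m + 1) (m + 1), IsDbarA ω 0 → ∃ α : FamT Δ (m + 1) (m + 1),
      IsDbarT α 0 ∧ ∃ η : FamA s (m + 1) m, IsDbarA η (ω - P α)) ∧
    (∀ α : FamT Δ (m + 1) (m + 1), IsDbarT α 0 → ∀ η : FamA s (m + 1) m,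
      IsDbarA η (P α) → ∃ β : FamT Δ (m + 1) m, IsDbarT β α) := by
  obtain ⟨Q, hQ⟩ : ∃ Q : FamT Δ (m + 1) m →ₗ[ℝ] FamA s (m + 1) m,
    Q = tropPull τ T hT (m + 1) m := ⟨_, rfl⟩
  obtain ⟨hp1, hp2⟩ := TorH_pull P hP Q hQ hPul
  obtain ⟨hsur, hinj, -, -⟩ := hFin K hK m Δ X s τ T hT
  rw [← hP] at hsur hinj
  refine ⟨hp1, fun η ω h => ⟨Q η, hp2 η ω h⟩, fun ω h => ?_, fun α h => ?_⟩
  · obtain ⟨α, hα, h1⟩ := hsur ω ((thm_CombA thm_CombU K X s (m + 1) (m + 1)).2.2.2.2.2.2 ω 0 h).1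
    exact ⟨α, (hTop m Δ).1 α hα, h1⟩
  · exact hinj α ((thm_FCom (m + 1) Δ (m + 1) (m + 1)).2.2.2.2.2.2 α 0 h).1

private theorem TorH_maing (hFin : St_GFin) (hPul : St_GPul) (hCmp : St_GCmp) (hTop : St_FTop)
    (K : Type) [NontriviallyNormedField K] [IsUltrametricDist K]
    (hK : (Set.range fun a : K => ‖a‖).Countable) (m : ℕ) (Δ : Fan (m + 1)) (X : Scheme.{0})
    [IsIntegral X] (s : X ⟶ Spec (.of K)) (τ : Toric Δ s) (T : An s → NR Δ)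
    (hT : IsTropMap τ T)
    (P : FamT Δ (m + 1) (m + 1) →ₗ[ℝ] FamA s (m + 1) (m + 1))
    (hP : P = tropPull τ T hT (m + 1) (m + 1)) :
    (∀ ω, IsDbarT ω 0 → CSuppT ω → IsDbarA (P ω) 0 ∧ CSuppA (P ω)) ∧
    (∀ (η : FamT Δ (m + 1) m) ω, CSuppT η → IsDbarT η ω →
      ∃ η' : FamA s (m + 1) m, CSuppA η' ∧ IsDbarA η' (P ω)) ∧
    (∀ ω : FamA s (m + 1) (m + 1), IsDbarA ω 0 → CSuppA ω →
      ∃ α : FamT Δ (m + 1) (m + 1), IsDbarT α 0 ∧ CSuppT α ∧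
        ∃ η : FamA s (m + 1) m, CSuppA η ∧ IsDbarA η (ω - P α)) ∧
    (∀ α : FamT Δ (m + 1) (m + 1), IsDbarT α 0 → CSuppT α → ∀ η : FamA s (m + 1) m,
      CSuppA η → IsDbarA η (P α) → ∃ β : FamT Δ (m + 1) m, CSuppT β ∧ IsDbarT β α) := by
  obtain ⟨Q, hQ⟩ : ∃ Q : FamT Δ (m + 1) m →ₗ[ℝ] FamA s (m + 1) m,
    Q = tropPull τ T hT (m + 1) m := ⟨_, rfl⟩
  obtain ⟨hp1, hp2⟩ := TorH_pull P hP Q hQ hPul
  obtain ⟨-, -, hsur, hinj⟩ := hFin K hK m Δ X s τ T hT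
  have hc1 := (hCmp m Δ K X s τ T hT).1 (m + 1)
  have hc0 := (hCmp m Δ K X s τ T hT).1 m
  rw [← hP] at hsur hinj hc1
  rw [← hQ] at hc0
  have hfT : ∀ (q : ℕ) (η : FamT Δ (m + 1) q) (ω : FamT Δ (m + 1) (q + 1)), IsDbarT η ω →
      IsFormT η := fun q η ω h => ((thm_FCom (m + 1) Δ (m + 1) q).2.2.2.2.2.2 η ω h).1
  refine ⟨fun ω h h' => ⟨hp1 ω h, hc1 ω (hfT _ ω 0 h) h'⟩,
    fun η ω h h' => ⟨Q η, hc0 η (hfT _ η ω h') h, hp2 η ω h'⟩, fun ω h h' => ?_, fun α h h' => ?_⟩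
  · obtain ⟨α, hα, hαc, h1⟩ := hsur ω
      ((thm_CombA thm_CombU K X s (m + 1) (m + 1)).2.2.2.2.2.2 ω 0 h).1 h'
    exact ⟨α, (hTop m Δ).1 α hα, hαc, h1⟩
  · exact hinj α (hfT _ α 0 h) h'

private theorem TorH_comb {F G : Type} {A A' : F → Prop} {B B' : G → Prop} {C D E : Prop}
    (hf : ∃ f, A f ∧ A' f) (hg : ∃ g, B g ∧ B' g) (hC : C) (hD : D) (hE : (∃ f, A' f) → E) :
    ∃ f g, A f ∧ B g ∧ A' f ∧ B' g ∧ C ∧ D ∧ E := by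
  obtain ⟨f, h1, h2⟩ := hf
  obtain ⟨g, h3, h4⟩ := hg
  exact ⟨f, g, h1, h3, h2, h4, hC, hD, hE ⟨f, h2⟩⟩

private theorem TorH_f1 {K : Type} [NontriviallyNormedField K] [IsUltrametricDist K]
    (hK : (Set.range fun a : K => ‖a‖).Countable) {m : ℕ} {Δ : Fan (m + 1)} {X : Scheme.{0}}
    [IsIntegral X] {s : X ⟶ Spec (.of K)} (τ : Toric Δ s) (hCor : St_GCor) (hCoh : St_CohC) :
    Module.finrank ℝ (HAc s (m + 1) (m + 1)) = 1 := by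
  have h : ∃ e : HAc s (m + 1) (m + 1) ≃ₗ[ℝ] ℝ, True := by
    obtain ⟨t, -, hRat⟩ := (hCor (m + 1) Δ K X s τ).2
    exact (hCoh K X s m t hK hRat).1.imp fun e _ => trivial
  exact h.elim fun e _ => e.finrank_eq.trans (Module.finrank_self ℝ)

private theorem TorH_f2 {K : Type} [NontriviallyNormedField K] [IsUltrametricDist K]
    {m : ℕ} {Δ : Fan (m + 1)} {X : Scheme.{0}}
    [IsIntegral X] {s : X ⟶ Spec (.of K)} (τ : Toric Δ s) (hCpl : St_GCpl)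
    (hfin : Module.finrank ℝ (HAc s (m + 1) (m + 1)) = 1) (hc : Δ.Complete) :
    Module.finrank ℝ (HA s (m + 1) (m + 1)) = 1 := by
  refine TorH_fin _ (suppA s (m + 1) (m + 1)) (exactAc s (m + 1) (m + 1)) _ ?_ ?_ hfin
  · refine inf_eq_left.2 fun ω h => hCpl (m + 1) Δ K X s τ hc (m + 1) ω ?_
    exact ((thm_CombA thm_CombU K X s (m + 1) (m + 1)).2.2.2.2.2.2 ω 0 h).1
  · ext ω
    rw [TorH_exA, TorH_exAc]
    constructor
    · rintro ⟨η, -, hη⟩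
      exact ⟨η, hη⟩
    · rintro ⟨η, hη⟩
      exact ⟨η, hCpl (m + 1) Δ K X s τ hc m η
        ((thm_CombA thm_CombU K X s (m + 1) m).2.2.2.2.2.2 η ω hη).1, hη⟩

private theorem TorH_f3 {V W : Type} [AddCommGroup V] [Module ℝ V] [AddCommGroup W]
    [Module ℝ W] (h : ∃ f : V →ₗ[ℝ] W, Function.Bijective f) (h0 : ∀ a : V, a = 0) :
    Subsingleton W := by
  obtain ⟨f, hf⟩ := h
  refine ⟨fun a b => ?_⟩
  obtain ⟨a', rfl⟩ := hf.2 a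
  obtain ⟨b', rfl⟩ := hf.2 b
  rw [h0 a', h0 b']

private theorem TorH_f4 {m : ℕ} {Δ : Fan (m + 1)} (hTop : St_FTop) (hc : ¬ Δ.Complete) :
    ∀ a : HT Δ (m + 1) (m + 1), a = 0 := by
  refine TorH_zero (closedT Δ (m + 1) (m + 1)) (exactT Δ (m + 1) (m + 1)) fun ω hω => ?_
  obtain ⟨-, -, -, hT4, -⟩ := hTop m Δ
  rw [TorH_exT]
  exact hT4 hc ω ((thm_FCom (m + 1) Δ (m + 1) (m + 1)).2.2.2.2.2.2 ω 0
    ((TorH_clT Δ _ _ ω).1 hω)).1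

private theorem TorH_all (hFin : St_GFin) (hTro : St_GTro) (hPul : St_GPul) (hCmp : St_GCmp)
    (hTop : St_FTop) (hCpl : St_GCpl) (hCor : St_GCor) (hCoh : St_CohC)
    {K : Type} [NontriviallyNormedField K] [IsUltrametricDist K]
    (hK : (Set.range fun a : K => ‖a‖).Countable) {m : ℕ} {Δ : Fan (m + 1)} {X : Scheme.{0}}
    [IsIntegral X] {s : X ⟶ Spec (.of K)} (τ : Toric Δ s) (T : An s → NR Δ)
    (hT : IsTropMap τ T) (P : FamT Δ (m + 1) (m + 1) →ₗ[ℝ] FamA s (m + 1) (m + 1))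
    (hP : P = tropPull τ T hT (m + 1) (m + 1)) :
    (∀ T', IsTropMap τ T' → T' = T) ∧ Continuous T ∧
        ∃ (f : HT Δ (m + 1) (m + 1) →ₗ[ℝ] HA s (m + 1) (m + 1))
          (g : HTc Δ (m + 1) (m + 1) →ₗ[ℝ] HAc s (m + 1) (m + 1)),
          (∀ (ω : FamT Δ (m + 1) (m + 1)) (h : ω ∈ closedT Δ (m + 1) (m + 1)),
            ∃ h' : P ω ∈ closedA s (m + 1) (m + 1),
              f (Submodule.Quotient.mk ⟨ω, h⟩) = Submodule.Quotient.mk ⟨P ω, h'⟩) ∧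
          (∀ (ω : FamT Δ (m + 1) (m + 1))
            (h : ω ∈ closedT Δ (m + 1) (m + 1) ⊓ suppT Δ (m + 1) (m + 1)),
            ∃ h' : P ω ∈ closedA s (m + 1) (m + 1) ⊓ suppA s (m + 1) (m + 1),
              g (Submodule.Quotient.mk ⟨ω, h⟩) = Submodule.Quotient.mk ⟨P ω, h'⟩) ∧
          Function.Bijective f ∧ Function.Bijective g ∧
          Module.finrank ℝ (HAc s (m + 1) (m + 1)) = 1 ∧
          (Δ.Complete → Module.finrank ℝ (HA s (m + 1) (m + 1)) = 1) ∧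
          (¬ Δ.Complete → Subsingleton (HA s (m + 1) (m + 1))) := by
  have hf := TorH_mainf hFin hPul hTop K hK m Δ X s τ T hT P hP
  have hg := TorH_maing hFin hPul hCmp hTop K hK m Δ X s τ T hT P hP
  have hfin := TorH_f1 hK τ hCor hCoh
  exact ⟨fun T' hT' => (hTro (m + 1) Δ K X s τ).2.1 T' T hT' hT,
    ((hTro (m + 1) Δ K X s τ).2.2 T hT).1,
    TorH_comb (TorH_f s P hf.1 hf.2.1 hf.2.2.1 hf.2.2.2)
      (TorH_g s P hg.1 hg.2.1 hg.2.2.1 hg.2.2.2) hfin (TorH_f2 τ hCpl hfin)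
      fun h hc => TorH_f3 h (TorH_f4 hTop hc)⟩

theorem thm_TorH (hFin : St_GFin) (hTro : St_GTro) (hPul : St_GPul) (hCmp : St_GCmp)
    (hTop : St_FTop) (hCpl : St_GCpl) (hCor : St_GCor) (hCoh : St_CohC) : St_TorH := by
  intro K _ _ hK m Δ X _ s τ
  exact (hTro (m + 1) Δ K X s τ).1.elim fun T hT => ⟨T, hT,
    TorH_all hFin hTro hPul hCmp hTop hCpl hCor hCoh hK τ T hT _ rfl⟩

end TDC
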