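import Pool.Agent.TDC.V
import Pool.Agent.TDC.Defs4

/-!
# TDC: the definitions of `TDC/V.lean` agree with those of `TDC/Defs.lean`, `TDC/Defs4.lean`
-/

namespace TDC

open scoped Topology
open AlgebraicGeometry CategoryTheory

section coh

/-- comparison of `Coh` with a quotient of subspaces -/
theorem coh_equiv {V W : Type} [AddCommGroup V] [Module ℝ V] [AddCommGroup W] [Module ℝ W]
    (P : V ≃ₗ[ℝ] W) (Z B : Set V) (Z₀ B₀ : Submodule ℝ W) (hZ : ∀ x, x ∈ Z ↔ P x ∈ Z₀)
    (hB : ∀ x, x ∈ B ↔ P x ∈ B₀) :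
    ∃ e : Coh Z B ≃ₗ[ℝ] (Z₀ ⧸ B₀.comap Z₀.subtype),
      ∀ (x : V) (h : x ∈ Z), ∃ h' : P x ∈ Z₀,
        e (Coh.mk B x h) = Submodule.Quotient.mk ⟨P x, h'⟩ := by
  have hZ1 : Submodule.span ℝ Z = Z₀.comap P.toLinearMap := by
    have h : Z = (Z₀.comap P.toLinearMap : Set V) := Set.ext hZ
    rw [h, Submodule.span_eq]
  have hB1 : Submodule.span ℝ B = B₀.comap P.toLinearMap := by
    have h : B = (B₀.comap P.toLinearMap : Set V) := Set.ext hB
    rw [h, Submodule.span_eq]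
  let F : (Submodule.span ℝ Z ⧸ (Submodule.span ℝ B).comap (Submodule.span ℝ Z).subtype) →ₗ[ℝ]
      (Z₀ ⧸ B₀.comap Z₀.subtype) :=
    Submodule.mapQ _ _ (P.toLinearMap.restrict (p := Submodule.span ℝ Z) (q := Z₀) fun x h => by
      rw [hZ1] at h
      exact h) fun x h => by
      have h1 : (x : V) ∈ Submodule.span ℝ B := h
      rw [hB1] at h1
      exact h1
  have hb : Function.Bijective F := by
    constructor
    · rw [injective_iff_map_eq_zero]
      intro a
      obtain ⟨⟨x, h⟩, rfl⟩ := Submodule.Quotient.mk_surjective _ a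
      intro h0
      have h1 : Submodule.Quotient.mk (p := B₀.comap Z₀.subtype)
          ((P.toLinearMap.restrict (p := Submodule.span ℝ Z) (q := Z₀) fun x h => by
            rw [hZ1] at h
            exact h) ⟨x, h⟩) = 0 := h0
      rw [Submodule.Quotient.mk_eq_zero] at h1
      rw [Submodule.Quotient.mk_eq_zero]
      have h2 : x ∈ B₀.comap P.toLinearMap := h1
      rw [← hB1] at h2
      exact h2
    · intro a
      obtain ⟨⟨y, h⟩, rfl⟩ := Submodule.Quotient.mk_surjective _ a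
      have h1 : P.symm y ∈ Submodule.span ℝ Z := by
        rw [hZ1]
        show P (P.symm y) ∈ Z₀
        rw [P.apply_symm_apply]
        exact h
      refine ⟨Submodule.Quotient.mk ⟨P.symm y, h1⟩, ?_⟩
      show Submodule.Quotient.mk (p := B₀.comap Z₀.subtype)
          ((P.toLinearMap.restrict (p := Submodule.span ℝ Z) (q := Z₀) fun x h => by
            rw [hZ1] at h
            exact h) ⟨P.symm y, h1⟩) = _
      congr 1
      exact Subtype.ext (P.apply_symm_apply y)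
  exact ⟨LinearEquiv.ofBijective F hb, fun x h => ⟨(hZ x).1 h, rfl⟩⟩

end coh

section scheme

variable {K : Type} [NormedField K] {X : Scheme.{0}} {s : X ⟶ Spec (.of K)}

/-- the two types of families are the same -/
noncomputable def famVA (s : X ⟶ Spec (.of K)) (p q : ℕ) : FamV s p q ≃ₗ[ℝ] FamA s p q where
  toFun ω := ω
  invFun ω := ω
  map_add' _ _ := rfl
  map_smul' _ _ := rfl
  left_inv _ := rfl
  right_inv _ := rfl

variable {p q : ℕ}

theorem isFormV_iff (ω : FamV s p q) : IsFormV ω ↔ IsFormA (famVA s p q ω) := Iff.rfl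

theorem isDbarV_iff (η : FamV s p q) (ω : FamV s p (q + 1)) :
    IsDbarV η ω ↔ IsDbarA (famVA s p q η) (famVA s p (q + 1) ω) := Iff.rfl

theorem cSuppV_iff (ω : FamV s p q) : CSuppV ω ↔ CSuppA (famVA s p q ω) := Iff.rfl

theorem closedV_iff (ω : FamV s p q) : ω ∈ closedV s p q ↔ famVA s p q ω ∈ closedA s p q := Iff.rfl

theorem closedVc_iff (ω : FamV s p q) :
    ω ∈ closedVc s p q ↔ famVA s p q ω ∈ closedA s p q ⊓ suppA s p q := Iff.rfl

theorem exactV_iff (s : X ⟶ Spec (.of K)) (p q : ℕ) (ω : FamV s p q) :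
    ω ∈ exactV s p q ↔ famVA s p q ω ∈ exactA s p q := by
  cases q with
  | zero => exact Iff.rfl
  | succ q => exact Iff.rfl

theorem exactVc_iff (s : X ⟶ Spec (.of K)) (p q : ℕ) (ω : FamV s p q) :
    ω ∈ exactVc s p q ↔ famVA s p q ω ∈ exactAc s p q := by
  cases q with
  | zero => exact Iff.rfl
  | succ q => exact Iff.rfl

/-- `H^{p,q}(X^an)` -/
theorem hV_equiv (s : X ⟶ Spec (.of K)) (p q : ℕ) :
    ∃ e : HV s p q ≃ₗ[ℝ] HA s p q, ∀ (ω : FamV s p q) (h : ω ∈ closedV s p q),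
      ∃ h' : famVA s p q ω ∈ closedA s p q,
        e (Coh.mk _ ω h) = Submodule.Quotient.mk ⟨famVA s p q ω, h'⟩ :=
  coh_equiv (famVA s p q) _ _ _ _ closedV_iff (exactV_iff s p q)

/-- `H_c^{p,q}(X^an)` -/
theorem hVc_equiv (s : X ⟶ Spec (.of K)) (p q : ℕ) :
    ∃ e : HVc s p q ≃ₗ[ℝ] HAc s p q, ∀ (ω : FamV s p q) (h : ω ∈ closedVc s p q),
      ∃ h' : famVA s p q ω ∈ closedA s p q ⊓ suppA s p q,
        e (Coh.mk _ ω h) = Submodule.Quotient.mk ⟨famVA s p q ω, h'⟩ :=
  coh_equiv (famVA s p q) _ _ _ _ closedVc_iff (exactVc_iff s p q)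

end scheme

end TDC
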