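import Pool.Agent.TDC.VT
import Pool.Agent.TDC.VBr
import Pool.Agent.TDC.Defs5
import Pool.Agent.TDC.TorH

/-!
# TDC: the definitions of `TDC/VT.lean` agree with those of `TDC/DefsF.lean`, `TDC/Defs5.lean`
-/

namespace TDC

open scoped Topology
open AlgebraicGeometry CategoryTheory

section fan

variable {n : ℕ}

/-- the two types of families are the same -/
noncomputable def famTVT (Δ : Fan n) (p q : ℕ) : FamTV Δ p q ≃ₗ[ℝ] FamT Δ p q where
  toFun ω := ω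
  invFun ω := ω
  map_add' _ _ := rfl
  map_smul' _ _ := rfl
  left_inv _ := rfl
  right_inv _ := rfl

variable {Δ : Fan n} {p q : ℕ}

theorem isFormTV_iff (ω : FamTV Δ p q) : IsFormTV ω ↔ IsFormT (famTVT Δ p q ω) := Iff.rfl

theorem isDbarTV_iff (η : FamTV Δ p q) (ω : FamTV Δ p (q + 1)) :
    IsDbarTV η ω ↔ IsDbarT (famTVT Δ p q η) (famTVT Δ p (q + 1) ω) := Iff.rfl

theorem cSuppTV_iff (ω : FamTV Δ p q) : CSuppTV ω ↔ CSuppT (famTVT Δ p q ω) := Iff.rfl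

theorem closedTV_iff (ω : FamTV Δ p q) :
    ω ∈ closedTV Δ p q ↔ famTVT Δ p q ω ∈ closedT Δ p q := Iff.rfl

theorem closedTVc_iff (ω : FamTV Δ p q) :
    ω ∈ closedTVc Δ p q ↔ famTVT Δ p q ω ∈ closedT Δ p q ⊓ suppT Δ p q := Iff.rfl

theorem exactTV_iff (Δ : Fan n) (p q : ℕ) (ω : FamTV Δ p q) :
    ω ∈ exactTV Δ p q ↔ famTVT Δ p q ω ∈ exactT Δ p q := by
  cases q with
  | zero => exact Iff.rfl
  | succ q => exact Iff.rfl

theorem exactTVc_iff (Δ : Fan n) (p q : ℕ) (ω : FamTV Δ p q) :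
    ω ∈ exactTVc Δ p q ↔ famTVT Δ p q ω ∈ exactTc Δ p q := by
  cases q with
  | zero => exact Iff.rfl
  | succ q => exact Iff.rfl

theorem hTV_equiv (Δ : Fan n) (p q : ℕ) :
    ∃ e : HTV Δ p q ≃ₗ[ℝ] HT Δ p q, ∀ (ω : FamTV Δ p q) (h : ω ∈ closedTV Δ p q),
      ∃ h' : famTVT Δ p q ω ∈ closedT Δ p q,
        e (Coh.mk _ ω h) = Submodule.Quotient.mk ⟨famTVT Δ p q ω, h'⟩ :=
  coh_equiv (famTVT Δ p q) _ _ _ _ closedTV_iff (exactTV_iff Δ p q)

theorem hTVc_equiv (Δ : Fan n) (p q : ℕ) :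
    ∃ e : HTVc Δ p q ≃ₗ[ℝ] HTc Δ p q, ∀ (ω : FamTV Δ p q) (h : ω ∈ closedTVc Δ p q),
      ∃ h' : famTVT Δ p q ω ∈ closedT Δ p q ⊓ suppT Δ p q,
        e (Coh.mk _ ω h) = Submodule.Quotient.mk ⟨famTVT Δ p q ω, h'⟩ :=
  coh_equiv (famTVT Δ p q) _ _ _ _ closedTVc_iff (exactTVc_iff Δ p q)

end fan

section toric

variable {K : Type} [NormedField K] {X : Scheme.{0}} {s : X ⟶ Spec (.of K)} {n : ℕ} {Δ : Fan n}

theorem kS_eq (s : X ⟶ Spec (.of K)) (U : X.Opens) (a : K) : kS s U a = kΓ s U a := rfl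

/-- conversion -/
noncomputable def ToricV.toT (τ : ToricV Δ s) : Toric Δ s where
  U := τ.U
  aff := τ.aff
  cover := τ.cover
  χ i :=
    { toFun := fun m => (τ.χ i).pow m.toAdd
      map_one' := (τ.χ i).zero
      map_mul' := fun a b => (τ.χ i).add a.toAdd b.toAdd }
  basis := τ.basis
  le := τ.le
  res i j h m m' hm := τ.res i j h m m' hm
  basic i j m h := τ.basic i j m h
  inter := τ.inter

/-- conversion -/
noncomputable def Toric.toV (τ : Toric Δ s) : ToricV Δ s where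
  U := τ.U
  aff := τ.aff
  cover := τ.cover
  χ i :=
    { pow := fun m => τ.χ i (Multiplicative.ofAdd m)
      zero := map_one (τ.χ i)
      add := fun a b => map_mul (τ.χ i) (Multiplicative.ofAdd a) (Multiplicative.ofAdd b) }
  basis := τ.basis
  le := τ.le
  res i j h m m' hm := τ.res i j h m m' hm
  basic i j m h := τ.basic i j m h
  inter := τ.inter

theorem isTropV_iff (τ : ToricV Δ s) (T : An s → NR Δ) : IsTropV τ T ↔ IsTropMap τ.toT T :=
  ⟨fun h => ⟨h.mem, h.val⟩, fun h => ⟨h.mem, h.val⟩⟩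

theorem tanU_eq (τ : ToricV Δ s) (x : An s) {i : Δ.ι} (h : x.1 ∈ τ.U i) (δ : Tan x.2) :
    tanU (x.ev _ h) (τ.χ i) δ = tanT τ.toT x h δ := by
  refine AddMonoidHom.ext fun m => ?_
  exact tanAt_eq δ (Units.map (X.evaluation (τ.U i) x.1 h).hom.toMonoidHom
    (τ.toT.un i (Multiplicative.ofAdd m)))

theorem tropV_eq (τ : ToricV Δ s) (T : An s → NR Δ) (hT : IsTropV τ T) (hT' : IsTropMap τ.toT T)
    (p q : ℕ) (ω : FamTV Δ p q) :
    famVA s p q (tropV τ T hT ω) = tropPull τ.toT T hT' p q (famTVT Δ p q ω) := by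
  funext x δ ε
  show ω (T x) (fun k => tanU (x.ev _ (hT.mem x)) (τ.χ (T x).i) (δ k))
    (fun k => tanU (x.ev _ (hT.mem x)) (τ.χ (T x).i) (ε k)) = ω (T x)
      (fun k => tanT τ.toT x (hT'.mem x) (δ k)) (fun k => tanT τ.toT x (hT'.mem x) (ε k))
  have h1 : (fun k => tanU (x.ev _ (hT.mem x)) (τ.χ (T x).i) (δ k)) =
      fun k => tanT τ.toT x (hT'.mem x) (δ k) := funext fun k => tanU_eq τ x (hT.mem x) (δ k)
  have h2 : (fun k => tanU (x.ev _ (hT.mem x)) (τ.χ (T x).i) (ε k)) =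
      fun k => tanT τ.toT x (hT'.mem x) (ε k) := funext fun k => tanU_eq τ x (hT.mem x) (ε k)
  rw [h1, h2]

/-- **TopV**. Toric varieties of dimension `m+1`: the tropicalization map, the pull-back of forms,
and the isomorphisms in bidegree `(m+1,m+1)`. -/
def St_TopV : Prop :=
  ∀ (K : Type) [NontriviallyNormedField K] [IsUltrametricDist K],
    (Set.range fun a : K => ‖a‖).Countable →
    ∀ (m : ℕ) (Δ : Fan (m + 1)) (X : Scheme.{0}) [IsIntegral X] (s : X ⟶ Spec (.of K))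
      (τ : ToricV Δ s),
      (∃ T, IsTropV τ T) ∧
      ∀ (T : An s → NR Δ) (hT : IsTropV τ T),
        (∀ T', IsTropV τ T' → T' = T) ∧ Continuous T ∧
        (∀ (p q : ℕ) (ω : FamTV Δ p q), IsFormTV ω → IsFormV (tropV τ T hT ω)) ∧
        (∀ (p q : ℕ) (η : FamTV Δ p q) (ω : FamTV Δ p (q + 1)), IsDbarTV η ω →
          IsDbarV (tropV τ T hT η) (tropV τ T hT ω)) ∧
        IsoBy (closedTV Δ (m + 1) (m + 1)) (exactTV Δ (m + 1) (m + 1))
          (closedV s (m + 1) (m + 1)) (exactV s (m + 1) (m + 1)) (tropV τ T hT) ∧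
        IsoBy (closedTVc Δ (m + 1) (m + 1)) (exactTVc Δ (m + 1) (m + 1))
          (closedVc s (m + 1) (m + 1)) (exactVc s (m + 1) (m + 1)) (tropV τ T hT) ∧
        OneDim (closedVc s (m + 1) (m + 1)) (exactVc s (m + 1) (m + 1)) ∧
        (Δ.Complete → OneDim (closedV s (m + 1) (m + 1)) (exactV s (m + 1) (m + 1))) ∧
        (¬ Δ.Complete → ZeroDim (closedV s (m + 1) (m + 1)) (exactV s (m + 1) (m + 1)))

/-- composition of isomorphisms -/
theorem isoBy_abs {V W : Type} [AddCommGroup V] [Module ℝ V] [AddCommGroup W] [Module ℝ W]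
    {Z B : Set V} {Z' B' : Set W} {A A' : Type} [AddCommGroup A] [Module ℝ A] [AddCommGroup A']
    [Module ℝ A'] (e : Coh Z B ≃ₗ[ℝ] A) (e' : Coh Z' B' ≃ₗ[ℝ] A') (f : A →ₗ[ℝ] A')
    (hf : Function.Bijective f) (P : V → W)
    (h : ∀ (α : V) (h : α ∈ Z), ∃ h' : P α ∈ Z', f (e (Coh.mk B α h)) = e' (Coh.mk B' (P α) h')) :
    IsoBy Z B Z' B' P := by
  refine ⟨(e.trans (LinearEquiv.ofBijective f hf)).trans e'.symm, fun α hα => ?_⟩
  obtain ⟨h', h1⟩ := h α hα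
  refine ⟨h', ?_⟩
  show e'.symm (f (e (Coh.mk B α hα))) = _
  rw [h1, e'.symm_apply_apply]

end toric

end TDC
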