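import Pool.Agent.TDC.VN
import Pool.Agent.TDC.VTBr
import Pool.Agent.TDC.DefsNs2
import Pool.Agent.TDC.NsFin

/-!
# TDC: the definitions of `TDC/VN.lean` agree with those of `TDC/DefsNs.lean`, `TDC/DefsNs2.lean`
-/

namespace TDC

open scoped Topology
open AlgebraicGeometry CategoryTheory

section morphism

variable {K : Type} [NormedField K] {X Y : Scheme.{0}} {s : X ⟶ Spec (.of K)}
  {s' : Y ⟶ Spec (.of K)} {N : ℕ} {Δ : Fan N}

theorem isTropP_iff (τ : ToricV Δ s') (φ : X ⟶ Y) (T : An s → NR Δ) :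
    IsTropP τ φ T ↔ IsTropOf (τ.toT.pull φ) T :=
  ⟨fun h => ⟨h.mem, h.val⟩, fun h => ⟨h.mem, h.val⟩⟩

theorem tanP_eq (τ : ToricV Δ s') (φ : X ⟶ Y) (x : An s) {i : Δ.ι} (h : x.pt ∈ φ ⁻¹ᵁ τ.U i)
    (δ : Tan x.2) : tanU (An.evp φ x _ h) (τ.χ i) δ = tanM (τ.toT.pull φ) x h δ := by
  refine AddMonoidHom.ext fun m => ?_
  exact tanAt_eq δ (Units.map (X.evaluation ((τ.toT.pull φ).U i) x.1 h).hom.toMonoidHom
    ((τ.toT.pull φ).un i (Multiplicative.ofAdd m)))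

theorem dTV_eq (τ : ToricV Δ s') (φ : X ⟶ Y) (T : An s → NR Δ) (hT : IsTropP τ φ T)
    (hT' : IsTropOf (τ.toT.pull φ) T) (p q : ℕ) (u : TXV s p q) :
    dTV τ φ T hT p q u = dT (τ.toT.pull φ) T hT' p q u := by
  obtain ⟨x, δ, ε⟩ := u
  show (⟨T x, (fun k => tanU (An.evp φ x _ (hT.mem x)) (τ.χ (T x).i) (δ k)),
      fun k => tanU (An.evp φ x _ (hT.mem x)) (τ.χ (T x).i) (ε k)⟩ : TN Δ p q) =
    ⟨T x, (fun k => tanM (τ.toT.pull φ) x (hT'.mem x) (δ k)),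
      fun k => tanM (τ.toT.pull φ) x (hT'.mem x) (ε k)⟩
  have h1 : (fun k => tanU (An.evp φ x _ (hT.mem x)) (τ.χ (T x).i) (δ k)) =
      fun k => tanM (τ.toT.pull φ) x (hT'.mem x) (δ k) :=
    funext fun k => tanP_eq τ φ x (hT.mem x) (δ k)
  have h2 : (fun k => tanU (An.evp φ x _ (hT.mem x)) (τ.χ (T x).i) (ε k)) =
      fun k => tanM (τ.toT.pull φ) x (hT'.mem x) (ε k) :=
    funext fun k => tanP_eq τ φ x (hT.mem x) (ε k)
  rw [h1, h2]

theorem tropS_iff (τ : ToricV Δ s') (φ : X ⟶ Y) (T : An s → NR Δ) (hT : IsTropP τ φ T)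
    (hT' : IsTropOf (τ.toT.pull φ) T) (p q : ℕ) (w : TN Δ p q) :
    (w : TNV Δ p q) ∈ TropS τ φ T hT p q ↔ w ∈ Set.range (dT (τ.toT.pull φ) T hT' p q) := by
  constructor
  · rintro ⟨u, hu⟩
    exact ⟨u, (dTV_eq τ φ T hT hT' p q u).symm.trans hu⟩
  · rintro ⟨u, hu⟩
    exact ⟨u, (dTV_eq τ φ T hT hT' p q u).trans hu⟩

/-- the two types of families are the same -/
noncomputable def famSR (τ : ToricV Δ s') (φ : X ⟶ Y) (T : An s → NR Δ) (hT : IsTropP τ φ T)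
    (hT' : IsTropOf (τ.toT.pull φ) T) (p q : ℕ) :
    FamS (TropS τ φ T hT) p q ≃ₗ[ℝ] FamR (τ.toT.pull φ) T hT' p q where
  toFun ω := fun w => ω ⟨w.1, (tropS_iff τ φ T hT hT' p q w.1).2 w.2⟩
  invFun ω := fun w => ω ⟨w.1, (tropS_iff τ φ T hT hT' p q w.1).1 w.2⟩
  map_add' _ _ := rfl
  map_smul' _ _ := rfl
  left_inv _ := rfl
  right_inv _ := rfl

variable {τ : ToricV Δ s'} {φ : X ⟶ Y} {T : An s → NR Δ} {hT : IsTropP τ φ T}
  {hT' : IsTropOf (τ.toT.pull φ) T} {p q : ℕ}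

theorem isDbarS_iff (η : FamS (TropS τ φ T hT) p q) (ω : FamS (TropS τ φ T hT) p (q + 1)) :
    IsDbarS (Set.range T) η ω ↔
      IsDbarR (famSR τ φ T hT hT' p q η) (famSR τ φ T hT hT' p (q + 1) ω) := by
  constructor
  · intro h y hy
    obtain ⟨R, F, α, hF, hα, hev⟩ := h y hy
    refine ⟨R, F, α, hF, hα, hev.mono ?_⟩
    rintro z ⟨h1, h2, h3⟩
    exact ⟨h1, fun w hw => h2 ⟨w.1, (tropS_iff τ φ T hT hT' p q w.1).2 w.2⟩ hw,
      fun w hw => h3 ⟨w.1, (tropS_iff τ φ T hT hT' p (q + 1) w.1).2 w.2⟩ hw⟩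
  · intro h y hy
    obtain ⟨R, F, α, hF, hα, hev⟩ := h y hy
    refine ⟨R, F, α, hF, hα, hev.mono ?_⟩
    rintro z ⟨h1, h2, h3⟩
    exact ⟨h1, fun w hw => h2 ⟨w.1, (tropS_iff τ φ T hT hT' p q w.1).1 w.2⟩ hw,
      fun w hw => h3 ⟨w.1, (tropS_iff τ φ T hT hT' p (q + 1) w.1).1 w.2⟩ hw⟩

theorem cSuppS_iff (ω : FamS (TropS τ φ T hT) p q) :
    CSuppS ω ↔ CSuppR (famSR τ φ T hT hT' p q ω) := by
  constructor
  · rintro ⟨C, hC, h⟩
    exact ⟨C, hC, fun w hw => h ⟨w.1, (tropS_iff τ φ T hT hT' p q w.1).2 w.2⟩ hw⟩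
  · rintro ⟨C, hC, h⟩
    exact ⟨C, hC, fun w hw => h ⟨w.1, (tropS_iff τ φ T hT hT' p q w.1).1 w.2⟩ hw⟩

theorem closedS_iff (ω : FamS (TropS τ φ T hT) p q) :
    ω ∈ closedS (Set.range T) (TropS τ φ T hT) p q ↔
      famSR τ φ T hT hT' p q ω ∈ closedR (τ.toT.pull φ) T hT' p q :=
  isDbarS_iff ω 0

theorem closedSc_iff (ω : FamS (TropS τ φ T hT) p q) :
    ω ∈ closedSc (Set.range T) (TropS τ φ T hT) p q ↔
      famSR τ φ T hT hT' p q ω ∈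
        closedR (τ.toT.pull φ) T hT' p q ⊓ suppR (τ.toT.pull φ) T hT' p q :=
  and_congr (isDbarS_iff ω 0) (cSuppS_iff ω)

theorem exactS_iff (p q : ℕ) (ω : FamS (TropS τ φ T hT) p q) :
    ω ∈ exactS (Set.range T) (TropS τ φ T hT) p q ↔
      famSR τ φ T hT hT' p q ω ∈ exactR (τ.toT.pull φ) T hT' p q := by
  cases q with
  | zero =>
    show ω = 0 ↔ famSR τ φ T hT hT' p 0 ω = 0
    exact (map_eq_zero_iff _ (famSR τ φ T hT hT' p 0).injective).symm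
  | succ q =>
    constructor
    · rintro ⟨η, h⟩
      exact ⟨famSR τ φ T hT hT' p q η, (isDbarS_iff η ω).1 h⟩
    · rintro ⟨η, h⟩
      exact ⟨(famSR τ φ T hT hT' p q).symm η, (isDbarS_iff (hT' := hT') _ ω).2 h⟩

theorem exactSc_iff (p q : ℕ) (ω : FamS (TropS τ φ T hT) p q) :
    ω ∈ exactSc (Set.range T) (TropS τ φ T hT) p q ↔
      famSR τ φ T hT hT' p q ω ∈ exactRc (τ.toT.pull φ) T hT' p q := by
  cases q with
  | zero =>
    show ω = 0 ↔ famSR τ φ T hT hT' p 0 ω = 0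
    exact (map_eq_zero_iff _ (famSR τ φ T hT hT' p 0).injective).symm
  | succ q =>
    constructor
    · rintro ⟨η, hc, h⟩
      exact ⟨famSR τ φ T hT hT' p q η, (cSuppS_iff η).1 hc, (isDbarS_iff η ω).1 h⟩
    · rintro ⟨η, hc, h⟩
      exact ⟨(famSR τ φ T hT hT' p q).symm η, (cSuppS_iff (hT' := hT') _).2 hc,
        (isDbarS_iff (hT' := hT') _ ω).2 h⟩

theorem pullS_eq (ω : FamS (TropS τ φ T hT) p q) :
    famVA s p q (pullS τ φ T hT ω) =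
      pullR (τ.toT.pull φ) T hT' p q (famSR τ φ T hT hT' p q ω) := by
  funext x δ ε
  show ω ⟨dTV τ φ T hT p q ⟨x, δ, ε⟩, _⟩ = ω ⟨dT (τ.toT.pull φ) T hT' p q ⟨x, δ, ε⟩, _⟩
  exact congrArg ω (Subtype.ext (dTV_eq τ φ T hT hT' p q ⟨x, δ, ε⟩))

/-- transport of non-surjectivity -/
theorem notOnto_of {V W A A' : Type} [AddCommGroup V] [Module ℝ V] [AddCommGroup W] [Module ℝ W]
    [AddCommGroup A] [Module ℝ A] [AddCommGroup A'] [Module ℝ A'] {Z B : Set V} {Z' B' : Set W}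
    (e : Coh Z B ≃ₗ[ℝ] A) (e' : Coh Z' B' ≃ₗ[ℝ] A') (f : A →ₗ[ℝ] A')
    (hf : ¬ Function.Surjective f) (P : V → W)
    (h : ∀ (α : V) (h : α ∈ Z), ∃ h' : P α ∈ Z', f (e (Coh.mk B α h)) = e' (Coh.mk B' (P α) h')) :
    NotOnto Z B Z' B' P := by
  refine ⟨(e'.symm.toLinearMap.comp f).comp e.toLinearMap, fun α hα => ?_, fun hs => hf ?_⟩
  · obtain ⟨h', h1⟩ := h α hα
    refine ⟨h', ?_⟩
    show e'.symm (f (e (Coh.mk B α hα))) = _
    rw [h1, e'.symm_apply_apply]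
  · intro a
    obtain ⟨b, hb⟩ := hs (e'.symm a)
    refine ⟨e b, ?_⟩
    have h2 : e'.symm (f (e b)) = e'.symm a := hb
    exact e'.symm.injective h2

end morphism

/-- the statement `NoSurj` from the theorem of `TDC/NsFin.lean` -/
theorem noSurj_of (h1 : St_NsTro) (h2 : St_NsFin) (K : Type) [NontriviallyNormedField K]
    [IsUltrametricDist K] (c : ℂ →+* K) (hc : ResC c)
    (hcount : (Set.range fun a : K => ‖a‖).Countable) (X : Scheme.{0}) [IsIntegral X]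
    (s : X ⟶ Spec (.of K)) (m : ℕ) (x y : FunF X) (t : Fin m → (FunF X)ˣ)
    (hE : EFunX s m x y t) : NoSurj s (m + 1) := by
  intro N Δ Y s' τ φ hφ hcl
  obtain ⟨⟨T, hT'⟩, huniq, hcont⟩ := h1 N Δ K X s (τ.toT.pull φ)
  have hT : IsTropP τ φ T := (isTropP_iff τ φ T).2 hT'
  obtain ⟨⟨hp, h3⟩, h4⟩ := h2 K X s c m x y t hcount hc hE N Δ Y s' τ.toT φ hφ hcl T hT'
  refine ⟨T, hT, fun T'' h => huniq T'' T ((isTropP_iff τ φ T'').1 h) hT', (hcont T hT').1, ?_, ?_⟩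
  · obtain ⟨e, he⟩ := coh_equiv (famSR τ φ T hT hT' (m + 1) (m + 1)) _ _ _ _ closedSc_iff
      (exactSc_iff (m + 1) (m + 1))
    obtain ⟨e', he'⟩ := hVc_equiv s (m + 1) (m + 1)
    refine notOnto_of e e' (tropHc (τ.toT.pull φ) T hT' (m + 1) (m + 1) hp) h3 _ fun α hα => ?_
    obtain ⟨h5, h6⟩ := he α hα
    have h7 : famVA s (m + 1) (m + 1) (pullS τ φ T hT α) ∈
        closedA s (m + 1) (m + 1) ⊓ suppA s (m + 1) (m + 1) := by
      rw [pullS_eq (hT' := hT')]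
      refine ⟨?_, hp _ _ _ h5.2⟩
      have h8 := (thm_NsPul (thm_NsTro thm_FFace thm_FVal) N Δ K X s (τ.toT.pull φ) T hT'
        (m + 1) (m + 1)).2 _ 0 h5.1
      rw [map_zero] at h8
      exact h8
    refine ⟨h7, ?_⟩
    obtain ⟨h9, h10⟩ := he' (pullS τ φ T hT α) h7
    rw [h6, h10]
    show Submodule.Quotient.mk _ = Submodule.Quotient.mk _
    congr 1
    exact Subtype.ext (pullS_eq α).symm
  · intro hcomp
    obtain ⟨e, he⟩ := coh_equiv (famSR τ φ T hT hT' (m + 1) (m + 1)) _ _ _ _ closedS_iff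
      (exactS_iff (m + 1) (m + 1))
    obtain ⟨e', he'⟩ := hV_equiv s (m + 1) (m + 1)
    refine notOnto_of e e' (tropH (τ.toT.pull φ) T hT' (m + 1) (m + 1)) (h4 hcomp) _
      fun α hα => ?_
    obtain ⟨h5, h6⟩ := he α hα
    have h7 : famVA s (m + 1) (m + 1) (pullS τ φ T hT α) ∈ closedA s (m + 1) (m + 1) := by
      rw [pullS_eq (hT' := hT')]
      have h8 := (thm_NsPul (thm_NsTro thm_FFace thm_FVal) N Δ K X s (τ.toT.pull φ) T hT'
        (m + 1) (m + 1)).2 _ 0 h5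
      rw [map_zero] at h8
      exact h8
    refine ⟨h7, ?_⟩
    obtain ⟨h9, h10⟩ := he' (pullS τ φ T hT α) h7
    rw [h6, h10]
    show Submodule.Quotient.mk _ = Submodule.Quotient.mk _
    congr 1
    exact Subtype.ext (pullS_eq α).symm

end TDC
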