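import Pool.Agent.TDC.StT

/-!
# TDC: module Avd (helper75)

Finitely many non-zero homomorphisms to `ℝ` have a common non-zero.
-/

namespace TDC

theorem thm_Avd : St_Avd := by
  intro A _ Φ hΦ
  refine Set.Finite.induction_on
    (motive := fun Φ _ => (∀ φ ∈ Φ, φ ≠ 0) → ∃ a : A, ∀ φ ∈ Φ, φ a ≠ 0) Φ hΦ ?_ ?_
  · intro _
    exact ⟨0, fun φ hφ => absurd hφ (Set.notMem_empty φ)⟩
  · intro ψ S _ hS ih hne
    obtain ⟨a, ha⟩ := ih fun φ hφ => hne φ (Set.mem_insert_of_mem _ hφ)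
    by_cases hψ : ψ a = 0
    swap
    · refine ⟨a, fun φ hφ => ?_⟩
      rcases Set.mem_insert_iff.1 hφ with rfl | h
      · exact hψ
      · exact ha φ h
    obtain ⟨b, hb⟩ : ∃ b, ψ b ≠ 0 := by
      by_contra hcon
      push Not at hcon
      exact hne ψ (Set.mem_insert _ _) (AddMonoidHom.ext hcon)
    have hfin : (⋃ φ ∈ S, {N : ℕ | (N : ℝ) * φ a + φ b = 0}).Finite := by
      refine hS.biUnion fun φ hφ => Set.Subsingleton.finite ?_
      intro N hN M hM
      have h1 : (N : ℝ) * φ a + φ b = 0 := hN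
      have h2 : (M : ℝ) * φ a + φ b = 0 := hM
      have h3 : ((N : ℝ) - M) * φ a = 0 := by linear_combination h1 - h2
      rcases mul_eq_zero.1 h3 with h | h
      · exact_mod_cast sub_eq_zero.1 h
      · exact absurd h (ha φ hφ)
    obtain ⟨N, hN⟩ := Set.Infinite.nonempty (Set.Finite.infinite_compl hfin)
    refine ⟨N • a + b, fun φ hφ => ?_⟩
    rcases Set.mem_insert_iff.1 hφ with rfl | h
    · rw [map_add, map_nsmul, hψ, smul_zero, zero_add]
      exact hb
    · rw [map_add, map_nsmul, nsmul_eq_mul]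
      intro h0
      exact hN (Set.mem_iUnion₂.2 ⟨φ, h, h0⟩)

end TDC
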