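import Pool.Agent.TDC.StT

/-!
# TDC, module BaJ: the weights of `F ∘ J` on the reparametrized sheets are balanced
-/

set_option autoImplicit false

namespace TDC

open scoped Topology
open MeasureTheory

private theorem BaJ_null {n : ℕ} (w : Fin n → ℝ) (hw : w ≠ 0) (d : ℝ) :
    volume {s : Fin n → ℝ | w ⬝ᵥ s = d} = 0 := by
  have hker : volume ((LinearMap.ker (dotProductBilin ℝ ℝ w) : Submodule ℝ (Fin n → ℝ)) :
      Set (Fin n → ℝ)) = 0 := by
    apply Measure.addHaar_submodule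
    intro htop
    apply hw
    funext j
    have hj : (Pi.single j 1 : Fin n → ℝ) ∈ LinearMap.ker (dotProductBilin ℝ ℝ w) := by
      rw [htop]
      exact Submodule.mem_top
    rw [LinearMap.mem_ker] at hj
    have h2 : w ⬝ᵥ Pi.single j 1 = 0 := hj
    rw [dotProduct_single_one] at h2
    exact h2
  rcases Set.eq_empty_or_nonempty {s : Fin n → ℝ | w ⬝ᵥ s = d} with h | ⟨s₀, hs₀⟩
  · rw [h, measure_empty]
  · have e : {s : Fin n → ℝ | w ⬝ᵥ s = d} = (fun s => s + -s₀) ⁻¹'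
        ((LinearMap.ker (dotProductBilin ℝ ℝ w) : Submodule ℝ (Fin n → ℝ)) :
          Set (Fin n → ℝ)) := by
      ext s
      have hs : w ⬝ᵥ s₀ = d := hs₀
      show w ⬝ᵥ s = d ↔ s + -s₀ ∈ LinearMap.ker (dotProductBilin ℝ ℝ w)
      rw [LinearMap.mem_ker]
      show w ⬝ᵥ s = d ↔ w ⬝ᵥ (s + -s₀) = 0
      rw [dotProduct_add, dotProduct_neg, hs]
      constructor
      · intro h
        rw [h]
        ring
      · intro h
        linarith
    rw [e, measure_preimage_add_right, hker]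

/-- two different affine maps are different almost everywhere -/
private theorem BaJ_ne {R n : ℕ} (k l : Matrix (Fin R) (Fin n) ℝ × (Fin R → ℝ)) (h : l ≠ k) :
    ∀ᵐ u : Fin n → ℝ, af l u ≠ af k u := by
  rw [ae_iff]
  by_cases h1 : l.1 = k.1
  · have h2 : l.2 ≠ k.2 := fun h2 => h (Prod.ext h1 h2)
    have h3 : {u : Fin n → ℝ | ¬ af l u ≠ af k u} = ∅ := by
      rw [Set.eq_empty_iff_forall_notMem]
      intro u hu
      have hu' : af l u = af k u := not_not.1 hu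
      unfold af at hu'
      rw [h1] at hu'
      exact h2 (add_right_cancel hu')
    rw [h3, measure_empty]
  · have h2 : ∃ i, l.1 i - k.1 i ≠ 0 := by
      by_contra hc
      push Not at hc
      exact h1 (funext fun i => sub_eq_zero.1 (hc i))
    obtain ⟨i, hi⟩ := h2
    refine measure_mono_null ?_ (BaJ_null _ hi (k.2 i - l.2 i))
    intro u hu
    have hu' : af l u = af k u := not_not.1 hu
    have h3 := congrFun hu' i
    unfold af at h3
    have h4 : l.2 i + l.1 i ⬝ᵥ u = k.2 i + k.1 i ⬝ᵥ u := h3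
    show (l.1 i - k.1 i) ⬝ᵥ u = k.2 i - l.2 i
    rw [sub_dotProduct]
    linarith

/-- the value of the reparametrized sheet -/
private theorem BaJ_rp {R n : ℕ} (J : Fin n → Fin R)
    (k : Matrix (Fin R) (Fin n) ℝ × (Fin R → ℝ)) (hk : (k.1.submatrix J id).det ≠ 0)
    (u : Fin n → ℝ) : af (rp J k) (af k u ∘ J) = af k u := by
  have h1 : af k u ∘ J = k.2 ∘ J + (k.1.submatrix J id).mulVec u := rfl
  have hu : IsUnit (k.1.submatrix J id).det := isUnit_iff_ne_zero.2 hk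
  rw [h1]
  unfold af rp
  rw [Matrix.mulVec_add, Matrix.mulVec_mulVec, Matrix.mul_assoc,
    Matrix.nonsing_inv_mul _ hu, Matrix.mul_one]
  have h2 : ∀ a b c : Fin R → ℝ, a - b + (b + c) = a + c := by
    intro a b c
    abel
  exact h2 _ _ _

/-- an affine map determines its data -/
private theorem BaJ_ext {R n : ℕ} (k l : Matrix (Fin R) (Fin n) ℝ × (Fin R → ℝ))
    (h : ∀ u, af k u = af l u) : k = l := by
  have h2 : k.2 = l.2 := by
    have h0 := h 0
    unfold af at h0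
    rw [Matrix.mulVec_zero, Matrix.mulVec_zero, add_zero, add_zero] at h0
    exact h0
  refine Prod.ext ?_ h2
  ext i j
  have h0 := congrFun (h (Pi.single j 1)) i
  unfold af at h0
  rw [h2] at h0
  have h3 := add_left_cancel h0
  rw [Matrix.mulVec_single_one, Matrix.mulVec_single_one] at h3
  exact h3

/-- `rp J` is injective -/
private theorem BaJ_inj {R n : ℕ} (I J : Fin n → Fin R)
    (k l : Matrix (Fin R) (Fin n) ℝ × (Fin R → ℝ)) (hk : (k.1.submatrix J id).det ≠ 0)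
    (hl : (l.1.submatrix J id).det ≠ 0) (hkI : ∀ (s : Fin n → ℝ) (i : Fin n), af k s (I i) = s i)
    (hlI : ∀ (s : Fin n → ℝ) (i : Fin n), af l s (I i) = s i) (h : rp J k = rp J l) : k = l := by
  have hu : IsUnit (k.1.submatrix J id).det := isUnit_iff_ne_zero.2 hk
  -- surjectivity of `u ↦ af k u ∘ J`
  have hsurj : ∀ s : Fin n → ℝ, ∃ u : Fin n → ℝ, af k u ∘ J = s := by
    intro s
    refine ⟨(k.1.submatrix J id)⁻¹.mulVec (s - k.2 ∘ J), ?_⟩
    have h1 : af k ((k.1.submatrix J id)⁻¹.mulVec (s - k.2 ∘ J)) ∘ J =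
        k.2 ∘ J + (k.1.submatrix J id).mulVec
          ((k.1.submatrix J id)⁻¹.mulVec (s - k.2 ∘ J)) := rfl
    rw [h1, Matrix.mulVec_mulVec, Matrix.mul_nonsing_inv _ hu, Matrix.one_mulVec]
    abel
  apply BaJ_ext
  intro u
  obtain ⟨w, hw⟩ := hsurj (af l u ∘ J)
  have e1 : af l u = af k w := by
    rw [← BaJ_rp J l hl u, ← h, ← hw, BaJ_rp J k hk w]
  have e2 : u = w := by
    funext i
    rw [← hlI u i, e1, hkI w i]
  rw [e1, e2]

private theorem BaJ_card {α β : Type} (E : Set α) (hE : E.Finite) (f : α → β) (Y : Finset β) :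
    (E ∩ {σ | f σ ∈ Y}).ncard = ∑ y ∈ Y, (E ∩ {σ | f σ = y}).ncard := by
  classical
  obtain ⟨E', rfl⟩ := hE.exists_finset_coe
  have e1 : ((E' : Set α) ∩ {σ | f σ ∈ Y}) = ((E'.filter fun σ => f σ ∈ Y : Finset α) : Set α) := by
    ext σ
    simp
  have e2 : ∀ y : β, ((E' : Set α) ∩ {σ | f σ = y}) =
      ((E'.filter fun σ => f σ = y : Finset α) : Set α) := by
    intro y
    ext σ
    simp
  rw [e1, Set.ncard_coe_finset]
  rw [Finset.card_eq_sum_card_fiberwise (f := f) (t := Y)]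
  · refine Finset.sum_congr rfl fun y hy => ?_
    rw [e2, Set.ncard_coe_finset, Finset.filter_filter]
    congr 1
    refine Finset.filter_congr fun σ _ => ?_
    constructor
    · exact fun h => h.2
    · exact fun h => ⟨h ▸ hy, h⟩
  · intro σ hσ
    have hσ' := Finset.mem_filter.1 (Finset.mem_coe.1 hσ)
    exact hσ'.2

private theorem BaJ_wtS_le {K L : Type} [NormedField K] [Field L] [Algebra K L] {n : ℕ}
    (g : Fin n → Lˣ) (S : Set (L →ₐ[K] AlgebraicClosure L)) : |wtS K g S| ≤ dg K g := by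
  have hd : 0 ≤ dg K g := Nat.cast_nonneg _
  have hr0 : 0 ≤ (((Emb K g ∩ S).ncard : ℝ) / ((Emb K g).ncard : ℝ)) :=
    div_nonneg (Nat.cast_nonneg _) (Nat.cast_nonneg _)
  have hr1 : (((Emb K g ∩ S).ncard : ℝ) / ((Emb K g).ncard : ℝ)) ≤ 1 := by
    by_cases hfin : (Emb K g).Finite
    · refine div_le_one_of_le₀ ?_ (Nat.cast_nonneg _)
      exact_mod_cast Set.ncard_le_ncard Set.inter_subset_left hfin
    · have h0 : (Emb K g).ncard = 0 := Set.Infinite.ncard hfin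
      rw [h0, Nat.cast_zero, div_zero]
      exact zero_le_one
  unfold wtS
  rw [abs_of_nonneg (mul_nonneg hd hr0)]
  exact mul_le_of_le_one_right hd hr1

private theorem BaJ_cw_le {K L : Type} [NormedField K] [Field L] [Algebra K L] {n R : ℕ}
    (g : Fin n → Lˣ) (F : Fin R → Lˣ) (s : Fin n → ℝ) (p : Fin R → ℝ) :
    |cw K g F s p| ≤ dg K g := by
  unfold cw
  split_ifs with h
  · exact BaJ_wtS_le g _
  · rw [abs_zero]
    exact Nat.cast_nonneg _

/-- the points over generic positions lie on non-degenerate sheets -/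
private theorem BaJ_sheet {K L : Type} [NontriviallyNormedField K] [IsUltrametricDist K] [Field L]
    [Algebra K L] (hEmG : St_EmG) (hIndG : St_IndG) (hTng : St_Tng) {n R : ℕ}
    (htr : TrLe K L n) (F : Fin R → Lˣ) (I J : Fin n → Fin R)
    (𝒦 : Finset (Matrix (Fin R) (Fin n) ℝ × (Fin R → ℝ))) (hS : Sheets K F I 𝒦)
    (hJI : ∀ y : Pt (algebraMap K L), Indep y (F ∘ J) → Indep y (F ∘ I))
    (s : Fin n → ℝ) (hs : Generic K s) (x : Pt (algebraMap K (AlgebraicClosure L)))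
    (hx : Ov (F ∘ J) s x) (σ : L →ₐ[K] AlgebraicClosure L) (hσ : σ ∈ Emb K (F ∘ J)) :
    ∃ k ∈ 𝒦, (k.1.submatrix J id).det ≠ 0 ∧ logv (pb σ x) F = af (rp J k) s := by
  obtain ⟨hG, hlog⟩ := hEmG.1 K L n (F ∘ J) x s hx σ hσ
  have hIJ : Indep (pb σ x) (F ∘ J) := (hEmG.2.2 K L n (F ∘ J) (pb σ x)).2 (by rw [hlog]; exact hs)
  have hII : Indep (pb σ x) (F ∘ I) := hJI _ hIJ
  obtain ⟨k, hk, hk1, hk2⟩ := hS.2 (pb σ x)
    (hIndG K L (algebraMap K L) n (pb σ x) (F ∘ I) hII)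
  have hdet : (k.1.submatrix J id).det ≠ 0 := by
    have hsurj : Function.Surjective (k.1.submatrix J id).mulVec := by
      intro v
      obtain ⟨δ, hδ⟩ := (hTng K L n htr (pb σ x) (F ∘ J) hIJ).1 v
      refine ⟨ev (F ∘ I) δ, ?_⟩
      have h1 : ev (F ∘ J) δ = ev F δ ∘ J := rfl
      rw [← hδ, h1, hk2 δ]
      rfl
    have hunit := Matrix.mulVec_surjective_iff_isUnit.1 hsurj
    exact isUnit_iff_ne_zero.1 ((Matrix.isUnit_iff_isUnit_det _).1 hunit)
  refine ⟨k, hk, hdet, ?_⟩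
  have h2 : s = af k (logv (pb σ x) (F ∘ I)) ∘ J := by
    rw [← hk1, ← hlog]
    rfl
  rw [h2, BaJ_rp J k hdet, ← hk1]

theorem thm_BaJ (hEmF : St_EmF) (hEmG : St_EmG) (hIndG : St_IndG) (hTng : St_Tng)
    (hGNl : St_GNl) (hGEx : St_GEx) (hCon : St_Con) : St_BaJ := by
  classical
  intro K L _ _ _ _ n R hn htr hfg hcount F I J 𝒦 hS hJI
  have hinj : ∀ k ∈ 𝒦, ∀ l ∈ 𝒦, (k.1.submatrix J id).det ≠ 0 →
      (l.1.submatrix J id).det ≠ 0 → rp J k = rp J l → k = l :=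
    fun k hk l hl hdk hdl h => BaJ_inj I J k l hdk hdl (hS.1 k hk) (hS.1 l hl) h
  have hGae : ∀ᵐ s : Fin n → ℝ, Generic K s ∧ ∀ k ∈ 𝒦, ∀ l ∈ 𝒦,
      (k.1.submatrix J id).det ≠ 0 → (l.1.submatrix J id).det ≠ 0 →
      af (rp J k) s = af (rp J l) s → k = l := by
    have g1 : ∀ᵐ u : Fin n → ℝ, Generic K u := by
      have h := hGNl K n hcount 1 0 (by rw [Matrix.det_one]; exact one_ne_zero)
      filter_upwards [h] with u hu
      rwa [Matrix.one_mulVec, zero_add] at hu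
    have g2 : ∀ᵐ s : Fin n → ℝ, ∀ k ∈ 𝒦, ∀ l ∈ 𝒦,
        (k.1.submatrix J id).det ≠ 0 → (l.1.submatrix J id).det ≠ 0 →
        af (rp J k) s = af (rp J l) s → k = l := by
      rw [Filter.eventually_all_finset]
      intro k hk
      rw [Filter.eventually_all_finset]
      intro l hl
      by_cases hkl : k = l
      · exact Filter.Eventually.of_forall fun _ _ _ _ => hkl
      · by_cases hdk : (k.1.submatrix J id).det = 0
        · exact Filter.Eventually.of_forall fun _ h _ _ => absurd hdk h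
        · by_cases hdl : (l.1.submatrix J id).det = 0
          · exact Filter.Eventually.of_forall fun _ _ h _ => absurd hdl h
          · have hne : rp J k ≠ rp J l := fun h => hkl (hinj k hk l hl hdk hdl h)
            filter_upwards [BaJ_ne (rp J l) (rp J k) hne] with s hs _ _ h
            exact absurd h hs
    filter_upwards [g1, g2] with s h1 h2
    exact ⟨h1, h2⟩
  refine ⟨{s | Generic K s ∧ ∀ k ∈ 𝒦, ∀ l ∈ 𝒦, (k.1.submatrix J id).det ≠ 0 →
      (l.1.submatrix J id).det ≠ 0 → af (rp J k) s = af (rp J l) s → k = l}, ?_,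
    fun s hs => hs.1, fun s hs => hs.2, fun s hs x hx σ hσ =>
      BaJ_sheet hEmG hIndG hTng htr F I J 𝒦 hS hJI s hs.1 x hx σ hσ⟩
  refine ⟨ae_iff.1 hGae, ⟨dg K (F ∘ J), fun k _ s _ => BaJ_cw_le (F ∘ J) F s _⟩, ?_⟩
  by_cases hind : AlgebraicIndependent K (fun i => ((F ∘ J) i : L))
  swap
  · intro s₀ p₀
    refine ⟨1, one_pos, 0, fun s _ _ => Finset.sum_eq_zero fun k _ => ?_⟩
    show cw K (F ∘ J) F s (af k s) = 0
    unfold cw
    rw [dif_neg]
    rintro ⟨x, hx⟩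
    exact hind (hEmG.2.1 K L n (F ∘ J) _ hx.1)
  by_cases hne : Nonempty (Pt (algebraMap K (AlgebraicClosure L)))
  swap
  · intro s₀ p₀
    refine ⟨1, one_pos, 0, fun s hs _ => ?_⟩
    obtain ⟨x, _⟩ := hGEx K L n htr (F ∘ J) hind s hs.1
    exact absurd ⟨x⟩ hne
  obtain ⟨x₀⟩ := hne
  have hfin : (Emb K (F ∘ J)).Finite := (hEmF K L n htr hfg (F ∘ J) hind).2.1
  set X : (Fin n → ℝ) → Pt (algebraMap K (AlgebraicClosure L)) := fun s =>
    if h : ∃ x : Pt (algebraMap K (AlgebraicClosure L)), Ov (F ∘ J) s x then h.choose else x₀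
    with hX
  set 𝒦' := (𝒦.filter fun k => (k.1.submatrix J id).det ≠ 0).image (rp J) with h𝒦'
  have hmem : ∀ k, k ∈ 𝒦' ↔ ∃ l ∈ 𝒦, (l.1.submatrix J id).det ≠ 0 ∧ rp J l = k := by
    intro k
    rw [h𝒦', Finset.mem_image]
    constructor
    · rintro ⟨l, hl, h⟩
      rw [Finset.mem_filter] at hl
      exact ⟨l, hl.1, hl.2, h⟩
    · rintro ⟨l, hl, h1, h2⟩
      exact ⟨l, Finset.mem_filter.2 ⟨hl, h1⟩, h2⟩
  have hOvX : ∀ s, Generic K s → Ov (F ∘ J) s (X s) := by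
    intro s hs
    have h : ∃ x : Pt (algebraMap K (AlgebraicClosure L)), Ov (F ∘ J) s x :=
      hGEx K L n htr (F ∘ J) hind s hs
    rw [hX]
    simp only [dif_pos h]
    exact h.choose_spec
  have hcw : ∀ s, Generic K s → ∀ p, cw K (F ∘ J) F s p =
      wtS K (F ∘ J) {σ | logv (pb σ (X s)) F = p} := by
    intro s hs p
    have h : ∃ x : Pt (algebraMap K (AlgebraicClosure L)), Ov (F ∘ J) s x :=
      hGEx K L n htr (F ∘ J) hind s hs
    unfold cw
    rw [hX]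
    simp only [dif_pos h]
  intro s₀ p₀
  obtain ⟨δ, hδ, C, hC⟩ := hCon K L n R htr hfg (F ∘ J) F
    {s | Generic K s ∧ ∀ k ∈ 𝒦, ∀ l ∈ 𝒦, (k.1.submatrix J id).det ≠ 0 →
      (l.1.submatrix J id).det ≠ 0 → af (rp J k) s = af (rp J l) s → k = l} X 𝒦'
    (Measure.dense_of_ae hGae) (fun s hs => hOvX s hs.1)
    (fun s hs σ hσ => by
      obtain ⟨k, hk, hdk, hlog⟩ :=
        BaJ_sheet hEmG hIndG hTng htr F I J 𝒦 hS hJI s hs.1 (X s) (hOvX s hs.1) σ hσ
      exact ⟨rp J k, (hmem _).2 ⟨k, hk, hdk, rfl⟩, hlog⟩) s₀ p₀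
  refine ⟨δ, hδ, C, fun s hs hsb => ?_⟩
  rw [← hC s hs hsb]
  have hsum : ∀ k ∈ 𝒦'.filter (fun k => af k s₀ = p₀),
      cw K (F ∘ J) F s (af k s) = wtS K (F ∘ J) {σ | logv (pb σ (X s)) F = af k s} :=
    fun k _ => hcw s hs.1 _
  have hinjs : Set.InjOn (fun k => af k s) (𝒦'.filter (fun k => af k s₀ = p₀) : Set
      (Matrix (Fin R) (Fin n) ℝ × (Fin R → ℝ))) := by
    intro k hk l hl hkl
    obtain ⟨k₁, hk₁, hdk, rfl⟩ := (hmem k).1 (Finset.mem_filter.1 (Finset.mem_coe.1 hk)).1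
    obtain ⟨l₁, hl₁, hdl, rfl⟩ := (hmem l).1 (Finset.mem_filter.1 (Finset.mem_coe.1 hl)).1
    rw [hs.2 k₁ hk₁ l₁ hl₁ hdk hdl hkl]
  have hset : {σ : L →ₐ[K] AlgebraicClosure L | ∃ k ∈ 𝒦', af k s₀ = p₀ ∧
      logv (pb σ (X s)) F = af k s} = {σ | logv (pb σ (X s)) F ∈
        (𝒦'.filter (fun k => af k s₀ = p₀)).image (fun k => af k s)} := by
    ext σ
    constructor
    · rintro ⟨k, hk, h1, h2⟩
      exact Finset.mem_image.2 ⟨k, Finset.mem_filter.2 ⟨hk, h1⟩, h2.symm⟩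
    · intro h
      obtain ⟨k, hk, h2⟩ := Finset.mem_image.1 h
      rw [Finset.mem_filter] at hk
      exact ⟨k, hk.1, hk.2, h2.symm⟩
  calc ∑ k ∈ 𝒦' with af k s₀ = p₀, cw K (F ∘ J) F s (af k s)
      = ∑ k ∈ 𝒦' with af k s₀ = p₀, wtS K (F ∘ J) {σ | logv (pb σ (X s)) F = af k s} :=
        Finset.sum_congr rfl hsum
    _ = ∑ p ∈ (𝒦'.filter (fun k => af k s₀ = p₀)).image (fun k => af k s),
          wtS K (F ∘ J) {σ | logv (pb σ (X s)) F = p} := by
        rw [Finset.sum_image hinjs]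
    _ = wtS K (F ∘ J) {σ | logv (pb σ (X s)) F ∈
        (𝒦'.filter (fun k => af k s₀ = p₀)).image (fun k => af k s)} := by
        unfold wtS
        rw [BaJ_card (Emb K (F ∘ J)) hfin (fun σ => logv (pb σ (X s)) F), Nat.cast_sum,
          Finset.sum_div, Finset.mul_sum]
    _ = _ := by rw [hset]

end TDC
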