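import Pool.Agent.TDC.St

/-! TDC, module CSu: forms of type `(n,q)` with properly supported coefficients have compact
support. -/

set_option autoImplicit false

namespace TDC

open scoped Topology

private theorem CSu_dd {R n q : ℕ} (γ : SF R n q) (h : γ.PC) : γ.dd.PC := by
  intro I
  obtain ⟨hs, C, hC, h0⟩ := h I
  refine ⟨?_, C, hC, ?_⟩
  · have h1 : ContDiff ℝ (⊤ : ℕ∞) (fderiv ℝ (γ I)) := by
      apply ContDiff.fderiv_right hs
      exact le_of_eq rfl
    exact (ContinuousAlternatingMap.alternatizeUncurryFinCLM ℝ (Fin R → ℝ) ℝ).contDiff.comp h1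
  · intro t ht
    have hopen : IsOpen {t : Fin R → ℝ | t ∘ I ∉ C} := by
      have hc : Continuous fun t : Fin R → ℝ => t ∘ I :=
        continuous_pi fun i => continuous_apply (I i)
      exact hC.isClosed.isOpen_compl.preimage hc
    have hev : γ I =ᶠ[𝓝 t] fun _ => 0 := by
      filter_upwards [hopen.mem_nhds ht] with u hu
      exact h0 u hu
    show extDeriv (γ I) t = 0
    rw [hev.extDeriv_eq]
    simp only [extDeriv, fderiv_fun_const, Pi.zero_apply]
    exact map_zero (ContinuousAlternatingMap.alternatizeUncurryFinCLM ℝ (Fin R → ℝ) ℝ)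

theorem thm_CSu (h1 : St_DetZ) (h2 : St_IndG) (h3 : St_GCpt) : St_CSu := by
  refine ⟨fun R n q γ h => CSu_dd γ h, ?_⟩
  intro K L _ _ _ n hL R q F γ hγ
  choose hs C hC h0 using hγ
  refine ⟨⋃ I : Fin n → Fin R, {x : Pt (algebraMap K L) | Gauss x (F ∘ I) ∧ logv x (F ∘ I) ∈ C I},
    isCompact_iUnion fun I => h3 K L n hL (F ∘ I) (C I) (hC I), ?_⟩
  intro x hx
  rw [Set.mem_iUnion] at hx
  push Not at hx
  funext δ ε
  show pullAt x F γ δ ε = 0
  unfold pullAt
  refine Finset.sum_eq_zero fun I _ => ?_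
  by_cases hI : Indep x (F ∘ I)
  · have hG := h2 K L (algebraMap K L) n x (F ∘ I) hI
    have hn : logv x (F ∘ I) ∉ C I := fun hm => hx I ⟨hG, hm⟩
    have hz : γ I (logv x F) = 0 := h0 I (logv x F) hn
    rw [hz]
    simp
  · have hd : (Matrix.of fun i j => ev F (δ i) (I j)).det = 0 :=
      h1 K L (algebraMap K L) n x (F ∘ I) hI δ
    rw [hd, zero_mul]

end TDC
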