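import Pool.Agent.TDC.St

/-!
# TDC: module Chan (change of coordinates at a point)
-/

namespace TDC

open scoped Topology
open Filter

section basics

variable {K M : Type} [NormedField K] [Field M] {φ : K →+* M}

private theorem Chan_cont_v (f : M) : Continuous fun y : Pt φ => y.v f :=
  (continuous_apply f).comp continuous_induced_dom

private theorem Chan_cont_logv {R : ℕ} (F : Fin R → Mˣ) :
    Continuous fun y : Pt φ => logv y F := by
  refine continuous_pi fun i => ?_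
  exact Continuous.log (Chan_cont_v _) fun y => (y.v.ne_zero_iff).2 (F i).ne_zero

private theorem Chan_vpos (y : Pt φ) (f : Mˣ) : 0 < y.v f := (y.v.pos_iff).2 f.ne_zero

/-- the points near whose coordinates `χ` is constant equal to `c` form an open set -/
private theorem Chan_open {R : ℕ} (F : Fin R → Mˣ) (χ : (Fin R → ℝ) → ℝ) (c : ℝ) :
    IsOpen {y : Pt φ | χ =ᶠ[𝓝 (logv y F)] fun _ => c} :=
  (isOpen_setOfPred_eventually_nhds (p := fun t => χ t = c)).preimage (Chan_cont_logv F)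

private theorem Chan_log {n : ℕ} {y : Pt φ} {f : Mˣ} {h : Fin n → Mˣ} {N : ℕ} {k : Fin n → ℤ}
    {a : K} (ha : a ≠ 0) (H : y.v f ^ N = ‖a‖ * ∏ l, y.v (h l) ^ k l) :
    (N : ℝ) * Real.log (y.v f) = Real.log ‖a‖ + ∑ l, (k l : ℝ) * Real.log (y.v (h l)) := by
  have h1 := congrArg Real.log H
  have h2 : ∀ l, y.v (h l) ^ k l ≠ 0 := fun l => zpow_ne_zero _ (Chan_vpos y (h l)).ne'
  rw [Real.log_pow, Real.log_mul (norm_ne_zero_iff.2 ha)
    (Finset.prod_ne_zero_iff.2 fun l _ => h2 l), Real.log_prod fun l _ => h2 l] at h1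
  simpa [Real.log_zpow] using h1

private theorem Chan_tan {n : ℕ} {y : Pt φ} {f : Mˣ} {h : Fin n → Mˣ} {N : ℕ} {k : Fin n → ℤ}
    {a : K} (H : y.v f ^ N = ‖a‖ * ∏ l, y.v (h l) ^ k l) (δ : Tan y) :
    (N : ℝ) * δ.1 (Additive.ofMul f) = ∑ l, (k l : ℝ) * δ.1 (Additive.ofMul (h l)) := by
  have h2 : ∀ l, y.v (h l) ^ k l ≠ 0 := fun l => zpow_ne_zero _ (Chan_vpos y (h l)).ne'
  have h3 : (∏ l, y.v (h l) ^ k l) ≠ 0 := Finset.prod_ne_zero_iff.2 fun l _ => h2 l
  have h1 := δ.2 (f ^ N * (∏ l, h l ^ k l)⁻¹) ⟨a, by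
    rw [Units.val_mul, Units.val_pow_eq_pow_val, Units.val_inv_eq_inv_val, Units.coe_prod,
      map_mul, map_pow, map_inv₀, map_prod, H]
    simp only [Units.val_zpow_eq_zpow_val, map_zpow₀]
    rw [mul_assoc, mul_inv_cancel₀ h3, mul_one]⟩
  rw [ofMul_mul, ofMul_pow, ofMul_inv, ofMul_prod, map_add, map_neg, map_nsmul, map_sum] at h1
  simp only [ofMul_zpow, map_zsmul] at h1
  simp only [nsmul_eq_mul, zsmul_eq_mul] at h1
  linarith

end basics

private theorem Chan_common {K L : Type} [NormedField K] [Field L] [Algebra K L] {n : ℕ}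
    (x : Pt (algebraMap K L)) (g h : Fin n → Lˣ)
    (H : ∀ f : Lˣ, ∃ (N : ℕ) (k : Fin n → ℤ) (a : K), 0 < N ∧ a ≠ 0 ∧
        ∀ᶠ y in 𝓝 x, y.v f ^ N = ‖a‖ * ∏ i, y.v (h i) ^ k i) :
    ∃ (N : ℕ) (A : Matrix (Fin n) (Fin n) ℤ) (a : Fin n → K), 0 < N ∧ (∀ i, a i ≠ 0) ∧
      ∀ᶠ y in 𝓝 x, ∀ i, y.v (g i) ^ N = ‖a i‖ * ∏ l, y.v (h l) ^ A i l := by
  choose N k a hN ha hy using fun i => H (g i)
  refine ⟨∏ i, N i, Matrix.of fun i l => k i l * ((∏ j ∈ Finset.univ.erase i, N j : ℕ) : ℤ),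
    fun i => a i ^ (∏ j ∈ Finset.univ.erase i, N j), Finset.prod_pos fun i _ => hN i,
    fun i => pow_ne_zero _ (ha i), ?_⟩
  filter_upwards [eventually_all.2 hy] with y hy i
  rw [← Finset.mul_prod_erase Finset.univ N (Finset.mem_univ i), pow_mul, hy i, mul_pow, norm_pow,
    ← Finset.prod_pow]
  congr 1
  refine Finset.prod_congr rfl fun l _ => ?_
  rw [Matrix.of_apply, zpow_mul, zpow_natCast]

private theorem Chan_det {K L : Type} [NormedField K] [Field L] [Algebra K L] {n : ℕ}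
    (x : Pt (algebraMap K L)) (g h : Fin n → Lˣ) (hg : Indep x g) {N : ℕ}
    {A : Matrix (Fin n) (Fin n) ℤ} {a : Fin n → K} (hN : 0 < N) (ha : ∀ i, a i ≠ 0)
    (H : ∀ i, x.v (g i) ^ N = ‖a i‖ * ∏ l, x.v (h l) ^ A i l) : A.det ≠ 0 := by
  intro h0
  obtain ⟨w, hw, hwA⟩ := Matrix.exists_vecMul_eq_zero_iff.2 h0
  have key : ∃ b : K, ‖b‖ = x.v ((∏ i, g i ^ ((N : ℤ) * w i) : Lˣ) : L) := by
    refine ⟨∏ i, a i ^ w i, ?_⟩
    have e1 : ∀ i, ‖a i‖ ^ w i ≠ 0 := fun i => zpow_ne_zero _ (norm_ne_zero_iff.2 (ha i))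
    have e2 : ∀ i, x.v (g i) ^ ((N : ℤ) * w i) ≠ 0 := fun i =>
      zpow_ne_zero _ (Chan_vpos x (g i)).ne'
    have e3 : ‖∏ i, a i ^ w i‖ = ∏ i, ‖a i‖ ^ w i := by
      rw [norm_prod]
      exact Finset.prod_congr rfl fun i _ => norm_zpow _ _
    have e4 : x.v ((∏ i, g i ^ ((N : ℤ) * w i) : Lˣ) : L) = ∏ i, x.v (g i) ^ ((N : ℤ) * w i) := by
      rw [Units.coe_prod, map_prod]
      simp only [Units.val_zpow_eq_zpow_val, map_zpow₀]
    rw [e3, e4]
    refine Real.log_injOn_pos (Set.mem_Ioi.2 (Finset.prod_pos fun i _ =>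
      zpow_pos (norm_pos_iff.2 (ha i)) _)) (Set.mem_Ioi.2 (Finset.prod_pos fun i _ =>
      zpow_pos (Chan_vpos x (g i)) _)) ?_
    rw [Real.log_prod fun i _ => e1 i, Real.log_prod fun i _ => e2 i]
    simp only [Real.log_zpow]
    have e5 : ∀ i, (((N : ℤ) * w i : ℤ) : ℝ) * Real.log (x.v (g i)) =
        (w i : ℝ) * Real.log ‖a i‖ + ∑ l, (w i : ℝ) * (A i l : ℝ) * Real.log (x.v (h l)) := by
      intro i
      have := Chan_log (ha i) (H i)
      push_cast
      calc (N : ℝ) * (w i : ℝ) * Real.log (x.v (g i))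
          = (w i : ℝ) * ((N : ℝ) * Real.log (x.v (g i))) := by ring
        _ = (w i : ℝ) * Real.log ‖a i‖ +
            ∑ l, (w i : ℝ) * (A i l : ℝ) * Real.log (x.v (h l)) := by
          rw [this, mul_add, Finset.mul_sum]
          congr 1
          exact Finset.sum_congr rfl fun l _ => by ring
    rw [Finset.sum_congr rfl fun i _ => e5 i, Finset.sum_add_distrib, Finset.sum_comm]
    have e6 : ∀ l, ∑ i, (w i : ℝ) * (A i l : ℝ) * Real.log (x.v (h l)) = 0 := by
      intro l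
      rw [← Finset.sum_mul]
      have e7 : ∑ i, (w i : ℝ) * (A i l : ℝ) = ((Matrix.vecMul w A l : ℤ) : ℝ) := by
        rw [Matrix.vecMul, dotProduct]
        push_cast
        rfl
      rw [e7, hwA]
      simp
    rw [Finset.sum_congr rfl fun l _ => e6 l]
    simp
  have h1 := hg _ key
  apply hw
  funext i
  have h2 := congrFun h1 i
  simp only [Pi.zero_apply, mul_eq_zero] at h2
  rcases h2 with h2 | h2
  · exact absurd h2 (by exact_mod_cast hN.ne')
  · exact h2

/-- cleanness and selection: near the fibre `χ` is zero, except at `x` -/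
private theorem Chan_sel {K L : Type} [NormedField K] [Field L] [Algebra K L] {n : ℕ}
    (h2 : St_Shri) (hT : TrLe K L n) {x : Pt (algebraMap K L)} {g : Fin n → Lˣ} {R : ℕ}
    {F : Fin R → Lˣ} {χ : (Fin R → ℝ) → ℝ} (hS : Sel x F g χ) {N : Set (Pt (algebraMap K L))}
    (hN : IsOpen N) (hx : x ∈ N) :
    ∃ δ > 0, ∀ y, Gauss y g → logv y g ∈ Metric.ball (logv x g) δ →
      y ∈ N ∨ χ (logv y F) = 0 := by
  obtain ⟨⟨ρ, hρ, hc⟩, hG, h1, hy⟩ := hS
  obtain ⟨δ, hδ, H⟩ := h2 K L n hT g (logv x g)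
    (N ∪ {y | χ =ᶠ[𝓝 (logv y F)] fun _ => 0}) (hN.union (Chan_open F χ 0)) (by
      intro y hyG hyx
      by_cases h0 : χ (logv y F) = 0
      · right
        rcases hc.2 y hyG (by rw [hyx]; exact Metric.mem_ball_self hρ) with h | h
        · exact h
        · have := h.eq_of_nhds
          rw [h0] at this
          norm_num at this
      · left
        rw [hy y hyG hyx h0]
        exact hx)
  refine ⟨δ, hδ, fun y hyG hyb => ?_⟩
  rcases H y hyG hyb with h | h
  · exact Or.inl h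
  · exact Or.inr h.eq_of_nhds

private theorem Chan_one {K L : Type} [NormedField K] [Field L] [Algebra K L] {n : ℕ}
    {x : Pt (algebraMap K L)} {g : Fin n → Lˣ} {R : ℕ}
    {F : Fin R → Lˣ} {χ : (Fin R → ℝ) → ℝ} (hS : Sel x F g χ) :
    x ∈ {y : Pt (algebraMap K L) | χ =ᶠ[𝓝 (logv y F)] fun _ => 1} := by
  obtain ⟨⟨ρ, hρ, hc⟩, hG, h1, hy⟩ := hS
  rcases hc.2 x hG (Metric.mem_ball_self hρ) with h | h
  · have := h.eq_of_nhds
    rw [h1] at this
    norm_num at this
  · exact h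

theorem thm_Chan (h1 : St_MLoc) (h2 : St_Shri) (h3 : St_DetZ) (h4 : St_IndG) : St_Chan := by
  intro K L _ _ _ n hT x g h hg hh R R' F F' χ χ' hS hS'
  obtain ⟨N, A, a, hN, ha, hA⟩ := Chan_common x g h (h1 K L n hT x h hh)
  have hdA : A.det ≠ 0 := Chan_det x g h hg hN ha hA.self_of_nhds
  have hN' : (N : ℝ) ≠ 0 := by exact_mod_cast hN.ne'
  obtain ⟨U, hUA, hUo, hxU⟩ := mem_nhds_iff.1 hA
  set M : Matrix (Fin n) (Fin n) ℝ := Matrix.of fun i l => (A i l : ℝ) / N with hM
  have hMdet : M.det ≠ 0 := by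
    have e1 : M = (N : ℝ)⁻¹ • (Int.castRingHom ℝ).mapMatrix A := by
      ext i l
      simp [hM, div_eq_inv_mul]
    rw [e1, Matrix.det_smul, ← RingHom.map_det]
    exact mul_ne_zero (pow_ne_zero _ (inv_ne_zero hN')) (by
      simpa using hdA)
  -- the relations on `U`
  have hlog : ∀ y ∈ U, logv y g = (fun i => Real.log ‖a i‖ / N) + M.mulVec (logv y h) := by
    intro y hy
    funext i
    have := Chan_log (ha i) (hUA hy i)
    simp only [Pi.add_apply, Matrix.mulVec, dotProduct, hM, Matrix.of_apply, logv]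
    have e : ∑ l, (A i l : ℝ) / N * Real.log (y.v (h l)) =
        (∑ l, (A i l : ℝ) * Real.log (y.v (h l))) / N := by
      rw [Finset.sum_div]
      exact Finset.sum_congr rfl fun l _ => by ring
    rw [e, ← add_div, ← this]
    field_simp
  have hev : ∀ y ∈ U, ∀ δ : Tan y, ev g δ = M.mulVec (ev h δ) := by
    intro y hy δ
    funext i
    have := Chan_tan (hUA hy i) δ
    simp only [Matrix.mulVec, dotProduct, hM, Matrix.of_apply, ev]
    have e : ∑ l, (A i l : ℝ) / N * δ.1 (Additive.ofMul (h l)) =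
        (∑ l, (A i l : ℝ) * δ.1 (Additive.ofMul (h l))) / N := by
      rw [Finset.sum_div]
      exact Finset.sum_congr rfl fun l _ => by ring
    rw [e, ← this]
    field_simp
  have hdet : ∀ y ∈ U, ∀ δ : Fin n → Tan y, (Matrix.of fun i j => ev g (δ i) j).det =
      M.det * (Matrix.of fun i j => ev h (δ i) j).det := by
    intro y hy δ
    have e1 : (Matrix.of fun i j => ev g (δ i) j) =
        (Matrix.of fun i j => ev h (δ i) j) * M.transpose := by
      ext i j
      simp only [Matrix.of_apply, hev y hy (δ i), Matrix.mulVec, dotProduct, Matrix.mul_apply,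
        Matrix.transpose_apply]
      exact Finset.sum_congr rfl fun l _ => mul_comm _ _
    rw [e1, Matrix.det_mul, Matrix.det_transpose, mul_comm]
  have hlog' : ∀ y ∈ U, logv y g = logv x g + M.mulVec (logv y h - logv x h) := by
    intro y hy
    rw [hlog y hy, hlog x hxU, Matrix.mulVec_sub]
    abel
  -- the neighbourhood
  set V : Set (Pt (algebraMap K L)) := U ∩ ({y | χ =ᶠ[𝓝 (logv y F)] fun _ => 1} ∩
    {y | χ' =ᶠ[𝓝 (logv y F')] fun _ => 1}) with hV
  have hVo : IsOpen V := hUo.inter ((Chan_open F χ 1).inter (Chan_open F' χ' 1))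
  have hxV : x ∈ V := ⟨hxU, Chan_one hS, Chan_one hS'⟩
  obtain ⟨δ₁, hδ₁, H₁⟩ := Chan_sel h2 hT hS hVo hxV
  obtain ⟨δ₂, hδ₂, H₂⟩ := Chan_sel h2 hT hS' hVo hxV
  -- the constant for the inverse matrix
  obtain ⟨C, hC, hCM⟩ : ∃ C : ℝ, 0 < C ∧ ∀ u : Fin n → ℝ, ‖u‖ ≤ C * ‖M.mulVec u‖ := by
    have hu : IsUnit M.det := isUnit_iff_ne_zero.2 hMdet
    set T : (Fin n → ℝ) →L[ℝ] (Fin n → ℝ) := LinearMap.toContinuousLinearMap
      (Matrix.mulVecLin M⁻¹) with hT'
    refine ⟨‖T‖ + 1, by positivity, fun u => ?_⟩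
    have e1 : T (M.mulVec u) = u := by
      simp only [hT', LinearMap.coe_toContinuousLinearMap', Matrix.mulVecLin_apply,
        Matrix.mulVec_mulVec]
      rw [Matrix.nonsing_inv_mul _ hu, Matrix.one_mulVec]
    calc ‖u‖ = ‖T (M.mulVec u)‖ := by rw [e1]
      _ ≤ ‖T‖ * ‖M.mulVec u‖ := T.le_opNorm _
      _ ≤ (‖T‖ + 1) * ‖M.mulVec u‖ := by
        refine mul_le_mul_of_nonneg_right (by linarith) (norm_nonneg _)
  refine ⟨M, min δ₁ (δ₂ / C), hMdet, lt_min hδ₁ (div_pos hδ₂ hC), fun b hb => ?_⟩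
  have hb' : ∀ u, b u ≠ 0 → dist u (logv x g) < min δ₁ (δ₂ / C) := fun u hu =>
    Metric.mem_ball.1 (hb (subset_tsupport b hu))
  funext y δ ε
  show χ (logv y F) * b (logv y g) * (Matrix.of fun i j => ev g (δ i) j).det *
      (Matrix.of fun i j => ev g (ε i) j).det =
    χ' (logv y F') * (M.det ^ 2 * b (logv x g + M.mulVec (logv y h - logv x h))) *
      (Matrix.of fun i j => ev h (δ i) j).det * (Matrix.of fun i j => ev h (ε i) j).det
  by_cases hyV : y ∈ V
  · have c1 : χ (logv y F) = 1 := Filter.EventuallyEq.eq_of_nhds hyV.2.1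
    have c2 : χ' (logv y F') = 1 := Filter.EventuallyEq.eq_of_nhds hyV.2.2
    rw [c1, c2, hdet y hyV.1 δ, hdet y hyV.1 ε, hlog' y hyV.1]
    ring
  · have hL : χ (logv y F) * b (logv y g) * (Matrix.of fun i j => ev g (δ i) j).det *
        (Matrix.of fun i j => ev g (ε i) j).det = 0 := by
      by_cases hI : Indep y g
      · by_cases hb0 : b (logv y g) = 0
        · rw [hb0]; ring
        · have := H₁ y (h4 K L _ n y g hI)
            (Metric.mem_ball.2 (lt_of_lt_of_le (hb' _ hb0) (min_le_left _ _)))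
          rcases this with h | h
          · exact absurd h hyV
          · rw [h]; ring
      · rw [h3 K L _ n y g hI δ]; ring
    have hR : χ' (logv y F') * (M.det ^ 2 * b (logv x g + M.mulVec (logv y h - logv x h))) *
        (Matrix.of fun i j => ev h (δ i) j).det *
          (Matrix.of fun i j => ev h (ε i) j).det = 0 := by
      by_cases hI : Indep y h
      · by_cases hb0 : b (logv x g + M.mulVec (logv y h - logv x h)) = 0
        · rw [hb0]; ring
        · have e1 := lt_of_lt_of_le (hb' _ hb0) (min_le_right _ _)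
          have e2 : ‖M.mulVec (logv y h - logv x h)‖ < δ₂ / C := by
            rwa [dist_eq_norm, add_sub_cancel_left] at e1
          have e3 : dist (logv y h) (logv x h) < δ₂ := by
            rw [dist_eq_norm]
            refine lt_of_le_of_lt (hCM _) ?_
            rw [lt_div_iff₀ hC] at e2
            linarith
          rcases H₂ y (h4 K L _ n y h hI) (Metric.mem_ball.2 e3) with h | h
          · exact absurd h hyV
          · rw [h]; ring
      · rw [h3 K L _ n y h hI δ]; ring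
    rw [hL, hR]

end TDC
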