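import Pool.Agent.TDC.St2

/-!
# TDC, module CleU: clean cut-offs go up the tower
-/

set_option autoImplicit false

namespace TDC

open scoped Topology
open MeasureTheory Polynomial

/-- the restriction of a Gauss point of `(g', q)` is a Gauss point of `g'` -/
private theorem CleU_gauss {K L' L : Type} [NormedField K] [Field L'] [Field L] [Algebra K L'] [Algebra K L]
    [Algebra L' L] [IsScalarTower K L' L] (m : ℕ) (g' : Fin m → L'ˣ) (q : Lˣ) (x : Pt (algebraMap K L))
    (hx : Gauss x (Fin.snoc (α := fun _ => Lˣ) (up L g') q)) : Gauss (res L' x) g' := by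
  intro P e
  have h := hx (MvPolynomial.rename Fin.castSucc P) (Finsupp.mapDomain Fin.castSucc e)
  rw [MvPolynomial.coeff_rename_mapDomain _ (Fin.castSucc_injective m), MvPolynomial.eval₂_rename, Fin.prod_univ_castSucc] at h
  have h1 : (Finsupp.mapDomain (Fin.castSucc (n := m)) e) (Fin.last m) = 0 := by
    apply Finsupp.mapDomain_of_notMem_range
    rintro ⟨i, hi⟩
    exact (Fin.castSucc_lt_last i).ne hi
  have h2 : ∀ i : Fin m, (Finsupp.mapDomain (Fin.castSucc (n := m)) e) i.castSucc = e i := by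
    intro i
    exact Finsupp.mapDomain_apply (Fin.castSucc_injective m) e i
  rw [h1, pow_zero, mul_one] at h
  have h3 : ∏ i : Fin m, x.v ((Fin.snoc (α := fun _ => Lˣ) (up L g') q : Fin (m + 1) → Lˣ) i.castSucc : L) ^
      (Finsupp.mapDomain (Fin.castSucc (n := m)) e) i.castSucc = ∏ i : Fin m, (res L' x).v (g' i) ^ e i := by
    refine Finset.prod_congr rfl fun i _ => ?_
    rw [h2 i, Fin.snoc_castSucc]
    rfl
  have h4 : MvPolynomial.eval₂ (algebraMap K L)
      ((fun i : Fin (m + 1) => ((Fin.snoc (α := fun _ => Lˣ) (up L g') q : Fin (m + 1) → Lˣ) i : L)) ∘ Fin.castSucc) P =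
      algebraMap L' L (MvPolynomial.eval₂ (algebraMap K L') (fun i => (g' i : L')) P) := by
    rw [MvPolynomial.hom_eval₂, ← IsScalarTower.algebraMap_eq K L' L]
    congr 1
    funext i
    show ((Fin.snoc (α := fun _ => Lˣ) (up L g') q : Fin (m + 1) → Lˣ) i.castSucc : L) = _
    rw [Fin.snoc_castSucc]
    rfl
  rw [h3, h4] at h
  exact h

theorem thm_CleU : St_CleU := by
  intro K L' L _ _ _ _ _ _ _ m R F₀ g' χ' S q hC
  refine ⟨hC.1, ?_⟩
  intro x hx hS
  have hg := CleU_gauss m g' q x hx
  refine hC.2 (res L' x) hg ?_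
  have h1 : logv (res L' x) g' = fun i : Fin m => logv x (Fin.snoc (α := fun _ => Lˣ) (up L g') q) i.castSucc := by
    funext i
    show Real.log (x.v (algebraMap L' L (g' i))) =
      Real.log (x.v ((Fin.snoc (α := fun _ => Lˣ) (up L g') q : Fin (m + 1) → Lˣ) i.castSucc : L))
    rw [Fin.snoc_castSucc]
    rfl
  rw [h1]
  exact hS

end TDC
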