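import Pool.Agent.TDC.Defs3

/-!
# TDC: statements of the modules, group 4: the analytification
-/

namespace TDC

open scoped Topology
open MeasureTheory Polynomial AlgebraicGeometry CategoryTheory

/-- **CombU**. Universal form of `Comb` (one `α` for all fields, points and tuples). See
`TDC/Comb.lean`, whose private lemmas give it. -/
def St_CombU : Prop :=
  ∀ (p q R₁ R₂ : ℕ) (α₁ : SF R₁ p q) (α₂ : SF R₂ p q), α₁.Smooth → α₂.Smooth →
    ∃ α : SF (R₁ + R₂) p q, α.Smooth ∧
      ∀ (K M : Type) [NormedField K] [Field M] (φ : K →+* M) (x : Pt φ)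
        (F₁ : Fin R₁ → Mˣ) (F₂ : Fin R₂ → Mˣ),
        (∀ (δ : Fin p → Tan x) (ε : Fin q → Tan x),
          pullAt x (Fin.append F₁ F₂) α δ ε = pullAt x F₁ α₁ δ ε + pullAt x F₂ α₂ δ ε) ∧
        (∀ (δ : Fin p → Tan x) (ε : Fin (q + 1) → Tan x),
          pullAt x (Fin.append F₁ F₂) α.dd δ ε =
            pullAt x F₁ α₁.dd δ ε + pullAt x F₂ α₂.dd δ ε)

/-- **CombA** (uses `CombU`). The forms on `X^an` form a vector space and `d''` is linear: at a point
take the intersection `U₁ ⊓ U₂` of the two opens, restrict the units, append, and use the `α` of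
`CombU`. -/
def St_CombA : Prop :=
  ∀ (K : Type) [NormedField K] (X : Scheme.{0}) (s : X ⟶ Spec (.of K)) (p q : ℕ),
    (IsFormA (0 : FamA s p q)) ∧
    (∀ ω₁ ω₂ : FamA s p q, IsFormA ω₁ → IsFormA ω₂ → IsFormA (ω₁ + ω₂)) ∧
    (∀ (c : ℝ) (ω : FamA s p q), IsFormA ω → IsFormA (c • ω)) ∧
    (IsDbarA (0 : FamA s p q) 0) ∧
    (∀ (η₁ η₂ : FamA s p q) (ω₁ ω₂ : FamA s p (q + 1)), IsDbarA η₁ ω₁ → IsDbarA η₂ ω₂ →
      IsDbarA (η₁ + η₂) (ω₁ + ω₂)) ∧
    (∀ (c : ℝ) (η : FamA s p q) (ω : FamA s p (q + 1)), IsDbarA η ω → IsDbarA (c • η) (c • ω)) ∧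
    (∀ (η : FamA s p q) (ω : FamA s p (q + 1)), IsDbarA η ω → IsFormA η ∧ IsFormA ω)

/-- the point of `X^an` over the generic point given by an absolute value of the function field -/
noncomputable def gen {K : Type} [NormedField K] {X : Scheme.{0}} [IrreducibleSpace X] (s : X ⟶ Spec (.of K))
    (v : Pt (kmap s (genericPoint X))) : An s := ⟨genericPoint X, v⟩

/-- `ω̃` is the extension of `ω` (a family over the generic point) by zero -/
def IsExt {K : Type} [NormedField K] {X : Scheme.{0}} [IrreducibleSpace X]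
    {s : X ⟶ Spec (.of K)} {p q : ℕ} (ω : Fam (kmap s (genericPoint X)) p q)
    (ω' : FamA s p q) : Prop :=
  (∀ v : Pt (kmap s (genericPoint X)), ω' (gen s v) = ω v) ∧
    ∀ x : An s, x.1 ≠ genericPoint X → ω' x = 0

/-- **ExtE**. Extensions by zero exist (classical definition by cases on `x.1 = genericPoint X`). -/
def St_ExtE : Prop :=
  ∀ (K : Type) [NormedField K] (X : Scheme.{0}) [IsIntegral X] (s : X ⟶ Spec (.of K)) (p q : ℕ)
    (ω : Fam (kmap s (genericPoint X)) p q), ∃ ω' : FamA s p q, IsExt ω ω'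

/-- **EmbA**. (1) `v ↦ (generic point, v)` is inducing (continuous: the preimage of
`{x ∈ U^an, a < |f(x)| < b}` is `{v | a < v(f(η)) < b}`, or empty if `U` is empty; conversely
every element of the residue field of the generic point `η` is the value of a section over some
open set: the stalk at `η` is a field, every germ comes from a section). (2) A finite tuple of
units of `κ(η)` lifts to units of `Γ(X, U)` for some open `U ∋ η` (a section whose germ at `η` is a
unit is a unit on a smaller open, `basicOpen`). (3) For `f ∈ κ(η)ˣ` and a point `x` of `X` different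
from `η` there are an open `U ∋ x` and `h ∈ Γ(X,U)` with `h(x) = 0` in `κ(x)` and `h(η) ≠ 0` (the
maximal ideal of the local ring at `x` is not zero, since `x` is not the generic point; sections
over `U` inject in the function field). -/
def St_EmbA : Prop :=
  ∀ (K : Type) [NormedField K] (X : Scheme.{0}) [IsIntegral X] (s : X ⟶ Spec (.of K)),
    Topology.IsInducing (gen s) ∧
    (∀ (R : ℕ) (F : Fin R → (X.residueField (genericPoint X))ˣ),
      ∃ (U : X.Opens) (h : genericPoint X ∈ U) (F' : Fin R → (Γ(X, U))ˣ),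
        ∀ i, Units.map (X.evaluation U (genericPoint X) h).hom.toMonoidHom (F' i) = F i) ∧
    ∀ x : X, x ≠ genericPoint X → ∃ (U : X.Opens) (hx : x ∈ U) (hη : genericPoint X ∈ U)
      (f : Γ(X, U)), X.evaluation U x hx f = 0 ∧ X.evaluation U (genericPoint X) hη f ≠ 0

/-- **VanA** (uses `EmbA`, `IndG`, `DetZ`). Forms of type `(n,q)`, `n ≥` transcendence degree,
vanish near every point which is not over the generic point.
Proof. Let `x.1 ≠ η`, `I : Fin n → Fin R`, `f_j = F (I j)` units on `U`. `EmbA` (3): `U' ∋ x.1`, `h`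
with `h(x) = 0`, `h(η) ≠ 0`. `f_1(η), …, f_n(η), h(η)` are algebraically dependent over `K`
(`TrLe`): `G(T, S) ≠ 0` with `G(f(η), h(η)) = 0`, and after division by a power of `S` the polynomial
`P(T) = G(T, 0)` is not zero. `G(f, h) = 0` in `Γ(X, U'')`, `U'' = U ⊓ U'` (sections inject in the
function field), so `P(f) = h r` with `r ∈ Γ(X, U'')`. Near `x` (in `U''^an`) all
monomials `|a_e f^e(y)|`, `a_e ≠ 0`, of `P` are `≥ c > 0` (`f_j` units, continuity) and
`|h(y)| |r(y)| < c`. So at such `y` the Gauss inequality fails for `P` and a monomial of it: `f` is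
not a Gauss tuple at `y`, so not independent (`IndG`), and the determinant is zero (`DetZ`).
Finitely many `I`. -/
def St_VanA : Prop :=
  ∀ (K : Type) [NormedField K] (X : Scheme.{0}) [IsIntegral X] (s : X ⟶ Spec (.of K)) (n : ℕ),
    @TrLe K (X.residueField (genericPoint X)) _ _ (kmap s (genericPoint X)).toAlgebra n →
    ∀ (q R : ℕ) (U : X.Opens) (F : Fin R → (Γ(X, U))ˣ) (α : SF R n q) (x : An s),
      x.1 ∈ U → x.1 ≠ genericPoint X →
      ∀ᶠ y in 𝓝 x, ∃ h : y.1 ∈ U, pullA y h F α = 0

/-- **UpA** (uses `EmbA`, `VanA`). Extension by zero of compactly supported forms of type `(n,q)`.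
Proof. Near `x = gen v`: chart `(F, α)` of `ω` at `v`, valid on a neighbourhood of `v`, lift `F` to
units on `U ∋ η` (`EmbA` (2)); by `EmbA` (1) there is a neighbourhood `N` of `x`, in `U^an`, whose
generic points are in the neighbourhood of `v`. At the non-generic points `y` of `N` the extension
is `0` and so is `pullA y h F α` (`VanA` at `y`). Near a non-generic `x`: the extension vanishes:
let `C` be the compact set off which `ω = 0` and `h ∈ Γ(X, U)` as in `EmbA` (3); `v ↦ v(h(η))` is
continuous and positive on `C`, so `≥ c > 0`; in `{y ∈ U^an : |h(y)| < c}` there is no point of `C`.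
Compact support: the image of `C` is compact. The same for pairs (`IsDbar`). -/
def St_UpA : Prop :=
  ∀ (K : Type) [NormedField K] (X : Scheme.{0}) [IsIntegral X] (s : X ⟶ Spec (.of K)) (n : ℕ),
    @TrLe K (X.residueField (genericPoint X)) _ _ (kmap s (genericPoint X)).toAlgebra n →
    (∀ (q : ℕ) (ω : Fam (kmap s (genericPoint X)) n q) (ω' : FamA s n q), IsExt ω ω' →
      IsForm ω → CSupp ω → IsFormA ω' ∧ CSuppA ω' ∧
        ∀ x : An s, x.1 ≠ genericPoint X → ∀ᶠ y in 𝓝 x, ω' y = 0) ∧
    ∀ (q : ℕ) (η : Fam (kmap s (genericPoint X)) n q)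
      (ω : Fam (kmap s (genericPoint X)) n (q + 1)) (η' : FamA s n q) (ω' : FamA s n (q + 1)),
      IsExt η η' → IsExt ω ω' → IsDbar η ω → CSupp η → CSupp ω → IsDbarA η' ω'

/-- **DnA** (uses `EmbA`, `VanA`). Restriction of forms of type `(n,q)` on `X^an` to the generic
points. (1) `IsFormA ω` implies that the restriction is `IsForm` (evaluate the units at `η`) and
that `ω` vanishes near every non-generic point (`VanA` applied to a chart), so it is the extension
by zero of its restriction. (2) If `ω` has compact support `C`, then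
`C \ ⋃ (open sets around non-generic points where ω = 0)` is compact, consists of generic
points, and by `EmbA` (1) its preimage is compact. More generally for every compact `C ⊆ X^an` and
every `ω` the set `{v | gen v ∈ C}` intersected with the closure of `{v | ω (gen v) ≠ 0}` is
contained in a compact set. -/
def St_DnA : Prop :=
  ∀ (K : Type) [NormedField K] (X : Scheme.{0}) [IsIntegral X] (s : X ⟶ Spec (.of K)) (n q : ℕ),
    @TrLe K (X.residueField (genericPoint X)) _ _ (kmap s (genericPoint X)).toAlgebra n →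
    ∀ ω : FamA s n q, IsFormA ω →
      IsForm (fun v => ω (gen s v) : Fam (kmap s (genericPoint X)) n q) ∧
      IsExt (fun v => ω (gen s v) : Fam (kmap s (genericPoint X)) n q) ω ∧
      (∀ x : An s, x.1 ≠ genericPoint X → ∀ᶠ y in 𝓝 x, ω y = 0) ∧
      (∀ C : Set (An s), IsCompact C → ∃ C' : Set (Pt (kmap s (genericPoint X))), IsCompact C' ∧
        (∀ v ∈ C', gen s v ∈ C) ∧ ∀ v, gen s v ∈ C → v ∉ C' → ω (gen s v) = 0) ∧
      (CSuppA ω → CSupp (fun v => ω (gen s v) : Fam (kmap s (genericPoint X)) n q))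

/-- **Clos** (uses `Fini`, `DetZ`, `IndG`). Forms of type `(n,n)`, `n` the transcendence
degree: `d''` of every chart is zero.
Proof. In `pullAt x F α.dd δ ε = ∑_I det · (α.dd)_I(…)(ev F ε_0, …, ev F ε_n)` a term with non-zero
determinant has `F∘I` independent (`DetZ`), so `x` is a Gauss point of it (`IndG`) and by `Fini` all
`ev F ε = M ev(F∘I) ε` lie in the image of `ℝ^n`: `n+1` linearly dependent vectors, and an
alternating form vanishes on them. At non-generic points of `X^an`: `VanA`. -/
def St_Clos : Prop :=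
  ∀ (K : Type) [NormedField K] (X : Scheme.{0}) [IsIntegral X] (s : X ⟶ Spec (.of K)) (n : ℕ),
    @TrLe K (X.residueField (genericPoint X)) _ _ (kmap s (genericPoint X)).toAlgebra n →
    ∀ ω : FamA s n n, IsFormA ω → IsDbarA ω (0 : FamA s n (n + 1))

/-- **ThmC** (uses `FldA` with `V = ℝ^n`, `UpA`, `DnA`, `ExtE`, `StdF`, `TowR`, `CombA`). Surjectivity with
compact supports: every compactly supported form of type `(n,n)` on `X^an`, `K(X) = K(t_1..t_n)`, is
`t^*(b) + d''η` with compact supports. -/
def St_ThmC : Prop :=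
  ∀ (K : Type) [NontriviallyNormedField K] (X : Scheme.{0}) [IsIntegral X]
    (s : X ⟶ Spec (.of K)) (m : ℕ) (t : Fin (m + 1) → (X.residueField (genericPoint X))ˣ),
    (Set.range fun a : K => ‖a‖).Countable →
    @RatN K (X.residueField (genericPoint X)) _ _ (kmap s (genericPoint X)).toAlgebra (m + 1) t →
    ∀ ω : FamA s (m + 1) (m + 1), IsFormA ω → CSuppA ω →
      ∃ (b : (Fin (m + 1) → ℝ) → ℝ) (ω₀ : FamA s (m + 1) (m + 1)) (η : FamA s (m + 1) m),
        ContDiff ℝ (⊤ : ℕ∞) b ∧ HasCompactSupport b ∧ IsTrop t b ω₀ ∧ IsFormA ω₀ ∧ CSuppA ω₀ ∧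
        IsFormA η ∧ CSuppA η ∧ IsDbarA η (ω - ω₀)

/-- **TroF** (uses `StdF`, `UpA`, `ExtE`). For `b` smooth with compact support `t^*(b)` exists and is a
compactly supported form on `X^an`. -/
def St_TroF : Prop :=
  ∀ (K : Type) [NormedField K] (X : Scheme.{0}) [IsIntegral X]
    (s : X ⟶ Spec (.of K)) (n : ℕ) (t : Fin n → (X.residueField (genericPoint X))ˣ),
    @TrLe K (X.residueField (genericPoint X)) _ _ (kmap s (genericPoint X)).toAlgebra n →
    ∀ b : (Fin n → ℝ) → ℝ, ContDiff ℝ (⊤ : ℕ∞) b → HasCompactSupport b →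
      ∃ ω₀ : FamA s n n, IsTrop t b ω₀ ∧ IsFormA ω₀ ∧ CSuppA ω₀

end TDC
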