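import Pool.Agent.TDC.St
import Pool.Agent.TDC.St4

/-! TDC, module Clos (helper69): forms of type `(n,n)` are closed. -/

set_option autoImplicit false

namespace TDC

open scoped Topology
open AlgebraicGeometry CategoryTheory

private theorem Clos_fld {K L : Type} [NormedField K] [Field L] [Algebra K L] (h1 : St_Fini)
    (h2 : St_DetZ) (h3 : St_IndG) {n R : ℕ} (hT : TrLe K L n) (F : Fin R → Lˣ)
    (α : SF R n (n + 1)) (x : Pt (algebraMap K L)) : pullAt x F α = 0 := by
  funext δ ε
  show pullAt x F α δ ε = 0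
  unfold pullAt
  refine Finset.sum_eq_zero fun I _ => ?_
  by_cases hI : Indep x (F ∘ I)
  · have hG := h3 K L (algebraMap K L) n x (F ∘ I) hI
    obtain ⟨A, -, hA⟩ := h1 K L n hT R F I
    obtain ⟨A₀, -, -, hA₀⟩ := hA x hG
    have h4 : (α I (logv x F)) (fun i => ev F (ε i)) = 0 := by
      refine (α I (logv x F)).toAlternatingMap.map_linearDependent _ ?_
      intro hli
      have h5 : LinearIndependent ℝ (fun i => ev (F ∘ I) (ε i)) := by
        refine LinearIndependent.of_comp A₀.1.mulVecLin ?_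
        have h6 : (A₀.1.mulVecLin ∘ fun i => ev (F ∘ I) (ε i)) = fun i => ev F (ε i) := by
          funext i
          rw [hA₀ (ε i)]
          rfl
        rw [h6]
        exact hli
      have h7 := h5.fintype_card_le_finrank
      rw [Fintype.card_fin, Module.finrank_fin_fun] at h7
      omega
    rw [h4, mul_zero]
  · have h4 : (Matrix.of fun i j => ev F (δ i) (I j)).det = 0 :=
      h2 K L (algebraMap K L) n x (F ∘ I) hI δ
    rw [h4, zero_mul]

theorem thm_Clos (h1 : St_Fini) (h2 : St_DetZ) (h3 : St_IndG) (h4 : St_VanA) : St_Clos := by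
  intro K _ X _ s n hT ω hω x
  obtain ⟨U, R, F, α, hα, hev⟩ := hω x
  refine ⟨U, R, F, α, hα, hev.mono ?_⟩
  rintro y ⟨h, hy⟩
  refine ⟨h, hy, ?_⟩
  show (0 : (Fin n → Tan y.2) → (Fin (n + 1) → Tan y.2) → ℝ) = pullA y h F α.dd
  by_cases hg : y.1 = genericPoint X
  · obtain ⟨ξ, v⟩ := y
    change ξ = genericPoint X at hg
    subst hg
    let _ := (kmap s (genericPoint X)).toAlgebra
    exact (Clos_fld (K := K) (L := X.residueField (genericPoint X)) h1 h2 h3 hT
      (unitsAt (⟨genericPoint X, v⟩ : An s) h F) α.dd v).symm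
  · obtain ⟨h', h5⟩ := (h4 K X s n hT (n + 1) R U F α.dd y h hg).self_of_nhds
    exact h5.symm

end TDC
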