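import Pool.Agent.TDC.StT

/-!
# TDC, Cmp: comparison of the weights for two tuples which are independent at a point
-/

namespace TDC

open scoped Topology

section rel

variable {K L : Type} [NontriviallyNormedField K] [Field L] [Algebra K L] {n : ℕ}

/-- the claim for two tuples at `y` -/
private def CmpR (y : Pt (algebraMap K L)) (g h : Fin n → Lˣ) : Prop :=
  ∀ x x' : Pt (algebraMap K (AlgebraicClosure L)),
    Ov g (logv y g) x → Ov h (logv y h) x' → ∀ δ : Fin n → Tan y,
      wt g x y * |(Matrix.of fun a b => ev h (δ a) b).det| =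
        wt h x' y * |(Matrix.of fun a b => ev g (δ a) b).det|

private theorem CmpR_symm {y : Pt (algebraMap K L)} {g h : Fin n → Lˣ} (H : CmpR y g h) :
    CmpR y h g := fun x x' hx hx' δ => (H x' x hx' hx δ).symm

private theorem Cmp_det {y : Pt (algebraMap K L)} {k f : Fin n → Lˣ} {M : Matrix (Fin n) (Fin n) ℝ}
    (hM : ∀ δ : Tan y, ev f δ = M.mulVec (ev k δ)) (δ : Fin n → Tan y) :
    (Matrix.of fun a b => ev f (δ a) b).det =
      (Matrix.of fun a b => ev k (δ a) b).det * M.det := by
  have h1 : (Matrix.of fun a b => ev f (δ a) b) =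
      (Matrix.of fun a b => ev k (δ a) b) * M.transpose := by
    ext a b
    rw [Matrix.mul_apply, Matrix.of_apply, hM]
    simp only [Matrix.mulVec, dotProduct, Matrix.of_apply, Matrix.transpose_apply]
    exact Finset.sum_congr rfl fun i _ => mul_comm _ _
  rw [h1, Matrix.det_mul, Matrix.det_transpose]

private theorem CmpR_trans [IsUltrametricDist K] (hEmG : St_EmG) (hGEx : St_GEx)
    (hInd : St_IndG) (hTng : St_Tng) (hTr : TrLe K L n)
    {y : Pt (algebraMap K L)} {g k h : Fin n → Lˣ} (hk : Indep y k)
    (H1 : CmpR y g k) (H2 : CmpR y k h) : CmpR y g h := by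
  intro x x' hx hx' δ
  have hG : Gauss y k := hInd K L (algebraMap K L) n y k hk
  have hai := hEmG.2.1 K L n k y hG
  have hgen : Generic K (logv y k) := (hEmG.2.2 K L n k y).1 hk
  obtain ⟨x'', hx''⟩ := hGEx K L n hTr k hai (logv y k) hgen
  obtain ⟨hT1, hT2⟩ := hTng K L n hTr y k hk
  choose δ0 hδ0 using fun a : Fin n => hT1 (Pi.single a 1)
  obtain ⟨Mg, hMg⟩ := hT2 n g
  obtain ⟨Mh, hMh⟩ := hT2 n h
  have hid : (Matrix.of fun a b => ev k (δ0 a) b) = (1 : Matrix (Fin n) (Fin n) ℝ) := by
    ext a b
    rw [Matrix.of_apply, hδ0, Matrix.one_apply, Pi.single_apply]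
    simp only [eq_comm]
  have e1 := H1 x x'' hx hx'' δ0
  have e2 := H2 x'' x' hx'' hx' δ0
  rw [Cmp_det hMg δ0, hid, Matrix.det_one, one_mul, abs_one, mul_one] at e1
  rw [Cmp_det hMh δ0, hid, Matrix.det_one, one_mul, abs_one, mul_one] at e2
  rw [Cmp_det hMh δ, Cmp_det hMg δ, abs_mul, abs_mul, e1, ← e2]
  ring

/-- change of one coordinate -/
private theorem Cmp_step (hFin : St_FinF) (hExc : St_Exc) (hTng : St_Tng)
    (hAvd : St_Avd) (hTr : TrLe K L n) (hfg : (⊤ : IntermediateField K L).FG)
    {y : Pt (algebraMap K L)} {g h : Fin n → Lˣ} (hg : Indep y g) (hh : Indep y h) (k : Fin n) :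
    ∃ u : Lˣ, (Indep y (Function.update g k u) ∧ CmpR y g (Function.update g k u)) ∧
      (Indep y (Function.update h k u) ∧ CmpR y h (Function.update h k u)) := by
  classical
  -- the homomorphisms
  let lg : Pt (algebraMap K L) → (Additive Lˣ →+ ℝ) := fun z =>
    { toFun := fun f => Real.log (z.v ((Additive.toMul f : Lˣ) : L))
      map_zero' := by
        show Real.log (z.v (((1 : Lˣ)) : L)) = 0
        rw [Units.val_one, map_one, Real.log_one]
      map_add' := fun a b => by
        show Real.log (z.v (((Additive.toMul a * Additive.toMul b : Lˣ)) : L)) = _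
        rw [Units.val_mul, map_mul, Real.log_mul]
        · exact (z.v.pos (Units.ne_zero _)).ne'
        · exact (z.v.pos (Units.ne_zero _)).ne' }
  have hlg : ∀ (z : Pt (algebraMap K L)) (f : Lˣ), lg z (Additive.ofMul f) =
      Real.log (z.v (f : L)) := fun z f => rfl
  have hinj : ∀ z : Pt (algebraMap K L), lg z - lg y = 0 → z = y := by
    intro z hz
    have hv : z.v = y.v := by
      ext f
      rcases eq_or_ne f 0 with rfl | hf
      · rw [map_zero, map_zero]
      · have h1 := DFunLike.congr_fun hz (Additive.ofMul (Units.mk0 f hf))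
        rw [AddMonoidHom.sub_apply, hlg, hlg, AddMonoidHom.zero_apply, sub_eq_zero] at h1
        exact Real.log_injOn_pos (z.v.pos hf) (y.v.pos hf) h1
    cases z; cases y
    simp only at hv
    subst hv
    rfl
  obtain ⟨eg, heg⟩ := (hTng K L n hTr y g hg).1 (Pi.single k 1)
  obtain ⟨eh, heh⟩ := (hTng K L n hTr y h hh).1 (Pi.single k 1)
  let Z : (Fin n → Lˣ) → Set (Pt (algebraMap K L)) := fun f =>
    {z | Gauss z f ∧ logv z f = logv y f}
  have hZ : ∀ f, (Z f).Finite := fun f => hFin K L n hTr hfg f (logv y f)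
  let Φ : Set (Additive Lˣ →+ ℝ) :=
    (fun z => lg z - lg y) '' ((Z g ∪ Z h) \ {y}) ∪ {eg.1, eh.1}
  have hΦ : Φ.Finite :=
    ((((hZ g).union (hZ h)).subset Set.sdiff_subset).image _).union (Set.toFinite _)
  have hne : ∀ (f : Fin n → Lˣ) (e : Tan y), ev f e = Pi.single k 1 → e.1 ≠ 0 := by
    intro f e he h0
    have h1 := congr_fun he k
    rw [Pi.single_eq_same] at h1
    have h2 : ev f e k = 0 := by
      show e.1 (Additive.ofMul (f k)) = 0
      rw [h0]; rfl
    rw [h2] at h1
    exact zero_ne_one h1
  have hΦ0 : ∀ φ ∈ Φ, φ ≠ 0 := by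
    rintro φ (⟨z, ⟨hz, hzy⟩, rfl⟩ | hφ)
    · intro h0
      exact hzy (hinj z h0)
    · rcases hφ with rfl | hφ
      · exact hne g eg heg
      · rw [Set.mem_singleton_iff] at hφ
        rw [hφ]; exact hne h eh heh
  obtain ⟨a, ha⟩ := hAvd (Additive Lˣ) Φ hΦ hΦ0
  -- one tuple
  have key : ∀ (f : Fin n → Lˣ) (e : Tan y), Indep y f → ev f e = Pi.single k 1 → e.1 a ≠ 0 →
      (∀ z ∈ Z f, z ≠ y → (lg z - lg y) a ≠ 0) →
      Indep y (Function.update f k (Additive.toMul a)) ∧
        CmpR y f (Function.update f k (Additive.toMul a)) := by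
    intro f e hf he hea hz
    set u : Lˣ := Additive.toMul a with hu
    have hI : Indep y (Function.update f k u) := by
      intro m hm
      have h1 := e.2 _ hm
      have h2 : (Additive.ofMul (∏ i, Function.update f k u i ^ m i) : Additive Lˣ) =
          ∑ i, m i • Additive.ofMul (Function.update f k u i) := by
        rw [ofMul_prod]; rfl
      rw [h2, map_sum, Finset.sum_eq_single k] at h1
      · rw [map_zsmul, Function.update_self] at h1
        have h3 : m k = 0 := by
          rcases smul_eq_zero.1 h1 with h | h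
          · exact h
          · exact absurd h hea
        apply hf m
        obtain ⟨b, hb⟩ := hm
        refine ⟨b, hb.trans ?_⟩
        congr 2
        refine Finset.prod_congr rfl fun i _ => ?_
        rcases eq_or_ne i k with rfl | hik
        · rw [h3, zpow_zero, zpow_zero]
        · rw [Function.update_of_ne hik]
      · intro i _ hik
        rw [Function.update_of_ne hik, map_zsmul]
        have h4 := congr_fun he i
        rw [Pi.single_eq_of_ne hik] at h4
        have h5 : e.1 (Additive.ofMul (f i)) = 0 := h4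
        rw [h5, smul_zero]
      · intro hk
        exact absurd (Finset.mem_univ k) hk
    refine ⟨hI, ?_⟩
    -- the exchange
    have hG1 : (k.castSucc.insertNth u f : Fin (n + 1) → Lˣ) ∘ k.castSucc.succAbove = f := by
      funext i
      simp
    have hG2 : (k.castSucc.insertNth u f : Fin (n + 1) → Lˣ) ∘ k.succ.succAbove =
        Function.update f k u := by
      funext i
      rcases lt_trichotomy i k with hik | rfl | hik
      · have h1 : k.succ.succAbove i = k.castSucc.succAbove i := by
          rw [Fin.succAbove_of_castSucc_lt _ _ (by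
            rw [Fin.lt_def] at hik ⊢
            simp only [Fin.val_castSucc, Fin.val_succ]; omega),
            Fin.succAbove_of_castSucc_lt _ _ (by
            rw [Fin.lt_def] at hik ⊢
            simp only [Fin.val_castSucc]; omega)]
        rw [Function.comp_apply, h1, Fin.insertNth_apply_succAbove,
          Function.update_of_ne hik.ne]
      · have h1 : i.succ.succAbove i = i.castSucc := by
          rw [Fin.succAbove_of_castSucc_lt _ _ (by
            rw [Fin.lt_def]
            simp only [Fin.val_castSucc, Fin.val_succ]; omega)]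
        rw [Function.comp_apply, h1, Fin.insertNth_apply_same, Function.update_self]
      · have h1 : k.succ.succAbove i = k.castSucc.succAbove i := by
          rw [Fin.succAbove_of_le_castSucc _ _ (by
            rw [Fin.lt_def] at hik
            rw [Fin.le_def]
            simp only [Fin.val_castSucc, Fin.val_succ]; omega),
            Fin.succAbove_of_le_castSucc _ _ (by
            rw [Fin.lt_def] at hik
            rw [Fin.le_def]
            simp only [Fin.val_castSucc]; omega)]
        rw [Function.comp_apply, h1, Fin.insertNth_apply_succAbove,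
          Function.update_of_ne hik.ne']
    have hE := hExc K L n hTr hfg (k.castSucc.insertNth u f : Fin (n + 1) → Lˣ) k.castSucc k.succ y
    rw [hG1, hG2] at hE
    refine hE hf hI ?_
    intro z hzG hzv
    by_contra hzy
    have hzf : logv z f = logv y f := by
      funext i
      have := hzv (k.castSucc.succAbove i)
      rw [Fin.insertNth_apply_succAbove] at this
      show Real.log (z.v (f i : L)) = Real.log (y.v (f i : L))
      rw [this]
    apply hz z ⟨hzG, hzf⟩ hzy
    have h6 := hzv k.castSucc
    rw [Fin.insertNth_apply_same] at h6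
    rw [AddMonoidHom.sub_apply, sub_eq_zero]
    show Real.log (z.v (u : L)) = Real.log (y.v (u : L))
    rw [h6]
  refine ⟨Additive.toMul a, key g eg hg heg (ha _ (Or.inr (Or.inl rfl))) ?_,
    key h eh hh heh (ha _ (Or.inr (Or.inr rfl))) ?_⟩
  · intro z hz hzy
    exact ha _ (Or.inl ⟨z, ⟨Or.inl hz, hzy⟩, rfl⟩)
  · intro z hz hzy
    exact ha _ (Or.inl ⟨z, ⟨Or.inr hz, hzy⟩, rfl⟩)

end rel

/-- **Cmp**: comparison of the weights for two tuples which are independent at `y`. -/
theorem thm_Cmp : St_EmG → St_GEx → St_IndG → St_FinF → St_Exc → St_Tng → St_Avd → St_Cmp := by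
  intro hEmG hGEx hInd hFin hExc hTng hAvd K L _ _ _ _ n hn hTr hfg g h y hg hh
  have main : ∀ m : ℕ, m ≤ n → ∃ g' h' : Fin n → Lˣ, (∀ i : Fin n, i.val < m → g' i = h' i) ∧
      Indep y g' ∧ Indep y h' ∧ (m = 0 → g' = g ∧ h' = h) ∧
      (0 < m → CmpR y g g' ∧ CmpR y h h') := by
    intro m
    induction m with
    | zero =>
      intro _
      exact ⟨g, h, fun i hi => absurd hi (Nat.not_lt_zero _), hg, hh, fun _ => ⟨rfl, rfl⟩,
        fun h0 => absurd h0 (lt_irrefl 0)⟩
    | succ m ih =>
      intro hm
      obtain ⟨g', h', hag, hg', hh', h0, hpos⟩ := ih (Nat.le_of_succ_le hm)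
      obtain ⟨u, ⟨hgu, hRg⟩, hhu, hRh⟩ :=
        Cmp_step hFin hExc hTng hAvd hTr hfg hg' hh' ⟨m, hm⟩
      refine ⟨Function.update g' ⟨m, hm⟩ u, Function.update h' ⟨m, hm⟩ u, ?_, hgu, hhu,
        fun hc => absurd hc (Nat.succ_ne_zero m), fun _ => ?_⟩
      · intro i hi
        rcases eq_or_ne i ⟨m, hm⟩ with rfl | hne
        · rw [Function.update_self, Function.update_self]
        · rw [Function.update_of_ne hne, Function.update_of_ne hne]
          apply hag
          have h1 : i.val ≠ m := fun hc => hne (Fin.ext hc)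
          omega
      · rcases Nat.eq_zero_or_pos m with hm0 | hm0
        · obtain ⟨rfl, rfl⟩ := h0 hm0
          exact ⟨hRg, hRh⟩
        · obtain ⟨r1, r2⟩ := hpos hm0
          exact ⟨CmpR_trans hEmG hGEx hInd hTng hTr hg' r1 hRg,
            CmpR_trans hEmG hGEx hInd hTng hTr hh' r2 hRh⟩
  obtain ⟨g', h', hag, hg', hh', _, hpos⟩ := main n le_rfl
  have he : g' = h' := funext fun i => hag i i.2
  subst he
  obtain ⟨r1, r2⟩ := hpos hn
  exact CmpR_trans hEmG hGEx hInd hTng hTr hg' r1 (CmpR_symm r2)

end TDC
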