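import Pool.Agent.TDC.St7
import Pool.Agent.TDC.St2

/-! TDC, module CohC: the cohomology groups in the top bidegree as quotients. -/

set_option autoImplicit false
set_option maxHeartbeats 4000000

namespace TDC

open scoped Topology
open MeasureTheory AlgebraicGeometry CategoryTheory

private theorem CohC_abs {V : Type} [AddCommGroup V] [Module ℝ V] (Z B : Submodule ℝ V)
    (Q : ℝ → V → Prop)
    (hadd : ∀ r r' v v', Q r v → Q r' v' → Q (r + r') (v + v'))
    (hsmul : ∀ c r v, Q r v → Q (c * r) (c • v))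
    (hZ : ∀ r v, Q r v → v ∈ Z)
    (hex : ∀ w ∈ Z, ∃ r v, Q r v ∧ w - v ∈ B)
    (h0 : ∀ r v, Q r v → v ∈ B → r = 0)
    (h1 : ∀ v, Q 0 v → v ∈ B)
    (hs : ∀ r, ∃ v, Q r v) :
    ∃ e : (Z ⧸ B.comap Z.subtype) ≃ₗ[ℝ] ℝ, ∀ r v, Q r v → ∃ h : v ∈ Z,
      e (Submodule.Quotient.mk ⟨v, h⟩) = r := by
  have hsub : ∀ r r' v v', Q r v → Q r' v' → Q (r - r') (v - v') := by
    intro r r' v v' h h'
    have h2 := hadd _ _ _ _ h (hsmul (-1) _ _ h')
    have e1 : r + -1 * r' = r - r' := by ring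
    have e2 : v + (-1 : ℝ) • v' = v - v' := by rw [neg_one_smul, sub_eq_add_neg]
    rw [e1, e2] at h2
    exact h2
  have huniq : ∀ w r r' v v', Q r v → Q r' v' → w - v ∈ B → w - v' ∈ B → r = r' := by
    intro w r r' v v' h h' hb hb'
    have h2 := hsub _ _ _ _ h h'
    have h3 : v - v' ∈ B := by
      have h4 := B.sub_mem hb' hb
      have e1 : w - v' - (w - v) = v - v' := by abel
      rw [e1] at h4
      exact h4
    have h5 := h0 _ _ h2 h3
    linarith
  choose! r v hQ hB using hex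
  let L : Z →ₗ[ℝ] ℝ :=
    { toFun := fun w => r w
      map_add' := by
        intro a b
        have ha := a.2
        have hb := b.2
        have hab := Z.add_mem ha hb
        refine huniq ((a : V) + b) _ _ _ _ (hQ _ hab) (hadd _ _ _ _ (hQ _ ha) (hQ _ hb))
          (hB _ hab) ?_
        have h := B.add_mem (hB _ ha) (hB _ hb)
        have e1 : (a : V) - v a + ((b : V) - v b) = (a : V) + b - (v a + v b) := by abel
        rw [e1] at h
        exact h
      map_smul' := by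
        intro c a
        have ha := a.2
        have hca := Z.smul_mem c ha
        refine huniq (c • (a : V)) _ _ _ _ (hQ _ hca) (hsmul c _ _ (hQ _ ha)) (hB _ hca) ?_
        have h := B.smul_mem c (hB _ ha)
        rw [smul_sub] at h
        exact h }
  have hL : ∀ (w : Z) (r' : ℝ) (v' : V), Q r' v' → (w : V) - v' ∈ B → L w = r' := by
    intro w r' v' h hb
    exact huniq w _ _ _ _ (hQ _ w.2) h (hB _ w.2) hb
  have hsurj : Function.Surjective L := by
    intro c
    obtain ⟨v', hv'⟩ := hs c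
    refine ⟨⟨v', hZ _ _ hv'⟩, hL _ _ v' hv' ?_⟩
    show v' - v' ∈ B
    rw [sub_self]
    exact B.zero_mem
  have hker : B.comap Z.subtype = LinearMap.ker L := by
    ext w
    rw [Submodule.mem_comap, LinearMap.mem_ker]
    constructor
    · intro hw
      obtain ⟨v', hv'⟩ := hs 0
      refine hL w 0 v' hv' ?_
      exact B.sub_mem hw (h1 _ hv')
    · intro hw
      have h2 := hQ _ w.2
      have h3 : r (w : V) = 0 := hw
      rw [h3] at h2
      have h4 := B.add_mem (hB _ w.2) (h1 _ h2)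
      rw [sub_add_cancel] at h4
      exact h4
  refine ⟨(Submodule.quotEquivOfEq _ _ hker).trans (L.quotKerEquivOfSurjective hsurj), ?_⟩
  intro r' v' h
  refine ⟨hZ _ _ h, ?_⟩
  have h5 : L ⟨v', hZ _ _ h⟩ = r' := by
    refine hL _ _ v' h ?_
    show v' - v' ∈ B
    rw [sub_self]
    exact B.zero_mem
  exact h5

section

variable {K : Type} [NormedField K] {X : Scheme.{0}} {s : X ⟶ Spec (.of K)}

private theorem CohC_add {M : Type} [Field M] {φ : K →+* M} {n : ℕ} (x : Pt φ)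
    (t : Fin n → Mˣ) (b b' : (Fin n → ℝ) → ℝ) :
    pullAt x t (top (b + b')) = pullAt x t (top b) + pullAt x t (top b') := by
  funext δ ε
  show _ = pullAt x t (top b) δ ε + pullAt x t (top b') δ ε
  unfold pullAt
  rw [← Finset.sum_add_distrib]
  refine Finset.sum_congr rfl fun I _ => ?_
  rw [← mul_add]
  refine mul_eq_mul_left_iff.2 (Or.inl ?_)
  show mono id id (b + b') I _ _ = mono id id b I _ _ + mono id id b' I _ _
  unfold mono
  split_ifs
  · rw [Pi.add_apply, add_smul]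
    rfl
  · simp

private theorem CohC_smul {M : Type} [Field M] {φ : K →+* M} {n : ℕ} (x : Pt φ)
    (t : Fin n → Mˣ) (c : ℝ) (b : (Fin n → ℝ) → ℝ) :
    pullAt x t (top (c • b)) = c • pullAt x t (top b) := by
  funext δ ε
  show _ = c * pullAt x t (top b) δ ε
  unfold pullAt
  rw [Finset.mul_sum]
  refine Finset.sum_congr rfl fun I _ => ?_
  rw [mul_left_comm]
  refine mul_eq_mul_left_iff.2 (Or.inl ?_)
  show mono id id (c • b) I _ _ = c * mono id id b I _ _
  unfold mono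
  split_ifs
  · rw [Pi.smul_apply, smul_assoc]
    rfl
  · simp

private theorem CohC_tadd [IrreducibleSpace X] {n : ℕ}
    (t : Fin n → (X.residueField (genericPoint X))ˣ) (b b' : (Fin n → ℝ) → ℝ)
    (w w' : FamA s n n) (h : IsTrop t b w) (h' : IsTrop t b' w') :
    IsTrop t (b + b') (w + w') := by
  constructor
  · intro v
    rw [CohC_add, ← h.1 v, ← h'.1 v]
    rfl
  · intro x hx
    show w x + w' x = 0
    rw [h.2 x hx, h'.2 x hx, add_zero]

private theorem CohC_tsmul [IrreducibleSpace X] {n : ℕ}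
    (t : Fin n → (X.residueField (genericPoint X))ˣ) (c : ℝ) (b : (Fin n → ℝ) → ℝ)
    (w : FamA s n n) (h : IsTrop t b w) :
    IsTrop t (c • b) (c • w) := by
  constructor
  · intro v
    rw [CohC_smul, ← h.1 v]
    rfl
  · intro x hx
    show c • w x = 0
    rw [h.2 x hx, smul_zero]

private theorem CohC_uniq [IrreducibleSpace X] {n : ℕ}
    (t : Fin n → (X.residueField (genericPoint X))ˣ) (b : (Fin n → ℝ) → ℝ)
    (w w' : FamA s n n) (h : IsTrop t b w) (h' : IsTrop t b w') : w = w' := by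
  funext x
  by_cases hx : x.1 = genericPoint X
  · obtain ⟨ξ, v⟩ := x
    have hξ : ξ = genericPoint X := hx
    subst hξ
    rw [h.1 v, h'.1 v]
  · rw [h.2 x hx, h'.2 x hx]

end

private theorem CohC_int {m : ℕ} (b b' : (Fin (m + 1) → ℝ) → ℝ)
    (h1 : ContDiff ℝ (⊤ : ℕ∞) b) (h2 : HasCompactSupport b)
    (h1' : ContDiff ℝ (⊤ : ℕ∞) b') (h2' : HasCompactSupport b') :
    ∫ u, (b + b') u = (∫ u, b u) + ∫ u, b' u :=
  integral_add (h1.continuous.integrable_of_hasCompactSupport h2)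
    (h1'.continuous.integrable_of_hasCompactSupport h2')

private theorem CohC_ints {m : ℕ} (c : ℝ) (b : (Fin (m + 1) → ℝ) → ℝ)
    (h1 : ContDiff ℝ (⊤ : ℕ∞) b) (h2 : HasCompactSupport b) :
    ContDiff ℝ (⊤ : ℕ∞) (c • b) ∧ HasCompactSupport (c • b) ∧
      ∫ u, (c • b) u = c * ∫ u, b u := by
  refine ⟨contDiff_const.smul h1, ?_, ?_⟩
  · exact HasCompactSupport.smul_left (f := fun _ : Fin (m + 1) → ℝ => c) h2
  · exact integral_const_mul c b

private theorem CohC_bump (m : ℕ) (r : ℝ) : ∃ b : (Fin (m + 1) → ℝ) → ℝ,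
    ContDiff ℝ (⊤ : ℕ∞) b ∧ HasCompactSupport b ∧ ∫ u, b u = r := by
  let f : ContDiffBump (0 : Fin (m + 1) → ℝ) := ⟨1, 2, one_pos, one_lt_two⟩
  refine ⟨fun u => r * f.normed volume u, ?_, ?_, ?_⟩
  · exact contDiff_const.mul f.contDiff_normed
  · exact f.hasCompactSupport_normed.mul_left
  · rw [integral_const_mul, f.integral_normed, mul_one]

theorem thm_CohC (hC : St_ThmC) (hT : St_TroF) (hZe : St_ZerC) (hI : St_InjC) (hCl : St_Clos)
    (hTow : St_TowR) : St_CohC := by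
  intro K _ _ X _ s m t hcount hR
  obtain ⟨hTow1, -⟩ := hTow
  have htr : @TrLe K (X.residueField (genericPoint X)) _ _ (kmap s (genericPoint X)).toAlgebra
      (m + 1) :=
    (@hTow1 K (X.residueField (genericPoint X)) _ _ (kmap s (genericPoint X)).toAlgebra
      (m + 1) t hR).1
  have hcomb := thm_CombA thm_CombU K X s (m + 1) (m + 1)
  obtain ⟨Q, hQd⟩ : ∃ Q : ℝ → FamA s (m + 1) (m + 1) → Prop, Q = fun r v =>
      ∃ b : (Fin (m + 1) → ℝ) → ℝ, ContDiff ℝ (⊤ : ℕ∞) b ∧ HasCompactSupport b ∧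
        IsTrop t b v ∧ ∫ u, b u = r := ⟨_, rfl⟩
  have hadd : ∀ r r' v v', Q r v → Q r' v' → Q (r + r') (v + v') := by
    intro r r' v v' h h'
    rw [hQd] at h h' ⊢
    obtain ⟨b, h1, h2, h3, h4⟩ := h
    obtain ⟨b', h1', h2', h3', h4'⟩ := h'
    refine ⟨b + b', h1.add h1', h2.add h2', CohC_tadd t b b' v v' h3 h3', ?_⟩
    rw [CohC_int b b' h1 h2 h1' h2', h4, h4']
  have hsmul : ∀ c r v, Q r v → Q (c * r) (c • v) := by
    intro c r v h
    rw [hQd] at h ⊢
    obtain ⟨b, h1, h2, h3, h4⟩ := h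
    obtain ⟨k1, k2, k3⟩ := CohC_ints c b h1 h2
    refine ⟨c • b, k1, k2, CohC_tsmul t c b v h3, ?_⟩
    rw [k3, h4]
  have hform : ∀ r v, Q r v → IsFormA v ∧ CSuppA v := by
    intro r v h
    rw [hQd] at h
    obtain ⟨b, h1, h2, h3, h4⟩ := h
    obtain ⟨w, hw1, hw2, hw3⟩ := hT K X s (m + 1) t htr b h1 h2
    rw [CohC_uniq t b v w h3 hw1]
    exact ⟨hw2, hw3⟩
  have hclosed : ∀ r v, Q r v → v ∈ closedA s (m + 1) (m + 1) := by
    intro r v h
    exact hCl K X s (m + 1) htr v (hform r v h).1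
  have hsur : ∀ r, ∃ v, Q r v := by
    intro r
    obtain ⟨b, h1, h2, h3⟩ := CohC_bump m r
    obtain ⟨w, hw1, -, -⟩ := hT K X s (m + 1) t htr b h1 h2
    refine ⟨w, ?_⟩
    rw [hQd]
    exact ⟨b, h1, h2, hw1, h3⟩
  have hthm : ∀ w : FamA s (m + 1) (m + 1), IsDbarA w 0 → CSuppA w →
      ∃ r v, Q r v ∧ ∃ η : FamA s (m + 1) m, CSuppA η ∧ IsDbarA η (w - v) := by
    intro w hw hc
    have hf : IsFormA w := (hcomb.2.2.2.2.2.2 w 0 hw).1
    obtain ⟨b, v, η, h1, h2, h3, h4, h5, h6, h7, h8⟩ := hC K X s m t hcount hR w hf hc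
    refine ⟨∫ u, b u, v, ?_, η, h7, h8⟩
    rw [hQd]
    exact ⟨b, h1, h2, h3, rfl⟩
  have hinj : ∀ r v, Q r v → (∃ η : FamA s (m + 1) m, CSuppA η ∧ IsDbarA η v) → r = 0 := by
    intro r v h h'
    rw [hQd] at h
    obtain ⟨b, h1, h2, h3, h4⟩ := h
    obtain ⟨η, h5, h6⟩ := h'
    rw [← h4]
    exact hI K X s m t hcount hR b v η h1 h2 h3 h5 h6
  have hzer : ∀ v, Q 0 v → ∃ η : FamA s (m + 1) m, CSuppA η ∧ IsDbarA η v := by
    intro v h
    rw [hQd] at h
    obtain ⟨b, h1, h2, h3, h4⟩ := h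
    obtain ⟨η, h5, h6, h7⟩ := hZe K X s m t htr b v h1 h2 h4 h3
    exact ⟨η, h6, h7⟩
  refine ⟨?_, fun hcpt => ?_⟩
  · obtain ⟨e, he⟩ := CohC_abs (closedA s (m + 1) (m + 1) ⊓ suppA s (m + 1) (m + 1))
      (exactAc s (m + 1) (m + 1)) Q hadd hsmul
      (fun r v h => ⟨hclosed r v h, (hform r v h).2⟩)
      (fun w hw => hthm w hw.1 hw.2) hinj hzer hsur
    refine ⟨e, fun b w h1 h2 h3 => he _ w ?_⟩
    rw [hQd]
    exact ⟨b, h1, h2, h3, rfl⟩
  · have hall : ∀ (q : ℕ) (w : FamA s (m + 1) q), CSuppA w := fun q w =>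
      ⟨Set.univ, isCompact_univ, fun x hx => absurd (Set.mem_univ x) hx⟩
    obtain ⟨e, he⟩ := CohC_abs (closedA s (m + 1) (m + 1))
      (exactA s (m + 1) (m + 1)) Q hadd hsmul hclosed
      (fun w hw => by
        obtain ⟨r, v, h1, η, -, h2⟩ := hthm w hw (hall _ w)
        exact ⟨r, v, h1, η, h2⟩)
      (fun r v h h' => by
        obtain ⟨η, h2⟩ := h'
        exact hinj r v h ⟨η, hall _ η, h2⟩)
      (fun v h => by
        obtain ⟨η, -, h2⟩ := hzer v h
        exact ⟨η, h2⟩) hsur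
    refine ⟨e, fun b w h1 h2 h3 => he _ w ?_⟩
    rw [hQd]
    exact ⟨b, h1, h2, h3, rfl⟩

end TDC
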