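import Pool.Agent.TDC.St2

/-!
# TDC, module Comb: the sum of two pull-backs is a pull-back along the concatenated tuple
-/

namespace TDC

open scoped Topology

section

variable {R R' p q : ℕ}

/-- restriction to the coordinates in the image of `ι` -/
private noncomputable def Comb_rs (ι : Fin R' → Fin R) : (Fin R → ℝ) →L[ℝ] (Fin R' → ℝ) :=
  ContinuousLinearMap.pi fun i => ContinuousLinearMap.proj (ι i)

private theorem Comb_rs_apply (ι : Fin R' → Fin R) (t : Fin R → ℝ) : Comb_rs ι t = t ∘ ι := rfl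

open Classical in
/-- the superform on `ℝ^R` obtained from one on `ℝ^R'` via the coordinate map `ι` -/
private noncomputable def Comb_ext (ι : Fin R' → Fin R) (α : SF R' p q) : SF R p q := fun I t =>
  ∑ I₁ ∈ Finset.univ.filter (fun I₁ : Fin p → Fin R' => ι ∘ I₁ = I),
    (α I₁ (Comb_rs ι t)).compContinuousLinearMap (Comb_rs ι)

private theorem Comb_sm1 (ι : Fin R' → Fin R) {α : SF R' p q} (h : α.Smooth)
    (I₁ : Fin p → Fin R') : ContDiff ℝ (⊤ : ℕ∞) (fun t : Fin R → ℝ =>
      (α I₁ (Comb_rs ι t)).compContinuousLinearMap (Comb_rs ι)) := by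
  have h1 : ContDiff ℝ (⊤ : ℕ∞) (ContinuousAlternatingMap.compContinuousLinearMapCLM (𝕜 := ℝ)
    (ι := Fin q) (F := ℝ) (Comb_rs ι)) := ContinuousLinearMap.contDiff _
  exact h1.comp ((h I₁).comp (Comb_rs ι).contDiff)

private theorem Comb_sm (ι : Fin R' → Fin R) {α : SF R' p q} (h : α.Smooth) :
    (Comb_ext ι α).Smooth := fun _ => ContDiff.sum fun I₁ _ => Comb_sm1 ι h I₁

private theorem Comb_exsum {E : Type*} [NormedAddCommGroup E] [NormedSpace ℝ E] {J : Type*}
    (s : Finset J) (ω : J → E → E [⋀^Fin q]→L[ℝ] ℝ) (x : E)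
    (h : ∀ j ∈ s, DifferentiableAt ℝ (ω j) x) :
    extDeriv (fun t => ∑ j ∈ s, ω j t) x = ∑ j ∈ s, extDeriv (ω j) x := by
  classical
  induction s using Finset.induction_on with
  | empty =>
    simp only [Finset.sum_empty]
    have := extDeriv_fun_smul (𝕜 := ℝ) (x := x) (0 : ℝ) (fun _ : E => (0 : E [⋀^Fin q]→L[ℝ] ℝ))
    simp only [zero_smul] at this
    exact this
  | insert a s ha ih =>
    simp only [Finset.sum_insert ha]
    rw [extDeriv_fun_add (h a (Finset.mem_insert_self a s))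
      (DifferentiableAt.fun_sum fun j hj => h j (Finset.mem_insert_of_mem hj)),
      ih fun j hj => h j (Finset.mem_insert_of_mem hj)]

private theorem Comb_dd (ι : Fin R' → Fin R) {α : SF R' p q} (h : α.Smooth) :
    (Comb_ext ι α).dd = Comb_ext ι α.dd := by
  funext I t
  unfold SF.dd Comb_ext
  rw [Comb_exsum _ _ t fun I₁ _ => (Comb_sm1 ι h I₁).contDiffAt.differentiableAt (by simp)]
  refine Finset.sum_congr rfl fun I₁ _ => ?_
  have h1 := extDeriv_pullback (𝕜 := ℝ) (r := (⊤ : ℕ∞)) (ω := α I₁) (f := Comb_rs ι) (x := t)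
    ((h I₁).contDiffAt.differentiableAt (by simp)) (Comb_rs ι).contDiff.contDiffAt
    (by
      simp only [minSmoothness_of_isRCLikeNormedField]
      exact WithTop.coe_le_coe.2 (le_top : (2 : ℕ∞) ≤ ⊤))
  simpa only [ContinuousLinearMap.fderiv] using h1

private theorem Comb_add_dd {α β : SF R p q} (hα : α.Smooth) (hβ : β.Smooth) :
    (α + β).dd = α.dd + β.dd := by
  funext I t
  exact extDeriv_add ((hα I).contDiffAt.differentiableAt (by simp))
    ((hβ I).contDiffAt.differentiableAt (by simp))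

private theorem Comb_PC (ι : Fin R' → Fin R) {α : SF R' p q} (h : α.PC) :
    (Comb_ext ι α).PC := by
  classical
  intro I
  refine ⟨Comb_sm ι (fun I => (h I).1) I, ?_⟩
  choose C hC hC0 using fun I => (h I).2
  refine ⟨⋃ I₁ ∈ Finset.univ.filter (fun I₁ : Fin p → Fin R' => ι ∘ I₁ = I), C I₁,
    Finset.isCompact_biUnion _ fun I₁ _ => hC I₁, fun t ht => ?_⟩
  unfold Comb_ext
  refine Finset.sum_eq_zero fun I₁ hI => ?_
  have e : ι ∘ I₁ = I := (Finset.mem_filter.1 hI).2
  have h0 : α I₁ (Comb_rs ι t) = 0 := by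
    refine hC0 I₁ _ fun hc => ht ?_
    refine Set.mem_biUnion (Finset.mem_coe.2 hI) ?_
    rw [← e]
    exact hc
  rw [h0]
  rfl

private theorem Comb_add_PC {α β : SF R p q} (hα : α.PC) (hβ : β.PC) : (α + β).PC := by
  intro I
  obtain ⟨s1, C1, h1, z1⟩ := hα I
  obtain ⟨s2, C2, h2, z2⟩ := hβ I
  refine ⟨s1.add s2, C1 ∪ C2, h1.union h2, fun t ht => ?_⟩
  show α I t + β I t = 0
  rw [z1 t fun hc => ht (Or.inl hc), z2 t fun hc => ht (Or.inr hc), add_zero]

section field

variable {K M : Type} [NormedField K] [Field M] {φ : K →+* M}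

private theorem Comb_pull (ι : Fin R' → Fin R) (F : Fin R → Mˣ) (α : SF R' p q) :
    (pull F (Comb_ext ι α) : Fam φ p q) = pull (F ∘ ι) α := by
  classical
  funext x δ ε
  show ∑ I : Fin p → Fin R, (Matrix.of fun i j => ev F (δ i) (I j)).det *
    Comb_ext ι α I (logv x F) (fun i => ev F (ε i)) =
    ∑ I : Fin p → Fin R', (Matrix.of fun i j => ev (F ∘ ι) (δ i) (I j)).det *
    α I (logv x (F ∘ ι)) (fun i => ev (F ∘ ι) (ε i))
  rw [← Finset.sum_fiberwise_of_maps_to (s := Finset.univ) (t := Finset.univ)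
    (g := fun I₁ : Fin p → Fin R' => ι ∘ I₁) (fun _ _ => Finset.mem_univ _)]
  refine Finset.sum_congr rfl fun I _ => ?_
  unfold Comb_ext
  rw [ContinuousAlternatingMap.sum_apply, Finset.mul_sum]
  refine Finset.sum_congr (by congr) fun I₁ hI => ?_
  have e : ι ∘ I₁ = I := (Finset.mem_filter.1 hI).2
  subst e
  rfl

private theorem Comb_add_pull (F : Fin R → Mˣ) (α β : SF R p q) :
    (pull F (α + β) : Fam φ p q) = pull F α + pull F β := by
  funext x δ ε
  show ∑ I : Fin p → Fin R, (Matrix.of fun i j => ev F (δ i) (I j)).det *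
    (α + β) I (logv x F) (fun i => ev F (ε i)) =
    ∑ I : Fin p → Fin R, (Matrix.of fun i j => ev F (δ i) (I j)).det *
    α I (logv x F) (fun i => ev F (ε i)) +
    ∑ I : Fin p → Fin R, (Matrix.of fun i j => ev F (δ i) (I j)).det *
    β I (logv x F) (fun i => ev F (ε i))
  rw [← Finset.sum_add_distrib]
  refine Finset.sum_congr rfl fun I _ => ?_
  rw [← mul_add]
  rfl

end field

end

theorem thm_Comb : St_Comb := by
  intro K M _ _ φ p q R₁ R₂ F₁ F₂ α₁ α₂ h₁ h₂
  have e1 : Fin.append F₁ F₂ ∘ Fin.castAdd R₂ = F₁ := by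
    funext i
    exact Fin.append_left F₁ F₂ i
  have e2 : Fin.append F₁ F₂ ∘ Fin.natAdd R₁ = F₂ := by
    funext i
    exact Fin.append_right F₁ F₂ i
  refine ⟨Comb_ext (Fin.castAdd R₂) α₁ + Comb_ext (Fin.natAdd R₁) α₂, ?_, ?_, ?_, ?_⟩
  · exact fun I => (Comb_sm _ h₁ I).add (Comb_sm _ h₂ I)
  · exact fun p1 p2 => Comb_add_PC (Comb_PC _ p1) (Comb_PC _ p2)
  · rw [Comb_add_pull, Comb_pull, Comb_pull, e1, e2]
  · rw [Comb_add_dd (Comb_sm _ h₁) (Comb_sm _ h₂), Comb_dd _ h₁, Comb_dd _ h₂, Comb_add_pull,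
      Comb_pull, Comb_pull, e1, e2]

end TDC
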