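import Pool.Agent.TDC.St4

set_option autoImplicit false

/-!
# TDC, module CombA (helper32): the forms on the analytification form a vector space and the
operator `d''` is linear
-/

namespace TDC

open scoped Topology
open MeasureTheory AlgebraicGeometry CategoryTheory

/-! ### superforms -/

private theorem CombA_dd {R p q : ℕ} {α : SF R p q} (h : α.Smooth) : α.dd.Smooth := by
  intro I
  have h1 : ContDiff ℝ (⊤ : ℕ∞) (fderiv ℝ (α I)) := by
    apply ContDiff.fderiv_right (h I)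
    exact le_of_eq rfl
  exact (ContinuousAlternatingMap.alternatizeUncurryFinCLM ℝ (Fin R → ℝ) ℝ).contDiff.comp h1

private theorem CombA_smul {R p q : ℕ} (c : ℝ) {α : SF R p q} (h : α.Smooth) :
    SF.Smooth (fun I t => c • α I t : SF R p q) := fun I => (h I).const_smul c

private theorem CombA_smul_dd {R p q : ℕ} (c : ℝ) (α : SF R p q) :
    SF.dd (fun I t => c • α I t : SF R p q) = (fun I t => c • α.dd I t) := by
  funext I t
  exact extDeriv_fun_smul c (α I)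

private theorem CombA_zero {R p q : ℕ} : SF.Smooth (0 : SF R p q) := fun _ => contDiff_const

private theorem CombA_zero_dd {R p q : ℕ} : SF.dd (0 : SF R p q) = 0 := by
  funext I t
  have h := extDeriv_fun_smul (𝕜 := ℝ) (x := t) (0 : ℝ)
    (fun _ : Fin R → ℝ => (0 : (Fin R → ℝ) [⋀^Fin q]→L[ℝ] ℝ))
  simp only [zero_smul] at h
  exact h

section field

variable {K M : Type} [NormedField K] [Field M] {φ : K →+* M}

private theorem CombA_at_smul {R p q : ℕ} (x : Pt φ) (F : Fin R → Mˣ) (c : ℝ) (α : SF R p q) :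
    pullAt x F (fun I t => c • α I t : SF R p q) = c • pullAt x F α := by
  funext δ ε
  show pullAt x F _ δ ε = c * pullAt x F α δ ε
  unfold pullAt
  rw [Finset.mul_sum]
  refine Finset.sum_congr rfl fun I _ => ?_
  show _ * (c * α I (logv x F) _) = _
  ring

private theorem CombA_at_zero {R p q : ℕ} (x : Pt φ) (F : Fin R → Mˣ) :
    pullAt x F (0 : SF R p q) = 0 := by
  funext δ ε
  unfold pullAt
  exact Finset.sum_eq_zero fun I _ => mul_zero _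

end field

/-! ### restriction of units -/

section

variable {K : Type} [NormedField K] {X : Scheme.{0}} {s : X ⟶ Spec (.of K)}

private lemma CombA_res {U V : X.Opens} (hVU : V ≤ U) (ξ : X) (h : ξ ∈ V) (f : Γ(X, U)) :
    X.evaluation V ξ h (X.presheaf.map (homOfLE hVU).op f) = X.evaluation U ξ (hVU h) f := by
  have e : X.presheaf.map (homOfLE hVU).op ≫ X.evaluation V ξ h = X.evaluation U ξ (hVU h) := by
    rw [← X.germ_residue ξ h, ← X.germ_residue ξ (hVU h), ← Category.assoc,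
      X.presheaf.germ_res (homOfLE hVU) ξ h]
  exact congrArg (fun g => g.hom f) e

/-- restriction of a tuple of units -/
private noncomputable def CombA_ru {U V : X.Opens} (hVU : V ≤ U) {R : ℕ}
    (F : Fin R → (Γ(X, U))ˣ) : Fin R → (Γ(X, V))ˣ :=
  fun i => Units.map (X.presheaf.map (homOfLE hVU).op).hom.toMonoidHom (F i)

private lemma CombA_ru_at (y : An s) {U V : X.Opens} (hVU : V ≤ U) (h : y.1 ∈ V) {R : ℕ}
    (F : Fin R → (Γ(X, U))ˣ) : unitsAt y h (CombA_ru hVU F) = unitsAt y (hVU h) F := by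
  funext i
  apply Units.ext
  exact CombA_res hVU y.1 h _

private lemma CombA_append (y : An s) {U : X.Opens} (h : y.1 ∈ U) {R₁ R₂ : ℕ}
    (F₁ : Fin R₁ → (Γ(X, U))ˣ) (F₂ : Fin R₂ → (Γ(X, U))ˣ) :
    unitsAt y h (Fin.append F₁ F₂) = Fin.append (unitsAt y h F₁) (unitsAt y h F₂) := by
  funext i
  refine Fin.addCases (fun j => ?_) (fun j => ?_) i
  · unfold unitsAt
    rw [Fin.append_left, Fin.append_left]
  · unfold unitsAt
    rw [Fin.append_right, Fin.append_right]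

private lemma CombA_sum {p q : ℕ} (hC : St_CombU) (U₁ U₂ : X.Opens) (R₁ R₂ : ℕ)
    (F₁ : Fin R₁ → (Γ(X, U₁))ˣ) (F₂ : Fin R₂ → (Γ(X, U₂))ˣ) (α₁ : SF R₁ p q) (α₂ : SF R₂ p q)
    (h₁ : α₁.Smooth) (h₂ : α₂.Smooth) :
    ∃ (U : X.Opens) (R : ℕ) (F : Fin R → (Γ(X, U))ˣ) (α : SF R p q), α.Smooth ∧
      ∀ (y : An s) (k₁ : y.1 ∈ U₁) (k₂ : y.1 ∈ U₂), ∃ h : y.1 ∈ U,
        pullA y h F α = pullA y k₁ F₁ α₁ + pullA y k₂ F₂ α₂ ∧
        pullA y h F α.dd = pullA y k₁ F₁ α₁.dd + pullA y k₂ F₂ α₂.dd := by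
  obtain ⟨α, hα, hp⟩ := hC p q R₁ R₂ α₁ α₂ h₁ h₂
  refine ⟨U₁ ⊓ U₂, R₁ + R₂, Fin.append (CombA_ru inf_le_left F₁) (CombA_ru inf_le_right F₂), α,
    hα, fun y k₁ k₂ => ?_⟩
  have k : y.1 ∈ U₁ ⊓ U₂ := ⟨k₁, k₂⟩
  have e1 : unitsAt y k (Fin.append (CombA_ru inf_le_left F₁) (CombA_ru inf_le_right F₂)) =
      Fin.append (unitsAt y k₁ F₁) (unitsAt y k₂ F₂) := by
    rw [CombA_append, CombA_ru_at, CombA_ru_at]
  refine ⟨k, ?_, ?_⟩
  · funext δ ε
    have e2 := (hp K _ (kmap s y.1) y.2 (unitsAt y k₁ F₁) (unitsAt y k₂ F₂)).1 δ ε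
    rw [← e1] at e2
    exact e2
  · funext δ ε
    have e2 := (hp K _ (kmap s y.1) y.2 (unitsAt y k₁ F₁) (unitsAt y k₂ F₂)).2 δ ε
    rw [← e1] at e2
    exact e2

end

/-- **CombA**. The forms on `X^an` form a vector space and `d''` is linear. -/
theorem thm_CombA (hC : St_CombU) : St_CombA := by
  intro K _ X s p q
  refine ⟨?_, ?_, ?_, ?_, ?_, ?_, ?_⟩
  · intro x
    refine ⟨⊤, 0, fun i => i.elim0, 0, CombA_zero, Filter.Eventually.of_forall fun y =>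
      ⟨trivial, ?_⟩⟩
    exact (CombA_at_zero y.2 _).symm
  · intro ω₁ ω₂ h₁ h₂ x
    obtain ⟨U₁, R₁, F₁, α₁, s₁, e₁⟩ := h₁ x
    obtain ⟨U₂, R₂, F₂, α₂, s₂, e₂⟩ := h₂ x
    obtain ⟨U, R, F, α, hs, hp⟩ := CombA_sum (s := s) hC U₁ U₂ R₁ R₂ F₁ F₂ α₁ α₂ s₁ s₂
    refine ⟨U, R, F, α, hs, ?_⟩
    filter_upwards [e₁, e₂] with y ⟨k₁, q₁⟩ ⟨k₂, q₂⟩
    obtain ⟨h, hq, -⟩ := hp y k₁ k₂
    refine ⟨h, ?_⟩
    rw [hq, ← q₁, ← q₂]
    rfl
  · intro c ω h x
    obtain ⟨U, R, F, α, hs, e⟩ := h x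
    refine ⟨U, R, F, fun I t => c • α I t, CombA_smul c hs, ?_⟩
    filter_upwards [e] with y ⟨k, hy⟩
    refine ⟨k, ?_⟩
    have h1 := CombA_at_smul y.2 (unitsAt y k F) c α
    have h2 : (c • ω) y = c • ω y := rfl
    rw [h2, hy]
    exact h1.symm
  · intro x
    refine ⟨⊤, 0, fun i => i.elim0, 0, CombA_zero, Filter.Eventually.of_forall fun y =>
      ⟨trivial, ?_, ?_⟩⟩
    · exact (CombA_at_zero y.2 _).symm
    · rw [CombA_zero_dd]
      exact (CombA_at_zero y.2 _).symm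
  · intro η₁ η₂ ω₁ ω₂ h₁ h₂ x
    obtain ⟨U₁, R₁, F₁, α₁, s₁, e₁⟩ := h₁ x
    obtain ⟨U₂, R₂, F₂, α₂, s₂, e₂⟩ := h₂ x
    obtain ⟨U, R, F, α, hs, hp⟩ := CombA_sum (s := s) hC U₁ U₂ R₁ R₂ F₁ F₂ α₁ α₂ s₁ s₂
    refine ⟨U, R, F, α, hs, ?_⟩
    filter_upwards [e₁, e₂] with y ⟨k₁, q₁, r₁⟩ ⟨k₂, q₂, r₂⟩
    obtain ⟨h, hq, hr⟩ := hp y k₁ k₂
    refine ⟨h, ?_, ?_⟩
    · rw [hq, ← q₁, ← q₂]
      rfl
    · rw [hr, ← r₁, ← r₂]
      rfl
  · intro c η ω h x
    obtain ⟨U, R, F, α, hs, e⟩ := h x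
    refine ⟨U, R, F, fun I t => c • α I t, CombA_smul c hs, ?_⟩
    filter_upwards [e] with y ⟨k, hy, hy'⟩
    refine ⟨k, ?_, ?_⟩
    · have h1 := CombA_at_smul y.2 (unitsAt y k F) c α
      have h2 : (c • η) y = c • η y := rfl
      rw [h2, hy]
      exact h1.symm
    · have h1 := CombA_at_smul y.2 (unitsAt y k F) c α.dd
      have h2 : (c • ω) y = c • ω y := rfl
      rw [h2, hy', CombA_smul_dd]
      exact h1.symm
  · intro η ω h
    constructor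
    · intro x
      obtain ⟨U, R, F, α, hs, e⟩ := h x
      exact ⟨U, R, F, α, hs, e.mono fun y ⟨k, hy, _⟩ => ⟨k, hy⟩⟩
    · intro x
      obtain ⟨U, R, F, α, hs, e⟩ := h x
      exact ⟨U, R, F, α.dd, CombA_dd hs, e.mono fun y ⟨k, _, hy⟩ => ⟨k, hy⟩⟩

end TDC
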