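import Pool.Agent.TDC.StT

/-!
# TDC, module Con: conservation of the number of sheets

`theorem thm_Con : St_EmF → St_EmG → St_Avd → St_Psi → St_Con`.
-/

namespace TDC

open scoped Topology
open MeasureTheory

private theorem Con_const {n : ℕ} (u : (Fin n → ℝ) → ℝ) (hu : Continuous u)
    (𝒢 : Set (Fin n → ℝ)) (h𝒢 : Dense 𝒢) (s₀ : Fin n → ℝ) (δ : ℝ) (hδ : 0 < δ) (V : Set ℝ)
    (hV : V.Finite) (h : ∀ s ∈ 𝒢, s ∈ Metric.ball s₀ δ → u s ∈ V) :
    ∃ C, ∀ s ∈ Metric.ball s₀ δ, u s = C := by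
  have h1 : ∀ s ∈ Metric.ball s₀ δ, u s ∈ V := by
    intro s hs
    have h2 : s ∈ closure (𝒢 ∩ Metric.ball s₀ δ) := by
      have := h𝒢.open_subset_closure_inter Metric.isOpen_ball hs
      rwa [Set.inter_comm] at this
    have h3 : u s ∈ closure (u '' (𝒢 ∩ Metric.ball s₀ δ)) :=
      image_closure_subset_closure_image hu ⟨s, h2, rfl⟩
    have h4 : u '' (𝒢 ∩ Metric.ball s₀ δ) ⊆ V := by
      rintro _ ⟨t, ⟨ht1, ht2⟩, rfl⟩
      exact h t ht1 ht2
    exact (hV.isClosed.closure_subset_iff.2 h4) h3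
  refine ⟨u s₀, fun s hs => ?_⟩
  exact (convex_ball s₀ δ).isPreconnected.constant_of_mapsTo hV.isDiscrete hu.continuousOn h1 hs
    (Metric.mem_ball_self hδ)

private theorem Con_TV {K : Type} [NormedField K] {n : ℕ} (P : MvPolynomial (Fin (n + 1)) K)
    (hP : P ≠ 0) (τ : ℝ) :
    Continuous fun s : Fin n → ℝ => TV P ((0 : Fin (n + 1)).insertNth (α := fun _ => ℝ) τ s) := by
  have h0 : P.support.Nonempty := MvPolynomial.support_nonempty.2 hP
  have : Nonempty P.support := h0.to_subtype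
  have h1 : ∀ s : Fin n → ℝ, TV P ((0 : Fin (n + 1)).insertNth (α := fun _ => ℝ) τ s) =
      (Finset.univ : Finset P.support).sup' Finset.univ_nonempty (fun e =>
        Real.log ‖P.coeff e.1‖ + ∑ j, (e.1 j : ℝ) *
          ((0 : Fin (n + 1)).insertNth (α := fun _ => ℝ) τ s) j) :=
    fun s => (Finset.sup'_univ_eq_ciSup _).symm
  simp_rw [h1]
  apply Continuous.finset_sup'_apply
  intro e _
  refine continuous_const.add (continuous_finsetSum _ fun j _ => continuous_const.mul ?_)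
  refine Fin.cases ?_ (fun j => ?_) j
  · simp only [Fin.insertNth_apply_same]
    exact continuous_const
  · have : ∀ s : Fin n → ℝ, ((0 : Fin (n + 1)).insertNth (α := fun _ => ℝ) τ s) j.succ = s j := by
      intro s
      simp
    simp_rw [this]
    exact continuous_apply j

private theorem Con_slope {ι : Type} (T : Finset ι) (ρ : ι → ℝ) (τ η : ℝ) (hη : 0 < η)
    (h : ∀ i ∈ T, ρ i < τ - η ∨ τ < ρ i) :
    ∑ i ∈ T, max τ (ρ i) - ∑ i ∈ T, max (τ - η) (ρ i) =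
      η * ((T.filter fun i => ρ i < τ).card : ℝ) := by
  classical
  rw [← Finset.sum_sub_distrib, Finset.card_filter, Nat.cast_sum, Finset.mul_sum]
  refine Finset.sum_congr rfl fun i hi => ?_
  rcases h i hi with h | h
  · rw [max_eq_left (by linarith), max_eq_left h.le, if_pos (by linarith)]
    push_cast
    ring
  · rw [max_eq_right h.le, max_eq_right (by linarith), if_neg (by linarith)]
    push_cast
    ring

/-- the number of `σ` with `ρ_σ(s) < τ` is constant -/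
private theorem Con_cnt {K : Type} [NormedField K] {n : ℕ} (P : MvPolynomial (Fin (n + 1)) K)
    (hP : P ≠ 0) {ι : Type} (T : Finset ι) (ρ : (Fin n → ℝ) → ι → ℝ) (κ D : ℝ)
    (𝒢 : Set (Fin n → ℝ)) (h𝒢 : Dense 𝒢)
    (hPsi : ∀ s ∈ 𝒢, ∃ C : ℝ, ∀ τ : ℝ, C + κ * ∑ i ∈ T, max τ (ρ s i) =
      D * TV P ((0 : Fin (n + 1)).insertNth (α := fun _ => ℝ) τ s))
    (s₀ : Fin n → ℝ) (δ : ℝ) (hδ : 0 < δ) (τ η : ℝ) (hη : 0 < η)
    (h : ∀ s ∈ 𝒢, s ∈ Metric.ball s₀ δ → ∀ i ∈ T, ρ s i < τ - η ∨ τ < ρ s i) :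
    ∃ C, ∀ s ∈ 𝒢, s ∈ Metric.ball s₀ δ →
      κ * ((T.filter fun i => ρ s i < τ).card : ℝ) = C := by
  classical
  set u : (Fin n → ℝ) → ℝ := fun s =>
    (D / η) * (TV P ((0 : Fin (n + 1)).insertNth (α := fun _ => ℝ) τ s) -
      TV P ((0 : Fin (n + 1)).insertNth (α := fun _ => ℝ) (τ - η) s)) with hu
  have huc : Continuous u := continuous_const.mul ((Con_TV P hP τ).sub (Con_TV P hP (τ - η)))
  have hval : ∀ s ∈ 𝒢, s ∈ Metric.ball s₀ δ →
      κ * ((T.filter fun i => ρ s i < τ).card : ℝ) = u s := by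
    intro s hs hsB
    obtain ⟨C, hC⟩ := hPsi s hs
    have h1 := hC τ
    have h2 := hC (τ - η)
    have h3 := Con_slope T (ρ s) τ η hη (h s hs hsB)
    simp only [hu]
    have h4 : D * (TV P ((0 : Fin (n + 1)).insertNth (α := fun _ => ℝ) τ s) -
      TV P ((0 : Fin (n + 1)).insertNth (α := fun _ => ℝ) (τ - η) s)) =
        κ * (η * ((T.filter fun i => ρ s i < τ).card : ℝ)) := by
      rw [← h3, mul_sub, ← h1, ← h2]
      ring
    rw [div_mul_eq_mul_div, h4]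
    field_simp
  obtain ⟨C, hC⟩ := Con_const u huc 𝒢 h𝒢 s₀ δ hδ
    ((fun j : ℕ => κ * (j : ℝ)) '' (Set.Iic T.card)) ((Set.finite_Iic _).image _) (by
      intro s hs hsB
      rw [← hval s hs hsB]
      exact ⟨_, Finset.card_filter_le _ _, rfl⟩)
  exact ⟨C, fun s hs hsB => by rw [hval s hs hsB, hC s hsB]⟩

private theorem Con_logh {K L : Type} [NormedField K] [Field L] [Algebra K L] {R : ℕ}
    (F : Fin R → Lˣ) (b : Fin R → ℤ) (σ : L →ₐ[K] AlgebraicClosure L)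
    (x : Pt (algebraMap K (AlgebraicClosure L))) :
    Real.log (x.v (σ ((∏ i, F i ^ b i : Lˣ) : L))) =
      ∑ i, (b i : ℝ) * logv (pb σ x) F i := by
  have h1 : ((∏ i, F i ^ b i : Lˣ) : L) = ∏ i, (F i : L) ^ b i := by
    push_cast
    rfl
  rw [h1, map_prod, map_prod, Real.log_prod]
  · refine Finset.sum_congr rfl fun i _ => ?_
    rw [map_zpow₀, map_zpow₀, Real.log_zpow]
    rfl
  · intro i _
    rw [map_zpow₀, map_zpow₀]
    refine zpow_ne_zero _ ?_
    rw [(AbsoluteValue.ne_zero_iff _), map_ne_zero]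
    exact (F i).ne_zero

theorem thm_Con : St_EmF → St_EmG → St_Avd → St_Psi → St_Con := by
  classical
  intro hEmF hEmG hAvd hPsi K L _ _ _ n R hTr hFG g F 𝒢 X 𝒦 h𝒢 hOv hK s₀ p₀
  obtain ⟨s₁, hs₁⟩ := h𝒢.nonempty
  have hind : AlgebraicIndependent K (fun i => (g i : L)) :=
    hEmG.2.1 K L n g _ (hOv s₁ hs₁).1
  obtain ⟨-, hfin, hne, hdg⟩ := hEmF K L n hTr hFG g hind
  -- the integer vector
  let φ : Matrix (Fin R) (Fin n) ℝ × (Fin R → ℝ) → ((Fin R → ℤ) →+ ℝ) := fun k =>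
    { toFun := fun b => ∑ i, (b i : ℝ) * (af k s₀ i - p₀ i)
      map_zero' := by simp
      map_add' := fun a b => by
        simp only [Pi.add_apply, Int.cast_add, add_mul, Finset.sum_add_distrib] }
  have hφ : ∀ k b, φ k b = ∑ i, (b i : ℝ) * (af k s₀ i - p₀ i) := fun k b => rfl
  obtain ⟨b, hb⟩ := hAvd (Fin R → ℤ) (φ '' {k | k ∈ 𝒦 ∧ af k s₀ ≠ p₀})
    ((𝒦.finite_toSet.subset fun k hk => hk.1).image _) (by
      rintro _ ⟨k, ⟨-, hk⟩, rfl⟩ h0
      apply hk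
      funext i
      have h1 : φ k (Pi.single i 1) = 0 := by rw [h0]; rfl
      rw [hφ, Finset.sum_eq_single i] at h1
      · simp only [Pi.single_eq_same, Int.cast_one, one_mul] at h1
        linarith
      · intro j _ hj
        rw [Pi.single_eq_of_ne hj]
        simp
      · intro h
        exact absurd (Finset.mem_univ i) h)
  set β : (Fin R → ℝ) → ℝ := fun q => ∑ i, (b i : ℝ) * q i with hβ
  have hβc : Continuous β := by
    refine continuous_finsetSum _ fun j _ => continuous_const.mul (continuous_apply j)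
  have hafc : ∀ k : Matrix (Fin R) (Fin n) ℝ × (Fin R → ℝ), Continuous (af k) := by
    intro k
    exact continuous_const.add (Continuous.matrix_mulVec continuous_const continuous_id)
  have hgap : ∀ k ∈ 𝒦, af k s₀ ≠ p₀ → β (af k s₀) ≠ β p₀ := by
    intro k hk hne h
    refine hb _ ⟨k, ⟨hk, hne⟩, rfl⟩ ?_
    rw [hφ]
    have : β (af k s₀) - β p₀ = 0 := sub_eq_zero.2 h
    rw [← this]
    simp only [hβ, mul_sub, Finset.sum_sub_distrib]
  -- the gap
  obtain ⟨ε, hε, hgap2⟩ : ∃ ε : ℝ, 0 < ε ∧ ∀ k ∈ 𝒦, af k s₀ ≠ p₀ →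
      2 * ε ≤ |β (af k s₀) - β p₀| := by
    rcases (𝒦.filter fun k => af k s₀ ≠ p₀).eq_empty_or_nonempty with h0 | h0
    · refine ⟨1, one_pos, fun k hk hne => ?_⟩
      have : k ∈ 𝒦.filter fun k => af k s₀ ≠ p₀ := Finset.mem_filter.2 ⟨hk, hne⟩
      rw [h0] at this
      exact absurd this (Finset.notMem_empty _)
    · obtain ⟨k₀, hk₀, hmin⟩ := Finset.exists_min_image _
        (fun k => |β (af k s₀) - β p₀|) h0
      have hk₀' := Finset.mem_filter.1 hk₀
      refine ⟨|β (af k₀ s₀) - β p₀| / 2, half_pos (abs_pos.2 (sub_ne_zero.2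
        (hgap k₀ hk₀'.1 hk₀'.2))), fun k hk hne => ?_⟩
      have := hmin k (Finset.mem_filter.2 ⟨hk, hne⟩)
      linarith
  -- the radius
  obtain ⟨δ, hδ, hδ2⟩ : ∃ δ : ℝ, 0 < δ ∧ ∀ s ∈ Metric.ball s₀ δ, ∀ k ∈ 𝒦,
      |β (af k s) - β (af k s₀)| < ε / 2 := by
    have h1 : ∀ᶠ s in 𝓝 s₀, ∀ k ∈ 𝒦, |β (af k s) - β (af k s₀)| < ε / 2 := by
      rw [Filter.eventually_all_finset]
      intro k _
      have h2 : Filter.Tendsto (fun s => |β (af k s) - β (af k s₀)|) (𝓝 s₀) (𝓝 0) := by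
        have h3 : Continuous fun s => |β (af k s) - β (af k s₀)| :=
          ((hβc.comp (hafc k)).sub continuous_const).abs
        have h4 := h3.tendsto s₀
        simpa using h4
      exact h2.eventually (gt_mem_nhds (half_pos hε))
    obtain ⟨δ, hδ, h2⟩ := Metric.eventually_nhds_iff_ball.1 h1
    exact ⟨δ, hδ, h2⟩
  -- the element `h`
  obtain ⟨P, D, hP, hD, hfor⟩ := hPsi K L n hTr hFG
    ((0 : Fin (n + 1)).insertNth (α := fun _ => Lˣ) (∏ i, F i ^ b i) g)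
  set T : Finset (L →ₐ[K] AlgebraicClosure L) := hfin.toFinset with hT
  have hmT : ∀ σ, σ ∈ T ↔ σ ∈ Emb K g := fun σ => hfin.mem_toFinset
  set ρ : (Fin n → ℝ) → (L →ₐ[K] AlgebraicClosure L) → ℝ :=
    fun s σ => β (logv (pb σ (X s)) F) with hρ
  have hcomp : ((0 : Fin (n + 1)).insertNth (α := fun _ => Lˣ) (∏ i, F i ^ b i) g) ∘
      (0 : Fin (n + 1)).succAbove = g := by
    funext i
    simp
  set κ : ℝ := dg K g / ((Emb K g).ncard : ℝ) with hκ
  have hPs : ∀ s ∈ 𝒢, ∃ C : ℝ, ∀ τ : ℝ, C + κ * ∑ i ∈ T, max τ (ρ s i) =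
      D * TV P ((0 : Fin (n + 1)).insertNth (α := fun _ => ℝ) τ s) := by
    intro s hs
    have h0 := hfor 0 s (X s) (by rw [hcomp]; exact hOv s hs)
    rw [hcomp] at h0
    obtain ⟨C, hC⟩ := h0
    refine ⟨C, fun τ => ?_⟩
    rw [← hC τ, finsum_mem_eq_finite_toFinset_sum _ hfin]
    congr 2
    refine Finset.sum_congr rfl fun σ _ => ?_
    congr 1
    rw [Fin.insertNth_apply_same, Con_logh F b σ (X s)]
  have hρaf : ∀ s ∈ 𝒢, ∀ σ ∈ T, ∃ k ∈ 𝒦, logv (pb σ (X s)) F = af k s ∧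
      ρ s σ = β (af k s) := by
    intro s hs σ hσ
    obtain ⟨k, hk, hks⟩ := hK s hs σ ((hmT σ).1 hσ)
    exact ⟨k, hk, hks, by simp only [hρ, hks]⟩
  -- the position of the values
  have hpos : ∀ s ∈ Metric.ball s₀ δ, ∀ k ∈ 𝒦,
      (af k s₀ = p₀ → |β (af k s) - β p₀| < ε / 2) ∧
      (af k s₀ ≠ p₀ → β (af k s) < β p₀ - 3 / 2 * ε ∨ β p₀ + 3 / 2 * ε < β (af k s)) := by
    intro s hs k hk
    have h1 := hδ2 s hs k hk
    refine ⟨fun h => by rwa [h] at h1, fun h => ?_⟩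
    have h2 := hgap2 k hk h
    rw [abs_lt] at h1
    rcases le_abs.1 h2 with h3 | h3
    · right
      linarith [h1.1]
    · left
      linarith [h1.2]
  obtain ⟨C₁, hC₁⟩ := Con_cnt P hP T ρ κ D 𝒢 h𝒢 hPs s₀ δ hδ (β p₀ + ε) (ε / 4) (by positivity) (by
    intro s hs hsB σ hσ
    obtain ⟨k, hk, -, hks⟩ := hρaf s hs σ hσ
    obtain ⟨h1, h2⟩ := hpos s hsB k hk
    rw [hks]
    by_cases h : af k s₀ = p₀
    · have := abs_lt.1 (h1 h)
      left
      linarith [this.2]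
    · rcases h2 h with h3 | h3
      · left
        linarith
      · right
        linarith)
  obtain ⟨C₂, hC₂⟩ := Con_cnt P hP T ρ κ D 𝒢 h𝒢 hPs s₀ δ hδ (β p₀ - ε) (ε / 4) (by positivity) (by
    intro s hs hsB σ hσ
    obtain ⟨k, hk, -, hks⟩ := hρaf s hs σ hσ
    obtain ⟨h1, h2⟩ := hpos s hsB k hk
    rw [hks]
    by_cases h : af k s₀ = p₀
    · have := abs_lt.1 (h1 h)
      right
      linarith [this.1]
    · rcases h2 h with h3 | h3
      · left
        linarith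
      · right
        linarith)
  refine ⟨δ, hδ, C₁ - C₂, fun s hs hsB => ?_⟩
  rw [← hC₁ s hs hsB, ← hC₂ s hs hsB]
  have hset : Emb K g ∩ {σ | ∃ k ∈ 𝒦, af k s₀ = p₀ ∧ logv (pb σ (X s)) F = af k s} =
      ((T.filter fun σ => ρ s σ < β p₀ + ε) \ (T.filter fun σ => ρ s σ < β p₀ - ε) :
        Finset (L →ₐ[K] AlgebraicClosure L)) := by
    ext σ
    simp only [Set.mem_inter_iff, Set.mem_ofPred_eq, Finset.coe_sdiff, Finset.coe_filter,
      Set.mem_sdiff, not_and, not_lt, hmT]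
    constructor
    · rintro ⟨hσ, k, hk, hk0, hks⟩
      have h1 := abs_lt.1 ((hpos s hsB k hk).1 hk0)
      have h2 : ρ s σ = β (af k s) := by simp only [hρ, hks]
      rw [h2]
      exact ⟨⟨hσ, by linarith [h1.2]⟩, fun _ => by linarith [h1.1]⟩
    · rintro ⟨⟨hσ, h1⟩, h2⟩
      have h2 := h2 hσ
      obtain ⟨k, hk, hks, hk2⟩ := hρaf s hs σ ((hmT σ).2 hσ)
      refine ⟨hσ, k, hk, ?_, hks⟩
      by_contra h
      rw [hk2] at h1 h2
      rcases (hpos s hsB k hk).2 h with h3 | h3 <;> linarith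
  have hsub : (T.filter fun σ => ρ s σ < β p₀ - ε) ⊆ T.filter fun σ => ρ s σ < β p₀ + ε := by
    intro σ hσ
    rw [Finset.mem_filter] at hσ ⊢
    exact ⟨hσ.1, by linarith [hσ.2]⟩
  unfold wtS
  rw [hset, Set.ncard_coe_finset, Finset.card_sdiff_of_subset hsub,
    Nat.cast_sub (Finset.card_le_card hsub), hκ]
  ring

end TDC
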