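import Pool.Agent.TDC.StT

/-!
# TDC, module Cpo: comparison of the weights of a position (helper5)
-/

set_option autoImplicit false

namespace TDC

open scoped Topology

private theorem Cpo_card {α β : Type} (E : Set α) (hE : E.Finite) (f : α → β) (P : β → Prop)
    (Y : Finset β) (h1 : ∀ y ∈ Y, P y) (h2 : ∀ σ ∈ E, P (f σ) → f σ ∈ Y) :
    (E ∩ {σ | P (f σ)}).ncard = ∑ y ∈ Y, (E ∩ {σ | f σ = y}).ncard := by
  classical
  obtain ⟨E', rfl⟩ := hE.exists_finset_coe
  have e1 : ((E' : Set α) ∩ {σ | P (f σ)}) = ((E'.filter fun σ => P (f σ) : Finset α) : Set α) := by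
    ext σ
    simp
  have e2 : ∀ y : β, ((E' : Set α) ∩ {σ | f σ = y}) =
      ((E'.filter fun σ => f σ = y : Finset α) : Set α) := by
    intro y
    ext σ
    simp
  rw [e1, Set.ncard_coe_finset]
  rw [Finset.card_eq_sum_card_fiberwise (f := f) (t := Y)]
  · refine Finset.sum_congr rfl fun y hy => ?_
    rw [e2, Set.ncard_coe_finset, Finset.filter_filter]
    congr 1
    refine Finset.filter_congr fun σ _ => ?_
    constructor
    · exact fun h => h.2
    · exact fun h => ⟨h ▸ h1 y hy, h⟩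
  · intro σ hσ
    have hσ' := Finset.mem_filter.1 (Finset.mem_coe.1 hσ)
    exact h2 σ hσ'.1 hσ'.2

private theorem Cpo_wt {K L : Type} [NormedField K] [Field L] [Algebra K L] {n R : ℕ}
    (g : Fin n → Lˣ) (F : Fin R → Lˣ) (p : Fin R → ℝ)
    (x : Pt (algebraMap K (AlgebraicClosure L))) (hE : (Emb K g).Finite)
    (Y : Finset (Pt (algebraMap K L))) (h1 : ∀ y ∈ Y, logv y F = p)
    (h2 : ∀ σ ∈ Emb K g, logv (pb σ x) F = p → pb σ x ∈ Y) :
    wtS K g {σ | logv (pb σ x) F = p} = ∑ y ∈ Y, wt g x y := by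
  unfold wt wtS
  rw [Cpo_card (Emb K g) hE (fun σ => pb σ x) (fun y => logv y F = p) Y h1 h2]
  rw [Nat.cast_sum, Finset.sum_div, Finset.mul_sum]

private theorem Cpo_ind {K L : Type} [NormedField K] [Field L] [Algebra K L] (hEmG : St_EmG)
    {n R : ℕ} (F : Fin R → Lˣ) (I : Fin n → Fin R) (p : Fin R → ℝ) (hI : Generic K (p ∘ I))
    (y : Pt (algebraMap K L)) (hy : logv y F = p) : Indep y (F ∘ I) := by
  refine (hEmG.2.2 K L n (F ∘ I) y).2 ?_
  have : logv y (F ∘ I) = p ∘ I := by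
    rw [← hy]
    rfl
  rw [this]
  exact hI

private theorem Cpo_none {K L : Type} [NontriviallyNormedField K] [IsUltrametricDist K] [Field L]
    [Algebra K L] (hEmG : St_EmG) (hGEx : St_GEx) (hIndG : St_IndG)
    {n R : ℕ} (hT : TrLe K L n) (F : Fin R → Lˣ) (I : Fin n → Fin R) (p : Fin R → ℝ)
    (hI : Generic K (p ∘ I))
    (hn : ¬ ∃ x : Pt (algebraMap K (AlgebraicClosure L)), Ov (F ∘ I) (p ∘ I) x)
    (y : Pt (algebraMap K L)) (hy : logv y F = p) : False := by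
  have h1 := Cpo_ind hEmG F I p hI y hy
  have h2 := hEmG.2.1 K L n (F ∘ I) y (hIndG K L (algebraMap K L) n y (F ∘ I) h1)
  exact hn (hGEx K L n hT (F ∘ I) h2 (p ∘ I) hI)

private theorem Cpo_zero {K L : Type} [NormedField K] [Field L] [Algebra K L] {n R : ℕ}
    (g : Fin n → Lˣ) (F : Fin R → Lˣ) (s : Fin n → ℝ) (p : Fin R → ℝ)
    (h : ∀ y : Pt (algebraMap K L), logv y F = p → False) : cw K g F s p = 0 := by
  unfold cw
  split_ifs with hx
  · have : {σ : L →ₐ[K] AlgebraicClosure L | logv (pb σ hx.choose) F = p} = ∅ := by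
      rw [Set.eq_empty_iff_forall_notMem]
      exact fun σ hσ => h _ hσ
    rw [this]
    unfold wtS
    simp
  · rfl

theorem thm_Cpo : St_EmF → St_EmG → St_GEx → St_IndG → St_Tng → St_Cmp → St_Cpo := by
  classical
  intro hEmF hEmG hGEx hIndG hTng hCmp K L _ _ _ _ n R hn hT hFG F I J p r hI hJ hdet
  by_cases hxI : ∃ x : Pt (algebraMap K (AlgebraicClosure L)), Ov (F ∘ I) (p ∘ I) x
  swap
  · have h0 := Cpo_none hEmG hGEx hIndG hT F I p hI hxI
    rw [Cpo_zero _ F _ p h0, Cpo_zero _ F _ p h0, mul_zero]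
  by_cases hxJ : ∃ x : Pt (algebraMap K (AlgebraicClosure L)), Ov (F ∘ J) (p ∘ J) x
  swap
  · have h0 := Cpo_none hEmG hGEx hIndG hT F J p hJ hxJ
    rw [Cpo_zero _ F _ p h0, Cpo_zero _ F _ p h0, mul_zero]
  have cI : cw K (F ∘ I) F (p ∘ I) p =
      wtS K (F ∘ I) {σ | logv (pb σ hxI.choose) F = p} := by
    unfold cw
    rw [dif_pos hxI]
  have cJ : cw K (F ∘ J) F (p ∘ J) p =
      wtS K (F ∘ J) {σ | logv (pb σ hxJ.choose) F = p} := by
    unfold cw
    rw [dif_pos hxJ]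
  rw [cI, cJ]
  have hx := hxI.choose_spec
  have hx' := hxJ.choose_spec
  set x := hxI.choose with hxdef
  set x' := hxJ.choose with hxdef'
  have fI : (Emb K (F ∘ I)).Finite :=
    (hEmF K L n hT hFG (F ∘ I) (hEmG.2.1 K L n (F ∘ I) _ hx.1)).2.1
  have fJ : (Emb K (F ∘ J)).Finite :=
    (hEmF K L n hT hFG (F ∘ J) (hEmG.2.1 K L n (F ∘ J) _ hx'.1)).2.1
  set Y : Finset (Pt (algebraMap K L)) :=
    ((fI.toFinset.image fun σ => pb σ x) ∪ (fJ.toFinset.image fun σ => pb σ x')).filter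
      fun y => logv y F = p with hY
  have hY1 : ∀ y ∈ Y, logv y F = p := fun y hy => (Finset.mem_filter.1 hy).2
  rw [Cpo_wt (F ∘ I) F p x fI Y hY1, Cpo_wt (F ∘ J) F p x' fJ Y hY1, Finset.mul_sum]
  · refine Finset.sum_congr rfl fun y hy => ?_
    have hyp := hY1 y hy
    have iI := Cpo_ind hEmG F I p hI y hyp
    have iJ := Cpo_ind hEmG F J p hJ y hyp
    have lI : logv y (F ∘ I) = p ∘ I := by rw [← hyp]; rfl
    have lJ : logv y (F ∘ J) = p ∘ J := by rw [← hyp]; rfl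
    have ht := (hTng K L n hT y (F ∘ I) iI).1
    choose δ hδ using fun a : Fin n => ht (Pi.single a 1)
    have h1 := hCmp K L n hn hT hFG (F ∘ I) (F ∘ J) y iI iJ x x' (by rw [lI]; exact hx)
      (by rw [lJ]; exact hx') δ
    rw [hdet y hyp δ] at h1
    have h2 : (Matrix.of fun a b => ev (F ∘ I) (δ a) b) = (1 : Matrix (Fin n) (Fin n) ℝ) := by
      ext a b
      rw [Matrix.of_apply, hδ a, Matrix.one_apply, Pi.single_apply]
      simp only [eq_comm]
    rw [h2, Matrix.det_one, mul_one, abs_one, mul_one] at h1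
    rw [← h1]
    ring
  · intro σ hσ hp
    rw [hY, Finset.mem_filter]
    exact ⟨Finset.mem_union_right _ (Finset.mem_image.2 ⟨σ, fJ.mem_toFinset.2 hσ, rfl⟩), hp⟩
  · intro σ hσ hp
    rw [hY, Finset.mem_filter]
    exact ⟨Finset.mem_union_left _ (Finset.mem_image.2 ⟨σ, fI.mem_toFinset.2 hσ, rfl⟩), hp⟩

end TDC
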