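import Pool.Agent.TDC.St

/-! TDC, module DetZ (helper30): dependent values kill the determinants of tangent vectors. -/

set_option autoImplicit false

namespace TDC

theorem thm_DetZ : St_DetZ := by
  intro K M _ _ φ n x g hI δ
  unfold Indep at hI
  push Not at hI
  obtain ⟨k, ha, hk⟩ := hI
  refine Matrix.exists_mulVec_eq_zero_iff.1 ⟨fun j => (k j : ℝ), ?_, ?_⟩
  · intro h
    apply hk
    funext j
    have := congrFun h j
    simpa using this
  · funext i
    have h0 := (δ i).2 (∏ j, g j ^ k j) ha
    have h1 : (δ i).1 (Additive.ofMul (∏ j, g j ^ k j))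
        = ∑ j, (k j : ℝ) * (δ i).1 (Additive.ofMul (g j)) := by
      rw [ofMul_prod, map_sum]
      refine Finset.sum_congr rfl fun j _ => ?_
      rw [ofMul_zpow, map_zsmul, zsmul_eq_mul]
    rw [h1] at h0
    rw [Pi.zero_apply, ← h0]
    show ∑ j, ev g (δ i) j * (k j : ℝ) = _
    refine Finset.sum_congr rfl fun j _ => ?_
    rw [mul_comm]
    rfl

end TDC
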