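import Pool.Agent.TDC.St

set_option autoImplicit false

/-!
# Div: a smooth compactly supported function in a box with integral 0 is a divergence
-/

namespace TDC

open MeasureTheory

/-- smoothness of the convolution with a parameter -/
private theorem Div_conv {n : ℕ} (f : ℝ → ℝ) (hf : LocallyIntegrable f volume)
    (g : (Fin n → ℝ) × ℝ → ℝ) (hg : ContDiff ℝ (⊤ : ℕ∞) g) (k : Set ℝ) (hk : IsCompact k)
    (hgk : ∀ p x, x ∉ k → g (p, x) = 0) :
    ContDiff ℝ (⊤ : ℕ∞) (fun q : (Fin n → ℝ) × ℝ => ∫ t, f t * g (q.1, q.2 - t)) := by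
  have h := contDiffOn_convolution_right_with_param (𝕜 := ℝ) (μ := (volume : Measure ℝ))
    (n := (⊤ : ℕ∞)) (ContinuousLinearMap.mul ℝ ℝ) (g := fun p x => g (p, x)) (s := Set.univ)
    isOpen_univ hk (fun p x _ hx => hgk p x hx) hf hg.contDiffOn
  rw [Set.univ_prod_univ, contDiffOn_univ] at h
  exact h

private theorem Div_SC {n : ℕ} {f : (Fin n → ℝ) → ℝ} {S K : Set (Fin n → ℝ)}
    (hf : ContDiff ℝ (⊤ : ℕ∞) f) (hK : IsCompact K) (hKS : K ⊆ S) (h : ∀ u, u ∉ K → f u = 0) :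
    SC f S := by
  have hsub : tsupport f ⊆ K := by
    refine closure_minimal ?_ hK.isClosed
    intro u hu
    by_contra h'
    exact hu (h u h')
  exact ⟨hf, HasCompactSupport.intro hK fun u hu => h u hu, hsub.trans hKS⟩

private theorem Div_tail (n : ℕ) : ContDiff ℝ (⊤ : ℕ∞) (fun u : Fin (n + 1) → ℝ => Fin.tail u) := by
  rw [contDiff_pi]
  intro i
  exact contDiff_apply ℝ ℝ i.succ

private theorem Div_split (n : ℕ) :
    ContDiff ℝ (⊤ : ℕ∞) (fun u : Fin (n + 1) → ℝ => (Fin.tail u, u 0)) :=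
  (Div_tail n).prodMk (contDiff_apply ℝ ℝ 0)

private theorem Div_cons (n : ℕ) : ContDiff ℝ (⊤ : ℕ∞)
    (fun q : (Fin n → ℝ) × ℝ => (Fin.cons q.2 q.1 : Fin (n + 1) → ℝ)) := by
  rw [contDiff_pi]
  intro i
  refine Fin.cases ?_ (fun j => ?_) i
  · exact contDiff_snd
  · exact (contDiff_apply ℝ ℝ j).comp contDiff_fst

private theorem Div_fub {n : ℕ} {b : (Fin (n + 1) → ℝ) → ℝ} (hb : Integrable b) :
    ∫ u, b u = ∫ p : Fin n → ℝ, ∫ t : ℝ, b (Fin.cons t p) := by
  have hmp := volume_preserving_piFinSuccAbove (fun _ : Fin (n + 1) => ℝ) 0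
  have hmp' := hmp.symm
  have h1 : ∫ u, b u = ∫ q : ℝ × (Fin n → ℝ),
      b ((MeasurableEquiv.piFinSuccAbove (fun _ : Fin (n + 1) => ℝ) 0).symm q) := by
    rw [hmp'.integral_comp']
  have h2 : Integrable (fun q : ℝ × (Fin n → ℝ) =>
      b ((MeasurableEquiv.piFinSuccAbove (fun _ : Fin (n + 1) => ℝ) 0).symm q)) := by
    exact (hmp'.integrable_comp_emb (MeasurableEquiv.measurableEmbedding _)).mpr hb
  rw [h1]
  have h3 := integral_prod_symm (μ := (volume : Measure ℝ)) (ν := (volume : Measure (Fin n → ℝ)))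
    (fun q : ℝ × (Fin n → ℝ) =>
      b ((MeasurableEquiv.piFinSuccAbove (fun _ : Fin (n + 1) => ℝ) 0).symm q)) h2
  have h4 : ∀ (t : ℝ) (p : Fin n → ℝ),
      (MeasurableEquiv.piFinSuccAbove (fun _ : Fin (n + 1) => ℝ) 0).symm (t, p) =
        Fin.cons t p := by
    intro t p
    rw [← Fin.insertNth_zero']
    rfl
  refine h3.trans ?_
  simp only [h4]

/-- the function `1` on the positive half line -/
private noncomputable def Div_H : ℝ → ℝ := (Set.Ioi (0 : ℝ)).indicator 1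

private theorem Div_HL : LocallyIntegrable Div_H volume :=
  (locallyIntegrable_const (1 : ℝ)).indicator measurableSet_Ioi

private theorem Div_Iic (g : ℝ → ℝ) (τ : ℝ) :
    ∫ t, Div_H t * g (τ - t) = ∫ s in Set.Iic τ, g s := by
  have h1 := integral_sub_left_eq_self (fun s => Div_H (τ - s) * g s) volume τ
  have h2 : ∀ t : ℝ, Div_H (τ - (τ - t)) * g (τ - t) = Div_H t * g (τ - t) := by
    intro t
    rw [sub_sub_cancel]
  simp only [h2] at h1
  rw [h1, integral_Iic_eq_integral_Iio, ← integral_indicator measurableSet_Iio]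
  congr 1
  funext s
  unfold Div_H
  by_cases hs : s < τ
  · rw [Set.indicator_of_mem (show τ - s ∈ Set.Ioi (0 : ℝ) from sub_pos.mpr hs),
      Set.indicator_of_mem (show s ∈ Set.Iio τ from hs)]
    simp
  · rw [Set.indicator_of_notMem (show τ - s ∉ Set.Ioi (0 : ℝ) from fun h => hs (sub_pos.mp h)),
      Set.indicator_of_notMem (show s ∉ Set.Iio τ from hs)]
    simp

private theorem Div_deriv {g : ℝ → ℝ} (hg : Continuous g) (a : ℝ) (ha : ∀ s, s ≤ a → g s = 0)
    (hi : Integrable g) (τ : ℝ) :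
    HasDerivAt (fun t => ∫ s in Set.Iic t, g s) (g τ) τ := by
  have h1 : (fun t => ∫ s in Set.Iic t, g s) = fun t => ∫ s in a..t, g s := by
    funext t
    have h2 := intervalIntegral.integral_Iic_sub_Iic (μ := volume) (f := g) (a := a) (b := t)
      hi.integrableOn hi.integrableOn
    have h3 : ∫ s in Set.Iic a, g s = 0 := setIntegral_eq_zero_of_forall_eq_zero fun s hs => ha s hs
    rw [h3, sub_zero] at h2
    exact h2
  rw [h1]
  exact intervalIntegral.integral_hasDerivAt_right (hg.intervalIntegrable _ _)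
    (hg.stronglyMeasurableAtFilter _ _) hg.continuousAt

private theorem Div_line {n : ℕ} {f : (Fin n → ℝ) → ℝ} (hf : ContDiff ℝ (⊤ : ℕ∞) f)
    (u v : Fin n → ℝ) {d : ℝ} (h : HasDerivAt (fun t : ℝ => f (u + t • v)) d 0) :
    fderiv ℝ f u v = d := by
  have h1 : DifferentiableAt ℝ f u := (hf.differentiable (by simp)).differentiableAt
  rw [← h1.lineDeriv_eq_fderiv]
  exact h.deriv

private theorem Div_bump {l h : ℝ} (hlh : l < h) : ∃ (θ : ℝ → ℝ) (K : Set ℝ),
    ContDiff ℝ (⊤ : ℕ∞) θ ∧ ∫ t, θ t = 1 ∧ IsCompact K ∧ K ⊆ Set.Ioo l h ∧ K.Nonempty ∧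
      ∀ t, t ∉ K → θ t = 0 := by
  let f : ContDiffBump ((l + h) / 2 : ℝ) := ⟨(h - l) / 8, (h - l) / 4, by linarith, by linarith⟩
  refine ⟨f.normed volume, Metric.closedBall ((l + h) / 2) ((h - l) / 4), f.contDiff_normed,
    f.integral_normed, isCompact_closedBall _ _, ?_, ⟨_, Metric.mem_closedBall_self (by linarith)⟩,
    ?_⟩
  · rw [Real.closedBall_eq_Icc]
    intro t ht
    exact ⟨by linarith [ht.1], by linarith [ht.2]⟩
  · intro t ht
    have h1 := f.tsupport_normed_eq (μ := (volume : Measure ℝ))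
    have h2 : t ∉ tsupport (f.normed (volume : Measure ℝ)) := by
      rw [h1]
      exact ht
    exact image_eq_zero_of_notMem_tsupport h2

private theorem Div_step {n : ℕ} (lo hi : Fin (n + 1) → ℝ)
    (ih : ∀ b : (Fin n → ℝ) → ℝ, SC b (box (Fin.tail lo) (Fin.tail hi)) → ∫ u, b u = 0 →
      ∃ c : Fin n → (Fin n → ℝ) → ℝ, (∀ j, SC (c j) (box (Fin.tail lo) (Fin.tail hi))) ∧
        ∀ u, b u = ∑ j, fderiv ℝ (c j) u (Pi.single j 1))
    (hlh : lo 0 < hi 0) (b : (Fin (n + 1) → ℝ) → ℝ) (hb : SC b (box lo hi))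
    (hb0 : ∫ u, b u = 0) :
    ∃ c : Fin (n + 1) → (Fin (n + 1) → ℝ) → ℝ, (∀ j, SC (c j) (box lo hi)) ∧
      ∀ u, b u = ∑ j, fderiv ℝ (c j) u (Pi.single j 1) := by
  obtain ⟨hbs, hbc, hbt⟩ := hb
  have hbint : Integrable b := hbs.continuous.integrable_of_hasCompactSupport hbc
  have hbz : ∀ u, u ∉ tsupport b → b u = 0 := fun u hu => image_eq_zero_of_notMem_tsupport hu
  obtain ⟨θ, Kθ, hθs, hθ1, hKθ, hKθ2, hKθ3, hθ0⟩ := Div_bump hlh
  -- the compact sets
  obtain ⟨K', hK'⟩ : ∃ K', K' = Fin.tail '' (tsupport b) := ⟨_, rfl⟩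
  have hK'c : IsCompact K' := by
    rw [hK']
    exact IsCompact.image hbc (Div_tail n).continuous
  have hK'b : K' ⊆ box (Fin.tail lo) (Fin.tail hi) := by
    rw [hK']
    rintro _ ⟨u, hu, rfl⟩ i _
    exact hbt hu i.succ (Set.mem_univ _)
  obtain ⟨K0, hK0⟩ : ∃ K0, K0 = (fun u : Fin (n + 1) → ℝ => u 0) '' (tsupport b) ∪ Kθ := ⟨_, rfl⟩
  have hK0c : IsCompact K0 := by
    rw [hK0]
    exact (IsCompact.image hbc (continuous_apply 0)).union hKθ
  have hK0b : K0 ⊆ Set.Ioo (lo 0) (hi 0) := by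
    rw [hK0]
    rintro t (⟨u, hu, rfl⟩ | ht)
    · exact hbt hu 0 (Set.mem_univ _)
    · exact hKθ2 ht
  have hK0n : K0.Nonempty := by
    rw [hK0]
    exact hKθ3.mono Set.subset_union_right
  obtain ⟨x0, hx0⟩ := hK0c.exists_isLeast hK0n
  obtain ⟨x1, hx1⟩ := hK0c.exists_isGreatest hK0n
  have hx0b := hK0b hx0.1
  have hx1b := hK0b hx1.1
  -- the fibre integral
  obtain ⟨m, hm⟩ : ∃ m : (Fin n → ℝ) → ℝ, m = fun p => ∫ t, b (Fin.cons t p) := ⟨_, rfl⟩
  have hB : ContDiff ℝ (⊤ : ℕ∞) (fun q : (Fin n → ℝ) × ℝ => b (Fin.cons q.2 q.1)) :=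
    hbs.comp (Div_cons n)
  have hBz : ∀ (p : Fin n → ℝ) (t : ℝ), t ∉ Set.Icc x0 x1 → b (Fin.cons t p) = 0 := by
    intro p t ht
    apply hbz
    intro h
    have h1 : t ∈ K0 := by
      rw [hK0]
      exact Or.inl ⟨_, h, rfl⟩
    exact ht ⟨hx0.2 h1, hx1.2 h1⟩
  have hBp : ∀ (p : Fin n → ℝ) (t : ℝ), p ∉ K' → b (Fin.cons t p) = 0 := by
    intro p t hp
    apply hbz
    intro h
    apply hp
    rw [hK']
    exact ⟨_, h, Fin.tail_cons _ _⟩
  have hms : ContDiff ℝ (⊤ : ℕ∞) m := by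
    have h1 := Div_conv (n := n) (fun _ => (1 : ℝ)) (locallyIntegrable_const _)
      (fun q => b (Fin.cons q.2 q.1)) hB (Set.Icc x0 x1) isCompact_Icc hBz
    have h2 : m = (fun q : (Fin n → ℝ) × ℝ => ∫ t, (1 : ℝ) * b (Fin.cons (q.2 - t) q.1)) ∘
        (fun p : Fin n → ℝ => (p, (0 : ℝ))) := by
      funext p
      rw [hm]
      simp only [Function.comp_apply, one_mul]
      exact (integral_sub_left_eq_self (fun t => b (Fin.cons t p)) volume 0).symm
    rw [h2]
    exact h1.comp (contDiff_id.prodMk contDiff_const)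
  have hmz : ∀ p, p ∉ K' → m p = 0 := by
    intro p hp
    rw [hm]
    simp only [hBp p _ hp, integral_zero]
  have hm0 : ∫ p, m p = 0 := by
    rw [hm, ← Div_fub hbint]
    exact hb0
  obtain ⟨c', hc', hmc⟩ := ih m (Div_SC hms hK'c hK'b hmz) hm0
  -- the remainder
  obtain ⟨B, hBd⟩ : ∃ B : (Fin n → ℝ) × ℝ → ℝ, B = fun q => b (Fin.cons q.2 q.1) - m q.1 * θ q.2 :=
    ⟨_, rfl⟩
  have hBs : ContDiff ℝ (⊤ : ℕ∞) B := by
    rw [hBd]
    exact hB.sub ((hms.comp contDiff_fst).mul (hθs.comp contDiff_snd))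
  have hθz : ∀ t, t ∉ Set.Icc x0 x1 → θ t = 0 := by
    intro t ht
    apply hθ0
    intro h
    have h1 : t ∈ K0 := by
      rw [hK0]
      exact Or.inr h
    exact ht ⟨hx0.2 h1, hx1.2 h1⟩
  have hBdz : ∀ (p : Fin n → ℝ) (t : ℝ), t ∉ Set.Icc x0 x1 → B (p, t) = 0 := by
    intro p t ht
    rw [hBd]
    simp only [hBz p t ht, hθz t ht, mul_zero, sub_zero]
  have hBdp : ∀ (p : Fin n → ℝ) (t : ℝ), p ∉ K' → B (p, t) = 0 := by
    intro p t hp
    rw [hBd]
    simp only [hBp p t hp, hmz p hp, zero_mul, sub_zero]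
  have hgc : ∀ p : Fin n → ℝ, Continuous fun t => B (p, t) := fun p =>
    hBs.continuous.comp (by fun_prop)
  have hgi : ∀ p : Fin n → ℝ, Integrable fun t => B (p, t) := fun p =>
    (hgc p).integrable_of_hasCompactSupport
      (HasCompactSupport.intro (isCompact_Icc (a := x0) (b := x1)) fun t ht => hBdz p t ht)
  have hbi : ∀ p : Fin n → ℝ, Integrable fun t => b (Fin.cons t p) := fun p =>
    (hB.continuous.comp (by fun_prop : Continuous fun t : ℝ => (p, t))).integrable_of_hasCompactSupport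
      (HasCompactSupport.intro (isCompact_Icc (a := x0) (b := x1)) fun t ht => hBz p t ht)
  have hθi : Integrable θ := hθs.continuous.integrable_of_hasCompactSupport
    (HasCompactSupport.intro (isCompact_Icc (a := x0) (b := x1)) hθz)
  have hg0 : ∀ p : Fin n → ℝ, ∫ t, B (p, t) = 0 := by
    intro p
    rw [hBd]
    simp only
    rw [integral_sub (hbi p) (hθi.const_mul _), integral_const_mul, hθ1, mul_one, hm, sub_self]
  obtain ⟨c0, hc0⟩ : ∃ c0 : (Fin (n + 1) → ℝ) → ℝ,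
      c0 = fun u => ∫ t, Div_H t * B (Fin.tail u, u 0 - t) := ⟨_, rfl⟩
  have hc0s : ContDiff ℝ (⊤ : ℕ∞) c0 := by
    rw [hc0]
    exact (Div_conv Div_H Div_HL B hBs (Set.Icc x0 x1) isCompact_Icc hBdz).comp (Div_split n)
  have hc0e : ∀ u, c0 u = ∫ s in Set.Iic (u 0), B (Fin.tail u, s) := by
    intro u
    rw [hc0]
    exact Div_Iic (fun s => B (Fin.tail u, s)) (u 0)
  have hKK : IsCompact ((fun q : (Fin n → ℝ) × ℝ => (Fin.cons q.2 q.1 : Fin (n + 1) → ℝ)) ''
      (K' ×ˢ Set.Icc x0 x1)) :=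
    (hK'c.prod isCompact_Icc).image (Div_cons n).continuous
  have hKKb : (fun q : (Fin n → ℝ) × ℝ => (Fin.cons q.2 q.1 : Fin (n + 1) → ℝ)) ''
      (K' ×ˢ Set.Icc x0 x1) ⊆ box lo hi := by
    rintro _ ⟨⟨p, t⟩, ⟨hp, ht⟩, rfl⟩ i _
    refine Fin.cases ?_ (fun j => ?_) i
    · exact ⟨lt_of_lt_of_le hx0b.1 ht.1, lt_of_le_of_lt ht.2 hx1b.2⟩
    · exact hK'b hp j (Set.mem_univ _)
  have hKKm : ∀ u : Fin (n + 1) → ℝ, u ∉ (fun q : (Fin n → ℝ) × ℝ =>
      (Fin.cons q.2 q.1 : Fin (n + 1) → ℝ)) '' (K' ×ˢ Set.Icc x0 x1) →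
      Fin.tail u ∉ K' ∨ u 0 ∉ Set.Icc x0 x1 := by
    intro u hu
    by_contra h
    push Not at h
    exact hu ⟨(Fin.tail u, u 0), ⟨h.1, h.2⟩, Fin.cons_self_tail u⟩
  have hSC0 : SC c0 (box lo hi) := by
    refine Div_SC hc0s hKK hKKb ?_
    intro u hu
    rw [hc0e]
    rcases hKKm u hu with h | h
    · exact setIntegral_eq_zero_of_forall_eq_zero fun s _ => hBdp _ s h
    · rw [Set.mem_Icc, not_and_or, not_le, not_le] at h
      rcases h with h | h
      · refine setIntegral_eq_zero_of_forall_eq_zero fun s hs => hBdz _ s ?_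
        intro h'
        exact absurd (lt_of_lt_of_le h h'.1) (not_lt.mpr hs)
      · rw [setIntegral_eq_integral_of_forall_compl_eq_zero, hg0]
        intro s hs
        apply hBdz
        intro h'
        exact hs (le_of_lt (lt_of_le_of_lt h'.2 h))
  have hSCj : ∀ j, SC (fun u : Fin (n + 1) → ℝ => c' j (Fin.tail u) * θ (u 0)) (box lo hi) := by
    intro j
    obtain ⟨h1, h2, h3⟩ := hc' j
    have hcc : IsCompact ((fun q : (Fin n → ℝ) × ℝ => (Fin.cons q.2 q.1 : Fin (n + 1) → ℝ)) ''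
        (tsupport (c' j) ×ˢ Set.Icc x0 x1)) :=
      (IsCompact.prod h2 isCompact_Icc).image (Div_cons n).continuous
    refine Div_SC ((h1.comp (Div_tail n)).mul (hθs.comp (contDiff_apply ℝ ℝ 0))) hcc ?_ ?_
    · rintro _ ⟨⟨p, t⟩, ⟨hp, ht⟩, rfl⟩ i _
      refine Fin.cases ?_ (fun j => ?_) i
      · exact ⟨lt_of_lt_of_le hx0b.1 ht.1, lt_of_le_of_lt ht.2 hx1b.2⟩
      · exact h3 hp j (Set.mem_univ _)
    · intro u hu
      by_cases hp : Fin.tail u ∈ tsupport (c' j)
      · have ht : u 0 ∉ Set.Icc x0 x1 := by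
          intro ht
          exact hu ⟨(Fin.tail u, u 0), ⟨hp, ht⟩, Fin.cons_self_tail u⟩
        simp only [hθz _ ht, mul_zero]
      · simp only [image_eq_zero_of_notMem_tsupport hp, zero_mul]
  refine ⟨Fin.cons c0 (fun j u => c' j (Fin.tail u) * θ (u 0)), ?_, ?_⟩
  · intro j
    refine Fin.cases ?_ (fun j => ?_) j
    · exact hSC0
    · exact hSCj j
  · intro u
    rw [Fin.sum_univ_succ]
    simp only [Fin.cons_zero, Fin.cons_succ]
    have e0 : fderiv ℝ c0 u (Pi.single 0 1) = B (Fin.tail u, u 0) := by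
      apply Div_line hc0s
      have h1 : (fun t : ℝ => c0 (u + t • Pi.single 0 1)) =
          fun t : ℝ => ∫ s in Set.Iic (u 0 + t), B (Fin.tail u, s) := by
        funext t
        rw [hc0e]
        have h2 : Fin.tail (u + t • Pi.single (M := fun _ : Fin (n + 1) => ℝ) 0 1) = Fin.tail u := by
          funext i
          simp [Fin.tail]
        have h3 : (u + t • Pi.single (M := fun _ : Fin (n + 1) => ℝ) 0 1) 0 = u 0 + t := by
          simp
        rw [h2, h3]
      rw [h1]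
      have h4 := Div_deriv (hgc (Fin.tail u)) (lo 0) (fun s hs => hBdz _ s (by
        intro h'
        exact absurd (lt_of_lt_of_le hx0b.1 h'.1) (not_lt.mpr hs))) (hgi (Fin.tail u)) (u 0)
      have h5 : HasDerivAt (fun t : ℝ => u 0 + t) 1 0 := by
        simpa using (hasDerivAt_id (0 : ℝ)).const_add (u 0)
      have h6 := HasDerivAt.comp (0 : ℝ) (h₂ := fun t => ∫ s in Set.Iic t, B (Fin.tail u, s))
        (h := fun t : ℝ => u 0 + t) (h₂' := B (Fin.tail u, u 0)) (by simpa using h4) h5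
      rw [mul_one] at h6
      exact h6
    have ej : ∀ j : Fin n, fderiv ℝ (fun u : Fin (n + 1) → ℝ => c' j (Fin.tail u) * θ (u 0)) u
        (Pi.single j.succ 1) = fderiv ℝ (c' j) (Fin.tail u) (Pi.single j 1) * θ (u 0) := by
      intro j
      apply Div_line (hSCj j).1
      have h1 : (fun t : ℝ => c' j (Fin.tail (u + t • Pi.single j.succ 1)) *
          θ ((u + t • Pi.single (M := fun _ : Fin (n + 1) => ℝ) j.succ 1) 0)) =
          fun t : ℝ => c' j (Fin.tail u + t • Pi.single j 1) * θ (u 0) := by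
        funext t
        have h2 : Fin.tail (u + t • Pi.single (M := fun _ : Fin (n + 1) => ℝ) j.succ 1) =
            Fin.tail u + t • Pi.single j 1 := by
          funext i
          by_cases hij : i = j
          · subst hij
            simp [Fin.tail]
          · simp [Fin.tail, hij]
        have h3 : (u + t • Pi.single (M := fun _ : Fin (n + 1) => ℝ) j.succ 1) 0 = u 0 := by
          simp [(Fin.succ_ne_zero j).symm]
        rw [h2, h3]
      rw [h1]
      have h4 : DifferentiableAt ℝ (c' j) (Fin.tail u) :=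
        ((hc' j).1.differentiable (by simp)).differentiableAt
      have h5 : HasDerivAt (fun t : ℝ => c' j (Fin.tail u + t • Pi.single j 1))
          (fderiv ℝ (c' j) (Fin.tail u) (Pi.single j 1)) 0 :=
        h4.hasFDerivAt.hasLineDerivAt _
      exact h5.mul_const _
    rw [e0, Finset.sum_congr rfl fun j _ => ej j, ← Finset.sum_mul, ← hmc, hBd]
    simp only [Fin.cons_self_tail]
    ring

theorem thm_Div : St_Div := by
  intro n
  induction n with
  | zero =>
    intro lo hi b hb hb0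
    refine ⟨fun _ _ => 0, fun j => j.elim0, ?_⟩
    intro u
    rw [Finset.univ_eq_empty, Finset.sum_empty]
    have h1 : ∀ v, b v = b u := fun v => congrArg b (Subsingleton.elim v u)
    simp only [h1] at hb0
    have h2 : (volume : Measure (Fin 0 → ℝ)).real Set.univ = 1 := by
      rw [Measure.real, volume_pi, Measure.pi_univ]
      simp
    rw [integral_const, h2, one_smul] at hb0
    exact hb0
  | succ n ih =>
    intro lo hi b hb hb0
    by_cases hlh : lo 0 < hi 0
    · exact Div_step lo hi (fun b hb h0 => ih _ _ b hb h0) hlh b hb hb0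
    · have hbz : ∀ u, b u = 0 := by
        intro u
        apply image_eq_zero_of_notMem_tsupport
        intro h
        have h1 := hb.2.2 h 0 (Set.mem_univ _)
        exact hlh (h1.1.trans h1.2)
      refine ⟨fun _ _ => 0, fun j => ⟨contDiff_const, HasCompactSupport.zero, ?_⟩, ?_⟩
      · have h2 : tsupport (fun _ : Fin (n + 1) → ℝ => (0 : ℝ)) = ∅ := by
          rw [tsupport_eq_empty_iff]
          rfl
        rw [h2]
        exact Set.empty_subset _
      · intro u
        rw [hbz u]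
        simp

end TDC
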