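import Pool.Agent.TDC.St4

/-! TDC, module DnA: restriction of forms on the analytification to the generic points. -/

set_option autoImplicit false

namespace TDC

open scoped Topology
open AlgebraicGeometry CategoryTheory

private theorem DnA_gen {K : Type} [NormedField K] {X : Scheme.{0}} [IrreducibleSpace X]
    (s : X ⟶ Spec (.of K)) (x : An s) (hx : x.1 = genericPoint X) : ∃ v, gen s v = x := by
  obtain ⟨ξ, v⟩ := x
  have h : ξ = genericPoint X := hx
  subst h
  exact ⟨v, rfl⟩

theorem thm_DnA (h1 : St_EmbA) (h2 : St_VanA) : St_DnA := by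
  intro K _ X _ s n q hTr ω hω
  obtain ⟨hind, -, -⟩ := h1 K X s
  have hvan : ∀ x : An s, x.1 ≠ genericPoint X → ∀ᶠ y in 𝓝 x, ω y = 0 := by
    intro x hx
    obtain ⟨U, R, F, α, -, hev⟩ := hω x
    obtain ⟨hxU, -⟩ := hev.self_of_nhds
    filter_upwards [hev, h2 K X s n hTr q R U F α x hxU hx] with y hy1 hy2
    obtain ⟨ha, hb⟩ := hy1
    obtain ⟨hc, hd⟩ := hy2
    rw [hb]
    exact hd
  have hC : ∀ C : Set (An s), IsCompact C → ∃ C' : Set (Pt (kmap s (genericPoint X))),
      IsCompact C' ∧ (∀ v ∈ C', gen s v ∈ C) ∧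
        ∀ v, gen s v ∈ C → v ∉ C' → ω (gen s v) = 0 := by
    intro C hC
    have hcomp : IsCompact (C \ interior {y : An s | ω y = 0}) := hC.diff isOpen_interior
    refine ⟨gen s ⁻¹' (C \ interior {y : An s | ω y = 0}), ?_, fun v hv => hv.1, ?_⟩
    · rw [hind.isCompact_iff, Set.image_preimage_eq_inter_range]
      have hsub : C \ interior {y : An s | ω y = 0} ⊆ Set.range (gen s) := by
        intro x hx
        have hgen : x.1 = genericPoint X := by
          by_contra hne
          exact hx.2 (mem_interior_iff_mem_nhds.mpr (hvan x hne))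
        exact DnA_gen s x hgen
      rw [Set.inter_eq_self_of_subset_left hsub]
      exact hcomp
    · intro v hv hv'
      have hW : gen s v ∈ interior {y : An s | ω y = 0} := by
        by_contra hW
        exact hv' ⟨hv, hW⟩
      have hm : gen s v ∈ {y : An s | ω y = 0} := interior_subset hW
      exact hm
  refine ⟨?_, ⟨fun v => rfl, fun x hx => (hvan x hx).self_of_nhds⟩, hvan, hC, ?_⟩
  · intro v
    obtain ⟨U, R, F, α, hα, hev⟩ := hω (gen s v)
    obtain ⟨hU, -⟩ := hev.self_of_nhds
    refine ⟨R, unitsAt (gen s v) hU F, α, hα, ?_⟩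
    have hev' := hind.continuous.continuousAt.eventually hev
    filter_upwards [hev'] with w hw
    obtain ⟨ha, hb⟩ := hw
    exact hb
  · rintro ⟨C, hCc, hC0⟩
    obtain ⟨C', hC'c, -, hC'0⟩ := hC C hCc
    refine ⟨C', hC'c, fun v hv => ?_⟩
    by_cases hvC : gen s v ∈ C
    · exact hC'0 v hvC hv
    · exact hC0 _ hvC

end TDC
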