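import Pool.Agent.TDC.St6

/-! TDC, module DnD: restriction of pairs on the analytification to the generic points. -/

set_option autoImplicit false

namespace TDC

open scoped Topology
open AlgebraicGeometry CategoryTheory

theorem thm_DnD (h : St_EmbA) : St_DnD := by
  intro K _ X _ s p q η ω hd v
  obtain ⟨hind, -, -⟩ := h K X s
  obtain ⟨U, R, F, α, hα, hev⟩ := hd (gen s v)
  obtain ⟨hU, -⟩ := hev.self_of_nhds
  refine ⟨R, unitsAt (gen s v) hU F, α, hα, ?_⟩
  have hev' := hind.continuous.continuousAt.eventually hev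
  filter_upwards [hev'] with w hw
  obtain ⟨ha, hb, hc⟩ := hw
  exact ⟨hb, hc⟩

end TDC
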