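import Pool.Agent.TDC.StT

/-!
# TDC, module EmF: finiteness of the set of embeddings over `K(g)`
-/

set_option autoImplicit false

namespace TDC

open scoped Topology

/-- `L` is a finite extension of `K(g)`. -/
private theorem EmF_fin {K L : Type} [NormedField K] [Field L] [Algebra K L]
    {n : ℕ} (htr : TrLe K L n) (hfg : (⊤ : IntermediateField K L).FG) (g : Fin n → Lˣ)
    (hg : AlgebraicIndependent K (fun i => (g i : L))) :
    FiniteDimensional (IntermediateField.adjoin K (Set.range fun i => (g i : L))) L := by
  set E := IntermediateField.adjoin K (Set.range fun i => (g i : L)) with hE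
  have halg : ∀ f : L, IsAlgebraic E f := by
    intro f
    have h1 : ¬ Transcendental (Algebra.adjoin K (Set.range fun i => (g i : L))) f := by
      intro htra
      have h2 := (hg.option_iff_transcendental f).2 htra
      have h3 := h2.comp (finSuccEquiv n) (finSuccEquiv n).injective
      exact htr _ h3
    rw [Transcendental, not_not] at h1
    obtain ⟨p, hp0, hp⟩ := h1
    have hle : Algebra.adjoin K (Set.range fun i => (g i : L)) ≤ E.toSubalgebra :=
      IntermediateField.algebra_adjoin_le_adjoin K _
    refine ⟨p.map (Subalgebra.inclusion hle).toRingHom, ?_, ?_⟩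
    · rw [Polynomial.map_ne_zero_iff]
      · exact hp0
      · exact Subalgebra.inclusion_injective hle
    · rw [Polynomial.aeval_def, Polynomial.eval₂_map]
      rw [Polynomial.aeval_def] at hp
      exact hp
  obtain ⟨S, hS⟩ := hfg
  have h5 : IntermediateField.adjoin E (S : Set L) = ⊤ := by
    rw [eq_top_iff]
    intro f _
    have h6 : f ∈ IntermediateField.adjoin K (S : Set L) := by
      rw [hS]; exact IntermediateField.mem_top
    have h7 : IntermediateField.adjoin K (S : Set L) ≤
        (IntermediateField.adjoin E (S : Set L)).restrictScalars K := by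
      rw [IntermediateField.adjoin_le_iff]
      exact IntermediateField.subset_adjoin E _
    exact h7 h6
  have h8 : FiniteDimensional E (IntermediateField.adjoin E (S : Set L)) :=
    IntermediateField.finiteDimensional_adjoin fun f _ => (halg f).isIntegral
  rw [h5] at h8
  exact Module.Finite.equiv (IntermediateField.topEquiv (F := E) (E := L)).toLinearEquiv

/-- an embedding over `g` is an embedding over `K(g)` -/
private theorem EmF_fix {K L : Type} [NormedField K] [Field L] [Algebra K L] {n : ℕ}
    (g : Fin n → Lˣ) (σ : L →ₐ[K] AlgebraicClosure L) (hσ : σ ∈ Emb K g) (e : L)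
    (he : e ∈ IntermediateField.adjoin K (Set.range fun i => (g i : L))) :
    σ e = algebraMap L (AlgebraicClosure L) e := by
  induction he using IntermediateField.adjoin_induction with
  | mem x hx =>
    obtain ⟨i, rfl⟩ := hx
    exact hσ i
  | algebraMap x =>
    rw [σ.commutes, ← IsScalarTower.algebraMap_apply K L (AlgebraicClosure L)]
  | add x y _ _ hx hy => rw [map_add, map_add, hx, hy]
  | inv x _ hx => rw [map_inv₀, map_inv₀, hx]
  | mul x y _ _ hx hy => rw [map_mul, map_mul, hx, hy]

theorem thm_EmF : St_EmF := by
  intro K L _ _ _ n htr hfg g hg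
  have hfin := EmF_fin htr hfg g hg
  refine ⟨hfin, ?_, ⟨incE K L, fun i => rfl⟩, ?_⟩
  · let T : Emb K g → (L →ₐ[IntermediateField.adjoin K (Set.range fun i => (g i : L))]
        AlgebraicClosure L) := fun σ =>
      { (σ.1 : L →ₐ[K] AlgebraicClosure L).toRingHom with
        commutes' := fun e => by
          have h1 := EmF_fix g σ.1 σ.2 (e : L) e.2
          exact h1 }
    have hT : Function.Injective T := by
      intro σ τ h
      apply Subtype.ext
      apply AlgHom.ext
      intro x
      exact congrArg (fun ρ : L →ₐ[IntermediateField.adjoin K (Set.range fun i => (g i : L))]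
        AlgebraicClosure L => ρ x) h
    have : Finite (Emb K g) := Finite.of_injective T hT
    exact Set.toFinite _
  · unfold dg
    exact_mod_cast Module.finrank_pos

end TDC
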