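import Pool.Agent.TDC.StT

/-!
# TDC, module EmG: embeddings over `K(g)` preserve Gauss points; `Indep` iff `Generic`
-/

namespace TDC

open scoped Topology

private theorem EmG_val {K L : Type} [NormedField K] [Field L] [Algebra K L] {n : ℕ}
    (g : Fin n → Lˣ) (x : Pt (algebraMap K (AlgebraicClosure L)))
    (σ : L →ₐ[K] AlgebraicClosure L) (hσ : σ ∈ Emb K g) (i : Fin n) :
    (pb σ x).v (g i : L) = (pb (incE K L) x).v (g i : L) := by
  show x.v (σ (g i : L)) = x.v (incE K L (g i : L))
  rw [hσ i]
  rfl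

private theorem EmG_eval {K L : Type} [NormedField K] [Field L] [Algebra K L] {n : ℕ}
    (g : Fin n → Lˣ) (x : Pt (algebraMap K (AlgebraicClosure L)))
    (σ : L →ₐ[K] AlgebraicClosure L) (hσ : σ ∈ Emb K g) (P : MvPolynomial (Fin n) K) :
    (pb σ x).v (P.eval₂ (algebraMap K L) (fun i => (g i : L))) =
      (pb (incE K L) x).v (P.eval₂ (algebraMap K L) (fun i => (g i : L))) := by
  have key : ∀ τ : L →ₐ[K] AlgebraicClosure L, τ ∈ Emb K g →
      τ (P.eval₂ (algebraMap K L) (fun i => (g i : L))) =
        MvPolynomial.aeval (fun i => algebraMap L (AlgebraicClosure L) (g i : L)) P := by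
    intro τ hτ
    have h1 : P.eval₂ (algebraMap K L) (fun i => (g i : L)) =
        MvPolynomial.aeval (fun i => (g i : L)) P := (MvPolynomial.aeval_def _ _).symm
    rw [h1]
    have h2 := MvPolynomial.comp_aeval_apply (R := K) (fun i => (g i : L)) τ P
    rw [h2]
    have h3 : (fun i => τ (g i : L)) = fun i => algebraMap L (AlgebraicClosure L) (g i : L) := by
      funext i
      exact hτ i
    rw [h3]
  have hinc : incE K L ∈ Emb K g := by
    intro i
    rfl
  show x.v (σ _) = x.v (incE K L _)
  rw [key σ hσ, key _ hinc]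

private theorem EmG_log {K L : Type} [NormedField K] [Field L] [Algebra K L] {n : ℕ}
    (g : Fin n → Lˣ) (y : Pt (algebraMap K L)) (k : Fin n → ℤ) :
    Real.log (y.v ((∏ i, g i ^ k i : Lˣ) : L)) = ∑ i, (k i : ℝ) * logv y g i := by
  rw [Units.coe_prod, map_prod, Real.log_prod]
  · refine Finset.sum_congr rfl fun i _ => ?_
    rw [Units.val_zpow_eq_zpow_val, map_zpow₀, Real.log_zpow]
    rfl
  · intro i _
    exact (y.v.pos (Units.ne_zero _)).ne'

theorem thm_EmG : St_EmG := by
  refine ⟨?_, ?_, ?_⟩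
  · intro K L _ _ _ n g x s hx σ hσ
    obtain ⟨hG, hs⟩ := hx
    constructor
    · intro P e
      rw [EmG_eval g x σ hσ P]
      have h := hG P e
      have h2 : ∏ i, (pb σ x).v (g i : L) ^ e i = ∏ i, (pb (incE K L) x).v (g i : L) ^ e i :=
        Finset.prod_congr rfl fun i _ => by rw [EmG_val g x σ hσ i]
      rw [h2]
      exact h
    · rw [← hs]
      funext i
      show Real.log ((pb σ x).v (g i : L)) = Real.log ((pb (incE K L) x).v (g i : L))
      rw [EmG_val g x σ hσ i]
  · intro K L _ _ _ n g y hG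
    rw [AlgebraicIndependent, injective_iff_map_eq_zero]
    intro P hP
    ext e
    have h := hG P e
    have h1 : P.eval₂ (algebraMap K L) (fun i => (g i : L)) = 0 := by
      rw [← MvPolynomial.aeval_def]
      exact hP
    rw [h1, map_zero] at h
    have hpos : 0 < ∏ i, y.v (g i : L) ^ e i :=
      Finset.prod_pos fun i _ => pow_pos (y.v.pos (Units.ne_zero _)) _
    have h3 : ‖P.coeff e‖ ≤ 0 := by
      by_contra hc
      push Not at hc
      exact absurd h (not_le.mpr (mul_pos hc hpos))
    have h4 : P.coeff e = 0 := norm_le_zero_iff.mp h3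
    rw [h4, MvPolynomial.coeff_zero]
  · intro K L _ _ _ n g y
    constructor
    · intro h k a ha hk
      apply h k
      refine ⟨a, ?_⟩
      have hv : 0 < y.v ((∏ i, g i ^ k i : Lˣ) : L) := y.v.pos (Units.ne_zero _)
      have ha' : 0 < ‖a‖ := norm_pos_iff.mpr ha
      rw [← Real.exp_log hv, ← Real.exp_log ha', EmG_log, hk]
    · intro h k hk
      obtain ⟨a, ha⟩ := hk
      have hv : 0 < y.v ((∏ i, g i ^ k i : Lˣ) : L) := y.v.pos (Units.ne_zero _)
      have ha0 : a ≠ 0 := by
        rw [← ha] at hv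
        exact norm_pos_iff.mp hv
      apply h k a ha0
      rw [← EmG_log, ha]

end TDC
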