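import Pool.Agent.TDC.St4

/-!
# TDC, module EmbA: the points of the analytification over the generic point
-/

namespace TDC

open scoped Topology
open MeasureTheory Polynomial AlgebraicGeometry CategoryTheory

/-- Every element of the residue field is the value of a section. -/
private lemma EmbA_surj {X : Scheme.{0}} (x : X) (c : X.residueField x) :
    ∃ (U : X.Opens) (hx : x ∈ U) (f : Γ(X, U)), X.evaluation U x hx f = c := by
  obtain ⟨g, hg⟩ := X.residue_surjective x c
  obtain ⟨U, hU, f, hf⟩ := X.presheaf.exists_germ_eq g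
  refine ⟨U, hU, f, ?_⟩
  change X.residue x (X.presheaf.germ U x hU f) = c
  rw [← hg]
  exact congrArg _ hf

/-- Evaluation of a restriction. -/
private lemma EmbA_res {X : Scheme.{0}} (x : X) {U V : X.Opens} (h : V ≤ U) (hV : x ∈ V)
    (f : Γ(X, U)) :
    X.evaluation V x hV (X.presheaf.map (homOfLE h).op f) = X.evaluation U x (h hV) f := by
  change X.residue x (X.presheaf.germ V x hV (X.presheaf.map (homOfLE h).op f)) =
    X.residue x (X.presheaf.germ U x (h hV) f)
  exact congrArg _ (X.presheaf.germ_res_apply (homOfLE h) x hV f)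

/-- Evaluation at a fixed element is continuous. -/
private lemma EmbA_cont {K M : Type} [NormedField K] [Field M] {φ : K →+* M} (c : M) :
    Continuous fun v : Pt φ => v.v c := by
  have h1 : Continuous fun v : Pt φ => (fun f : M => v.v f) := continuous_induced_dom
  exact (continuous_apply c).comp h1

private lemma EmbA_inducing {K : Type} [NormedField K] {X : Scheme.{0}} [IsIntegral X]
    (s : X ⟶ Spec (.of K)) : Topology.IsInducing (gen s) := by
  constructor
  apply le_antisymm
  · rw [← continuous_iff_le_induced]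
    apply continuous_generateFrom_iff.mpr
    rintro T ⟨U, f, a, b, rfl⟩
    by_cases hU : genericPoint X ∈ U
    · have h1 : gen s ⁻¹' {x | ∃ h : x.1 ∈ U, a < absA x h f ∧ absA x h f < b} =
          (fun v : Pt (kmap s (genericPoint X)) =>
            v.v (X.evaluation U (genericPoint X) hU f)) ⁻¹' Set.Ioo a b := by
        ext v
        constructor
        · rintro ⟨_, h2, h3⟩
          exact ⟨h2, h3⟩
        · rintro ⟨h2, h3⟩
          exact ⟨hU, h2, h3⟩
      rw [h1]
      exact isOpen_Ioo.preimage (EmbA_cont _)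
    · have h1 : gen s ⁻¹' {x | ∃ h : x.1 ∈ U, a < absA x h f ∧ absA x h f < b} = ∅ := by
        ext v
        constructor
        · rintro ⟨h2, _⟩
          exact absurd h2 hU
        · intro h2
          exact absurd h2 (Set.notMem_empty _)
      rw [h1]
      exact isOpen_empty
  · apply continuous_iff_le_induced.mp
    refine @continuous_pi _ _ _ (TopologicalSpace.induced (gen s) inferInstance) _ _ fun c => ?_
    obtain ⟨U, hU, f, hf⟩ := EmbA_surj (genericPoint X) c
    refine (@TopologicalSpace.IsTopologicalBasis.continuous_iff _ _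
      (TopologicalSpace.induced (gen s) inferInstance) _ _ Real.isTopologicalBasis_Ioo_rat _).mpr ?_
    intro t ht
    simp only [Set.mem_iUnion, Set.mem_singleton_iff] at ht
    obtain ⟨a, b, _, rfl⟩ := ht
    refine ⟨{x | ∃ h : x.1 ∈ U, (a : ℝ) < absA x h f ∧ absA x h f < (b : ℝ)}, ?_, ?_⟩
    · exact TopologicalSpace.isOpen_generateFrom_of_mem ⟨U, f, a, b, rfl⟩
    · ext v
      constructor
      · rintro ⟨_, h2, h3⟩
        refine ⟨?_, ?_⟩
        · rw [← hf]
          exact h2
        · rw [← hf]
          exact h3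
      · rintro ⟨h2, h3⟩
        rw [← hf] at h2 h3
        exact ⟨hU, h2, h3⟩

private lemma EmbA_lift {X : Scheme.{0}} [IsIntegral X] (R : ℕ)
    (F : Fin R → (X.residueField (genericPoint X))ˣ) :
    ∃ (U : X.Opens) (h : genericPoint X ∈ U) (F' : Fin R → (Γ(X, U))ˣ),
      ∀ i, Units.map (X.evaluation U (genericPoint X) h).hom.toMonoidHom (F' i) = F i := by
  choose U hU f hf using fun i => EmbA_surj (genericPoint X) (F i : X.residueField (genericPoint X))
  have hb : ∀ i, genericPoint X ∈ X.basicOpen (f i) := by
    intro i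
    rw [← Scheme.evaluation_ne_zero_iff_mem_basicOpen X (genericPoint X) (hU i), hf i]
    exact (F i).ne_zero
  have hmem : genericPoint X ∈ Finset.univ.inf (fun i => X.basicOpen (f i)) := by
    refine Finset.inf_induction (p := fun V : X.Opens => genericPoint X ∈ V) ?_ ?_ ?_
    · trivial
    · intro a ha b hb
      exact ⟨ha, hb⟩
    · intro i _
      exact hb i
  have hle : ∀ i, Finset.univ.inf (fun i => X.basicOpen (f i)) ≤ X.basicOpen (f i) :=
    fun i => Finset.inf_le (Finset.mem_univ i)
  have hunit : ∀ i, IsUnit (X.presheaf.map (homOfLE (X.basicOpen_le (f i))).op (f i)) :=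
    fun i => X.toRingedSpace.isUnit_res_basicOpen (f i)
  refine ⟨Finset.univ.inf (fun i => X.basicOpen (f i)), hmem, fun i =>
    Units.map (X.presheaf.map (homOfLE (hle i)).op).hom.toMonoidHom (hunit i).unit, ?_⟩
  intro i
  apply Units.ext
  change X.evaluation _ (genericPoint X) hmem (X.presheaf.map (homOfLE (hle i)).op
    (X.presheaf.map (homOfLE (X.basicOpen_le (f i))).op (f i))) = _
  rw [EmbA_res, EmbA_res]
  exact hf i

private lemma EmbA_van {X : Scheme.{0}} [IsIntegral X] (x : X) (hx : x ≠ genericPoint X) :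
    ∃ (U : X.Opens) (hx : x ∈ U) (hη : genericPoint X ∈ U)
      (f : Γ(X, U)), X.evaluation U x hx f = 0 ∧ X.evaluation U (genericPoint X) hη f ≠ 0 := by
  have hspec : ¬ x ⤳ genericPoint X := by
    intro h
    exact hx (h.antisymm (genericPoint_specializes x)).eq
  have hV : ∃ V : X.Opens, genericPoint X ∈ V ∧ x ∉ V := by
    rw [specializes_iff_forall_open] at hspec
    push Not at hspec
    obtain ⟨V, hV1, hV2, hV3⟩ := hspec
    exact ⟨⟨V, hV1⟩, hV2, hV3⟩
  obtain ⟨V, hV1, hV2⟩ := hV
  obtain ⟨U, hU1, hU2, _⟩ := exists_isAffineOpen_mem_and_subset (U := ⊤) (x := x) trivial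
  have hη : genericPoint X ∈ U := (genericPoint_specializes x).mem_open U.isOpen hU2
  obtain ⟨f, hf1, hf2⟩ := hU1.exists_basicOpen_le (V := V) ⟨genericPoint X, hV1⟩ hη
  refine ⟨U, hU2, hη, f, ?_, ?_⟩
  · rw [Scheme.evaluation_eq_zero_iff_notMem_basicOpen]
    intro h
    exact hV2 (hf1 h)
  · rw [Scheme.evaluation_ne_zero_iff_mem_basicOpen]
    exact hf2

/-- **EmbA**. The embedding of the generic points, lifting of units, sections which vanish at a
non-generic point. -/
theorem thm_EmbA : St_EmbA := by
  intro K _ X _ s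
  exact ⟨EmbA_inducing s, fun R F => EmbA_lift R F, fun x hx => EmbA_van x hx⟩

end TDC

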