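import Pool.Agent.TDC.StT

/-!
# TDC, module ExT: adjoin an element of given absolute value
-/

set_option autoImplicit false

namespace TDC

open scoped Topology
open Polynomial

/-- the Gauss norm of radius `r` as a valuation -/
private noncomputable def ExT_val (C : Type) [NormedField C] [IsUltrametricDist C] (r : ℝ)
    (hr : 0 < r) : Valuation (Polynomial C) NNReal where
  toFun p := Real.toNNReal (p.gaussNorm (NormedField.toAbsoluteValue C) r)
  map_zero' := by
    rw [Polynomial.gaussNorm_zero, Real.toNNReal_zero]
  map_one' := by
    rw [← Polynomial.C_1, Polynomial.gaussNorm_C, map_one, Real.toNNReal_one]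
  map_mul' p q := by
    rw [Polynomial.gaussNorm_mul (v := NormedField.toAbsoluteValue C)
      (fun a b => IsUltrametricDist.norm_add_le_max a b) hr p q,
      Real.toNNReal_mul (p.gaussNorm_nonneg _ hr.le)]
  map_add_le_max' p q :=
    (Real.toNNReal_mono (Polynomial.isNonarchimedean_gaussNorm (NormedField.toAbsoluteValue C)
      (fun a b => IsUltrametricDist.norm_add_le_max a b) hr.le p q)).trans
      (le_of_eq (Monotone.map_max (fun _ _ h => Real.toNNReal_mono h)))

private theorem ExT_val_coe (C : Type) [NormedField C] [IsUltrametricDist C] (r : ℝ)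
    (hr : 0 < r) (p : Polynomial C) :
    ((ExT_val C r hr p : NNReal) : ℝ) = p.gaussNorm (NormedField.toAbsoluteValue C) r :=
  Real.coe_toNNReal _ (p.gaussNorm_nonneg _ hr.le)

private theorem ExT_supp (C : Type) [NormedField C] [IsUltrametricDist C] (r : ℝ)
    (hr : 0 < r) : nonZeroDivisors (Polynomial C) ≤ (ExT_val C r hr).supp.primeCompl := by
  intro p hp h
  have hp0 : p ≠ 0 := nonZeroDivisors.ne_zero hp
  have h1 : ExT_val C r hr p = 0 := h
  have h2 := ExT_val_coe C r hr p
  rw [h1, NNReal.coe_zero] at h2
  exact hp0 ((Polynomial.gaussNorm_eq_zero_iff (NormedField.toAbsoluteValue C) p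
    (fun x hx => (AbsoluteValue.eq_zero _).1 hx) hr).1 h2.symm)

/-- the Gauss norm on the fraction field -/
private noncomputable def ExT_abs (C : Type) [NormedField C] [IsUltrametricDist C] (r : ℝ)
    (hr : 0 < r) : AbsoluteValue (FractionRing (Polynomial C)) ℝ where
  toFun z := (((ExT_val C r hr).extendToLocalization (ExT_supp C r hr)
    (FractionRing (Polynomial C)) z : NNReal) : ℝ)
  map_mul' x y := by
    rw [map_mul, NNReal.coe_mul]
  nonneg' x := NNReal.coe_nonneg _
  eq_zero' x := by
    rw [NNReal.coe_eq_zero]
    exact map_eq_zero _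
  add_le' x y := by
    rw [← NNReal.coe_add, NNReal.coe_le_coe]
    exact (Valuation.map_add _ x y).trans (max_le_add_of_nonneg zero_le zero_le)

private theorem ExT_abs_add (C : Type) [NormedField C] [IsUltrametricDist C] (r : ℝ)
    (hr : 0 < r) (x y : FractionRing (Polynomial C)) :
    ExT_abs C r hr (x + y) ≤ max (ExT_abs C r hr x) (ExT_abs C r hr y) := by
  have h := Valuation.map_add ((ExT_val C r hr).extendToLocalization (ExT_supp C r hr)
    (FractionRing (Polynomial C))) x y
  have h2 := NNReal.coe_le_coe.2 h
  rw [NNReal.coe_mono.map_max] at h2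
  exact h2

private theorem ExT_abs_map (C : Type) [NormedField C] [IsUltrametricDist C] (r : ℝ)
    (hr : 0 < r) (p : Polynomial C) :
    ExT_abs C r hr (algebraMap (Polynomial C) (FractionRing (Polynomial C)) p) =
      p.gaussNorm (NormedField.toAbsoluteValue C) r := by
  rw [← ExT_val_coe C r hr p]
  show (((ExT_val C r hr).extendToLocalization (ExT_supp C r hr)
    (FractionRing (Polynomial C)) _ : NNReal) : ℝ) = _
  rw [Valuation.extendToLocalization_apply_map_apply]

/-- the completion of a non-archimedean field is non-archimedean -/
private theorem ExT_compl {K : Type} [Field K] (v : AbsoluteValue K ℝ)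
    (hv : ∀ x y, v (x + y) ≤ max (v x) (v y)) : IsUltrametricDist v.Completion := by
  refine IsUltrametricDist.isUltrametricDist_of_isNonarchimedean_norm ?_
  intro a b
  induction a, b using UniformSpace.Completion.induction_on₂ with
  | hp =>
    exact isClosed_le ((continuous_fst.add continuous_snd).norm)
      (continuous_fst.norm.max continuous_snd.norm)
  | ih x y =>
    rw [← UniformSpace.Completion.coe_add, UniformSpace.Completion.norm_coe,
      UniformSpace.Completion.norm_coe, UniformSpace.Completion.norm_coe]
    exact hv x.ofAbs y.ofAbs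

theorem thm_ExT : St_ExT := by
  intro C _ _ r hr
  let v : AbsoluteValue (FractionRing (Polynomial C)) ℝ := ExT_abs C r hr
  -- the map `C[X] → D`
  let f : Polynomial C →+* v.Completion :=
    (UniformSpace.Completion.coeRingHom (α := WithAbs v)).comp
      ((WithAbs.equiv v).symm.toRingHom.comp
        (algebraMap (Polynomial C) (FractionRing (Polynomial C))))
  have hf : ∀ p, ‖f p‖ = p.gaussNorm (NormedField.toAbsoluteValue C) r := by
    intro p
    have h1 : ‖f p‖ = ‖(WithAbs.equiv v).symm
        (algebraMap (Polynomial C) (FractionRing (Polynomial C)) p)‖ :=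
      UniformSpace.Completion.norm_coe _
    rw [h1]
    exact ExT_abs_map C r hr p
  have hu : IsUltrametricDist v.Completion := ExT_compl v (ExT_abs_add C r hr)
  obtain ⟨c, hc⟩ := NontriviallyNormedField.non_trivial (α := C)
  have hfC : ∀ a : C, ‖f (Polynomial.C a)‖ = ‖a‖ := by
    intro a
    rw [hf, Polynomial.gaussNorm_C]
    rfl
  let _ : NontriviallyNormedField v.Completion :=
    { (inferInstance : NormedField v.Completion) with
      non_trivial := ⟨f (Polynomial.C c), by
        have := hfC c
        rw [this]
        exact hc⟩ }
  let _ : NontriviallyNormedField (AlgebraicClosure v.Completion) :=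
    spectralNorm.nontriviallyNormedField v.Completion (AlgebraicClosure v.Completion)
  have hext : ∀ a : v.Completion, ‖algebraMap v.Completion (AlgebraicClosure v.Completion) a‖ =
      ‖a‖ := fun a => spectralNorm_extends a
  refine ⟨AlgebraicClosure v.Completion, inferInstance, ?_, inferInstance, ?_⟩
  · refine IsUltrametricDist.isUltrametricDist_of_isNonarchimedean_norm ?_
    exact isNonarchimedean_spectralNorm (K := v.Completion) (L := AlgebraicClosure v.Completion)
  · refine ⟨((algebraMap v.Completion (AlgebraicClosure v.Completion)).comp f).comp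
      Polynomial.C, algebraMap v.Completion (AlgebraicClosure v.Completion) (f Polynomial.X),
      ?_, ?_⟩
    · intro a
      show ‖algebraMap v.Completion (AlgebraicClosure v.Completion) (f (Polynomial.C a))‖ = ‖a‖
      rw [hext, hfC]
    · rw [hext, hf, ← Polynomial.monomial_one_one_eq_X, Polynomial.gaussNorm_monomial, map_one,
        one_mul, pow_one]

end TDC
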