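import Pool.Agent.TDC.StT

/-!
# TDC, module Exc: exchange of one coordinate
-/

namespace TDC

open scoped Topology

section aux

variable {K L : Type} [NontriviallyNormedField K] [Field L] [Algebra K L] {n : ℕ}

private theorem Exc_ins (e : Fin (n + 1) →₀ ℕ) (i : Fin (n + 1)) (s : Fin n → ℝ) (τ : ℝ) :
    ∑ j, (e j : ℝ) * (i.insertNth τ s : Fin (n + 1) → ℝ) j =
      (e i : ℝ) * τ + ∑ k, (e (i.succAbove k) : ℝ) * s k := by
  rw [Fin.sum_univ_succAbove _ i]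
  simp

/-- one side: the weight is the width of the face -/
private theorem Exc_side (hSlo : St_Slo) (P : MvPolynomial (Fin (n + 1)) K) (hP : P ≠ 0)
    (D : ℝ) (hD : 0 < D) (i : Fin (n + 1)) (p : Fin (n + 1) → ℝ)
    {ι : Type} (T : Finset ι) (ρ : ι → ℝ) (C κ : ℝ)
    (h : ∀ τ : ℝ, C + κ * ∑ σ ∈ T, max τ (ρ σ) =
      D * TV P (i.insertNth τ (p ∘ i.succAbove))) :
    ∃ e₁ ∈ P.support, ∃ e₂ ∈ P.support,
      (∀ e ∈ P.support, Real.log ‖P.coeff e‖ + ∑ l, (e l : ℝ) * p l ≤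
        Real.log ‖P.coeff e₁‖ + ∑ l, (e₁ l : ℝ) * p l) ∧
      (∀ e ∈ P.support, Real.log ‖P.coeff e‖ + ∑ l, (e l : ℝ) * p l ≤
        Real.log ‖P.coeff e₂‖ + ∑ l, (e₂ l : ℝ) * p l) ∧
      (∀ e ∈ P.support, (∀ e' ∈ P.support, Real.log ‖P.coeff e'‖ + ∑ l, (e' l : ℝ) * p l ≤
        Real.log ‖P.coeff e‖ + ∑ l, (e l : ℝ) * p l) →
          (e₂ i : ℝ) ≤ e i ∧ (e i : ℝ) ≤ e₁ i) ∧
      κ * ((T.filter fun σ => ρ σ = p i).card : ℝ) = D * ((e₁ i : ℝ) - e₂ i) := by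
  have hw : ∀ e : Fin (n + 1) →₀ ℕ,
      (Real.log ‖P.coeff e‖ + ∑ k, (e (i.succAbove k) : ℝ) * p (i.succAbove k)) +
        (e i : ℝ) * p i = Real.log ‖P.coeff e‖ + ∑ l, (e l : ℝ) * p l := by
    intro e
    rw [Fin.sum_univ_succAbove (fun l => (e l : ℝ) * p l) i]
    ring
  have hS : P.support.Nonempty := MvPolynomial.support_nonempty.mpr hP
  obtain ⟨e₁, h1, e₂, h2, h3, h4, h5, h6⟩ := hSlo ι (Fin (n + 1) →₀ ℕ) T P.support hS ρ
    (fun e => Real.log ‖P.coeff e‖ + ∑ k, (e (i.succAbove k) : ℝ) * p (i.succAbove k))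
    (fun e => (e i : ℝ)) C κ D hD (by
      intro τ
      rw [h τ]
      congr 1
      unfold TV
      refine iSup_congr fun e => ?_
      rw [Exc_ins]
      simp only [Function.comp]
      ring) (p i)
  simp only [hw] at h3 h4 h5
  refine ⟨e₁, h1, e₂, h2, h3, h4, ?_, h6⟩
  intro e he hmax
  exact h5 e he (le_antisymm (h3 e he) (hmax e₁ h1))

private theorem Exc_wt (g : Fin n → Lˣ) (hfin : (Emb K g).Finite)
    (x : Pt (algebraMap K (AlgebraicClosure L))) (y : Pt (algebraMap K L)) (f : Lˣ) (r : ℝ)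
    (h : ∀ σ ∈ Emb K g, (pb σ x = y ↔ Real.log (x.v (σ (f : L))) = r)) :
    wt g x y = dg K g / ((Emb K g).ncard : ℝ) *
      ((hfin.toFinset.filter fun σ => Real.log (x.v (σ (f : L))) = r).card : ℝ) := by
  unfold wt wtS
  have e1 : Emb K g ∩ {σ | pb σ x = y} =
      ((hfin.toFinset.filter fun σ => Real.log (x.v (σ (f : L))) = r :
        Finset (L →ₐ[K] AlgebraicClosure L)) : Set (L →ₐ[K] AlgebraicClosure L)) := by
    ext σ
    simp only [Set.mem_inter_iff, Set.mem_ofPred_eq, Finset.coe_filter, Set.Finite.mem_toFinset]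
    constructor
    · rintro ⟨h1, h2⟩
      exact ⟨h1, (h σ h1).mp h2⟩
    · rintro ⟨h1, h2⟩
      exact ⟨h1, (h σ h1).mpr h2⟩
  rw [e1, Set.ncard_coe_finset]
  ring

/-- two maximal monomials give a vector which is killed by all tangent vectors -/
private theorem Exc_ker (P : MvPolynomial (Fin (n + 1)) K) (G : Fin (n + 1) → Lˣ)
    (y : Pt (algebraMap K L)) (e e' : Fin (n + 1) →₀ ℕ) (he : e ∈ P.support)
    (he' : e' ∈ P.support)
    (h : Real.log ‖P.coeff e‖ + ∑ l, (e l : ℝ) * Real.log (y.v (G l : L)) =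
      Real.log ‖P.coeff e'‖ + ∑ l, (e' l : ℝ) * Real.log (y.v (G l : L))) (δ : Tan y) :
    ∑ l, ev G δ l * ((e l : ℝ) - e' l) = 0 := by
  have hpos : ∀ l, 0 < y.v (G l : L) := fun l => y.v.pos (G l).ne_zero
  have hc : ∀ e ∈ P.support, 0 < ‖P.coeff e‖ := fun e he =>
    norm_pos_iff.mpr (MvPolynomial.mem_support_iff.mp he)
  -- the unit
  obtain ⟨u, hu⟩ : ∃ u : Lˣ, u = ∏ l, G l ^ ((e l : ℤ) - (e' l : ℤ)) := ⟨_, rfl⟩
  have huv : y.v (u : L) = ∏ l, y.v (G l : L) ^ ((e l : ℤ) - (e' l : ℤ)) := by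
    rw [hu]
    push_cast
    rw [map_prod]
    refine Finset.prod_congr rfl fun l _ => ?_
    rw [map_zpow₀]
  have hlog : Real.log (y.v (u : L)) = ∑ l, ((e l : ℝ) - e' l) * Real.log (y.v (G l : L)) := by
    rw [huv, Real.log_prod (fun l _ => (zpow_pos (hpos l) _).ne')]
    refine Finset.sum_congr rfl fun l _ => ?_
    rw [Real.log_zpow]
    push_cast
    ring
  have hval : y.v (u : L) = ‖P.coeff e' / P.coeff e‖ := by
    have h1 : Real.log (y.v (u : L)) = Real.log ‖P.coeff e' / P.coeff e‖ := by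
      rw [hlog, norm_div, Real.log_div (hc e' he').ne' (hc e he).ne']
      simp only [sub_mul, Finset.sum_sub_distrib]
      linarith
    exact Real.log_injOn_pos (Set.mem_Ioi.mpr (y.v.pos u.ne_zero))
      (Set.mem_Ioi.mpr (by rw [norm_div]; exact div_pos (hc e' he') (hc e he))) h1
  have h0 := δ.2 u ⟨_, hval.symm⟩
  have h2 : δ.1 (Additive.ofMul u) = ∑ l, ((e l : ℝ) - e' l) * δ.1 (Additive.ofMul (G l)) := by
    rw [hu, ofMul_prod, map_sum]
    refine Finset.sum_congr rfl fun l _ => ?_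
    rw [ofMul_zpow, map_zsmul, zsmul_eq_mul]
    push_cast
    ring
  rw [h2] at h0
  rw [← h0]
  refine Finset.sum_congr rfl fun l _ => ?_
  show δ.1 (Additive.ofMul (G l)) * _ = _
  ring

end aux

theorem thm_Exc : St_EmF → St_EmG → St_IndG → St_Psi → St_Slo → St_Mnr → St_Exc := by
  intro hEmF hEmG hIndG hPsi hSlo hMnr K L _ _ _ n hTr hFG G i j y hyi hyj hsep x x' hx hx' δ
  obtain ⟨hE1, hE2, -⟩ := hEmG
  obtain ⟨P, D, hP, hD, hPsi'⟩ := hPsi K L n hTr hFG G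
  -- values
  obtain ⟨p, hp⟩ : ∃ p : Fin (n + 1) → ℝ, p = fun l => Real.log (y.v (G l : L)) := ⟨_, rfl⟩
  have hpos : ∀ (z : Pt (algebraMap K L)) (l : Fin (n + 1)), 0 < z.v (G l : L) :=
    fun z l => z.v.pos (G l).ne_zero
  have hps : ∀ k : Fin (n + 1), logv y (G ∘ k.succAbove) = p ∘ k.succAbove := by
    intro k
    rw [hp]
    rfl
  -- equal values on all `G l`
  have heq : ∀ (k : Fin (n + 1)) (z : Pt (algebraMap K L)),
      logv z (G ∘ k.succAbove) = logv y (G ∘ k.succAbove) →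
      Real.log (z.v (G k : L)) = p k → ∀ l, z.v (G l : L) = y.v (G l : L) := by
    intro k z h1 h2 l
    rcases Fin.eq_self_or_eq_succAbove k l with h3 | ⟨m, h3⟩
    · subst h3
      refine Real.log_injOn_pos (Set.mem_Ioi.mpr (hpos z _)) (Set.mem_Ioi.mpr (hpos y _)) ?_
      rw [h2, hp]
    · subst h3
      refine Real.log_injOn_pos (Set.mem_Ioi.mpr (hpos z _)) (Set.mem_Ioi.mpr (hpos y _)) ?_
      exact congrFun h1 m
  -- equal values give independence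
  have hind : ∀ z : Pt (algebraMap K L), (∀ l, z.v (G l : L) = y.v (G l : L)) →
      Indep z (G ∘ i.succAbove) := by
    intro z hz k hk
    apply hyi k
    obtain ⟨a, ha⟩ := hk
    refine ⟨a, ?_⟩
    rw [ha]
    push_cast
    rw [map_prod, map_prod]
    refine Finset.prod_congr rfl fun l _ => ?_
    rw [map_zpow₀, map_zpow₀]
    simp only [Function.comp]
    rw [hz]
  -- finiteness
  have hai : AlgebraicIndependent K (fun a => ((G ∘ i.succAbove) a : L)) :=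
    hE2 K L n _ y (hIndG K L (algebraMap K L) n y _ hyi)
  have haj : AlgebraicIndependent K (fun a => ((G ∘ j.succAbove) a : L)) :=
    hE2 K L n _ y (hIndG K L (algebraMap K L) n y _ hyj)
  obtain ⟨-, hfi, -, -⟩ := hEmF K L n hTr hFG _ hai
  obtain ⟨-, hfj, -, -⟩ := hEmF K L n hTr hFG _ haj
  -- the side of `i`
  have hwi := Exc_wt (G ∘ i.succAbove) hfi x y (G i) (p i) (by
    intro σ hσ
    obtain ⟨g1, g2⟩ := hE1 K L n _ x _ hx σ hσ
    constructor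
    · intro h
      rw [← h] at hp
      rw [hp]
      rfl
    · intro h
      exact hsep _ g1 (heq i (pb σ x) g2 h))
  have hwj := Exc_wt (G ∘ j.succAbove) hfj x' y (G j) (p j) (by
    intro σ hσ
    obtain ⟨g1, g2⟩ := hE1 K L n _ x' _ hx' σ hσ
    constructor
    · intro h
      rw [← h] at hp
      rw [hp]
      rfl
    · intro h
      have h3 := heq j (pb σ x') g2 h
      exact hsep _ (hIndG K L (algebraMap K L) n _ _ (hind _ h3)) h3)
  obtain ⟨Ci, hCi⟩ := hPsi' i _ x hx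
  obtain ⟨Cj, hCj⟩ := hPsi' j _ x' hx'
  obtain ⟨e₁, a1, e₂, a2, a3, a4, a5, a6⟩ := Exc_side hSlo P hP D hD i p hfi.toFinset
    (fun σ => Real.log (x.v (σ (G i : L)))) Ci
    (dg K (G ∘ i.succAbove) / ((Emb K (G ∘ i.succAbove)).ncard : ℝ)) (by
      intro τ
      rw [← hps i, ← hCi τ, finsum_mem_eq_finite_toFinset_sum _ hfi])
  obtain ⟨f₁, b1, f₂, b2, b3, b4, b5, b6⟩ := Exc_side hSlo P hP D hD j p hfj.toFinset
    (fun σ => Real.log (x'.v (σ (G j : L)))) Cj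
    (dg K (G ∘ j.succAbove) / ((Emb K (G ∘ j.succAbove)).ncard : ℝ)) (by
      intro τ
      rw [← hps j, ← hCj τ, finsum_mem_eq_finite_toFinset_sum _ hfj])
  rw [hwi, hwj, a6, b6]
  -- minors
  obtain ⟨Δi, hΔi⟩ : ∃ d, d = |(Matrix.of fun a b => ev (G ∘ i.succAbove) (δ a) b).det| :=
    ⟨_, rfl⟩
  obtain ⟨Δj, hΔj⟩ : ∃ d, d = |(Matrix.of fun a b => ev (G ∘ j.succAbove) (δ a) b).det| :=
    ⟨_, rfl⟩
  rw [← hΔi, ← hΔj]
  have hkey : ∀ e ∈ P.support, ∀ e' ∈ P.support,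
      Real.log ‖P.coeff e‖ + ∑ l, (e l : ℝ) * p l =
        Real.log ‖P.coeff e'‖ + ∑ l, (e' l : ℝ) * p l →
      |(e i : ℝ) - e' i| * Δj = |(e j : ℝ) - e' j| * Δi := by
    intro e he e' he' h
    have h1 := hMnr n (Matrix.of fun a b => ev G (δ a) b) (fun l => (e l : ℝ) - e' l) (by
      funext a
      show ∑ l, ev G (δ a) l * ((e l : ℝ) - e' l) = 0
      rw [hp] at h
      exact Exc_ker P G y e e' he he' h (δ a)) i j
    rw [hΔi, hΔj]
    exact h1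
  have n1 : 0 ≤ Δi := by rw [hΔi]; exact abs_nonneg _
  have n2 : 0 ≤ Δj := by rw [hΔj]; exact abs_nonneg _
  have c1 := hkey e₁ a1 e₂ a2 (le_antisymm (a4 e₁ a1) (a3 e₂ a2))
  have c2 := hkey f₁ b1 f₂ b2 (le_antisymm (b4 f₁ b1) (b3 f₂ b2))
  -- bounds
  have d1 := b5 e₁ a1 a3
  have d2 := b5 e₂ a2 a4
  have d3 := a5 f₁ b1 b3
  have d4 := a5 f₂ b2 b4
  have d5 := a5 e₁ a1 a3
  have d6 := b5 f₁ b1 b3
  have u1 : |(e₁ i : ℝ) - e₂ i| = (e₁ i : ℝ) - e₂ i := abs_of_nonneg (by linarith [d5.1])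
  have u2 : |(f₁ j : ℝ) - f₂ j| = (f₁ j : ℝ) - f₂ j := abs_of_nonneg (by linarith [d6.1])
  have u3 : |(e₁ j : ℝ) - e₂ j| ≤ (f₁ j : ℝ) - f₂ j :=
    abs_le.mpr ⟨by linarith [d1.1, d2.2], by linarith [d1.2, d2.1]⟩
  have u4 : |(f₁ i : ℝ) - f₂ i| ≤ (e₁ i : ℝ) - e₂ i :=
    abs_le.mpr ⟨by linarith [d3.1, d4.2], by linarith [d3.2, d4.1]⟩
  rw [u1] at c1
  rw [u2] at c2
  have v1 : ((e₁ i : ℝ) - e₂ i) * Δj ≤ ((f₁ j : ℝ) - f₂ j) * Δi := by
    rw [c1]
    exact mul_le_mul_of_nonneg_right u3 n1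
  have v2 : ((f₁ j : ℝ) - f₂ j) * Δi ≤ ((e₁ i : ℝ) - e₂ i) * Δj := by
    rw [← c2]
    exact mul_le_mul_of_nonneg_right u4 n2
  have v3 := le_antisymm v1 v2
  rw [mul_assoc, mul_assoc, v3]

end TDC
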