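import Pool.Agent.TDC.St4

set_option autoImplicit false

/-!
# TDC, module ExtE: extensions by zero exist
-/

namespace TDC

open AlgebraicGeometry CategoryTheory
open scoped Topology

open Classical in
/-- the extension of a family by zero -/
private noncomputable def ExtE_ext {K : Type} [NormedField K] {X : Scheme.{0}} [IrreducibleSpace X]
    {s : X ⟶ Spec (.of K)} {p q : ℕ} (ω : Fam (kmap s (genericPoint X)) p q) : FamA s p q :=
  fun x => if h : x.1 = genericPoint X then
    (Sigma.casesOn (motive := fun x : An s => x.1 = genericPoint X →
      ((Fin p → Tan x.2) → (Fin q → Tan x.2) → ℝ)) x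
      (fun ξ v (h : ξ = genericPoint X) => by subst h; exact ω v) h) else 0

/-- **ExtE**. Extensions by zero exist. -/
theorem thm_ExtE : St_ExtE := by
  intro K _ X _ s p q ω
  refine ⟨ExtE_ext ω, ?_, ?_⟩
  · intro v
    have h : (gen s v).1 = genericPoint X := rfl
    exact (dif_pos h).trans rfl
  · intro x hx
    exact dif_neg hx

end TDC
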