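import Pool.Agent.TDC.StF

/-!
# TDC, FBdr: forms of type `(n,q)` vanish near the boundary of `N_ℝ(Σ)`
-/

namespace TDC

variable {n : ℕ}

private theorem FBdr_evm {G : AddSubgroup (Fin n → ℤ)} (δ : G →+ ℝ) {r : ℕ}
    (m : Fin r → Fin n → ℤ) (hm : ∀ l, m l ∈ G) (c : Fin r → ℤ)
    (hc : ∀ k, ∑ l, c l * m l k = 0) :
    ∑ l, evm δ (m l) * (c l : ℝ) = 0 := by
  have h1 : ∀ l, evm δ (m l) * (c l : ℝ) = δ (c l • (⟨m l, hm l⟩ : G)) := by
    intro l
    rw [map_zsmul, zsmul_eq_mul, mul_comm]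
    unfold evm
    rw [dif_pos (hm l)]
  have h2 : ∑ l, c l • (⟨m l, hm l⟩ : G) = 0 := by
    apply Subtype.ext
    rw [AddSubgroup.coe_zero]
    funext k
    have e : ((∑ l, c l • (⟨m l, hm l⟩ : G) : G) : Fin n → ℤ) = ∑ l, c l • m l := by
      rw [AddSubgroup.val_finsetSum]
      rfl
    rw [e, Finset.sum_apply]
    simpa using hc k
  rw [Finset.sum_congr rfl fun l _ => h1 l, ← map_sum, h2, map_zero]

private theorem FBdr_gen {V : Finset (Fin n → ℤ)} (h : coneOf V ≠ {0}) : ∃ v ∈ V, v ≠ 0 := by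
  by_contra hno
  have hz : ∀ v ∈ V, v = 0 := by
    intro v hv
    by_contra hv0
    exact hno ⟨v, hv, hv0⟩
  apply h
  ext u
  constructor
  · rintro ⟨a, _, rfl⟩
    rw [Set.mem_singleton_iff]
    apply Finset.sum_eq_zero
    intro v hv
    rw [hz v hv]
    funext k
    simp
  · intro hu
    rw [Set.mem_singleton_iff] at hu
    refine ⟨fun _ => 0, fun _ => le_rfl, ?_⟩
    rw [hu]
    simp

theorem thm_FBdr (h1 : St_FFace) : St_FBdr := by
  intro n Δ y z R q F α hy hF hz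
  have hle : Δ.perp y.i ≤ Δ.perp z.i := ((h1 n).1 (Δ.gens z.i) (Δ.gens y.i) hz).2
  obtain ⟨v, hv, hv0⟩ := FBdr_gen hy
  have hdet : ∀ (I : Fin n → Fin R) (δ : Fin n → Δ.perp z.i →+ ℝ),
      (Matrix.of fun k l => evm (δ k) (F (I l))).det = 0 := by
    intro I δ
    have hA : (Matrix.of fun l k => F (I l) k : Matrix (Fin n) (Fin n) ℤ).det = 0 := by
      rw [← Matrix.exists_mulVec_eq_zero_iff]
      refine ⟨v, hv0, ?_⟩
      funext l
      exact hF (I l) v hv
    rw [← Matrix.exists_vecMul_eq_zero_iff] at hA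
    obtain ⟨c, hc0, hc⟩ := hA
    rw [← Matrix.exists_mulVec_eq_zero_iff]
    refine ⟨fun l => (c l : ℝ), ?_, ?_⟩
    · intro h
      apply hc0
      funext l
      have h2 : (c l : ℝ) = 0 := congrFun h l
      show c l = 0
      exact_mod_cast h2
    · funext k
      exact FBdr_evm (δ k) (fun l => F (I l)) (fun l => hle (hF (I l))) c
        (fun k' => congrFun hc k')
  funext δ ε
  show ∑ I : Fin n → Fin R, (Matrix.of fun k l => evm (δ k) (F (I l))).det *
    α I (fun l => evm z.φ (F l)) (fun k l => evm (ε k) (F l)) = 0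
  apply Finset.sum_eq_zero
  intro I _
  rw [hdet I δ, zero_mul]

end TDC
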