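import Pool.Agent.TDC.StF

/-!
# TDC, module FCS: compact supports on the tropical toric variety
-/

set_option autoImplicit false

namespace TDC

open scoped Topology

private theorem FCS_pr_add {n : ℕ} (a b : Fin n → ℤ) (u : Fin n → ℝ) :
    pr (a + b) u = pr a u + pr b u := by
  simp only [pr, Pi.add_apply, Int.cast_add, add_mul, Finset.sum_add_distrib]

private theorem FCS_bound {n : ℕ} (V G : Finset (Fin n → ℤ))
    (hG : AddSubmonoid.closure (G : Set (Fin n → ℤ)) = dualOf V) (k : ℝ) (m : Fin n → ℤ)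
    (hm : m ∈ dualOf V) :
    ∃ c : ℝ, ∀ u : Fin n → ℝ, (∀ g ∈ G, pr g u ≤ k) → pr m u ≤ c := by
  rw [← hG] at hm
  induction hm using AddSubmonoid.closure_induction with
  | mem x hx => exact ⟨k, fun u hu => hu x hx⟩
  | zero => exact ⟨0, fun u _ => by simp [pr]⟩
  | add x y _ _ hx hy =>
    obtain ⟨a, ha⟩ := hx
    obtain ⟨b, hb⟩ := hy
    exact ⟨a + b, fun u hu => by rw [FCS_pr_add]; exact add_le_add (ha u hu) (hb u hu)⟩

private theorem FCS_cont_pr {n : ℕ} (g : Fin n → ℤ) : Continuous fun u : Fin n → ℝ => pr g u := by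
  unfold pr
  exact continuous_finsetSum _ fun k _ => continuous_const.mul (continuous_apply k)

private theorem FCS_mp {n : ℕ} (h1 : St_FGord) (h3 : St_FJ) (h4 : St_FVal) (Δ : Fan n) {q : ℕ}
    (γ : (Fin n → ℝ) → (Fin n → ℝ) [⋀^Fin q]→L[ℝ] ℝ) (i₀ : Δ.ι) (hi₀ : Δ.cone i₀ = {0})
    (hF : Fine Δ (tsupport γ)) (hC : CSuppT (extT Δ γ)) : HasCompactSupport γ := by
  classical
  obtain ⟨C, hCc, hC0⟩ := hC
  obtain ⟨v1, _, v3, v4⟩ := h4 n Δ
  obtain ⟨j1, j2, _, _⟩ := h3 n Δ i₀ hi₀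
  have := Δ.fin
  have hG' : ∀ i, ∃ S : Finset (Fin n → ℤ),
      AddSubmonoid.closure (S : Set (Fin n → ℤ)) = dualOf (Δ.gens i) := fun i => h1 n (Δ.gens i)
  choose G hG using hG'
  have hGd : ∀ i, ∀ g ∈ G i, g ∈ Δ.dual i := by
    intro i g hg
    show g ∈ dualOf (Δ.gens i)
    rw [← hG i]
    exact AddSubmonoid.subset_closure hg
  let O : ℕ → Set (NR Δ) := fun k => ⋃ i, {y : NR Δ | Δ.cone y.i ⊆ Δ.cone i ∧
    ∀ g ∈ G i, y.val g < Real.exp k}
  have hO : ∀ k, IsOpen (O k) := by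
    intro k
    refine isOpen_iUnion fun i => ?_
    have e : {y : NR Δ | Δ.cone y.i ⊆ Δ.cone i ∧ ∀ g ∈ G i, y.val g < Real.exp k} =
        {y : NR Δ | Δ.cone y.i ⊆ Δ.cone i} ∩ ⋂ g ∈ G i, ({y : NR Δ | Δ.cone y.i ⊆ Δ.cone i} ∩
          (fun y : NR Δ => y.val g) ⁻¹' Set.Iio (Real.exp k)) := by
      ext y
      simp only [Set.mem_inter_iff, Set.mem_iInter, Set.mem_preimage, Set.mem_Iio]
      constructor
      · rintro ⟨h, h'⟩
        exact ⟨h, fun g hg => ⟨h, h' g hg⟩⟩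
      · rintro ⟨h, h'⟩
        exact ⟨h, fun g hg => (h' g hg).2⟩
    rw [e]
    refine (v3 i).inter (isOpen_biInter_finset fun g hg => ?_)
    exact (v4 i ⟨g, hGd i g hg⟩).isOpen_inter_preimage (v3 i) isOpen_Iio
  have hcov : C ⊆ ⋃ k, O k := by
    intro y _
    obtain ⟨k, hk⟩ := exists_nat_ge (∑ g ∈ G y.i, y.val g)
    refine Set.mem_iUnion.2 ⟨k, Set.mem_iUnion.2 ⟨y.i, subset_rfl, fun g hg => ?_⟩⟩
    have h5 : y.val g ≤ ∑ g ∈ G y.i, y.val g :=
      Finset.single_le_sum (f := fun g => y.val g) (fun g _ => (v1 y).2.1 g) hg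
    have h6 := Real.add_one_le_exp (k : ℝ)
    linarith
  have hdir : Directed (· ⊆ ·) O := by
    refine Monotone.directed_le (f := O) ?_
    intro a b hab y hy
    obtain ⟨i, hi1, hi2⟩ := Set.mem_iUnion.1 hy
    refine Set.mem_iUnion.2 ⟨i, hi1, fun g hg => (hi2 g hg).trans_le ?_⟩
    exact Real.exp_le_exp.2 (by exact_mod_cast hab)
  obtain ⟨k, hk⟩ := hCc.elim_directed_cover O hO hcov hdir
  let T : Δ.ι → Set (Fin n → ℝ) := fun i => {u | ∀ g ∈ G i, pr g u ≤ k}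
  have hTcl : IsClosed (⋃ i, T i) := by
    refine isClosed_iUnion_of_finite fun i => ?_
    have e : T i = ⋂ g ∈ G i, {u | pr g u ≤ k} := by
      ext u
      simp only [T, Set.mem_iInter]
      exact Iff.rfl
    rw [e]
    exact isClosed_biInter fun g _ => isClosed_le (FCS_cont_pr g) continuous_const
  have hsub : tsupport γ ⊆ ⋃ i, T i := by
    refine closure_minimal ?_ hTcl
    intro u hu
    have hu' : γ u ≠ 0 := hu
    have hv : ∃ v, γ u v ≠ 0 := by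
      by_contra hcon
      push Not at hcon
      exact hu' (by ext v; exact hcon v)
    obtain ⟨v, hv⟩ := hv
    have hmem : jT Δ i₀ u ∈ C := by
      by_contra hcon
      have h5 := hC0 _ hcon
      have h6 : extT Δ γ (jT Δ i₀ u) (fun k => (jT Δ i₀ (Pi.single k 1)).φ)
          (fun k => (jT Δ i₀ (v k)).φ) = 0 := by
        rw [h5]; rfl
      unfold extT at h6
      rw [if_pos (show Δ.cone (jT Δ i₀ u).i = {0} from hi₀)] at h6
      have h7 : ∀ w : Fin n → ℝ, crd (jT Δ i₀ w).φ = w := j2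
      have h8 : (Matrix.of fun k l : Fin n =>
          crd (jT Δ i₀ (Pi.single k (1 : ℝ))).φ l) = (1 : Matrix (Fin n) (Fin n) ℝ) := by
        ext a b
        rw [Matrix.of_apply, h7, Matrix.one_apply, Pi.single_apply]
        by_cases hab : a = b
        · rw [if_pos hab, if_pos hab.symm]
        · rw [if_neg hab, if_neg (Ne.symm hab)]
      have h9 : (fun k => crd (jT Δ i₀ (v k)).φ) = v := funext fun k => h7 (v k)
      have h6' : (Matrix.of fun k l : Fin n =>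
          crd (jT Δ i₀ (Pi.single k (1 : ℝ))).φ l).det * γ (crd (jT Δ i₀ u).φ)
            (fun k => crd (jT Δ i₀ (v k)).φ) = 0 := h6
      rw [h8, Matrix.det_one, one_mul, h9, h7] at h6'
      exact hv h6'
    obtain ⟨i, hi1, hi2⟩ := Set.mem_iUnion.1 (hk hmem)
    refine Set.mem_iUnion.2 ⟨i, fun g hg => ?_⟩
    have h5 := hi2 g hg
    rw [j1] at h5
    exact (Real.exp_lt_exp.1 h5).le
  have hbd : Bornology.IsBounded (tsupport γ) := by
    have e : tsupport γ = ⋃ i, (tsupport γ ∩ T i) := by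
      rw [← Set.inter_iUnion, Set.inter_eq_left.2 hsub]
    rw [e, Bornology.isBounded_iUnion]
    intro i
    have hc : ∀ m : Δ.dual i, ∃ c : ℝ, ∀ u : Fin n → ℝ, (∀ g ∈ G i, pr g u ≤ k) →
        pr m u ≤ c := fun m => FCS_bound (Δ.gens i) (G i) (hG i) k m m.2
    choose c hc using hc
    exact (hF.2 i c).subset fun u hu => ⟨hu.1, fun m => hc m u hu.2⟩
  exact Metric.isCompact_of_isClosed_isBounded (isClosed_tsupport γ) hbd

private theorem FCS_mpr {n : ℕ} (h3 : St_FJ) (Δ : Fan n) {q : ℕ}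
    (γ : (Fin n → ℝ) → (Fin n → ℝ) [⋀^Fin q]→L[ℝ] ℝ) (i₀ : Δ.ι) (hi₀ : Δ.cone i₀ = {0})
    (hC : HasCompactSupport γ) : CSuppT (extT Δ γ) := by
  obtain ⟨_, _, j3, j4⟩ := h3 n Δ i₀ hi₀
  refine ⟨jT Δ i₀ '' tsupport γ, hC.isCompact.image j4.continuous, fun y hy => ?_⟩
  funext δ ε
  unfold extT
  by_cases h : Δ.cone y.i = {0}
  · rw [if_pos h]
    have h5 : crd y.φ ∉ tsupport γ := fun h6 => hy ⟨_, h6, (j3 y h).symm⟩
    rw [image_eq_zero_of_notMem_tsupport h5]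
    exact mul_zero _
  · rw [if_neg h]
    rfl

theorem thm_FCS (h1 : St_FGord) (h2 : St_FZero) (h3 : St_FJ) (h4 : St_FVal) : St_FCS := by
  intro n Δ q γ hF
  obtain ⟨⟨i₀, hi₀⟩, _⟩ := h2 n Δ
  exact ⟨FCS_mp h1 h3 h4 Δ γ i₀ hi₀ hF, FCS_mpr h3 Δ γ i₀ hi₀⟩

end TDC
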