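import Pool.Agent.TDC.StF

/-!
# TDC, module FCpt: compactness in `N_ℝ(Σ)` (ultrafilters)
-/

namespace TDC

open scoped Topology
open Filter

theorem FCpt_pr {n : ℕ} {V : Finset (Fin n → ℤ)} {m : Fin n → ℤ} (hm : m ∈ perpOf V)
    {u : Fin n → ℝ} (hu : u ∈ coneOf V) : pr m u = 0 := by
  obtain ⟨a, -, rfl⟩ := hu
  unfold pr
  have h : ∀ k, (m k : ℝ) * (∑ v ∈ V, a v • fun k => (v k : ℝ)) k =
      ∑ v ∈ V, a v * ((m k : ℝ) * v k) := by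
    intro k
    rw [Finset.sum_apply, Finset.mul_sum]
    refine Finset.sum_congr rfl fun v _ => ?_
    rw [Pi.smul_apply, smul_eq_mul]
    ring
  rw [Finset.sum_congr rfl fun k _ => h k, Finset.sum_comm]
  refine Finset.sum_eq_zero fun v hv => ?_
  rw [← Finset.mul_sum]
  have h2 := hm v hv
  have h3 : ∑ k, (m k : ℝ) * (v k : ℝ) = 0 := by exact_mod_cast h2
  rw [h3, mul_zero]

theorem FCpt_pow (hVal : St_FVal) {n : ℕ} {Δ : Fan n} (y : NR Δ) {m : Fin n → ℤ}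
    (hm : m ∈ Δ.dual y.i) (r : ℕ) : y.val (r • m) = y.val m ^ r := by
  obtain ⟨h0, -, hmul, -, -⟩ := (hVal n Δ).1 y
  induction r with
  | zero => rw [zero_smul, pow_zero]; exact h0
  | succ r ih =>
    rw [succ_nsmul, hmul _ ((Δ.dual y.i).nsmul_mem hm r) _ hm, ih, pow_succ]

theorem thm_FCpt (hHom : St_FHom) (hFace : St_FFace) (hVal : St_FVal) : St_FCpt := by
  intro n Δ i c
  rw [isCompact_iff_ultrafilter_le_nhds]
  intro 𝒰 hU
  have hS : ∀ᶠ z in (𝒰 : Filter (NR Δ)), Δ.cone z.i ⊆ Δ.cone i ∧ ∀ m : Δ.dual i, z.val m ≤ c m :=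
    Filter.le_principal_iff.1 hU
  -- the limits
  have hlim : ∀ m : Δ.dual i, ∃ w : ℝ, (0 ≤ w ∧ w ≤ c m) ∧
      Tendsto (fun z : NR Δ => z.val m) (𝒰 : Filter (NR Δ)) (𝓝 w) := by
    intro m
    have hmem : ((𝒰.map fun z : NR Δ => z.val m : Ultrafilter ℝ) : Filter ℝ) ≤
        𝓟 (Set.Icc 0 (c m)) := by
      rw [Filter.le_principal_iff, Ultrafilter.coe_map, Filter.mem_map]
      filter_upwards [hS] with z hz
      exact ⟨((hVal n Δ).1 z).2.1 _, hz.2 m⟩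
    obtain ⟨w, hw, hw'⟩ := isCompact_Icc.ultrafilter_le_nhds _ hmem
    exact ⟨w, ⟨hw.1, hw.2⟩, hw'⟩
  choose w hwc hwt using hlim
  have hdual : ∀ z : NR Δ, ∀ j, Δ.cone z.i ⊆ Δ.cone j → ∀ m ∈ Δ.dual j, m ∈ Δ.dual z.i :=
    fun z j h m hm => ((hFace n).1 _ _ h).1 hm
  have hw0 : w 0 = 1 := by
    have h1 : (fun z : NR Δ => z.val ((0 : Δ.dual i) : Fin n → ℤ)) = fun _ => (1 : ℝ) := by
      funext z
      exact ((hVal n Δ).1 z).1
    have h2 := hwt 0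
    rw [h1] at h2
    exact tendsto_nhds_unique h2 tendsto_const_nhds
  have hwm : ∀ a b, w (a + b) = w a * w b := by
    intro a b
    have h1 : Tendsto (fun z : NR Δ => z.val ((a + b : Δ.dual i) : Fin n → ℤ))
        (𝒰 : Filter (NR Δ)) (𝓝 (w a * w b)) := by
      refine ((hwt a).mul (hwt b)).congr' ?_
      filter_upwards [hS] with z hz
      have h2 := ((hVal n Δ).1 z).2.2.1 a (hdual z i hz.1 _ a.2) b (hdual z i hz.1 _ b.2)
      exact h2.symm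
    exact tendsto_nhds_unique (hwt (a + b)) h1
  obtain ⟨y, hyi, hyw⟩ := hHom n Δ i w hw0 hwm fun a => (hwc a).1
  refine ⟨y, ⟨hyi, fun m => (hyw m).le.trans (hwc m).2⟩, ?_⟩
  have hgen := TopologicalSpace.nhds_generateFrom (α := NR Δ)
    (g := {T | ∃ (j : Δ.ι) (m : Δ.dual j) (a b : ℝ),
      T = {y | Δ.cone y.i ⊆ Δ.cone j ∧ a < y.val m ∧ y.val m < b}}) (a := y)
  refine le_trans ?_ hgen.ge
  refine le_iInf₂ fun T hT => ?_
  obtain ⟨hyT, j, m', a, b, rfl⟩ := hT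
  obtain ⟨hyj, hya, hyb⟩ := hyT
  rw [Filter.le_principal_iff]
  obtain ⟨k, hk, ⟨m₀, hm₀, hkf⟩, -⟩ := Δ.inter i j
  have hyk : Δ.cone y.i ⊆ Δ.cone k := by
    intro u hu
    show u ∈ coneOf (Δ.gens k)
    rw [hk]
    exact ⟨hyi hu, hyj hu⟩
  obtain ⟨hmk, hdk⟩ := (hFace n).2 _ _ m₀ hm₀ hkf
  have hmy : m₀ ∈ Δ.perp y.i := ((hFace n).1 _ _ hyk).2 hmk
  have hy0 : y.val m₀ ≠ 0 := (((hVal n Δ).1 y).2.2.2.1 m₀).2 hmy
  have hjk : Δ.cone k ⊆ Δ.cone j := by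
    intro u hu
    have hu' : u ∈ coneOf (Δ.gens k) := hu
    rw [hk] at hu'
    exact hu'.2
  have hm'k : (m' : Fin n → ℤ) ∈ dualOf (Δ.gens k) := ((hFace n).1 _ _ hjk).1 m'.2
  obtain ⟨r, hr⟩ := (hdk m').1 hm'k
  have ht0 : Tendsto (fun z : NR Δ => z.val m₀) (𝒰 : Filter (NR Δ)) (𝓝 (y.val m₀)) := by
    have h1 := hwt ⟨m₀, hm₀⟩
    rw [← hyw ⟨m₀, hm₀⟩] at h1
    exact h1
  have htr : Tendsto (fun z : NR Δ => z.val ((m' : Fin n → ℤ) + r • m₀)) (𝒰 : Filter (NR Δ))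
      (𝓝 (y.val ((m' : Fin n → ℤ) + r • m₀))) := by
    have h1 := hwt ⟨(m' : Fin n → ℤ) + r • m₀, hr⟩
    rw [← hyw ⟨(m' : Fin n → ℤ) + r • m₀, hr⟩] at h1
    exact h1
  -- the formula for the value
  have hform : ∀ z : NR Δ, Δ.cone z.i ⊆ Δ.cone i → Δ.cone z.i ⊆ Δ.cone j → z.val m₀ ≠ 0 →
      z.val m' = z.val ((m' : Fin n → ℤ) + r • m₀) / z.val m₀ ^ r := by
    intro z hzi hzj hz0
    have h1 := hdual z i hzi m₀ hm₀
    have h2 := hdual z j hzj m' m'.2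
    rw [((hVal n Δ).1 z).2.2.1 _ h2 _ ((Δ.dual z.i).nsmul_mem h1 r), FCpt_pow hVal z h1 r]
    rw [mul_div_assoc, div_self (pow_ne_zero r hz0), mul_one]
  have hev : ∀ᶠ z in (𝒰 : Filter (NR Δ)), Δ.cone z.i ⊆ Δ.cone i ∧ Δ.cone z.i ⊆ Δ.cone j ∧
      z.val m₀ ≠ 0 := by
    filter_upwards [hS, ht0.eventually_ne hy0] with z hz hz0
    refine ⟨hz.1, ?_, hz0⟩
    have hp : m₀ ∈ Δ.perp z.i := (((hVal n Δ).1 z).2.2.2.1 m₀).1 hz0
    intro u hu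
    apply hjk
    show u ∈ coneOf (Δ.gens k)
    rw [hkf]
    exact ⟨hz.1 hu, FCpt_pr hp hu⟩
  have ht : Tendsto (fun z : NR Δ => z.val m') (𝒰 : Filter (NR Δ)) (𝓝 (y.val m')) := by
    rw [hform y hyi hyj hy0]
    refine (htr.div (ht0.pow r) (pow_ne_zero r hy0)).congr' ?_
    filter_upwards [hev] with z hz
    exact (hform z hz.1 hz.2.1 hz.2.2).symm
  filter_upwards [hev, ht.eventually_lt_const hyb, ht.eventually_const_lt hya] with z h1 h2 h3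
  exact ⟨h1.2.1, h3, h2⟩

end TDC
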