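import Pool.Agent.TDC.StF

/-!
# TDC, module FDiv: top forms and divergences on `ℝ^(m+1)`
-/

namespace TDC

open scoped Topology

private lemma FDiv_top (m : ℕ) (g : (Fin (m + 1) → ℝ) [⋀^Fin (m + 1)]→L[ℝ] ℝ) :
    g = (g fun k => Pi.single k 1) • dx id := by
  have h := AlternatingMap.eq_smul_basis_det (Pi.basisFun ℝ (Fin (m + 1)))
    g.toAlternatingMap
  ext v
  have h2 := congrArg (fun f => f v) h
  have h3 : (⇑(Pi.basisFun ℝ (Fin (m + 1))) : Fin (m + 1) → Fin (m + 1) → ℝ) =
      fun k => Pi.single k 1 := by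
    funext k
    exact Pi.basisFun_apply ℝ _ k
  rw [h3] at h2
  simp only [ContinuousAlternatingMap.coe_toAlternatingMap, AlternatingMap.smul_apply,
    Pi.basisFun_det, smul_eq_mul] at h2
  rw [ContinuousAlternatingMap.smul_apply, smul_eq_mul, dx_apply]
  exact h2

private lemma FDiv_det (m : ℕ) (i j : Fin (m + 1)) :
    dx j.succAbove (i.removeNth fun k => (Pi.single k 1 : Fin (m + 1) → ℝ)) =
      if i = j then 1 else 0 := by
  rw [dx_apply]
  split_ifs with h
  · subst h
    have e : (Matrix.of fun a b : Fin m =>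
        (i.removeNth fun k => (Pi.single k 1 : Fin (m + 1) → ℝ)) a (i.succAbove b)) = 1 := by
      ext a b
      simp only [Matrix.of_apply, Fin.removeNth, Pi.single_apply, Matrix.one_apply,
        Fin.succAbove_right_inj, eq_comm]
    rw [e, Matrix.det_one]
  · obtain ⟨a, ha⟩ := Fin.exists_succAbove_eq (Ne.symm h)
    apply Matrix.det_eq_zero_of_row_eq_zero a
    intro b
    simp only [Matrix.of_apply, Fin.removeNth, ha]
    exact Pi.single_eq_of_ne (Fin.succAbove_ne j b) 1

private lemma FDiv_ext (m : ℕ) (β : (Fin (m + 1) → ℝ) → (Fin (m + 1) → ℝ) [⋀^Fin m]→L[ℝ] ℝ)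
    (hβ : ContDiff ℝ (⊤ : ℕ∞) β) (c : Fin (m + 1) → (Fin (m + 1) → ℝ) → ℝ)
    (hc : ∀ i u, β u (i.removeNth fun k => (Pi.single k 1 : Fin (m + 1) → ℝ)) = (-1) ^ i.val * c i u)
    (u : Fin (m + 1) → ℝ) :
    extDeriv β u = (∑ j, fderiv ℝ (c j) u (Pi.single j 1)) • dx id := by
  rw [FDiv_top m (extDeriv β u)]
  congr 1
  rw [extDeriv_apply (hβ.differentiable (by simp) u)]
  refine Finset.sum_congr rfl fun i _ => ?_
  have e : (fun x => β x (i.removeNth fun k => (Pi.single k 1 : Fin (m + 1) → ℝ))) =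
      fun x => (-1) ^ i.val * c i x := by
    funext x
    exact hc i x
  rw [e]
  have e2 : fderiv ℝ (fun x => (-1 : ℝ) ^ i.val * c i x) u =
      (-1 : ℝ) ^ i.val • fderiv ℝ (c i) u :=
    congrFun (fderiv_const_smul_field (𝕜 := ℝ) (f := c i) ((-1 : ℝ) ^ i.val)) u
  rw [e2]
  simp only [smul_apply, smul_eq_mul, zsmul_eq_mul]
  push_cast
  rw [← mul_assoc, ← mul_pow]
  norm_num

theorem thm_FDiv : St_FDiv := by
  intro m
  refine ⟨fun γ => ?_, fun c hc => ?_, fun β hβ => ?_⟩
  · funext u
    exact FDiv_top m (γ u)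
  · refine ⟨fun u => ∑ j, ((-1) ^ j.val * c j u) • dx j.succAbove, ?_, ?_, fun u => ?_⟩
    · exact ContDiff.sum fun j _ => (contDiff_const.mul (hc j)).smul contDiff_const
    · refine closure_minimal ?_ (isClosed_iUnion_of_finite fun j => isClosed_tsupport _)
      intro u hu
      by_contra hcon
      apply hu
      apply Finset.sum_eq_zero
      intro j _
      have h1 : c j u = 0 := by
        apply image_eq_zero_of_notMem_tsupport
        intro h2
        exact hcon (Set.mem_iUnion.mpr ⟨j, h2⟩)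
      rw [h1, mul_zero, zero_smul]
    · apply FDiv_ext
      · exact ContDiff.sum fun j _ => (contDiff_const.mul (hc j)).smul contDiff_const
      · intro i u
        rw [ContinuousAlternatingMap.sum_apply, Finset.sum_eq_single i]
        · rw [ContinuousAlternatingMap.smul_apply, FDiv_det, if_pos rfl, smul_eq_mul, mul_one]
        · intro j _ hj
          rw [ContinuousAlternatingMap.smul_apply, FDiv_det, if_neg (Ne.symm hj), smul_zero]
        · intro h
          exact absurd (Finset.mem_univ _) h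
  · refine ⟨fun i u => (-1) ^ i.val * β u (i.removeNth fun k => (Pi.single k 1 : Fin (m + 1) → ℝ)), fun j => ⟨?_, ?_⟩,
      fun u => ?_⟩
    · apply contDiff_const.mul
      exact (ContinuousAlternatingMap.apply ℝ (Fin (m + 1) → ℝ) ℝ
        (j.removeNth fun k => (Pi.single k 1 : Fin (m + 1) → ℝ))).contDiff.comp hβ
    · apply closure_mono
      intro u hu h0
      apply hu
      simp only [h0]
      simp
    · apply FDiv_ext _ _ hβ
      intro i u
      rw [← mul_assoc, ← mul_pow]
      norm_num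

end TDC
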