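import Pool.Agent.TDC.StF

/-!
# TDC [FFark] : Farkas lemma with integral inequalities (helper89)
-/

set_option autoImplicit false

namespace TDC

private theorem FFark_aux {ι : Type} [DecidableEq ι] {n : ℕ} (S : Finset ι) :
    ∀ (g : ι → (Fin n → ℚ) → ℚ) (f : (Fin n → ℚ) → ℝ),
      (∀ i x y, g i (x + y) = g i x + g i y) → (∀ i (q : ℚ) x, g i (q • x) = q * g i x) →
      (∀ x y, f (x + y) = f x + f y) → (∀ (q : ℚ) x, f (q • x) = (q : ℝ) * f x) →
      (∀ x, (∀ i ∈ S, 0 ≤ g i x) → 0 ≤ f x) →
      ∃ α : ι → ℝ, (∀ i, 0 ≤ α i) ∧ ∀ x, f x = ∑ i ∈ S, α i * (g i x : ℝ) := by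
  induction S using Finset.induction_on with
  | empty =>
    intro g f _ _ _ hf2 h
    refine ⟨fun _ => 0, fun _ => le_rfl, fun x => ?_⟩
    have h1 := h x (fun i hi => absurd hi (Finset.notMem_empty i))
    have h2 := h ((-1 : ℚ) • x) (fun i hi => absurd hi (Finset.notMem_empty i))
    rw [hf2] at h2
    push_cast at h2
    rw [Finset.sum_empty]
    linarith
  | insert i₀ S hi₀ ih =>
    intro g f hg1 hg2 hf1 hf2 h
    by_cases hA : ∀ x, (∀ i ∈ S, 0 ≤ g i x) → 0 ≤ f x
    · obtain ⟨α, hα, hα2⟩ := ih g f hg1 hg2 hf1 hf2 hA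
      refine ⟨Function.update α i₀ 0, fun i => ?_, fun x => ?_⟩
      · by_cases hi : i = i₀
        · rw [hi, Function.update_self]
        · rw [Function.update_of_ne hi]
          exact hα i
      · rw [Finset.sum_insert hi₀, Function.update_self, zero_mul, zero_add, hα2 x]
        refine Finset.sum_congr rfl (fun i hi => ?_)
        rw [Function.update_of_ne (fun he : i = i₀ => hi₀ (he ▸ hi))]
    · push Not at hA
      obtain ⟨w, hw1, hw2⟩ := hA
      have hw3 : g i₀ w < 0 := by
        by_contra hc
        refine absurd (h w (fun i hi => ?_)) (not_le.2 hw2)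
        rw [Finset.mem_insert] at hi
        rcases hi with rfl | hi
        · exact not_lt.1 hc
        · exact hw1 i hi
      have hne : g i₀ w ≠ 0 := hw3.ne
      obtain ⟨t, ht0, ht⟩ : ∃ t : ℚ, 0 < t ∧ t * g i₀ w = -1 := by
        refine ⟨-(g i₀ w)⁻¹, ?_, ?_⟩
        · exact neg_pos.2 (inv_lt_zero.2 hw3)
        · rw [neg_mul, inv_mul_cancel₀ hne]
      have ht0' : (0 : ℝ) < (t : ℝ) := by exact_mod_cast ht0
      obtain ⟨z, hz1, hz2, hz3⟩ : ∃ z : Fin n → ℚ, g i₀ z = -1 ∧ (∀ i ∈ S, 0 ≤ g i z) ∧
          f z < 0 := by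
        refine ⟨t • w, ?_, fun i hi => ?_, ?_⟩
        · rw [hg2, ht]
        · rw [hg2]
          exact mul_nonneg ht0.le (hw1 i hi)
        · rw [hf2]
          exact mul_neg_of_pos_of_neg ht0' hw2
      obtain ⟨α, hα, hα2⟩ := ih (fun i x => g i x + g i z * g i₀ x)
        (fun x => f x + f z * (g i₀ x : ℝ))
        (fun i x y => by beta_reduce; rw [hg1, hg1]; ring)
        (fun i q x => by beta_reduce; rw [hg2, hg2]; ring)
        (fun x y => by beta_reduce; rw [hf1, hg1]; push_cast; ring)
        (fun q x => by beta_reduce; rw [hf2, hg2]; push_cast; ring)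
        (fun x hx => by
          have h4 : 0 ≤ f (x + g i₀ x • z) := by
            refine h _ (fun i hi => ?_)
            rw [hg1, hg2]
            rw [Finset.mem_insert] at hi
            rcases hi with rfl | hi
            · rw [hz1]
              linarith
            · have := hx i hi
              beta_reduce at this
              linarith
          rw [hf1, hf2] at h4
          beta_reduce
          linarith)
      refine ⟨Function.update α i₀ (∑ i ∈ S, α i * (g i z : ℝ) - f z), fun i => ?_, fun x => ?_⟩
      · by_cases hi : i = i₀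
        · rw [hi, Function.update_self]
          have h5 : 0 ≤ ∑ i ∈ S, α i * (g i z : ℝ) := by
            refine Finset.sum_nonneg (fun i hi => mul_nonneg (hα i) ?_)
            exact_mod_cast hz2 i hi
          linarith
        · rw [Function.update_of_ne hi]
          exact hα i
      · rw [Finset.sum_insert hi₀, Function.update_self]
        have h6 : ∑ i ∈ S, Function.update α i₀ (∑ i ∈ S, α i * (g i z : ℝ) - f z) i *
            (g i x : ℝ) = ∑ i ∈ S, α i * (g i x : ℝ) := by
          refine Finset.sum_congr rfl (fun i hi => ?_)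
          rw [Function.update_of_ne (fun he : i = i₀ => hi₀ (he ▸ hi))]
        rw [h6]
        have h7 := hα2 x
        beta_reduce at h7
        have h8 : ∑ i ∈ S, α i * ((g i x + g i z * g i₀ x : ℚ) : ℝ) =
            ∑ i ∈ S, α i * (g i x : ℝ) + (∑ i ∈ S, α i * (g i z : ℝ)) * (g i₀ x : ℝ) := by
          rw [Finset.sum_mul, ← Finset.sum_add_distrib]
          refine Finset.sum_congr rfl (fun i _ => ?_)
          push_cast
          ring
        rw [h8] at h7
        linarith

/-- **FFark** (Farkas lemma with integral inequalities) -/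
theorem thm_FFark : St_FFark := by
  classical
  intro n V u hu
  obtain ⟨α, hα, hα2⟩ := FFark_aux (n := n) V (fun v x => ∑ k, (v k : ℚ) * x k)
    (fun x => ∑ k, (x k : ℝ) * u k)
    (fun i x y => by
      rw [← Finset.sum_add_distrib]
      exact Finset.sum_congr rfl (fun k _ => by rw [Pi.add_apply]; ring))
    (fun i q x => by
      rw [Finset.mul_sum]
      exact Finset.sum_congr rfl (fun k _ => by rw [Pi.smul_apply, smul_eq_mul]; ring))
    (fun x y => by
      rw [← Finset.sum_add_distrib]
      exact Finset.sum_congr rfl (fun k _ => by rw [Pi.add_apply]; push_cast; ring))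
    (fun q x => by
      rw [Finset.mul_sum]
      exact Finset.sum_congr rfl (fun k _ => by
        rw [Pi.smul_apply, smul_eq_mul]; push_cast; ring))
    (fun x hx => by
      obtain ⟨N, hN⟩ : ∃ N : ℕ, N = ∏ k, (x k).den := ⟨_, rfl⟩
      have hNpos : 0 < N := by
        rw [hN]
        exact Finset.prod_pos (fun k _ => (x k).den_pos)
      have hm : ∀ k, ∃ m : ℤ, (m : ℚ) = N * x k := by
        intro k
        obtain ⟨c, hc⟩ := Finset.dvd_prod_of_mem (fun k => (x k).den) (Finset.mem_univ k)
        refine ⟨(x k).num * c, ?_⟩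
        rw [← hN] at hc
        have h1 : x k * ((x k).den : ℚ) = ((x k).num : ℚ) := Rat.mul_den_eq_num (x k)
        rw [hc]
        push_cast
        rw [← h1]
        ring
      choose m hm using hm
      have hmem : m ∈ dualOf V := by
        intro v hv
        have h2 : (0 : ℚ) ≤ ((∑ k, m k * v k : ℤ) : ℚ) := by
          have h3 : ((∑ k, m k * v k : ℤ) : ℚ) = N * ∑ k, (v k : ℚ) * x k := by
            push_cast
            rw [Finset.mul_sum]
            exact Finset.sum_congr rfl (fun k _ => by rw [hm k]; ring)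
          rw [h3]
          exact mul_nonneg (Nat.cast_nonneg N) (hx v hv)
        exact_mod_cast h2
      have h4 := hu m hmem
      unfold pr at h4
      have h5 : ∑ k, (m k : ℝ) * u k = (N : ℝ) * ∑ k, (x k : ℝ) * u k := by
        rw [Finset.mul_sum]
        refine Finset.sum_congr rfl (fun k _ => ?_)
        have h6 : ((m k : ℚ) : ℝ) = (((N : ℚ) * x k : ℚ) : ℝ) := by rw [hm k]
        push_cast at h6
        rw [h6]
        ring
      rw [h5] at h4
      have hN' : (0 : ℝ) < N := by exact_mod_cast hNpos
      exact nonneg_of_mul_nonneg_right h4 hN')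
  refine ⟨α, hα, ?_⟩
  funext k
  have h9 := hα2 (Pi.single k 1)
  beta_reduce at h9
  have h10 : ∑ j, (((Pi.single k 1 : Fin n → ℚ) j : ℚ) : ℝ) * u j = u k := by
    rw [Finset.sum_eq_single k]
    · rw [Pi.single_eq_same]
      push_cast
      ring
    · intro j _ hj
      rw [Pi.single_eq_of_ne hj]
      push_cast
      ring
    · intro hk
      exact absurd (Finset.mem_univ k) hk
  rw [h10] at h9
  rw [h9, Finset.sum_apply]
  refine Finset.sum_congr rfl (fun v _ => ?_)
  rw [Pi.smul_apply, smul_eq_mul]
  congr 1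
  have h11 : ∑ j, (v j : ℚ) * (Pi.single k 1 : Fin n → ℚ) j = (v k : ℚ) := by
    rw [Finset.sum_eq_single k]
    · rw [Pi.single_eq_same, mul_one]
    · intro j _ hj
      rw [Pi.single_eq_of_ne hj, mul_zero]
    · intro hk
      exact absurd (Finset.mem_univ k) hk
  rw [h11]
  push_cast
  rfl

end TDC
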