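import Pool.Agent.TDC.StF

/-!
# TDC, module FFin: the fine sets are the subsets of the open stratum which are closed in `N_ℝ(Σ)`
-/

namespace TDC

open scoped Topology

private theorem FFin_pr_add {n : ℕ} (a b : Fin n → ℤ) (u : Fin n → ℝ) :
    pr (a + b) u = pr a u + pr b u := by
  simp only [pr, Pi.add_apply, Int.cast_add, add_mul, Finset.sum_add_distrib]

private theorem FFin_pr_zero {n : ℕ} (u : Fin n → ℝ) : pr (0 : Fin n → ℤ) u = 0 := by
  simp [pr]

/-- bounds on generators give bounds on the whole dual monoid -/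
private theorem FFin_bound {n : ℕ} (G : Set (Fin n → ℤ)) (P : AddSubmonoid (Fin n → ℤ))
    (hG : AddSubmonoid.closure G = P) (c : (Fin n → ℤ) → ℝ) :
    ∀ m ∈ P, ∃ C : ℝ, ∀ u : Fin n → ℝ, (∀ g ∈ G, pr g u ≤ c g) → pr m u ≤ C := by
  intro m hm
  rw [← hG] at hm
  induction hm using AddSubmonoid.closure_induction with
  | mem g hg => exact ⟨c g, fun u hu => hu g hg⟩
  | zero => exact ⟨0, fun u _ => (FFin_pr_zero u).le⟩
  | add a b _ _ ha hb =>
    obtain ⟨A, hA⟩ := ha
    obtain ⟨B, hB⟩ := hb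
    refine ⟨A + B, fun u hu => ?_⟩
    rw [FFin_pr_add]
    exact add_le_add (hA u hu) (hB u hu)

private theorem FFin_abs {n : ℕ} (m : Fin n → ℤ) (u : Fin n → ℝ) {R : ℝ} (hu : ‖u‖ ≤ R) :
    -((∑ k, |(m k : ℝ)|) * R) ≤ pr m u := by
  have h : |pr m u| ≤ (∑ k, |(m k : ℝ)|) * R := by
    unfold pr
    rw [Finset.sum_mul]
    refine (Finset.abs_sum_le_sum_abs _ _).trans (Finset.sum_le_sum fun k _ => ?_)
    rw [abs_mul]
    refine mul_le_mul_of_nonneg_left ?_ (abs_nonneg _)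
    exact (norm_le_pi_norm u k).trans hu
  exact (abs_le.mp h).1

/-- **FFin.** -/
theorem thm_FFin (hGord : St_FGord) (hZero : St_FZero) (hJ : St_FJ) (hCpt : St_FCpt)
    (hVal : St_FVal) : St_FFin := by
  classical
  intro n Δ i₀ hi₀ S
  obtain ⟨hJ1, hJ2, hJ3, hJ4⟩ := hJ n Δ i₀ hi₀
  obtain ⟨-, hZ2, -, hZ4⟩ := hZero n Δ
  obtain ⟨hV1, -, -, -⟩ := hVal n Δ
  constructor
  · rintro ⟨hcl, hbd⟩
    rw [← isOpen_compl_iff, isOpen_iff_mem_nhds]
    intro y hy
    by_cases hy0 : Δ.cone y.i = {0}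
    · have hyu := hJ3 y hy0
      have hopen : IsOpen (jT Δ i₀ '' Sᶜ) := hJ4.isOpenMap _ hcl.isOpen_compl
      have hmem : y ∈ jT Δ i₀ '' Sᶜ := by
        refine ⟨crd y.φ, ?_, hyu.symm⟩
        intro hc
        exact hy ⟨crd y.φ, hc, hyu.symm⟩
      refine Filter.mem_of_superset (hopen.mem_nhds hmem) ?_
      rintro z ⟨u, hu, rfl⟩ ⟨v, hv, hvu⟩
      rw [hJ4.injective hvu] at hv
      exact hu hv
    · obtain ⟨G, hG⟩ := hGord n (Δ.gens y.i)
      obtain ⟨m₁, hm₁, hm₁p⟩ := hZ4 y.i hy0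
      set c : (Fin n → ℤ) → ℝ := fun g => Real.log (y.val g + 1) with hc
      have hpos : ∀ g, 0 < y.val g + 1 := fun g => by
        have := (hV1 y).2.1 g
        linarith
      have hexp : ∀ g, Real.exp (c g) = y.val g + 1 := fun g => Real.exp_log (hpos g)
      have hB := FFin_bound (G : Set (Fin n → ℤ)) (Δ.dual y.i) hG c
      choose! C hC using hB
      have hbdd := hbd y.i (fun m => C m)
      obtain ⟨R, hR⟩ := hbdd.exists_norm_le
      set D : ℝ := (∑ k, |(m₁ k : ℝ)|) * R with hD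
      have hGd : ∀ g ∈ G, g ∈ Δ.dual y.i := by
        intro g hg
        have : g ∈ AddSubmonoid.closure (G : Set (Fin n → ℤ)) := AddSubmonoid.subset_closure hg
        rw [hG] at this
        exact this
      have hO : ∀ (m : Fin n → ℤ) (b : ℝ), m ∈ Δ.dual y.i →
          IsOpen {z : NR Δ | Δ.cone z.i ⊆ Δ.cone y.i ∧ -1 < z.val m ∧ z.val m < b} := by
        intro m b hm
        exact TopologicalSpace.isOpen_generateFrom_of_mem ⟨y.i, ⟨m, hm⟩, -1, b, rfl⟩
      have hN : (⋂ g ∈ G, {z : NR Δ | Δ.cone z.i ⊆ Δ.cone y.i ∧ -1 < z.val g ∧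
            z.val g < Real.exp (c g)}) ∩
          {z : NR Δ | Δ.cone z.i ⊆ Δ.cone y.i ∧ -1 < z.val m₁ ∧ z.val m₁ < Real.exp (-D)}
          ∈ 𝓝 y := by
        refine Filter.inter_mem ?_ ?_
        · rw [Filter.biInter_finset_mem]
          intro g hg
          refine (hO g _ (hGd g hg)).mem_nhds ⟨subset_rfl, ?_, ?_⟩
          · have := (hV1 y).2.1 g
            linarith
          · rw [hexp]
            linarith
        · refine (hO m₁ _ hm₁).mem_nhds ⟨subset_rfl, ?_, ?_⟩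
          · have := (hV1 y).2.1 m₁
            linarith
          · have h0 : y.val m₁ = 0 := by
              by_contra hne
              exact hm₁p (((hV1 y).2.2.2.1 m₁).mp hne)
            rw [h0]
            exact Real.exp_pos _
      refine Filter.mem_of_superset hN ?_
      rintro z ⟨hz1, hz2⟩ ⟨u, hu, rfl⟩
      rw [Set.mem_iInter₂] at hz1
      have hg : ∀ g ∈ (G : Set (Fin n → ℤ)), pr g u ≤ c g := by
        intro g hg
        have h := (hz1 g hg).2.2
        rw [hJ1, Real.exp_lt_exp] at h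
        exact h.le
      have hmem : u ∈ S ∩ {u | ∀ m : Δ.dual y.i, pr m u ≤ C m} :=
        ⟨hu, fun m => hC m m.2 u hg⟩
      have h1 := FFin_abs m₁ u (hR u hmem)
      have h2 := hz2.2.2
      rw [hJ1, Real.exp_lt_exp] at h2
      linarith
  · intro hcl
    have hpre : jT Δ i₀ ⁻¹' (jT Δ i₀ '' S) = S := Set.preimage_image_eq S hJ4.injective
    refine ⟨?_, ?_⟩
    · rw [← hpre]
      exact hcl.preimage hJ4.continuous
    · intro i c
      have hK := (hCpt n Δ i (fun m => Real.exp (c m))).inter_right hcl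
      have hsub : ({y : NR Δ | Δ.cone y.i ⊆ Δ.cone i ∧ ∀ m : Δ.dual i,
          y.val m ≤ Real.exp (c m)} ∩ jT Δ i₀ '' S) ⊆ Set.range (jT Δ i₀) := by
        rintro y ⟨-, ⟨u, -, rfl⟩⟩
        exact ⟨u, rfl⟩
      have hKp := (hJ4.isInducing.isCompact_preimage_iff hsub).mpr hK
      refine hKp.isBounded.subset ?_
      rintro u ⟨hu, hum⟩
      refine ⟨⟨?_, ?_⟩, ⟨u, hu, rfl⟩⟩
      · exact (hZ2 i₀ hi₀).2.2 i
      · intro m
        rw [hJ1]
        exact Real.exp_le_exp.mpr (hum m)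

end TDC
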