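import Pool.Agent.TDC.StF

/-!
# TDC: Gordan's lemma for `dualOf V`
-/

namespace TDC

variable {n : ℕ}

private abbrev FGordIx (V : Finset (Fin n → ℤ)) : Type := (Fin n ⊕ Fin n) ⊕ V

private def FGord_f (V : Finset (Fin n → ℤ)) : (FGordIx V → ℕ) →+ (V → ℤ) where
  toFun x := fun v => ∑ k, (x (Sum.inl (Sum.inl k)) : ℤ) * v.1 k
  map_zero' := by funext v; simp
  map_add' x y := by
    funext v
    simp only [Pi.add_apply, Nat.cast_add, add_mul, Finset.sum_add_distrib]

private def FGord_g (V : Finset (Fin n → ℤ)) : (FGordIx V → ℕ) →+ (V → ℤ) where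
  toFun x := fun v => ∑ k, (x (Sum.inl (Sum.inr k)) : ℤ) * v.1 k + x (Sum.inr v)
  map_zero' := by funext v; simp
  map_add' x y := by
    funext v
    simp only [Pi.add_apply, Nat.cast_add, add_mul, Finset.sum_add_distrib]
    ring

private def FGord_h (V : Finset (Fin n → ℤ)) : (FGordIx V → ℕ) →+ (Fin n → ℤ) where
  toFun x := fun k => (x (Sum.inl (Sum.inl k)) : ℤ) - (x (Sum.inl (Sum.inr k)) : ℤ)
  map_zero' := by funext v; simp
  map_add' x y := by
    funext v
    simp only [Pi.add_apply, Nat.cast_add]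
    ring

theorem thm_FGord : St_FGord := by
  intro n V
  have h1 : ((FGord_f V).eqLocusM (FGord_g V)).FG := AddSubmonoid.fg_eqLocusM _ _
  have h2 := h1.map (FGord_h V)
  have h3 : dualOf V = ((FGord_f V).eqLocusM (FGord_g V)).map (FGord_h V) := by
    ext m
    rw [AddSubmonoid.mem_map]
    constructor
    · intro hm
      have hm' : ∀ v ∈ V, 0 ≤ ∑ k, m k * v k := hm
      refine ⟨Sum.elim (Sum.elim (fun k => (m k).toNat) (fun k => (-(m k)).toNat))
        (fun v => (∑ k, m k * v.1 k).toNat), ?_, ?_⟩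
      · rw [AddMonoidHom.mem_eqLocusM]
        funext v
        show ∑ k, (((m k).toNat : ℕ) : ℤ) * v.1 k =
          ∑ k, (((-(m k)).toNat : ℕ) : ℤ) * v.1 k + (((∑ k, m k * v.1 k).toNat : ℕ) : ℤ)
        rw [Int.toNat_of_nonneg (hm' v.1 v.2), ← Finset.sum_add_distrib]
        refine Finset.sum_congr rfl fun k _ => ?_
        rw [← add_mul]
        congr 1
        omega
      · funext k
        show (((m k).toNat : ℕ) : ℤ) - (((-(m k)).toNat : ℕ) : ℤ) = m k
        omega
    · rintro ⟨x, hx, rfl⟩ v hv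
      rw [AddMonoidHom.mem_eqLocusM] at hx
      have h4 : ∑ k, (x (Sum.inl (Sum.inl k)) : ℤ) * v k =
          ∑ k, (x (Sum.inl (Sum.inr k)) : ℤ) * v k + (x (Sum.inr ⟨v, hv⟩) : ℤ) :=
        congrFun hx ⟨v, hv⟩
      show 0 ≤ ∑ k, ((x (Sum.inl (Sum.inl k)) : ℤ) - (x (Sum.inl (Sum.inr k)) : ℤ)) * v k
      have h5 : ∑ k, ((x (Sum.inl (Sum.inl k)) : ℤ) - (x (Sum.inl (Sum.inr k)) : ℤ)) * v k =
          (x (Sum.inr ⟨v, hv⟩) : ℤ) := by
        simp only [sub_mul, Finset.sum_sub_distrib]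
        rw [h4]
        ring
      rw [h5]
      exact Int.natCast_nonneg _
  rw [h3]
  exact h2

end TDC
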