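import Pool.Agent.TDC.StF

/-!
# TDC: every multiplicative function on `σ^∨ ∩ M` is a point of `N_ℝ(σ)`
-/

namespace TDC

open scoped Topology

section FHomAux

variable {n : ℕ}

private lemma FHom_claimA (D : AddSubmonoid (Fin n → ℤ)) (hD : D.FG) (W : (Fin n → ℤ) → ℝ)
    (h0 : W 0 = 1) (hadd : ∀ a ∈ D, ∀ b ∈ D, W (a + b) = W a * W b) :
    ∃ m₀ ∈ D, W m₀ ≠ 0 ∧ ∀ m ∈ D, W m ≠ 0 → ∃ k : ℕ, -m + k • m₀ ∈ D := by
  classical
  obtain ⟨S, hS⟩ := hD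
  have hSD : ∀ g ∈ S, g ∈ D := fun g hg => by
    rw [← hS]
    exact AddSubmonoid.subset_closure hg
  let F : AddSubmonoid (Fin n → ℤ) :=
    { carrier := {m | m ∈ D ∧ W m ≠ 0}
      zero_mem' := ⟨D.zero_mem, by rw [h0]; exact one_ne_zero⟩
      add_mem' := fun {a b} ha hb =>
        ⟨D.add_mem ha.1 hb.1, by rw [hadd a ha.1 b hb.1]; exact mul_ne_zero ha.2 hb.2⟩ }
  have hF : ∑ g ∈ S.filter (fun g => W g ≠ 0), g ∈ F := by
    refine AddSubmonoid.sum_mem F fun g hg => ?_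
    rw [Finset.mem_filter] at hg
    exact ⟨hSD g hg.1, hg.2⟩
  refine ⟨∑ g ∈ S.filter (fun g => W g ≠ 0), g, hF.1, hF.2, ?_⟩
  set m₀ := ∑ g ∈ S.filter (fun g => W g ≠ 0), g with hm₀
  intro m hm
  rw [← hS] at hm
  have key : ∀ m ∈ AddSubmonoid.closure (S : Set (Fin n → ℤ)), m ∈ D ∧
      (W m ≠ 0 → ∃ k : ℕ, -m + k • m₀ ∈ D) := by
    intro m hm
    induction hm using AddSubmonoid.closure_induction with
    | mem g hg =>
      refine ⟨hSD g hg, fun hW => ⟨1, ?_⟩⟩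
      have hgF : g ∈ S.filter (fun g => W g ≠ 0) := Finset.mem_filter.2 ⟨hg, hW⟩
      rw [one_smul, hm₀, ← Finset.add_sum_erase _ _ hgF, neg_add_cancel_left]
      refine AddSubmonoid.sum_mem D fun g' hg' => ?_
      exact hSD g' (Finset.mem_filter.1 (Finset.mem_of_mem_erase hg')).1
    | zero =>
      refine ⟨D.zero_mem, fun _ => ⟨0, ?_⟩⟩
      rw [zero_smul, neg_zero, add_zero]
      exact D.zero_mem
    | add a b ha hb iha ihb =>
      refine ⟨D.add_mem iha.1 ihb.1, fun hW => ?_⟩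
      rw [hadd a iha.1 b ihb.1] at hW
      obtain ⟨k, hk⟩ := iha.2 (left_ne_zero_of_mul hW)
      obtain ⟨l, hl⟩ := ihb.2 (right_ne_zero_of_mul hW)
      refine ⟨k + l, ?_⟩
      have e : -(a + b) + (k + l) • m₀ = (-a + k • m₀) + (-b + l • m₀) := by
        rw [add_smul]
        abel
      rw [e]
      exact D.add_mem hk hl
  exact (key m hm).2

end FHomAux

theorem thm_FHom (h1 : St_FGord) (h2 : St_FFace) : St_FHom := by
  classical
  intro n Δ i w hw0 hwadd hwnn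
  obtain ⟨W, hW⟩ : ∃ W : (Fin n → ℤ) → ℝ, ∀ m : Δ.dual i, W m = w m :=
    ⟨fun m => if h : m ∈ Δ.dual i then w ⟨m, h⟩ else 0, fun m => dif_pos m.2⟩
  have hW0 : W 0 = 1 := by
    rw [← hw0]
    exact hW 0
  have hWadd : ∀ a ∈ Δ.dual i, ∀ b ∈ Δ.dual i, W (a + b) = W a * W b := by
    intro a ha b hb
    have e1 := hW (⟨a, ha⟩ + ⟨b, hb⟩)
    rw [hwadd, ← hW ⟨a, ha⟩, ← hW ⟨b, hb⟩] at e1
    exact e1
  have hWnn : ∀ a ∈ Δ.dual i, 0 ≤ W a := fun a ha => by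
    have e1 := hW ⟨a, ha⟩
    have e2 := hwnn ⟨a, ha⟩
    rw [← e1] at e2
    exact e2
  suffices hmain : ∃ y : NR Δ, Δ.cone y.i ⊆ Δ.cone i ∧ ∀ m ∈ Δ.dual i, y.val m = W m by
    obtain ⟨y, hy1, hy2⟩ := hmain
    exact ⟨y, hy1, fun m => (hy2 m m.2).trans (hW m)⟩
  clear hW hw0 hwadd hwnn
  clear w
  set D : AddSubmonoid (Fin n → ℤ) := Δ.dual i with hDdef
  obtain ⟨m₀, hm₀, hWm₀, hA⟩ := FHom_claimA D (h1 n (Δ.gens i)) W hW0 hWadd
  obtain ⟨j, hj⟩ := Δ.face i m₀ hm₀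
  obtain ⟨-, hface⟩ := (h2 n).2 (Δ.gens i) (Δ.gens j) m₀ hm₀ hj
  have hsub : Δ.cone j ⊆ Δ.cone i := by
    show coneOf (Δ.gens j) ⊆ coneOf (Δ.gens i)
    rw [hj]
    exact Set.inter_subset_left
  have hdd : D ≤ dualOf (Δ.gens j) := ((h2 n).1 (Δ.gens j) (Δ.gens i) hsub).1
  have hpd : ∀ m ∈ Δ.perp j, m ∈ dualOf (Δ.gens j) := fun m hm => perpOf_le_dualOf _ hm
  have hWpow : ∀ s : ℕ, s • m₀ ∈ D ∧ W (s • m₀) = W m₀ ^ s := by
    intro s
    induction s with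
    | zero =>
      rw [zero_smul, pow_zero]
      exact ⟨D.zero_mem, hW0⟩
    | succ s ih =>
      rw [succ_nsmul, pow_succ]
      exact ⟨D.add_mem ih.1 hm₀, by rw [hWadd _ ih.1 _ hm₀, ih.2]⟩
  -- values are not zero
  have hne : ∀ m ∈ Δ.perp j, ∀ r : ℕ, m + r • m₀ ∈ D → W (m + r • m₀) ≠ 0 := by
    intro m hm r hr
    obtain ⟨s, hs⟩ := (hface (-m)).1 (hpd _ ((Δ.perp j).neg_mem hm))
    have e1 : (m + r • m₀) + (-m + s • m₀) = (r + s) • m₀ := by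
      rw [add_smul]
      abel
    have e2 := hWadd _ hr _ hs
    rw [e1, (hWpow (r + s)).2] at e2
    intro h
    rw [h, zero_mul] at e2
    exact pow_ne_zero _ hWm₀ e2
  obtain ⟨L, hL⟩ : ∃ L : (Fin n → ℤ) → ℝ, ∀ m ∈ Δ.perp j, ∀ r : ℕ, m + r • m₀ ∈ D →
      L m = Real.log (W (m + r • m₀)) - r * Real.log (W m₀) := by
    have hex : ∀ m ∈ Δ.perp j, ∃ r : ℕ, m + r • m₀ ∈ D := fun m hm => (hface m).1 (hpd m hm)
    choose! ρ hρ using hex
    refine ⟨fun m => Real.log (W (m + ρ m • m₀)) - ρ m * Real.log (W m₀), fun m hm r hr => ?_⟩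
    have e1 : (m + ρ m • m₀) + r • m₀ = (m + r • m₀) + ρ m • m₀ := by abel
    have e2 := hWadd _ (hρ m hm) _ (hWpow r).1
    rw [e1, hWadd _ hr _ (hWpow (ρ m)).1, (hWpow r).2, (hWpow (ρ m)).2] at e2
    have e3 := congrArg Real.log e2
    rw [Real.log_mul (hne m hm r hr) (pow_ne_zero _ hWm₀),
      Real.log_mul (hne m hm _ (hρ m hm)) (pow_ne_zero _ hWm₀), Real.log_pow, Real.log_pow] at e3
    show Real.log (W (m + ρ m • m₀)) - ρ m * Real.log (W m₀) =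
      Real.log (W (m + r • m₀)) - r * Real.log (W m₀)
    linarith
  have hLadd : ∀ a ∈ Δ.perp j, ∀ b ∈ Δ.perp j, L (a + b) = L a + L b := by
    intro a ha b hb
    obtain ⟨r, hr⟩ := (hface a).1 (hpd a ha)
    obtain ⟨s, hs⟩ := (hface b).1 (hpd b hb)
    have e1 : (a + b) + (r + s) • m₀ = (a + r • m₀) + (b + s • m₀) := by
      rw [add_smul]
      abel
    have hrs : (a + b) + (r + s) • m₀ ∈ D := by
      rw [e1]
      exact D.add_mem hr hs
    rw [hL a ha r hr, hL b hb s hs, hL (a + b) ((Δ.perp j).add_mem ha hb) (r + s) hrs, e1,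
      hWadd _ hr _ hs, Real.log_mul (hne a ha r hr) (hne b hb s hs)]
    push_cast
    ring
  let φ : Δ.perp j →+ ℝ := AddMonoidHom.mk' (fun m => L m) (fun a b => hLadd a a.2 b b.2)
  refine ⟨⟨j, φ⟩, hsub, fun m hmD => ?_⟩
  show (if m ∈ Δ.perp j then Real.exp (evm φ m) else 0) = W m
  by_cases hmp : m ∈ Δ.perp j
  · rw [if_pos hmp]
    have e1 : evm φ (m : Fin n → ℤ) = L m := by
      unfold evm
      rw [dif_pos hmp]
      rfl
    have hm0 : (m : Fin n → ℤ) + 0 • m₀ ∈ D := by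
      rw [zero_smul, add_zero]
      exact hmD
    have e2 := hL m hmp 0 hm0
    have e3 := hne m hmp 0 hm0
    rw [zero_smul, add_zero] at e2 e3
    rw [e1, e2, Nat.cast_zero, zero_mul, sub_zero,
      Real.exp_log (lt_of_le_of_ne (hWnn _ hmD) (Ne.symm e3))]
  · rw [if_neg hmp]
    by_contra hcon
    obtain ⟨k, hk⟩ := hA m hmD (Ne.symm hcon)
    have h3 : -(m : Fin n → ℤ) ∈ dualOf (Δ.gens j) := (hface _).2 ⟨k, hk⟩
    have h4 : (m : Fin n → ℤ) ∈ dualOf (Δ.gens j) := hdd hmD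
    apply hmp
    intro v hv
    have h5 := h3 v hv
    have h6 := h4 v hv
    have h7 : ∑ k, (-(m : Fin n → ℤ)) k * v k = - ∑ k, (m : Fin n → ℤ) k * v k := by
      rw [← Finset.sum_neg_distrib]
      exact Finset.sum_congr rfl fun k _ => by rw [Pi.neg_apply]; ring
    rw [h7] at h5
    linarith

end TDC
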