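import Pool.Agent.TDC.StF

/-!
# TDC: module FJ, the open stratum of the tropical toric variety
-/

namespace TDC

open scoped Topology

variable {n : ℕ}

theorem FJ_pr_single (k : Fin n) (u : Fin n → ℝ) : pr (Pi.single k 1) u = u k := by
  unfold pr
  rw [Finset.sum_eq_single k]
  · rw [Pi.single_eq_same, Int.cast_one, one_mul]
  · intro j _ hj
    rw [Pi.single_eq_of_ne hj, Int.cast_zero, zero_mul]
  · intro hk
    exact absurd (Finset.mem_univ k) hk

theorem FJ_evm {G : AddSubgroup (Fin n → ℤ)} (δ : G →+ ℝ) {m : Fin n → ℤ} (h : m ∈ G) :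
    evm δ m = δ ⟨m, h⟩ := by
  unfold evm
  rw [dif_pos h]

/-- a homomorphism on `ℤ^n` is given by its values on the basis -/
theorem FJ_hom {G : AddSubgroup (Fin n → ℤ)} (hG : G = ⊤) (φ : G →+ ℝ) :
    φ = prHom G (crd φ) := by
  have hmem : ∀ m : Fin n → ℤ, m ∈ G := by
    intro m
    rw [hG]
    exact AddSubgroup.mem_top m
  ext m
  show φ m = pr (m : Fin n → ℤ) (crd φ)
  have h1 : m = ∑ k, ((m : Fin n → ℤ) k) • (⟨Pi.single k 1, hmem _⟩ : G) := by
    apply Subtype.ext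
    rw [AddSubgroup.val_finsetSum]
    funext l
    rw [Finset.sum_apply, Finset.sum_eq_single l]
    · show (m : Fin n → ℤ) l = ((m : Fin n → ℤ) l) • (Pi.single l (1 : ℤ) : Fin n → ℤ) l
      rw [Pi.single_eq_same, smul_eq_mul, mul_one]
    · intro j _ hj
      show ((m : Fin n → ℤ) j) • (Pi.single j (1 : ℤ) : Fin n → ℤ) l = 0
      rw [Pi.single_eq_of_ne (Ne.symm hj), smul_zero]
    · intro hl
      exact absurd (Finset.mem_univ l) hl
  have h2 : φ m = ∑ k, ((m : Fin n → ℤ) k : ℝ) * φ ⟨Pi.single k 1, hmem _⟩ := by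
    rw [h1, map_sum]
    rw [← h1]
    refine Finset.sum_congr rfl fun k _ => ?_
    rw [map_zsmul, zsmul_eq_mul]
  rw [h2]
  unfold pr crd
  refine Finset.sum_congr rfl fun k _ => ?_
  rw [FJ_evm φ (hmem _)]

theorem thm_FJ (h1 : St_FZero) (h2 : St_FVal) : St_FJ := by
  intro n Δ i₀ hz
  obtain ⟨_, hZ2, _, _⟩ := h1 n Δ
  obtain ⟨hdual, hperp, hle⟩ := hZ2 i₀ hz
  obtain ⟨_, _, hop, hcont⟩ := h2 n Δ
  have hmem : ∀ m : Fin n → ℤ, m ∈ Δ.perp i₀ := by
    intro m
    rw [hperp]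
    exact AddSubgroup.mem_top m
  have hval : ∀ u m, (jT Δ i₀ u).val m = Real.exp (pr m u) := by
    intro u m
    unfold NR.val
    rw [if_pos (show m ∈ Δ.perp (jT Δ i₀ u).i from hmem m)]
    rw [FJ_evm (jT Δ i₀ u).φ (show m ∈ Δ.perp (jT Δ i₀ u).i from hmem m)]
    rfl
  have hcrd : ∀ u, crd (jT Δ i₀ u).φ = u := by
    intro u
    funext k
    show evm (jT Δ i₀ u).φ (Pi.single k 1) = u k
    rw [FJ_evm (jT Δ i₀ u).φ (show (Pi.single k 1 : Fin n → ℤ) ∈ Δ.perp (jT Δ i₀ u).i from hmem _)]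
    exact FJ_pr_single k u
  have hy : ∀ y : NR Δ, Δ.cone y.i = {0} → y = jT Δ i₀ (crd y.φ) := by
    rintro ⟨i, φ⟩ hi
    have hi' : i = i₀ := Δ.inj i i₀ (by
      show Δ.cone i = Δ.cone i₀
      rw [hz]; exact hi)
    subst hi'
    show NR.mk i φ = NR.mk i (prHom _ (crd φ))
    rw [← FJ_hom hperp φ]
  refine ⟨hval, hcrd, hy, ?_⟩
  -- the inverse map
  let D : Set (NR Δ) := {y | Δ.cone y.i ⊆ Δ.cone i₀}
  let g : NR Δ → Fin n → ℝ := fun y k => Real.log (y.val (Pi.single k 1))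
  have hDj : ∀ y ∈ D, y = jT Δ i₀ (crd y.φ) := by
    intro y hyD
    apply hy
    apply Set.Subset.antisymm
    · rw [← hz]; exact hyD
    · have h := hle y.i
      rw [hz] at h
      exact h
  have hgj : ∀ u, g (jT Δ i₀ u) = u := by
    intro u
    funext k
    show Real.log ((jT Δ i₀ u).val (Pi.single k 1)) = u k
    rw [hval, Real.log_exp, FJ_pr_single]
  have hjD : ∀ u, jT Δ i₀ u ∈ D := fun u => Set.Subset.refl _
  have hgc : ContinuousOn g D := by
    refine continuousOn_pi.2 fun k => ?_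
    have hk : (Pi.single k 1 : Fin n → ℤ) ∈ Δ.dual i₀ := by
      rw [hdual]
      exact AddSubmonoid.mem_top _
    refine ContinuousOn.log (hcont i₀ ⟨_, hk⟩) ?_
    intro y hyD
    rw [hDj y hyD, hval]
    exact (Real.exp_pos _).ne'
  refine Topology.IsOpenEmbedding.of_continuous_injective_isOpenMap ?_ ?_ ?_
  · refine continuous_generateFrom_iff.2 ?_
    rintro T ⟨j, m, a, b, rfl⟩
    have hset : jT Δ i₀ ⁻¹' {y | Δ.cone y.i ⊆ Δ.cone j ∧ a < y.val m ∧ y.val m < b} =
        {u | a < Real.exp (pr (m : Fin n → ℤ) u)} ∩ {u | Real.exp (pr (m : Fin n → ℤ) u) < b} := by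
      ext u
      constructor
      · rintro ⟨_, ha, hb⟩
        rw [hval] at ha hb
        exact ⟨ha, hb⟩
      · rintro ⟨ha, hb⟩
        refine ⟨hle j, ?_, ?_⟩
        · rw [hval]; exact ha
        · rw [hval]; exact hb
    rw [hset]
    have hc : Continuous fun u : Fin n → ℝ => Real.exp (pr (m : Fin n → ℤ) u) := by
      unfold pr
      fun_prop
    exact (isOpen_lt continuous_const hc).inter (isOpen_lt hc continuous_const)
  · intro u v huv
    rw [← hcrd u, ← hcrd v, huv]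
  · intro U hU
    have himg : jT Δ i₀ '' U = D ∩ g ⁻¹' U := by
      ext y
      constructor
      · rintro ⟨u, hu, rfl⟩
        refine ⟨hjD u, ?_⟩
        show g (jT Δ i₀ u) ∈ U
        rw [hgj]; exact hu
      · rintro ⟨hyD, hyU⟩
        refine ⟨crd y.φ, ?_, (hDj y hyD).symm⟩
        have h3 : g y = crd y.φ := by
          have h4 := congrArg g (hDj y hyD)
          rw [hgj] at h4
          exact h4
        rw [← h3]
        exact hyU
    rw [himg]
    exact hgc.isOpen_inter_preimage (hop i₀) hU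

end TDC
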