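import Pool.Agent.TDC.StF

/-!
# TDC: the level function of a fan
-/

namespace TDC

variable {n : ℕ}

private theorem FLev_pr_zero (u : Fin n → ℝ) : pr (0 : Fin n → ℤ) u = 0 := by simp [pr]

private theorem FLev_pr_add (a b : Fin n → ℤ) (u : Fin n → ℝ) :
    pr (a + b) u = pr a u + pr b u := by
  simp only [pr, Pi.add_apply, Int.cast_add, add_mul, Finset.sum_add_distrib]

private theorem FLev_pr_sub (a : Fin n → ℤ) (u v : Fin n → ℝ) :
    pr a (u - v) = pr a u - pr a v := by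
  simp only [pr, Pi.sub_apply, mul_sub, Finset.sum_sub_distrib]

private theorem FLev_pr_smul (a : Fin n → ℤ) (t : ℝ) (u : Fin n → ℝ) :
    pr a (t • u) = t * pr a u := by
  simp only [pr, Pi.smul_apply, smul_eq_mul, Finset.mul_sum]
  exact Finset.sum_congr rfl fun k _ => by ring

private theorem FLev_pr_neg (a : Fin n → ℤ) (u : Fin n → ℝ) : pr a (-u) = - pr a u := by
  simp only [pr, Pi.neg_apply, mul_neg, Finset.sum_neg_distrib]

private theorem FLev_pr_abs (a : Fin n → ℤ) (u : Fin n → ℝ) :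
    |pr a u| ≤ (∑ k, |(a k : ℝ)|) * ‖u‖ := by
  unfold pr
  rw [Finset.sum_mul]
  refine (Finset.abs_sum_le_sum_abs _ _).trans (Finset.sum_le_sum fun k _ => ?_)
  rw [abs_mul]
  refine mul_le_mul_of_nonneg_left ?_ (abs_nonneg _)
  have := norm_le_pi_norm u k
  rwa [Real.norm_eq_abs] at this

private theorem FLev_sup_lip {α : Type} (s : Finset α) (hs : s.Nonempty) (f g : α → ℝ) (D : ℝ)
    (h : ∀ x ∈ s, f x ≤ g x + D) : s.sup' hs f ≤ s.sup' hs g + D := by
  refine Finset.sup'_le _ _ fun x hx => (h x hx).trans ?_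
  have := Finset.le_sup' g hx
  linarith

private theorem FLev_inf_lip {α : Type} (s : Finset α) (hs : s.Nonempty) (f g : α → ℝ) (D : ℝ)
    (h : ∀ x ∈ s, f x ≤ g x + D) : s.inf' hs f ≤ s.inf' hs g + D := by
  obtain ⟨x, hx, hx2⟩ := Finset.exists_mem_eq_inf' hs g
  rw [hx2]
  exact (Finset.inf'_le f hx).trans (h x hx)

private theorem FLev_sup_mul {α : Type} (s : Finset α) (hs : s.Nonempty) (f : α → ℝ) (t : ℝ)
    (ht : 0 ≤ t) : s.sup' hs (fun x => t * f x) = t * s.sup' hs f := by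
  apply le_antisymm
  · exact Finset.sup'_le _ _ fun x hx =>
      mul_le_mul_of_nonneg_left (Finset.le_sup' f hx) ht
  · obtain ⟨x, hx, hx2⟩ := Finset.exists_mem_eq_sup' hs f
    rw [hx2]
    exact Finset.le_sup' (fun x => t * f x) hx

private theorem FLev_inf_mul {α : Type} (s : Finset α) (hs : s.Nonempty) (f : α → ℝ) (t : ℝ)
    (ht : 0 ≤ t) : s.inf' hs (fun x => t * f x) = t * s.inf' hs f := by
  apply le_antisymm
  · obtain ⟨x, hx, hx2⟩ := Finset.exists_mem_eq_inf' hs f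
    rw [hx2]
    exact Finset.inf'_le (fun x => t * f x) hx
  · exact Finset.le_inf' _ _ fun x hx =>
      mul_le_mul_of_nonneg_left (Finset.inf'_le f hx) ht

theorem thm_FLev (h1 : St_FGord) (h2 : St_FFark) : St_FLev := by
  classical
  intro n Δ
  have := Δ.fin
  have := Δ.ne
  have := Fintype.ofFinite Δ.ι
  have h3 : ∀ i : Δ.ι, ∃ G : Finset (Fin n → ℤ), AddSubmonoid.closure (G : Set (Fin n → ℤ)) =
      dualOf (Δ.gens i) ∧ (0 : Fin n → ℤ) ∈ G := by
    intro i
    obtain ⟨G, hG⟩ := h1 n (Δ.gens i)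
    refine ⟨insert 0 G, ?_, Finset.mem_insert_self _ _⟩
    rw [Finset.coe_insert, AddSubmonoid.closure_insert_zero, hG]
  choose G hG hG0 using h3
  have hne : ∀ i, (G i).Nonempty := fun i => ⟨0, hG0 i⟩
  have hun : (Finset.univ : Finset Δ.ι).Nonempty := Finset.univ_nonempty
  have hsub : ∀ i, ∀ g ∈ G i, g ∈ dualOf (Δ.gens i) := by
    intro i g hg
    rw [← hG i]
    exact AddSubmonoid.subset_closure hg
  -- bounds on the generators give bounds on the monoid
  have hbd : ∀ (i : Δ.ι) (C : ℝ) (m : Fin n → ℤ), m ∈ dualOf (Δ.gens i) →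
      ∃ c : ℝ, ∀ u : Fin n → ℝ, (∀ g ∈ G i, pr g u ≤ C) → pr m u ≤ c := by
    intro i C m hm
    rw [← hG i] at hm
    induction hm using AddSubmonoid.closure_induction with
    | mem x hx => exact ⟨C, fun u hu => hu x hx⟩
    | zero => exact ⟨0, fun u _ => (FLev_pr_zero u).le⟩
    | add x y _ _ hx hy =>
      obtain ⟨c1, hc1⟩ := hx
      obtain ⟨c2, hc2⟩ := hy
      refine ⟨c1 + c2, fun u hu => ?_⟩
      rw [FLev_pr_add]
      exact add_le_add (hc1 u hu) (hc2 u hu)
  have hbd0 : ∀ (i : Δ.ι) (u : Fin n → ℝ), (∀ g ∈ G i, pr g u ≤ 0) →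
      ∀ m ∈ dualOf (Δ.gens i), pr m u ≤ 0 := by
    intro i u hu m hm
    rw [← hG i] at hm
    induction hm using AddSubmonoid.closure_induction with
    | mem x hx => exact hu x hx
    | zero => exact (FLev_pr_zero u).le
    | add x y _ _ hx hy =>
      rw [FLev_pr_add]
      linarith
  set hi : Δ.ι → (Fin n → ℝ) → ℝ := fun i u => (G i).sup' (hne i) (fun g => pr g u) with hhi
  set Λ : ℝ := ∑ i : Δ.ι, ∑ g ∈ G i, ∑ k, |(g k : ℝ)| with hΛ
  have hΛ0 : 0 ≤ Λ := Finset.sum_nonneg fun i _ => Finset.sum_nonneg fun g _ =>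
    Finset.sum_nonneg fun k _ => abs_nonneg _
  have hΛg : ∀ i, ∀ g ∈ G i, ∑ k, |(g k : ℝ)| ≤ Λ := by
    intro i g hg
    have e1 : ∑ k, |(g k : ℝ)| ≤ ∑ g ∈ G i, ∑ k, |(g k : ℝ)| :=
      Finset.single_le_sum (f := fun g : Fin n → ℤ => ∑ k, |(g k : ℝ)|)
        (fun g _ => Finset.sum_nonneg fun k _ => abs_nonneg _) hg
    have e2 : ∑ g ∈ G i, ∑ k, |(g k : ℝ)| ≤ Λ :=
      Finset.single_le_sum (f := fun i : Δ.ι => ∑ g ∈ G i, ∑ k, |(g k : ℝ)|)
        (fun i _ => Finset.sum_nonneg fun g _ => Finset.sum_nonneg fun k _ => abs_nonneg _)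
        (Finset.mem_univ i)
    exact e1.trans e2
  have hlip1 : ∀ u v : Fin n → ℝ,
      Finset.univ.inf' hun (fun i => hi i u) ≤
        Finset.univ.inf' hun (fun i => hi i v) + Λ * ‖u - v‖ := by
    intro u v
    refine FLev_inf_lip _ _ _ _ _ fun i _ => FLev_sup_lip _ _ _ _ _ fun g hg => ?_
    have e1 := FLev_pr_abs g (u - v)
    rw [FLev_pr_sub] at e1
    have e2 := (le_abs_self _).trans e1
    have e3 := mul_le_mul_of_nonneg_right (hΛg i g hg) (norm_nonneg (u - v))
    linarith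
  refine ⟨fun u => Finset.univ.inf' hun (fun i => hi i u), Λ, hΛ0, ?_, ?_, ?_, ?_, ?_, ?_⟩
  · intro u v
    rw [abs_le]
    constructor
    · have := hlip1 v u
      rw [norm_sub_rev] at this
      linarith
    · have := hlip1 u v
      linarith
  · intro t u ht
    show Finset.univ.inf' hun (fun i => hi i (t • u)) = t * Finset.univ.inf' hun (fun i => hi i u)
    rw [← FLev_inf_mul _ _ _ _ ht]
    refine Finset.inf'_congr _ rfl fun i _ => ?_
    show (G i).sup' (hne i) (fun g => pr g (t • u)) = t * (G i).sup' (hne i) (fun g => pr g u)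
    rw [← FLev_sup_mul _ _ _ _ ht]
    exact Finset.sup'_congr _ rfl fun g _ => FLev_pr_smul g t u
  · intro i c
    refine ⟨∑ g ∈ (G i).attach, |c ⟨g.1, hsub i g.1 g.2⟩|, fun u hu => ?_⟩
    refine (Finset.inf'_le _ (Finset.mem_univ i)).trans ?_
    refine Finset.sup'_le _ _ fun g hg => ?_
    refine (hu ⟨g, hsub i g hg⟩).trans ((le_abs_self _).trans ?_)
    exact Finset.single_le_sum (f := fun g : {x // x ∈ G i} => |c ⟨g.1, hsub i g.1 g.2⟩|)
      (fun _ _ => abs_nonneg _) (Finset.mem_attach _ ⟨g, hg⟩)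
  · intro S C hS
    choose c hc using hbd
    have h4 : S ∩ {u | Finset.univ.inf' hun (fun i => hi i u) ≤ C} ⊆
        ⋃ i : Δ.ι, S ∩ {u | ∀ m : Δ.dual i, pr m u ≤ c i C m m.2} := by
      rintro u ⟨hu1, hu2⟩
      obtain ⟨i, _, hi2⟩ := Finset.exists_mem_eq_inf' hun (fun i => hi i u)
      rw [Set.mem_iUnion]
      refine ⟨i, hu1, fun m => hc i C m m.2 u fun g hg => ?_⟩
      have e1 : hi i u ≤ C := by
        rw [← hi2]
        exact hu2
      exact (Finset.le_sup' (fun g => pr g u) hg).trans e1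
    exact (Bornology.isBounded_iUnion.2 fun i => hS i _).subset h4
  · intro hnc
    have hnc' : ∃ u₁ : Fin n → ℝ, ∀ i, u₁ ∉ Δ.cone i := by
      by_contra hcon
      push Not at hcon
      exact hnc hcon
    obtain ⟨u₁, hu₁⟩ := hnc'
    refine ⟨-u₁, ?_⟩
    show 0 < Finset.univ.inf' hun (fun i => hi i (-u₁))
    rw [Finset.lt_inf'_iff]
    intro i _
    by_contra hcon
    push Not at hcon
    apply hu₁ i
    apply h2 n (Δ.gens i) u₁
    intro m hm
    have e1 := hbd0 i (-u₁) (fun g hg => (Finset.le_sup' (fun g => pr g (-u₁)) hg).trans hcon) m hm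
    rw [FLev_pr_neg] at e1
    linarith
  · intro hcm u
    obtain ⟨i, hi1⟩ := hcm (-u)
    show Finset.univ.inf' hun (fun i => hi i u) ≤ 0
    refine (Finset.inf'_le _ (Finset.mem_univ i)).trans ?_
    refine Finset.sup'_le _ _ fun g hg => ?_
    obtain ⟨a, ha, hau⟩ := hi1
    have e1 : pr g (-u) = ∑ v ∈ Δ.gens i, a v * ∑ k, ((g k * v k : ℤ) : ℝ) := by
      rw [hau]
      unfold pr
      simp only [Finset.sum_apply, Pi.smul_apply, smul_eq_mul, Finset.mul_sum]
      rw [Finset.sum_comm]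
      refine Finset.sum_congr rfl fun v _ => Finset.sum_congr rfl fun k _ => ?_
      push_cast
      ring
    have e2 : 0 ≤ pr g (-u) := by
      rw [e1]
      refine Finset.sum_nonneg fun v hv => mul_nonneg (ha v) ?_
      rw [← Int.cast_sum]
      exact Int.cast_nonneg (hsub i g hg v hv)
    rw [FLev_pr_neg] at e2
    show pr g u ≤ 0
    linarith

end TDC
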