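import Pool.Agent.TDC.StF

/-!
# TDC, toric side: `FNon`
-/

namespace TDC

open scoped Topology
open MeasureTheory

variable {n : ℕ}

private lemma FNon_pr_le (m : Fin n → ℤ) (u : Fin n → ℝ) :
    pr m u ≤ (∑ k, |(m k : ℝ)|) * ‖u‖ := by
  unfold pr
  rw [Finset.sum_mul]
  refine Finset.sum_le_sum fun k _ => ?_
  calc (m k : ℝ) * u k ≤ |(m k : ℝ) * u k| := le_abs_self _
    _ = |(m k : ℝ)| * |u k| := abs_mul _ _
    _ ≤ |(m k : ℝ)| * ‖u‖ := by
      refine mul_le_mul_of_nonneg_left ?_ (abs_nonneg _)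
      exact norm_le_pi_norm u k

/-- Only finitely many of the sets meet `{h ≤ C}`. -/
private lemma FNon_finite (Δ : Fan n) (h : (Fin n → ℝ) → ℝ)
    (h4 : ∀ (S : Set (Fin n → ℝ)) (C : ℝ), (∀ (i : Δ.ι) (c : Δ.dual i → ℝ),
      Bornology.IsBounded (S ∩ {u | ∀ m : Δ.dual i, pr m u ≤ c m})) →
      Bornology.IsBounded (S ∩ {u | h u ≤ C}))
    (V : ℕ → Set (Fin n → ℝ))
    (hV : ∀ (i : Δ.ι) (c : Δ.dual i → ℝ),
        {k | (V k ∩ {u | ∀ m : Δ.dual i, pr m u ≤ c m}).Nonempty}.Finite) (C : ℝ) :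
    {k | (V k ∩ {u | h u ≤ C}).Nonempty}.Finite := by
  obtain ⟨T, hT⟩ : ∃ T, T = {k | (V k ∩ {u | h u ≤ C}).Nonempty} := ⟨_, rfl⟩
  rw [← hT]
  have hx : ∀ k : ℕ, ∃ x : Fin n → ℝ, k ∈ T → x ∈ V k ∧ h x ≤ C := by
    intro k
    by_cases hk : k ∈ T
    · rw [hT] at hk
      obtain ⟨x, hx1, hx2⟩ := hk
      exact ⟨x, fun _ => ⟨hx1, hx2⟩⟩
    · exact ⟨0, fun h => absurd h hk⟩
  choose x hx using hx
  have hb : Bornology.IsBounded (x '' T) := by
    have h1 := h4 (x '' T) C (by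
      intro i c
      refine Set.Finite.isBounded (((hV i c).image x).subset ?_)
      rintro _ ⟨⟨k, hk, rfl⟩, hu⟩
      exact ⟨k, ⟨x k, (hx k hk).1, hu⟩, rfl⟩)
    refine h1.subset ?_
    rintro _ ⟨k, hk, rfl⟩
    exact ⟨⟨k, hk, rfl⟩, (hx k hk).2⟩
  obtain ⟨r, hr⟩ := hb.exists_norm_le
  obtain ⟨i⟩ := Δ.ne
  refine (hV i (fun m => (∑ k, |((m : Fin n → ℤ) k : ℝ)|) * r)).subset ?_
  intro k hk
  refine ⟨x k, (hx k hk).1, ?_⟩
  intro m
  refine (FNon_pr_le _ _).trans ?_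
  refine mul_le_mul_of_nonneg_left (hr _ ⟨k, hk, rfl⟩) ?_
  exact Finset.sum_nonneg fun k _ => abs_nonneg _

/-- the tube -/
private def FNon_tube (f : (Fin n → ℝ) → ℝ) (v : Fin n → ℝ) : Set (Fin n → ℝ) :=
  {u | ∃ w ∈ tsupport f, ∃ τ : ℝ, 0 ≤ τ ∧ u = w + τ • v}

/-- the tube in a direction with `h > 0` is bounded in `{h ≤ C}` -/
private lemma FNon_bdd (h : (Fin n → ℝ) → ℝ) (Λ : ℝ)
    (hL : ∀ u v, |h u - h v| ≤ Λ * ‖u - v‖)
    (hH : ∀ (t : ℝ) (u : Fin n → ℝ), 0 ≤ t → h (t • u) = t * h u)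
    (f : (Fin n → ℝ) → ℝ) (hf : HasCompactSupport f) (v : Fin n → ℝ) (hv : 0 < h v) (C : ℝ) :
    Bornology.IsBounded (FNon_tube f v ∩ {u | h u ≤ C}) := by
  obtain ⟨r, hr⟩ := hf.isCompact.isBounded.exists_norm_le
  rw [isBounded_iff_forall_norm_le]
  refine ⟨r + (C + |Λ| * r) / h v * ‖v‖, ?_⟩
  rintro _ ⟨⟨w, hw, τ, hτ, rfl⟩, hC⟩
  have hC' : h (w + τ • v) ≤ C := hC
  have h1 := hL (τ • v) (w + τ • v)
  have e1 : τ • v - (w + τ • v) = -w := by abel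
  rw [e1, norm_neg, hH τ v hτ] at h1
  have h2 := le_abs_self (τ * h v - h (w + τ • v))
  have h3 : Λ * ‖w‖ ≤ |Λ| * r :=
    mul_le_mul (le_abs_self _) (hr w hw) (norm_nonneg _) (abs_nonneg _)
  have h4 : τ * h v ≤ C + |Λ| * r := by linarith
  have h5 : τ ≤ (C + |Λ| * r) / h v := by
    rw [le_div_iff₀ hv]
    exact h4
  calc ‖w + τ • v‖ ≤ ‖w‖ + ‖τ • v‖ := norm_add_le _ _
    _ = ‖w‖ + τ * ‖v‖ := by rw [norm_smul, Real.norm_eq_abs, abs_of_nonneg hτ]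
    _ ≤ r + (C + |Λ| * r) / h v * ‖v‖ :=
      add_le_add (hr w hw) (mul_le_mul_of_nonneg_right h5 (norm_nonneg _))

/-- The general gluing step. -/
private lemma FNon_glue (Δ : Fan n) (h : (Fin n → ℝ) → ℝ) (hc : Continuous h)
    (h3 : ∀ (i : Δ.ι) (c : Δ.dual i → ℝ), ∃ C : ℝ, ∀ u, (∀ m : Δ.dual i, pr m u ≤ c m) →
      h u ≤ C)
    (f c : ℕ → (Fin n → ℝ) → ℝ) (v : ℕ → Fin n → ℝ)
    (hcs : ∀ k, ContDiff ℝ (⊤ : ℕ∞) (c k))
    (hct : ∀ k, tsupport (c k) ⊆ FNon_tube (f k) (v k))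
    (hcd : ∀ k u, fderiv ℝ (c k) u (v k) = f k u)
    (hfin : ∀ C : ℝ, {k | (FNon_tube (f k) (v k) ∩ {u | h u ≤ C}).Nonempty}.Finite)
    (hbd : ∀ k (C : ℝ), Bornology.IsBounded (FNon_tube (f k) (v k) ∩ {u | h u ≤ C})) :
    ∃ d : Fin n → (Fin n → ℝ) → ℝ,
      (∀ j, ContDiff ℝ (⊤ : ℕ∞) (d j) ∧ Fine Δ (tsupport (d j))) ∧
      ∀ u, ∃ F : Finset ℕ, (∀ k, f k u ≠ 0 → k ∈ F) ∧
        ∑ j, fderiv ℝ (d j) u (Pi.single j 1) = ∑ k ∈ F, f k u := by
  obtain ⟨F, hF⟩ : ∃ F : ℝ → Finset ℕ, ∀ C k,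
      k ∈ F C ↔ (FNon_tube (f k) (v k) ∩ {u | h u ≤ C}).Nonempty :=
    ⟨fun C => (hfin C).toFinset, fun C k => by rw [Set.Finite.mem_toFinset]; rfl⟩
  have hcF : ∀ (C : ℝ) (u : Fin n → ℝ), h u ≤ C → ∀ k, k ∉ F C → c k u = 0 := by
    intro C u hu k hk
    by_contra h0
    apply hk
    rw [hF]
    exact ⟨u, hct k (subset_tsupport _ h0), hu⟩
  obtain ⟨d, hd⟩ : ∃ d : Fin n → (Fin n → ℝ) → ℝ, d = fun j u => ∑ᶠ k, v k j * c k u := ⟨_, rfl⟩
  have hdF : ∀ (C : ℝ) (u : Fin n → ℝ), h u ≤ C → ∀ j,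
      d j u = ∑ k ∈ F C, v k j * c k u := by
    intro C u hu j
    rw [hd]
    show ∑ᶠ k, v k j * c k u = _
    refine finsum_eq_sum_of_support_subset _ ?_
    intro k hk
    by_contra hk'
    apply hk
    show v k j * c k u = 0
    rw [hcF C u hu k hk', mul_zero]
  have hev : ∀ (u : Fin n → ℝ) (j : Fin n),
      d j =ᶠ[𝓝 u] fun u' => ∑ k ∈ F (h u + 1), v k j * c k u' := by
    intro u j
    have ho : {u' | h u' < h u + 1} ∈ 𝓝 u :=
      (isOpen_lt hc continuous_const).mem_nhds (by show h u < h u + 1; linarith)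
    filter_upwards [ho] with u' hu'
    exact hdF (h u + 1) u' (le_of_lt hu') j
  refine ⟨d, fun j => ⟨?_, isClosed_tsupport _, ?_⟩, fun u => ⟨F (h u + 1), ?_, ?_⟩⟩
  · rw [contDiff_iff_contDiffAt]
    intro u
    refine ContDiffAt.congr_of_eventuallyEq ?_ (hev u j)
    refine ContDiffAt.sum fun k _ => ?_
    exact contDiffAt_const.mul (hcs k).contDiffAt
  · intro i c'
    obtain ⟨C, hC⟩ := h3 i c'
    have hB : Bornology.IsBounded (⋃ k ∈ F (C + 1), FNon_tube (f k) (v k) ∩ {u | h u ≤ C + 1}) := by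
      rw [Bornology.isBounded_biUnion_finset]
      exact fun k _ => hbd k (C + 1)
    refine (hB.closure).subset ?_
    rintro u ⟨hu1, hu2⟩
    have huC : h u < C + 1 := lt_of_le_of_lt (hC u hu2) (by linarith)
    have ho : IsOpen {u' | h u' < C + 1} := isOpen_lt hc continuous_const
    have h1 := ho.inter_closure (t := Function.support (d j)) ⟨huC, hu1⟩
    refine closure_mono ?_ h1
    rintro x ⟨hx1, hx2⟩
    have hx1' : h x ≤ C + 1 := le_of_lt hx1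
    have h2 : ∃ k ∈ F (C + 1), v k j * c k x ≠ 0 := by
      apply Finset.exists_ne_zero_of_sum_ne_zero
      rw [← hdF (C + 1) x hx1' j]
      exact hx2
    obtain ⟨k, hk, hk2⟩ := h2
    refine Set.mem_biUnion (x := k) hk ⟨hct k (subset_tsupport _ ?_), hx1'⟩
    exact fun h0 => hk2 (by rw [h0, mul_zero])
  · intro k hk
    rw [hF]
    refine ⟨u, ⟨u, subset_tsupport _ hk, 0, le_rfl, by rw [zero_smul, add_zero]⟩, ?_⟩
    show h u ≤ h u + 1
    linarith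
  · have h1 : ∀ j, fderiv ℝ (d j) u (Pi.single j 1) =
        ∑ k ∈ F (h u + 1), v k j * fderiv ℝ (c k) u (Pi.single j 1) := by
      intro j
      have h2 : HasFDerivAt (fun u' => ∑ k ∈ F (h u + 1), v k j * c k u')
          (∑ k ∈ F (h u + 1), v k j • fderiv ℝ (c k) u) u := by
        refine HasFDerivAt.fun_sum fun k _ => ?_
        exact (((hcs k).differentiable (by simp)).differentiableAt.hasFDerivAt).const_mul (v k j)
      rw [(hev u j).fderiv_eq, h2.fderiv]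
      rw [ContinuousLinearMap.sum_apply]
      rfl
    calc ∑ j, fderiv ℝ (d j) u (Pi.single j 1)
        = ∑ j, ∑ k ∈ F (h u + 1), v k j * fderiv ℝ (c k) u (Pi.single j 1) :=
          Finset.sum_congr rfl fun j _ => h1 j
      _ = ∑ k ∈ F (h u + 1), ∑ j, v k j * fderiv ℝ (c k) u (Pi.single j 1) :=
          Finset.sum_comm
      _ = ∑ k ∈ F (h u + 1), f k u := by
          refine Finset.sum_congr rfl fun k _ => ?_
          rw [← hcd k u]
          have e : v k = ∑ j, v k j • (Pi.single j (1 : ℝ) : Fin n → ℝ) := by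
            funext l
            simp [Finset.sum_apply, Pi.single_apply]
          conv_rhs => rw [e, map_sum]
          refine Finset.sum_congr rfl fun j _ => ?_
          rw [map_smul, smul_eq_mul]

theorem thm_FNon (h1 : St_FLev) (h2 : St_FPar) (h3 : St_FTub) : St_FNon := by
  intro n Δ hΔ b hb hS
  obtain ⟨h, Λ, hΛ, hL, hH, hup, hbd, hnc, _⟩ := h1 n Δ
  obtain ⟨u₀, hu₀⟩ := hnc hΔ
  obtain ⟨ψ, V, hV, hsum, hfin⟩ := h2 n Δ (tsupport b) hS
  have hh0 : h 0 = 0 := by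
    have := hH 0 0 le_rfl
    rw [zero_smul, zero_mul] at this
    exact this
  have hc : Continuous h := by
    have hl : LipschitzWith (Real.toNNReal Λ) h := by
      refine LipschitzWith.of_dist_le_mul fun u v => ?_
      rw [Real.dist_eq, dist_eq_norm, Real.coe_toNNReal Λ hΛ]
      exact hL u v
    exact hl.continuous
  have hVfin := FNon_finite Δ h hbd V hfin
  -- the directions
  have hdir : ∀ k, ∃ v : Fin n → ℝ, 0 < h v ∧ (¬ (V k ∩ {u | h u ≤ Λ + 1}).Nonempty →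
      (V k).Nonempty → v ∈ V k) := by
    intro k
    by_cases hk : (V k).Nonempty
    · obtain ⟨w, hw⟩ := hk
      by_cases hk2 : (V k ∩ {u | h u ≤ Λ + 1}).Nonempty
      · exact ⟨u₀, hu₀, fun h => absurd hk2 h⟩
      · refine ⟨w, ?_, fun _ _ => hw⟩
        by_contra h0
        exact hk2 ⟨w, hw, by show h w ≤ Λ + 1; linarith [not_lt.1 h0]⟩
    · exact ⟨u₀, hu₀, fun _ h => absurd h hk⟩
  choose v hv hv2 using hdir
  have hv0 : ∀ k, v k ≠ 0 := by
    intro k h0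
    have := hv k
    rw [h0, hh0] at this
    exact lt_irrefl _ this
  obtain ⟨f, hf⟩ : ∃ f : ℕ → (Fin n → ℝ) → ℝ, f = fun k u => ψ k u * b u := ⟨_, rfl⟩
  have hfs : ∀ k, tsupport (f k) ⊆ V k := by
    intro k
    refine Set.Subset.trans ?_ (hV k).2.1.2.2
    rw [hf]
    exact tsupport_mul_subset_left
  have hfc : ∀ k, HasCompactSupport (f k) := by
    intro k
    rw [hf]
    exact (hV k).2.1.2.1.mul_right
  have hfd : ∀ k, ContDiff ℝ (⊤ : ℕ∞) (f k) := by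
    intro k
    rw [hf]
    exact (hV k).2.1.1.mul hb
  have hex : ∀ k, ∃ c : (Fin n → ℝ) → ℝ, ContDiff ℝ (⊤ : ℕ∞) c ∧
      tsupport c ⊆ FNon_tube (f k) (v k) ∧ ∀ u, fderiv ℝ c u (v k) = f k u :=
    fun k => h3 n (f k) (v k) (hfd k) (hfc k) (hv0 k)
  choose c hc1 hc2 hc3 using hex
  have htub : ∀ C : ℝ, {k | (FNon_tube (f k) (v k) ∩ {u | h u ≤ C}).Nonempty}.Finite := by
    intro C
    refine ((hVfin (Λ + 1)).union (hVfin (C + Λ))).subset ?_
    rintro k ⟨_, ⟨w, hw, τ, hτ, rfl⟩, hC⟩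
    have hC' : h (w + τ • v k) ≤ C := hC
    have hwV : w ∈ V k := hfs k hw
    by_cases hk : (V k ∩ {u | h u ≤ Λ + 1}).Nonempty
    · exact Or.inl hk
    · right
      have hvV : v k ∈ V k := hv2 k hk ⟨w, hwV⟩
      refine ⟨v k, hvV, ?_⟩
      show h (v k) ≤ C + Λ
      have h4 := hL ((1 + τ) • v k) (w + τ • v k)
      have e1 : (1 + τ) • v k - (w + τ • v k) = v k - w := by
        rw [add_smul, one_smul]
        abel
      rw [e1, hH (1 + τ) (v k) (by linarith)] at h4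
      have h5 := le_abs_self ((1 + τ) * h (v k) - h (w + τ • v k))
      have h6 : Λ * ‖v k - w‖ ≤ Λ * 1 :=
        mul_le_mul_of_nonneg_left ((hV k).2.2 _ hvV _ hwV) hΛ
      have h7 : 0 ≤ τ * h (v k) := mul_nonneg hτ (hv k).le
      linarith
  obtain ⟨d, hd1, hd2⟩ := FNon_glue Δ h hc hup f c v hc1 hc2 hc3 htub
    (fun k C => FNon_bdd h Λ hL hH (f k) (hfc k) (v k) (hv k) C)
  refine ⟨d, hd1, fun u => ?_⟩
  obtain ⟨F, hF1, hF2⟩ := hd2 u
  rw [hF2, hf]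
  show b u = ∑ k ∈ F, ψ k u * b u
  by_cases hbu : b u = 0
  · simp [hbu]
  · have hu : u ∈ tsupport b := subset_tsupport _ hbu
    have h4 := hsum u hu
    have h5 : ∑ᶠ k, ψ k u = ∑ k ∈ F, ψ k u := by
      refine finsum_eq_sum_of_support_subset _ ?_
      intro k hk
      apply hF1 k
      rw [hf]
      exact mul_ne_zero hk hbu
    rw [← Finset.sum_mul, ← h5, h4, one_mul]

end TDC
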