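import Pool.Agent.TDC.StF

/-!
# TDC, module FReD: pairs `(η, d''η)` of type `(n,q)` on `N_ℝ(Σ)`
-/

set_option autoImplicit false

namespace TDC

open scoped Topology

/-! ## exterior derivatives -/

private theorem FReD_ex0 {E : Type*} [NormedAddCommGroup E] [NormedSpace ℝ E] {q : ℕ} (x : E) :
    extDeriv (fun _ : E => (0 : E [⋀^Fin q]→L[ℝ] ℝ)) x = 0 := by
  have := extDeriv_fun_smul (𝕜 := ℝ) (x := x) (0 : ℝ) (fun _ : E => (0 : E [⋀^Fin q]→L[ℝ] ℝ))
  simp only [zero_smul] at this
  exact this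

private theorem FReD_exsum {E : Type*} [NormedAddCommGroup E] [NormedSpace ℝ E] {J : Type*}
    {q : ℕ} (s : Finset J) (ω : J → E → E [⋀^Fin q]→L[ℝ] ℝ) (x : E)
    (h : ∀ j ∈ s, DifferentiableAt ℝ (ω j) x) :
    extDeriv (fun t => ∑ j ∈ s, ω j t) x = ∑ j ∈ s, extDeriv (ω j) x := by
  classical
  induction s using Finset.induction_on with
  | empty =>
    simp only [Finset.sum_empty]
    exact FReD_ex0 x
  | insert a s ha ih =>
    simp only [Finset.sum_insert ha]
    rw [extDeriv_fun_add (h a (Finset.mem_insert_self a s))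
      (DifferentiableAt.fun_sum fun j hj => h j (Finset.mem_insert_of_mem hj)),
      ih fun j hj => h j (Finset.mem_insert_of_mem hj)]

private theorem FReD_exsupp {E : Type*} [NormedAddCommGroup E] [NormedSpace ℝ E] {q : ℕ}
    (γ : E → E [⋀^Fin q]→L[ℝ] ℝ) (x : E) (h : x ∉ tsupport γ) : extDeriv γ x = 0 := by
  have h1 := notMem_tsupport_iff_eventuallyEq.1 h
  rw [h1.extDeriv_eq]
  exact FReD_ex0 x

/-! ## characters -/

section

variable {n : ℕ}

/-- the linear map `u ↦ (F_l · u)_l` -/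
private noncomputable def FReD_A {R : ℕ} (F : Fin R → Fin n → ℤ) :
    (Fin n → ℝ) →L[ℝ] (Fin R → ℝ) :=
  ContinuousLinearMap.pi fun l => ∑ k, (F l k : ℝ) • ContinuousLinearMap.proj k

private theorem FReD_A_apply {R : ℕ} (F : Fin R → Fin n → ℤ) (u : Fin n → ℝ) (l : Fin R) :
    FReD_A F u l = pr (F l) u := by
  unfold FReD_A pr
  simp [ContinuousLinearMap.pi_apply]

private theorem FReD_evm {G : AddSubgroup (Fin n → ℤ)} (hG : G = ⊤) (δ : G →+ ℝ)
    (m : Fin n → ℤ) : evm δ m = pr m (crd δ) := by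
  subst hG
  have hm : ∀ m : Fin n → ℤ, m ∈ (⊤ : AddSubgroup (Fin n → ℤ)) := fun m => AddSubgroup.mem_top m
  have he : ∀ m : Fin n → ℤ, evm δ m = δ ⟨m, hm m⟩ := fun m => by
    unfold evm
    rw [dif_pos (hm m)]
  obtain ⟨f, hf⟩ : ∃ f : (Fin n → ℤ) →+ ℝ, ∀ m, f m = δ ⟨m, hm m⟩ := by
    refine ⟨{ toFun := fun m => δ ⟨m, hm m⟩, map_zero' := ?_, map_add' := ?_ }, fun m => rfl⟩
    · exact map_zero δ
    · intro a b
      rw [← map_add]
      rfl
  unfold pr crd
  simp only [he, ← hf]
  have h1 : m = ∑ k, m k • (Pi.single k 1 : Fin n → ℤ) := by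
    funext j
    rw [Finset.sum_apply]
    simp [Pi.single_apply]
  conv_lhs => rw [h1]
  rw [map_sum]
  refine Finset.sum_congr rfl fun k _ => ?_
  rw [map_zsmul, zsmul_eq_mul]

private theorem FReD_crd_pr {G : AddSubgroup (Fin n → ℤ)} (hG : G = ⊤) (w : Fin n → ℝ) :
    crd (prHom G w) = w := by
  subst hG
  funext k
  have hm : (Pi.single k 1 : Fin n → ℤ) ∈ (⊤ : AddSubgroup (Fin n → ℤ)) := AddSubgroup.mem_top _
  unfold crd evm
  rw [dif_pos hm]
  show pr (Pi.single k 1) w = w k
  unfold pr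
  simp [Pi.single_apply]

/-- the determinant of the characters -/
private noncomputable def FReD_d {R : ℕ} (F : Fin R → Fin n → ℤ) (I : Fin n → Fin R) : ℝ :=
  (Matrix.of fun l k => (F (I l) k : ℝ)).det

private theorem FReD_det {G : AddSubgroup (Fin n → ℤ)} (hG : G = ⊤) {R : ℕ}
    (F : Fin R → Fin n → ℤ) (I : Fin n → Fin R) (δ : Fin n → G →+ ℝ) :
    (Matrix.of fun k l => evm (δ k) (F (I l))).det =
      (Matrix.of fun k l => crd (δ k) l).det * FReD_d F I := by
  have h1 : (Matrix.of fun k l => evm (δ k) (F (I l))) =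
      (Matrix.of fun k l => crd (δ k) l) *
        (Matrix.of fun l k => (F (I l) k : ℝ)).transpose := by
    ext k l
    rw [Matrix.mul_apply]
    simp only [Matrix.of_apply, Matrix.transpose_apply]
    rw [FReD_evm hG]
    unfold pr
    exact Finset.sum_congr rfl fun j _ => mul_comm _ _
  rw [h1, Matrix.det_mul, Matrix.det_transpose]
  rfl

/-- the form on `ℝ^n` of a chart -/
private noncomputable def FReD_g {R q : ℕ} (F : Fin R → Fin n → ℤ) (α : SF R n q)
    (u : Fin n → ℝ) : (Fin n → ℝ) [⋀^Fin q]→L[ℝ] ℝ :=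
  ∑ I : Fin n → Fin R, FReD_d F I • (α I (FReD_A F u)).compContinuousLinearMap (FReD_A F)

private theorem FReD_sm1 {R q : ℕ} (F : Fin R → Fin n → ℤ) {α : SF R n q} (h : α.Smooth)
    (I : Fin n → Fin R) : ContDiff ℝ (⊤ : ℕ∞) (fun u : Fin n → ℝ =>
      (α I (FReD_A F u)).compContinuousLinearMap (FReD_A F)) := by
  have h1 : ContDiff ℝ (⊤ : ℕ∞) (ContinuousAlternatingMap.compContinuousLinearMapCLM (𝕜 := ℝ)
    (ι := Fin q) (F := ℝ) (FReD_A F)) := ContinuousLinearMap.contDiff _
  exact h1.comp ((h I).comp (FReD_A F).contDiff)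

private theorem FReD_dg {R q : ℕ} (F : Fin R → Fin n → ℤ) {α : SF R n q} (h : α.Smooth)
    (u : Fin n → ℝ) : extDeriv (FReD_g F α) u = FReD_g F α.dd u := by
  show extDeriv (fun u => ∑ I : Fin n → Fin R,
    FReD_d F I • (α I (FReD_A F u)).compContinuousLinearMap (FReD_A F)) u = _
  have hd : ∀ I ∈ (Finset.univ : Finset (Fin n → Fin R)), DifferentiableAt ℝ (fun u : Fin n → ℝ =>
      FReD_d F I • (α I (FReD_A F u)).compContinuousLinearMap (FReD_A F)) u := by
    intro I _
    have h3 : DifferentiableAt ℝ (fun u : Fin n → ℝ =>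
        (α I (FReD_A F u)).compContinuousLinearMap (FReD_A F)) u :=
      (FReD_sm1 F h I).contDiffAt.differentiableAt (by simp)
    exact h3.fun_const_smul (FReD_d F I)
  rw [FReD_exsum Finset.univ (fun (I : Fin n → Fin R) (u : Fin n → ℝ) =>
      FReD_d F I • (α I (FReD_A F u)).compContinuousLinearMap (FReD_A F)) u hd]
  unfold FReD_g
  refine Finset.sum_congr rfl fun I _ => ?_
  refine (extDeriv_fun_smul (FReD_d F I) (fun u : Fin n → ℝ =>
    (α I (FReD_A F u)).compContinuousLinearMap (FReD_A F))).trans ?_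
  congr 1
  have h1 := extDeriv_pullback (𝕜 := ℝ) (r := (⊤ : ℕ∞)) (ω := α I) (f := FReD_A F) (x := u)
    ((h I).contDiffAt.differentiableAt (by simp)) (FReD_A F).contDiff.contDiffAt
    (by
      simp only [minSmoothness_of_isRCLikeNormedField]
      exact WithTop.coe_le_coe.2 (le_top : (2 : ℕ∞) ≤ ⊤))
  simp only [ContinuousLinearMap.fderiv] at h1
  exact h1

private theorem FReD_pullT {Δ : Fan n} {R q : ℕ} (z : NR Δ) (hz : Δ.perp z.i = ⊤)
    (F : Fin R → Fin n → ℤ) (α : SF R n q) (δ : Fin n → Δ.perp z.i →+ ℝ)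
    (ε : Fin q → Δ.perp z.i →+ ℝ) :
    pullT z F α δ ε = (Matrix.of fun k l => crd (δ k) l).det *
      FReD_g F α (crd z.φ) (fun k => crd (ε k)) := by
  unfold pullT FReD_g
  rw [ContinuousAlternatingMap.sum_apply, Finset.mul_sum]
  refine Finset.sum_congr rfl fun I _ => ?_
  rw [FReD_det hz, ContinuousAlternatingMap.smul_apply,
    ContinuousAlternatingMap.compContinuousLinearMap_apply, smul_eq_mul]
  have h1 : (fun l => evm z.φ (F l)) = FReD_A F (crd z.φ) := by
    funext l
    rw [FReD_A_apply, FReD_evm hz]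
  have h2 : (fun k l => evm (ε k) (F l)) = (FReD_A F) ∘ fun k => crd (ε k) := by
    funext k l
    rw [Function.comp_apply, FReD_A_apply, FReD_evm hz]
  rw [h1, h2, mul_assoc]

private theorem FReD_extT {Δ : Fan n} {q : ℕ} (γ : (Fin n → ℝ) → (Fin n → ℝ) [⋀^Fin q]→L[ℝ] ℝ)
    (z : NR Δ) (hz : Δ.cone z.i = {0}) (δ : Fin n → Δ.perp z.i →+ ℝ)
    (ε : Fin q → Δ.perp z.i →+ ℝ) :
    extT Δ γ z δ ε = (Matrix.of fun k l => crd (δ k) l).det *
      γ (crd z.φ) (fun k => crd (ε k)) := by
  unfold extT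
  rw [if_pos hz]

private theorem FReD_extT0 {Δ : Fan n} {q : ℕ}
    (γ : (Fin n → ℝ) → (Fin n → ℝ) [⋀^Fin q]→L[ℝ] ℝ) (z : NR Δ) (hz : Δ.cone z.i ≠ {0}) :
    extT Δ γ z = 0 := by
  funext δ ε
  unfold extT
  rw [if_neg hz]
  rfl

end

theorem thm_FReD (h1 : St_FRep) (h2 : St_FBdr) (h3 : St_FFin) (h4 : St_FJ) (h5 : St_FZero)
    (h6 : St_FVal) : St_FReD := by
  classical
  intro n Δ q η ω
  obtain ⟨⟨i₀, hi₀⟩, hz2, -, -⟩ := h5 n Δ
  have hzero : ∀ i, (0 : Fin n → ℝ) ∈ Δ.cone i := fun i =>
    (hz2 i₀ hi₀).2.2 i (by rw [hi₀]; rfl)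
  constructor
  · intro h
    have hf : IsFormT η := by
      intro y
      obtain ⟨R, F, α, k1, k2, k3⟩ := h y
      exact ⟨R, F, α, k1, k2, k3.mono fun z hz => ⟨hz.1, hz.2.1⟩⟩
    obtain ⟨γ, g1, g2, g3⟩ := (h1 n Δ q η).1 hf
    refine ⟨γ, g1, g2, g3, ?_⟩
    funext y
    obtain ⟨R, F, α, k1, k2, k3⟩ := h y
    have ky := k3.self_of_nhds
    rw [ky.2.2]
    by_cases hy : Δ.cone y.i = {0}
    · have hp : Δ.perp y.i = ⊤ := (hz2 y.i hy).2.1
      obtain ⟨-, j2, j3, j4⟩ := h4 n Δ y.i hy
      have hyj := j3 y hy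
      have hcont : Filter.Tendsto (jT Δ y.i) (𝓝 (crd y.φ)) (𝓝 y) := by
        have := j4.continuous.tendsto (crd y.φ)
        rwa [← hyj] at this
      have hev : γ =ᶠ[𝓝 (crd y.φ)] FReD_g F α := by
        filter_upwards [hcont.eventually k3] with u hu
        have hu2 := hu.2.1
        rw [g3] at hu2
        ext v
        have hz : Δ.cone (jT Δ y.i u).i = {0} := hy
        have e1 := FReD_extT γ (jT Δ y.i u) hz (fun k => prHom _ (Pi.single k 1))
          (fun k => prHom _ (v k))
        have e2 := FReD_pullT (jT Δ y.i u) hp F α (fun k => prHom _ (Pi.single k 1))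
          (fun k => prHom _ (v k))
        rw [hu2, e2] at e1
        have e3 : ∀ w : Fin n → ℝ, crd (prHom (Δ.perp (jT Δ y.i u).i) w) = w :=
          fun w => FReD_crd_pr hp w
        simp only [e3, j2] at e1
        have e4 : (Matrix.of fun k l => (Pi.single k 1 : Fin n → ℝ) l) =
            (1 : Matrix (Fin n) (Fin n) ℝ) := by
          ext k l
          rw [Matrix.of_apply, Matrix.one_apply, Pi.single_apply]
          exact if_congr eq_comm rfl rfl
        rw [e4, Matrix.det_one, one_mul, one_mul] at e1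
        exact e1.symm
      funext δ ε
      rw [FReD_pullT y hp, FReD_extT _ y hy, hev.extDeriv_eq, FReD_dg F k2]
    · rw [h2 n Δ y y R (q + 1) F α.dd hy k1 le_rfl, FReD_extT0 _ y hy]
  · rintro ⟨γ, g1, g2, g3, g4⟩
    intro y
    by_cases hy : Δ.cone y.i = {0}
    · refine ⟨n, fun l => Pi.single l 1, fun I => if I = id then γ else 0, ?_, ?_, ?_⟩
      · intro l
        rw [(hz2 y.i hy).2.1]
        exact AddSubgroup.mem_top _
      · intro I
        by_cases hI : I = id
        · show ContDiff ℝ (⊤ : ℕ∞) (if I = id then γ else 0)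
          rw [if_pos hI]
          exact g1
        · show ContDiff ℝ (⊤ : ℕ∞) (if I = id then γ else 0)
          rw [if_neg hI]
          exact contDiff_const
      · have ho := ((h6 n Δ).2.2.1 y.i).mem_nhds
          (show y ∈ {z : NR Δ | Δ.cone z.i ⊆ Δ.cone y.i} from le_refl (Δ.cone y.i))
        filter_upwards [ho] with z hz
        have hz' : Δ.cone z.i ⊆ Δ.cone y.i := hz
        have hz0 : Δ.cone z.i = {0} := by
          refine Set.Subset.antisymm (hz'.trans hy.le) ?_
          intro u hu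
          rw [Set.mem_singleton_iff.1 hu]
          exact hzero z.i
        refine ⟨hz', ?_, ?_⟩
        · rw [g3]
          funext δ ε
          rw [FReD_extT γ z hz0]
          unfold pullT
          rw [Finset.sum_eq_single (id : Fin n → Fin n)]
          · show _ = _ * (if (id : Fin n → Fin n) = id then γ else 0) _ _
            rw [if_pos rfl]
            rfl
          · intro I _ hI
            show _ * (if I = id then γ else 0) _ _ = 0
            rw [if_neg hI]
            exact mul_zero _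
          · intro h
            exact absurd (Finset.mem_univ _) h
        · rw [g4]
          funext δ ε
          rw [FReD_extT _ z hz0]
          unfold pullT
          rw [Finset.sum_eq_single (id : Fin n → Fin n)]
          · show _ = _ * (extDeriv (if (id : Fin n → Fin n) = id then γ else 0) _) _
            rw [if_pos rfl]
            rfl
          · intro I _ hI
            show _ * (extDeriv (if I = id then γ else 0) _) _ = 0
            rw [if_neg hI]
            have := FReD_ex0 (q := q) (fun l => evm z.φ (Pi.single l 1 : Fin n → ℤ))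
            have e : extDeriv (0 : (Fin n → ℝ) → (Fin n → ℝ) [⋀^Fin q]→L[ℝ] ℝ)
              (fun l => evm z.φ (Pi.single l 1 : Fin n → ℤ)) = 0 := this
            rw [e]
            exact mul_zero _
          · intro h
            exact absurd (Finset.mem_univ _) h
    · refine ⟨0, fun l => l.elim0, 0, fun l => l.elim0, fun I => contDiff_const, ?_⟩
      have hcl := (h3 n Δ i₀ hi₀ (tsupport γ)).1 g2
      have hyn : y ∉ jT Δ i₀ '' tsupport γ := by
        rintro ⟨u, -, hu⟩
        refine hy ?_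
        rw [← hu]
        exact hi₀
      have ho := ((h6 n Δ).2.2.1 y.i).mem_nhds
        (show y ∈ {z : NR Δ | Δ.cone z.i ⊆ Δ.cone y.i} from le_refl (Δ.cone y.i))
      filter_upwards [ho, hcl.isOpen_compl.mem_nhds hyn] with z hz hzn
      have hp0 : ∀ {q : ℕ} (β : SF 0 n q), (∀ I t, β I t = 0) →
          pullT z (fun l : Fin 0 => (l.elim0 : Fin n → ℤ)) β = 0 := by
        intro q β hβ
        funext δ ε
        unfold pullT
        refine Finset.sum_eq_zero fun I _ => ?_
        rw [hβ]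
        exact mul_zero _
      have hγz : Δ.cone z.i = {0} → crd z.φ ∉ tsupport γ := by
        intro hz0 hc
        have hii : z.i = i₀ := Δ.inj _ _ (by
          show Δ.cone z.i = Δ.cone i₀
          rw [hz0, hi₀])
        have h7 := (h4 n Δ z.i hz0).2.2.1 z hz0
        subst hii
        exact hzn ⟨_, hc, h7.symm⟩
      refine ⟨hz, ?_, ?_⟩
      · rw [hp0 0 fun I t => rfl, g3]
        by_cases hz0 : Δ.cone z.i = {0}
        · funext δ ε
          rw [FReD_extT γ z hz0, image_eq_zero_of_notMem_tsupport (hγz hz0)]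
          exact mul_zero _
        · exact FReD_extT0 γ z hz0
      · rw [hp0 (SF.dd 0) fun I t => FReD_ex0 t, g4]
        by_cases hz0 : Δ.cone z.i = {0}
        · funext δ ε
          rw [FReD_extT _ z hz0, FReD_exsupp γ _ (hγz hz0)]
          exact mul_zero _
        · exact FReD_extT0 _ z hz0

end TDC
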