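import Pool.Agent.TDC.StF

/-!
# TDC, module FRep: forms of type `(n,q)` on `N_ℝ(Σ)` are smooth `q`-forms with `Fine` support
-/

set_option autoImplicit false

namespace TDC

open scoped Topology

variable {n : ℕ}

/-- `u ↦ (F l · u)_l` -/
private noncomputable def FRep_A {R : ℕ} (F : Fin R → Fin n → ℤ) :
    (Fin n → ℝ) →L[ℝ] (Fin R → ℝ) :=
  ContinuousLinearMap.pi fun l => ∑ k, ((F l k : ℤ) : ℝ) • ContinuousLinearMap.proj k

private theorem FRep_A_apply {R : ℕ} (F : Fin R → Fin n → ℤ) (u : Fin n → ℝ) (l : Fin R) :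
    FRep_A F u l = pr (F l) u := by
  unfold FRep_A pr
  simp

/-- the coefficient of `d'x_1 ∧ … ∧ d'x_n` of a pull-back -/
private noncomputable def FRep_g {R q : ℕ} (F : Fin R → Fin n → ℤ) (α : SF R n q) :
    (Fin n → ℝ) → (Fin n → ℝ) [⋀^Fin q]→L[ℝ] ℝ := fun u =>
  ∑ I : Fin n → Fin R, (Matrix.of fun j l => ((F (I l) j : ℤ) : ℝ)).det •
    (α I (FRep_A F u)).compContinuousLinearMap (FRep_A F)

private theorem FRep_g_smooth {R q : ℕ} (F : Fin R → Fin n → ℤ) (α : SF R n q)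
    (hα : α.Smooth) : ContDiff ℝ (⊤ : ℕ∞) (FRep_g F α) := by
  refine ContDiff.sum fun I _ => ?_
  have h1 : ContDiff ℝ (⊤ : ℕ∞) fun u => α I (FRep_A F u) := (hα I).comp (FRep_A F).contDiff
  let T : ((Fin R → ℝ) [⋀^Fin q]→L[ℝ] ℝ) →L[ℝ] ((Fin n → ℝ) [⋀^Fin q]→L[ℝ] ℝ) :=
    ContinuousAlternatingMap.compContinuousLinearMapCLM (FRep_A F)
  have h2 : ContDiff ℝ (⊤ : ℕ∞)
      fun u => (α I (FRep_A F u)).compContinuousLinearMap (FRep_A F) := T.contDiff.comp h1
  exact h2.const_smul _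

/-- the value of a pull-back at a point of the open stratum -/
private theorem FRep_pull {Δ : Fan n} {i₀ : Δ.ι} (hperp : Δ.perp i₀ = ⊤)
    (hprH : ∀ δ : Δ.perp i₀ →+ ℝ, δ = prHom _ (crd δ)) {R q : ℕ} (F : Fin R → Fin n → ℤ)
    (α : SF R n q) (u : Fin n → ℝ) (δ : Fin n → Δ.perp i₀ →+ ℝ) (ε : Fin q → Δ.perp i₀ →+ ℝ) :
    pullT (jT Δ i₀ u) F α δ ε = (Matrix.of fun k l => crd (δ k) l).det *
      FRep_g F α u (fun k => crd (ε k)) := by
  have hevm : ∀ (v : Fin n → ℝ) (m : Fin n → ℤ), evm (prHom (Δ.perp i₀) v) m = pr m v := by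
    intro v m
    have hm : m ∈ Δ.perp i₀ := by rw [hperp]; trivial
    unfold evm
    rw [dif_pos hm]
    rfl
  have hevm' : ∀ (δ : Δ.perp i₀ →+ ℝ) (m : Fin n → ℤ), evm δ m = pr m (crd δ) := by
    intro δ m
    conv_lhs => rw [hprH δ]
    exact hevm _ m
  unfold pullT FRep_g
  rw [ContinuousAlternatingMap.sum_apply, Finset.mul_sum]
  refine Finset.sum_congr rfl fun I _ => ?_
  have hdet : (Matrix.of fun k l => evm (δ k) (F (I l))).det =
      (Matrix.of fun k l => crd (δ k) l).det *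
        (Matrix.of fun j l => ((F (I l) j : ℤ) : ℝ)).det := by
    rw [← Matrix.det_mul]
    congr 1
    ext k l
    rw [Matrix.of_apply, hevm', Matrix.mul_apply]
    unfold pr
    refine Finset.sum_congr rfl fun j _ => ?_
    rw [Matrix.of_apply, Matrix.of_apply, mul_comm]
  have h1 : (fun l => evm (jT Δ i₀ u).φ (F l)) = FRep_A F u := by
    funext l
    rw [FRep_A_apply]
    exact hevm u (F l)
  have h2 : (fun (k : Fin q) (l : Fin R) => evm (ε k) (F l)) =
      fun k => FRep_A F (crd (ε k)) := by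
    funext k l
    rw [FRep_A_apply]
    exact hevm' _ _
  have h3 : (Matrix.of fun k l => evm (δ k) (F (I l))).det *
      α I (fun l => evm (jT Δ i₀ u).φ (F l)) (fun k l => evm (ε k) (F l)) =
      (Matrix.of fun k l => crd (δ k) l).det *
        ((Matrix.of fun j l => ((F (I l) j : ℤ) : ℝ)).det •
          (α I (FRep_A F u)).compContinuousLinearMap (FRep_A F)) (fun k => crd (ε k)) := by
    rw [h1, h2, hdet, ContinuousAlternatingMap.smul_apply, smul_eq_mul, mul_assoc]
    rfl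
  exact h3

private theorem FRep_extT {Δ : Fan n} {i₀ : Δ.ι} (h0 : Δ.cone i₀ = {0})
    (hcrd : ∀ v : Fin n → ℝ, crd (prHom (Δ.perp i₀) v) = v) {q : ℕ}
    (γ : (Fin n → ℝ) → (Fin n → ℝ) [⋀^Fin q]→L[ℝ] ℝ) (u : Fin n → ℝ)
    (δ : Fin n → Δ.perp i₀ →+ ℝ) (ε : Fin q → Δ.perp i₀ →+ ℝ) :
    extT Δ γ (jT Δ i₀ u) δ ε = (Matrix.of fun k l => crd (δ k) l).det *
      γ u (fun k => crd (ε k)) := by
  show (if Δ.cone i₀ = {0} then (Matrix.of fun k l => crd (δ k) l).det *
    γ (crd (prHom (Δ.perp i₀) u)) (fun k => crd (ε k)) else 0) = _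
  rw [if_pos h0, hcrd]

/-- the coefficient is determined by the values -/
private theorem FRep_inj {Δ : Fan n} {i₀ : Δ.ι}
    (hcrd : ∀ v : Fin n → ℝ, crd (prHom (Δ.perp i₀) v) = v) {q : ℕ}
    (a b : (Fin n → ℝ) [⋀^Fin q]→L[ℝ] ℝ)
    (h : ∀ (δ : Fin n → Δ.perp i₀ →+ ℝ) (ε : Fin q → Δ.perp i₀ →+ ℝ),
      (Matrix.of fun k l => crd (δ k) l).det * a (fun k => crd (ε k)) =
        (Matrix.of fun k l => crd (δ k) l).det * b (fun k => crd (ε k))) : a = b := by
  ext v
  have h1 := h (fun k => prHom _ (Pi.single k 1)) (fun k => prHom _ (v k))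
  have h2 : (Matrix.of fun k l => crd (prHom (Δ.perp i₀) (Pi.single k (1 : ℝ))) l).det =
      (1 : ℝ) := by
    have h3 : (Matrix.of fun k l => crd (prHom (Δ.perp i₀) (Pi.single k (1 : ℝ))) l) =
        (1 : Matrix (Fin n) (Fin n) ℝ) := by
      ext k l
      rw [Matrix.of_apply, hcrd, Matrix.one_apply, Pi.single_apply]
      simp only [eq_comm]
    rw [h3, Matrix.det_one]
  rw [h2, one_mul, one_mul] at h1
  simpa only [hcrd] using h1

theorem thm_FRep (h1 : St_FBdr) (h2 : St_FFin) (h3 : St_FJ) (h4 : St_FZero) (h5 : St_FVal) :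
    St_FRep := by
  classical
  intro n Δ q ω
  obtain ⟨⟨i₀, h0⟩, hz, -, -⟩ := h4 n Δ
  obtain ⟨-, hperp, hsub⟩ := hz i₀ h0
  obtain ⟨-, hcrdφ, hjT, hemb⟩ := h3 n Δ i₀ h0
  have hcrd : ∀ v : Fin n → ℝ, crd (prHom (Δ.perp i₀) v) = v := hcrdφ
  have hprH : ∀ δ : Δ.perp i₀ →+ ℝ, δ = prHom _ (crd δ) := by
    intro δ
    have h := hjT ⟨i₀, δ⟩ h0
    unfold jT at h
    injection h with _ h'
  constructor
  · intro hω
    have hchart := hω
    choose R F α hF hα hev using hchart
    let γ : (Fin n → ℝ) → (Fin n → ℝ) [⋀^Fin q]→L[ℝ] ℝ := fun u =>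
      FRep_g (F (jT Δ i₀ u)) (α (jT Δ i₀ u)) u
    have hγval : ∀ (u : Fin n → ℝ) (δ : Fin n → Δ.perp i₀ →+ ℝ) (ε : Fin q → Δ.perp i₀ →+ ℝ),
        ω (jT Δ i₀ u) δ ε = (Matrix.of fun k l => crd (δ k) l).det *
          γ u (fun k => crd (ε k)) := by
      intro u δ ε
      rw [(hev (jT Δ i₀ u)).self_of_nhds.2]
      exact FRep_pull hperp hprH _ _ u δ ε
    have hnear : ∀ u₀ : Fin n → ℝ, ∀ᶠ u in 𝓝 u₀,
        γ u = FRep_g (F (jT Δ i₀ u₀)) (α (jT Δ i₀ u₀)) u := by
      intro u₀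
      have h6 := hemb.continuous.continuousAt.eventually (hev (jT Δ i₀ u₀))
      filter_upwards [h6] with u hu
      refine FRep_inj hcrd _ _ fun δ ε => ?_
      rw [← hγval, hu.2]
      exact FRep_pull hperp hprH _ _ u δ ε
    have hbd : ∀ y : NR Δ, Δ.cone y.i ≠ {0} → ∀ᶠ z in 𝓝 y, ω z = 0 := by
      intro y hy
      filter_upwards [hev y] with z hz
      rw [hz.2]
      exact h1 n Δ y z (R y) q (F y) (α y) hy (hF y) hz.1
    have hωγ : ω = extT Δ γ := by
      funext y
      by_cases hy : Δ.cone y.i = {0}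
      · obtain ⟨u, rfl⟩ : ∃ u, y = jT Δ i₀ u := ⟨_, hjT y hy⟩
        funext δ ε
        exact (hγval u δ ε).trans (FRep_extT h0 hcrd γ u δ ε).symm
      · rw [(hbd y hy).self_of_nhds]
        funext δ ε
        unfold extT
        rw [if_neg hy]
        rfl
    refine ⟨γ, ?_, ?_, hωγ⟩
    · rw [contDiff_iff_contDiffAt]
      intro u₀
      exact (FRep_g_smooth _ _ (hα _)).contDiffAt.congr_of_eventuallyEq (hnear u₀)
    · rw [h2 n Δ i₀ h0, ← isOpen_compl_iff, isOpen_iff_mem_nhds]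
      intro y hy
      by_cases hy0 : Δ.cone y.i = {0}
      · obtain ⟨u, rfl⟩ : ∃ u, y = jT Δ i₀ u := ⟨_, hjT y hy0⟩
        have hu : u ∉ tsupport γ := fun h => hy ⟨u, h, rfl⟩
        have hopen : IsOpen (jT Δ i₀ '' (tsupport γ)ᶜ) :=
          hemb.isOpenMap _ (isClosed_tsupport γ).isOpen_compl
        refine Filter.mem_of_superset (hopen.mem_nhds ⟨u, hu, rfl⟩) ?_
        rintro _ ⟨v, hv, rfl⟩ ⟨w, hw, hwv⟩
        exact hv (hemb.injective hwv ▸ hw)
      · obtain ⟨N, hN, hNo, hyN⟩ := mem_nhds_iff.mp (hbd y hy0)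
        refine Filter.mem_of_superset (hNo.mem_nhds hyN) ?_
        rintro z hzN ⟨u, hu, rfl⟩
        have hpre : IsOpen (jT Δ i₀ ⁻¹' N) := hNo.preimage hemb.continuous
        have hzero : ∀ v ∈ jT Δ i₀ ⁻¹' N, γ v = 0 := by
          intro v hv
          have h7 : ω (jT Δ i₀ v) = 0 := hN hv
          refine FRep_inj hcrd _ _ fun δ ε => ?_
          have h8 : ω (jT Δ i₀ v) δ ε = 0 := by
            rw [h7]
            rfl
          rw [← hγval, h8]
          simp
        have hdis : u ∉ tsupport γ := by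
          rw [notMem_tsupport_iff_eventuallyEq]
          filter_upwards [hpre.mem_nhds hzN] with v hv
          exact hzero v hv
        exact hdis hu
  · rintro ⟨γ, hγ, hfine, rfl⟩ y
    have hclosed := (h2 n Δ i₀ h0 (tsupport γ)).mp hfine
    have hopen := (h5 n Δ).2.2.1 y.i
    have hnb : ∀ᶠ z : NR Δ in 𝓝 y, Δ.cone z.i ⊆ Δ.cone y.i :=
      hopen.mem_nhds (show Δ.cone y.i ⊆ Δ.cone y.i from subset_rfl)
    by_cases hy : Δ.cone y.i = {0}
    · obtain ⟨-, hperpy, -⟩ := hz y.i hy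
      refine ⟨n, fun l => Pi.single l 1, fun I t => if I = id then γ t else 0, ?_, ?_, ?_⟩
      · intro l
        rw [hperpy]
        trivial
      · intro I
        by_cases hI : I = id
        · simp only [hI, if_true]
          exact hγ
        · simp only [hI, if_false]
          exact contDiff_const
      · filter_upwards [hnb] with z hz1
        refine ⟨hz1, ?_⟩
        have hz0 : Δ.cone z.i = {0} := by
          apply le_antisymm
          · rw [← hy]
            exact hz1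
          · rw [← h0]
            exact hsub z.i
        funext δ ε
        unfold extT pullT
        rw [if_pos hz0, Finset.sum_eq_single (id : Fin n → Fin n)]
        · beta_reduce
          rw [if_pos rfl]
          rfl
        · intro I _ hI
          beta_reduce
          rw [if_neg hI]
          simp
        · intro h
          exact absurd (Finset.mem_univ _) h
    · refine ⟨0, fun l => l.elim0, 0, fun l => l.elim0, fun I => contDiff_const, ?_⟩
      have hy' : y ∈ (jT Δ i₀ '' tsupport γ)ᶜ := by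
        rintro ⟨u, _, rfl⟩
        exact hy h0
      filter_upwards [hnb, hclosed.isOpen_compl.mem_nhds hy'] with z hz1 hz2
      refine ⟨hz1, ?_⟩
      funext δ ε
      have hr : pullT z (fun l : Fin 0 => l.elim0) (0 : SF 0 n q) δ ε = 0 := by
        unfold pullT
        simp
      rw [hr]
      unfold extT
      split_ifs with hz0
      · have h8 := hjT z hz0
        have h9 : crd z.φ ∉ tsupport γ := fun h => hz2 ⟨_, h, h8.symm⟩
        rw [image_eq_zero_of_notMem_tsupport h9]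
        simp
      · rfl

end TDC
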