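import Pool.Agent.TDC.StF

/-!
# TDC, module FSto: the integral of a divergence
-/

namespace TDC

open scoped Topology
open MeasureTheory

/-- **FSto**. The integral of a divergence of compactly supported functions is zero. -/
theorem thm_FSto : St_FSto := by
  intro n c hc
  have hint : ∀ j, Integrable (fun u => fderiv ℝ (c j) u (Pi.single j 1)) := by
    intro j
    obtain ⟨h1, h2⟩ := hc j
    have hcont : Continuous fun u => fderiv ℝ (c j) u (Pi.single j 1) :=
      (h1.continuous_fderiv (by simp)).clm_apply continuous_const
    refine hcont.integrable_of_hasCompactSupport ?_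
    exact h2.fderiv_apply (𝕜 := ℝ) (Pi.single j 1)
  rw [integral_finsetSum _ fun j _ => hint j]
  refine Finset.sum_eq_zero fun j _ => ?_
  obtain ⟨h1, h2⟩ := hc j
  have h3 := integral_mul_fderiv_eq_neg_fderiv_mul_of_integrable (μ := volume)
    (f := fun _ : Fin n → ℝ => (1 : ℝ)) (g := c j) (v := Pi.single j 1)
    (by simp) (by simpa using hint j)
    (by simpa using h1.continuous.integrable_of_hasCompactSupport h2)
    (fun x _ => differentiableAt_const _) (fun x _ => h1.differentiable (by simp) x)
  simpa using h3

end TDC
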