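import Pool.Agent.TDC.Defs2

/-!
# TDC: statements of the modules, group 1 (with proofs in the docstrings)

Every module `TDC/<Name>.lean` proves `theorem TDC.thm_<Name> : TDC.St_<Name>`.
Convention: `K` non-trivially valued non-archimedean field; `L ⊇ K`; points `Pt (algebraMap K L)`.
-/

namespace TDC

open scoped Topology
open MeasureTheory

/-- **IndG**. Independent values imply Gauss point.
Proof: for `e ≠ e'` with non-zero coefficients the monomials `a_e g^e`, `a_{e'} g^{e'}` have
different values (else `|g^{e-e'}| = |a_{e'}/a_e|` and `e = e'` by `Indep`). In a sum of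
elements with pairwise different values the value of the sum is the maximum
(ultrametric inequality), so it is `≥` each of them. If `P.coeff e = 0` nothing to prove. -/
def St_IndG : Prop :=
  ∀ (K M : Type) [NormedField K] [Field M] (φ : K →+* M) (n : ℕ) (x : Pt φ) (g : Fin n → Mˣ),
    Indep x g → Gauss x g

/-- **DetZ**. Dependent values kill the determinants of tangent vectors.
Proof: `k ≠ 0` with `|∏ g_i^{k_i}(x)| ∈ |K|`; so `∑ k_i δ(g_i) = 0` for all tangent vectors
`δ`: the matrix kills the non-zero vector `k`. -/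
def St_DetZ : Prop :=
  ∀ (K M : Type) [NormedField K] [Field M] (φ : K →+* M) (n : ℕ) (x : Pt φ) (g : Fin n → Mˣ),
    ¬ Indep x g → ∀ δ : Fin n → Tan x, (Matrix.of fun i j => ev g (δ i) j).det = 0

/-- `s` is generic: its coordinates are linearly independent over `ℚ` modulo `log|K^*|`. -/
def Generic (K : Type) [NormedField K] {n : ℕ} (s : Fin n → ℝ) : Prop :=
  ∀ (k : Fin n → ℤ) (a : K), a ≠ 0 → ∑ i, (k i : ℝ) * s i = Real.log ‖a‖ → k = 0

/-- **GenI**. (1) If the value group of `K` is countable, every non-empty open subset of `ℝ^n`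
contains a generic point (the bad points lie in countably many affine hyperplanes, a set of
measure zero / meagre set). (2) If `log|g(x)|` is generic then the values are independent. -/
def St_GenI : Prop :=
  (∀ (K : Type) [NormedField K] (n : ℕ), (Set.range fun a : K => ‖a‖).Countable →
    ∀ U : Set (Fin n → ℝ), IsOpen U → U.Nonempty → ∃ s ∈ U, Generic K s) ∧
  (∀ (K M : Type) [NormedField K] [Field M] (φ : K →+* M) (n : ℕ) (x : Pt φ) (g : Fin n → Mˣ),
    Generic K (logv x g) → Indep x g)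

/-- **GCpt**. Transcendence degree `≤ n`: the set of Gauss points `x` of `g` with `log|g(x)|` in a
compact set `C` is compact.
Proof. If `g` is algebraically dependent, the set is empty (`P(g) = 0`, `P ≠ 0` contradicts the
Gauss inequality at a non-zero coefficient). Otherwise let `f ∈ L`, `f ≠ 0`: `f` and `g` are
algebraically dependent (`TrLe`), so there are `c_0, …, c_d ∈ K[T_1..T_n]`, not all zero, with
`∑ c_k(g) f^k = 0`; dividing by a power of `f` we may assume `c_0 ≠ 0`, and let `c_d ≠ 0` be the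
last one (`d ≥ 1` as `g` is independent). For a Gauss point `|c_k(g)(x)| ≤ ∑ …` is bounded
above on `C` by a constant and `|c_d(g)(x)|, |c_0(g)(x)|` are bounded below by a positive
constant (one monomial; `log|g_i|` bounded on `C`). So `|f(x)| ≤ max(1, …)` is bounded above, and
`|f^{-1}(x)|` too (`f^{-1}` is again an element of `L`, use the same for it). So the set
embeds in a product of compact intervals `∏_f [0, B_f]`; its image is closed: multiplicativity,
`v 0 = 0`, `v 1 = 1`, ultrametric inequality, `ext`, Gauss inequalities, `log|g| ∈ C` (with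
`|g_i| ≥ const > 0` on the set), and `v f ≥ 1/B_{f^{-1}} > 0` for `f ≠ 0` are closed
conditions. Tychonoff; the topology of `Pt` is induced from the product. -/
def St_GCpt : Prop :=
  ∀ (K L : Type) [NormedField K] [Field L] [Algebra K L] (n : ℕ), TrLe K L n →
    ∀ (g : Fin n → Lˣ) (C : Set (Fin n → ℝ)), IsCompact C →
      IsCompact {x : Pt (algebraMap K L) | Gauss x g ∧ logv x g ∈ C}

/-- **CSu**. Forms of type `(n,q)` with properly supported coefficients have compact support:
`pull F γ x ≠ 0` implies that for some `I` the determinants do not vanish, so `F ∘ I` is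
independent at `x` (DetZ), hence `x` is a Gauss point of `F ∘ I` (IndG) with
`log|F∘I (x)| ∈ C_I`. Finite union of compact sets (GCpt). Also `γ.dd` is properly supported if
`γ` is (`C_I` is closed, so `γ_I` vanishes in a neighbourhood of `t` if `t ∘ I ∉ C_I`). -/
def St_CSu : Prop :=
  (∀ (R n q : ℕ) (γ : SF R n q), γ.PC → γ.dd.PC) ∧
  ∀ (K L : Type) [NormedField K] [Field L] [Algebra K L] (n : ℕ), TrLe K L n →
    ∀ (R q : ℕ) (F : Fin R → Lˣ) (γ : SF R n q), γ.PC →
      CSupp (pull F γ : Fam (algebraMap K L) n q)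

/-- **MLoc**. `n` independent values, transcendence degree `≤ n`: every `f ∈ Lˣ` is, near `x`, in
absolute value a monomial with rational exponents in `g`.
Proof. `g` is algebraically independent (IndG). There are `c_k ∈ K[T]` with
`∑_{k ≤ d} c_k(g) f^k = 0`, not all zero. Among the values `|c_k(g)(x)| |f(x)|^k` with `c_k ≠ 0`
the maximum is attained at least twice, say at `k < k'`; each `c_k(g)` has exactly one dominating
monomial at `x` (independence), so `|f(x)|^{k'-k} = |a g^κ(x)|` with `a ≠ 0`, `κ ∈ ℤ^n`.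
Let `N = k' - k`, `h = f^N / (a g^κ)`, `|h(x)| = 1`. `h` satisfies an equation
`∑_k e_k(g) h^k = 0` (not all `e_k` zero, `e_k ∈ K[T]`; for instance again by `TrLe`).
Let `M` = max of `|e_k(g)(x)|`, `S` = set of `k` with `|e_k(g)(x)| = M` (at least two elements
since `|h(x)| = 1` and the sum is zero). For `k ∈ S` let `a_k g^{μ_k}` be the dominating monomial
of `e_k(g)`; all `μ_k`, `k ∈ S`, are equal (independence), `= μ`. Fix `k_0 ∈ S` and divide by
`a_{k_0} g^μ`: `|∑_{k ∈ S} ā_k h^k (x)| < 1` with `ā_k = a_k/a_{k_0} ∈ K`, `‖ā_k‖ = 1`.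
Dividing by `h^{min S}`: `|P(h)(x)| < 1` for a polynomial `P` over `K` whose non-zero
coefficients have norm 1, constant and leading coefficient have norm 1 and degree `≥ 1`.
The set of `y` with `|P(h)(y)| < 1` is open; if `|h(y)| < 1` then `|P(h)(y)| = |P(0)| = 1`, if
`|h(y)| > 1` then `|P(h)(y)| = |h(y)|^{deg P} > 1`. So `|h(y)| = 1` near `x`. -/
def St_MLoc : Prop :=
  ∀ (K L : Type) [NormedField K] [Field L] [Algebra K L] (n : ℕ), TrLe K L n →
    ∀ (x : Pt (algebraMap K L)) (g : Fin n → Lˣ), Indep x g → ∀ f : Lˣ,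
      ∃ (N : ℕ) (k : Fin n → ℤ) (a : K), 0 < N ∧ a ≠ 0 ∧
        ∀ᶠ y in 𝓝 x, y.v f ^ N = ‖a‖ * ∏ i, y.v (g i) ^ k i

/-- **Fini**. Finitely many sheets: given `F` and `I`, there are finitely many affine maps
`s ↦ c + M s` from `ℝ^n` to `ℝ^R`, sections of `t ↦ t ∘ I`, such that at every Gauss point `x` of
`g = F ∘ I`, `log|F(x)| = c + M log|g(x)|` and `ε(F) = M ε(g)` for all tangent
vectors, for one of them.
Proof. If `g` is algebraically dependent there is no Gauss point: take the empty set. Otherwise (`I`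
is injective and) for `j` not in the range of `I` let `P_j(T, S) = ∑ c_l(T) S^l ≠ 0` be a polynomial
over `K` with `P_j(g, F_j) = 0` (`TrLe`). At a Gauss point `x` the maximum of
`|c_l(g)(x)| |F_j(x)|^l` is attained for at least two different `l ≠ l'` (the sum is zero), and by
the Gauss property (and the ultrametric inequality) `|c_l(g)(x)| = |a g^e(x)|` for a
monomial `a T^e`, `a ≠ 0`, of `c_l`; the same for `l'`, `a' T^{e'}`. So
`(l' - l) log|F_j(x)| = log|a| - log|a'| + (e - e')·log|g(x)|` and, as tangent vectors kill the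
elements with value in `|K|`, `(l'-l) ε(F_j) = (e - e')·ε(g)`. For `j = I i` take
`log|F_j| = log|g_i|`. Finitely many choices of pairs of monomials for every `j`. -/
def St_Fini : Prop :=
  ∀ (K L : Type) [NormedField K] [Field L] [Algebra K L] (n : ℕ), TrLe K L n →
    ∀ (R : ℕ) (F : Fin R → Lˣ) (I : Fin n → Fin R),
      ∃ A : Finset (Matrix (Fin R) (Fin n) ℝ × (Fin R → ℝ)),
        (∀ A₀ ∈ A, ∀ (s : Fin n → ℝ) (i : Fin n), (A₀.2 + A₀.1.mulVec s) (I i) = s i) ∧
        ∀ x : Pt (algebraMap K L), Gauss x (F ∘ I) → ∃ A₀ ∈ A,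
          logv x F = A₀.2 + A₀.1.mulVec (logv x (F ∘ I)) ∧
          ∀ ε : Tan x, ev F ε = A₀.1.mulVec (ev (F ∘ I) ε)

/-- **Homo**. The normal homotopy. `E` finite-dimensional real space, `ν` a linear projection
(`ν ∘ ν = ν`), `t₀ ∈ E`, `H(l,t) = t₀ + ν(t-t₀) + l (t - t₀ - ν(t - t₀))`. For a smooth
compactly supported `(n+1)`-form `α` put
`β(t)(v_1..v_n) = ∫_0^1 α(H(l,t)) (w, D_l v_1, …, D_l v_n) dl`, `w = t - t₀ - ν(t-t₀)`,
`D_l v = ν v + l (v - ν v)`. Then `β` is smooth, vanishes at `t` unless `H(l,t) ∈ tsupport α` for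
some `l ∈ [0,1]`, and for every subspace `V` of dimension `n+1` which contains `range ν` properly
`dβ(t) = α(t)` on `V` for `t ∈ t₀ + V`.
Proof of the last claim: restrict to `t₀ + V` (pull-back by the inclusion; `extDeriv_pullback` or
evaluate `extDeriv_apply` on vectors of `V`); basis `e_1..e_k` of `range ν`, `e_{k+1}..e_{n+1}` of
`V ∩ ker ν` (`k ≤ n`); both sides are alternating on `V`, so evaluate on this basis. With
`a(t) = α(t)(e_1..e_{n+1})` and `w = ∑_{j>k} w_j e_j`: `β(t)` omitting `e_j` is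
`± w_j c(t)` for `j > k` and `0` for `j ≤ k`, `c(t) = ∫_0^1 l^{n-k} a(H(l,t)) dl`
(`n+1-k-1` of the vectors are scaled by `l`), and
`∑_{j>k} ∂_j (w_j c) = (n+1-k) c + ∑_j w_j ∂_j c`, `w_j ∂_j (a(H(l,t)))` summed
`= l d/dl a(H(l,t))`; integrate by parts: `= a(H(1,t)) = a(t)`. -/
def St_Homo : Prop :=
  ∀ (E : Type) [NormedAddCommGroup E] [NormedSpace ℝ E] [FiniteDimensional ℝ E] (n : ℕ)
    (ν : E →ₗ[ℝ] E) (t₀ : E) (α : E → E [⋀^Fin (n + 1)]→L[ℝ] ℝ),
    ν ∘ₗ ν = ν → ContDiff ℝ (⊤ : ℕ∞) α → HasCompactSupport α →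
    ∃ β : E → E [⋀^Fin n]→L[ℝ] ℝ, ContDiff ℝ (⊤ : ℕ∞) β ∧
      (∀ t, (∀ l ∈ Set.Icc (0 : ℝ) 1,
        t₀ + ν (t - t₀) + l • (t - t₀ - ν (t - t₀)) ∉ tsupport α) → β t = 0) ∧
      ∀ V : Submodule ℝ E, Module.finrank ℝ V = n + 1 → LinearMap.range ν < V →
        ∀ t, t - t₀ ∈ V → ∀ v : Fin (n + 1) → E, (∀ i, v i ∈ V) →
          extDeriv β t v = α t v

/-- **Real** (real lemma). Finitely many affine subspaces `A` of dimension `n+1` in `E`; a smooth
compactly supported `(n+1)`-form `α` with support in the open set `U` is, on all `A`, the sum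
of an exact form `dβ` and of `α'` whose support meets no point lying on two different `A`'s.
Uses `St_Homo`. Proof: strong induction on `N` = maximal number of `A ∈ 𝒜` through a point of
`tsupport α` (`N ≤ 1`: `β = 0`). Let `N ≥ 2` and
`Z = {t ∈ tsupport α : N members of 𝒜 pass through t}`, compact (closed: near `t` only `A ∋ t`
matter, so the number is upper semicontinuous). For `t₀ ∈ Z` let `𝒮` be the set of `A ∋ t₀`,
`Φ = ⋂ 𝒮 = t₀ + V₀`, `dim V₀ < n+1` (two different `A`'s of the same dimension), `ν` a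
projection onto `V₀`, `r > 0` so small that the ball `B(t₀, 2r)` is in `U` and meets only the
members of `𝒮`. Let `r' = r / (4 + 4‖ν‖)`. `ρ₀` smooth bump: `1` on `B(0, r)`, support in
`B(0, 3r/2)`. For `ψ` smooth with support in `B(t₀, r')` let `β₁` be `Homo` of `ψ α` and
`β = ρ₀(t - t₀ - ν(t-t₀)) β₁(t)`. Support of `β` in `B(t₀, 2r)` (if
`|w| ≤ 3r/2` and `H(l,t) ∈ B(t₀,r')` then `|t - t₀| ≤ (1-l)|w| + r' < 2r`), and for `A ∈ 𝒮`,
`t ∈ A`: `dβ = ρ ψα + dρ∧β₁ = ψα + dρ∧β₁` on `A` (`ρ = 1` on `supp ψα`). So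
`ψα = dβ + α''` on all `A ∈ 𝒜` with `α'' = - dρ∧β₁` supported in
`B(t₀,2r) ∩ {|t - t₀ - ν(t - t₀)| ≥ r}`, off `Φ`: at most `N - 1` members of `𝒜` pass through its
points. Cover `Z` by finitely many balls `B(t₀, r'/2)`, take a smooth partition `ψ_j` with
`∑ψ_j = 1` near `Z`, `supp ψ_j` in the ball `B(t_j, r'_j)`: `α = (1 - ∑ψ_j) α + ∑ ψ_j α`, the first
term has fewer `A` through its support. Induction applied to `(1-∑ψ_j)α + ∑ α''_j`.
(`dρ∧β₁` := `extDeriv (ρ • β₁) - ρ • extDeriv β₁`.) -/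
def St_Real : Prop :=
  ∀ (E : Type) [NormedAddCommGroup E] [NormedSpace ℝ E] [FiniteDimensional ℝ E] (n : ℕ)
    (𝒜 : Finset (AffineSubspace ℝ E)) (α : E → E [⋀^Fin (n + 1)]→L[ℝ] ℝ) (U : Set E),
    (∀ A ∈ 𝒜, (A : Set E).Nonempty ∧ Module.finrank ℝ A.direction = n + 1) →
    ContDiff ℝ (⊤ : ℕ∞) α → HasCompactSupport α → IsOpen U → tsupport α ⊆ U →
    ∃ (β : E → E [⋀^Fin n]→L[ℝ] ℝ) (α' : E → E [⋀^Fin (n + 1)]→L[ℝ] ℝ),
      ContDiff ℝ (⊤ : ℕ∞) β ∧ HasCompactSupport β ∧ tsupport β ⊆ U ∧
      ContDiff ℝ (⊤ : ℕ∞) α' ∧ HasCompactSupport α' ∧ tsupport α' ⊆ U ∧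
      (∀ t ∈ tsupport α', ∀ A ∈ 𝒜, ∀ B ∈ 𝒜, t ∈ A → t ∈ B → A = B) ∧
      ∀ A ∈ 𝒜, ∀ t ∈ A, ∀ v : Fin (n + 1) → E, (∀ i, v i ∈ A.direction) →
        α t v = extDeriv β t v + α' t v

/-- **Div**. A smooth function with compact support in an open box and integral `0` is the
divergence of a smooth vector field with compact support in the box.
Proof: induction on `n`. (`n = 0`: `∫ b = b(0) = 0`.) Let `θ` be a smooth bump on the last interval
`(lo, hi)` with `∫θ = 1` and `m(u') = ∫ b(u', τ) dτ` (smooth, compact support in the smaller box,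
`∫ m = 0`). `b - m(u') θ(τ)` has zero integral in `τ` for all `u'`, so it is
`∂/∂τ c_n`, `c_n(u',τ) = ∫_{-∞}^τ (…)`, compactly supported in the box; and
`m = ∑ ∂_j c'_j` by induction, `c_j = c'_j(u') θ(τ)`. -/
def St_Div : Prop :=
  ∀ (n : ℕ) (lo hi : Fin n → ℝ) (b : (Fin n → ℝ) → ℝ), SC b (box lo hi) →
    ∫ u, b u = 0 →
    ∃ c : Fin n → (Fin n → ℝ) → ℝ, (∀ j, SC (c j) (box lo hi)) ∧
      ∀ u, b u = ∑ j, fderiv ℝ (c j) u (Pi.single j 1)

/-- **EM**. The moves `W0` are exact: `W0 φ (m+1) O ≤ Wx φ (m+1) m O`.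
Proof: for a generator take `F̂ = Fin.append F g : Fin (R + (m+1)) → Mˣ` and the superform `γ`
with only one non-zero component `I₀ = Fin.natAdd R`:
`γ_{I₀}(t) = (-1)^j χ(t ∘ castAdd) c(t ∘ natAdd) • dx (natAdd R ∘ succAbove j)`. At a point `x` where
`g` is not independent both sides vanish (DetZ); otherwise `x` is a Gauss point of `g` (IndG); if
`log|g(x)| ∉ tsupport c` both sides vanish near; else `χ` is locally constant near `log|F(x)|`, so
the derivative of `χ c` only has the part `χ ∑_i ∂_i c dx_i`, and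
`∑_i ∂_i c dx_i ∧ dx_{succAbove j} = (-1)^j ∂_j c dx_{all}` (a determinant with two
equal columns for `i ≠ j`). `γ` is properly supported since `c` has compact support. -/
def St_EM : Prop :=
  ∀ (K M : Type) [NormedField K] [Field M] (φ : K →+* M) (m : ℕ) (O : Set (Pt φ)),
    W0 φ (m + 1) O ≤ Wx φ (m + 1) m O

/-- **Mov**. Moving bumps inside a box: by `Div`, `b₁ - b₂ = ∑ ∂_j c_j`, and `tf` is linear
in `b`. -/
def St_Mov : Prop :=
  ∀ (K M : Type) [NormedField K] [Field M] (φ : K →+* M) (n R : ℕ) (F : Fin R → Mˣ)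
    (g : Fin n → Mˣ) (χ : (Fin R → ℝ) → ℝ) (lo hi : Fin n → ℝ) (b₁ b₂ : (Fin n → ℝ) → ℝ)
    (O : Set (Pt φ)), Clean φ F g χ (box lo hi) → SC b₁ (box lo hi) → SC b₂ (box lo hi) →
    ∫ u, b₁ u = ∫ u, b₂ u →
    (∀ x : Pt φ, x ∉ O → Indep x g → logv x g ∈ box lo hi → χ (logv x F) = 0) →
    tf F g χ b₁ - tf F g χ b₂ ∈ W0 φ n O

/-- **FinF**. Finite fibres: `L` finitely generated over `K`, transcendence degree `≤ n`: for every
`g` and `s` there are only finitely many Gauss points `x` of `g` with `log|g(x)| = s`.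
Proof. If there is one, `g` is algebraically independent, `E = K(g) ⊂ L` and `L/E` is algebraic
(`TrLe`) and finitely generated, hence finite. All these `x` have the same restriction `v₀` to
`E`: `|P(g)/Q(g)|` is determined by the Gauss property (`|P(g)| = max` of the monomials). The
extensions of `v₀` to `L` are at most `[L:E]` many: if `x_1..x_k` are different extensions
(pairwise not equivalent: equivalent absolute values which agree on `K`, which is non-trivially
valued, are equal), by weak approximation there are `f_i ∈ L` with `|f_i - 1|_{x_i} < 1`,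
`|f_i|_{x_j} < 1` for `j ≠ i`; they are linearly independent over `E`: in a relation
`∑ a_i f_i = 0`, `a_i ∈ E`, with `|a_1|` maximal, the value at `x_1` of `a_1 f_1` is
`|a_1|` and all the others are `< |a_1|`. -/
def St_FinF : Prop :=
  ∀ (K L : Type) [NontriviallyNormedField K] [Field L] [Algebra K L] (n : ℕ), TrLe K L n →
    (⊤ : IntermediateField K L).FG → ∀ (g : Fin n → Lˣ) (s : Fin n → ℝ),
      {x : Pt (algebraMap K L) | Gauss x g ∧ logv x g = s}.Finite

/-- **Sepa**. Separation of finitely many points by a smooth cut-off: `x ∉ Y`, `Y` finite: there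
are `F` and a smooth `χ` with `χ = 1` near `log|F(x)|` and `χ = 0` near `log|F(y)|` for all
`y ∈ Y`. Proof: for `y ∈ Y` there is `f ∈ Mˣ` with `|f(x)| ≠ |f(y)|`; product of bump functions
of one variable. -/
def St_Sepa : Prop :=
  ∀ (K M : Type) [NormedField K] [Field M] (φ : K →+* M) (x : Pt φ) (Y : Set (Pt φ)),
    Y.Finite → x ∉ Y → ∃ (R : ℕ) (F : Fin R → Mˣ) (χ : (Fin R → ℝ) → ℝ),
      ContDiff ℝ (⊤ : ℕ∞) χ ∧ (χ =ᶠ[𝓝 (logv x F)] fun _ => 1) ∧
        ∀ y ∈ Y, χ =ᶠ[𝓝 (logv y F)] fun _ => 0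

/-- **Shri**. Shrinking: if `N` is an open set containing all Gauss points `y` of `g` with
`log|g(y)| = s`, then for some `δ > 0` all Gauss points `y` of `g` with
`log|g(y)|` in the ball `B(s, δ)` lie in `N`. Proof: compactness (`GCpt`) of
`{y Gauss, log|g(y)| ∈ closedBall s 1} \ N`, on which the continuous function
`dist (log|g(y)|) s` is positive. -/
def St_Shri : Prop :=
  ∀ (K L : Type) [NormedField K] [Field L] [Algebra K L] (n : ℕ), TrLe K L n →
    ∀ (g : Fin n → Lˣ) (s : Fin n → ℝ) (N : Set (Pt (algebraMap K L))), IsOpen N →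
      (∀ y, Gauss y g → logv y g = s → y ∈ N) →
      ∃ δ > 0, ∀ y, Gauss y g → logv y g ∈ Metric.ball s δ → y ∈ N

/-- **SelE**. Selecting cut-offs exist: from `FinF`, `Sepa`, `Shri` (near each of the finitely
many points of the fibre `χ` is locally constant `0` or `1`; the union of these neighbourhoods
contains all Gauss points with `log|g|` near `log|g(x)|`). -/
def St_SelE : Prop :=
  ∀ (K L : Type) [NontriviallyNormedField K] [Field L] [Algebra K L] (n : ℕ), TrLe K L n →
    (⊤ : IntermediateField K L).FG → ∀ (x : Pt (algebraMap K L)) (g : Fin n → Lˣ), Gauss x g →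
      ∃ (R : ℕ) (F : Fin R → Lˣ) (χ : (Fin R → ℝ) → ℝ), Sel x F g χ

/-- **Spli**. Splitting a small bump into the points of the fibre.
Proof. `X` finite by `FinF`. Choose disjoint open neighbourhoods `N_y` of the finitely many Gauss
points `y` with `log|g(y)| = s` such that on `N_y` all cut-offs involved (`χ` and
`χ_x`, `x ∈ X`) are constant: `χ = 1` on `N_x` for `x ∈ X`, `χ = 0` on `N_y` for the others;
`χ_x = 1` on `N_x`, `χ_x = 0` on `N_y` for `y ≠ x` (cleanness and the selecting property). `Shri`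
gives `δ`. For a point `y` where `g` is independent (else all terms vanish by
`DetZ`; Gauss by `IndG`) and `log|g(y)| ∈ B(s,δ)` both sides agree on each `N`; if
`log|g(y)| ∉ B(s,δ)` both sides vanish. -/
def St_Spli : Prop :=
  ∀ (K L : Type) [NontriviallyNormedField K] [Field L] [Algebra K L] (n : ℕ), TrLe K L n →
    (⊤ : IntermediateField K L).FG → ∀ (R : ℕ) (F : Fin R → Lˣ) (g : Fin n → Lˣ)
      (χ : (Fin R → ℝ) → ℝ) (s : Fin n → ℝ) (S : Set (Fin n → ℝ)), S ∈ 𝓝 s →
      Clean (algebraMap K L) F g χ S →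
      ∀ (X : Finset (Pt (algebraMap K L))),
        (∀ x, x ∈ X ↔ Gauss x g ∧ logv x g = s ∧ χ (logv x F) ≠ 0) →
      ∀ (R' : Pt (algebraMap K L) → ℕ) (F' : ∀ x, Fin (R' x) → Lˣ)
        (χ' : ∀ x, (Fin (R' x) → ℝ) → ℝ), (∀ x ∈ X, Sel x (F' x) g (χ' x)) →
      ∃ δ > 0, ∀ b : (Fin n → ℝ) → ℝ, tsupport b ⊆ Metric.ball s δ →
        (tf F g χ b : Fam (algebraMap K L) n n) = ∑ x ∈ X, tf (F' x) g (χ' x) b

/-- **Chan**. Changing the coordinates at a point `x` where both `g` and `h` are independent.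
Proof. By `MLoc`, near `x` (on an open set `N`) `|g_i|^{N_i} = ‖a_i‖ ∏ |h_l|^{k_il}`; let
`M_il = k_il / N_i`. So on `N`: `log|g(y)| = log|g(x)| + M (log|h(y)| - log|h(x)|)` and
`ev g δ = M ev h δ` for tangent vectors at `y ∈ N` (tangent vectors kill elements with
value in `|K|`). `M` is invertible: exchanging the roles of `g` and `h` one gets `M'` with
`ev h δ = M' ev g δ`, and the vectors `ev h δ`, `δ ∈ Tan x`, span `ℝ^n` by independence (or: if
`k M = 0` with `k ∈ ℚ^n` then `∏ g^k` has value in `|K|`, up to a power). Shrink `N` so that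
`χ(log|F|) = 1 = χ'(log|F'|)` on `N` (both are selecting at `x`, hence equal to `1` near
`x`). By `Shri` and the selecting properties there is `δ` such that Gauss points `y` of `g` with
`log|g(y)| ∈ B(·,δ)` and `χ(log|F(y)|) ≠ 0` lie in `N` (near the other points of the fibre
`χ = 0`), and the same for `h` with the ball of radius `δ'`, `δ' ≥ δ‖M⁻¹‖`. Where `g`
(resp. `h`) is dependent both sides vanish; points of `N` are independent for `g` iff for `h`. -/
def St_Chan : Prop :=
  ∀ (K L : Type) [NontriviallyNormedField K] [Field L] [Algebra K L] (n : ℕ), TrLe K L n →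
    ∀ (x : Pt (algebraMap K L)) (g h : Fin n → Lˣ), Indep x g → Indep x h →
    ∀ (R R' : ℕ) (F : Fin R → Lˣ) (F' : Fin R' → Lˣ) (χ : (Fin R → ℝ) → ℝ)
      (χ' : (Fin R' → ℝ) → ℝ), Sel x F g χ → Sel x F' h χ' →
    ∃ (M : Matrix (Fin n) (Fin n) ℝ) (δ : ℝ), M.det ≠ 0 ∧ 0 < δ ∧
      ∀ b : (Fin n → ℝ) → ℝ, tsupport b ⊆ Metric.ball (logv x g) δ →
        (tf F g χ b : Fam (algebraMap K L) n n) =
          tf F' h χ' (fun u => M.det ^ 2 * b (logv x g + M.mulVec (u - logv x h)))

end TDC
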