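import Pool.Agent.TDC.StF
import Pool.Agent.TDC.St

/-!
# TDC.FTop (helper9): the cohomology of `N_ℝ(Σ)` in the top bidegree
-/

namespace TDC

open scoped Topology
open MeasureTheory

private theorem FTop_mono {n : ℕ} {Δ : Fan n} {S S' : Set (Fin n → ℝ)} (h : Fine Δ S)
    (hc : IsClosed S') (hs : S' ⊆ S) : Fine Δ S' :=
  ⟨hc, fun i c => (h.2 i c).subset (Set.inter_subset_inter_left _ hs)⟩

private theorem FTop_cpt {n : ℕ} {Δ : Fan n} {S : Set (Fin n → ℝ)} (h : IsCompact S) : Fine Δ S :=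
  ⟨h.isClosed, fun _ _ => h.isBounded.subset Set.inter_subset_left⟩

private theorem FTop_union {n k : ℕ} {Δ : Fan n} {S : Fin k → Set (Fin n → ℝ)}
    (h : ∀ j, Fine Δ (S j)) : Fine Δ (⋃ j, S j) := by
  refine ⟨isClosed_iUnion_of_finite fun j => (h j).1, fun i c => ?_⟩
  rw [Set.iUnion_inter]
  exact Bornology.isBounded_iUnion.2 fun j => (h j).2 i c

private theorem FTop_basis {n : ℕ} : (dx (id : Fin n → Fin n)) (fun k => Pi.single k (1 : ℝ)) = 1 := by
  rw [dx_apply]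
  have : (Matrix.of fun i j : Fin n => (Pi.single i (1 : ℝ) : Fin n → ℝ) (id j)) = 1 := by
    ext i j
    rw [Matrix.of_apply, Matrix.one_apply, id, Pi.single_apply]
    exact if_congr eq_comm rfl rfl
  rw [this, Matrix.det_one]

private theorem FTop_val (hJ : St_FJ) {n : ℕ} (Δ : Fan n) (i₀ : Δ.ι) (h0 : Δ.cone i₀ = {0}) {q : ℕ}
    (γ : (Fin n → ℝ) → (Fin n → ℝ) [⋀^Fin q]→L[ℝ] ℝ) (u : Fin n → ℝ) (v : Fin q → Fin n → ℝ) :
    extT Δ γ (jT Δ i₀ u) (fun k => (jT Δ i₀ (Pi.single k 1)).φ) (fun k => (jT Δ i₀ (v k)).φ) =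
      γ u v := by
  obtain ⟨-, h2, -⟩ := hJ n Δ i₀ h0
  have h3 : Δ.cone (jT Δ i₀ u).i = {0} := h0
  unfold extT
  rw [if_pos h3, h2 u]
  have e1 : (fun k => crd (jT Δ i₀ (v k)).φ) = v := funext fun k => h2 _
  have e2 : (Matrix.of fun k l : Fin n => crd (jT Δ i₀ (Pi.single k 1)).φ l) = 1 := by
    ext k l
    rw [Matrix.of_apply, h2, Matrix.one_apply, Pi.single_apply]
    exact if_congr eq_comm rfl rfl
  have e3 : (Matrix.of fun k l : Fin n => crd ((fun k => (jT Δ i₀ (Pi.single k 1)).φ) k) l).det = 1 := by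
    have := congrArg Matrix.det e2
    rw [Matrix.det_one] at this
    exact this
  exact (congrArg₂ (· * ·) e3 (congrArg (γ u) e1)).trans (one_mul _)

private theorem FTop_inj (hJ : St_FJ) (hZ : St_FZero) {n : ℕ} (Δ : Fan n) {q : ℕ}
    (γ γ' : (Fin n → ℝ) → (Fin n → ℝ) [⋀^Fin q]→L[ℝ] ℝ) (h : extT Δ γ = extT Δ γ') (u : Fin n → ℝ)
    (v : Fin q → Fin n → ℝ) : γ u v = γ' u v := by
  obtain ⟨⟨i₀, h0⟩, -⟩ := hZ n Δ
  rw [← FTop_val hJ Δ i₀ h0 γ, ← FTop_val hJ Δ i₀ h0 γ', h]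

private theorem FTop_zero {m : ℕ} (γ : (Fin (m + 1) → ℝ) [⋀^Fin (m + 2)]→L[ℝ] ℝ) : γ = 0 := by
  ext v
  have hv : ¬ LinearIndependent ℝ v := by
    intro h
    have := h.fintype_card_le_finrank
    simp at this
  exact γ.toAlternatingMap.map_linearDependent v hv

theorem thm_FTop (hRep : St_FRep) (hReD : St_FReD) (hCS : St_FCS) (hDiv : St_FDiv)
    (hNon : St_FNon) (hLev : St_FLev) (hD : St_Div) (hSto : St_FSto) (hZ : St_FZero)
    (hJ : St_FJ) : St_FTop := by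
  intro m Δ
  have hsm : ∀ b : (Fin (m + 1) → ℝ) → ℝ, ContDiff ℝ (⊤ : ℕ∞) b →
      ContDiff ℝ (⊤ : ℕ∞) (fun u => b u • dx (id : Fin (m + 1) → Fin (m + 1))) :=
    fun b hb => hb.smul contDiff_const
  have hts : ∀ b : (Fin (m + 1) → ℝ) → ℝ,
      tsupport (fun u => b u • dx (id : Fin (m + 1) → Fin (m + 1))) ⊆ tsupport b := by
    intro b
    refine closure_mono fun u hu => ?_
    rw [Function.mem_support] at hu ⊢
    intro h
    exact hu (by simp only [h, zero_smul])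
  have p2 : ∀ ω : FamT Δ (m + 1) (m + 1), IsFormT ω ↔ ∃ b : (Fin (m + 1) → ℝ) → ℝ,
      ContDiff ℝ (⊤ : ℕ∞) b ∧ Fine Δ (tsupport b) ∧ ω = extT Δ (fun u => b u • dx id) := by
    intro ω
    rw [hRep (m + 1) Δ (m + 1) ω]
    constructor
    · rintro ⟨γ, h1, h2, h3⟩
      refine ⟨fun u => γ u fun k => Pi.single k 1, ?_, ?_, ?_⟩
      · have hl : ContDiff ℝ (⊤ : ℕ∞) (fun a : (Fin (m + 1) → ℝ) [⋀^Fin (m + 1)]→L[ℝ] ℝ =>
            a fun k => Pi.single k 1) :=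
          (ContinuousAlternatingMap.apply ℝ (Fin (m + 1) → ℝ) ℝ (fun k : Fin (m + 1) =>
            (Pi.single k (1 : ℝ) : Fin (m + 1) → ℝ))).contDiff
        exact hl.comp h1
      · refine FTop_mono h2 (isClosed_tsupport _) (closure_mono fun u hu => ?_)
        rw [Function.mem_support] at hu ⊢
        intro h
        exact hu (by rw [h]; rfl)
      · rw [h3]
        exact congrArg (extT Δ) ((hDiv m).1 γ)
    · rintro ⟨b, h1, h2, h3⟩
      exact ⟨_, hsm b h1, FTop_mono h2 (isClosed_tsupport _) (hts b), h3⟩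
  refine ⟨?_, p2, ?_, ?_, ?_⟩
  · intro ω hω
    obtain ⟨γ, h1, h2, h3⟩ := (hRep (m + 1) Δ (m + 1) ω).1 hω
    refine (hReD (m + 1) Δ (m + 1) ω 0).2 ⟨γ, h1, h2, h3, ?_⟩
    have h4 : extDeriv γ = fun _ => 0 := funext fun u => FTop_zero _
    rw [h4]
    funext y δ ε
    unfold extT
    split_ifs
    · exact (mul_zero _).symm
    · rfl
  · intro hC q ω hω
    obtain ⟨γ, h1, h2, h3⟩ := (hRep (m + 1) Δ q ω).1 hω
    obtain ⟨h, Λ, -, -, -, -, h4, -, h5⟩ := hLev (m + 1) Δ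
    have h6 := h4 (tsupport γ) 0 h2.2
    have h7 : {u | h u ≤ 0} = Set.univ := Set.eq_univ_of_forall (h5 hC)
    rw [h7, Set.inter_univ] at h6
    rw [h3]
    exact (hCS (m + 1) Δ q γ h2).2 (Metric.isCompact_of_isClosed_isBounded (isClosed_tsupport γ) h6)
  · intro hC ω hω
    obtain ⟨b, h1, h2, h3⟩ := (p2 ω).1 hω
    obtain ⟨c, h4, h5⟩ := hNon (m + 1) Δ hC b h1 h2
    obtain ⟨β, h6, h7, h8⟩ := (hDiv m).2.1 c fun j => (h4 j).1
    refine ⟨extT Δ β, (hReD (m + 1) Δ m _ _).2 ⟨β, h6,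
      FTop_mono (FTop_union fun j => (h4 j).2) (isClosed_tsupport _) h7, rfl, ?_⟩⟩
    rw [h3]
    exact congrArg (extT Δ) (funext fun u => by rw [h8, h5 u])
  · intro b hb hbc
    have hc : HasCompactSupport (fun u => b u • dx (id : Fin (m + 1) → Fin (m + 1))) :=
      IsCompact.of_isClosed_subset hbc (isClosed_tsupport _) (hts b)
    refine ⟨(p2 _).2 ⟨b, hb, FTop_cpt hbc, rfl⟩, (hCS _ Δ _ _ (FTop_cpt hc)).2 hc, ?_, ?_⟩
    · intro h0
      obtain ⟨C, hC⟩ : ∃ C : ℝ, ∀ u ∈ tsupport b, ‖u‖ ≤ C := hbc.isBounded.exists_norm_le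
      have hbox : SC b (box (fun _ => -(C + 1)) (fun _ => C + 1)) := by
        refine ⟨hb, hbc, fun u hu => ?_⟩
        rw [box, Set.mem_pi]
        intro i _
        have h1 := (norm_le_pi_norm u i).trans (hC u hu)
        rw [Real.norm_eq_abs, abs_le] at h1
        exact ⟨by linarith [h1.1], by linarith [h1.2]⟩
      obtain ⟨c, h1, h2⟩ := hD (m + 1) _ _ b hbox h0
      obtain ⟨β, h6, h7, h8⟩ := (hDiv m).2.1 c fun j => (h1 j).1
      have hβ : IsCompact (tsupport β) := IsCompact.of_isClosed_subset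
        (isCompact_iUnion fun j => (h1 j).2.1) (isClosed_tsupport _) h7
      refine ⟨extT Δ β, (hCS _ Δ _ _ (FTop_cpt hβ)).2 hβ, (hReD (m + 1) Δ m _ _).2 ⟨β, h6,
        FTop_cpt hβ, rfl, ?_⟩⟩
      exact congrArg (extT Δ) (funext fun u => by rw [h8, h2 u])
    · rintro ⟨η, h1, h2⟩
      obtain ⟨γ, h3, h4, h5, h6⟩ := (hReD (m + 1) Δ m _ _).1 h2
      rw [h5] at h1
      have h7 := (hCS _ Δ _ _ h4).1 h1
      obtain ⟨c, h8, h9⟩ := (hDiv m).2.2 γ h3
      have h10 : ∀ u, b u = ∑ j, fderiv ℝ (c j) u (Pi.single j 1) := by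
        intro u
        have e := FTop_inj hJ hZ Δ _ _ h6 u (fun k => Pi.single k 1)
        rw [h9 u] at e
        have e' : b u * (dx (id : Fin (m + 1) → Fin (m + 1))) (fun k => Pi.single k (1 : ℝ)) =
            (∑ j, fderiv ℝ (c j) u (Pi.single j 1)) *
              (dx (id : Fin (m + 1) → Fin (m + 1))) (fun k => Pi.single k (1 : ℝ)) := e
        rw [FTop_basis, mul_one, mul_one] at e'
        exact e'
      have h11 := hSto (m + 1) c fun j => ⟨(h8 j).1,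
        IsCompact.of_isClosed_subset h7 (isClosed_tsupport _) (h8 j).2⟩
      rw [← h11]
      exact integral_congr_ae (Filter.Eventually.of_forall h10)

end TDC
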