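import Mathlib

/-!
# TDC, real lemma, part 1: integrals depending on a parameter are smooth
-/

namespace TDC

open Set MeasureTheory intervalIntegral
open scoped ContDiff Topology

/-- derivative of a parametric integral over `[0,1]` -/
theorem hasFDerivAt_param {E F : Type} [NormedAddCommGroup E] [NormedSpace ℝ E]
    [ProperSpace E] [NormedAddCommGroup F] [NormedSpace ℝ F] [CompleteSpace F]
    {f : E × ℝ → F} (hf : ContDiff ℝ 1 f) (x₀ : E) :
    HasFDerivAt (fun x => ∫ t in (0 : ℝ)..1, f (x, t))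
      (∫ t in (0 : ℝ)..1, (fderiv ℝ f (x₀, t)).comp (ContinuousLinearMap.inl ℝ E ℝ)) x₀ := by
  have hdf : Continuous fun z : E × ℝ => (fderiv ℝ f z).comp (ContinuousLinearMap.inl ℝ E ℝ) := by
    have h1 : Continuous (fderiv ℝ f) := hf.continuous_fderiv (by norm_num)
    exact h1.clm_comp continuous_const
  -- bound on a compact set
  obtain ⟨C, hC⟩ : ∃ C : ℝ, ∀ z ∈ Metric.closedBall x₀ 1 ×ˢ Icc (0 : ℝ) 1,
      ‖(fderiv ℝ f z).comp (ContinuousLinearMap.inl ℝ E ℝ)‖ ≤ C := by
    have hK : IsCompact (Metric.closedBall x₀ 1 ×ˢ Icc (0 : ℝ) 1) :=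
      (isCompact_closedBall x₀ 1).prod isCompact_Icc
    exact hK.exists_bound_of_continuousOn hdf.continuousOn
  have key := hasFDerivAt_integral_of_dominated_of_fderiv_le (𝕜 := ℝ) (μ := volume)
    (a := (0 : ℝ)) (b := 1)
    (F := fun x t => f (x, t))
    (F' := fun x t => (fderiv ℝ f (x, t)).comp (ContinuousLinearMap.inl ℝ E ℝ))
    (x₀ := x₀) (s := Metric.ball x₀ 1) (bound := fun _ => C) (Metric.ball_mem_nhds x₀ one_pos)
    ?_ ?_ ?_ ?_ ?_ ?_
  · exact key
  · refine Filter.Eventually.of_forall fun x => ?_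
    exact (hf.continuous.comp (by fun_prop)).aestronglyMeasurable
  · exact (hf.continuous.comp (by fun_prop)).intervalIntegrable _ _
  · exact (hdf.comp (by fun_prop : Continuous fun t : ℝ => (x₀, t))).aestronglyMeasurable
  · refine Filter.Eventually.of_forall fun t ht x hx => ?_
    refine hC (x, t) ⟨Metric.ball_subset_closedBall hx, ?_⟩
    rw [uIoc_of_le zero_le_one] at ht
    exact ⟨ht.1.le, ht.2⟩
  · exact _root_.intervalIntegrable_const
  · refine Filter.Eventually.of_forall fun t _ x _ => ?_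
    have h1 : HasFDerivAt f (fderiv ℝ f (x, t)) (x, t) :=
      (hf.differentiable (by norm_num)).differentiableAt.hasFDerivAt
    have h2 : HasFDerivAt (fun x : E => (x, t)) (ContinuousLinearMap.inl ℝ E ℝ) x := by
      exact hasFDerivAt_prodMk_left x t
    exact h1.comp x h2

/-- a parametric integral over `[0,1]` of a smooth function is smooth -/
theorem contDiff_param_nat {E : Type} [NormedAddCommGroup E] [NormedSpace ℝ E]
    [ProperSpace E] (n : ℕ) : ∀ {F : Type} [NormedAddCommGroup F] [NormedSpace ℝ F]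
    [CompleteSpace F] {f : E × ℝ → F}, ContDiff ℝ n f →
    ContDiff ℝ n (fun x => ∫ t in (0 : ℝ)..1, f (x, t)) := by
  induction n with
  | zero =>
    intro F _ _ _ f hf
    have hf' : Continuous f := hf.continuous
    have : Continuous (fun x => ∫ t in (0 : ℝ)..1, f (x, t)) :=
      continuous_parametric_intervalIntegral_of_continuous' (by exact hf') 0 1
    exact contDiff_zero.2 this
  | succ n ih =>
    intro F _ _ _ f hf
    have h1 : ContDiff ℝ 1 f := hf.of_le (by
      have : (1 : ℕ) ≤ n + 1 := by omega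
      exact_mod_cast this)
    have hd := fun x₀ => hasFDerivAt_param h1 x₀
    have hfd : fderiv ℝ (fun x => ∫ t in (0 : ℝ)..1, f (x, t)) =
        fun x₀ => ∫ t in (0 : ℝ)..1,
          (fderiv ℝ f (x₀, t)).comp (ContinuousLinearMap.inl ℝ E ℝ) :=
      funext fun x₀ => (hd x₀).fderiv
    have hc : ContDiff ℝ ((n : WithTop ℕ∞) + 1) f := by exact_mod_cast hf
    have h2 : ContDiff ℝ n (fderiv ℝ f) := (contDiff_succ_iff_fderiv.1 hc).2.2
    have h3 : ContDiff ℝ n fun z : E × ℝ =>
        (fderiv ℝ f z).comp (ContinuousLinearMap.inl ℝ E ℝ) := h2.clm_comp contDiff_const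
    have h4 := ih h3
    have : ContDiff ℝ ((n : WithTop ℕ∞) + 1) (fun x => ∫ t in (0 : ℝ)..1, f (x, t)) := by
      refine contDiff_succ_iff_fderiv.2 ⟨fun x => (hd x).differentiableAt, ?_, ?_⟩
      · intro h
        exact absurd h (by simp)
      · rw [hfd]; exact h4
    exact_mod_cast this

theorem contDiff_param {E F : Type} [NormedAddCommGroup E] [NormedSpace ℝ E]
    [ProperSpace E] [NormedAddCommGroup F] [NormedSpace ℝ F]
    [CompleteSpace F] {f : E × ℝ → F} (hf : ContDiff ℝ ∞ f) :
    ContDiff ℝ ∞ (fun x => ∫ t in (0 : ℝ)..1, f (x, t)) := by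
  rw [contDiff_infty]
  intro n
  exact contDiff_param_nat n (contDiff_infty.1 hf n)

end TDC
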