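import Pool.Agent.TDC.StF
import Pool.Agent.TDC.RA1

/-!
# TDC, FTub: moving a bump to infinity along a direction
-/

namespace TDC

open scoped Topology Pointwise
open MeasureTheory

private noncomputable def FTub_c {n : ℕ} (f : (Fin n → ℝ) → ℝ) (v u : Fin n → ℝ) : ℝ :=
  ∫ τ in Set.Ioi (0 : ℝ), f (u - τ • v)

private theorem FTub_bd {n : ℕ} {f : (Fin n → ℝ) → ℝ} {v : Fin n → ℝ} (hf : HasCompactSupport f)
    (hv : v ≠ 0) : ∃ R : ℝ, 0 < R ∧ ∀ (u : Fin n → ℝ) (τ ρ : ℝ), ‖u‖ ≤ ρ → R * (1 + ρ) < |τ| →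
      f (u - τ • v) = 0 := by
  obtain ⟨r, hr0, hr⟩ := hf.isCompact.isBounded.subset_closedBall_lt 0 0
  have hvn : 0 < ‖v‖ := norm_pos_iff.2 hv
  refine ⟨(r + 1) / ‖v‖, by positivity, fun u τ ρ hu hτ => ?_⟩
  by_contra hne
  have h1 := hr (subset_tsupport f (Function.mem_support.2 hne))
  rw [mem_closedBall_zero_iff] at h1
  have h2 : ‖τ • v‖ ≤ ‖u‖ + ‖u - τ • v‖ := by
    have := norm_sub_le u (u - τ • v)
    rwa [sub_sub_cancel] at this
  rw [norm_smul, Real.norm_eq_abs] at h2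
  rw [div_mul_eq_mul_div, div_lt_iff₀ hvn] at hτ
  have h3 : 0 ≤ ρ := (norm_nonneg u).trans hu
  nlinarith

private theorem FTub_int {n : ℕ} {f : (Fin n → ℝ) → ℝ} {v : Fin n → ℝ} (hc : Continuous f)
    (hf : HasCompactSupport f) (hv : v ≠ 0) (u : Fin n → ℝ) :
    Integrable fun τ : ℝ => f (u - τ • v) := by
  obtain ⟨R, hR, h⟩ := FTub_bd hf hv
  refine Continuous.integrable_of_hasCompactSupport (by fun_prop) ?_
  refine HasCompactSupport.intro (isCompact_Icc (a := -(R * (1 + ‖u‖))) (b := R * (1 + ‖u‖))) ?_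
  intro τ hτ
  refine h u τ ‖u‖ le_rfl ?_
  by_contra hc
  exact hτ (abs_le.1 (not_lt.1 hc))

private theorem FTub_loc {n : ℕ} {f : (Fin n → ℝ) → ℝ} {v : Fin n → ℝ} {R : ℝ} (hR : 0 < R)
    (h : ∀ (u : Fin n → ℝ) (τ ρ : ℝ), ‖u‖ ≤ ρ → R * (1 + ρ) < |τ| → f (u - τ • v) = 0)
    (u : Fin n → ℝ) (ρ : ℝ) (hu : ‖u‖ ≤ ρ) :
    FTub_c f v u = (R * (1 + ρ)) * ∫ s in (0 : ℝ)..1, f (u - ((R * (1 + ρ)) * s) • v) := by
  have hρ : 0 ≤ ρ := (norm_nonneg u).trans hu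
  have hT : 0 < R * (1 + ρ) := by positivity
  unfold FTub_c
  rw [← smul_eq_mul (R * (1 + ρ)), intervalIntegral.smul_integral_comp_mul_left
    (fun τ => f (u - τ • v)) (R * (1 + ρ)), mul_zero, mul_one,
    intervalIntegral.integral_of_le hT.le]
  refine setIntegral_eq_of_subset_of_forall_sdiff_eq_zero measurableSet_Ioi
    Set.Ioc_subset_Ioi_self ?_
  intro τ hτ
  refine h u τ ρ hu ?_
  have h1 : (0 : ℝ) < τ := hτ.1
  rw [abs_of_pos h1]
  by_contra hc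
  exact hτ.2 ⟨h1, not_lt.1 hc⟩

private theorem FTub_smooth {n : ℕ} {f : (Fin n → ℝ) → ℝ} {v : Fin n → ℝ}
    (hf : ContDiff ℝ (⊤ : ℕ∞) f) (hc : HasCompactSupport f) (hv : v ≠ 0) :
    ContDiff ℝ (⊤ : ℕ∞) (FTub_c f v) := by
  obtain ⟨R, hR, h⟩ := FTub_bd hc hv
  rw [contDiff_iff_contDiffAt]
  intro u₀
  have h1 : ContDiff ℝ (⊤ : ℕ∞) (fun u : Fin n → ℝ => (R * (1 + (‖u₀‖ + 1))) *
      ∫ s in (0 : ℝ)..1, f (u - ((R * (1 + (‖u₀‖ + 1))) * s) • v)) := by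
    refine contDiff_const.mul ?_
    have := contDiff_param (E := Fin n → ℝ) (F := ℝ)
      (f := fun p : (Fin n → ℝ) × ℝ => f (p.1 - ((R * (1 + (‖u₀‖ + 1))) * p.2) • v)) (by fun_prop)
    exact this
  refine h1.contDiffAt.congr_of_eventuallyEq ?_
  have h2 : ∀ᶠ u in 𝓝 u₀, ‖u‖ < ‖u₀‖ + 1 :=
    (continuous_norm.continuousAt (x := u₀)).eventually (gt_mem_nhds (lt_add_one _))
  filter_upwards [h2] with u hu
  exact FTub_loc hR h u _ hu.le

private theorem FTub_deriv {n : ℕ} {f : (Fin n → ℝ) → ℝ} {v : Fin n → ℝ}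
    (hf : Continuous f) (hc : HasCompactSupport f) (hv : v ≠ 0) (u : Fin n → ℝ) :
    HasDerivAt (fun t : ℝ => FTub_c f v (u + t • v)) (f u) 0 := by
  have hint := FTub_int hf hc hv u
  have key : ∀ t : ℝ, FTub_c f v (u + t • v) =
      FTub_c f v u - ∫ τ in (0 : ℝ)..(-t), f (u - τ • v) := by
    intro t
    unfold FTub_c
    have e1 : ∫ τ in Set.Ioi (0 : ℝ), f (u + t • v - τ • v) =
        ∫ τ in Set.Ioi (-t), f (u - τ • v) := by
      have h0 : ∀ τ : ℝ, (Set.Ioi (0 : ℝ)).indicator (fun τ => f (u + t • v - τ • v)) τ =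
          (Set.Ioi (-t)).indicator (fun τ => f (u - τ • v)) (τ - t) := by
        intro τ
        have hmem : τ ∈ Set.Ioi (0 : ℝ) ↔ τ - t ∈ Set.Ioi (-t) := by
          rw [Set.mem_Ioi, Set.mem_Ioi]
          constructor <;> intro h <;> linarith
        by_cases hτ : τ ∈ Set.Ioi (0 : ℝ)
        · rw [Set.indicator_of_mem hτ, Set.indicator_of_mem (hmem.1 hτ)]
          congr 1
          rw [sub_smul]
          abel
        · rw [Set.indicator_of_notMem hτ, Set.indicator_of_notMem (fun h => hτ (hmem.2 h))]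
      rw [← integral_indicator measurableSet_Ioi, ← integral_indicator measurableSet_Ioi]
      simp_rw [h0]
      exact integral_sub_right_eq_self _ t
    rw [e1]
    have e2 := intervalIntegral.integral_Ioi_sub_Ioi' (a := (0 : ℝ)) (b := -t)
      (f := fun τ => f (u - τ • v)) (μ := volume) hint.integrableOn hint.integrableOn
    linarith
  have hfun : (fun t : ℝ => FTub_c f v (u + t • v)) = fun t : ℝ =>
      FTub_c f v u - ∫ τ in (0 : ℝ)..(-t), f (u - τ • v) := funext key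
  rw [hfun]
  have hcont : Continuous fun τ : ℝ => f (u - τ • v) := by fun_prop
  have h1 : HasDerivAt (fun s : ℝ => ∫ τ in (0 : ℝ)..s, f (u - τ • v)) (f (u - (-(0 : ℝ)) • v))
      (-(0 : ℝ)) :=
    intervalIntegral.integral_hasDerivAt_right (hcont.intervalIntegrable _ _)
      (hcont.stronglyMeasurableAtFilter _ _) hcont.continuousAt
  have h2 := h1.scomp (0 : ℝ) (hasDerivAt_neg (0 : ℝ))
  have h3 := h2.const_sub (FTub_c f v u)
  simpa using h3

private theorem FTub_tube {n : ℕ} {f : (Fin n → ℝ) → ℝ} {v : Fin n → ℝ}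
    (hc : HasCompactSupport f) (hv : v ≠ 0) :
    tsupport (FTub_c f v) ⊆ {u | ∃ w ∈ tsupport f, ∃ τ : ℝ, 0 ≤ τ ∧ u = w + τ • v} := by
  have hset : {u | ∃ w ∈ tsupport f, ∃ τ : ℝ, 0 ≤ τ ∧ u = w + τ • v} =
      tsupport f + (fun τ : ℝ => τ • v) '' Set.Ici (0 : ℝ) := by
    ext u
    constructor
    · rintro ⟨w, hw, τ, hτ, rfl⟩
      exact ⟨w, hw, _, ⟨τ, hτ, rfl⟩, rfl⟩
    · rintro ⟨w, hw, _, ⟨τ, hτ, rfl⟩, rfl⟩
      exact ⟨w, hw, τ, hτ, rfl⟩
  have hcl : IsClosed {u | ∃ w ∈ tsupport f, ∃ τ : ℝ, 0 ≤ τ ∧ u = w + τ • v} := by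
    rw [hset]
    exact (isClosedMap_smul_left (𝕜 := ℝ) v _ isClosed_Ici).add_left_of_isCompact hc.isCompact
  refine closure_minimal ?_ hcl
  intro u hu
  by_contra hn
  refine hu ?_
  unfold FTub_c
  refine setIntegral_eq_zero_of_forall_eq_zero fun τ hτ => ?_
  by_contra hne
  refine hn ⟨u - τ • v, subset_tsupport f hne, τ, (Set.mem_Ioi.1 hτ).le, ?_⟩
  rw [sub_add_cancel]

theorem thm_FTub : St_FTub := by
  intro n f v hf hc hv
  have hs := FTub_smooth hf hc hv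
  refine ⟨FTub_c f v, hs, FTub_tube hc hv, fun u => ?_⟩
  have h1 : HasFDerivAt (FTub_c f v) (fderiv ℝ (FTub_c f v) u) u :=
    (hs.differentiable (by simp) u).hasFDerivAt
  have h2 := h1.hasLineDerivAt v
  have h3 : HasDerivAt (fun t : ℝ => FTub_c f v (u + t • v)) (f u) 0 :=
    FTub_deriv hf.continuous hc hv u
  exact h2.unique h3

end TDC
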