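import Pool.Agent.TDC.StF

set_option autoImplicit false

/-!
# TDC: the zero cone of a fan, and the dual monoids generate the lattice of characters
-/

namespace TDC

private def FZero_ip {n : ℕ} (m v : Fin n → ℤ) : ℤ := ∑ k, m k * v k

private lemma FZero_add {n : ℕ} (a b v : Fin n → ℤ) :
    FZero_ip (a + b) v = FZero_ip a v + FZero_ip b v := by
  unfold FZero_ip
  rw [← Finset.sum_add_distrib]
  exact Finset.sum_congr rfl fun k _ => by rw [Pi.add_apply]; ring

private lemma FZero_zero {n : ℕ} (v : Fin n → ℤ) : FZero_ip 0 v = 0 := by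
  unfold FZero_ip
  simp

private lemma FZero_zero' {n : ℕ} (m : Fin n → ℤ) : FZero_ip m 0 = 0 := by
  unfold FZero_ip
  simp

private lemma FZero_sum {n : ℕ} (s : Finset (Fin n → ℤ)) (m : (Fin n → ℤ) → Fin n → ℤ)
    (v : Fin n → ℤ) : FZero_ip (∑ w ∈ s, m w) v = ∑ w ∈ s, FZero_ip (m w) v := by
  induction s using Finset.induction_on with
  | empty => rw [Finset.sum_empty, Finset.sum_empty, FZero_zero]
  | insert a s ha ih => rw [Finset.sum_insert ha, Finset.sum_insert ha, FZero_add, ih]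

private lemma FZero_nsmul {n : ℕ} (r : ℕ) (m v : Fin n → ℤ) :
    FZero_ip (r • m) v = r * FZero_ip m v := by
  unfold FZero_ip
  rw [Finset.mul_sum]
  refine Finset.sum_congr rfl fun k _ => ?_
  rw [Pi.smul_apply, nsmul_eq_mul]
  ring

private lemma FZero_pr {n : ℕ} (m v : Fin n → ℤ) :
    pr m (fun k => (v k : ℝ)) = (FZero_ip m v : ℝ) := by
  unfold pr FZero_ip
  push_cast
  rfl

private lemma FZero_prsum {n : ℕ} (m : Fin n → ℤ) (V : Finset (Fin n → ℤ))
    (a : (Fin n → ℤ) → ℝ) :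
    pr m (∑ v ∈ V, a v • fun k => (v k : ℝ)) = ∑ v ∈ V, a v * (FZero_ip m v : ℝ) := by
  have e : ∀ v : Fin n → ℤ, a v * (FZero_ip m v : ℝ) = ∑ k, (m k : ℝ) * (a v * (v k : ℝ)) := by
    intro v
    rw [← FZero_pr]
    unfold pr
    rw [Finset.mul_sum]
    refine Finset.sum_congr rfl fun k _ => ?_
    ring
  rw [Finset.sum_congr rfl fun v _ => e v, Finset.sum_comm]
  unfold pr
  refine Finset.sum_congr rfl fun k _ => ?_
  rw [Finset.sum_apply, Finset.mul_sum]
  rfl

private lemma FZero_gen {n : ℕ} (V : Finset (Fin n → ℤ)) (v : Fin n → ℤ) (hv : v ∈ V) :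
    (fun k => (v k : ℝ)) ∈ coneOf V := by
  refine ⟨fun w => if w = v then 1 else 0, fun w => ?_, ?_⟩
  · show (0 : ℝ) ≤ if w = v then 1 else 0
    split_ifs
    · exact zero_le_one
    · exact le_refl _
  · rw [Finset.sum_eq_single v]
    · show _ = (if v = v then (1 : ℝ) else 0) • _
      rw [if_pos rfl, one_smul]
    · intro w _ hw
      show (if w = v then (1 : ℝ) else 0) • _ = _
      rw [if_neg hw, zero_smul]
    · intro h
      exact (h hv).elim

private lemma FZero_mem0 {n : ℕ} (V : Finset (Fin n → ℤ)) : (0 : Fin n → ℝ) ∈ coneOf V := by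
  refine ⟨fun _ => 0, fun _ => le_refl _, ?_⟩
  rw [Finset.sum_eq_zero]
  intro v _
  rw [zero_smul]

private lemma FZero_real {n : ℕ} (v : Fin n → ℤ) (h : (fun k => (v k : ℝ)) = 0) : v = 0 := by
  funext k
  have h1 := congrFun h k
  have h2 : (v k : ℝ) = 0 := h1
  exact_mod_cast h2

private lemma FZero_m0 (hF : St_FFark) {n : ℕ} (Δ : Fan n) (i : Δ.ι) :
    ∃ m₀ ∈ Δ.dual i, ∀ v ∈ Δ.gens i, v ≠ 0 → 1 ≤ FZero_ip m₀ v := by
  have h1 : ∀ v : Fin n → ℤ, ∃ m ∈ Δ.dual i, v ∈ Δ.gens i → v ≠ 0 → 1 ≤ FZero_ip m v := by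
    intro v
    by_cases hv : v ∈ Δ.gens i ∧ v ≠ 0
    · have h2 : ¬ (-(fun k => (v k : ℝ))) ∈ coneOf (Δ.gens i) := by
        intro h
        exact hv.2 (FZero_real v (Δ.pointed i _ (FZero_gen _ v hv.1) h))
      have h3 : ¬ ∀ m ∈ dualOf (Δ.gens i), 0 ≤ pr m (-(fun k => (v k : ℝ))) := fun h =>
        h2 (hF n (Δ.gens i) _ h)
      push Not at h3
      obtain ⟨m, hm, hm2⟩ := h3
      refine ⟨m, hm, fun _ _ => ?_⟩
      have e : pr m (-(fun k => (v k : ℝ))) = -(FZero_ip m v : ℝ) := by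
        rw [← FZero_pr]
        unfold pr
        rw [← Finset.sum_neg_distrib]
        refine Finset.sum_congr rfl fun k _ => ?_
        rw [Pi.neg_apply]
        ring
      rw [e] at hm2
      have h4 : (0 : ℝ) < (FZero_ip m v : ℝ) := by linarith
      have h5 : 0 < FZero_ip m v := by exact_mod_cast h4
      omega
    · exact ⟨0, (Δ.dual i).zero_mem, fun a b => (hv ⟨a, b⟩).elim⟩
  choose m hm1 hm2 using h1
  refine ⟨∑ v ∈ Δ.gens i, m v, sum_mem fun v _ => hm1 v, ?_⟩
  intro v hv hv0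
  rw [FZero_sum]
  have h3 : FZero_ip (m v) v ≤ ∑ w ∈ Δ.gens i, FZero_ip (m w) v :=
    Finset.single_le_sum (f := fun w => FZero_ip (m w) v) (fun w _ => hm1 w v hv) hv
  exact (hm2 v hv hv0).trans h3

private lemma FZero_triv {n : ℕ} (V : Finset (Fin n → ℤ)) (h : ∀ v ∈ V, v = 0) :
    coneOf V = {0} := by
  ext u
  rw [Set.mem_singleton_iff]
  constructor
  · rintro ⟨a, _, rfl⟩
    refine Finset.sum_eq_zero fun v hv => ?_
    rw [h v hv]
    funext k
    simp
  · rintro rfl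
    exact FZero_mem0 V

theorem thm_FZero (hF : St_FFark) : St_FZero := by
  intro n Δ
  have hgen0 : ∀ i₀, Δ.cone i₀ = {0} → ∀ v ∈ Δ.gens i₀, v = 0 := by
    intro i₀ h v hv
    have h1 : (fun k => (v k : ℝ)) ∈ Δ.cone i₀ := FZero_gen _ v hv
    rw [h] at h1
    exact FZero_real v h1
  refine ⟨?_, ?_, ?_, ?_⟩
  · obtain ⟨i⟩ := Δ.ne
    obtain ⟨m₀, hm, hm1⟩ := FZero_m0 hF Δ i
    obtain ⟨j, hj⟩ := Δ.face i m₀ hm
    refine ⟨j, ?_⟩
    show coneOf (Δ.gens j) = {0}
    rw [hj]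
    ext u
    rw [Set.mem_singleton_iff]
    constructor
    · rintro ⟨⟨a, ha, rfl⟩, hu⟩
      have hu' : pr m₀ (∑ v ∈ Δ.gens i, a v • fun k => (v k : ℝ)) = 0 := hu
      rw [FZero_prsum] at hu'
      have hnn : ∀ v ∈ Δ.gens i, 0 ≤ a v * (FZero_ip m₀ v : ℝ) := by
        intro v hv
        have h1 : 0 ≤ FZero_ip m₀ v := hm v hv
        exact mul_nonneg (ha v) (by exact_mod_cast h1)
      have h2 := (Finset.sum_eq_zero_iff_of_nonneg hnn).1 hu'
      refine Finset.sum_eq_zero fun v hv => ?_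
      by_cases hv0 : v = 0
      · rw [hv0]
        funext k
        simp
      · have h3 := hm1 v hv hv0
        have h4 : (FZero_ip m₀ v : ℝ) ≠ 0 := by
          have : FZero_ip m₀ v ≠ 0 := by omega
          exact_mod_cast this
        have h5 := (mul_eq_zero.1 (h2 v hv)).resolve_right h4
        rw [h5, zero_smul]
    · rintro rfl
      refine ⟨FZero_mem0 _, ?_⟩
      show pr m₀ 0 = 0
      unfold pr
      simp
  · intro i₀ h
    have hg := hgen0 i₀ h
    refine ⟨?_, ?_, ?_⟩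
    · rw [eq_top_iff]
      intro m _ v hv
      have e : ∑ k, m k * v k = 0 := by
        rw [hg v hv]
        exact FZero_zero' m
      rw [e]
    · rw [eq_top_iff]
      intro m _ v hv
      rw [hg v hv]
      exact FZero_zero' m
    · intro i
      rw [h]
      rintro u hu
      rw [Set.mem_singleton_iff] at hu
      rw [hu]
      exact FZero_mem0 _
  · intro i m
    obtain ⟨m₀, hm, hm1⟩ := FZero_m0 hF Δ i
    let r : ℕ := ∑ v ∈ Δ.gens i, (FZero_ip m v).natAbs
    refine ⟨m + r • m₀, ?_, r • m₀, (Δ.dual i).nsmul_mem hm r, by rw [add_sub_cancel_right]⟩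
    intro v hv
    show 0 ≤ FZero_ip (m + r • m₀) v
    rw [FZero_add, FZero_nsmul]
    by_cases hv0 : v = 0
    · rw [hv0, FZero_zero', FZero_zero']
      simp
    · have h1 := hm1 v hv hv0
      have h2 : (FZero_ip m v).natAbs ≤ r :=
        Finset.single_le_sum (f := fun w => (FZero_ip m w).natAbs) (fun _ _ => Nat.zero_le _) hv
      have h3 : (r : ℤ) ≤ r * FZero_ip m₀ v := by
        have h4 : (0 : ℤ) ≤ r := Int.natCast_nonneg r
        nlinarith
      omega
  · intro i hi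
    obtain ⟨m₀, hm, hm1⟩ := FZero_m0 hF Δ i
    refine ⟨m₀, hm, fun hp => hi (FZero_triv _ fun v hv => ?_)⟩
    by_contra hv0
    have h1 := hm1 v hv hv0
    have h2 : FZero_ip m₀ v = 0 := hp v hv
    omega

end TDC
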