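import Pool.Agent.TDC.St

namespace TDC

open scoped Topology

/-- Gauss points of `g` with the same values of `g`: comparison of the values of polynomials. -/
private theorem FinF_le {K L : Type} [NontriviallyNormedField K] [Field L] [Algebra K L] {n : ℕ}
    (g : Fin n → Lˣ) (x y : Pt (algebraMap K L)) (hy : Gauss y g)
    (hxy : ∀ i, x.v (g i) = y.v (g i)) (P : MvPolynomial (Fin n) K) :
    x.v (MvPolynomial.aeval (fun i => (g i : L)) P) ≤
      y.v (MvPolynomial.aeval (fun i => (g i : L)) P) := by
  classical
  have key : ∀ T : Finset (Fin n →₀ ℕ),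
      x.v (∑ e ∈ T, algebraMap K L (P.coeff e) * ∏ i, (g i : L) ^ e i) ≤
        y.v (MvPolynomial.aeval (fun i => (g i : L)) P) := by
    intro T
    induction T using Finset.induction_on with
    | empty => simp
    | insert a s ha ih =>
      rw [Finset.sum_insert ha]
      refine (x.na _ _).trans (max_le ?_ ih)
      rw [map_mul, x.ext, map_prod]
      have h := hy P a
      have e1 : (∏ i, x.v ((g i : L) ^ a i)) = ∏ i, y.v (g i) ^ a i := by
        refine Finset.prod_congr rfl fun i _ => ?_
        rw [map_pow, hxy]
      rw [e1]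
      have e2 : P.eval₂ (algebraMap K L) (fun i => (g i : L)) =
          MvPolynomial.aeval (fun i => (g i : L)) P := rfl
      rw [← e2]
      exact h
  have h2 := key P.support
  rwa [← MvPolynomial.eval₂_eq'] at h2

/-- A Gauss point exists only for algebraically independent tuples. -/
private theorem FinF_indep {K L : Type} [NontriviallyNormedField K] [Field L] [Algebra K L]
    {n : ℕ} (g : Fin n → Lˣ) (x : Pt (algebraMap K L)) (hx : Gauss x g) :
    AlgebraicIndependent K (fun i => (g i : L)) := by
  rw [algebraicIndependent_iff]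
  intro P hP
  by_contra hne
  obtain ⟨e, he⟩ := MvPolynomial.ne_zero_iff.1 hne
  have h := hx P e
  have e2 : P.eval₂ (algebraMap K L) (fun i => (g i : L)) =
      MvPolynomial.aeval (fun i => (g i : L)) P := rfl
  rw [e2, hP, map_zero] at h
  have hpos : 0 < ‖P.coeff e‖ * ∏ i, x.v (g i) ^ e i := by
    refine mul_pos (norm_pos_iff.2 he) (Finset.prod_pos fun i _ => pow_pos ?_ _)
    exact x.v.pos (g i).ne_zero
  linarith

/-- `L` is a finite extension of `K(g)`. -/
private theorem FinF_fin {K L : Type} [NontriviallyNormedField K] [Field L] [Algebra K L]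
    {n : ℕ} (htr : TrLe K L n) (hfg : (⊤ : IntermediateField K L).FG) (g : Fin n → Lˣ)
    (hg : AlgebraicIndependent K (fun i => (g i : L))) :
    FiniteDimensional (IntermediateField.adjoin K (Set.range fun i => (g i : L))) L := by
  set E := IntermediateField.adjoin K (Set.range fun i => (g i : L)) with hE
  have halg : ∀ f : L, IsAlgebraic E f := by
    intro f
    have h1 : ¬ Transcendental (Algebra.adjoin K (Set.range fun i => (g i : L))) f := by
      intro htra
      have h2 := (hg.option_iff_transcendental f).2 htra
      have h3 := h2.comp (finSuccEquiv n) (finSuccEquiv n).injective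
      exact htr _ h3
    rw [Transcendental, not_not] at h1
    obtain ⟨p, hp0, hp⟩ := h1
    have hle : Algebra.adjoin K (Set.range fun i => (g i : L)) ≤ E.toSubalgebra :=
      IntermediateField.algebra_adjoin_le_adjoin K _
    refine ⟨p.map (Subalgebra.inclusion hle).toRingHom, ?_, ?_⟩
    · rw [Polynomial.map_ne_zero_iff]
      · exact hp0
      · exact Subalgebra.inclusion_injective hle
    · rw [Polynomial.aeval_def, Polynomial.eval₂_map]
      rw [Polynomial.aeval_def] at hp
      exact hp
  obtain ⟨S, hS⟩ := hfg
  have h5 : IntermediateField.adjoin E (S : Set L) = ⊤ := by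
    rw [eq_top_iff]
    intro f _
    have h6 : f ∈ IntermediateField.adjoin K (S : Set L) := by
      rw [hS]; exact IntermediateField.mem_top
    have h7 : IntermediateField.adjoin K (S : Set L) ≤
        (IntermediateField.adjoin E (S : Set L)).restrictScalars K := by
      rw [IntermediateField.adjoin_le_iff]
      exact IntermediateField.subset_adjoin E _
    exact h7 h6
  have h8 : FiniteDimensional E (IntermediateField.adjoin E (S : Set L)) :=
    IntermediateField.finiteDimensional_adjoin fun f _ => (halg f).isIntegral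
  rw [h5] at h8
  exact Module.Finite.equiv (IntermediateField.topEquiv (F := E) (E := L)).toLinearEquiv

/-- Points with equivalent absolute values are equal. -/
private theorem FinF_ext {K L : Type} [NontriviallyNormedField K] [Field L] [Algebra K L]
    (x y : Pt (algebraMap K L)) (h : x.v.IsEquiv y.v) : x = y := by
  obtain ⟨c, hc, hcy⟩ := AbsoluteValue.isEquiv_iff_exists_rpow_eq.1 h
  obtain ⟨a, ha⟩ := NormedField.exists_one_lt_norm K
  have h1 : x.v (algebraMap K L a) ^ c = y.v (algebraMap K L a) := congrFun hcy _
  rw [x.ext, y.ext] at h1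
  have h2 : c = 1 := by
    have h3 : ‖a‖ ^ c = ‖a‖ ^ (1 : ℝ) := by rw [h1, Real.rpow_one]
    exact (Real.rpow_right_inj (by linarith) (by linarith)).1 h3
  have h4 : x.v = y.v := by
    ext f
    have h5 : x.v f ^ c = y.v f := congrFun hcy f
    rw [h2, Real.rpow_one] at h5
    exact h5
  cases x
  cases y
  simp only at h4
  subst h4
  rfl

private theorem FinF_nontriv {K L : Type} [NontriviallyNormedField K] [Field L] [Algebra K L]
    (x : Pt (algebraMap K L)) : x.v.IsNontrivial := by
  obtain ⟨a, ha⟩ := NormedField.exists_one_lt_norm K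
  refine ⟨algebraMap K L a, ?_, ?_⟩
  · intro h0
    have h1 := x.ext a
    rw [h0, map_zero] at h1
    linarith
  · rw [x.ext]
    exact ne_of_gt ha

/-- in an ultrametric value, `|1 + a| = max(1,|a|)` if `|a| ≠ 1` -/
private theorem FinF_one_add {K L : Type} [NontriviallyNormedField K] [Field L] [Algebra K L]
    (x : Pt (algebraMap K L)) (a : L) :
    (1 < x.v a → x.v (1 + a) = x.v a) ∧ (x.v a < 1 → x.v (1 + a) = 1) := by
  constructor
  · intro h
    refine le_antisymm ?_ ?_
    · refine (x.na 1 a).trans (max_le ?_ le_rfl)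
      rw [map_one]; exact h.le
    · have h1 := x.na (1 + a) (-1)
      have e : (1 + a + -1 : L) = a := by ring
      rw [e, x.v.map_neg, map_one] at h1
      rcases le_max_iff.1 h1 with h2 | h2
      · exact h2
      · linarith
  · intro h
    refine le_antisymm ?_ ?_
    · refine (x.na 1 a).trans (max_le ?_ h.le)
      rw [map_one]
    · have h1 := x.na (1 + a) (-a)
      have e : (1 + a + -a : L) = 1 := by ring
      rw [e, x.v.map_neg, map_one] at h1
      rcases le_max_iff.1 h1 with h2 | h2
      · exact h2
      · linarith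

/-- a finite sum is small if all the terms are -/
private theorem FinF_sum {K L : Type} [NontriviallyNormedField K] [Field L] [Algebra K L]
    {ι : Type} (x : Pt (algebraMap K L)) (T : Finset ι) (f : ι → L) (r : ℝ) (hr : 0 < r)
    (h : ∀ i ∈ T, x.v (f i) < r) : x.v (∑ i ∈ T, f i) < r := by
  classical
  induction T using Finset.induction_on with
  | empty => simpa using hr
  | insert a s ha ih =>
    rw [Finset.sum_insert ha]
    refine (x.na _ _).trans_lt (max_lt (h a (Finset.mem_insert_self _ _)) (ih fun i hi => ?_))
    exact h i (Finset.mem_insert_of_mem hi)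

theorem thm_FinF : St_FinF := by
  intro K L _ _ _ n htr hfg g s
  classical
  by_contra hinf
  have hinf' : {x : Pt (algebraMap K L) | Gauss x g ∧ logv x g = s}.Infinite := hinf
  obtain ⟨x₀, hx₀⟩ := hinf'.nonempty
  have hg := FinF_indep g x₀ hx₀.1
  have hfin := FinF_fin htr hfg g hg
  set E := IntermediateField.adjoin K (Set.range fun i => (g i : L)) with hE
  have hval : ∀ x ∈ {x : Pt (algebraMap K L) | Gauss x g ∧ logv x g = s}, ∀ i,
      x.v (g i) = Real.exp (s i) := by
    intro x hx i
    have h1 : Real.log (x.v (g i)) = s i := congrFun hx.2 i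
    rw [← h1, Real.exp_log (x.v.pos (g i).ne_zero)]
  have hE1 : ∀ x ∈ {x : Pt (algebraMap K L) | Gauss x g ∧ logv x g = s},
      ∀ y ∈ {x : Pt (algebraMap K L) | Gauss x g ∧ logv x g = s}, ∀ a : E,
        x.v (a : L) = y.v (a : L) := by
    intro x hx y hy a
    obtain ⟨P, Q, hPQ⟩ := (IntermediateField.mem_adjoin_range_iff K _ _).1 a.2
    have h1 : ∀ P : MvPolynomial (Fin n) K, x.v (MvPolynomial.aeval (fun i => (g i : L)) P) =
        y.v (MvPolynomial.aeval (fun i => (g i : L)) P) := by
      intro P
      refine le_antisymm (FinF_le g x y hy.1 (fun i => ?_) P) (FinF_le g y x hx.1 (fun i => ?_) P)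
      · rw [hval x hx, hval y hy]
      · rw [hval x hx, hval y hy]
    rw [hPQ, map_div₀, map_div₀, h1, h1]
  obtain ⟨T, hT, hcard⟩ := hinf'.exists_subset_card_eq (Module.finrank E L + 1)
  have hmem : ∀ x : T, (x : Pt (algebraMap K L)) ∈
      {x : Pt (algebraMap K L) | Gauss x g ∧ logv x g = s} := fun x => hT x.2
  have hex := AbsoluteValue.exists_one_lt_lt_one_pi_of_not_isEquiv
    (v := fun x : T => (x : Pt (algebraMap K L)).v) (fun x => FinF_nontriv _) (by
      intro x y hxy h
      exact hxy (Subtype.ext (FinF_ext _ _ h)))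
  choose a ha1 ha2 using hex
  have hlin : LinearIndependent E (fun x : T => a x / (1 + a x)) := by
    have hv1 : ∀ x : T, (x : Pt (algebraMap K L)).v (a x / (1 + a x)) = 1 := by
      intro x
      rw [map_div₀, (FinF_one_add x.1 (a x)).1 (ha1 x)]
      exact div_self (by have := ha1 x; linarith)
    have hv2 : ∀ x y : T, x ≠ y → (x : Pt (algebraMap K L)).v (a y / (1 + a y)) < 1 := by
      intro x y hxy
      rw [map_div₀, (FinF_one_add x.1 (a y)).2 (ha2 y x hxy), div_one]
      exact ha2 y x hxy
    rw [Fintype.linearIndependent_iff]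
    intro c hc
    by_contra hne
    push Not at hne
    obtain ⟨z, hz⟩ := hne
    obtain ⟨m, -, hm⟩ := Finset.exists_max_image (Finset.univ : Finset T)
      (fun x => x₀.v (c x : L)) ⟨z, Finset.mem_univ _⟩
    have hpos : 0 < x₀.v (c m : L) := by
      refine lt_of_lt_of_le ?_ (hm z (Finset.mem_univ _))
      refine x₀.v.pos ?_
      intro h
      exact hz (Subtype.ext h)
    have hsum : ∑ x : T, (c x : L) * (a x / (1 + a x)) = 0 := by
      rw [← hc]
      refine Finset.sum_congr rfl fun x _ => ?_
      rfl
    rw [← Finset.add_sum_erase _ _ (Finset.mem_univ m)] at hsum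
    have hsmall := FinF_sum m.1 (Finset.univ.erase m)
      (fun x => (c x : L) * (a x / (1 + a x))) (x₀.v (c m : L)) hpos (by
        intro x hx
        rw [map_mul, hE1 m.1 (hmem m) x₀ hx₀ (c x)]
        have h1 := hv2 m x (Ne.symm (Finset.ne_of_mem_erase hx))
        have h2 := hm x (Finset.mem_univ _)
        have h3 := x₀.v.nonneg (c x : L)
        have h4 := m.1.v.nonneg (a x / (1 + a x))
        rcases h3.eq_or_lt with h5 | h5
        · rw [← h5, zero_mul]; exact hpos
        · calc x₀.v (c x : L) * m.1.v (a x / (1 + a x)) < x₀.v (c x : L) * 1 :=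
                mul_lt_mul_of_pos_left h1 h5
            _ ≤ x₀.v (c m : L) := by rw [mul_one]; exact h2)
    have heq : m.1.v (∑ x ∈ Finset.univ.erase m, (c x : L) * (a x / (1 + a x))) =
        x₀.v (c m : L) := by
      have h1 : (∑ x ∈ Finset.univ.erase m, (c x : L) * (a x / (1 + a x))) =
          -((c m : L) * (a m / (1 + a m))) := by linear_combination hsum
      rw [h1, m.1.v.map_neg, map_mul, hv1, mul_one, hE1 m.1 (hmem m) x₀ hx₀ (c m)]
    rw [heq] at hsmall
    exact lt_irrefl _ hsmall
  have hle := hlin.fintype_card_le_finrank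
  rw [Fintype.card_coe, hcard] at hle
  omega

end TDC
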