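import Pool.Agent.TDC.St

/-!
# TDC, module Fini: finitely many affine sheets (helper76)
-/

set_option autoImplicit false

namespace TDC

open scoped Topology

private theorem Fini_sum {K M : Type} [NormedField K] [Field M] {φ : K →+* M} (x : Pt φ)
    {ι : Type} (s : Finset ι) (f : ι → M) {C : ℝ} (hC : 0 < C) (h : ∀ i ∈ s, x.v (f i) < C) :
    x.v (∑ i ∈ s, f i) < C := by
  classical
  induction s using Finset.induction_on with
  | empty => simpa using hC
  | insert a s ha ih =>
    rw [Finset.sum_insert ha]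
    exact lt_of_le_of_lt (x.na _ _) (max_lt (h a (Finset.mem_insert_self a s))
      (ih fun i hi => h i (Finset.mem_insert_of_mem hi)))

private theorem Fini_pos {K M : Type} [NormedField K] [Field M] {φ : K →+* M} (x : Pt φ)
    (f : Mˣ) : 0 < x.v (f : M) := x.v.pos f.ne_zero

private theorem Fini_log {K M : Type} [NormedField K] [Field M] {φ : K →+* M} (x : Pt φ)
    {n : ℕ} (G0 : Mˣ) (g : Fin n → Mˣ) (k0 : ℤ) (k : Fin n → ℤ) :
    Real.log (x.v ((G0 ^ k0 * ∏ i, g i ^ k i : Mˣ) : M)) =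
      k0 * Real.log (x.v (G0 : M)) + ∑ i, (k i : ℝ) * Real.log (x.v (g i : M)) := by
  rw [Units.val_mul, Units.coe_prod, map_mul, map_prod, Real.log_mul, Real.log_prod]
  · congr 1
    · rw [Units.val_zpow_eq_zpow_val, map_zpow₀, Real.log_zpow]
    · refine Finset.sum_congr rfl fun i _ => ?_
      rw [Units.val_zpow_eq_zpow_val, map_zpow₀, Real.log_zpow]
  · intro i _
    exact (Fini_pos x _).ne'
  · exact (Fini_pos x _).ne'
  · exact Finset.prod_ne_zero_iff.2 fun i _ => (Fini_pos x _).ne'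

private theorem Fini_key {K L : Type} [NormedField K] [Field L] [Algebra K L] {n : ℕ}
    (x : Pt (algebraMap K L)) (g : Fin n → Lˣ) (G0 : Lˣ) (P : MvPolynomial (Fin (n + 1)) K)
    (hP : P ≠ 0)
    (h0 : MvPolynomial.aeval (Fin.cons (G0 : L) (fun i => (g i : L)) : Fin (n + 1) → L) P = 0)
    (hx : Gauss x g) :
    ∃ e ∈ P.support, ∃ e' ∈ P.support, e 0 ≠ e' 0 ∧
      Real.log (x.v (G0 : L)) * ((e' 0 : ℝ) - (e 0 : ℝ)) =
        Real.log ‖P.coeff e‖ - Real.log ‖P.coeff e'‖ +
          ∑ i : Fin n, ((e i.succ : ℝ) - (e' i.succ : ℝ)) * Real.log (x.v (g i : L)) ∧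
      ∀ ε : Tan x, ε.1 (Additive.ofMul G0) * ((e' 0 : ℝ) - (e 0 : ℝ)) =
        ∑ i : Fin n, ((e i.succ : ℝ) - (e' i.succ : ℝ)) * ε.1 (Additive.ofMul (g i)) := by
  classical
  set G : Fin (n + 1) → L := Fin.cons (G0 : L) (fun i => (g i : L)) with hG
  set tm : (Fin (n + 1) →₀ ℕ) → L := fun e => algebraMap K L (P.coeff e) * ∏ i, G i ^ e i with htm
  have hsum : ∑ e ∈ P.support, tm e = 0 := by
    rw [MvPolynomial.aeval_def, MvPolynomial.eval₂_eq'] at h0
    exact h0
  have hGpos : ∀ i, 0 < x.v (G i) := by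
    intro i
    refine Fin.cases ?_ (fun j => ?_) i
    · exact Fini_pos x G0
    · exact Fini_pos x (g j)
  have hcoef : ∀ e ∈ P.support, 0 < ‖P.coeff e‖ := by
    intro e he
    exact norm_pos_iff.2 (MvPolynomial.mem_support_iff.1 he)
  have hvtm : ∀ e, x.v (tm e) = ‖P.coeff e‖ * ∏ i, x.v (G i) ^ e i := by
    intro e
    simp only [htm]
    rw [map_mul, map_prod, x.ext]
    congr 1
    exact Finset.prod_congr rfl fun i _ => by rw [map_pow]
  have hprodpos : ∀ e : Fin (n + 1) →₀ ℕ, 0 < ∏ i, x.v (G i) ^ e i := fun e =>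
    Finset.prod_pos fun i _ => pow_pos (hGpos i) _
  have hlogtm : ∀ e ∈ P.support, Real.log (x.v (tm e)) = Real.log ‖P.coeff e‖ +
      ((e 0 : ℝ) * Real.log (x.v (G0 : L)) +
        ∑ i : Fin n, (e i.succ : ℝ) * Real.log (x.v (g i : L))) := by
    intro e he
    rw [hvtm, Real.log_mul (hcoef e he).ne' (hprodpos e).ne',
      Real.log_prod (fun i _ => (pow_pos (hGpos i) _).ne'), Fin.sum_univ_succ]
    congr 2
    · rw [Real.log_pow]
      rfl
    · refine Finset.sum_congr rfl fun i _ => ?_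
      rw [Real.log_pow]
      rfl
  obtain ⟨e, he, hmax⟩ := P.support.exists_max_image (fun e => x.v (tm e))
    (by rw [MvPolynomial.support_nonempty]; exact hP)
  have htpos : 0 < x.v (tm e) := by
    rw [hvtm]
    exact mul_pos (hcoef e he) (hprodpos e)
  have hS : x.v (tm e) ≤ x.v (∑ e' ∈ P.support.filter (fun e' => e' 0 = e 0), tm e') := by
    set Q : MvPolynomial (Fin n) K := ∑ e' ∈ P.support.filter (fun e' => e' 0 = e 0),
      MvPolynomial.monomial (Finsupp.tail e') (P.coeff e') with hQ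
    have hc : Q.coeff (Finsupp.tail e) = P.coeff e := by
      rw [hQ, MvPolynomial.coeff_sum, Finset.sum_eq_single e]
      · rw [MvPolynomial.coeff_monomial, if_pos rfl]
      · intro b hb hbe
        rw [Finset.mem_filter] at hb
        rw [MvPolynomial.coeff_monomial, if_neg]
        intro ht
        apply hbe
        rw [← Finsupp.cons_tail b, ← Finsupp.cons_tail e, ht, hb.2]
      · intro h
        exact absurd (Finset.mem_filter.2 (⟨he, rfl⟩ : e ∈ P.support ∧ e 0 = e 0)) h
    have hG1 := hx Q (Finsupp.tail e)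
    have hev : Q.eval₂ (algebraMap K L) (fun i => (g i : L)) =
        ∑ e' ∈ P.support.filter (fun e' => e' 0 = e 0),
          algebraMap K L (P.coeff e') * ∏ i, (g i : L) ^ e' i.succ := by
      rw [hQ, MvPolynomial.eval₂_sum]
      refine Finset.sum_congr rfl fun e' _ => ?_
      rw [MvPolynomial.eval₂_monomial, Finsupp.prod_fintype _ _ (fun i => pow_zero _)]
      rfl
    have hsplit : ∑ e' ∈ P.support.filter (fun e' => e' 0 = e 0), tm e' =
        (G0 : L) ^ e 0 * Q.eval₂ (algebraMap K L) (fun i => (g i : L)) := by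
      rw [hev, Finset.mul_sum]
      refine Finset.sum_congr rfl fun e' he' => ?_
      rw [Finset.mem_filter] at he'
      simp only [htm]
      rw [Fin.prod_univ_succ, he'.2]
      simp only [hG, Fin.cons_zero, Fin.cons_succ]
      ring
    rw [hsplit, hvtm, map_mul, map_pow, Fin.prod_univ_succ]
    have h1 : x.v (G 0) = x.v (G0 : L) := rfl
    have h2 : ∀ i : Fin n, x.v (G i.succ) = x.v (g i : L) := fun i => rfl
    rw [h1]
    have h3 : ∏ i : Fin n, x.v (G i.succ) ^ e i.succ =
        ∏ i : Fin n, x.v (g i : L) ^ (Finsupp.tail e) i :=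
      Finset.prod_congr rfl fun i _ => by rw [h2]; rfl
    rw [h3]
    rw [hc] at hG1
    calc ‖P.coeff e‖ * (x.v (G0 : L) ^ e 0 * ∏ i : Fin n, x.v (g i : L) ^ (Finsupp.tail e) i)
        = x.v (G0 : L) ^ e 0 * (‖P.coeff e‖ * ∏ i : Fin n, x.v (g i : L) ^ (Finsupp.tail e) i) := by
          ring
      _ ≤ _ := mul_le_mul_of_nonneg_left hG1 (pow_nonneg (x.v.nonneg _) _)
  obtain ⟨e', he', hne, heq⟩ : ∃ e' ∈ P.support, e' 0 ≠ e 0 ∧ x.v (tm e') = x.v (tm e) := by
    by_contra hc
    push Not at hc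
    have h1 : x.v (∑ e' ∈ P.support.filter (fun e' => ¬ e' 0 = e 0), tm e') < x.v (tm e) := by
      refine Fini_sum x _ _ htpos fun e' he' => ?_
      rw [Finset.mem_filter] at he'
      exact lt_of_le_of_ne (hmax e' he'.1) (hc e' he'.1 he'.2)
    have h2 : ∑ e' ∈ P.support.filter (fun e' => e' 0 = e 0), tm e' =
        -∑ e' ∈ P.support.filter (fun e' => ¬ e' 0 = e 0), tm e' := by
      rw [eq_neg_iff_add_eq_zero, Finset.sum_filter_add_sum_filter_not]
      exact hsum
    rw [h2, AbsoluteValue.map_neg] at hS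
    exact absurd hS (not_le.2 h1)
  have hl1 := hlogtm e he
  have hl2 := hlogtm e' he'
  rw [heq] at hl2
  set k0 : ℤ := (e 0 : ℤ) - (e' 0 : ℤ) with hk0
  set k : Fin n → ℤ := fun i => (e i.succ : ℤ) - (e' i.succ : ℤ) with hk
  have hsumk : ∀ w : Fin n → ℝ, ∑ i, (k i : ℝ) * w i =
      ∑ i : Fin n, (e i.succ : ℝ) * w i - ∑ i : Fin n, (e' i.succ : ℝ) * w i := by
    intro w
    rw [← Finset.sum_sub_distrib]
    refine Finset.sum_congr rfl fun i _ => ?_
    simp only [hk]
    push_cast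
    ring
  have hk0r : (k0 : ℝ) = (e 0 : ℝ) - (e' 0 : ℝ) := by
    rw [hk0]
    push_cast
    ring
  have hval : ∃ b : K, ‖b‖ = x.v ((G0 ^ k0 * ∏ i, g i ^ k i : Lˣ) : L) := by
    refine ⟨P.coeff e' / P.coeff e, ?_⟩
    have hb : 0 < ‖P.coeff e' / P.coeff e‖ := by
      rw [norm_div]
      exact div_pos (hcoef e' he') (hcoef e he)
    refine Real.log_injOn_pos (Set.mem_Ioi.2 hb) (Set.mem_Ioi.2 (Fini_pos x _)) ?_
    rw [Fini_log, norm_div, Real.log_div (hcoef e' he').ne' (hcoef e he).ne',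
      hsumk (fun i => Real.log (x.v (g i : L))), hk0r]
    linarith
  have hne0 : e 0 ≠ e' 0 := fun h => hne h.symm
  refine ⟨e, he, e', he', hne0, ?_, ?_⟩
  · have h5 : ∑ i : Fin n, ((e i.succ : ℝ) - (e' i.succ : ℝ)) * Real.log (x.v (g i : L)) =
        ∑ i : Fin n, (e i.succ : ℝ) * Real.log (x.v (g i : L)) -
          ∑ i : Fin n, (e' i.succ : ℝ) * Real.log (x.v (g i : L)) := by
      rw [← Finset.sum_sub_distrib]
      exact Finset.sum_congr rfl fun i _ => by ring
    rw [h5]
    linarith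
  · intro ε
    have h6 := ε.2 (G0 ^ k0 * ∏ i, g i ^ k i) hval
    rw [ofMul_mul, map_add, ofMul_zpow, map_zsmul, ofMul_prod, map_sum] at h6
    have h7 : ∑ i, ε.1 (Additive.ofMul (g i ^ k i)) =
        ∑ i, (k i : ℝ) * ε.1 (Additive.ofMul (g i)) := by
      refine Finset.sum_congr rfl fun i _ => ?_
      rw [ofMul_zpow, map_zsmul, zsmul_eq_mul]
    rw [h7, zsmul_eq_mul, hsumk (fun i => ε.1 (Additive.ofMul (g i))), hk0r] at h6
    have h5 : ∑ i : Fin n, ((e i.succ : ℝ) - (e' i.succ : ℝ)) * ε.1 (Additive.ofMul (g i)) =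
        ∑ i : Fin n, (e i.succ : ℝ) * ε.1 (Additive.ofMul (g i)) -
          ∑ i : Fin n, (e' i.succ : ℝ) * ε.1 (Additive.ofMul (g i)) := by
      rw [← Finset.sum_sub_distrib]
      exact Finset.sum_congr rfl fun i _ => by ring
    rw [h5]
    linarith

/-- Finitely many affine sheets. -/
theorem thm_Fini : St_Fini := by
  classical
  intro K L _ _ _ n hTr R F I
  by_cases hex : ∃ x : Pt (algebraMap K L), Gauss x (F ∘ I)
  swap
  · push Not at hex
    exact ⟨∅, fun A₀ h => absurd h (Finset.notMem_empty _), fun x hx => absurd hx (hex x)⟩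
  obtain ⟨x0, hx0⟩ := hex
  have hinj : Function.Injective I := by
    intro i i' hii
    by_contra hne
    have h1 := hx0 (MvPolynomial.X i - MvPolynomial.X i') (Finsupp.single i 1)
    rw [MvPolynomial.eval₂_sub, MvPolynomial.eval₂_X, MvPolynomial.eval₂_X] at h1
    simp only [Function.comp_apply, hii, sub_self, map_zero] at h1
    rw [MvPolynomial.coeff_sub, MvPolynomial.coeff_X, MvPolynomial.coeff_X, if_pos rfl,
      if_neg] at h1
    · rw [sub_zero, norm_one, one_mul] at h1
      have h2 : 0 < ∏ j, x0.v ((F (I j) : L)) ^ (Finsupp.single i 1) j :=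
        Finset.prod_pos fun j _ => pow_pos (Fini_pos x0 _) _
      linarith
    · intro h
      have h3 := DFunLike.congr_fun h i'
      rw [Finsupp.single_eq_same, Finsupp.single_eq_of_ne (fun h4 => hne h4.symm)] at h3
      exact one_ne_zero h3
  have hpol : ∀ j : Fin R, ∃ P : MvPolynomial (Fin (n + 1)) K, P ≠ 0 ∧
      MvPolynomial.aeval (Fin.cons (F j : L) (fun i => ((F ∘ I) i : L)) : Fin (n + 1) → L) P
        = 0 := by
    intro j
    have h1 := hTr (Fin.cons (F j : L) (fun i => ((F ∘ I) i : L)))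
    rw [algebraicIndependent_iff] at h1
    push Not at h1
    obtain ⟨P, hP1, hP2⟩ := h1
    exact ⟨P, hP2, hP1⟩
  choose P hP1 hP2 using hpol
  let C : Fin R → Finset ((Fin n → ℝ) × ℝ) := fun j =>
    if h : ∃ i, I i = j then {(Pi.single h.choose 1, 0)}
    else ((P j).support ×ˢ (P j).support).image fun q =>
      (fun i => ((q.1 i.succ : ℝ) - (q.2 i.succ : ℝ)) / ((q.2 0 : ℝ) - (q.1 0 : ℝ)),
        (Real.log ‖(P j).coeff q.1‖ - Real.log ‖(P j).coeff q.2‖) /
          ((q.2 0 : ℝ) - (q.1 0 : ℝ)))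
  have hCI : ∀ i : Fin n, C (I i) = {(Pi.single i 1, 0)} := by
    intro i
    have h : ∃ i', I i' = I i := ⟨i, rfl⟩
    simp only [C]
    rw [dif_pos h]
    have h2 : h.choose = i := hinj h.choose_spec
    rw [h2]
  refine ⟨(Fintype.piFinset C).image fun f => (Matrix.of fun j => (f j).1, fun j => (f j).2),
    ?_, ?_⟩
  · intro A₀ hA₀ s i
    rw [Finset.mem_image] at hA₀
    obtain ⟨f, hf, rfl⟩ := hA₀
    rw [Fintype.mem_piFinset] at hf
    have h1 := hf (I i)
    rw [hCI, Finset.mem_singleton] at h1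
    simp only [Pi.add_apply, Matrix.mulVec, Matrix.of_apply]
    rw [h1]
    simp
  · intro x hx
    have hch : ∀ j : Fin R, ∃ c ∈ C j, logv x F j = c.2 + c.1 ⬝ᵥ logv x (F ∘ I) ∧
        ∀ ε : Tan x, ev F ε j = c.1 ⬝ᵥ ev (F ∘ I) ε := by
      intro j
      by_cases h : ∃ i, I i = j
      · obtain ⟨i, rfl⟩ := h
        refine ⟨(Pi.single i 1, 0), by rw [hCI]; exact Finset.mem_singleton_self _, ?_, ?_⟩
        · simp [logv]
        · intro ε
          simp [ev]
      · obtain ⟨e, he, e', he', hne, hlog, hε⟩ := Fini_key x (F ∘ I) (F j) (P j) (hP1 j) (hP2 j) hx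
        have hd : (e' 0 : ℝ) - (e 0 : ℝ) ≠ 0 := by
          intro h0
          apply hne
          have : (e' 0 : ℝ) = (e 0 : ℝ) := by linarith
          exact_mod_cast this.symm
        refine ⟨(fun i => ((e i.succ : ℝ) - (e' i.succ : ℝ)) / ((e' 0 : ℝ) - (e 0 : ℝ)),
          (Real.log ‖(P j).coeff e‖ - Real.log ‖(P j).coeff e'‖) /
            ((e' 0 : ℝ) - (e 0 : ℝ))), ?_, ?_, ?_⟩
        · simp only [C]
          rw [dif_neg h, Finset.mem_image]
          exact ⟨(e, e'), Finset.mem_product.2 ⟨he, he'⟩, rfl⟩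
        · have h1 : (fun i : Fin n => ((e i.succ : ℝ) - (e' i.succ : ℝ)) /
              ((e' 0 : ℝ) - (e 0 : ℝ))) ⬝ᵥ logv x (F ∘ I) =
              (∑ i : Fin n, ((e i.succ : ℝ) - (e' i.succ : ℝ)) *
                Real.log (x.v ((F ∘ I) i : L))) / ((e' 0 : ℝ) - (e 0 : ℝ)) := by
            rw [Finset.sum_div]
            refine Finset.sum_congr rfl fun i _ => ?_
            simp only [logv]
            ring
          show Real.log (x.v (F j : L)) = _
          simp only
          rw [h1, ← add_div, eq_div_iff hd]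
          exact hlog
        · intro ε
          have h1 : (fun i : Fin n => ((e i.succ : ℝ) - (e' i.succ : ℝ)) /
              ((e' 0 : ℝ) - (e 0 : ℝ))) ⬝ᵥ ev (F ∘ I) ε =
              (∑ i : Fin n, ((e i.succ : ℝ) - (e' i.succ : ℝ)) *
                ε.1 (Additive.ofMul ((F ∘ I) i))) / ((e' 0 : ℝ) - (e 0 : ℝ)) := by
            rw [Finset.sum_div]
            refine Finset.sum_congr rfl fun i _ => ?_
            simp only [ev]
            ring
          show ε.1 (Additive.ofMul (F j)) = _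
          simp only
          rw [h1, eq_div_iff hd]
          exact hε ε
    choose f hf1 hf2 hf3 using hch
    refine ⟨(Matrix.of fun j => (f j).1, fun j => (f j).2), ?_, ?_, ?_⟩
    · rw [Finset.mem_image]
      exact ⟨f, Fintype.mem_piFinset.2 hf1, rfl⟩
    · funext j
      exact hf2 j
    · intro ε
      funext j
      exact hf3 j ε

end TDC
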