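import Pool.Agent.TDC.St
import Pool.Agent.TDC.St2
import Pool.Agent.TDC.St3

/-!
# TDC, module FldA: the theorem over the function field, local version
-/

namespace TDC

open scoped Topology

section fldA

variable {K M : Type} [NormedField K] [Field M] {φ : K →+* M}

theorem FldA_cont {R : ℕ} (F : Fin R → Mˣ) : Continuous fun x : Pt φ => logv x F := by
  refine continuous_pi fun i => ?_
  have h : Continuous fun x : Pt φ => x.v ((F i : Mˣ) : M) := by
    have h1 : Continuous fun (x : Pt φ) (f : M) => x.v f := continuous_induced_dom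
    exact (continuous_apply ((F i : Mˣ) : M)).comp h1
  exact h.log fun x => x.v.ne_zero (Units.ne_zero (F i))

theorem FldA_open {R : ℕ} (F : Fin R → Mˣ) (V : Set (Fin R → ℝ)) (hV : IsOpen V) :
    IsOpen {x : Pt φ | logv x F ∈ V} :=
  hV.preimage (FldA_cont F)

theorem FldA_good {n : ℕ} (D : TD M n) {O O' : Set (Pt φ)} (h : O ⊆ O') (hD : D.Good φ O) :
    D.Good φ O' :=
  ⟨hD.1, hD.2.1, fun x hx => hD.2.2 x fun hx' => hx (h hx')⟩

theorem FldA_Wx {n q : ℕ} {O O' : Set (Pt φ)} (h : O ⊆ O') : Wx φ n q O ≤ Wx φ n q O' := by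
  refine Submodule.span_mono ?_
  rintro ω ⟨R, F, γ, h1, h2, h3⟩
  exact ⟨R, F, γ, h1, fun x hx => h2 x fun hx' => hx (h hx'), h3⟩

theorem FldA_SC_zero {n : ℕ} (V : Set (Fin n → ℝ)) : SC (0 : (Fin n → ℝ) → ℝ) V := by
  refine ⟨contDiff_const, HasCompactSupport.zero, ?_⟩
  have h : tsupport (0 : (Fin n → ℝ) → ℝ) = ∅ := by
    rw [tsupport_eq_empty_iff]
  rw [h]
  exact Set.empty_subset _

theorem FldA_SC_add {n : ℕ} {V : Set (Fin n → ℝ)} {b c : (Fin n → ℝ) → ℝ} (hb : SC b V)
    (hc : SC c V) : SC (b + c) V := by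
  refine ⟨hb.1.add hc.1, hb.2.1.add hc.2.1, ?_⟩
  have h : tsupport (b + c) ⊆ tsupport b ∪ tsupport c := by
    unfold tsupport
    rw [← closure_union]
    exact closure_mono (Function.support_add b c)
  exact h.trans (Set.union_subset hb.2.2 hc.2.2)

theorem FldA_std_zero {n : ℕ} (t : Fin n → Mˣ) :
    std φ t (0 : (Fin n → ℝ) → ℝ) = 0 := by
  funext x δ ε
  simp only [std, Pi.zero_apply, zero_mul]

theorem FldA_std_add {n : ℕ} (t : Fin n → Mˣ) (b c : (Fin n → ℝ) → ℝ) :
    std φ t (b + c) = std φ t b + std φ t c := by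
  funext x δ ε
  simp only [std, Pi.add_apply, add_mul]

theorem FldA_list {n : ℕ} (t : Fin n → Mˣ) (V : Set (Fin n → ℝ)) (W : Submodule ℝ (Fam φ n n))
    (l : List (TD M n))
    (h : ∀ D ∈ l, ∃ b : (Fin n → ℝ) → ℝ, SC b V ∧ D.form φ - std φ t b ∈ W) :
    ∃ b : (Fin n → ℝ) → ℝ, SC b V ∧ (l.map (TD.form φ)).sum - std φ t b ∈ W := by
  induction l with
  | nil =>
    refine ⟨0, FldA_SC_zero V, ?_⟩
    rw [FldA_std_zero, List.map_nil, List.sum_nil, sub_zero]
    exact W.zero_mem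
  | cons D l ih =>
    obtain ⟨b, hb, hbW⟩ := h D List.mem_cons_self
    obtain ⟨c, hc, hcW⟩ := ih fun D' hD' => h D' (List.mem_cons_of_mem D hD')
    refine ⟨b + c, FldA_SC_add hb hc, ?_⟩
    have h1 : ((D :: l).map (TD.form φ)).sum - std φ t (b + c) =
        (D.form φ - std φ t b) + ((l.map (TD.form φ)).sum - std φ t c) := by
      rw [FldA_std_add, List.map_cons, List.sum_cons]
      abel
    rw [h1]
    exact W.add_mem hbW hcW

end fldA

theorem thm_FldA (hPUni : St_PUni) (hGene : St_Gene) (hLocR : St_LocR) (hEM : St_EM)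
    (hWtoD : St_WtoD) (hTowR : St_TowR) : St_FldA := by
  intro K L _ _ _ m t hcount hrat V hV ω C hω hC hωC hCV
  have htr : TrLe K L (m + 1) := (hTowR.1 K L (m + 1) t hrat).1
  have hO : IsOpen {x : Pt (algebraMap K L) | logv x t ∈ V} := FldA_open t V hV
  obtain ⟨R, F, α, U, hα, hU, hαU, hUO, hωα⟩ :=
    hPUni K L (algebraMap K L) (m + 1) (m + 1) ω C {x | logv x t ∈ V} hω hC hωC hO hCV
  obtain ⟨l, hl, hlW⟩ := hGene K L m htr R F U α hU hα hαU
  obtain ⟨b, hb, hbW⟩ := FldA_list (φ := algebraMap K L) t V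
    (W0 (algebraMap K L) (m + 1) {x | logv x t ∈ V}) l
    (fun D hD => hLocR K L (m + 1) t hcount hrat V hV D (FldA_good D hUO (hl D hD)))
  have h1 : (l.map (TD.form (algebraMap K L))).sum - std (algebraMap K L) t b ∈
      Wx (algebraMap K L) (m + 1) m {x | logv x t ∈ V} :=
    hEM K L (algebraMap K L) m {x | logv x t ∈ V} hbW
  have h2 : (pull F α : Fam (algebraMap K L) (m + 1) (m + 1)) -
      (l.map (TD.form (algebraMap K L))).sum ∈
      Wx (algebraMap K L) (m + 1) m {x | logv x t ∈ V} := FldA_Wx hUO hlW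
  have h3 : ω - std (algebraMap K L) t b ∈
      Wx (algebraMap K L) (m + 1) m {x | logv x t ∈ V} := by
    have h4 : ω - std (algebraMap K L) t b =
        ((pull F α : Fam (algebraMap K L) (m + 1) (m + 1)) -
          (l.map (TD.form (algebraMap K L))).sum) +
        ((l.map (TD.form (algebraMap K L))).sum - std (algebraMap K L) t b) := by
      rw [hωα]
      abel
    rw [h4]
    exact Submodule.add_mem _ h2 h1
  obtain ⟨η, hη1, hη2, hη3, hη4, -, -⟩ :=
    hWtoD K L (m + 1) m htr {x | logv x t ∈ V} (ω - std (algebraMap K L) t b) h3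
  exact ⟨b, η, hb, hη1, hη2, hη4, hη3⟩

end TDC
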