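import Pool.Agent.TDC.StT

/-!
# TDC, Phase 2: conjugates as images of embeddings and as roots of the minimal polynomial
-/

namespace TDC

theorem thm_Frc : St_Frc := by
  classical
  intro E L Ω _ _ _ _ _ _ _ _ h ψ
  set P : Polynomial E := minpoly E h with hP
  have hint : IsIntegral E h := IsIntegral.of_finite E h
  have hirr : Irreducible P := minpoly.irreducible hint
  have hmon : P.Monic := minpoly.monic hint
  have hspl : (P.map (algebraMap E Ω)).Splits := IsAlgClosed.splits _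
  set Z : Finset Ω := (P.aroots Ω).toFinset with hZ
  -- transitivity
  have hroot : ∀ ρ ∈ Z, minpoly E ρ = P := by
    intro ρ hρ
    rw [hZ, Multiset.mem_toFinset, Polynomial.mem_aroots] at hρ
    exact (minpoly.eq_of_irreducible_of_monic hirr hρ.2 hmon).symm
  have hnorm : Normal E Ω := normal_iff.2 fun x =>
    ⟨(Algebra.IsAlgebraic.isAlgebraic x).isIntegral, IsAlgClosed.splits _⟩
  have htr : ∀ ρ ∈ Z, ∀ ρ' ∈ Z, ∃ τ : Ω ≃ₐ[E] Ω, τ ρ = ρ' := by
    intro ρ hρ ρ' hρ'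
    have h1 : IsConjRoot E ρ' ρ := by
      rw [isConjRoot_def, hroot ρ hρ, hroot ρ' hρ']
    obtain ⟨τ, hτ⟩ := h1.exists_algEquiv
    exact ⟨τ, hτ⟩
  -- the multiplicities as roots
  have hb : ∀ ρ ∈ Z, ∀ ρ' ∈ Z, (P.aroots Ω).count ρ = (P.aroots Ω).count ρ' := by
    intro ρ hρ ρ' hρ'
    obtain ⟨τ, rfl⟩ := htr ρ hρ ρ' hρ'
    have h1 : (P.aroots Ω).map τ = P.aroots Ω := by
      have h2 := hspl.roots_map (τ : Ω ≃ₐ[E] Ω).toAlgHom.toRingHom
      have h3 : (P.map (algebraMap E Ω)).map (τ : Ω ≃ₐ[E] Ω).toAlgHom.toRingHom =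
          P.map (algebraMap E Ω) := by
        rw [Polynomial.map_map]
        congr 1
        exact (τ : Ω ≃ₐ[E] Ω).toAlgHom.comp_algebraMap
      rw [h3] at h2
      exact h2.symm
    have h4 : (P.aroots Ω).count (τ ρ) = ((P.aroots Ω).map τ).count (τ ρ) := by rw [h1]
    rw [h4, Multiset.count_map_eq_count' _ _ τ.injective]
  -- the multiplicities as images
  have ha : ∀ ρ ∈ Z, ∀ ρ' ∈ Z,
      (Finset.univ.filter fun σ : L →ₐ[E] Ω => σ h = ρ).card =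
        (Finset.univ.filter fun σ : L →ₐ[E] Ω => σ h = ρ').card := by
    intro ρ hρ ρ' hρ'
    obtain ⟨τ, rfl⟩ := htr ρ hρ ρ' hρ'
    refine Finset.card_bij (fun σ _ => (τ : Ω →ₐ[E] Ω).comp σ) ?_ ?_ ?_
    · intro σ hσ
      simp only [Finset.mem_filter, Finset.mem_univ, true_and] at hσ ⊢
      simp [hσ]
    · intro σ _ σ' _ hss
      apply AlgHom.ext
      intro x
      have := AlgHom.congr_fun hss x
      exact τ.injective this
    · intro σ hσ
      simp only [Finset.mem_filter, Finset.mem_univ, true_and] at hσ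
      refine ⟨(τ.symm : Ω →ₐ[E] Ω).comp σ, ?_, ?_⟩
      · simp [hσ]
      · apply AlgHom.ext
        intro x
        simp
  -- all images are in `Z`
  have hmem : ∀ σ : L →ₐ[E] Ω, σ h ∈ Z := by
    intro σ
    rw [hZ, Multiset.mem_toFinset, Polynomial.mem_aroots]
    refine ⟨hmon.ne_zero, ?_⟩
    rw [Polynomial.aeval_algHom_apply, hP, minpoly.aeval, map_zero]
  rw [finsum_eq_sum_of_fintype, Nat.card_eq_fintype_card]
  have e1 : ∑ σ : L →ₐ[E] Ω, ψ (σ h) =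
      ∑ ρ ∈ Z, ((Finset.univ.filter fun σ : L →ₐ[E] Ω => σ h = ρ).card : ℝ) * ψ ρ := by
    rw [← Finset.sum_fiberwise_of_maps_to (s := Finset.univ) (t := Z)
      (g := fun σ : L →ₐ[E] Ω => σ h) (fun σ _ => hmem σ)]
    refine Finset.sum_congr rfl fun ρ _ => ?_
    rw [Finset.sum_congr rfl (g := fun _ => ψ ρ), Finset.sum_const, nsmul_eq_mul]
    intro σ hσ
    rw [(Finset.mem_filter.1 hσ).2]
  have e2 : (Fintype.card (L →ₐ[E] Ω) : ℝ) =
      ∑ ρ ∈ Z, ((Finset.univ.filter fun σ : L →ₐ[E] Ω => σ h = ρ).card : ℝ) := by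
    rw [← Finset.card_univ, Finset.card_eq_sum_card_fiberwise (t := Z)
      (f := fun σ : L →ₐ[E] Ω => σ h) (fun σ _ => hmem σ)]
    push_cast
    rfl
  have e3 : ((P.aroots Ω).map ψ).sum = ∑ ρ ∈ Z, ((P.aroots Ω).count ρ : ℝ) * ψ ρ := by
    rw [Finset.sum_multiset_map_count]
    refine Finset.sum_congr rfl fun ρ _ => ?_
    rw [nsmul_eq_mul]
  have e4 : (P.natDegree : ℝ) = ∑ ρ ∈ Z, ((P.aroots Ω).count ρ : ℝ) := by
    have h1 : P.natDegree = (P.aroots Ω).card := by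
      have := hspl.natDegree_eq_card_roots
      rwa [Polynomial.natDegree_map] at this
    rw [h1, ← Multiset.toFinset_sum_count_eq]
    push_cast
    rfl
  rw [e1, e2, e3, e4]
  rcases Z.eq_empty_or_nonempty with h0 | ⟨ρ₀, hρ₀⟩
  · rw [h0]; simp
  · rw [Finset.sum_congr rfl (fun ρ hρ => by rw [hb ρ hρ ρ₀ hρ₀] :
        ∀ ρ ∈ Z, ((P.aroots Ω).count ρ : ℝ) = ((P.aroots Ω).count ρ₀ : ℝ)),
      Finset.sum_congr rfl (fun ρ hρ => by rw [ha ρ hρ ρ₀ hρ₀] :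
        ∀ ρ ∈ Z, ((Finset.univ.filter fun σ : L →ₐ[E] Ω => σ h = ρ).card : ℝ) * ψ ρ =
          ((Finset.univ.filter fun σ : L →ₐ[E] Ω => σ h = ρ₀).card : ℝ) * ψ ρ),
      Finset.sum_congr rfl (fun ρ hρ => by rw [ha ρ hρ ρ₀ hρ₀] :
        ∀ ρ ∈ Z, ((Finset.univ.filter fun σ : L →ₐ[E] Ω => σ h = ρ).card : ℝ) =
          ((Finset.univ.filter fun σ : L →ₐ[E] Ω => σ h = ρ₀).card : ℝ)),
      Finset.sum_congr rfl (fun ρ hρ => by rw [hb ρ hρ ρ₀ hρ₀] :
        ∀ ρ ∈ Z, ((P.aroots Ω).count ρ : ℝ) * ψ ρ = ((P.aroots Ω).count ρ₀ : ℝ) * ψ ρ),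
      ← Finset.mul_sum, ← Finset.mul_sum, Finset.sum_const, Finset.sum_const, nsmul_eq_mul,
      nsmul_eq_mul]
    ring

end TDC
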