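import Pool.Agent.TDC.StG

/-!
# TDC, module GAff: affinoid sets in the analytification are compact
-/

namespace TDC

open scoped Topology
open AlgebraicGeometry CategoryTheory Filter

/-- A multiplicative ultrametric function on a ring whose zero set is the kernel of a
homomorphism to a field generated by quotients gives an absolute value on the field. -/
private lemma GAff_abs {A M : Type} [CommRing A] [Field M] (ρ : A →+* M) (w : A → ℝ)
    (h0 : ∀ f, 0 ≤ w f) (h1 : w 1 = 1) (hm : ∀ f g, w (f * g) = w f * w g)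
    (ha : ∀ f g, w (f + g) ≤ max (w f) (w g)) (hk : ∀ f, ρ f = 0 ↔ w f = 0)
    (hs : ∀ z : M, ∃ a b, ρ b ≠ 0 ∧ z * ρ b = ρ a) :
    ∃ v : AbsoluteValue M ℝ, (∀ a b, v (a + b) ≤ max (v a) (v b)) ∧ ∀ f, v (ρ f) = w f := by
  have hneg : ∀ f, w (-f) = w f := by
    intro f
    have h2 : w (-1) = 1 := by
      have h3 : w (-1) * w (-1) = 1 := by
        rw [← hm, neg_mul_neg, one_mul, h1]
      nlinarith [h0 (-1)]
    rw [← neg_one_mul, hm, h2, one_mul]
  have hsub1 : ∀ f g, w (f - g) = 0 → w f ≤ w g := by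
    intro f g h
    have h2 := ha (f - g) g
    rw [sub_add_cancel, h, max_eq_right (h0 g)] at h2
    exact h2
  have hsub : ∀ f g, w (f - g) = 0 → w f = w g := by
    intro f g h
    refine le_antisymm (hsub1 f g h) (hsub1 g f ?_)
    rw [← neg_sub, hneg, h]
  have hρ : ∀ f g, ρ f = ρ g → w f = w g := fun f g h =>
    hsub f g ((hk _).1 (by rw [map_sub, h, sub_self]))
  have hpos : ∀ f, ρ f ≠ 0 → 0 < w f := fun f hf =>
    lt_of_le_of_ne (h0 _) fun h => hf ((hk _).2 h.symm)
  choose a b hb hab using hs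
  have hwb : ∀ z, 0 < w (b z) := fun z => hpos _ (hb z)
  have key : ∀ z c d, z * ρ d = ρ c → w (a z) / w (b z) * w d = w c := by
    intro z c d h
    have h2 : ρ (a z * d) = ρ (c * b z) := by
      rw [map_mul, map_mul, ← hab, ← h]
      ring
    have h3 := hρ _ _ h2
    rw [hm, hm] at h3
    rw [div_mul_eq_mul_div, h3]
    exact mul_div_cancel_right₀ _ (hwb z).ne'
  have key2 : ∀ z c d, ρ d ≠ 0 → z * ρ d = ρ c → w (a z) / w (b z) = w c / w d := by
    intro z c d hd h
    rw [eq_div_iff (hpos d hd).ne']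
    exact key z c d h
  have hmul : ∀ x y, w (a (x * y)) / w (b (x * y)) =
      w (a x) / w (b x) * (w (a y) / w (b y)) := by
    intro x y
    rw [key2 (x * y) (a x * a y) (b x * b y) (by
      rw [map_mul]
      exact mul_ne_zero (hb x) (hb y)) (by
      rw [map_mul, map_mul, ← hab, ← hab]
      ring), hm, hm, div_mul_div_comm]
  have hna : ∀ x y, w (a (x + y)) / w (b (x + y)) ≤
      max (w (a x) / w (b x)) (w (a y) / w (b y)) := by
    intro x y
    have hbb : ρ (b x * b y) ≠ 0 := by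
      rw [map_mul]
      exact mul_ne_zero (hb x) (hb y)
    have e1 : w (a x) / w (b x) = w (a x * b y) / w (b x * b y) :=
      key2 x _ _ hbb (by rw [map_mul, map_mul, ← hab]; ring)
    have e2 : w (a y) / w (b y) = w (a y * b x) / w (b x * b y) :=
      key2 y _ _ hbb (by rw [map_mul, map_mul, ← hab]; ring)
    have e3 : w (a (x + y)) / w (b (x + y)) = w (a x * b y + a y * b x) / w (b x * b y) :=
      key2 (x + y) _ _ hbb (by rw [map_mul, map_add, map_mul, map_mul, ← hab, ← hab]; ring)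
    rw [e1, e2, e3, max_div_div_right (h0 _)]
    exact div_le_div_of_nonneg_right (ha _ _) (h0 _)
  have hnn : ∀ x, 0 ≤ w (a x) / w (b x) := fun x => div_nonneg (h0 _) (h0 _)
  refine ⟨{ toFun := fun z => w (a z) / w (b z)
            map_mul' := hmul
            nonneg' := hnn
            eq_zero' := ?_
            add_le' := ?_ }, hna, ?_⟩
  · intro x
    show w (a x) / w (b x) = 0 ↔ x = 0
    rw [div_eq_zero_iff, or_iff_left (hwb x).ne', ← hk, ← hab, mul_eq_zero, or_iff_left (hb x)]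
  · intro x y
    exact (hna x y).trans (max_le (le_add_of_nonneg_right (hnn y))
      (le_add_of_nonneg_left (hnn x)))
  · intro f
    show w (a (ρ f)) / w (b (ρ f)) = w f
    rw [key2 (ρ f) f 1 (by rw [map_one]; exact one_ne_zero) (by rw [map_one, mul_one]), h1,
      div_one]

section

variable {K : Type} [NormedField K] {X : Scheme.{0}} {s : X ⟶ Spec (.of K)}

private lemma GAff_res {U V : X.Opens} (hVU : V ≤ U) (ξ : X) (h : ξ ∈ V) (f : Γ(X, U)) :
    X.evaluation V ξ h (X.presheaf.map (homOfLE hVU).op f) = X.evaluation U ξ (hVU h) f := by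
  have e : X.presheaf.map (homOfLE hVU).op ≫ X.evaluation V ξ h = X.evaluation U ξ (hVU h) := by
    rw [← X.germ_residue ξ h, ← X.germ_residue ξ (hVU h), ← Category.assoc,
      X.presheaf.germ_res (homOfLE hVU) ξ h]
  exact congrArg (fun g => g.hom f) e

private lemma GAff_const (U : X.Opens) (ξ : X) (h : ξ ∈ U) (a : K) :
    X.evaluation U ξ h (kΓ s U a) = kmap s ξ a :=
  GAff_res (le_top : U ≤ ⊤) ξ h _

/-- every element of the residue field is a quotient -/
private lemma GAff_quot {U : X.Opens} (hU : IsAffineOpen U) (ξ : X) (h : ξ ∈ U)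
    (z : X.residueField ξ) : ∃ a b : Γ(X, U), X.evaluation U ξ h b ≠ 0 ∧
      z * X.evaluation U ξ h b = X.evaluation U ξ h a := by
  obtain ⟨g, rfl⟩ := X.residue_surjective ξ z
  let _ : Algebra Γ(X, U) (X.presheaf.stalk ξ) :=
    TopCat.Presheaf.algebra_section_stalk X.presheaf ⟨ξ, h⟩
  have hloc : IsLocalization.AtPrime (X.presheaf.stalk ξ) (hU.primeIdealOf ⟨ξ, h⟩).asIdeal :=
    hU.isLocalization_stalk ⟨ξ, h⟩
  obtain ⟨⟨a, b⟩, hab⟩ := IsLocalization.surj
    (hU.primeIdealOf ⟨ξ, h⟩).asIdeal.primeCompl g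
  have hb := IsLocalization.map_units (X.presheaf.stalk ξ) b
  refine ⟨a, b, ?_, ?_⟩
  · have h1 : IsUnit ((X.residue ξ).hom (algebraMap Γ(X, U) (X.presheaf.stalk ξ) b)) :=
      hb.map (X.residue ξ).hom
    exact h1.ne_zero
  · have h2 := congrArg (X.residue ξ).hom hab
    rw [map_mul] at h2
    exact h2

/-- the point of an affine open set with given prime ideal -/
private lemma GAff_pt {U : X.Opens} (hU : IsAffineOpen U) (P : Ideal Γ(X, U)) (hP : P.IsPrime) :
    ∃ (ξ : X) (h : ξ ∈ U), ∀ f : Γ(X, U), X.evaluation U ξ h f = 0 ↔ f ∈ P := by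
  let y : PrimeSpectrum Γ(X, U) := ⟨P, hP⟩
  have hy : hU.fromSpec y ∈ U := by
    have h1 : hU.fromSpec y ∈ Set.range hU.fromSpec := ⟨y, rfl⟩
    rw [hU.range_fromSpec] at h1
    exact h1
  refine ⟨hU.fromSpec y, hy, fun f => ?_⟩
  rw [X.evaluation_eq_zero_iff_notMem_basicOpen]
  have h2 := hU.fromSpec_preimage_basicOpen f
  have h3 : y ∈ hU.fromSpec ⁻¹ᵁ X.basicOpen f ↔ f ∉ P := by
    rw [h2]
    exact PrimeSpectrum.mem_basicOpen f y
  have h4 : hU.fromSpec y ∈ X.basicOpen f ↔ y ∈ hU.fromSpec ⁻¹ᵁ X.basicOpen f := Iff.rfl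
  rw [h4, h3, not_not]

/-- a section on a basic open set of an affine open set is a quotient -/
private lemma GAff_frac {U : X.Opens} (hU : IsAffineOpen U) (g : Γ(X, U))
    (f : Γ(X, X.basicOpen g)) : ∃ (c : Γ(X, U)) (k : ℕ), ∀ (ξ : X) (h : ξ ∈ X.basicOpen g),
      X.evaluation _ ξ h f * X.evaluation U ξ (X.basicOpen_le g h) g ^ k =
        X.evaluation U ξ (X.basicOpen_le g h) c := by
  have hloc := hU.isLocalization_basicOpen g
  obtain ⟨⟨c, ⟨_, k, rfl⟩⟩, hc⟩ := IsLocalization.surj (Submonoid.powers g) f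
  refine ⟨c, k, fun ξ h => ?_⟩
  have h2 := congrArg (X.evaluation _ ξ h).hom hc
  rw [map_mul] at h2
  have h3 : (X.evaluation _ ξ h).hom (algebraMap Γ(X, U) Γ(X, X.basicOpen g) c) =
      X.evaluation U ξ (X.basicOpen_le g h) c := GAff_res (X.basicOpen_le g) ξ h c
  have h4 : (X.evaluation _ ξ h).hom (algebraMap Γ(X, U) Γ(X, X.basicOpen g) (g ^ k)) =
      X.evaluation U ξ (X.basicOpen_le g h) (g ^ k) := GAff_res (X.basicOpen_le g) ξ h (g ^ k)
  rw [← h3, ← h2]
  refine congrArg _ ?_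
  refine Eq.trans ?_ h4.symm
  exact (map_pow (X.evaluation U ξ (X.basicOpen_le g h)).hom g k).symm

open Classical in
/-- the absolute value of a section, extended by zero -/
private noncomputable def GAff_F {U : X.Opens} (f : Γ(X, U)) (x : An s) : ℝ :=
  if h : x.1 ∈ U then absA x h f else 0

private lemma GAff_F_of {U : X.Opens} (f : Γ(X, U)) (x : An s) (h : x.1 ∈ U) :
    GAff_F f x = absA x h f := dif_pos h

private lemma GAff_F_nonneg {U : X.Opens} (f : Γ(X, U)) (x : An s) : 0 ≤ GAff_F f x := by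
  by_cases h : x.1 ∈ U
  · rw [GAff_F_of f x h]
    exact x.2.v.nonneg _
  · rw [GAff_F, dif_neg h]

end

/-- **GAff**. Affinoid sets are compact. -/
theorem thm_GAff : St_GAff := by
  intro K _ X s U hU B
  rw [isCompact_iff_ultrafilter_le_nhds]
  intro W hW
  have hS : {x : An s | ∃ h : x.1 ∈ U, ∀ f : Γ(X, U), absA x h f ≤ B f} ∈ (W : Filter (An s)) :=
    le_principal_iff.1 hW
  have hae : ∀ᶠ x in (W : Filter (An s)), x.1 ∈ U := mem_of_superset hS fun x hx => hx.1
  have hlim : ∀ f : Γ(X, U), ∃ c : ℝ, c ≤ B f ∧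
      Tendsto (GAff_F (s := s) f) (W : Filter (An s)) (𝓝 c) := by
    intro f
    have h1 : ((W.map (GAff_F (s := s) f) : Ultrafilter ℝ) : Filter ℝ) ≤
        𝓟 (Set.Icc 0 (B f)) := by
      rw [le_principal_iff]
      change GAff_F (s := s) f ⁻¹' Set.Icc 0 (B f) ∈ (W : Filter (An s))
      refine mem_of_superset hS ?_
      rintro x ⟨h, hx⟩
      refine ⟨GAff_F_nonneg f x, ?_⟩
      rw [GAff_F_of f x h]
      exact hx f
    obtain ⟨c, hc1, hc2⟩ := isCompact_iff_ultrafilter_le_nhds.1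
      (isCompact_Icc : IsCompact (Set.Icc (0 : ℝ) (B f))) _ h1
    exact ⟨c, hc1.2, hc2⟩
  choose w hwB hw using hlim
  have h0 : ∀ f, 0 ≤ w f := fun f => ge_of_tendsto' (hw f) (GAff_F_nonneg f)
  have hk0 : ∀ a : K, w (kΓ s U a) = ‖a‖ := by
    intro a
    refine tendsto_nhds_unique (hw _) (tendsto_const_nhds.congr' ?_)
    filter_upwards [hae] with x hx
    rw [GAff_F_of _ x hx, absA, GAff_const, x.2.ext]
  have h1 : w 1 = 1 := by
    refine tendsto_nhds_unique (hw _) (tendsto_const_nhds.congr' ?_)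
    filter_upwards [hae] with x hx
    rw [GAff_F_of _ x hx, absA]
    have e : X.evaluation U x.1 hx 1 = 1 := map_one (X.evaluation U x.1 hx).hom
    rw [e, map_one]
  have hm : ∀ f g, w (f * g) = w f * w g := by
    intro f g
    refine tendsto_nhds_unique (hw _) (((hw f).mul (hw g)).congr' ?_)
    filter_upwards [hae] with x hx
    rw [GAff_F_of _ x hx, GAff_F_of _ x hx, GAff_F_of _ x hx, absA, absA, absA]
    have e : X.evaluation U x.1 hx (f * g) = X.evaluation U x.1 hx f * X.evaluation U x.1 hx g :=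
      map_mul (X.evaluation U x.1 hx).hom f g
    rw [e, map_mul]
  have ha : ∀ f g, w (f + g) ≤ max (w f) (w g) := by
    intro f g
    refine le_of_tendsto_of_tendsto (hw _) ((hw f).max (hw g)) ?_
    filter_upwards [hae] with x hx
    rw [GAff_F_of _ x hx, GAff_F_of _ x hx, GAff_F_of _ x hx, absA, absA, absA]
    have e : X.evaluation U x.1 hx (f + g) = X.evaluation U x.1 hx f + X.evaluation U x.1 hx g :=
      map_add (X.evaluation U x.1 hx).hom f g
    rw [e]
    exact x.2.na _ _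
  have hz : w 0 = 0 := by
    have h := hk0 0
    rwa [map_zero, norm_zero] at h
  let P : Ideal Γ(X, U) :=
    { carrier := {f | w f = 0}
      zero_mem' := hz
      add_mem' := by
        intro f g hf hg
        refine le_antisymm ?_ (h0 _)
        have h := ha f g
        rwa [show w f = 0 from hf, show w g = 0 from hg, max_self] at h
      smul_mem' := by
        intro c f hf
        show w (c * f) = 0
        rw [hm, show w f = 0 from hf, mul_zero] }
  have hP : P.IsPrime := by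
    refine ⟨fun h => ?_, fun {f g} h => ?_⟩
    · have h2 : (1 : Γ(X, U)) ∈ P := by
        rw [h]
        trivial
      have h3 : w 1 = 0 := h2
      rw [h1] at h3
      exact one_ne_zero h3
    · have h2 : w (f * g) = 0 := h
      rw [hm] at h2
      exact mul_eq_zero.1 h2
  obtain ⟨ξ, hξ, hker⟩ := GAff_pt hU P hP
  obtain ⟨v, hv1, hv2⟩ := GAff_abs (X.evaluation U ξ hξ).hom w h0 h1 hm ha hker
    (GAff_quot hU ξ hξ)
  let x : An s := ⟨ξ, ⟨v, hv1, fun a => by
    rw [← GAff_const U ξ hξ a, ← hk0 a]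
    exact hv2 _⟩⟩
  have hx : ∀ f : Γ(X, U), absA x hξ f = w f := hv2
  refine ⟨x, ⟨hξ, fun f => (hx f).trans_le (hwB f)⟩, ?_⟩
  have hT := (TopologicalSpace.tendsto_nhds_generateFrom_iff (α := An s) (β := An s)
    (f := (W : Filter (An s))) (m := id) (b := x) (g := {T | ∃ (U : X.Opens) (f : Γ(X, U)) (a b : ℝ),
      T = {x : An s | ∃ h : x.1 ∈ U, a < absA x h f ∧ absA x h f < b}})).2 ?_
  · exact hT
  rintro T ⟨V, f, a, b, rfl⟩ ⟨hxV, hfa, hfb⟩
  obtain ⟨g, hgV, hgx⟩ := hU.exists_basicOpen_le (V := V) ⟨ξ, hxV⟩ hξ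
  obtain ⟨c, k, hc⟩ := GAff_frac hU g (X.presheaf.map (homOfLE hgV).op f)
  have habs : ∀ (y : An s) (hy : y.1 ∈ X.basicOpen g),
      absA y (hgV hy) f * absA y (X.basicOpen_le g hy) g ^ k = absA y (X.basicOpen_le g hy) c := by
    intro y hy
    have h2 := congrArg y.2.v (hc y.1 hy)
    rw [map_mul, map_pow, GAff_res hgV] at h2
    exact h2
  have hgpos : 0 < w g := by
    rw [← hx g]
    have h2 : X.evaluation U ξ hξ g ≠ 0 := (X.evaluation_ne_zero_iff_mem_basicOpen ξ hξ g).2 hgx
    exact x.2.v.pos h2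
  have hlimf : Tendsto (fun y : An s => GAff_F c y / GAff_F g y ^ k) (W : Filter (An s))
      (𝓝 (absA x hxV f)) := by
    have h2 : absA x hxV f = w c / w g ^ k := by
      rw [eq_div_iff (pow_pos hgpos k).ne', ← hx g, ← hx c]
      exact habs x hgx
    rw [h2]
    exact (hw c).div ((hw g).pow k) (pow_pos hgpos k).ne'
  have hgae : ∀ᶠ y in (W : Filter (An s)), 0 < GAff_F g y := (hw g).eventually (lt_mem_nhds hgpos)
  filter_upwards [hae, hgae, hlimf.eventually (lt_mem_nhds hfa), hlimf.eventually (gt_mem_nhds hfb)]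
    with y hy1 hy2 hy3 hy4
  rw [GAff_F_of g y hy1] at hy2
  have hyg : y.1 ∈ X.basicOpen g := by
    rw [← X.evaluation_ne_zero_iff_mem_basicOpen y.1 hy1 g]
    intro h
    rw [absA, h, map_zero] at hy2
    exact lt_irrefl _ hy2
  have hyf : absA y (hgV hyg) f = GAff_F c y / GAff_F g y ^ k := by
    rw [GAff_F_of g y hy1, GAff_F_of c y hy1, eq_div_iff (pow_pos hy2 k).ne']
    exact habs y hyg
  exact ⟨hgV hyg, hy3.trans_eq hyf.symm, hyf.trans_lt hy4⟩

end TDC
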