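import Pool.Agent.TDC.StF
import Pool.Agent.TDC.St4

/-!
# TDC, toric side, group G: toric varieties and their analytifications (statements, proofs in the
docstrings)

`X` integral, `τ : Toric Δ s`, `η` the generic point, `κ(η)` its residue field (= the function
field), `T : X^an → N_ℝ(Σ)` the tropicalization map.
-/

namespace TDC

open scoped Topology
open MeasureTheory AlgebraicGeometry CategoryTheory

/-- `t_1, …, t_n ∈ κ(η)ˣ` are the coordinates of the torus: `χ^m(η) = ∏ t_k^{m_k}` for all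
characters on all `U_σ`. -/
def IsCoord {n : ℕ} {Δ : Fan n} {K : Type} [NormedField K] {X : Scheme.{0}} [IrreducibleSpace X]
    {s : X ⟶ Spec (.of K)} (τ : Toric Δ s) (t : Fin n → (X.residueField (genericPoint X))ˣ) :
    Prop :=
  ∀ (i : Δ.ι) (h : genericPoint X ∈ τ.U i) (m : Δ.dual i),
    X.evaluation (τ.U i) (genericPoint X) h (τ.χ i (Multiplicative.ofAdd m)) =
      ((∏ k, t k ^ (m : Fin n → ℤ) k : (X.residueField (genericPoint X))ˣ) :
        X.residueField (genericPoint X))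

/-- **GAff**. Affinoid sets are compact: `U` an affine open, `A = Γ(X,U)`, `B : A → ℝ` arbitrary.
Proof. Let `𝒰` be an ultrafilter on the set. For `f ∈ A` the numbers `|f(x)| ∈ [0, B f]`
converge along `𝒰` to `w f`. `w` is multiplicative, `w(f+g) ≤ max(w f, w g)`, `w 1 = 1`,
`w(kΓ s U a) = ‖a‖`. So `𝔭 = {w = 0}` is a prime ideal of `A`; `U` is affine, so there is a point
`ξ ∈ U` with `f(ξ) = 0 ↔ f ∈ 𝔭` (`IsAffineOpen.fromSpec`, `isoSpec`), and every element of
`κ(ξ)` is a quotient `a(ξ)/b(ξ)` (`κ(ξ)` = residue field of `Spec A` at `𝔭` = fraction field of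
`A/𝔭`; every germ at `ξ` is a quotient of elements of `A`,
`IsAffineOpen.isLocalization_stalk`). `v(a(ξ)/b(ξ)) = w a/w b` is a well defined absolute value on
`κ(ξ)`, ultrametric, extending the one of `K`. `x = (ξ, v)` is in the set, `|f(x)| = w f`.
`𝒰 → x`: let `x` be in a subbasic open set `{y ∈ U'^an | a < |f(y)| < b}`, `f ∈ Γ(X,U')`. There is
`g ∈ A` with `ξ ∈ X.basicOpen g ⊆ U'` (`IsAffineOpen.exists_basicOpen_le`), and on `X.basicOpen g`
`f = c/g^k` with `c ∈ A` (`IsAffineOpen.isLocalization_basicOpen`). `w g = |g(x)| > 0`, so for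
`𝒰`-almost all `y`: `|g(y)| > 0`, so `y ∈ (X.basicOpen g)^an ⊆ U'^an` and
`|f(y)| = |c(y)|/|g(y)|^k → w c/(w g)^k = |f(x)|`. -/
def St_GAff : Prop :=
  ∀ (K : Type) [NormedField K] (X : Scheme.{0}) (s : X ⟶ Spec (.of K)) (U : X.Opens),
    IsAffineOpen U → ∀ B : Γ(X, U) → ℝ,
      IsCompact {x : An s | ∃ h : x.1 ∈ U, ∀ f : Γ(X, U), absA x h f ≤ B f}

/-- **GCor** (uses `FZero`, `FFace`). Coordinates of a toric variety.
Proof. `Γ(X, U_i) ≠ 0` (basis: `1 = χ^0 ≠ 0`), so `U_i` is not empty and contains `η`. Let `i₀` be the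
zero cone, `dual i₀ = ⊤ = perp i₀`; `t_k` = value at `η` of the unit `τ.un i₀ (e_k)`. For `i₀`
`IsCoord` holds as `χ i₀` is multiplicative (`m = ∑ m_k e_k`); for general `i` restrict from
`U_i` to `U_{i₀}` (`τ.res`, evaluation commutes with restriction). `RatN`: `Γ(X, U_{i₀})` injects
in the function field (`X` integral) and in `κ(η)` (the stalk at `η` is a field), its
basis over `K` is `t^m`, `m ∈ ℤ^n`: algebraic independence; every element of `κ(η)` is a
quotient of two elements of `Γ(X, U_{i₀})` (`functionField_isFractionRing_of_isAffineOpen`), so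
`adjoin K (range t) = ⊤`. -/
def St_GCor : Prop :=
  ∀ (n : ℕ) (Δ : Fan n) (K : Type) [NormedField K] (X : Scheme.{0}) [IsIntegral X]
    (s : X ⟶ Spec (.of K)) (τ : Toric Δ s),
    (∀ i, genericPoint X ∈ τ.U i) ∧
    ∃ t : Fin n → (X.residueField (genericPoint X))ˣ, IsCoord τ t ∧
      @RatN K (X.residueField (genericPoint X)) _ _ (kmap s (genericPoint X)).toAlgebra n t

/-- **GTro** (uses `FFace`, `FVal`). The tropicalization map.
(1) Existence. Let `ξ = x.1`; among the `i` with `ξ ∈ U_i` choose one with `cone i` minimal for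
inclusion (`Δ.ι` is finite). If `m ∈ dual i` and `χ^m(ξ) ≠ 0` let `cone j = faceOf (gens i) m`;
`ξ ∈ basicOpen (χ i m) = U_j` (`τ.basic`), `cone j ⊆ cone i`, so `cone j = cone i`, `j = i`, and
`m ∈ perp i` (`FFace`); conversely `χ^m` is a unit for `m ∈ perp i`. `φ(m) = log|χ^m(x)|`.
(2) Membership. `ξ ∈ U_j`, `i = (T x).i`: let `cone k = cone i ∩ cone j = faceOf (gens i) m₀` (fan
axiom): `ξ ∈ U_i ⊓ U_j = U_k = basicOpen (χ i m₀)`, so `|χ^{m₀}(x)| ≠ 0`, `(T x).val m₀ ≠ 0`,
`m₀ ∈ perp i` and `cone k = cone i`. Conversely `τ.le`. (3) Values: restrict `χ j m` to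
`U_i` (`τ.res`). (4) Uniqueness by (2), (3) and `FVal` (2). (5) Continuity: the preimage of
`{y | cone y.i ⊆ cone j, a < val y m < b}` is `{x ∈ U_j^an | a < |χ^m(x)| < b}`. -/
def St_GTro : Prop :=
  ∀ (n : ℕ) (Δ : Fan n) (K : Type) [NormedField K] (X : Scheme.{0})
    (s : X ⟶ Spec (.of K)) (τ : Toric Δ s),
    (∃ T, IsTropMap τ T) ∧ (∀ T T', IsTropMap τ T → IsTropMap τ T' → T = T') ∧
    ∀ T, IsTropMap τ T → Continuous T ∧
      (∀ (x : An s) (j : Δ.ι), x.1 ∈ τ.U j ↔ Δ.cone (T x).i ⊆ Δ.cone j) ∧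
      ∀ (x : An s) (j : Δ.ι) (h : x.1 ∈ τ.U j) (m : Δ.dual j),
        absA x h (τ.χ j (Multiplicative.ofAdd m)) = (T x).val m

/-- **GPul** (uses `GTro`, `FFace`, `FVal`). `trop^*` maps forms to forms and commutes with `d''`.
Proof. `x`, `y = T x`, `i = y.i`, chart `(F, α)` of `ω` at `y`, `F l ∈ perp i`. Take `U = U_i` and the
units `τ.un i (F l)`. Near `x` (continuity of `T`): `cone (T x').i ⊆ cone i`, `x'.1 ∈ U_i`, and
`ω (T x') = pullT (T x') F α`; and `pullT (T x') F α (tanT δ) (tanT ε) = pullA x' h (un F) α δ ε`: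
`evm (tanT τ x' _ δ) (F l) = δ(χ^{F l}(x'))` (the unit `un i' (F l)`, `i' = (T x').i`, is the
restriction of `un i (F l)` to `U_{i'}`, `τ.res`), `evm (T x').φ (F l) = log|χ^{F l}(x')|`
(`FVal`, `IsTropMap.val`). The same for `α.dd`. -/
def St_GPul : Prop :=
  ∀ (n : ℕ) (Δ : Fan n) (K : Type) [NormedField K] (X : Scheme.{0})
    (s : X ⟶ Spec (.of K)) (τ : Toric Δ s) (T : An s → NR Δ) (hT : IsTropMap τ T) (p q : ℕ),
    (∀ ω : FamT Δ p q, IsFormT ω → IsFormA (tropPull τ T hT p q ω)) ∧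
    ∀ (η : FamT Δ p q) (ω : FamT Δ p (q + 1)), IsDbarT η ω →
      IsDbarA (tropPull τ T hT p q η) (tropPull τ T hT p (q + 1) ω)

/-- **GStd** (uses `FZero`, `FJ`, `GTro`, `GCor`). `trop^*` at the generic points, for forms of type
`(n,q)`: `T (gen v) = jT (log|t(v)|)` (the smallest cone for `η` is `{0}`; values
`|χ^{e_k}| = |t_k|`), `crd (tanT δ) = ev t δ`. For the last clause:
`(b • dx id)(ε) = b det(ε)`. -/
def St_GStd : Prop :=
  ∀ (n : ℕ) (Δ : Fan n) (i₀ : Δ.ι) (K : Type) [NormedField K] (X : Scheme.{0}) [IsIntegral X]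
    (s : X ⟶ Spec (.of K)) (τ : Toric Δ s) (T : An s → NR Δ) (hT : IsTropMap τ T)
    (t : Fin n → (X.residueField (genericPoint X))ˣ), Δ.cone i₀ = {0} → IsCoord τ t →
    (∀ v : Pt (kmap s (genericPoint X)), T (gen s v) = jT Δ i₀ (logv v t)) ∧
    (∀ (q : ℕ) (γ : (Fin n → ℝ) → (Fin n → ℝ) [⋀^Fin q]→L[ℝ] ℝ)
      (v : Pt (kmap s (genericPoint X))),
      tropPull τ T hT n q (extT Δ γ) (gen s v) = fun δ ε =>
        (Matrix.of fun k l => ev t (δ k) l).det * γ (logv v t) (fun k => ev t (ε k))) ∧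
    ∀ (b : (Fin n → ℝ) → ℝ) (v : Pt (kmap s (genericPoint X))),
      tropPull τ T hT n n (extT Δ (fun u => b u • dx id)) (gen s v) =
        std (kmap s (genericPoint X)) t b v

/-- **GSup** (uses `GAff`, `GTro`, `GCor`, `GStd`, `FGord`, `FZero`, `TowR`, `DnA`). The supports of
forms of type `(n,q)` on `X^an` are `Fine`, and compact over compact sets.
Proof. For `i`, `c` the set `E = {x ∈ U_i^an | |χ^m(x)| ≤ exp(c m) for all m ∈ dual i}` is
contained in the set of `GAff` for `U_i` with `B f = ∑_m ‖a_m‖ exp(c m)`, `f = ∑ a_m χ^m`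
(`τ.basis`), and conversely closed in it (finitely or infinitely many closed conditions
`|χ^m(x)| ≤ …`; simply use the set of `GAff` itself instead of `E`). By `DnA` there is a
compact `C' ⊆ Pt` containing all `v` with `gen v ∈ E`, `ω (gen v) ≠ 0`. Let
`S₀ = {log|t(v)| : ω (gen v) ≠ 0}`, `S` its closure. `log|t(v)| ∈ {m·u ≤ c m}` means
`|χ^m(gen v)| ≤ exp(c m)`. So `S₀ ∩ {m·u ≤ c m}` is contained in the image of `C'` under
the continuous map `logv · t`, bounded. For `S`: let `G` be a finite generating set of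
`dual i`; a point of `S` with `m·u ≤ c m` is a limit of points of `S₀` with `g·u ≤ c g + 1` for
`g ∈ G`, hence `m·u ≤ c'(m)` for all `m ∈ dual i`. (2) For `C` compact take `i = i₀`,
`c m = sup_C m·u`, and `C'' = C' ∩ {logv v t ∈ C}` (closed in `C'`). -/
def St_GSup : Prop :=
  ∀ (n : ℕ) (Δ : Fan n) (K : Type) [NormedField K] (X : Scheme.{0}) [IsIntegral X]
    (s : X ⟶ Spec (.of K)) (τ : Toric Δ s)
    (t : Fin n → (X.residueField (genericPoint X))ˣ), IsCoord τ t →
    ∀ (q : ℕ) (ω : FamA s n q), IsFormA ω →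
      (∃ S, Fine Δ S ∧ ∀ v : Pt (kmap s (genericPoint X)), ω (gen s v) ≠ 0 → logv v t ∈ S) ∧
      ∀ C : Set (Fin n → ℝ), IsCompact C → ∃ C' : Set (Pt (kmap s (genericPoint X))),
        IsCompact C' ∧ (∀ v ∈ C', logv v t ∈ C) ∧
          ∀ v, logv v t ∈ C → v ∉ C' → ω (gen s v) = 0

/-- **GMul**. The product of a form with a smooth function of `log|t|` is a form: chart
`(Fin.append t F, α')` with `α'_I(u) = ψ(u∘castAdd) • (α extended to ℝ^{n+R})_I(u)`. -/
def St_GMul : Prop :=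
  ∀ (K M : Type) [NormedField K] [Field M] (φ : K →+* M) (n p q : ℕ) (t : Fin n → Mˣ)
    (ψ : (Fin n → ℝ) → ℝ) (ω : Fam φ p q), ContDiff ℝ (⊤ : ℕ∞) ψ → IsForm ω →
    IsForm (fun x => ψ (logv x t) • ω x : Fam φ p q)

/-- **GDec** (uses `GSup`, `GMul`, `GStd`, `GPul`, `GTro`, `GCor`, `FPar`, `FRep`, `FGord`, `FZero`,
`FldA`, `StdF`, `UpA`, `DnA`, `ExtE`, `CombA`, `TowR`). Decomposition of arbitrary forms.
Proof. `t` from `GCor`, `S` from `GSup`, `ψ`, `V` from `FPar`. `ω_k(v) = ψ_k(log|t(v)|) ω(gen v)` is a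
form (`DnA`, `GMul`) with compact support `C_k ⊆ {log|t| ∈ tsupport ψ_k}` (`GSup`(2) with
`C = tsupport (ψ k)`). `FldA` with `V_k`: `b_k` with `SC b_k V_k`, `η_k` of compact support, zero where
`log|t| ∉ V_k`, `IsDbar η_k (ω_k - std t b_k)`. Extend by zero to `X^an` (`ExtE`, `UpA`):
`η̃_k`, `IsDbarA η̃_k (ω̃_k - σ̃_k)`. Let `b = ∑ b_k`, `η = ∑ η̃_k` (`finsum`, finite at every
point). For `i` and real numbers `c_g`, `g` in a finite generating set `G` of `dual i`, only
finitely many `V_k` meet `{g·u ≤ c_g}` (`FPar`; `g·u ≤ c_g` on `G` gives `m·u ≤ c m` for all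
`m`). So `b` is smooth (near a point use `i₀`, where `dual i₀ = ℤ^n`), and `tsupport b` is `Fine`
(its intersection with `{m·u ≤ c m}` is contained in the closure of the union of the
finitely many bounded `V_k` which meet `{g·u ≤ c_g + 1}`). At `x ∈ X^an` let `y = T x`, `i = y.i`, and
`c_g` with `y.val g < exp c_g`: for all `x'` in the neighbourhood
`N = {x' | T x' ∈ N_ℝ(σ_i), (T x').val g < exp c_g}` of `x` and all `k` outside a finite set `k ∈ 𝒦`,
`ω̃_k`, `η̃_k`, `σ̃_k` vanish at `x'` (at non-generic points everything is zero; at `gen v`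
because `log|t(v)| ∉ V_k`). So on `N`: `η = ∑_{𝒦} η̃_k`,
`ω - trop^*(b dx) = ∑_{𝒦} (ω̃_k - σ̃_k)` (`∑ ψ_k = 1` on `S`; both sides vanish at
non-generic points: `DnA` applied to the form `trop^*(extT (b dx))`, `GPul`, `FRep`, and `GStd`);
a chart at `x` for the finite sum (`CombA`) is a chart for `(η, ω - trop^*(b dx))`. -/
def St_GDec : Prop :=
  ∀ (m : ℕ) (Δ : Fan (m + 1)) (K : Type) [NontriviallyNormedField K] (X : Scheme.{0})
    [IsIntegral X] (s : X ⟶ Spec (.of K)) (τ : Toric Δ s) (T : An s → NR Δ)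
    (hT : IsTropMap τ T), (Set.range fun a : K => ‖a‖).Countable →
    ∀ ω : FamA s (m + 1) (m + 1), IsFormA ω →
      ∃ (b : (Fin (m + 1) → ℝ) → ℝ) (η : FamA s (m + 1) m), ContDiff ℝ (⊤ : ℕ∞) b ∧
        Fine Δ (tsupport b) ∧ IsFormA η ∧
        IsDbarA η (ω - tropPull τ T hT (m + 1) (m + 1) (extT Δ (fun u => b u • dx id)))

/-- **GCpl** (uses `GSup`, `GCor`, `FLev`, `TowR`, `DnA`, `EmbA`). `Δ` complete: forms of type `(n,q)`
on `X^an` have compact support: `S` of `GSup` is bounded (`FLev`: `h ≤ 0`), so compact; `GSup` (2)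
with `C = S` gives `C'`; the image of `C'` under `gen` is compact (`EmbA`: continuous) and `ω`
vanishes off it (non-generic points: `DnA`). -/
def St_GCpl : Prop :=
  ∀ (n : ℕ) (Δ : Fan n) (K : Type) [NormedField K] (X : Scheme.{0}) [IsIntegral X]
    (s : X ⟶ Spec (.of K)) (_ : Toric Δ s), Δ.Complete →
    ∀ (q : ℕ) (ω : FamA s n q), IsFormA ω → CSuppA ω

/-- **GCmp** (uses `ThmC`, `GStd`, `GPul`, `GCor`, `FTop`, `DnA`, `TowR`, `UpA`, `StdF`, `FCS`, `FRep`,
`FReD`, `FZero`, `EmbA`). Compact supports. (1) `trop^*` of a compactly supported form of type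
`(n,q)` has compact support: `extT γ`, `γ` with compact support (`FRep`, `FCS`); over the generic
point it is `pull t` of a properly supported superform (`CSu`; or: it vanishes unless
`log|t| ∈ tsupport γ`, and use `GSup` (2)), and it vanishes at the non-generic points (`DnA`); the
image under `gen` of a compact set is compact. (2) From `ThmC`: the form `ω₀` there is
`trop^*(extT (b dx))` (both vanish at non-generic points and agree at the others). -/
def St_GCmp : Prop :=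
  ∀ (m : ℕ) (Δ : Fan (m + 1)) (K : Type) [NontriviallyNormedField K] (X : Scheme.{0})
    [IsIntegral X] (s : X ⟶ Spec (.of K)) (τ : Toric Δ s) (T : An s → NR Δ)
    (hT : IsTropMap τ T),
    (∀ (q : ℕ) (ω : FamT Δ (m + 1) q), IsFormT ω → CSuppT ω →
      CSuppA (tropPull τ T hT (m + 1) q ω)) ∧
    ((Set.range fun a : K => ‖a‖).Countable →
      ∀ ω : FamA s (m + 1) (m + 1), IsFormA ω → CSuppA ω →
        ∃ (b : (Fin (m + 1) → ℝ) → ℝ) (η : FamA s (m + 1) m), ContDiff ℝ (⊤ : ℕ∞) b ∧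
          HasCompactSupport b ∧ IsFormA η ∧ CSuppA η ∧
          IsDbarA η (ω - tropPull τ T hT (m + 1) (m + 1) (extT Δ (fun u => b u • dx id))))

end TDC
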