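import Pool.Agent.TDC.St
import Pool.Agent.TDC.St2
import Pool.Agent.TDC.St3
import Pool.Agent.TDC.StG

/-!
# TDC: compact supports on the toric side
-/

namespace TDC

open scoped Topology
open MeasureTheory AlgebraicGeometry CategoryTheory

/-- the superform with the single coefficient `γ` at `I = id` -/
private noncomputable def GCmp_sf {n q : ℕ} (γ : (Fin n → ℝ) → (Fin n → ℝ) [⋀^Fin q]→L[ℝ] ℝ) :
    SF n n q := by
  classical
  exact fun I => if I = id then γ else fun _ => 0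

private lemma GCmp_pc {n q : ℕ} {γ : (Fin n → ℝ) → (Fin n → ℝ) [⋀^Fin q]→L[ℝ] ℝ}
    (h1 : ContDiff ℝ (⊤ : ℕ∞) γ) (h2 : HasCompactSupport γ) : (GCmp_sf γ).PC := by
  classical
  intro I
  unfold GCmp_sf
  by_cases hI : I = id
  · subst hI
    rw [if_pos rfl]
    refine ⟨h1, tsupport γ, h2, fun t ht => ?_⟩
    exact image_eq_zero_of_notMem_tsupport ht
  · rw [if_neg hI]
    exact ⟨contDiff_const, ∅, isCompact_empty, fun _ _ => rfl⟩

private lemma GCmp_pull {K M : Type} [NormedField K] [Field M] {φ : K →+* M} {n q : ℕ}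
    (γ : (Fin n → ℝ) → (Fin n → ℝ) [⋀^Fin q]→L[ℝ] ℝ) (v : Pt φ) (t : Fin n → Mˣ) :
    (pull t (GCmp_sf γ) : Fam φ n q) v = fun δ ε =>
      (Matrix.of fun k l => ev t (δ k) l).det * γ (logv v t) (fun k => ev t (ε k)) := by
  classical
  funext δ ε
  show ∑ I : Fin n → Fin n, (Matrix.of fun i j => ev t (δ i) (I j)).det *
    GCmp_sf γ I (logv v t) (fun i => ev t (ε i)) = _
  rw [Finset.sum_eq_single id]
  · unfold GCmp_sf
    rw [if_pos rfl]
    rfl
  · intro I _ hI
    unfold GCmp_sf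
    rw [if_neg hI]
    simp
  · intro h
    exact absurd (Finset.mem_univ _) h

theorem thm_GCmp (hThmC : St_ThmC) (hGStd : St_GStd) (hGPul : St_GPul) (hGCor : St_GCor)
    (hFTop : St_FTop) (hDnA : St_DnA) (hTowR : St_TowR) (hUpA : St_UpA) (hStdF : St_StdF)
    (hCSu : St_CSu) (hFCS : St_FCS) (hFRep : St_FRep) (hFZero : St_FZero) : St_GCmp := by
  intro m Δ K _ X _ s τ T hT
  obtain ⟨i₀, hi₀⟩ := (hFZero (m + 1) Δ).1
  obtain ⟨-, t, htc, hrat⟩ := hGCor (m + 1) Δ K X s τ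
  have htr : @TrLe K (X.residueField (genericPoint X)) _ _
      (kmap s (genericPoint X)).toAlgebra (m + 1) :=
    (@hTowR.1 K (X.residueField (genericPoint X)) _ _
      (kmap s (genericPoint X)).toAlgebra (m + 1) t hrat).1
  obtain ⟨-, hG2, hG3⟩ := hGStd (m + 1) Δ i₀ K X s τ T hT t hi₀ htc
  constructor
  · intro q ω hω hωc
    obtain ⟨γ, hγ1, hγ2, rfl⟩ := (hFRep (m + 1) Δ q ω).1 hω
    have hγ3 : HasCompactSupport γ := (hFCS (m + 1) Δ q γ hγ2).1 hωc
    have hA := (hGPul (m + 1) Δ K X s τ T hT (m + 1) q).1 _ hω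
    obtain ⟨hr1, hr2, -, -, -⟩ := hDnA K X s (m + 1) q htr _ hA
    have hCSu2 := hCSu.2
    have hs : CSupp (pull t (GCmp_sf γ) : Fam (kmap s (genericPoint X)) (m + 1) q) :=
      @hCSu2 K (X.residueField (genericPoint X)) _ _ (kmap s (genericPoint X)).toAlgebra
        (m + 1) htr (m + 1) q t (GCmp_sf γ) (GCmp_pc hγ1 hγ3)
    have he : (fun v => tropPull τ T hT (m + 1) q (extT Δ γ) (gen s v) :
        Fam (kmap s (genericPoint X)) (m + 1) q) = pull t (GCmp_sf γ) := by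
      funext v
      exact (hG2 q γ v).trans (GCmp_pull γ v t).symm
    rw [← he] at hs
    exact ((hUpA K X s (m + 1) htr).1 q _ _ hr2 hr1 hs).2.1
  · intro hcount ω hω hωc
    obtain ⟨b, ω₀, η, hb1, hb2, ht0, -, -, hη1, hη2, hη3⟩ :=
      hThmC K X s m t hcount hrat ω hω hωc
    refine ⟨b, η, hb1, hb2, hη1, hη2, ?_⟩
    have hF := ((hFTop m Δ).2.2.2.2 b hb1 hb2).1
    have hA := (hGPul (m + 1) Δ K X s τ T hT (m + 1) (m + 1)).1 _ hF
    obtain ⟨-, hr2, -, -, -⟩ := hDnA K X s (m + 1) (m + 1) htr _ hA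
    have he : (pull t (top b) : Fam (kmap s (genericPoint X)) (m + 1) (m + 1)) =
        std (kmap s (genericPoint X)) t b :=
      (@hStdF K (X.residueField (genericPoint X)) _ _
        (kmap s (genericPoint X)).toAlgebra (m + 1) t b htr hb1 hb2).1
    have hω₀ : ω₀ = tropPull τ T hT (m + 1) (m + 1) (extT Δ (fun u => b u • dx id)) := by
      funext x
      obtain ⟨ξ, v⟩ := x
      by_cases h : ξ = genericPoint X
      · subst h
        have e1 := ht0.1 v
        have e2 := hG3 b v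
        rw [e1]
        refine Eq.trans ?_ e2.symm
        rw [← he]
        rfl
      · rw [ht0.2 ⟨ξ, v⟩ h, hr2.2 ⟨ξ, v⟩ h]
    rw [← hω₀]
    exact hη3

end TDC
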