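import Pool.Agent.TDC.StG

set_option autoImplicit false

/-! **GCor.** Coordinates of a toric variety at the generic point (uses `St_FZero`). -/

namespace TDC

open scoped Topology
open AlgebraicGeometry CategoryTheory

private theorem GCor_res {X : Scheme.{0}} {U V : X.Opens} (h : V ≤ U) (x : X) (hU : x ∈ U)
    (hV : x ∈ V) (f : Γ(X, U)) :
    X.evaluation V x hV ((X.presheaf.map (homOfLE h).op).hom f) = X.evaluation U x hU f := by
  have h1 : X.presheaf.map (homOfLE h).op ≫ X.evaluation V x hV = X.evaluation U x hU := by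
    unfold Scheme.evaluation
    rw [← Category.assoc, X.presheaf.germ_res]
  rw [← h1]
  rfl

private theorem GCor_k {K : Type} [NormedField K] {X : Scheme.{0}} (s : X ⟶ Spec (.of K))
    (U : X.Opens) (x : X) (h : x ∈ U) (a : K) :
    X.evaluation U x h (kΓ s U a) = kmap s x a :=
  GCor_res (le_top : U ≤ ⊤) x trivial h _

private theorem GCor_gen {X : Scheme.{0}} [IsIntegral X] (U : X.Opens) (h : U ≠ ⊥) :
    genericPoint X ∈ U := by
  have h2 : (U : Set X).Nonempty := by
    rw [Set.nonempty_iff_ne_empty]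
    intro h3
    apply h
    ext x
    constructor
    · intro hx
      rw [h3] at hx
      exact absurd hx (Set.notMem_empty _)
    · intro hx
      exact absurd hx (Set.notMem_empty _)
  refine ((genericPoint_spec X).mem_open_set_iff U.isOpen).2 ?_
  obtain ⟨x, hx⟩ := h2
  exact ⟨x, by simp, hx⟩

private theorem GCor_inj {X : Scheme.{0}} [IsIntegral X] (U : X.Opens) (h : genericPoint X ∈ U)
    (f : Γ(X, U)) (hf : X.evaluation U (genericPoint X) h f = 0) : f = 0 := by
  rw [Scheme.evaluation_eq_zero_iff_notMem_basicOpen] at hf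
  by_contra h1
  apply hf
  apply GCor_gen
  intro h2
  exact h1 ((basicOpen_eq_bot_iff f).1 h2)

private theorem GCor_mem {K : Type} [NormedField K] {X : Scheme.{0}} [IsIntegral X] {n : ℕ}
    {Δ : Fan n} {s : X ⟶ Spec (.of K)} (τ : Toric Δ s) (i : Δ.ι) :
    genericPoint X ∈ τ.U i := by
  apply GCor_gen
  intro h
  have h1 : Subsingleton Γ(X, τ.U i) := by
    rw [h]
    infer_instance
  have h2 := @(τ.basis i).1 (Finsupp.single 0 1) 0 (h1.elim _ _)
  rw [Finsupp.single_eq_zero] at h2
  exact one_ne_zero h2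

/-- the linear map of the basis -/
private noncomputable def GCor_B {K : Type} [NormedField K] {X : Scheme.{0}} {n : ℕ}
    {Δ : Fan n} {s : X ⟶ Spec (.of K)} (τ : Toric Δ s) (i : Δ.ι) :
    (Δ.dual i →₀ K) →+ Γ(X, τ.U i) :=
  Finsupp.liftAddHom fun m =>
    (AddMonoidHom.mulRight (τ.χ i (Multiplicative.ofAdd m))).comp (kΓ s (τ.U i)).toAddMonoidHom

private theorem GCor_B_apply {K : Type} [NormedField K] {X : Scheme.{0}} {n : ℕ}
    {Δ : Fan n} {s : X ⟶ Spec (.of K)} (τ : Toric Δ s) (i : Δ.ι) (f : Δ.dual i →₀ K) :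
    GCor_B τ i f = f.sum fun m a => kΓ s (τ.U i) a * τ.χ i (Multiplicative.ofAdd m) := rfl

private theorem GCor_B_single {K : Type} [NormedField K] {X : Scheme.{0}} {n : ℕ}
    {Δ : Fan n} {s : X ⟶ Spec (.of K)} (τ : Toric Δ s) (i : Δ.ι) (m : Δ.dual i) (a : K) :
    GCor_B τ i (Finsupp.single m a) = kΓ s (τ.U i) a * τ.χ i (Multiplicative.ofAdd m) := by
  unfold GCor_B
  rw [Finsupp.liftAddHom_apply_single]
  rfl

theorem thm_GCor (hZ : St_FZero) : St_GCor := by
  intro n Δ K _ X _ s τ
  have hη : ∀ i, genericPoint X ∈ τ.U i := GCor_mem τ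
  refine ⟨hη, ?_⟩
  obtain ⟨⟨i₀, hi₀⟩, hz, -, -⟩ := hZ n Δ
  obtain ⟨hdual, -, hcone⟩ := hz i₀ hi₀
  have hd : ∀ m : Fin n → ℤ, m ∈ Δ.dual i₀ := fun m => by rw [hdual]; exact AddSubmonoid.mem_top m
  -- values of the characters
  obtain ⟨em, hem⟩ : ∃ em : (Fin n → ℤ) → X.residueField (genericPoint X), ∀ m, em m =
      X.evaluation (τ.U i₀) (genericPoint X) (hη i₀)
        (τ.χ i₀ (Multiplicative.ofAdd ⟨m, hd m⟩)) := ⟨_, fun _ => rfl⟩
  have em_add : ∀ m m', em (m + m') = em m * em m' := by
    intro m m'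
    rw [hem, hem, hem, ← map_mul, ← map_mul]
    rfl
  have em_zero : em 0 = 1 := by
    rw [hem]
    have : (Multiplicative.ofAdd (⟨0, hd 0⟩ : Δ.dual i₀)) = 1 := rfl
    rw [this, map_one, map_one]
  have em_ne : ∀ m, em m ≠ 0 := by
    intro m h
    have h1 := em_add m (-m)
    rw [add_neg_cancel, em_zero, h, zero_mul] at h1
    exact one_ne_zero h1
  obtain ⟨t, ht⟩ : ∃ t : Fin n → (X.residueField (genericPoint X))ˣ,
      ∀ k, t k = Units.mk0 (em (Pi.single k 1)) (em_ne _) := ⟨_, fun _ => rfl⟩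
  have em_t : ∀ m : Fin n → ℤ, em m = ((∏ k, t k ^ m k : (X.residueField (genericPoint X))ˣ) :
        X.residueField (genericPoint X)) := by
    intro m
    obtain ⟨F, hF⟩ : ∃ F : (Fin n → ℤ) →+ Additive (X.residueField (genericPoint X))ˣ,
        ∀ m, F m = Additive.ofMul (Units.mk0 (em m) (em_ne m)) := by
      refine ⟨AddMonoidHom.mk' (fun m => Additive.ofMul (Units.mk0 (em m) (em_ne m))) ?_,
        fun _ => rfl⟩
      intro a b
      rw [← ofMul_mul]
      congr 1
      ext
      rw [Units.val_mul, Units.val_mk0, Units.val_mk0, Units.val_mk0, em_add]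
    have h1 : m = ∑ k, m k • (Pi.single k 1 : Fin n → ℤ) := by
      ext j
      rw [Finset.sum_apply, Finset.sum_eq_single j]
      · simp
      · intro b _ hb
        simp [hb.symm]
      · intro h
        exact absurd (Finset.mem_univ j) h
    have h2 : F m = ∑ k, m k • F (Pi.single k 1) := by
      conv_lhs => rw [h1]
      rw [map_sum]
      refine Finset.sum_congr rfl fun k _ => ?_
      rw [map_zsmul]
    have h3 : (Additive.toMul (F m) : (X.residueField (genericPoint X))ˣ) = ∏ k, t k ^ m k := by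
      rw [h2, toMul_sum]
      refine Finset.prod_congr rfl fun k _ => ?_
      rw [toMul_zsmul, hF, ht]
      rfl
    rw [← h3, hF]
    rfl
  refine ⟨t, ?_, ?_, ?_⟩
  · -- coordinates
    intro i h m
    rw [← em_t, hem]
    have h1 := τ.res i i₀ (hcone i) m ⟨m, hd m⟩ rfl
    rw [← h1, GCor_res (τ.le i i₀ (hcone i)) (genericPoint X) h (hη i₀)]
  · -- algebraic independence
    let _ := (kmap s (genericPoint X)).toAlgebra
    have hev : ∀ f : Δ.dual i₀ →₀ K, X.evaluation (τ.U i₀) (genericPoint X) (hη i₀)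
        (GCor_B τ i₀ f) = f.sum fun m a => kmap s (genericPoint X) a * em m := by
      intro f
      rw [GCor_B_apply, Finsupp.sum, Finsupp.sum, map_sum]
      refine Finset.sum_congr rfl fun m _ => ?_
      rw [map_mul, GCor_k, hem]
    rw [algebraicIndependent_iff]
    intro p hp
    rw [MvPolynomial.aeval_def, MvPolynomial.eval₂_eq'] at hp
    obtain ⟨ι, hι⟩ : ∃ ι : (Fin n →₀ ℕ) → Δ.dual i₀, ∀ a k, (ι a : Fin n → ℤ) k = (a k : ℤ) :=
      ⟨fun a => ⟨fun k => (a k : ℤ), hd _⟩, fun _ _ => rfl⟩
    have hιinj : Function.Injective ι := by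
      intro a b hab
      ext k
      have h1 := hι a k
      rw [hab, hι b k] at h1
      exact_mod_cast h1.symm
    have h1 : X.evaluation (τ.U i₀) (genericPoint X) (hη i₀)
        (GCor_B τ i₀ (∑ a ∈ p.support, Finsupp.single (ι a) (p.coeff a))) = 0 := by
      rw [map_sum, map_sum, ← hp]
      refine Finset.sum_congr rfl fun a _ => ?_
      rw [GCor_B_single, map_mul, GCor_k]
      have h2 := hem (ι a)
      have h3 : (⟨(ι a : Fin n → ℤ), hd _⟩ : Δ.dual i₀) = ι a := rfl
      rw [h3] at h2
      rw [← h2, em_t, Units.coe_prod]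
      congr 1
      refine Finset.prod_congr rfl fun k _ => ?_
      rw [hι, zpow_natCast, Units.val_pow_eq_pow_val]
    have h2 := GCor_inj _ _ _ h1
    have h3 : (∑ a ∈ p.support, Finsupp.single (ι a) (p.coeff a) : Δ.dual i₀ →₀ K) = 0 := by
      apply (τ.basis i₀).1
      have h4 : GCor_B τ i₀ (∑ a ∈ p.support, Finsupp.single (ι a) (p.coeff a)) =
        GCor_B τ i₀ 0 := by rw [h2, map_zero]
      exact h4
    ext a
    rw [MvPolynomial.coeff_zero]
    by_contra h4
    have h5 : a ∈ p.support := MvPolynomial.mem_support_iff.2 h4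
    have h6 := congrArg (fun f : Δ.dual i₀ →₀ K => f (ι a)) h3
    simp only [Finsupp.finsetSum_apply, Finsupp.coe_zero, Pi.zero_apply] at h6
    rw [Finset.sum_eq_single a] at h6
    · rw [Finsupp.single_eq_same] at h6
      exact h4 h6
    · intro b _ hb
      rw [Finsupp.single_apply, if_neg]
      intro h7
      exact hb (hιinj h7)
    · intro h7
      exact absurd h5 h7
  · -- generation
    let _ := (kmap s (genericPoint X)).toAlgebra
    have hev : ∀ a : Γ(X, τ.U i₀), X.evaluation (τ.U i₀) (genericPoint X) (hη i₀) a ∈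
        IntermediateField.adjoin K (Set.range fun i => ((t i : (X.residueField (genericPoint X))ˣ) :
          X.residueField (genericPoint X))) := by
      intro a
      obtain ⟨f, hf⟩ := (τ.basis i₀).2 a
      rw [← hf]
      simp only [Finsupp.sum]
      rw [map_sum]
      refine sum_mem fun m _ => ?_
      rw [map_mul, GCor_k]
      refine mul_mem ?_ ?_
      · exact IntermediateField.algebraMap_mem _ _
      · have h2 := hem m
        have h3 : (⟨(m : Fin n → ℤ), hd _⟩ : Δ.dual i₀) = m := rfl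
        rw [h3] at h2
        rw [← h2, em_t, Units.coe_prod]
        refine prod_mem fun k _ => ?_
        rw [Units.val_zpow_eq_zpow_val]
        refine zpow_mem (IntermediateField.subset_adjoin K _ (Set.mem_range_self k)) _
    rw [eq_top_iff]
    intro z _
    obtain ⟨y, hy⟩ := X.residue_surjective (genericPoint X) z
    have : Nonempty (τ.U i₀) := ⟨⟨genericPoint X, hη i₀⟩⟩
    have := functionField_isFractionRing_of_isAffineOpen X (τ.U i₀) (τ.aff i₀)
    obtain ⟨⟨a, b⟩, hab⟩ := IsLocalization.surj (nonZeroDivisors Γ(X, τ.U i₀))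
      (S := X.functionField) y
    have hb : (b : Γ(X, τ.U i₀)) ≠ 0 := nonZeroDivisors.ne_zero b.2
    have h1 : z * X.evaluation (τ.U i₀) (genericPoint X) (hη i₀) b =
        X.evaluation (τ.U i₀) (genericPoint X) (hη i₀) a := by
      have h2 := congrArg (X.residue (genericPoint X)) hab
      rw [map_mul, hy] at h2
      exact h2
    have h3 : X.evaluation (τ.U i₀) (genericPoint X) (hη i₀) b ≠ 0 := fun h =>
      hb (GCor_inj _ _ _ h)
    have h4 : z = X.evaluation (τ.U i₀) (genericPoint X) (hη i₀) a /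
        X.evaluation (τ.U i₀) (genericPoint X) (hη i₀) b := by
      rw [eq_div_iff h3, h1]
    rw [h4]
    exact div_mem (hev a) (hev b)

end TDC
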