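import Pool.Agent.TDC.StG
import Pool.Agent.TDC.St2

set_option autoImplicit false

/-!
# TDC, module GCpl (helper32): complete fan: all forms of type `(n,q)` have compact support
-/

namespace TDC

open scoped Topology
open MeasureTheory AlgebraicGeometry CategoryTheory

/-- **GCpl**. `Δ` complete: forms of type `(n,q)` on `X^an` have compact support. -/
theorem thm_GCpl (h1 : St_GSup) (h2 : St_GCor) (h3 : St_FLev) (h4 : St_TowR) (h5 : St_DnA)
    (h6 : St_EmbA) : St_GCpl := by
  intro n Δ K _ X _ s τ hC q ω hω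
  obtain ⟨-, t, ht, hrat⟩ := h2 n Δ K X s τ
  obtain ⟨⟨S, hS, hS2⟩, hS3⟩ := h1 n Δ K X s τ t ht q ω hω
  have htr : @TrLe K (X.residueField (genericPoint X)) _ _
      (kmap s (genericPoint X)).toAlgebra n :=
    (@h4.1 K (X.residueField (genericPoint X)) _ _
      (kmap s (genericPoint X)).toAlgebra n t hrat).1
  obtain ⟨-, hext, -⟩ := h5 K X s n q htr ω hω
  obtain ⟨h, Λ, -, -, -, -, hb, -, hc⟩ := h3 n Δ
  have hSb : Bornology.IsBounded S :=
    (hb S 0 hS.2).subset fun u hu => ⟨hu, hc hC u⟩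
  have hScomp : IsCompact S := Metric.isCompact_of_isClosed_isBounded hS.1 hSb
  obtain ⟨C', hC', -, hC'2⟩ := hS3 S hScomp
  refine ⟨gen s '' C', hC'.image (h6 K X s).1.continuous, ?_⟩
  intro x hx
  by_cases hg : x.1 = genericPoint X
  · obtain ⟨ξ, v⟩ := x
    change ξ = genericPoint X at hg
    subst hg
    by_contra hne
    have hv : v ∉ C' := fun h => hx ⟨v, h, rfl⟩
    exact hne (hC'2 v (hS2 v hne) hv)
  · exact hext.2 x hg

end TDC
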