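import Pool.Agent.TDC.St

/-!
# TDC, module GCpt: the set of Gauss points over a compact set is compact
-/

namespace TDC

open scoped Topology

private theorem GCpt_exp {K M : Type} [NormedField K] [Field M] {φ : K →+* M} {n : ℕ}
    (x : Pt φ) (g : Fin n → Mˣ) (i : Fin n) : x.v (g i) = Real.exp (logv x g i) := by
  unfold logv
  rw [Real.exp_log (x.v.pos (g i).ne_zero)]

/-- a Gauss point forces algebraic independence -/
private theorem GCpt_alg {K L : Type} [NormedField K] [Field L] [Algebra K L] {n : ℕ}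
    (x : Pt (algebraMap K L)) (g : Fin n → Lˣ) (hx : Gauss x g) :
    AlgebraicIndependent K (fun i => (g i : L)) := by
  rw [algebraicIndependent_iff]
  intro P hP
  by_contra hne
  obtain ⟨e, he⟩ := MvPolynomial.ne_zero_iff.mp hne
  have h := hx P e
  have h0 : P.eval₂ (algebraMap K L) (fun i => (g i : L)) = 0 := by
    rw [← hP, MvPolynomial.aeval_def]
  rw [h0, map_zero] at h
  have hpos : 0 < ‖P.coeff e‖ * ∏ i, x.v (g i) ^ e i :=
    mul_pos (norm_pos_iff.mpr he)
      (Finset.prod_pos fun i _ => pow_pos (x.v.pos (g i).ne_zero) _)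
  linarith

private theorem GCpt_up {K L : Type} [NormedField K] [Field L] [Algebra K L] {n : ℕ}
    (g : Fin n → Lˣ) (C : Set (Fin n → ℝ)) (hC : IsCompact C) (P : MvPolynomial (Fin n) K) :
    ∃ M : ℝ, 0 ≤ M ∧ ∀ x : Pt (algebraMap K L), logv x g ∈ C →
      x.v (MvPolynomial.aeval (fun i => (g i : L)) P) ≤ M := by
  have hcont : ContinuousOn (fun s : Fin n → ℝ =>
      ∑ e ∈ P.support, ‖P.coeff e‖ * ∏ i, Real.exp (s i) ^ e i) C := by
    apply Continuous.continuousOn
    fun_prop
  obtain ⟨M, hM⟩ := hC.exists_bound_of_continuousOn hcont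
  refine ⟨max M 0, le_max_right _ _, fun x hx => ?_⟩
  have h1 := hM _ hx
  have h2 : x.v (MvPolynomial.aeval (fun i => (g i : L)) P) ≤
      ∑ e ∈ P.support, ‖P.coeff e‖ * ∏ i, Real.exp (logv x g i) ^ e i := by
    rw [MvPolynomial.aeval_def, MvPolynomial.eval₂_eq']
    refine (AbsoluteValue.sum_le _ _ _).trans (Finset.sum_le_sum fun e _ => ?_)
    rw [map_mul, x.ext, map_prod]
    refine le_of_eq ?_
    congr 1
    refine Finset.prod_congr rfl fun i _ => ?_
    rw [map_pow, GCpt_exp]
  exact h2.trans ((le_abs_self _).trans (h1.trans (le_max_left _ _)))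

private theorem GCpt_lo {K L : Type} [NormedField K] [Field L] [Algebra K L] {n : ℕ}
    (g : Fin n → Lˣ) (C : Set (Fin n → ℝ)) (hC : IsCompact C) (P : MvPolynomial (Fin n) K)
    (hP : P ≠ 0) :
    ∃ c : ℝ, 0 < c ∧ ∀ x : Pt (algebraMap K L), Gauss x g → logv x g ∈ C →
      c ≤ x.v (MvPolynomial.aeval (fun i => (g i : L)) P) := by
  obtain ⟨e, he⟩ := MvPolynomial.ne_zero_iff.mp hP
  have hcont : ContinuousOn (fun s : Fin n → ℝ =>
      ‖P.coeff e‖ * ∏ i, Real.exp (s i) ^ e i) C := by
    apply Continuous.continuousOn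
    fun_prop
  obtain ⟨c, hc, hc'⟩ := hC.exists_forall_le' hcont (a := 0) (fun s _ =>
    mul_pos (norm_pos_iff.mpr he) (Finset.prod_pos fun i _ => pow_pos (Real.exp_pos _) _))
  refine ⟨c, hc, fun x hx hxC => ?_⟩
  refine (hc' _ hxC).trans ?_
  have h := hx P e
  rw [MvPolynomial.aeval_def]
  refine le_trans (le_of_eq ?_) h
  congr 1
  refine Finset.prod_congr rfl fun i _ => ?_
  rw [GCpt_exp]

private theorem GCpt_bound {K L : Type} [NormedField K] [Field L] [Algebra K L] {n : ℕ}
    (htr : TrLe K L n) (g : Fin n → Lˣ) (C : Set (Fin n → ℝ)) (hC : IsCompact C) (f : L) :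
    ∃ B : ℝ, ∀ x : Pt (algebraMap K L), Gauss x g → logv x g ∈ C → x.v f ≤ B := by
  by_cases hne : ∃ x : Pt (algebraMap K L), Gauss x g
  swap
  · exact ⟨0, fun x hx _ => (hne ⟨x, hx⟩).elim⟩
  obtain ⟨x0, hx0⟩ := hne
  have hind := GCpt_alg x0 g hx0
  have hnot : ¬ Transcendental (Algebra.adjoin K (Set.range fun i => (g i : L))) f := by
    intro hT
    have h1 := (hind.option_iff_transcendental f).mpr hT
    exact htr _ (h1.comp _ (finSuccEquiv n).injective)
  obtain ⟨p, hp0, hp⟩ := not_not.mp hnot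
  have hrep : ∀ a : Algebra.adjoin K (Set.range fun i => (g i : L)),
      ∃ P : MvPolynomial (Fin n) K, MvPolynomial.aeval (fun i => (g i : L)) P = (a : L) := by
    rintro ⟨a, ha⟩
    rw [Algebra.adjoin_range_eq_range_aeval] at ha
    exact ha
  have hup : ∀ a : Algebra.adjoin K (Set.range fun i => (g i : L)),
      ∃ M : ℝ, 0 ≤ M ∧ ∀ x : Pt (algebraMap K L), logv x g ∈ C → x.v (a : L) ≤ M := by
    intro a
    obtain ⟨P, hP⟩ := hrep a
    rw [← hP]
    exact GCpt_up g C hC P
  choose M hM0 hM using hup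
  have hlo : ∃ c : ℝ, 0 < c ∧ ∀ x : Pt (algebraMap K L), Gauss x g → logv x g ∈ C →
      c ≤ x.v (p.leadingCoeff : L) := by
    obtain ⟨P, hP⟩ := hrep p.leadingCoeff
    rw [← hP]
    refine GCpt_lo g C hC P ?_
    rintro rfl
    rw [map_zero] at hP
    exact hp0 (Polynomial.leadingCoeff_eq_zero.mp (Subtype.ext hP.symm))
  obtain ⟨c, hc, hlo⟩ := hlo
  refine ⟨max 1 ((∑ k ∈ Finset.range p.natDegree, M (p.coeff k)) / c), fun x hx hxC => ?_⟩
  rcases le_or_gt (x.v f) 1 with h1 | h1
  · exact h1.trans (le_max_left _ _)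
  refine le_trans ?_ (le_max_right _ _)
  rw [le_div_iff₀ hc]
  have hsum : (p.leadingCoeff : L) * f ^ p.natDegree =
      - ∑ k ∈ Finset.range p.natDegree, (p.coeff k : L) * f ^ k := by
    have h := hp
    rw [Polynomial.aeval_eq_sum_range, Finset.sum_range_succ] at h
    rw [eq_neg_iff_add_eq_zero, add_comm]
    exact h
  have hle : c * x.v f ^ p.natDegree ≤
      ∑ k ∈ Finset.range p.natDegree, M (p.coeff k) * x.v f ^ k := by
    calc c * x.v f ^ p.natDegree ≤ x.v (p.leadingCoeff : L) * x.v f ^ p.natDegree :=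
          mul_le_mul_of_nonneg_right (hlo x hx hxC) (pow_nonneg (x.v.nonneg _) _)
      _ = x.v (∑ k ∈ Finset.range p.natDegree, (p.coeff k : L) * f ^ k) := by
          rw [← map_pow, ← map_mul, hsum, AbsoluteValue.map_neg]
      _ ≤ ∑ k ∈ Finset.range p.natDegree, x.v ((p.coeff k : L) * f ^ k) :=
          AbsoluteValue.sum_le _ _ _
      _ ≤ _ := by
          refine Finset.sum_le_sum fun k _ => ?_
          rw [map_mul, map_pow]
          exact mul_le_mul_of_nonneg_right (hM _ x hxC) (pow_nonneg (x.v.nonneg _) _)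
  cases hd : p.natDegree with
  | zero =>
    rw [hd] at hle
    simp at hle
    linarith
  | succ m =>
    rw [hd] at hle
    have hpos : 0 < x.v f ^ m := pow_pos (by linarith) _
    have h3 : ∑ k ∈ Finset.range (m + 1), M (p.coeff k) * x.v f ^ k ≤
        (∑ k ∈ Finset.range (m + 1), M (p.coeff k)) * x.v f ^ m := by
      rw [Finset.sum_mul]
      refine Finset.sum_le_sum fun k hk => ?_
      refine mul_le_mul_of_nonneg_left ?_ (hM0 _)
      exact pow_le_pow_right₀ h1.le (by rw [Finset.mem_range] at hk; omega)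
    have h4 : (x.v f * c) * x.v f ^ m ≤
        (∑ k ∈ Finset.range (m + 1), M (p.coeff k)) * x.v f ^ m := by
      refine le_trans (le_of_eq ?_) (hle.trans h3)
      ring
    exact le_of_mul_le_mul_right h4 hpos

/-- **GCpt**. The set of Gauss points over a compact set is compact. -/
theorem thm_GCpt : St_GCpt := by
  intro K L _ _ _ n htr g C hC
  choose B hB using fun f : L => GCpt_bound htr g C hC f
  have hind : Topology.IsInducing (fun (x : Pt (algebraMap K L)) (f : L) => x.v f) := ⟨rfl⟩
  rw [hind.isCompact_iff]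
  have hcpt : IsCompact (Set.pi Set.univ fun f : L => Set.Icc (0 : ℝ) (B f)) :=
    isCompact_univ_pi fun f => isCompact_Icc
  have hexp : IsCompact ((fun (s : Fin n → ℝ) (i : Fin n) => Real.exp (s i)) '' C) :=
    hC.image (by fun_prop)
  have hset : (fun (x : Pt (algebraMap K L)) (f : L) => x.v f) ''
      {x : Pt (algebraMap K L) | Gauss x g ∧ logv x g ∈ C} =
      (Set.pi Set.univ fun f : L => Set.Icc (0 : ℝ) (B f)) ∩
      ({w : L → ℝ | ∀ a b : L, w (a * b) = w a * w b} ∩
      ({w : L → ℝ | ∀ a b : L, w (a + b) ≤ max (w a) (w b)} ∩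
      ({w : L → ℝ | ∀ a : K, w (algebraMap K L a) = ‖a‖} ∩
      ({w : L → ℝ | ∀ (P : MvPolynomial (Fin n) K) (e : Fin n →₀ ℕ),
        ‖P.coeff e‖ * ∏ i, w (g i) ^ e i ≤
          w (P.eval₂ (algebraMap K L) (fun i => (g i : L)))} ∩
      {w : L → ℝ | (fun i => w (g i)) ∈
        ((fun (s : Fin n → ℝ) (i : Fin n) => Real.exp (s i)) '' C)})))) := by
    ext w
    constructor
    · rintro ⟨x, ⟨hxG, hxC⟩, rfl⟩
      refine ⟨fun f _ => ⟨x.v.nonneg _, hB f x hxG hxC⟩, fun a b => map_mul _ _ _,
        fun a b => x.na a b, fun a => x.ext a, fun P e => hxG P e, ?_⟩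
      refine ⟨logv x g, hxC, ?_⟩
      funext i
      exact (GCpt_exp x g i).symm
    · rintro ⟨h0, hmul, hadd, hext, hG, s, hsC, hs⟩
      simp only [Set.mem_ofPred_eq] at hmul hadd hext hG
      have hnn : ∀ f, 0 ≤ w f := fun f => (h0 f (Set.mem_univ _)).1
      have hw0 : w 0 = 0 := by
        have := hext 0
        rwa [map_zero, norm_zero] at this
      have hw1 : w 1 = 1 := by
        have := hext 1
        rwa [map_one, norm_one] at this
      let v : AbsoluteValue L ℝ :=
        { toFun := w
          map_mul' := hmul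
          nonneg' := hnn
          eq_zero' := by
            intro f
            constructor
            · intro hf
              by_contra hne
              have := hmul f f⁻¹
              rw [mul_inv_cancel₀ hne, hf, hw1, zero_mul] at this
              exact one_ne_zero this
            · rintro rfl
              exact hw0
          add_le' := by
            intro a b
            exact (hadd a b).trans (max_le_add_of_nonneg (hnn a) (hnn b)) }
      refine ⟨⟨v, hadd, hext⟩, ⟨hG, ?_⟩, rfl⟩
      have hlog : logv (⟨v, hadd, hext⟩ : Pt (algebraMap K L)) g = s := by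
        funext i
        have hi : w (g i) = Real.exp (s i) := (congrFun hs i).symm
        show Real.log (w (g i)) = s i
        rw [hi, Real.log_exp]
      rw [hlog]
      exact hsC
  rw [hset]
  refine hcpt.inter_right ?_
  refine IsClosed.inter ?_ (IsClosed.inter ?_ (IsClosed.inter ?_ (IsClosed.inter ?_ ?_)))
  · simp only [Set.ofPred_forall]
    exact isClosed_iInter fun a => isClosed_iInter fun b =>
      isClosed_eq (by fun_prop) (by fun_prop)
  · simp only [Set.ofPred_forall]
    exact isClosed_iInter fun a => isClosed_iInter fun b =>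
      isClosed_le (by fun_prop) (by fun_prop)
  · simp only [Set.ofPred_forall]
    exact isClosed_iInter fun a => isClosed_eq (by fun_prop) (by fun_prop)
  · simp only [Set.ofPred_forall]
    exact isClosed_iInter fun P => isClosed_iInter fun e =>
      isClosed_le (by fun_prop) (by fun_prop)
  · exact hexp.isClosed.preimage (by fun_prop)

end TDC
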