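import Pool.Agent.TDC.StG
import Pool.Agent.TDC.St2
import Pool.Agent.TDC.St3

/-!
# TDC, module GDec: decomposition of arbitrary forms on the analytification of a toric variety
-/

namespace TDC

open scoped Topology
open MeasureTheory AlgebraicGeometry CategoryTheory

private theorem GDec_pr_add {n : ℕ} (a b : Fin n → ℤ) (u : Fin n → ℝ) :
    pr (a + b) u = pr a u + pr b u := by
  simp only [pr, Pi.add_apply, Int.cast_add, add_mul, Finset.sum_add_distrib]

private theorem GDec_pr_zero {n : ℕ} (u : Fin n → ℝ) : pr (0 : Fin n → ℤ) u = 0 := by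
  simp [pr]

private theorem GDec_pr_cont {n : ℕ} (m : Fin n → ℤ) : Continuous (pr m) := by
  unfold pr
  fun_prop

/-- bounds on generators give bounds on the whole dual monoid -/
private theorem GDec_bound {n : ℕ} (G : Set (Fin n → ℤ)) (P : AddSubmonoid (Fin n → ℤ))
    (hG : AddSubmonoid.closure G = P) (c : (Fin n → ℤ) → ℝ) :
    ∀ m ∈ P, ∃ C : ℝ, ∀ u : Fin n → ℝ, (∀ g ∈ G, pr g u ≤ c g) → pr m u ≤ C := by
  intro m hm
  rw [← hG] at hm
  induction hm using AddSubmonoid.closure_induction with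
  | mem g hg => exact ⟨c g, fun u hu => hu g hg⟩
  | zero => exact ⟨0, fun u _ => (GDec_pr_zero u).le⟩
  | add a b _ _ ha hb =>
    obtain ⟨A, hA⟩ := ha
    obtain ⟨B, hB⟩ := hb
    refine ⟨A + B, fun u hu => ?_⟩
    rw [GDec_pr_add]
    exact add_le_add (hA u hu) (hB u hu)

/-- local finiteness in terms of generators -/
private theorem GDec_fin {n : ℕ} {Δ : Fan n} {V : ℕ → Set (Fin n → ℝ)}
    (hV : ∀ (i : Δ.ι) (c : Δ.dual i → ℝ),
      {k | (V k ∩ {u | ∀ m : Δ.dual i, pr m u ≤ c m}).Nonempty}.Finite) (i : Δ.ι)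
    (G : Finset (Fin n → ℤ)) (hG : AddSubmonoid.closure (G : Set (Fin n → ℤ)) = Δ.dual i)
    (c : (Fin n → ℤ) → ℝ) :
    {k | (V k ∩ {u | ∀ g ∈ G, pr g u ≤ c g}).Nonempty}.Finite := by
  have hB := GDec_bound (G : Set (Fin n → ℤ)) (Δ.dual i) hG c
  choose! C hC using hB
  refine (hV i fun m => C m).subset ?_
  rintro k ⟨u, hu, hg⟩
  exact ⟨u, hu, fun m => hC m m.2 u hg⟩

/-- the sum of the functions -/
private noncomputable def GDec_b {n : ℕ} (b : ℕ → (Fin n → ℝ) → ℝ) (u : Fin n → ℝ) : ℝ :=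
  ∑ᶠ k, b k u

private theorem GDec_b_eq {n : ℕ} (b : ℕ → (Fin n → ℝ) → ℝ) (u : Fin n → ℝ) (A : Finset ℕ)
    (h : ∀ k, k ∉ A → b k u = 0) : GDec_b b u = ∑ k ∈ A, b k u := by
  refine finsum_eq_sum_of_support_subset _ ?_
  intro k hk
  by_contra hk'
  exact hk (h k hk')

private theorem GDec_open {n : ℕ} (G : Finset (Fin n → ℤ)) (c : (Fin n → ℤ) → ℝ) :
    IsOpen {u : Fin n → ℝ | ∀ g ∈ G, pr g u < c g} := by
  have h : {u : Fin n → ℝ | ∀ g ∈ G, pr g u < c g} = ⋂ g ∈ G, {u | pr g u < c g} := by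
    ext u
    simp
  rw [h]
  exact isOpen_biInter_finset fun g _ => isOpen_lt (GDec_pr_cont g) continuous_const

private theorem GDec_b_smooth {n : ℕ} {Δ : Fan n} {V : ℕ → Set (Fin n → ℝ)}
    (hV : ∀ (i : Δ.ι) (c : Δ.dual i → ℝ),
      {k | (V k ∩ {u | ∀ m : Δ.dual i, pr m u ≤ c m}).Nonempty}.Finite) (i : Δ.ι)
    (G : Finset (Fin n → ℤ)) (hG : AddSubmonoid.closure (G : Set (Fin n → ℤ)) = Δ.dual i)
    (b : ℕ → (Fin n → ℝ) → ℝ) (hb : ∀ k, ContDiff ℝ (⊤ : ℕ∞) (b k))
    (hbV : ∀ k u, u ∉ V k → b k u = 0) : ContDiff ℝ (⊤ : ℕ∞) (GDec_b b) := by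
  rw [contDiff_iff_contDiffAt]
  intro u₀
  have hf := GDec_fin hV i G hG fun g => pr g u₀ + 1
  have ho := GDec_open G fun g => pr g u₀ + 1
  have hs : ContDiffAt ℝ (⊤ : ℕ∞) (fun u => ∑ k ∈ hf.toFinset, b k u) u₀ :=
    (ContDiff.sum fun k _ => hb k).contDiffAt
  refine hs.congr_of_eventuallyEq ?_
  filter_upwards [ho.mem_nhds (fun g _ => by linarith : u₀ ∈ _)] with u hu
  refine GDec_b_eq b u _ fun k hk => hbV k u fun huV => hk ?_
  rw [Set.Finite.mem_toFinset]
  exact ⟨u, huV, fun g hg => (hu g hg).le⟩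

private theorem GDec_b_fine {n : ℕ} {Δ : Fan n} {V : ℕ → Set (Fin n → ℝ)} (hGord : St_FGord)
    (hV : ∀ (i : Δ.ι) (c : Δ.dual i → ℝ),
      {k | (V k ∩ {u | ∀ m : Δ.dual i, pr m u ≤ c m}).Nonempty}.Finite)
    (hVb : ∀ k, ∀ u ∈ V k, ∀ v ∈ V k, ‖u - v‖ ≤ 1)
    (b : ℕ → (Fin n → ℝ) → ℝ)
    (hbV : ∀ k u, u ∉ V k → b k u = 0) : Fine Δ (tsupport (GDec_b b)) := by
  refine ⟨isClosed_tsupport _, fun i c => ?_⟩
  obtain ⟨G, hG⟩ := hGord n (Δ.gens i)
  have hGd : ∀ g ∈ G, g ∈ Δ.dual i := by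
    intro g hg
    have h : g ∈ AddSubmonoid.closure (G : Set (Fin n → ℤ)) := AddSubmonoid.subset_closure hg
    rw [hG] at h
    exact h
  classical
  let c' : (Fin n → ℤ) → ℝ := fun g => if h : g ∈ Δ.dual i then c ⟨g, h⟩ + 1 else 0
  have hf := GDec_fin hV i G hG c'
  have ho := GDec_open G c'
  have hbd : Bornology.IsBounded (⋃ k ∈ {k | (V k ∩ {u | ∀ g ∈ G, pr g u ≤ c' g}).Nonempty},
      V k) := by
    rw [Bornology.isBounded_biUnion hf]
    intro k _
    rw [Metric.isBounded_iff]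
    exact ⟨1, fun u hu v hv => by rw [dist_eq_norm]; exact hVb k u hu v hv⟩
  refine hbd.closure.subset ?_
  rintro u ⟨hu, huc⟩
  have hu' : u ∈ {u : Fin n → ℝ | ∀ g ∈ G, pr g u < c' g} := by
    intro g hg
    have h1 : c' g = c ⟨g, hGd g hg⟩ + 1 := dif_pos (hGd g hg)
    rw [h1]
    have h2 := huc ⟨g, hGd g hg⟩
    have h3 : pr g u ≤ c ⟨g, hGd g hg⟩ := h2
    linarith
  have h1 : u ∈ closure ({u : Fin n → ℝ | ∀ g ∈ G, pr g u < c' g} ∩
      Function.support (GDec_b b)) := ho.inter_closure ⟨hu', hu⟩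
  refine closure_mono ?_ h1
  rintro w ⟨hw, hwb⟩
  have h2 : ∃ k, b k w ≠ 0 := by
    by_contra hno
    push Not at hno
    refine hwb ?_
    show (∑ᶠ k, b k w) = 0
    simp [hno]
  obtain ⟨k, hk⟩ := h2
  have hwV : w ∈ V k := by
    by_contra hwV
    exact hk (hbV k w hwV)
  rw [Set.mem_iUnion₂]
  exact ⟨k, ⟨w, hwV, fun g hg => (hw g hg).le⟩, hwV⟩

/-- a closed subset of a fine set -/
private theorem GDec_fine_mono {n : ℕ} {Δ : Fan n} {S S' : Set (Fin n → ℝ)} (h : Fine Δ S)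
    (hc : IsClosed S') (hs : S' ⊆ S) : Fine Δ S' :=
  ⟨hc, fun i c => (h.2 i c).subset (Set.inter_subset_inter_left _ hs)⟩

/-- finite sums -/
private theorem GDec_sum {K : Type} [NormedField K] {X : Scheme.{0}} {s : X ⟶ Spec (.of K)}
    {p q : ℕ} (hCombA : St_CombA) (η : ℕ → FamA s p q) (ω : ℕ → FamA s p (q + 1))
    (h : ∀ k, IsDbarA (η k) (ω k)) (A : Finset ℕ) :
    IsDbarA (∑ k ∈ A, η k) (∑ k ∈ A, ω k) := by
  obtain ⟨-, -, -, h0, hadd, -, -⟩ := hCombA K X s p q
  induction A using Finset.induction_on with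
  | empty =>
    rw [Finset.sum_empty, Finset.sum_empty]
    exact h0
  | insert a A ha ih =>
    rw [Finset.sum_insert ha, Finset.sum_insert ha]
    exact hadd _ _ _ _ (h a) ih

/-- the product with a function of `log|t|`, over the generic point -/
private noncomputable def GDec_r {n q : ℕ} {K : Type} [NormedField K] {X : Scheme.{0}}
    [IrreducibleSpace X] {s : X ⟶ Spec (.of K)}
    (t : Fin n → (X.residueField (genericPoint X))ˣ) (ψ : (Fin n → ℝ) → ℝ) (ω : FamA s n q) :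
    Fam (kmap s (genericPoint X)) n q := fun v => ψ (logv v t) • ω (gen s v)

/-- one piece -/
private theorem GDec_piece {m : ℕ} {K : Type} [NontriviallyNormedField K] {X : Scheme.{0}}
    [IsIntegral X] {s : X ⟶ Spec (.of K)} (hMul : St_GMul) (hFldA : St_FldA) (hStdF : St_StdF)
    (hUpA : St_UpA) (hExtE : St_ExtE)
    (t : Fin (m + 1) → (X.residueField (genericPoint X))ˣ)
    (hcount : (Set.range fun a : K => ‖a‖).Countable)
    (hrat : @RatN K (X.residueField (genericPoint X)) _ _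
      (kmap s (genericPoint X)).toAlgebra (m + 1) t)
    (htr : @TrLe K (X.residueField (genericPoint X)) _ _
      (kmap s (genericPoint X)).toAlgebra (m + 1))
    (ω : FamA s (m + 1) (m + 1))
    (hω : IsForm (fun v => ω (gen s v) : Fam (kmap s (genericPoint X)) (m + 1) (m + 1)))
    (hωC : ∀ C : Set (Fin (m + 1) → ℝ), IsCompact C →
      ∃ C' : Set (Pt (kmap s (genericPoint X))),
        IsCompact C' ∧ (∀ v ∈ C', logv v t ∈ C) ∧
          ∀ v, logv v t ∈ C → v ∉ C' → ω (gen s v) = 0)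
    (ψ : (Fin (m + 1) → ℝ) → ℝ) (V : Set (Fin (m + 1) → ℝ)) (hV : IsOpen V) (hψ : SC ψ V) :
    ∃ (b : (Fin (m + 1) → ℝ) → ℝ) (η' : FamA s (m + 1) m) (ω' σ' : FamA s (m + 1) (m + 1)),
      SC b V ∧ IsDbarA η' (ω' - σ') ∧
      (∀ v, ω' (gen s v) = ψ (logv v t) • ω (gen s v)) ∧
      (∀ v, σ' (gen s v) = std (kmap s (genericPoint X)) t b v) ∧
      (∀ x : An s, x.1 ≠ genericPoint X → ω' x = 0 ∧ σ' x = 0 ∧ η' x = 0) ∧
      ∀ v, logv v t ∉ V → η' (gen s v) = 0 := by
  obtain ⟨C, hC, hCt, hC0⟩ := hωC (tsupport ψ) hψ.2.1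
  have hform : IsForm (GDec_r t ψ ω) :=
    hMul K (X.residueField (genericPoint X)) (kmap s (genericPoint X)) (m + 1) (m + 1) (m + 1) t
      ψ (fun v => ω (gen s v)) hψ.1 hω
  have hzero : ∀ v, v ∉ C → GDec_r t ψ ω v = 0 := by
    intro v hv
    by_cases h : logv v t ∈ tsupport ψ
    · show ψ (logv v t) • ω (gen s v) = 0
      rw [hC0 v h hv, smul_zero]
    · show ψ (logv v t) • ω (gen s v) = 0
      rw [image_eq_zero_of_notMem_tsupport h, zero_smul]
  obtain ⟨b, η, hb, hη1, hη2, hη3, hη4⟩ := @hFldA K (X.residueField (genericPoint X)) _ _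
    (kmap s (genericPoint X)).toAlgebra m t hcount hrat V hV
    (GDec_r t ψ ω) C hform hC hzero
    (fun v hv => hψ.2.2 (hCt v hv))
  obtain ⟨-, hf, hs⟩ := @hStdF K (X.residueField (genericPoint X)) _ _
    (kmap s (genericPoint X)).toAlgebra (m + 1) t b htr hb.1 hb.2.1
  have hf' : IsForm (std (kmap s (genericPoint X)) t b) := hf
  have hs' : CSupp (std (kmap s (genericPoint X)) t b) := hs
  obtain ⟨ω', hω'⟩ := hExtE K X s (m + 1) (m + 1) (GDec_r t ψ ω)
  obtain ⟨σ', hσ'⟩ := hExtE K X s (m + 1) (m + 1)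
    (std (kmap s (genericPoint X)) t b : Fam (kmap s (genericPoint X)) (m + 1) (m + 1))
  obtain ⟨η', hη'⟩ := hExtE K X s (m + 1) m (η : Fam (kmap s (genericPoint X)) (m + 1) m)
  have hsub : IsExt (GDec_r t ψ ω - std (kmap s (genericPoint X)) t b) (ω' - σ') := by
    refine ⟨fun v => ?_, fun x hx => ?_⟩
    · show ω' (gen s v) - σ' (gen s v) = _
      rw [hω'.1 v, hσ'.1 v]
      rfl
    · show ω' x - σ' x = 0
      rw [hω'.2 x hx, hσ'.2 x hx, sub_zero]
  have hcs : CSupp (GDec_r t ψ ω - std (kmap s (genericPoint X)) t b) := by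
    obtain ⟨C₂, hc2, h2⟩ := hs'
    refine ⟨C ∪ C₂, hC.union hc2, ?_⟩
    intro x hx
    have hx1 : x ∉ C := fun h => hx (Or.inl h)
    have hx2 : x ∉ C₂ := fun h => hx (Or.inr h)
    show GDec_r t ψ ω x - std (kmap s (genericPoint X)) t b x = 0
    rw [h2 x hx2, sub_zero]
    exact hzero x hx1
  have hη4' : IsDbar (η : Fam (kmap s (genericPoint X)) (m + 1) m)
      (GDec_r t ψ ω - std (kmap s (genericPoint X)) t b) := hη4
  have hd : IsDbarA η' (ω' - σ') :=
    (hUpA K X s (m + 1) htr).2 m _ _ η' (ω' - σ') hη' hsub hη4' hη2 hcs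
  refine ⟨b, η', ω', σ', hb, hd, hω'.1, hσ'.1, fun x hx => ⟨hω'.2 x hx, hσ'.2 x hx, hη'.2 x hx⟩,
    fun v hv => ?_⟩
  rw [hη'.1 v]
  exact hη3 v hv

/-- **GDec**. -/
theorem thm_GDec (hSup : St_GSup) (hMul : St_GMul) (hStd : St_GStd) (hPul : St_GPul)
    (hTro : St_GTro) (hCor : St_GCor) (hPar : St_FPar) (hRep : St_FRep) (hGord : St_FGord)
    (hZero : St_FZero) (hFldA : St_FldA) (hStdF : St_StdF) (hUpA : St_UpA) (hDnA : St_DnA)
    (hExtE : St_ExtE) (hCombA : St_CombA) (hTowR : St_TowR) : St_GDec := by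
  classical
  intro m Δ K _ X _ s τ T hT hcount ω hω
  obtain ⟨-, t, htc, hrat⟩ := hCor (m + 1) Δ K X s τ
  have htr : @TrLe K (X.residueField (genericPoint X)) _ _
      (kmap s (genericPoint X)).toAlgebra (m + 1) :=
    (@hTowR.1 K (X.residueField (genericPoint X)) _ _
      (kmap s (genericPoint X)).toAlgebra (m + 1) t hrat).1
  obtain ⟨hr1, hr2, -, -, -⟩ := hDnA K X s (m + 1) (m + 1) htr ω hω
  obtain ⟨⟨S, hS, hωS⟩, hωC⟩ := hSup (m + 1) Δ K X s τ t htc (m + 1) ω hω
  obtain ⟨ψ, V, hψV, hsum, hfin⟩ := hPar (m + 1) Δ S hS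
  obtain ⟨⟨i₀, hi₀⟩, hz2, -, -⟩ := hZero (m + 1) Δ
  obtain ⟨hdual, hperp, -⟩ := hz2 i₀ hi₀
  obtain ⟨hTgen, -, hTstd⟩ := hStd (m + 1) Δ i₀ K X s τ T hT t hi₀ htc
  have hTcont : Continuous T := ((hTro (m + 1) Δ K X s τ).2.2 T hT).1
  have hpiece := fun k => GDec_piece hMul hFldA hStdF hUpA hExtE t hcount hrat htr ω hr1 hωC
    (ψ k) (V k) (hψV k).1 (hψV k).2.1
  choose b η' ω' σ' hb hd hω' hσ' hng hηV using hpiece
  have hbV : ∀ k u, u ∉ V k → b k u = 0 := fun k u hu =>
    image_eq_zero_of_notMem_tsupport fun h => hu ((hb k).2.2 h)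
  have hψ0 : ∀ k u, u ∉ V k → ψ k u = 0 := fun k u hu =>
    image_eq_zero_of_notMem_tsupport fun h => hu ((hψV k).2.1.2.2 h)
  have hbs : ContDiff ℝ (⊤ : ℕ∞) (GDec_b b) := by
    obtain ⟨G, hG⟩ := hGord (m + 1) (Δ.gens i₀)
    exact GDec_b_smooth hfin i₀ G hG b (fun k => (hb k).1) hbV
  have hbf : Fine Δ (tsupport (GDec_b b)) :=
    GDec_b_fine hGord hfin (fun k => (hψV k).2.2) b hbV
  -- the pull-back is a form
  have hext : IsFormT (extT Δ (fun u => GDec_b b u • dx id) : FamT Δ (m + 1) (m + 1)) := by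
    rw [hRep]
    refine ⟨fun u => GDec_b b u • dx id, hbs.smul contDiff_const, ?_, rfl⟩
    refine GDec_fine_mono hbf (isClosed_tsupport _) ?_
    exact tsupport_smul_subset_left (GDec_b b) (fun _ => dx id)
  have hpullA := (hPul (m + 1) Δ K X s τ T hT (m + 1) (m + 1)).1 _ hext
  obtain ⟨-, hp2, -, -, -⟩ := hDnA K X s (m + 1) (m + 1) htr _ hpullA
  -- the primitive
  let η : FamA s (m + 1) m := fun x => ∑ᶠ k, η' k x
  have hmain : IsDbarA η (ω - tropPull τ T hT (m + 1) (m + 1)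
      (extT Δ (fun u => GDec_b b u • dx id))) := by
    intro x
    obtain ⟨G, hG⟩ := hGord (m + 1) (Δ.gens (T x).i)
    have hGd : ∀ g ∈ G, g ∈ Δ.dual (T x).i := by
      intro g hg
      have h : g ∈ AddSubmonoid.closure (G : Set (Fin (m + 1) → ℤ)) :=
        AddSubmonoid.subset_closure hg
      rw [hG] at h
      exact h
    have hval0 : ∀ g, 0 ≤ (T x).val g := by
      intro g
      unfold NR.val
      split_ifs
      · exact (Real.exp_pos _).le
      · exact le_rfl
    let c : (Fin (m + 1) → ℤ) → ℝ := fun g => Real.log ((T x).val g + 1)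
    have hexp : ∀ g, Real.exp (c g) = (T x).val g + 1 := fun g =>
      Real.exp_log (by have := hval0 g; linarith)
    have hN : {x' : An s | ∀ g ∈ G, (T x').val g < Real.exp (c g)} ∈ 𝓝 x := by
      have h1 : (⋂ g ∈ G, {x' : An s | (T x').val g < Real.exp (c g)}) ∈ 𝓝 x := by
        rw [Filter.biInter_finset_mem]
        intro g hg
        have h2 : IsOpen {z : NR Δ | Δ.cone z.i ⊆ Δ.cone (T x).i ∧ -1 < z.val g ∧
            z.val g < Real.exp (c g)} :=
          TopologicalSpace.isOpen_generateFrom_of_mem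
            ⟨(T x).i, ⟨g, hGd g hg⟩, -1, Real.exp (c g), rfl⟩
        have h3 : T ⁻¹' {z : NR Δ | Δ.cone z.i ⊆ Δ.cone (T x).i ∧ -1 < z.val g ∧
            z.val g < Real.exp (c g)} ∈ 𝓝 x := by
          refine (h2.preimage hTcont).mem_nhds ⟨subset_rfl, ?_, ?_⟩
          · have := hval0 g
            linarith
          · rw [hexp]
            linarith
        exact Filter.mem_of_superset h3 fun x' hx' => hx'.2.2
      refine Filter.mem_of_superset h1 ?_
      intro x' hx'
      rw [Set.mem_iInter₂] at hx'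
      exact hx'
    have hf := GDec_fin hfin (T x).i G hG c
    obtain ⟨U, R, F, α, hα, hev⟩ := GDec_sum hCombA η' (fun k => ω' k - σ' k) hd hf.toFinset x
    refine ⟨U, R, F, α, hα, ?_⟩
    filter_upwards [hev, hN] with x' hx' hxN
    obtain ⟨hU, hx1, hx2⟩ := hx'
    -- all but finitely many vanish at the point
    have hnot : ∀ v, (⟨genericPoint X, v⟩ : An s) = x' → ∀ k, k ∉ hf.toFinset →
        logv v t ∉ V k := by
      intro v hv k hk hV
      apply hk
      rw [Set.Finite.mem_toFinset]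
      refine ⟨logv v t, hV, fun g hg => ?_⟩
      have h1 := hxN g hg
      rw [← hv] at h1
      have h2 : (T (gen s v)).val g < Real.exp (c g) := h1
      rw [hTgen v] at h2
      have h3 : (jT Δ i₀ (logv v t)).val g = Real.exp (pr g (logv v t)) := by
        have h4 : g ∈ Δ.perp i₀ := by rw [hperp]; trivial
        unfold NR.val
        show (if g ∈ Δ.perp i₀ then Real.exp (evm (prHom (Δ.perp i₀) (logv v t)) g) else 0) = _
        rw [if_pos h4]
        unfold evm
        rw [dif_pos h4]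
        rfl
      rw [h3, Real.exp_lt_exp] at h2
      exact h2.le
    have hη0 : ∀ k, k ∉ hf.toFinset → η' k x' = 0 := by
      intro k hk
      by_cases hxg : x'.1 = genericPoint X
      · obtain ⟨ξ, v⟩ := x'
        change ξ = genericPoint X at hxg
        subst hxg
        exact hηV k v (hnot v rfl k hk)
      · exact (hng k x' hxg).2.2
    refine ⟨hU, ?_, ?_⟩
    · rw [← hx1, Finset.sum_apply]
      refine finsum_eq_sum_of_support_subset _ ?_
      intro k hk
      by_contra hk'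
      exact hk (hη0 k hk')
    · rw [← hx2, Finset.sum_apply]
      by_cases hxg : x'.1 = genericPoint X
      · obtain ⟨ξ, v⟩ := x'
        change ξ = genericPoint X at hxg
        subst hxg
        have hnV := hnot v rfl
        show ω (gen s v) - tropPull τ T hT (m + 1) (m + 1)
          (extT Δ (fun u => GDec_b b u • dx id)) (gen s v) =
          ∑ k ∈ hf.toFinset, (ω' k (gen s v) - σ' k (gen s v))
        rw [hTstd, Finset.sum_sub_distrib]
        congr 1
        · by_cases hz : ω (gen s v) = 0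
          · rw [hz]
            refine (Finset.sum_eq_zero fun k _ => ?_).symm
            rw [hω' k v, hz, smul_zero]
          · have h1 := hsum _ (hωS v hz)
            have h2 : ∑ᶠ k, ψ k (logv v t) = ∑ k ∈ hf.toFinset, ψ k (logv v t) :=
              GDec_b_eq ψ (logv v t) _ fun k hk => hψ0 k _ (hnV k hk)
            have h3 : ∑ k ∈ hf.toFinset, ω' k (gen s v) =
                (∑ k ∈ hf.toFinset, ψ k (logv v t)) • ω (gen s v) := by
              rw [Finset.sum_smul]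
              exact Finset.sum_congr rfl fun k _ => hω' k v
            rw [h3, ← h2, h1, one_smul]
        · have h1 : GDec_b b (logv v t) = ∑ k ∈ hf.toFinset, b k (logv v t) :=
            GDec_b_eq b (logv v t) _ fun k hk => hbV k _ (hnV k hk)
          have h2 : ∑ k ∈ hf.toFinset, σ' k (gen s v) =
              ∑ k ∈ hf.toFinset, std (kmap s (genericPoint X)) t (b k) v :=
            Finset.sum_congr rfl fun k _ => hσ' k v
          rw [h2]
          funext δ ε
          show GDec_b b (logv v t) * _ * _ = _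
          rw [h1, Finset.sum_apply, Finset.sum_apply, Finset.sum_mul, Finset.sum_mul]
          rfl
      · show ω x' - tropPull τ T hT (m + 1) (m + 1)
          (extT Δ (fun u => GDec_b b u • dx id)) x' = _
        rw [hr2.2 x' hxg, hp2.2 x' hxg, sub_zero]
        refine (Finset.sum_eq_zero fun k _ => ?_).symm
        show ω' k x' - σ' k x' = 0
        rw [(hng k x' hxg).1, (hng k x' hxg).2.1, sub_zero]
  refine ⟨GDec_b b, η, hbs, hbf, ?_, hmain⟩
  exact ((hCombA K X s (m + 1) m).2.2.2.2.2.2 η _ hmain).1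

end TDC

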