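import Pool.Agent.TDC.StT

/-!
# TDC: existence of Gauss points over generic values
-/

namespace TDC

open scoped Topology

private lemma GEx_iter (h : St_ExT) (K : Type) [NontriviallyNormedField K] [IsUltrametricDist K]
    (n : ℕ) : ∀ s : Fin n → ℝ, ∃ (C' : Type) (_ : NontriviallyNormedField C'),
      IsUltrametricDist C' ∧ IsAlgClosed C' ∧ ∃ (φ : K →+* C') (T : Fin n → C'),
        (∀ a, ‖φ a‖ = ‖a‖) ∧ ∀ i, ‖T i‖ = Real.exp (s i) := by
  induction n with
  | zero =>
    intro s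
    obtain ⟨C', i1, i2, i3, φ, T, h1, h2⟩ := h K 1 one_pos
    exact ⟨C', i1, i2, i3, φ, fun i => i.elim0, h1, fun i => i.elim0⟩
  | succ n ih =>
    intro s
    obtain ⟨C, i1, i2, i3, φ, T, h1, h2⟩ := ih (fun i => s i.succ)
    obtain ⟨C', j1, j2, j3, φ', T', h3, h4⟩ := h C (Real.exp (s 0)) (Real.exp_pos _)
    refine ⟨C', j1, j2, j3, φ'.comp φ, Fin.cons T' (fun i => φ' (T i)), fun a => ?_,
      fun i => ?_⟩
    · rw [RingHom.comp_apply, h3, h1]
    · refine Fin.cases ?_ (fun i => ?_) i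
      · exact h4
      · show ‖φ' (T i)‖ = _
        rw [h3, h2]

private lemma GEx_alg {K L : Type} [Field K] [Field L] [Algebra K L] {n : ℕ} (htr : TrLe K L n)
    (g : Fin n → Lˣ) (hg : AlgebraicIndependent K (fun i => (g i : L))) :
    Algebra.IsAlgebraic (Algebra.adjoin K (Set.range fun i => (g i : L))) L := by
  refine ⟨fun f => ?_⟩
  by_contra hT
  have h1 := (hg.option_iff_transcendental f).mpr hT
  exact htr _ (h1.comp _ (finSuccEquiv n).injective)

private lemma GEx_hom {K L C : Type} [Field K] [Field L] [Algebra K L] [Field C] [Algebra K C]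
    [IsAlgClosed C] {n : ℕ} (htr : TrLe K L n) (g : Fin n → Lˣ)
    (hg : AlgebraicIndependent K (fun i => (g i : L))) (T : Fin n → C)
    (hT : AlgebraicIndependent K T) :
    ∃ ψ : AlgebraicClosure L →+* C, (∀ a : K, ψ (algebraMap K _ a) = algebraMap K C a) ∧
      ∀ i, ψ (algebraMap L _ (g i : L)) = T i := by
  haveI i1 := GEx_alg htr g hg
  obtain ⟨θ, hθ⟩ : ∃ θ : Algebra.adjoin K (Set.range fun i => (g i : L)) →ₐ[K] C,
      θ = (MvPolynomial.aeval T).comp hg.aevalEquiv.symm.toAlgHom := ⟨_, rfl⟩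
  have hinj : Function.Injective θ := by
    rw [hθ]
    exact (algebraicIndependent_iff_injective_aeval.1 hT).comp hg.aevalEquiv.symm.injective
  letI i2 : Algebra (Algebra.adjoin K (Set.range fun i => (g i : L))) C := θ.toRingHom.toAlgebra
  haveI i3 : FaithfulSMul (Algebra.adjoin K (Set.range fun i => (g i : L))) C :=
    (faithfulSMul_iff_algebraMap_injective _ C).mpr hinj
  haveI i4 : Algebra.IsAlgebraic (Algebra.adjoin K (Set.range fun i => (g i : L)))
      (AlgebraicClosure L) := Algebra.IsAlgebraic.trans _ L _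
  obtain ⟨ψ⟩ : Nonempty (AlgebraicClosure L →ₐ[Algebra.adjoin K (Set.range fun i =>
      (g i : L))] C) := ⟨IsAlgClosed.lift⟩
  have hc : ∀ r : Algebra.adjoin K (Set.range fun i => (g i : L)),
      ψ (algebraMap L _ (r : L)) = θ r := fun r => ψ.commutes r
  refine ⟨ψ.toRingHom, fun a => ?_, fun i => ?_⟩
  · have h1 := hc (algebraMap K _ a)
    rw [θ.commutes] at h1
    rw [← h1]
    rfl
  · have h1 := hc (hg.aevalEquiv (MvPolynomial.X i))
    have h2 : ((hg.aevalEquiv (MvPolynomial.X i) : Algebra.adjoin K (Set.range fun i =>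
        (g i : L))) : L) = g i := by
      exact (AlgebraicIndependent.algebraMap_aevalEquiv hg (MvPolynomial.X i)).trans
        (MvPolynomial.aeval_X _ _)
    rw [h2, hθ] at h1
    refine h1.trans ?_
    show MvPolynomial.aeval T (hg.aevalEquiv.symm (hg.aevalEquiv (MvPolynomial.X i))) = T i
    rw [AlgEquiv.symm_apply_apply, MvPolynomial.aeval_X]

theorem thm_GEx : St_ExT → St_IndG → St_EmG → St_GEx := by
  intro h1 h2 h3 K L _ _ _ _ n htr g hg s hs
  obtain ⟨C, i1, i2, i3, φ, T, hφ, hT⟩ := GEx_iter h1 K n s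
  letI i4 : Algebra K C := φ.toAlgebra
  have hT0 : ∀ i, T i ≠ 0 := by
    intro i h0
    have := hT i
    rw [h0, norm_zero] at this
    exact absurd this.symm (Real.exp_pos _).ne'
  obtain ⟨x0, hx0⟩ : ∃ x0 : Pt (algebraMap K C), x0.v = NormedField.toAbsoluteValue C :=
    ⟨⟨NormedField.toAbsoluteValue C, fun a b => IsUltrametricDist.norm_add_le_max a b,
      fun a => hφ a⟩, rfl⟩
  have hl : logv x0 (fun i => Units.mk0 (T i) (hT0 i)) = s := by
    funext i
    show Real.log (x0.v (T i)) = s i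
    rw [hx0]
    show Real.log ‖T i‖ = s i
    rw [hT, Real.log_exp]
  have hTi : AlgebraicIndependent K T := by
    have e1 := (h3.2.2 K C n (fun i => Units.mk0 (T i) (hT0 i)) x0).2 (by rw [hl]; exact hs)
    have e2 := h2 K C (algebraMap K C) n x0 (fun i => Units.mk0 (T i) (hT0 i)) e1
    have e3 := h3.2.1 K C n (fun i => Units.mk0 (T i) (hT0 i)) x0 e2
    have e4 : (fun i => ((Units.mk0 (T i) (hT0 i) : Cˣ) : C)) = T := funext fun i => rfl
    rw [e4] at e3
    exact e3
  obtain ⟨ψ, hψ1, hψ2⟩ := GEx_hom htr g hg T hTi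
  obtain ⟨x, hx⟩ : ∃ x : Pt (algebraMap K (AlgebraicClosure L)),
      ∀ a, x.v a = ‖ψ a‖ := by
    refine ⟨⟨(NormedField.toAbsoluteValue C).comp ψ.injective, fun a b => ?_, fun a => ?_⟩,
      fun a => rfl⟩
    · show ‖ψ (a + b)‖ ≤ max ‖ψ a‖ ‖ψ b‖
      rw [map_add]
      exact IsUltrametricDist.norm_add_le_max _ _
    · show ‖ψ (algebraMap K _ a)‖ = ‖a‖
      rw [hψ1]
      exact hφ a
  have hls : logv (pb (incE K L) x) g = s := by
    funext i
    show Real.log (x.v (algebraMap L _ (g i : L))) = s i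
    rw [hx, hψ2, hT, Real.log_exp]
  refine ⟨x, ?_, hls⟩
  exact h2 K L _ n _ g ((h3.2.2 K L n g (pb (incE K L) x)).2 (by rw [hls]; exact hs))

end TDC
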