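import Pool.Agent.TDC.StG

/-!
# TDC, module GMul: the product of a form with a smooth function of `log|t|`
-/

set_option autoImplicit false

namespace TDC

open scoped Topology

section

variable {R R' p q : ℕ}

/-- restriction to the coordinates in the image of `ι` -/
private noncomputable def GMul_rs (ι : Fin R' → Fin R) : (Fin R → ℝ) →L[ℝ] (Fin R' → ℝ) :=
  ContinuousLinearMap.pi fun i => ContinuousLinearMap.proj (ι i)

open Classical in
/-- the superform on `ℝ^R` obtained from one on `ℝ^R'` via the coordinate map `ι` -/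
private noncomputable def GMul_ext (ι : Fin R' → Fin R) (α : SF R' p q) : SF R p q := fun I t =>
  ∑ I₁ ∈ Finset.univ.filter (fun I₁ : Fin p → Fin R' => ι ∘ I₁ = I),
    (α I₁ (GMul_rs ι t)).compContinuousLinearMap (GMul_rs ι)

private theorem GMul_sm (ι : Fin R' → Fin R) {α : SF R' p q} (h : α.Smooth) :
    (GMul_ext ι α).Smooth := by
  intro I
  refine ContDiff.sum fun I₁ _ => ?_
  have h1 : ContDiff ℝ (⊤ : ℕ∞) (ContinuousAlternatingMap.compContinuousLinearMapCLM (𝕜 := ℝ)
    (ι := Fin q) (F := ℝ) (GMul_rs ι)) := ContinuousLinearMap.contDiff _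
  exact h1.comp ((h I₁).comp (GMul_rs ι).contDiff)

variable {K M : Type} [NormedField K] [Field M] {φ : K →+* M}

private theorem GMul_pull (ι : Fin R' → Fin R) (F : Fin R → Mˣ) (α : SF R' p q) :
    (pull F (GMul_ext ι α) : Fam φ p q) = pull (F ∘ ι) α := by
  classical
  funext x δ ε
  show ∑ I : Fin p → Fin R, (Matrix.of fun i j => ev F (δ i) (I j)).det *
    GMul_ext ι α I (logv x F) (fun i => ev F (ε i)) =
    ∑ I : Fin p → Fin R', (Matrix.of fun i j => ev (F ∘ ι) (δ i) (I j)).det *
    α I (logv x (F ∘ ι)) (fun i => ev (F ∘ ι) (ε i))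
  rw [← Finset.sum_fiberwise_of_maps_to (s := Finset.univ) (t := Finset.univ)
    (g := fun I₁ : Fin p → Fin R' => ι ∘ I₁) (fun _ _ => Finset.mem_univ _)]
  refine Finset.sum_congr rfl fun I _ => ?_
  unfold GMul_ext
  rw [ContinuousAlternatingMap.sum_apply, Finset.mul_sum]
  refine Finset.sum_congr (by congr) fun I₁ hI => ?_
  have e : ι ∘ I₁ = I := (Finset.mem_filter.1 hI).2
  subst e
  rfl

end

theorem thm_GMul : St_GMul := by
  intro K M _ _ φ n p q t ψ ω hψ hω x
  obtain ⟨R, F, α, hα, hev⟩ := hω x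
  have e1 : Fin.append t F ∘ Fin.castAdd R = t := by
    funext i
    exact Fin.append_left t F i
  have e2 : Fin.append t F ∘ Fin.natAdd n = F := by
    funext i
    exact Fin.append_right t F i
  refine ⟨n + R, Fin.append t F, fun I u => ψ (GMul_rs (Fin.castAdd R) u) •
    GMul_ext (Fin.natAdd n) α I u, ?_, ?_⟩
  · intro I
    exact (hψ.comp (GMul_rs (Fin.castAdd R)).contDiff).smul (GMul_sm (Fin.natAdd n) hα I)
  · filter_upwards [hev] with y hy
    have h1 : (pull (Fin.append t F) (GMul_ext (Fin.natAdd n) α) : Fam φ p q) y = pull F α y := by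
      rw [GMul_pull, e2]
    have h2 : GMul_rs (Fin.castAdd R) (logv y (Fin.append t F)) = logv y t := by
      have h3 : GMul_rs (Fin.castAdd R) (logv y (Fin.append t F)) =
          logv y (Fin.append t F ∘ Fin.castAdd R) := rfl
      rw [h3, e1]
    rw [hy, ← h1]
    funext δ ε
    show ψ (logv y t) * (∑ I : Fin p → Fin (n + R),
      (Matrix.of fun i j => ev (Fin.append t F) (δ i) (I j)).det *
      GMul_ext (Fin.natAdd n) α I (logv y (Fin.append t F))
        (fun i => ev (Fin.append t F) (ε i))) =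
      ∑ I : Fin p → Fin (n + R), (Matrix.of fun i j => ev (Fin.append t F) (δ i) (I j)).det *
      (ψ (GMul_rs (Fin.castAdd R) (logv y (Fin.append t F))) •
        GMul_ext (Fin.natAdd n) α I (logv y (Fin.append t F)))
        (fun i => ev (Fin.append t F) (ε i))
    rw [h2, Finset.mul_sum]
    refine Finset.sum_congr rfl fun I _ => ?_
    rw [ContinuousAlternatingMap.smul_apply, smul_eq_mul]
    ring

end TDC
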