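import Pool.Agent.TDC.StT

set_option autoImplicit false

/-!
# TDC, GNl: almost all points are generic
-/

namespace TDC

open scoped Topology
open MeasureTheory

private theorem GNl_null {n : ℕ} (w : Fin n → ℝ) (hw : w ≠ 0) (d : ℝ) :
    volume {s : Fin n → ℝ | w ⬝ᵥ s = d} = 0 := by
  have hker : volume ((LinearMap.ker (dotProductBilin ℝ ℝ w) : Submodule ℝ (Fin n → ℝ)) :
      Set (Fin n → ℝ)) = 0 := by
    apply Measure.addHaar_submodule
    intro htop
    apply hw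
    funext j
    have hj : (Pi.single j 1 : Fin n → ℝ) ∈ LinearMap.ker (dotProductBilin ℝ ℝ w) := by
      rw [htop]
      exact Submodule.mem_top
    rw [LinearMap.mem_ker] at hj
    have h2 : w ⬝ᵥ Pi.single j 1 = 0 := hj
    rw [dotProduct_single_one] at h2
    exact h2
  rcases Set.eq_empty_or_nonempty {s : Fin n → ℝ | w ⬝ᵥ s = d} with h | ⟨s₀, hs₀⟩
  · rw [h, measure_empty]
  · have e : {s : Fin n → ℝ | w ⬝ᵥ s = d} = (fun s => s + -s₀) ⁻¹'
        ((LinearMap.ker (dotProductBilin ℝ ℝ w) : Submodule ℝ (Fin n → ℝ)) :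
          Set (Fin n → ℝ)) := by
      ext s
      have hs : w ⬝ᵥ s₀ = d := hs₀
      show w ⬝ᵥ s = d ↔ s + -s₀ ∈ LinearMap.ker (dotProductBilin ℝ ℝ w)
      rw [LinearMap.mem_ker]
      show w ⬝ᵥ s = d ↔ w ⬝ᵥ (s + -s₀) = 0
      rw [dotProduct_add, dotProduct_neg, hs]
      constructor
      · intro h
        rw [h]
        ring
      · intro h
        linarith
    rw [e, measure_preimage_add_right, hker]

theorem thm_GNl : St_GNl := by
  intro K _ n hK A v hA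
  have hS : (({k : Fin n → ℤ | k ≠ 0}) ×ˢ
      (Real.log '' Set.range fun a : K => ‖a‖) : Set ((Fin n → ℤ) × ℝ)).Countable :=
    (Set.to_countable _).prod (hK.image _)
  rw [ae_iff]
  refine measure_mono_null (t := ⋃ q ∈ (({k : Fin n → ℤ | k ≠ 0}) ×ˢ
      (Real.log '' Set.range fun a : K => ‖a‖) : Set ((Fin n → ℤ) × ℝ)),
      {s : Fin n → ℝ | (Matrix.vecMul (fun i => (q.1 i : ℝ)) A) ⬝ᵥ s =
        q.2 - (fun i => (q.1 i : ℝ)) ⬝ᵥ v}) ?_ ?_
  · intro s hs
    have hs' : ¬ Generic K (v + A.mulVec s) := hs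
    unfold Generic at hs'
    push Not at hs'
    obtain ⟨k, a, _, hka, hk⟩ := hs'
    refine Set.mem_iUnion₂.2 ⟨(k, Real.log ‖a‖), ⟨hk, ⟨‖a‖, ⟨a, rfl⟩, rfl⟩⟩, ?_⟩
    show Matrix.vecMul (fun i => (k i : ℝ)) A ⬝ᵥ s = Real.log ‖a‖ - (fun i => (k i : ℝ)) ⬝ᵥ v
    rw [← Matrix.dotProduct_mulVec, ← hka]
    have e : ∑ i, (k i : ℝ) * (v + A.mulVec s) i =
        (fun i => (k i : ℝ)) ⬝ᵥ (v + A.mulVec s) := rfl
    rw [e, dotProduct_add]
    ring
  · rw [measure_biUnion_null_iff hS]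
    intro q hq
    apply GNl_null
    intro h0
    apply hq.1
    have h1 := Matrix.eq_zero_of_vecMul_eq_zero hA h0
    funext i
    have h2 : (q.1 i : ℝ) = 0 := congrFun h1 i
    show q.1 i = 0
    exact_mod_cast h2

end TDC
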