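import Pool.Agent.TDC.StG
import Pool.Agent.TDC.FFace
import Pool.Agent.TDC.FVal

/-!
# TDC, module GPul: `trop^*` maps forms to forms and commutes with `d''`
-/

namespace TDC

open scoped Topology
open MeasureTheory AlgebraicGeometry CategoryTheory

private lemma GPul_eval {X : Scheme.{0}} (U V : X.Opens) (hle : V ≤ U) (x : X) (hU : x ∈ U)
    (hV : x ∈ V) (f : Γ(X, U)) :
    X.evaluation V x hV ((X.presheaf.map (homOfLE hle).op).hom f) = X.evaluation U x hU f := by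
  have h := X.presheaf.germ_res_apply (homOfLE hle) x hV f
  have h2 := congrArg (X.residue x) h
  exact h2

private lemma GPul_unit {n : ℕ} {Δ : Fan n} {K : Type} [NormedField K] {X : Scheme.{0}}
    {s : X ⟶ Spec (.of K)} (τ : Toric Δ s) (x : An s) (i j : Δ.ι) (hij : Δ.cone j ⊆ Δ.cone i)
    (hi : x.1 ∈ τ.U i) (hj : x.1 ∈ τ.U j) (m : Fin n → ℤ) (mi : m ∈ Δ.perp i) (mj : m ∈ Δ.perp j) :
    Units.map (X.evaluation (τ.U j) x.1 hj).hom.toMonoidHom
      (τ.un j (Multiplicative.ofAdd ⟨m, mj⟩)) =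
    Units.map (X.evaluation (τ.U i) x.1 hi).hom.toMonoidHom
      (τ.un i (Multiplicative.ofAdd ⟨m, mi⟩)) := by
  ext
  have h1 := τ.res i j hij ⟨m, perpOf_le_dualOf _ mi⟩ ⟨m, perpOf_le_dualOf _ mj⟩ rfl
  have h2 := GPul_eval (τ.U i) (τ.U j) (τ.le i j hij) x.1 hi hj
    (τ.χ i (Multiplicative.ofAdd ⟨m, perpOf_le_dualOf _ mi⟩))
  rw [h1] at h2
  exact h2

private lemma GPul_key {n : ℕ} {Δ : Fan n} {K : Type} [NormedField K] {X : Scheme.{0}}
    {s : X ⟶ Spec (.of K)} (τ : Toric Δ s) (T : An s → NR Δ) (hT : IsTropMap τ T) {p q R : ℕ}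
    (i : Δ.ι) (x : An s) (hx : Δ.cone (T x).i ⊆ Δ.cone i) (h : x.1 ∈ τ.U i)
    (F : Fin R → Fin n → ℤ) (hF : ∀ l, F l ∈ Δ.perp i) (α : SF R p q) :
    (fun (δ : Fin p → Tan x.2) (ε : Fin q → Tan x.2) =>
      pullT (T x) F α (fun k => tanT τ x (hT.mem x) (δ k)) (fun k => tanT τ x (hT.mem x) (ε k))) =
    pullA x h (fun l => τ.un i (Multiplicative.ofAdd ⟨F l, hF l⟩)) α := by
  have hF' : ∀ l, F l ∈ Δ.perp (T x).i := fun l =>
    ((thm_FFace n).1 _ _ hx).2 (hF l)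
  have e1 : ∀ (δ : Tan x.2) (l : Fin R), evm (tanT τ x (hT.mem x) δ) (F l) =
      ev (unitsAt x h (fun l => τ.un i (Multiplicative.ofAdd ⟨F l, hF l⟩))) δ l := by
    intro δ l
    unfold evm
    rw [dif_pos (hF' l)]
    have h1 := GPul_unit τ x i (T x).i hx h (hT.mem x) (F l) (hF l) (hF' l)
    have h2 := congrArg (fun u => δ.1 (Additive.ofMul u)) h1
    exact h2
  have e2 : (fun l => evm (T x).φ (F l)) =
      logv x.2 (unitsAt x h (fun l => τ.un i (Multiplicative.ofAdd ⟨F l, hF l⟩))) := by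
    funext l
    have h1 := ((thm_FVal n Δ).1 (T x)).2.2.2.2 (F l) (hF' l)
    have h2 := hT.val x ⟨F l, perpOf_le_dualOf _ (hF' l)⟩
    have h3 := GPul_unit τ x i (T x).i hx h (hT.mem x) (F l) (hF l) (hF' l)
    have h4 := congrArg (fun u : (X.residueField x.1)ˣ => Real.log (x.2.v (u : X.residueField x.1))) h3
    rw [← h1, ← h2]
    exact h4
  funext δ ε
  unfold pullT pullA pullAt
  refine Finset.sum_congr rfl fun I _ => ?_
  rw [e2]
  congr 1
  · congr 1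
    ext k l
    simp only [Matrix.of_apply]
    exact e1 (δ k) (I l)
  · congr 1
    funext k l
    exact e1 (ε k) l

theorem thm_GPul (hG : St_GTro) : St_GPul := by
  intro n Δ K _ X s τ T hT p q
  obtain ⟨-, -, hG3⟩ := hG n Δ K X s τ
  obtain ⟨hcont, -, -⟩ := hG3 T hT
  have hU : ∀ (i : Δ.ι) (x : An s), Δ.cone (T x).i ⊆ Δ.cone i → x.1 ∈ τ.U i := fun i x hx =>
    τ.le i (T x).i hx (hT.mem x)
  constructor
  · intro ω hω x
    obtain ⟨R, F, α, hF, hα, hev⟩ := hω (T x)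
    refine ⟨τ.U (T x).i, R, fun l => τ.un (T x).i (Multiplicative.ofAdd ⟨F l, hF l⟩), α, hα, ?_⟩
    filter_upwards [(hcont.tendsto x).eventually hev] with y hy
    refine ⟨hU _ y hy.1, ?_⟩
    rw [← GPul_key τ T hT (T x).i y hy.1 (hU _ y hy.1) F hF α, ← hy.2]
    rfl
  · intro η ω hω x
    obtain ⟨R, F, α, hF, hα, hev⟩ := hω (T x)
    refine ⟨τ.U (T x).i, R, fun l => τ.un (T x).i (Multiplicative.ofAdd ⟨F l, hF l⟩), α, hα, ?_⟩
    filter_upwards [(hcont.tendsto x).eventually hev] with y hy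
    refine ⟨hU _ y hy.1, ?_, ?_⟩
    · rw [← GPul_key τ T hT (T x).i y hy.1 (hU _ y hy.1) F hF α, ← hy.2.1]
      rfl
    · rw [← GPul_key τ T hT (T x).i y hy.1 (hU _ y hy.1) F hF α.dd, ← hy.2.2]
      rfl

end TDC
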