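import Pool.Agent.TDC.StG

set_option autoImplicit false

/-!
# TDC, module GStd (helper8): `trop^*` at the generic points, for forms of type `(n,q)`
-/

namespace TDC

open scoped Topology
open AlgebraicGeometry CategoryTheory

section

variable {n : ℕ} {Δ : Fan n} {K : Type} [NormedField K] {X : Scheme.{0}} [IrreducibleSpace X]
  {s : X ⟶ Spec (.of K)}

/-- the product formula for the character `e_k` -/
private theorem GStd_prod {G : Type*} [CommGroup G] (t : Fin n → G) (k : Fin n) :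
    ∏ l, t l ^ (Pi.single k 1 : Fin n → ℤ) l = t k := by
  rw [Finset.prod_eq_single k]
  · rw [Pi.single_eq_same, zpow_one]
  · intro l _ hl
    rw [Pi.single_eq_of_ne hl, zpow_zero]
  · intro h
    exact absurd (Finset.mem_univ k) h

private theorem GStd_eval (τ : Toric Δ s) {t : Fin n → (X.residueField (genericPoint X))ˣ}
    (ht : IsCoord τ t) (i : Δ.ι) (h : genericPoint X ∈ τ.U i) (m : Δ.dual i) (k : Fin n)
    (hm : (m : Fin n → ℤ) = Pi.single k 1) :
    X.evaluation (τ.U i) (genericPoint X) h (τ.χ i (Multiplicative.ofAdd m)) = (t k : _) := by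
  rw [ht i h m, hm, GStd_prod]

private theorem GStd_tan (τ : Toric Δ s) {t : Fin n → (X.residueField (genericPoint X))ˣ}
    (ht : IsCoord τ t) (v : Pt (kmap s (genericPoint X))) {i : Δ.ι}
    (h : (gen s v).1 ∈ τ.U i) (hp : ∀ m, m ∈ Δ.perp i) (δ : Tan v) :
    crd (tanT τ (gen s v) h δ) = ev t δ := by
  funext k
  show evm (tanT τ (gen s v) h δ) (Pi.single k 1) = δ.1 (Additive.ofMul (t k))
  unfold evm
  rw [dif_pos (hp _)]
  have e : Units.map (X.evaluation (τ.U i) (genericPoint X) h).hom.toMonoidHom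
      (τ.un i (Multiplicative.ofAdd ⟨Pi.single k 1, hp _⟩)) = t k := by
    refine Units.ext ?_
    exact GStd_eval τ ht i h ⟨Pi.single k 1, perpOf_le_dualOf (Δ.gens i) (hp _)⟩ k rfl
  show δ.1 (Additive.ofMul (Units.map (X.evaluation (τ.U i) (genericPoint X) h).hom.toMonoidHom
      (τ.un i (Multiplicative.ofAdd ⟨Pi.single k 1, hp _⟩)))) = _
  rw [e]

end

theorem thm_GStd (h1 : St_FZero) (h2 : St_FJ) (h3 : St_GTro) (h4 : St_GCor) : St_GStd := by
  intro n Δ i₀ K _ X _ s τ T hT t hi₀ ht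
  obtain ⟨hdual, hperp, hle⟩ := (h1 n Δ).2.1 i₀ hi₀
  obtain ⟨-, hcrd, hall, -⟩ := h2 n Δ i₀ hi₀
  obtain ⟨-, hmem, hval⟩ := (h3 n Δ K X s τ).2.2 T hT
  have hgen := (h4 n Δ K X s τ).1
  have hcone : ∀ v : Pt (kmap s (genericPoint X)), Δ.cone (T (gen s v)).i = {0} := by
    intro v
    refine Set.Subset.antisymm ?_ ?_
    · rw [← hi₀]
      exact (hmem (gen s v) i₀).1 (hgen i₀)
    · rw [← hi₀]
      exact hle _
  have hpp : ∀ (v : Pt (kmap s (genericPoint X))) (m : Fin n → ℤ),
      m ∈ Δ.perp (T (gen s v)).i := by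
    intro v m
    rw [((h1 n Δ).2.1 _ (hcone v)).2.1]
    exact AddSubgroup.mem_top m
  have hc : ∀ v : Pt (kmap s (genericPoint X)), crd (T (gen s v)).φ = logv v t := by
    intro v
    funext k
    have hm : (Pi.single k 1 : Fin n → ℤ) ∈ Δ.dual (T (gen s v)).i :=
      perpOf_le_dualOf (Δ.gens (T (gen s v)).i) (hpp v _)
    have hv := hT.val (gen s v) ⟨Pi.single k 1, hm⟩
    have hv2 : absA (gen s v) (hT.mem (gen s v))
        (τ.χ _ (Multiplicative.ofAdd ⟨Pi.single k 1, hm⟩)) = v.v (t k) :=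
      congrArg v.v (GStd_eval τ ht _ (hT.mem (gen s v)) ⟨Pi.single k 1, hm⟩ k rfl)
    have hv3 : (T (gen s v)).val (Pi.single k 1) =
        Real.exp (evm (T (gen s v)).φ (Pi.single k 1)) := if_pos (hpp v _)
    show evm (T (gen s v)).φ (Pi.single k 1) = Real.log (v.v (t k))
    rw [← hv2, hv, hv3, Real.log_exp]
  have hq : ∀ (q : ℕ) (γ : (Fin n → ℝ) → (Fin n → ℝ) [⋀^Fin q]→L[ℝ] ℝ)
      (v : Pt (kmap s (genericPoint X))),
      tropPull τ T hT n q (extT Δ γ) (gen s v) = fun δ ε =>
        (Matrix.of fun k l => ev t (δ k) l).det * γ (logv v t) (fun k => ev t (ε k)) := by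
    intro q γ v
    funext δ ε
    show (if Δ.cone (T (gen s v)).i = {0} then
      (Matrix.of fun k l => crd (tanT τ (gen s v) (hT.mem (gen s v)) (δ k)) l).det *
        γ (crd (T (gen s v)).φ) (fun k => crd (tanT τ (gen s v) (hT.mem (gen s v)) (ε k)))
      else 0) = _
    rw [if_pos (hcone v), hc v]
    have e : ∀ δ : Tan v, crd (tanT τ (gen s v) (hT.mem (gen s v)) δ) = ev t δ :=
      fun δ => GStd_tan τ ht v _ (hpp v) δ
    have e1 : (fun k l => crd (tanT τ (gen s v) (hT.mem (gen s v)) (δ k)) l) =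
        fun k l => ev t (δ k) l := by
      funext k l
      exact congrFun (e (δ k)) l
    have e2 : (fun k => crd (tanT τ (gen s v) (hT.mem (gen s v)) (ε k))) =
        fun k => ev t (ε k) := by
      funext k
      exact e (ε k)
    rw [e1, e2]
  refine ⟨fun v => ?_, hq, fun b v => ?_⟩
  · rw [hall _ (hcone v), hc v]
  · rw [hq n (fun u => b u • dx id) v]
    funext δ ε
    show (Matrix.of fun k l => ev t (δ k) l).det *
      (b (logv v t) * (dx id) (fun k => ev t (ε k))) =
      b (logv v t) * (Matrix.of fun i j => ev t (δ i) j).det *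
        (Matrix.of fun i j => ev t (ε i) j).det
    rw [dx_apply]
    simp only [id]
    ring

end TDC
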