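import Pool.Agent.TDC.St2

/-!
# TDC: module TowR (the rational tower)
-/

namespace TDC

open Polynomial

/-- `L = K(S)` is algebraic over the subring generated by `S` -/
private theorem TowR_alg {K L : Type} [Field K] [Field L] [Algebra K L] {S : Set L}
    (h : IntermediateField.adjoin K S = ⊤) : Algebra.IsAlgebraic (Algebra.adjoin K S) L := by
  refine ⟨fun f => ?_⟩
  have hf : f ∈ IntermediateField.adjoin K S := by rw [h]; exact IntermediateField.mem_top
  obtain ⟨r, hr, s, hs, hrs⟩ := IntermediateField.mem_adjoin_iff_div.1 hf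
  by_cases h0 : s = 0
  · subst h0
    rw [div_zero] at hrs
    subst hrs
    exact isAlgebraic_zero
  · refine ⟨C ⟨s, hs⟩ * X - C ⟨r, hr⟩, ?_, ?_⟩
    · intro h1
      have h2 := congrArg (fun p => Polynomial.coeff p 1) h1
      simp only [coeff_sub, coeff_C_mul, coeff_X_one, mul_one, coeff_zero] at h2
      rw [coeff_C_of_ne_zero one_ne_zero, sub_zero] at h2
      exact h0 (congrArg Subtype.val h2)
    · rw [map_sub, map_mul, aeval_C, aeval_X, aeval_C]
      show s * f - r = 0
      rw [hrs, mul_div_cancel₀ _ h0, sub_self]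

/-- transcendence degree -/
private theorem TowR_trLe {K L : Type} [Field K] [Field L] [Algebra K L] (n : ℕ)
    (t : Fin n → Lˣ) (h : RatN K L n t) : TrLe K L n := by
  intro g hg
  have h1 := hg.cardinalMk_le_trdeg
  have := TowR_alg h.2
  have h2 := Algebra.IsAlgebraic.trdeg_le_cardinalMk K
    (Set.range fun i => ((t i : Lˣ) : L))
  have h3 : Cardinal.mk (Set.range fun i => ((t i : Lˣ) : L)) ≤ Cardinal.mk (Fin n) :=
    Cardinal.mk_range_le
  have h4 := (h1.trans h2).trans h3
  rw [Cardinal.mk_fin, Cardinal.mk_fin] at h4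
  have h5 : n + 1 ≤ n := by exact_mod_cast h4
  omega

/-- finite generation -/
private theorem TowR_fg {K L : Type} [Field K] [Field L] [Algebra K L] (n : ℕ)
    (t : Fin n → Lˣ) (h : RatN K L n t) : (⊤ : IntermediateField K L).FG := by
  rw [← h.2]
  exact IntermediateField.fg_adjoin_of_finite (Set.finite_range _)

/-- the step -/
private theorem TowR_step {K L : Type} [Field K] [Field L] [Algebra K L] (n : ℕ)
    (t : Fin (n + 1) → Lˣ) (h : RatN K L (n + 1) t) :
    ∃ (L' : IntermediateField K L) (t' : Fin n → L'ˣ),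
      RatN K L' n t' ∧ RatOver L' L (t (Fin.last n) : L) ∧
        ∀ i : Fin n, ((t' i : L') : L) = t i.castSucc := by
  set x : Fin (n + 1) → L := fun i => ((t i : Lˣ) : L) with hx
  have hmem : ∀ i : Fin n, ((t i.castSucc : Lˣ) : L) ∈
      IntermediateField.adjoin K (x '' Set.range (Fin.castSucc : Fin n → Fin (n + 1))) :=
    fun i => IntermediateField.subset_adjoin K _ ⟨i.castSucc, ⟨i, rfl⟩, rfl⟩
  have hne : ∀ i : Fin n, (⟨((t i.castSucc : Lˣ) : L), hmem i⟩ :
      IntermediateField.adjoin K (x '' Set.range (Fin.castSucc : Fin n → Fin (n + 1)))) ≠ 0 := by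
    intro i hi
    exact (t i.castSucc).ne_zero (congrArg Subtype.val hi)
  refine ⟨IntermediateField.adjoin K (x '' Set.range (Fin.castSucc : Fin n → Fin (n + 1))),
    fun i => Units.mk0 ⟨((t i.castSucc : Lˣ) : L), hmem i⟩ (hne i), ⟨?_, ?_⟩, ⟨?_, ?_⟩,
    fun i => rfl⟩
  · have h1 : AlgebraicIndependent K (fun i : Fin n => ((t i.castSucc : Lˣ) : L)) :=
      h.1.comp _ (Fin.castSucc_injective n)
    exact AlgebraicIndependent.of_comp (IntermediateField.val _) h1
  · apply IntermediateField.map_injective (IntermediateField.val _)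
    rw [IntermediateField.adjoin_map, ← Set.range_comp, ← AlgHom.fieldRange_eq_map,
      IntermediateField.fieldRange_val]
    have h2 : (Set.range fun i : Fin n => x i.castSucc) =
        x '' Set.range (Fin.castSucc : Fin n → Fin (n + 1)) := Set.range_comp x Fin.castSucc
    exact congrArg (IntermediateField.adjoin K) h2
  · rw [IntermediateField.transcendental_adjoin_iff]
    exact h.1.transcendental_adjoin (by
      rintro ⟨i, hi⟩
      exact absurd hi (Fin.castSucc_lt_last i).ne)
  · intro f
    have h1 : IntermediateField.adjoin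
        (IntermediateField.adjoin K (x '' Set.range (Fin.castSucc : Fin n → Fin (n + 1))))
        {((t (Fin.last n) : Lˣ) : L)} = ⊤ := by
      apply IntermediateField.restrictScalars_injective K
      rw [IntermediateField.adjoin_adjoin_left, IntermediateField.restrictScalars_top, ← h.2]
      congr 1
      ext y
      constructor
      · rintro (⟨j, ⟨i, rfl⟩, rfl⟩ | hy)
        · exact ⟨i.castSucc, rfl⟩
        · exact ⟨Fin.last n, (Set.mem_singleton_iff.1 hy).symm⟩
      · rintro ⟨j, rfl⟩
        induction j using Fin.lastCases with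
        | last => exact Or.inr rfl
        | cast i => exact Or.inl ⟨i.castSucc, ⟨i, rfl⟩, rfl⟩
    have h2 : f ∈ IntermediateField.adjoin
        (IntermediateField.adjoin K (x '' Set.range (Fin.castSucc : Fin n → Fin (n + 1))))
        {((t (Fin.last n) : Lˣ) : L)} := by
      rw [h1]; exact IntermediateField.mem_top
    obtain ⟨r, s, hrs⟩ := (IntermediateField.mem_adjoin_simple_iff _ f).1 h2
    by_cases h0 : aeval ((t (Fin.last n) : Lˣ) : L) s = 0
    · refine ⟨0, 1, ?_, ?_⟩
      · rw [map_one]; exact one_ne_zero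
      · rw [hrs, h0, div_zero, zero_mul, map_zero]
    · exact ⟨r, s, h0, by rw [hrs, div_mul_cancel₀ _ h0]⟩

theorem thm_TowR : St_TowR := by
  refine ⟨?_, ?_⟩
  · intro K L _ _ _ n t h
    exact ⟨TowR_trLe n t h, TowR_fg n t h⟩
  · intro K L _ _ _ n t h
    exact TowR_step n t h

end TDC
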