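import Pool.Agent.TDC.StG
import Pool.Agent.TDC.FGord
import Pool.Agent.TDC.TowR

/-!
# TDC: module GSup (supports of forms of type `(n,q)` on the analytification of a toric variety)
-/

set_option autoImplicit false

namespace TDC

open scoped Topology
open AlgebraicGeometry CategoryTheory

section field

variable {K M : Type} [NormedField K] [Field M] {φ : K →+* M}

private theorem GSup_cont {R : ℕ} (F : Fin R → Mˣ) : Continuous fun x : Pt φ => logv x F := by
  refine continuous_pi fun i => ?_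
  have h1 : Continuous fun x : Pt φ => x.v (F i : M) :=
    (continuous_apply (F i : M)).comp continuous_induced_dom
  exact h1.log fun x => (x.v.pos (F i).ne_zero).ne'

/-- values of monomials -/
private theorem GSup_mono {n : ℕ} (x : Pt φ) (t : Fin n → Mˣ) (m : Fin n → ℤ) :
    x.v ((∏ k, t k ^ m k : Mˣ) : M) = Real.exp (pr m (logv x t)) := by
  rw [Units.coe_prod, map_prod]
  simp only [pr, logv]
  rw [Real.exp_sum]
  refine Finset.prod_congr rfl fun k _ => ?_
  have h : 0 < x.v (t k : M) := x.v.pos (t k).ne_zero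
  rw [Units.val_zpow_eq_zpow_val, map_zpow₀, mul_comm, Real.exp_mul, Real.exp_log h,
    Real.rpow_intCast]

end field

section scheme

variable {K : Type} [NormedField K] {X : Scheme.{0}} {s : X ⟶ Spec (.of K)}

private theorem GSup_res {U V : X.Opens} (hVU : V ≤ U) (ξ : X) (h : ξ ∈ V) (f : Γ(X, U)) :
    X.evaluation V ξ h (X.presheaf.map (homOfLE hVU).op f) = X.evaluation U ξ (hVU h) f := by
  have e : X.presheaf.map (homOfLE hVU).op ≫ X.evaluation V ξ h = X.evaluation U ξ (hVU h) := by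
    rw [← X.germ_residue ξ h, ← X.germ_residue ξ (hVU h), ← Category.assoc,
      X.presheaf.germ_res (homOfLE hVU) ξ h]
  exact congrArg (fun g => g.hom f) e

private theorem GSup_const (U : X.Opens) (ξ : X) (h : ξ ∈ U) (a : K) :
    X.evaluation U ξ h (kΓ s U a) = kmap s ξ a :=
  GSup_res (le_top : U ≤ ⊤) ξ h _

/-- a function of the affine toric variety is bounded where the characters are bounded -/
private theorem GSup_le {n : ℕ} {Δ : Fan n} [IrreducibleSpace X] (τ : Toric Δ s)
    {t : Fin n → (X.residueField (genericPoint X))ˣ} (ht : IsCoord τ t) (i : Δ.ι)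
    (hη : genericPoint X ∈ τ.U i) (v : Pt (kmap s (genericPoint X))) (c : Δ.dual i → ℝ)
    (hc : ∀ m : Δ.dual i, pr m (logv v t) ≤ c m) (a : Δ.dual i →₀ K) :
    v.v (X.evaluation (τ.U i) (genericPoint X) hη
      (a.sum fun m b => kΓ s (τ.U i) b * τ.χ i (Multiplicative.ofAdd m))) ≤
      a.sum fun m b => ‖b‖ * Real.exp (c m) := by
  unfold Finsupp.sum
  have e : X.evaluation (τ.U i) (genericPoint X) hη
      (∑ m ∈ a.support, kΓ s (τ.U i) (a m) * τ.χ i (Multiplicative.ofAdd m)) =
      ∑ m ∈ a.support, kmap s (genericPoint X) (a m) *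
        ((∏ k, t k ^ (m : Fin n → ℤ) k : (X.residueField (genericPoint X))ˣ) :
          X.residueField (genericPoint X)) := by
    show (X.evaluation (τ.U i) (genericPoint X) hη).hom _ = _
    rw [map_sum]
    refine Finset.sum_congr rfl fun m _ => ?_
    rw [map_mul]
    exact congrArg₂ (fun x y => x * y) (GSup_const (τ.U i) (genericPoint X) hη (a m)) (ht i hη m)
  rw [e]
  refine (v.v.sum_le _ _).trans (Finset.sum_le_sum fun m _ => ?_)
  rw [map_mul, v.ext, GSup_mono]
  exact mul_le_mul_of_nonneg_left (Real.exp_le_exp.2 (hc m)) (norm_nonneg _)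

end scheme

/-- finitely many inequalities imply all -/
private theorem GSup_bd {n : ℕ} (D : AddSubmonoid (Fin n → ℤ)) (G : Finset (Fin n → ℤ))
    (hG : AddSubmonoid.closure (G : Set (Fin n → ℤ)) = D) (c₀ : (Fin n → ℤ) → ℝ)
    (m : Fin n → ℤ) (hm : m ∈ D) :
    ∃ C : ℝ, ∀ u : Fin n → ℝ, (∀ g ∈ G, pr g u < c₀ g) → pr m u ≤ C := by
  rw [← hG] at hm
  induction hm using AddSubmonoid.closure_induction with
  | mem g hg => exact ⟨c₀ g, fun u hu => (hu g hg).le⟩
  | zero => exact ⟨0, fun u _ => by simp [pr]⟩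
  | add a b _ _ ha hb =>
    obtain ⟨A, hA⟩ := ha
    obtain ⟨B, hB⟩ := hb
    refine ⟨A + B, fun u hu => ?_⟩
    have h : pr (a + b) u = pr a u + pr b u := by
      simp only [pr, Pi.add_apply, Int.cast_add, add_mul, Finset.sum_add_distrib]
    rw [h]
    exact add_le_add (hA u hu) (hB u hu)

private theorem GSup_pr {n : ℕ} (m : Fin n → ℤ) : Continuous fun u : Fin n → ℝ => pr m u := by
  unfold pr
  exact continuous_finsetSum _ fun k _ => continuous_const.mul (continuous_apply k)

theorem thm_GSup (h1 : St_GAff) (h2 : St_GCor) (h3 : St_DnA) : St_GSup := by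
  intro n Δ K _ X _ s τ t ht q ω hω
  obtain ⟨hη, t', -, hrat⟩ := h2 n Δ K X s τ
  have hT := thm_TowR.1
  have hTr := (@hT K (X.residueField (genericPoint X)) _ _
    (kmap s (genericPoint X)).toAlgebra n t' hrat).1
  obtain ⟨-, -, -, hC, -⟩ := h3 K X s n q hTr ω hω
  have hkey : ∀ (i : Δ.ι) (c : Δ.dual i → ℝ), ∃ C' : Set (Pt (kmap s (genericPoint X))),
      IsCompact C' ∧ ∀ v, (∀ m : Δ.dual i, pr m (logv v t) ≤ c m) → v ∉ C' →
        ω (gen s v) = 0 := by
    intro i c
    obtain ⟨C', hC', -, h0⟩ := hC _ (h1 K X s (τ.U i) (τ.aff i)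
      (fun f => ((Equiv.ofBijective _ (τ.basis i)).symm f).sum
        fun m b => ‖b‖ * Real.exp (c m)))
    refine ⟨C', hC', fun v hv hvC => h0 v ⟨hη i, fun f => ?_⟩ hvC⟩
    have hf := (Equiv.ofBijective _ (τ.basis i)).apply_symm_apply f
    have h := GSup_le τ ht i (hη i) v c hv ((Equiv.ofBijective _ (τ.basis i)).symm f)
    have hf' : (((Equiv.ofBijective _ (τ.basis i)).symm f).sum
        fun m b => kΓ s (τ.U i) b * τ.χ i (Multiplicative.ofAdd m)) = f := hf
    rw [hf'] at h
    exact h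
  refine ⟨⟨closure {u | ∃ v : Pt (kmap s (genericPoint X)), ω (gen s v) ≠ 0 ∧ logv v t = u},
    ⟨isClosed_closure, fun i c => ?_⟩, fun v hv => subset_closure ⟨v, hv, rfl⟩⟩,
    fun C hCc => ?_⟩
  · classical
    obtain ⟨G, hG⟩ := thm_FGord n (Δ.gens i)
    set c₀ : (Fin n → ℤ) → ℝ := fun m => if h : m ∈ Δ.dual i then c ⟨m, h⟩ + 1 else 0 with hc₀
    have hGm : ∀ g ∈ G, g ∈ Δ.dual i := by
      intro g hg
      have h : g ∈ AddSubmonoid.closure (G : Set (Fin n → ℤ)) := AddSubmonoid.subset_closure hg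
      rw [hG] at h
      exact h
    have hb : ∀ m : Δ.dual i, ∃ C : ℝ, ∀ u : Fin n → ℝ, (∀ g ∈ G, pr g u < c₀ g) →
        pr m u ≤ C := fun m => GSup_bd (Δ.dual i) G hG c₀ m m.2
    choose c' hc' using hb
    obtain ⟨C', hC', h0⟩ := hkey i c'
    have hW : IsOpen {u : Fin n → ℝ | ∀ g ∈ G, pr g u < c₀ g} := by
      have e : {u : Fin n → ℝ | ∀ g ∈ G, pr g u < c₀ g} =
          ⋂ g ∈ G, {u : Fin n → ℝ | pr g u < c₀ g} := by
        ext u
        simp only [Set.mem_setOf_eq, Set.mem_iInter]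
      rw [e]
      exact isOpen_biInter_finset fun g _ => isOpen_lt (GSup_pr g) continuous_const
    have hbdd : Bornology.IsBounded ((fun v : Pt (kmap s (genericPoint X)) => logv v t) '' C') :=
      (hC'.image (GSup_cont t)).isBounded
    refine (hbdd.closure).subset ?_
    rintro u ⟨hu1, hu2⟩
    have huW : u ∈ {u : Fin n → ℝ | ∀ g ∈ G, pr g u < c₀ g} := by
      intro g hg
      have h : c₀ g = c ⟨g, hGm g hg⟩ + 1 := by
        rw [hc₀]
        exact dif_pos (hGm g hg)
      rw [h]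
      have h' := hu2 ⟨g, hGm g hg⟩
      exact lt_of_le_of_lt h' (lt_add_one _)
    have hu3 := hW.inter_closure ⟨huW, hu1⟩
    refine closure_mono ?_ hu3
    rintro w ⟨hw1, v, hv, rfl⟩
    refine ⟨v, ?_, rfl⟩
    by_contra hvC
    exact hv (h0 v (fun m => hc' m _ hw1) hvC)
  · obtain ⟨i₀⟩ := Δ.ne
    have hb : ∀ m : Δ.dual i₀, ∃ B : ℝ, ∀ u ∈ C, ‖pr m u‖ ≤ B := fun m =>
      hCc.exists_bound_of_continuousOn (GSup_pr (m : Fin n → ℤ)).continuousOn
    choose c hc using hb
    obtain ⟨C', hC', h0⟩ := hkey i₀ c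
    refine ⟨C' ∩ (fun v : Pt (kmap s (genericPoint X)) => logv v t) ⁻¹' C,
      hC'.inter_right (hCc.isClosed.preimage (GSup_cont t)), fun v hv => hv.2, ?_⟩
    intro v hvC hv
    exact h0 v (fun m => (le_abs_self _).trans (hc m _ hvC)) fun h => hv ⟨h, hvC⟩

end TDC
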