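import Pool.Agent.TDC.StG

/-!
# TDC: module GTro, the tropicalization map
-/

set_option autoImplicit false

namespace TDC

open scoped Topology
open AlgebraicGeometry CategoryTheory

section GTro

variable {K : Type} [NormedField K] {X : Scheme.{0}} {s : X ⟶ Spec (.of K)}

private theorem GTro_abs_mul (x : An s) {U : X.Opens} (h : x.1 ∈ U) (f g : Γ(X, U)) :
    absA x h (f * g) = absA x h f * absA x h g := by
  unfold absA
  rw [map_mul, map_mul]

private theorem GTro_abs_one (x : An s) {U : X.Opens} (h : x.1 ∈ U) :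
    absA x h (1 : Γ(X, U)) = 1 := by
  unfold absA
  rw [map_one, map_one]

private theorem GTro_abs_nonneg (x : An s) {U : X.Opens} (h : x.1 ∈ U) (f : Γ(X, U)) :
    0 ≤ absA x h f := AbsoluteValue.nonneg _ _

private theorem GTro_abs_ne (x : An s) {U : X.Opens} (h : x.1 ∈ U) (f : Γ(X, U)) :
    absA x h f ≠ 0 ↔ x.1 ∈ X.basicOpen f := by
  unfold absA
  rw [Ne, AbsoluteValue.eq_zero]
  exact X.evaluation_ne_zero_iff_mem_basicOpen x.1 h f

private theorem GTro_abs_res (x : An s) {U V : X.Opens} (hUV : U ≤ V) (hU : x.1 ∈ U)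
    (hV : x.1 ∈ V) (f : Γ(X, V)) :
    absA x hU ((X.presheaf.map (homOfLE hUV).op).hom f) = absA x hV f := by
  unfold absA
  have h : X.evaluation U x.1 hU ((X.presheaf.map (homOfLE hUV).op).hom f) =
      X.evaluation V x.1 hV f := by
    have h1 : X.presheaf.map (homOfLE hUV).op ≫ X.evaluation U x.1 hU = X.evaluation V x.1 hV := by
      rw [← Scheme.germ_residue, ← Scheme.germ_residue, ← Category.assoc,
        TopCat.Presheaf.germ_res]
    rw [← h1]
    rfl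
  rw [h]

variable {n : ℕ} {Δ : Fan n}

private theorem GTro_perp_dual (i : Δ.ι) {m : Fin n → ℤ} (hm : m ∈ Δ.perp i) : m ∈ Δ.dual i :=
  perpOf_le_dualOf (Δ.gens i) hm

private theorem GTro_chi_add (τ : Toric Δ s) (x : An s) (i : Δ.ι) (h : x.1 ∈ τ.U i)
    (a b : Δ.dual i) :
    absA x h (τ.χ i (Multiplicative.ofAdd (a + b))) =
      absA x h (τ.χ i (Multiplicative.ofAdd a)) * absA x h (τ.χ i (Multiplicative.ofAdd b)) := by
  rw [ofAdd_add, map_mul, GTro_abs_mul]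

private theorem GTro_chi_zero (τ : Toric Δ s) (x : An s) (i : Δ.ι) (h : x.1 ∈ τ.U i) :
    absA x h (τ.χ i (Multiplicative.ofAdd 0)) = 1 := by
  rw [ofAdd_zero, map_one, GTro_abs_one]

/-- characters in `perp` do not vanish -/
private theorem GTro_perp_ne (τ : Toric Δ s) (x : An s) (i : Δ.ι) (h : x.1 ∈ τ.U i)
    (m : Δ.dual i) (hm : (m : Fin n → ℤ) ∈ Δ.perp i) :
    absA x h (τ.χ i (Multiplicative.ofAdd m)) ≠ 0 := by
  have hneg : -(m : Fin n → ℤ) ∈ Δ.perp i := neg_mem hm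
  have h1 := GTro_chi_add τ x i h m ⟨-(m : Fin n → ℤ), GTro_perp_dual i hneg⟩
  have h2 : m + ⟨-(m : Fin n → ℤ), GTro_perp_dual i hneg⟩ = (0 : Δ.dual i) := by
    apply Subtype.ext
    simp
  rw [h2, GTro_chi_zero] at h1
  intro h3
  rw [h3, zero_mul] at h1
  exact one_ne_zero h1

private theorem GTro_exists_point (hF : St_FFace) (τ : Toric Δ s) (x : An s) :
    ∃ y : NR Δ, ∃ h : x.1 ∈ τ.U y.i, ∀ m : Δ.dual y.i,
      absA x h (τ.χ _ (Multiplicative.ofAdd m)) = y.val m := by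
  classical
  have := Δ.fin
  obtain ⟨i, hi⟩ := Set.Finite.exists_minimalFor (fun i => Δ.cone i) {i | x.1 ∈ τ.U i}
    (Set.toFinite _) (τ.cover x.1)
  have hxi : x.1 ∈ τ.U i := hi.1
  have key : ∀ m : Δ.dual i, absA x hxi (τ.χ i (Multiplicative.ofAdd m)) ≠ 0 →
      (m : Fin n → ℤ) ∈ Δ.perp i := by
    intro m hm
    obtain ⟨j, hj⟩ := Δ.face i m m.2
    have hUj : τ.U j = X.basicOpen (τ.χ i (Multiplicative.ofAdd m)) := τ.basic i j m hj
    have hxj : x.1 ∈ τ.U j := by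
      rw [hUj]
      exact (GTro_abs_ne x hxi _).1 hm
    have hle : Δ.cone j ⊆ Δ.cone i := by
      unfold Fan.cone
      rw [hj]
      exact Set.inter_subset_left
    have hle' : Δ.cone i ⊆ Δ.cone j := hi.2 hxj hle
    have hij : i = j := Δ.inj i j (Set.Subset.antisymm hle' hle)
    have h1 := ((hF n).2 (Δ.gens i) (Δ.gens j) m m.2 hj).1
    rw [← hij] at h1
    exact h1
  let φ : Δ.perp i →+ ℝ :=
    { toFun := fun m => Real.log (absA x hxi
        (τ.χ i (Multiplicative.ofAdd ⟨(m : Fin n → ℤ), GTro_perp_dual i m.2⟩)))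
      map_zero' := by
        have h0 : (⟨((0 : Δ.perp i) : Fin n → ℤ), GTro_perp_dual i (0 : Δ.perp i).2⟩ : Δ.dual i)
            = 0 := rfl
        rw [h0, GTro_chi_zero, Real.log_one]
      map_add' := by
        intro a b
        have h0 : (⟨((a + b : Δ.perp i) : Fin n → ℤ), GTro_perp_dual i (a + b).2⟩ : Δ.dual i)
            = ⟨(a : Fin n → ℤ), GTro_perp_dual i a.2⟩ +
              ⟨(b : Fin n → ℤ), GTro_perp_dual i b.2⟩ := rfl
        rw [h0, GTro_chi_add, Real.log_mul]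
        · exact GTro_perp_ne τ x i hxi _ a.2
        · exact GTro_perp_ne τ x i hxi _ b.2 }
  refine ⟨⟨i, φ⟩, hxi, ?_⟩
  intro m
  unfold NR.val
  split_ifs with hm
  · have h1 : evm φ (m : Fin n → ℤ) = Real.log (absA x hxi (τ.χ i (Multiplicative.ofAdd m))) := by
      unfold evm
      rw [dif_pos hm]
      rfl
    show _ = Real.exp (evm φ (m : Fin n → ℤ))
    rw [h1, Real.exp_log]
    exact lt_of_le_of_ne (GTro_abs_nonneg x hxi _) (GTro_perp_ne τ x i hxi m hm).symm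
  · by_contra hne
    exact hm (key m hne)

private theorem GTro_mem (hV : St_FVal) (τ : Toric Δ s) (T : An s → NR Δ) (hT : IsTropMap τ T)
    (x : An s) (j : Δ.ι) : x.1 ∈ τ.U j ↔ Δ.cone (T x).i ⊆ Δ.cone j := by
  constructor
  · intro hxj
    obtain ⟨k, hk, ⟨m₀, hm₀, hk1⟩, _⟩ := Δ.inter (T x).i j
    have hxk : x.1 ∈ τ.U k := by
      rw [← τ.inter (T x).i j k hk]
      exact ⟨hT.mem x, hxj⟩
    have hb := τ.basic (T x).i k ⟨m₀, hm₀⟩ hk1
    rw [hb] at hxk
    have h1 := (GTro_abs_ne x (hT.mem x) _).2 hxk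
    rw [hT.val x ⟨m₀, hm₀⟩] at h1
    have h2 : m₀ ∈ Δ.perp (T x).i := (((hV n Δ).1 (T x)).2.2.2.1 m₀).1 h1
    intro u hu
    have h3 : pr m₀ u = 0 := by
      obtain ⟨a, _, rfl⟩ := hu
      unfold pr
      have h4 : ∀ v ∈ Δ.gens (T x).i, ∑ k, (m₀ k : ℝ) * (v k : ℝ) = 0 := by
        intro v hv
        have h5 := h2 v hv
        have h6 : ((∑ k, m₀ k * v k : ℤ) : ℝ) = 0 := by rw [h5]; simp
        push_cast at h6
        exact h6
      have h7 : ∑ k, (m₀ k : ℝ) * (∑ v ∈ Δ.gens (T x).i, a v • fun k => (v k : ℝ)) k =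
          ∑ v ∈ Δ.gens (T x).i, a v * ∑ k, (m₀ k : ℝ) * (v k : ℝ) := by
        simp_rw [Finset.sum_apply, Finset.mul_sum]
        rw [Finset.sum_comm]
        refine Finset.sum_congr rfl fun v _ => Finset.sum_congr rfl fun k _ => ?_
        simp only [Pi.smul_apply, smul_eq_mul]
        ring
      rw [h7]
      refine Finset.sum_eq_zero fun v hv => ?_
      rw [h4 v hv, mul_zero]
    have h8 : u ∈ faceOf (Δ.gens (T x).i) m₀ := ⟨hu, h3⟩
    rw [← hk1, hk] at h8
    exact h8.2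
  · intro h
    exact τ.le j (T x).i h (hT.mem x)

private theorem GTro_val (hF : St_FFace) (hV : St_FVal) (τ : Toric Δ s) (T : An s → NR Δ)
    (hT : IsTropMap τ T) (x : An s) (j : Δ.ι) (h : x.1 ∈ τ.U j) (m : Δ.dual j) :
    absA x h (τ.χ j (Multiplicative.ofAdd m)) = (T x).val m := by
  have h1 : Δ.cone (T x).i ⊆ Δ.cone j := (GTro_mem hV τ T hT x j).1 h
  have h2 : (m : Fin n → ℤ) ∈ Δ.dual (T x).i :=
    ((hF n).1 (Δ.gens (T x).i) (Δ.gens j) h1).1 m.2
  have h3 := τ.res j (T x).i h1 m ⟨(m : Fin n → ℤ), h2⟩ rfl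
  rw [← GTro_abs_res x (τ.le j (T x).i h1) (hT.mem x) h, h3]
  exact hT.val x ⟨(m : Fin n → ℤ), h2⟩

end GTro

theorem thm_GTro : St_FFace → St_FVal → St_GTro := by
  intro hF hV n Δ K _ X s τ
  refine ⟨?_, ?_, ?_⟩
  · choose T hT using fun x : An s => GTro_exists_point hF τ x
    exact ⟨T, ⟨fun x => (hT x).1, fun x => (hT x).2⟩⟩
  · intro T T' hT hT'
    funext x
    have h1 : Δ.cone (T x).i ⊆ Δ.cone (T' x).i := (GTro_mem hV τ T hT x _).1 (hT'.mem x)
    have h2 : Δ.cone (T' x).i ⊆ Δ.cone (T x).i := (GTro_mem hV τ T' hT' x _).1 (hT.mem x)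
    refine (hV n Δ).2.1 (T x) (T' x) h1 h2 ?_
    intro m hm
    rw [← hT.val x ⟨m, hm⟩]
    exact GTro_val hF hV τ T' hT' x (T x).i (hT.mem x) ⟨m, hm⟩
  · intro T hT
    refine ⟨?_, fun x j => GTro_mem hV τ T hT x j,
      fun x j h m => GTro_val hF hV τ T hT x j h m⟩
    apply continuous_generateFrom_iff.2
    rintro _ ⟨j, m, a, b, rfl⟩
    have h1 : T ⁻¹' {y | Δ.cone y.i ⊆ Δ.cone j ∧ a < y.val m ∧ y.val m < b} =
        {x : An s | ∃ h : x.1 ∈ τ.U j, a < absA x h (τ.χ j (Multiplicative.ofAdd m)) ∧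
          absA x h (τ.χ j (Multiplicative.ofAdd m)) < b} := by
      ext x
      constructor
      · rintro ⟨h2, h3, h4⟩
        have h5 : x.1 ∈ τ.U j := (GTro_mem hV τ T hT x j).2 h2
        refine ⟨h5, ?_, ?_⟩
        · rw [GTro_val hF hV τ T hT x j h5 m]
          exact h3
        · rw [GTro_val hF hV τ T hT x j h5 m]
          exact h4
      · rintro ⟨h5, h3, h4⟩
        rw [GTro_val hF hV τ T hT x j h5 m] at h3 h4
        exact ⟨(GTro_mem hV τ T hT x j).1 h5, h3, h4⟩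
    rw [h1]
    exact TopologicalSpace.isOpen_generateFrom_of_mem ⟨τ.U j, _, a, b, rfl⟩

end TDC
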