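import Pool.Agent.TDC.StT

/-!
# TDC, module Gen: a reference tuple.
-/

namespace TDC

open scoped Topology

/-- an integer matrix which is transversal to finitely many matrices of full rank -/
private theorem Gen_matrix {n R : ℕ} (S : Finset (Matrix (Fin R) (Fin n) ℝ))
    (hS : ∀ A ∈ S, ∃ B : Matrix (Fin n) (Fin R) ℝ, (B * A).det ≠ 0) :
    ∃ B : Matrix (Fin n) (Fin R) ℤ, ∀ A ∈ S, (B.map (fun z : ℤ => (z : ℝ)) * A).det ≠ 0 := by
  classical
  let X : Matrix (Fin n) (Fin R) (MvPolynomial (Fin n × Fin R) ℝ) :=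
    Matrix.of fun i j => MvPolynomial.X (i, j)
  let D : Matrix (Fin R) (Fin n) ℝ → MvPolynomial (Fin n × Fin R) ℝ := fun A =>
    (X * A.map (fun a => (MvPolynomial.C a : MvPolynomial (Fin n × Fin R) ℝ))).det
  have hev : ∀ (A : Matrix (Fin R) (Fin n) ℝ) (z : Fin n × Fin R → ℝ),
      MvPolynomial.eval z (D A) = ((Matrix.of fun i j => z (i, j)) * A).det := by
    intro A z
    show MvPolynomial.eval z (Matrix.det _) = _
    rw [RingHom.map_det]
    congr 1
    ext i j
    simp [X, Matrix.mul_apply, RingHom.mapMatrix_apply]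
  have hD : ∀ A ∈ S, D A ≠ 0 := by
    intro A hA h0
    obtain ⟨B, hB⟩ := hS A hA
    apply hB
    have h1 := hev A (fun p => B p.1 p.2)
    rw [h0, map_zero] at h1
    exact h1.symm
  have hP : (∏ A ∈ S, D A) ≠ 0 := Finset.prod_ne_zero_iff.mpr hD
  have hinf : ∀ _ : Fin n × Fin R, (Set.range (fun z : ℤ => (z : ℝ))).Infinite := fun _ =>
    Set.infinite_range_of_injective Int.cast_injective
  have hex : ∃ x ∈ Set.pi Set.univ
      (fun _ : Fin n × Fin R => Set.range (fun z : ℤ => (z : ℝ))),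
      MvPolynomial.eval x (∏ A ∈ S, D A) ≠ 0 := by
    by_contra hne
    push Not at hne
    apply hP
    refine MvPolynomial.funext_set (fun _ : Fin n × Fin R => Set.range (fun z : ℤ => (z : ℝ)))
      hinf ?_
    intro x hx
    rw [hne x hx, map_zero]
  obtain ⟨x, hx, hxe⟩ := hex
  have hx' : ∀ p, ∃ z : ℤ, (z : ℝ) = x p := fun p => hx p (Set.mem_univ p)
  choose z hz using hx'
  refine ⟨Matrix.of fun i j => z (i, j), ?_⟩
  intro A hA
  rw [map_prod] at hxe
  have h3 := Finset.prod_ne_zero_iff.mp hxe A hA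
  rw [hev] at h3
  have h4 : (Matrix.of fun i j => z (i, j) : Matrix (Fin n) (Fin R) ℤ).map
      (fun z : ℤ => (z : ℝ)) = Matrix.of fun i j => x (i, j) := by
    ext i j
    simp [hz]
  rw [h4]
  exact h3

/-- value of a homomorphism on a product of powers -/
private theorem Gen_hom {M : Type} [Field M] {m : ℕ} (δ : Additive Mˣ →+ ℝ) (g : Fin m → Mˣ)
    (k : Fin m → ℤ) :
    δ (Additive.ofMul (∏ i, g i ^ k i)) = ∑ i, (k i : ℝ) * δ (Additive.ofMul (g i)) := by
  rw [ofMul_prod, map_sum]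
  refine Finset.sum_congr rfl fun i _ => ?_
  rw [ofMul_zpow, map_zsmul, zsmul_eq_mul]

theorem thm_Gen : St_Fini → St_Tng → St_IndG → St_Gen := by
  intro hFini hTng hIndG K L _ _ _ n R hTr F
  classical
  have hsh := fun I : Fin n → Fin R => hFini K L n hTr R F I
  choose 𝒦 hsec hshe using hsh
  let S : Finset (Matrix (Fin R) (Fin n) ℝ) :=
    Finset.univ.biUnion fun I : Fin n → Fin R => (𝒦 I).image Prod.fst
  have hS : ∀ A ∈ S, ∃ B : Matrix (Fin n) (Fin R) ℝ, (B * A).det ≠ 0 := by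
    intro A hA
    obtain ⟨I, _, hA'⟩ := Finset.mem_biUnion.mp hA
    obtain ⟨A₀, hA₀, rfl⟩ := Finset.mem_image.mp hA'
    refine ⟨Matrix.of fun i j => if j = I i then 1 else 0, ?_⟩
    have h1 : (Matrix.of fun i j => if j = I i then (1 : ℝ) else 0 :
        Matrix (Fin n) (Fin R) ℝ) * A₀.1 = 1 := by
      ext i j
      have h0 := hsec I A₀ hA₀ 0 i
      have h1 := hsec I A₀ hA₀ (Pi.single j 1) i
      rw [Matrix.mulVec_zero] at h0
      rw [Matrix.mulVec_single_one] at h1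
      simp only [Pi.add_apply, Pi.zero_apply, add_zero, Matrix.col_apply] at h0 h1
      rw [h0, zero_add] at h1
      rw [Matrix.mul_apply]
      simp only [Matrix.of_apply, ite_mul, one_mul, zero_mul, Finset.sum_ite_eq',
        Finset.mem_univ, if_true]
      rw [h1, Matrix.one_apply, Pi.single_apply]
    rw [h1, Matrix.det_one]
    exact one_ne_zero
  obtain ⟨B, hB⟩ := Gen_matrix S hS
  refine ⟨fun j => ∏ i, F i ^ B j i, ?_⟩
  intro I y hy
  have hG := hIndG K L (algebraMap K L) n y (F ∘ I) hy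
  obtain ⟨A₀, hA₀, -, hev⟩ := hshe I y hG
  have hdet := hB A₀.1 (Finset.mem_biUnion.mpr ⟨I, Finset.mem_univ _,
    Finset.mem_image_of_mem _ hA₀⟩)
  set C : Matrix (Fin n) (Fin n) ℝ := B.map (fun z : ℤ => (z : ℝ)) * A₀.1 with hC
  have hg : ∀ ε : Tan y, ev (fun j => ∏ i, F i ^ B j i) ε = C.mulVec (ev (F ∘ I) ε) := by
    intro ε
    rw [hC, ← Matrix.mulVec_mulVec, ← hev ε]
    funext j
    show ε.1 (Additive.ofMul (∏ i, F i ^ B j i)) = _
    rw [Gen_hom]
    rfl
  intro k hk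
  have hz : ∀ ε : Tan y, ∑ j, (k j : ℝ) * ev (fun j => ∏ i, F i ^ B j i) ε j = 0 := by
    intro ε
    have h1 := ε.2 _ hk
    rw [Gen_hom] at h1
    exact h1
  funext j
  obtain ⟨ε, hε⟩ := (hTng K L n hTr y (F ∘ I) hy).1 (C⁻¹.mulVec (Pi.single j 1))
  have h2 := hz ε
  rw [hg ε, hε, Matrix.mulVec_mulVec, Matrix.mul_nonsing_inv _ (Ne.isUnit hdet),
    Matrix.one_mulVec] at h2
  simp only [Pi.single_apply, mul_ite, mul_one, mul_zero, Finset.sum_ite_eq', Finset.mem_univ,
    if_true] at h2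
  exact_mod_cast h2

end TDC
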