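import Pool.Agent.TDC.St
import Pool.Agent.TDC.St2

/-! TDC, module GenA (helper82): modulo exact forms the supports meet the sheets separately. -/

set_option autoImplicit false

namespace TDC

open scoped Topology

/-- the affine subspace `{c + M s}` -/
private noncomputable def GenA_sub {R m : ℕ} (A₀ : Matrix (Fin R) (Fin m) ℝ × (Fin R → ℝ)) :
    AffineSubspace ℝ (Fin R → ℝ) :=
  AffineSubspace.mk' A₀.2 (LinearMap.range A₀.1.mulVecLin)

private theorem GenA_mem {R m : ℕ} (A₀ : Matrix (Fin R) (Fin m) ℝ × (Fin R → ℝ))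
    (s : Fin m → ℝ) : A₀.2 + A₀.1.mulVec s ∈ GenA_sub A₀ := by
  unfold GenA_sub
  rw [AffineSubspace.mem_mk', vsub_eq_sub, add_sub_cancel_left]
  exact ⟨s, by simp⟩

private theorem GenA_inj {R m : ℕ} (A₀ : Matrix (Fin R) (Fin m) ℝ × (Fin R → ℝ))
    (I : Fin m → Fin R)
    (h : ∀ (s : Fin m → ℝ) (i : Fin m), (A₀.2 + A₀.1.mulVec s) (I i) = s i) :
    Function.Injective A₀.1.mulVecLin := by
  intro s s' hs
  rw [Matrix.mulVecLin_apply, Matrix.mulVecLin_apply] at hs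
  funext i
  rw [← h s i, ← h s' i, hs]

private theorem GenA_eq {R m : ℕ} (A₀ A₁ : Matrix (Fin R) (Fin m) ℝ × (Fin R → ℝ))
    (I : Fin m → Fin R)
    (h₀ : ∀ (s : Fin m → ℝ) (i : Fin m), (A₀.2 + A₀.1.mulVec s) (I i) = s i)
    (h₁ : ∀ (s : Fin m → ℝ) (i : Fin m), (A₁.2 + A₁.1.mulVec s) (I i) = s i)
    (h : GenA_sub A₀ = GenA_sub A₁) : A₀ = A₁ := by
  have key : ∀ s : Fin m → ℝ, A₀.2 + A₀.1.mulVec s = A₁.2 + A₁.1.mulVec s := by
    intro s
    have hm := GenA_mem A₀ s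
    rw [h] at hm
    unfold GenA_sub at hm
    rw [AffineSubspace.mem_mk', vsub_eq_sub] at hm
    obtain ⟨s', hs'⟩ := hm
    rw [Matrix.mulVecLin_apply] at hs'
    have h2 : A₀.2 + A₀.1.mulVec s = A₁.2 + A₁.1.mulVec s' := by
      rw [hs', add_sub_cancel]
    have h3 : s = s' := by
      funext i
      rw [← h₀ s i, ← h₁ s' i, h2]
    rw [h2, h3]
  have k2 : A₀.2 = A₁.2 := by
    have := key 0
    simpa using this
  have k1 : A₀.1 = A₁.1 := by
    apply Matrix.ext_of_mulVec_single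
    intro i
    have := key (Pi.single i 1)
    rw [k2] at this
    exact add_left_cancel this
  exact Prod.ext k1 k2

theorem thm_GenA (h1 : St_Fini) (h2 : St_Real) (h3 : St_DetZ) (h4 : St_IndG) : St_GenA := by
  classical
  intro K L _ _ _ m hT R F U α hU hα hs
  choose A hA hG using fun I => h1 K L (m + 1) hT R F I
  have hR := fun I => h2 (Fin R → ℝ) m ((A I).image GenA_sub) (α I) U (by
      intro B hB
      obtain ⟨A₀, hA₀, rfl⟩ := Finset.mem_image.1 hB
      refine ⟨⟨_, GenA_mem A₀ 0⟩, ?_⟩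
      unfold GenA_sub
      rw [AffineSubspace.direction_mk', LinearMap.finrank_range_of_inj (GenA_inj A₀ I (hA I A₀ hA₀)),
        Module.finrank_fin_fun]) (hα I).1 (hα I).2 hU (hs I)
  choose β α' hb1 hb2 hb3 ha1 ha2 ha3 hsep hsum using hR
  refine ⟨A, β, α', hA, hG, fun I => ⟨hb1 I, hb2 I⟩, hb3, fun I => ⟨ha1 I, ha2 I⟩, ha3, ?_, ?_⟩
  · intro I A₀ hA₀ A₁ hA₁ s hs0 hs1
    apply GenA_eq A₀ A₁ I (hA I A₀ hA₀) (hA I A₁ hA₁)
    refine hsep I _ hs0 _ (Finset.mem_image_of_mem _ hA₀) _ (Finset.mem_image_of_mem _ hA₁)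
      (GenA_mem A₀ s) ?_
    rw [hs1]
    exact GenA_mem A₁ s
  · funext x δ ε
    show pullAt x F α δ ε = pullAt x F (SF.dd β) δ ε + pullAt x F α' δ ε
    unfold pullAt
    rw [← Finset.sum_add_distrib]
    refine Finset.sum_congr rfl fun I _ => ?_
    rw [← mul_add]
    by_cases hI : Indep x (F ∘ I)
    · congr 1
      obtain ⟨A₀, hA₀, hl, he⟩ := hG I x (h4 K L (algebraMap K L) (m + 1) x (F ∘ I) hI)
      refine hsum I _ (Finset.mem_image_of_mem _ hA₀) _ ?_ _ ?_
      · rw [hl]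
        exact GenA_mem A₀ _
      · intro i
        unfold GenA_sub
        rw [AffineSubspace.direction_mk', he (ε i)]
        exact ⟨_, by rw [Matrix.mulVecLin_apply]⟩
    · have h0 := h3 K L (algebraMap K L) (m + 1) x (F ∘ I) hI δ
      have h0' : (Matrix.of fun i j => ev F (δ i) (I j)).det = 0 := h0
      rw [h0', zero_mul, zero_mul]

end TDC
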