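import Pool.Agent.TDC.St
import Pool.Agent.TDC.St2

/-! TDC, module GenB (helper32): one component, supports meeting the sheets separately: the form
is a finite sum of tube forms. -/

set_option autoImplicit false

namespace TDC

open scoped Topology

/-- a top alternating form along a matrix -/
private theorem GenB_det {R n : ℕ} (M : Matrix (Fin R) (Fin n) ℝ)
    (f : (Fin R → ℝ) [⋀^Fin n]→L[ℝ] ℝ) (v : Fin n → Fin n → ℝ) :
    f (fun i => M.mulVec (v i)) =
      f (fun i => M.mulVec (Pi.single i 1)) * (Matrix.of fun i j => v i j).det := by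
  have h := AlternatingMap.eq_smul_basis_det (Pi.basisFun ℝ (Fin n))
    (f.toAlternatingMap.compLinearMap M.mulVecLin)
  have h1 := congrArg (fun g : (Fin n → ℝ) [⋀^Fin n]→ₗ[ℝ] ℝ => g v) h
  have h2 : (f.toAlternatingMap.compLinearMap M.mulVecLin) v =
      f (fun i => M.mulVec (v i)) := rfl
  have h3 : (f.toAlternatingMap.compLinearMap M.mulVecLin) (Pi.basisFun ℝ (Fin n)) =
      f (fun i => M.mulVec (Pi.single i 1)) := by
    have h4 : ((Pi.basisFun ℝ (Fin n)) : Fin n → Fin n → ℝ) = fun i => Pi.single i 1 := by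
      funext i
      rw [Pi.basisFun_apply]
    rw [h4]
    rfl
  simp only [AlternatingMap.smul_apply, smul_eq_mul] at h1
  rw [h2, h3, Pi.basisFun_det_apply] at h1
  exact h1

/-- the pull-back of a superform with one component -/
private theorem GenB_pull {K M : Type} [NormedField K] [Field M] {φ : K →+* M} {R p q : ℕ}
    (F : Fin R → Mˣ) (I : Fin p → Fin R) (a : (Fin R → ℝ) → (Fin R → ℝ) [⋀^Fin q]→L[ℝ] ℝ)
    (x : Pt φ) (δ : Fin p → Tan x) (ε : Fin q → Tan x) :
    (pull F (fun I' t => if I' = I then a t else 0) : Fam φ p q) x δ ε =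
      (Matrix.of fun i j => ev F (δ i) (I j)).det * a (logv x F) (fun i => ev F (ε i)) := by
  show pullAt x F _ δ ε = _
  unfold pullAt
  rw [Finset.sum_eq_single I]
  · simp only [if_true]
  · intro J _ hJ
    have h0 : (if J = I then a (logv x F) else 0) = 0 := if_neg hJ
    show _ * (if J = I then a (logv x F) else 0) _ = 0
    rw [h0]
    exact mul_zero _
  · intro h
    exact absurd (Finset.mem_univ I) h

/-- the affine map of a sheet is smooth -/
private theorem GenB_smooth {R n : ℕ} (A₀ : Matrix (Fin R) (Fin n) ℝ × (Fin R → ℝ)) :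
    ContDiff ℝ (⊤ : ℕ∞) (fun s : Fin n → ℝ => A₀.2 + A₀.1.mulVec s) :=
  contDiff_const.add (LinearMap.toContinuousLinearMap A₀.1.mulVecLin).contDiff

private theorem GenB_smoothI {R n : ℕ} (I : Fin n → Fin R) :
    ContDiff ℝ (⊤ : ℕ∞) (fun t : Fin R → ℝ => t ∘ I) :=
  contDiff_pi.2 fun i => contDiff_apply ℝ ℝ (I i)

/-- the displacement from a sheet is smooth -/
private theorem GenB_smooth2 {R n : ℕ} (I : Fin n → Fin R)
    (A₀ : Matrix (Fin R) (Fin n) ℝ × (Fin R → ℝ)) :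
    ContDiff ℝ (⊤ : ℕ∞) (fun t : Fin R → ℝ => t - (A₀.2 + A₀.1.mulVec (t ∘ I))) :=
  contDiff_id.sub ((GenB_smooth A₀).comp (GenB_smoothI I))

/-- the complement of the other sheets is open -/
private theorem GenB_open {R n : ℕ} (I : Fin n → Fin R)
    (A : Finset (Matrix (Fin R) (Fin n) ℝ × (Fin R → ℝ)))
    (P : Matrix (Fin R) (Fin n) ℝ × (Fin R → ℝ) → Prop) :
    IsOpen {t : Fin R → ℝ | ∀ A₁ ∈ A, P A₁ → t ≠ A₁.2 + A₁.1.mulVec (t ∘ I)} := by
  have h : {t : Fin R → ℝ | ∀ A₁ ∈ A, P A₁ → t ≠ A₁.2 + A₁.1.mulVec (t ∘ I)} =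
      ⋂ A₁ ∈ (A : Set (Matrix (Fin R) (Fin n) ℝ × (Fin R → ℝ))),
        {t : Fin R → ℝ | P A₁ → t ≠ A₁.2 + A₁.1.mulVec (t ∘ I)} := by
    ext t
    simp
  rw [h]
  refine A.finite_toSet.isOpen_biInter fun A₁ _ => ?_
  by_cases hP : P A₁
  · have h2 : {t : Fin R → ℝ | P A₁ → t ≠ A₁.2 + A₁.1.mulVec (t ∘ I)} =
        (fun t : Fin R → ℝ => t - (A₁.2 + A₁.1.mulVec (t ∘ I))) ⁻¹' {0}ᶜ := by
      ext t
      simp [hP, sub_eq_zero]
    rw [h2]
    exact isOpen_compl_singleton.preimage (GenB_smooth2 I A₁).continuous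
  · have h2 : {t : Fin R → ℝ | P A₁ → t ≠ A₁.2 + A₁.1.mulVec (t ∘ I)} = Set.univ := by
      ext t
      simp [hP]
    rw [h2]
    exact isOpen_univ

/-- tubes around a sheet -/
private theorem GenB_tube {R n : ℕ} (I : Fin n → Fin R)
    (A₀ : Matrix (Fin R) (Fin n) ℝ × (Fin R → ℝ)) (t₀ : Fin R → ℝ)
    (h0 : t₀ = A₀.2 + A₀.1.mulVec (t₀ ∘ I)) (V : Set (Fin R → ℝ)) (hV : V ∈ 𝓝 t₀) :
    ∃ η : ℝ, 0 < η ∧ ∀ t : Fin R → ℝ, ‖t ∘ I - t₀ ∘ I‖ ≤ η →
      ‖t - (A₀.2 + A₀.1.mulVec (t ∘ I))‖ ≤ η → t ∈ V := by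
  have hG : Continuous fun p : (Fin n → ℝ) × (Fin R → ℝ) =>
      p.2 + (A₀.2 + A₀.1.mulVec (t₀ ∘ I + p.1)) :=
    continuous_snd.add ((GenB_smooth A₀).continuous.comp (continuous_const.add continuous_fst))
  have hG0 : (fun p : (Fin n → ℝ) × (Fin R → ℝ) =>
      p.2 + (A₀.2 + A₀.1.mulVec (t₀ ∘ I + p.1))) (0, 0) = t₀ := by
    show (0 : Fin R → ℝ) + (A₀.2 + A₀.1.mulVec (t₀ ∘ I + 0)) = t₀
    rw [zero_add, add_zero]
    exact h0.symm
  have h1 := hG.continuousAt (x := ((0 : Fin n → ℝ), (0 : Fin R → ℝ)))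
  have h2 : (fun p : (Fin n → ℝ) × (Fin R → ℝ) =>
      p.2 + (A₀.2 + A₀.1.mulVec (t₀ ∘ I + p.1))) ⁻¹' V ∈
        𝓝 ((0 : Fin n → ℝ), (0 : Fin R → ℝ)) := by
    apply h1
    rw [hG0]
    exact hV
  obtain ⟨η, hη, hb⟩ := Metric.nhds_basis_closedBall.mem_iff.1 h2
  refine ⟨η, hη, fun t ht1 ht2 => ?_⟩
  have h3 : ((t ∘ I - t₀ ∘ I, t - (A₀.2 + A₀.1.mulVec (t ∘ I))) :
      (Fin n → ℝ) × (Fin R → ℝ)) ∈ Metric.closedBall 0 η := by
    rw [mem_closedBall_zero_iff]
    exact max_le ht1 ht2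
  have h4 := hb h3
  have h5 : t - (A₀.2 + A₀.1.mulVec (t ∘ I)) +
      (A₀.2 + A₀.1.mulVec (t₀ ∘ I + (t ∘ I - t₀ ∘ I))) = t := by
    rw [add_sub_cancel, sub_add_cancel]
  have h6 : t - (A₀.2 + A₀.1.mulVec (t ∘ I)) +
      (A₀.2 + A₀.1.mulVec (t₀ ∘ I + (t ∘ I - t₀ ∘ I))) ∈ V := h4
  rw [h5] at h6
  exact h6

/-- membership in a cubical box -/
private theorem GenB_box {n : ℕ} (s s₀ : Fin n → ℝ) (η : ℝ) (hη : 0 < η) :
    s ∈ box (fun i => s₀ i - η) (fun i => s₀ i + η) ↔ ‖s - s₀‖ < η := by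
  rw [pi_norm_lt_iff hη]
  unfold box
  simp only [Set.mem_pi, Set.mem_univ, forall_true_left, Set.mem_Ioo, Pi.sub_apply,
    Real.norm_eq_abs, abs_lt]
  refine forall_congr' fun i => ?_
  constructor
  · intro h
    constructor <;> linarith [h.1, h.2]
  · intro h
    constructor <;> linarith [h.1, h.2]

/-- the local statement -/
private theorem GenB_loc (h1 : St_DetZ) (h2 : St_IndG)
    {K L : Type} [NormedField K] [Field L] [Algebra K L] {m R : ℕ}
    (F : Fin R → Lˣ) (U : Set (Fin R → ℝ)) (I : Fin (m + 1) → Fin R)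
    (A : Finset (Matrix (Fin R) (Fin (m + 1)) ℝ × (Fin R → ℝ)))
    (a : (Fin R → ℝ) → (Fin R → ℝ) [⋀^Fin (m + 1)]→L[ℝ] ℝ) (hU : IsOpen U)
    (ha : ContDiff ℝ (⊤ : ℕ∞) a) (hc : HasCompactSupport a) (hs : tsupport a ⊆ U)
    (hA : ∀ A₀ ∈ A, ∀ (s : Fin (m + 1) → ℝ) (i : Fin (m + 1)),
          (A₀.2 + A₀.1.mulVec s) (I i) = s i)
    (hG : ∀ x : Pt (algebraMap K L), Gauss x (F ∘ I) → ∃ A₀ ∈ A,
          logv x F = A₀.2 + A₀.1.mulVec (logv x (F ∘ I)) ∧
          ∀ ε : Tan x, ev F ε = A₀.1.mulVec (ev (F ∘ I) ε))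
    (hsep : ∀ A₀ ∈ A, ∀ A₁ ∈ A, ∀ s : Fin (m + 1) → ℝ, A₀.2 + A₀.1.mulVec s ∈ tsupport a →
          A₀.2 + A₀.1.mulVec s = A₁.2 + A₁.1.mulVec s → A₀ = A₁)
    (t₀ : Fin R → ℝ) (ht₀ : t₀ ∈ tsupport a) :
    ∃ N : Set (Fin R → ℝ), IsOpen N ∧ t₀ ∈ N ∧
      ∀ ψ : (Fin R → ℝ) → ℝ, ContDiff ℝ (⊤ : ℕ∞) ψ → tsupport ψ ⊆ N →
      ∃ l : List (TD L (m + 1)), (∀ D ∈ l, D.Good (algebraMap K L) {x | logv x F ∈ U}) ∧
        (pull F (fun I' t => if I' = I then ψ t • a t else 0) :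
          Fam (algebraMap K L) (m + 1) (m + 1)) = (l.map (TD.form (algebraMap K L))).sum := by
  by_cases hsh : ∃ A₀ ∈ A, t₀ = A₀.2 + A₀.1.mulVec (t₀ ∘ I)
  · obtain ⟨A₀, hA₀, h0⟩ := hsh
    have hmem : t₀ ∈ U ∩ {t : Fin R → ℝ | ∀ A₁ ∈ A, A₁ ≠ A₀ → t ≠ A₁.2 + A₁.1.mulVec (t ∘ I)} := by
      refine ⟨hs ht₀, fun A₁ hA₁ hne he => hne ?_⟩
      symm
      apply hsep A₀ hA₀ A₁ hA₁ (t₀ ∘ I)
      · rw [← h0]
        exact ht₀
      · rw [← h0]
        exact he
    obtain ⟨η, hη, hV⟩ := GenB_tube I A₀ t₀ h0 _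
      ((hU.inter (GenB_open I A (fun A₁ => A₁ ≠ A₀))).mem_nhds hmem)
    have hcont2 := (GenB_smooth2 I A₀).continuous
    have hcontI := (GenB_smoothI (R := R) I).continuous
    have hsec : ∀ s : Fin (m + 1) → ℝ, (A₀.2 + A₀.1.mulVec s) ∘ I = s := fun s =>
      funext fun i => hA A₀ hA₀ s i
    refine ⟨{t | ‖t ∘ I - t₀ ∘ I‖ < η ∧ ‖t - (A₀.2 + A₀.1.mulVec (t ∘ I))‖ < η / 2}, ?_, ?_, ?_⟩
    · exact (isOpen_lt (hcontI.sub continuous_const).norm continuous_const).inter
        (isOpen_lt hcont2.norm continuous_const)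
    · constructor
      · rw [sub_self, norm_zero]
        exact hη
      · rw [← h0, sub_self, norm_zero]
        linarith
    intro ψ hψ hψs
    -- the bump function
    let κ : ContDiffBump (0 : Fin R → ℝ) := ⟨η / 2, η, by linarith, by linarith⟩
    let χ : (Fin R → ℝ) → ℝ := fun t => κ (t - (A₀.2 + A₀.1.mulVec (t ∘ I)))
    let b : (Fin (m + 1) → ℝ) → ℝ := fun s => ψ (A₀.2 + A₀.1.mulVec s) *
      a (A₀.2 + A₀.1.mulVec s) (fun i => A₀.1.mulVec (Pi.single i 1))
    have hχs : ContDiff ℝ (⊤ : ℕ∞) χ := κ.contDiff.comp (GenB_smooth2 I A₀)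
    have hχ0 : ∀ t, η < ‖t - (A₀.2 + A₀.1.mulVec (t ∘ I))‖ → χ t = 0 := by
      intro t ht
      apply κ.zero_of_le_dist
      rw [dist_zero_right]
      exact ht.le
    have hχ1 : ∀ t, ‖t - (A₀.2 + A₀.1.mulVec (t ∘ I))‖ < η / 2 → χ t = 1 := by
      intro t ht
      apply κ.one_of_mem_closedBall
      rw [mem_closedBall_zero_iff]
      exact ht.le
    have hbs : ContDiff ℝ (⊤ : ℕ∞) b := by
      refine (hψ.comp (GenB_smooth A₀)).mul ?_
      exact (ContinuousAlternatingMap.apply ℝ (Fin R → ℝ) ℝ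
        (fun i : Fin (m + 1) => A₀.1.mulVec (Pi.single i 1))).contDiff.comp
          (ha.comp (GenB_smooth A₀))
    have hb0 : ∀ s, b s ≠ 0 → A₀.2 + A₀.1.mulVec s ∈ tsupport ψ ∧
        A₀.2 + A₀.1.mulVec s ∈ tsupport a := by
      intro s hb
      constructor
      · apply subset_tsupport
        intro h
        apply hb
        show ψ (A₀.2 + A₀.1.mulVec s) * _ = 0
        rw [h, zero_mul]
      · apply subset_tsupport
        intro h
        apply hb
        show ψ (A₀.2 + A₀.1.mulVec s) * a (A₀.2 + A₀.1.mulVec s) _ = 0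
        rw [h]
        exact mul_zero _
    have hAc := (GenB_smooth A₀).continuous
    have hbt : ∀ s ∈ tsupport b, A₀.2 + A₀.1.mulVec s ∈ tsupport ψ ∧
        A₀.2 + A₀.1.mulVec s ∈ tsupport a := by
      have hcl : IsClosed {s : Fin (m + 1) → ℝ | A₀.2 + A₀.1.mulVec s ∈ tsupport ψ ∧
          A₀.2 + A₀.1.mulVec s ∈ tsupport a} :=
        ((isClosed_tsupport ψ).preimage hAc).inter ((isClosed_tsupport a).preimage hAc)
      intro s hs'
      exact closure_minimal (fun s hs => hb0 s hs) hcl hs'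
    have hbc : HasCompactSupport b := by
      have hK : IsCompact ((fun t : Fin R → ℝ => t ∘ I) '' tsupport a) := hc.image hcontI
      refine hK.of_isClosed_subset (isClosed_tsupport b) fun s hs' => ?_
      exact ⟨_, (hbt s hs').2, hsec s⟩
    have hbb : ∀ s ∈ tsupport b, ‖s - t₀ ∘ I‖ < η := by
      intro s hs'
      have h3 := (hψs (hbt s hs').1).1
      rw [hsec s] at h3
      exact h3
    -- the values of `χ` over the box
    have hval : ∀ x : Pt (algebraMap K L), ‖logv x (F ∘ I) - t₀ ∘ I‖ < η →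
        ∀ A₁ ∈ A, A₁ ≠ A₀ → logv x F = A₁.2 + A₁.1.mulVec (logv x (F ∘ I)) →
        η < ‖logv x F - (A₀.2 + A₀.1.mulVec (logv x F ∘ I))‖ := by
      intro x hx A₁ hA₁ hne he
      by_contra hcon
      exact (hV (logv x F) (le_of_lt hx) (not_lt.1 hcon)).2 A₁ hA₁ hne he
    let D : TD L (m + 1) := ⟨R, F, F ∘ I, χ, fun i => (t₀ ∘ I) i - η, fun i => (t₀ ∘ I) i + η, b⟩
    refine ⟨[D], ?_, ?_⟩
    · intro D' hD'
      rw [List.mem_singleton] at hD'
      subst hD'
      refine ⟨⟨hχs, ?_⟩, ⟨hbs, hbc, ?_⟩, ?_⟩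
      · intro x hx hxb
        have hxb' := (GenB_box _ _ η hη).1 hxb
        obtain ⟨A₁, hA₁, hl, -⟩ := hG x hx
        by_cases hne : A₁ = A₀
        · right
          subst hne
          have h3 : ∀ᶠ t in 𝓝 (logv x F), ‖t - (A₁.2 + A₁.1.mulVec (t ∘ I))‖ < η / 2 := by
            apply (isOpen_lt hcont2.norm continuous_const).mem_nhds
            show ‖logv x F - (A₁.2 + A₁.1.mulVec (logv x F ∘ I))‖ < η / 2
            have h4 : logv x F - (A₁.2 + A₁.1.mulVec (logv x F ∘ I)) = 0 := sub_eq_zero.2 hl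
            rw [h4, norm_zero]
            linarith
          filter_upwards [h3] with t ht
          exact hχ1 t ht
        · left
          have h3 : ∀ᶠ t in 𝓝 (logv x F), η < ‖t - (A₀.2 + A₀.1.mulVec (t ∘ I))‖ := by
            apply (isOpen_lt continuous_const hcont2.norm).mem_nhds
            exact hval x hxb' A₁ hA₁ hne hl
          filter_upwards [h3] with t ht
          exact hχ0 t ht
      · intro s hs'
        exact (GenB_box _ _ η hη).2 (hbb s hs')
      · intro x hx hxi hxb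
        have hxb' := (GenB_box _ _ η hη).1 hxb
        apply hχ0
        by_contra hcon
        exact hx (hV (logv x F) (le_of_lt hxb') (not_lt.1 hcon)).1
    · rw [List.map_singleton, List.sum_singleton]
      funext x δ ε
      rw [GenB_pull]
      show _ = χ (logv x F) * b (logv x (F ∘ I)) *
        (Matrix.of fun i j => ev (F ∘ I) (δ i) j).det *
        (Matrix.of fun i j => ev (F ∘ I) (ε i) j).det
      show (Matrix.of fun i j => ev (F ∘ I) (δ i) j).det *
        (ψ (logv x F) * a (logv x F) (fun i => ev F (ε i))) = _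
      by_cases hi : Indep x (F ∘ I)
      · obtain ⟨A₁, hA₁, hl, he⟩ := hG x (h2 K L (algebraMap K L) (m + 1) x (F ∘ I) hi)
        by_cases hne : A₁ = A₀
        · subst hne
          have h3 : χ (logv x F) = 1 := by
            apply hχ1
            have h4 : logv x F - (A₁.2 + A₁.1.mulVec (logv x F ∘ I)) = 0 := sub_eq_zero.2 hl
            rw [h4, norm_zero]
            linarith
          have h4 : b (logv x (F ∘ I)) = ψ (logv x F) *
              a (logv x F) (fun i => A₁.1.mulVec (Pi.single i 1)) := by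
            show ψ (A₁.2 + A₁.1.mulVec (logv x (F ∘ I))) *
              a (A₁.2 + A₁.1.mulVec (logv x (F ∘ I))) _ = _
            rw [← hl]
          have h5 : (fun i => ev F (ε i)) = fun i => A₁.1.mulVec (ev (F ∘ I) (ε i)) :=
            funext fun i => he (ε i)
          rw [h3, h4, h5, GenB_det A₁.1 (a (logv x F)) (fun i => ev (F ∘ I) (ε i))]
          ring
        · have h3 : ψ (logv x F) = 0 := by
            by_contra hψ0
            have h4 := hψs (subset_tsupport _ hψ0)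
            exact (hV (logv x F) (le_of_lt h4.1) (by linarith [h4.2])).2 A₁ hA₁ hne hl
          have h5 : χ (logv x F) * b (logv x (F ∘ I)) = 0 := by
            by_cases hb : b (logv x (F ∘ I)) = 0
            · rw [hb, mul_zero]
            · rw [hχ0 _ (hval x (hbb _ (subset_tsupport _ hb)) A₁ hA₁ hne hl), zero_mul]
          rw [h3, h5]
          ring
      · rw [h1 K L (algebraMap K L) (m + 1) x (F ∘ I) hi δ]
        ring
  · refine ⟨{t : Fin R → ℝ | ∀ A₁ ∈ A, True → t ≠ A₁.2 + A₁.1.mulVec (t ∘ I)},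
      GenB_open I A (fun _ => True), fun A₁ hA₁ _ he => hsh ⟨A₁, hA₁, he⟩, fun ψ hψ hψs => ?_⟩
    refine ⟨[], fun D hD => absurd hD List.not_mem_nil, ?_⟩
    funext x δ ε
    rw [GenB_pull, List.map_nil, List.sum_nil]
    show (Matrix.of fun i j => ev (F ∘ I) (δ i) j).det *
      (ψ (logv x F) * a (logv x F) (fun i => ev F (ε i))) = 0
    by_cases hi : Indep x (F ∘ I)
    · obtain ⟨A₁, hA₁, hl, -⟩ := hG x (h2 K L (algebraMap K L) (m + 1) x (F ∘ I) hi)
      have h3 : ψ (logv x F) = 0 := by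
        by_contra hψ0
        exact hψs (subset_tsupport _ hψ0) A₁ hA₁ trivial hl
      rw [h3]
      ring
    · rw [h1 K L (algebraMap K L) (m + 1) x (F ∘ I) hi δ]
      ring

/-- **GenB**. One component `I`, supports meeting the sheets separately: the form is a finite sum
of tube forms. -/
theorem thm_GenB (h1 : St_DetZ) (h2 : St_IndG) : St_GenB := by
  intro K L _ _ _ m R F U I A a hU ha hc hs hA hG hsep
  choose! N hNo hNm hN using fun t₀ ht₀ =>
    GenB_loc h1 h2 F U I A a hU ha hc hs hA hG hsep t₀ ht₀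
  obtain ⟨T, hT, hcov⟩ := hc.elim_nhds_subcover (fun t => N t)
    (fun t ht => (hNo t ht).mem_nhds (hNm t ht))
  obtain ⟨f, hf⟩ := SmoothPartitionOfUnity.exists_isSubordinate
    (modelWithCornersSelf ℝ (Fin R → ℝ)) (isClosed_tsupport a)
    (fun t : T => N t) (fun t => hNo t (hT t t.2)) (by
      intro t ht
      obtain ⟨t', ht', h3⟩ := Set.mem_iUnion₂.1 (hcov ht)
      exact Set.mem_iUnion.2 ⟨⟨t', ht'⟩, h3⟩)
  have hsum : ∀ s : Finset T, ∃ l : List (TD L (m + 1)),
      (∀ D ∈ l, D.Good (algebraMap K L) {x | logv x F ∈ U}) ∧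
        (pull F (fun I' t => if I' = I then (∑ i ∈ s, f i t) • a t else 0) :
          Fam (algebraMap K L) (m + 1) (m + 1)) = (l.map (TD.form (algebraMap K L))).sum := by
    classical
    intro s
    induction s using Finset.induction_on with
    | empty =>
      refine ⟨[], fun D hD => absurd hD List.not_mem_nil, ?_⟩
      funext x δ ε
      rw [GenB_pull, List.map_nil, List.sum_nil, Finset.sum_empty, zero_smul]
      exact mul_zero _
    | insert i s his ih =>
      obtain ⟨l, hl, hl2⟩ := ih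
      obtain ⟨l', hl', hl2'⟩ := hN i (hT i i.2) (f i) (f i).contMDiff.contDiff (hf i)
      refine ⟨l' ++ l, ?_, ?_⟩
      · intro D hD
        rcases List.mem_append.1 hD with h | h
        · exact hl' D h
        · exact hl D h
      · rw [List.map_append, List.sum_append, ← hl2, ← hl2']
        funext x δ ε
        show (pull F _ : Fam (algebraMap K L) (m + 1) (m + 1)) x δ ε =
          (pull F _ : Fam (algebraMap K L) (m + 1) (m + 1)) x δ ε +
          (pull F _ : Fam (algebraMap K L) (m + 1) (m + 1)) x δ ε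
        rw [GenB_pull, GenB_pull, GenB_pull, Finset.sum_insert his, add_smul, ← mul_add]
        rfl
  obtain ⟨l, hl, hl2⟩ := hsum Finset.univ
  refine ⟨l, hl, ?_⟩
  rw [← hl2]
  funext x δ ε
  rw [GenB_pull, GenB_pull]
  by_cases hx : logv x F ∈ tsupport a
  · have h3 := f.sum_eq_one hx
    rw [finsum_eq_sum_of_fintype] at h3
    rw [h3, one_smul]
  · have h3 : a (logv x F) = 0 := image_eq_zero_of_notMem_tsupport hx
    rw [h3, smul_zero]

end TDC
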