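import Pool.Agent.TDC.St

set_option autoImplicit false

/-!
# TDC: generic points exist, and generic values are independent
-/

namespace TDC

open scoped Topology
open MeasureTheory

private lemma GenI_dense (n : ℕ) (k : Fin n → ℤ) (hk : k ≠ 0) (c : ℝ) :
    IsOpen {s : Fin n → ℝ | ∑ i, (k i : ℝ) * s i ≠ c} ∧
      Dense {s : Fin n → ℝ | ∑ i, (k i : ℝ) * s i ≠ c} := by
  let l : (Fin n → ℝ) →L[ℝ] ℝ := ∑ i, (k i : ℝ) • ContinuousLinearMap.proj i
  have hl : ∀ s : Fin n → ℝ, l s = ∑ i, (k i : ℝ) * s i := by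
    intro s
    simp [l, ContinuousLinearMap.sum_apply]
  have hsur : Function.Surjective l := by
    obtain ⟨j, hj⟩ := Function.ne_iff.1 hk
    have hj' : (k j : ℝ) ≠ 0 := by
      intro h
      apply hj
      have : k j = 0 := by exact_mod_cast h
      rw [this]
      rfl
    intro y
    refine ⟨Pi.single j (y / (k j : ℝ)), ?_⟩
    rw [hl, Finset.sum_eq_single j]
    · rw [Pi.single_eq_same]
      field_simp
    · intro i _ hi
      rw [Pi.single_eq_of_ne hi, mul_zero]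
    · intro h
      exact (h (Finset.mem_univ _)).elim
  have e : {s : Fin n → ℝ | ∑ i, (k i : ℝ) * s i ≠ c} = l ⁻¹' {c}ᶜ := by
    ext s
    show ∑ i, (k i : ℝ) * s i ≠ c ↔ l s ∈ ({c}ᶜ : Set ℝ)
    rw [hl, Set.mem_compl_iff, Set.mem_singleton_iff]
  rw [e]
  exact ⟨isOpen_compl_singleton.preimage l.continuous,
    (dense_compl_singleton c).preimage (l.isOpenMap hsur)⟩

theorem thm_GenI : St_GenI := by
  refine ⟨?_, ?_⟩
  · intro K _ n hK U hU hne
    have hS : (({k : Fin n → ℤ | k ≠ 0}) ×ˢ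
        (Real.log '' Set.range fun a : K => ‖a‖) : Set ((Fin n → ℤ) × ℝ)).Countable :=
      (Set.to_countable _).prod (hK.image _)
    have hd := dense_biInter_of_isOpen
      (f := fun q : (Fin n → ℤ) × ℝ => {s : Fin n → ℝ | ∑ i, (q.1 i : ℝ) * s i ≠ q.2})
      (fun q hq => (GenI_dense n q.1 hq.1 q.2).1) hS (fun q hq => (GenI_dense n q.1 hq.1 q.2).2)
    obtain ⟨s, hsU, hs⟩ := hd.inter_open_nonempty U hU hne
    refine ⟨s, hsU, ?_⟩
    intro k a _ hka
    by_contra hk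
    have h1 := Set.mem_iInter₂.1 hs (k, Real.log ‖a‖) ⟨hk, ⟨‖a‖, ⟨a, rfl⟩, rfl⟩⟩
    exact h1 hka
  · intro K M _ _ φ n x g hg k hk
    obtain ⟨a, ha⟩ := hk
    have hpos : 0 < x.v ((∏ i, g i ^ k i : Mˣ) : M) := x.v.pos (Units.ne_zero _)
    have ha0 : a ≠ 0 := by
      rintro rfl
      rw [norm_zero] at ha
      exact hpos.ne ha
    refine hg k a ha0 ?_
    rw [ha]
    have e1 : x.v ((∏ i, g i ^ k i : Mˣ) : M) = ∏ i, x.v (g i) ^ k i := by
      rw [Units.coe_prod, map_prod]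
      refine Finset.prod_congr rfl fun i _ => ?_
      rw [Units.val_zpow_eq_zpow_val, map_zpow₀]
    rw [e1, Real.log_prod (fun i _ => zpow_ne_zero _ (x.v.ne_zero (Units.ne_zero _)))]
    refine Finset.sum_congr rfl fun i _ => ?_
    rw [Real.log_zpow]
    rfl

end TDC
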