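import Pool.Agent.TDC.St2

set_option autoImplicit false

/-!
# TDC: every pull-back of a top form is a sum of tube forms modulo exact forms (assembly)
-/

namespace TDC

open scoped Topology
open MeasureTheory

private lemma Gene_ext0 {R q : ℕ} (t : Fin R → ℝ) :
    extDeriv (fun _ : Fin R → ℝ => (0 : (Fin R → ℝ) [⋀^Fin q]→L[ℝ] ℝ)) t = 0 := by
  have h := extDeriv_fun_smul (x := t) (0 : ℝ)
    (fun _ : Fin R → ℝ => (0 : (Fin R → ℝ) [⋀^Fin q]→L[ℝ] ℝ))
  rw [zero_smul, zero_smul] at h
  exact h

private lemma Gene_off {R q : ℕ} (β : (Fin R → ℝ) → (Fin R → ℝ) [⋀^Fin q]→L[ℝ] ℝ)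
    (t : Fin R → ℝ) (ht : t ∉ tsupport β) : β t = 0 ∧ extDeriv β t = 0 := by
  refine ⟨image_eq_zero_of_notMem_tsupport ht, ?_⟩
  have h1 : β =ᶠ[𝓝 t] fun _ => 0 := notMem_tsupport_iff_eventuallyEq.1 ht
  rw [h1.extDeriv_eq]
  exact Gene_ext0 t

private lemma Gene_PC {R p q : ℕ} (β : SF R p q) (hβ : β.CC) : β.PC := by
  intro I
  refine ⟨(hβ I).1, (fun t : Fin R → ℝ => t ∘ I) '' tsupport (β I), ?_, ?_⟩
  · refine IsCompact.image (hβ I).2 ?_
    exact continuous_pi fun i => continuous_apply (I i)
  · intro t ht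
    by_contra h
    exact ht ⟨t, subset_tsupport _ h, rfl⟩

private lemma Gene_flat {ι A B : Type} [AddCommMonoid B] (l : ι → List A) (f : A → B) :
    ∀ L : List ι, ((L.flatMap l).map f).sum = (L.map fun I => ((l I).map f).sum).sum
  | [] => rfl
  | I :: L => by
    rw [List.flatMap_cons, List.map_append, List.sum_append, Gene_flat l f L, List.map_cons,
      List.sum_cons]

theorem thm_Gene (h1 : St_GenA) (h2 : St_GenB) : St_Gene := by
  intro K L _ _ _ m hT R F U α hU hα hαU
  obtain ⟨A, β, α', hA1, hA2, hβ, hβU, hα', hα'U, hA3, hsum⟩ := h1 K L m hT R F U α hU hα hαU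
  have h3 : ∀ I : Fin (m + 1) → Fin R, ∃ l : List (TD L (m + 1)),
      (∀ D ∈ l, D.Good (algebraMap K L) {x | logv x F ∈ U}) ∧
        (pull F (fun I' t => if I' = I then α' I t else 0) :
          Fam (algebraMap K L) (m + 1) (m + 1)) = (l.map (TD.form (algebraMap K L))).sum := fun I =>
    h2 K L m R F U I (A I) (α' I) hU (hα' I).1 (hα' I).2 (hα'U I) (hA1 I) (hA2 I) (hA3 I)
  choose l hl1 hl2 using h3
  refine ⟨(Finset.univ : Finset (Fin (m + 1) → Fin R)).toList.flatMap l, ?_, ?_⟩
  · intro D hD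
    obtain ⟨I, _, hI⟩ := List.mem_flatMap.1 hD
    exact hl1 I D hI
  · have e1 : (((Finset.univ : Finset (Fin (m + 1) → Fin R)).toList.flatMap l).map
        (TD.form (algebraMap K L))).sum = pull F α' := by
      rw [Gene_flat, Finset.sum_map_toList]
      have e2 : ∀ I : Fin (m + 1) → Fin R, ((l I).map (TD.form (algebraMap K L))).sum =
          (pull F (fun I' t => if I' = I then α' I t else 0) :
          Fam (algebraMap K L) (m + 1) (m + 1)) := fun I => (hl2 I).symm
      rw [Finset.sum_congr rfl fun I _ => e2 I]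
      funext x δ ε
      rw [Finset.sum_apply, Finset.sum_apply, Finset.sum_apply]
      show ∑ I : Fin (m + 1) → Fin R, ∑ I' : Fin (m + 1) → Fin R,
        (Matrix.of fun i j => ev F (δ i) (I' j)).det *
          (if I' = I then α' I (logv x F) else 0) (fun i => ev F (ε i)) =
        ∑ I : Fin (m + 1) → Fin R, (Matrix.of fun i j => ev F (δ i) (I j)).det *
          α' I (logv x F) (fun i => ev F (ε i))
      refine Finset.sum_congr rfl fun I _ => ?_
      rw [Finset.sum_eq_single I]
      · rw [if_pos rfl]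
      · intro I' _ hI'
        rw [if_neg hI']
        simp
      · intro h
        exact (h (Finset.mem_univ _)).elim
    rw [e1, hsum, add_sub_cancel_right]
    refine Submodule.subset_span ⟨R, F, β, Gene_PC β hβ, ?_, rfl⟩
    intro x hx
    have h4 : ∀ I, β I (logv x F) = 0 ∧ extDeriv (β I) (logv x F) = 0 := fun I =>
      Gene_off (β I) _ fun h => hx (hβU I h)
    constructor
    · funext δ ε
      show ∑ I : Fin (m + 1) → Fin R, (Matrix.of fun i j => ev F (δ i) (I j)).det *
          β I (logv x F) (fun i => ev F (ε i)) = 0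
      refine Finset.sum_eq_zero fun I _ => ?_
      rw [(h4 I).1]
      simp
    · funext δ ε
      show ∑ I : Fin (m + 1) → Fin R, (Matrix.of fun i j => ev F (δ i) (I j)).det *
          extDeriv (β I) (logv x F) (fun i => ev F (ε i)) = 0
      refine Finset.sum_eq_zero fun I _ => ?_
      rw [(h4 I).2]
      simp

end TDC
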