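import Pool.Agent.TDC.RA3
import Pool.Agent.TDC.St

/-!
# TDC: the normal homotopy (module Homo)
-/

namespace TDC

open Set MeasureTheory Module
open scoped ContDiff Topology

theorem thm_Homo : St_Homo := by
  intro E _ _ _ n ν t₀ α hν hα _
  by_cases hr : finrank ℝ (LinearMap.range ν) ≤ n
  · obtain ⟨m, hm⟩ : ∃ m, n = finrank ℝ (LinearMap.range ν) + m := ⟨_, (Nat.add_sub_of_le hr).symm⟩
    let P : E →L[ℝ] E := LinearMap.toContinuousLinearMap ν
    have hP : ∀ u, P (P u) = P u := fun u => by
      have := congrArg (fun f : E →ₗ[ℝ] E => f u) hν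
      exact this
    have hα' : ContDiff ℝ ∞ α := hα
    refine ⟨kb P t₀ m α, contDiff_kb P t₀ m hα', ?_, ?_⟩
    · intro t ht0
      have h0 : kc P t₀ m α t = 0 := by
        show (∫ l in (0 : ℝ)..1, l ^ m • α (ht P t₀ (t, l))) = 0
        rw [intervalIntegral.integral_congr (g := fun _ => 0)]
        · simp
        · intro l hl
          rw [uIcc_of_le zero_le_one] at hl
          have h1 : α (ht P t₀ (t, l)) = 0 := by
            by_contra hne
            exact ht0 l hl (subset_tsupport _ hne)
          show l ^ m • α (ht P t₀ (t, l)) = 0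
          rw [h1, smul_zero]
      show (kc P t₀ m α t).curryLeft (t - t₀ - P (t - t₀)) = 0
      rw [h0]
      simp
    · intro V hV hrV t htV v hv
      have hPV : ∀ u ∈ V, P u ∈ V := fun u _ => hrV.le ⟨u, rfl⟩
      refine extDeriv_kb P hP t₀ m hα' V hV hPV ?_ hrV.le t htV v hv
      have : finrank ℝ (LinearMap.range (P : E →ₗ[ℝ] E)) = finrank ℝ (LinearMap.range ν) := rfl
      rw [this]
      omega
  · refine ⟨fun _ => 0, contDiff_const, fun _ _ => rfl, ?_⟩
    intro V hV hrV
    have := Submodule.finrank_lt_finrank_of_lt hrV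
    omega

end TDC
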