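import Pool.Agent.TDC.StI

/-!
# TDC, module IAf: affine space is a toric variety
-/

namespace TDC

open scoped Topology
open AlgebraicGeometry CategoryTheory

section gen

variable {R : Type} [CommRing R]

/-- the restriction map `R → Γ(Spec R, U)` -/
noncomputable def IAf_rho (U : (Spec (.of R)).Opens) : R →+* Γ(Spec (.of R), U) :=
  ((Spec (.of R)).presheaf.map (homOfLE le_top : U ⟶ ⊤).op).hom.comp
    (Scheme.ΓSpecIso (.of R)).inv.hom

/-- the principal open set of `f` -/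
noncomputable abbrev IAf_D (f : R) : (Spec (.of R)).Opens :=
  (Spec (.of R)).basicOpen ((Scheme.ΓSpecIso (.of R)).inv.hom f)

theorem IAf_rho_res (U V : (Spec (.of R)).Opens) (h : V ≤ U) (r : R) :
    ((Spec (.of R)).presheaf.map (homOfLE h).op).hom (IAf_rho U r) = IAf_rho V r := by
  unfold IAf_rho
  rw [RingHom.comp_apply, RingHom.comp_apply, ← RingHom.comp_apply, ← CommRingCat.hom_comp,
    ← Functor.map_comp]
  rfl

theorem IAf_basicOpen (U : (Spec (.of R)).Opens) (r : R) :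
    (Spec (.of R)).basicOpen (IAf_rho U r) = U ⊓ IAf_D r := by
  unfold IAf_rho
  rw [RingHom.comp_apply]
  exact Scheme.basicOpen_res _ _ _

theorem IAf_D_mul (f g : R) : IAf_D (f * g) = IAf_D f ⊓ IAf_D g := by
  unfold IAf_D
  rw [map_mul, Scheme.basicOpen_mul]

theorem IAf_D_one : IAf_D (1 : R) = ⊤ := by
  unfold IAf_D
  rw [map_one, Scheme.basicOpen_one]

theorem IAf_rho_D (f r : R) : IAf_rho (IAf_D f) r =
    algebraMap Γ(Spec (.of R), ⊤) Γ(Spec (.of R), IAf_D f)
      ((Scheme.ΓSpecIso (.of R)).inv.hom r) := rfl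

theorem IAf_unit (f : R) : IsUnit (IAf_rho (IAf_D f) f) := by
  rw [IAf_rho_D]
  exact IsLocalization.Away.algebraMap_isUnit ((Scheme.ΓSpecIso (.of R)).inv.hom f)

theorem IAf_inv_hom (t : Γ(Spec (.of R), ⊤)) : (Scheme.ΓSpecIso (.of R)).inv.hom
    ((Scheme.ΓSpecIso (.of R)).hom.hom t) = t := by
  rw [← RingHom.comp_apply, ← CommRingCat.hom_comp, Iso.hom_inv_id]
  rfl

theorem IAf_hom_inv (t : R) : (Scheme.ΓSpecIso (.of R)).hom.hom
    ((Scheme.ΓSpecIso (.of R)).inv.hom t) = t := by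
  rw [← RingHom.comp_apply, ← CommRingCat.hom_comp, Iso.inv_hom_id]
  rfl

theorem IAf_surj (f : R) (s : Γ(Spec (.of R), IAf_D f)) :
    ∃ (k : ℕ) (r : R), s * IAf_rho (IAf_D f) f ^ k = IAf_rho (IAf_D f) r := by
  obtain ⟨⟨x, ⟨y, k, hk⟩⟩, h⟩ := IsLocalization.surj
    (Submonoid.powers ((Scheme.ΓSpecIso (.of R)).inv.hom f)) s
  refine ⟨k, (Scheme.ΓSpecIso (.of R)).hom.hom x, ?_⟩
  subst hk
  rw [IAf_rho_D f ((Scheme.ΓSpecIso (.of R)).hom.hom x), IAf_inv_hom, ← map_pow, IAf_rho_D,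
    map_pow (Scheme.ΓSpecIso (.of R)).inv.hom]
  exact h

theorem IAf_inj [IsDomain R] (f : R) (hf : f ≠ 0) :
    Function.Injective (IAf_rho (IAf_D f)) := by
  intro r r' h
  rw [IAf_rho_D, IAf_rho_D] at h
  obtain ⟨⟨y, k, hk⟩, hc⟩ := (IsLocalization.eq_iff_exists
    (Submonoid.powers ((Scheme.ΓSpecIso (.of R)).inv.hom f)) _).1 h
  subst hk
  have e : ∀ t : R, (Scheme.ΓSpecIso (.of R)).inv.hom (f ^ k * t) =
      (Scheme.ΓSpecIso (.of R)).inv.hom f ^ k * (Scheme.ΓSpecIso (.of R)).inv.hom t := by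
    intro t
    rw [map_mul, map_pow]
  have h3 : (Scheme.ΓSpecIso (.of R)).inv.hom (f ^ k * r) =
      (Scheme.ΓSpecIso (.of R)).inv.hom (f ^ k * r') := (e r).trans (hc.trans (e r').symm)
  have h2 : f ^ k * r = f ^ k * r' := by
    rw [← IAf_hom_inv (f ^ k * r), h3, IAf_hom_inv]
  exact mul_left_cancel₀ (pow_ne_zero k hf) h2

theorem IAf_D_pow (g : R) (N : ℕ) : IAf_D g ≤ IAf_D (g ^ N) := by
  induction N with
  | zero => rw [pow_zero, IAf_D_one]; exact le_top
  | succ N ih => rw [pow_succ, IAf_D_mul]; exact le_inf ih le_rfl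

theorem IAf_D_dvd (f g : R) (N : ℕ) (h : f ∣ g ^ N) : IAf_D g ≤ IAf_D f := by
  obtain ⟨c, hc⟩ := h
  refine (IAf_D_pow g N).trans ?_
  rw [hc, IAf_D_mul]
  exact inf_le_left

end gen

/-! ### Monomials -/

section mono

variable {K : Type} [Field K] {n : ℕ}

variable (K) in
/-- the monomial `x^a` -/
noncomputable def IAf_mo (a : Fin n →₀ ℕ) : MvPolynomial (Fin n) K := MvPolynomial.monomial a 1

theorem IAf_mo_add (a b : Fin n →₀ ℕ) : IAf_mo K (a + b) = IAf_mo K a * IAf_mo K b := by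
  unfold IAf_mo
  rw [MvPolynomial.monomial_mul, one_mul]

theorem IAf_mo_zero : IAf_mo K (0 : Fin n →₀ ℕ) = 1 := rfl

theorem IAf_mo_pow (a : Fin n →₀ ℕ) (N : ℕ) : IAf_mo K (N • a) = IAf_mo K a ^ N := by
  unfold IAf_mo
  rw [MvPolynomial.monomial_pow, one_pow]

theorem IAf_mo_ne (a : Fin n →₀ ℕ) : IAf_mo K a ≠ 0 := by
  unfold IAf_mo
  intro h
  exact one_ne_zero (MvPolynomial.monomial_eq_zero.1 h)

theorem IAf_le_smul (a b : Fin n →₀ ℕ) (h : ∀ k, a k ≠ 0 → b k ≠ 0) :
    a ≤ (∑ k, a k) • b := by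
  intro k
  rw [Finsupp.smul_apply, smul_eq_mul]
  by_cases hk : a k = 0
  · rw [hk]
    exact Nat.zero_le _
  · have h1 : a k ≤ ∑ k, a k := Finset.single_le_sum (fun _ _ => Nat.zero_le _) (Finset.mem_univ k)
    calc a k ≤ (∑ k, a k) * 1 := by rw [mul_one]; exact h1
      _ ≤ (∑ k, a k) * b k := Nat.mul_le_mul_left _ (Nat.one_le_iff_ne_zero.2 (h k hk))

theorem IAf_mo_dvd (a b : Fin n →₀ ℕ) (h : ∀ k, a k ≠ 0 → b k ≠ 0) :
    IAf_mo K a ∣ IAf_mo K b ^ (∑ k, a k) := by
  refine ⟨IAf_mo K ((∑ k, a k) • b - a), ?_⟩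
  rw [← IAf_mo_pow, ← IAf_mo_add, add_tsub_cancel_of_le (IAf_le_smul a b h)]

theorem IAf_D_mo_le (a b : Fin n →₀ ℕ) (h : ∀ k, a k ≠ 0 → b k ≠ 0) :
    IAf_D (IAf_mo K b) ≤ IAf_D (IAf_mo K a) := IAf_D_dvd _ _ _ (IAf_mo_dvd a b h)

theorem IAf_D_mo_eq (a b : Fin n →₀ ℕ) (h : ∀ k, a k ≠ 0 ↔ b k ≠ 0) :
    IAf_D (IAf_mo K b) = IAf_D (IAf_mo K a) :=
  le_antisymm (IAf_D_mo_le a b fun k => (h k).1) (IAf_D_mo_le b a fun k => (h k).2)

/-- the indicator function of the complement of `J` -/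
noncomputable def IAf_ind (J : Finset (Fin n)) : Fin n →₀ ℕ :=
  Finsupp.equivFunOnFinite.symm fun k => if k ∈ J then 0 else 1

theorem IAf_ind_apply (J : Finset (Fin n)) (k : Fin n) :
    IAf_ind J k = if k ∈ J then 0 else 1 := rfl

theorem IAf_ind_ne (J : Finset (Fin n)) (k : Fin n) : IAf_ind J k ≠ 0 ↔ k ∉ J := by
  rw [IAf_ind_apply]
  split_ifs with h <;> simp [h]

variable (K) in
/-- the open set `U_J` -/
noncomputable abbrev IAf_U (J : Finset (Fin n)) : (Spec (.of (MvPolynomial (Fin n) K))).Opens :=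
  IAf_D (IAf_mo K (IAf_ind J))

theorem IAf_isUnit (J : Finset (Fin n)) (b : Fin n →₀ ℕ) (hb : ∀ k ∈ J, b k = 0) :
    IsUnit (IAf_rho (IAf_U K J) (IAf_mo K b)) := by
  have h1 : IAf_mo K b ∣ IAf_mo K (IAf_ind J) ^ (∑ k, b k) := by
    refine IAf_mo_dvd b (IAf_ind J) fun k hk => (IAf_ind_ne J k).2 fun hJ => hk (hb k hJ)
  have h2 := (IAf_rho (IAf_U K J)).map_dvd h1
  rw [map_pow] at h2
  exact isUnit_of_dvd_unit h2 ((IAf_unit _).pow _)

/-- `c` is the section `χ^m` on `U_J` -/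
def IAf_Q (J : Finset (Fin n)) (c : Γ(Spec (.of (MvPolynomial (Fin n) K)), IAf_U K J))
    (m : Fin n → ℤ) : Prop :=
  ∃ a b : Fin n →₀ ℕ, (∀ k ∈ J, b k = 0) ∧ (∀ k, (a k : ℤ) - b k = m k) ∧
    c * IAf_rho (IAf_U K J) (IAf_mo K b) = IAf_rho (IAf_U K J) (IAf_mo K a)

theorem IAf_Q_all {J : Finset (Fin n)} {c : Γ(Spec (.of (MvPolynomial (Fin n) K)), IAf_U K J)}
    {m : Fin n → ℤ} (h : IAf_Q J c m) (a' b' : Fin n →₀ ℕ)
    (h' : ∀ k, (a' k : ℤ) - b' k = m k) :
    c * IAf_rho (IAf_U K J) (IAf_mo K b') = IAf_rho (IAf_U K J) (IAf_mo K a') := by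
  obtain ⟨a, b, hb, hab, hc⟩ := h
  have e : b' + a = a' + b := by
    ext k
    have h1 := hab k
    have h2 := h' k
    rw [Finsupp.add_apply, Finsupp.add_apply]
    omega
  apply (IAf_isUnit J b hb).mul_right_cancel
  rw [mul_right_comm, hc, ← map_mul, ← map_mul, ← IAf_mo_add, ← IAf_mo_add, add_comm a b', e]

theorem IAf_Q_uniq {J : Finset (Fin n)} {c c' : Γ(Spec (.of (MvPolynomial (Fin n) K)), IAf_U K J)}
    {m : Fin n → ℤ} (h : IAf_Q J c m) (h' : IAf_Q J c' m) : c = c' := by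
  obtain ⟨a, b, hb, hab, hc⟩ := h
  apply (IAf_isUnit J b hb).mul_right_cancel
  rw [hc, IAf_Q_all h' a b hab]

theorem IAf_Q_ex (J : Finset (Fin n)) (m : Fin n → ℤ) (hm : ∀ k ∈ J, 0 ≤ m k) :
    ∃ c : Γ(Spec (.of (MvPolynomial (Fin n) K)), IAf_U K J), IAf_Q J c m := by
  let a : Fin n →₀ ℕ := Finsupp.equivFunOnFinite.symm fun k => (m k).toNat
  let b : Fin n →₀ ℕ := Finsupp.equivFunOnFinite.symm fun k => (-m k).toNat
  have hb : ∀ k ∈ J, b k = 0 := by
    intro k hk
    have h1 : b k = (-m k).toNat := rfl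
    have := hm k hk
    omega
  obtain ⟨u, hu⟩ := IAf_isUnit (K := K) J b hb
  refine ⟨IAf_rho (IAf_U K J) (IAf_mo K a) * ↑u⁻¹, a, b, hb, fun k => ?_, ?_⟩
  · have h1 : b k = (-m k).toNat := rfl
    have h2 : a k = (m k).toNat := rfl
    omega
  · rw [← hu, mul_assoc, Units.inv_mul, mul_one]

theorem IAf_Q_one (J : Finset (Fin n)) :
    IAf_Q J (1 : Γ(Spec (.of (MvPolynomial (Fin n) K)), IAf_U K J)) 0 :=
  ⟨0, 0, fun _ _ => rfl, fun _ => rfl, by rw [one_mul]⟩

theorem IAf_Q_mul {J : Finset (Fin n)} {c c' : Γ(Spec (.of (MvPolynomial (Fin n) K)), IAf_U K J)}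
    {m m' : Fin n → ℤ} (h : IAf_Q J c m) (h' : IAf_Q J c' m') :
    IAf_Q J (c * c') (m + m') := by
  obtain ⟨a, b, hb, hab, hc⟩ := h
  obtain ⟨a', b', hb', hab', hc'⟩ := h'
  refine ⟨a + a', b + b', fun k hk => ?_, fun k => ?_, ?_⟩
  · rw [Finsupp.add_apply, hb k hk, hb' k hk]
  · have h1 := hab k
    have h2 := hab' k
    rw [Finsupp.add_apply, Finsupp.add_apply, Pi.add_apply]
    push_cast
    omega
  · rw [IAf_mo_add, IAf_mo_add, map_mul, map_mul, ← hc, ← hc']
    ring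

theorem IAf_U_le {J J' : Finset (Fin n)} (h : J' ⊆ J) : IAf_U K J' ≤ IAf_U K J := by
  refine IAf_D_mo_le _ _ fun k hk => ?_
  rw [IAf_ind_ne] at hk ⊢
  exact fun h' => hk (h h')

theorem IAf_Q_res {J J' : Finset (Fin n)} (hJ : J' ⊆ J) (hU : IAf_U K J' ≤ IAf_U K J)
    {c : Γ(Spec (.of (MvPolynomial (Fin n) K)), IAf_U K J)} {m : Fin n → ℤ} (h : IAf_Q J c m) :
    IAf_Q J' (((Spec (.of (MvPolynomial (Fin n) K))).presheaf.map (homOfLE hU).op).hom c) m := by
  obtain ⟨a, b, hb, hab, hc⟩ := h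
  refine ⟨a, b, fun k hk => hb k (hJ hk), hab, ?_⟩
  rw [← IAf_rho_res _ _ hU, ← map_mul, hc, IAf_rho_res]

theorem IAf_Q_basic {J : Finset (Fin n)}
    {c : Γ(Spec (.of (MvPolynomial (Fin n) K)), IAf_U K J)} {m : Fin n → ℤ} (h : IAf_Q J c m)
    (J' : Finset (Fin n)) (hJ' : ∀ k, k ∈ J' ↔ k ∈ J ∧ m k = 0) :
    IAf_U K J' = (Spec (.of (MvPolynomial (Fin n) K))).basicOpen c := by
  obtain ⟨a, b, hb, hab, hc⟩ := h
  have h1 : (Spec (.of (MvPolynomial (Fin n) K))).basicOpen c =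
      (Spec (.of (MvPolynomial (Fin n) K))).basicOpen
        (c * IAf_rho (IAf_U K J) (IAf_mo K b)) := by
    rw [Scheme.basicOpen_mul, Scheme.basicOpen_of_isUnit _ (IAf_isUnit J b hb)]
    exact (inf_eq_left.2 (Scheme.basicOpen_le _ _)).symm
  rw [h1, hc, IAf_basicOpen, ← IAf_D_mul, ← IAf_mo_add]
  refine IAf_D_mo_eq _ _ fun k => ?_
  rw [IAf_ind_ne, hJ', Finsupp.add_apply]
  by_cases hk : k ∈ J
  · have h2 : IAf_ind J k = 0 := by rw [IAf_ind_apply, if_pos hk]
    have h3 := hab k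
    have h4 := hb k hk
    rw [h2]
    constructor
    · intro h5 h6
      exact h5 (by have := h6.2; omega)
    · intro h5 h6
      exact h5 ⟨hk, by omega⟩
  · have h2 : IAf_ind J k = 1 := by rw [IAf_ind_apply, if_neg hk]
    rw [h2]
    constructor
    · intro _ h6
      exact hk h6.1
    · intro _
      omega

theorem IAf_U_inter (J J' J'' : Finset (Fin n)) (h : ∀ k, k ∈ J'' ↔ k ∈ J ∧ k ∈ J') :
    IAf_U K J ⊓ IAf_U K J' = IAf_U K J'' := by
  rw [← IAf_D_mul, ← IAf_mo_add]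
  refine IAf_D_mo_eq _ _ fun k => ?_
  rw [IAf_ind_ne, h, Finsupp.add_apply]
  have h1 := IAf_ind_apply J k
  have h2 := IAf_ind_apply J' k
  by_cases hk : k ∈ J <;> by_cases hk' : k ∈ J' <;> simp_all

theorem IAf_U_univ : IAf_U K (Finset.univ : Finset (Fin n)) = ⊤ := by
  have h : IAf_ind (Finset.univ : Finset (Fin n)) = 0 := by
    ext k
    rw [IAf_ind_apply, if_pos (Finset.mem_univ k)]
    rfl
  unfold IAf_U
  rw [h, IAf_mo_zero, IAf_D_one]

/-- the basis property -/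
theorem IAf_basis (J : Finset (Fin n)) (S : AddSubmonoid (Fin n → ℤ))
    (hS : ∀ m, m ∈ S ↔ ∀ k ∈ J, 0 ≤ m k)
    (χ : S → Γ(Spec (.of (MvPolynomial (Fin n) K)), IAf_U K J)) (hχ : ∀ m : S, IAf_Q J (χ m) m) :
    Function.Bijective fun f : S →₀ K =>
      f.sum fun m a => IAf_rho (IAf_U K J) (MvPolynomial.C a) * χ m := by
  classical
  let L : (S →₀ K) →+ Γ(Spec (.of (MvPolynomial (Fin n) K)), IAf_U K J) :=
    Finsupp.liftAddHom fun m => (AddMonoidHom.mulRight (χ m)).comp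
      ((IAf_rho (IAf_U K J)).comp MvPolynomial.C).toAddMonoidHom
  have hL : (fun f : S →₀ K =>
      f.sum fun m a => IAf_rho (IAf_U K J) (MvPolynomial.C a) * χ m) = L := rfl
  have hL1 : ∀ (m : S) (a : K), L (Finsupp.single m a) =
      IAf_rho (IAf_U K J) (MvPolynomial.C a) * χ m := by
    intro m a
    show Finsupp.liftAddHom _ _ = _
    rw [Finsupp.liftAddHom_apply_single]
    rfl
  rw [hL]
  constructor
  · rw [injective_iff_map_eq_zero L]
    intro f hf
    by_contra hf0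
    obtain ⟨m₀, hm₀⟩ := Finsupp.support_nonempty_iff.2 hf0
    let N : ℕ := ∑ m ∈ f.support, ∑ k, ((m : Fin n → ℤ) k).natAbs
    let sh : S → (Fin n →₀ ℕ) := fun m => Finsupp.equivFunOnFinite.symm fun k =>
      ((m : Fin n → ℤ) k + N * IAf_ind J k).toNat
    have hsh : ∀ m ∈ f.support, ∀ k, ((sh m k : ℕ) : ℤ) = (m : Fin n → ℤ) k + N * IAf_ind J k := by
      intro m hm k
      have h1 : sh m k = ((m : Fin n → ℤ) k + N * IAf_ind J k).toNat := rfl
      rw [h1, Int.toNat_of_nonneg]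
      by_cases hk : k ∈ J
      · have h2 : IAf_ind J k = 0 := by rw [IAf_ind_apply, if_pos hk]
        have h3 := (hS m).1 m.2 k hk
        rw [h2]
        simpa using h3
      · have h2 : IAf_ind J k = 1 := by rw [IAf_ind_apply, if_neg hk]
        have h3 : ((m : Fin n → ℤ) k).natAbs ≤ N := by
          calc ((m : Fin n → ℤ) k).natAbs ≤ ∑ k, ((m : Fin n → ℤ) k).natAbs :=
                Finset.single_le_sum (f := fun k => ((m : Fin n → ℤ) k).natAbs)
                  (fun _ _ => Nat.zero_le _) (Finset.mem_univ k)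
            _ ≤ N := Finset.single_le_sum
                (f := fun m : S => ∑ k, ((m : Fin n → ℤ) k).natAbs)
                (fun _ _ => Nat.zero_le _) hm
        rw [h2]
        push_cast
        omega
    have hinj : ∀ m ∈ f.support, sh m = sh m₀ → m = m₀ := by
      intro m hm h
      apply Subtype.ext
      funext k
      have h1 := hsh m hm k
      have h2 := hsh m₀ hm₀ k
      rw [h] at h1
      linarith
    have hprod : L f * IAf_rho (IAf_U K J) (IAf_mo K (N • IAf_ind J)) =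
        IAf_rho (IAf_U K J) (∑ m ∈ f.support, MvPolynomial.C (f m) * IAf_mo K (sh m)) := by
      have h1 : L f = ∑ m ∈ f.support, IAf_rho (IAf_U K J) (MvPolynomial.C (f m)) * χ m := rfl
      rw [h1, Finset.sum_mul, map_sum]
      refine Finset.sum_congr rfl fun m hm => ?_
      rw [map_mul, mul_assoc]
      congr 1
      refine IAf_Q_all (hχ m) _ _ fun k => ?_
      rw [hsh m hm k, Finsupp.smul_apply, smul_eq_mul]
      push_cast
      ring
    rw [hf, zero_mul] at hprod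
    have hP : ∑ m ∈ f.support, MvPolynomial.C (f m) * IAf_mo K (sh m) = 0 :=
      IAf_inj _ (IAf_mo_ne _) (by rw [← hprod, map_zero])
    have hc := congrArg (MvPolynomial.coeff (sh m₀)) hP
    rw [MvPolynomial.coeff_sum, MvPolynomial.coeff_zero] at hc
    have hc2 : ∑ m ∈ f.support, MvPolynomial.coeff (sh m₀)
        (MvPolynomial.C (f m) * IAf_mo K (sh m)) = f m₀ := by
      rw [Finset.sum_eq_single m₀]
      · unfold IAf_mo
        rw [MvPolynomial.coeff_C_mul, MvPolynomial.coeff_monomial, if_pos rfl, mul_one]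
      · intro m hm hne
        unfold IAf_mo
        rw [MvPolynomial.coeff_C_mul, MvPolynomial.coeff_monomial,
          if_neg (fun h => hne (hinj m hm h)), mul_zero]
      · intro h
        exact absurd hm₀ h
    rw [hc2] at hc
    exact (Finsupp.mem_support_iff.1 hm₀) hc
  · intro s
    obtain ⟨k, r, hr⟩ := IAf_surj (IAf_mo K (IAf_ind J)) s
    rw [← map_pow, ← IAf_mo_pow] at hr
    have hmem : ∀ a : Fin n →₀ ℕ, (fun j => (a j : ℤ) - (k • IAf_ind J) j) ∈ S := by
      intro a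
      rw [hS]
      intro j hj
      have h2 : IAf_ind J j = 0 := by rw [IAf_ind_apply, if_pos hj]
      rw [Finsupp.smul_apply, h2]
      simp
    refine ⟨∑ a ∈ r.support, Finsupp.single ⟨_, hmem a⟩ (MvPolynomial.coeff a r), ?_⟩
    apply (IAf_isUnit J (k • IAf_ind J) (fun j hj => by
      rw [Finsupp.smul_apply, IAf_ind_apply, if_pos hj, smul_zero])).mul_right_cancel
    rw [hr, map_sum, Finset.sum_mul]
    have h1 : ∀ a ∈ r.support, L (Finsupp.single ⟨_, hmem a⟩ (MvPolynomial.coeff a r)) *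
        IAf_rho (IAf_U K J) (IAf_mo K (k • IAf_ind J)) =
        IAf_rho (IAf_U K J) (MvPolynomial.monomial a (MvPolynomial.coeff a r)) := by
      intro a _
      have h2 : MvPolynomial.monomial a (MvPolynomial.coeff a r) =
          MvPolynomial.C (MvPolynomial.coeff a r) * IAf_mo K a := by
        unfold IAf_mo
        rw [MvPolynomial.C_mul_monomial, mul_one]
      rw [hL1, mul_assoc, h2, map_mul]
      congr 1
      exact IAf_Q_all (hχ _) _ _ fun j => rfl
    rw [Finset.sum_congr rfl h1, ← map_sum, MvPolynomial.support_sum_monomial_coeff]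

end mono

/-! ### Cones -/

theorem IAf_mem_cone {n : ℕ} (J : Finset (Fin n)) (k : Fin n) :
    (Pi.single k 1 : Fin n → ℝ) ∈ coneOf (J.image fun j => (Pi.single j 1 : Fin n → ℤ)) ↔
      k ∈ J := by
  classical
  constructor
  · rintro ⟨a, -, h⟩
    have h1 := congrFun h k
    rw [Pi.single_eq_same, Finset.sum_apply] at h1
    by_contra hk
    have h2 : ∑ v ∈ J.image (fun j => (Pi.single j 1 : Fin n → ℤ)),
        (a v • fun k => (v k : ℝ)) k = 0 := by
      refine Finset.sum_eq_zero fun v hv => ?_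
      obtain ⟨j, hj, rfl⟩ := Finset.mem_image.1 hv
      have h3 : j ≠ k := fun h => hk (h ▸ hj)
      rw [Pi.smul_apply, Pi.single_eq_of_ne h3.symm, Int.cast_zero, smul_zero]
    rw [h2] at h1
    exact one_ne_zero h1
  · intro hk
    refine ⟨fun v => if v = Pi.single k 1 then 1 else 0, fun v => ?_, ?_⟩
    · show (0 : ℝ) ≤ if v = Pi.single k 1 then 1 else 0
      split_ifs
      · exact zero_le_one
      · exact le_rfl
    · rw [Finset.sum_eq_single (Pi.single k 1)]
      · beta_reduce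
        rw [if_pos rfl, one_smul]
        funext l
        by_cases hl : l = k
        · subst hl
          simp
        · simp [hl]
      · intro v _ hv
        beta_reduce
        rw [if_neg hv, zero_smul]
      · intro h
        exact absurd (Finset.mem_image.2 ⟨k, hk, rfl⟩) h

theorem IAf_mem_face {n : ℕ} (J : Finset (Fin n)) (m : Fin n → ℤ) (k : Fin n) :
    (Pi.single k 1 : Fin n → ℝ) ∈ faceOf (J.image fun j => (Pi.single j 1 : Fin n → ℤ)) m ↔
      k ∈ J ∧ m k = 0 := by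
  classical
  unfold faceOf
  rw [Set.mem_inter_iff, IAf_mem_cone]
  have h : pr m (Pi.single k 1) = (m k : ℝ) := by
    unfold pr
    rw [Finset.sum_eq_single k]
    · simp
    · intro j _ hj
      simp [hj]
    · intro h
      exact absurd (Finset.mem_univ k) h
  have h2 : (Pi.single k 1 : Fin n → ℝ) ∈ {u : Fin n → ℝ | pr m u = 0} ↔ m k = 0 := by
    show pr m (Pi.single k 1) = 0 ↔ m k = 0
    rw [h, Int.cast_eq_zero]
  rw [h2]

theorem IAf_mem_dual {n : ℕ} (J : Finset (Fin n)) (m : Fin n → ℤ) :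
    m ∈ dualOf (J.image fun j => (Pi.single j 1 : Fin n → ℤ)) ↔ ∀ k ∈ J, 0 ≤ m k := by
  classical
  have h : ∀ j : Fin n, ∑ k, m k * (Pi.single j 1 : Fin n → ℤ) k = m j := by
    intro j
    rw [Finset.sum_eq_single j]
    · simp
    · intro k _ hk
      simp [hk]
    · intro h
      exact absurd (Finset.mem_univ j) h
  constructor
  · intro hm k hk
    have h1 := hm _ (Finset.mem_image.2 ⟨k, hk, rfl⟩)
    rwa [h] at h1
  · intro hm v hv
    obtain ⟨j, hj, rfl⟩ := Finset.mem_image.1 hv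
    rw [h]
    exact hm j hj

theorem IAf_kΓ {K : Type} [NormedField K] {n : ℕ}
    (U : (Spec (.of (MvPolynomial (Fin n) K))).Opens) (a : K) :
    kΓ (Spec.map (CommRingCat.ofHom (algebraMap K (MvPolynomial (Fin n) K)))) U a =
      IAf_rho U (MvPolynomial.C a) := by
  have h := congrArg (fun g => g.hom a) (Scheme.ΓSpecIso_inv_naturality
    (CommRingCat.ofHom (algebraMap K (MvPolynomial (Fin n) K))))
  unfold kΓ IAf_rho
  rw [RingHom.comp_apply, RingHom.comp_apply, RingHom.comp_apply]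
  exact congrArg _ h.symm

theorem thm_IAf : St_IAf := by
  classical
  intro K _ n Δ e hg
  refine ⟨?_, ?_⟩
  · unfold AfK
    infer_instance
  · show Nonempty (@Toric K _ (Spec (.of (MvPolynomial (Fin n) K))) n Δ
      (Spec.map (CommRingCat.ofHom (algebraMap K (MvPolynomial (Fin n) K)))))
    have hcone : ∀ i, Δ.cone i = coneOf ((e i).image fun j => (Pi.single j 1 : Fin n → ℤ)) := by
      intro i
      unfold Fan.cone
      rw [hg]
    have hmem : ∀ i k, (Pi.single k 1 : Fin n → ℝ) ∈ Δ.cone i ↔ k ∈ e i := by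
      intro i k
      rw [hcone]
      exact IAf_mem_cone _ _
    have hsub : ∀ i j, Δ.cone j ⊆ Δ.cone i → e j ⊆ e i := fun i j h k hk =>
      (hmem i k).1 (h ((hmem j k).2 hk))
    have hdual : ∀ i m, m ∈ Δ.dual i ↔ ∀ k ∈ e i, 0 ≤ m k := by
      intro i m
      unfold Fan.dual
      rw [hg]
      exact IAf_mem_dual _ _
    have hex : ∀ i (m : Δ.dual i), ∃ c, IAf_Q (K := K) (e i) c m := fun i m =>
      IAf_Q_ex _ _ ((hdual i m).1 m.2)
    choose χ hχ using hex
    exact ⟨{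
      U := fun i => IAf_U K (e i)
      aff := fun i => (isAffineOpen_top _).basicOpen _
      cover := fun ξ => ⟨e.symm Finset.univ, by
        rw [e.apply_symm_apply, IAf_U_univ]
        trivial⟩
      χ := fun i => {
        toFun := fun m => χ i m.toAdd
        map_one' := IAf_Q_uniq (hχ i _) (IAf_Q_one (e i))
        map_mul' := fun m m' => IAf_Q_uniq (hχ i _) (IAf_Q_mul (hχ i m.toAdd) (hχ i m'.toAdd)) }
      basis := fun i => by
        have h := IAf_basis (e i) (Δ.dual i) (hdual i) (χ i) (hχ i)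
        have h2 : (fun f : Δ.dual i →₀ K => f.sum fun m a =>
            kΓ (Spec.map (CommRingCat.ofHom (algebraMap K (MvPolynomial (Fin n) K))))
              (IAf_U K (e i)) a * χ i m) = fun f : Δ.dual i →₀ K => f.sum fun m a =>
            IAf_rho (IAf_U K (e i)) (MvPolynomial.C a) * χ i m := by
          funext f
          refine Finset.sum_congr rfl fun m _ => ?_
          beta_reduce
          rw [IAf_kΓ]
        rw [← h2] at h
        exact h
      le := fun i j h => IAf_U_le (hsub i j h)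
      res := fun i j h m m' hm => by
        have h1 := IAf_Q_res (hsub i j h) (IAf_U_le (hsub i j h)) (hχ i m)
        refine IAf_Q_uniq h1 ?_
        rw [hm]
        exact hχ j m'
      basic := fun i j m h => by
        refine IAf_Q_basic (hχ i m) (e j) fun k => ?_
        rw [← hmem, h, hg]
        exact IAf_mem_face _ _ _
      inter := fun i j k h => by
        refine IAf_U_inter _ _ _ fun l => ?_
        rw [← hmem, h, Set.mem_inter_iff, hmem, hmem] }⟩

end TDC
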