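import Pool.Agent.TDC.StI

/-!
# TDC, module IFan: the fans of `𝔾_m^n`, `𝔸^n`, `ℙ^n`
-/

namespace TDC

open Finset

private theorem IFan_mem {n : ℕ} {κ : Type} [Fintype κ] [DecidableEq κ] (r : κ → Fin n → ℤ)
    (hr : Function.Injective r) (J : Finset κ) (u : Fin n → ℝ) :
    u ∈ coneOf (J.image r) ↔ ∃ a : κ → ℝ, (∀ j, 0 ≤ a j) ∧ (∀ j, j ∉ J → a j = 0) ∧
      ∀ k, u k = ∑ j, a j * (r j k : ℝ) := by
  classical
  constructor
  · rintro ⟨a, ha, hu⟩
    refine ⟨fun j => if j ∈ J then a (r j) else 0, ?_, ?_, ?_⟩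
    · intro j
      dsimp only
      split_ifs
      · exact ha _
      · exact le_rfl
    · intro j hj
      dsimp only
      rw [if_neg hj]
    · intro k
      rw [hu, Finset.sum_apply, Finset.sum_image (fun x _ y _ h => hr h)]
      simp only [Pi.smul_apply, smul_eq_mul, ite_mul, zero_mul]
      rw [Finset.sum_ite_mem, Finset.univ_inter]
  · rintro ⟨a, ha, ha', hu⟩
    refine ⟨Function.extend r a 0, ?_, ?_⟩
    · intro v
      by_cases hv : ∃ j, r j = v
      · obtain ⟨j, rfl⟩ := hv
        rw [hr.extend_apply]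
        exact ha j
      · rw [Function.extend_apply' _ _ _ hv]
        exact le_rfl
    · funext k
      rw [hu k, Finset.sum_apply, Finset.sum_image (fun x _ y _ h => hr h)]
      simp only [Pi.smul_apply, smul_eq_mul, hr.extend_apply]
      symm
      apply Finset.sum_subset (Finset.subset_univ _)
      intro j _ hj
      rw [ha' j hj, zero_mul]

private theorem IFan_pr {n : ℕ} {κ : Type} [Fintype κ] (r : κ → Fin n → ℤ) (m : Fin n → ℤ)
    (a : κ → ℝ) (u : Fin n → ℝ) (hu : ∀ k, u k = ∑ j, a j * (r j k : ℝ)) :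
    pr m u = ∑ j, a j * ((∑ k, m k * r j k : ℤ) : ℝ) := by
  unfold pr
  simp only [hu]
  push_cast
  simp only [Finset.mul_sum]
  rw [Finset.sum_comm]
  apply Finset.sum_congr rfl
  intro j _
  apply Finset.sum_congr rfl
  intro k _
  ring

private theorem IFan_dual {n : ℕ} {κ : Type} [Fintype κ] [DecidableEq κ] (r : κ → Fin n → ℤ)
    (J : Finset κ) (m : Fin n → ℤ) :
    m ∈ dualOf (J.image r) ↔ ∀ j ∈ J, 0 ≤ ∑ k, m k * r j k := by
  constructor
  · intro h j hj
    exact h (r j) (Finset.mem_image_of_mem r hj)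
  · intro h v hv
    obtain ⟨j, hj, rfl⟩ := Finset.mem_image.1 hv
    exact h j hj

private theorem IFan_face {n : ℕ} {κ : Type} [Fintype κ] [DecidableEq κ] (r : κ → Fin n → ℤ)
    (hr : Function.Injective r) (J : Finset κ) (m : Fin n → ℤ)
    (hm : ∀ j ∈ J, 0 ≤ ∑ k, m k * r j k) (J' : Finset κ)
    (hJ' : ∀ j, j ∈ J' ↔ j ∈ J ∧ ∑ k, m k * r j k = 0) :
    coneOf (J'.image r) = faceOf (J.image r) m := by
  ext u
  unfold faceOf
  rw [Set.mem_inter_iff, IFan_mem r hr, IFan_mem r hr, Set.mem_ofPred_eq]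
  constructor
  · rintro ⟨a, ha, ha', hu⟩
    refine ⟨⟨a, ha, fun j hj => ha' j (fun h => hj ((hJ' j).1 h).1), hu⟩, ?_⟩
    rw [IFan_pr r m a u hu]
    apply Finset.sum_eq_zero
    intro j _
    by_cases hj : j ∈ J'
    · rw [((hJ' j).1 hj).2]; simp
    · rw [ha' j hj, zero_mul]
  · rintro ⟨⟨a, ha, ha', hu⟩, h0⟩
    refine ⟨a, ha, ?_, hu⟩
    rw [IFan_pr r m a u hu] at h0
    have hnn : ∀ j ∈ (Finset.univ : Finset κ), 0 ≤ a j * ((∑ k, m k * r j k : ℤ) : ℝ) := by
      intro j _
      by_cases hj : j ∈ J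
      · exact mul_nonneg (ha j) (by exact_mod_cast hm j hj)
      · rw [ha' j hj, zero_mul]
    have h1 := (Finset.sum_eq_zero_iff_of_nonneg hnn).1 h0
    intro j hj
    by_cases hjJ : j ∈ J
    · have h2 := h1 j (Finset.mem_univ j)
      rcases mul_eq_zero.1 h2 with h3 | h3
      · exact h3
      · exfalso
        exact hj ((hJ' j).2 ⟨hjJ, by exact_mod_cast h3⟩)
    · exact ha' j hjJ

private theorem IFan_main {n : ℕ} {κ : Type} [Fintype κ] [DecidableEq κ] (r : κ → Fin n → ℤ)
    (hr : Function.Injective r) (P : Finset κ → Prop) (hP0 : P ∅)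
    (hPs : ∀ J J', J' ⊆ J → P J → P J')
    (uniq : ∀ (J J' : Finset κ) (a a' : κ → ℝ), P J → P J' → (∀ j, 0 ≤ a j) → (∀ j, 0 ≤ a' j) →
      (∀ j, j ∉ J → a j = 0) → (∀ j, j ∉ J' → a' j = 0) →
      (∀ k, ∑ j, a j * (r j k : ℝ) = ∑ j, a' j * (r j k : ℝ)) → a = a')
    (chr : ∀ J J' : Finset κ, J' ⊆ J → P J → ∃ m : Fin n → ℤ,
      (∀ j ∈ J', ∑ k, m k * r j k = 0) ∧ (∀ j ∈ J, j ∉ J' → 0 < ∑ k, m k * r j k)) :
    ∃ (Δ : Fan n) (e : Δ.ι ≃ {J : Finset κ // P J}), ∀ i, Δ.gens i = (e i).1.image r := by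
  have key : ∀ J J' : Finset κ, P J → P J' →
      coneOf (J.image r) = coneOf (J'.image r) → J ⊆ J' := by
    intro J J' hJ hJ' h j hj
    have h1 : (fun k => ∑ j, (if j ∈ J then (1 : ℝ) else 0) * (r j k : ℝ)) ∈
        coneOf (J.image r) := by
      rw [IFan_mem r hr]
      refine ⟨fun j => if j ∈ J then (1 : ℝ) else 0, ?_, ?_, fun k => rfl⟩
      · intro j; dsimp only; split_ifs <;> norm_num
      · intro j hj; dsimp only; rw [if_neg hj]
    rw [h, IFan_mem r hr] at h1
    obtain ⟨a, ha, ha', hu⟩ := h1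
    have h2 := uniq J J' (fun j => if j ∈ J then (1 : ℝ) else 0) a hJ hJ'
      (by intro j; split_ifs <;> norm_num) ha
      (by intro j hj; rw [if_neg hj]) ha' hu
    by_contra hj'
    have h3 := congrFun h2 j
    rw [ha' j hj'] at h3
    simp only [if_pos hj] at h3
    exact one_ne_zero h3
  have faces : ∀ (J J' : Finset κ), P J → J' ⊆ J →
      ∃ m ∈ dualOf (J.image r), coneOf (J'.image r) = faceOf (J.image r) m := by
    intro J J' hJ hJJ
    obtain ⟨m, hm1, hm2⟩ := chr J J' hJJ hJ
    have hm : ∀ j ∈ J, 0 ≤ ∑ k, m k * r j k := by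
      intro j hj
      by_cases hj' : j ∈ J'
      · exact (hm1 j hj').ge
      · exact (hm2 j hj hj').le
    refine ⟨m, (IFan_dual r J m).2 hm, IFan_face r hr J m hm J' ?_⟩
    intro j
    constructor
    · intro hj
      exact ⟨hJJ hj, hm1 j hj⟩
    · rintro ⟨hj, h0⟩
      by_contra hj'
      exact (hm2 j hj hj').ne' h0
  have int : ∀ J J' : Finset κ, P J → P J' →
      coneOf ((J ∩ J').image r) = coneOf (J.image r) ∩ coneOf (J'.image r) := by
    intro J J' hJ hJ'
    ext u
    rw [Set.mem_inter_iff, IFan_mem r hr, IFan_mem r hr, IFan_mem r hr]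
    constructor
    · rintro ⟨a, ha, ha', hu⟩
      exact ⟨⟨a, ha, fun j hj => ha' j (fun h => hj (Finset.mem_inter.1 h).1), hu⟩,
        ⟨a, ha, fun j hj => ha' j (fun h => hj (Finset.mem_inter.1 h).2), hu⟩⟩
    · rintro ⟨⟨a, ha, ha', hu⟩, ⟨b, hb, hb', hv⟩⟩
      have hab := uniq J J' a b hJ hJ' ha hb ha' hb' (fun k => by rw [← hu k, ← hv k])
      refine ⟨a, ha, ?_, hu⟩
      intro j hj
      by_cases h1 : j ∈ J
      · have h2 : j ∉ J' := fun h => hj (Finset.mem_inter.2 ⟨h1, h⟩)
        rw [hab]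
        exact hb' j h2
      · exact ha' j h1
  refine ⟨{ ι := {J : Finset κ // P J}
            fin := inferInstance
            ne := ⟨⟨∅, hP0⟩⟩
            gens := fun i => i.1.image r
            inj := ?_
            pointed := ?_
            face := ?_
            inter := ?_ }, Equiv.refl _, fun i => rfl⟩
  · intro i j h
    exact Subtype.ext (Finset.Subset.antisymm (key _ _ i.2 j.2 h) (key _ _ j.2 i.2 h.symm))
  · intro i u hu hu'
    rw [IFan_mem r hr] at hu hu'
    obtain ⟨a, ha, ha', hu⟩ := hu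
    obtain ⟨b, hb, hb', hv⟩ := hu'
    have h0 := uniq i.1 i.1 (fun j => a j + b j) 0 i.2 i.2 (fun j => add_nonneg (ha j) (hb j))
      (fun j => le_rfl) (fun j hj => by rw [ha' j hj, hb' j hj, add_zero]) (fun j _ => rfl)
      (fun k => by
        have h1 : ∑ j, (a j + b j) * (r j k : ℝ) = u k + (-u) k := by
          rw [hu k, hv k, ← Finset.sum_add_distrib]
          exact Finset.sum_congr rfl (fun j _ => by ring)
        rw [h1]
        simp)
    funext k
    rw [hu k]
    apply Finset.sum_eq_zero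
    intro j _
    have h2 := congrFun h0 j
    simp only [Pi.zero_apply] at h2
    have h3 : a j = 0 := le_antisymm (by linarith [hb j]) (ha j)
    rw [h3, zero_mul]
  · intro i m hm
    refine ⟨⟨i.1.filter (fun j => ∑ k, m k * r j k = 0),
      hPs _ _ (Finset.filter_subset _ _) i.2⟩, ?_⟩
    exact IFan_face r hr i.1 m ((IFan_dual r i.1 m).1 hm) _ (fun j => Finset.mem_filter)
  · intro i j
    refine ⟨⟨i.1 ∩ j.1, hPs _ _ Finset.inter_subset_left i.2⟩, int _ _ i.2 j.2, ?_, ?_⟩
    · exact faces _ _ i.2 Finset.inter_subset_left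
    · exact faces _ _ j.2 Finset.inter_subset_right

private theorem IFan_two (n : ℕ) : ∃ (Δ : Fan n) (e : Δ.ι ≃ Finset (Fin n)),
    (0 < n → ¬ Δ.Complete) ∧ ∀ i, Δ.gens i = (e i).image fun j => Pi.single j 1 := by
  have hr : Function.Injective (fun j : Fin n => (Pi.single j 1 : Fin n → ℤ)) := by
    intro i j h
    have h1 := congrFun h i
    simp only [Pi.single_eq_same] at h1
    by_contra hij
    rw [Pi.single_eq_of_ne hij] at h1
    exact one_ne_zero h1
  have hs : ∀ (a : Fin n → ℝ) (k : Fin n),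
      ∑ j, a j * (((Pi.single j 1 : Fin n → ℤ) k : ℤ) : ℝ) = a k := by
    intro a k
    rw [Finset.sum_eq_single k]
    · rw [Pi.single_eq_same]; simp
    · intro j _ hj
      rw [Pi.single_eq_of_ne (Ne.symm hj)]; simp
    · intro h; exact absurd (Finset.mem_univ k) h
  have hm : ∀ (m : Fin n → ℤ) (j : Fin n), ∑ k, m k * (Pi.single j 1 : Fin n → ℤ) k = m j := by
    intro m j
    rw [Finset.sum_eq_single j]
    · rw [Pi.single_eq_same, mul_one]
    · intro k _ hk
      rw [Pi.single_eq_of_ne hk, mul_zero]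
    · intro h; exact absurd (Finset.mem_univ j) h
  obtain ⟨Δ, e, he⟩ := IFan_main (fun j : Fin n => (Pi.single j 1 : Fin n → ℤ)) hr
    (fun _ => True) trivial (fun _ _ _ _ => trivial)
    (by
      intro J J' a a' _ _ _ _ _ _ h
      funext k
      have h1 := h k
      rw [hs, hs] at h1
      exact h1)
    (by
      intro J J' _ _
      refine ⟨fun j => if j ∈ J \ J' then 1 else 0, ?_, ?_⟩
      · intro j hj
        rw [hm, if_neg (fun h => (Finset.mem_sdiff.1 h).2 hj)]
      · intro j hj hj'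
        rw [hm, if_pos (Finset.mem_sdiff.2 ⟨hj, hj'⟩)]
        exact one_pos)
  refine ⟨Δ, e.trans (Equiv.subtypeUnivEquiv fun _ => trivial), ?_, ?_⟩
  · intro hn hc
    obtain ⟨i, hi⟩ := hc (fun _ => -1)
    unfold Fan.cone at hi
    rw [he i, IFan_mem _ hr] at hi
    obtain ⟨a, ha, _, hu⟩ := hi
    have h1 := hu ⟨0, hn⟩
    rw [hs] at h1
    have := ha ⟨0, hn⟩
    linarith
  · intro i
    exact he i

private theorem IFan_three (n : ℕ) :
    ∃ (Δ : Fan n) (e : Δ.ι ≃ {J : Finset (Fin (n + 1)) // J ≠ Finset.univ}), Δ.Complete ∧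
      ∀ i, Δ.gens i = (e i).1.image
        (Fin.cons (α := fun _ => Fin n → ℤ) (fun _ => -1) fun j => Pi.single j 1) := by
  set r : Fin (n + 1) → Fin n → ℤ :=
    Fin.cons (α := fun _ => Fin n → ℤ) (fun _ => -1) (fun j => Pi.single j 1) with hrdef
  have r0 : ∀ k, r 0 k = -1 := fun k => rfl
  have rs : ∀ j k, r (Fin.succ j) k = (Pi.single j 1 : Fin n → ℤ) k := fun j k => rfl
  have hr : Function.Injective r := by
    intro i j
    refine Fin.cases ?_ (fun i' => ?_) i
    · refine Fin.cases ?_ (fun j' => ?_) j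
      · intro _; rfl
      · intro h
        exfalso
        have h1 := congrFun h j'
        rw [r0, rs, Pi.single_eq_same] at h1
        norm_num at h1
    · refine Fin.cases ?_ (fun j' => ?_) j
      · intro h
        exfalso
        have h1 := congrFun h i'
        rw [r0, rs, Pi.single_eq_same] at h1
        norm_num at h1
      · intro h
        have h1 := congrFun h i'
        rw [rs, rs, Pi.single_eq_same] at h1
        by_contra hij
        have hne : i' ≠ j' := fun h => hij (by rw [h])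
        rw [Pi.single_eq_of_ne hne] at h1
        exact one_ne_zero h1
  have hs : ∀ (a : Fin (n + 1) → ℝ) (k : Fin n),
      ∑ j, a j * ((r j k : ℤ) : ℝ) = a k.succ - a 0 := by
    intro a k
    rw [Fin.sum_univ_succ, r0]
    have h1 : ∑ j : Fin n, a j.succ * ((r j.succ k : ℤ) : ℝ) = a k.succ := by
      rw [Finset.sum_eq_single k]
      · rw [rs, Pi.single_eq_same]; simp
      · intro j _ hj
        rw [rs, Pi.single_eq_of_ne (Ne.symm hj)]; simp
      · intro h; exact absurd (Finset.mem_univ k) h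
    rw [h1]
    push_cast
    ring
  have hm0 : ∀ (m : Fin n → ℤ), ∑ k, m k * r 0 k = -∑ k, m k := by
    intro m
    rw [← Finset.sum_neg_distrib]
    exact Finset.sum_congr rfl (fun k _ => by rw [r0]; ring)
  have hms : ∀ (m : Fin n → ℤ) (j : Fin n), ∑ k, m k * r j.succ k = m j := by
    intro m j
    rw [Finset.sum_eq_single j]
    · rw [rs, Pi.single_eq_same, mul_one]
    · intro k _ hk
      rw [rs, Pi.single_eq_of_ne hk, mul_zero]
    · intro h; exact absurd (Finset.mem_univ j) h
  have hne : ∀ J : Finset (Fin (n + 1)), J ≠ Finset.univ → ∃ l, l ∉ J := by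
    intro J hJ
    by_contra hcon
    push Not at hcon
    exact hJ (Finset.eq_univ_iff_forall.2 hcon)
  obtain ⟨Δ, e, he⟩ := IFan_main r hr (fun J => J ≠ Finset.univ)
    (by
      intro h
      have h0 : (0 : Fin (n + 1)) ∈ (∅ : Finset (Fin (n + 1))) := by
        rw [h]; exact Finset.mem_univ 0
      exact absurd h0 (Finset.notMem_empty 0))
    (by
      intro J J' hJJ hJ h
      exact hJ (Finset.eq_univ_iff_forall.2 fun x => hJJ (by rw [h]; exact Finset.mem_univ x)))
    (by
      intro J J' a a' hJ hJ' ha ha' h1 h2 h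
      obtain ⟨l, hl⟩ := hne J hJ
      obtain ⟨l', hl'⟩ := hne J' hJ'
      have hc : ∀ j, a j - a' j = a 0 - a' 0 := by
        intro j
        refine Fin.cases rfl (fun k => ?_) j
        have h3 := h k
        rw [hs, hs] at h3
        linarith
      have h4 := hc l
      have h5 := hc l'
      rw [h1 l hl] at h4
      rw [h2 l' hl'] at h5
      have h6 := ha' l
      have h7 := ha l'
      funext j
      have h8 := hc j
      linarith)
    (by
      intro J J' hJJ hJ
      obtain ⟨l, hl⟩ := hne J hJ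
      obtain ⟨t, ht⟩ : ∃ t : Fin (n + 1) → ℤ, t = fun j =>
        (if j ∈ J \ J' then (1 : ℤ) else 0) - (if j = l then ((J \ J').card : ℤ) else 0) :=
        ⟨_, rfl⟩
      have ht0 : ∑ j, t j = 0 := by
        rw [ht, Finset.sum_sub_distrib, Finset.sum_ite_eq', if_pos (Finset.mem_univ l),
          Finset.sum_boole, Finset.filter_mem_eq_inter, Finset.univ_inter, sub_self]
      have hmt : ∀ j, ∑ k : Fin n, t k.succ * r j k = t j := by
        intro j
        refine Fin.cases ?_ (fun k => ?_) j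
        · rw [hm0 (fun k => t k.succ)]
          rw [Fin.sum_univ_succ] at ht0
          linarith
        · exact hms (fun k => t k.succ) k
      refine ⟨fun k => t k.succ, ?_, ?_⟩
      · intro j hj
        rw [hmt, ht]
        have e1 : j ∉ J \ J' := fun h => (Finset.mem_sdiff.1 h).2 hj
        have e2 : j ≠ l := fun h => hl (h ▸ hJJ hj)
        simp only [if_neg e1, if_neg e2, sub_zero]
      · intro j hj hj'
        rw [hmt, ht]
        have e1 : j ∈ J \ J' := Finset.mem_sdiff.2 ⟨hj, hj'⟩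
        have e2 : j ≠ l := fun h => hl (h ▸ hj)
        simp only [if_pos e1, if_neg e2, sub_zero]
        exact one_pos)
  refine ⟨Δ, e, ?_, fun i => he i⟩
  intro u
  obtain ⟨l, hl⟩ := Finite.exists_min (Fin.cons 0 u : Fin (n + 1) → ℝ)
  set v : Fin (n + 1) → ℝ := Fin.cons 0 u with hv
  have v0 : v 0 = 0 := rfl
  have vs : ∀ k : Fin n, v k.succ = u k := fun k => rfl
  have hJ : (Finset.univ.erase l : Finset (Fin (n + 1))) ≠ Finset.univ := by
    intro h
    have := Finset.mem_univ l
    rw [← h] at this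
    exact absurd this (Finset.notMem_erase l _)
  refine ⟨e.symm ⟨Finset.univ.erase l, hJ⟩, ?_⟩
  unfold Fan.cone
  rw [he, IFan_mem r hr]
  refine ⟨fun j => v j - v l, fun j => sub_nonneg.2 (hl j), ?_, ?_⟩
  · intro j hj
    have hjl : j = l := by
      by_contra hne
      apply hj
      rw [Equiv.apply_symm_apply]
      exact Finset.mem_erase.2 ⟨hne, Finset.mem_univ j⟩
    simp only [hjl, sub_self]
  · intro k
    rw [hs, vs, v0]
    ring

theorem thm_IFan : St_IFan := by
  intro n
  refine ⟨?_, IFan_two n, IFan_three n⟩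
  obtain ⟨Δ, e, he⟩ := IFan_main (κ := Fin 0) (fun _ : Fin 0 => (0 : Fin n → ℤ))
    (fun i => i.elim0) (fun _ => True) trivial (fun _ _ _ _ => trivial)
    (fun J J' a a' _ _ _ _ _ _ _ => funext fun i => i.elim0)
    (fun J J' _ _ => ⟨0, fun j => j.elim0, fun j => j.elim0⟩)
  refine ⟨Δ, ?_, ?_⟩
  · constructor
    intro i j
    apply e.injective
    apply Subtype.ext
    ext x
    exact x.elim0
  · intro i
    rw [he i]
    ext v
    simp only [Finset.mem_image, Finset.notMem_empty, iff_false]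
    rintro ⟨x, _⟩
    exact x.elim0

end TDC
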