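import Pool.Agent.TDC.StI

/-!
# TDC, module IGm: the torus is a toric variety
-/

set_option autoImplicit false

namespace TDC

open scoped Topology
open AlgebraicGeometry CategoryTheory

section

variable (K : Type) [NormedField K] (n : ℕ)

/-- the isomorphism `K[ℤ^n] → Γ(Spec K[ℤ^n], ⊤)` -/
private noncomputable def IGm_e : AddMonoidAlgebra K (Fin n → ℤ) →+* Γ(GmK K n, ⊤) :=
  (Scheme.ΓSpecIso (.of (AddMonoidAlgebra K (Fin n → ℤ)))).inv.hom

private theorem IGm_e_bij : Function.Bijective (IGm_e K n) :=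
  ConcreteCategory.bijective_of_isIso
    (Scheme.ΓSpecIso (.of (AddMonoidAlgebra K (Fin n → ℤ)))).inv

private theorem IGm_k (a : K) :
    kΓ (GmKs K n) ⊤ a = IGm_e K n (algebraMap K (AddMonoidAlgebra K (Fin n → ℤ)) a) := by
  have h2 := Scheme.ΓSpecIso_inv_naturality
    (CommRingCat.ofHom (algebraMap K (AddMonoidAlgebra K (Fin n → ℤ))))
  have h3 := congrArg (fun f => f.hom a) h2
  have h1 : ((GmK K n).presheaf.map
      (homOfLE (le_top : (⊤ : (GmK K n).Opens) ≤ ⊤)).op) = 𝟙 _ := by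
    have : (homOfLE (le_top : (⊤ : (GmK K n).Opens) ≤ ⊤)) = 𝟙 _ := Subsingleton.elim _ _
    rw [this, op_id, (GmK K n).presheaf.map_id]
  unfold kΓ
  rw [h1]
  exact h3.symm

/-- the characters -/
private noncomputable def IGm_chi {n : ℕ} (D : AddSubmonoid (Fin n → ℤ)) :
    Multiplicative D →* Γ(GmK K n, ⊤) :=
  (IGm_e K n : AddMonoidAlgebra K (Fin n → ℤ) →* Γ(GmK K n, ⊤)).comp
    ((AddMonoidAlgebra.of K (Fin n → ℤ)).comp (AddMonoidHom.toMultiplicative D.subtype))

private theorem IGm_chi_apply {n : ℕ} (D : AddSubmonoid (Fin n → ℤ)) (m : D) :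
    IGm_chi K D (Multiplicative.ofAdd m) = IGm_e K n (AddMonoidAlgebra.single (m : Fin n → ℤ) 1) :=
  rfl

private theorem IGm_unit {n : ℕ} (D : AddSubmonoid (Fin n → ℤ)) (m : D) :
    IsUnit (IGm_chi K D (Multiplicative.ofAdd m)) := by
  rw [IGm_chi_apply]
  refine IsUnit.map (IGm_e K n) ?_
  refine IsUnit.of_mul_eq_one (AddMonoidAlgebra.single (-(m : Fin n → ℤ)) 1) ?_
  rw [AddMonoidAlgebra.single_mul_single, add_neg_cancel, mul_one]
  rfl

private theorem IGm_basis {n : ℕ} (D : AddSubmonoid (Fin n → ℤ)) (hD : D = ⊤) :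
    Function.Bijective fun f : D →₀ K =>
      f.sum fun m a => kΓ (GmKs K n) ⊤ a * IGm_chi K D (Multiplicative.ofAdd m) := by
  have e1 : (fun f : D →₀ K =>
      f.sum fun m a => kΓ (GmKs K n) ⊤ a * IGm_chi K D (Multiplicative.ofAdd m)) =
      (IGm_e K n) ∘ AddMonoidAlgebra.ofCoeff ∘ Finsupp.mapDomain Subtype.val := by
    funext f
    simp only [Function.comp_apply]
    rw [Finsupp.mapDomain, AddMonoidAlgebra.ofCoeff_finsuppSum, map_finsuppSum]
    refine Finsupp.sum_congr fun m _ => ?_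
    rw [IGm_k, IGm_chi_apply, ← map_mul, AddMonoidAlgebra.ofCoeff_single]
    congr 1
    rw [AddMonoidAlgebra.coe_algebraMap]
    simp [AddMonoidAlgebra.single_mul_single]
  rw [e1]
  refine (IGm_e_bij K n).comp (Function.Bijective.comp ?_ ?_)
  · exact AddMonoidAlgebra.coeffEquiv.symm.bijective
  · subst hD
    refine ⟨Finsupp.mapDomain_injective Subtype.val_injective, fun g => ?_⟩
    refine ⟨Finsupp.mapDomain (fun m => ⟨m, AddSubmonoid.mem_top m⟩) g, ?_⟩
    rw [← Finsupp.mapDomain_comp]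
    exact Finsupp.mapDomain_id

end

theorem thm_IGm : St_IGm := by
  intro K _ n Δ hS hg
  have hdom : IsDomain (AddMonoidAlgebra K (Fin n → ℤ)) := NoZeroDivisors.to_isDomain _
  refine ⟨inferInstanceAs (IsIntegral (Spec (.of (AddMonoidAlgebra K (Fin n → ℤ))))), ⟨?_⟩⟩
  have haff : IsAffine (GmK K n) :=
    inferInstanceAs (IsAffine (Spec (.of (AddMonoidAlgebra K (Fin n → ℤ)))))
  have hD : ∀ i, Δ.dual i = ⊤ := by
    intro i
    rw [eq_top_iff]
    intro m _ v hv
    rw [hg i] at hv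
    simp at hv
  exact
    { U := fun _ => ⊤
      aff := fun _ => isAffineOpen_top _
      cover := fun ξ => ⟨Δ.ne.some, trivial⟩
      χ := fun i => IGm_chi K (Δ.dual i)
      basis := fun i => IGm_basis K (Δ.dual i) (hD i)
      le := fun _ _ _ => le_rfl
      res := by
        intro i j h m m' hm
        have h1 : ((GmK K n).presheaf.map
            (homOfLE (le_rfl : (⊤ : (GmK K n).Opens) ≤ ⊤)).op) = 𝟙 _ := by
          have : (homOfLE (le_rfl : (⊤ : (GmK K n).Opens) ≤ ⊤)) = 𝟙 _ := Subsingleton.elim _ _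
          rw [this, op_id, (GmK K n).presheaf.map_id]
        rw [h1, IGm_chi_apply, IGm_chi_apply, hm]
        rfl
      basic := by
        intro i j m _
        exact (Scheme.basicOpen_of_isUnit _ (IGm_unit K (Δ.dual i) m)).symm
      inter := fun _ _ _ _ => inf_idem _ }

end TDC
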