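import Pool.Agent.TDC.StT

/-!
# TDC, Phase 2, INJ
-/

namespace TDC

open scoped Topology
open MeasureTheory

/-- two different affine maps differ almost everywhere -/
theorem INJ_ae_ne {R n : ℕ} (k l : Matrix (Fin R) (Fin n) ℝ × (Fin R → ℝ)) (hkl : k ≠ l) :
    ∀ᵐ u : Fin n → ℝ, af k u ≠ af l u := by
  classical
  -- the set of equality is an affine subspace
  let A : AffineSubspace ℝ (Fin n → ℝ) :=
    { carrier := {u | af k u = af l u}
      smul_vsub_vadd_mem' := by
        intro c p₁ p₂ p₃ h₁ h₂ h₃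
        simp only [Set.mem_ofPred_eq, af, vsub_eq_sub, vadd_eq_add, Matrix.mulVec_add,
          Matrix.mulVec_smul, Matrix.mulVec_sub] at *
        have e₁ : k.1.mulVec p₁ - l.1.mulVec p₁ = l.2 - k.2 := by
          ext i
          have := congrFun h₁ i
          simp only [Pi.add_apply, Pi.sub_apply] at this ⊢
          linarith
        have e₂ : k.1.mulVec p₂ - l.1.mulVec p₂ = l.2 - k.2 := by
          ext i
          have := congrFun h₂ i
          simp only [Pi.add_apply, Pi.sub_apply] at this ⊢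
          linarith
        ext i
        have q₁ := congrFun e₁ i
        have q₂ := congrFun e₂ i
        have q₃ := congrFun h₃ i
        simp only [Pi.add_apply, Pi.sub_apply, Pi.smul_apply, smul_eq_mul] at q₁ q₂ q₃ ⊢
        linear_combination q₃ + c * q₁ - c * q₂ }
  have hA : A ≠ ⊤ := by
    intro h
    have hall : ∀ u, af k u = af l u := by
      intro u
      have : u ∈ A := by rw [h]; exact AffineSubspace.mem_top ℝ _ u
      exact this
    apply hkl
    have h0 : k.2 = l.2 := by
      have := hall 0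
      simpa [af] using this
    have h1 : k.1 = l.1 := by
      ext i j
      have := congrFun (hall (Pi.single j 1)) i
      simp only [af, h0, Pi.add_apply, Matrix.mulVec_single_one] at this
      simpa [Matrix.col] using this
    exact Prod.ext h1 h0
  have := MeasureTheory.Measure.addHaar_affineSubspace (volume : Measure (Fin n → ℝ)) A hA
  rw [ae_iff]
  have hs : {a : Fin n → ℝ | ¬ af k a ≠ af l a} = (A : Set (Fin n → ℝ)) := by
    ext u
    simp only [not_not]
    exact Iff.rfl
  rw [hs]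
  exact this

theorem INJ_ae_inj {R n : ℕ} (𝒦 : Finset (Matrix (Fin R) (Fin n) ℝ × (Fin R → ℝ))) :
    ∀ᵐ u : Fin n → ℝ, ∀ k ∈ 𝒦, ∀ l ∈ 𝒦, af k u = af l u → k = l := by
  have h : ∀ k ∈ 𝒦, ∀ l ∈ 𝒦, ∀ᵐ u : Fin n → ℝ, af k u = af l u → k = l := by
    intro k _ l _
    by_cases hkl : k = l
    · exact Filter.Eventually.of_forall fun _ _ => hkl
    · filter_upwards [INJ_ae_ne k l hkl] with u hu h
      exact absurd h hu
  rw [Filter.eventually_all_finset]
  intro k hk
  rw [Filter.eventually_all_finset]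
  exact h k hk

/-- the linear map `p ↦ p ∘ a` -/
noncomputable def INJ_pr {R R' : ℕ} (a : Fin R → Fin R') : (Fin R' → ℝ) →L[ℝ] (Fin R → ℝ) :=
  ContinuousLinearMap.pi fun i => ContinuousLinearMap.proj (a i)

theorem INJ_pr_apply {R R' : ℕ} (a : Fin R → Fin R') (p : Fin R' → ℝ) : INJ_pr a p = p ∘ a := rfl

theorem INJ_ext {R R' m : ℕ} (a : Fin R → Fin R')
    (γ : (Fin R → ℝ) → (Fin R → ℝ) [⋀^Fin m]→L[ℝ] ℝ) (hγ : ContDiff ℝ (⊤ : ℕ∞) γ)
    (p : Fin R' → ℝ) (w : Fin (m + 1) → Fin R' → ℝ) :
    extDeriv (fun p => (γ (p ∘ a)).compContinuousLinearMap (INJ_pr a)) p w =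
      extDeriv γ (p ∘ a) (fun j => (w j) ∘ a) := by
  have hf : ContDiffAt ℝ (⊤ : ℕ∞) (fun p => INJ_pr a p) p := (INJ_pr a).contDiff.contDiffAt
  have h := extDeriv_pullback (𝕜 := ℝ) (r := ((⊤ : ℕ∞) : WithTop ℕ∞)) (ω := γ)
    (f := fun p => INJ_pr a p) (x := p)
    ((hγ.differentiable (by simp)).differentiableAt) hf (by
      rw [minSmoothness_of_isRCLikeNormedField]
      have h2 : ((2 : ℕ∞) : WithTop ℕ∞) ≤ ((⊤ : ℕ∞) : WithTop ℕ∞) := WithTop.coe_le_coe.2 le_top
      exact h2)
  have hd : ∀ x, fderiv ℝ (fun p => INJ_pr a p) x = INJ_pr a := fun x => (INJ_pr a).fderiv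
  simp only [hd] at h
  have h' := congrArg (fun z => z w) h
  simpa [INJ_pr_apply, Function.comp_def] using h'

section core

variable {K L : Type} [NontriviallyNormedField K] [IsUltrametricDist K] [Field L] [Algebra K L]

omit [IsUltrametricDist K] in
/-- the determinant of the tangent vectors along a sheet -/
theorem INJ_det {R n : ℕ} {y : Pt (algebraMap K L)} (F' : Fin R → Lˣ) (J : Fin n → Fin R)
    (M : Matrix (Fin R) (Fin n) ℝ) (δ : Fin n → Tan y)
    (h : ∀ j, ev F' (δ j) = M.mulVec (Pi.single j 1)) :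
    (Matrix.of fun i j => ev F' (δ i) (J j)).det = (M.submatrix J id).det := by
  rw [← Matrix.det_transpose (M.submatrix J id)]
  congr 1
  ext i j
  simp only [Matrix.of_apply, Matrix.transpose_apply, Matrix.submatrix_apply, id_eq, h]
  rw [Matrix.mulVec_single_one]
  rfl

theorem INJ_core (hGNl : St_GNl) (hEmG : St_EmG)
    (hFini : St_Fini) (hTng : St_Tng) (hStJ : St_StJ) (hTrT : St_TrT)
    {m R R' : ℕ} (hTr : TrLe K L (m + 1)) (hFG : (⊤ : IntermediateField K L).FG)
    (hc : (Set.range fun a : K => ‖a‖).Countable)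
    (F' : Fin R' → Lˣ) (a : Fin R → Fin R') (τ ζ : Fin (m + 1) → Fin R')
    (hPa : ∀ (I : Fin (m + 1) → Fin R) (y : Pt (algebraMap K L)),
      Indep y (F' ∘ (a ∘ I)) → Indep y (F' ∘ ζ))
    (hPτ : ∀ y : Pt (algebraMap K L), Indep y (F' ∘ τ) → Indep y (F' ∘ ζ))
    (hti : AlgebraicIndependent K (fun i => (F' (τ i) : L)))
    (htop : IntermediateField.adjoin K (Set.range fun i => (F' (τ i) : L)) = ⊤)
    (b : (Fin (m + 1) → ℝ) → ℝ) (hb : ContDiff ℝ (⊤ : ℕ∞) b) (hbc : HasCompactSupport b)
    (γ : SF R (m + 1) m) (hγ : γ.PC)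
    (hyp : ∀ y : Pt (algebraMap K L), pull (F' ∘ a) γ.dd y = pull (F' ∘ τ) (top b) y) :
    ∫ s, b s = 0 := by
  classical
  obtain ⟨𝒦, h𝒦⟩ := hFini K L (m + 1) hTr R' F' ζ
  have hSh : Sheets K F' ζ 𝒦 := h𝒦
  set g : Fin (m + 1) → Lˣ := F' ∘ ζ with hg
  -- pulled back forms
  let β : (Fin (m + 1) → Fin R) → (Fin R' → ℝ) → (Fin R' → ℝ) [⋀^Fin m]→L[ℝ] ℝ :=
    fun I p => (γ I (p ∘ a)).compContinuousLinearMap (INJ_pr a)
  have hβs : ∀ I, ContDiff ℝ (⊤ : ℕ∞) (β I) := by
    intro I
    have h1 : ContDiff ℝ (⊤ : ℕ∞) (fun p : Fin R' → ℝ => γ I (p ∘ a)) :=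
      (hγ I).1.comp (INJ_pr a).contDiff
    exact (ContinuousAlternatingMap.compContinuousLinearMapCLM (INJ_pr a)).contDiff.comp h1
  choose C hC hC0 using fun I => (hγ I).2
  have hStJ' := fun I : Fin (m + 1) → Fin R =>
    hStJ K L m R' hTr hFG hc F' ζ (a ∘ I) 𝒦 hSh (hPa I) (β I) (C I) (hβs I) (hC I) (by
      intro p hp
      have : γ I (p ∘ a) = 0 := hC0 I _ (by simpa [Function.comp_def] using hp)
      simp only [β, this]
      ext w
      simp)
  -- sum over I
  have hsum : ∫ u, ∑ I : Fin (m + 1) → Fin R, ∑ k ∈ 𝒦,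
      cw K (F' ∘ ζ) F' u (af k u) * (k.1.submatrix (a ∘ I) id).det *
        extDeriv (β I) (af k u) (fun j => k.1.mulVec (Pi.single j 1)) = 0 := by
    rw [integral_finsetSum]
    · exact Finset.sum_eq_zero fun I _ => (hStJ' I).2
    · intro I _
      exact integrable_finsetSum _ fun k hk => (hStJ' I).1 k hk
  -- a.e. equality
  have hae : ∀ᵐ u : Fin (m + 1) → ℝ, (∑ I : Fin (m + 1) → Fin R, ∑ k ∈ 𝒦,
      cw K (F' ∘ ζ) F' u (af k u) * (k.1.submatrix (a ∘ I) id).det *
        extDeriv (β I) (af k u) (fun j => k.1.mulVec (Pi.single j 1))) =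
      ∑ k ∈ 𝒦, cw K (F' ∘ ζ) F' u (af k u) * (k.1.submatrix τ id).det ^ 2 * b (af k u ∘ τ) := by
    have hgen : ∀ᵐ u : Fin (m + 1) → ℝ, Generic K u := by
      have := hGNl K (m + 1) hc 1 0 (by simp)
      simpa using this
    filter_upwards [hgen, INJ_ae_inj 𝒦] with u hu hinj
    rw [Finset.sum_comm]
    refine Finset.sum_congr rfl fun k hk => ?_
    by_cases hcw : cw K (F' ∘ ζ) F' u (af k u) = 0
    · simp [hcw]
    -- a point over the position
    have hex : ∃ y : Pt (algebraMap K L), Gauss y g ∧ logv y g = u ∧ logv y F' = af k u := by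
      unfold cw at hcw
      split_ifs at hcw with hx
      · unfold wtS at hcw
        have hne : (Emb K g ∩ {σ | logv (pb σ hx.choose) F' = af k u}).ncard ≠ 0 := by
          intro h0
          apply hcw
          rw [hg] at h0
          rw [h0]
          simp
        obtain ⟨σ, hσ⟩ := Set.nonempty_of_ncard_ne_zero hne
        have := hEmG.1 K L (m + 1) g hx.choose u hx.choose_spec σ hσ.1
        exact ⟨pb σ hx.choose, this.1, this.2, hσ.2⟩
      · exact absurd rfl hcw
    obtain ⟨y, hy1, hy2, hy3⟩ := hex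
    have hind : Indep y g := (hEmG.2.2 K L (m + 1) g y).2 (by rw [hy2]; exact hu)
    obtain ⟨k', hk', hk1, hk2⟩ := hSh.2 y hy1
    have hkk : k' = k := by
      apply hinj k' hk' k hk
      rw [← hy3, hk1]
      congr 1
      exact hy2.symm
    subst hkk
    -- tangent vectors
    have hδ : ∀ j : Fin (m + 1), ∃ δ : Tan y, ev g δ = Pi.single j 1 := fun j =>
      (hTng K L (m + 1) hTr y g hind).1 _
    choose δ hδ using hδ
    have hev : ∀ j, ev F' (δ j) = k'.1.mulVec (Pi.single j 1) := fun j => by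
      rw [hk2 (δ j)]
      congr 1
      exact hδ j
    have hy := congrFun (congrFun (hyp y) δ) δ
    have hL : pull (F' ∘ a) γ.dd y δ δ = ∑ I : Fin (m + 1) → Fin R,
        (k'.1.submatrix (a ∘ I) id).det *
          extDeriv (β I) (af k' u) (fun j => k'.1.mulVec (Pi.single j 1)) := by
      unfold pull pullAt
      refine Finset.sum_congr rfl fun I _ => ?_
      have h1 : (Matrix.of fun i j => ev (F' ∘ a) (δ i) (I j)).det =
          (k'.1.submatrix (a ∘ I) id).det := INJ_det F' (a ∘ I) k'.1 δ hev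
      rw [h1]
      congr 1
      rw [INJ_ext a (γ I) (hγ I).1]
      have h2 : logv y (F' ∘ a) = af k' u ∘ a := by
        rw [← hy3]; rfl
      have h3 : (fun i => ev (F' ∘ a) (δ i)) =
          fun j => (k'.1.mulVec (Pi.single j 1)) ∘ a := by
        funext j
        rw [← hev j]; rfl
      rw [h2, h3]
      rfl
    have hR : pull (F' ∘ τ) (top b) y δ δ =
        (k'.1.submatrix τ id).det ^ 2 * b (af k' u ∘ τ) := by
      unfold pull pullAt
      rw [Finset.sum_eq_single (id : Fin (m + 1) → Fin (m + 1))]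
      · have h1 : (Matrix.of fun i j => ev (F' ∘ τ) (δ i) (id j)).det =
            (k'.1.submatrix τ id).det := INJ_det F' τ k'.1 δ hev
        rw [h1]
        have h2 : logv y (F' ∘ τ) = af k' u ∘ τ := by
          rw [← hy3]; rfl
        rw [h2]
        simp only [top, mono, if_true]
        rw [ContinuousAlternatingMap.smul_apply, dx_apply]
        have h4 : (Matrix.of fun i j => ev (F' ∘ τ) (δ i) (id j)).det =
            (k'.1.submatrix τ id).det := h1
        rw [h4, smul_eq_mul]
        ring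
      · intro I _ hI
        simp [top, mono, hI]
      · intro h
        exact absurd (Finset.mem_univ _) h
    rw [hL, hR] at hy
    calc ∑ I : Fin (m + 1) → Fin R, cw K (F' ∘ ζ) F' u (af k' u) *
          (k'.1.submatrix (a ∘ I) id).det *
          extDeriv (β I) (af k' u) (fun j => k'.1.mulVec (Pi.single j 1))
        = cw K (F' ∘ ζ) F' u (af k' u) * ∑ I : Fin (m + 1) → Fin R,
          (k'.1.submatrix (a ∘ I) id).det *
          extDeriv (β I) (af k' u) (fun j => k'.1.mulVec (Pi.single j 1)) := by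
          rw [Finset.mul_sum]
          exact Finset.sum_congr rfl fun I _ => by ring
      _ = _ := by rw [hy]; ring
  rw [integral_congr_ae hae] at hsum
  rw [hTrT K L (m + 1) R' (Nat.succ_pos m) hTr hFG hc F' ζ τ 𝒦 hSh hPτ hti htop b
    hb.continuous hbc] at hsum
  exact hsum

end core

theorem thm_INJ : St_Gen → St_Fini → St_GNl → St_EmF → St_EmG →
    St_IndG → St_Tng → St_StJ → St_TrT → St_INJ := by
  intro hGen hFini hGNl _ hEmG _ hTng hStJ hTrT
  intro K L _ _ _ _ m R hTr hFG hc t hti htop b hb hbc F γ hγ hyp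
  obtain ⟨g₀, hg₀⟩ := hGen K L (m + 1) (R + (m + 1)) hTr (Fin.append F t)
  have hF : ∀ i, Fin.append (Fin.append F t) g₀
      (Fin.castAdd (m + 1) (Fin.castAdd (m + 1) i)) = F i := by
    intro i; rw [Fin.append_left, Fin.append_left]
  have ht : ∀ i, Fin.append (Fin.append F t) g₀ (Fin.castAdd (m + 1) (Fin.natAdd R i)) = t i := by
    intro i; rw [Fin.append_left, Fin.append_right]
  have hg : (Fin.append (Fin.append F t) g₀) ∘ (Fin.natAdd (R + (m + 1))) = g₀ := by
    funext i; simp [Fin.append_right]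
  have hF' : (Fin.append (Fin.append F t) g₀) ∘
      (fun i => Fin.castAdd (m + 1) (Fin.castAdd (m + 1) i)) = F := funext hF
  have ht' : (Fin.append (Fin.append F t) g₀) ∘
      (fun i => Fin.castAdd (m + 1) (Fin.natAdd R i)) = t := funext ht
  refine INJ_core hGNl hEmG hFini hTng hStJ hTrT hTr hFG hc (Fin.append (Fin.append F t) g₀)
    (fun i => Fin.castAdd (m + 1) (Fin.castAdd (m + 1) i))
    (fun i => Fin.castAdd (m + 1) (Fin.natAdd R i)) (Fin.natAdd (R + (m + 1))) ?_ ?_ ?_ ?_ b hb hbc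
    γ hγ ?_
  · intro I y hy
    rw [hg]
    apply hg₀ (fun j => Fin.castAdd (m + 1) (I j)) y
    have : Fin.append F t ∘ (fun j => Fin.castAdd (m + 1) (I j)) =
        (Fin.append (Fin.append F t) g₀) ∘
          ((fun i => Fin.castAdd (m + 1) (Fin.castAdd (m + 1) i)) ∘ I) := by
      funext j
      simp only [Function.comp_apply]
      rw [hF, Fin.append_left]
    rw [this]
    exact hy
  · intro y hy
    rw [hg]
    rw [ht'] at hy
    apply hg₀ (fun j => Fin.natAdd R j) y
    have : Fin.append F t ∘ (fun j => Fin.natAdd R j) = t := by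
      funext j
      simp only [Function.comp_apply]
      rw [Fin.append_right]
    rw [this]
    exact hy
  · simpa only [ht] using hti
  · simpa only [ht] using htop
  · intro y
    rw [hF', ht']
    exact hyp y

end TDC
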