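import Pool.Agent.TDC.StI

/-!
# TDC, module IPr: projective space `Proj K[x_0, …, x_n]` is a toric variety

The homogeneous localization at `f_J = ∏_{j ∉ J} x_j` is embedded into the Laurent polynomials
(`IPr_Phi`); the characters are the Laurent monomials `IPr_mon`.
-/

namespace TDC

open scoped Topology
open AlgebraicGeometry CategoryTheory

/-- the rays -/
def IPr_vv (n : ℕ) : Fin (n + 1) → (Fin n → ℤ) :=
  Fin.cons (α := fun _ => Fin n → ℤ) (fun _ => -1) fun j => Pi.single j 1

/-- the values of a character on the rays -/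
def IPr_av {n : ℕ} (m : Fin n → ℤ) (l : Fin (n + 1)) : ℤ := ∑ k, m k * IPr_vv n l k

theorem IPr_av_zero {n : ℕ} (m : Fin n → ℤ) : IPr_av m 0 = -∑ k, m k := by
  simp [IPr_av, IPr_vv, Finset.sum_neg_distrib]

theorem IPr_av_succ {n : ℕ} (m : Fin n → ℤ) (k : Fin n) : IPr_av m k.succ = m k := by
  simp [IPr_av, IPr_vv, Pi.single_apply]

theorem IPr_av_sum {n : ℕ} (m : Fin n → ℤ) : ∑ l, IPr_av m l = 0 := by
  rw [Fin.sum_univ_succ, IPr_av_zero]
  simp [IPr_av_succ]

theorem IPr_av_add {n : ℕ} (m m' : Fin n → ℤ) : IPr_av (m + m') = IPr_av m + IPr_av m' := by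
  funext l
  simp [IPr_av, add_mul, Finset.sum_add_distrib]

theorem IPr_av_inj {n : ℕ} : Function.Injective (IPr_av (n := n)) := by
  intro m m' h
  funext k
  rw [← IPr_av_succ m k, h, IPr_av_succ]

theorem IPr_av_surj {n : ℕ} (a : Fin (n + 1) → ℤ) (ha : ∑ l, a l = 0) :
    IPr_av (fun k : Fin n => a k.succ) = a := by
  funext l
  refine Fin.cases ?_ (fun k => ?_) l
  · rw [IPr_av_zero]
    rw [Fin.sum_univ_succ] at ha
    linarith
  · rw [IPr_av_succ]

/-- coordinates in `ℝ^(n+1)` -/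
def IPr_lft {n : ℕ} (u : Fin n → ℝ) : Fin (n + 1) → ℝ := Fin.cons (α := fun _ => ℝ) 0 u

theorem IPr_lft_vv {n : ℕ} (p l q : Fin (n + 1)) :
    IPr_lft (fun k => (IPr_vv n p k : ℝ)) l - IPr_lft (fun k => (IPr_vv n p k : ℝ)) q =
      (if l = p then 1 else 0) - (if q = p then 1 else 0) := by
  have key : ∀ l, IPr_lft (fun k => (IPr_vv n p k : ℝ)) l =
      (if l = p then 1 else 0) - (if p = 0 then 1 else 0) := by
    intro l
    refine Fin.cases ?_ (fun j => ?_) p
    · refine Fin.cases ?_ (fun k => ?_) l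
      · simp [IPr_lft, IPr_vv]
      · simp [IPr_lft, IPr_vv]
    · refine Fin.cases ?_ (fun k => ?_) l
      · simp [IPr_lft, IPr_vv, Fin.succ_ne_zero, (Fin.succ_ne_zero _).symm]
      · simp [IPr_lft, IPr_vv, Fin.succ_ne_zero, Pi.single_apply]
  rw [key l, key q]
  ring

theorem IPr_lft_sum {n : ℕ} (V : Finset (Fin n → ℤ)) (a : (Fin n → ℤ) → ℝ) (l : Fin (n + 1)) :
    IPr_lft (∑ v ∈ V, a v • fun k => (v k : ℝ)) l =
      ∑ v ∈ V, a v * IPr_lft (fun k => (v k : ℝ)) l := by
  refine Fin.cases ?_ (fun j => ?_) l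
  · simp [IPr_lft]
  · simp [IPr_lft, Finset.sum_apply]

theorem IPr_ray {n : ℕ} (hn : 0 < n) (J : Finset (Fin (n + 1))) (_hJ : J ≠ Finset.univ)
    (l : Fin (n + 1)) :
    (fun k => (IPr_vv n l k : ℝ)) ∈ coneOf (J.image (IPr_vv n)) ↔ l ∈ J := by
  classical
  constructor
  · rintro ⟨a, ha, hu⟩
    by_contra hl
    by_cases hq : ∃ q, q ≠ l ∧ q ∉ J
    · obtain ⟨q, hql, hqJ⟩ := hq
      have h1 := IPr_lft_vv l l q
      rw [if_pos rfl, if_neg hql] at h1
      rw [hu, IPr_lft_sum, IPr_lft_sum, ← Finset.sum_sub_distrib] at h1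
      have h2 : ∑ v ∈ J.image (IPr_vv n), (a v * IPr_lft (fun k => (v k : ℝ)) l -
          a v * IPr_lft (fun k => (v k : ℝ)) q) = 0 := by
        apply Finset.sum_eq_zero
        intro v hv
        obtain ⟨p, hp, rfl⟩ := Finset.mem_image.1 hv
        rw [← mul_sub, IPr_lft_vv p l q, if_neg (fun h : l = p => hl (h ▸ hp)),
          if_neg (fun h : q = p => hqJ (h ▸ hp))]
        simp
      rw [h2] at h1
      norm_num at h1
    · push Not at hq
      obtain ⟨p0, hp0⟩ : ∃ p : Fin (n + 1), p ≠ l := by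
        have : Nontrivial (Fin (n + 1)) := Fin.nontrivial_iff_two_le.2 (by omega)
        exact exists_ne l
      have h1 := IPr_lft_vv l p0 l
      rw [if_pos rfl, if_neg hp0] at h1
      rw [hu, IPr_lft_sum, IPr_lft_sum, ← Finset.sum_sub_distrib] at h1
      have h2 : 0 ≤ ∑ v ∈ J.image (IPr_vv n), (a v * IPr_lft (fun k => (v k : ℝ)) p0 -
          a v * IPr_lft (fun k => (v k : ℝ)) l) := by
        apply Finset.sum_nonneg
        intro v hv
        obtain ⟨p, hp, rfl⟩ := Finset.mem_image.1 hv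
        rw [← mul_sub, IPr_lft_vv p p0 l, if_neg (fun h : l = p => hl (h ▸ hp))]
        apply mul_nonneg (ha _)
        split_ifs <;> norm_num
      rw [h1] at h2
      norm_num at h2
  · intro hl
    refine ⟨fun v => if v = IPr_vv n l then 1 else 0, fun v => ?_, ?_⟩
    · show (0 : ℝ) ≤ if v = IPr_vv n l then 1 else 0
      split_ifs <;> norm_num
    rw [Finset.sum_eq_single (IPr_vv n l)]
    · simp
    · intro v _ hv
      show (if v = IPr_vv n l then (1 : ℝ) else 0) • _ = _
      rw [if_neg hv, zero_smul]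
    · intro h
      exact absurd (Finset.mem_image_of_mem _ hl) h

theorem IPr_dual {n : ℕ} (J : Finset (Fin (n + 1))) (m : Fin n → ℤ) :
    m ∈ dualOf (J.image (IPr_vv n)) ↔ ∀ l ∈ J, 0 ≤ IPr_av m l := by
  constructor
  · intro h l hl
    exact h _ (Finset.mem_image_of_mem _ hl)
  · intro h v hv
    obtain ⟨l, hl, rfl⟩ := Finset.mem_image.1 hv
    exact h l hl

theorem IPr_pos {n : ℕ} {J : Finset (Fin (n + 1))} (hJ : J ≠ Finset.univ) {l : Fin (n + 1)}
    (hl : l ∈ J) : 0 < n := by
  rcases Nat.eq_zero_or_pos n with h | h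
  · subst h
    exfalso
    apply hJ
    ext x
    simp only [Finset.mem_univ, iff_true]
    have : x = l := by
      apply Fin.ext
      omega
    rw [this]
    exact hl
  · exact h

theorem IPr_face {n : ℕ} (J : Finset (Fin (n + 1))) (m : Fin n → ℤ) (l : Fin (n + 1)) :
    (fun k => (IPr_vv n l k : ℝ)) ∈ faceOf (J.image (IPr_vv n)) m ↔
      (fun k => (IPr_vv n l k : ℝ)) ∈ coneOf (J.image (IPr_vv n)) ∧ IPr_av m l = 0 := by
  unfold faceOf pr IPr_av
  simp only [Set.mem_inter_iff, Set.mem_ofPred_eq]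
  norm_cast

/-- inclusion of cones -/
theorem IPr_le {n : ℕ} {J J' : Finset (Fin (n + 1))} (hJ : J ≠ Finset.univ)
    (hJ' : J' ≠ Finset.univ)
    (h : coneOf (J'.image (IPr_vv n)) ⊆ coneOf (J.image (IPr_vv n))) : J' ⊆ J := by
  intro l hl
  have hn := IPr_pos hJ' hl
  exact (IPr_ray hn J hJ l).1 (h ((IPr_ray hn J' hJ' l).2 hl))

/-- intersection of cones -/
theorem IPr_inter {n : ℕ} {J J' I : Finset (Fin (n + 1))} (hJ : J ≠ Finset.univ)
    (hJ' : J' ≠ Finset.univ) (hI : I ≠ Finset.univ)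
    (h : coneOf (I.image (IPr_vv n)) = coneOf (J.image (IPr_vv n)) ∩ coneOf (J'.image (IPr_vv n))) :
    ∀ l, l ∈ I ↔ l ∈ J ∧ l ∈ J' := by
  intro l
  constructor
  · intro hl
    exact ⟨IPr_le hJ hI (h ▸ Set.inter_subset_left) hl, IPr_le hJ' hI (h ▸ Set.inter_subset_right) hl⟩
  · rintro ⟨h1, h2⟩
    have hn := IPr_pos hJ h1
    apply (IPr_ray hn I hI l).1
    rw [h]
    exact ⟨(IPr_ray hn J hJ l).2 h1, (IPr_ray hn J' hJ' l).2 h2⟩

/-- faces of cones -/
theorem IPr_faces {n : ℕ} {J J' : Finset (Fin (n + 1))} (hJ : J ≠ Finset.univ)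
    (hJ' : J' ≠ Finset.univ) (m : Fin n → ℤ)
    (h : coneOf (J'.image (IPr_vv n)) = faceOf (J.image (IPr_vv n)) m) :
    ∀ l, l ∈ J' ↔ l ∈ J ∧ IPr_av m l = 0 := by
  intro l
  constructor
  · intro hl
    have hn := IPr_pos hJ' hl
    have h1 := (IPr_ray hn J' hJ' l).2 hl
    rw [h, IPr_face] at h1
    exact ⟨(IPr_ray hn J hJ l).1 h1.1, h1.2⟩
  · rintro ⟨h1, h2⟩
    have hn := IPr_pos hJ h1
    apply (IPr_ray hn J' hJ' l).1
    rw [h, IPr_face]
    exact ⟨(IPr_ray hn J hJ l).2 h1, h2⟩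


/-! ### the ring side -/

section ring

attribute [local instance] MvPolynomial.gradedAlgebra

variable (K : Type) [Field K] {n : ℕ}

/-- exponent of `f_J` -/
noncomputable def IPr_ind (J : Finset (Fin (n + 1))) : Fin (n + 1) →₀ ℕ :=
  Finsupp.equivFunOnFinite.symm fun l => if l ∈ J then 0 else 1

/-- `f_J` -/
noncomputable def IPr_f (J : Finset (Fin (n + 1))) : MvPolynomial (Fin (n + 1)) K :=
  MvPolynomial.monomial (IPr_ind J) 1

/-- embedding of exponents -/
def IPr_emb (n : ℕ) : (Fin (n + 1) →₀ ℕ) →+ (Fin (n + 1) → ℤ) where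
  toFun c := fun l => (c l : ℤ)
  map_zero' := by funext l; simp
  map_add' a b := by funext l; simp

theorem IPr_emb_inj : Function.Injective (IPr_emb n) := by
  intro a b h
  ext l
  have := congrFun h l
  simpa [IPr_emb] using this

/-- embedding into Laurent polynomials -/
noncomputable def IPr_g (n : ℕ) :
    MvPolynomial (Fin (n + 1)) K →+* AddMonoidAlgebra K (Fin (n + 1) → ℤ) :=
  AddMonoidAlgebra.mapDomainRingHom K (IPr_emb n)

theorem IPr_g_mon (c : Fin (n + 1) →₀ ℕ) (r : K) :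
    IPr_g K n (MvPolynomial.monomial c r) = AddMonoidAlgebra.single (IPr_emb n c) r := by
  show AddMonoidAlgebra.mapDomain (IPr_emb n) (AddMonoidAlgebra.single c r) = _
  exact AddMonoidAlgebra.mapDomain_single

theorem IPr_g_inj : Function.Injective (IPr_g K n) :=
  AddMonoidAlgebra.mapDomain_injective IPr_emb_inj

theorem IPr_g_unit (J : Finset (Fin (n + 1))) : IsUnit (IPr_g K n (IPr_f K J)) := by
  unfold IPr_f
  rw [IPr_g_mon]
  refine IsUnit.of_mul_eq_one (AddMonoidAlgebra.single (-IPr_emb n (IPr_ind J)) 1) ?_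
  rw [AddMonoidAlgebra.single_mul_single, add_neg_cancel, mul_one]
  rfl

/-- from the localization to the Laurent polynomials -/
noncomputable def IPr_phi (J : Finset (Fin (n + 1))) :
    Localization.Away (IPr_f K J) →+* AddMonoidAlgebra K (Fin (n + 1) → ℤ) :=
  IsLocalization.Away.lift (IPr_f K J) (IPr_g_unit K J)

theorem IPr_phi_mk (J : Finset (Fin (n + 1))) (k : ℕ) (P : MvPolynomial (Fin (n + 1)) K) :
    IPr_phi K J (Localization.mk P ⟨IPr_f K J ^ k, ⟨k, rfl⟩⟩) =
      IPr_g K n P * AddMonoidAlgebra.single (-((k : ℤ) • IPr_emb n (IPr_ind J))) 1 := by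
  have h1 : IPr_phi K J (algebraMap _ _ P) = IPr_g K n P :=
    IsLocalization.Away.lift_eq _ _ _
  have h2 : IPr_phi K J (algebraMap _ _ (IPr_f K J ^ k)) =
      AddMonoidAlgebra.single ((k : ℤ) • IPr_emb n (IPr_ind J)) 1 := by
    rw [IPr_phi, IsLocalization.Away.lift_eq, map_pow]
    unfold IPr_f
    rw [IPr_g_mon, AddMonoidAlgebra.single_pow, one_pow, natCast_zsmul]
  have h3 : Localization.mk P (⟨IPr_f K J ^ k, ⟨k, rfl⟩⟩ : Submonoid.powers (IPr_f K J)) *
      algebraMap _ (Localization.Away (IPr_f K J)) (IPr_f K J ^ k) = algebraMap _ _ P := by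
    rw [Localization.mk_eq_mk']
    exact IsLocalization.mk'_spec _ P (⟨IPr_f K J ^ k, ⟨k, rfl⟩⟩ : Submonoid.powers (IPr_f K J))
  have h4 := congrArg (IPr_phi K J) h3
  rw [map_mul, h1, h2] at h4
  rw [← h4, mul_assoc, AddMonoidAlgebra.single_mul_single, add_neg_cancel, mul_one]
  exact (mul_one _).symm

theorem IPr_phi_inj (J : Finset (Fin (n + 1))) : Function.Injective (IPr_phi K J) := by
  unfold IPr_phi IsLocalization.Away.lift
  rw [IsLocalization.lift_injective_iff]
  intro x y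
  constructor
  · intro h
    have h0 : Function.Injective (algebraMap (MvPolynomial (Fin (n + 1)) K)
        (Localization.Away (IPr_f K J))) := by
      apply IsLocalization.injective _ (M := Submonoid.powers (IPr_f K J))
      apply powers_le_nonZeroDivisors_of_noZeroDivisors
      unfold IPr_f
      rw [Ne, MvPolynomial.monomial_eq_zero]
      exact one_ne_zero
    rw [h0 h]
  · intro h
    rw [IPr_g_inj K h]

/-- the embedding of the homogeneous localization -/
noncomputable def IPr_Phi (J : Finset (Fin (n + 1))) :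
    HomogeneousLocalization.Away (MvPolynomial.homogeneousSubmodule (Fin (n + 1)) K) (IPr_f K J) →+*
      AddMonoidAlgebra K (Fin (n + 1) → ℤ) :=
  (IPr_phi K J).comp (algebraMap _ (Localization.Away (IPr_f K J)))

theorem IPr_Phi_inj (J : Finset (Fin (n + 1))) : Function.Injective (IPr_Phi K J) :=
  (IPr_phi_inj K J).comp (HomogeneousLocalization.val_injective _)

theorem IPr_f_mem (J : Finset (Fin (n + 1))) :
    IPr_f K J ∈ MvPolynomial.homogeneousSubmodule (Fin (n + 1)) K (IPr_ind J).degree :=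
  MvPolynomial.isHomogeneous_monomial _ rfl

theorem IPr_Phi_mk (J : Finset (Fin (n + 1))) (k : ℕ) (P : MvPolynomial (Fin (n + 1)) K)
    (hP : P ∈ MvPolynomial.homogeneousSubmodule (Fin (n + 1)) K (k • (IPr_ind J).degree)) :
    IPr_Phi K J (HomogeneousLocalization.Away.mk _ (IPr_f_mem K J) k P hP) =
      IPr_g K n P * AddMonoidAlgebra.single (-((k : ℤ) • IPr_emb n (IPr_ind J))) 1 := by
  rw [← IPr_phi_mk]
  rfl

/-- the constants -/
noncomputable def IPr_kap (J : Finset (Fin (n + 1))) :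
    K →+* HomogeneousLocalization.Away (MvPolynomial.homogeneousSubmodule (Fin (n + 1)) K)
      (IPr_f K J) :=
  (HomogeneousLocalization.fromZeroRingHom _ _).comp
    (algebraMap K (MvPolynomial.homogeneousSubmodule (Fin (n + 1)) K 0))

theorem IPr_Phi_kap (J : Finset (Fin (n + 1))) (r : K) :
    IPr_Phi K J (IPr_kap K J r) = AddMonoidAlgebra.single 0 r := by
  have h0 : (IPr_kap K J r).val = Localization.mk (MvPolynomial.C r) 1 := rfl
  have h1 : IPr_Phi K J (IPr_kap K J r) = IPr_phi K J (IPr_kap K J r).val := rfl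
  rw [h1, h0, Localization.mk_one_eq_algebraMap, IPr_phi, IsLocalization.Away.lift_eq]
  have h2 : (MvPolynomial.C r : MvPolynomial (Fin (n + 1)) K) = MvPolynomial.monomial 0 r := rfl
  rw [h2, IPr_g_mon, map_zero]

/-- the exponent of the numerator -/
noncomputable def IPr_ex (J : Finset (Fin (n + 1))) (k : ℕ) (a : Fin (n + 1) → ℤ) : Fin (n + 1) →₀ ℕ :=
  Finsupp.equivFunOnFinite.symm fun l => (a l + if l ∈ J then 0 else (k : ℤ)).toNat

theorem IPr_emb_ind (J : Finset (Fin (n + 1))) (l : Fin (n + 1)) :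
    IPr_emb n (IPr_ind J) l = if l ∈ J then 0 else 1 := by
  show ((if l ∈ J then 0 else 1 : ℕ) : ℤ) = _
  split_ifs <;> rfl

/-- `a` is the exponent of a Laurent monomial regular on `U_J`, with denominator `f_J^k` -/
def IPr_ok (J : Finset (Fin (n + 1))) (k : ℕ) (a : Fin (n + 1) → ℤ) : Prop :=
  ∀ l, 0 ≤ a l + if l ∈ J then 0 else (k : ℤ)

theorem IPr_emb_ex {J : Finset (Fin (n + 1))} {k : ℕ} {a : Fin (n + 1) → ℤ} (h : IPr_ok J k a) :
    IPr_emb n (IPr_ex J k a) = a + (k : ℤ) • IPr_emb n (IPr_ind J) := by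
  funext l
  rw [Pi.add_apply, Pi.smul_apply, IPr_emb_ind]
  show (((a l + if l ∈ J then 0 else (k : ℤ)).toNat : ℕ) : ℤ) = _
  rw [Int.toNat_of_nonneg (h l)]
  split_ifs <;> simp

theorem IPr_degree (c : Fin (n + 1) →₀ ℕ) : ((c.degree : ℕ) : ℤ) = ∑ l, IPr_emb n c l := by
  rw [Finsupp.degree_eq_sum]
  push_cast
  rfl

theorem IPr_ex_degree {J : Finset (Fin (n + 1))} {k : ℕ} {a : Fin (n + 1) → ℤ}
    (h : IPr_ok J k a) (ha : ∑ l, a l = 0) :
    (IPr_ex J k a).degree = k • (IPr_ind J).degree := by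
  have h1 : (((IPr_ex J k a).degree : ℕ) : ℤ) = ((k • (IPr_ind J).degree : ℕ) : ℤ) := by
    rw [IPr_degree, IPr_emb_ex h]
    simp only [Pi.add_apply, Pi.smul_apply, smul_eq_mul]
    rw [Finset.sum_add_distrib, ha, zero_add, ← Finset.mul_sum]
    push_cast
    rw [IPr_degree]
  exact_mod_cast h1

theorem IPr_mon_mem {J : Finset (Fin (n + 1))} {k : ℕ} {a : Fin (n + 1) → ℤ}
    (h : IPr_ok J k a) (ha : ∑ l, a l = 0) :
    MvPolynomial.monomial (IPr_ex J k a) (1 : K) ∈
      MvPolynomial.homogeneousSubmodule (Fin (n + 1)) K (k • (IPr_ind J).degree) :=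
  MvPolynomial.isHomogeneous_monomial _ (IPr_ex_degree h ha)

/-- the Laurent monomial -/
noncomputable def IPr_mon (J : Finset (Fin (n + 1))) (k : ℕ) (a : Fin (n + 1) → ℤ)
    (h : IPr_ok J k a) (ha : ∑ l, a l = 0) :
    HomogeneousLocalization.Away (MvPolynomial.homogeneousSubmodule (Fin (n + 1)) K)
      (IPr_f K J) :=
  HomogeneousLocalization.Away.mk _ (IPr_f_mem K J) k (MvPolynomial.monomial (IPr_ex J k a) 1)
    (IPr_mon_mem K h ha)

theorem IPr_Phi_mon (J : Finset (Fin (n + 1))) (k : ℕ) (a : Fin (n + 1) → ℤ)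
    (h : IPr_ok J k a) (ha : ∑ l, a l = 0) :
    IPr_Phi K J (IPr_mon K J k a h ha) = AddMonoidAlgebra.single a 1 := by
  unfold IPr_mon
  rw [IPr_Phi_mk, IPr_g_mon, IPr_emb_ex h, AddMonoidAlgebra.single_mul_single,
    add_neg_cancel_right, mul_one]

end ring


/-! ### the characters in the homogeneous localization -/

section chi

attribute [local instance] MvPolynomial.gradedAlgebra

variable (K : Type) [Field K] {n : ℕ}

/-- the exponent of the denominator -/
def IPr_k (a : Fin (n + 1) → ℤ) : ℕ := ∑ l, (a l).natAbs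

theorem IPr_ok_of {J : Finset (Fin (n + 1))} {a : Fin (n + 1) → ℤ} (h : ∀ l ∈ J, 0 ≤ a l) :
    IPr_ok J (IPr_k a) a := by
  intro l
  split_ifs with hl
  · simpa using h l hl
  · have h1 : (a l).natAbs ≤ IPr_k a :=
      Finset.single_le_sum (f := fun l => (a l).natAbs) (fun _ _ => Nat.zero_le _)
        (Finset.mem_univ l)
    omega

variable {V : Finset (Fin n → ℤ)} {J : Finset (Fin (n + 1))}

/-- the characters as elements of the homogeneous localization -/
noncomputable def IPr_chi (hV : ∀ m ∈ dualOf V, ∀ l ∈ J, 0 ≤ IPr_av m l) :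
    Multiplicative (dualOf V) →*
      HomogeneousLocalization.Away (MvPolynomial.homogeneousSubmodule (Fin (n + 1)) K)
        (IPr_f K J) where
  toFun m := IPr_mon K J (IPr_k (IPr_av (m.toAdd : Fin n → ℤ))) (IPr_av (m.toAdd : Fin n → ℤ))
    (IPr_ok_of (hV _ m.toAdd.2)) (IPr_av_sum _)
  map_one' := by
    apply IPr_Phi_inj K J
    rw [IPr_Phi_mon, RingHom.map_one (IPr_Phi K J), AddMonoidAlgebra.one_def]
    congr 1
    funext l
    simp [IPr_av]
  map_mul' a b := by
    apply IPr_Phi_inj K J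
    rw [RingHom.map_mul (IPr_Phi K J), IPr_Phi_mon, IPr_Phi_mon, IPr_Phi_mon,
      AddMonoidAlgebra.single_mul_single, mul_one, ← IPr_av_add]
    rfl

theorem IPr_Phi_chi (hV : ∀ m ∈ dualOf V, ∀ l ∈ J, 0 ≤ IPr_av m l)
    (m : Multiplicative (dualOf V)) :
    IPr_Phi K J (IPr_chi K hV m) = AddMonoidAlgebra.single (IPr_av (m.toAdd : Fin n → ℤ)) 1 :=
  IPr_Phi_mon K J _ _ (IPr_ok_of (hV _ m.toAdd.2)) (IPr_av_sum _)

theorem IPr_Phi_G (hV : ∀ m ∈ dualOf V, ∀ l ∈ J, 0 ≤ IPr_av m l) (f : dualOf V →₀ K) :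
    IPr_Phi K J (f.sum fun m a => IPr_kap K J a * IPr_chi K hV (Multiplicative.ofAdd m)) =
      AddMonoidAlgebra.ofCoeff (Finsupp.mapDomain (fun m : dualOf V => IPr_av (m : Fin n → ℤ)) f) := by
  rw [map_finsuppSum, Finsupp.mapDomain, AddMonoidAlgebra.ofCoeff_finsuppSum]
  apply Finsupp.sum_congr
  intro m _
  rw [map_mul, IPr_Phi_kap, IPr_Phi_chi, AddMonoidAlgebra.single_mul_single, zero_add, mul_one]
  rfl

theorem IPr_basis (hV : ∀ m, m ∈ dualOf V ↔ ∀ l ∈ J, 0 ≤ IPr_av m l) :
    Function.Bijective fun f : dualOf V →₀ K =>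
      f.sum fun m a => IPr_kap K J a * IPr_chi K (fun m hm => (hV m).1 hm) (Multiplicative.ofAdd m) := by
  have hav : Function.Injective (fun m : dualOf V => IPr_av (m : Fin n → ℤ)) :=
    IPr_av_inj.comp Subtype.val_injective
  constructor
  · intro f f' h
    have h1 := congrArg (IPr_Phi K J) h
    simp only [IPr_Phi_G] at h1
    exact Finsupp.mapDomain_injective hav (AddMonoidAlgebra.ofCoeff_injective h1)
  · intro y
    obtain ⟨k, P, hP, rfl⟩ := HomogeneousLocalization.Away.mk_surjective _ (IPr_f_mem K J) y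
    have key : ∀ c ∈ P.support, ∃ m : dualOf V, IPr_av (m : Fin n → ℤ) =
        IPr_emb n c + -((k : ℤ) • IPr_emb n (IPr_ind J)) := by
      intro c hc
      have hdeg : c.degree = k • (IPr_ind J).degree := by
        have h2 : MvPolynomial.IsHomogeneous P (k • (IPr_ind J).degree) := hP
        have h3 := h2 (MvPolynomial.mem_support_iff.1 hc)
        have h5 : c.degree = Finsupp.weight (1 : Fin (n + 1) → ℕ) c := by
          rw [Finsupp.degree_eq_weight_one]
          rfl
        rw [h5, h3]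
      have hsum : ∑ l, (IPr_emb n c + -((k : ℤ) • IPr_emb n (IPr_ind J))) l = 0 := by
        simp only [Pi.add_apply, Pi.neg_apply, Pi.smul_apply, smul_eq_mul]
        rw [Finset.sum_add_distrib, Finset.sum_neg_distrib, ← Finset.mul_sum, ← IPr_degree,
          ← IPr_degree, hdeg]
        push_cast
        simp
      have h4 := IPr_av_surj _ hsum
      refine ⟨⟨_, (hV _).2 ?_⟩, h4⟩
      intro l hl
      rw [h4]
      simp only [Pi.add_apply, Pi.neg_apply, Pi.smul_apply, smul_eq_mul]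
      rw [IPr_emb_ind, if_pos hl]
      have : (0 : ℤ) ≤ IPr_emb n c l := Int.natCast_nonneg _
      simpa using this
    choose! M hM using key
    refine ⟨∑ c ∈ P.support, Finsupp.single (M c) (P.coeff c), ?_⟩
    apply IPr_Phi_inj K J
    simp only []
    rw [IPr_Phi_G, IPr_Phi_mk]
    conv_rhs => rw [← MvPolynomial.support_sum_monomial_coeff P]
    rw [map_sum, Finset.sum_mul, Finsupp.mapDomain_finsetSum, AddMonoidAlgebra.ofCoeff_sum]
    apply Finset.sum_congr rfl
    intro c hc
    rw [Finsupp.mapDomain_single, IPr_g_mon, AddMonoidAlgebra.single_mul_single, mul_one, hM c hc]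
    rfl

end chi


/-! ### the open sets and their sections -/

section scheme

attribute [local instance] MvPolynomial.gradedAlgebra

variable (K : Type) [Field K] {n : ℕ}

/-- the open sets -/
noncomputable def IPr_U (J : Finset (Fin (n + 1))) :
    (Proj (MvPolynomial.homogeneousSubmodule (Fin (n + 1)) K)).Opens :=
  Proj.basicOpen (MvPolynomial.homogeneousSubmodule (Fin (n + 1)) K) (IPr_f K J)

/-- the sections -/
noncomputable def IPr_sec (J : Finset (Fin (n + 1))) :
    HomogeneousLocalization.Away (MvPolynomial.homogeneousSubmodule (Fin (n + 1)) K)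
      (IPr_f K J) →+* 
        Γ(Proj (MvPolynomial.homogeneousSubmodule (Fin (n + 1)) K), IPr_U K J) :=
  (Proj.awayToSection (MvPolynomial.homogeneousSubmodule (Fin (n + 1)) K) (IPr_f K J)).hom

theorem IPr_deg_pos {J : Finset (Fin (n + 1))} (hJ : J ≠ Finset.univ) :
    0 < (IPr_ind J).degree := by
  by_contra h
  apply hJ
  have h0 : (IPr_ind J).degree = 0 := by omega
  rw [Finsupp.degree_eq_zero_iff] at h0
  ext l
  simp only [Finset.mem_univ, iff_true]
  have h1 : (if l ∈ J then 0 else 1 : ℕ) = 0 := DFunLike.congr_fun h0 l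
  by_contra hl
  rw [if_neg hl] at h1
  omega

theorem IPr_sec_bij {J : Finset (Fin (n + 1))} (hJ : J ≠ Finset.univ) :
    Function.Bijective (IPr_sec K J) := by
  have h := (Proj.basicOpenIsoAway (MvPolynomial.homogeneousSubmodule (Fin (n + 1)) K)
    (IPr_f K J) (IPr_f_mem K J) (IPr_deg_pos hJ)).commRingCatIsoToRingEquiv.bijective
  exact h

private theorem IPr_gen {C : Type 1} [Category.{0} C] {A0 G0 X0 U0 V0 B0 B1 : C} (a : A0 ⟶ G0)
    (T : G0 ⟶ X0) (I : X0 ⟶ U0) (t : U0 ≅ V0) (S : G0 ⟶ B1) (G : B1 ≅ B0) (W : B0 ⟶ V0)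
    (φ : A0 ⟶ B0) (h2 : T ≫ I = S ≫ G.hom ≫ W ≫ t.inv) (h6 : φ ≫ G.inv = a ≫ S) :
    a ≫ T ≫ I ≫ t.hom = φ ≫ W := by
  have h : T ≫ I ≫ t.hom = S ≫ G.hom ≫ W := by
    rw [← Category.assoc T I, h2]
    simp
  rw [h, ← Category.assoc a S, ← h6]
  simp

theorem IPr_kG0 {J : Finset (Fin (n + 1))} (hJ : J ≠ Finset.univ) :
    (Scheme.ΓSpecIso (.of (MvPolynomial.homogeneousSubmodule (Fin (n + 1)) K 0))).inv ≫
      (Proj.toSpecZero (MvPolynomial.homogeneousSubmodule (Fin (n + 1)) K)).appTop ≫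
      (Proj (MvPolynomial.homogeneousSubmodule (Fin (n + 1)) K)).presheaf.map (homOfLE le_top : IPr_U K J ⟶ ⊤).op =
    CommRingCat.ofHom (HomogeneousLocalization.fromZeroRingHom
      (MvPolynomial.homogeneousSubmodule (Fin (n + 1)) K) (Submonoid.powers (IPr_f K J))) ≫
      Proj.awayToSection (MvPolynomial.homogeneousSubmodule (Fin (n + 1)) K) (IPr_f K J) := by
  have h1 : (IPr_U K J).ι ≫ Proj.toSpecZero (MvPolynomial.homogeneousSubmodule (Fin (n + 1)) K) =
      Proj.basicOpenToSpec (MvPolynomial.homogeneousSubmodule (Fin (n + 1)) K) (IPr_f K J) ≫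
      Spec.map (CommRingCat.ofHom (HomogeneousLocalization.fromZeroRingHom
        (MvPolynomial.homogeneousSubmodule (Fin (n + 1)) K) _)) := by
    rw [← Proj.awayι_toSpecZero _ _ (IPr_f_mem K J) (IPr_deg_pos hJ), ← Category.assoc]
    congr 1
    rw [Proj.awayι, ← Proj.basicOpenIsoSpec_hom _ _ (IPr_f_mem K J) (IPr_deg_pos hJ),
      Iso.hom_inv_id_assoc]
    rfl
  have h2 := congrArg Scheme.Hom.appTop h1
  rw [Scheme.Hom.comp_appTop, Scheme.Hom.comp_appTop] at h2
  have h3 : (Proj.basicOpenToSpec (MvPolynomial.homogeneousSubmodule (Fin (n + 1)) K)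
      (IPr_f K J)).appTop = (Scheme.ΓSpecIso _).hom ≫
        Proj.awayToSection (MvPolynomial.homogeneousSubmodule (Fin (n + 1)) K) (IPr_f K J) ≫
      (Proj.basicOpen _ (IPr_f K J)).topIso.inv := Proj.basicOpenToSpec_app_top _ _
  rw [h3] at h2
  have h4 : (IPr_U K J).ι.appTop ≫ (IPr_U K J).topIso.hom =
      (Proj (MvPolynomial.homogeneousSubmodule (Fin (n + 1)) K)).presheaf.map
        (homOfLE le_top : IPr_U K J ⟶ ⊤).op := by
    rw [Scheme.Opens.ι_appTop, Scheme.Opens.topIso_hom]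
    exact ((Proj (MvPolynomial.homogeneousSubmodule (Fin (n + 1)) K)).presheaf.map_comp _ _).symm
  rw [← h4]
  have h6 := Scheme.ΓSpecIso_inv_naturality (CommRingCat.ofHom
    (HomogeneousLocalization.fromZeroRingHom
      (MvPolynomial.homogeneousSubmodule (Fin (n + 1)) K) (Submonoid.powers (IPr_f K J))))
  exact IPr_gen _ _ _ _ _ (Scheme.ΓSpecIso _) _ _ h2 h6

end scheme

section scheme2

attribute [local instance] MvPolynomial.gradedAlgebra

variable (K : Type) [NormedField K] {n : ℕ}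

private theorem IPr_gen2 {C : Type 1} [Category.{0} C] {A B G X U A0 : C} (a : A ⟶ B)
    (S : B ⟶ G) (T : G ⟶ X) (m : X ⟶ U) (ψ : A ⟶ A0) (b : A0 ⟶ G) (h2 : ψ ≫ b = a ≫ S) :
    a ≫ (S ≫ T) ≫ m = ψ ≫ b ≫ T ≫ m := by
  rw [← Category.assoc ψ, h2]
  simp

theorem IPr_kG {J : Finset (Fin (n + 1))} (hJ : J ≠ Finset.univ) (r : K) :
    kΓ (X := Proj (MvPolynomial.homogeneousSubmodule (Fin (n + 1)) K)) (PrKs K n)
      (IPr_U K J) r = IPr_sec K J (IPr_kap K J r) := by
  have h := IPr_kG0 K hJ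
  have h2 := Scheme.ΓSpecIso_inv_naturality (CommRingCat.ofHom
      (algebraMap K (MvPolynomial.homogeneousSubmodule (Fin (n + 1)) K 0)))
  have h5 := IPr_gen2 _ _
    (Proj.toSpecZero (MvPolynomial.homogeneousSubmodule (Fin (n + 1)) K)).appTop
    ((Proj (MvPolynomial.homogeneousSubmodule (Fin (n + 1)) K)).presheaf.map
        (homOfLE le_top : IPr_U K J ⟶ ⊤).op) _ _ h2
  rw [h] at h5
  exact congrArg (fun z => z.hom r) h5

end scheme2



section scheme3

attribute [local instance] MvPolynomial.gradedAlgebra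

variable (K : Type) [Field K] {n : ℕ}

theorem IPr_Phi_mk' (J : Finset (Fin (n + 1))) {d : ℕ}
    (hf : IPr_f K J ∈ MvPolynomial.homogeneousSubmodule (Fin (n + 1)) K d) (k : ℕ)
    (P : MvPolynomial (Fin (n + 1)) K)
    (hP : P ∈ MvPolynomial.homogeneousSubmodule (Fin (n + 1)) K (k • d)) :
    IPr_Phi K J (HomogeneousLocalization.Away.mk _ hf k P hP) =
      IPr_g K n P * AddMonoidAlgebra.single (-((k : ℤ) • IPr_emb n (IPr_ind J))) 1 := by
  rw [← IPr_phi_mk]
  rfl

/-- a prime ideal contains a monomial iff it contains one of its variables -/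
theorem IPr_mem_mon (p : Ideal (MvPolynomial (Fin (n + 1)) K)) (hp : p.IsPrime)
    (c : Fin (n + 1) →₀ ℕ) :
    MvPolynomial.monomial c (1 : K) ∈ p ↔ ∃ l, c l ≠ 0 ∧ MvPolynomial.X l ∈ p := by
  rw [MvPolynomial.monomial_eq, map_one, one_mul, Finsupp.prod, hp.prod_mem_iff]
  constructor
  · rintro ⟨l, hl, h⟩
    exact ⟨l, Finsupp.mem_support_iff.1 hl, hp.mem_of_pow_mem _ h⟩
  · rintro ⟨l, hl, h⟩
    exact ⟨l, Finsupp.mem_support_iff.2 hl, Ideal.pow_mem_of_mem _ h _ (Nat.pos_of_ne_zero hl)⟩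

theorem IPr_mem_U (J : Finset (Fin (n + 1)))
    (x : Proj (MvPolynomial.homogeneousSubmodule (Fin (n + 1)) K)) :
    x ∈ IPr_U K J ↔ ∀ l, l ∉ J → MvPolynomial.X l ∉ x.asHomogeneousIdeal.toIdeal := by
  have h1 : x ∈ IPr_U K J ↔ IPr_f K J ∉ x.asHomogeneousIdeal.toIdeal := Iff.rfl
  rw [h1, IPr_f, IPr_mem_mon K _ x.isPrime]
  constructor
  · intro h l hl hx
    apply h
    refine ⟨l, ?_, hx⟩
    show (if l ∈ J then 0 else 1 : ℕ) ≠ 0
    rw [if_neg hl]
    exact one_ne_zero
  · rintro h ⟨l, h2, hx⟩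
    refine h l ?_ hx
    intro hl
    apply h2
    show (if l ∈ J then 0 else 1 : ℕ) = 0
    rw [if_pos hl]

/-- the section `χ^a` is invertible where the variables of its numerator are -/
theorem IPr_unit (J : Finset (Fin (n + 1))) (k : ℕ) (a : Fin (n + 1) → ℤ)
    (h : IPr_ok J k a) (ha : ∑ l, a l = 0)
    (x : Proj (MvPolynomial.homogeneousSubmodule (Fin (n + 1)) K)) (hx : x ∈ IPr_U K J) :
    x ∈ (Proj (MvPolynomial.homogeneousSubmodule (Fin (n + 1)) K)).basicOpen
      (IPr_sec K J (IPr_mon K J k a h ha)) ↔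
    ∀ l, IPr_ex J k a l ≠ 0 → MvPolynomial.X l ∉ x.asHomogeneousIdeal.toIdeal := by
  rw [Scheme.mem_basicOpen _ _ _ hx]
  have h1 := ProjectiveSpectrum.Proj.awayToSection_germ
    (MvPolynomial.homogeneousSubmodule (Fin (n + 1)) K) (IPr_f K J) x hx
  have h2 : (Proj (MvPolynomial.homogeneousSubmodule (Fin (n + 1)) K)).presheaf.germ
      (IPr_U K J) x hx (IPr_sec K J (IPr_mon K J k a h ha)) =
      (Proj.stalkIso'
        (MvPolynomial.homogeneousSubmodule (Fin (n + 1)) K) x).symm
        (HomogeneousLocalization.mapId (MvPolynomial.homogeneousSubmodule (Fin (n + 1)) K)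
          (Submonoid.powers_le.mpr hx) (IPr_mon K J k a h ha)) :=
    congrArg (fun z => z.hom (IPr_mon K J k a h ha)) h1
  rw [h2]
  have h3 : IsUnit ((Proj.stalkIso'
        (MvPolynomial.homogeneousSubmodule (Fin (n + 1)) K) x).symm
        (HomogeneousLocalization.mapId (MvPolynomial.homogeneousSubmodule (Fin (n + 1)) K)
          (Submonoid.powers_le.mpr hx) (IPr_mon K J k a h ha))) ↔
      IsUnit (HomogeneousLocalization.mapId (MvPolynomial.homogeneousSubmodule (Fin (n + 1)) K)
          (Submonoid.powers_le.mpr hx) (IPr_mon K J k a h ha)) :=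
    MulEquiv.isUnit_map _
  refine h3.trans ?_
  have hp : x.asHomogeneousIdeal.toIdeal.IsPrime := x.isPrime
  refine (HomogeneousLocalization.isUnit_iff_isUnit_val _ x.asHomogeneousIdeal.toIdeal
    _).symm.trans ?_
  have h4 : (HomogeneousLocalization.mapId (MvPolynomial.homogeneousSubmodule (Fin (n + 1)) K)
          (Submonoid.powers_le.mpr hx) (IPr_mon K J k a h ha)).val =
      Localization.mk (MvPolynomial.monomial (IPr_ex J k a) (1 : K))
        (⟨IPr_f K J ^ k, Submonoid.powers_le.mpr hx ⟨k, rfl⟩⟩ :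
          x.asHomogeneousIdeal.toIdeal.primeCompl) := rfl
  rw [h4, Localization.mk_eq_mk', IsLocalization.AtPrime.isUnit_mk'_iff _
    x.asHomogeneousIdeal.toIdeal]
  have h5 : MvPolynomial.monomial (IPr_ex J k a) (1 : K) ∈
      x.asHomogeneousIdeal.toIdeal.primeCompl ↔
      ¬ MvPolynomial.monomial (IPr_ex J k a) (1 : K) ∈ x.asHomogeneousIdeal.toIdeal := Iff.rfl
  rw [h5, IPr_mem_mon K _ x.isPrime]
  constructor
  · intro h6 l h7 h8
    exact h6 ⟨l, h7, h8⟩
  · rintro h6 ⟨l, h7, h8⟩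
    exact h6 l h7 h8

end scheme3


section scheme4

attribute [local instance] MvPolynomial.gradedAlgebra

variable (K : Type) [Field K] {n : ℕ}

theorem IPr_U_le {J J' : Finset (Fin (n + 1))} (h : J' ⊆ J) : IPr_U K J' ≤ IPr_U K J := by
  intro x hx
  rw [IPr_mem_U] at hx ⊢
  exact fun l hl => hx l (fun h' => hl (h h'))

/-- the quotient `f_J' / f_J` -/
noncomputable def IPr_q (J J' : Finset (Fin (n + 1))) : MvPolynomial (Fin (n + 1)) K :=
  MvPolynomial.monomial (IPr_ind J' - IPr_ind J) 1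

theorem IPr_q_mem (J J' : Finset (Fin (n + 1))) :
    IPr_q K J J' ∈ MvPolynomial.homogeneousSubmodule (Fin (n + 1)) K
      (IPr_ind J' - IPr_ind J).degree :=
  MvPolynomial.isHomogeneous_monomial _ rfl

theorem IPr_q_eq {J J' : Finset (Fin (n + 1))} (h : J' ⊆ J) :
    IPr_f K J' = IPr_f K J * IPr_q K J J' := by
  unfold IPr_f IPr_q
  rw [MvPolynomial.monomial_mul, mul_one]
  congr 2
  ext l
  show (if l ∈ J' then 0 else 1 : ℕ) = (if l ∈ J then 0 else 1) +
    ((if l ∈ J' then 0 else 1) - (if l ∈ J then 0 else 1))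
  by_cases h1 : l ∈ J'
  · rw [if_pos h1, if_pos (h h1)]
  · rw [if_neg h1]
    by_cases h2 : l ∈ J
    · rw [if_pos h2]
    · rw [if_neg h2]

/-- restriction of characters -/
theorem IPr_res {J J' : Finset (Fin (n + 1))} (h : J' ⊆ J) (k k' : ℕ)
    (a : Fin (n + 1) → ℤ) (h1 : IPr_ok J k a) (h2 : IPr_ok J' k' a) (ha : ∑ l, a l = 0)
    (hle : IPr_U K J' ≤ IPr_U K J) :
    ((Proj (MvPolynomial.homogeneousSubmodule (Fin (n + 1)) K)).presheaf.map
      (homOfLE hle).op).hom (IPr_sec K J (IPr_mon K J k a h1 ha)) =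
      IPr_sec K J' (IPr_mon K J' k' a h2 ha) := by
  have h3 := Proj.awayMap_awayToSection (MvPolynomial.homogeneousSubmodule (Fin (n + 1)) K)
    (IPr_q_mem K J J') (IPr_q_eq K h)
  have h4 := congrArg (fun z => z.hom (IPr_mon K J k a h1 ha)) h3
  have h5 : HomogeneousLocalization.awayMap (MvPolynomial.homogeneousSubmodule (Fin (n + 1)) K)
      (IPr_q_mem K J J') (IPr_q_eq K h) (IPr_mon K J k a h1 ha) = IPr_mon K J' k' a h2 ha := by
    apply IPr_Phi_inj K J'
    rw [IPr_Phi_mon]
    unfold IPr_mon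
    rw [HomogeneousLocalization.awayMap_mk, IPr_Phi_mk', map_mul, map_pow, IPr_g_mon,
      IPr_emb_ex h1]
    have h6 : IPr_g K n (IPr_q K J J') =
        AddMonoidAlgebra.single (IPr_emb n (IPr_ind J') - IPr_emb n (IPr_ind J)) 1 := by
      have h7 := congrArg (IPr_g K n) (IPr_q_eq K h)
      rw [map_mul] at h7
      unfold IPr_f at h7
      rw [IPr_g_mon, IPr_g_mon] at h7
      unfold IPr_q at h7 ⊢
      rw [IPr_g_mon, AddMonoidAlgebra.single_mul_single, mul_one] at h7
      rw [IPr_g_mon]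
      congr 1
      have h8 := (AddMonoidAlgebra.single_left_inj (one_ne_zero (α := K))).1 h7
      rw [h8]
      abel
    rw [h6, AddMonoidAlgebra.single_pow, one_pow, AddMonoidAlgebra.single_mul_single,
      AddMonoidAlgebra.single_mul_single, mul_one, mul_one]
    congr 1
    rw [← natCast_zsmul, zsmul_sub]
    abel
  rw [← h5]
  exact h4.symm

theorem IPr_cover (x : Proj (MvPolynomial.homogeneousSubmodule (Fin (n + 1)) K)) :
    ∃ l : Fin (n + 1), MvPolynomial.X l ∉ x.asHomogeneousIdeal.toIdeal := by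
  have h1 := Proj.iSup_basicOpen_eq_top' (MvPolynomial.homogeneousSubmodule (Fin (n + 1)) K)
    (fun l : Fin (n + 1) => (MvPolynomial.X l : MvPolynomial (Fin (n + 1)) K))
    (fun l => ⟨1, MvPolynomial.isHomogeneous_X K l⟩) (by
      rw [eq_top_iff]
      intro p _
      induction p using MvPolynomial.induction_on with
      | C r =>
        exact Subalgebra.algebraMap_mem _
          (⟨MvPolynomial.C r, MvPolynomial.isHomogeneous_C _ r⟩ :
            MvPolynomial.homogeneousSubmodule (Fin (n + 1)) K 0)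
      | add p q hp hq => exact add_mem (hp trivial) (hq trivial)
      | mul_X p l hp => exact mul_mem (hp trivial) (Algebra.subset_adjoin ⟨l, rfl⟩))
  have h2 : x ∈ (⨆ l : Fin (n + 1), Proj.basicOpen
      (MvPolynomial.homogeneousSubmodule (Fin (n + 1)) K)
      (MvPolynomial.X l : MvPolynomial (Fin (n + 1)) K)) := by
    rw [h1]
    trivial
  obtain ⟨l, hl⟩ := TopologicalSpace.Opens.mem_iSup.1 h2
  exact ⟨l, hl⟩

end scheme4



section scheme5

attribute [local instance] MvPolynomial.gradedAlgebra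

variable (K : Type) [Field K] {n : ℕ}

/-- the generic point -/
noncomputable def IPr_eta (n : ℕ) :
    ProjectiveSpectrum (MvPolynomial.homogeneousSubmodule (Fin (n + 1)) K) where
  asHomogeneousIdeal := ⊥
  isPrime := by
    rw [HomogeneousIdeal.toIdeal_bot]
    exact Ideal.isPrime_bot
  not_irrelevant_le := by
    intro h
    have h1 : (MvPolynomial.X 0 : MvPolynomial (Fin (n + 1)) K) ∈ HomogeneousIdeal.irrelevant
        (MvPolynomial.homogeneousSubmodule (Fin (n + 1)) K) := by
      rw [HomogeneousIdeal.mem_irrelevant_iff, GradedRing.proj_apply,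
        DirectSum.decompose_of_mem_ne _ (MvPolynomial.isHomogeneous_X K (0 : Fin (n + 1)))
          (one_ne_zero)]
    have h2 := h h1
    have h3 : (MvPolynomial.X 0 : MvPolynomial (Fin (n + 1)) K) ∈ (⊥ : HomogeneousIdeal
        (MvPolynomial.homogeneousSubmodule (Fin (n + 1)) K)).toIdeal := h2
    rw [HomogeneousIdeal.toIdeal_bot, Ideal.mem_bot] at h3
    exact MvPolynomial.X_ne_zero _ h3

theorem IPr_irr : IrreducibleSpace
    (Proj (MvPolynomial.homogeneousSubmodule (Fin (n + 1)) K)) := by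
  have h1 : closure ({IPr_eta K n} : Set (ProjectiveSpectrum
      (MvPolynomial.homogeneousSubmodule (Fin (n + 1)) K))) = Set.univ := by
    rw [← ProjectiveSpectrum.zeroLocus_vanishingIdeal_eq_closure,
      ProjectiveSpectrum.vanishingIdeal_singleton]
    rw [Set.eq_univ_iff_forall]
    intro x y hy
    have h3 : y ∈ (⊥ : HomogeneousIdeal
        (MvPolynomial.homogeneousSubmodule (Fin (n + 1)) K)).toIdeal := hy
    rw [HomogeneousIdeal.toIdeal_bot, Ideal.mem_bot] at h3
    rw [h3]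
    exact zero_mem _
  have h2 : IsIrreducible (Set.univ : Set (ProjectiveSpectrum
      (MvPolynomial.homogeneousSubmodule (Fin (n + 1)) K))) := by
    rw [← h1]
    exact isIrreducible_singleton.closure
  exact (irreducibleSpace_def _).2 h2

theorem IPr_red : IsReduced (Proj (MvPolynomial.homogeneousSubmodule (Fin (n + 1)) K)) := by
  have h : ∀ x : Proj (MvPolynomial.homogeneousSubmodule (Fin (n + 1)) K), _root_.IsReduced
      ((Proj (MvPolynomial.homogeneousSubmodule (Fin (n + 1)) K)).presheaf.stalk x) := by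
    intro x
    have hp : x.asHomogeneousIdeal.toIdeal.IsPrime := x.isPrime
    have hd : IsDomain (Localization.AtPrime x.asHomogeneousIdeal.toIdeal) :=
      IsLocalization.isDomain_localization (Ideal.primeCompl_le_nonZeroDivisors _)
    have h1 : _root_.IsReduced (HomogeneousLocalization.AtPrime
        (MvPolynomial.homogeneousSubmodule (Fin (n + 1)) K) x.asHomogeneousIdeal.toIdeal) :=
      isReduced_of_injective (algebraMap _ (Localization.AtPrime x.asHomogeneousIdeal.toIdeal))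
        (HomogeneousLocalization.val_injective _)
    exact isReduced_of_injective
      (Proj.stalkIso' (MvPolynomial.homogeneousSubmodule (Fin (n + 1)) K) x).toRingHom
      (Proj.stalkIso' (MvPolynomial.homogeneousSubmodule (Fin (n + 1)) K) x).injective
  exact isReduced_of_isReduced_stalk _

/-- projective space is integral -/
theorem IPr_int : IsIntegral (Proj (MvPolynomial.homogeneousSubmodule (Fin (n + 1)) K)) := by
  have := IPr_irr K (n := n)
  have := IPr_red K (n := n)
  exact isIntegral_of_irreducibleSpace_of_isReduced _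

end scheme5



section final

attribute [local instance] MvPolynomial.gradedAlgebra

/-- the toric structure of projective space -/
noncomputable def IPr_toric (K : Type) [NormedField K] (n : ℕ) (Δ : Fan n)
    (e : Δ.ι ≃ {J : Finset (Fin (n + 1)) // J ≠ Finset.univ})
    (hg : ∀ i, Δ.gens i = (e i).1.image (IPr_vv n)) :
    Toric (X := Proj (MvPolynomial.homogeneousSubmodule (Fin (n + 1)) K)) Δ (PrKs K n) :=
  have hV : ∀ i, ∀ m, m ∈ dualOf (Δ.gens i) ↔ ∀ l ∈ (e i).1, 0 ≤ IPr_av m l := fun i m => by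
    rw [hg i]
    exact IPr_dual _ m
  have hle : ∀ i j, Δ.cone j ⊆ Δ.cone i → (e j).1 ⊆ (e i).1 := fun i j h => by
    unfold Fan.cone at h
    rw [hg i, hg j] at h
    exact IPr_le (e i).2 (e j).2 h
  { U := fun i => IPr_U K (e i).1
    aff := fun i => Proj.isAffineOpen_basicOpen _ _ (IPr_f_mem K (e i).1) (IPr_deg_pos (e i).2)
    cover := by
      intro x
      obtain ⟨l, hl⟩ := IPr_cover K x
      have hJ : ({l}ᶜ : Finset (Fin (n + 1))) ≠ Finset.univ := by
        intro h
        have : l ∈ ({l}ᶜ : Finset (Fin (n + 1))) := by rw [h]; exact Finset.mem_univ l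
        simp at this
      refine ⟨e.symm ⟨{l}ᶜ, hJ⟩, ?_⟩
      show x ∈ IPr_U K (e (e.symm ⟨{l}ᶜ, hJ⟩)).1
      rw [Equiv.apply_symm_apply, IPr_mem_U]
      intro l' hl'
      have : l' = l := by simpa using hl'
      rw [this]
      exact hl
    χ := fun i => (IPr_sec K (e i).1).toMonoidHom.comp
      (IPr_chi K (V := Δ.gens i) (fun m hm => (hV i m).1 hm))
    basis := by
      intro i
      have h1 := (IPr_sec_bij K (e i).2).comp (IPr_basis K (V := Δ.gens i) (J := (e i).1) (hV i))
      have h2 : (fun f : Δ.dual i →₀ K => f.sum fun m a =>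
          kΓ (X := Proj (MvPolynomial.homogeneousSubmodule (Fin (n + 1)) K)) (PrKs K n)
            (IPr_U K (e i).1) a *
          (IPr_sec K (e i).1).toMonoidHom.comp
            (IPr_chi K (V := Δ.gens i) (fun m hm => (hV i m).1 hm)) (Multiplicative.ofAdd m)) =
          (IPr_sec K (e i).1) ∘ fun f : dualOf (Δ.gens i) →₀ K =>
            f.sum fun m a => IPr_kap K (e i).1 a *
              IPr_chi K (fun m hm => (hV i m).1 hm) (Multiplicative.ofAdd m) := by
        funext f
        show _ = IPr_sec K (e i).1 (f.sum fun m a => IPr_kap K (e i).1 a *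
              IPr_chi K (fun m hm => (hV i m).1 hm) (Multiplicative.ofAdd m))
        rw [map_finsuppSum]
        apply Finsupp.sum_congr
        intro m _
        rw [map_mul, ← IPr_kG K (e i).2]
        rfl
      exact h2 ▸ h1
    le := fun i j h => IPr_U_le K (hle i j h)
    res := by
      intro i j h m m' hm
      have h1 : IPr_ok (e i).1 (IPr_k (IPr_av (m : Fin n → ℤ))) (IPr_av (m : Fin n → ℤ)) :=
        IPr_ok_of ((hV i _).1 m.2)
      have h2 : IPr_ok (e j).1 (IPr_k (IPr_av (m' : Fin n → ℤ))) (IPr_av (m' : Fin n → ℤ)) :=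
        IPr_ok_of ((hV j _).1 m'.2)
      obtain ⟨m, hm1⟩ := m
      obtain ⟨m', hm2⟩ := m'
      simp only at hm
      subst hm
      exact IPr_res K (hle i j h) _ _ _ h1 h2 (IPr_av_sum _) (IPr_U_le K (hle i j h))
    basic := by
      intro i j m h
      have h1 : IPr_ok (e i).1 (IPr_k (IPr_av (m : Fin n → ℤ))) (IPr_av (m : Fin n → ℤ)) :=
        IPr_ok_of ((hV i _).1 m.2)
      unfold Fan.cone at h
      rw [hg i, hg j] at h
      have h2 := IPr_faces (e i).2 (e j).2 _ h
      apply TopologicalSpace.Opens.ext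
      ext x
      by_cases hx : x ∈ IPr_U K (e i).1
      · have h3 := IPr_unit K (e i).1 _ _ h1 (IPr_av_sum _) x hx
        have h4 := IPr_mem_U K (e j).1 x
        refine h4.trans (Iff.trans ?_ h3.symm)
        rw [IPr_mem_U] at hx
        constructor
        · intro h5 l hl
          apply h5
          intro h6
          apply hl
          show (_ + _ : ℤ).toNat = 0
          rw [((h2 l).1 h6).2, if_pos ((h2 l).1 h6).1]
          rfl
        · intro h5 l hl
          by_cases h6 : l ∈ (e i).1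
          · apply h5
            intro h7
            apply hl
            rw [h2]
            refine ⟨h6, ?_⟩
            have h8 : (IPr_av (m : Fin n → ℤ) l + if l ∈ (e i).1 then 0 else
              ((IPr_k (IPr_av (m : Fin n → ℤ)) : ℕ) : ℤ)).toNat = 0 := h7
            have h9 := h1 l
            rw [if_pos h6] at h8 h9
            omega
          · exact hx l h6
      · constructor
        · intro h3
          exact absurd (IPr_U_le K (fun l hl => ((h2 l).1 hl).1) h3) hx
        · intro h3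
          exact absurd (Scheme.basicOpen_le _ _ h3) hx
    inter := by
      intro i j k h
      unfold Fan.cone at h
      rw [hg i, hg j, hg k] at h
      have h2 := IPr_inter (e i).2 (e j).2 (e k).2 h
      apply TopologicalSpace.Opens.ext
      ext x
      have h3 := IPr_mem_U K (e i).1 x
      have h4 := IPr_mem_U K (e j).1 x
      have h5 := IPr_mem_U K (e k).1 x
      constructor
      · rintro ⟨h6, h7⟩
        refine h5.2 fun l hl => ?_
        by_cases h8 : l ∈ (e i).1
        · by_cases h9 : l ∈ (e j).1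
          · exact absurd ((h2 l).2 ⟨h8, h9⟩) hl
          · exact h4.1 h7 l h9
        · exact h3.1 h6 l h8
      · intro h6
        have h7 := h5.1 h6
        exact ⟨h3.2 fun l hl => h7 l fun h8 => hl ((h2 l).1 h8).1,
          h4.2 fun l hl => h7 l fun h8 => hl ((h2 l).1 h8).2⟩ }

theorem thm_IPr : St_IPr := by
  intro K _ n Δ e hg
  exact ⟨IPr_int K, ⟨IPr_toric K n Δ e hg⟩⟩

end final

end TDC
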