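import Pool.Agent.TDC.St

/-!
# TDC, module IndG: independent values imply Gauss point
-/

namespace TDC

open scoped Topology

/-- The strict ultrametric inequality. -/
private lemma IndG_lt {M : Type} [Field M] (v : AbsoluteValue M ℝ)
    (na : ∀ a b, v (a + b) ≤ max (v a) (v b)) (a b : M) (h : v a < v b) : v (a + b) = v b := by
  apply le_antisymm
  · exact (na a b).trans (max_le h.le le_rfl)
  · have h1 : v b ≤ max (v (a + b)) (v (-a)) := by
      have h2 := na (a + b) (-a)
      have h3 : a + b + -a = b := by ring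
      rwa [h3] at h2
    rw [v.map_neg] at h1
    rcases le_max_iff.mp h1 with h4 | h4
    · exact h4
    · exact absurd h4 (not_le.mpr h)

/-- The value of a sum of elements with pairwise different values is the maximum. -/
private lemma IndG_max {M ι : Type} [Field M] [DecidableEq ι] (v : AbsoluteValue M ℝ)
    (na : ∀ a b, v (a + b) ≤ max (v a) (v b)) (m : ι → M) (s : Finset ι) :
    (∀ d ∈ s, ∀ e ∈ s, v (m d) = v (m e) → d = e) → s.Nonempty →
      ∃ d₀ ∈ s, (∀ d ∈ s, v (m d) ≤ v (m d₀)) ∧ v (∑ d ∈ s, m d) = v (m d₀) := by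
  induction s using Finset.induction_on with
  | empty =>
    intro _ h
    exact absurd h (by simp)
  | insert a s ha ih =>
    intro hs _
    rcases s.eq_empty_or_nonempty with h0 | h0
    · subst h0
      refine ⟨a, Finset.mem_insert_self _ _, ?_, by simp⟩
      intro d hd
      rw [Finset.mem_insert] at hd
      rcases hd with rfl | hd
      · exact le_rfl
      · exact absurd hd (Finset.notMem_empty _)
    · obtain ⟨d₀, hd₀, h1, h2⟩ := ih
        (fun d hd e he => hs d (Finset.mem_insert_of_mem hd) e (Finset.mem_insert_of_mem he)) h0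
      rw [Finset.sum_insert ha]
      rcases lt_trichotomy (v (m a)) (v (m d₀)) with h3 | h3 | h3
      · refine ⟨d₀, Finset.mem_insert_of_mem hd₀, ?_, ?_⟩
        · intro d hd
          rcases Finset.mem_insert.mp hd with rfl | hd
          · exact h3.le
          · exact h1 d hd
        · rw [IndG_lt v na _ _ (by rw [h2]; exact h3), h2]
      · exfalso
        have h4 := hs a (Finset.mem_insert_self _ _) d₀ (Finset.mem_insert_of_mem hd₀) h3
        rw [h4] at ha
        exact ha hd₀
      · refine ⟨a, Finset.mem_insert_self _ _, ?_, ?_⟩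
        · intro d hd
          rcases Finset.mem_insert.mp hd with rfl | hd
          · exact le_rfl
          · exact (h1 d hd).trans h3.le
        · rw [add_comm, IndG_lt v na _ _ (by rw [h2]; exact h3)]

/-- **IndG**. Independent values imply Gauss point. -/
theorem thm_IndG : St_IndG := by
  classical
  intro K M _ _ φ n x g hg P e
  by_cases he : P.coeff e = 0
  · rw [he]
    simp only [norm_zero, zero_mul]
    exact x.v.nonneg _
  have hmon : ∀ (d : Fin n →₀ ℕ),
      x.v (φ (P.coeff d) * ∏ i, (g i : M) ^ d i) = ‖P.coeff d‖ * ∏ i, x.v (g i) ^ d i := by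
    intro d
    rw [map_mul, x.ext, map_prod]
    simp only [map_pow]
  have hpos : ∀ i, 0 < x.v (g i : M) := fun i => x.v.pos (g i).ne_zero
  have hinj : ∀ d ∈ P.support, ∀ d' ∈ P.support,
      x.v (φ (P.coeff d) * ∏ i, (g i : M) ^ d i) =
        x.v (φ (P.coeff d') * ∏ i, (g i : M) ^ d' i) → d = d' := by
    intro d hd d' hd' h
    rw [hmon, hmon] at h
    have hc : P.coeff d ≠ 0 := MvPolynomial.mem_support_iff.mp hd
    have hc' : P.coeff d' ≠ 0 := MvPolynomial.mem_support_iff.mp hd'
    have hk := hg (fun i => (d i : ℤ) - (d' i : ℤ)) ⟨P.coeff d' / P.coeff d, ?_⟩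
    · ext i
      have h1 := congrFun hk i
      simp only [Pi.zero_apply] at h1
      omega
    · rw [norm_div]
      have h2 : x.v ((∏ i, g i ^ ((d i : ℤ) - (d' i : ℤ)) : Mˣ) : M) =
          (∏ i, x.v (g i) ^ d i) / ∏ i, x.v (g i) ^ d' i := by
        rw [Units.coe_prod, map_prod, ← Finset.prod_div_distrib]
        refine Finset.prod_congr rfl fun i _ => ?_
        rw [Units.val_zpow_eq_zpow_val, map_zpow₀, zpow_sub₀ (hpos i).ne', zpow_natCast,
          zpow_natCast]
      rw [h2]
      have h3 : 0 < ∏ i, x.v (g i : M) ^ d' i := Finset.prod_pos fun i _ => pow_pos (hpos i) _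
      have h4 : 0 < ‖P.coeff d‖ := norm_pos_iff.mpr hc
      rw [div_eq_div_iff h4.ne' h3.ne']
      linarith
  have hmem : e ∈ P.support := MvPolynomial.mem_support_iff.mpr he
  obtain ⟨d₀, _, h1, h2⟩ := IndG_max x.v x.na
    (fun d : Fin n →₀ ℕ => φ (P.coeff d) * ∏ i, (g i : M) ^ d i) P.support hinj ⟨e, hmem⟩
  rw [← hmon e, MvPolynomial.eval₂_eq', h2]
  exact h1 e hmem

end TDC

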