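import Pool.Agent.TDC.StT

/-!
# TDC: module Irr, the irreducible relation between `n + 1` elements
-/

namespace TDC

open scoped IntermediateField.algebraAdjoinAdjoin

/-- `K[X_0, …, X_n]` as polynomials in `X_i` -/
noncomputable def Irr_Φ (K : Type) [Field K] {n : ℕ} (i : Fin (n + 1)) :
    MvPolynomial (Fin (n + 1)) K ≃ₐ[K] Polynomial (MvPolynomial (Fin n) K) :=
  (MvPolynomial.renameEquiv K (finSuccEquiv' i)).trans (MvPolynomial.optionEquivLeft K (Fin n))

theorem Irr_Φ_self (K : Type) [Field K] {n : ℕ} (i : Fin (n + 1)) :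
    Irr_Φ K i (MvPolynomial.X i) = Polynomial.X := by
  simp [Irr_Φ]

theorem Irr_Φ_succAbove (K : Type) [Field K] {n : ℕ} (i : Fin (n + 1)) (k : Fin n) :
    Irr_Φ K i (MvPolynomial.X (i.succAbove k)) = Polynomial.C (MvPolynomial.X k) := by
  simp [Irr_Φ]

section

variable {K L : Type} [Field K] [Field L] [Algebra K L] {n : ℕ}

theorem Irr_aeval (G : Fin (n + 1) → L) (i : Fin (n + 1)) (P : MvPolynomial (Fin (n + 1)) K) :
    MvPolynomial.aeval (Function.update (fun j => Polynomial.C (G j)) i Polynomial.X) P =
      (Irr_Φ K i P).map (MvPolynomial.aeval (R := K) (G ∘ i.succAbove)).toRingHom := by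
  have h : (MvPolynomial.aeval (R := K)
      (Function.update (fun j => Polynomial.C (G j)) i Polynomial.X) :
        MvPolynomial (Fin (n + 1)) K →ₐ[K] Polynomial L) =
      (Polynomial.mapAlgHom (MvPolynomial.aeval (R := K) (G ∘ i.succAbove))).comp
        (Irr_Φ K i).toAlgHom := by
    apply MvPolynomial.algHom_ext
    intro j
    rw [MvPolynomial.aeval_X]
    show _ = (Irr_Φ K i (MvPolynomial.X j)).map
      (MvPolynomial.aeval (R := K) (G ∘ i.succAbove)).toRingHom
    rcases Fin.eq_self_or_eq_succAbove i j with rfl | ⟨k, rfl⟩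
    · rw [Irr_Φ_self, Polynomial.map_X, Function.update_self]
    · rw [Irr_Φ_succAbove, Polynomial.map_C, Function.update_of_ne (Fin.succAbove_ne i k)]
      congr 1
      show _ = MvPolynomial.aeval (R := K) (G ∘ i.succAbove) (MvPolynomial.X k)
      rw [MvPolynomial.aeval_X]
      rfl
  have h2 := DFunLike.congr_fun h P
  exact h2

theorem Irr_eval (G : Fin (n + 1) → L) (i : Fin (n + 1)) (P : MvPolynomial (Fin (n + 1)) K) :
    Polynomial.eval (G i) (MvPolynomial.aeval
      (Function.update (fun j => Polynomial.C (G j)) i Polynomial.X) P) =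
        MvPolynomial.aeval G P := by
  have h : ((Polynomial.aeval (G i) : Polynomial L →ₐ[L] L).restrictScalars K).comp
      (MvPolynomial.aeval (R := K)
      (Function.update (fun j => Polynomial.C (G j)) i Polynomial.X) :
        MvPolynomial (Fin (n + 1)) K →ₐ[K] Polynomial L) = MvPolynomial.aeval G := by
    apply MvPolynomial.algHom_ext
    intro j
    show Polynomial.aeval (G i) (MvPolynomial.aeval (R := K)
      (Function.update (fun j => Polynomial.C (G j)) i Polynomial.X) (MvPolynomial.X j)) = _
    rw [MvPolynomial.aeval_X, MvPolynomial.aeval_X]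
    by_cases hj : j = i
    · subst hj
      rw [Function.update_self, Polynomial.aeval_X]
    · rw [Function.update_of_ne hj, Polynomial.aeval_C]
      rfl
  have h2 := DFunLike.congr_fun h P
  rw [← h2]
  show _ = Polynomial.aeval (G i) (MvPolynomial.aeval (R := K)
      (Function.update (fun j => Polynomial.C (G j)) i Polynomial.X) P)
  rw [Polynomial.coe_aeval_eq_eval]

theorem Irr_main (G : Fin (n + 1) → L) (P : MvPolynomial (Fin (n + 1)) K) (hP : Irreducible P)
    (hG : MvPolynomial.aeval G P = 0) (i : Fin (n + 1))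
    (hi : AlgebraicIndependent K (G ∘ i.succAbove)) :
    ∃ c : L, c ≠ 0 ∧
        MvPolynomial.aeval (Function.update (fun j => Polynomial.C (G j)) i Polynomial.X) P =
          Polynomial.C c * (minpoly (IntermediateField.adjoin K (Set.range (G ∘ i.succAbove)))
            (G i)).map (algebraMap (IntermediateField.adjoin K (Set.range (G ∘ i.succAbove))) L) := by
  set g : Fin n → L := G ∘ i.succAbove with hg
  set B := Algebra.adjoin K (Set.range g) with hB
  set E := IntermediateField.adjoin K (Set.range g) with hE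
  have hufd : UniqueFactorizationMonoid B :=
    (hi.aevalEquiv).toMulEquiv.uniqueFactorizationMonoid inferInstance
  let Ψ : Polynomial (MvPolynomial (Fin n) K) ≃+* Polynomial B :=
    Polynomial.mapEquiv hi.aevalEquiv.toRingEquiv
  let Q : Polynomial B := Ψ (Irr_Φ K i P)
  have hQirr : Irreducible Q := by
    have h1 : Irreducible (Irr_Φ K i P) := (MulEquiv.irreducible_iff (Irr_Φ K i)).2 hP
    exact (MulEquiv.irreducible_iff Ψ).2 h1
  -- the image in `L[Y]`
  have hQL : Q.map (algebraMap B L) =
      MvPolynomial.aeval (Function.update (fun j => Polynomial.C (G j)) i Polynomial.X) P := by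
    rw [Irr_aeval]
    show ((Irr_Φ K i P).map _).map _ = _
    rw [Polynomial.map_map]
    have hr : (algebraMap B L).comp (hi.aevalEquiv.toRingEquiv : MvPolynomial (Fin n) K →+* B) =
        (MvPolynomial.aeval (R := K) g).toRingHom := by
      apply RingHom.ext
      intro x
      exact hi.algebraMap_aevalEquiv x
    exact congrArg (fun f => Polynomial.map f (Irr_Φ K i P)) hr
  have hQeval : Polynomial.eval (G i) (Q.map (algebraMap B L)) = 0 := by
    rw [hQL, Irr_eval, hG]
  have hinj : Function.Injective (algebraMap B L) := Subtype.val_injective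
  have hdeg : Q.natDegree ≠ 0 := by
    intro h0
    rw [Polynomial.eq_C_of_natDegree_eq_zero h0, Polynomial.map_C, Polynomial.eval_C] at hQeval
    have h1 : Q.coeff 0 = 0 := by
      apply hinj
      rw [hQeval, map_zero]
    apply hQirr.ne_zero
    rw [Polynomial.eq_C_of_natDegree_eq_zero h0, h1, Polynomial.C_0]
  have hprim : Q.IsPrimitive := hQirr.isPrimitive hdeg
  have hQE : Irreducible (Q.map (algebraMap B E)) :=
    (hprim.irreducible_iff_irreducible_map_fraction_map (K := E)).1 hQirr
  have hEL : (Q.map (algebraMap B E)).map (algebraMap E L) = Q.map (algebraMap B L) := by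
    rw [Polynomial.map_map]
    rfl
  have hroot : Polynomial.aeval (G i) (Q.map (algebraMap B E)) = 0 := by
    rw [Polynomial.aeval_def, ← Polynomial.eval_map, hEL]
    exact hQeval
  have hmin := minpoly.eq_of_irreducible hQE hroot
  have hlc : (Q.map (algebraMap B E)).leadingCoeff ≠ 0 :=
    Polynomial.leadingCoeff_ne_zero.2 hQE.ne_zero
  refine ⟨algebraMap E L (Q.map (algebraMap B E)).leadingCoeff, ?_, ?_⟩
  · intro h0
    apply hlc
    apply (algebraMap E L).injective
    rw [h0, map_zero]
  · rw [← hQL, ← hEL, ← hmin, Polynomial.map_mul, Polynomial.map_C]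
    rw [mul_left_comm, ← Polynomial.C_mul, ← map_mul, mul_inv_cancel₀ hlc, map_one,
      Polynomial.C_1, mul_one]

end

theorem thm_Irr : St_Irr := by
  intro K L _ _ _ n hTr G
  have hprime : (RingHom.ker (MvPolynomial.aeval (R := K) G : MvPolynomial (Fin (n + 1)) K →ₐ[K] L)).IsPrime :=
    RingHom.ker_isPrime _
  have hne : RingHom.ker (MvPolynomial.aeval (R := K) G : MvPolynomial (Fin (n + 1)) K →ₐ[K] L) ≠ ⊥ := by
    intro h
    apply hTr G
    exact (RingHom.injective_iff_ker_eq_bot _).2 h
  obtain ⟨P, hPmem, hPprime⟩ := Ideal.IsPrime.exists_mem_prime_of_ne_bot hprime hne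
  refine ⟨P, hPprime.ne_zero, fun i hi => ?_⟩
  exact Irr_main G P hPprime.irreducible ((RingHom.mem_ker).1 hPmem) i hi

end TDC
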