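import Pool.Agent.TDC.St2

namespace TDC

open scoped Topology
open Polynomial

private theorem Irre_norm_inc {M : Type} [Field M] (v : AbsoluteValue M ℝ) (a : M) :
    ‖inc v a‖ = v a := by
  have h : inc v a = ((WithAbs.toAbs v a : WithAbs v) : v.Completion) := rfl
  rw [h, UniformSpace.Completion.norm_coe]
  rfl

private theorem Irre_dense {M : Type} [Field M] (v : AbsoluteValue M ℝ) (b : v.Completion)
    (ε : ℝ) (hε : 0 < ε) : ∃ a : M, ‖b - inc v a‖ < ε := by
  have h := UniformSpace.Completion.denseRange_coe (α := WithAbs v)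
  obtain ⟨a, ha⟩ := h.exists_dist_lt b hε
  refine ⟨WithAbs.ofAbs a, ?_⟩
  rw [← dist_eq_norm]
  exact ha

private theorem Irre_na {M : Type} [Field M] (v : AbsoluteValue M ℝ)
    (hna : ∀ a b, v (a + b) ≤ max (v a) (v b)) (a b : v.Completion) :
    ‖a + b‖ ≤ max ‖a‖ ‖b‖ := by
  induction a, b using UniformSpace.Completion.induction_on₂ with
  | hp =>
    exact isClosed_le (by fun_prop) (by fun_prop)
  | ih a b =>
    rw [← UniformSpace.Completion.coe_add, UniformSpace.Completion.norm_coe,
      UniformSpace.Completion.norm_coe, UniformSpace.Completion.norm_coe]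
    exact hna _ _

/-- the isometric embedding of completions -/
private theorem Irre_emb {K L' L : Type} [NontriviallyNormedField K] [Field L'] [Field L]
    [Algebra K L'] [Algebra K L] [Algebra L' L] [IsScalarTower K L' L]
    (x : Pt (algebraMap K L)) :
    ∃ j : (res L' x).v.Completion →+* x.v.Completion,
      (∀ b, ‖j b‖ = ‖b‖) ∧ ∀ a : L', j (inc (res L' x).v a) = inc x.v (algebraMap L' L a) := by
  let f : WithAbs (res L' x).v →+* x.v.Completion :=
    (inc x.v).comp ((algebraMap L' L).comp (WithAbs.equiv (res L' x).v).toRingHom)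
  have hf : Isometry f := by
    refine AddMonoidHomClass.isometry_of_norm f fun a => ?_
    have h1 : f a = inc x.v (algebraMap L' L (WithAbs.ofAbs a)) := rfl
    rw [h1, Irre_norm_inc]
    rfl
  refine ⟨hf.extensionHom, ?_, ?_⟩
  · intro b
    have h2 : Isometry hf.extensionHom := hf.completion_extension
    have h3 := h2.dist_eq b 0
    rw [map_zero, dist_zero_right, dist_zero_right] at h3
    exact h3
  · intro a
    exact hf.extensionHom_coe (WithAbs.toAbs _ a)

/-- approximation of a monic polynomial -/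
private theorem Irre_approx {K L' L : Type} [NontriviallyNormedField K] [Field L'] [Field L]
    [Algebra K L'] [Algebra K L] [Algebra L' L] [IsScalarTower K L' L]
    (x : Pt (algebraMap K L)) (j : (res L' x).v.Completion →+* x.v.Completion)
    (hj : ∀ b, ‖j b‖ = ‖b‖) (hji : ∀ a : L', j (inc (res L' x).v a) = inc x.v (algebraMap L' L a))
    (t : L) (A : (res L' x).v.Completion[X]) (hA : A.Monic) (δ : ℝ) (hδ : 0 < δ) :
    ∃ P : L'[X], P.Monic ∧ P.natDegree = A.natDegree ∧
      ‖A.eval₂ j (inc x.v t) - inc x.v (aeval t P)‖ < δ := by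
  set d := A.natDegree with hd
  set τ := inc x.v t with hτ
  set B : ℝ := (1 + ‖τ‖) ^ d with hB
  have hB1 : 0 < B := pow_pos (by positivity) _
  have hε : 0 < δ / ((d + 1) * B) := by positivity
  choose a ha using fun i : ℕ => Irre_dense (res L' x).v (A.coeff i) _ hε
  have hdeg : (∑ i : Fin d, C (a i) * X ^ (i : ℕ) : L'[X]).degree < (d : WithBot ℕ) :=
    degree_sum_fin_lt _
  refine ⟨X ^ d + ∑ i : Fin d, C (a i) * X ^ (i : ℕ), monic_X_pow_add hdeg, ?_, ?_⟩
  · exact natDegree_eq_of_degree_eq_some (by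
      rw [degree_add_eq_left_of_degree_lt]
      · exact degree_X_pow d
      · rw [degree_X_pow]; exact hdeg)
  · have hA1 : A.eval₂ j τ = τ ^ d + ∑ i : Fin d, j (A.coeff i) * τ ^ (i : ℕ) := by
      conv_lhs => rw [hA.as_sum]
      rw [eval₂_add, eval₂_X_pow, eval₂_finsetSum, Finset.sum_range]
      congr 1
      refine Finset.sum_congr rfl fun i _ => ?_
      rw [eval₂_mul, eval₂_C, eval₂_X_pow]
    have hP1 : inc x.v (aeval t (X ^ d + ∑ i : Fin d, C (a i) * X ^ (i : ℕ) : L'[X])) =
        τ ^ d + ∑ i : Fin d, j (inc (res L' x).v (a i)) * τ ^ (i : ℕ) := by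
      rw [map_add, map_add, map_pow, aeval_X, map_pow, map_sum, map_sum]
      congr 1
      refine Finset.sum_congr rfl fun i _ => ?_
      rw [map_mul, map_mul, aeval_C, map_pow, aeval_X, map_pow, hji]
    rw [hA1, hP1, add_sub_add_left_eq_sub, ← Finset.sum_sub_distrib]
    refine (norm_sum_le _ _).trans_lt ?_
    have h1 : ∀ i : Fin d, ‖j (A.coeff i) * τ ^ (i : ℕ) -
        j (inc (res L' x).v (a i)) * τ ^ (i : ℕ)‖ ≤ δ / (d + 1) := by
      intro i
      rw [← sub_mul, ← map_sub, norm_mul, hj, norm_pow]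
      have h2 : ‖τ‖ ^ (i : ℕ) ≤ B := by
        calc ‖τ‖ ^ (i : ℕ) ≤ (1 + ‖τ‖) ^ (i : ℕ) :=
              pow_le_pow_left₀ (norm_nonneg _) (by linarith) _
          _ ≤ (1 + ‖τ‖) ^ d := pow_le_pow_right₀ (by linarith [norm_nonneg τ]) i.2.le
      have h3 := (ha i).le
      calc ‖A.coeff i - inc (res L' x).v (a i)‖ * ‖τ‖ ^ (i : ℕ)
          ≤ δ / ((d + 1) * B) * B := by
            exact mul_le_mul h3 h2 (by positivity) hε.le
        _ = δ / (d + 1) := by
            field_simp
    calc ∑ i : Fin d, ‖j (A.coeff i) * τ ^ (i : ℕ) -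
        j (inc (res L' x).v (a i)) * τ ^ (i : ℕ)‖ ≤ ∑ i : Fin d, δ / (d + 1) :=
          Finset.sum_le_sum fun i _ => h1 i
      _ = d * (δ / (d + 1)) := by simp
      _ < δ := by
          rw [mul_div_assoc', div_lt_iff₀ (by positivity)]
          nlinarith

theorem thm_Irre : St_Irre := by
  intro K L' L _ _ _ _ _ _ _ t _ x Q hQ hdeg
  obtain ⟨hmon, hfree, hmin⟩ := hQ
  obtain ⟨j, hj, hji⟩ := Irre_emb (L' := L') x
  have hne1 : Q.map (inc (res L' x).v) ≠ 1 := by
    intro h
    have h1 := congrArg natDegree h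
    rw [natDegree_map, natDegree_one] at h1
    omega
  have key : ∀ A : (res L' x).v.Completion[X], A.Monic → A.natDegree < Q.natDegree →
      0 < ‖A.eval₂ j (inc x.v (t : L))‖ → ∃ N : ℕ, 0 < N ∧ ∃ a : L',
        (res L' x).v a = ‖A.eval₂ j (inc x.v (t : L))‖ ^ N := by
    intro A hA hAd hpos
    obtain ⟨P, hP1, hP2, hP3⟩ := Irre_approx x j hj hji (t : L) A hA _ hpos
    set α := A.eval₂ j (inc x.v (t : L)) with hα
    set β := inc x.v (aeval (t : L) P) with hβ
    have hβn : ‖β‖ = x.v (aeval (t : L) P) := Irre_norm_inc _ _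
    have h1 : ‖β‖ ≤ ‖α‖ := by
      have h2 := Irre_na x.v x.na α (β - α)
      rw [add_sub_cancel] at h2
      refine h2.trans (max_le le_rfl ?_)
      rw [norm_sub_rev]
      exact hP3.le
    have h3 : ‖α‖ ≤ ‖β‖ := by
      have h2 := Irre_na x.v x.na β (α - β)
      rw [add_sub_cancel] at h2
      rcases le_max_iff.1 h2 with h4 | h4
      · exact h4
      · linarith
    have h5 : x.v (aeval (t : L) P) = ‖α‖ := by rw [← hβn]; exact le_antisymm h1 h3
    have h6 := hmin P (by rw [hP2]; exact hAd)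
    rw [h5] at h6
    unfold Free at h6
    push Not at h6
    exact h6 hpos
  rw [(hmon.map _).irreducible_iff_natDegree]
  refine ⟨hne1, ?_⟩
  intro A B hA hB hAB
  by_contra hcon
  push Not at hcon
  have hdegs : A.natDegree + B.natDegree = Q.natDegree := by
    rw [← hA.natDegree_mul hB, hAB, natDegree_map]
  have hval : ‖A.eval₂ j (inc x.v (t : L))‖ * ‖B.eval₂ j (inc x.v (t : L))‖ =
      x.v (aeval (t : L) Q) := by
    rw [← norm_mul, ← eval₂_mul, hAB, eval₂_map]
    have h1 : j.comp (inc (res L' x).v) = (inc x.v).comp (algebraMap L' L) := by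
      ext a
      exact hji a
    rw [h1, ← Polynomial.hom_eval₂, ← Polynomial.aeval_def, Irre_norm_inc]
  obtain ⟨hr0, hfree2⟩ := hfree
  have hA0 : 0 < ‖A.eval₂ j (inc x.v (t : L))‖ := by
    refine lt_of_le_of_ne (norm_nonneg _) fun h => ?_
    rw [← h, zero_mul] at hval
    linarith
  have hB0 : 0 < ‖B.eval₂ j (inc x.v (t : L))‖ := by
    refine lt_of_le_of_ne (norm_nonneg _) fun h => ?_
    rw [← h, mul_zero] at hval
    linarith
  obtain ⟨N, hN, a, ha⟩ := key A hA (by omega) hA0
  obtain ⟨N', hN', b, hb⟩ := key B hB (by omega) hB0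
  refine hfree2 (N * N') (Nat.mul_pos hN hN') (a ^ N' * b ^ N) ?_
  rw [map_mul, map_pow, map_pow, ha, hb, ← hval, mul_pow, ← pow_mul, ← pow_mul, mul_comm N' N]

end TDC
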