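import Pool.Agent.TDC.St2

/-! TDC, module KeyE: key polynomials exist. -/

set_option autoImplicit false

namespace TDC

open Polynomial

private theorem KeyE_not_free {K M : Type} [NormedField K] [Field M] {φ : K →+* M} (z : Pt φ)
    {r : ℝ} (hr : 0 < r) (h : ¬ Free z r) : ∃ N : ℕ, 0 < N ∧ ∃ a : M, z.v a = r ^ N := by
  unfold Free at h
  push Not at h
  exact h hr

private theorem KeyE_mul {K M : Type} [NormedField K] [Field M] {φ : K →+* M} (z : Pt φ)
    {r : ℝ} (h : Free z r) {c : M} (hc : c ≠ 0) : Free z (r * z.v c) := by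
  refine ⟨mul_pos h.1 (z.v.pos hc), fun N hN a ha => h.2 N hN (a / c ^ N) ?_⟩
  have hcN : z.v c ^ N ≠ 0 := pow_ne_zero _ (z.v.pos hc).ne'
  rw [map_div₀, map_pow, ha, mul_pow]
  field_simp

theorem thm_KeyE : St_KeyE := by
  intro K L' L _ _ _ _ _ _ _ t ht x f hf
  classical
  have hvt : ∀ c : L', x.v (algebraMap L' L c) = (res L' x).v c := fun c => rfl
  -- some polynomial has a free value
  have hex : ∃ n : ℕ, ∃ P : L'[X], P.natDegree = n ∧ Free (res L' x) (x.v (aeval (t : L) P)) := by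
    obtain ⟨P, Q, hQ, hPQ⟩ := ht.2 (f : L)
    by_contra hno
    push Not at hno
    have hQpos : 0 < x.v (aeval (t : L) Q) := x.v.pos hQ
    have hPeq : x.v (aeval (t : L) P) = x.v (f : L) * x.v (aeval (t : L) Q) := by
      rw [← hPQ, map_mul]
    have hPpos : 0 < x.v (aeval (t : L) P) := by
      rw [hPeq]; exact mul_pos hf.1 hQpos
    obtain ⟨N, hN, a, ha⟩ := KeyE_not_free _ hQpos (hno _ Q rfl)
    obtain ⟨m, hm, b, hb⟩ := KeyE_not_free _ hPpos (hno _ P rfl)
    refine hf.2 (N * m) (Nat.mul_pos hN hm) (b ^ N / a ^ m) ?_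
    rw [map_div₀, map_pow, map_pow, ha, hb, hPeq]
    have h1 : x.v (aeval (t : L) Q) ^ (N * m) ≠ 0 := pow_ne_zero _ hQpos.ne'
    rw [← pow_mul, ← pow_mul, mul_comm m N, mul_pow, mul_div_assoc, div_self h1, mul_one]
  obtain ⟨P, hPn, hPf⟩ := Nat.find_spec hex
  have hmin : ∀ P' : L'[X], P'.natDegree < P.natDegree →
      ¬ Free (res L' x) (x.v (aeval (t : L) P')) := by
    intro P' hP' hfree
    rw [hPn] at hP'
    exact Nat.find_min hex hP' ⟨P', rfl, hfree⟩
  have hP0 : P ≠ 0 := by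
    rintro rfl
    have := hPf.1
    simp at this
  have hlc : P.leadingCoeff ≠ 0 := leadingCoeff_ne_zero.mpr hP0
  have hmon : (P * C P.leadingCoeff⁻¹).Monic := monic_mul_leadingCoeff_inv hP0
  have hdeg : (P * C P.leadingCoeff⁻¹).natDegree = P.natDegree :=
    natDegree_mul_C (inv_ne_zero hlc)
  have hfree : Free (res L' x) (x.v (aeval (t : L) (P * C P.leadingCoeff⁻¹))) := by
    rw [map_mul, map_mul, aeval_C, hvt]
    exact KeyE_mul _ hPf (inv_ne_zero hlc)
  refine ⟨P * C P.leadingCoeff⁻¹, ⟨hmon, hfree, fun P' hP' => hmin P' (hdeg ▸ hP')⟩, ?_⟩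
  by_contra h0
  have h1 : (P * C P.leadingCoeff⁻¹) = 1 :=
    eq_one_of_monic_natDegree_zero hmon (Nat.eq_zero_of_not_pos h0)
  rw [h1, map_one, map_one] at hfree
  exact hfree.2 1 one_pos 1 (by simp)

end TDC
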