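import Pool.Agent.TDC.St
import Pool.Agent.TDC.St3

set_option autoImplicit false

/-!
# LoPu: the local push
-/

namespace TDC

open scoped Topology
open MeasureTheory Polynomial

section abs

variable {M : Type} [Field M] (v : AbsoluteValue M ℝ) (na : ∀ a b, v (a + b) ≤ max (v a) (v b))

include na

private theorem LoPu_add {a b : M} (h : v a < v b) : v (a + b) = v b := by
  apply le_antisymm
  · exact (na a b).trans (max_le h.le le_rfl)
  · have h1 := na (a + b) (-a)
    rw [add_neg_cancel_comm, v.map_neg] at h1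
    rcases le_max_iff.mp h1 with h2 | h2
    · exact h2
    · exact absurd h2 (not_le.mpr h)

private theorem LoPu_sumlt {ι : Type} (s : Finset ι) (f : ι → M) {B : ℝ} (hB : 0 < B)
    (h : ∀ i ∈ s, v (f i) < B) : v (∑ i ∈ s, f i) < B := by
  classical
  induction s using Finset.induction_on with
  | empty => simpa using hB
  | insert a s ha ih =>
    rw [Finset.sum_insert ha]
    refine lt_of_le_of_lt (na _ _) (max_lt (h a (Finset.mem_insert_self a s)) (ih ?_))
    intro i hi
    exact h i (Finset.mem_insert_of_mem hi)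

private theorem LoPu_sumle {ι : Type} (s : Finset ι) (f : ι → M) {B : ℝ} (hB : 0 ≤ B)
    (h : ∀ i ∈ s, v (f i) ≤ B) : v (∑ i ∈ s, f i) ≤ B := by
  classical
  induction s using Finset.induction_on with
  | empty => simpa using hB
  | insert a s ha ih =>
    rw [Finset.sum_insert ha]
    refine (na _ _).trans (max_le (h a (Finset.mem_insert_self a s)) (ih ?_))
    intro i hi
    exact h i (Finset.mem_insert_of_mem hi)

/-- the top term dominates -/
private theorem LoPu_top (c : ℕ → M) (t : M) (d : ℕ) (hc : c d = 1) (ht : 0 < v t)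
    (h : ∀ j < d, v (c j) * v t ^ j < v t ^ d) :
    v (∑ j ∈ Finset.range (d + 1), c j * t ^ j) = v t ^ d := by
  have h1 : v (∑ j ∈ Finset.range d, c j * t ^ j) < v t ^ d := by
    apply LoPu_sumlt v na _ _ (by positivity)
    intro j hj
    rw [v.map_mul, map_pow]
    exact h j (Finset.mem_range.mp hj)
  rw [Finset.sum_range_succ, hc, one_mul]
  have h2 : v (t ^ d) = v t ^ d := map_pow _ _ _
  rw [← h2] at h1
  rw [LoPu_add v na h1, h2]

private theorem LoPu_lt (c : ℕ → M) (t : M) (d : ℕ) (hc : c d = 1) {B : ℝ} (hB : 0 < B)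
    (h : ∀ j < d, v (c j) * v t ^ j < B) (ht : v t ^ d < B) :
    v (∑ j ∈ Finset.range (d + 1), c j * t ^ j) < B := by
  apply LoPu_sumlt v na _ _ hB
  intro j hj
  rw [v.map_mul, map_pow]
  rcases Nat.lt_succ_iff_lt_or_eq.mp (Finset.mem_range.mp hj) with h1 | h1
  · exact h j h1
  · rw [h1, hc, v.map_one, one_mul]
    exact ht

private theorem LoPu_le (c : ℕ → M) (t : M) (d : ℕ) (hc : c d = 1) {B : ℝ} (hB : 0 ≤ B)
    (h : ∀ j < d, v (c j) * v t ^ j ≤ B) (ht : v t ^ d ≤ B) :
    v (∑ j ∈ Finset.range (d + 1), c j * t ^ j) ≤ B := by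
  apply LoPu_sumle v na _ _ hB
  intro j hj
  rw [v.map_mul, map_pow]
  rcases Nat.lt_succ_iff_lt_or_eq.mp (Finset.mem_range.mp hj) with h1 | h1
  · exact h j h1
  · rw [h1, hc, v.map_one, one_mul]
    exact ht

/-- the constant term dominates -/
private theorem LoPu_bot (c : ℕ → M) (t : M) (d : ℕ) (hc : c d = 1) (h0 : 0 < v (c 0))
    (h : ∀ j < d, 0 < j → v (c j) * v t ^ j < v (c 0)) (ht : v t ^ d < v (c 0)) :
    v (∑ j ∈ Finset.range (d + 1), c j * t ^ j) = v (c 0) := by
  have h1 : v (∑ j ∈ Finset.range d, c (j + 1) * t ^ (j + 1)) < v (c 0) := by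
    apply LoPu_sumlt v na _ _ h0
    intro j hj
    rw [v.map_mul, map_pow]
    rcases Nat.lt_or_eq_of_le (Nat.succ_le_of_lt (Finset.mem_range.mp hj)) with h1 | h1
    · exact h (j + 1) h1 (Nat.succ_pos j)
    · have h2 : j + 1 = d := h1
      rw [h2, hc, v.map_one, one_mul]
      exact ht
  rw [Finset.sum_range_succ', pow_zero, mul_one]
  exact LoPu_add v na h1

end abs

section top

variable {K M : Type} [NormedField K] [Field M] {φ : K →+* M} {R n : ℕ}

private theorem LoPu_cont (c : M) : Continuous fun z : Pt φ => z.v c :=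
  (continuous_apply c).comp continuous_induced_dom

private theorem LoPu_logv (F : Fin R → Mˣ) : Continuous fun z : Pt φ => logv z F := by
  rw [continuous_pi_iff]
  intro i
  refine (LoPu_cont (φ := φ) ((F i : Mˣ) : M)).log ?_
  intro z
  exact z.v.ne_zero (F i).ne_zero

/-- the choice of the radius -/
private theorem LoPu_rho (h2 : St_Shri) (h3 : St_IndG) {K L' : Type} [NormedField K] [Field L']
    [Algebra K L'] {m R : ℕ} (htr : TrLe K L' m) (z : Pt (algebraMap K L')) (g' : Fin m → L'ˣ)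
    (F₀ : Fin R → L'ˣ) (χ' : (Fin R → ℝ) → ℝ) (hsel : Sel z F₀ g' χ')
    (N : Set (Pt (algebraMap K L'))) (hN : IsOpen N) (hz : z ∈ N) :
    ∃ ρ : ℝ, 0 < ρ ∧ Clean (algebraMap K L') F₀ g' χ' (Metric.ball (logv z g') ρ) ∧
      ∀ z' : Pt (algebraMap K L'), Indep z' g' → logv z' g' ∈ Metric.ball (logv z g') ρ →
        χ' (logv z' F₀) ≠ 0 → z' ∈ N := by
  obtain ⟨⟨ρ₁, hρ₁, hcl⟩, -, -, huni⟩ := hsel
  have hopen : IsOpen (N ∪ {z' | ∀ᶠ z'' in 𝓝 z', χ' (logv z'' F₀) = 0}) :=
    hN.union (isOpen_setOfPred_eventually_nhds)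
  obtain ⟨δ, hδ, hδ2⟩ := h2 K L' m htr g' (logv z g')
    (N ∪ {z' | ∀ᶠ z'' in 𝓝 z', χ' (logv z'' F₀) = 0}) hopen (by
    intro y hy hyz
    by_cases h0 : χ' (logv y F₀) = 0
    · right
      rcases hcl.2 y hy (by rw [hyz]; exact Metric.mem_ball_self hρ₁) with h | h
      · exact (LoPu_logv F₀).continuousAt.eventually h
      · have h1 := h.self_of_nhds
        rw [h0] at h1
        exact absurd h1 (by norm_num)
    · left
      rw [huni y hy hyz h0]
      exact hz)
  refine ⟨min ρ₁ δ, lt_min hρ₁ hδ, ⟨hcl.1, fun w hw hw2 => hcl.2 w hw ?_⟩, ?_⟩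
  · exact Metric.ball_subset_ball (min_le_left _ _) hw2
  · intro z' hz' hb hne
    rcases hδ2 z' (h3 K L' _ m z' g' hz') (Metric.ball_subset_ball (min_le_right _ _) hb) with h | h
    · exact h
    · exact absurd h.self_of_nhds hne

end top

section tower

variable {K L' L : Type} [NormedField K] [Field L'] [Field L] [Algebra K L'] [Algebra K L]
  [Algebra L' L] [IsScalarTower K L' L]

private theorem LoPu_prod (y : Pt (algebraMap K L)) {m : ℕ} (g' : Fin m → L'ˣ) (q : Lˣ)
    (k : Fin (m + 1) → ℤ) :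
    y.v ((∏ i, (Fin.snoc (α := fun _ => Lˣ) (up L g') q : Fin (m + 1) → Lˣ) i ^ k i : Lˣ) : L) =
      (res L' y).v ((∏ i, g' i ^ k (Fin.castSucc i) : L'ˣ) : L') * y.v q ^ k (Fin.last m) := by
  rw [Fin.prod_univ_castSucc]
  simp only [Fin.snoc_castSucc, Fin.snoc_last]
  rw [Units.val_mul, y.v.map_mul, Units.val_zpow_eq_zpow_val, map_zpow₀]
  congr 1
  have h1 : (∏ i : Fin m, up L g' i ^ k (Fin.castSucc i) : Lˣ) =
      Units.map (algebraMap L' L).toMonoidHom (∏ i, g' i ^ k (Fin.castSucc i)) := by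
    rw [map_prod]
    refine Finset.prod_congr rfl fun i _ => ?_
    rw [map_zpow]
    rfl
  rw [h1]
  rfl

private theorem LoPu_ind (y : Pt (algebraMap K L)) {m : ℕ} (g' : Fin m → L'ˣ) (q : Lˣ)
    (h : Indep y (Fin.snoc (α := fun _ => Lˣ) (up L g') q)) : Indep (res L' y) g' := by
  rintro k ⟨a, ha⟩
  have h1 := h (Fin.snoc (α := fun _ => ℤ) k 0) ⟨a, by
    rw [LoPu_prod]
    simp only [Fin.snoc_castSucc, Fin.snoc_last, zpow_zero, mul_one]
    exact ha⟩
  funext i
  have h2 := congrFun h1 (Fin.castSucc i)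
  rw [Fin.snoc_castSucc] at h2
  exact h2

/-- a value of `L'` is dependent -/
private theorem LoPu_dep (h3 : St_IndG) {m : ℕ} (htr : TrLe K L' m) (y : Pt (algebraMap K L))
    (g' : Fin m → L'ˣ) (q : Lˣ) (h : Indep y (Fin.snoc (α := fun _ => Lˣ) (up L g') q))
    (c : L'ˣ) (hc : y.v q = (res L' y).v c) : False := by
  have hni : ¬ Indep (res L' y) (Fin.snoc (α := fun _ => L'ˣ) g' c) := by
    intro hi
    have hg := h3 K L' _ (m + 1) (res L' y) _ hi
    refine htr (fun i => ((Fin.snoc (α := fun _ => L'ˣ) g' c : Fin (m + 1) → L'ˣ) i : L')) ?_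
    rw [algebraicIndependent_iff]
    intro P hP
    by_contra hne
    obtain ⟨e, he⟩ := MvPolynomial.ne_zero_iff.mp hne
    have h1 := hg P e
    have h2 : P.eval₂ (algebraMap K L') (fun i =>
        (((Fin.snoc (α := fun _ => L'ˣ) g' c : Fin (m + 1) → L'ˣ) i : L'ˣ) : L')) = 0 := hP
    rw [h2, (res L' y).v.map_zero] at h1
    have h3 : 0 < ‖P.coeff e‖ * ∏ i, (res L' y).v
        (((Fin.snoc (α := fun _ => L'ˣ) g' c : Fin (m + 1) → L'ˣ) i : L'ˣ) : L') ^ e i := by
      refine mul_pos (norm_pos_iff.mpr he) (Finset.prod_pos fun i _ => pow_pos ?_ _)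
      exact (res L' y).v.pos (Units.ne_zero _)
    exact absurd h1 (not_le.mpr h3)
  apply hni
  rintro k ⟨a, ha⟩
  apply h k
  refine ⟨a, ?_⟩
  rw [LoPu_prod, hc, ha, Fin.prod_univ_castSucc]
  simp only [Fin.snoc_castSucc, Fin.snoc_last]
  rw [Units.val_mul, (res L' y).v.map_mul, Units.val_zpow_eq_zpow_val, map_zpow₀]

omit [Algebra K L'] [IsScalarTower K L' L] in
private theorem LoPu_q (y : Pt (algebraMap K L)) (t q : L) (Q : L'[X])
    (hq : q = aeval t Q) :
    y.v q = y.v (∑ j ∈ Finset.range (Q.natDegree + 1), algebraMap L' L (Q.coeff j) * t ^ j) := by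
  rw [hq, aeval_eq_sum_range]
  simp only [Algebra.smul_def]

end tower

/-- numbers -/
private theorem LoPu_num {d : ℕ} (hd : 0 < d) {lam τ ε : ℝ} (hε : 0 < ε) (h : lam ≤ τ) :
    ∃ e e₁ : ℝ, 0 < e ∧ e ≤ ε / 3 ∧ d * e ≤ ε ∧ 0 < e₁ ∧
      ((lam < τ ∧ d * (lam + e) < d * τ - e₁ ∧ e₁ ≤ d * ε) ∨ lam = τ) := by
  have hd1 : (1 : ℝ) ≤ d := by exact_mod_cast hd
  have hd0 : (0 : ℝ) < d := by linarith
  rcases h.lt_or_eq with h | h
  · have hΔ : 0 < τ - lam := by linarith
    refine ⟨min (ε / (3 * d)) ((τ - lam) / 3), min (d * (τ - lam) / 3) (d * ε),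
      lt_min (by positivity) (by positivity), ?_, ?_, lt_min (by positivity) (by positivity),
      Or.inl ⟨h, ?_, min_le_right _ _⟩⟩
    · refine (min_le_left _ _).trans ?_
      rw [div_le_div_iff₀ (by positivity) (by positivity)]
      nlinarith
    · have h1 : d * min (ε / (3 * d)) ((τ - lam) / 3) ≤ d * (ε / (3 * d)) :=
        mul_le_mul_of_nonneg_left (min_le_left _ _) hd0.le
      have h2 : d * (ε / (3 * d)) = ε / 3 := by field_simp
      linarith
    · have h1 : (d : ℝ) * min (ε / (3 * d)) ((τ - lam) / 3) ≤ d * ((τ - lam) / 3) :=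
        mul_le_mul_of_nonneg_left (min_le_right _ _) hd0.le
      have h2 : min (d * (τ - lam) / 3) (d * ε) ≤ d * (τ - lam) / 3 := min_le_left _ _
      have h3 : 0 < d * (τ - lam) := by positivity
      nlinarith
  · refine ⟨ε / (3 * d), 1, by positivity, ?_, ?_, one_pos, Or.inr h⟩
    · rw [div_le_div_iff₀ (by positivity) (by positivity)]
      nlinarith
    · have h2 : d * (ε / (3 * d)) = ε / 3 := by field_simp
      linarith

theorem thm_LoPu (h1 : St_Newt) (h2 : St_Shri) (h3 : St_IndG) : St_LoPu := by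
  intro K L' L _ _ _ _ _ _ _ t hrat m R htr x g' F₀ χ' Q q hind hsel hkey hd hq N hN hzN ε hε
  have hN1 := h1 K L' L t hrat x Q hkey hd
  obtain ⟨hmon, hfree, -⟩ := hkey
  obtain ⟨d, hdd⟩ : ∃ d, d = Q.natDegree := ⟨_, rfl⟩
  rw [← hdd] at hd hN1 ⊢
  have hcd : algebraMap L' L (Q.coeff d) = 1 := by
    rw [hdd, hmon.coeff_natDegree, map_one]
  have hd1 : (1 : ℝ) ≤ d := by exact_mod_cast hd
  have hd0 : (0 : ℝ) < d := by linarith
  have hq' : ∀ y : Pt (algebraMap K L), y.v q =
      y.v (∑ j ∈ Finset.range (d + 1), algebraMap L' L (Q.coeff j) * (t : L) ^ j) := by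
    intro y
    rw [hdd]
    exact LoPu_q y t q Q hq
  have htp : ∀ y : Pt (algebraMap K L), 0 < y.v t := fun y => y.v.pos t.ne_zero
  have hqp : ∀ y : Pt (algebraMap K L), 0 < y.v q := fun y => y.v.pos q.ne_zero
  by_cases hc0 : Q.coeff 0 = 0
  · -- the trivial case
    have hcj : ∀ j < d, Q.coeff j = 0 := by
      intro j hj
      have h4 := hN1 j hj
      rw [hc0, (res L' x).v.map_zero, zero_pow (by omega)] at h4
      have h5 := pow_eq_zero_iff (by omega : d ≠ 0) |>.mp
        (le_antisymm h4 (pow_nonneg ((res L' x).v.nonneg _) _))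
      exact (res L' x).v.eq_zero.mp h5
    have hqt : ∀ y : Pt (algebraMap K L), y.v q = y.v t ^ d := by
      intro y
      rw [hq']
      apply LoPu_top y.v y.na (fun j => algebraMap L' L (Q.coeff j)) t d hcd (htp y)
      intro j hj
      show y.v (algebraMap L' L (Q.coeff j)) * _ < _
      rw [hcj j hj, map_zero, y.v.map_zero, zero_mul]
      exact pow_pos (htp y) _
    have hlog : ∀ y : Pt (algebraMap K L), Real.log (y.v q) = d * Real.log (y.v t) := by
      intro y
      rw [hqt, Real.log_pow]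
    obtain ⟨ρ, hρ, hcl, hρN⟩ := LoPu_rho h2 h3 htr (res L' x) g' F₀ χ' hsel N hN hzN
    refine ⟨ρ, d * (Real.log (x.v t) - ε), d * (Real.log (x.v t) + ε),
      d * (Real.log (x.v t) - ε / 2), d * (Real.log (x.v t) + ε / 2), hρ, ?_, ?_, ?_, ?_, ?_, hcl,
      hρN, ?_, ?_, ?_, ?_⟩
    · rw [hlog]
      nlinarith
    · rw [hlog]
      nlinarith
    · nlinarith
    · nlinarith
    · nlinarith
    · intro y _ _ hlo hhi _
      rw [hlog] at hlo hhi
      rw [abs_lt]
      constructor
      · have := lt_of_mul_lt_mul_left hlo hd0.le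
        linarith
      · have := lt_of_mul_lt_mul_left hhi hd0.le
        linarith
    · intro y _ _ _ _
      exact hqt y
    · nlinarith
    · nlinarith
  -- the main case
  have hv0 : 0 < (res L' x).v (Q.coeff 0) := (res L' x).v.pos hc0
  obtain ⟨A0, hA0⟩ : ∃ A0 : ℝ, A0 = (res L' x).v (Q.coeff 0) ^ ((d : ℝ)⁻¹) := ⟨_, rfl⟩
  have hA0p : 0 < A0 := by rw [hA0]; exact Real.rpow_pos_of_pos hv0 _
  have hA0d : A0 ^ d = (res L' x).v (Q.coeff 0) := by
    rw [hA0]
    exact Real.rpow_inv_natCast_pow hv0.le (by omega)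
  have hcj : ∀ j < d, (res L' x).v (Q.coeff j) ≤ A0 ^ (d - j) := by
    intro j hj
    have h4 := hN1 j hj
    rw [← hA0d, ← pow_mul, mul_comm, pow_mul] at h4
    exact (pow_le_pow_iff_left₀ ((res L' x).v.nonneg _) (by positivity) (by omega)).mp h4
  have hcjx : ∀ j < d, x.v (algebraMap L' L (Q.coeff j)) ≤ A0 ^ (d - j) := hcj
  -- facts at x
  have hT0 : A0 ≤ x.v t := by
    by_contra hlt
    rw [not_le] at hlt
    have h4 : x.v q = (res L' x).v (Q.coeff 0) := by
      rw [hq']
      apply LoPu_bot x.v x.na (fun j => algebraMap L' L (Q.coeff j)) t d hcd hv0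
      · intro j hj hj0
        show x.v (algebraMap L' L (Q.coeff j)) * x.v t ^ j < (res L' x).v (Q.coeff 0)
        rw [← hA0d]
        calc x.v (algebraMap L' L (Q.coeff j)) * x.v t ^ j ≤ A0 ^ (d - j) * x.v t ^ j :=
              mul_le_mul_of_nonneg_right (hcjx j hj) (pow_nonneg (htp x).le _)
          _ < A0 ^ (d - j) * A0 ^ j := by
              apply mul_lt_mul_of_pos_left _ (by positivity)
              exact pow_lt_pow_left₀ hlt (htp x).le (by omega)
          _ = A0 ^ d := by rw [← pow_add, Nat.sub_add_cancel hj.le]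
      · show x.v t ^ d < (res L' x).v (Q.coeff 0)
        rw [← hA0d]
        exact pow_lt_pow_left₀ hlt (htp x).le (by omega)
    have h5 := hfree.2 1 one_pos (Q.coeff 0)
    rw [pow_one, ← hq] at h5
    exact h5 h4.symm
  have hqx : x.v q ≤ x.v t ^ d := by
    rw [hq']
    apply LoPu_le x.v x.na (fun j => algebraMap L' L (Q.coeff j)) t d hcd (by positivity)
    · intro j hj
      show x.v (algebraMap L' L (Q.coeff j)) * x.v t ^ j ≤ x.v t ^ d
      calc x.v (algebraMap L' L (Q.coeff j)) * x.v t ^ j ≤ A0 ^ (d - j) * x.v t ^ j :=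
            mul_le_mul_of_nonneg_right (hcjx j hj) (pow_nonneg (htp x).le _)
        _ ≤ x.v t ^ (d - j) * x.v t ^ j :=
            mul_le_mul_of_nonneg_right (pow_le_pow_left₀ hA0p.le hT0 _) (pow_nonneg (htp x).le _)
        _ = x.v t ^ d := by rw [← pow_add, Nat.sub_add_cancel hj.le]
    · exact le_rfl
  have hqx' : A0 < x.v t → x.v q = x.v t ^ d := by
    intro hlt
    rw [hq']
    apply LoPu_top x.v x.na (fun j => algebraMap L' L (Q.coeff j)) t d hcd (htp x)
    intro j hj
    show x.v (algebraMap L' L (Q.coeff j)) * x.v t ^ j < x.v t ^ d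
    calc x.v (algebraMap L' L (Q.coeff j)) * x.v t ^ j ≤ A0 ^ (d - j) * x.v t ^ j :=
          mul_le_mul_of_nonneg_right (hcjx j hj) (pow_nonneg (htp x).le _)
      _ < x.v t ^ (d - j) * x.v t ^ j :=
          mul_lt_mul_of_pos_right (pow_lt_pow_left₀ hlt hA0p.le (by omega)) (pow_pos (htp x) _)
      _ = x.v t ^ d := by rw [← pow_add, Nat.sub_add_cancel hj.le]
  obtain ⟨lam, hlam⟩ : ∃ lam : ℝ, lam = Real.log A0 := ⟨_, rfl⟩
  obtain ⟨τ, hτ⟩ : ∃ τ : ℝ, τ = Real.log (x.v t) := ⟨_, rfl⟩
  have hlt : lam ≤ τ := by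
    rw [hlam, hτ]
    exact Real.log_le_log hA0p hT0
  have hσ : Real.log (x.v q) ≤ d * τ := by
    rw [hτ, ← Real.log_pow]
    exact Real.log_le_log (hqp x) hqx
  obtain ⟨e, e₁, he, he3, hde, he₁, hcase⟩ := LoPu_num hd hε hlt
  obtain ⟨A, hA⟩ : ∃ A : ℝ, A = A0 * Real.exp e := ⟨_, rfl⟩
  have hexp1 : 1 < Real.exp e := Real.one_lt_exp_iff.mpr he
  have hAp : 0 < A := by rw [hA]; positivity
  have hA0A : A0 < A := by
    rw [hA]
    nlinarith
  have hlogA : Real.log A = lam + e := by
    rw [hA, Real.log_mul hA0p.ne' (Real.exp_pos _).ne', Real.log_exp, hlam]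
  -- the neighbourhood
  obtain ⟨N', hN'⟩ : ∃ N' : Set (Pt (algebraMap K L')), N' =
      (N ∩ ⋂ j ∈ Finset.range d, {z' | z'.v (Q.coeff j) < A ^ (d - j)}) ∩
        {z' | A0 ^ d * Real.exp (-e) < z'.v (Q.coeff 0)} := ⟨_, rfl⟩
  have hN'o : IsOpen N' := by
    rw [hN']
    refine (hN.inter (isOpen_biInter_finset fun j _ => ?_)).inter ?_
    · exact isOpen_lt (LoPu_cont _) continuous_const
    · exact isOpen_lt continuous_const (LoPu_cont _)
  have hzN' : res L' x ∈ N' := by
    rw [hN']
    refine ⟨⟨hzN, ?_⟩, ?_⟩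
    · rw [Set.mem_iInter₂]
      intro j hj
      have hj' := Finset.mem_range.mp hj
      exact lt_of_le_of_lt (hcj j hj') (pow_lt_pow_left₀ hA0A hA0p.le (by omega))
    · show A0 ^ d * Real.exp (-e) < (res L' x).v (Q.coeff 0)
      rw [← hA0d]
      have h4 : Real.exp (-e) < 1 := Real.exp_lt_one_iff.mpr (by linarith)
      have h5 : 0 < A0 ^ d := by positivity
      nlinarith
  obtain ⟨ρ, hρ, hcl, hρN⟩ := LoPu_rho h2 h3 htr (res L' x) g' F₀ χ' hsel N' hN'o hzN'
  have hNc : ∀ z' ∈ N', ∀ j < d, z'.v (Q.coeff j) < A ^ (d - j) := by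
    intro z' hz' j hj
    rw [hN'] at hz'
    have h4 := hz'.1.2
    rw [Set.mem_iInter₂] at h4
    exact h4 j (Finset.mem_range.mpr hj)
  have hN0 : ∀ z' ∈ N', A0 ^ d * Real.exp (-e) < z'.v (Q.coeff 0) := by
    intro z' hz'
    rw [hN'] at hz'
    exact hz'.2
  -- case (i)
  have hci : ∀ y : Pt (algebraMap K L), res L' y ∈ N' → A ≤ y.v t → y.v q = y.v t ^ d := by
    intro y hy hA'
    rw [hq']
    apply LoPu_top y.v y.na (fun j => algebraMap L' L (Q.coeff j)) t d hcd (htp y)
    intro j hj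
    have h4 : y.v (algebraMap L' L (Q.coeff j)) < A ^ (d - j) := hNc _ hy j hj
    calc y.v (algebraMap L' L (Q.coeff j)) * y.v t ^ j < A ^ (d - j) * y.v t ^ j :=
          mul_lt_mul_of_pos_right h4 (pow_pos (htp y) _)
      _ ≤ y.v t ^ (d - j) * y.v t ^ j :=
          mul_le_mul_of_nonneg_right (pow_le_pow_left₀ hAp.le hA' _) (pow_nonneg (htp y).le _)
      _ = y.v t ^ d := by rw [← pow_add, Nat.sub_add_cancel hj.le]
  -- case (ii)
  have hcii : ∀ y : Pt (algebraMap K L), res L' y ∈ N' → y.v t < A →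
      Real.log (y.v q) < d * (lam + e) := by
    intro y hy hA'
    have h5 : y.v q < A ^ d := by
      rw [hq']
      apply LoPu_lt y.v y.na (fun j => algebraMap L' L (Q.coeff j)) t d hcd (by positivity)
      · intro j hj
        have h4 : y.v (algebraMap L' L (Q.coeff j)) < A ^ (d - j) := hNc _ hy j hj
        calc y.v (algebraMap L' L (Q.coeff j)) * y.v t ^ j
            ≤ y.v (algebraMap L' L (Q.coeff j)) * A ^ j :=
              mul_le_mul_of_nonneg_left (pow_le_pow_left₀ (htp y).le hA'.le _) (y.v.nonneg _)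
          _ < A ^ (d - j) * A ^ j := mul_lt_mul_of_pos_right h4 (by positivity)
          _ = A ^ d := by rw [← pow_add, Nat.sub_add_cancel hj.le]
      · exact pow_lt_pow_left₀ hA' (htp y).le (by omega)
    have h6 := Real.log_lt_log (hqp y) h5
    rw [Real.log_pow, hlogA] at h6
    exact h6
  have hA' : ∀ y : Pt (algebraMap K L), lam + e ≤ Real.log (y.v t) → A ≤ y.v t := by
    intro y hy
    rw [← hlogA] at hy
    exact (Real.log_le_log_iff hAp (htp y)).mp hy
  refine ⟨ρ, Real.log (x.v q) - e₁, d * (τ + ε), d * (τ + ε / 3), d * (τ + 2 * ε / 3), hρ,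
    by linarith, ?_, ?_, ?_, ?_, hcl, fun z' h4 h5 h6 => ?_, ?_, ?_, ?_, ?_⟩
  · nlinarith
  · nlinarith
  · nlinarith
  · nlinarith
  · have h7 := hρN z' h4 h5 h6
    rw [hN'] at h7
    exact h7.1.1
  · intro y hy hb hlo hhi hne
    have hyN := hρN (res L' y) (LoPu_ind y g' q hy) hb hne
    rw [← hτ, abs_lt]
    constructor
    · -- lower bound
      by_contra hcon
      rw [not_lt] at hcon
      have hTle : Real.log (y.v t) ≤ τ - ε := by linarith
      rcases hcase with ⟨hl, hl2, hl3⟩ | hl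
      · -- the top term dominates at x
        have hlt' : A0 < x.v t := by
          rw [hlam, hτ] at hl
          exact (Real.log_lt_log_iff hA0p (htp x)).mp hl
        have h5 : Real.log (x.v q) = d * τ := by
          rw [hqx' hlt', Real.log_pow, hτ]
        rcases lt_or_ge (y.v t) A with h6 | h6
        · have h7 := hcii y hyN h6
          linarith
        · have h7 : Real.log (y.v q) = d * Real.log (y.v t) := by
            rw [hci y hyN h6, Real.log_pow]
          nlinarith
      · -- the constant term dominates at y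
        have hT : y.v t ≤ A0 * Real.exp (-ε) := by
          have h5 : Real.log (y.v t) ≤ Real.log (A0 * Real.exp (-ε)) := by
            rw [Real.log_mul hA0p.ne' (Real.exp_pos _).ne', Real.log_exp, ← hlam, hl]
            linarith
          exact (Real.log_le_log_iff (htp y) (by positivity)).mp h5
        have hc0y : 0 < (res L' y).v (Q.coeff 0) := (res L' y).v.pos hc0
        have hbase := hN0 _ hyN
        have h6 : y.v q = (res L' y).v (Q.coeff 0) := by
          rw [hq']
          apply LoPu_bot y.v y.na (fun j => algebraMap L' L (Q.coeff j)) t d hcd hc0y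
          · intro j hj hj0
            have h4 : y.v (algebraMap L' L (Q.coeff j)) < A ^ (d - j) := hNc _ hyN j hj
            refine lt_of_lt_of_le ?_ hbase.le
            calc y.v (algebraMap L' L (Q.coeff j)) * y.v t ^ j < A ^ (d - j) * y.v t ^ j :=
                  mul_lt_mul_of_pos_right h4 (pow_pos (htp y) _)
              _ ≤ A ^ (d - j) * (A0 * Real.exp (-ε)) ^ j :=
                  mul_le_mul_of_nonneg_left (pow_le_pow_left₀ (htp y).le hT _) (by positivity)
              _ = A0 ^ d * Real.exp (((d - j : ℕ) : ℝ) * e + (j : ℝ) * (-ε)) := by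
                  rw [hA, mul_pow, mul_pow, Real.exp_add, Real.exp_nat_mul, Real.exp_nat_mul,
                    show A0 ^ d = A0 ^ (d - j) * A0 ^ j by
                      rw [← pow_add, Nat.sub_add_cancel hj.le]]
                  ring
              _ ≤ A0 ^ d * Real.exp (-e) := by
                  apply mul_le_mul_of_nonneg_left _ (by positivity)
                  apply Real.exp_le_exp.mpr
                  rw [Nat.cast_sub hj.le]
                  have hj1 : (1 : ℝ) ≤ j := by exact_mod_cast hj0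
                  nlinarith
          · refine lt_of_le_of_lt ?_ hbase
            calc y.v t ^ d ≤ (A0 * Real.exp (-ε)) ^ d := pow_le_pow_left₀ (htp y).le hT _
              _ = A0 ^ d * Real.exp ((d : ℝ) * (-ε)) := by
                  rw [mul_pow, Real.exp_nat_mul]
              _ ≤ A0 ^ d * Real.exp (-e) := by
                  apply mul_le_mul_of_nonneg_left _ (by positivity)
                  apply Real.exp_le_exp.mpr
                  nlinarith
        exact LoPu_dep h3 htr y g' q hy (Units.mk0 (Q.coeff 0) hc0) h6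
    · -- upper bound
      rcases lt_or_ge (y.v t) A with h6 | h6
      · have h7 := Real.log_lt_log (htp y) h6
        rw [hlogA] at h7
        linarith
      · have h7 : Real.log (y.v q) = d * Real.log (y.v t) := by
          rw [hci y hyN h6, Real.log_pow]
        rw [h7] at hhi
        have := lt_of_mul_lt_mul_left hhi hd0.le
        linarith
  · intro y hy hb hne hor
    have hyN := hρN (res L' y) hy hb hne
    rcases lt_or_ge (y.v t) A with h6 | h6
    · exfalso
      have h7 := Real.log_lt_log (htp y) h6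
      rw [hlogA] at h7
      rcases hor with ⟨h8, -⟩ | ⟨h8, -⟩
      · have h9 := hcii y hyN h6
        nlinarith
      · have h9 := lt_of_mul_lt_mul_left h8 hd0.le
        linarith
    · exact hci y hyN h6
  · rw [← hτ]
    nlinarith
  · rw [← hτ]
    nlinarith

end TDC
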