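import Pool.Agent.TDC.StT

/-!
# TDC, module Loc: the coefficients of the multi-sheet are locally constant (helper12)
-/

namespace TDC

open scoped Topology
open MeasureTheory

/-- affine maps -/
private theorem Loc_af {R n : ℕ} (k : Matrix (Fin R) (Fin n) ℝ × (Fin R → ℝ)) (c : ℝ)
    (p q r : Fin n → ℝ) : af k (c • (p - q) + r) = c • (af k p - af k q) + af k r := by
  unfold af
  rw [Matrix.mulVec_add, Matrix.mulVec_smul, Matrix.mulVec_sub]
  funext i
  simp only [Pi.add_apply, Pi.smul_apply, Pi.sub_apply, smul_eq_mul]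
  ring

private theorem Loc_cont {R n : ℕ} (k : Matrix (Fin R) (Fin n) ℝ × (Fin R → ℝ)) :
    Continuous (af k) := by
  have h : Continuous fun s : Fin n → ℝ => k.1.mulVec s :=
    (Matrix.mulVecLin k.1).continuous_of_finiteDimensional
  exact continuous_const.add h

/-- two different sheets coincide on a null set -/
private theorem Loc_null {R n : ℕ} (k l : Matrix (Fin R) (Fin n) ℝ × (Fin R → ℝ)) (h : l ≠ k) :
    volume {s : Fin n → ℝ | af l s = af k s} = 0 := by
  let S : AffineSubspace ℝ (Fin n → ℝ) :=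
    { carrier := {s : Fin n → ℝ | af l s = af k s}
      smul_vsub_vadd_mem' := by
        intro c p q r hp hq hr
        show af l (c • (p - q) + r) = af k (c • (p - q) + r)
        rw [Loc_af, Loc_af]
        rw [show af l p = af k p from hp, show af l q = af k q from hq,
          show af l r = af k r from hr] }
  have hS : S ≠ ⊤ := by
    intro hT
    apply h
    have h1 : ∀ s : Fin n → ℝ, af l s = af k s := by
      intro s
      have h2 : s ∈ (⊤ : AffineSubspace ℝ (Fin n → ℝ)) := AffineSubspace.mem_top _ _ _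
      rw [← hT] at h2
      exact h2
    have h3 : l.2 = k.2 := by
      have h4 := h1 0
      unfold af at h4
      rw [Matrix.mulVec_zero, Matrix.mulVec_zero, add_zero, add_zero] at h4
      exact h4
    have h5 : l.1 = k.1 := by
      ext i j
      have h6 := congrFun (h1 (Pi.single j 1)) i
      unfold af at h6
      rw [h3] at h6
      simpa using h6
    exact Prod.ext h5 h3
  exact Measure.addHaar_affineSubspace volume S hS

open Classical in
theorem thm_Loc : St_Loc := by
  intro R n 𝒦 𝒢 c hBal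
  obtain ⟨hnull, ⟨B, hB⟩, hloc⟩ := hBal
  choose δ hδ C hC using hloc
  have hdense : Dense 𝒢 := by
    have h1 : ∀ᵐ s : Fin n → ℝ, s ∈ 𝒢 := by
      rw [ae_iff]
      exact hnull
    exact Measure.dense_of_ae h1
  -- the open sets
  let O : Matrix (Fin R) (Fin n) ℝ × (Fin R → ℝ) → Set (Fin n → ℝ) := fun k =>
    {s | ∀ l ∈ 𝒦, af l s = af k s → l = k}
  let c' : Matrix (Fin R) (Fin n) ℝ × (Fin R → ℝ) → (Fin n → ℝ) → ℝ := fun k s =>
    if s ∈ O k then C s (af k s) else 0
  have hO : ∀ k, IsOpen (O k) := by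
    intro k
    have h1 : O k = ⋂ l ∈ 𝒦.filter (fun l => l ≠ k), {s | af l s ≠ af k s} := by
      ext s
      simp only [O, Set.mem_ofPred_eq, Set.mem_iInter, Finset.mem_filter]
      constructor
      · rintro h l ⟨h2, h3⟩ h4
        exact h3 (h l h2 h4)
      · intro h l h2 h4
        by_contra h3
        exact h l ⟨h2, h3⟩ h4
    rw [h1]
    refine isOpen_biInter_finset fun l _ => ?_
    exact isOpen_ne_fun (Loc_cont l) (Loc_cont k)
  -- the values near a point of `O k`
  have hval : ∀ k ∈ 𝒦, ∀ s₀ ∈ O k, ∀ s ∈ 𝒢, s ∈ Metric.ball s₀ (δ s₀ (af k s₀)) →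
      c k s = C s₀ (af k s₀) := by
    intro k hk s₀ hs₀ s hs hb
    have h := hC s₀ (af k s₀) s hs hb
    rw [Finset.sum_eq_single k] at h
    · exact h
    · intro l hl hlk
      exact absurd (hs₀ l (Finset.mem_filter.mp hl).1 (Finset.mem_filter.mp hl).2) hlk
    · intro hl
      exact absurd ((Finset.mem_filter (p := fun l => af l s₀ = af k s₀)).mpr ⟨hk, rfl⟩) hl
  have hself : ∀ s₀ p₀, s₀ ∈ Metric.ball s₀ (δ s₀ p₀) := fun s₀ p₀ =>
    Metric.mem_ball_self (hδ s₀ p₀)
  have hc' : ∀ k s, s ∈ O k → c' k s = C s (af k s) := fun k s hs => if_pos hs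
  have hc0 : ∀ k s, s ∉ O k → c' k s = 0 := fun k s hs => if_neg hs
  have hlocal : ∀ k ∈ 𝒦, ∀ s₀ ∈ O k, ∀ᶠ s in 𝓝 s₀, c' k s = c' k s₀ ∧ (s ∈ 𝒢 → c k s = c' k s₀) := by
    intro k hk s₀ hs₀
    have h1 : O k ∩ Metric.ball s₀ (δ s₀ (af k s₀)) ∈ 𝓝 s₀ :=
      Filter.inter_mem ((hO k).mem_nhds hs₀) (Metric.ball_mem_nhds _ (hδ _ _))
    filter_upwards [h1] with s hs
    refine ⟨?_, fun hG => ?_⟩
    · rw [hc' k s hs.1, hc' k s₀ hs₀]
      have h2 : IsOpen (Metric.ball s₀ (δ s₀ (af k s₀)) ∩ Metric.ball s (δ s (af k s))) :=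
        Metric.isOpen_ball.inter Metric.isOpen_ball
      obtain ⟨u, hu, huG⟩ := hdense.inter_open_nonempty _ h2 ⟨s, hs.2, hself _ _⟩
      rw [← hval k hk s hs.1 u huG hu.2, ← hval k hk s₀ hs₀ u huG hu.1]
    · rw [hc' k s₀ hs₀]
      exact hval k hk s₀ hs₀ s hG hs.2
  refine ⟨c', fun k hk s₀ hs₀ => hlocal k hk s₀ hs₀, fun k hk => ⟨?_, ?_⟩, |B|, ?_⟩
  · intro T _
    have h1 : c' k ⁻¹' T = (O k ∩ c' k ⁻¹' T) ∪ ((O k)ᶜ ∩ {_s | (0 : ℝ) ∈ T}) := by
      ext s
      by_cases hs : s ∈ O k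
      · simp [hs]
      · simp [hs, hc0 k s hs]
    rw [h1]
    refine MeasurableSet.union ?_ ((hO k).measurableSet.compl.inter (MeasurableSet.const _))
    refine IsOpen.measurableSet ?_
    rw [isOpen_iff_mem_nhds]
    rintro s ⟨hs, hT⟩
    filter_upwards [(hO k).mem_nhds hs, hlocal k hk s hs] with u hu hu2
    refine ⟨hu, ?_⟩
    show c' k u ∈ T
    rw [hu2.1]
    exact hT
  · have h1 : ∀ᵐ s : Fin n → ℝ, s ∈ 𝒢 := by
      rw [ae_iff]
      exact hnull
    have h2 : ∀ᵐ s : Fin n → ℝ, s ∈ O k := by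
      have h3 : ∀ᵐ s : Fin n → ℝ, ∀ l ∈ 𝒦.filter (fun l => l ≠ k), af l s ≠ af k s := by
        rw [Filter.eventually_all_finset]
        intro l hl
        rw [ae_iff]
        simp only [not_not]
        exact Loc_null k l (Finset.mem_filter.mp hl).2
      filter_upwards [h3] with s hs l hl hls
      by_contra hne
      exact hs l (Finset.mem_filter.mpr ⟨hl, hne⟩) hls
    filter_upwards [h1, h2] with s hs1 hs2
    rw [hc' k s hs2]
    exact hval k hk s hs2 s hs1 (hself _ _)
  · intro k hk s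
    by_cases hs : s ∈ O k
    · obtain ⟨u, hu, huG⟩ := hdense.inter_open_nonempty _ Metric.isOpen_ball ⟨s, hself s (af k s)⟩
      rw [hc' k s hs, ← hval k hk s hs u huG hu]
      exact (hB k hk u huG).trans (le_abs_self B)
    · rw [hc0 k s hs, abs_zero]
      exact abs_nonneg B

end TDC
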