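import Pool.Agent.TDC.St
import Pool.Agent.TDC.St2
import Pool.Agent.TDC.St3

/-!
# TDC, module LocR: the rational case, induction on the number of variables
-/

namespace TDC

open scoped Topology
open MeasureTheory Polynomial

private lemma LocR_sc_zero {n : ℕ} (V : Set (Fin n → ℝ)) : SC (fun _ => 0) V := by
  refine ⟨contDiff_const, ?_, ?_⟩
  · exact HasCompactSupport.zero
  · have h : tsupport (fun _ : Fin n → ℝ => (0 : ℝ)) = ∅ := tsupport_eq_empty_iff.mpr rfl
    rw [h]
    exact Set.empty_subset _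

private lemma LocR_sc_add {n : ℕ} {V : Set (Fin n → ℝ)} {b c : (Fin n → ℝ) → ℝ} (hb : SC b V)
    (hc : SC c V) : SC (fun u => b u + c u) V := by
  refine ⟨hb.1.add hc.1, hb.2.1.add hc.2.1, ?_⟩
  have h : tsupport (b + c) ⊆ tsupport b ∪ tsupport c := tsupport_add b c
  exact h.trans (Set.union_subset hb.2.2 hc.2.2)

private lemma LocR_sc_snoc {n : ℕ} {V : Set (Fin n → ℝ)} {V' : Set (Fin (n + 1) → ℝ)}
    {b : (Fin n → ℝ) → ℝ} {β : ℝ → ℝ} (hb : SC b V) (hβ : ContDiff ℝ (⊤ : ℕ∞) β)
    (hc : HasCompactSupport β)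
    (h : ∀ v ∈ V, ∀ τ ∈ tsupport β, (Fin.snoc (α := fun _ => ℝ) v τ : Fin (n + 1) → ℝ) ∈ V') :
    SC (fun u => b (fun i : Fin n => u i.castSucc) * β (u (Fin.last n))) V' := by
  have hcont : Continuous fun p : (Fin n → ℝ) × ℝ =>
      (Fin.snoc (α := fun _ => ℝ) p.1 p.2 : Fin (n + 1) → ℝ) := by
    refine continuous_pi fun i => ?_
    refine Fin.lastCases ?_ (fun j => ?_) i
    · simp only [Fin.snoc_last]
      exact continuous_snd
    · simp only [Fin.snoc_castSucc]
      exact (continuous_apply j).comp continuous_fst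
  have hK : IsCompact ((fun p : (Fin n → ℝ) × ℝ =>
      (Fin.snoc (α := fun _ => ℝ) p.1 p.2 : Fin (n + 1) → ℝ)) ''
        (tsupport b ×ˢ tsupport β)) := (hb.2.1.isCompact.prod hc.isCompact).image hcont
  have hsnoc : ∀ u : Fin (n + 1) → ℝ, (Fin.snoc (α := fun _ => ℝ)
      (fun i : Fin n => u i.castSucc) (u (Fin.last n)) : Fin (n + 1) → ℝ) = u :=
    fun u => Fin.snoc_init_self u
  have hz : ∀ u : Fin (n + 1) → ℝ, u ∉ ((fun p : (Fin n → ℝ) × ℝ =>
      (Fin.snoc (α := fun _ => ℝ) p.1 p.2 : Fin (n + 1) → ℝ)) ''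
        (tsupport b ×ˢ tsupport β)) →
      b (fun i : Fin n => u i.castSucc) * β (u (Fin.last n)) = 0 := by
    intro u hu
    by_contra hne
    apply hu
    refine ⟨((fun i : Fin n => u i.castSucc), u (Fin.last n)), ⟨?_, ?_⟩, hsnoc u⟩
    · exact subset_tsupport _ (left_ne_zero_of_mul hne)
    · exact subset_tsupport _ (right_ne_zero_of_mul hne)
  refine ⟨?_, HasCompactSupport.intro hK hz, ?_⟩
  · refine ContDiff.mul (hb.1.comp ?_) (hβ.comp ?_)
    · exact contDiff_pi.mpr fun i => contDiff_apply ℝ ℝ i.castSucc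
    · exact contDiff_apply ℝ ℝ (Fin.last n)
  · have h1 : tsupport (fun u : Fin (n + 1) → ℝ =>
        b (fun i : Fin n => u i.castSucc) * β (u (Fin.last n))) ⊆
        ((fun p : (Fin n → ℝ) × ℝ =>
      (Fin.snoc (α := fun _ => ℝ) p.1 p.2 : Fin (n + 1) → ℝ)) ''
        (tsupport b ×ˢ tsupport β)) := by
      refine closure_minimal ?_ hK.isClosed
      intro u hu
      by_contra hne
      exact hu (hz u hne)
    refine h1.trans ?_
    rintro _ ⟨p, ⟨hp1, hp2⟩, rfl⟩
    exact h p.1 (hb.2.2 hp1) p.2 hp2

private lemma LocR_std_add {K M : Type} [NormedField K] [Field M] {n : ℕ} (φ : K →+* M)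
    (t : Fin n → Mˣ) (b c : (Fin n → ℝ) → ℝ) :
    (std φ t fun u => b u + c u) = std φ t b + std φ t c := by
  funext x δ ε
  simp only [std, Pi.add_apply]
  ring

private lemma LocR_std_zero {K M : Type} [NormedField K] [Field M] {n : ℕ} (φ : K →+* M)
    (t : Fin n → Mˣ) : (std φ t fun _ => 0) = 0 := by
  funext x δ ε
  simp only [std, Pi.zero_apply]
  ring

private lemma LocR_tf_one {K M : Type} [NormedField K] [Field M] {n : ℕ} (φ : K →+* M) {R : ℕ}
    (F : Fin R → Mˣ) (t : Fin n → Mˣ) (b : (Fin n → ℝ) → ℝ) :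
    (tf F t (fun _ => 1) b : Fam φ n n) = std φ t b := by
  funext x δ ε
  simp only [std, tf]
  ring

/-- The case `n = 0`. -/
private lemma LocR_zero (K L : Type) [NontriviallyNormedField K] [Field L] [Algebra K L]
    (t : Fin 0 → Lˣ) (hr : RatN K L 0 t) (V : Set (Fin 0 → ℝ)) (D : TD L 0)
    (hD : D.Good (algebraMap K L) {x | logv x t ∈ V}) :
    ∃ b : (Fin 0 → ℝ) → ℝ, SC b V ∧
        D.form (algebraMap K L) - std (algebraMap K L) t b ∈
          W0 (algebraMap K L) 0 {x | logv x t ∈ V} := by
  have hsurj : ∀ f : L, ∃ a : K, algebraMap K L a = f := by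
    intro f
    have h1 : f ∈ (⊥ : IntermediateField K L) := by
      have h2 : (Set.range fun i : Fin 0 => ((t i : Lˣ) : L)) = ∅ := Set.range_eq_empty _
      have h3 := hr.2
      rw [h2, IntermediateField.adjoin_empty] at h3
      rw [h3]
      exact IntermediateField.mem_top
    exact IntermediateField.mem_bot.mp h1
  have huniq : ∀ x y : Pt (algebraMap K L), ∀ f : L, x.v f = y.v f := by
    intro x y f
    obtain ⟨a, rfl⟩ := hsurj f
    rw [x.ext, y.ext]
  have hlog : ∀ x y : Pt (algebraMap K L), logv x D.F = logv y D.F := by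
    intro x y
    funext i
    simp only [logv]
    rw [huniq x y]
  have hform : ∀ (x : Pt (algebraMap K L)) δ ε,
      D.form (algebraMap K L) x δ ε = D.χ (logv x D.F) * D.b (fun i => i.elim0) := by
    intro x δ ε
    simp only [TD.form, tf, Matrix.det_fin_zero, mul_one]
    have h1 : logv x D.g = fun i => i.elim0 := Subsingleton.elim _ _
    rw [h1]
  by_cases hex : ∃ x₀ : Pt (algebraMap K L), D.χ (logv x₀ D.F) ≠ 0
  · obtain ⟨x₀, hx₀⟩ := hex
    have hV : V = Set.univ := by
      by_contra hne
      apply hx₀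
      refine hD.2.2 x₀ ?_ ?_ ?_
      · intro hmem
        apply hne
        ext u
        have h1 : u = logv x₀ t := Subsingleton.elim _ _
        rw [h1]
        exact ⟨fun _ => Set.mem_univ _, fun _ => hmem⟩
      · intro k _
        exact Subsingleton.elim _ _
      · intro i _
        exact i.elim0
    refine ⟨fun _ => D.χ (logv x₀ D.F) * D.b (fun i => i.elim0), ⟨contDiff_const, ?_, ?_⟩, ?_⟩
    · exact HasCompactSupport.of_compactSpace _
    · rw [hV]
      exact Set.subset_univ _
    · have h1 : D.form (algebraMap K L) - std (algebraMap K L) t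
          (fun _ => D.χ (logv x₀ D.F) * D.b (fun i => i.elim0)) = 0 := by
        funext x δ ε
        simp only [Pi.sub_apply, Pi.zero_apply]
        rw [hform, hlog x x₀]
        simp only [std, Matrix.det_fin_zero, mul_one]
        ring
      rw [h1]
      exact Submodule.zero_mem _
  · refine ⟨fun _ => 0, LocR_sc_zero V, ?_⟩
    have h1 : D.form (algebraMap K L) - std (algebraMap K L) t (fun _ => 0) = 0 := by
      rw [LocR_std_zero, sub_zero]
      funext x δ ε
      rw [hform]
      have h2 : D.χ (logv x D.F) = 0 := by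
        by_contra h3
        exact hex ⟨x, h3⟩
      rw [h2, zero_mul]
      rfl
    rw [h1]
    exact Submodule.zero_mem _

/-- **LocR**. The rational case, local version. -/
theorem thm_LocR (h1 : St_Step) (h2 : St_PhiT) (h3 : St_PhiO) (h4 : St_TowR) : St_LocR := by
  intro K L _ _ _ n
  induction n generalizing L with
  | zero =>
    intro t _ hr V _ D hD
    exact LocR_zero K L t hr V D hD
  | succ n ih =>
    intro t hcount hr V hV D hD
    obtain ⟨L', t', hr', hov, htt⟩ := h4.2 K L n t hr
    have ht : (Fin.snoc (α := fun _ => Lˣ) (up L t') (t (Fin.last n)) : Fin (n + 1) → Lˣ) = t := by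
      funext i
      refine Fin.lastCases ?_ (fun j => ?_) i
      · rw [Fin.snoc_last]
      · rw [Fin.snoc_castSucc]
        apply Units.ext
        rw [← htt j]
        rfl
    have hL' := h4.1 K L' n t' hr'
    have hL := h4.1 K L (n + 1) t hr
    have hstep := h1 K L' L n (t (Fin.last n)) t' hcount hov hL'.1 hL'.2 hL.2 V hV D
    rw [ht] at hstep
    obtain ⟨l, hl, hlD⟩ := hstep hD
    have key : ∀ l : List (TD L' n × Set (Fin n → ℝ) × (ℝ → ℝ)),
        (∀ e ∈ l, IsOpen e.2.1 ∧ e.1.Good (algebraMap K L') {z | logv z t' ∈ e.2.1} ∧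
          ContDiff ℝ (⊤ : ℕ∞) e.2.2 ∧ HasCompactSupport e.2.2 ∧
          ∀ v ∈ e.2.1, ∀ τ ∈ tsupport e.2.2,
            (Fin.snoc (α := fun _ => ℝ) v τ : Fin (n + 1) → ℝ) ∈ V) →
        ∃ b : (Fin (n + 1) → ℝ) → ℝ, SC b V ∧
          (l.map fun e => Phi (t (Fin.last n)) e.2.2 (e.1.form (algebraMap K L'))).sum -
            std (algebraMap K L) t b ∈ W0 (algebraMap K L) (n + 1) {x | logv x t ∈ V} := by
      intro l
      induction l with
      | nil =>
        intro _
        refine ⟨fun _ => 0, LocR_sc_zero V, ?_⟩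
        rw [LocR_std_zero, List.map_nil, List.sum_nil, sub_zero]
        exact Submodule.zero_mem _
      | cons e l ihl =>
        intro hel
        obtain ⟨b, hb, hbW⟩ := ihl fun e' he' => hel e' (List.mem_cons.mpr (Or.inr he'))
        obtain ⟨he1, he2, he3, he4, he5⟩ := hel e (List.mem_cons.mpr (Or.inl rfl))
        obtain ⟨b', hb', hbW'⟩ := ih L' t' hcount hr' e.2.1 he1 e.1 he2
        refine ⟨fun u => b' (fun i : Fin n => u i.castSucc) * e.2.2 (u (Fin.last n)) + b u,
          LocR_sc_add (LocR_sc_snoc hb' he3 he4 he5) hb, ?_⟩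
        have hO := h3 K L' L (t (Fin.last n)) n e.2.2 he3 he4 t' e.2.1 V he5 _ hbW'
        rw [ht, map_sub] at hO
        have hT := (h2 K L' L (t (Fin.last n)) n e.2.2 he3 he4).1 0 (fun i => i.elim0) t'
          (fun _ => 1) b'
        rw [ht, LocR_tf_one, LocR_tf_one] at hT
        rw [hT] at hO
        have hsum := Submodule.add_mem _ hO hbW
        rw [LocR_std_add, List.map_cons, List.sum_cons]
        have heq : Phi (t (Fin.last n)) e.2.2 (e.1.form (algebraMap K L')) +
            (l.map fun e => Phi (t (Fin.last n)) e.2.2 (e.1.form (algebraMap K L'))).sum -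
            (std (algebraMap K L) t
              (fun u => b' (fun i : Fin n => u i.castSucc) * e.2.2 (u (Fin.last n))) +
              std (algebraMap K L) t b) =
            Phi (t (Fin.last n)) e.2.2 (e.1.form (algebraMap K L')) -
              std (algebraMap K L) t
                (fun u => b' (fun i : Fin n => u i.castSucc) * e.2.2 (u (Fin.last n))) +
            ((l.map fun e => Phi (t (Fin.last n)) e.2.2 (e.1.form (algebraMap K L'))).sum -
              std (algebraMap K L) t b) := by abel
        rw [heq]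
        exact hsum
    obtain ⟨b, hb, hbW⟩ := key l hl
    refine ⟨b, hb, ?_⟩
    have hsum := Submodule.add_mem _ hlD hbW
    have heq : D.form (algebraMap K L) - std (algebraMap K L) t b =
        D.form (algebraMap K L) -
            (l.map fun e => Phi (t (Fin.last n)) e.2.2 (e.1.form (algebraMap K L'))).sum +
          ((l.map fun e => Phi (t (Fin.last n)) e.2.2 (e.1.form (algebraMap K L'))).sum -
            std (algebraMap K L) t b) := by abel
    rw [heq]
    exact hsum

end TDC

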