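import Pool.Agent.TDC.St

set_option autoImplicit false

/-!
# TDC, module MLoc: every function is locally, in absolute value, a monomial
-/

namespace TDC

open scoped Topology

private lemma MLoc_sum {M ι : Type} [Field M] [DecidableEq ι] (v : AbsoluteValue M ℝ)
    (na : ∀ a b, v (a + b) ≤ max (v a) (v b)) (m : ι → M) (B : ℝ) (hB : 0 < B) (s : Finset ι) :
    (∀ i ∈ s, v (m i) < B) → v (∑ i ∈ s, m i) < B := by
  induction s using Finset.induction_on with
  | empty => intro _; simpa using hB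
  | insert a s ha ih =>
    intro h
    rw [Finset.sum_insert ha]
    exact lt_of_le_of_lt (na _ _) (max_lt (h a (Finset.mem_insert_self _ _))
      (ih fun i hi => h i (Finset.mem_insert_of_mem hi)))

private lemma MLoc_eq {M : Type} [Field M] (v : AbsoluteValue M ℝ)
    (na : ∀ a b, v (a + b) ≤ max (v a) (v b)) (a b : M) (h : v (a - b) < v b) : v a = v b := by
  apply le_antisymm
  · have h1 := na (a - b) b
    rw [sub_add_cancel] at h1
    exact h1.trans (max_le h.le le_rfl)
  · have h1 := na (-(a - b)) a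
    have h2 : -(a - b) + a = b := by ring
    rw [h2, v.map_neg] at h1
    rcases le_max_iff.mp h1 with h3 | h3
    · exact absurd h3 (not_le.mpr h)
    · exact h3

/-- a dominating term -/
private lemma MLoc_dom {M ι : Type} [Field M] [DecidableEq ι] (v : AbsoluteValue M ℝ)
    (na : ∀ a b, v (a + b) ≤ max (v a) (v b)) (m : ι → M) (s : Finset ι) (i₀ : ι) (hi : i₀ ∈ s)
    (hp : 0 < v (m i₀)) (h : ∀ i ∈ s, i ≠ i₀ → v (m i) < v (m i₀)) :
    v (∑ i ∈ s, m i - m i₀) < v (m i₀) := by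
  have h1 : ∑ i ∈ s, m i - m i₀ = ∑ i ∈ s.erase i₀, m i := by
    rw [← Finset.sum_erase_add s m hi, add_sub_cancel_right]
  rw [h1]
  refine MLoc_sum v na m _ hp _ ?_
  intro i hi'
  exact h i (Finset.mem_of_mem_erase hi') (Finset.ne_of_mem_erase hi')

private lemma MLoc_cont {K M : Type} [NormedField K] [Field M] {φ : K →+* M} (f : M) :
    Continuous (fun y : Pt φ => y.v f) := by
  have h : Continuous (fun (x : Pt φ) (f : M) => x.v f) := continuous_induced_dom
  exact (continuous_apply f).comp h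

section

variable {K L : Type} [NormedField K] [Field L] [Algebra K L] {n : ℕ}

private lemma MLoc_rel (hT : TrLe K L n) (g : Fin n → Lˣ) (h : L) :
    ∃ Q : Polynomial (MvPolynomial (Fin n) K), Q ≠ 0 ∧
      ∑ k ∈ Q.support, (Q.coeff k).eval₂ (algebraMap K L) (fun i => (g i : L)) * h ^ k = 0 := by
  have h0 := hT (Fin.cons h (fun i => (g i : L)))
  rw [algebraicIndependent_iff] at h0
  push Not at h0
  obtain ⟨P, hP, hP0⟩ := h0
  have key : ∀ P : MvPolynomial (Fin (n + 1)) K,
      Polynomial.eval₂ (MvPolynomial.eval₂Hom (algebraMap K L) (fun i => (g i : L))) h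
        (MvPolynomial.finSuccEquiv K n P) =
      MvPolynomial.aeval (Fin.cons h (fun i => (g i : L)) : Fin (n + 1) → L) P := by
    intro P
    induction P using MvPolynomial.induction_on with
    | C a =>
      simp [MvPolynomial.finSuccEquiv_apply]
    | add p q hp hq =>
      rw [map_add, Polynomial.eval₂_add, hp, hq, map_add]
    | mul_X p i hp =>
      rw [map_mul, Polynomial.eval₂_mul, hp, map_mul]
      congr 1
      refine Fin.cases ?_ ?_ i
      · rw [MvPolynomial.finSuccEquiv_X_zero]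
        simp
      · intro j
        rw [MvPolynomial.finSuccEquiv_X_succ]
        simp
  refine ⟨MvPolynomial.finSuccEquiv K n P, ?_, ?_⟩
  · intro h1
    apply hP0
    exact (MvPolynomial.finSuccEquiv K n).injective (by rw [h1, map_zero])
  · have h1 := key P
    rw [hP, Polynomial.eval₂_eq_sum, Polynomial.sum_def] at h1
    exact h1

private lemma MLoc_val (x : Pt (algebraMap K L)) (g : Fin n → Lˣ) (a : K) (e : Fin n →₀ ℕ) :
    x.v (algebraMap K L a * ∏ i, (g i : L) ^ e i) = ‖a‖ * ∏ i, x.v (g i) ^ e i := by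
  rw [map_mul, x.ext, map_prod]
  simp only [map_pow]

private lemma MLoc_val2 (x : Pt (algebraMap K L)) (g : Fin n → Lˣ) (k : Fin n → ℤ) :
    x.v ((∏ i, g i ^ k i : Lˣ) : L) = ∏ i, x.v (g i) ^ k i := by
  rw [Units.coe_prod, map_prod]
  refine Finset.prod_congr rfl fun i _ => ?_
  rw [Units.val_zpow_eq_zpow_val, map_zpow₀]

/-- equal values of monomials -/
private lemma MLoc_inj (x : Pt (algebraMap K L)) (g : Fin n → Lˣ) (hg : Indep x g)
    (a b : K) (ha : a ≠ 0) (_hb : b ≠ 0) (d e : Fin n →₀ ℕ)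
    (h : ‖a‖ * ∏ i, x.v (g i) ^ d i = ‖b‖ * ∏ i, x.v (g i) ^ e i) : d = e := by
  have hpos : ∀ i, 0 < x.v (g i : L) := fun i => x.v.pos (g i).ne_zero
  have hk := hg (fun i => (d i : ℤ) - (e i : ℤ)) ⟨b / a, ?_⟩
  · ext i
    have h1 := congrFun hk i
    simp only [Pi.zero_apply] at h1
    omega
  · rw [norm_div, MLoc_val2]
    have h2 : ∏ i, x.v (g i : L) ^ ((d i : ℤ) - (e i : ℤ)) =
        (∏ i, x.v (g i) ^ d i) / ∏ i, x.v (g i) ^ e i := by
      rw [← Finset.prod_div_distrib]
      refine Finset.prod_congr rfl fun i _ => ?_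
      rw [zpow_sub₀ (hpos i).ne', zpow_natCast, zpow_natCast]
    rw [h2]
    have h3 : 0 < ∏ i, x.v (g i : L) ^ e i := Finset.prod_pos fun i _ => pow_pos (hpos i) _
    have h4 : 0 < ‖a‖ := norm_pos_iff.mpr ha
    rw [div_eq_div_iff h4.ne' h3.ne']
    linarith

/-- the dominating monomial of a polynomial -/
private lemma MLoc_mono (x : Pt (algebraMap K L)) (g : Fin n → Lˣ) (hg : Indep x g)
    (P : MvPolynomial (Fin n) K) (hP : P ≠ 0) :
    ∃ e, P.coeff e ≠ 0 ∧
      x.v (P.eval₂ (algebraMap K L) (fun i => (g i : L)) -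
        algebraMap K L (P.coeff e) * ∏ i, (g i : L) ^ e i) <
      ‖P.coeff e‖ * ∏ i, x.v (g i) ^ e i := by
  classical
  have hpos : ∀ i, 0 < x.v (g i : L) := fun i => x.v.pos (g i).ne_zero
  have hne : P.support.Nonempty := by
    rw [Finset.nonempty_iff_ne_empty, Ne, MvPolynomial.support_eq_empty]
    exact hP
  obtain ⟨e, he, hmax⟩ := Finset.exists_max_image P.support
    (fun d => ‖P.coeff d‖ * ∏ i, x.v (g i : L) ^ d i) hne
  have hce : P.coeff e ≠ 0 := MvPolynomial.mem_support_iff.mp he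
  refine ⟨e, hce, ?_⟩
  rw [MvPolynomial.eval₂_eq']
  rw [← MLoc_val x g (P.coeff e) e]
  refine MLoc_dom x.v x.na (fun d : Fin n →₀ ℕ => algebraMap K L (P.coeff d) *
    ∏ i, (g i : L) ^ d i) P.support e he ?_ ?_
  · show 0 < x.v (algebraMap K L (P.coeff e) * ∏ i, (g i : L) ^ e i)
    rw [MLoc_val]
    exact mul_pos (norm_pos_iff.mpr hce) (Finset.prod_pos fun i _ => pow_pos (hpos i) _)
  · intro d hd hde
    show x.v (algebraMap K L (P.coeff d) * ∏ i, (g i : L) ^ d i) <
      x.v (algebraMap K L (P.coeff e) * ∏ i, (g i : L) ^ e i)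
    rw [MLoc_val, MLoc_val]
    refine lt_of_le_of_ne (hmax d hd) ?_
    intro h
    exact hde (MLoc_inj x g hg _ _ (MvPolynomial.mem_support_iff.mp hd) hce d e h)

/-- elements of value one have value one in a neighbourhood -/
private lemma MLoc_unit (hT : TrLe K L n) (x : Pt (algebraMap K L)) (g : Fin n → Lˣ)
    (hg : Indep x g) (h : L) (hh : x.v h = 1) : ∀ᶠ y in 𝓝 x, y.v h = 1 := by
  classical
  obtain ⟨Q, hQ, hQ0⟩ := MLoc_rel hT g h
  have hpos : ∀ i, 0 < x.v (g i : L) := fun i => x.v.pos (g i).ne_zero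
  set E : MvPolynomial (Fin n) K → L :=
    fun P => P.eval₂ (algebraMap K L) (fun i => (g i : L)) with hE
  have hne : Q.support.Nonempty := by
    rw [Finset.nonempty_iff_ne_empty, Ne, Polynomial.support_eq_empty]
    exact hQ
  -- choose the dominating monomials
  have hm : ∀ k : ℕ, ∃ e : Fin n →₀ ℕ, k ∈ Q.support → (Q.coeff k).coeff e ≠ 0 ∧
      x.v (E (Q.coeff k) - algebraMap K L ((Q.coeff k).coeff e) * ∏ i, (g i : L) ^ e i) <
      ‖(Q.coeff k).coeff e‖ * ∏ i, x.v (g i) ^ e i := by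
    intro k
    by_cases hk : k ∈ Q.support
    · obtain ⟨e, he⟩ := MLoc_mono x g hg (Q.coeff k) (Polynomial.mem_support_iff.mp hk)
      exact ⟨e, fun _ => he⟩
    · exact ⟨0, fun h1 => absurd h1 hk⟩
  choose μ hμ using hm
  have hval : ∀ k ∈ Q.support, x.v (E (Q.coeff k)) =
      ‖(Q.coeff k).coeff (μ k)‖ * ∏ i, x.v (g i) ^ μ k i := by
    intro k hk
    have h1 := (hμ k hk).2
    rw [← MLoc_val] at h1
    rw [MLoc_eq x.v x.na _ _ h1, MLoc_val]
  obtain ⟨k₀, hk₀, hmax⟩ := Finset.exists_max_image Q.support (fun k => x.v (E (Q.coeff k))) hne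
  set S : Finset ℕ := Q.support.filter fun k => x.v (E (Q.coeff k)) = x.v (E (Q.coeff k₀)) with hS
  have hk₀S : k₀ ∈ S := by
    rw [hS, Finset.mem_filter]
    exact ⟨hk₀, rfl⟩
  have hSne : S.Nonempty := ⟨k₀, hk₀S⟩
  have hSμ : ∀ k ∈ S, μ k = μ k₀ ∧ ‖(Q.coeff k).coeff (μ k)‖ = ‖(Q.coeff k₀).coeff (μ k₀)‖ := by
    intro k hk
    rw [hS, Finset.mem_filter] at hk
    have h1 := hk.2
    rw [hval k hk.1, hval k₀ hk₀] at h1
    have h2 := MLoc_inj x g hg _ _ (hμ k hk.1).1 (hμ k₀ hk₀).1 _ _ h1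
    refine ⟨h2, ?_⟩
    have h3 : 0 < ∏ i, x.v (g i : L) ^ μ k₀ i := Finset.prod_pos fun i _ => pow_pos (hpos i) _
    rw [h2] at h1
    rw [h2]
    exact mul_right_cancel₀ h3.ne' h1
  set c₀ : K := (Q.coeff k₀).coeff (μ k₀) with hc₀
  have hc₀0 : c₀ ≠ 0 := (hμ k₀ hk₀).1
  set b : ℕ → K := fun k => (Q.coeff k).coeff (μ k) / c₀ with hb
  have hb1 : ∀ k ∈ S, ‖b k‖ = 1 := by
    intro k hk
    rw [hb]
    show ‖(Q.coeff k).coeff (μ k) / c₀‖ = 1
    rw [norm_div, (hSμ k hk).2]
    exact div_self (norm_pos_iff.mpr hc₀0).ne'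
  set m : ℕ := S.min' hSne with hmm
  have hmS : m ∈ S := Finset.min'_mem S hSne
  -- the element `P'(h)`
  set p : L := ∑ k ∈ S, algebraMap K L (b k) * h ^ (k - m) with hp
  have hxp : x.v p < 1 := by
    set G : L := algebraMap K L c₀ * ∏ i, (g i : L) ^ μ k₀ i with hG
    have hGv : x.v G = x.v (E (Q.coeff k₀)) := by
      rw [hG, MLoc_val, hval k₀ hk₀]
    have hGpos : 0 < x.v G := by
      rw [hG, MLoc_val]
      exact mul_pos (norm_pos_iff.mpr hc₀0) (Finset.prod_pos fun i _ => pow_pos (hpos i) _)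
    have h1 : G * h ^ m * p = ∑ k ∈ S, (algebraMap K L ((Q.coeff k).coeff (μ k)) *
        ∏ i, (g i : L) ^ μ k i) * h ^ k := by
      rw [hp, Finset.mul_sum]
      refine Finset.sum_congr rfl fun k hk => ?_
      have h2 : m ≤ k := Finset.min'_le S k hk
      have h3 : h ^ k = h ^ m * h ^ (k - m) := by rw [← pow_add, Nat.add_sub_cancel' h2]
      have h4 : algebraMap K L ((Q.coeff k).coeff (μ k)) = algebraMap K L c₀ *
          algebraMap K L (b k) := by
        rw [← map_mul]
        congr 1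
        rw [hb]
        show _ = c₀ * ((Q.coeff k).coeff (μ k) / c₀)
        field_simp
      rw [h4, h3, hG, (hSμ k hk).1]
      ring
    have h5 : x.v (G * h ^ m * p) < x.v G := by
      rw [h1]
      have h6 : ∑ k ∈ S, (algebraMap K L ((Q.coeff k).coeff (μ k)) *
          ∏ i, (g i : L) ^ μ k i) * h ^ k =
          ∑ k ∈ Q.support, (if k ∈ S then (algebraMap K L ((Q.coeff k).coeff (μ k)) *
            ∏ i, (g i : L) ^ μ k i) * h ^ k - E (Q.coeff k) * h ^ k
            else - (E (Q.coeff k) * h ^ k)) := by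
        have h7 : ∀ k ∈ Q.support, (if k ∈ S then (algebraMap K L ((Q.coeff k).coeff (μ k)) *
            ∏ i, (g i : L) ^ μ k i) * h ^ k - E (Q.coeff k) * h ^ k
            else - (E (Q.coeff k) * h ^ k)) =
            (if k ∈ S then (algebraMap K L ((Q.coeff k).coeff (μ k)) *
            ∏ i, (g i : L) ^ μ k i) * h ^ k else 0) - E (Q.coeff k) * h ^ k := by
          intro k _
          split_ifs <;> ring
        rw [Finset.sum_congr rfl h7, Finset.sum_sub_distrib, hQ0, sub_zero,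
          ← Finset.sum_filter]
        refine Finset.sum_congr ?_ fun _ _ => rfl
        ext k
        constructor
        · intro hk
          rw [Finset.mem_filter]
          have hk2 := hk
          rw [hS, Finset.mem_filter] at hk2
          exact ⟨hk2.1, hk⟩
        · intro hk
          rw [Finset.mem_filter] at hk
          exact hk.2
      rw [h6]
      refine MLoc_sum x.v x.na _ _ hGpos _ ?_
      intro k hk
      by_cases hkS : k ∈ S
      · have hkS2 := hkS
        rw [hS, Finset.mem_filter] at hkS2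
        rw [if_pos hkS, ← sub_mul, map_mul, map_pow, hh, one_pow, mul_one, hGv,
          ← hkS2.2, hval k hk, AbsoluteValue.map_sub]
        exact (hμ k hk).2
      · rw [if_neg hkS, x.v.map_neg, map_mul, map_pow, hh, one_pow, mul_one, hGv]
        refine lt_of_le_of_ne (hmax k hk) ?_
        intro h8
        exact hkS (by rw [hS, Finset.mem_filter]; exact ⟨hk, h8⟩)
    rw [map_mul, map_mul, map_pow, hh, one_pow, mul_one] at h5
    by_contra h9
    push Not at h9
    have : x.v G * 1 ≤ x.v G * x.v p := mul_le_mul_of_nonneg_left h9 hGpos.le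
    linarith
  have hopen : ∀ᶠ y in 𝓝 x, y.v p < 1 :=
    (MLoc_cont p).continuousAt.eventually (gt_mem_nhds hxp)
  refine hopen.mono fun y hy => ?_
  have hv1 : ∀ k ∈ S, y.v (algebraMap K L (b k)) = 1 := by
    intro k hk
    rw [y.ext, hb1 k hk]
  rcases lt_trichotomy (y.v h) 1 with h1 | h1 | h1
  · exfalso
    have h2 : y.v (p - algebraMap K L (b m) * h ^ (m - m)) <
        y.v (algebraMap K L (b m) * h ^ (m - m)) := by
      refine MLoc_dom y.v y.na (fun k : ℕ => algebraMap K L (b k) * h ^ (k - m)) S m hmS ?_ ?_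
      · show 0 < y.v (algebraMap K L (b m) * h ^ (m - m))
        rw [map_mul, map_pow, hv1 m hmS, Nat.sub_self, pow_zero]
        norm_num
      · intro k hk hkm
        show y.v (algebraMap K L (b k) * h ^ (k - m)) < y.v (algebraMap K L (b m) * h ^ (m - m))
        rw [map_mul y.v (algebraMap K L (b k)), map_mul y.v (algebraMap K L (b m)), map_pow,
          map_pow, hv1 m hmS, hv1 k hk, Nat.sub_self, pow_zero, one_mul, one_mul]
        have h2 : m ≤ k := Finset.min'_le S k hk
        exact pow_lt_one₀ (y.v.nonneg _) h1 (by omega)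
    have h3 := MLoc_eq y.v y.na _ _ h2
    rw [map_mul, map_pow, hv1 m hmS, Nat.sub_self, pow_zero, one_mul] at h3
    linarith
  · exact h1
  · exfalso
    set m' : ℕ := S.max' hSne with hmm'
    have hmS' : m' ∈ S := Finset.max'_mem S hSne
    have h2 : y.v (p - algebraMap K L (b m') * h ^ (m' - m)) <
        y.v (algebraMap K L (b m') * h ^ (m' - m)) := by
      refine MLoc_dom y.v y.na (fun k : ℕ => algebraMap K L (b k) * h ^ (k - m)) S m' hmS' ?_ ?_
      · show 0 < y.v (algebraMap K L (b m') * h ^ (m' - m))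
        rw [map_mul, map_pow, hv1 m' hmS', one_mul]
        exact pow_pos (by linarith) _
      · intro k hk hkm
        show y.v (algebraMap K L (b k) * h ^ (k - m)) <
          y.v (algebraMap K L (b m') * h ^ (m' - m))
        rw [map_mul y.v (algebraMap K L (b k)), map_mul y.v (algebraMap K L (b m')), map_pow,
          map_pow, hv1 m' hmS', hv1 k hk, one_mul, one_mul]
        have h2 : m ≤ k := Finset.min'_le S k hk
        have h3 : k ≤ m' := Finset.le_max' S k hk
        exact pow_lt_pow_right₀ h1 (by omega)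
    have h3 := MLoc_eq y.v y.na _ _ h2
    rw [map_mul, map_pow, hv1 m' hmS', one_mul] at h3
    have h4 : 1 ≤ y.v h ^ (m' - m) := one_le_pow₀ h1.le
    linarith

end

/-- **MLoc**. Every `f` is near `x`, in absolute value, a monomial with rational exponents. -/
theorem thm_MLoc : St_MLoc := by
  classical
  intro K L _ _ _ n hT x g hg f
  obtain ⟨Q, hQ, hQ0⟩ := MLoc_rel hT g (f : L)
  have hpos : ∀ i, 0 < x.v (g i : L) := fun i => x.v.pos (g i).ne_zero
  have hf : 0 < x.v (f : L) := x.v.pos f.ne_zero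
  set E : MvPolynomial (Fin n) K → L :=
    fun P => P.eval₂ (algebraMap K L) (fun i => (g i : L)) with hE
  have hne : Q.support.Nonempty := by
    rw [Finset.nonempty_iff_ne_empty, Ne, Polynomial.support_eq_empty]
    exact hQ
  have hm : ∀ k ∈ Q.support, ∃ e : Fin n →₀ ℕ, (Q.coeff k).coeff e ≠ 0 ∧
      x.v (E (Q.coeff k)) = ‖(Q.coeff k).coeff e‖ * ∏ i, x.v (g i) ^ e i := by
    intro k hk
    obtain ⟨e, he, he2⟩ := MLoc_mono x g hg (Q.coeff k) (Polynomial.mem_support_iff.mp hk)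
    refine ⟨e, he, ?_⟩
    rw [← MLoc_val] at he2
    rw [MLoc_eq x.v x.na _ _ he2, MLoc_val]
  obtain ⟨k₁, hk₁, hmax⟩ := Finset.exists_max_image Q.support
    (fun k => x.v (E (Q.coeff k) * (f : L) ^ k)) hne
  have hpos1 : 0 < x.v (E (Q.coeff k₁) * (f : L) ^ k₁) := by
    obtain ⟨e, he, he2⟩ := hm k₁ hk₁
    rw [map_mul, map_pow, he2]
    exact mul_pos (mul_pos (norm_pos_iff.mpr he)
      (Finset.prod_pos fun i _ => pow_pos (hpos i) _)) (pow_pos hf _)
  obtain ⟨k₂, hk₂, hne12, heq⟩ : ∃ k₂ ∈ Q.support, k₂ ≠ k₁ ∧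
      x.v (E (Q.coeff k₂) * (f : L) ^ k₂) = x.v (E (Q.coeff k₁) * (f : L) ^ k₁) := by
    by_contra hcon
    push Not at hcon
    have h1 := MLoc_dom x.v x.na (fun k => E (Q.coeff k) * (f : L) ^ k) Q.support k₁ hk₁ hpos1
      (fun k hk hkk => lt_of_le_of_ne (hmax k hk) (hcon k hk hkk))
    have h2 : ∑ k ∈ Q.support, E (Q.coeff k) * (f : L) ^ k = 0 := hQ0
    rw [h2, zero_sub, x.v.map_neg] at h1
    exact lt_irrefl _ h1
  -- the two exponents in increasing order
  obtain ⟨k, k', hk, hk', hlt, heq'⟩ : ∃ k k' : ℕ, k ∈ Q.support ∧ k' ∈ Q.support ∧ k < k' ∧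
      x.v (E (Q.coeff k) * (f : L) ^ k) = x.v (E (Q.coeff k') * (f : L) ^ k') := by
    rcases lt_or_gt_of_ne hne12 with h | h
    · exact ⟨k₂, k₁, hk₂, hk₁, h, heq⟩
    · exact ⟨k₁, k₂, hk₁, hk₂, h, heq.symm⟩
  obtain ⟨e, he, hev⟩ := hm k hk
  obtain ⟨e', he', hev'⟩ := hm k' hk'
  set a : K := (Q.coeff k).coeff e / (Q.coeff k').coeff e' with ha
  have ha0 : a ≠ 0 := div_ne_zero he he'
  set κ : Fin n → ℤ := fun i => (e i : ℤ) - (e' i : ℤ) with hκ
  -- the identity at x
  have hx : x.v (f : L) ^ (k' - k) = ‖a‖ * ∏ i, x.v (g i : L) ^ κ i := by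
    have h2 : ∏ i, x.v (g i : L) ^ κ i =
        (∏ i, x.v (g i) ^ e i) / ∏ i, x.v (g i) ^ e' i := by
      rw [← Finset.prod_div_distrib]
      refine Finset.prod_congr rfl fun i _ => ?_
      rw [hκ]
      show x.v (g i : L) ^ ((e i : ℤ) - (e' i : ℤ)) = _
      rw [zpow_sub₀ (hpos i).ne', zpow_natCast, zpow_natCast]
    have h3 : 0 < ∏ i, x.v (g i : L) ^ e' i := Finset.prod_pos fun i _ => pow_pos (hpos i) _
    have h4 : 0 < ‖(Q.coeff k').coeff e'‖ := norm_pos_iff.mpr he'
    have h5 : x.v (f : L) ^ k' = x.v (f : L) ^ k * x.v (f : L) ^ (k' - k) := by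
      rw [← pow_add, Nat.add_sub_cancel' hlt.le]
    rw [map_mul, map_mul, map_pow, map_pow, hev, hev', h5] at heq'
    have h6 : 0 < x.v (f : L) ^ k := pow_pos hf _
    rw [h2, ha, norm_div]
    have h7 : ‖(Q.coeff k).coeff e‖ * ∏ i, x.v (g i : L) ^ e i =
        ‖(Q.coeff k').coeff e'‖ * (∏ i, x.v (g i : L) ^ e' i) * x.v (f : L) ^ (k' - k) := by
      apply mul_right_cancel₀ h6.ne'
      rw [heq']
      ring
    rw [div_mul_div_comm, h7]
    field_simp
  -- the unit h
  set G : Lˣ := ∏ i, g i ^ κ i with hG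
  have hG0 : (G : L) ≠ 0 := G.ne_zero
  have haL : algebraMap K L a ≠ 0 := by
    rw [Ne, FaithfulSMul.algebraMap_eq_zero_iff]
    exact ha0
  set h : L := (f : L) ^ (k' - k) / (algebraMap K L a * (G : L)) with hh
  have hval : ∀ y : Pt (algebraMap K L), y.v h =
      y.v (f : L) ^ (k' - k) / (‖a‖ * ∏ i, y.v (g i : L) ^ κ i) := by
    intro y
    rw [hh, map_div₀, map_pow, map_mul, y.ext, hG, MLoc_val2]
  have hh1 : x.v h = 1 := by
    rw [hval, hx]
    refine div_self ?_
    rw [← hx]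
    exact (pow_pos hf _).ne'
  refine ⟨k' - k, κ, a, by omega, ha0, ?_⟩
  refine (MLoc_unit hT x g hg h hh1).mono fun y hy => ?_
  rw [hval, div_eq_one_iff_eq] at hy
  · exact hy
  · have hposy : ∀ i, 0 < y.v (g i : L) := fun i => y.v.pos (g i).ne_zero
    exact (mul_pos (norm_pos_iff.mpr ha0)
      (Finset.prod_pos fun i _ => zpow_pos (hposy i) _)).ne'

end TDC
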