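import Pool.Agent.TDC.StT

/-!
# [Mnr] Minors of an `n × (n+1)` matrix (Cramer)
-/

set_option autoImplicit false

namespace TDC

/-- [Mnr] `M m = 0` implies `|m_i| |Δ_j| = |m_j| |Δ_i|` for the minors of `M`. -/
theorem thm_Mnr : St_Mnr := by
  intro n M m hM i j
  rcases eq_or_ne i j with rfl | hij
  · rfl
  rcases eq_or_ne m 0 with rfl | hm
  · simp
  let r : Fin (n + 1) → ℝ := fun l => (if l = i then m j else 0) - (if l = j then m i else 0)
  let A : Matrix (Fin (n + 1)) (Fin (n + 1)) ℝ := Matrix.of (Fin.cons r M)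
  have hA0 : ∀ l, A 0 l = r l := fun l => rfl
  have hAs : ∀ l : Fin (n + 1), A.submatrix Fin.succ l.succAbove = M.submatrix id l.succAbove := by
    intro l
    ext a b
    rfl
  have hAm : A.mulVec m = 0 := by
    ext a
    refine Fin.cases ?_ (fun k => ?_) a
    · show ∑ l, r l * m l = 0
      have h1 : ∀ l, r l * m l = (if l = i then m j * m l else 0) - (if l = j then m i * m l else 0) := by
        intro l
        show ((if l = i then m j else 0) - (if l = j then m i else 0)) * m l = _
        rw [sub_mul, ite_mul, ite_mul, zero_mul]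
      rw [Finset.sum_congr rfl fun l _ => h1 l, Finset.sum_sub_distrib,
        Finset.sum_ite_eq' Finset.univ i, Finset.sum_ite_eq' Finset.univ j,
        if_pos (Finset.mem_univ _), if_pos (Finset.mem_univ _)]
      ring
    · exact congrFun hM k
  have hdet : A.det = 0 := Matrix.exists_mulVec_eq_zero_iff.1 ⟨m, hm, hAm⟩
  rw [Matrix.det_succ_row_zero] at hdet
  have h2 : ∀ l : Fin (n + 1), (-1 : ℝ) ^ (l : ℕ) * A 0 l *
      (A.submatrix Fin.succ l.succAbove).det =
      (if l = i then (-1) ^ (l : ℕ) * m j * (M.submatrix id l.succAbove).det else 0) -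
        (if l = j then (-1) ^ (l : ℕ) * m i * (M.submatrix id l.succAbove).det else 0) := by
    intro l
    rw [hAs, hA0]
    show (-1 : ℝ) ^ (l : ℕ) * ((if l = i then m j else 0) - (if l = j then m i else 0)) * _ = _
    rw [mul_sub, sub_mul, mul_ite, mul_ite, ite_mul, ite_mul, mul_zero, zero_mul]
  rw [Finset.sum_congr rfl fun l _ => h2 l, Finset.sum_sub_distrib,
    Finset.sum_ite_eq' Finset.univ i, Finset.sum_ite_eq' Finset.univ j,
    if_pos (Finset.mem_univ _), if_pos (Finset.mem_univ _)] at hdet
  have h3 := congrArg abs (sub_eq_zero.1 hdet)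
  rw [abs_mul, abs_mul, abs_mul, abs_mul, abs_pow, abs_pow, abs_neg, abs_one, one_pow, one_pow,
    one_mul, one_mul] at h3
  exact h3.symm

end TDC
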