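import Pool.Agent.TDC.St

/-!
# TDC, module Mov: moving bumps inside a box
-/

set_option autoImplicit false

namespace TDC

open scoped Topology
open MeasureTheory

theorem thm_Mov (h : St_Div) : St_Mov := by
  intro K M _ _ φ n R F g χ lo hi b₁ b₂ O hcl h₁ h₂ hint hO
  have hi₁ : Integrable b₁ := h₁.1.continuous.integrable_of_hasCompactSupport h₁.2.1
  have hi₂ : Integrable b₂ := h₂.1.continuous.integrable_of_hasCompactSupport h₂.2.1
  have hsc : SC (fun u => b₁ u - b₂ u) (box lo hi) := by
    refine ⟨h₁.1.sub h₂.1, ?_, ?_⟩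
    · have h3 : HasCompactSupport (b₁ + fun u => - b₂ u) := h₁.2.1.add h₂.2.1.neg
      have h4 : (fun u => b₁ u - b₂ u) = b₁ + fun u => - b₂ u := by
        funext u
        simp [sub_eq_add_neg]
      rw [h4]
      exact h3
    · have h5 : tsupport (fun u => b₁ u - b₂ u) ⊆ tsupport b₁ ∪ tsupport b₂ := by
        refine closure_minimal ?_ ((isClosed_tsupport b₁).union (isClosed_tsupport b₂))
        intro u hu
        by_contra hn
        rw [Set.mem_union, not_or] at hn
        have e1 : b₁ u = 0 := image_eq_zero_of_notMem_tsupport hn.1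
        have e2 : b₂ u = 0 := image_eq_zero_of_notMem_tsupport hn.2
        exact hu (by simp [e1, e2])
      exact h5.trans (Set.union_subset h₁.2.2 h₂.2.2)
  have hz : ∫ u, (b₁ u - b₂ u) = 0 := by
    rw [integral_sub hi₁ hi₂, hint, sub_self]
  obtain ⟨c, hc, hbc⟩ := h n lo hi (fun u => b₁ u - b₂ u) hsc hz
  have hsum : (tf F g χ b₁ - tf F g χ b₂ : Fam φ n n) =
      ∑ j, tf F g χ (fun u => fderiv ℝ (c j) u (Pi.single j 1)) := by
    funext x δ ε
    rw [Finset.sum_apply, Finset.sum_apply, Finset.sum_apply]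
    have hb := hbc (logv x g)
    simp only [Pi.sub_apply, tf]
    rw [← Finset.sum_mul, ← Finset.sum_mul, ← Finset.mul_sum, ← hb]
    ring
  rw [hsum]
  refine Submodule.sum_mem _ fun j _ => Submodule.subset_span ?_
  refine ⟨R, F, g, χ, c j, box lo hi, j, hcl, hc j, ?_, rfl⟩
  intro x hx hG hs
  exact hO x hx hG ((hc j).2.2 hs)

end TDC
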