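import Pool.Agent.TDC.St2
import Pool.Agent.TDC.St3

/-! TDC, module Newt: the Newton polygon of a key polynomial has one slope. -/

set_option autoImplicit false

namespace TDC

open scoped Topology
open Polynomial

private theorem Newt_norm_inc {M : Type} [Field M] (v : AbsoluteValue M ℝ) (a : M) :
    ‖inc v a‖ = v a := by
  have h : inc v a = ((WithAbs.toAbs v a : WithAbs v) : v.Completion) := rfl
  rw [h, UniformSpace.Completion.norm_coe]
  rfl

private theorem Newt_na {M : Type} [Field M] (v : AbsoluteValue M ℝ)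
    (hna : ∀ a b, v (a + b) ≤ max (v a) (v b)) (a b : v.Completion) :
    ‖a + b‖ ≤ max ‖a‖ ‖b‖ := by
  induction a, b using UniformSpace.Completion.induction_on₂ with
  | hp =>
    exact isClosed_le (by fun_prop) (by fun_prop)
  | ih a b =>
    rw [← UniformSpace.Completion.coe_add, UniformSpace.Completion.norm_coe,
      UniformSpace.Completion.norm_coe, UniformSpace.Completion.norm_coe]
    exact hna _ _

/-- The Newton polygon of an irreducible polynomial over a complete field has one slope. -/
private theorem Newt_field {F : Type} [NontriviallyNormedField F] [CompleteSpace F]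
    [IsUltrametricDist F] (P : F[X]) (hirr : Irreducible P) (hmon : P.Monic) (j : ℕ)
    (hj : j < P.natDegree) : ‖P.coeff j‖ ^ P.natDegree ≤ ‖P.coeff 0‖ ^ (P.natDegree - j) := by
  obtain ⟨θ, hθ⟩ := IsAlgClosed.exists_aeval_eq_zero (AlgebraicClosure F) P
    (ne_of_gt (degree_pos_of_irreducible hirr))
  have hmin : P = minpoly F θ := minpoly.eq_of_irreducible_of_monic hirr hθ hmon
  have h1 : spectralNorm F (AlgebraicClosure F) θ = ‖P.coeff 0‖ ^ (1 / P.natDegree : ℝ) := by
    rw [spectralNorm.spectralNorm_eq_norm_coeff_zero_rpow, ← hmin]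
  have h2 : ‖P.coeff j‖ ^ (1 / (P.natDegree - j : ℝ)) ≤ spectralNorm F (AlgebraicClosure F) θ := by
    rw [spectralNorm, ← hmin, ← spectralValueTerms_of_lt_natDegree P hj]
    exact le_ciSup (spectralValueTerms_bddAbove P) j
  rw [h1] at h2
  have hd : P.natDegree ≠ 0 := by omega
  have hdj : P.natDegree - j ≠ 0 := by omega
  have hcast : (P.natDegree - j : ℝ) = ((P.natDegree - j : ℕ) : ℝ) := by
    rw [Nat.cast_sub hj.le]
  rw [hcast, one_div, one_div] at h2
  have h3 := pow_le_pow_left₀ (Real.rpow_nonneg (norm_nonneg _) _) h2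
    ((P.natDegree - j) * P.natDegree)
  rw [pow_mul, Real.rpow_inv_natCast_pow (norm_nonneg _) hdj, mul_comm, pow_mul,
    Real.rpow_inv_natCast_pow (norm_nonneg _) hd] at h3
  exact h3

theorem thm_Newt (h : St_Irre) : St_Newt := by
  intro K L' L _ _ _ _ _ _ _ t ht x Q hQ hdeg j hj
  have hirr := h K L' L t ht x Q hQ hdeg
  obtain ⟨k, hk⟩ := NormedField.exists_one_lt_norm K
  let nn : NontriviallyNormedField (res L' x).v.Completion :=
    { (inferInstance : NormedField (res L' x).v.Completion) with
      non_trivial := ⟨inc (res L' x).v (algebraMap K L' k), by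
        rw [Newt_norm_inc, (res L' x).ext]
        exact hk⟩ }
  have hu : IsUltrametricDist (res L' x).v.Completion :=
    IsUltrametricDist.isUltrametricDist_of_forall_norm_add_le_max_norm
      (Newt_na (res L' x).v (res L' x).na)
  have hmon : (Q.map (inc (res L' x).v)).Monic := hQ.1.map _
  have hnd : (Q.map (inc (res L' x).v)).natDegree = Q.natDegree := natDegree_map _
  have h1 := @Newt_field (res L' x).v.Completion nn inferInstance hu
    (Q.map (inc (res L' x).v)) hirr hmon j (by rw [hnd]; exact hj)
  rw [hnd, coeff_map, coeff_map] at h1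
  have e1 : ‖inc (res L' x).v (Q.coeff j)‖ = (res L' x).v (Q.coeff j) := Newt_norm_inc _ _
  have e2 : ‖inc (res L' x).v (Q.coeff 0)‖ = (res L' x).v (Q.coeff 0) := Newt_norm_inc _ _
  rw [← e1, ← e2]
  exact h1

end TDC
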