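import Pool.Agent.TDC.StT

/-!
# TDC, module Npg: Gauss norm of a split polynomial
-/

namespace TDC

open Polynomial in
private theorem Npg_lin {M : Type} [Field M] (v : AbsoluteValue M ℝ) (hv : IsNonarchimedean v)
    (ρ : M) (c : ℝ) (hc : 0 < c) : (X - C ρ : M[X]).gaussNorm v c = max c (v ρ) := by
  apply le_antisymm
  · have h1 := isNonarchimedean_gaussNorm v hv hc.le (X : M[X]) (C (-ρ))
    rw [gaussNorm_C, AbsoluteValue.map_neg, C_neg, ← sub_eq_add_neg] at h1
    have h2 : (X : M[X]).gaussNorm v c = c := by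
      rw [← monomial_one_one_eq_X, gaussNorm_monomial, map_one, one_mul, pow_one]
    rw [h2] at h1
    exact h1
  · apply max_le
    · have h1 := le_gaussNorm v (X - C ρ : M[X]) hc.le 1
      simpa [coeff_X, coeff_C] using h1
    · have h1 := le_gaussNorm v (X - C ρ : M[X]) hc.le 0
      simpa [coeff_X, coeff_C] using h1

open Polynomial in
private theorem Npg_prod {M : Type} [Field M] (v : AbsoluteValue M ℝ) (hv : IsNonarchimedean v)
    (τ : ℝ) (s : Multiset M) : (∀ ρ ∈ s, ρ ≠ 0) →
    0 < ((s.map fun ρ => (X - C ρ : M[X])).prod).gaussNorm v (Real.exp τ) ∧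
      Real.log (((s.map fun ρ => (X - C ρ : M[X])).prod).gaussNorm v (Real.exp τ)) =
        (s.map fun ρ => max τ (Real.log (v ρ))).sum := by
  induction s using Multiset.induction with
  | empty =>
    intro _
    have h1 : (1 : M[X]).gaussNorm v (Real.exp τ) = 1 := by
      rw [← C_1, gaussNorm_C, map_one]
    simp [h1]
  | cons a s ih =>
    intro h
    obtain ⟨h1, h2⟩ := ih fun ρ hρ => h ρ (Multiset.mem_cons_of_mem hρ)
    have ha : 0 < v a := (AbsoluteValue.pos_iff v).mpr (h a (Multiset.mem_cons_self a s))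
    have he := Real.exp_pos τ
    rw [Multiset.map_cons, Multiset.prod_cons, Multiset.map_cons, Multiset.sum_cons,
      gaussNorm_mul hv he, Npg_lin v hv a _ he]
    have hm : 0 < max (Real.exp τ) (v a) := lt_max_of_lt_left he
    refine ⟨mul_pos hm h1, ?_⟩
    rw [Real.log_mul hm.ne' h1.ne', h2]
    congr 1
    have h3 : ∀ x y : ℝ, 0 < x → 0 < y → Real.log (max x y) = max (Real.log x) (Real.log y) := by
      intro x y hx hy
      rcases le_total x y with hxy | hxy
      · rw [max_eq_right hxy, max_eq_right (Real.log_le_log hx hxy)]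
      · rw [max_eq_left hxy, max_eq_left (Real.log_le_log hy hxy)]
    rw [h3 _ _ he ha, Real.log_exp]

theorem thm_Npg : St_Npg := by
  intro M _ v hv P hP hs hr τ
  have he := Real.exp_pos τ
  obtain ⟨h1, h2⟩ := Npg_prod v hv τ P.roots hr
  have h3 : (P.gaussNorm v (Real.exp τ)) = v P.leadingCoeff *
      ((P.roots.map fun ρ => (Polynomial.X - Polynomial.C ρ)).prod).gaussNorm v (Real.exp τ) := by
    conv_lhs => rw [hs.eq_prod_roots]
    rw [Polynomial.gaussNorm_mul hv he, Polynomial.gaussNorm_C]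
  have hl : 0 < v P.leadingCoeff :=
    (AbsoluteValue.pos_iff v).mpr (Polynomial.leadingCoeff_ne_zero.mpr hP)
  rw [h3, Real.log_mul hl.ne' h1.ne', h2]

end TDC
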