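import Pool.Agent.TDC.St2

/-! TDC, module PUni (helper69): partition of unity, a compactly supported form is globally a
pull-back, with support control. -/

set_option autoImplicit false

namespace TDC

open scoped Topology

section PUni

variable {K M : Type} [NormedField K] [Field M] {φ : K →+* M} {p q : ℕ}

private theorem PUni_pos (x : Pt φ) (f : Mˣ) : 0 < x.v (f : M) := x.v.pos f.ne_zero

/-- all logarithms -/
private noncomputable def PUni_L (x : Pt φ) : Mˣ → ℝ := fun f => Real.log (x.v (f : M))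

private theorem PUni_cont_v (f : M) : Continuous fun x : Pt φ => x.v f := by
  have h : Continuous fun (x : Pt φ) (f : M) => x.v f := continuous_induced_dom
  exact (continuous_apply f).comp h

private theorem PUni_cont_L : Continuous (PUni_L : Pt φ → Mˣ → ℝ) := by
  refine continuous_pi fun f => ?_
  exact (PUni_cont_v (f : M)).log fun x => (PUni_pos x f).ne'

private theorem PUni_cont_logv {R : ℕ} (F : Fin R → Mˣ) : Continuous fun x : Pt φ => logv x F := by
  refine continuous_pi fun i => ?_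
  exact (PUni_cont_v (F i : M)).log fun x => (PUni_pos x (F i)).ne'

open Classical in
private theorem PUni_ind : Topology.IsInducing (PUni_L : Pt φ → Mˣ → ℝ) := by
  have hΦ : Continuous (fun (l : Mˣ → ℝ) (f : M) =>
      if h : f ≠ 0 then Real.exp (l (Units.mk0 f h)) else 0) := by
    refine continuous_pi fun f => ?_
    by_cases h : f ≠ 0
    · simp only [dif_pos h]
      exact Real.continuous_exp.comp (continuous_apply _)
    · simp only [dif_neg h]
      exact continuous_const
  refine Topology.IsInducing.of_comp PUni_cont_L hΦ ?_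
  have he : (fun (l : Mˣ → ℝ) (f : M) =>
      if h : f ≠ 0 then Real.exp (l (Units.mk0 f h)) else 0) ∘ PUni_L =
      fun (x : Pt φ) (f : M) => x.v f := by
    funext x f
    by_cases h : f ≠ 0
    · simp only [Function.comp_apply, dif_pos h, PUni_L, Units.val_mk0]
      exact Real.exp_log (x.v.pos h)
    · simp only [Function.comp_apply, dif_neg h]
      rw [not_not] at h
      rw [h, map_zero]
  rw [he]
  exact ⟨rfl⟩

private theorem PUni_min {ι : Type} (I : Finset ι) (e : ι → ℝ) (he : ∀ i, 0 < e i) :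
    ∃ ε : ℝ, 0 < ε ∧ ∀ i ∈ I, ε ≤ e i := by
  classical
  induction I using Finset.induction_on with
  | empty => exact ⟨1, one_pos, fun i hi => absurd hi (Finset.notMem_empty i)⟩
  | insert a s _ ih =>
    obtain ⟨ε, hε, h⟩ := ih
    refine ⟨min ε (e a), lt_min hε (he a), fun i hi => ?_⟩
    rcases Finset.mem_insert.1 hi with rfl | hi
    · exact min_le_right _ _
    · exact (min_le_left _ _).trans (h i hi)

private theorem PUni_nhds (x : Pt φ) {N : Set (Pt φ)} (hN : N ∈ 𝓝 x) :
    ∃ (k : ℕ) (G : Fin k → Mˣ) (ε : ℝ), 0 < ε ∧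
      ∀ y : Pt φ, dist (logv y G) (logv x G) < ε → y ∈ N := by
  classical
  rw [PUni_ind.nhds_eq_comap, Filter.mem_comap] at hN
  obtain ⟨s, hs, hsN⟩ := hN
  rw [nhds_pi, Filter.mem_pi] at hs
  obtain ⟨I, hI, t, ht, hts⟩ := hs
  have h0 : ∀ i, ∃ e : ℝ, 0 < e ∧ Metric.ball (PUni_L x i) e ⊆ t i := fun i =>
    Metric.mem_nhds_iff.1 (ht i)
  choose e he hte using h0
  lift I to Finset Mˣ using hI
  obtain ⟨ε, hε, hεe⟩ := PUni_min I e he
  refine ⟨I.card, fun i => (I.equivFin.symm i : Mˣ), ε, hε, fun y hy => hsN (hts ?_)⟩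
  intro i hi
  apply hte
  have h1 := dist_le_pi_dist (logv y fun i => (I.equivFin.symm i : Mˣ))
    (logv x fun i => (I.equivFin.symm i : Mˣ)) (I.equivFin ⟨i, hi⟩)
  have h2 : ∀ z : Pt φ, logv z (fun i => (I.equivFin.symm i : Mˣ)) (I.equivFin ⟨i, hi⟩) =
      PUni_L z i := by
    intro z
    simp only [logv, PUni_L, Equiv.symm_apply_apply]
  rw [h2, h2] at h1
  exact lt_of_le_of_lt h1 (lt_of_lt_of_le hy (hεe i hi))

/-- restriction of coordinates -/
private noncomputable def PUni_r {R₁ R : ℕ} (ι : Fin R₁ → Fin R) :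
    (Fin R → ℝ) →L[ℝ] (Fin R₁ → ℝ) :=
  ContinuousLinearMap.pi fun i => ContinuousLinearMap.proj (ι i)

private theorem PUni_r_apply {R₁ R : ℕ} (ι : Fin R₁ → Fin R) (t : Fin R → ℝ) :
    PUni_r ι t = t ∘ ι := rfl

open Classical in
/-- extension of a superform along a map of coordinates -/
private noncomputable def PUni_e {R₁ R : ℕ} (ι : Fin R₁ → Fin R) (α : SF R₁ p q) : SF R p q :=
  fun I t => ∑ J : Fin p → Fin R₁, if ι ∘ J = I then
    (α J (t ∘ ι)).compContinuousLinearMap (PUni_r ι) else 0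

private theorem PUni_e_smooth {R₁ R : ℕ} (ι : Fin R₁ → Fin R) (α : SF R₁ p q) (h : α.Smooth) :
    (PUni_e ι α).Smooth := by
  classical
  intro I
  unfold PUni_e
  refine ContDiff.sum fun J _ => ?_
  by_cases hJ : ι ∘ J = I
  · simp only [if_pos hJ]
    have h1 : ContDiff ℝ (⊤ : ℕ∞) fun t : Fin R → ℝ => α J (t ∘ ι) :=
      (h J).comp (PUni_r ι).contDiff
    exact (ContinuousAlternatingMap.compContinuousLinearMapCLM (PUni_r ι)).contDiff.comp h1
  · simp only [if_neg hJ]
    exact contDiff_const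

private theorem PUni_e_pull {R₁ R : ℕ} (ι : Fin R₁ → Fin R) (α : SF R₁ p q) (F : Fin R → Mˣ)
    (x : Pt φ) (δ : Fin p → Tan x) (ε : Fin q → Tan x) :
    pullAt x F (PUni_e ι α) δ ε = pullAt x (F ∘ ι) α δ ε := by
  classical
  unfold pullAt PUni_e
  have h1 : ∀ I : Fin p → Fin R, (Matrix.of fun i j => ev F (δ i) (I j)).det *
      ((∑ J : Fin p → Fin R₁, if ι ∘ J = I then
        (α J (logv x F ∘ ι)).compContinuousLinearMap (PUni_r ι) else 0) :
          (Fin R → ℝ) [⋀^Fin q]→L[ℝ] ℝ) (fun i => ev F (ε i)) =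
      ∑ J : Fin p → Fin R₁, if ι ∘ J = I then
        (Matrix.of fun i j => ev F (δ i) (ι (J j))).det *
          (α J (logv x F ∘ ι)) (fun i => ev (F ∘ ι) (ε i)) else 0 := by
    intro I
    rw [ContinuousAlternatingMap.sum_apply, Finset.mul_sum]
    refine Finset.sum_congr rfl fun J _ => ?_
    by_cases hJ : ι ∘ J = I
    · rw [if_pos hJ, if_pos hJ, ← hJ]
      rfl
    · rw [if_neg hJ, if_neg hJ]
      exact mul_zero _
  rw [Finset.sum_congr rfl fun I _ => h1 I, Finset.sum_comm]
  refine Finset.sum_congr rfl fun J _ => ?_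
  rw [Finset.sum_ite_eq]
  simp only [Finset.mem_univ, if_true]
  rfl

private theorem PUni_e_zero {R₁ R : ℕ} (ι : Fin R₁ → Fin R) (α : SF R₁ p q) (t : Fin R → ℝ)
    (h : ∀ J, α J (t ∘ ι) = 0) (I : Fin p → Fin R) : PUni_e ι α I t = 0 := by
  classical
  unfold PUni_e
  refine Finset.sum_eq_zero fun J _ => ?_
  by_cases hJ : ι ∘ J = I
  · rw [if_pos hJ, h J]
    ext v
    rfl
  · rw [if_neg hJ]

/-- the inductive property -/
private def PUni_P (ω : Fam φ p q) (O S : Set (Pt φ)) : Prop :=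
  ∃ (R : ℕ) (F : Fin R → Mˣ) (α : SF R p q) (ρ : (Fin R → ℝ) → ℝ) (Z U : Set (Fin R → ℝ)),
    α.Smooth ∧ ContDiff ℝ (⊤ : ℕ∞) ρ ∧ (∀ t, 0 ≤ ρ t) ∧ IsClosed Z ∧ IsOpen U ∧ Z ⊆ U ∧
    (∀ t, t ∉ Z → ∀ I, α I t = 0) ∧ (∀ x : Pt φ, logv x F ∈ U → x ∈ O) ∧
    (∀ (x : Pt φ) (δ : Fin p → Tan x) (ε : Fin q → Tan x),
      pullAt x F α δ ε = ρ (logv x F) * ω x δ ε) ∧ ∀ x ∈ S, 1 ≤ ρ (logv x F)

private theorem PUni_empty (ω : Fam φ p q) (O : Set (Pt φ)) : PUni_P ω O ∅ := by
  refine ⟨0, Fin.elim0, fun _ _ => 0, fun _ => 0, ∅, ∅, fun _ => contDiff_const, contDiff_const,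
    fun _ => le_rfl, isClosed_empty, isOpen_empty, subset_rfl, fun _ _ _ => rfl,
    fun x hx => absurd hx (Set.notMem_empty _), fun x δ ε => ?_,
    fun x hx => absurd hx (Set.notMem_empty _)⟩
  rw [zero_mul]
  unfold pullAt
  exact Finset.sum_eq_zero fun I _ => mul_zero _

private theorem PUni_union (ω : Fam φ p q) (O S S' : Set (Pt φ)) (h : PUni_P ω O S)
    (h' : PUni_P ω O S') : PUni_P ω O (S ∪ S') := by
  obtain ⟨R, F, α, ρ, Z, U, a1, a2, a3, a4, a5, a6, a7, a8, a9, a10⟩ := h
  obtain ⟨R', F', α', ρ', Z', U', b1, b2, b3, b4, b5, b6, b7, b8, b9, b10⟩ := h'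
  have hF : Fin.append F F' ∘ Fin.castAdd R' = F := by
    funext i; simp only [Function.comp_apply, Fin.append_left]
  have hF' : Fin.append F F' ∘ Fin.natAdd R = F' := by
    funext i; simp only [Function.comp_apply, Fin.append_right]
  have hl : ∀ x : Pt φ, logv x (Fin.append F F') ∘ Fin.castAdd R' = logv x F := by
    intro x
    conv_rhs => rw [← hF]
    rfl
  have hl' : ∀ x : Pt φ, logv x (Fin.append F F') ∘ Fin.natAdd R = logv x F' := by
    intro x
    conv_rhs => rw [← hF']
    rfl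
  have c1 : Continuous fun t : Fin (R + R') → ℝ => t ∘ Fin.castAdd R' :=
    (PUni_r (Fin.castAdd R')).continuous
  have c2 : Continuous fun t : Fin (R + R') → ℝ => t ∘ Fin.natAdd R :=
    (PUni_r (Fin.natAdd R)).continuous
  refine ⟨R + R', Fin.append F F',
    fun I t => PUni_e (Fin.castAdd R') α I t + PUni_e (Fin.natAdd R) α' I t,
    fun t => ρ (t ∘ Fin.castAdd R') + ρ' (t ∘ Fin.natAdd R),
    (fun t => t ∘ Fin.castAdd R') ⁻¹' Z ∪ (fun t => t ∘ Fin.natAdd R) ⁻¹' Z',
    (fun t => t ∘ Fin.castAdd R') ⁻¹' U ∪ (fun t => t ∘ Fin.natAdd R) ⁻¹' U',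
    ?_, ?_, ?_, ?_, ?_, ?_, ?_, ?_, ?_, ?_⟩
  · intro I
    exact (PUni_e_smooth _ α a1 I).add (PUni_e_smooth _ α' b1 I)
  · exact (a2.comp (PUni_r (Fin.castAdd R')).contDiff).add
      (b2.comp (PUni_r (Fin.natAdd R)).contDiff)
  · intro t
    exact add_nonneg (a3 _) (b3 _)
  · exact (a4.preimage c1).union (b4.preimage c2)
  · exact (a5.preimage c1).union (b5.preimage c2)
  · exact Set.union_subset_union (Set.preimage_mono a6) (Set.preimage_mono b6)
  · intro t ht I
    rw [Set.mem_union, not_or] at ht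
    show PUni_e (Fin.castAdd R') α I t + PUni_e (Fin.natAdd R) α' I t = 0
    rw [PUni_e_zero _ α t (a7 _ ht.1) I, PUni_e_zero _ α' t (b7 _ ht.2) I, add_zero]
  · intro x hx
    rcases hx with hx | hx
    · refine a8 x ?_
      rw [← hl x]
      exact hx
    · refine b8 x ?_
      rw [← hl' x]
      exact hx
  · intro x δ ε
    have h1 : pullAt x (Fin.append F F')
        (fun I t => PUni_e (Fin.castAdd R') α I t + PUni_e (Fin.natAdd R) α' I t) δ ε =
        pullAt x (Fin.append F F') (PUni_e (Fin.castAdd R') α) δ ε +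
        pullAt x (Fin.append F F') (PUni_e (Fin.natAdd R) α') δ ε := by
      unfold pullAt
      rw [← Finset.sum_add_distrib]
      refine Finset.sum_congr rfl fun I _ => ?_
      rw [ContinuousAlternatingMap.add_apply, mul_add]
    rw [h1, PUni_e_pull, PUni_e_pull, hF, hF', a9, b9]
    show _ = (ρ (logv x (Fin.append F F') ∘ Fin.castAdd R') +
      ρ' (logv x (Fin.append F F') ∘ Fin.natAdd R)) * ω x δ ε
    rw [hl x, hl' x, add_mul]
  · intro x hx
    show 1 ≤ ρ (logv x (Fin.append F F') ∘ Fin.castAdd R') +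
      ρ' (logv x (Fin.append F F') ∘ Fin.natAdd R)
    rw [hl x, hl' x]
    rcases hx with hx | hx
    · have := a10 x hx
      have := b3 (logv x F')
      linarith
    · have := b10 x hx
      have := a3 (logv x F)
      linarith

private theorem PUni_local (ω : Fam φ p q) (hω : IsForm ω) (O : Set (Pt φ)) (hO : IsOpen O)
    (x : Pt φ) (hx : x ∈ O) : ∃ V ∈ 𝓝 x, PUni_P ω O V := by
  obtain ⟨R, F, α, hα, hev⟩ := hω x
  obtain ⟨k, G, ε, hε, hN⟩ := PUni_nhds x (Filter.inter_mem hev (hO.mem_nhds hx))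
  have hF : Fin.append F G ∘ Fin.castAdd k = F := by
    funext i; simp only [Function.comp_apply, Fin.append_left]
  have hF' : Fin.append F G ∘ Fin.natAdd R = G := by
    funext i; simp only [Function.comp_apply, Fin.append_right]
  have hl' : ∀ y : Pt φ, logv y (Fin.append F G) ∘ Fin.natAdd R = logv y G := by
    intro y
    conv_rhs => rw [← hF']
    rfl
  let b : ContDiffBump (logv x G) := ⟨ε / 4, ε / 2, by positivity, by linarith⟩
  have c2 : Continuous fun t : Fin (R + k) → ℝ => t ∘ Fin.natAdd R :=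
    (PUni_r (Fin.natAdd R)).continuous
  have hb : ContDiff ℝ (⊤ : ℕ∞) fun t : Fin (R + k) → ℝ => b (t ∘ Fin.natAdd R) :=
    b.contDiff.comp (PUni_r (Fin.natAdd R)).contDiff
  refine ⟨{y | dist (logv y G) (logv x G) < ε / 4}, ?_, R + k, Fin.append F G,
    fun I t => b (t ∘ Fin.natAdd R) • PUni_e (Fin.castAdd k) α I t,
    fun t => b (t ∘ Fin.natAdd R),
    (fun t => t ∘ Fin.natAdd R) ⁻¹' Metric.closedBall (logv x G) (ε / 2),
    (fun t => t ∘ Fin.natAdd R) ⁻¹' Metric.ball (logv x G) ε,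
    ?_, hb, fun t => b.nonneg, Metric.isClosed_closedBall.preimage c2,
    Metric.isOpen_ball.preimage c2, ?_, ?_, ?_, ?_, ?_⟩
  · have h1 : Continuous fun y : Pt φ => dist (logv y G) (logv x G) :=
      (PUni_cont_logv G).dist continuous_const
    refine (isOpen_lt h1 continuous_const).mem_nhds ?_
    show dist (logv x G) (logv x G) < ε / 4
    rw [dist_self]
    positivity
  · intro I
    exact hb.smul (PUni_e_smooth _ α hα I)
  · exact Set.preimage_mono (Metric.closedBall_subset_ball (by linarith))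
  · intro t ht I
    have h1 : b (t ∘ Fin.natAdd R) = 0 := by
      refine b.zero_of_le_dist ?_
      have : ¬ dist (t ∘ Fin.natAdd R) (logv x G) ≤ ε / 2 := ht
      exact (not_le.1 this).le
    show b (t ∘ Fin.natAdd R) • PUni_e (Fin.castAdd k) α I t = 0
    rw [h1, zero_smul]
  · intro y hy
    have h1 : dist (logv y G) (logv x G) < ε := by
      rw [← hl' y]
      exact hy
    exact (hN y h1).2
  · intro y δ η
    have h1 : pullAt y (Fin.append F G)
        (fun I t => b (t ∘ Fin.natAdd R) • PUni_e (Fin.castAdd k) α I t) δ η =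
        b (logv y G) * pullAt y (Fin.append F G) (PUni_e (Fin.castAdd k) α) δ η := by
      unfold pullAt
      rw [Finset.mul_sum]
      refine Finset.sum_congr rfl fun I _ => ?_
      rw [ContinuousAlternatingMap.smul_apply, smul_eq_mul, hl' y]
      ring
    rw [h1, PUni_e_pull, hF]
    show _ = b (logv y (Fin.append F G) ∘ Fin.natAdd R) * ω y δ η
    rw [hl' y]
    by_cases hz : dist (logv y G) (logv x G) < ε
    · have h2 : ω y = pull F α y := (hN y hz).1
      rw [h2]
      rfl
    · have h3 : b (logv y G) = 0 := by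
        refine b.zero_of_le_dist ?_
        show ε / 2 ≤ dist (logv y G) (logv x G)
        linarith [not_lt.1 hz]
      rw [h3, zero_mul, zero_mul]
  · intro y hy
    have h1 : b (logv y G) = 1 := by
      refine b.one_of_mem_closedBall ?_
      exact (Metric.mem_closedBall.2 (le_of_lt hy))
    show 1 ≤ b (logv y (Fin.append F G) ∘ Fin.natAdd R)
    rw [hl' y, h1]

/-- a positive smooth function equal to `u` for `u ≥ 1` -/
private theorem PUni_g : ∃ g : ℝ → ℝ, ContDiff ℝ (⊤ : ℕ∞) g ∧ (∀ u, 0 < g u) ∧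
    ∀ u, 1 ≤ u → g u = u := by
  refine ⟨fun u => Real.smoothTransition u * u + (1 - Real.smoothTransition u), ?_, ?_, ?_⟩
  · exact (Real.smoothTransition.contDiff.mul contDiff_id).add
      (contDiff_const.sub Real.smoothTransition.contDiff)
  · intro u
    show 0 < Real.smoothTransition u * u + (1 - Real.smoothTransition u)
    rcases le_or_gt u 0 with hu | hu
    · rw [Real.smoothTransition.zero_of_nonpos hu]
      norm_num
    · have h1 := Real.smoothTransition.pos_of_pos hu
      have h2 := Real.smoothTransition.le_one u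
      have h3 : 0 < Real.smoothTransition u * u := mul_pos h1 hu
      linarith
  · intro u hu
    show Real.smoothTransition u * u + (1 - Real.smoothTransition u) = u
    rw [Real.smoothTransition.one_of_one_le hu]
    ring

theorem thm_PUni : St_PUni := by
  intro K M _ _ φ p q ω C O hω hC hz hO hCO
  have hP : PUni_P ω O C := by
    refine hC.induction_on (p := PUni_P ω O) (PUni_empty ω O) ?_ ?_ ?_
    · rintro s t hst ⟨R, F, α, ρ, Z, U, a1, a2, a3, a4, a5, a6, a7, a8, a9, a10⟩
      exact ⟨R, F, α, ρ, Z, U, a1, a2, a3, a4, a5, a6, a7, a8, a9, fun x hx => a10 x (hst hx)⟩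
    · intro s t hs ht
      exact PUni_union ω O s t hs ht
    · intro x hx
      obtain ⟨V, hV, hPV⟩ := PUni_local ω hω O hO x (hCO hx)
      exact ⟨V, mem_nhdsWithin_of_mem_nhds hV, hPV⟩
  obtain ⟨R, F, α, ρ, Z, U, a1, a2, a3, a4, a5, a6, a7, a8, a9, a10⟩ := hP
  obtain ⟨g, hg, hgp, hg1⟩ := PUni_g
  have hK : IsCompact ((fun x : Pt φ => logv x F) '' C) := hC.image (PUni_cont_logv F)
  obtain ⟨r, hr, hrK⟩ := hK.isBounded.subset_closedBall_lt 0 (0 : Fin R → ℝ)
  let κ : ContDiffBump (0 : Fin R → ℝ) := ⟨r, r + 1, hr, by linarith⟩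
  have hκ : ContDiff ℝ (⊤ : ℕ∞) (fun t : Fin R → ℝ => κ t) := κ.contDiff
  have hθ : ContDiff ℝ (⊤ : ℕ∞) (fun t : Fin R → ℝ => (g (ρ t))⁻¹) :=
    (hg.comp a2).inv fun t => (hgp _).ne'
  refine ⟨R, F, fun I t => (κ t * (g (ρ t))⁻¹) • α I t, U, ?_, a5, ?_, ?_, ?_⟩
  · intro I
    refine ⟨(hκ.mul hθ).smul (a1 I), ?_⟩
    have h1 : HasCompactSupport fun t : Fin R → ℝ => κ t := κ.hasCompactSupport
    have h2 : HasCompactSupport fun t : Fin R → ℝ => κ t * (g (ρ t))⁻¹ := h1.mul_right
    exact h2.smul_right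
  · intro I
    refine (closure_minimal ?_ a4).trans a6
    intro t ht
    by_contra hc
    refine ht ?_
    show (κ t * (g (ρ t))⁻¹) • α I t = 0
    rw [a7 t hc I, smul_zero]
  · intro x hx
    exact a8 x hx
  · funext x δ ε
    have h1 : (pull F (fun I t => (κ t * (g (ρ t))⁻¹) • α I t) : Fam φ p q) x δ ε =
        (κ (logv x F) * (g (ρ (logv x F)))⁻¹) * pullAt x F α δ ε := by
      show pullAt x F _ δ ε = _
      unfold pullAt
      rw [Finset.mul_sum]
      refine Finset.sum_congr rfl fun I _ => ?_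
      rw [ContinuousAlternatingMap.smul_apply, smul_eq_mul]
      ring
    rw [h1, a9]
    by_cases hx : x ∈ C
    · have h2 : κ (logv x F) = 1 :=
        κ.one_of_mem_closedBall (hrK ⟨x, hx, rfl⟩)
      have h3 := a10 x hx
      have h4 : ρ (logv x F) ≠ 0 := by linarith
      rw [h2, hg1 _ h3, one_mul, ← mul_assoc, inv_mul_cancel₀ h4, one_mul]
    · have h2 : ω x δ ε = 0 := by
        rw [hz x hx]
        rfl
      rw [h2, mul_zero, mul_zero]

end PUni

end TDC
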