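import Pool.Agent.TDC.St2

/-!
# TDC, module Pair: partition of unity for a pair `(η, d''η)`
-/

namespace TDC

open scoped Topology Manifold

/-! ## Superforms in more variables -/

/-- restriction to the coordinates `ι` -/
private noncomputable def Pair_pr {R₁ R : ℕ} (ι : Fin R₁ → Fin R) :
    (Fin R → ℝ) →L[ℝ] (Fin R₁ → ℝ) :=
  ContinuousLinearMap.pi fun i => ContinuousLinearMap.proj (ι i)

/-- a superform on `ℝ^{R₁}` as a superform on `ℝ^R` -/
private noncomputable def Pair_ext {R₁ R p q : ℕ} (ι : Fin R₁ → Fin R) (α : SF R₁ p q) :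
    SF R p q := fun I t => ∑ I₁ : Fin p → Fin R₁,
      if ι ∘ I₁ = I then (α I₁ (Pair_pr ι t)).compContinuousLinearMap (Pair_pr ι) else 0

private theorem Pair_comp_smooth {R₁ R q : ℕ} (ι : Fin R₁ → Fin R)
    (a : (Fin R₁ → ℝ) → (Fin R₁ → ℝ) [⋀^Fin q]→L[ℝ] ℝ) (ha : ContDiff ℝ (⊤ : ℕ∞) a) :
    ContDiff ℝ (⊤ : ℕ∞)
      fun t => (a (Pair_pr ι t)).compContinuousLinearMap (Pair_pr ι) := by
  have h1 : ContDiff ℝ (⊤ : ℕ∞) fun t => a (Pair_pr ι t) :=
    ha.comp (Pair_pr ι).contDiff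
  exact (ContinuousAlternatingMap.compContinuousLinearMapCLM (Pair_pr ι)).contDiff.comp h1

private theorem Pair_ext_smooth {R₁ R p q : ℕ} (ι : Fin R₁ → Fin R) (α : SF R₁ p q)
    (hα : α.Smooth) : (Pair_ext ι α).Smooth := by
  intro I
  refine ContDiff.sum fun I₁ _ => ?_
  by_cases h : ι ∘ I₁ = I
  · simp only [h, if_true]
    exact Pair_comp_smooth ι _ (hα I₁)
  · simp only [h, if_false]
    exact contDiff_const

private theorem Pair_extDeriv_sum {E : Type} [NormedAddCommGroup E] [NormedSpace ℝ E] {n : ℕ}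
    {J : Type} (s : Finset J) (ω : J → E → E [⋀^Fin n]→L[ℝ] ℝ) (x : E)
    (h : ∀ j ∈ s, DifferentiableAt ℝ (ω j) x) :
    extDeriv (fun y => ∑ j ∈ s, ω j y) x = ∑ j ∈ s, extDeriv (ω j) x := by
  classical
  induction s using Finset.induction_on with
  | empty =>
    simp only [Finset.sum_empty]
    ext v
    rw [extDeriv_apply (differentiableAt_const _)]
    simp
  | insert a s ha ih =>
    have h1 : (fun y => ∑ j ∈ insert a s, ω j y) = fun y => ω a y + ∑ j ∈ s, ω j y := by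
      funext y
      rw [Finset.sum_insert ha]
    rw [h1, Finset.sum_insert ha, extDeriv_fun_add (h a (Finset.mem_insert_self _ _)) ?_,
      ih fun j hj => h j (Finset.mem_insert_of_mem hj)]
    exact DifferentiableAt.fun_sum fun j hj => h j (Finset.mem_insert_of_mem hj)

private theorem Pair_extDeriv_smul {E : Type} [NormedAddCommGroup E] [NormedSpace ℝ E] {n : ℕ}
    (ψ : E → ℝ) (β : E → E [⋀^Fin n]→L[ℝ] ℝ) (x : E) (hψ : DifferentiableAt ℝ ψ x)
    (hβ : DifferentiableAt ℝ β x) (v : Fin (n + 1) → E) :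
    extDeriv (fun y => ψ y • β y) x v = ψ x * extDeriv β x v +
      ∑ i : Fin (n + 1), (-1 : ℝ) ^ (i : ℕ) * (fderiv ℝ ψ x (v i) * β x (i.removeNth v)) := by
  have h1 : DifferentiableAt ℝ (fun y => ψ y • β y) x := hψ.fun_smul hβ
  rw [extDeriv_apply h1, extDeriv_apply hβ, Finset.mul_sum, ← Finset.sum_add_distrib]
  refine Finset.sum_congr rfl fun i _ => ?_
  have h2 : DifferentiableAt ℝ (fun y => β y (i.removeNth v)) x := by
    have := ((ContinuousAlternatingMap.apply ℝ E ℝ (i.removeNth v)).differentiableAt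
      (x := β x)).comp x hβ
    exact this
  have h3 : (fun y => (ψ y • β y) (i.removeNth v)) = fun y => ψ y * β y (i.removeNth v) := by
    funext y
    rfl
  rw [h3, fderiv_fun_mul hψ h2]
  simp only [add_apply, smul_apply, smul_eq_mul]
  ring

private theorem Pair_ext_dd {R₁ R p q : ℕ} (ι : Fin R₁ → Fin R) (α : SF R₁ p q)
    (hα : α.Smooth) : (Pair_ext ι α).dd = Pair_ext ι α.dd := by
  funext I t
  show extDeriv (fun t => ∑ I₁ : Fin p → Fin R₁,
      if ι ∘ I₁ = I then (α I₁ (Pair_pr ι t)).compContinuousLinearMap (Pair_pr ι) else 0) t = _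
  rw [Pair_extDeriv_sum Finset.univ (fun (I₁ : Fin p → Fin R₁) t =>
      if ι ∘ I₁ = I then (α I₁ (Pair_pr ι t)).compContinuousLinearMap (Pair_pr ι) else 0) t ?_]
  · refine Finset.sum_congr rfl fun I₁ _ => ?_
    by_cases h : ι ∘ I₁ = I
    · simp only [h, if_true]
      have h1 := extDeriv_pullback (𝕜 := ℝ) (ω := α I₁) (f := Pair_pr ι) (x := t) (r := ⊤)
        (((hα I₁).differentiable (by simp)).differentiableAt)
        (Pair_pr ι).contDiff.contDiffAt (by simp)
      simp only [ContinuousLinearMap.fderiv] at h1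
      exact h1
    · simp only [h, if_false]
      ext v
      rw [extDeriv_apply (differentiableAt_const _)]
      simp
  · intro I₁ _
    by_cases h : ι ∘ I₁ = I
    · simp only [h, if_true]
      exact ((Pair_comp_smooth ι _ (hα I₁)).differentiable (by simp)).differentiableAt
    · simp only [h, if_false]
      exact differentiableAt_const _

section field

variable {K M : Type} [NormedField K] [Field M] {φ : K →+* M}

private theorem Pair_ext_pull {R₁ R p q : ℕ} (ι : Fin R₁ → Fin R) (α : SF R₁ p q)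
    (x : Pt φ) (F : Fin R → Mˣ) (δ : Fin p → Tan x) (ε : Fin q → Tan x) :
    pullAt x F (Pair_ext ι α) δ ε = pullAt x (F ∘ ι) α δ ε := by
  unfold pullAt
  have h1 : ∀ I : Fin p → Fin R,
      (Matrix.of fun i j => ev F (δ i) (I j)).det *
        Pair_ext ι α I (logv x F) (fun i => ev F (ε i)) =
      ∑ I₁ : Fin p → Fin R₁, if I = ι ∘ I₁ then
        (Matrix.of fun i j => ev F (δ i) (I j)).det *
          α I₁ (logv x (F ∘ ι)) (fun i => ev (F ∘ ι) (ε i)) else 0 := by
    intro I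
    unfold Pair_ext
    rw [ContinuousAlternatingMap.sum_apply, Finset.mul_sum]
    refine Finset.sum_congr rfl fun I₁ _ => ?_
    by_cases h : ι ∘ I₁ = I
    · rw [if_pos h, if_pos h.symm]
      rfl
    · rw [if_neg h, if_neg (fun h' => h h'.symm)]
      simp
  rw [Finset.sum_congr rfl fun I _ => h1 I, Finset.sum_comm]
  refine Finset.sum_congr rfl fun I₁ _ => ?_
  rw [Finset.sum_ite_eq' Finset.univ (ι ∘ I₁)]
  simp only [Finset.mem_univ, if_true]
  rfl

private theorem Pair_pull_sum {R p q : ℕ} {J : Type} (s : Finset J) (β : J → SF R p q)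
    (x : Pt φ) (F : Fin R → Mˣ) (δ : Fin p → Tan x) (ε : Fin q → Tan x) :
    pullAt x F (fun I t => ∑ j ∈ s, β j I t) δ ε = ∑ j ∈ s, pullAt x F (β j) δ ε := by
  unfold pullAt
  rw [Finset.sum_comm]
  refine Finset.sum_congr rfl fun I _ => ?_
  rw [ContinuousAlternatingMap.sum_apply, Finset.mul_sum]

private theorem Pair_pull_smul {R p q : ℕ} (ψ : (Fin R → ℝ) → ℝ) (β : SF R p q)
    (x : Pt φ) (F : Fin R → Mˣ) (δ : Fin p → Tan x) (ε : Fin q → Tan x) :
    pullAt x F (fun I t => ψ t • β I t) δ ε = ψ (logv x F) * pullAt x F β δ ε := by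
  unfold pullAt
  rw [Finset.mul_sum]
  refine Finset.sum_congr rfl fun I _ => ?_
  rw [ContinuousAlternatingMap.smul_apply, smul_eq_mul]
  ring

private theorem Pair_pull_dsmul {R p q : ℕ} (ψ : (Fin R → ℝ) → ℝ) (β : SF R p q)
    (hψ : ContDiff ℝ (⊤ : ℕ∞) ψ) (hβ : β.Smooth)
    (x : Pt φ) (F : Fin R → Mˣ) (δ : Fin p → Tan x) (ε : Fin (q + 1) → Tan x) :
    pullAt x F (SF.dd fun I t => ψ t • β I t) δ ε = ψ (logv x F) * pullAt x F β.dd δ ε +
      ∑ i : Fin (q + 1), (-1 : ℝ) ^ (i : ℕ) * (fderiv ℝ ψ (logv x F) (ev F (ε i)) *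
        pullAt x F β δ (i.removeNth ε)) := by
  unfold pullAt
  have h1 : ∀ I : Fin p → Fin R,
      (Matrix.of fun i j => ev F (δ i) (I j)).det *
        SF.dd (fun I t => ψ t • β I t) I (logv x F) (fun i => ev F (ε i)) =
      ψ (logv x F) * ((Matrix.of fun i j => ev F (δ i) (I j)).det *
        β.dd I (logv x F) (fun i => ev F (ε i))) +
      ∑ i : Fin (q + 1), (-1 : ℝ) ^ (i : ℕ) * (fderiv ℝ ψ (logv x F) (ev F (ε i)) *
        ((Matrix.of fun i j => ev F (δ i) (I j)).det *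
          β I (logv x F) (fun k => ev F (i.removeNth ε k)))) := by
    intro I
    have h2 := Pair_extDeriv_smul ψ (β I) (logv x F)
      ((hψ.differentiable (by simp)).differentiableAt)
      (((hβ I).differentiable (by simp)).differentiableAt) (fun i => ev F (ε i))
    have h3 : SF.dd (fun I t => ψ t • β I t) I (logv x F) (fun i => ev F (ε i)) =
      extDeriv (fun y => ψ y • β I y) (logv x F) (fun i => ev F (ε i)) := rfl
    rw [h3, h2, mul_add, Finset.mul_sum]
    congr 1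
    · show _ * (_ * extDeriv (β I) _ _) = _ * (_ * extDeriv (β I) _ _)
      ring
    · refine Finset.sum_congr rfl fun i _ => ?_
      have h4 : (i.removeNth fun i => ev F (ε i)) = fun k => ev F (i.removeNth ε k) := rfl
      rw [h4]
      ring
  rw [Finset.sum_congr rfl fun I _ => h1 I, Finset.sum_add_distrib, ← Finset.mul_sum,
    Finset.sum_comm]
  congr 1
  refine Finset.sum_congr rfl fun i _ => ?_
  rw [← Finset.mul_sum, ← Finset.mul_sum]

/-! ## Neighbourhoods and partitions of unity -/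

private theorem Pair_cont (m : ℕ) (G : Fin m → Mˣ) : Continuous fun y : Pt φ => logv y G := by
  refine continuous_pi fun i => ?_
  have h1 : Continuous fun y : Pt φ => y.v (G i) :=
    (continuous_apply ((G i : Mˣ) : M)).comp
      (continuous_induced_dom (f := fun (x : Pt φ) (f : M) => x.v f))
  exact h1.log fun y => y.v.ne_zero (G i).ne_zero

private theorem Pair_nhds (x : Pt φ) (N : Set (Pt φ)) (hN : N ∈ 𝓝 x) :
    ∃ (m : ℕ) (G : Fin m → Mˣ) (V : Set (Fin m → ℝ)), IsOpen V ∧ logv x G ∈ V ∧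
      ∀ y : Pt φ, logv y G ∈ V → y ∈ N := by
  classical
  rw [nhds_induced, Filter.mem_comap] at hN
  obtain ⟨T, hT, hTN⟩ := hN
  rw [nhds_pi, Filter.mem_pi] at hT
  obtain ⟨I, hI, t, ht, hIt⟩ := hT
  have hfin : {u : Mˣ | (u : M) ∈ I}.Finite := hI.preimage (Units.val_injective.injOn)
  let s : Finset Mˣ := hfin.toFinset
  let e := s.equivFin
  have hmem : ∀ i, (((e.symm i : Mˣ) : M)) ∈ I := by
    intro i
    have := (e.symm i).2
    rw [Set.Finite.mem_toFinset] at this
    exact this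
  refine ⟨s.card, fun i => (e.symm i : Mˣ), {w | ∀ i, Real.exp (w i) ∈
    interior (t ((e.symm i : Mˣ) : M))}, ?_, ?_, ?_⟩
  · rw [Set.ofPred_forall]
    exact isOpen_iInter_of_finite fun i => isOpen_interior.preimage (by fun_prop)
  · intro i
    show Real.exp (Real.log _) ∈ _
    rw [Real.exp_log (x.v.pos (Units.ne_zero _))]
    exact mem_interior_iff_mem_nhds.mpr (ht _)
  · intro y hy
    apply hTN
    apply hIt
    intro f hf
    by_cases h0 : f = 0
    · subst h0
      show y.v 0 ∈ t 0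
      have := mem_of_mem_nhds (ht 0)
      rw [map_zero] at this ⊢
      exact this
    · have hu : Units.mk0 f h0 ∈ s := by
        rw [Set.Finite.mem_toFinset]
        exact hf
      have h1 := hy (e ⟨Units.mk0 f h0, hu⟩)
      have h2 := interior_subset h1
      simp only [Equiv.symm_apply_apply, Units.val_mk0, logv] at h2
      rw [Real.exp_log (y.v.pos h0)] at h2
      exact h2

end field

private theorem Pair_pu {R : ℕ} {J : Type} [Fintype J] (L : Set (Fin R → ℝ)) (hL : IsCompact L)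
    (W : J → Set (Fin R → ℝ)) (hW : ∀ j, IsOpen (W j)) (hLW : L ⊆ ⋃ j, W j) :
    ∃ ψ : J → (Fin R → ℝ) → ℝ, (∀ j, ContDiff ℝ (⊤ : ℕ∞) (ψ j)) ∧
      (∀ j, HasCompactSupport (ψ j)) ∧ (∀ j, tsupport (ψ j) ⊆ W j) ∧
      ∀ t ∈ L, ∀ᶠ s in 𝓝 t, ∑ j, ψ j s = 1 := by
  obtain ⟨r, hr⟩ := hL.isBounded.subset_ball (0 : Fin R → ℝ)
  have hopen : ∀ j, IsOpen (W j ∩ Metric.ball 0 r) := fun j => (hW j).inter Metric.isOpen_ball
  have hcov : L ⊆ ⋃ j, (W j ∩ Metric.ball 0 r) := by
    rw [← Set.iUnion_inter]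
    exact Set.subset_inter hLW hr
  obtain ⟨L', hL', h1, h2⟩ := exists_compact_between hL (isOpen_iUnion hopen) hcov
  obtain ⟨f, hf⟩ := SmoothPartitionOfUnity.exists_isSubordinate 𝓘(ℝ, Fin R → ℝ)
    hL'.isClosed (fun j => W j ∩ Metric.ball 0 r) hopen h2
  refine ⟨fun j => f j, fun j => ?_, fun j => ?_, fun j => ?_, fun t ht => ?_⟩
  · exact (f j).contMDiff.contDiff
  · refine HasCompactSupport.of_support_subset_isCompact (isCompact_closedBall (0 : Fin R → ℝ) r) ?_
    exact (subset_tsupport _).trans (((hf j).trans Set.inter_subset_right).trans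
      Metric.ball_subset_closedBall)
  · exact (hf j).trans Set.inter_subset_left
  · have hint : interior L' ∈ 𝓝 t := isOpen_interior.mem_nhds (h1 ht)
    filter_upwards [hint] with s hs
    have := f.sum_eq_one (interior_subset hs)
    rwa [finsum_eq_sum_of_fintype] at this

/-- **Pair**. -/
theorem thm_Pair : St_Pair := by
  intro K M _ _ φ p q η ω hη hCη hCω
  obtain ⟨C₁, hC₁, hη0⟩ := hCη
  obtain ⟨C₂, hC₂, hω0⟩ := hCω
  have hC : IsCompact (C₁ ∪ C₂) := hC₁.union hC₂
  choose R F α hα hev using hη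
  choose m G V hVo hxV hVN using fun x : Pt φ => Pair_nhds x _ (hev x)
  have hO : ∀ x ∈ C₁ ∪ C₂, {y : Pt φ | logv y (G x) ∈ V x} ∈ 𝓝 x := fun x _ =>
    ((hVo x).preimage (Pair_cont _ (G x))).mem_nhds (hxV x)
  obtain ⟨s, hs, hcov⟩ := hC.elim_nhds_subcover _ hO
  let J : Type := Σ x : {x // x ∈ s}, (Fin (R x.1) ⊕ Fin (m x.1))
  let e : J ≃ Fin (Fintype.card J) := Fintype.equivFin J
  let h : J → Mˣ := fun j => Sum.elim (F j.1.1) (G j.1.1) j.2
  let H : Fin (Fintype.card J) → Mˣ := fun k => h (e.symm k)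
  let ι : ∀ x : {x // x ∈ s}, Fin (R x.1) → Fin (Fintype.card J) := fun x i => e ⟨x, Sum.inl i⟩
  let κ : ∀ x : {x // x ∈ s}, Fin (m x.1) → Fin (Fintype.card J) := fun x i => e ⟨x, Sum.inr i⟩
  have hι : ∀ x, H ∘ ι x = F x.1 := by
    intro x
    funext i
    show h (e.symm (e ⟨x, Sum.inl i⟩)) = F x.1 i
    rw [e.symm_apply_apply]
    rfl
  have hκ : ∀ x, H ∘ κ x = G x.1 := by
    intro x
    funext i
    show h (e.symm (e ⟨x, Sum.inr i⟩)) = G x.1 i
    rw [e.symm_apply_apply]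
    rfl
  let W : {x // x ∈ s} → Set (Fin (Fintype.card J) → ℝ) := fun x => {t | t ∘ κ x ∈ V x.1}
  have hW : ∀ x, IsOpen (W x) := fun x => (hVo x.1).preimage (by fun_prop)
  have hL : IsCompact ((fun y : Pt φ => logv y H) '' (C₁ ∪ C₂)) := hC.image (Pair_cont _ H)
  have hLW : (fun y : Pt φ => logv y H) '' (C₁ ∪ C₂) ⊆ ⋃ x, W x := by
    rintro _ ⟨y, hy, rfl⟩
    obtain ⟨x, hx, hxy⟩ := Set.mem_iUnion₂.mp (hcov hy)
    refine Set.mem_iUnion.mpr ⟨⟨x, hx⟩, ?_⟩
    show logv y H ∘ κ ⟨x, hx⟩ ∈ V x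
    have h2 : logv y H ∘ κ ⟨x, hx⟩ = logv y (H ∘ κ ⟨x, hx⟩) := rfl
    rw [h2, hκ]
    exact hxy
  obtain ⟨ψ, hψ1, hψ2, hψ3, hψ4⟩ := Pair_pu _ hL W hW hLW
  have hβ : ∀ x : {x // x ∈ s}, (Pair_ext (ι x) (α x.1)).Smooth := fun x =>
    Pair_ext_smooth _ _ (hα x.1)
  -- the chart is valid on the support of the cut-off
  have hval : ∀ (x : {x // x ∈ s}) (y : Pt φ), logv y H ∈ tsupport (ψ x) →
      η y = pull (F x.1) (α x.1) y ∧ ω y = pull (F x.1) (α x.1).dd y := by
    intro x y hy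
    refine hVN x.1 y ?_
    have h1 := hψ3 x hy
    have h2 : logv y H ∘ κ x ∈ V x.1 := h1
    have h3 : logv y H ∘ κ x = logv y (H ∘ κ x) := rfl
    rwa [h3, hκ] at h2
  have hz : ∀ (x : {x // x ∈ s}) (y : Pt φ), logv y H ∉ tsupport (ψ x) →
      ψ x (logv y H) = 0 ∧ fderiv ℝ (ψ x) (logv y H) = 0 := by
    intro x y hy
    refine ⟨image_eq_zero_of_notMem_tsupport hy, ?_⟩
    exact image_eq_zero_of_notMem_tsupport fun h' => hy (tsupport_fderiv_subset ℝ h')
  refine ⟨_, H, fun I t => ∑ x : {x // x ∈ s}, ψ x t • Pair_ext (ι x) (α x.1) I t, ?_, ?_, ?_⟩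
  · intro I
    constructor
    · exact ContDiff.sum fun x _ => (hψ1 x).smul (hβ x I)
    · refine HasCompactSupport.intro (K := ⋃ x, tsupport (ψ x))
        (isCompact_iUnion fun x => hψ2 x) fun t ht => ?_
      refine Finset.sum_eq_zero fun x _ => ?_
      have h1 : t ∉ tsupport (ψ x) := fun h' => ht (Set.mem_iUnion.mpr ⟨x, h'⟩)
      rw [image_eq_zero_of_notMem_tsupport h1, zero_smul]
  · funext y δ ε
    show η y δ ε = pullAt y H _ δ ε
    rw [Pair_pull_sum Finset.univ (fun x I t => ψ x t • Pair_ext (ι x) (α x.1) I t)]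
    have h1 : ∀ x : {x // x ∈ s},
        pullAt y H (fun I t => ψ x t • Pair_ext (ι x) (α x.1) I t) δ ε =
          ψ x (logv y H) * η y δ ε := by
      intro x
      rw [Pair_pull_smul, Pair_ext_pull, hι]
      by_cases hy : logv y H ∈ tsupport (ψ x)
      · rw [(hval x y hy).1]
        rfl
      · rw [(hz x y hy).1, zero_mul, zero_mul]
    rw [Finset.sum_congr rfl fun x _ => h1 x, ← Finset.sum_mul]
    by_cases hy : y ∈ C₁ ∪ C₂
    · rw [(hψ4 _ ⟨y, hy, rfl⟩).self_of_nhds, one_mul]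
    · rw [hη0 y fun h' => hy (Or.inl h')]
      simp
  · funext y δ ε
    show ω y δ ε = pullAt y H (SF.dd fun I t => ∑ x : {x // x ∈ s},
      ψ x t • Pair_ext (ι x) (α x.1) I t) δ ε
    have hdd : (SF.dd fun I t => ∑ x : {x // x ∈ s},
        ψ x t • Pair_ext (ι x) (α x.1) I t) = fun I t => ∑ x : {x // x ∈ s},
        SF.dd (fun I t => ψ x t • Pair_ext (ι x) (α x.1) I t) I t := by
      funext I t
      exact Pair_extDeriv_sum Finset.univ
        (fun (x : {x // x ∈ s}) t => ψ x t • Pair_ext (ι x) (α x.1) I t) t fun x _ =>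
        (((hψ1 x).smul (hβ x I)).differentiable (by simp)).differentiableAt
    rw [hdd, Pair_pull_sum Finset.univ
      (fun x => SF.dd (fun I t => ψ x t • Pair_ext (ι x) (α x.1) I t))]
    have h1 : ∀ x : {x // x ∈ s},
        pullAt y H (SF.dd (fun I t => ψ x t • Pair_ext (ι x) (α x.1) I t)) δ ε =
          ψ x (logv y H) * ω y δ ε + ∑ i : Fin (q + 1), (-1 : ℝ) ^ (i : ℕ) *
            (fderiv ℝ (ψ x) (logv y H) (ev H (ε i)) * η y δ (i.removeNth ε)) := by
      intro x
      rw [Pair_pull_dsmul _ _ (hψ1 x) (hβ x), Pair_ext_dd _ _ (hα x.1), Pair_ext_pull, hι]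
      by_cases hy : logv y H ∈ tsupport (ψ x)
      · rw [(hval x y hy).2, (hval x y hy).1]
        congr 1
        refine Finset.sum_congr rfl fun i _ => ?_
        rw [Pair_ext_pull, hι]
        rfl
      · rw [(hz x y hy).1, (hz x y hy).2]
        simp
    rw [Finset.sum_congr rfl fun x _ => h1 x, Finset.sum_add_distrib, ← Finset.sum_mul,
      Finset.sum_comm]
    by_cases hy : y ∈ C₁ ∪ C₂
    · have hev1 := hψ4 _ ⟨y, hy, rfl⟩
      have hd : ∀ v, ∑ x : {x // x ∈ s}, fderiv ℝ (ψ x) (logv y H) v = 0 := by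
        intro v
        have h2 : fderiv ℝ (fun t => ∑ x : {x // x ∈ s}, ψ x t) (logv y H) = 0 := by
          have h3 : (fun t => ∑ x : {x // x ∈ s}, ψ x t) =ᶠ[𝓝 (logv y H)] fun _ => (1 : ℝ) := hev1
          rw [h3.fderiv_eq]
          simp
        rw [fderiv_fun_sum fun x _ =>
          ((hψ1 x).differentiable (by simp)).differentiableAt] at h2
        have h4 := congrArg (fun l : (Fin (Fintype.card J) → ℝ) →L[ℝ] ℝ => l v) h2
        simpa using h4
      rw [hev1.self_of_nhds, one_mul]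
      have h5 : ∀ i : Fin (q + 1), ∑ x : {x // x ∈ s}, (-1 : ℝ) ^ (i : ℕ) *
          (fderiv ℝ (ψ x) (logv y H) (ev H (ε i)) * η y δ (i.removeNth ε)) = 0 := by
        intro i
        rw [← Finset.mul_sum, ← Finset.sum_mul, hd, zero_mul, mul_zero]
      rw [Finset.sum_congr rfl fun i _ => h5 i]
      simp
    · rw [hη0 y fun h' => hy (Or.inl h'), hω0 y fun h' => hy (Or.inr h')]
      simp

end TDC
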