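import Pool.Agent.TDC.St2
import Pool.Agent.TDC.St3

/-!
# TDC, module PhiO: `Phi` and the moves with support control
-/

set_option autoImplicit false

namespace TDC

open scoped Topology
open MeasureTheory Polynomial

/-- independence of `(g', q)` at `x` implies independence of `g'` at the restriction -/
private theorem PhiO_indep {K L' L : Type} [NormedField K] [Field L'] [Field L] [Algebra K L']
    [Algebra K L] [Algebra L' L] [IsScalarTower K L' L] (m : ℕ) (g' : Fin m → L'ˣ) (q : Lˣ)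
    (x : Pt (algebraMap K L))
    (hx : Indep x (Fin.snoc (α := fun _ => Lˣ) (up L g') q)) : Indep (res L' x) g' := by
  rintro k ⟨a, ha⟩
  have h := hx (Fin.snoc (α := fun _ => ℤ) k 0) ⟨a, by
    rw [ha, Fin.prod_univ_castSucc]
    simp only [Fin.snoc_castSucc, Fin.snoc_last, zpow_zero, mul_one]
    show x.v (algebraMap L' L ((∏ i, g' i ^ k i : L'ˣ) : L')) = _
    congr 1
    have e : (∏ i : Fin m, up L g' i ^ k i : Lˣ) =
        Units.map (algebraMap L' L).toMonoidHom (∏ i : Fin m, g' i ^ k i) := by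
      rw [map_prod]
      exact Finset.prod_congr rfl fun i _ => (map_zpow _ _ _).symm
    rw [e]
    rfl⟩
  funext i
  have h1 := congrFun h i.castSucc
  simpa only [Fin.snoc_castSucc, Pi.zero_apply] using h1

section tower

variable {K L' L : Type} [NormedField K] [Field L'] [Field L] [Algebra K L'] [Algebra K L]
  [Algebra L' L] [IsScalarTower K L' L] {m R : ℕ}

/-- values of `log|(g, t)|` -/
private theorem PhiO_logv (t : Lˣ) (g : Fin m → L'ˣ) (x : Pt (algebraMap K L)) :
    logv x (Fin.snoc (α := fun _ => Lˣ) (up L g) t : Fin (m + 1) → Lˣ) =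
      Fin.snoc (α := fun _ => ℝ) (logv (res L' x) g) (Real.log (x.v t)) := by
  funext i
  refine Fin.lastCases ?_ (fun j => ?_) i
  · simp [logv]
  · simp only [logv, Fin.snoc_castSucc]
    rfl

/-- expansion of the determinant along the last column -/
private theorem PhiO_det (t : Lˣ) (g : Fin m → L'ˣ) (x : Pt (algebraMap K L))
    (δ : Fin (m + 1) → Tan x) :
    (Matrix.of fun i j =>
      ev (Fin.snoc (α := fun _ => Lˣ) (up L g) t : Fin (m + 1) → Lˣ) (δ i) j).det =
      ∑ i : Fin (m + 1), (-1 : ℝ) ^ ((i : ℕ) + m) * (δ i).1 (Additive.ofMul t) *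
        (Matrix.of fun k l => ev g (resT L' (δ (i.succAbove k))) l).det := by
  rw [Matrix.det_succ_column _ (Fin.last m)]
  refine Finset.sum_congr rfl fun i _ => ?_
  have e1 : (Matrix.of fun i j =>
      ev (Fin.snoc (α := fun _ => Lˣ) (up L g) t : Fin (m + 1) → Lˣ) (δ i) j) i (Fin.last m) =
      (δ i).1 (Additive.ofMul t) := by
    simp [ev]
  have e2 : (Matrix.of fun i j =>
      ev (Fin.snoc (α := fun _ => Lˣ) (up L g) t : Fin (m + 1) → Lˣ) (δ i) j).submatrix
        i.succAbove (Fin.last m).succAbove =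
      Matrix.of fun k l => ev g (resT L' (δ (i.succAbove k))) l := by
    ext k l
    simp only [Matrix.submatrix_apply, Matrix.of_apply, ev, Fin.succAbove_last, Fin.snoc_castSucc]
    rfl
  rw [e1, e2, Fin.val_last]

/-- `Phi` of a tube form -/
private theorem PhiO_tf (t : Lˣ) (β : ℝ → ℝ) (F : Fin R → L'ˣ) (g : Fin m → L'ˣ)
    (χ : (Fin R → ℝ) → ℝ) (b : (Fin m → ℝ) → ℝ) :
    Phi t β (tf F g χ b : Fam (algebraMap K L') m m) =
      (tf (up L F) (Fin.snoc (α := fun _ => Lˣ) (up L g) t) χ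
        (fun u => b (fun i : Fin m => u i.castSucc) * β (u (Fin.last m))) :
        Fam (algebraMap K L) (m + 1) (m + 1)) := by
  funext x δ ε
  have e0 : logv x (up L F) = logv (res L' x) F := rfl
  have e1 : (fun i : Fin m => logv x
      (Fin.snoc (α := fun _ => Lˣ) (up L g) t : Fin (m + 1) → Lˣ) i.castSucc) =
      logv (res L' x) g := by
    rw [PhiO_logv]
    funext i
    rw [Fin.snoc_castSucc]
  have e2 : logv x (Fin.snoc (α := fun _ => Lˣ) (up L g) t : Fin (m + 1) → Lˣ) (Fin.last m) =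
      Real.log (x.v t) := by
    rw [PhiO_logv, Fin.snoc_last]
  show β (Real.log (x.v t)) * ∑ i : Fin (m + 1), ∑ j : Fin (m + 1),
      (-1 : ℝ) ^ ((i : ℕ) + (j : ℕ)) * (δ i).1 (Additive.ofMul t) * (ε j).1 (Additive.ofMul t) *
        (χ (logv (res L' x) F) * b (logv (res L' x) g) *
          (Matrix.of fun k l => ev g (resT L' (δ (i.succAbove k))) l).det *
          (Matrix.of fun k l => ev g (resT L' (ε (j.succAbove k))) l).det) =
    χ (logv x (up L F)) * (b (fun i : Fin m => logv x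
      (Fin.snoc (α := fun _ => Lˣ) (up L g) t : Fin (m + 1) → Lˣ) i.castSucc) *
      β (logv x (Fin.snoc (α := fun _ => Lˣ) (up L g) t : Fin (m + 1) → Lˣ) (Fin.last m))) *
      (Matrix.of fun i j =>
        ev (Fin.snoc (α := fun _ => Lˣ) (up L g) t : Fin (m + 1) → Lˣ) (δ i) j).det *
      (Matrix.of fun i j =>
        ev (Fin.snoc (α := fun _ => Lˣ) (up L g) t : Fin (m + 1) → Lˣ) (ε i) j).det
  rw [PhiO_det, PhiO_det, e0, e1, e2, mul_assoc (χ (logv (res L' x) F) * _), Finset.sum_mul_sum,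
    Finset.mul_sum, Finset.mul_sum]
  refine Finset.sum_congr rfl fun i _ => ?_
  rw [Finset.mul_sum, Finset.mul_sum]
  refine Finset.sum_congr rfl fun j _ => ?_
  have e3 : (-1 : ℝ) ^ ((i : ℕ) + (j : ℕ)) = (-1 : ℝ) ^ ((i : ℕ) + m) * (-1 : ℝ) ^ ((j : ℕ) + m) := by
    have e4 : (-1 : ℝ) ^ m * (-1 : ℝ) ^ m = 1 := by rw [← mul_pow]; simp
    rw [pow_add, pow_add, pow_add]
    linear_combination (-((-1 : ℝ) ^ (i : ℕ) * (-1 : ℝ) ^ (j : ℕ))) * e4
  rw [e3]
  ring

end tower

/-- derivative of `c ⊗ β` in one of the first directions -/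
private theorem PhiO_fderiv {m : ℕ} {c : (Fin m → ℝ) → ℝ} {β : ℝ → ℝ}
    (hc : Differentiable ℝ c) (hβ : Differentiable ℝ β) (j : Fin m) (u : Fin (m + 1) → ℝ) :
    fderiv ℝ (fun u : Fin (m + 1) → ℝ => c (fun i : Fin m => u i.castSucc) * β (u (Fin.last m))) u
      (Pi.single j.castSucc 1) =
    fderiv ℝ c (fun i : Fin m => u i.castSucc) (Pi.single j 1) * β (u (Fin.last m)) := by
  set P : (Fin (m + 1) → ℝ) →L[ℝ] (Fin m → ℝ) :=
    ContinuousLinearMap.pi fun i : Fin m => ContinuousLinearMap.proj i.castSucc with hP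
  have h1 : HasFDerivAt (fun u : Fin (m + 1) → ℝ => c (fun i : Fin m => u i.castSucc))
      ((fderiv ℝ c (P u)).comp P) u :=
    (hc (P u)).hasFDerivAt.comp u P.hasFDerivAt
  have h2 : HasFDerivAt (fun u : Fin (m + 1) → ℝ => β (u (Fin.last m)))
      ((fderiv ℝ β (u (Fin.last m))).comp
        (ContinuousLinearMap.proj (R := ℝ) (φ := fun _ : Fin (m + 1) => ℝ) (Fin.last m))) u :=
    HasFDerivAt.comp u (hβ (u (Fin.last m))).hasFDerivAt
      (ContinuousLinearMap.proj (R := ℝ) (φ := fun _ : Fin (m + 1) => ℝ)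
        (Fin.last m)).hasFDerivAt
  have e1 : P (Pi.single j.castSucc 1) = Pi.single j 1 := by
    funext i
    simp only [hP, ContinuousLinearMap.pi_apply, ContinuousLinearMap.proj_apply]
    by_cases h : i = j
    · subst h; simp
    · rw [Pi.single_eq_of_ne h, Pi.single_eq_of_ne]
      intro h'
      exact h (Fin.castSucc_injective m h')
  have e2 : (Pi.single j.castSucc (1 : ℝ) : Fin (m + 1) → ℝ) (Fin.last m) = 0 :=
    Pi.single_eq_of_ne (Fin.castSucc_lt_last j).ne' _
  have h3 : fderiv ℝ (fun u : Fin (m + 1) → ℝ =>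
      c (fun i : Fin m => u i.castSucc) * β (u (Fin.last m))) u = _ := (h1.mul h2).fderiv
  rw [h3]
  simp only [add_apply, smul_apply,
    ContinuousLinearMap.comp_apply, ContinuousLinearMap.proj_apply, e1, e2, map_zero, smul_eq_mul]
  rw [mul_zero, zero_add, mul_comm]
  rfl

/-- the support of `c ⊗ β` -/
private theorem PhiO_supp {m : ℕ} {c : (Fin m → ℝ) → ℝ} {β : ℝ → ℝ} :
    tsupport (fun u : Fin (m + 1) → ℝ => c (fun i : Fin m => u i.castSucc) * β (u (Fin.last m))) ⊆
      {u | (fun i : Fin m => u i.castSucc) ∈ tsupport c ∧ u (Fin.last m) ∈ tsupport β} := by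
  refine closure_minimal (fun u hu => ?_) ?_
  · have h : c (fun i : Fin m => u i.castSucc) * β (u (Fin.last m)) ≠ 0 := hu
    exact ⟨subset_tsupport c (left_ne_zero_of_mul h), subset_tsupport β (right_ne_zero_of_mul h)⟩
  · have k1 : Continuous fun (u : Fin (m + 1) → ℝ) (i : Fin m) => u i.castSucc :=
      continuous_pi fun i => continuous_apply _
    have k2 : Continuous fun u : Fin (m + 1) → ℝ => u (Fin.last m) := continuous_apply _
    exact IsClosed.inter (IsClosed.preimage k1 (isClosed_tsupport c))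
      (IsClosed.preimage k2 (isClosed_tsupport β))

private theorem PhiO_SC {m : ℕ} {c : (Fin m → ℝ) → ℝ} {β : ℝ → ℝ} {S : Set (Fin m → ℝ)}
    (hc : SC c S) (hβ : ContDiff ℝ (⊤ : ℕ∞) β) (hβc : HasCompactSupport β) :
    SC (fun u : Fin (m + 1) → ℝ => c (fun i : Fin m => u i.castSucc) * β (u (Fin.last m)))
      {u | (fun i : Fin m => u i.castSucc) ∈ S} := by
  refine ⟨?_, ?_, ?_⟩
  · refine ContDiff.mul (hc.1.comp ?_) (hβ.comp ?_)
    · exact contDiff_pi.2 fun i => contDiff_apply ℝ ℝ i.castSucc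
    · exact contDiff_apply ℝ ℝ (Fin.last m)
  · have hK : IsCompact ((fun p : (Fin m → ℝ) × ℝ =>
        (Fin.snoc (α := fun _ => ℝ) p.1 p.2 : Fin (m + 1) → ℝ)) '' (tsupport c ×ˢ tsupport β)) := by
      refine (IsCompact.prod hc.2.1 hβc).image ?_
      refine continuous_pi fun i => ?_
      refine Fin.lastCases ?_ (fun j => ?_) i
      · simp only [Fin.snoc_last]
        exact continuous_snd
      · simp only [Fin.snoc_castSucc]
        exact (continuous_apply j).comp continuous_fst
    refine hK.of_isClosed_subset (isClosed_tsupport _) fun u hu => ?_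
    have h := PhiO_supp hu
    refine ⟨(fun i : Fin m => u i.castSucc, u (Fin.last m)), ⟨h.1, h.2⟩, ?_⟩
    funext i
    refine Fin.lastCases ?_ (fun j => ?_) i
    · simp only [Fin.snoc_last]
    · simp only [Fin.snoc_castSucc]
  · intro u hu
    exact hc.2.2 (PhiO_supp hu).1

theorem thm_PhiO (h : St_CleU) : St_PhiO := by
  intro K L' L _ _ _ _ _ _ _ t m β hβ hβc t' V V' hV ω hω
  refine Submodule.span_induction (p := fun ω _ => Phi t β ω ∈ W0 (algebraMap K L) (m + 1)
    {x | logv x (Fin.snoc (α := fun _ => Lˣ) (up L t') t) ∈ V'}) ?_ ?_ ?_ ?_ hω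
  · rintro ω ⟨R, F, g, χ, c, S, j, hcl, hc, hs, rfl⟩
    refine Submodule.subset_span ⟨R, up L F, Fin.snoc (α := fun _ => Lˣ) (up L g) t, χ,
      fun u => c (fun i : Fin m => u i.castSucc) * β (u (Fin.last m)),
      {u | (fun i : Fin m => u i.castSucc) ∈ S}, j.castSucc, ?_, ?_, ?_, ?_⟩
    · exact h K L' L m R F g χ S t hcl
    · exact PhiO_SC hc hβ hβc
    · intro x hx hG hu
      have h1 := PhiO_supp hu
      rw [PhiO_logv] at h1
      simp only [Set.mem_ofPred_eq, Fin.snoc_castSucc, Fin.snoc_last] at h1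
      refine hs (res L' x) ?_ (PhiO_indep m g t x hG) h1.1
      intro h2
      refine hx ?_
      show logv x (Fin.snoc (α := fun _ => Lˣ) (up L t') t) ∈ V'
      rw [PhiO_logv]
      exact hV _ h2 _ h1.2
    · rw [PhiO_tf]
      congr 1
      funext u
      exact (PhiO_fderiv (hc.1.differentiable (by simp)) (hβ.differentiable (by simp)) j u).symm
  · rw [map_zero]
    exact Submodule.zero_mem _
  · intro a b _ _ ha hb
    rw [map_add]
    exact Submodule.add_mem _ ha hb
  · intro r a _ ha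
    rw [map_smul]
    exact Submodule.smul_mem _ _ ha

end TDC
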