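import Pool.Agent.TDC.CleU

/-!
# TDC, module PhiT: the cross product on tube forms and on moves
-/

set_option autoImplicit false

namespace TDC

open scoped Topology
open MeasureTheory Polynomial

section

variable {K L' L : Type} [NormedField K] [Field L'] [Field L] [Algebra K L']
  [Algebra K L] [Algebra L' L] [IsScalarTower K L' L]

private theorem PhiT_det (t : Lˣ) (m : ℕ) (g' : Fin m → L'ˣ) (x : Pt (algebraMap K L))
    (δ : Fin (m + 1) → Tan x) :
    (Matrix.of fun i j => ev (Fin.snoc (α := fun _ => Lˣ) (up L g') t) (δ i) j).det =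
      ∑ i : Fin (m + 1), (-1 : ℝ) ^ ((i : ℕ) + m) * (δ i).1 (Additive.ofMul t) *
        (Matrix.of fun k l => ev g' (resT L' (δ (i.succAbove k))) l).det := by
  rw [Matrix.det_succ_column _ (Fin.last m)]
  refine Finset.sum_congr rfl fun i _ => ?_
  have h1 : (Matrix.of fun i j => ev (Fin.snoc (α := fun _ => Lˣ) (up L g') t) (δ i) j) i
      (Fin.last m) = (δ i).1 (Additive.ofMul t) := by
    show (δ i).1 (Additive.ofMul ((Fin.snoc (α := fun _ => Lˣ) (up L g') t : Fin (m + 1) → Lˣ)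
      (Fin.last m))) = _
    rw [Fin.snoc_last]
  have h2 : ((Matrix.of fun i j => ev (Fin.snoc (α := fun _ => Lˣ) (up L g') t) (δ i) j).submatrix
      i.succAbove (Fin.last m).succAbove) =
      Matrix.of fun k l => ev g' (resT L' (δ (i.succAbove k))) l := by
    ext k l
    show (δ (i.succAbove k)).1 (Additive.ofMul ((Fin.snoc (α := fun _ => Lˣ) (up L g') t :
      Fin (m + 1) → Lˣ) ((Fin.last m).succAbove l))) =
      (δ (i.succAbove k)).1 (Additive.ofMul (Units.map (algebraMap L' L).toMonoidHom (g' l)))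
    rw [Fin.succAbove_last, Fin.snoc_castSucc]
    rfl
  rw [h1, h2]
  rfl

private theorem PhiT_one (t : Lˣ) (m : ℕ) (β : ℝ → ℝ) (R : ℕ) (F₀ : Fin R → L'ˣ)
    (g' : Fin m → L'ˣ) (χ' : (Fin R → ℝ) → ℝ) (b : (Fin m → ℝ) → ℝ) :
    Phi t β (tf F₀ g' χ' b : Fam (algebraMap K L') m m) =
      (tf (up L F₀) (Fin.snoc (α := fun _ => Lˣ) (up L g') t) χ'
        (fun u => b (fun i : Fin m => u i.castSucc) * β (u (Fin.last m))) :
        Fam (algebraMap K L) (m + 1) (m + 1)) := by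
  funext x δ ε
  show β (Real.log (x.v t)) *
    ∑ i : Fin (m + 1), ∑ j : Fin (m + 1), (-1 : ℝ) ^ ((i : ℕ) + (j : ℕ)) *
      (δ i).1 (Additive.ofMul t) * (ε j).1 (Additive.ofMul t) *
      (χ' (logv (res L' x) F₀) * b (logv (res L' x) g') *
        (Matrix.of fun k l => ev g' (resT L' (δ (i.succAbove k))) l).det *
        (Matrix.of fun k l => ev g' (resT L' (ε (j.succAbove k))) l).det) =
    χ' (logv x (up L F₀)) *
      (b (fun i : Fin m => logv x (Fin.snoc (α := fun _ => Lˣ) (up L g') t) i.castSucc) *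
        β (logv x (Fin.snoc (α := fun _ => Lˣ) (up L g') t) (Fin.last m))) *
      (Matrix.of fun i j => ev (Fin.snoc (α := fun _ => Lˣ) (up L g') t) (δ i) j).det *
      (Matrix.of fun i j => ev (Fin.snoc (α := fun _ => Lˣ) (up L g') t) (ε i) j).det
  have h1 : (fun i : Fin m => logv x (Fin.snoc (α := fun _ => Lˣ) (up L g') t) i.castSucc) =
      logv (res L' x) g' := by
    funext i
    show Real.log (x.v ((Fin.snoc (α := fun _ => Lˣ) (up L g') t : Fin (m + 1) → Lˣ)
      i.castSucc)) = _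
    rw [Fin.snoc_castSucc]
    rfl
  have h2 : logv x (Fin.snoc (α := fun _ => Lˣ) (up L g') t) (Fin.last m) =
      Real.log (x.v t) := by
    show Real.log (x.v ((Fin.snoc (α := fun _ => Lˣ) (up L g') t : Fin (m + 1) → Lˣ)
      (Fin.last m))) = _
    rw [Fin.snoc_last]
  have h3 : logv x (up L F₀) = logv (res L' x) F₀ := rfl
  rw [h1, h2, h3, PhiT_det, PhiT_det, mul_assoc (χ' (logv (res L' x) F₀) * _), Finset.sum_mul_sum,
    Finset.mul_sum, Finset.mul_sum]
  refine Finset.sum_congr rfl fun i _ => ?_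
  rw [Finset.mul_sum, Finset.mul_sum]
  refine Finset.sum_congr rfl fun j _ => ?_
  have h4 : (-1 : ℝ) ^ ((i : ℕ) + (j : ℕ)) =
      (-1 : ℝ) ^ ((i : ℕ) + m) * (-1 : ℝ) ^ ((j : ℕ) + m) := by
    rw [← pow_add, show (i : ℕ) + m + (j + m) = (i : ℕ) + (j : ℕ) + 2 * m by ring,
      pow_add (-1 : ℝ) ((i : ℕ) + (j : ℕ)) (2 * m), pow_mul]
    simp
  rw [h4]
  ring

end

/-- the tensor product of functions -/
private def PhiT_ten {m : ℕ} (c : (Fin m → ℝ) → ℝ) (β : ℝ → ℝ) : (Fin (m + 1) → ℝ) → ℝ :=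
  fun u => c (fun i : Fin m => u i.castSucc) * β (u (Fin.last m))

private theorem PhiT_SC {m : ℕ} (c : (Fin m → ℝ) → ℝ) (β : ℝ → ℝ) (S : Set (Fin m → ℝ))
    (hc : SC c S) (hβ : ContDiff ℝ (⊤ : ℕ∞) β) (hβc : HasCompactSupport β) :
    SC (PhiT_ten c β) {u | (fun i : Fin m => u i.castSucc) ∈ S} := by
  have hr : ContDiff ℝ (⊤ : ℕ∞) (fun u : Fin (m + 1) → ℝ => fun i : Fin m => u i.castSucc) :=
    contDiff_pi.2 fun i => contDiff_apply ℝ ℝ _
  have hl : ContDiff ℝ (⊤ : ℕ∞) (fun u : Fin (m + 1) → ℝ => u (Fin.last m)) :=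
    contDiff_apply ℝ ℝ _
  refine ⟨(hc.1.comp hr).mul (hβ.comp hl), ?_, ?_⟩
  · have hcont : Continuous (fun v : (Fin m → ℝ) × ℝ =>
        (Fin.snoc (α := fun _ => ℝ) v.1 v.2 : Fin (m + 1) → ℝ)) := by
      refine continuous_pi fun i => ?_
      refine Fin.lastCases ?_ (fun i => ?_) i
      · simp only [Fin.snoc_last]
        exact continuous_snd
      · simp only [Fin.snoc_castSucc]
        exact (continuous_apply i).comp continuous_fst
    refine HasCompactSupport.intro ((hc.2.1.isCompact.prod hβc.isCompact).image hcont) ?_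
    intro u hu
    by_contra hne
    apply hu
    have h1 : c (fun i : Fin m => u i.castSucc) ≠ 0 := fun h => hne (by simp [PhiT_ten, h])
    have h2 : β (u (Fin.last m)) ≠ 0 := fun h => hne (by simp [PhiT_ten, h])
    refine ⟨(fun i : Fin m => u i.castSucc, u (Fin.last m)),
      ⟨subset_tsupport _ h1, subset_tsupport _ h2⟩, ?_⟩
    exact Fin.snoc_init_self u
  · intro u hu
    apply hc.2.2
    have hcl : IsClosed {u : Fin (m + 1) → ℝ | (fun i : Fin m => u i.castSucc) ∈ tsupport c} :=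
      (isClosed_tsupport c).preimage hr.continuous
    refine closure_minimal ?_ hcl hu
    intro w hw
    have h1 : c (fun i : Fin m => w i.castSucc) ≠ 0 := fun h => hw (by simp [PhiT_ten, h])
    exact subset_tsupport _ h1

private theorem PhiT_deriv {m : ℕ} (c : (Fin m → ℝ) → ℝ) (β : ℝ → ℝ)
    (hc : ContDiff ℝ (⊤ : ℕ∞) c) (hβ : ContDiff ℝ (⊤ : ℕ∞) β) (j : Fin m)
    (u : Fin (m + 1) → ℝ) :
    fderiv ℝ (PhiT_ten c β) u (Pi.single j.castSucc 1) =
      fderiv ℝ c (fun i : Fin m => u i.castSucc) (Pi.single j 1) * β (u (Fin.last m)) := by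
  let ρ : (Fin (m + 1) → ℝ) →L[ℝ] (Fin m → ℝ) :=
    ContinuousLinearMap.pi fun i => ContinuousLinearMap.proj i.castSucc
  let l : (Fin (m + 1) → ℝ) →L[ℝ] ℝ := ContinuousLinearMap.proj (Fin.last m)
  have h1 : HasFDerivAt (fun u : Fin (m + 1) → ℝ => c (ρ u)) ((fderiv ℝ c (ρ u)).comp ρ) u :=
    ((hc.differentiable (by simp)) (ρ u)).hasFDerivAt.comp u ρ.hasFDerivAt
  have h2 : HasFDerivAt (fun u : Fin (m + 1) → ℝ => β (l u)) ((fderiv ℝ β (l u)).comp l) u :=
    ((hβ.differentiable (by simp)) (l u)).hasFDerivAt.comp u l.hasFDerivAt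
  have h3 := h1.mul h2
  have h4 : fderiv ℝ (PhiT_ten c β) u = _ := h3.fderiv
  rw [h4]
  have h5 : l (Pi.single j.castSucc 1) = 0 := by
    show (Pi.single j.castSucc (1 : ℝ) : Fin (m + 1) → ℝ) (Fin.last m) = 0
    exact Pi.single_eq_of_ne (Fin.castSucc_lt_last j).ne' _
  have h6 : ρ (Pi.single j.castSucc 1) = Pi.single j 1 := by
    funext i
    show (Pi.single j.castSucc (1 : ℝ) : Fin (m + 1) → ℝ) i.castSucc = _
    by_cases hij : i = j
    · subst hij; simp
    · rw [Pi.single_eq_of_ne hij, Pi.single_eq_of_ne (fun h => hij (Fin.castSucc_injective _ h))]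
  simp only [add_apply, smul_apply,
    ContinuousLinearMap.comp_apply, smul_eq_mul, h5, h6, map_zero, mul_zero, zero_add]
  rw [mul_comm]
  rfl

theorem thm_PhiT : St_PhiT := by
  intro K L' L _ _ _ _ _ _ _ t m β hβ hβc
  refine ⟨fun R F₀ g' χ' b => PhiT_one t m β R F₀ g' χ' b, ?_⟩
  intro ω hω
  have hω' : ω ∈ Submodule.comap (Phi t β) (W0 (algebraMap K L) (m + 1) Set.univ) := by
    refine (Submodule.span_le.2 ?_) hω
    rintro w ⟨R, F, g, χ, c, S, j, hcl, hsc, -, rfl⟩
    show Phi t β _ ∈ W0 (algebraMap K L) (m + 1) Set.univ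
    refine Submodule.subset_span ?_
    refine ⟨R, up L F, Fin.snoc (α := fun _ => Lˣ) (up L g) t, χ, PhiT_ten c β,
      {u | (fun i : Fin m => u i.castSucc) ∈ S}, j.castSucc,
      thm_CleU K L' L m R F g χ S t hcl, PhiT_SC c β S hsc hβ hβc, fun x hx => (hx trivial).elim, ?_⟩
    rw [PhiT_one]
    have h : (fun u : Fin (m + 1) → ℝ => fderiv ℝ c (fun i : Fin m => u i.castSucc)
        (Pi.single j 1) * β (u (Fin.last m))) =
        fun u => fderiv ℝ (PhiT_ten c β) u (Pi.single j.castSucc 1) := by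
      funext u
      exact (PhiT_deriv c β hsc.1 hβ j u).symm
    rw [← h]
  exact hω'

end TDC
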