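import Pool.Agent.TDC.StT

/-!
# TDC [Psi] : the counting formula (helper89)
-/

set_option autoImplicit false

namespace TDC

open Polynomial

private theorem Psi_log {M E : Type} [Field M] (v : AbsoluteValue M ℝ) (Q : Polynomial M)
    (S : Finset E) (hS : S.Nonempty) (N : E → ℝ) (hN : ∀ e ∈ S, 0 < N e) (de : E → ℕ) (τ : ℝ)
    (h1 : ∀ e ∈ S, N e ≤ v (Q.coeff (de e)))
    (h2 : ∀ (j : ℕ) (B : ℝ), 0 ≤ B → (∀ e ∈ S, de e = j → N e ≤ B) → v (Q.coeff j) ≤ B) :
    Real.log (Q.gaussNorm v (Real.exp τ)) = ⨆ e : S, (Real.log (N e.1) + (de e.1 : ℝ) * τ) := by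
  have hc : ∀ k : ℕ, 0 < Real.exp τ ^ k := fun k => pow_pos (Real.exp_pos τ) k
  obtain ⟨e₀, he₀, hmax⟩ := S.exists_max_image (fun e => N e * Real.exp τ ^ de e) hS
  have hg : Q.gaussNorm v (Real.exp τ) = N e₀ * Real.exp τ ^ de e₀ := by
    apply le_antisymm
    · obtain ⟨j, hj⟩ := Polynomial.exists_eq_gaussNorm v (Real.exp τ) Q
      rw [hj]
      have hB : 0 ≤ N e₀ * Real.exp τ ^ de e₀ / Real.exp τ ^ j :=
        div_nonneg (mul_nonneg (hN e₀ he₀).le (hc _).le) (hc _).le
      have h3 := h2 j _ hB (fun e he hej => by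
        rw [le_div_iff₀ (hc j), ← hej]
        exact hmax e he)
      calc v (Q.coeff j) * Real.exp τ ^ j
          ≤ (N e₀ * Real.exp τ ^ de e₀ / Real.exp τ ^ j) * Real.exp τ ^ j :=
            mul_le_mul_of_nonneg_right h3 (hc j).le
        _ = N e₀ * Real.exp τ ^ de e₀ := div_mul_cancel₀ _ (hc j).ne'
    · exact (mul_le_mul_of_nonneg_right (h1 e₀ he₀) (hc _).le).trans
        (Polynomial.le_gaussNorm v Q (Real.exp_pos τ).le (de e₀))
  have hlog : ∀ e ∈ S, Real.log (N e * Real.exp τ ^ de e) = Real.log (N e) + (de e : ℝ) * τ := by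
    intro e he
    rw [Real.log_mul (hN e he).ne' (hc _).ne', Real.log_pow, Real.log_exp]
  rw [hg, hlog e₀ he₀]
  have : Nonempty S := ⟨⟨e₀, he₀⟩⟩
  have : Finite S := Finite.of_fintype S
  apply le_antisymm
  · exact le_ciSup (f := fun e : S => Real.log (N e.1) + (de e.1 : ℝ) * τ)
      (Set.finite_range _).bddAbove ⟨e₀, he₀⟩
  · refine ciSup_le (fun e => ?_)
    rw [← hlog e.1 e.2, ← hlog e₀ he₀]
    exact Real.log_le_log (mul_pos (hN e.1 e.2) (hc _)) (hmax e.1 e.2)

private theorem Psi_na_sum {K M E : Type} [NormedField K] [Field M] {φ : K →+* M} (x : Pt φ)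
    (S : Finset E) (T : E → M) (B : ℝ) (hB : 0 ≤ B) (h : ∀ e ∈ S, x.v (T e) ≤ B) :
    x.v (∑ e ∈ S, T e) ≤ B := by
  classical
  induction S using Finset.induction_on with
  | empty =>
    rw [Finset.sum_empty, map_zero]
    exact hB
  | insert a S ha ih =>
    rw [Finset.sum_insert ha]
    refine (x.na _ _).trans (max_le (h a (Finset.mem_insert_self a S)) (ih (fun e he => ?_)))
    exact h e (Finset.mem_insert_of_mem he)

/-- the exponents without the one with index `i` -/
private noncomputable def rd {n : ℕ} (i : Fin (n + 1)) (e : Fin (n + 1) →₀ ℕ) : Fin n →₀ ℕ :=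
  Finsupp.equivFunOnFinite.symm (fun k => e (i.succAbove k))

private theorem Psi_rd {n : ℕ} (i : Fin (n + 1)) (e : Fin (n + 1) →₀ ℕ) (k : Fin n) :
    rd i e k = e (i.succAbove k) := rfl

private theorem Psi_rd_inj {n : ℕ} (i : Fin (n + 1)) (e e' : Fin (n + 1) →₀ ℕ)
    (h1 : e i = e' i) (h2 : rd i e = rd i e') : e = e' := by
  ext j
  rcases Fin.eq_self_or_eq_succAbove i j with rfl | ⟨k, rfl⟩
  · exact h1
  · rw [← Psi_rd, ← Psi_rd, h2]

private theorem Psi_coeff {K L : Type} [Field K] [Field L] [Algebra K L] {n : ℕ}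
    (G : Fin (n + 1) → L) (i : Fin (n + 1)) (P : MvPolynomial (Fin (n + 1)) K) (j : ℕ) :
    (MvPolynomial.aeval (Function.update (fun j => Polynomial.C (G j)) i Polynomial.X)
      P : Polynomial L).coeff j = ∑ e ∈ P.support.filter (fun e => e i = j),
        algebraMap K L (P.coeff e) * ∏ k : Fin n, G (i.succAbove k) ^ e (i.succAbove k) := by
  have h0 : (MvPolynomial.aeval (Function.update (fun j => Polynomial.C (G j)) i Polynomial.X)
      P : Polynomial L) = ∑ e ∈ P.support, Polynomial.C (algebraMap K L (P.coeff e) *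
        ∏ k : Fin n, G (i.succAbove k) ^ e (i.succAbove k)) * Polynomial.X ^ e i := by
    rw [MvPolynomial.aeval_def, MvPolynomial.eval₂_eq']
    refine Finset.sum_congr rfl (fun e _ => ?_)
    rw [Fin.prod_univ_succAbove _ i, Function.update_self]
    have h1 : ∏ k : Fin n, (Function.update (fun j => Polynomial.C (G j)) i Polynomial.X
        (i.succAbove k)) ^ e (i.succAbove k) =
        Polynomial.C (∏ k : Fin n, G (i.succAbove k) ^ e (i.succAbove k)) := by
      rw [map_prod]
      refine Finset.prod_congr rfl (fun k _ => ?_)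
      rw [Function.update_of_ne (Fin.succAbove_ne i k), map_pow]
    rw [h1, Polynomial.C_mul]
    change Polynomial.C (algebraMap K L (P.coeff e)) * _ = _
    ring
  rw [h0, Polynomial.finsetSum_coeff, Finset.sum_filter]
  refine Finset.sum_congr rfl (fun e _ => ?_)
  rw [Polynomial.coeff_C_mul, Polynomial.coeff_X_pow]
  by_cases h : e i = j
  · rw [if_pos h, if_pos h.symm, mul_one]
  · rw [if_neg h, if_neg (fun h' => h h'.symm), mul_zero]

private theorem Psi_TV {K L M : Type} [NormedField K] [Field L] [Algebra K L] [Field M]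
    {n : ℕ} (G : Fin (n + 1) → Lˣ) (i : Fin (n + 1)) (y : Pt (algebraMap K L)) (ι : L →+* M)
    (v : AbsoluteValue M ℝ) (hv : ∀ a, v (ι a) = y.v a) (hG : Gauss y (G ∘ i.succAbove))
    (P : MvPolynomial (Fin (n + 1)) K) (hP : P ≠ 0) (τ : ℝ) (s : Fin n → ℝ)
    (hs : logv y (G ∘ i.succAbove) = s) :
    Real.log (((MvPolynomial.aeval (Function.update (fun j => Polynomial.C (G j : L)) i
      Polynomial.X) P : Polynomial L).map ι).gaussNorm v (Real.exp τ)) =
      TV P (i.insertNth τ s) := by
  have hpos : ∀ k : Fin n, 0 < y.v (G (i.succAbove k) : L) := fun k =>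
    y.v.pos (G (i.succAbove k)).ne_zero
  have hSn : P.support.Nonempty := by
    rw [Finset.nonempty_iff_ne_empty]
    intro h
    exact hP (MvPolynomial.support_eq_empty.1 h)
  obtain ⟨N, hN⟩ : ∃ N : (Fin (n + 1) →₀ ℕ) → ℝ, ∀ e, N e = ‖P.coeff e‖ *
      ∏ k : Fin n, y.v (G (i.succAbove k) : L) ^ e (i.succAbove k) := ⟨_, fun _ => rfl⟩
  have hprod : ∀ e : Fin (n + 1) →₀ ℕ,
      0 < ∏ k : Fin n, y.v (G (i.succAbove k) : L) ^ e (i.succAbove k) := fun e =>
    Finset.prod_pos (fun k _ => pow_pos (hpos k) _)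
  have hc0 : ∀ e ∈ P.support, 0 < ‖P.coeff e‖ := fun e he =>
    norm_pos_iff.2 (MvPolynomial.mem_support_iff.1 he)
  have hNpos : ∀ e ∈ P.support, 0 < N e := by
    intro e he
    rw [hN]
    exact mul_pos (hc0 e he) (hprod e)
  have hterm : ∀ e : Fin (n + 1) →₀ ℕ, y.v (algebraMap K L (P.coeff e) *
      ∏ k : Fin n, (G (i.succAbove k) : L) ^ e (i.succAbove k)) = N e := by
    intro e
    rw [map_mul, y.ext, map_prod, hN]
    congr 1
    refine Finset.prod_congr rfl (fun k _ => ?_)
    rw [map_pow]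
  have hcf : ∀ j : ℕ, v (((MvPolynomial.aeval (Function.update (fun j =>
      Polynomial.C (G j : L)) i Polynomial.X) P : Polynomial L).map ι).coeff j) =
      y.v (∑ e ∈ P.support.filter (fun e => e i = j), algebraMap K L (P.coeff e) *
        ∏ k : Fin n, (G (i.succAbove k) : L) ^ e (i.succAbove k)) := by
    intro j
    rw [Polynomial.coeff_map, hv, Psi_coeff (fun j => (G j : L)) i P j]
  rw [Psi_log v _ P.support hSn N hNpos (fun e => e i) τ ?_ ?_]
  · unfold TV
    congr 1
    funext e
    have h1 : Real.log (N e.1) = Real.log ‖P.coeff e.1‖ +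
        ∑ k : Fin n, (e.1 (i.succAbove k) : ℝ) * s k := by
      rw [hN, Real.log_mul (hc0 e.1 e.2).ne' (hprod e.1).ne', Real.log_prod]
      · congr 1
        refine Finset.sum_congr rfl (fun k _ => ?_)
        rw [Real.log_pow, ← hs]
        rfl
      · intro k _
        exact (pow_pos (hpos k) _).ne'
    rw [h1, Fin.sum_univ_succAbove _ i, Fin.insertNth_apply_same]
    simp only [Fin.insertNth_apply_succAbove]
    ring
  · intro e he
    rw [hcf]
    classical
    obtain ⟨R, hR⟩ : ∃ R : MvPolynomial (Fin n) K, R =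
        ∑ e' ∈ P.support.filter (fun e' => e' i = e i),
          MvPolynomial.monomial (rd i e') (P.coeff e') := ⟨_, rfl⟩
    have hR1 : R.coeff (rd i e) = P.coeff e := by
      rw [hR, MvPolynomial.coeff_sum, Finset.sum_eq_single e]
      · rw [MvPolynomial.coeff_monomial, if_pos rfl]
      · intro e' he' hne
        rw [MvPolynomial.coeff_monomial, if_neg]
        intro h
        exact hne (Psi_rd_inj i e' e (Finset.mem_filter.1 he').2 h)
      · intro h
        have h' : e ∈ P.support.filter (fun e' => e' i = e i) := Finset.mem_filter.2 ⟨he, rfl⟩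
        exact absurd h' h
    have hR2 : R.eval₂ (algebraMap K L) (fun k => ((G ∘ i.succAbove) k : L)) =
        ∑ e' ∈ P.support.filter (fun e' => e' i = e i), algebraMap K L (P.coeff e') *
          ∏ k : Fin n, (G (i.succAbove k) : L) ^ e' (i.succAbove k) := by
      rw [hR, MvPolynomial.eval₂_sum]
      refine Finset.sum_congr rfl (fun e' _ => ?_)
      rw [MvPolynomial.eval₂_monomial, Finsupp.prod_fintype _ _ (fun k => pow_zero _)]
      rfl
    have h3 := hG R (rd i e)
    rw [hR1, hR2] at h3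
    rw [hN]
    exact h3
  · intro j B hB h
    rw [hcf]
    refine Psi_na_sum y _ _ B hB (fun e he => ?_)
    rw [hterm]
    rw [Finset.mem_filter] at he
    exact h e he.1 he.2

private theorem Psi_finrank {K L : Type} [Field K] [Field L] [Algebra K L]
    {A B : IntermediateField K L} (h : A = B) : Module.finrank A L = Module.finrank B L := by
  subst h
  rfl

private theorem Psi_fix {K L : Type} [NormedField K] [Field L] [Algebra K L] (T : Set L)
    (σ : L →ₐ[K] AlgebraicClosure L)
    (h : ∀ a ∈ T, σ a = algebraMap L (AlgebraicClosure L) a) :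
    ∀ a ∈ IntermediateField.adjoin K T, σ a = algebraMap L (AlgebraicClosure L) a := by
  intro a ha
  induction ha using IntermediateField.adjoin_induction with
  | mem x hx => exact h x hx
  | algebraMap x =>
    rw [σ.commutes]
    exact IsScalarTower.algebraMap_apply K L (AlgebraicClosure L) x
  | add x y _ _ hx hy => rw [map_add, map_add, hx, hy]
  | inv x _ hx => rw [map_inv₀, map_inv₀, hx]
  | mul x y _ _ hx hy => rw [map_mul, map_mul, hx, hy]

/-- **Psi** (the counting formula) -/
theorem thm_Psi : St_EmF → St_EmG → St_Npg → St_Frc → St_Irr → St_Psi := by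
  intro hEmF hEmG hNpg hFrc hIrr K L _ _ _ n hTr hFG G
  classical
  obtain ⟨P, hP0, hP⟩ := hIrr K L n hTr (fun j => (G j : L))
  obtain ⟨D0, hD0⟩ : ∃ D0 : ℕ, D0 = Module.finrank
      (IntermediateField.adjoin K (Set.range (fun j => (G j : L)))) L := ⟨_, rfl⟩
  refine ⟨P, if 0 < D0 then (D0 : ℝ) else 1, hP0, ?_, ?_⟩
  · by_cases h : 0 < D0
    · rw [if_pos h]
      exact_mod_cast h
    · rw [if_neg h]
      exact one_pos
  intro i s x hx
  obtain ⟨hx1, hx2⟩ := hx
  have hind : AlgebraicIndependent K (fun k => ((G ∘ i.succAbove) k : L)) :=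
    hEmG.2.1 K L n (G ∘ i.succAbove) _ hx1
  obtain ⟨hfd, hfin, hne, hdg⟩ := hEmF K L n hTr hFG (G ∘ i.succAbove) hind
  obtain ⟨c, hc0, hc⟩ := hP i hind
  -- the field `E`
  set E := IntermediateField.adjoin K (Set.range fun k => ((G ∘ i.succAbove) k : L)) with hE
  have hE' : IntermediateField.adjoin K (Set.range ((fun j => (G j : L)) ∘ i.succAbove)) = E := rfl
  change MvPolynomial.aeval (Function.update (fun j => Polynomial.C (G j : L)) i Polynomial.X) P =
    Polynomial.C c * (minpoly E (G i : L)).map (algebraMap E L) at hc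
  have hint : IsIntegral E (G i : L) := Algebra.IsIntegral.isIntegral _
  -- degrees
  have hdeg : dg K (G ∘ i.succAbove) = (D0 : ℝ) * ((minpoly E (G i : L)).natDegree : ℝ) := by
    have h1 := Module.finrank_mul_finrank E (IntermediateField.adjoin E {(G i : L)}) L
    rw [IntermediateField.adjoin.finrank hint] at h1
    have h2 : Module.finrank (IntermediateField.adjoin E {(G i : L)}) L = D0 := by
      have h3 : (IntermediateField.adjoin E {(G i : L)}).restrictScalars K =
          IntermediateField.adjoin K (Set.range (fun j => (G j : L))) := by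
        rw [hE, IntermediateField.adjoin_adjoin_left]
        congr 1
        ext a
        simp only [Set.mem_union, Set.mem_range, Set.mem_singleton_iff, Function.comp_apply]
        constructor
        · rintro (⟨k, rfl⟩ | rfl)
          · exact ⟨_, rfl⟩
          · exact ⟨_, rfl⟩
        · rintro ⟨j, rfl⟩
          rcases Fin.eq_self_or_eq_succAbove i j with rfl | ⟨k, rfl⟩
          · exact Or.inr rfl
          · exact Or.inl ⟨k, rfl⟩
      rw [hD0, ← Psi_finrank h3]
      rfl
    rw [h2] at h1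
    change ((Module.finrank E L : ℕ) : ℝ) = _
    rw [← h1]
    push_cast
    ring
  have hD0pos : 0 < D0 := by
    rcases Nat.eq_zero_or_pos D0 with h | h
    · rw [h] at hdeg
      rw [hdeg] at hdg
      simp at hdg
    · exact h
  rw [if_pos hD0pos]
  -- the embeddings
  have hrange : Set.range (fun τ : L →ₐ[E] AlgebraicClosure L => τ.restrictScalars K) =
      Emb K (G ∘ i.succAbove) := by
    ext σ
    constructor
    · rintro ⟨τ, rfl⟩ k
      have hm : ((G ∘ i.succAbove) k : L) ∈ E :=
        IntermediateField.subset_adjoin K _ ⟨k, rfl⟩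
      have h1 := τ.commutes ⟨_, hm⟩
      exact h1
    · intro hσ
      have h1 : ∀ a ∈ E, σ a = algebraMap L (AlgebraicClosure L) a := by
        refine Psi_fix _ σ ?_
        rintro a ⟨k, rfl⟩
        exact hσ k
      refine ⟨{ toRingHom := σ.toRingHom, commutes' := fun e => h1 e.1 e.2 }, ?_⟩
      ext a
      rfl
  have hinj : Function.Injective
      (fun τ : L →ₐ[E] AlgebraicClosure L => τ.restrictScalars K) :=
    AlgHom.restrictScalars_injective K
  obtain ⟨ψ, hψ⟩ : ∃ ψ : ℝ → AlgebraicClosure L → ℝ,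
      ∀ τ ρ, ψ τ ρ = max τ (Real.log (x.v ρ)) := ⟨_, fun _ _ => rfl⟩
  have hsum : ∀ τ : ℝ, ∑ᶠ σ ∈ Emb K (G ∘ i.succAbove), max τ (Real.log (x.v (σ (G i : L)))) =
      ∑ᶠ σ : L →ₐ[E] AlgebraicClosure L, ψ τ (σ (G i : L)) := by
    intro τ
    rw [← hrange, finsum_mem_range hinj]
    refine finsum_congr (fun σ => ?_)
    rw [hψ]
    rfl
  have hcard : ((Emb K (G ∘ i.succAbove)).ncard : ℝ) =
      (Nat.card (L →ₐ[E] AlgebraicClosure L) : ℝ) := by
    rw [← hrange, ← Set.image_univ, Set.ncard_image_of_injective _ hinj, Set.ncard_univ]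
  have hcardpos : 0 < (Nat.card (L →ₐ[E] AlgebraicClosure L) : ℝ) := by
    rw [← hcard]
    exact_mod_cast (Set.ncard_pos hfin).2 hne
  have halg : Algebra.IsAlgebraic E (AlgebraicClosure L) := Algebra.IsAlgebraic.trans E L _
  -- the polynomial
  obtain ⟨ι, hι⟩ : ∃ ι : L →+* AlgebraicClosure L, ι = algebraMap L (AlgebraicClosure L) :=
    ⟨_, rfl⟩
  obtain ⟨Q, hQ⟩ : ∃ Q : Polynomial (AlgebraicClosure L), Q = (MvPolynomial.aeval
      (Function.update (fun j => Polynomial.C (G j : L)) i Polynomial.X) P : Polynomial L).map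
        (algebraMap L (AlgebraicClosure L)) := ⟨_, rfl⟩
  have hQ2 : Q = Polynomial.C (algebraMap L (AlgebraicClosure L) c) *
      (minpoly E (G i : L)).map (algebraMap E (AlgebraicClosure L)) := by
    rw [hQ, hc, Polynomial.map_mul, Polynomial.map_C, Polynomial.map_map]
    rfl
  have hc' : algebraMap L (AlgebraicClosure L) c ≠ 0 := by
    intro h
    exact hc0 ((map_eq_zero _).1 h)
  have hmonic : ((minpoly E (G i : L)).map (algebraMap E (AlgebraicClosure L))).Monic :=
    (minpoly.monic hint).map _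
  have hQne : Q ≠ 0 := by
    rw [hQ2]
    exact mul_ne_zero (Polynomial.C_ne_zero.2 hc') hmonic.ne_zero
  have hQlc : Q.leadingCoeff = algebraMap L (AlgebraicClosure L) c := by
    rw [hQ2, Polynomial.leadingCoeff_mul, Polynomial.leadingCoeff_C, hmonic.leadingCoeff, mul_one]
  have hQroots : Q.roots = (minpoly E (G i : L)).aroots (AlgebraicClosure L) := by
    rw [hQ2, Polynomial.roots_C_mul _ hc']
  have hroot0 : ∀ ρ ∈ Q.roots, ρ ≠ 0 := by
    intro ρ hρ h0
    rw [hQroots, h0, Polynomial.mem_aroots, ← Polynomial.coeff_zero_eq_aeval_zero'] at hρ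
    have h1 := (map_eq_zero _).1 hρ.2
    exact minpoly.coeff_zero_ne_zero hint (G i).ne_zero h1
  have hmain : ∀ τ : ℝ, Real.log (x.v (algebraMap L (AlgebraicClosure L) c)) +
      (((minpoly E (G i : L)).aroots (AlgebraicClosure L)).map (ψ τ)).sum =
      TV P (i.insertNth τ s) := by
    intro τ
    have h1 := hNpg (AlgebraicClosure L) x.v x.na Q hQne (IsAlgClosed.splits Q) hroot0 τ
    rw [hQlc, hQroots] at h1
    have h2 := Psi_TV G i (pb (incE K L) x) (algebraMap L (AlgebraicClosure L)) x.v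
      (fun a => rfl) hx1 P hP0 τ s hx2
    rw [← hQ, h1] at h2
    rw [← h2]
    congr 3
    funext ρ
    exact hψ τ ρ
  refine ⟨(D0 : ℝ) * Real.log (x.v (algebraMap L (AlgebraicClosure L) c)), fun τ => ?_⟩
  have h3 := hFrc E L (AlgebraicClosure L) (G i : L) (ψ τ)
  rw [← hmain τ, hsum, hcard, hdeg]
  have h4 : (((minpoly E (G i : L)).aroots (AlgebraicClosure L)).map (ψ τ)).sum =
      ((minpoly E (G i : L)).natDegree : ℝ) *
        (∑ᶠ σ : L →ₐ[E] AlgebraicClosure L, ψ τ (σ (G i : L))) /
          (Nat.card (L →ₐ[E] AlgebraicClosure L) : ℝ) := by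
    rw [h3, mul_div_cancel_left₀ _ hcardpos.ne']
  rw [h4]
  ring

end TDC
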