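import Pool.Agent.TDC.St2
import Pool.Agent.TDC.IndG

/-!
# TDC, module Rank: the rank of the value groups in the tower `K ⊆ L' ⊆ L = L'(t)`
-/

namespace TDC

open scoped Topology
open Cardinal

/-- Independent values: no polynomial relation. -/
private lemma Rank_ai {K M : Type} [NormedField K] [Field M] (φ : K →+* M) {n : ℕ} (x : Pt φ)
    (g : Fin n → Mˣ) (h : Indep x g) (P : MvPolynomial (Fin n) K)
    (hP : P.eval₂ φ (fun i => (g i : M)) = 0) : P = 0 := by
  have hG := thm_IndG K M φ n x g h
  ext e
  have h1 := hG P e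
  rw [hP, map_zero] at h1
  have h2 : 0 < ∏ i, x.v (g i : M) ^ e i :=
    Finset.prod_pos fun i _ => pow_pos (x.v.pos (g i).ne_zero) _
  have h3 : ‖P.coeff e‖ ≤ 0 := by
    by_contra hc
    rw [not_le] at hc
    have := mul_pos hc h2
    linarith
  rw [norm_le_zero_iff.mp h3, MvPolynomial.coeff_zero]

private lemma Rank_alg {K L : Type} [NormedField K] [Field L] [Algebra K L] {n : ℕ}
    (x : Pt (algebraMap K L)) (g : Fin n → Lˣ) (h : Indep x g) :
    AlgebraicIndependent K (fun i => (g i : L)) := by
  rw [algebraicIndependent_iff]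
  intro P hP
  exact Rank_ai (algebraMap K L) x g h P (by rw [← MvPolynomial.aeval_def]; exact hP)

private lemma Rank_trLe {K L : Type} [Field K] [Field L] [Algebra K L] {n : ℕ} :
    TrLe K L n ↔ Algebra.trdeg K L ≤ n := by
  constructor
  · intro h
    by_contra hc
    rw [not_le] at hc
    obtain ⟨s, hs⟩ := exists_isTranscendenceBasis K L
    rw [← hs.cardinalMk_eq_trdeg] at hc
    have h1 : ((n + 1 : ℕ) : Cardinal) ≤ #s := by
      rw [← Nat.succ_eq_add_one, Cardinal.nat_succ]
      exact Order.succ_le_of_lt hc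
    have h2 : #(Fin (n + 1)) ≤ #s := by simpa using h1
    obtain ⟨f⟩ := h2
    exact h (fun i => (f i : L)) (hs.1.comp f f.injective)
  · intro h g hg
    have h1 := hg.cardinalMk_le_trdeg
    rw [Cardinal.mk_fin] at h1
    have h2 := h1.trans h
    rw [Nat.cast_le] at h2
    omega

private lemma Rank_one {L' L : Type} [Field L'] [Field L] [Algebra L' L] (t : L)
    (h : RatOver L' L t) : Algebra.trdeg L' L ≤ 1 := by
  have h1 : Algebra.IsAlgebraic (Algebra.adjoin L' {t}) L := by
    constructor
    intro f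
    obtain ⟨P, Q, hQ, hf⟩ := h.2 f
    have hm : ∀ R : Polynomial L', Polynomial.aeval t R ∈ Algebra.adjoin L' {t} := fun R =>
      Polynomial.aeval_mem_adjoin_singleton L' t
    refine ⟨Polynomial.C (⟨_, hm Q⟩ : Algebra.adjoin L' {t}) * Polynomial.X -
      Polynomial.C (⟨_, hm P⟩ : Algebra.adjoin L' {t}), ?_, ?_⟩
    · intro h0
      have h3 := congrArg (fun r => Polynomial.coeff r 1) h0
      simp only [Polynomial.coeff_sub, Polynomial.coeff_C_mul, Polynomial.coeff_X_one, mul_one,
        Polynomial.coeff_C_succ, sub_zero, Polynomial.coeff_zero] at h3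
      exact hQ (congrArg Subtype.val h3)
    · simp only [map_sub, map_mul, Polynomial.aeval_C, Polynomial.aeval_X]
      show Polynomial.aeval t Q * f - Polynomial.aeval t P = 0
      rw [← hf]; ring
  have h2 := Algebra.IsAlgebraic.trdeg_le_cardinalMk L' ({t} : Set L)
  simpa using h2

private lemma Rank_val {K M : Type} [NormedField K] [Field M] {φ : K →+* M} {n : ℕ} (x : Pt φ)
    (g : Fin n → Mˣ) (k : Fin n → ℤ) :
    x.v ((∏ i, g i ^ k i : Mˣ) : M) = ∏ i, x.v (g i : M) ^ k i := by
  rw [Units.coe_prod, map_prod]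
  refine Finset.prod_congr rfl fun i _ => ?_
  rw [Units.val_zpow_eq_zpow_val, map_zpow₀]

private lemma Rank_free {K M : Type} [NormedField K] [Field M] {φ : K →+* M} {z : Pt φ} {r : ℝ}
    (h : Free z r) (b : ℤ) (hb : b ≠ 0) (c : Mˣ) : z.v (c : M) ≠ r ^ b := by
  intro hc
  rcases Int.lt_or_gt_of_ne hb with h1 | h1
  · refine h.2 (-b).toNat (by omega) ((c⁻¹ : Mˣ) : M) ?_
    rw [Units.val_inv_eq_inv_val, map_inv₀, hc, ← zpow_natCast, Int.toNat_of_nonneg (by omega),
      zpow_neg]
  · refine h.2 b.toNat (by omega) (c : M) ?_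
    rw [hc, ← zpow_natCast, Int.toNat_of_nonneg (by omega)]

/-- Two values are dependent over the values of `L'`. -/
private lemma Rank_pair {K L' L : Type} [NormedField K] [Field L'] [Field L] [Algebra K L']
    [Algebra K L] [Algebra L' L] [IsScalarTower K L' L] (x : Pt (algebraMap K L))
    (h : Algebra.trdeg L' L ≤ 1) (f₁ f₂ : Lˣ) :
    ∃ (a b : ℤ) (c : L'ˣ), (a ≠ 0 ∨ b ≠ 0) ∧
      x.v (f₁ : L) ^ a * x.v (f₂ : L) ^ b = (res L' x).v (c : L') := by
  by_contra hne
  set z := res L' x with hz
  let φ' : WithAbs z.v →+* L := (algebraMap L' L).comp (WithAbs.equiv z.v).toRingHom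
  let y : Pt φ' := ⟨x.v, x.na, fun a => rfl⟩
  have hy : Indep y ![f₁, f₂] := by
    intro k hk
    obtain ⟨a, ha⟩ := hk
    rw [Rank_val, Fin.prod_univ_two] at ha
    by_contra hk0
    apply hne
    have hpos : 0 < x.v (f₁ : L) ^ k 0 * x.v (f₂ : L) ^ k 1 :=
      mul_pos (zpow_pos (x.v.pos f₁.ne_zero) _) (zpow_pos (x.v.pos f₂.ne_zero) _)
    have ha' : z.v (WithAbs.equiv z.v a) = x.v (f₁ : L) ^ k 0 * x.v (f₂ : L) ^ k 1 := ha
    have ha0 : WithAbs.equiv z.v a ≠ 0 := by
      intro h0
      rw [h0, map_zero] at ha'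
      exact hpos.ne ha'
    refine ⟨k 0, k 1, Units.mk0 _ ha0, ?_, ha'.symm⟩
    by_contra h0
    rw [not_or, not_not, not_not] at h0
    apply hk0
    ext i
    fin_cases i
    · exact h0.1
    · exact h0.2
  have hai : AlgebraicIndependent L' (fun i => ((![f₁, f₂] : Fin 2 → Lˣ) i : L)) := by
    rw [algebraicIndependent_iff]
    intro P hP
    have h1 := Rank_ai φ' y ![f₁, f₂] hy (MvPolynomial.map (WithAbs.equiv z.v).symm.toRingHom P)
      (by
        rw [MvPolynomial.eval₂_map]
        rw [MvPolynomial.aeval_def] at hP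
        exact hP)
    exact MvPolynomial.map_injective _ (WithAbs.equiv z.v).symm.injective
      (h1.trans (map_zero _).symm)
  have h2 := hai.cardinalMk_le_trdeg.trans h
  rw [Cardinal.mk_fin] at h2
  have h3 : ((2 : ℕ) : Cardinal) ≤ ((1 : ℕ) : Cardinal) := by rw [Nat.cast_one]; exact h2
  rw [Nat.cast_le] at h3
  omega

/-- **Rank**. -/
theorem thm_Rank : St_Rank := by
  intro K L' L _ _ _ _ _ _ _ m t hTr hRat
  have h1 : Algebra.trdeg L' L ≤ 1 := Rank_one _ hRat
  refine ⟨?_, ?_⟩
  · rw [Rank_trLe, ← trdeg_add_eq K L' (A := L)]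
    push_cast
    exact add_le_add (Rank_trLe.mp hTr) h1
  · intro x g hg
    have hno : ∀ c : Fin (m + 1) → L'ˣ, ¬ Indep (res L' x) c := fun c hc =>
      hTr _ (Rank_alg (res L' x) c hc)
    have hgp : ∀ i, 0 < x.v (g i : L) := fun i => x.v.pos (g i).ne_zero
    -- a free value
    obtain ⟨f, hf⟩ : ∃ f : Lˣ, Free (res L' x) (x.v (f : L)) := by
      by_contra hne
      have hex : ∀ i, ∃ (N : ℕ) (a : L'ˣ), 0 < N ∧
          (res L' x).v (a : L') = x.v (g i : L) ^ N := by
        intro i
        by_contra hc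
        apply hne
        refine ⟨g i, hgp i, ?_⟩
        intro N hN a ha
        apply hc
        have ha0 : a ≠ 0 := by
          rintro rfl
          rw [map_zero] at ha
          exact (pow_pos (hgp i) N).ne ha
        exact ⟨N, Units.mk0 a ha0, hN, ha⟩
      choose N c hN hc using hex
      apply hno c
      intro k hk
      obtain ⟨a, ha⟩ := hk
      have h2 := hg (fun i => (N i : ℤ) * k i) ⟨a, by
        rw [ha, Rank_val, Rank_val]
        refine Finset.prod_congr rfl fun i _ => ?_
        rw [hc, zpow_mul, zpow_natCast]⟩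
      ext i
      have h3 := congrFun h2 i
      simp only [Pi.zero_apply, mul_eq_zero, Nat.cast_eq_zero] at h3
      rcases h3 with h3 | h3
      · exact absurd h3 (hN i).ne'
      · exact h3
    have hfp : 0 < x.v (f : L) := x.v.pos f.ne_zero
    have hex : ∀ i, ∃ (a b : ℤ) (c : L'ˣ), (a ≠ 0 ∨ b ≠ 0) ∧
        x.v (g i : L) ^ a * x.v (f : L) ^ b = (res L' x).v (c : L') := fun i =>
      Rank_pair x h1 (g i) f
    choose a b c hab hc using hex
    have ha : ∀ i, a i ≠ 0 := by
      intro i h0
      have hb : b i ≠ 0 := by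
        rcases hab i with h2 | h2
        · exact absurd h0 h2
        · exact h2
      refine Rank_free hf (b i) hb (c i) ?_
      rw [← hc, h0, zpow_zero, one_mul]
    obtain ⟨j, hj⟩ : ∃ j, b j ≠ 0 := by
      by_contra hb
      rw [not_exists] at hb
      apply hno c
      intro k hk
      obtain ⟨e, he⟩ := hk
      have h2 := hg (fun i => a i * k i) ⟨e, by
        rw [he, Rank_val, Rank_val]
        refine Finset.prod_congr rfl fun i _ => ?_
        rw [← hc, not_not.mp (hb i), zpow_zero, mul_one, zpow_mul]⟩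
      ext i
      have h3 := congrFun h2 i
      simp only [Pi.zero_apply, mul_eq_zero] at h3
      rcases h3 with h3 | h3
      · exact absurd h3 (ha i)
      · exact h3
    refine ⟨fun i => c (j.succAbove i) ^ b j * c j ^ (-b (j.succAbove i)), ?_, f, hf⟩
    intro k hk
    obtain ⟨e, he⟩ := hk
    have h2 := hg (j.insertNth (∑ i, -(a j * b (j.succAbove i)) * k i)
      (fun i => a (j.succAbove i) * b j * k i)) ⟨e, by
        rw [he, Rank_val, Rank_val, Fin.prod_univ_succAbove _ j]
        simp only [Fin.insertNth_apply_same, Fin.insertNth_apply_succAbove]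
        have h3 : x.v (g j : L) ^ (∑ i, -(a j * b (j.succAbove i)) * k i) =
            ∏ i, x.v (g j : L) ^ (-(a j * b (j.succAbove i)) * k i) := by
          have h4 : ∀ s : Finset (Fin m), x.v (g j : L) ^
              (∑ i ∈ s, -(a j * b (j.succAbove i)) * k i) =
              ∏ i ∈ s, x.v (g j : L) ^ (-(a j * b (j.succAbove i)) * k i) := by
            intro s
            induction s using Finset.induction_on with
            | empty => simp
            | insert i s his ih => rw [Finset.sum_insert his, Finset.prod_insert his,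
                zpow_add₀ (hgp j).ne', ih]
          exact h4 _
        rw [h3, ← Finset.prod_mul_distrib]
        refine Finset.prod_congr rfl fun i _ => ?_
        rw [Units.val_mul, map_mul, Units.val_zpow_eq_zpow_val, Units.val_zpow_eq_zpow_val,
          map_zpow₀, map_zpow₀, ← hc, ← hc,
          zpow_mul (x.v (g j : L)) (-(a j * b (j.succAbove i))) (k i),
          zpow_mul (x.v (g (j.succAbove i) : L)) (a (j.succAbove i) * b j) (k i), ← mul_zpow]
        congr 1
        have h5 : x.v (f : L) ^ (b (j.succAbove i) * b j) *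
            x.v (f : L) ^ (b j * -b (j.succAbove i)) = 1 := by
          rw [← zpow_add₀ hfp.ne']
          have h6 : b (j.succAbove i) * b j + b j * -b (j.succAbove i) = 0 := by ring
          rw [h6, zpow_zero]
        have h7 : -(a j * b (j.succAbove i)) = a j * -b (j.succAbove i) := by ring
        rw [mul_zpow, mul_zpow, ← zpow_mul, ← zpow_mul, ← zpow_mul, ← zpow_mul, h7]
        calc _ = x.v (g j : L) ^ (a j * -b (j.succAbove i)) *
              x.v (g (j.succAbove i) : L) ^ (a (j.succAbove i) * b j) *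
              (x.v (f : L) ^ (b (j.succAbove i) * b j) *
                x.v (f : L) ^ (b j * -b (j.succAbove i))) := by ring
          _ = _ := by rw [h5, mul_one]⟩
    ext i
    have h3 := congrFun h2 (j.succAbove i)
    rw [Fin.insertNth_apply_succAbove] at h3
    simp only [Pi.zero_apply, mul_eq_zero] at h3
    rcases h3 with (h3 | h3) | h3
    · exact absurd h3 (ha _)
    · exact absurd h3 hj
    · exact h3

end TDC
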