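import Pool.Agent.TDC.St

/-!
# TDC, module Real: the real lemma

An `(n+1)`-form is pushed off the intersections of finitely many affine subspaces of dimension
`n+1`, modulo exact forms.
-/

namespace TDC

open scoped Topology ContDiff Manifold
open Set

/-- the conclusion of the real lemma -/
private def Real_P {E : Type} [NormedAddCommGroup E] [NormedSpace ℝ E] {n : ℕ}
    (𝒜 : Finset (AffineSubspace ℝ E)) (U : Set E)
    (α : E → E [⋀^Fin (n + 1)]→L[ℝ] ℝ) : Prop :=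
  ∃ (β : E → E [⋀^Fin n]→L[ℝ] ℝ) (α' : E → E [⋀^Fin (n + 1)]→L[ℝ] ℝ),
      ContDiff ℝ (⊤ : ℕ∞) β ∧ HasCompactSupport β ∧ tsupport β ⊆ U ∧
      ContDiff ℝ (⊤ : ℕ∞) α' ∧ HasCompactSupport α' ∧ tsupport α' ⊆ U ∧
      (∀ t ∈ tsupport α', ∀ A ∈ 𝒜, ∀ B ∈ 𝒜, t ∈ A → t ∈ B → A = B) ∧
      ∀ A ∈ 𝒜, ∀ t ∈ A, ∀ v : Fin (n + 1) → E, (∀ i, v i ∈ A.direction) →
        α t v = extDeriv β t v + α' t v

section

variable {E : Type} [NormedAddCommGroup E] [NormedSpace ℝ E] {n : ℕ}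

private lemma Real_ext_zero (t : E) :
    extDeriv (0 : E → E [⋀^Fin n]→L[ℝ] ℝ) t = 0 := by
  have h := extDeriv_smul (0 : ℝ) (0 : E → E [⋀^Fin n]→L[ℝ] ℝ) (x := t)
  simpa using h

private lemma Real_ext_zero_of (γ : E → E [⋀^Fin n]→L[ℝ] ℝ) (t : E)
    (h : γ =ᶠ[𝓝 t] 0) : extDeriv γ t = 0 := by
  rw [h.extDeriv_eq, Real_ext_zero]

private lemma Real_ext_smooth (γ : E → E [⋀^Fin n]→L[ℝ] ℝ) (h : ContDiff ℝ (⊤ : ℕ∞) γ) :
    ContDiff ℝ (⊤ : ℕ∞) (extDeriv γ) := by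
  have h1 : ContDiff ℝ (⊤ : ℕ∞) (fderiv ℝ γ) := h.fderiv_right (by simp)
  exact (ContinuousAlternatingMap.alternatizeUncurryFinCLM ℝ E ℝ).contDiff.comp h1

private lemma Real_direct (𝒜 : Finset (AffineSubspace ℝ E)) (U : Set E)
    (α : E → E [⋀^Fin (n + 1)]→L[ℝ] ℝ) (h1 : ContDiff ℝ (⊤ : ℕ∞) α) (h2 : HasCompactSupport α)
    (h3 : tsupport α ⊆ U)
    (h4 : ∀ t ∈ tsupport α, ∀ A ∈ 𝒜, ∀ B ∈ 𝒜, t ∈ A → t ∈ B → A = B) : Real_P 𝒜 U α := by
  refine ⟨0, α, contDiff_const, HasCompactSupport.zero, ?_, h1, h2, h3, h4, ?_⟩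
  · rw [tsupport_zero]; exact empty_subset _
  · intro A hA t ht v hv
    rw [Real_ext_zero]
    simp

private lemma Real_zero (𝒜 : Finset (AffineSubspace ℝ E)) (U : Set E) :
    Real_P 𝒜 U (0 : E → E [⋀^Fin (n + 1)]→L[ℝ] ℝ) := by
  refine Real_direct 𝒜 U 0 contDiff_const HasCompactSupport.zero ?_ ?_
  · rw [tsupport_zero]; exact empty_subset _
  · intro t ht
    rw [tsupport_zero] at ht
    exact absurd ht (notMem_empty t)

private lemma Real_add {𝒜 : Finset (AffineSubspace ℝ E)} {U : Set E}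
    {α₁ α₂ : E → E [⋀^Fin (n + 1)]→L[ℝ] ℝ} (h₁ : Real_P 𝒜 U α₁) (h₂ : Real_P 𝒜 U α₂) :
    Real_P 𝒜 U (α₁ + α₂) := by
  obtain ⟨β₁, α₁', a1, a2, a3, a4, a5, a6, a7, a8⟩ := h₁
  obtain ⟨β₂, α₂', b1, b2, b3, b4, b5, b6, b7, b8⟩ := h₂
  refine ⟨β₁ + β₂, α₁' + α₂', a1.add b1, a2.add b2, ?_, a4.add b4, a5.add b5, ?_, ?_, ?_⟩
  · exact (tsupport_add β₁ β₂).trans (union_subset a3 b3)
  · exact (tsupport_add α₁' α₂').trans (union_subset a6 b6)
  · intro t ht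
    rcases tsupport_add α₁' α₂' ht with h | h
    · exact a7 t h
    · exact b7 t h
  · intro A hA t ht v hv
    have h1 : extDeriv (β₁ + β₂) t = extDeriv β₁ t + extDeriv β₂ t :=
      extDeriv_add (a1.differentiable (by simp) t) (b1.differentiable (by simp) t)
    rw [h1]
    simp only [Pi.add_apply, ContinuousAlternatingMap.add_apply]
    rw [a8 A hA t ht v hv, b8 A hA t ht v hv]
    ring

private lemma Real_sum {𝒜 : Finset (AffineSubspace ℝ E)} {U : Set E} {ι : Type} (s : Finset ι)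
    (α : ι → E → E [⋀^Fin (n + 1)]→L[ℝ] ℝ) (h : ∀ i ∈ s, Real_P 𝒜 U (α i)) :
    Real_P 𝒜 U (∑ i ∈ s, α i) := by
  classical
  induction s using Finset.induction_on with
  | empty => simpa using Real_zero 𝒜 U
  | insert i s hi ih =>
    rw [Finset.sum_insert hi]
    exact Real_add (h i (Finset.mem_insert_self i s))
      (ih fun j hj => h j (Finset.mem_insert_of_mem hj))

/-- modulo an exact form -/
private lemma Real_step {𝒜 : Finset (AffineSubspace ℝ E)} {U : Set E}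
    {α α₁ : E → E [⋀^Fin (n + 1)]→L[ℝ] ℝ} (β : E → E [⋀^Fin n]→L[ℝ] ℝ)
    (h1 : ContDiff ℝ (⊤ : ℕ∞) β) (h2 : HasCompactSupport β) (h3 : tsupport β ⊆ U)
    (h4 : Real_P 𝒜 U α₁)
    (h5 : ∀ A ∈ 𝒜, ∀ t ∈ A, ∀ v : Fin (n + 1) → E, (∀ i, v i ∈ A.direction) →
        α t v = extDeriv β t v + α₁ t v) : Real_P 𝒜 U α := by
  obtain ⟨β₁, α₁', a1, a2, a3, a4, a5, a6, a7, a8⟩ := h4
  refine ⟨β + β₁, α₁', h1.add a1, h2.add a2, ?_, a4, a5, a6, a7, ?_⟩
  · exact (tsupport_add β β₁).trans (union_subset h3 a3)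
  · intro A hA t ht v hv
    have h6 : extDeriv (β + β₁) t = extDeriv β t + extDeriv β₁ t :=
      extDeriv_add (h1.differentiable (by simp) t) (a1.differentiable (by simp) t)
    rw [h6, h5 A hA t ht v hv, a8 A hA t ht v hv]
    simp only [ContinuousAlternatingMap.add_apply]
    ring

variable [FiniteDimensional ℝ E]

/-- partition of unity -/
private lemma Real_pou {𝒜 : Finset (AffineSubspace ℝ E)} {U : Set E}
    (α : E → E [⋀^Fin (n + 1)]→L[ℝ] ℝ) (h1 : ContDiff ℝ (⊤ : ℕ∞) α) (h2 : HasCompactSupport α)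
    (h : ∀ t₀ ∈ tsupport α, ∃ W : Set E, IsOpen W ∧ t₀ ∈ W ∧
      ∀ α₀ : E → E [⋀^Fin (n + 1)]→L[ℝ] ℝ, ContDiff ℝ (⊤ : ℕ∞) α₀ → HasCompactSupport α₀ →
        tsupport α₀ ⊆ W → Real_P 𝒜 U α₀) : Real_P 𝒜 U α := by
  classical
  choose! W hW1 hW2 hW3 using h
  obtain ⟨s, hs1, hs2⟩ := h2.isCompact.elim_nhds_subcover W
    (fun x hx => (hW1 x hx).mem_nhds (hW2 x hx))
  obtain ⟨f, hf⟩ := SmoothPartitionOfUnity.exists_isSubordinate 𝓘(ℝ, E)
    (isClosed_tsupport α) (fun i : s => W i) (fun i => hW1 i (hs1 i i.2)) (by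
      intro x hx
      obtain ⟨i, hi⟩ := mem_iUnion.mp (hs2 hx)
      obtain ⟨his, hi2⟩ := mem_iUnion.mp hi
      exact mem_iUnion.mpr ⟨⟨i, his⟩, hi2⟩)
  have h3 : α = ∑ i : s, fun t => f i t • α t := by
    funext t
    rw [Finset.sum_apply]
    rw [← Finset.sum_smul]
    by_cases ht : t ∈ tsupport α
    · have h4 := f.sum_eq_one ht
      rw [finsum_eq_sum_of_fintype] at h4
      rw [h4, one_smul]
    · rw [image_eq_zero_of_notMem_tsupport ht, smul_zero]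
  rw [h3]
  refine Real_sum _ _ ?_
  intro i _
  have h5 : ContDiff ℝ (⊤ : ℕ∞) (f i) := (f i).contMDiff.contDiff
  refine hW3 i (hs1 i i.2) _ (h5.smul h1) ?_ ?_
  · exact HasCompactSupport.smul_left (f := fun t => f i t) h2
  · exact (tsupport_smul_subset_left (f i) α).trans (hf i)

/-- the members of `𝒜` through `t` -/
private noncomputable def Real_thr (𝒜 : Finset (AffineSubspace ℝ E)) (t : E) :
    Finset (AffineSubspace ℝ E) := by
  classical
  exact 𝒜.filter fun A => t ∈ A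

private lemma Real_mem_thr {𝒜 : Finset (AffineSubspace ℝ E)} {t : E} {A : AffineSubspace ℝ E} :
    A ∈ Real_thr 𝒜 t ↔ A ∈ 𝒜 ∧ t ∈ A := by
  classical
  simp [Real_thr]

/-- near `t₀` only the members through `t₀` matter -/
private lemma Real_ball (𝒜 : Finset (AffineSubspace ℝ E)) (U : Set E) (hU : IsOpen U) (t₀ : E)
    (ht₀ : t₀ ∈ U) : ∃ r : ℝ, 0 < r ∧ Metric.ball t₀ (2 * r) ⊆ U ∧
      ∀ t ∈ Metric.ball t₀ (2 * r), ∀ A ∈ 𝒜, t ∈ A → t₀ ∈ A := by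
  classical
  have h1 : IsOpen (U ∩ ⋂ A ∈ 𝒜.filter (fun A => t₀ ∉ A), (A : Set E)ᶜ) := by
    refine hU.inter (isOpen_biInter_finset fun A _ => ?_)
    exact A.closed_of_finiteDimensional.isOpen_compl
  have h2 : t₀ ∈ (U ∩ ⋂ A ∈ 𝒜.filter (fun A => t₀ ∉ A), (A : Set E)ᶜ) := by
    refine ⟨ht₀, mem_iInter₂.mpr fun A hA => ?_⟩
    exact (Finset.mem_filter.mp hA).2
  obtain ⟨ε, hε, hb⟩ := Metric.isOpen_iff.mp h1 t₀ h2
  refine ⟨ε / 2, by positivity, ?_, ?_⟩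
  · rw [mul_div_cancel₀ ε (by norm_num : (2 : ℝ) ≠ 0)]
    exact fun t ht => (hb ht).1
  · rw [mul_div_cancel₀ ε (by norm_num : (2 : ℝ) ≠ 0)]
    intro t ht A hA htA
    by_contra hcon
    exact mem_iInter₂.mp (hb ht).2 A (Finset.mem_filter.mpr ⟨hA, hcon⟩) htA

/-- a projection onto the intersection of the directions -/
private lemma Real_proj (𝒮 : Finset (AffineSubspace ℝ E)) (t₀ : E)
    (h0 : ∀ A ∈ 𝒮, t₀ ∈ A) (hd : ∀ A ∈ 𝒮, Module.finrank ℝ A.direction = n + 1)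
    (h2 : 2 ≤ 𝒮.card) : ∃ ν : E →ₗ[ℝ] E, ν ∘ₗ ν = ν ∧
      (∀ A ∈ 𝒮, LinearMap.range ν < A.direction) ∧
      ∀ t, (∀ A ∈ 𝒮, t ∈ A) → t - t₀ - ν (t - t₀) = 0 := by
  classical
  let V₀ : Submodule ℝ E := ⨅ A ∈ 𝒮, A.direction
  obtain ⟨g, hg⟩ := LinearMap.exists_leftInverse_of_injective V₀.subtype
    (LinearMap.ker_eq_bot.mpr V₀.injective_subtype)
  have hg2 : ∀ v : V₀, g (v : E) = v := fun v => LinearMap.congr_fun hg v
  have hle : ∀ A ∈ 𝒮, V₀ ≤ A.direction := fun A hA => iInf₂_le A hA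
  have hr : LinearMap.range (V₀.subtype ∘ₗ g) ≤ V₀ := by
    rintro _ ⟨v, rfl⟩
    exact (g v).2
  refine ⟨V₀.subtype ∘ₗ g, ?_, ?_, ?_⟩
  · ext v
    simp [hg2]
  · intro A hA
    refine lt_of_le_of_ne (hr.trans (hle A hA)) ?_
    intro heq
    have h3 : V₀ = A.direction := le_antisymm (hle A hA) (heq ▸ hr)
    have h4 : ∀ B ∈ 𝒮, B = A := by
      intro B hB
      have h5 : A.direction ≤ B.direction := h3 ▸ hle B hB
      have h6 : A.direction = B.direction :=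
        Submodule.eq_of_le_of_finrank_eq h5 (by rw [hd A hA, hd B hB])
      exact AffineSubspace.ext_of_direction_eq h6.symm ⟨t₀, h0 B hB, h0 A hA⟩
    have h7 : 𝒮.card ≤ 1 := by
      rw [Finset.card_le_one]
      intro B hB C hC
      rw [h4 B hB, h4 C hC]
    omega
  · intro t ht
    have h8 : t - t₀ ∈ V₀ := by
      simp only [V₀, Submodule.mem_iInf]
      intro A hA
      exact AffineSubspace.vsub_mem_direction (ht A hA) (h0 A hA)
    have h9 : (V₀.subtype ∘ₗ g) (t - t₀) = t - t₀ := by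
      have := hg2 ⟨t - t₀, h8⟩
      simp only [LinearMap.comp_apply, Submodule.subtype_apply]
      rw [this]
    rw [h9, sub_self]

/-- the local step -/
private lemma Real_local (hH : St_Homo) (𝒜 : Finset (AffineSubspace ℝ E)) (U : Set E)
    (hU : IsOpen U) (hd : ∀ A ∈ 𝒜, Module.finrank ℝ A.direction = n + 1) (t₀ : E) (ht₀ : t₀ ∈ U)
    (h2 : 2 ≤ (Real_thr 𝒜 t₀).card) :
    ∃ W : Set E, IsOpen W ∧ t₀ ∈ W ∧ ∀ α₀ : E → E [⋀^Fin (n + 1)]→L[ℝ] ℝ,
      ContDiff ℝ (⊤ : ℕ∞) α₀ → HasCompactSupport α₀ → tsupport α₀ ⊆ W →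
      ∃ (β : E → E [⋀^Fin n]→L[ℝ] ℝ) (α₁ : E → E [⋀^Fin (n + 1)]→L[ℝ] ℝ),
        ContDiff ℝ (⊤ : ℕ∞) β ∧ HasCompactSupport β ∧ tsupport β ⊆ U ∧
        ContDiff ℝ (⊤ : ℕ∞) α₁ ∧ HasCompactSupport α₁ ∧ tsupport α₁ ⊆ U ∧
        (∀ t ∈ tsupport α₁, (Real_thr 𝒜 t).card < (Real_thr 𝒜 t₀).card) ∧
        ∀ A ∈ 𝒜, ∀ t ∈ A, ∀ v : Fin (n + 1) → E, (∀ i, v i ∈ A.direction) →
          α₀ t v = extDeriv β t v + α₁ t v := by
  classical
  obtain ⟨r, hr, hrU, hrA⟩ := Real_ball 𝒜 U hU t₀ ht₀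
  obtain ⟨ν, hν, hνA, hν0⟩ := Real_proj (Real_thr 𝒜 t₀) t₀
    (fun A hA => (Real_mem_thr.mp hA).2) (fun A hA => hd A (Real_mem_thr.mp hA).1) h2
  let νc : E →L[ℝ] E := LinearMap.toContinuousLinearMap ν
  have hνc : ∀ v, νc v = ν v := fun v => rfl
  let w : E → E := fun t => t - t₀ - ν (t - t₀)
  have hw : ∀ t, w t = t - t₀ - ν (t - t₀) := fun t => rfl
  have hwc : ContDiff ℝ (⊤ : ℕ∞) w := by
    have h3 : ContDiff ℝ (⊤ : ℕ∞) (fun t : E => t - t₀) := contDiff_id.sub contDiff_const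
    exact h3.sub (νc.contDiff.comp h3)
  have hwb : ∀ t, ‖w t‖ ≤ (1 + ‖νc‖) * ‖t - t₀‖ := by
    intro t
    have h3 : ‖ν (t - t₀)‖ ≤ ‖νc‖ * ‖t - t₀‖ := νc.le_opNorm (t - t₀)
    calc ‖w t‖ ≤ ‖t - t₀‖ + ‖ν (t - t₀)‖ := norm_sub_le _ _
      _ ≤ (1 + ‖νc‖) * ‖t - t₀‖ := by rw [add_mul, one_mul]; linarith
  have hc0 : 0 ≤ ‖νc‖ := norm_nonneg _
  obtain ⟨r', hr'0, hr'4, hr'w⟩ : ∃ r' : ℝ, 0 < r' ∧ r' ≤ r / 4 ∧ (1 + ‖νc‖) * r' = r / 4 := by
    refine ⟨r / 4 / (1 + ‖νc‖), by positivity, ?_, ?_⟩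
    · exact div_le_self (by positivity) (by linarith)
    · field_simp
  let ρ₀ : ContDiffBump (0 : E) := ⟨r, 3 * r / 2, hr, by linarith⟩
  let ρ : E → ℝ := fun t => ρ₀ (w t)
  have hρ : ContDiff ℝ (⊤ : ℕ∞) ρ := ρ₀.contDiff.comp hwc
  have hρ1 : ∀ t, ‖w t‖ ≤ r → ρ t = 1 := by
    intro t ht
    exact ρ₀.one_of_mem_closedBall (by simpa [ρ₀] using ht)
  have hρ0 : ∀ t, 3 * r / 2 ≤ ‖w t‖ → ρ t = 0 := by
    intro t ht
    exact ρ₀.zero_of_le_dist (by simpa [ρ₀] using ht)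
  refine ⟨Metric.ball t₀ r', Metric.isOpen_ball, Metric.mem_ball_self hr'0, ?_⟩
  intro α₀ a1 a2 a3
  obtain ⟨β₁, b1, b2, b3⟩ := hH E n ν t₀ α₀ hν a1 a2
  have hfar : ∀ t, 7 * r / 4 < dist t t₀ → ρ t ≠ 0 → β₁ t = 0 := by
    intro t ht hρt
    apply b2
    intro l hl hmem
    have h3 : ‖t₀ + ν (t - t₀) + l • w t - t₀‖ < r' := by
      have := a3 hmem
      rwa [Metric.mem_ball, dist_eq_norm] at this
    have h4 : ‖w t‖ < 3 * r / 2 := by
      by_contra hcon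
      exact hρt (hρ0 t (not_lt.mp hcon))
    have h5 : t - t₀ = (t₀ + ν (t - t₀) + l • w t - t₀) + (1 - l) • w t := by
      rw [sub_smul, one_smul, hw]
      abel
    have h6 : ‖(1 - l) • w t‖ ≤ ‖w t‖ := by
      rw [norm_smul, Real.norm_eq_abs, abs_of_nonneg (by linarith [hl.2])]
      have := norm_nonneg (w t)
      nlinarith [hl.1]
    have h7 : ‖t - t₀‖ ≤ ‖t₀ + ν (t - t₀) + l • w t - t₀‖ + ‖(1 - l) • w t‖ := by
      conv_lhs => rw [h5]
      exact norm_add_le _ _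
    rw [dist_eq_norm] at ht
    linarith
  let β : E → E [⋀^Fin n]→L[ℝ] ℝ := fun t => ρ t • β₁ t
  have hβe : ∀ t, β t = ρ t • β₁ t := fun t => rfl
  have hβ : ContDiff ℝ (⊤ : ℕ∞) β := hρ.smul b1
  let α₁ : E → E [⋀^Fin (n + 1)]→L[ℝ] ℝ := fun t => ρ t • extDeriv β₁ t - extDeriv β t
  have hα₁e : ∀ t, α₁ t = ρ t • extDeriv β₁ t - extDeriv β t := fun t => rfl
  have hα₁ : ContDiff ℝ (⊤ : ℕ∞) α₁ :=
    (hρ.smul (Real_ext_smooth β₁ b1)).sub (Real_ext_smooth β hβ)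
  have hopen : IsOpen (Metric.closedBall t₀ (7 * r / 4))ᶜ := Metric.isClosed_closedBall.isOpen_compl
  have hdist : ∀ t, t ∉ Metric.closedBall t₀ (7 * r / 4) → 7 * r / 4 < dist t t₀ := by
    intro t ht
    rw [Metric.mem_closedBall] at ht
    exact not_le.mp ht
  have hβ0 : ∀ t, t ∉ Metric.closedBall t₀ (7 * r / 4) → β t = 0 := by
    intro t ht
    rw [hβe]
    by_cases h3 : ρ t = 0
    · rw [h3, zero_smul]
    · rw [hfar t (hdist t ht) h3, smul_zero]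
  have hdβ0 : ∀ t, t ∉ Metric.closedBall t₀ (7 * r / 4) → extDeriv β t = 0 := by
    intro t ht
    refine Real_ext_zero_of β t ?_
    filter_upwards [hopen.mem_nhds ht] with y hy
    exact hβ0 y hy
  have hρd0 : ∀ t, t ∉ Metric.closedBall t₀ (7 * r / 4) → ρ t • extDeriv β₁ t = 0 := by
    intro t ht
    by_cases h3 : ρ t = 0
    · rw [h3, zero_smul]
    · have h4 : extDeriv β₁ t = 0 := by
        refine Real_ext_zero_of β₁ t ?_
        filter_upwards [hopen.mem_nhds ht, hρ.continuous.continuousAt.eventually_ne h3] with y hy hy2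
        exact hfar y (hdist y hy) hy2
      rw [h4, smul_zero]
  have hα0 : ∀ t, t ∉ Metric.closedBall t₀ (7 * r / 4) → α₁ t = 0 := by
    intro t ht
    rw [hα₁e, hρd0 t ht, hdβ0 t ht, sub_zero]
  have hαw : ∀ t, ‖w t‖ < r → α₁ t = 0 := by
    intro t ht
    have h3 : β =ᶠ[𝓝 t] β₁ := by
      have h4 : ∀ᶠ y in 𝓝 t, ‖w y‖ < r :=
        (hwc.continuous.norm.continuousAt).eventually_lt continuousAt_const ht
      filter_upwards [h4] with y hy
      rw [hβe, hρ1 y hy.le, one_smul]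
    rw [hα₁e, h3.extDeriv_eq, hρ1 t ht.le, one_smul, sub_self]
  have hsub : Metric.closedBall t₀ (7 * r / 4) ⊆ U := by
    refine Subset.trans ?_ hrU
    intro t ht
    rw [Metric.mem_closedBall] at ht
    rw [Metric.mem_ball]
    linarith
  have hsβ : tsupport β ⊆ Metric.closedBall t₀ (7 * r / 4) := by
    refine closure_minimal ?_ Metric.isClosed_closedBall
    intro t ht
    by_contra hcon
    exact ht (hβ0 t hcon)
  have hsα : tsupport α₁ ⊆ Metric.closedBall t₀ (7 * r / 4) ∩ {t | r ≤ ‖w t‖} := by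
    refine closure_minimal ?_ (Metric.isClosed_closedBall.inter
      (isClosed_le continuous_const hwc.continuous.norm))
    intro t ht
    refine ⟨?_, ?_⟩
    · by_contra hcon
      exact ht (hα0 t hcon)
    · by_contra hcon
      exact ht (hαw t (not_le.mp hcon))
  refine ⟨β, α₁, hβ, ?_, hsβ.trans hsub, hα₁, ?_, (hsα.trans inter_subset_left).trans hsub, ?_, ?_⟩
  · exact (isCompact_closedBall t₀ (7 * r / 4)).of_isClosed_subset (isClosed_tsupport β) hsβ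
  · exact (isCompact_closedBall t₀ (7 * r / 4)).of_isClosed_subset (isClosed_tsupport α₁)
      (hsα.trans inter_subset_left)
  · intro t ht
    obtain ⟨h3, h4⟩ := hsα ht
    refine Finset.card_lt_card ?_
    have h5 : ∀ A ∈ 𝒜, t ∈ A → t₀ ∈ A := by
      refine hrA t ?_
      rw [Metric.mem_closedBall] at h3
      rw [Metric.mem_ball]
      linarith
    refine ⟨?_, ?_⟩
    · intro A hA
      rw [Real_mem_thr] at hA ⊢
      exact ⟨hA.1, h5 A hA.1 hA.2⟩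
    · intro hcon
      have h6 : w t = 0 := by
        refine hν0 t fun A hA => ?_
        exact (Real_mem_thr.mp (hcon hA)).2
      have h7 : r ≤ ‖w t‖ := h4
      rw [h6, norm_zero] at h7
      linarith
  · intro A hA t ht v hv
    have h3 : extDeriv β t v + α₁ t v = ρ t * extDeriv β₁ t v := by
      rw [hα₁e]
      simp only [ContinuousAlternatingMap.sub_apply, ContinuousAlternatingMap.smul_apply,
        smul_eq_mul]
      ring
    rw [h3]
    by_cases hA0 : t₀ ∈ A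
    · have hA1 : A ∈ Real_thr 𝒜 t₀ := Real_mem_thr.mpr ⟨hA, hA0⟩
      have h4 := b3 A.direction (hd A hA) (hνA A hA1) t
        (AffineSubspace.vsub_mem_direction ht hA0) v hv
      rw [h4]
      by_cases h5 : t ∈ tsupport α₀
      · have h6 : ρ t = 1 := by
          apply hρ1
          have h7 := a3 h5
          rw [Metric.mem_ball, dist_eq_norm] at h7
          have h8 := hwb t
          have h9 : (1 + ‖νc‖) * ‖t - t₀‖ ≤ (1 + ‖νc‖) * r' :=
            mul_le_mul_of_nonneg_left h7.le (by linarith)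
          linarith
        rw [h6, one_mul]
      · rw [image_eq_zero_of_notMem_tsupport h5]
        simp
    · have h4 : t ∉ Metric.ball t₀ (2 * r) := fun h => hA0 (hrA t h A hA ht)
      have h5 : t ∉ Metric.closedBall t₀ (7 * r / 4) := by
        intro h6
        apply h4
        rw [Metric.mem_closedBall] at h6
        rw [Metric.mem_ball]
        linarith
      have h6 : α₀ t = 0 := by
        refine image_eq_zero_of_notMem_tsupport fun h7 => ?_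
        have h8 := a3 h7
        rw [Metric.mem_ball] at h8 h4
        linarith
      have h7 : (ρ t • extDeriv β₁ t) v = 0 := by rw [hρd0 t h5]; rfl
      rw [h6]
      simp only [ContinuousAlternatingMap.smul_apply, smul_eq_mul] at h7
      rw [h7]
      rfl

private theorem Real_main (hH : St_Homo) (𝒜 : Finset (AffineSubspace ℝ E)) (U : Set E)
    (hU : IsOpen U) (hd : ∀ A ∈ 𝒜, Module.finrank ℝ A.direction = n + 1) (N : ℕ) :
    ∀ α : E → E [⋀^Fin (n + 1)]→L[ℝ] ℝ, ContDiff ℝ (⊤ : ℕ∞) α → HasCompactSupport α →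
      tsupport α ⊆ U → (∀ t ∈ tsupport α, (Real_thr 𝒜 t).card ≤ N) → Real_P 𝒜 U α := by
  induction N with
  | zero =>
    intro α h1 h2 h3 h4
    refine Real_direct 𝒜 U α h1 h2 h3 ?_
    intro t ht A hA B hB htA htB
    have h5 := Finset.card_eq_zero.mp (Nat.le_zero.mp (h4 t ht))
    have h6 : A ∈ Real_thr 𝒜 t := Real_mem_thr.mpr ⟨hA, htA⟩
    rw [h5] at h6
    exact absurd h6 (Finset.notMem_empty A)
  | succ N ih =>
    intro α h1 h2 h3 h4
    refine Real_pou α h1 h2 ?_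
    intro t₀ ht₀
    by_cases h5 : 2 ≤ (Real_thr 𝒜 t₀).card
    · obtain ⟨W, hW1, hW2, hW3⟩ := Real_local hH 𝒜 U hU hd t₀ (h3 ht₀) h5
      refine ⟨W, hW1, hW2, ?_⟩
      intro α₀ a1 a2 a3
      obtain ⟨β, α₁, b1, b2, b3, b4, b5, b6, b7, b8⟩ := hW3 α₀ a1 a2 a3
      refine Real_step β b1 b2 b3 (ih α₁ b4 b5 b6 ?_) b8
      intro t ht
      have h6 := b7 t ht
      have h7 := h4 t₀ ht₀
      omega
    · obtain ⟨r, hr, hrU, hrA⟩ := Real_ball 𝒜 U hU t₀ (h3 ht₀)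
      refine ⟨Metric.ball t₀ (2 * r), Metric.isOpen_ball,
        Metric.mem_ball_self (by positivity), ?_⟩
      intro α₀ a1 a2 a3
      refine Real_direct 𝒜 U α₀ a1 a2 (a3.trans hrU) ?_
      intro t ht A hA B hB htA htB
      have h6 : (Real_thr 𝒜 t₀).card ≤ 1 := by omega
      rw [Finset.card_le_one] at h6
      exact h6 A (Real_mem_thr.mpr ⟨hA, hrA t (a3 ht) A hA htA⟩) B
        (Real_mem_thr.mpr ⟨hB, hrA t (a3 ht) B hB htB⟩)

end

/-- The real lemma. -/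
theorem thm_Real (hH : St_Homo) : St_Real := by
  intro E _ _ _ n 𝒜 α U hA h1 h2 hU h3
  refine Real_main hH 𝒜 U hU (fun A hA1 => (hA A hA1).2) 𝒜.card α h1 h2 h3 ?_
  intro t _
  refine Finset.card_le_card ?_
  intro A hA1
  exact (Real_mem_thr.mp hA1).1

end TDC
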