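import Pool.Agent.TDC.St

/-!
# TDC, module SelE: selecting cut-offs exist
-/

namespace TDC

open scoped Topology

private theorem SelE_cont {K M : Type} [NormedField K] [Field M] {φ : K →+* M} {n : ℕ}
    (g : Fin n → Mˣ) : Continuous (fun x : Pt φ => logv x g) := by
  have hv : Continuous (fun (x : Pt φ) (f : M) => x.v f) := continuous_induced_dom
  refine continuous_pi fun i => ?_
  have h : Continuous fun x : Pt φ => x.v (g i) := (continuous_apply (g i : M)).comp hv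
  exact h.log fun x => (x.v.pos (g i).ne_zero).ne'

private theorem SelE_open {R : ℕ} (χ : (Fin R → ℝ) → ℝ) (c : ℝ) :
    IsOpen {s : Fin R → ℝ | χ =ᶠ[𝓝 s] fun _ => c} := by
  have h : {s : Fin R → ℝ | χ =ᶠ[𝓝 s] fun _ => c} = {s | ∀ᶠ t in 𝓝 s, χ t = c} := rfl
  rw [h]
  exact isOpen_setOfPred_eventually_nhds

/-- **SelE.** -/
theorem thm_SelE (h1 : St_FinF) (h2 : St_Sepa) (h3 : St_Shri) : St_SelE := by
  intro K L _ _ _ n htr hfg x g hx
  have hfin := h1 K L n htr hfg g (logv x g)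
  let Y : Set (Pt (algebraMap K L)) :=
    {y : Pt (algebraMap K L) | Gauss y g ∧ logv y g = logv x g} \ {x}
  have hY : Y.Finite := hfin.subset Set.sdiff_subset
  have hxY : x ∉ Y := fun h => h.2 rfl
  obtain ⟨R, F, χ, hχ, hone, hzero⟩ := h2 K L (algebraMap K L) x Y hY hxY
  let N : Set (Pt (algebraMap K L)) :=
    (fun y => logv y F) ⁻¹' ({s | χ =ᶠ[𝓝 s] fun _ => 0} ∪ {s | χ =ᶠ[𝓝 s] fun _ => 1})
  have hN : IsOpen N := ((SelE_open χ 0).union (SelE_open χ 1)).preimage (SelE_cont F)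
  have hNx : ∀ y, Gauss y g → logv y g = logv x g → y ∈ N := by
    intro y hy hyx
    by_cases h : y = x
    · subst h
      exact Or.inr hone
    · exact Or.inl (hzero y ⟨⟨hy, hyx⟩, h⟩)
  obtain ⟨δ, hδ, hδN⟩ := h3 K L n htr g (logv x g) N hN hNx
  refine ⟨R, F, χ, ⟨δ, hδ, hχ, fun y hy hyb => hδN y hy hyb⟩, hx, hone.self_of_nhds, ?_⟩
  intro y hy hyx hne
  by_contra h
  exact hne (hzero y ⟨⟨hy, hyx⟩, h⟩).self_of_nhds

end TDC
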