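import Pool.Agent.TDC.St
import Pool.Agent.TDC.St2

/-!
# TDC, module SelU: selecting cut-offs go up the tower
-/

namespace TDC

open scoped Topology
open Polynomial

/-- The restriction to `L'` of a Gauss point of `(g', q)` is a Gauss point of `g'`. -/
private lemma SelU_gauss {K L' L : Type} [NormedField K] [Field L'] [Field L] [Algebra K L']
    [Algebra K L] [Algebra L' L] [IsScalarTower K L' L] {m : ℕ} (g' : Fin m → L'ˣ) (q : Lˣ)
    (y : Pt (algebraMap K L))
    (hy : Gauss y (Fin.snoc (α := fun _ => Lˣ) (up L g') q)) : Gauss (res L' y) g' := by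
  intro P e
  have h := hy (MvPolynomial.rename Fin.castSucc P) (e.mapDomain Fin.castSucc)
  rw [MvPolynomial.coeff_rename_mapDomain _ (Fin.castSucc_injective m),
    MvPolynomial.eval₂_rename, Fin.prod_univ_castSucc] at h
  have h1 : (e.mapDomain Fin.castSucc) (Fin.last m) = 0 := by
    apply Finsupp.mapDomain_of_notMem_range
    rintro ⟨i, hi⟩
    exact (Fin.castSucc_lt_last i).ne hi
  rw [h1, pow_zero, mul_one] at h
  have h2 : ∀ i : Fin m, y.v ((Fin.snoc (α := fun _ => Lˣ) (up L g') q i.castSucc : Lˣ) : L) ^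
      (e.mapDomain Fin.castSucc) i.castSucc = (res L' y).v (g' i) ^ e i := by
    intro i
    rw [Fin.snoc_castSucc, Finsupp.mapDomain_apply (Fin.castSucc_injective m)]
    rfl
  rw [Finset.prod_congr rfl fun i _ => h2 i] at h
  have h3 : MvPolynomial.eval₂ (algebraMap K L)
      ((fun i => ((Fin.snoc (α := fun _ => Lˣ) (up L g') q i : Lˣ) : L)) ∘ Fin.castSucc) P =
      algebraMap L' L (MvPolynomial.eval₂ (algebraMap K L') (fun i => (g' i : L')) P) := by
    rw [MvPolynomial.hom_eval₂, ← IsScalarTower.algebraMap_eq K L' L]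
    refine congrArg (fun f => MvPolynomial.eval₂ (algebraMap K L) f P) ?_
    funext i
    simp only [Function.comp_apply, Fin.snoc_castSucc]
    rfl
  rw [h3] at h
  exact h

/-- **SelU**. Selecting cut-offs go up the tower. -/
theorem thm_SelU (h1 : St_Uniq) (h2 : St_IndG) : St_SelU := by
  intro K L' L _ _ _ _ _ _ _ t ht m R x g' F₀ χ' Q q hg hsel hQ hdeg hq
  obtain ⟨⟨ρ, hρ, hcl⟩, hz, hone, huniq⟩ := hsel
  have hfree : Free (res L' x) (x.v (q : L)) := by
    rw [hq]; exact hQ.2.1
  have hind : Indep x (Fin.snoc (α := fun _ => Lˣ) (up L g') q) := by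
    intro k hk
    obtain ⟨a, ha⟩ := hk
    rw [Fin.prod_univ_castSucc] at ha
    simp only [Fin.snoc_castSucc, Fin.snoc_last] at ha
    have hP : ((∏ i : Fin m, up L g' i ^ k i.castSucc : Lˣ) : L) =
        algebraMap L' L ((∏ i : Fin m, g' i ^ k i.castSucc : L'ˣ) : L') := by
      rw [Units.coe_prod, Units.coe_prod, map_prod]
      refine Finset.prod_congr rfl fun i _ => ?_
      rw [Units.val_zpow_eq_zpow_val, Units.val_zpow_eq_zpow_val, map_zpow₀]
      rfl
    rw [Units.val_mul, map_mul, hP, Units.val_zpow_eq_zpow_val, map_zpow₀] at ha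
    set p : L' := ((∏ i : Fin m, g' i ^ k i.castSucc : L'ˣ) : L') with hp
    have hp0 : p ≠ 0 := Units.ne_zero _
    have hpp : (res L' x).v p = x.v (algebraMap L' L p) := rfl
    rw [← hpp] at ha
    have hq0 : 0 < x.v (q : L) := x.v.pos q.ne_zero
    have hpv : 0 < (res L' x).v p := (res L' x).v.pos hp0
    have haz : (res L' x).v (algebraMap K L' a) = ‖a‖ := (res L' x).ext a
    have hl : k (Fin.last m) = 0 := by
      by_contra hl
      rcases lt_or_gt_of_ne hl with hneg | hpos
      · obtain ⟨N, hN⟩ := Int.eq_ofNat_of_zero_le (show 0 ≤ -k (Fin.last m) by omega)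
        have hN0 : 0 < N := by omega
        have hk' : k (Fin.last m) = -(N : ℤ) := by omega
        rw [hk', zpow_neg, zpow_natCast] at ha
        apply hfree.2 N hN0 (p / algebraMap K L' a)
        have hqN : x.v (q : L) ^ N ≠ 0 := (pow_pos hq0 N).ne'
        have ha0 : ‖a‖ ≠ 0 := by
          rw [ha]
          exact mul_ne_zero hpv.ne' (inv_ne_zero hqN)
        rw [map_div₀, haz, div_eq_iff ha0, ha]
        field_simp
      · obtain ⟨N, hN⟩ := Int.eq_ofNat_of_zero_le hpos.le
        have hN0 : 0 < N := by omega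
        rw [hN, zpow_natCast] at ha
        apply hfree.2 N hN0 (algebraMap K L' a / p)
        rw [map_div₀, haz, div_eq_iff hpv.ne', ha, mul_comm]
    rw [hl, zpow_zero, mul_one] at ha
    have hk0 := hg (fun i => k i.castSucc) ⟨a, ha⟩
    funext i
    refine Fin.lastCases ?_ (fun i => ?_) i
    · exact hl
    · exact congrFun hk0 i
  have hlog : ∀ y : Pt (algebraMap K L), ∀ i : Fin m,
      logv y (Fin.snoc (α := fun _ => Lˣ) (up L g') q) i.castSucc = logv (res L' y) g' i := by
    intro y i
    unfold logv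
    rw [Fin.snoc_castSucc]
    rfl
  have hlast : ∀ y : Pt (algebraMap K L),
      logv y (Fin.snoc (α := fun _ => Lˣ) (up L g') q) (Fin.last m) = Real.log (y.v (q : L)) := by
    intro y
    unfold logv
    rw [Fin.snoc_last]
  refine ⟨hind, ⟨ρ, hρ, hcl.1, ?_⟩, h2 _ _ _ _ _ _ hind, hone, ?_⟩
  · intro y hy hyS
    have hyS' : logv (res L' y) g' ∈ Metric.ball (logv (res L' x) g') ρ := by
      rw [Metric.mem_ball] at hyS ⊢
      rw [dist_pi_lt_iff hρ] at hyS ⊢
      intro i
      have := hyS i.castSucc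
      rwa [hlog, hlog] at this
    exact hcl.2 (res L' y) (SelU_gauss g' q y hy) hyS'
  · intro y hy hyx hχ
    have hres : res L' y = res L' x := by
      apply huniq _ (SelU_gauss g' q y hy) _ hχ
      funext i
      rw [← hlog, ← hlog, hyx]
    have hqv : y.v (q : L) = x.v (q : L) := by
      have h3 := congrFun hyx (Fin.last m)
      rw [hlast, hlast] at h3
      exact Real.log_injOn_pos (y.v.pos q.ne_zero) (x.v.pos q.ne_zero) h3
    refine h1 K L' L t ht x Q hQ hdeg y x hres rfl ?_ ?_
    · rw [← hq]; exact hqv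
    · rw [← hq, hqv]; exact hfree

end TDC
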