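import Pool.Agent.TDC.St

/-!
# TDC: Sepa (separation of finitely many points by a smooth cut-off)
-/

namespace TDC

open scoped Topology

private theorem Sepa_bump (a b : ℝ) (h : a ≠ b) : ∃ c : ℝ → ℝ, ContDiff ℝ (⊤ : ℕ∞) c ∧
    (c =ᶠ[𝓝 a] fun _ => 1) ∧ c =ᶠ[𝓝 b] fun _ => 0 := by
  have hd : 0 < dist a b := dist_pos.2 h
  let f : ContDiffBump a := ⟨dist a b / 4, dist a b / 2, by linarith, by linarith⟩
  refine ⟨f, f.contDiff, f.eventuallyEq_one, ?_⟩
  have h1 : Metric.ball b (dist a b / 2) ∈ 𝓝 b := Metric.ball_mem_nhds _ (by linarith)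
  filter_upwards [h1] with t ht
  refine f.zero_of_le_dist ?_
  change dist a b / 2 ≤ dist t a
  have h2 := dist_triangle a t b
  rw [Metric.mem_ball] at ht
  rw [dist_comm t a]
  linarith

private theorem Sepa_ne {K M : Type} [NormedField K] [Field M] {φ : K →+* M} (x y : Pt φ)
    (h : x ≠ y) : ∃ f : Mˣ, Real.log (x.v f) ≠ Real.log (y.v f) := by
  by_contra hc
  push Not at hc
  apply h
  have hv : x.v = y.v := by
    ext a
    by_cases ha : a = 0
    · simp [ha]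
    · have h1 := hc (Units.mk0 a ha)
      have h2 : 0 < x.v a := x.v.pos ha
      have h3 : 0 < y.v a := y.v.pos ha
      exact Real.log_injOn_pos (Set.mem_Ioi.2 h2) (Set.mem_Ioi.2 h3) h1
  cases x
  cases y
  simp only at hv
  subst hv
  rfl

private theorem Sepa_ev {R : ℕ} (s : Fin R → ℝ) (i : Fin R) (c : ℝ → ℝ) (r : ℝ)
    (h : c =ᶠ[𝓝 (s i)] fun _ => r) : ∀ᶠ t : Fin R → ℝ in 𝓝 s, c (t i) = r :=
  ((continuous_apply i).tendsto s).eventually h

theorem thm_Sepa : St_Sepa := by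
  intro K M _ _ φ x Y hY hx
  have h0 : ∀ y : Y, ∃ (f : Mˣ) (c : ℝ → ℝ), ContDiff ℝ (⊤ : ℕ∞) c ∧
      (c =ᶠ[𝓝 (Real.log (x.v f))] fun _ => 1) ∧ c =ᶠ[𝓝 (Real.log (y.1.v f))] fun _ => 0 := by
    intro y
    obtain ⟨f, hf⟩ := Sepa_ne x y.1 (fun h => hx (h ▸ y.2))
    obtain ⟨c, hc⟩ := Sepa_bump _ _ hf
    exact ⟨f, c, hc⟩
  choose f c hc1 hc2 hc3 using h0
  have : Fintype Y := hY.fintype
  let e : Fin (Fintype.card Y) ≃ Y := (Fintype.equivFin Y).symm
  refine ⟨Fintype.card Y, fun i => f (e i), fun t => ∏ i, c (e i) (t i), ?_, ?_, ?_⟩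
  · refine contDiff_prod fun i _ => ?_
    exact (hc1 (e i)).comp (contDiff_apply ℝ ℝ i)
  · have h1 : ∀ i, ∀ᶠ t : Fin (Fintype.card Y) → ℝ in 𝓝 (logv x fun i => f (e i)),
        c (e i) (t i) = 1 := fun i => Sepa_ev _ i _ _ (hc2 (e i))
    filter_upwards [Filter.eventually_all.2 h1] with t ht
    exact Finset.prod_eq_one fun i _ => ht i
  · intro y hy
    obtain ⟨i, hi⟩ := e.surjective ⟨y, hy⟩
    have h2 := hc3 (e i)
    rw [show ((e i : Y) : Pt φ) = y from congrArg Subtype.val hi] at h2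
    filter_upwards [Sepa_ev (logv y fun i => f (e i)) i _ _ h2] with t ht
    exact Finset.prod_eq_zero (Finset.mem_univ i) ht

end TDC
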