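import Pool.Agent.TDC.St

/-!
# TDC, module Shri: shrinking
-/

namespace TDC

open scoped Topology

private theorem Shri_cont {K M : Type} [NormedField K] [Field M] {φ : K →+* M} {n : ℕ}
    (g : Fin n → Mˣ) : Continuous (fun x : Pt φ => logv x g) := by
  have hv : Continuous (fun (x : Pt φ) (f : M) => x.v f) := continuous_induced_dom
  refine continuous_pi fun i => ?_
  have h : Continuous fun x : Pt φ => x.v (g i) := (continuous_apply (g i : M)).comp hv
  exact h.log fun x => (x.v.pos (g i).ne_zero).ne'

/-- **Shri.** -/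
theorem thm_Shri (h : St_GCpt) : St_Shri := by
  intro K L _ _ _ n htr g s N hN hs
  have hc : IsCompact ({x : Pt (algebraMap K L) | Gauss x g ∧ logv x g ∈ Metric.closedBall s 1} \ N) :=
    (h K L n htr g _ (isCompact_closedBall s 1)).diff hN
  rcases Set.eq_empty_or_nonempty
    ({x : Pt (algebraMap K L) | Gauss x g ∧ logv x g ∈ Metric.closedBall s 1} \ N) with he | hne
  · refine ⟨1, one_pos, ?_⟩
    intro y hy hys
    by_contra hyN
    have hmem : y ∈ ({x : Pt (algebraMap K L) |
        Gauss x g ∧ logv x g ∈ Metric.closedBall s 1} \ N) :=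
      ⟨⟨hy, Metric.ball_subset_closedBall hys⟩, hyN⟩
    rw [he] at hmem
    exact hmem
  · obtain ⟨y0, hy0, hmin⟩ := hc.exists_isMinOn hne
      (f := fun x : Pt (algebraMap K L) => dist (logv x g) s)
      ((Shri_cont g).dist continuous_const).continuousOn
    have hpos : 0 < dist (logv y0 g) s := by
      rw [dist_pos]
      intro heq
      exact hy0.2 (hs y0 hy0.1.1 heq)
    refine ⟨min (dist (logv y0 g) s) 1, lt_min hpos one_pos, ?_⟩
    intro y hy hys
    by_contra hyN
    rw [Metric.mem_ball, lt_min_iff] at hys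
    have hmem : y ∈ ({x : Pt (algebraMap K L) |
        Gauss x g ∧ logv x g ∈ Metric.closedBall s 1} \ N) :=
      ⟨⟨hy, hys.2.le⟩, hyN⟩
    have := isMinOn_iff.mp hmin y hmem
    linarith [hys.1]

end TDC
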