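import Pool.Agent.TDC.StT

/-!
# TDC, module Slo: slopes of a piecewise linear function of one variable
-/

namespace TDC

open scoped Topology

private lemma Slo_sup {E : Type} (S : Finset E) (f : E → ℝ) (e₀ : E) (h₀ : e₀ ∈ S)
    (h : ∀ e ∈ S, f e ≤ f e₀) : (⨆ e : S, f e.1) = f e₀ := by
  have : Nonempty S := ⟨⟨e₀, h₀⟩⟩
  refine le_antisymm (ciSup_le fun e => h e.1 e.2) ?_
  exact le_ciSup (f := fun e : S => f e.1) (Set.finite_range _).bddAbove ⟨e₀, h₀⟩

private lemma Slo_max (r h ρ : ℝ) (hh : 0 < h) (h1 : r < ρ → r + h < ρ) (h2 : ρ < r → ρ < r - h) :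
    max (r + h) ρ + max (r - h) ρ - 2 * max r ρ = if ρ = r then h else 0 := by
  rcases lt_trichotomy ρ r with hρ | hρ | hρ
  · have := h2 hρ
    rw [max_eq_left (by linarith), max_eq_left (by linarith), max_eq_left hρ.le, if_neg hρ.ne]
    ring
  · rw [max_eq_left (by linarith), max_eq_right (by linarith), max_eq_left hρ.le, if_pos hρ, hρ]
    ring
  · have := h1 hρ
    rw [max_eq_right (by linarith), max_eq_right (by linarith), max_eq_right hρ.le, if_neg hρ.ne']
    ring

private lemma Slo_ev {E : Type} (S : Finset E) (f : E → ℝ → ℝ) (hf : ∀ e ∈ S, Continuous (f e))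
    (h0 : ∀ e ∈ S, 0 < f e 0) : ∀ᶠ h in 𝓝 (0 : ℝ), ∀ e ∈ S, 0 < f e h := by
  rw [Filter.eventually_all_finset]
  intro e he
  exact (hf e he).continuousAt.eventually (lt_mem_nhds (h0 e he))

/-- **Slo**. -/
theorem thm_Slo : St_Slo := by
  classical
  intro ι E T S hS ρ a d C κ D _ hfun r
  obtain ⟨e₀, he₀, hmax⟩ := S.exists_max_image (fun e => a e + d e * r) hS
  set m : ℝ := a e₀ + d e₀ * r with hm
  set S₀ : Finset E := S.filter fun e => a e + d e * r = m with hS₀
  have hne : S₀.Nonempty := ⟨e₀, by rw [hS₀, Finset.mem_filter]; exact ⟨he₀, rfl⟩⟩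
  obtain ⟨e₁, he₁, hd₁⟩ := S₀.exists_max_image d hne
  obtain ⟨e₂, he₂, hd₂⟩ := S₀.exists_min_image d hne
  obtain ⟨he₁S, he₁m⟩ := Finset.mem_filter.1 he₁
  obtain ⟨he₂S, he₂m⟩ := Finset.mem_filter.1 he₂
  -- a small positive step
  have hA : ∀ᶠ h in 𝓝 (0 : ℝ), ∀ e ∈ S.filter (fun e => a e + d e * r ≠ m),
      0 < (m + h * d e₁) - (a e + d e * (r + h)) := by
    refine Slo_ev _ (fun e h => (m + h * d e₁) - (a e + d e * (r + h))) ?_ ?_
    · intro e _
      fun_prop
    · intro e he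
      obtain ⟨heS, hem⟩ := Finset.mem_filter.1 he
      have := lt_of_le_of_ne (hmax e heS) hem
      show 0 < (m + 0 * d e₁) - (a e + d e * (r + 0))
      rw [zero_mul, add_zero, add_zero]
      linarith
  have hB : ∀ᶠ h in 𝓝 (0 : ℝ), ∀ e ∈ S.filter (fun e => a e + d e * r ≠ m),
      0 < (m - h * d e₂) - (a e + d e * (r - h)) := by
    refine Slo_ev _ (fun e h => (m - h * d e₂) - (a e + d e * (r - h))) ?_ ?_
    · intro e _
      fun_prop
    · intro e he
      obtain ⟨heS, hem⟩ := Finset.mem_filter.1 he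
      have := lt_of_le_of_ne (hmax e heS) hem
      show 0 < (m - 0 * d e₂) - (a e + d e * (r - 0))
      rw [zero_mul, sub_zero, sub_zero]
      linarith
  have hP : ∀ᶠ h in 𝓝 (0 : ℝ), ∀ i ∈ T.filter (fun i => r < ρ i), 0 < ρ i - (r + h) := by
    refine Slo_ev _ (fun i h => ρ i - (r + h)) ?_ ?_
    · intro i _
      fun_prop
    · intro i hi
      have := (Finset.mem_filter.1 hi).2
      show 0 < ρ i - (r + 0)
      linarith
  have hQ : ∀ᶠ h in 𝓝 (0 : ℝ), ∀ i ∈ T.filter (fun i => ρ i < r), 0 < (r - h) - ρ i := by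
    refine Slo_ev _ (fun i h => (r - h) - ρ i) ?_ ?_
    · intro i _
      fun_prop
    · intro i hi
      have := (Finset.mem_filter.1 hi).2
      show 0 < (r - 0) - ρ i
      linarith
  have hall := (((hA.and hB).and (hP.and hQ)).filter_mono
    (nhdsWithin_le_nhds (s := Set.Ioi (0 : ℝ)))).and self_mem_nhdsWithin
  obtain ⟨h, ⟨⟨⟨h1, h2⟩, ⟨h3, h4⟩⟩, hh⟩⟩ := hall.exists
  have hh' : 0 < h := hh
  -- the three values of the supremum
  have v0 : (⨆ e : S, (a e.1 + d e.1 * r)) = m := Slo_sup S (fun e => a e + d e * r) e₀ he₀ hmax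
  have v1 : (⨆ e : S, (a e.1 + d e.1 * (r + h))) = m + h * d e₁ := by
    rw [Slo_sup S (fun e => a e + d e * (r + h)) e₁ he₁S ?_]
    · show a e₁ + d e₁ * (r + h) = _
      rw [← he₁m]
      ring
    · intro e he
      show a e + d e * (r + h) ≤ a e₁ + d e₁ * (r + h)
      have hv : a e₁ + d e₁ * (r + h) = m + h * d e₁ := by rw [← he₁m]; ring
      rw [hv]
      by_cases hem : a e + d e * r = m
      · have h5 := hd₁ e (Finset.mem_filter.2 ⟨he, hem⟩)
        have h6 : a e + d e * (r + h) = m + h * d e := by rw [← hem]; ring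
        rw [h6]
        have := mul_le_mul_of_nonneg_left h5 hh'.le
        linarith
      · have := h1 e (Finset.mem_filter.2 ⟨he, hem⟩)
        linarith
  have v2 : (⨆ e : S, (a e.1 + d e.1 * (r - h))) = m - h * d e₂ := by
    rw [Slo_sup S (fun e => a e + d e * (r - h)) e₂ he₂S ?_]
    · show a e₂ + d e₂ * (r - h) = _
      rw [← he₂m]
      ring
    · intro e he
      show a e + d e * (r - h) ≤ a e₂ + d e₂ * (r - h)
      have hv : a e₂ + d e₂ * (r - h) = m - h * d e₂ := by rw [← he₂m]; ring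
      rw [hv]
      by_cases hem : a e + d e * r = m
      · have h5 := hd₂ e (Finset.mem_filter.2 ⟨he, hem⟩)
        have h6 : a e + d e * (r - h) = m - h * d e := by rw [← hem]; ring
        rw [h6]
        have := mul_le_mul_of_nonneg_left h5 hh'.le
        linarith
      · have := h2 e (Finset.mem_filter.2 ⟨he, hem⟩)
        linarith
  -- the second difference of the left side
  have hsum : ∑ i ∈ T, max (r + h) (ρ i) + ∑ i ∈ T, max (r - h) (ρ i) -
      2 * ∑ i ∈ T, max r (ρ i) = h * ((T.filter fun i => ρ i = r).card : ℝ) := by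
    rw [Finset.mul_sum, ← Finset.sum_add_distrib, ← Finset.sum_sub_distrib]
    have : ∀ i ∈ T, max (r + h) (ρ i) + max (r - h) (ρ i) - 2 * max r (ρ i) =
        if ρ i = r then h else 0 := by
      intro i hi
      refine Slo_max r h (ρ i) hh' (fun hl => ?_) (fun hl => ?_)
      · have := h3 i (Finset.mem_filter.2 ⟨hi, hl⟩)
        linarith
      · have := h4 i (Finset.mem_filter.2 ⟨hi, hl⟩)
        linarith
    rw [Finset.sum_congr rfl this, ← Finset.sum_filter, Finset.sum_const, nsmul_eq_mul]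
    ring
  have E0 := hfun r
  have E1 := hfun (r + h)
  have E2 := hfun (r - h)
  rw [v0] at E0
  rw [v1] at E1
  rw [v2] at E2
  refine ⟨e₁, he₁S, e₂, he₂S, ?_, ?_, ?_, ?_⟩
  · intro e he
    rw [he₁m]
    exact hmax e he
  · intro e he
    rw [he₂m]
    exact hmax e he
  · intro e he hem
    rw [he₁m] at hem
    have hmem : e ∈ S₀ := Finset.mem_filter.2 ⟨he, hem⟩
    exact ⟨hd₂ e hmem, hd₁ e hmem⟩
  · have h7 : h * (κ * ((T.filter fun i => ρ i = r).card : ℝ)) = h * (D * (d e₁ - d e₂)) := by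
      have : h * (κ * ((T.filter fun i => ρ i = r).card : ℝ)) =
          κ * (h * ((T.filter fun i => ρ i = r).card : ℝ)) := by ring
      rw [this, ← hsum]
      linear_combination E1 + E2 - 2 * E0
    exact mul_left_cancel₀ hh'.ne' h7

end TDC
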