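import Pool.Agent.TDC.St

/-!
# TDC, module Spli: splitting a small bump into the points of the fibre
-/

namespace TDC

open scoped Topology

/-- `log|F|` is continuous. -/
private lemma Spli_cont {K M : Type} [NormedField K] [Field M] {φ : K →+* M} {R : ℕ}
    (F : Fin R → Mˣ) : Continuous fun z : Pt φ => logv z F := by
  refine continuous_pi fun i => ?_
  have h1 : Continuous fun z : Pt φ => z.v (F i : M) :=
    (continuous_apply (F i : M)).comp continuous_induced_dom
  exact h1.log fun z => (z.v.pos (F i).ne_zero).ne'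

/-- A cut-off which is locally constant near `log|F(y)|` is locally constant near `y`. -/
private lemma Spli_loc {K M : Type} [NormedField K] [Field M] {φ : K →+* M} {R : ℕ}
    (F : Fin R → Mˣ) (χ : (Fin R → ℝ) → ℝ) (y : Pt φ)
    (h : (χ =ᶠ[𝓝 (logv y F)] fun _ => 0) ∨ (χ =ᶠ[𝓝 (logv y F)] fun _ => 1)) :
    (χ (logv y F) = 0 ∨ χ (logv y F) = 1) ∧ ∀ᶠ z in 𝓝 y, χ (logv z F) = χ (logv y F) := by
  have hc : Filter.Tendsto (fun z : Pt φ => logv z F) (𝓝 y) (𝓝 (logv y F)) :=
    (Spli_cont F).tendsto y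
  rcases h with h | h
  · have h0 : χ (logv y F) = 0 := h.self_of_nhds
    refine ⟨Or.inl h0, ?_⟩
    rw [h0]
    exact hc.eventually h
  · have h0 : χ (logv y F) = 1 := h.self_of_nhds
    refine ⟨Or.inr h0, ?_⟩
    rw [h0]
    exact hc.eventually h

/-- **Spli**. Splitting a small bump into the points of the fibre. -/
theorem thm_Spli (h1 : St_FinF) (h2 : St_Shri) (h3 : St_DetZ) (h4 : St_IndG) : St_Spli := by
  have _ := h1
  intro K L _ _ _ n hn hFG R F g χ s S hS hCl X hX R' F' χ' hSel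
  have hP : ∀ y : Pt (algebraMap K L), Gauss y g → logv y g = s →
      ∀ᶠ z in 𝓝 y, χ (logv z F) = ∑ x ∈ X, χ' x (logv z (F' x)) := by
    intro y hy hys
    have hyS : logv y g ∈ S := by
      rw [hys]; exact mem_of_mem_nhds hS
    obtain ⟨hv, hloc⟩ := Spli_loc F χ y (hCl.2 y hy hyS)
    have hx : ∀ x ∈ X, (χ' x (logv y (F' x)) = 0 ∨ χ' x (logv y (F' x)) = 1) ∧
        ∀ᶠ z in 𝓝 y, χ' x (logv z (F' x)) = χ' x (logv y (F' x)) := by
      intro x hxX
      obtain ⟨⟨ρ, hρ, hcl⟩, -, -, -⟩ := hSel x hxX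
      refine Spli_loc (F' x) (χ' x) y (hcl.2 y hy ?_)
      rw [hys, ((hX x).1 hxX).2.1]
      exact Metric.mem_ball_self hρ
    have hall : ∀ᶠ z in 𝓝 y, ∀ x ∈ X, χ' x (logv z (F' x)) = χ' x (logv y (F' x)) := by
      rw [Filter.eventually_all_finset]
      exact fun x hxX => (hx x hxX).2
    have hzero : ∀ x ∈ X, x ≠ y → χ' x (logv y (F' x)) = 0 := by
      intro x hxX hxy
      by_contra hne
      obtain ⟨-, -, -, huniq⟩ := hSel x hxX
      refine hxy (huniq y hy ?_ hne).symm
      rw [hys, ((hX x).1 hxX).2.1]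
    have hsum : χ (logv y F) = ∑ x ∈ X, χ' x (logv y (F' x)) := by
      by_cases hyX : y ∈ X
      · rw [Finset.sum_eq_single_of_mem y hyX fun x hxX hxy => hzero x hxX hxy]
        obtain ⟨-, -, hone, -⟩ := hSel y hyX
        rw [hone]
        rcases hv with hv | hv
        · exact absurd hv ((hX y).1 hyX).2.2
        · exact hv
      · have h0 : χ (logv y F) = 0 := by
          by_contra hne
          exact hyX ((hX y).2 ⟨hy, hys, hne⟩)
        rw [h0]
        refine (Finset.sum_eq_zero fun x hxX => hzero x hxX ?_).symm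
        rintro rfl
        exact hyX hxX
    filter_upwards [hloc, hall] with z hz1 hz2
    rw [hz1, hsum]
    exact Finset.sum_congr rfl fun x hxX => (hz2 x hxX).symm
  obtain ⟨δ, hδ, hδP⟩ := h2 K L n hn g s
    (interior {z | χ (logv z F) = ∑ x ∈ X, χ' x (logv z (F' x))}) isOpen_interior
    (fun y hy hys => mem_interior_iff_mem_nhds.2 (hP y hy hys))
  refine ⟨δ, hδ, fun b hb => ?_⟩
  funext z δ₁ ε₁
  rw [Finset.sum_apply, Finset.sum_apply, Finset.sum_apply]
  simp only [tf]
  by_cases hI : Indep z g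
  · by_cases hz : logv z g ∈ Metric.ball s δ
    · have h6 : z ∈ {z | χ (logv z F) = ∑ x ∈ X, χ' x (logv z (F' x))} :=
        interior_subset (hδP z (h4 K L _ n z g hI) hz)
      have h5 : χ (logv z F) = ∑ x ∈ X, χ' x (logv z (F' x)) := h6
      rw [h5, Finset.sum_mul, Finset.sum_mul, Finset.sum_mul]
    · have h6 : b (logv z g) = 0 := image_eq_zero_of_notMem_tsupport fun h => hz (hb h)
      simp [h6]
  · have h7 := h3 K L _ n z g hI δ₁
    simp [h7]

end TDC
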