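import Pool.Agent.TDC.St
import Pool.Agent.TDC.St2
import Pool.Agent.TDC.St3
import Pool.Agent.TDC.DetZ

/-!
# TDC, module StA: one point of the fibre
-/

set_option autoImplicit false

namespace TDC

open scoped Topology
open MeasureTheory Polynomial

/-! ## real functions -/

/-- a smooth bump function of one variable with given integral, supported in an interval -/
private theorem StA_bump1 (a b c : ℝ) (hab : a < b) :
    ∃ θ : ℝ → ℝ, ContDiff ℝ (⊤ : ℕ∞) θ ∧ HasCompactSupport θ ∧ tsupport θ ⊆ Set.Ioo a b ∧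
      ∫ u, θ u = c := by
  have hr : 0 < (b - a) / 4 := by linarith
  let f : ContDiffBump ((a + b) / 2) := ⟨(b - a) / 8, (b - a) / 4, by linarith, by linarith⟩
  have hpos : 0 < ∫ u, f u ∂(volume : Measure ℝ) := f.integral_pos
  refine ⟨fun u => (c / ∫ u, f u ∂(volume : Measure ℝ)) * f u, contDiff_const.mul f.contDiff,
    f.hasCompactSupport.mul_left, ?_, ?_⟩
  · have h1 : tsupport (fun u => (c / ∫ u, f u ∂(volume : Measure ℝ)) * f u) ⊆ tsupport f :=
      closure_mono fun u hu => by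
        intro h0
        exact hu (by simp [h0])
    refine h1.trans ?_
    rw [f.tsupport_eq, Real.closedBall_eq_Icc]
    show Set.Icc ((a + b) / 2 - (b - a) / 4) ((a + b) / 2 + (b - a) / 4) ⊆ Set.Ioo a b
    intro u hu
    exact ⟨by linarith [hu.1], by linarith [hu.2]⟩
  · rw [integral_const_mul]
    field_simp

/-- products of functions of one variable -/
private theorem StA_prodSC {n : ℕ} (lo hi : Fin n → ℝ) (θ : Fin n → ℝ → ℝ)
    (h1 : ∀ i, ContDiff ℝ (⊤ : ℕ∞) (θ i)) (h2 : ∀ i, HasCompactSupport (θ i))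
    (h3 : ∀ i, tsupport (θ i) ⊆ Set.Ioo (lo i) (hi i)) :
    SC (fun u : Fin n → ℝ => ∏ i, θ i (u i)) (box lo hi) := by
  have hcl : IsCompact (Set.pi Set.univ fun i => tsupport (θ i)) :=
    isCompact_univ_pi fun i => h2 i
  have hsub : tsupport (fun u : Fin n → ℝ => ∏ i, θ i (u i)) ⊆
      Set.pi Set.univ fun i => tsupport (θ i) := by
    refine closure_minimal ?_ hcl.isClosed
    intro u hu i _
    refine subset_tsupport _ ?_
    intro h0
    exact hu (Finset.prod_eq_zero (Finset.mem_univ i) h0)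
  refine ⟨?_, hcl.of_isClosed_subset (isClosed_tsupport _) hsub, hsub.trans ?_⟩
  · exact contDiff_prod fun i _ => (h1 i).comp (contDiff_apply ℝ ℝ i)
  · intro u hu i hi
    exact h3 i (hu i hi)

/-! ## the tower -/

section basic

variable {K M : Type} [NormedField K] [Field M] {φ : K →+* M}

private theorem StA_contLog (f : Mˣ) : Continuous fun x : Pt φ => Real.log (x.v f) := by
  have h : Continuous fun x : Pt φ => x.v (f : M) :=
    (continuous_apply (f : M)).comp continuous_induced_dom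
  exact h.log fun x => (x.v.pos f.ne_zero).ne'

private theorem StA_contLogv {R : ℕ} (F : Fin R → Mˣ) : Continuous fun x : Pt φ => logv x F :=
  continuous_pi fun i => StA_contLog (F i)

end basic

section tower

variable {K L' L : Type} [NormedField K] [Field L'] [Field L] [Algebra K L'] [Algebra K L]
  [Algebra L' L] [IsScalarTower K L' L]

private theorem StA_indep {m : ℕ} (y : Pt (algebraMap K L)) (g' : Fin m → L'ˣ) (q : Lˣ)
    (h : Indep y (Fin.snoc (α := fun _ => Lˣ) (up L g') q)) : Indep (res L' y) g' := by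
  intro k hk
  obtain ⟨a, ha⟩ := hk
  have e : (∏ i : Fin (m + 1), (Fin.snoc (α := fun _ => Lˣ) (up L g') q : Fin (m + 1) → Lˣ) i ^
      (Fin.snoc (α := fun _ => ℤ) k 0 : Fin (m + 1) → ℤ) i) =
      Units.map (algebraMap L' L).toMonoidHom (∏ i, g' i ^ k i) := by
    rw [Fin.prod_univ_castSucc, map_prod]
    simp [up]
  have h1 := h (Fin.snoc (α := fun _ => ℤ) k 0) ⟨a, by rw [ha, e]; rfl⟩
  funext i
  have h2 := congrFun h1 i.castSucc
  simpa using h2

private theorem StA_logc {m : ℕ} (y : Pt (algebraMap K L)) (g' : Fin m → L'ˣ) (q : Lˣ)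
    (i : Fin m) :
    logv y (Fin.snoc (α := fun _ => Lˣ) (up L g') q) i.castSucc = logv (res L' y) g' i := by
  simp only [logv, Fin.snoc_castSucc]
  rfl

omit [Algebra K L'] [IsScalarTower K L' L] in
private theorem StA_logl {m : ℕ} (y : Pt (algebraMap K L)) (g' : Fin m → L'ˣ) (q : Lˣ) :
    logv y (Fin.snoc (α := fun _ => Lˣ) (up L g') q) (Fin.last m) = Real.log (y.v q) := by
  simp only [logv, Fin.snoc_last]

private theorem StA_tan (y : Pt (algebraMap K L)) (t q : Lˣ) (d : ℕ)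
    (h : y.v q = y.v t ^ d) (δ : Tan y) :
    δ.1 (Additive.ofMul q) = d * δ.1 (Additive.ofMul t) := by
  have ht : y.v t ≠ 0 := by
    rw [Ne, y.v.eq_zero]
    exact t.ne_zero
  have h1 := δ.2 (q * (t ^ d)⁻¹) ⟨1, by
    rw [norm_one, Units.val_mul, map_mul, h]
    have h2 : y.v (((t ^ d)⁻¹ : Lˣ) : L) = (y.v t ^ d)⁻¹ := by
      rw [Units.val_inv_eq_inv_val, map_inv₀, Units.val_pow_eq_pow_val, map_pow]
    rw [h2, mul_inv_cancel₀ (pow_ne_zero _ ht)]⟩
  rw [ofMul_mul, ofMul_inv, ofMul_pow, map_add, map_neg, map_nsmul, nsmul_eq_mul] at h1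
  linarith

omit [Algebra K L'] [IsScalarTower K L' L] in
private theorem StA_det {m : ℕ} (y : Pt (algebraMap K L)) (g' : Fin m → L'ˣ) (t q : Lˣ) (d : ℕ)
    (h : y.v q = y.v t ^ d) (δ : Fin (m + 1) → Tan y) :
    (Matrix.of fun i j => ev (Fin.snoc (α := fun _ => Lˣ) (up L g') q) (δ i) j).det =
      d * (Matrix.of fun i j => ev (Fin.snoc (α := fun _ => Lˣ) (up L g') t) (δ i) j).det := by
  have h1 : (Matrix.of fun i j => ev (Fin.snoc (α := fun _ => Lˣ) (up L g') q) (δ i) j) =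
      Matrix.of fun i j => (Fin.snoc (α := fun _ => ℝ) (fun _ : Fin m => (1 : ℝ)) (d : ℝ) :
        Fin (m + 1) → ℝ) j *
        (Matrix.of fun i j => ev (Fin.snoc (α := fun _ => Lˣ) (up L g') t) (δ i) j) i j := by
    ext i j
    simp only [Matrix.of_apply, ev]
    refine Fin.lastCases ?_ (fun j => ?_) j
    · simp only [Fin.snoc_last]
      exact StA_tan y t q d h (δ i)
    · simp only [Fin.snoc_castSucc, one_mul]
  rw [h1, Matrix.det_mul_row, Fin.prod_univ_castSucc]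
  simp

/-- comparison of the forms for `q` and `t` -/
private theorem StA_cmp {m R : ℕ} (g' : Fin m → L'ˣ) (F₀ : Fin R → L'ˣ) (χ' : (Fin R → ℝ) → ℝ)
    (t q : Lˣ) (d : ℕ) (b' : (Fin m → ℝ) → ℝ) (β : ℝ → ℝ)
    (h : ∀ y : Pt (algebraMap K L), Indep (res L' y) g' → b' (logv (res L' y) g') ≠ 0 →
      χ' (logv (res L' y) F₀) ≠ 0 →
      β (Real.log (y.v q)) ≠ 0 ∨ β (d * Real.log (y.v t)) ≠ 0 → y.v q = y.v t ^ d) :
    (tf (up L F₀) (Fin.snoc (α := fun _ => Lˣ) (up L g') q) χ'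
        (fun u => b' (fun i : Fin m => u i.castSucc) * β (u (Fin.last m))) :
          Fam (algebraMap K L) (m + 1) (m + 1)) =
      tf (up L F₀) (Fin.snoc (α := fun _ => Lˣ) (up L g') t) χ'
        (fun u => b' (fun i : Fin m => u i.castSucc) *
          ((d : ℝ) ^ 2 * β (d * u (Fin.last m)))) := by
  funext y δ ε
  have hF : logv y (up L F₀) = logv (res L' y) F₀ := rfl
  have hg : ∀ q : Lˣ, (fun i : Fin m => logv y (Fin.snoc (α := fun _ => Lˣ) (up L g') q)
      i.castSucc) = logv (res L' y) g' := fun q => funext fun i => StA_logc y g' q i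
  simp only [tf, hF, hg, StA_logl]
  by_cases hI : Indep (res L' y) g'
  · by_cases hb : b' (logv (res L' y) g') = 0
    · simp [hb]
    · by_cases hχ : χ' (logv (res L' y) F₀) = 0
      · simp [hχ]
      · by_cases hβ : β (Real.log (y.v q)) ≠ 0 ∨ β (d * Real.log (y.v t)) ≠ 0
        · have h1 := h y hI hb hχ hβ
          have h2 : Real.log (y.v q) = d * Real.log (y.v t) := by
            rw [h1, Real.log_pow]
          rw [StA_det y g' t q d h1 δ, StA_det y g' t q d h1 ε, h2]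
          ring
        · push Not at hβ
          simp [hβ.1, hβ.2]
  · have h1 : ¬ Indep y (Fin.snoc (α := fun _ => Lˣ) (up L g') q) := fun h => hI (StA_indep y g' q h)
    have h2 : ¬ Indep y (Fin.snoc (α := fun _ => Lˣ) (up L g') t) := fun h => hI (StA_indep y g' t h)
    rw [thm_DetZ K L _ _ y _ h1 δ, thm_DetZ K L _ _ y _ h2 δ]
    simp

end tower

theorem thm_StA (h1 : St_Mov) (h2 : St_LoPu) (h3 : St_CleU) (h4 : St_PhiT) (_h5 : St_IndG) :
    St_StA := by
  intro K L' L _ _ _ _ _ _ _ m t t' hrat htr V' hV' R x g' F₀ χ' Q q hI hS hK hd hq hx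
  have hd0 : (0 : ℝ) < Q.natDegree := by exact_mod_cast hd
  obtain ⟨ε, hε, hεV⟩ := Metric.isOpen_iff.1 hV' _ hx
  obtain ⟨N, hN⟩ : ∃ N : Set (Pt (algebraMap K L')),
      N = {z | logv z t' ∈ Metric.ball (logv (res L' x) t') ε} := ⟨_, rfl⟩
  have hNo : IsOpen N := by
    rw [hN]
    exact Metric.isOpen_ball.preimage (StA_contLogv t')
  have hNx : res L' x ∈ N := by
    rw [hN]
    exact Metric.mem_ball_self hε
  obtain ⟨ρ, lo, hi, lo₂, hi₂, hρ, hlo, hhi, hl2, hlh, hh2, hcl, hc, hdd, he, hf1, hf2⟩ :=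
    h2 K L' L t hrat m R htr x g' F₀ χ' Q q hI hS hK hd hq N hNo hNx ε hε
  -- membership criterion
  have hmem : ∀ (v : Fin m → ℝ) (τ : ℝ), v ∈ Metric.ball (logv (res L' x) t') ε →
      |τ - Real.log (x.v t)| < ε → (Fin.snoc (α := fun _ => ℝ) v τ : Fin (m + 1) → ℝ) ∈ V' := by
    intro v τ hv hτ
    refine hεV ?_
    rw [Metric.mem_ball, dist_pi_lt_iff hε]
    intro j
    refine Fin.lastCases ?_ (fun i => ?_) j
    · rw [Fin.snoc_last, StA_logl, Real.dist_eq]
      exact hτ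
    · rw [Fin.snoc_castSucc, StA_logc]
      exact (dist_pi_lt_iff hε).1 hv i
  -- boxes
  obtain ⟨lo', hlo'⟩ : ∃ lo' : Fin m → ℝ, lo' = fun i => logv (res L' x) g' i - ρ := ⟨_, rfl⟩
  obtain ⟨hi', hhi'⟩ : ∃ hi' : Fin m → ℝ, hi' = fun i => logv (res L' x) g' i + ρ := ⟨_, rfl⟩
  have hbox : box lo' hi' = Metric.ball (logv (res L' x) g') ρ := by
    rw [ball_pi _ hρ]
    simp only [box, hlo', hhi', Real.ball_eq_Ioo]
  obtain ⟨lo1, hlo1⟩ : ∃ lo1 : Fin (m + 1) → ℝ, lo1 = Fin.snoc (α := fun _ => ℝ) lo' lo := ⟨_, rfl⟩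
  obtain ⟨hi1, hhi1⟩ : ∃ hi1 : Fin (m + 1) → ℝ, hi1 = Fin.snoc (α := fun _ => ℝ) hi' hi := ⟨_, rfl⟩
  have hbox1 : ∀ u : Fin (m + 1) → ℝ, u ∈ box lo1 hi1 ↔
      (fun i : Fin m => u i.castSucc) ∈ box lo' hi' ∧ lo < u (Fin.last m) ∧
        u (Fin.last m) < hi := by
    intro u
    constructor
    · intro hu
      refine ⟨fun i _ => ?_, ?_⟩
      · have := hu i.castSucc (Set.mem_univ _)
        simpa [hlo1, hhi1] using this
      · have := hu (Fin.last m) (Set.mem_univ _)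
        simpa [hlo1, hhi1] using this
    · rintro ⟨hu1, hu2⟩ j _
      refine Fin.lastCases ?_ (fun i => ?_) j
      · simpa [hlo1, hhi1] using hu2
      · have := hu1 i (Set.mem_univ _)
        simpa [hlo1, hhi1] using this
  have hlogc : ∀ (y : Pt (algebraMap K L)) (s : Lˣ), (fun i : Fin m =>
      logv y (Fin.snoc (α := fun _ => Lˣ) (up L g') s) i.castSucc) = logv (res L' y) g' :=
    fun y s => funext fun i => StA_logc y g' s i
  have hbo : IsOpen (box lo1 hi1) := isOpen_set_pi Set.finite_univ fun i _ => isOpen_Ioo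
  refine ⟨box lo1 hi1, hbo.mem_nhds ?_, ?_⟩
  · rw [hbox1, hlogc, StA_logl, hbox]
    exact ⟨Metric.mem_ball_self hρ, hlo, hhi⟩
  intro b hb
  -- the bumps
  have hθ : ∀ i : Fin m, ∃ θ : ℝ → ℝ, ContDiff ℝ (⊤ : ℕ∞) θ ∧ HasCompactSupport θ ∧
      tsupport θ ⊆ Set.Ioo (lo' i) (hi' i) ∧ ∫ u, θ u = 1 := fun i =>
    StA_bump1 _ _ _ (by rw [hlo', hhi']; show _ - ρ < _ + ρ; linarith)
  choose θ hθ1 hθ2 hθ3 hθ4 using hθ
  obtain ⟨β, hβ1, hβ2, hβ3, hβ4⟩ := StA_bump1 lo₂ hi₂ (∫ u, b u) hlh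
  obtain ⟨b', hb'⟩ : ∃ b' : (Fin m → ℝ) → ℝ, b' = fun u => ∏ i, θ i (u i) := ⟨_, rfl⟩
  have hb'SC : SC b' (box lo' hi') := by
    rw [hb']
    exact StA_prodSC lo' hi' θ hθ1 hθ2 hθ3
  obtain ⟨b₂, hb₂⟩ : ∃ b₂ : (Fin (m + 1) → ℝ) → ℝ,
      b₂ = fun u => b' (fun i : Fin m => u i.castSucc) * β (u (Fin.last m)) := ⟨_, rfl⟩
  have hb₂' : b₂ = fun u => ∏ j, (Fin.snoc (α := fun _ => ℝ → ℝ) θ β : Fin (m + 1) → ℝ → ℝ) j
      (u j) := by
    rw [hb₂, hb']
    funext u
    rw [Fin.prod_univ_castSucc]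
    simp
  have hb₂SC : SC b₂ (box lo1 hi1) := by
    rw [hb₂']
    refine StA_prodSC lo1 hi1 _ ?_ ?_ ?_
    · intro j
      refine Fin.lastCases ?_ (fun i => ?_) j
      · rw [Fin.snoc_last]; exact hβ1
      · rw [Fin.snoc_castSucc]; exact hθ1 i
    · intro j
      refine Fin.lastCases ?_ (fun i => ?_) j
      · rw [Fin.snoc_last]; exact hβ2
      · rw [Fin.snoc_castSucc]; exact hθ2 i
    · intro j
      refine Fin.lastCases ?_ (fun i => ?_) j
      · rw [Fin.snoc_last, hlo1, hhi1, Fin.snoc_last, Fin.snoc_last]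
        exact hβ3.trans (Set.Ioo_subset_Ioo hl2 hh2)
      · rw [Fin.snoc_castSucc, hlo1, hhi1, Fin.snoc_castSucc, Fin.snoc_castSucc]
        exact hθ3 i
  have hint : ∫ u, b u = ∫ u, b₂ u := by
    rw [hb₂', integral_fintype_prod_volume_eq_prod, Fin.prod_univ_castSucc]
    simp only [Fin.snoc_castSucc, Fin.snoc_last, hθ4, hβ4, Finset.prod_const_one, one_mul]
  -- cleanness over the box
  have hclean : Clean (algebraMap K L) (up L F₀) (Fin.snoc (α := fun _ => Lˣ) (up L g') q) χ'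
      (box lo1 hi1) := by
    have h6 := h3 K L' L m R F₀ g' χ' _ q hcl
    refine ⟨h6.1, fun y hy1 hy2 => h6.2 y hy1 ?_⟩
    have h7 := ((hbox1 _).1 hy2).1
    rw [hbox] at h7
    exact h7
  -- support condition
  have hO : ∀ y : Pt (algebraMap K L),
      y ∉ {x : Pt (algebraMap K L) | logv x (Fin.snoc (α := fun _ => Lˣ) (up L t') t) ∈ V'} →
      Indep y (Fin.snoc (α := fun _ => Lˣ) (up L g') q) →
      logv y (Fin.snoc (α := fun _ => Lˣ) (up L g') q) ∈ box lo1 hi1 →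
      χ' (logv y (up L F₀)) = 0 := by
    intro y hy1 hy2 hy3
    by_contra hne
    rw [hbox1, hlogc, StA_logl, hbox] at hy3
    have hy4 := hc (res L' y) (StA_indep y g' q hy2) hy3.1 hne
    have hy5 := hdd y hy2 hy3.1 hy3.2.1 hy3.2.2 hne
    rw [hN] at hy4
    refine hy1 ?_
    have h8 : logv y (Fin.snoc (α := fun _ => Lˣ) (up L t') t) =
        Fin.snoc (α := fun _ => ℝ) (logv (res L' y) t') (Real.log (y.v t)) := by
      funext j
      refine Fin.lastCases ?_ (fun i => ?_) j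
      · rw [StA_logl, Fin.snoc_last]
      · rw [StA_logc, Fin.snoc_castSucc]
    rw [Set.mem_ofPred_eq, h8]
    exact hmem _ _ hy4 hy5
  have hmov := h1 K L (algebraMap K L) (m + 1) R (up L F₀)
    (Fin.snoc (α := fun _ => Lˣ) (up L g') q) χ' lo1 hi1 b b₂ _ hclean hb hb₂SC hint hO
  -- the new cut-off
  have hγ1 : ContDiff ℝ (⊤ : ℕ∞) fun τ : ℝ => (Q.natDegree : ℝ) ^ 2 * β (Q.natDegree * τ) :=
    contDiff_const.mul (hβ1.comp (contDiff_const.mul contDiff_id))
  have hγs : tsupport (fun τ : ℝ => (Q.natDegree : ℝ) ^ 2 * β (Q.natDegree * τ)) ⊆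
      (fun τ : ℝ => (Q.natDegree : ℝ) * τ) ⁻¹' tsupport β := by
    refine closure_minimal ?_ ((isClosed_tsupport β).preimage (continuous_const.mul continuous_id))
    intro τ hτ
    refine subset_tsupport β ?_
    intro h0
    refine hτ ?_
    show (Q.natDegree : ℝ) ^ 2 * β (Q.natDegree * τ) = 0
    rw [h0, mul_zero]
  have hγ2 : HasCompactSupport fun τ : ℝ => (Q.natDegree : ℝ) ^ 2 * β (Q.natDegree * τ) := by
    have h9 : IsCompact ((fun τ : ℝ => (Q.natDegree : ℝ) * τ) ⁻¹' tsupport β) := by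
      have := (Homeomorph.mulLeft₀ (Q.natDegree : ℝ) hd0.ne').isClosedEmbedding.isCompact_preimage
        (K := tsupport β) hβ2
      exact this
    exact h9.of_isClosed_subset (isClosed_tsupport _) hγs
  refine ⟨(⟨R, F₀, g', χ', lo', hi', b'⟩, Metric.ball (logv (res L' x) t') ε,
    fun τ : ℝ => (Q.natDegree : ℝ) ^ 2 * β (Q.natDegree * τ)),
    ⟨Metric.isOpen_ball, ⟨?_, hb'SC, ?_⟩, hγ1, hγ2, ?_⟩, ?_⟩
  · show Clean (algebraMap K L') F₀ g' χ' (box lo' hi')
    rw [hbox]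
    exact hcl
  · intro z hz1 hz2 hz3
    by_contra hne
    have hz4 : logv z g' ∈ box lo' hi' := hz3
    rw [hbox] at hz4
    have hz5 := hc z hz2 hz4 hne
    rw [hN] at hz5
    exact hz1 hz5
  · intro v hv τ hτ
    have h10 := hβ3 (hγs hτ)
    have h11 : lo₂ < (Q.natDegree : ℝ) * τ := h10.1
    have h12 : (Q.natDegree : ℝ) * τ < hi₂ := h10.2
    refine hmem v τ hv ?_
    rw [abs_lt]
    constructor
    · have h13 : (Q.natDegree : ℝ) * (Real.log (x.v t) - ε) < Q.natDegree * τ := by linarith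
      have h14 := lt_of_mul_lt_mul_left h13 hd0.le
      linarith
    · have h13 : (Q.natDegree : ℝ) * τ < Q.natDegree * (Real.log (x.v t) + ε) := by linarith
      have h14 := lt_of_mul_lt_mul_left h13 hd0.le
      linarith
  · have hphi := (h4 K L' L t m (fun τ : ℝ => (Q.natDegree : ℝ) ^ 2 * β (Q.natDegree * τ))
      hγ1 hγ2).1 R F₀ g' χ' b'
    show (tf (up L F₀) (Fin.snoc (α := fun _ => Lˣ) (up L g') q) χ' b -
      Phi t (fun τ : ℝ => (Q.natDegree : ℝ) ^ 2 * β (Q.natDegree * τ))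
        (tf F₀ g' χ' b' : Fam (algebraMap K L') m m) : Fam (algebraMap K L) (m + 1) (m + 1)) ∈ _
    rw [hphi, ← StA_cmp g' F₀ χ' t q Q.natDegree b' β, ← hb₂]
    · exact hmov
    · intro y hy1 hy2 hy3 hy4
      have hy5 : logv (res L' y) g' ∈ Metric.ball (logv (res L' x) g') ρ := by
        rw [← hbox]
        exact hb'SC.2.2 (subset_tsupport _ hy2)
      refine he y hy1 hy5 hy3 ?_
      rcases hy4 with hy4 | hy4
      · exact Or.inl (hβ3 (subset_tsupport _ hy4))
      · exact Or.inr (hβ3 (subset_tsupport _ hy4))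

end TDC
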