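import Pool.Agent.TDC.St
import Pool.Agent.TDC.St3

/-! TDC, module StB (helper82): reduction of tube data to small bumps at finitely many points. -/

set_option autoImplicit false

namespace TDC

open scoped Topology
open MeasureTheory

private theorem StB_box {n : ℕ} (lo hi : Fin n → ℝ) : IsOpen (box lo hi) :=
  isOpen_set_pi Set.finite_univ fun _ _ => isOpen_Ioo

/-- a smooth bump with prescribed integral, supported in a given neighbourhood -/
private theorem StB_bump {n : ℕ} (s : Fin n → ℝ) (W : Set (Fin n → ℝ)) (hW : W ∈ 𝓝 s) (c : ℝ) :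
    ∃ b : (Fin n → ℝ) → ℝ, SC b W ∧ ∫ u, b u = c := by
  obtain ⟨f, hf1, hf2, hf3, hf4, hf5⟩ :=
    exists_contDiff_tsupport_subset (E := Fin n → ℝ) (n := ⊤) hW
  have hpos : 0 < ∫ u, f u := by
    refine hf3.continuous.integral_pos_of_hasCompactSupport_nonneg_nonzero hf2 ?_ (x := s) ?_
    · intro u
      exact (hf4 ⟨u, rfl⟩).1
    · rw [hf5]; exact one_ne_zero
  refine ⟨fun u => (c / ∫ u, f u) * f u, ⟨?_, ?_, ?_⟩, ?_⟩
  · exact contDiff_const.mul hf3
  · exact hf2.mul_left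
  · exact (tsupport_mul_subset_right (f := fun _ => c / ∫ u, f u)).trans hf1
  · rw [integral_const_mul]
    exact div_mul_cancel₀ _ hpos.ne'

private theorem StB_inv {n : ℕ} (M : Matrix (Fin n) (Fin n) ℝ) (hM : M.det ≠ 0)
    (s r u : Fin n → ℝ) :
    r + (M⁻¹).mulVec ((s + M.mulVec (u - r)) - s) = u := by
  rw [add_sub_cancel_left, Matrix.mulVec_mulVec, Matrix.nonsing_inv_mul M (isUnit_iff_ne_zero.2 hM),
    Matrix.one_mulVec, add_sub_cancel]

private theorem StB_contMul {n : ℕ} (M : Matrix (Fin n) (Fin n) ℝ) :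
    ContDiff ℝ (⊤ : ℕ∞) (fun u : Fin n → ℝ => M.mulVec u) :=
  (LinearMap.toContinuousLinearMap M.mulVecLin).contDiff

/-- transport of a bump by an invertible affine map -/
private theorem StB_sc {n : ℕ} (M : Matrix (Fin n) (Fin n) ℝ) (hM : M.det ≠ 0)
    (s r : Fin n → ℝ) (W : Set (Fin n → ℝ)) (b : (Fin n → ℝ) → ℝ)
    (hb : SC b ((fun v => r + (M⁻¹).mulVec (v - s)) ⁻¹' W)) :
    SC (fun u => M.det ^ 2 * b (s + M.mulVec (u - r))) W := by
  have hΦ : ContDiff ℝ (⊤ : ℕ∞) (fun u : Fin n → ℝ => s + M.mulVec (u - r)) :=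
    contDiff_const.add ((StB_contMul M).comp (contDiff_id.sub contDiff_const))
  have hΨ : Continuous (fun v : Fin n → ℝ => r + (M⁻¹).mulVec (v - s)) :=
    continuous_const.add ((StB_contMul M⁻¹).continuous.comp (continuous_id.sub continuous_const))
  have hsub : tsupport (fun u => M.det ^ 2 * b (s + M.mulVec (u - r))) ⊆
      (fun v => r + (M⁻¹).mulVec (v - s)) '' tsupport b := by
    intro u hu
    have h1 := tsupport_mul_subset_right (f := fun _ => M.det ^ 2)
      (g := fun u => b (s + M.mulVec (u - r))) hu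
    have h2 : s + M.mulVec (u - r) ∈ tsupport b := tsupport_comp_subset_preimage b hΦ.continuous h1
    exact ⟨_, h2, StB_inv M hM s r u⟩
  refine ⟨contDiff_const.mul (hb.1.comp hΦ), ?_, ?_⟩
  · exact IsCompact.of_isClosed_subset (hb.2.1.isCompact.image hΨ) (isClosed_tsupport _) hsub
  · intro u hu
    obtain ⟨v, hv, rfl⟩ := hsub hu
    exact hb.2.2 hv

theorem thm_StB (h1 : St_Mov) (h2 : St_Spli) (h3 : St_Chan) (h4 : St_SelE) (h5 : St_FinF)
    (h6 : St_GenI) : St_StB := by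
  classical
  intro K L _ _ _ n hc hT hFG O D hD Rf Ff hf χf Sf H
  obtain ⟨hcl, hsc, hO⟩ := hD
  by_cases hne : (box D.lo D.hi).Nonempty
  swap
  · rw [Set.not_nonempty_iff_eq_empty] at hne
    refine ⟨∅, fun _ _ => 0, fun x hx => absurd hx (Finset.notMem_empty x), ?_⟩
    have hb0 : D.b = fun _ => 0 := by
      have := hsc.2.2
      rw [hne, Set.subset_empty_iff, tsupport_eq_empty_iff] at this
      exact this
    have : D.form (algebraMap K L) = 0 := by
      unfold TD.form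
      rw [hb0]
      funext x δ ε
      simp [tf]
    rw [this, Finset.sum_empty, sub_zero]
    exact Submodule.zero_mem _
  obtain ⟨s, hs, hgen⟩ := h6.1 K n hc _ (StB_box D.lo D.hi) hne
  have hfin := h5 K L n hT hFG D.g s
  have hfin2 : {x : Pt (algebraMap K L) | Gauss x D.g ∧ logv x D.g = s ∧
      D.χ (logv x D.F) ≠ 0}.Finite := hfin.subset fun x hx => ⟨hx.1, hx.2.1⟩
  obtain ⟨X, hX⟩ : ∃ X : Finset (Pt (algebraMap K L)), ∀ x, x ∈ X ↔
      Gauss x D.g ∧ logv x D.g = s ∧ D.χ (logv x D.F) ≠ 0 :=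
    ⟨hfin2.toFinset, fun x => by rw [Set.Finite.mem_toFinset]; rfl⟩
  have hInd : ∀ x ∈ X, Indep x D.g := by
    intro x hx
    apply h6.2 K L (algebraMap K L) n x D.g
    rw [((hX x).1 hx).2.1]
    exact hgen
  have hXO : ∀ x ∈ X, x ∈ O := by
    intro x hx
    by_contra hxO
    have hx' := (hX x).1 hx
    refine hx'.2.2 (hO x hxO (hInd x hx) ?_)
    rw [hx'.2.1]
    exact hs
  have hsel : ∀ x : Pt (algebraMap K L), ∃ (R : ℕ) (F : Fin R → Lˣ) (χ : (Fin R → ℝ) → ℝ),
      x ∈ X → Sel x F D.g χ := by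
    intro x
    by_cases hx : x ∈ X
    · obtain ⟨R, F, χ, h⟩ := h4 K L n hT hFG x D.g ((hX x).1 hx).1
      exact ⟨R, F, χ, fun _ => h⟩
    · exact ⟨0, fun k => k.elim0, fun _ => 0, fun h => absurd h hx⟩
  choose R' F' χ' hsel using hsel
  have hchan : ∀ x : Pt (algebraMap K L), ∃ (M : Matrix (Fin n) (Fin n) ℝ) (δ : ℝ), x ∈ X →
      (M.det ≠ 0 ∧ 0 < δ ∧ ∀ b : (Fin n → ℝ) → ℝ, tsupport b ⊆ Metric.ball (logv x D.g) δ →
        (tf (F' x) D.g (χ' x) b : Fam (algebraMap K L) n n) =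
          tf (Ff x) (hf x) (χf x)
            (fun u => M.det ^ 2 * b (logv x D.g + M.mulVec (u - logv x (hf x))))) := by
    intro x
    by_cases hx : x ∈ X
    · obtain ⟨H1, H2, _⟩ := H x (hInd x hx) (hXO x hx)
      obtain ⟨M, δ, h⟩ := h3 K L n hT x D.g (hf x) (hInd x hx) H1 (R' x) (Rf x) (F' x) (Ff x)
        (χ' x) (χf x) (hsel x hx) H2
      exact ⟨M, δ, fun _ => h⟩
    · exact ⟨0, 0, fun h => absurd h hx⟩
  choose M δ hchan using hchan
  obtain ⟨δ₀, hδ₀, hspli⟩ := h2 K L n hT hFG D.R D.F D.g D.χ s (box D.lo D.hi)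
    ((StB_box D.lo D.hi).mem_nhds hs) hcl X hX R' F' χ' hsel
  let W : Set (Fin n → ℝ) := (box D.lo D.hi ∩ Metric.ball s δ₀) ∩ ⋂ x ∈ X,
    (Metric.ball s (δ x) ∩
      (fun v => logv x (hf x) + ((M x)⁻¹).mulVec (v - s)) ⁻¹' Sf x)
  have hW : W ∈ 𝓝 s := by
    refine Filter.inter_mem (Filter.inter_mem ((StB_box D.lo D.hi).mem_nhds hs)
      (Metric.ball_mem_nhds s hδ₀)) ((Filter.biInter_finset_mem X).2 fun x hx => ?_)
    refine Filter.inter_mem (Metric.ball_mem_nhds s (hchan x hx).2.1) ?_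
    have hcont : Continuous (fun v : Fin n → ℝ =>
        logv x (hf x) + ((M x)⁻¹).mulVec (v - s)) :=
      continuous_const.add
        ((StB_contMul (M x)⁻¹).continuous.comp (continuous_id.sub continuous_const))
    apply hcont.continuousAt.preimage_mem_nhds
    rw [sub_self, Matrix.mulVec_zero, add_zero]
    exact (H x (hInd x hx) (hXO x hx)).2.2
  obtain ⟨b, hb, hbint⟩ := StB_bump s W hW (∫ u, D.b u)
  have hbbox : SC b (box D.lo D.hi) := ⟨hb.1, hb.2.1, fun u hu => (hb.2.2 hu).1.1⟩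
  have hbx : ∀ x ∈ X, ∀ u ∈ tsupport b, u ∈ Metric.ball s (δ x) ∧
      u ∈ (fun v => logv x (hf x) + ((M x)⁻¹).mulVec (v - s)) ⁻¹' Sf x := by
    intro x hx u hu
    have := (hb.2.2 hu).2
    rw [Set.mem_iInter₂] at this
    exact this x hx
  refine ⟨X, fun x u => (M x).det ^ 2 * b (s + (M x).mulVec (u - logv x (hf x))), ?_, ?_⟩
  · intro x hx
    refine ⟨hInd x hx, hXO x hx, ?_⟩
    exact StB_sc (M x) (hchan x hx).1 s (logv x (hf x)) (Sf x) b
      ⟨hb.1, hb.2.1, fun u hu => (hbx x hx u hu).2⟩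
  · have e1 : (tf D.F D.g D.χ b : Fam (algebraMap K L) n n) =
        ∑ x ∈ X, tf (Ff x) (hf x) (χf x)
          (fun u => (M x).det ^ 2 * b (s + (M x).mulVec (u - logv x (hf x)))) := by
      rw [hspli b fun u hu => (hb.2.2 hu).1.2]
      refine Finset.sum_congr rfl fun x hx => ?_
      have hsx : logv x D.g = s := ((hX x).1 hx).2.1
      rw [(hchan x hx).2.2 b (by
        rw [hsx]
        exact fun u hu => (hbx x hx u hu).1), hsx]
    rw [← e1]
    exact h1 K L (algebraMap K L) n D.R D.F D.g D.χ D.lo D.hi D.b b O hcl hsc hbbox hbint.symm hO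

end TDC
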