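import Pool.Agent.TDC.StT

/-!
# TDC, Phase 2, module StJ: Stokes for one index `J` in the reference coordinates
-/

namespace TDC

open scoped Topology
open MeasureTheory

private theorem StJ_ext {R m : ℕ} (ω : (Fin R → ℝ) [⋀^Fin (m + 1)]→L[ℝ] ℝ)
    (A : Matrix (Fin R) (Fin (m + 1)) ℝ) (b : Matrix (Fin (m + 1)) (Fin (m + 1)) ℝ) :
    ω (fun j => (A * b).mulVec (Pi.single j 1)) =
      b.det * ω (fun j => A.mulVec (Pi.single j 1)) := by
  have h := AlternatingMap.eq_smul_basis_det (Pi.basisFun ℝ (Fin (m + 1)))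
    (ω.toAlternatingMap.compLinearMap A.mulVecLin)
  have h1 := DFunLike.congr_fun h (fun j => b.mulVec (Pi.single j 1))
  rw [AlternatingMap.smul_apply] at h1
  have h2 : ω (fun j => (A * b).mulVec (Pi.single j 1)) =
      (ω.toAlternatingMap.compLinearMap A.mulVecLin) fun j => b.mulVec (Pi.single j 1) := by
    show ω _ = ω _
    congr 1
    funext j
    show (A * b).mulVec (Pi.single j 1) = A.mulVec (b.mulVec (Pi.single j 1))
    rw [Matrix.mulVec_mulVec]
  have h3 : (ω.toAlternatingMap.compLinearMap A.mulVecLin) (Pi.basisFun ℝ (Fin (m + 1))) =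
      ω (fun j => A.mulVec (Pi.single j 1)) := by
    show ω _ = ω _
    congr 1
    funext j
    show A.mulVec (Pi.basisFun ℝ (Fin (m + 1)) j) = _
    rw [Pi.basisFun_apply]
  have h4 : (Pi.basisFun ℝ (Fin (m + 1))).det (fun j => b.mulVec (Pi.single j 1)) = b.det := by
    rw [Pi.basisFun_det_apply, ← Matrix.det_transpose]
    congr 1
    ext i j
    rw [Matrix.transpose_apply]
    show b.mulVec (Pi.single j 1) i = b i j
    rw [Matrix.mulVec_single_one]
    rfl
  rw [h2, h1, h3, h4, smul_eq_mul, mul_comm]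

private theorem StJ_cov {n : ℕ} (a : Matrix (Fin n) (Fin n) ℝ) (ha : a.det ≠ 0)
    (w : Fin n → ℝ) (g : (Fin n → ℝ) → ℝ) :
    (Integrable g → Integrable fun u => g (a.mulVec u + w)) ∧
      |a.det| * ∫ u, g (a.mulVec u + w) = ∫ s, g s := by
  have hinj : Function.Injective (Matrix.toLin' a) := by
    rw [Matrix.toLin'_apply']
    exact Matrix.mulVec_injective_iff_isUnit.2 ((Matrix.isUnit_iff_isUnit_det a).2
      (isUnit_iff_ne_zero.2 ha))
  have hcont : Continuous (Matrix.toLin' a) := LinearMap.continuous_of_finiteDimensional _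
  have hemb : MeasurableEmbedding (Matrix.toLin' a) := hcont.measurableEmbedding hinj
  have hmap := Real.map_matrix_volume_pi_eq_smul_volume_pi ha
  constructor
  · intro hg
    have h1 : Integrable (fun s => g (s + w)) := hg.comp_add_right w
    have h2 : Integrable (fun s => g (s + w)) (Measure.map (Matrix.toLin' a) volume) := by
      rw [hmap]
      exact h1.smul_measure ENNReal.ofReal_ne_top
    exact hemb.integrable_map_iff.1 h2
  · have h1 : ∫ u, g (a.mulVec u + w) = ∫ s, g (s + w) ∂(Measure.map (Matrix.toLin' a) volume) :=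
      (hemb.integral_map fun s => g (s + w)).symm
    rw [h1, hmap, integral_smul_measure, ENNReal.toReal_ofReal (abs_nonneg _),
      integral_add_right_eq_self g w, smul_eq_mul, ← mul_assoc, abs_inv,
      mul_inv_cancel₀ (abs_ne_zero.2 ha), one_mul]

private theorem StJ_af {R n : ℕ} (J : Fin n → Fin R)
    (k : Matrix (Fin R) (Fin n) ℝ × (Fin R → ℝ)) (hk : (k.1.submatrix J id).det ≠ 0)
    (s : Fin n → ℝ) : af (rp J k) s ∘ J = s := by
  have h1 : ∀ u : Fin n → ℝ, (k.1 * (k.1.submatrix J id)⁻¹).mulVec u ∘ J = u := by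
    intro u
    have h2 : (k.1 * (k.1.submatrix J id)⁻¹).mulVec u ∘ J =
        ((k.1.submatrix J id) * (k.1.submatrix J id)⁻¹).mulVec u := by
      funext i
      rfl
    rw [h2, Matrix.mul_nonsing_inv _ (isUnit_iff_ne_zero.2 hk), Matrix.one_mulVec]
  have h3 := h1 s
  have h4 := h1 (k.2 ∘ J)
  funext i
  have h3i := congrFun h3 i
  have h4i := congrFun h4 i
  simp only [Function.comp_apply] at h3i h4i
  show ((k.2 - (k.1 * (k.1.submatrix J id)⁻¹).mulVec (k.2 ∘ J)) (J i) +
    ((k.1 * (k.1.submatrix J id)⁻¹).mulVec s) (J i)) = s i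
  rw [Pi.sub_apply, h3i, h4i]
  ring

private theorem StJ_af2 {R n : ℕ} (J : Fin n → Fin R)
    (k : Matrix (Fin R) (Fin n) ℝ × (Fin R → ℝ)) (hk : (k.1.submatrix J id).det ≠ 0)
    (u : Fin n → ℝ) : af (rp J k) ((k.1.submatrix J id).mulVec u + k.2 ∘ J) = af k u := by
  unfold af rp
  simp only
  rw [Matrix.mulVec_add, Matrix.mulVec_mulVec, Matrix.mul_assoc,
    Matrix.nonsing_inv_mul _ (isUnit_iff_ne_zero.2 hk), Matrix.mul_one]
  abel

private theorem StJ_zero {R m : ℕ} (J : Fin (m + 1) → Fin R)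
    (β : (Fin R → ℝ) → (Fin R → ℝ) [⋀^Fin m]→L[ℝ] ℝ) (C : Set (Fin (m + 1) → ℝ))
    (hC : IsCompact C) (hβ : ∀ p : Fin R → ℝ, p ∘ J ∉ C → β p = 0) (p : Fin R → ℝ)
    (hp : p ∘ J ∉ C) : extDeriv β p = 0 := by
  have hcont : Continuous fun q : Fin R → ℝ => q ∘ J :=
    continuous_pi fun i => continuous_apply (J i)
  have h1 : β =ᶠ[𝓝 p] fun _ => 0 := by
    have h2 : {q : Fin R → ℝ | q ∘ J ∉ C} ∈ 𝓝 p :=
      (hC.isClosed.isOpen_compl.preimage hcont).mem_nhds hp
    exact Filter.mem_of_superset h2 fun q hq => hβ q hq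
  rw [h1.extDeriv_eq]
  have h3 : fderiv ℝ (fun _ : Fin R → ℝ => (0 : (Fin R → ℝ) [⋀^Fin m]→L[ℝ] ℝ)) p = 0 :=
    fderiv_const_apply _
  show ContinuousAlternatingMap.alternatizeUncurryFinCLM ℝ (Fin R → ℝ) ℝ _ = 0
  rw [h3, map_zero]

theorem thm_StJ : St_Loc → St_Wal → St_Aeq → St_BaJ → St_StJ := by
  intro hLoc hWal hAeq hBaJ K L _ _ _ _ m R hTr hFG hcnt F I J 𝒦 hS hJ β C hβs hC hβ
  classical
  obtain ⟨𝒢, hBal, hgen, hinj, -⟩ := hBaJ K L (m + 1) R (Nat.succ_pos m) hTr hFG hcnt F I J 𝒦 hS hJ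
  obtain ⟨c', -, hc', B, hB⟩ := hLoc R (m + 1) _ 𝒢 _ hBal
  have hW := hWal R m _ 𝒢 _ β C hBal hβs hC (by
    intro k' hk' s hs
    obtain ⟨k, hk, rfl⟩ := Finset.mem_image.1 hk'
    refine hβ _ ?_
    rw [StJ_af J k (Finset.mem_filter.1 hk).2]
    exact hs)
  -- 𝒢 is nonempty
  have hne : 𝒢.Nonempty := by
    by_contra h
    rw [Set.not_nonempty_iff_eq_empty] at h
    have h1 := hBal.1
    rw [h, Set.compl_empty] at h1
    exact NeZero.ne (volume : Measure (Fin (m + 1) → ℝ)) (Measure.measure_univ_eq_zero.1 h1)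
  obtain ⟨s₀, hs₀⟩ := hne
  have hrp : Set.InjOn (rp J) ((𝒦.filter fun k => (k.1.submatrix J id).det ≠ 0 :
      Finset (Matrix (Fin R) (Fin (m + 1)) ℝ × (Fin R → ℝ))) : Set _) := by
    intro k hk l hl hkl
    have hk' := Finset.mem_filter.1 (Finset.mem_coe.1 hk)
    have hl' := Finset.mem_filter.1 (Finset.mem_coe.1 hl)
    exact hinj s₀ hs₀ k hk'.1 l hl'.1 hk'.2 hl'.2 (by rw [hkl])
  -- continuity of the exterior derivative
  have hext : Continuous fun p => extDeriv β p :=
    (ContinuousAlternatingMap.alternatizeUncurryFinCLM ℝ (Fin R → ℝ) ℝ).continuous.comp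
      (hβs.continuous_fderiv (by simp))
  -- the integrand in the coordinates `F ∘ J`
  have hg : ∀ k ∈ 𝒦, (k.1.submatrix J id).det ≠ 0 →
      Integrable fun s => cw K (F ∘ J) F s (af (rp J k) s) *
        extDeriv β (af (rp J k) s) (fun j => (rp J k).1.mulVec (Pi.single j 1)) := by
    intro k hk hdet
    have hmem : rp J k ∈ (𝒦.filter fun k => (k.1.submatrix J id).det ≠ 0).image (rp J) :=
      Finset.mem_image_of_mem _ (Finset.mem_filter.2 ⟨hk, hdet⟩)
    obtain ⟨hm, hae⟩ := hc' _ hmem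
    have hE : Continuous fun s => extDeriv β (af (rp J k) s)
        (fun j => (rp J k).1.mulVec (Pi.single j 1)) := by
      have haf : Continuous fun s => af (rp J k) s :=
        continuous_const.add ((Matrix.mulVecLin (rp J k).1).continuous_of_finiteDimensional)
      exact (ContinuousAlternatingMap.apply ℝ (Fin R → ℝ) ℝ
        (fun j => (rp J k).1.mulVec (Pi.single j 1))).continuous.comp (hext.comp haf)
    have hcs : HasCompactSupport fun s => extDeriv β (af (rp J k) s)
        (fun j => (rp J k).1.mulVec (Pi.single j 1)) := by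
      refine HasCompactSupport.intro hC fun s hs => ?_
      rw [StJ_zero J β C hC hβ _ (by rw [StJ_af J k hdet]; exact hs)]
      rfl
    have hI : Integrable fun s => c' (rp J k) s * extDeriv β (af (rp J k) s)
        (fun j => (rp J k).1.mulVec (Pi.single j 1)) :=
      (hE.integrable_of_hasCompactSupport hcs).bdd_mul hm.aestronglyMeasurable
        (Filter.Eventually.of_forall fun s => (Real.norm_eq_abs _).le.trans (hB _ hmem s))
    refine hI.congr ?_
    filter_upwards [hae] with s hs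
    rw [hs]
  -- comparison
  have hfg : ∀ k ∈ 𝒦, (k.1.submatrix J id).det ≠ 0 →
      (fun u => cw K (F ∘ I) F u (af k u) * (k.1.submatrix J id).det *
        extDeriv β (af k u) (fun j => k.1.mulVec (Pi.single j 1))) =ᵐ[volume]
      fun u => |(k.1.submatrix J id).det| *
        (cw K (F ∘ J) F ((k.1.submatrix J id).mulVec u + k.2 ∘ J)
            (af (rp J k) ((k.1.submatrix J id).mulVec u + k.2 ∘ J)) *
          extDeriv β (af (rp J k) ((k.1.submatrix J id).mulVec u + k.2 ∘ J))
            (fun j => (rp J k).1.mulVec (Pi.single j 1))) := by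
    intro k hk hdet
    filter_upwards [hAeq K L (m + 1) R (Nat.succ_pos m) hTr hFG hcnt F I J 𝒦 hS k hk hdet] with u hu
    have h1 : (k.1.submatrix J id).mulVec u + k.2 ∘ J = af k u ∘ J := by
      funext i
      show _ = k.2 (J i) + k.1.mulVec u (J i)
      rw [Pi.add_apply, add_comm]
      rfl
    rw [StJ_af2 J k hdet u, h1, hu]
    have h2 : (rp J k).1 = k.1 * (k.1.submatrix J id)⁻¹ := rfl
    rw [h2, StJ_ext, Matrix.det_nonsing_inv, Ring.inverse_eq_inv']
    have h3 : |(k.1.submatrix J id).det| * |(k.1.submatrix J id).det| =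
        (k.1.submatrix J id).det * (k.1.submatrix J id).det := abs_mul_abs_self _
    field_simp
    linear_combination (- cw K (F ∘ I) F u (af k u) *
      extDeriv β (af k u) (fun j => k.1.mulVec (Pi.single j 1))) * h3
  have hint : ∀ k ∈ 𝒦, Integrable fun u => cw K (F ∘ I) F u (af k u) *
      (k.1.submatrix J id).det * extDeriv β (af k u) (fun j => k.1.mulVec (Pi.single j 1)) := by
    intro k hk
    by_cases hdet : (k.1.submatrix J id).det = 0
    · have : (fun u => cw K (F ∘ I) F u (af k u) * (k.1.submatrix J id).det *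
          extDeriv β (af k u) (fun j => k.1.mulVec (Pi.single j 1))) = fun _ => (0 : ℝ) := by
        funext u
        rw [hdet]
        ring
      rw [this]
      exact integrable_zero _ _ _
    · refine Integrable.congr ?_ (hfg k hk hdet).symm
      exact ((StJ_cov _ hdet (k.2 ∘ J) _).1 (hg k hk hdet)).const_mul _
  refine ⟨hint, ?_⟩
  rw [integral_finsetSum _ hint]
  have hW' : ∫ s, ∑ k ∈ 𝒦.filter (fun k => (k.1.submatrix J id).det ≠ 0),
      cw K (F ∘ J) F s (af (rp J k) s) *
        extDeriv β (af (rp J k) s) (fun j => (rp J k).1.mulVec (Pi.single j 1)) = 0 := by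
    refine Eq.trans (integral_congr_ae (Filter.Eventually.of_forall fun s => ?_)) hW
    exact (Finset.sum_image (f := fun k : Matrix (Fin R) (Fin (m + 1)) ℝ × (Fin R → ℝ) =>
      cw K (F ∘ J) F s (af k s) *
        extDeriv β (af k s) (fun j => k.1.mulVec (Pi.single j 1))) hrp).symm
  rw [integral_finsetSum _ fun k hk => hg k (Finset.mem_filter.1 hk).1 (Finset.mem_filter.1 hk).2]
    at hW'
  rw [Finset.sum_filter] at hW'
  refine Eq.trans (Finset.sum_congr rfl fun k hk => ?_) hW'
  split_ifs with hdet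
  · rw [integral_congr_ae (hfg k hk hdet), integral_const_mul]
    exact (StJ_cov _ hdet (k.2 ∘ J) (fun s => cw K (F ∘ J) F s (af (rp J k) s) *
      extDeriv β (af (rp J k) s) (fun j => (rp J k).1.mulVec (Pi.single j 1)))).2
  · rw [not_not] at hdet
    simp [hdet]

end TDC
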