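import Pool.Agent.TDC.St
import Pool.Agent.TDC.St3

/-!
# TDC, module StdF: the pull-back of a compactly supported top form
-/

namespace TDC

open scoped Topology

/-- The component of `top b` at the index `I`. -/
private lemma StdF_smooth {n : ℕ} (b : (Fin n → ℝ) → ℝ) (hb : ContDiff ℝ (⊤ : ℕ∞) b) :
    (top b).Smooth := by
  intro I
  unfold top mono
  by_cases h : I = id
  · subst h
    simp only [if_true]
    exact hb.smul contDiff_const
  · simp only [h, if_false]
    exact contDiff_const

private lemma StdF_pc {n : ℕ} (b : (Fin n → ℝ) → ℝ) (hb : ContDiff ℝ (⊤ : ℕ∞) b)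
    (hc : HasCompactSupport b) : (top b).PC := by
  intro I
  refine ⟨StdF_smooth b hb I, ?_⟩
  by_cases h : I = id
  · subst h
    refine ⟨tsupport b, hc, ?_⟩
    intro t ht
    unfold top mono
    simp only [if_true]
    have h1 : b t = 0 := image_eq_zero_of_notMem_tsupport ht
    rw [h1, zero_smul]
  · refine ⟨∅, isCompact_empty, ?_⟩
    intro t _
    unfold top mono
    simp only [h, if_false]

private lemma StdF_pull {K M : Type} [NormedField K] [Field M] {φ : K →+* M} {n : ℕ}
    (t : Fin n → Mˣ) (b : (Fin n → ℝ) → ℝ) : (pull t (top b) : Fam φ n n) = std φ t b := by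
  classical
  funext x δ ε
  unfold pull pullAt std
  rw [Finset.sum_eq_single (id : Fin n → Fin n)]
  · unfold top mono
    simp only [if_true, id_eq]
    rw [ContinuousAlternatingMap.smul_apply, dx_apply, smul_eq_mul]
    simp only [id_eq]
    ring
  · intro I _ hI
    unfold top mono
    simp only [hI, if_false]
    exact mul_zero _
  · intro h
    exact absurd (Finset.mem_univ _) h

/-- **StdF**. `t^*(b)` is a form with compact support. -/
theorem thm_StdF (h : St_CSu) : St_StdF := by
  intro K L _ _ _ n t b htr hb hc
  have h1 : (pull t (top b) : Fam (algebraMap K L) n n) = std (algebraMap K L) t b :=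
    StdF_pull t b
  refine ⟨h1, ?_, ?_⟩
  · intro x
    refine ⟨n, t, top b, StdF_smooth b hb, Filter.Eventually.of_forall fun y => ?_⟩
    rw [← h1]
  · rw [← h1]
    exact h.2 K L n htr n n t (top b) (StdF_pc b hb hc)

end TDC

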