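import Pool.Agent.TDC.St
import Pool.Agent.TDC.St2
import Pool.Agent.TDC.St3

/-!
# TDC, module Step: the local step of the induction (assembly)
-/

namespace TDC

open scoped Topology
open MeasureTheory Polynomial

/-- **Step**. The local step of the induction. -/
theorem thm_Step (hA : St_StA) (hB : St_StB) (hR : St_Rank) (hK : St_KeyE) (hE : St_SelE)
    (hU : St_SelU) (hI : St_IndG) : St_Step := by
  intro K L' L _ _ _ _ _ _ _ m t t' hcount hrat htr hfg' hfg V' hV' D hD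
  obtain ⟨htrL, hrank⟩ := hR K L' L m t htr hrat
  have hex : ∀ x : Pt (algebraMap K L), ∃ (R : ℕ) (F : Fin R → Lˣ) (h : Fin (m + 1) → Lˣ)
      (χ : (Fin R → ℝ) → ℝ) (S : Set (Fin (m + 1) → ℝ)), Indep x D.g →
      x ∈ {x : Pt (algebraMap K L) |
        logv x (Fin.snoc (α := fun _ => Lˣ) (up L t') t) ∈ V'} →
      (Indep x h ∧ Sel x F h χ ∧ S ∈ 𝓝 (logv x h)) ∧
        ∀ b : (Fin (m + 1) → ℝ) → ℝ, SC b S →
          ∃ e : TD L' m × Set (Fin m → ℝ) × (ℝ → ℝ),
            (IsOpen e.2.1 ∧ e.1.Good (algebraMap K L') {z | logv z t' ∈ e.2.1} ∧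
              ContDiff ℝ (⊤ : ℕ∞) e.2.2 ∧ HasCompactSupport e.2.2 ∧
              ∀ v ∈ e.2.1, ∀ τ ∈ tsupport e.2.2,
                (Fin.snoc (α := fun _ => ℝ) v τ : Fin (m + 1) → ℝ) ∈ V') ∧
            (tf F h χ b - Phi t e.2.2 (e.1.form (algebraMap K L')) :
              Fam (algebraMap K L) (m + 1) (m + 1)) ∈
              W0 (algebraMap K L) (m + 1)
                {x | logv x (Fin.snoc (α := fun _ => Lˣ) (up L t') t) ∈ V'} := by
    intro x
    by_cases hx : Indep x D.g ∧ x ∈ {x : Pt (algebraMap K L) |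
        logv x (Fin.snoc (α := fun _ => Lˣ) (up L t') t) ∈ V'}
    · obtain ⟨hx1, hx2⟩ := hx
      obtain ⟨g', hg', f, hf⟩ := hrank x D.g hx1
      obtain ⟨Q, hQ, hdeg⟩ := hK K L' L t hrat x f hf
      have hq0 : aeval (t : L) Q ≠ 0 := by
        intro h0
        have h1 := hQ.2.1.1
        rw [h0, map_zero] at h1
        exact lt_irrefl _ h1
      obtain ⟨R, F₀, χ', hsel⟩ := hE K L' m htr hfg' (res L' x) g' (hI _ _ _ _ _ _ hg')
      obtain ⟨hU1, hU2⟩ := hU K L' L t hrat m R x g' F₀ χ' Q (Units.mk0 _ hq0) hg' hsel hQ hdeg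
        rfl
      obtain ⟨S, hS, hSb⟩ := hA K L' L m t t' hrat htr V' hV' R x g' F₀ χ' Q (Units.mk0 _ hq0)
        hg' hsel hQ hdeg rfl hx2
      exact ⟨R, up L F₀, Fin.snoc (α := fun _ => Lˣ) (up L g') (Units.mk0 _ hq0), χ', S,
        fun _ _ => ⟨⟨hU1, hU2, hS⟩, hSb⟩⟩
    · exact ⟨0, Fin.elim0, fun _ => 1, fun _ => 0, Set.univ, fun h1 h2 => absurd ⟨h1, h2⟩ hx⟩
  choose Rf Ff hf χf Sf hdata using hex
  obtain ⟨X, bf, hX, hform⟩ := hB K L (m + 1) hcount htrL hfg _ D hD Rf Ff hf χf Sf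
    (fun x h1 h2 => (hdata x h1 h2).1)
  have he : ∀ x : {x // x ∈ X}, ∃ e : TD L' m × Set (Fin m → ℝ) × (ℝ → ℝ),
      (IsOpen e.2.1 ∧ e.1.Good (algebraMap K L') {z | logv z t' ∈ e.2.1} ∧
        ContDiff ℝ (⊤ : ℕ∞) e.2.2 ∧ HasCompactSupport e.2.2 ∧
        ∀ v ∈ e.2.1, ∀ τ ∈ tsupport e.2.2,
          (Fin.snoc (α := fun _ => ℝ) v τ : Fin (m + 1) → ℝ) ∈ V') ∧
      (tf (Ff x.1) (hf x.1) (χf x.1) (bf x.1) - Phi t e.2.2 (e.1.form (algebraMap K L')) :
        Fam (algebraMap K L) (m + 1) (m + 1)) ∈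
        W0 (algebraMap K L) (m + 1)
          {x | logv x (Fin.snoc (α := fun _ => Lˣ) (up L t') t) ∈ V'} := by
    intro x
    obtain ⟨h1, h2, h3⟩ := hX x.1 x.2
    exact (hdata x.1 h1 h2).2 (bf x.1) h3
  choose e he using he
  refine ⟨X.attach.toList.map e, ?_, ?_⟩
  · intro e' he'
    obtain ⟨x, _, rfl⟩ := List.mem_map.mp he'
    exact (he x).1
  · have hsum : (List.map (fun e : TD L' m × Set (Fin m → ℝ) × (ℝ → ℝ) =>
        (Phi t e.2.2 (e.1.form (algebraMap K L')) : Fam (algebraMap K L) (m + 1) (m + 1)))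
        (X.attach.toList.map e)).sum =
        ∑ x ∈ X.attach, Phi t (e x).2.2 ((e x).1.form (algebraMap K L')) := by
      rw [List.map_map]
      exact Finset.sum_map_toList _ _
    rw [hsum]
    have hdecomp : D.form (algebraMap K L) -
        ∑ x ∈ X.attach, (Phi t (e x).2.2 ((e x).1.form (algebraMap K L')) :
          Fam (algebraMap K L) (m + 1) (m + 1)) =
        (D.form (algebraMap K L) - ∑ x ∈ X, tf (Ff x) (hf x) (χf x) (bf x)) +
          ∑ x ∈ X.attach, (tf (Ff x.1) (hf x.1) (χf x.1) (bf x.1) -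
            Phi t (e x).2.2 ((e x).1.form (algebraMap K L'))) := by
      rw [Finset.sum_sub_distrib,
        Finset.sum_attach X (fun x => (tf (Ff x) (hf x) (χf x) (bf x) :
          Fam (algebraMap K L) (m + 1) (m + 1)))]
      abel
    rw [hdecomp]
    refine Submodule.add_mem _ hform (Submodule.sum_mem _ fun x _ => (he x).2)

end TDC
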