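import Pool.Agent.TDC.St2
import Pool.Agent.TDC.St3
import Pool.Agent.TDC.St4

/-!
# TDC, module ThmC: surjectivity with compact supports on the analytification
-/

namespace TDC

open scoped Topology
open MeasureTheory Polynomial AlgebraicGeometry CategoryTheory

/-- the support of a difference is compact -/
private theorem ThmC_csupp_sub {K M : Type} [NormedField K] [Field M] {φ : K →+* M} {p q : ℕ}
    {ω₁ ω₂ : Fam φ p q} (h1 : CSupp ω₁) (h2 : CSupp ω₂) : CSupp (ω₁ - ω₂) := by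
  obtain ⟨C₁, hc1, h1⟩ := h1
  obtain ⟨C₂, hc2, h2⟩ := h2
  refine ⟨C₁ ∪ C₂, hc1.union hc2, ?_⟩
  intro x hx
  have hx1 : x ∉ C₁ := fun h => hx (Or.inl h)
  have hx2 : x ∉ C₂ := fun h => hx (Or.inr h)
  show ω₁ x - ω₂ x = 0
  rw [h1 x hx1, h2 x hx2, sub_zero]

/-- extension by zero of a difference -/
private theorem ThmC_ext_sub {K : Type} [NormedField K] {X : Scheme.{0}} [IrreducibleSpace X]
    {s : X ⟶ Spec (.of K)} {p q : ℕ} {ω₁ ω₂ : Fam (kmap s (genericPoint X)) p q}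
    {ω₁' ω₂' : FamA s p q} (h1 : IsExt ω₁ ω₁') (h2 : IsExt ω₂ ω₂') :
    IsExt (ω₁ - ω₂) (ω₁' - ω₂') := by
  refine ⟨fun v => ?_, fun x hx => ?_⟩
  · show ω₁' (gen s v) - ω₂' (gen s v) = ω₁ v - ω₂ v
    rw [h1.1 v, h2.1 v]
    rfl
  · show ω₁' x - ω₂' x = 0
    rw [h1.2 x hx, h2.2 x hx, sub_zero]

/-- **ThmC**. Surjectivity with compact supports: every compactly supported form of type `(n,n)` on
`X^an`, `K(X) = K(t_1..t_n)`, is `t^*(b) + d''η` with compact supports. -/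
theorem thm_ThmC (hFldA : St_FldA) (hUpA : St_UpA) (hDnA : St_DnA) (hExtE : St_ExtE)
    (hStdF : St_StdF) (hTowR : St_TowR) : St_ThmC := by
  intro K _ X _ s m t hcount hrat ω hω hωC
  have htr : @TrLe K (X.residueField (genericPoint X)) _ _
      (kmap s (genericPoint X)).toAlgebra (m + 1) :=
    (@hTowR.1 K (X.residueField (genericPoint X)) _ _
      (kmap s (genericPoint X)).toAlgebra (m + 1) t hrat).1
  obtain ⟨hr1, hr2, -, -, hr5⟩ := hDnA K X s (m + 1) (m + 1) htr ω hω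
  have hrC := hr5 hωC
  obtain ⟨C, hC, hC0⟩ := hrC
  obtain ⟨b, η, hb, hη1, hη2, -, hη4⟩ := @hFldA K (X.residueField (genericPoint X)) _ _
    (kmap s (genericPoint X)).toAlgebra m t hcount hrat Set.univ isOpen_univ
    (fun v => ω (gen s v)) C hr1 hC hC0 (fun _ _ => Set.mem_univ _)
  obtain ⟨he, hf, hs⟩ := @hStdF K (X.residueField (genericPoint X)) _ _
    (kmap s (genericPoint X)).toAlgebra (m + 1) t b htr hb.1 hb.2.1
  have he' : (pull t (top b) : Fam (kmap s (genericPoint X)) (m + 1) (m + 1)) =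
      std (kmap s (genericPoint X)) t b := he
  have hf' : IsForm (pull t (top b) : Fam (kmap s (genericPoint X)) (m + 1) (m + 1)) := by
    rw [he']
    exact hf
  have hs' : CSupp (pull t (top b) : Fam (kmap s (genericPoint X)) (m + 1) (m + 1)) := by
    rw [he']
    exact hs
  have hη4' : IsDbar (η : Fam (kmap s (genericPoint X)) (m + 1) m)
      ((fun v => ω (gen s v) : Fam (kmap s (genericPoint X)) (m + 1) (m + 1)) -
        pull t (top b)) := by
    rw [he']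
    exact hη4
  obtain ⟨ω₀, hω₀⟩ := hExtE K X s (m + 1) (m + 1)
    (pull t (top b) : Fam (kmap s (genericPoint X)) (m + 1) (m + 1))
  obtain ⟨η', hη'⟩ := hExtE K X s (m + 1) m (η : Fam (kmap s (genericPoint X)) (m + 1) m)
  obtain ⟨ha, hac, -⟩ := (hUpA K X s (m + 1) htr).1 (m + 1) _ ω₀ hω₀ hf' hs'
  obtain ⟨hb1, hbc, -⟩ := (hUpA K X s (m + 1) htr).1 m _ η' hη' hη1 hη2
  have hd : IsDbarA η' (ω - ω₀) :=
    (hUpA K X s (m + 1) htr).2 m _ _ η' (ω - ω₀) hη' (ThmC_ext_sub hr2 hω₀) hη4' hη2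
      (ThmC_csupp_sub ⟨C, hC, hC0⟩ hs')
  exact ⟨b, ω₀, η', hb.1, hb.2.1, ⟨fun v => hω₀.1 v, hω₀.2⟩, ha, hac, hb1, hbc, hd⟩

end TDC
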