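import Pool.Agent.TDC.StT

set_option autoImplicit false

/-!
# TDC, module Tng: tangent vectors at a point where `g` is independent
-/

namespace TDC

open scoped Topology

section

variable {K L : Type} [NormedField K] [Field L] [Algebra K L] {n : ℕ}

/-- `|f|^N` is a monomial in `|g|` up to the absolute value of a constant -/
private def TngR (y : Pt (algebraMap K L)) (g : Fin n → Lˣ) (f : Lˣ) (N : ℕ) (k : Fin n → ℤ) :
    Prop :=
  0 < N ∧ ∃ a : K, a ≠ 0 ∧ y.v (f : L) ^ N = ‖a‖ * ∏ i, y.v (g i : L) ^ k i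

private lemma Tng_pos (y : Pt (algebraMap K L)) (f : Lˣ) : 0 < y.v (f : L) :=
  y.v.pos f.ne_zero

private lemma Tng_vprod (y : Pt (algebraMap K L)) (g : Fin n → Lˣ) (m : Fin n → ℤ) :
    y.v ((∏ i, g i ^ m i : Lˣ) : L) = ∏ i, y.v (g i : L) ^ m i := by
  rw [Units.coe_prod, map_prod]
  refine Finset.prod_congr rfl fun i _ => ?_
  rw [Units.val_zpow_eq_zpow_val, map_zpow₀]

private lemma Tng_uniq {y : Pt (algebraMap K L)} {g : Fin n → Lˣ} (hI : Indep y g) {f : Lˣ}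
    {N N' : ℕ} {k k' : Fin n → ℤ} (h : TngR y g f N k) (h' : TngR y g f N' k') (i : Fin n) :
    (k i : ℝ) / N = (k' i : ℝ) / N' := by
  obtain ⟨hN, a, ha, e⟩ := h
  obtain ⟨hN', a', ha', e'⟩ := h'
  have hna : ‖a‖ ≠ 0 := norm_ne_zero_iff.mpr ha
  have hna' : ‖a'‖ ≠ 0 := norm_ne_zero_iff.mpr ha'
  have hv : y.v (f : L) ≠ 0 := (Tng_pos y f).ne'
  have hP : ∏ i, y.v (g i : L) ^ k i = y.v (f : L) ^ N / ‖a‖ := by
    rw [e]; field_simp
  have hP' : ∏ i, y.v (g i : L) ^ k' i = y.v (f : L) ^ N' / ‖a'‖ := by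
    rw [e']; field_simp
  have key := hI (fun i => (N' : ℤ) * k i - (N : ℤ) * k' i) ⟨a' ^ N / a ^ N', by
    rw [Tng_vprod, norm_div, norm_pow, norm_pow]
    have h1 : ∀ i, y.v (g i : L) ^ ((N' : ℤ) * k i - (N : ℤ) * k' i) =
        (y.v (g i : L) ^ k i) ^ N' / (y.v (g i : L) ^ k' i) ^ N := by
      intro i
      rw [zpow_sub₀ (Tng_pos y (g i)).ne', mul_comm (N' : ℤ), mul_comm (N : ℤ), zpow_mul, zpow_mul,
        zpow_natCast, zpow_natCast]
    rw [Finset.prod_congr rfl fun i _ => h1 i, Finset.prod_div_distrib, Finset.prod_pow,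
      Finset.prod_pow, hP, hP', div_pow, div_pow, ← pow_mul, ← pow_mul, mul_comm N' N]
    field_simp⟩
  have h2 := congrFun key i
  simp only [Pi.zero_apply] at h2
  have h3 : (N' : ℝ) * (k i : ℝ) - (N : ℝ) * (k' i : ℝ) = 0 := by
    exact_mod_cast h2
  have hN0 : (N : ℝ) ≠ 0 := Nat.cast_ne_zero.mpr hN.ne'
  have hN0' : (N' : ℝ) ≠ 0 := Nat.cast_ne_zero.mpr hN'.ne'
  rw [div_eq_div_iff hN0 hN0']
  linarith

private lemma Tng_mul {y : Pt (algebraMap K L)} {g : Fin n → Lˣ} {f f' : Lˣ}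
    {N N' : ℕ} {k k' : Fin n → ℤ} (h : TngR y g f N k) (h' : TngR y g f' N' k') :
    TngR y g (f * f') (N * N') (fun i => (N' : ℤ) * k i + (N : ℤ) * k' i) := by
  obtain ⟨hN, a, ha, e⟩ := h
  obtain ⟨hN', a', ha', e'⟩ := h'
  refine ⟨Nat.mul_pos hN hN', a ^ N' * a' ^ N, mul_ne_zero (pow_ne_zero _ ha) (pow_ne_zero _ ha'),
    ?_⟩
  have h1 : ∀ i, y.v (g i : L) ^ ((N' : ℤ) * k i + (N : ℤ) * k' i) =
      (y.v (g i : L) ^ k i) ^ N' * (y.v (g i : L) ^ k' i) ^ N := by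
    intro i
    rw [zpow_add₀ (Tng_pos y (g i)).ne', mul_comm (N' : ℤ), mul_comm (N : ℤ), zpow_mul, zpow_mul,
      zpow_natCast, zpow_natCast]
  rw [Finset.prod_congr rfl fun i _ => h1 i, Finset.prod_mul_distrib, Finset.prod_pow,
    Finset.prod_pow, norm_mul, norm_pow, norm_pow, Units.val_mul, map_mul, mul_pow]
  have h2 : y.v (f : L) ^ (N * N') = (‖a‖ * ∏ i, y.v (g i : L) ^ k i) ^ N' := by
    rw [pow_mul, e]
  have h3 : y.v (f' : L) ^ (N * N') = (‖a'‖ * ∏ i, y.v (g i : L) ^ k' i) ^ N := by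
    rw [mul_comm N N', pow_mul, e']
  rw [h2, h3]
  ring

private lemma Tng_const {y : Pt (algebraMap K L)} {g : Fin n → Lˣ} {f : Lˣ}
    (h : ∃ a : K, ‖a‖ = y.v (f : L)) : TngR y g f 1 0 := by
  obtain ⟨a, ha⟩ := h
  refine ⟨Nat.one_pos, a, ?_, ?_⟩
  · rintro rfl
    rw [norm_zero] at ha
    exact (Tng_pos y f).ne ha
  · simp [ha]

private lemma Tng_gi (y : Pt (algebraMap K L)) (g : Fin n → Lˣ) (j : Fin n) :
    TngR y g (g j) 1 (Pi.single j 1) := by
  classical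
  refine ⟨Nat.one_pos, 1, one_ne_zero, ?_⟩
  rw [norm_one, one_mul, pow_one, Finset.prod_eq_single j]
  · simp
  · intro i _ hi
    rw [Pi.single_eq_of_ne hi, zpow_zero]
  · intro h
    exact absurd (Finset.mem_univ j) h

private lemma Tng_del {y : Pt (algebraMap K L)} {g : Fin n → Lˣ} {f : Lˣ}
    {N : ℕ} {k : Fin n → ℤ} (h : TngR y g f N k) (δ : Tan y) :
    δ.1 (Additive.ofMul f) = ∑ i, (k i : ℝ) / N * δ.1 (Additive.ofMul (g i)) := by
  obtain ⟨hN, a, ha, e⟩ := h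
  have hN0 : (N : ℝ) ≠ 0 := Nat.cast_ne_zero.mpr hN.ne'
  have h0 : δ.1 (Additive.ofMul (f ^ N * (∏ i, g i ^ k i)⁻¹)) = 0 := by
    refine δ.2 _ ⟨a, ?_⟩
    rw [Units.val_mul, map_mul, Units.val_pow_eq_pow_val, map_pow, Units.val_inv_eq_inv_val,
      map_inv₀, Tng_vprod, e]
    have hp : ∏ i, y.v (g i : L) ^ k i ≠ 0 :=
      Finset.prod_ne_zero_iff.mpr fun i _ => zpow_ne_zero _ (Tng_pos y (g i)).ne'
    field_simp
  rw [ofMul_mul, ofMul_inv, ofMul_pow, ofMul_prod, map_add, map_neg, map_nsmul, map_sum] at h0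
  have h1 : ∀ i, δ.1 (Additive.ofMul (g i ^ k i)) = (k i : ℝ) * δ.1 (Additive.ofMul (g i)) := by
    intro i
    rw [ofMul_zpow, map_zsmul, zsmul_eq_mul]
  rw [Finset.sum_congr rfl fun i _ => h1 i, nsmul_eq_mul] at h0
  have h2 : ∑ i, (k i : ℝ) / N * δ.1 (Additive.ofMul (g i)) =
      (∑ i, (k i : ℝ) * δ.1 (Additive.ofMul (g i))) / N := by
    rw [Finset.sum_div]
    exact Finset.sum_congr rfl fun i _ => by ring
  rw [h2, eq_div_iff hN0]
  linarith

end

theorem thm_Tng : St_MLoc → St_Tng := by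
  classical
  intro hM K L _ _ _ n hT y g hI
  have hex : ∀ f : Lˣ, ∃ (N : ℕ) (k : Fin n → ℤ), TngR y g f N k := by
    intro f
    obtain ⟨N, k, a, hN, ha, he⟩ := hM K L n hT y g hI f
    exact ⟨N, k, hN, a, ha, he.self_of_nhds⟩
  choose N k hR using hex
  have hlam : ∀ (f : Lˣ) (N' : ℕ) (k' : Fin n → ℤ), TngR y g f N' k' → ∀ i,
      (k f i : ℝ) / N f = (k' i : ℝ) / N' := fun f N' k' h i => Tng_uniq hI (hR f) h i
  have hadd : ∀ (f f' : Lˣ) (i : Fin n), (k (f * f') i : ℝ) / N (f * f') =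
      (k f i : ℝ) / N f + (k f' i : ℝ) / N f' := by
    intro f f' i
    rw [hlam (f * f') _ _ (Tng_mul (hR f) (hR f')) i]
    have h1 : (N f : ℝ) ≠ 0 := Nat.cast_ne_zero.mpr (hR f).1.ne'
    have h2 : (N f' : ℝ) ≠ 0 := Nat.cast_ne_zero.mpr (hR f').1.ne'
    push_cast
    field_simp
  have hzero : ∀ f : Lˣ, (∃ a : K, ‖a‖ = y.v (f : L)) → ∀ i, (k f i : ℝ) / N f = 0 := by
    intro f hf i
    rw [hlam f 1 0 (Tng_const hf) i]
    simp
  refine ⟨fun v => ?_, fun R f => ?_⟩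
  · refine ⟨⟨{ toFun := fun f => ∑ i, v i * ((k (Additive.toMul f) i : ℝ) / N (Additive.toMul f))
               map_zero' := ?_
               map_add' := ?_ }, ?_⟩, ?_⟩
    · refine Finset.sum_eq_zero fun i _ => ?_
      rw [hzero (Additive.toMul (0 : Additive Lˣ)) ⟨1, by simp⟩ i, mul_zero]
    · intro f f'
      rw [← Finset.sum_add_distrib]
      refine Finset.sum_congr rfl fun i _ => ?_
      rw [toMul_add, hadd, mul_add]
    · intro f hf
      show ∑ i, v i * ((k f i : ℝ) / N f) = 0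
      exact Finset.sum_eq_zero fun i _ => by rw [hzero f hf i, mul_zero]
    · funext j
      show ∑ i, v i * ((k (g j) i : ℝ) / N (g j)) = v j
      rw [Finset.sum_eq_single j]
      · rw [hlam (g j) 1 _ (Tng_gi y g j) j]
        simp
      · intro i _ hi
        rw [hlam (g j) 1 _ (Tng_gi y g j) i, Pi.single_eq_of_ne hi]
        simp
      · intro h
        exact absurd (Finset.mem_univ j) h
  · refine ⟨Matrix.of fun j i => (k (f j) i : ℝ) / N (f j), fun δ => ?_⟩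
    funext j
    show δ.1 (Additive.ofMul (f j)) = ∑ i, (k (f j) i : ℝ) / N (f j) * δ.1 (Additive.ofMul (g i))
    exact Tng_del (hR (f j)) δ

end TDC
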