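import Pool.Agent.TDC.StT

/-!
# TDC TrT: the `t`-part (change of variables, degree one)
-/

set_option autoImplicit false

namespace TDC

open scoped Topology
open MeasureTheory

private theorem TrT_inj {n : ℕ} (M : Matrix (Fin n) (Fin n) ℝ) (v : Fin n → ℝ)
    (hM : M.det ≠ 0) : Function.Injective (fun u : Fin n → ℝ => v + M.mulVec u) := by
  intro u w h
  have h1 : M.mulVec u = M.mulVec w := add_left_cancel h
  have h2 : IsUnit M := (Matrix.isUnit_iff_isUnit_det M).2 (isUnit_iff_ne_zero.2 hM)
  exact Matrix.mulVec_injective_of_isUnit h2 h1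

private theorem TrT_meas {n : ℕ} (M : Matrix (Fin n) (Fin n) ℝ) (v : Fin n → ℝ)
    (hM : M.det ≠ 0) : MeasurableEmbedding (fun u : Fin n → ℝ => v + M.mulVec u) := by
  refine Continuous.measurableEmbedding ?_ (TrT_inj M v hM)
  exact continuous_const.add (Continuous.matrix_mulVec continuous_const continuous_id)

private theorem TrT_map {n : ℕ} (M : Matrix (Fin n) (Fin n) ℝ) (v : Fin n → ℝ)
    (hM : M.det ≠ 0) :
    Measure.map (fun u : Fin n → ℝ => v + M.mulVec u) volume
      = ENNReal.ofReal |(M.det)⁻¹| • (volume : Measure (Fin n → ℝ)) := by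
  have h1 := Real.map_matrix_volume_pi_eq_smul_volume_pi hM
  have h2 : (fun u : Fin n → ℝ => v + M.mulVec u) = (fun s => v + s) ∘ (Matrix.toLin' M) := by
    funext u
    simp [Matrix.toLin'_apply]
  have h3 : Measurable (Matrix.toLin' M) :=
    (Matrix.toLin' M).continuous_of_finiteDimensional.measurable
  rw [h2, ← Measure.map_map (measurable_const_add v) h3, h1, Measure.map_smul,
    map_add_left_eq_self]

private theorem TrT_cov {n : ℕ} (M : Matrix (Fin n) (Fin n) ℝ) (v : Fin n → ℝ)
    (hM : M.det ≠ 0) (f : (Fin n → ℝ) → ℝ) (hf : Integrable f) :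
    Integrable (fun u => |M.det| * f (v + M.mulVec u)) ∧
      ∫ u, |M.det| * f (v + M.mulVec u) = ∫ s, f s := by
  have hT := TrT_meas M v hM
  have hm := TrT_map M v hM
  constructor
  · refine Integrable.const_mul ?_ _
    have h1 : Integrable f (Measure.map (fun u : Fin n → ℝ => v + M.mulVec u) volume) := by
      rw [hm]
      exact hf.smul_measure ENNReal.ofReal_ne_top
    exact (hT.integrable_map_iff).1 h1
  · have h1 : ∫ u, f (v + M.mulVec u) =
        ∫ s, f s ∂(Measure.map (fun u : Fin n → ℝ => v + M.mulVec u) volume) :=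
      (hT.integral_map f).symm
    rw [integral_const_mul, h1, hm, integral_smul_measure, ENNReal.toReal_ofReal (abs_nonneg _),
      smul_eq_mul, ← mul_assoc, abs_inv, mul_inv_cancel₀ (abs_ne_zero.2 hM), one_mul]

private theorem TrT_af {R n : ℕ} (J : Fin n → Fin R)
    (k : Matrix (Fin R) (Fin n) ℝ × (Fin R → ℝ)) (u : Fin n → ℝ) :
    af k u ∘ J = k.2 ∘ J + (k.1.submatrix J id).mulVec u := by
  funext i
  simp [af, Matrix.mulVec, dotProduct]

private theorem TrT_rp {R n : ℕ} (J : Fin n → Fin R)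
    (k : Matrix (Fin R) (Fin n) ℝ × (Fin R → ℝ))
    (h : (k.1.submatrix J id).det ≠ 0) (u : Fin n → ℝ) :
    af (rp J k) (k.2 ∘ J + (k.1.submatrix J id).mulVec u) = af k u := by
  unfold af rp
  simp only
  rw [Matrix.mulVec_add, Matrix.mulVec_mulVec, Matrix.mul_assoc,
    Matrix.nonsing_inv_mul _ (isUnit_iff_ne_zero.2 h), Matrix.mul_one]
  abel

private theorem TrT_emb (K : Type) {L : Type} [NormedField K] [Field L] [Algebra K L] {n : ℕ}
    (g : Fin n → Lˣ) (h : IntermediateField.adjoin K (Set.range fun i => (g i : L)) = ⊤) :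
    Emb K g = {incE K L} := by
  ext σ
  constructor
  · intro hσ
    have h1 : ∀ y : L, σ y = incE K L y := by
      intro y
      have hy : y ∈ IntermediateField.adjoin K (Set.range fun i => (g i : L)) := by
        rw [h]; exact IntermediateField.mem_top
      induction hy using IntermediateField.adjoin_induction with
      | mem x hx =>
        obtain ⟨i, rfl⟩ := hx
        exact hσ i
      | algebraMap x => rw [σ.commutes, (incE K L).commutes]
      | add x y _ _ hx hy => rw [map_add, map_add, hx, hy]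
      | inv x _ hx => rw [map_inv₀, map_inv₀, hx]
      | mul x y _ _ hx hy => rw [map_mul, map_mul, hx, hy]
    exact AlgHom.ext h1
  · rintro rfl
    intro i
    rfl

private theorem TrT_wtS (K : Type) {L : Type} [NormedField K] [Field L] [Algebra K L] {n : ℕ}
    (g : Fin n → Lˣ) (h : IntermediateField.adjoin K (Set.range fun i => (g i : L)) = ⊤)
    (S : Set (L →ₐ[K] AlgebraicClosure L)) [Decidable (incE K L ∈ S)] :
    wtS K g S = if incE K L ∈ S then 1 else 0 := by
  unfold wtS dg
  rw [TrT_emb K g h, h, IntermediateField.finrank_top]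
  split_ifs with hS
  · rw [Set.inter_eq_left.2 (Set.singleton_subset_iff.2 hS), Set.ncard_singleton]
    norm_num
  · rw [Set.singleton_inter_eq_empty.2 hS, Set.ncard_empty]
    norm_num

theorem thm_TrT : St_EmF → St_GEx → St_Loc → St_Aeq → St_BaJ → St_TrT := by
  intro _ hGEx hLoc hAeq hBaJ K L _ _ _ _ n R hn hTr hFG hct F I J 𝒦 hSh hInd hAlg hAdj b hb hbc
  classical
  obtain ⟨𝒢, hBal, hgen, hsep, hcov⟩ := hBaJ K L n R hn hTr hFG hct F I J 𝒦 hSh hInd
  obtain ⟨c', -, hc', B, hB⟩ := hLoc R n _ 𝒢 _ hBal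
  have hG : ∀ᵐ s : Fin n → ℝ, s ∈ 𝒢 := by
    rw [ae_iff]
    exact hBal.1
  have hbi : Integrable b := hb.integrable_of_hasCompactSupport hbc
  have hf : ∀ k ∈ 𝒦, (k.1.submatrix J id).det ≠ 0 →
      Integrable (fun s => cw K (F ∘ J) F s (af (rp J k) s) * b s) := by
    intro k hk hd
    have hm : rp J k ∈ (𝒦.filter fun k => (k.1.submatrix J id).det ≠ 0).image (rp J) :=
      Finset.mem_image_of_mem _ (Finset.mem_filter.2 ⟨hk, hd⟩)
    obtain ⟨h1, h2⟩ := hc' _ hm
    have h3 : Integrable (fun s => c' (rp J k) s * b s) :=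
      hbi.bdd_mul h1.aestronglyMeasurable
        (Filter.Eventually.of_forall fun s => by rw [Real.norm_eq_abs]; exact hB _ hm s)
    refine h3.congr ?_
    filter_upwards [h2] with s hs
    rw [← hs]
  have hg : ∀ k ∈ 𝒦, Integrable (fun u => cw K (F ∘ I) F u (af k u) *
        (k.1.submatrix J id).det ^ 2 * b (af k u ∘ J)) ∧
      ∫ u, cw K (F ∘ I) F u (af k u) * (k.1.submatrix J id).det ^ 2 * b (af k u ∘ J) =
        if (k.1.submatrix J id).det ≠ 0 then
          ∫ s, cw K (F ∘ J) F s (af (rp J k) s) * b s else 0 := by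
    intro k hk
    split_ifs with hd
    · obtain ⟨h1, h2⟩ := TrT_cov (k.1.submatrix J id) (k.2 ∘ J) hd _ (hf k hk hd)
      have h3 : (fun u => |(k.1.submatrix J id).det| *
          (cw K (F ∘ J) F (k.2 ∘ J + (k.1.submatrix J id).mulVec u)
            (af (rp J k) (k.2 ∘ J + (k.1.submatrix J id).mulVec u)) *
            b (k.2 ∘ J + (k.1.submatrix J id).mulVec u))) =ᵐ[volume]
          fun u => cw K (F ∘ I) F u (af k u) * (k.1.submatrix J id).det ^ 2 *
            b (af k u ∘ J) := by
        filter_upwards [hAeq K L n R hn hTr hFG hct F I J 𝒦 hSh k hk hd] with u hu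
        rw [TrT_rp J k hd, ← TrT_af J k u, hu, ← sq_abs (k.1.submatrix J id).det]
        ring
      exact ⟨h1.congr h3, by rw [← integral_congr_ae h3, h2]⟩
    · have hd0 : (k.1.submatrix J id).det = 0 := not_not.1 hd
      simp only [hd0]
      simp
  rw [integral_finsetSum _ (fun k hk => (hg k hk).1),
    Finset.sum_congr rfl (fun k hk => (hg k hk).2), ← Finset.sum_filter,
    ← integral_finsetSum _ (fun k hk => hf k (Finset.mem_filter.1 hk).1
      (Finset.mem_filter.1 hk).2)]
  refine integral_congr_ae ?_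
  filter_upwards [hG] with s hs
  have hex : ∃ x : Pt (algebraMap K (AlgebraicClosure L)), Ov (F ∘ J) s x :=
    hGEx K L n hTr (F ∘ J) hAlg s (hgen s hs)
  have hcw : ∀ p : Fin R → ℝ, cw K (F ∘ J) F s p =
      if logv (pb (incE K L) hex.choose) F = p then 1 else 0 := by
    intro p
    unfold cw
    rw [dif_pos hex]
    exact TrT_wtS K (F ∘ J) hAdj {σ | logv (pb σ hex.choose) F = p}
  have hinc : incE K L ∈ Emb K (F ∘ J) := by
    rw [TrT_emb K (F ∘ J) hAdj]
    exact Set.mem_singleton _
  obtain ⟨k₀, hk₀, hd₀, hl₀⟩ := hcov s hs hex.choose hex.choose_spec (incE K L) hinc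
  rw [Finset.sum_eq_single k₀]
  · rw [hcw, if_pos hl₀, one_mul]
  · intro k hk hne
    rw [hcw, if_neg, zero_mul]
    intro h
    exact hne (hsep s hs k (Finset.mem_filter.1 hk).1 k₀ hk₀ (Finset.mem_filter.1 hk).2 hd₀
      (h.symm.trans hl₀))
  · intro h
    exact absurd (Finset.mem_filter.2 ⟨hk₀, hd₀⟩) h

end TDC
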