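import Pool.Agent.TDC.St3
import Pool.Agent.TDC.St4

/-!
# TDC, module TroF: the pull-back of a compactly supported top form exists on the analytification
-/

namespace TDC

open scoped Topology
open MeasureTheory Polynomial AlgebraicGeometry CategoryTheory

/-- **TroF**. For `b` smooth with compact support `t^*(b)` exists and is a compactly supported form
on `X^an`. -/
theorem thm_TroF (h1 : St_StdF) (h2 : St_UpA) (h3 : St_ExtE) : St_TroF := by
  intro K _ X _ s n t htr b hb hc
  obtain ⟨he, hf, hs⟩ := @h1 K (X.residueField (genericPoint X)) _ _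
    (kmap s (genericPoint X)).toAlgebra n t b htr hb hc
  have hf' : IsForm (pull t (top b) : Fam (kmap s (genericPoint X)) n n) := by
    have h : (pull t (top b) : Fam (kmap s (genericPoint X)) n n) =
        std (kmap s (genericPoint X)) t b := he
    rw [h]
    exact hf
  have hs' : CSupp (pull t (top b) : Fam (kmap s (genericPoint X)) n n) := by
    have h : (pull t (top b) : Fam (kmap s (genericPoint X)) n n) =
        std (kmap s (genericPoint X)) t b := he
    rw [h]
    exact hs
  obtain ⟨ω', hω'⟩ := h3 K X s n n (pull t (top b) : Fam (kmap s (genericPoint X)) n n)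
  obtain ⟨ha, hb', _⟩ := (h2 K X s n htr).1 n _ ω' hω' hf' hs'
  exact ⟨ω', ⟨fun v => hω'.1 v, hω'.2⟩, ha, hb'⟩

end TDC
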