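import Pool.Agent.TDC.St2

/-!
# TDC Uniq: the point over `z` is determined by the value of a key polynomial
-/

set_option autoImplicit false

namespace TDC

open scoped Topology
open MeasureTheory Polynomial

/-- strict monotonicity of the product in the radius -/
private theorem Uniq_lt {A : Type} [AddGroup A] (s : A → ℝ) (h0 : s 0 = 0) {θ : A}
    {R : Multiset A} (hθ : θ ∈ R) {a b : ℝ} (ha : 0 < a) (hab : a < b) :
    (R.map (fun α => max a (s (θ - α)))).prod < (R.map (fun α => max b (s (θ - α)))).prod := by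
  obtain ⟨R', rfl⟩ := Multiset.exists_cons_of_mem hθ
  rw [Multiset.map_cons, Multiset.map_cons, Multiset.prod_cons, Multiset.prod_cons, sub_self, h0,
    max_eq_left ha.le, max_eq_left (ha.trans hab).le]
  have key : ∀ T : Multiset A, 0 < (T.map (fun α => max a (s (θ - α)))).prod ∧
      (T.map (fun α => max a (s (θ - α)))).prod ≤ (T.map (fun α => max b (s (θ - α)))).prod := by
    intro T
    induction T using Multiset.induction with
    | empty => simp
    | cons x T ih =>
      rw [Multiset.map_cons, Multiset.map_cons, Multiset.prod_cons, Multiset.prod_cons]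
      have h1 : 0 < max a (s (θ - x)) := lt_max_of_lt_left ha
      have h2 : max a (s (θ - x)) ≤ max b (s (θ - x)) := max_le_max_right _ hab.le
      exact ⟨mul_pos h1 ih.1, mul_le_mul h2 ih.2 ih.1.le (h1.le.trans h2)⟩
  obtain ⟨h1, h2⟩ := key R'
  calc a * (R'.map (fun α => max a (s (θ - α)))).prod
      < b * (R'.map (fun α => max a (s (θ - α)))).prod := mul_lt_mul_of_pos_right hab h1
    _ ≤ b * (R'.map (fun α => max b (s (θ - α)))).prod :=
        mul_le_mul_of_nonneg_left h2 (ha.trans hab).le

theorem thm_Uniq (h1 : St_Irre) (h2 : St_Root) : St_Uniq := by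
  intro K L' L _ _ _ _ _ _ _ t ht x Q hQ hd x' x'' hx' hx'' hv hfree
  have hirr := h1 K L' L t ht x Q hQ hd
  have hz := h2 K L' L t ht (res L' x) Q hirr
  obtain ⟨θ, hθ⟩ := IsAlgClosed.exists_eval₂_eq_zero
    (algebraMap (res L' x).v.Completion (AlgebraicClosure (res L' x).v.Completion))
    (Q.map (inc (res L' x).v)) (by
      rw [Polynomial.degree_map]
      exact (Polynomial.natDegree_pos_iff_degree_pos.1 hd).ne')
  obtain ⟨r', hr'0, -, hP'⟩ := hz θ hθ x' hx' hfree
  obtain ⟨r'', hr''0, -, hP''⟩ := hz θ hθ x'' hx'' (hv ▸ hfree)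
  have hQ0 : Q ≠ 0 := hQ.1.ne_zero
  have hmem : θ ∈ ((Q.map (inc (res L' x).v)).map
      (algebraMap (res L' x).v.Completion (AlgebraicClosure (res L' x).v.Completion))).roots := by
    rw [Polynomial.mem_roots']
    refine ⟨?_, ?_⟩
    · rw [Polynomial.map_ne_zero_iff (RingHom.injective _),
        Polynomial.map_ne_zero_iff (RingHom.injective _)]
      exact hQ0
    · rw [Polynomial.IsRoot.def, Polynomial.eval_map]
      exact hθ
  have hs0 : spectralNorm (res L' x).v.Completion
      (AlgebraicClosure (res L' x).v.Completion) 0 = 0 := spectralNorm_zero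
  have hrr : r' = r'' := by
    have e' := hP' Q hQ0
    have e'' := hP'' Q hQ0
    rw [hv, e'', hQ.1.leadingCoeff, map_one, one_mul, one_mul] at e'
    rcases lt_trichotomy r' r'' with h | h | h
    · exact absurd e' (Uniq_lt _ hs0 hmem hr'0 h).ne'
    · exact h
    · exact absurd e' (Uniq_lt _ hs0 hmem hr''0 h).ne
  subst hrr
  have hpol : ∀ P : L'[X], x'.v (aeval (t : L) P) = x''.v (aeval (t : L) P) := by
    intro P
    rcases eq_or_ne P 0 with rfl | hP
    · rw [map_zero, map_zero, map_zero]
    · rw [hP' P hP, hP'' P hP]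
  have hvv : x'.v = x''.v := by
    ext f
    obtain ⟨P, P1, hne, hf⟩ := ht.2 f
    have e1 := congrArg x'.v hf
    have e2 := congrArg x''.v hf
    rw [map_mul, hpol P1, hpol P] at e1
    rw [map_mul] at e2
    have hpos : x''.v (aeval (t : L) P1) ≠ 0 := x''.v.ne_zero hne
    exact mul_right_cancel₀ hpos (e1.trans e2.symm)
  cases x'
  cases x''
  congr

end TDC
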