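import Pool.Agent.TDC.St5

/-!
helper9. The values determine the form on the tropicalization.
-/

namespace TDC

open scoped Topology
open AlgebraicGeometry CategoryTheory

private theorem ValD_log {K M : Type} [NormedField K] [Field M] {φ : K →+* M} {R : ℕ} (x : Pt φ)
    (F : Fin R → Mˣ) (k : Fin R → ℤ) :
    Real.log (x.v ((∏ i, F i ^ k i : Mˣ) : M)) = ∑ i, (k i : ℝ) * logv x F i := by
  rw [Units.coe_prod, map_prod, Real.log_prod]
  · refine Finset.sum_congr rfl fun i _ => ?_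
    rw [Units.val_zpow_eq_zpow_val, map_zpow₀, Real.log_zpow]
    rfl
  · intro i _
    rw [Units.val_zpow_eq_zpow_val]
    exact (x.v.ne_zero_iff).2 (zpow_ne_zero _ (F i).ne_zero)

private theorem ValD_dense {E : Type} [NormedAddCommGroup E] [NormedSpace ℝ E] (f : E → ℝ)
    (g : E → ℝ) (hfg : ∀ (l w : E) (τ : ℝ), f (l + τ • w) = f l + τ * g w) (w : E) (hw : g w ≠ 0)
    (c : ℝ) : Dense {l : E | f l ≠ c} := by
  intro l
  by_cases h : f l = c
  · have h1 : Filter.Tendsto (fun n : ℕ => l + (1 / ((n : ℝ) + 1)) • w) Filter.atTop (𝓝 (l + (0 : ℝ) • w)) :=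
      (tendsto_const_nhds).add (tendsto_one_div_add_atTop_nhds_zero_nat.smul_const w)
    rw [zero_smul, add_zero] at h1
    refine mem_closure_of_tendsto h1 (Filter.Eventually.of_forall fun n => ?_)
    show f (l + (1 / ((n : ℝ) + 1)) • w) ≠ c
    rw [hfg, h]
    intro h2
    have h3 : 1 / ((n : ℝ) + 1) * g w = 0 := by linarith
    rcases mul_eq_zero.1 h3 with h4 | h4
    · have : (0 : ℝ) < 1 / ((n : ℝ) + 1) := by positivity
      linarith
    · exact hw h4
  · exact subset_closure h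

theorem thm_ValD (hT : St_ValT) : St_ValD := by
  intro K _ hK X s U R p q F α hα W hW t₀ L O hO hOW t ht htL δ ε hδ hε
  set G : L → ℝ := fun l => ∑ I : Fin p → Fin R, (Matrix.of fun i j => δ i (I j)).det *
    α I (t₀ + (l : Fin R → ℝ)) ε with hG
  have hc : Continuous G := by
    refine continuous_finsetSum _ fun I _ => continuous_const.mul ?_
    have h1 : Continuous fun l : L => α I (t₀ + (l : Fin R → ℝ)) :=
      (hα I).continuous.comp (continuous_const.add continuous_subtype_val)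
    have h2 : Continuous fun a : (Fin R → ℝ) [⋀^Fin q]→L[ℝ] ℝ => a ε := by fun_prop
    exact h2.comp h1
  set S : Set ((Fin R → ℤ) × ℝ) :=
    {kc | (∃ w ∈ L, ∑ i, (kc.1 i : ℝ) * w i ≠ 0) ∧ kc.2 ∈ Real.log '' (Set.range fun a : K => ‖a‖)} with hS
  have hScount : S.Countable := by
    have h1 : ((Set.univ : Set (Fin R → ℤ)) ×ˢ (Real.log '' (Set.range fun a : K => ‖a‖))).Countable :=
      (Set.countable_univ).prod (hK.image _)
    exact h1.mono (fun kc hkc => Set.mem_prod.2 ⟨Set.mem_univ _, hkc.2⟩)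
  set V : (Fin R → ℤ) × ℝ → Set L := fun kc =>
    {l | ∑ i, (kc.1 i : ℝ) * (t₀ i + (l : Fin R → ℝ) i) ≠ kc.2} with hV
  have hVo : ∀ kc ∈ S, IsOpen (V kc) := by
    intro kc _
    have h1 : Continuous fun l : L => ∑ i, (kc.1 i : ℝ) * (t₀ i + (l : Fin R → ℝ) i) :=
      continuous_finsetSum _ fun i _ => continuous_const.mul
        (continuous_const.add ((continuous_apply i).comp continuous_subtype_val))
    exact isOpen_ne_fun h1 continuous_const
  have hVd : ∀ kc ∈ S, Dense (V kc) := by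
    rintro kc ⟨⟨w, hw, hkw⟩, _⟩
    refine ValD_dense (E := L) (fun l => ∑ i, (kc.1 i : ℝ) * (t₀ i + (l : Fin R → ℝ) i))
      (fun l => ∑ i, (kc.1 i : ℝ) * (l : Fin R → ℝ) i) ?_ ⟨w, hw⟩ hkw kc.2
    intro l w' τ
    rw [Finset.mul_sum, ← Finset.sum_add_distrib]
    refine Finset.sum_congr rfl fun i _ => ?_
    show (kc.1 i : ℝ) * (t₀ i + ((l : Fin R → ℝ) i + τ * (w' : Fin R → ℝ) i)) = _
    ring
  have : CompleteSpace L := FiniteDimensional.complete ℝ L
  have hD : Dense (⋂ kc ∈ S, V kc) := dense_biInter_of_isOpen hVo hScount hVd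
  have hO' : IsOpen {l : L | t₀ + (l : Fin R → ℝ) ∈ O} :=
    hO.preimage (continuous_const.add continuous_subtype_val)
  have hsub := hD.open_subset_closure_inter hO'
  have hz : ({l : L | t₀ + (l : Fin R → ℝ) ∈ O} ∩ ⋂ kc ∈ S, V kc) ⊆ {l | G l = 0} := by
    rintro l ⟨hl, hl'⟩
    have hl1 : t₀ + (l : Fin R → ℝ) ∈ O := hl
    obtain ⟨x, hxW, h, hx⟩ := hOW _ hl1 (by rw [add_sub_cancel_left]; exact l.2)
    obtain ⟨h', hpull⟩ := hW x hxW
    have key : ∀ w ∈ L, ∃ η : Tan x.2, ev (unitsAt x h F) η = w := by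
      intro w hw
      refine hT K _ (kmap s x.1) R x.2 (unitsAt x h F) w ?_
      rintro k ⟨a, ha⟩
      by_contra hne
      have hmem : ((k, Real.log ‖a‖) : (Fin R → ℤ) × ℝ) ∈ S := ⟨⟨w, hw, hne⟩, ⟨_, ⟨a, rfl⟩, rfl⟩⟩
      have h1 := Set.mem_iInter₂.1 hl' _ hmem
      apply h1
      show ∑ i, (k i : ℝ) * (t₀ i + (l : Fin R → ℝ) i) = Real.log ‖a‖
      rw [ha, ValD_log, hx]
      rfl
    choose! Y hY using key
    have h2 := congrFun (congrFun hpull fun i => Y (δ i)) fun i => Y (ε i)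
    have h3 : pullAt x.2 (unitsAt x h' F) α (fun i => Y (δ i)) (fun i => Y (ε i)) = 0 := h2
    unfold pullAt at h3
    show ∑ I : Fin p → Fin R, (Matrix.of fun i j => δ i (I j)).det *
      α I (t₀ + (l : Fin R → ℝ)) ε = 0
    rw [← h3]
    refine Finset.sum_congr rfl fun I _ => ?_
    have e1 : logv x.2 (unitsAt x h' F) = t₀ + (l : Fin R → ℝ) := hx
    have e2 : (fun i => ev (unitsAt x h' F) (Y (ε i))) = ε := funext fun i => hY _ (hε i)
    have e3 : (Matrix.of fun i j => δ i (I j)) =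
        Matrix.of fun i j => ev (unitsAt x h' F) (Y (δ i)) (I j) := by
      ext i j
      show δ i (I j) = ev (unitsAt x h' F) (Y (δ i)) (I j)
      rw [hY _ (hδ i)]
    rw [e1, e2, e3]
  have h4 := closure_minimal hz (isClosed_eq hc continuous_const)
  have h5 : (⟨t - t₀, htL⟩ : L) ∈ {l : L | t₀ + (l : Fin R → ℝ) ∈ O} := by
    show t₀ + (t - t₀) ∈ O
    rw [add_sub_cancel]
    exact ht
  have h6 : G ⟨t - t₀, htL⟩ = 0 := h4 (hsub h5)
  have h7 : t₀ + (t - t₀) = t := add_sub_cancel _ _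
  rw [hG] at h6
  simp only [h7] at h6
  exact h6

end TDC
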