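import Pool.Agent.TDC.St5

/-!
# TDC: module ValT, the image of the tangent space under `ev F`
-/

namespace TDC

section

variable {K M : Type} [NormedField K] [Field M] {φ : K →+* M}

/-- the subgroup of units with value in `|K|` -/
def ValT_H (x : Pt φ) : AddSubgroup (Additive Mˣ) where
  carrier := {f | ∃ a : K, ‖a‖ = x.v ((Additive.toMul f : Mˣ) : M)}
  add_mem' := by
    rintro f g ⟨a, ha⟩ ⟨b, hb⟩
    refine ⟨a * b, ?_⟩
    rw [norm_mul, ha, hb, toMul_add, Units.val_mul, map_mul]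
  zero_mem' := ⟨1, by rw [norm_one, toMul_zero, Units.val_one, map_one]⟩
  neg_mem' := by
    rintro f ⟨a, ha⟩
    refine ⟨a⁻¹, ?_⟩
    rw [norm_inv, ha, toMul_neg, Units.val_inv_eq_inv_val, map_inv₀]

/-- the exponents as a homomorphism to the units modulo `ValT_H` -/
def ValT_q {R : ℕ} (F : Fin R → Mˣ) : (Fin R → ℤ) →+ Additive Mˣ where
  toFun k := Additive.ofMul (∏ i, F i ^ k i)
  map_zero' := by simp
  map_add' := by
    intro k l
    rw [← ofMul_mul, ← Finset.prod_mul_distrib]
    simp only [Pi.add_apply, zpow_add]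

/-- the functional given by `w` -/
noncomputable def ValT_W {R : ℕ} (w : Fin R → ℝ) : (Fin R → ℤ) →+ ℝ where
  toFun k := ∑ i, (k i : ℝ) * w i
  map_zero' := by simp
  map_add' := by
    intro k l
    rw [← Finset.sum_add_distrib]
    refine Finset.sum_congr rfl fun i _ => ?_
    simp only [Pi.add_apply, Int.cast_add]
    ring

end

theorem thm_ValT : St_ValT := by
  intro K M _ _ φ R x F w hw
  have baer := Module.Baer.of_divisible ℝ
  let π : Additive Mˣ →+ (Additive Mˣ ⧸ ValT_H x) := QuotientAddGroup.mk' (ValT_H x)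
  let g : (Fin R → ℤ) →+ (Additive Mˣ ⧸ ValT_H x) := π.comp (ValT_q F)
  have hker : g.ker ≤ (ValT_W w).ker := by
    intro k hk
    rw [AddMonoidHom.mem_ker] at hk ⊢
    have h1 : ValT_q F k ∈ ValT_H x := by
      have h2 : ((ValT_q F k : Additive Mˣ) : Additive Mˣ ⧸ ValT_H x) = 0 := hk
      exact (QuotientAddGroup.eq_zero_iff _).1 h2
    obtain ⟨a, ha⟩ := h1
    exact hw k ⟨a, ha⟩
  -- the two maps from the quotient by the kernel
  let gbar : ((Fin R → ℤ) ⧸ g.ker) →+ (Additive Mˣ ⧸ ValT_H x) := QuotientAddGroup.kerLift g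
  have hinj : Function.Injective gbar := QuotientAddGroup.kerLift_injective g
  let wbar : ((Fin R → ℤ) ⧸ g.ker) →+ ℝ := QuotientAddGroup.lift g.ker (ValT_W w) hker
  obtain ⟨h, hh⟩ := Module.Baer.extension_property_addMonoidHom (M := (Fin R → ℤ) ⧸ g.ker)
    (N := Additive Mˣ ⧸ ValT_H x) baer gbar hinj wbar
  have hcomp : ∀ k : Fin R → ℤ, h (g k) = ValT_W w k := by
    intro k
    have h3 := DFunLike.congr_fun hh ((k : (Fin R → ℤ)) : (Fin R → ℤ) ⧸ g.ker)
    exact h3
  refine ⟨⟨h.comp π, ?_⟩, ?_⟩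
  · rintro f ⟨a, ha⟩
    have h1 : Additive.ofMul f ∈ ValT_H x := ⟨a, ha⟩
    have h2 : π (Additive.ofMul f) = 0 := (QuotientAddGroup.eq_zero_iff _).2 h1
    show h (π (Additive.ofMul f)) = 0
    rw [h2, map_zero]
  · funext i
    show h (π (Additive.ofMul (F i))) = w i
    have h1 : Additive.ofMul (F i) = ValT_q F (Pi.single i 1) := by
      show Additive.ofMul (F i) = Additive.ofMul (∏ j, F j ^ (Pi.single i (1 : ℤ) : Fin R → ℤ) j)
      rw [Finset.prod_eq_single i]
      · rw [Pi.single_eq_same, zpow_one]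
      · intro j _ hj
        rw [Pi.single_eq_of_ne hj, zpow_zero]
      · intro hi
        exact absurd (Finset.mem_univ i) hi
    have h2 : h (π (Additive.ofMul (F i))) = h (g (Pi.single i 1)) := by
      rw [h1]
      rfl
    rw [h2, hcomp]
    show ∑ j, (((Pi.single i (1 : ℤ) : Fin R → ℤ) j : ℤ) : ℝ) * w j = w i
    rw [Finset.sum_eq_single i]
    · rw [Pi.single_eq_same, Int.cast_one, one_mul]
    · intro j _ hj
      rw [Pi.single_eq_of_ne hj, Int.cast_zero, zero_mul]
    · intro hi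
      exact absurd (Finset.mem_univ i) hi

end TDC
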