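import Pool.Agent.TDC.St
import Pool.Agent.TDC.St4

set_option autoImplicit false

/-!
# TDC: forms of type `(n,q)` vanish near the points which are not over the generic point
-/

namespace TDC

open scoped Topology
open MeasureTheory AlgebraicGeometry CategoryTheory

/-! ### Algebra -/

private lemma VanA_succ {K L : Type} [Field K] [Field L] (φ : K →+* L) (n : ℕ) (f : Fin n → L)
    (h : L) (G : MvPolynomial (Fin (n + 1)) K) :
    (MvPolynomial.finSuccEquiv K n G).eval₂ (MvPolynomial.eval₂Hom φ f) h =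
      G.eval₂ φ (Fin.cons h f) := by
  have e : (Polynomial.eval₂RingHom (MvPolynomial.eval₂Hom φ f) h).comp
      ((MvPolynomial.finSuccEquiv K n : MvPolynomial (Fin (n + 1)) K ≃ₐ[K] _) :
        MvPolynomial (Fin (n + 1)) K →+* Polynomial (MvPolynomial (Fin n) K)) =
      MvPolynomial.eval₂Hom φ (Fin.cons h f : Fin (n + 1) → L) := by
    apply MvPolynomial.ringHom_ext
    · intro r
      simp [MvPolynomial.finSuccEquiv_apply]
    · intro i
      refine Fin.cases ?_ (fun j => ?_) i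
      · simp [MvPolynomial.finSuccEquiv_apply]
      · simp [MvPolynomial.finSuccEquiv_apply]
  exact congrArg (fun t => t G) e

private lemma VanA_alg {K L : Type} [Field K] [Field L] (φ : K →+* L) (n : ℕ) (f : Fin n → L)
    (h : L) (hh : h ≠ 0) (G : MvPolynomial (Fin (n + 1)) K) (hG : G ≠ 0)
    (hG0 : G.eval₂ φ (Fin.cons h f) = 0) :
    ∃ Q : Polynomial (MvPolynomial (Fin n) K), Q.coeff 0 ≠ 0 ∧
      Q.eval₂ (MvPolynomial.eval₂Hom φ f) h = 0 := by
  have h1 : MvPolynomial.finSuccEquiv K n G ≠ 0 := by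
    intro h2
    exact hG ((map_eq_zero_iff _ (MvPolynomial.finSuccEquiv K n).injective).1 h2)
  obtain ⟨Q, hQ1, hQ2⟩ := Polynomial.exists_eq_pow_rootMultiplicity_mul_and_not_dvd _ h1 0
  rw [Polynomial.C_0, sub_zero] at hQ1 hQ2
  refine ⟨Q, fun h2 => hQ2 (Polynomial.X_dvd_iff.2 h2), ?_⟩
  have h3 := VanA_succ φ n f h G
  rw [hG0, hQ1, Polynomial.eval₂_mul, Polynomial.eval₂_pow, Polynomial.eval₂_X] at h3
  exact (mul_eq_zero.1 h3).resolve_left (pow_ne_zero _ hh)

/-! ### Sections and their values -/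

section

variable {K : Type} [NormedField K] {X : Scheme.{0}} {s : X ⟶ Spec (.of K)}

private lemma VanA_res {U V : X.Opens} (hVU : V ≤ U) (ξ : X) (h : ξ ∈ V) (f : Γ(X, U)) :
    X.evaluation V ξ h (X.presheaf.map (homOfLE hVU).op f) = X.evaluation U ξ (hVU h) f := by
  have e : X.presheaf.map (homOfLE hVU).op ≫ X.evaluation V ξ h = X.evaluation U ξ (hVU h) := by
    rw [← X.germ_residue ξ h, ← X.germ_residue ξ (hVU h), ← Category.assoc,
      X.presheaf.germ_res (homOfLE hVU) ξ h]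
  exact congrArg (fun g => g.hom f) e

/-- constants as sections -/
private noncomputable def VanA_psi (s : X ⟶ Spec (.of K)) (U : X.Opens) : K →+* Γ(X, U) :=
  ((X.presheaf.map (homOfLE le_top : U ⟶ ⊤).op).hom.comp s.appTop.hom).comp
    (Scheme.ΓSpecIso (.of K)).inv.hom

private lemma VanA_psi_eval (U : X.Opens) (ξ : X) (h : ξ ∈ U) (a : K) :
    X.evaluation U ξ h (VanA_psi s U a) = kmap s ξ a :=
  VanA_res (le_top : U ≤ ⊤) ξ h _

private lemma VanA_gen [IsIntegral X] {U : X.Opens} {ξ : X} (h : ξ ∈ U) :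
    genericPoint X ∈ U := by
  show genericPoint X ∈ (U : Set X)
  rw [(genericPoint_spec X).mem_open_set_iff U.isOpen]
  exact ⟨ξ, trivial, h⟩

private lemma VanA_inj [IsIntegral X] {U : X.Opens} (hη : genericPoint X ∈ U) (f : Γ(X, U))
    (h : X.evaluation U (genericPoint X) hη f = 0) : f = 0 := by
  rw [X.evaluation_eq_zero_iff_notMem_basicOpen] at h
  rw [← AlgebraicGeometry.basicOpen_eq_bot_iff]
  by_contra hb
  apply h
  obtain ⟨ξ, hξ⟩ : ∃ ξ, ξ ∈ X.basicOpen f := by
    by_contra hc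
    apply hb
    ext ξ
    exact ⟨fun h => (hc ⟨ξ, h⟩).elim, fun h => h.elim⟩
  exact VanA_gen hξ

private lemma VanA_nhds (x : An s) (U : X.Opens) (h : x.1 ∈ U) (f : Γ(X, U)) (a b : ℝ)
    (h1 : a < absA x h f) (h2 : absA x h f < b) :
    ∀ᶠ y in 𝓝 x, ∃ h : y.1 ∈ U, a < absA y h f ∧ absA y h f < b := by
  have ho : IsOpen {y : An s | ∃ h : y.1 ∈ U, a < absA y h f ∧ absA y h f < b} :=
    TopologicalSpace.isOpen_generateFrom_of_mem ⟨U, f, a, b, rfl⟩
  exact ho.mem_nhds ⟨h, h1, h2⟩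

private lemma VanA_mem (x : An s) (U : X.Opens) (h : x.1 ∈ U) : ∀ᶠ y in 𝓝 x, y.1 ∈ U := by
  have h1 := VanA_nhds x U h 0 (absA x h 0 - 1) (absA x h 0 + 1) (by linarith) (by linarith)
  exact h1.mono fun y hy => hy.1

private lemma VanA_evP {n : ℕ} (U : X.Opens) (ξ : X) (h : ξ ∈ U) (f : Fin n → Γ(X, U))
    (P : MvPolynomial (Fin n) K) :
    X.evaluation U ξ h (P.eval₂ (VanA_psi s U) f) =
      P.eval₂ (kmap s ξ) fun i => X.evaluation U ξ h (f i) := by
  have e1 : (X.evaluation U ξ h).hom.comp (VanA_psi s U) = kmap s ξ :=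
    RingHom.ext fun a => VanA_psi_eval U ξ h a
  have e2 := MvPolynomial.eval₂_comp_left (X.evaluation U ξ h).hom (VanA_psi s U) f P
  rw [e1] at e2
  exact e2

private lemma VanA_one (h1 : St_EmbA) (h2 : St_IndG) (h3 : St_DetZ) [IsIntegral X] (n : ℕ)
    (hT : @TrLe K (X.residueField (genericPoint X)) _ _ (kmap s (genericPoint X)).toAlgebra n)
    (U : X.Opens) (F : Fin n → (Γ(X, U))ˣ) (x : An s) (hxU : x.1 ∈ U)
    (hx : x.1 ≠ genericPoint X) :
    ∀ᶠ y in 𝓝 x, ∀ h : y.1 ∈ U, ∀ δ : Fin n → Tan y.2,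
      (Matrix.of fun i j => ev (unitsAt y h F) (δ i) j).det = 0 := by
  obtain ⟨U', hx', hη', t, ht0, ht1⟩ := (h1 K X s).2.2 x.1 hx
  have hxV : x.1 ∈ U ⊓ U' := ⟨hxU, hx'⟩
  have hηV : genericPoint X ∈ U ⊓ U' := VanA_gen hxV
  let V : X.Opens := U ⊓ U'
  let f : Fin n → Γ(X, V) := fun j =>
    X.presheaf.map (homOfLE (inf_le_left : V ≤ U)).op (F j : Γ(X, U))
  let τ : Γ(X, V) := X.presheaf.map (homOfLE (inf_le_right : V ≤ U')).op t
  have hτ0 : X.evaluation V x.1 hxV τ = 0 := by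
    rw [← ht0]
    exact VanA_res inf_le_right x.1 hxV t
  have hτ1 : X.evaluation V (genericPoint X) hηV τ ≠ 0 := by
    have e : X.evaluation V (genericPoint X) hηV τ = X.evaluation U' (genericPoint X) hη' t :=
      VanA_res inf_le_right _ hηV t
    rw [e]
    exact ht1
  -- the algebraic relation
  obtain ⟨Q, hQ0, hQ⟩ : ∃ Q : Polynomial (MvPolynomial (Fin n) K), Q.coeff 0 ≠ 0 ∧
      Q.eval₂ (MvPolynomial.eval₂Hom (kmap s (genericPoint X))
        fun i => X.evaluation V (genericPoint X) hηV (f i))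
        (X.evaluation V (genericPoint X) hηV τ) = 0 := by
    have hT' := hT (Fin.cons (X.evaluation V (genericPoint X) hηV τ)
      fun i => X.evaluation V (genericPoint X) hηV (f i))
    let _ := (kmap s (genericPoint X)).toAlgebra
    rw [algebraicIndependent_iff] at hT'
    push Not at hT'
    obtain ⟨G, hG1, hG2⟩ := hT'
    exact VanA_alg (kmap s (genericPoint X)) n _ _ hτ1 G hG2 hG1
  -- the relation for sections
  have hE : Q.eval₂ (MvPolynomial.eval₂Hom (VanA_psi s V) f) τ = 0 := by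
    apply VanA_inj hηV
    have e1 := Polynomial.hom_eval₂ Q (MvPolynomial.eval₂Hom (VanA_psi s V) f)
      (X.evaluation V (genericPoint X) hηV).hom τ
    have e2 : ((X.evaluation V (genericPoint X) hηV).hom).comp
        (MvPolynomial.eval₂Hom (VanA_psi s V) f) =
        MvPolynomial.eval₂Hom (kmap s (genericPoint X))
          fun i => X.evaluation V (genericPoint X) hηV (f i) :=
      RingHom.ext fun P => VanA_evP V _ hηV f P
    rw [e2] at e1
    exact e1.trans hQ
  -- the relation at the point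
  have hPx : X.evaluation V x.1 hxV ((Q.coeff 0).eval₂ (VanA_psi s V) f) = 0 := by
    have e1 := Polynomial.hom_eval₂ Q (MvPolynomial.eval₂Hom (VanA_psi s V) f)
      (X.evaluation V x.1 hxV).hom τ
    rw [hE, map_zero] at e1
    have e3 : (X.evaluation V x.1 hxV).hom τ = 0 := hτ0
    rw [e3, Polynomial.eval₂_at_zero] at e1
    exact e1.symm
  obtain ⟨e, he⟩ := MvPolynomial.ne_zero_iff.1 hQ0
  -- the values of a monomial and of the polynomial
  have hmon : ∀ (y : An s) (hy : y.1 ∈ V),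
      absA y hy (VanA_psi s V ((Q.coeff 0).coeff e) * ∏ i, f i ^ e i) =
        ‖(Q.coeff 0).coeff e‖ * ∏ i, y.2.v (X.evaluation V y.1 hy (f i)) ^ e i := by
    intro y hy
    show y.2.v ((X.evaluation V y.1 hy).hom _) = _
    rw [map_mul, map_mul, map_prod, map_prod]
    have e1 : (X.evaluation V y.1 hy).hom (VanA_psi s V ((Q.coeff 0).coeff e)) =
        kmap s y.1 ((Q.coeff 0).coeff e) := VanA_psi_eval V y.1 hy _
    rw [e1, y.2.ext]
    congr 1
    refine Finset.prod_congr rfl fun i _ => ?_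
    rw [map_pow, map_pow]
  have hfu : ∀ (y : An s) (hy : y.1 ∈ V) (hyU : y.1 ∈ U) (i : Fin n),
      X.evaluation V y.1 hy (f i) = (unitsAt y hyU F i : X.residueField y.1) := by
    intro y hy hyU i
    exact VanA_res inf_le_left y.1 hy (F i : Γ(X, U))
  have hpos : 0 < absA x hxV (VanA_psi s V ((Q.coeff 0).coeff e) * ∏ i, f i ^ e i) := by
    rw [hmon]
    refine mul_pos (norm_pos_iff.2 he) (Finset.prod_pos fun i _ => pow_pos ?_ _)
    rw [hfu x hxV hxU i]
    exact x.2.v.pos (Units.ne_zero _)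
  have hzero : absA x hxV ((Q.coeff 0).eval₂ (VanA_psi s V) f) = 0 := by
    show x.2.v (X.evaluation V x.1 hxV _) = 0
    rw [hPx, map_zero]
  set c := absA x hxV (VanA_psi s V ((Q.coeff 0).coeff e) * ∏ i, f i ^ e i) with hc
  have n1 := VanA_nhds x V hxV (VanA_psi s V ((Q.coeff 0).coeff e) * ∏ i, f i ^ e i) (c / 2)
    (c + 1) (by rw [← hc]; linarith) (by rw [← hc]; linarith)
  have n2 := VanA_nhds x V hxV ((Q.coeff 0).eval₂ (VanA_psi s V) f) (-1) (c / 2)
    (by rw [hzero]; linarith) (by rw [hzero]; linarith)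
  filter_upwards [n1, n2] with y hy1 hy2 hyU
  obtain ⟨hyV, hy1, _⟩ := hy1
  obtain ⟨_, _, hy2⟩ := hy2
  apply h3
  intro hI
  have hG := h2 K (X.residueField y.1) (kmap s y.1) n y.2 (unitsAt y hyU F) hI (Q.coeff 0) e
  have e1 : y.2.v ((Q.coeff 0).eval₂ (kmap s y.1)
      (fun i => (unitsAt y hyU F i : X.residueField y.1))) =
      absA y hyV ((Q.coeff 0).eval₂ (VanA_psi s V) f) := by
    show _ = y.2.v (X.evaluation V y.1 hyV _)
    rw [VanA_evP]
    congr 2
    funext i
    exact (hfu y hyV hyU i).symm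
  have e2 : ‖(Q.coeff 0).coeff e‖ * ∏ i, y.2.v (unitsAt y hyU F i : X.residueField y.1) ^ e i =
      absA y hyV (VanA_psi s V ((Q.coeff 0).coeff e) * ∏ i, f i ^ e i) := by
    rw [hmon]
    congr 1
    refine Finset.prod_congr rfl fun i _ => ?_
    rw [hfu y hyV hyU i]
  rw [e1, e2] at hG
  exact absurd (lt_of_lt_of_le hy1 (le_trans hG hy2.le)) (lt_irrefl _)

end

theorem thm_VanA (h1 : St_EmbA) (h2 : St_IndG) (h3 : St_DetZ) : St_VanA := by
  intro K _ X _ s n hT q R U F α x hxU hx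
  have h4 : ∀ᶠ y in 𝓝 x, ∀ I : Fin n → Fin R, ∀ h : y.1 ∈ U, ∀ δ : Fin n → Tan y.2,
      (Matrix.of fun i j => ev (unitsAt y h fun k => F (I k)) (δ i) j).det = 0 := by
    rw [Filter.eventually_all]
    intro I
    exact VanA_one h1 h2 h3 n hT U (fun k => F (I k)) x hxU hx
  filter_upwards [h4, VanA_mem x U hxU] with y hy hyU
  refine ⟨hyU, ?_⟩
  funext δ ε
  show ∑ I : Fin n → Fin R, (Matrix.of fun i j => ev (unitsAt y hyU F) (δ i) (I j)).det *
      α I (logv y.2 (unitsAt y hyU F)) (fun i => ev (unitsAt y hyU F) (ε i)) = 0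
  refine Finset.sum_eq_zero fun I _ => ?_
  have h5 : (Matrix.of fun i j => ev (unitsAt y hyU F) (δ i) (I j)).det = 0 := hy I hyU δ
  rw [h5, zero_mul]

end TDC
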