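import Pool.Agent.TDC.StT

/-!
# TDC: module Wal (Stokes for the multi-sheet)

Instead of cut-offs near the walls the coefficients are mollified: with a bump function `φ` of
scale `ε` the integral is, up to `O(ε)`, equal to `ε⁻¹ ∫ F_ε`, where `F_ε(s)` is zero if no wall
meets the ball `B(s, ε)`, `O(ε)` if only one wall meets it (by the matching condition), and
bounded else. The set of points near one wall has volume `O(ε)`, that of points near two
different walls has volume `O(ε²)`.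
-/

set_option autoImplicit false

namespace TDC

open scoped Topology
open MeasureTheory Filter

section analysis

variable {E : Type} [NormedAddCommGroup E] [NormedSpace ℝ E] [FiniteDimensional ℝ E]
  [MeasurableSpace E] [BorelSpace E] (μ : Measure E) [μ.IsAddHaarMeasure]

/-- integration by parts and translation -/
private theorem Wal_A {c g φ : E → ℝ} {B : ℝ} (hc : Measurable c) (hB : ∀ s, |c s| ≤ B)
    (hg : ContDiff ℝ 2 g) (hgc : HasCompactSupport g) (hφ : ContDiff ℝ 2 φ)
    (hφc : HasCompactSupport φ) (v : E) {ε : ℝ} (hε : 0 < ε) :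
    Integrable (fun s => g s * ∫ y, fderiv ℝ φ y v * c (s + ε • y) ∂μ) μ ∧
    Integrable (fun s => c s * ∫ y, φ y * fderiv ℝ g (s - ε • y) v ∂μ) μ ∧
    ∫ s, c s * (∫ y, φ y * fderiv ℝ g (s - ε • y) v ∂μ) ∂μ =
      ε⁻¹ * ∫ s, g s * (∫ y, fderiv ℝ φ y v * c (s + ε • y) ∂μ) ∂μ := by
  have hgd : Differentiable ℝ g := hg.differentiable (by norm_num)
  have hφd : Differentiable ℝ φ := hφ.differentiable (by norm_num)
  have hDg : Continuous fun x => fderiv ℝ g x v :=
    (hg.continuous_fderiv (by norm_num)).clm_apply continuous_const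
  have hDφ : Continuous fun x => fderiv ℝ φ x v :=
    (hφ.continuous_fderiv (by norm_num)).clm_apply continuous_const
  have hDφc : ∀ y, y ∉ tsupport φ → fderiv ℝ φ y v = 0 := fun y hy => by
    have h1 : fderiv ℝ φ y = 0 :=
      image_eq_zero_of_notMem_tsupport (fun h => hy (tsupport_fderiv_subset ℝ h))
    rw [h1]; rfl
  have hDφcs : HasCompactSupport fun x => fderiv ℝ φ x v := hφc.fderiv_apply ℝ v
  -- step 1: integration by parts in `y`
  have h1 : ∀ s : E, ∫ y, φ y * fderiv ℝ g (s - ε • y) v ∂μ =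
      ε⁻¹ * ∫ y, fderiv ℝ φ y v * g (s - ε • y) ∂μ := by
    intro s
    have hG : Differentiable ℝ fun y => g (s - ε • y) :=
      hgd.comp ((differentiable_const s).sub (differentiable_id.const_smul ε))
    have hGf : ∀ y, fderiv ℝ (fun y => g (s - ε • y)) y v = - (ε * fderiv ℝ g (s - ε • y) v) := by
      intro y
      have h2 : HasFDerivAt (fun y : E => s - ε • y) (-(ε • ContinuousLinearMap.id ℝ E)) y := by
        exact ((hasFDerivAt_id y).const_smul ε).const_sub s
      have h3 := (hgd (s - ε • y)).hasFDerivAt.comp y h2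
      have h4 : fderiv ℝ (fun y => g (s - ε • y)) y = _ := h3.fderiv
      rw [h4]
      simp
    have hcs : Continuous fun y : E => s - ε • y := by fun_prop
    have h5 := integral_mul_fderiv_eq_neg_fderiv_mul_of_integrable (μ := μ) (f := φ)
      (g := fun y => g (s - ε • y)) (v := v) ?_ ?_ ?_ (fun x _ => hφd x) (fun x _ => hG x)
    · simp only [hGf] at h5
      have h6 : ∫ y, φ y * -(ε * fderiv ℝ g (s - ε • y) v) ∂μ =
          - (ε * ∫ y, φ y * fderiv ℝ g (s - ε • y) v ∂μ) := by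
        rw [← integral_const_mul, ← integral_neg]
        refine integral_congr_ae (Eventually.of_forall fun y => ?_)
        simp only; ring
      rw [h6, neg_inj] at h5
      rw [← h5, ← mul_assoc, inv_mul_cancel₀ hε.ne', one_mul]
    · refine Continuous.integrable_of_hasCompactSupport ?_ hDφcs.mul_right
      exact hDφ.mul (hg.continuous.comp hcs)
    · refine Continuous.integrable_of_hasCompactSupport ?_ hφc.mul_right
      refine hφ.continuous.mul ?_
      simp only [hGf]
      exact (continuous_const.mul (hDg.comp hcs)).neg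
    · refine Continuous.integrable_of_hasCompactSupport ?_ hφc.mul_right
      exact hφ.continuous.mul (hg.continuous.comp hcs)
  -- the two product functions
  have hK : IsCompact ((fun p : E × E => (p.1 + ε • p.2, p.2)) '' (tsupport g ×ˢ tsupport φ)) :=
    (hgc.prod hφc).image (by fun_prop)
  have hF0 : Integrable (fun p : E × E => fderiv ℝ φ p.2 v * g (p.1 - ε • p.2)) (μ.prod μ) := by
    refine Continuous.integrable_of_hasCompactSupport ?_ (HasCompactSupport.intro hK ?_)
    · exact (hDφ.comp continuous_snd).mul (hg.continuous.comp (by fun_prop))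
    · rintro ⟨s, y⟩ hp
      by_cases hy : y ∈ tsupport φ
      · by_cases hs : s - ε • y ∈ tsupport g
        · exact absurd ⟨(s - ε • y, y), ⟨hs, hy⟩, by simp⟩ hp
        · simp [image_eq_zero_of_notMem_tsupport hs]
      · simp [hDφc y hy]
  have hF0' : Integrable (fun p : E × E => φ p.2 * fderiv ℝ g (p.1 - ε • p.2) v) (μ.prod μ) := by
    refine Continuous.integrable_of_hasCompactSupport ?_ (HasCompactSupport.intro hK ?_)
    · exact (hφ.continuous.comp continuous_snd).mul (hDg.comp (by fun_prop))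
    · rintro ⟨s, y⟩ hp
      by_cases hy : y ∈ tsupport φ
      · by_cases hs : s - ε • y ∈ tsupport g
        · exact absurd ⟨(s - ε • y, y), ⟨hs, hy⟩, by simp⟩ hp
        · have h2 : fderiv ℝ g (s - ε • y) = 0 :=
            image_eq_zero_of_notMem_tsupport (fun h => hs (tsupport_fderiv_subset ℝ h))
          simp [h2]
      · simp [image_eq_zero_of_notMem_tsupport hy]
  have hF1 : Integrable (fun p : E × E => c p.1 * (fderiv ℝ φ p.2 v * g (p.1 - ε • p.2)))
      (μ.prod μ) := by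
    refine hF0.bdd_mul (c := B) (hc.comp measurable_fst).aestronglyMeasurable ?_
    exact Eventually.of_forall fun p => hB _
  have hF1' : Integrable (fun p : E × E => c p.1 * (φ p.2 * fderiv ℝ g (p.1 - ε • p.2) v))
      (μ.prod μ) := by
    refine hF0'.bdd_mul (c := B) (hc.comp measurable_fst).aestronglyMeasurable ?_
    exact Eventually.of_forall fun p => hB _
  have hF2 : Integrable (fun p : E × E => c (p.1 + ε • p.2) * (g p.1 * fderiv ℝ φ p.2 v))
      (μ.prod μ) := by
    have h2 : Integrable (fun p : E × E => g p.1 * fderiv ℝ φ p.2 v) (μ.prod μ) :=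
      (hg.continuous.integrable_of_hasCompactSupport hgc).mul_prod
        (hDφ.integrable_of_hasCompactSupport hDφcs)
    refine h2.bdd_mul (c := B) ?_ (Eventually.of_forall fun p => hB _)
    refine (hc.comp ?_).aestronglyMeasurable
    exact (measurable_fst.add (measurable_snd.const_smul ε))
  refine ⟨?_, ?_, ?_⟩
  · refine hF2.integral_prod_left.congr (Eventually.of_forall fun s => ?_)
    simp only
    rw [← integral_const_mul]
    refine integral_congr_ae (Eventually.of_forall fun y => ?_)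
    simp only; ring
  · refine hF1'.integral_prod_left.congr (Eventually.of_forall fun s => ?_)
    simp only
    rw [← integral_const_mul]
  · simp only [h1]
    have h2 : ∀ s : E, c s * (ε⁻¹ * ∫ y, fderiv ℝ φ y v * g (s - ε • y) ∂μ) =
        ε⁻¹ * ∫ y, c s * (fderiv ℝ φ y v * g (s - ε • y)) ∂μ := fun s => by
      rw [integral_const_mul]; ring
    simp only [h2]
    rw [integral_const_mul]
    congr 1
    rw [integral_integral_swap (f := fun s y => c s * (fderiv ℝ φ y v * g (s - ε • y))) hF1]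
    have h3 : ∀ y : E, ∫ s, c s * (fderiv ℝ φ y v * g (s - ε • y)) ∂μ =
        ∫ s, c (s + ε • y) * (g s * fderiv ℝ φ y v) ∂μ := fun y => by
      rw [← integral_add_right_eq_self (fun s => c s * (fderiv ℝ φ y v * g (s - ε • y))) (ε • y)]
      refine integral_congr_ae (Eventually.of_forall fun s => ?_)
      simp only [add_sub_cancel_right]; ring
    simp only [h3]
    rw [← integral_integral_swap (f := fun s y => c (s + ε • y) * (g s * fderiv ℝ φ y v)) hF2]
    refine integral_congr_ae (Eventually.of_forall fun s => ?_)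
    simp only
    rw [← integral_const_mul]
    refine integral_congr_ae (Eventually.of_forall fun y => ?_)
    simp only; ring

/-- the approximation -/
private theorem Wal_B {c g φ : E → ℝ} {B : ℝ} (hc : Measurable c) (hB : ∀ s, |c s| ≤ B)
    (hg : ContDiff ℝ 2 g) (hgc : HasCompactSupport g) (hφ : ContDiff ℝ 2 φ)
    (hφc : HasCompactSupport φ) (hφs : tsupport φ ⊆ Metric.closedBall 0 1)
    (hφ1 : ∫ y, φ y ∂μ = 1) (v : E) :
    ∃ C : ℝ, ∀ ε : ℝ, 0 < ε → ε ≤ 1 →
      |∫ s, c s * fderiv ℝ g s v ∂μ -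
        ∫ s, c s * (∫ y, φ y * fderiv ℝ g (s - ε • y) v ∂μ) ∂μ| ≤ C * ε := by
  have hDg : Continuous fun x => fderiv ℝ g x v :=
    (hg.continuous_fderiv (by norm_num)).clm_apply continuous_const
  have hDgs : ContDiff ℝ 1 fun x => fderiv ℝ g x v :=
    (hg.fderiv_right (m := 1) (by norm_num)).clm_apply contDiff_const
  have hDgc : HasCompactSupport fun x => fderiv ℝ g x v := hgc.fderiv_apply ℝ v
  obtain ⟨L, hL⟩ := ContDiff.lipschitzWith_of_hasCompactSupport hDgc hDgs (by norm_num)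
  obtain ⟨R, hR⟩ := hDgc.isCompact.isBounded.subset_closedBall (0 : E)
  have hφi : Integrable φ μ := hφ.continuous.integrable_of_hasCompactSupport hφc
  set A : ℝ := ∫ y, |φ y| ∂μ with hA
  have hB0 : 0 ≤ B := (abs_nonneg _).trans (hB 0)
  have hA0 : 0 ≤ A := integral_nonneg fun y => abs_nonneg _
  refine ⟨B * (L * A) * μ.real (Metric.closedBall (0 : E) (R + 1)), fun ε hε hε1 => ?_⟩
  have hi1 : Integrable (fun s => c s * fderiv ℝ g s v) μ :=
    (hDg.integrable_of_hasCompactSupport hDgc).bdd_mul (c := B) hc.aestronglyMeasurable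
      (Eventually.of_forall fun p => hB _)
  have hi2 := (Wal_A μ hc hB hg hgc hφ hφc v hε).2.1
  rw [← integral_sub hi1 hi2]
  have hcs : ∀ s : E, Continuous fun y : E => s - ε • y := fun s => by fun_prop
  -- pointwise bound
  have hb : ∀ s, ‖c s * fderiv ℝ g s v - c s * ∫ y, φ y * fderiv ℝ g (s - ε • y) v ∂μ‖ ≤
      (Metric.closedBall (0 : E) (R + 1)).indicator (fun _ => B * (L * A) * ε) s := by
    intro s
    have hzero : ∀ y, y ∉ Metric.closedBall (0 : E) 1 → φ y = 0 := fun y hy =>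
      image_eq_zero_of_notMem_tsupport fun h => hy (hφs h)
    by_cases hs : s ∈ Metric.closedBall (0 : E) (R + 1)
    · rw [Set.indicator_of_mem hs, ← mul_sub, norm_mul, Real.norm_eq_abs, Real.norm_eq_abs]
      have h1 : fderiv ℝ g s v - ∫ y, φ y * fderiv ℝ g (s - ε • y) v ∂μ =
          ∫ y, φ y * (fderiv ℝ g s v - fderiv ℝ g (s - ε • y) v) ∂μ := by
        have h2 : fderiv ℝ g s v = ∫ y, φ y * fderiv ℝ g s v ∂μ := by
          rw [integral_mul_const, hφ1, one_mul]
        conv_lhs => rw [h2]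
        rw [← integral_sub]
        · refine integral_congr_ae (Eventually.of_forall fun y => ?_)
          simp only; ring
        · exact hφi.mul_const _
        · exact (hφ.continuous.mul (hDg.comp (hcs s))).integrable_of_hasCompactSupport
            hφc.mul_right
      have h3 : |fderiv ℝ g s v - ∫ y, φ y * fderiv ℝ g (s - ε • y) v ∂μ| ≤ L * A * ε := by
        rw [h1, ← Real.norm_eq_abs]
        have h4 : ∀ y, ‖φ y * (fderiv ℝ g s v - fderiv ℝ g (s - ε • y) v)‖ ≤
            L * ε * |φ y| := by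
          intro y
          rw [norm_mul, Real.norm_eq_abs, mul_comm]
          by_cases hy : y ∈ Metric.closedBall (0 : E) 1
          · refine mul_le_mul_of_nonneg_right ?_ (abs_nonneg _)
            have h5 := hL.dist_le_mul s (s - ε • y)
            rw [dist_eq_norm, dist_eq_norm, sub_sub_cancel, norm_smul,
              Real.norm_of_nonneg hε.le] at h5
            refine h5.trans ?_
            have h6 : ‖y‖ ≤ 1 := by simpa using hy
            have h7 : ε * ‖y‖ ≤ ε := by nlinarith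
            exact mul_le_mul_of_nonneg_left h7 L.2
          · rw [hzero y hy]; simp
        refine (norm_integral_le_of_norm_le (hφi.abs.const_mul (L * ε))
          (Eventually.of_forall h4)).trans ?_
        rw [integral_const_mul, ← hA]
        linarith [mul_comm (L * ε) A, mul_comm ((L : ℝ) * A) ε,
          show (L : ℝ) * ε * A = L * A * ε by ring]
      calc |c s| * |fderiv ℝ g s v - ∫ y, φ y * fderiv ℝ g (s - ε • y) v ∂μ|
          ≤ B * (L * A * ε) := mul_le_mul (hB s) h3 (abs_nonneg _) hB0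
        _ = B * (L * A) * ε := by ring
    · have hs' : R + 1 < ‖s‖ := by simpa using hs
      have hg0 : ∀ x : E, R < ‖x‖ → fderiv ℝ g x v = 0 := fun x hx => by
        by_contra h
        have h2 := hR (subset_tsupport _ h)
        simp only [Metric.mem_closedBall, dist_zero_right] at h2
        linarith
      have h2 : fderiv ℝ g s v = 0 := hg0 s (by linarith)
      have h3 : ∫ y, φ y * fderiv ℝ g (s - ε • y) v ∂μ = 0 := by
        refine integral_eq_zero_of_ae (Eventually.of_forall fun y => ?_)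
        simp only [Pi.zero_apply]
        by_cases hy : y ∈ Metric.closedBall (0 : E) 1
        · have h6 : ‖y‖ ≤ 1 := by simpa using hy
          rw [hg0 (s - ε • y), mul_zero]
          have h7 : ‖s‖ ≤ ‖s - ε • y‖ + ‖ε • y‖ := by
            simpa using norm_add_le (s - ε • y) (ε • y)
          have h8 : ‖ε • y‖ ≤ 1 := by
            rw [norm_smul, Real.norm_eq_abs, abs_of_pos hε]
            nlinarith [norm_nonneg y]
          linarith
        · rw [hzero y hy, zero_mul]
      rw [h2, h3, Set.indicator_of_notMem hs]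
      simp
  have hfin : μ (Metric.closedBall (0 : E) (R + 1)) < ⊤ :=
    (isCompact_closedBall _ _).measure_lt_top
  rw [← Real.norm_eq_abs]
  refine (norm_integral_le_of_norm_le ?_ (Eventually.of_forall hb)).trans ?_
  · exact (integrable_indicator_iff Metric.isClosed_closedBall.measurableSet).2
      (integrableOn_const hfin.ne)
  · rw [integral_indicator Metric.isClosed_closedBall.measurableSet, setIntegral_const,
      smul_eq_mul]
    linarith [show μ.real (Metric.closedBall (0 : E) (R + 1)) * (B * (L * A) * ε) =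
      B * (L * A) * μ.real (Metric.closedBall (0 : E) (R + 1)) * ε by ring]

end analysis

section volume

variable {E : Type} [NormedAddCommGroup E] [NormedSpace ℝ E] [FiniteDimensional ℝ E]
  [MeasurableSpace E] [BorelSpace E] (μ : Measure E) [μ.IsAddHaarMeasure]

/-- volume of the intersection of `d` independent slabs with a compact set -/
private theorem Wal_V {d : ℕ} (ν : Fin d → (E →L[ℝ] ℝ)) (v : Fin d → E)
    (hv : ∀ i j, ν i (v j) = if i = j then 1 else 0) (b : Fin d → ℝ) {C : Set E}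
    (hC : IsCompact C) : ∃ K : ℝ, 0 ≤ K ∧ ∀ t : ℝ, 0 < t →
      μ.real {s | s ∈ C ∧ ∀ i, |ν i s + b i| ≤ t} ≤ K * t ^ d := by
  obtain ⟨R, hR⟩ := hC.isBounded.subset_closedBall (0 : E)
  set T : (Fin d → ℝ) → E := fun τ => ∑ j, τ j • v j with hT
  have hTc : Continuous T := by
    rw [hT]; fun_prop
  set A : ℝ := ∑ j, ‖v j‖ with hA
  set D : Set (Fin d → ℝ) := Set.Icc 0 1 with hD
  have hTA : ∀ τ ∈ D, ‖T τ‖ ≤ A := by
    intro τ hτ
    refine (norm_sum_le _ _).trans (Finset.sum_le_sum fun j _ => ?_)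
    rw [norm_smul]
    have h1 := hτ.1 j
    have h2 := hτ.2 j
    simp only [Pi.zero_apply, Pi.one_apply] at h1 h2
    rw [Real.norm_of_nonneg h1]
    nlinarith [norm_nonneg (v j)]
  have hνT : ∀ i τ, ν i (T τ) = τ i := by
    intro i τ
    simp only [hT, map_sum, map_smul, hv, smul_eq_mul, mul_ite, mul_one, mul_zero]
    simp
  have hDm : volume D = 1 := by
    rw [hD, Real.volume_Icc_pi]; simp
  set C' : Set E := Metric.closedBall 0 (R + A) with hC'
  have hfin : μ C' < ⊤ := (isCompact_closedBall _ _).measure_lt_top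
  refine ⟨2 ^ d * μ.real C', by positivity, fun t ht => ?_⟩
  set S : Set E := {s | s ∈ C ∧ ∀ i, |ν i s + b i| ≤ t} with hS
  have hScl : IsClosed S := by
    have h1 : S = C ∩ ⋂ i, {s | |ν i s + b i| ≤ t} := by
      ext s; simp [hS]
    rw [h1]
    refine hC.isClosed.inter (isClosed_iInter fun i => ?_)
    exact isClosed_le (by fun_prop) continuous_const
  set P : Set (E × (Fin d → ℝ)) := {p | p.2 ∈ D ∧ p.1 - T p.2 ∈ S} with hP
  have hPcl : IsClosed P :=
    (isClosed_Icc.preimage continuous_snd).inter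
      (hScl.preimage (continuous_fst.sub (hTc.comp continuous_snd)))
  have h1 : (μ.prod volume) P = μ S := by
    rw [Measure.prod_apply_symm hPcl.measurableSet]
    have h2 : ∀ τ : Fin d → ℝ, μ ((fun s => (s, τ)) ⁻¹' P) = D.indicator (fun _ => μ S) τ := by
      intro τ
      by_cases hτ : τ ∈ D
      · rw [Set.indicator_of_mem hτ]
        have h3 : (fun s => (s, τ)) ⁻¹' P = (fun s => s + (- T τ)) ⁻¹' S := by
          ext s
          simp [hP, hτ, sub_eq_add_neg]
        rw [h3, measure_preimage_add_right]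
      · rw [Set.indicator_of_notMem hτ]
        have h3 : (fun s => (s, τ)) ⁻¹' P = ∅ := by
          ext s
          simp [hP, hτ]
        rw [h3, measure_empty]
    simp only [h2]
    rw [lintegral_indicator isClosed_Icc.measurableSet, setLIntegral_const, hDm, mul_one]
  have h2 : (μ.prod volume) P ≤ ENNReal.ofReal (2 * t) ^ d * μ C' := by
    rw [Measure.prod_apply hPcl.measurableSet]
    have h3 : ∀ s : E, volume (Prod.mk s ⁻¹' P) ≤
        C'.indicator (fun _ => ENNReal.ofReal (2 * t) ^ d) s := by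
      intro s
      by_cases hs : s ∈ C'
      · rw [Set.indicator_of_mem hs]
        have h4 : Prod.mk s ⁻¹' P ⊆
            Set.Icc (fun i => ν i s + b i - t) (fun i => ν i s + b i + t) := by
          intro τ hτ
          have h5 := hτ.2.2
          constructor
          · intro i
            have h6 := h5 i
            simp only [map_sub, hνT, abs_le] at h6
            simp only
            linarith [h6.1]
          · intro i
            have h6 := h5 i
            simp only [map_sub, hνT, abs_le] at h6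
            simp only
            linarith [h6.2]
        refine (measure_mono h4).trans ?_
        rw [Real.volume_Icc_pi]
        have h5 : ∀ i : Fin d, ENNReal.ofReal (ν i s + b i + t - (ν i s + b i - t)) =
            ENNReal.ofReal (2 * t) := fun i => by congr 1; ring
        simp only [h5, Finset.prod_const, Finset.card_univ, Fintype.card_fin]
        exact le_rfl
      · rw [Set.indicator_of_notMem hs]
        have h4 : Prod.mk s ⁻¹' P = ∅ := by
          ext τ
          simp only [Set.mem_preimage, Set.mem_empty_iff_false, iff_false]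
          intro hτ
          apply hs
          have h5 := hR hτ.2.1
          have h6 := hTA τ hτ.1
          simp only [Metric.mem_closedBall, dist_zero_right] at h5
          simp only [hC', Metric.mem_closedBall, dist_zero_right]
          calc ‖s‖ = ‖(s - T τ) + T τ‖ := by rw [sub_add_cancel]
            _ ≤ ‖s - T τ‖ + ‖T τ‖ := norm_add_le _ _
            _ ≤ R + A := add_le_add h5 h6
        rw [h4, measure_empty]
    refine (lintegral_mono h3).trans ?_
    rw [lintegral_indicator Metric.isClosed_closedBall.measurableSet, setLIntegral_const]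
  rw [h1] at h2
  have h3 : μ.real S ≤ (ENNReal.ofReal (2 * t) ^ d * μ C').toReal := by
    refine ENNReal.toReal_mono ?_ h2
    exact ENNReal.mul_ne_top (ENNReal.pow_ne_top ENNReal.ofReal_ne_top) hfin.ne
  refine h3.trans (le_of_eq ?_)
  rw [ENNReal.toReal_mul, ENNReal.toReal_pow, ENNReal.toReal_ofReal (by positivity)]
  simp only [Measure.real]
  ring

/-- one slab -/
private theorem Wal_V1 (ν : E →L[ℝ] ℝ) (hν : ν ≠ 0) (b : ℝ) {C : Set E} (hC : IsCompact C) :
    ∃ K : ℝ, 0 ≤ K ∧ ∀ t : ℝ, 0 < t → μ.real {s | s ∈ C ∧ |ν s + b| ≤ t} ≤ K * t := by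
  obtain ⟨u, hu⟩ : ∃ u, ν u ≠ 0 := by
    by_contra h
    push Not at h
    exact hν (ContinuousLinearMap.ext h)
  obtain ⟨K, hK, h⟩ := Wal_V μ (d := 1) (fun _ => ν) (fun _ => (ν u)⁻¹ • u)
    (by
      intro i j
      rw [Subsingleton.elim i j]
      simp [hu]) (fun _ => b) hC
  refine ⟨K, hK, fun t ht => ?_⟩
  have h1 := h t ht
  simpa using h1

/-- two slabs which do not come from the same hyperplane -/
private theorem Wal_V2 (ν ν' : E →L[ℝ] ℝ) (hν : ν ≠ 0) (hν' : ν' ≠ 0) (b b' : ℝ)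
    (hne : ¬ ∀ z, ν z + b = 0 ↔ ν' z + b' = 0) {C : Set E} (hC : IsCompact C) :
    ∃ K : ℝ, 0 ≤ K ∧ ∀ t : ℝ, 0 < t →
      μ.real {s | s ∈ C ∧ |ν s + b| ≤ t ∧ |ν' s + b'| ≤ t} ≤ K * t ^ 2 := by
  obtain ⟨u', hu'⟩ : ∃ u, ν' u ≠ 0 := by
    by_contra h
    push Not at h
    exact hν' (ContinuousLinearMap.ext h)
  by_cases hk : ∀ x, ν' x = 0 → ν x = 0
  · -- parallel hyperplanes
    set r : ℝ := ν u' / ν' u' with hr
    have h1 : ∀ x, ν x = r * ν' x := by
      intro x
      have h2 := hk (x - (ν' x / ν' u') • u') (by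
        rw [map_sub, map_smul, smul_eq_mul]; field_simp; ring)
      rw [map_sub, map_smul, smul_eq_mul] at h2
      rw [hr]
      linear_combination h2 + (ν' x * ν u') * (div_eq_mul_inv 1 (ν' u')) * 0
    have hr0 : r ≠ 0 := by
      intro h0
      exact hν (ContinuousLinearMap.ext fun x => by rw [h1, h0, zero_mul]; rfl)
    have hd : b - r * b' ≠ 0 := by
      intro h0
      apply hne
      intro z
      have h3 : ν z + b = r * (ν' z + b') := by rw [h1]; linarith
      rw [h3, mul_eq_zero]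
      simp [hr0]
    set t₀ : ℝ := |b - r * b'| / (1 + |r|) with ht₀
    have ht₀p : 0 < t₀ := div_pos (abs_pos.2 hd) (by positivity)
    refine ⟨μ.real C / t₀ ^ 2, by positivity, fun t ht => ?_⟩
    rcases lt_or_ge t t₀ with h | h
    · have h2 : {s | s ∈ C ∧ |ν s + b| ≤ t ∧ |ν' s + b'| ≤ t} = ∅ := by
        ext s
        simp only [Set.mem_ofPred_eq, Set.mem_empty_iff_false, iff_false]
        rintro ⟨-, h3, h4⟩
        have h5 : b - r * b' = (ν s + b) - r * (ν' s + b') := by rw [h1]; ring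
        have h6 : |b - r * b'| ≤ t + |r| * t := by
          rw [h5]
          refine (abs_sub _ _).trans ?_
          rw [abs_mul]
          exact add_le_add h3 (mul_le_mul_of_nonneg_left h4 (abs_nonneg _))
        have h7 : t₀ ≤ t := by
          rw [ht₀, div_le_iff₀ (by positivity)]
          linarith
        linarith
      rw [h2]
      simp only [measureReal_empty]
      positivity
    · have h2 : μ.real {s | s ∈ C ∧ |ν s + b| ≤ t ∧ |ν' s + b'| ≤ t} ≤ μ.real C :=
        measureReal_mono (fun s hs => hs.1) hC.measure_lt_top.ne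
      refine h2.trans ?_
      have h3 : (1 : ℝ) ≤ t ^ 2 / t₀ ^ 2 := by
        rw [le_div_iff₀ (by positivity)]
        nlinarith
      calc μ.real C = μ.real C * 1 := by ring
        _ ≤ μ.real C * (t ^ 2 / t₀ ^ 2) := mul_le_mul_of_nonneg_left h3 measureReal_nonneg
        _ = μ.real C / t₀ ^ 2 * t ^ 2 := by ring
  · -- transversal hyperplanes
    push Not at hk
    obtain ⟨x, hx1, hx2⟩ := hk
    -- `x ∈ ker ν'`, `ν x ≠ 0`
    set y : E := u' - (ν u' / ν x) • x with hy
    have hy1 : ν y = 0 := by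
      rw [hy, map_sub, map_smul, smul_eq_mul]; field_simp; ring
    have hy2 : ν' y = ν' u' := by
      rw [hy, map_sub, map_smul, hx1]; simp
    obtain ⟨K, hK, h⟩ := Wal_V μ (d := 2) ![ν, ν'] ![(ν x)⁻¹ • x, (ν' u')⁻¹ • y]
      (by
        intro i j
        fin_cases i <;> fin_cases j <;> simp [hx1, hx2, hy1, hy2, hu']) ![b, b'] hC
    refine ⟨K, hK, fun t ht => ?_⟩
    have h1 := h t ht
    simpa [Fin.forall_fin_two] using h1

end volume

section pointwise

variable {E : Type} [NormedAddCommGroup E] [NormedSpace ℝ E]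

private theorem Wal_const {U : Set E} (hU : Convex ℝ U) {f : E → ℝ}
    (h : ∀ x ∈ U, ∀ᶠ y in 𝓝 x, f y = f x) : ∀ x ∈ U, ∀ y ∈ U, f x = f y := by
  intro x hx y hy
  have : PreconnectedSpace U := Subtype.preconnectedSpace hU.isPreconnected
  have hl : IsLocallyConstant fun z : U => f z := by
    rw [IsLocallyConstant.iff_eventually_eq]
    intro z
    exact (continuous_subtype_val.tendsto z).eventually (h z z.2)
  exact hl.apply_eq_of_preconnectedSpace ⟨x, hx⟩ ⟨y, hy⟩

variable [FiniteDimensional ℝ E] [MeasurableSpace E] [BorelSpace E] (μ : Measure E)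
  [μ.IsAddHaarMeasure]

private theorem Wal_null (ν : E →L[ℝ] ℝ) (hν : ν ≠ 0) (r : ℝ) : μ {y | ν y + r = 0} = 0 := by
  by_cases h : ∃ y₀, ν y₀ + r = 0
  · obtain ⟨y₀, hy₀⟩ := h
    have h1 : {y | ν y + r = 0} =
        (fun y => y + (-y₀)) ⁻¹' ((LinearMap.ker (ν : E →ₗ[ℝ] ℝ) : Submodule ℝ E) : Set E) := by
      ext y
      simp only [Set.mem_preimage, SetLike.mem_coe, LinearMap.mem_ker,
        ContinuousLinearMap.coe_coe, map_add, map_neg]
      constructor
      · intro h2
        have h3 : ν y + r = 0 := h2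
        linarith
      · intro h2
        show ν y + r = 0
        linarith
    rw [h1, measure_preimage_add_right]
    refine Measure.addHaar_submodule μ _ ?_
    intro h2
    apply hν
    ext x
    have h3 : x ∈ LinearMap.ker (ν : E →ₗ[ℝ] ℝ) := by rw [h2]; trivial
    simpa using h3
  · push Not at h
    have h1 : {y | ν y + r = 0} = ∅ := by
      ext y; simp [h y]
    rw [h1, measure_empty]

/-- integration by parts against a function which is constant in the direction `v` -/
private theorem Wal_ibp {φ G : E → ℝ} (hφ : ContDiff ℝ 2 φ) (hφc : HasCompactSupport φ)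
    (v : E) {B : ℝ} (hG : Measurable G) (hGB : ∀ y, |G y| ≤ B)
    (hGv : ∀ (y : E) (t : ℝ), G (y + t • v) = G y) : ∫ y, fderiv ℝ φ y v * G y ∂μ = 0 := by
  have hφd : Differentiable ℝ φ := hφ.differentiable (by norm_num)
  have hDφ : Continuous fun x => fderiv ℝ φ x v :=
    (hφ.continuous_fderiv (by norm_num)).clm_apply continuous_const
  have hDφcs : HasCompactSupport fun x => fderiv ℝ φ x v := hφc.fderiv_apply ℝ v
  have h1 : Integrable (fun y => fderiv ℝ φ y v * G y) μ := by
    have h2 := (hDφ.integrable_of_hasCompactSupport hDφcs (μ := μ)).bdd_mul (c := B)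
      hG.aestronglyMeasurable (Eventually.of_forall hGB)
    refine h2.congr (Eventually.of_forall fun y => ?_)
    simp only; ring
  have h3 : Integrable (fun y => φ y * G y) μ := by
    have h2 := (hφ.continuous.integrable_of_hasCompactSupport hφc (μ := μ)).bdd_mul (c := B)
      hG.aestronglyMeasurable (Eventually.of_forall hGB)
    refine h2.congr (Eventually.of_forall fun y => ?_)
    simp only; ring
  have h4 := integral_bilinear_hasLineDerivAt_right_eq_neg_left_of_integrable (μ := μ)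
    (B := ContinuousLinearMap.mul ℝ ℝ) (f := φ) (f' := fun y => fderiv ℝ φ y v) (g := G)
    (g' := fun _ => 0) (v := v) (by simpa using h1) (by simp) (by simpa using h3)
    (fun x _ => (hφd x).hasFDerivAt.hasLineDerivAt v)
    (fun x _ => by
      have h5 : (fun t : ℝ => G (x + t • v)) = fun _ => G x := funext fun t => hGv x t
      rw [HasLineDerivAt, h5]
      exact hasDerivAt_const _ _)
  simp only [ContinuousLinearMap.mul_apply', mul_zero, integral_zero] at h4
  linarith

variable {ι : Type} {n : ℕ}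

open Classical in
private theorem Wal_P (I : Finset ι) (c : ι → E → ℝ) (G : ι → Fin n → E → ℝ) (e : Fin n → E)
    (W : Finset ((E →L[ℝ] ℝ) × ℝ)) (hW : ∀ a ∈ W, a.1 ≠ 0) {B : ℝ}
    (hc : ∀ k ∈ I, Measurable (c k)) (hB : ∀ k ∈ I, ∀ s, |c k s| ≤ B) (hB0 : 0 ≤ B)
    (H1 : ∀ k ∈ I, ∀ s₀, (∀ a ∈ W, a.1 s₀ + a.2 ≠ 0) → ∀ᶠ s in 𝓝 s₀, c k s = c k s₀)
    (H2 : ∀ w, ∀ a ∈ W, a.1 w + a.2 = 0 →
      (∀ b ∈ W, b.1 w + b.2 = 0 → ∀ z, (b.1 z + b.2 = 0 ↔ a.1 z + a.2 = 0)) →
      ∀ cp cm : ι → ℝ, (∀ᶠ s in 𝓝 w, 0 < a.1 s + a.2 → ∀ k ∈ I, c k s = cp k) →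
      (∀ᶠ s in 𝓝 w, a.1 s + a.2 < 0 → ∀ k ∈ I, c k s = cm k) →
      ∀ Q : E →L[ℝ] ℝ, (∀ v, a.1 v = 0 → Q v = 0) →
        ∑ k ∈ I, (cp k - cm k) * ∑ i, Q (e i) * G k i w = 0)
    {φ : E → ℝ} (hφ : ContDiff ℝ 2 φ) (hφc : HasCompactSupport φ)
    (hφs : tsupport φ ⊆ Metric.closedBall 0 (1 / 2))
    {L : NNReal} (hL : ∀ k ∈ I, ∀ i, LipschitzWith L (G k i)) {GB : ℝ}
    (hGB : ∀ k ∈ I, ∀ i s, |G k i s| ≤ GB) {ε : ℝ} (hε : 0 < ε) (s : E) :
    (|∑ k ∈ I, ∑ i, G k i s * ∫ y, fderiv ℝ φ y (e i) * c k (s + ε • y) ∂μ| ≤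
      ∑ k ∈ I, ∑ i, GB * (B * ∫ y, |fderiv ℝ φ y (e i)| ∂μ)) ∧
    ((∀ a ∈ W, ∀ w ∈ Metric.ball s ε, a.1 w + a.2 ≠ 0) →
      ∑ k ∈ I, ∑ i, G k i s * ∫ y, fderiv ℝ φ y (e i) * c k (s + ε • y) ∂μ = 0) ∧
    (∀ a ∈ W, (∃ w ∈ Metric.ball s ε, a.1 w + a.2 = 0) →
      (∀ b ∈ W, ∀ z ∈ Metric.ball s ε, b.1 z + b.2 = 0 →
        ∀ z', (b.1 z' + b.2 = 0 ↔ a.1 z' + a.2 = 0)) →
      |∑ k ∈ I, ∑ i, G k i s * ∫ y, fderiv ℝ φ y (e i) * c k (s + ε • y) ∂μ| ≤
        (∑ k ∈ I, ∑ i, L * (2 * B) * ∫ y, |fderiv ℝ φ y (e i)| ∂μ) * ε) := by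
  have hDφ : ∀ v, Continuous fun x => fderiv ℝ φ x v := fun v =>
    (hφ.continuous_fderiv (by norm_num)).clm_apply continuous_const
  have hDφcs : ∀ v, HasCompactSupport fun x => fderiv ℝ φ x v := fun v => hφc.fderiv_apply ℝ v
  have hDi : ∀ v, Integrable (fun y => fderiv ℝ φ y v) μ := fun v =>
    (hDφ v).integrable_of_hasCompactSupport (hDφcs v)
  have hD0 : ∀ v, ∫ y, fderiv ℝ φ y v ∂μ = 0 := fun v => by
    have h := Wal_ibp μ hφ hφc v (G := fun _ => 1) (B := 1) measurable_const (by simp) (by simp)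
    simpa using h
  have hball : ∀ y, y ∈ tsupport φ → s + ε • y ∈ Metric.ball s ε := by
    intro y hy
    have h1 : ‖y‖ ≤ 1 / 2 := by simpa using hφs hy
    rw [Metric.mem_ball, dist_eq_norm, add_sub_cancel_left, norm_smul,
      Real.norm_of_nonneg hε.le]
    nlinarith
  have hout : ∀ y, y ∉ tsupport φ → ∀ v, fderiv ℝ φ y v = 0 := fun y hy v => by
    have h1 : fderiv ℝ φ y = 0 :=
      image_eq_zero_of_notMem_tsupport (fun h => hy (tsupport_fderiv_subset ℝ h))
    rw [h1]; rfl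
  have hcomp : ∀ k ∈ I, Measurable fun y => c k (s + ε • y) := fun k hk =>
    (hc k hk).comp (by fun_prop)
  refine ⟨?_, ?_, ?_⟩
  · refine (Finset.abs_sum_le_sum_abs _ _).trans (Finset.sum_le_sum fun k hk => ?_)
    refine (Finset.abs_sum_le_sum_abs _ _).trans (Finset.sum_le_sum fun i _ => ?_)
    rw [abs_mul]
    refine mul_le_mul (hGB k hk i s) ?_ (abs_nonneg _) ((abs_nonneg _).trans (hGB k hk i s))
    rw [← Real.norm_eq_abs]
    refine (norm_integral_le_of_norm_le ((hDi (e i)).abs.const_mul B)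
      (Eventually.of_forall fun y => ?_)).trans (le_of_eq (integral_const_mul _ _))
    rw [norm_mul, Real.norm_eq_abs, Real.norm_eq_abs, mul_comm]
    exact mul_le_mul_of_nonneg_right (hB k hk _) (abs_nonneg _)
  · intro hno
    refine Finset.sum_eq_zero fun k hk => Finset.sum_eq_zero fun i _ => ?_
    have h1 : ∀ y, fderiv ℝ φ y (e i) * c k (s + ε • y) = fderiv ℝ φ y (e i) * c k s := by
      intro y
      by_cases hy : y ∈ tsupport φ
      · rw [Wal_const (convex_ball s ε) (f := c k)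
          (fun x hx => H1 k hk x fun a ha => hno a ha x hx) _ (hball y hy) s
          (Metric.mem_ball_self hε)]
      · rw [hout y hy, zero_mul, zero_mul]
    simp only [h1]
    rw [integral_mul_const, hD0, zero_mul, mul_zero]
  · rintro a ha ⟨w, hw, hw0⟩ hsame
    -- the two half balls
    obtain ⟨u, hu⟩ : ∃ u, a.1 u ≠ 0 := by
      by_contra h
      push Not at h
      exact hW a ha (ContinuousLinearMap.ext h)
    set u₁ : E := (a.1 u)⁻¹ • u with hu₁
    have hau : a.1 u₁ = 1 := by rw [hu₁, map_smul, smul_eq_mul, inv_mul_cancel₀ hu]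
    have hcont : Tendsto (fun t : ℝ => w + t • u₁) (𝓝 0) (𝓝 w) := by
      have h1 : Continuous fun t : ℝ => w + t • u₁ := by fun_prop
      have h2 := h1.tendsto 0
      simpa using h2
    have hnear : ∀ᶠ t : ℝ in 𝓝 0, w + t • u₁ ∈ Metric.ball s ε :=
      hcont.eventually (Metric.isOpen_ball.mem_nhds hw)
    obtain ⟨τ, hτ, hτ'⟩ := Metric.eventually_nhds_iff.1 hnear
    have hp : w + (τ / 2) • u₁ ∈ Metric.ball s ε := hτ' (by
      rw [dist_zero_right, Real.norm_of_nonneg (by positivity)]; linarith)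
    have hq : w + (-(τ / 2)) • u₁ ∈ Metric.ball s ε := hτ' (by
      rw [dist_zero_right, norm_neg, Real.norm_of_nonneg (by positivity)]; linarith)
    have hpa : 0 < a.1 (w + (τ / 2) • u₁) + a.2 := by
      rw [map_add, map_smul, hau, smul_eq_mul]; linarith
    have hqa : a.1 (w + (-(τ / 2)) • u₁) + a.2 < 0 := by
      rw [map_add, map_smul, hau, smul_eq_mul]; linarith
    set cp : ι → ℝ := fun k => c k (w + (τ / 2) • u₁) with hcp
    set cm : ι → ℝ := fun k => c k (w + (-(τ / 2)) • u₁) with hcm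
    have hlin : ∀ x y : E, ∀ α β : ℝ, α + β = 1 →
        a.1 (α • x + β • y) + a.2 = α * (a.1 x + a.2) + β * (a.1 y + a.2) := by
      intro x y α β hαβ
      rw [map_add, map_smul, map_smul, smul_eq_mul, smul_eq_mul]
      linear_combination (-a.2) * hαβ
    have hUp : Convex ℝ (Metric.ball s ε ∩ {z | 0 < a.1 z + a.2}) := by
      refine (convex_ball s ε).inter ?_
      intro x hx y hy α β hα hβ hαβ
      show 0 < a.1 (α • x + β • y) + a.2
      have hx' : 0 < a.1 x + a.2 := hx
      have hy' : 0 < a.1 y + a.2 := hy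
      rw [hlin x y α β hαβ]
      rcases hα.lt_or_eq with h | h
      · have h2 : 0 < α * (a.1 x + a.2) := mul_pos h hx'
        have h3 : 0 ≤ β * (a.1 y + a.2) := mul_nonneg hβ hy'.le
        linarith
      · have h4 : β = 1 := by linarith
        rw [← h, h4]; linarith
    have hUm : Convex ℝ (Metric.ball s ε ∩ {z | a.1 z + a.2 < 0}) := by
      refine (convex_ball s ε).inter ?_
      intro x hx y hy α β hα hβ hαβ
      show a.1 (α • x + β • y) + a.2 < 0
      have hx' : a.1 x + a.2 < 0 := hx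
      have hy' : a.1 y + a.2 < 0 := hy
      rw [hlin x y α β hαβ]
      rcases hα.lt_or_eq with h | h
      · have h2 : α * (a.1 x + a.2) < 0 := mul_neg_of_pos_of_neg h hx'
        have h3 : β * (a.1 y + a.2) ≤ 0 := mul_nonpos_of_nonneg_of_nonpos hβ hy'.le
        linarith
      · have h4 : β = 1 := by linarith
        rw [← h, h4]; linarith
    have hcpe : ∀ k ∈ I, ∀ z ∈ Metric.ball s ε, 0 < a.1 z + a.2 → c k z = cp k := by
      intro k hk z hz hz'
      refine Wal_const hUp (f := c k) (fun x hx => H1 k hk x fun b hb hb0 => ?_) z ⟨hz, hz'⟩ _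
        ⟨hp, hpa⟩
      have h1 := (hsame b hb x hx.1 hb0 x).1 hb0
      have h2 : 0 < a.1 x + a.2 := hx.2
      linarith
    have hcme : ∀ k ∈ I, ∀ z ∈ Metric.ball s ε, a.1 z + a.2 < 0 → c k z = cm k := by
      intro k hk z hz hz'
      refine Wal_const hUm (f := c k) (fun x hx => H1 k hk x fun b hb hb0 => ?_) z ⟨hz, hz'⟩ _
        ⟨hq, hqa⟩
      have h1 := (hsame b hb x hx.1 hb0 x).1 hb0
      have h2 : a.1 x + a.2 < 0 := hx.2
      linarith
    -- the functional `Q`
    set ind : E → ℝ := fun y => if 0 < a.1 (s + ε • y) + a.2 then 1 else 0 with hind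
    have hindm : Measurable ind := by
      refine Measurable.ite ?_ measurable_const measurable_const
      exact (isOpen_lt continuous_const (by fun_prop)).measurableSet
    have hindB : ∀ y, |ind y| ≤ 1 := by
      intro y
      simp only [hind]
      split_ifs <;> simp
    have hQi : Integrable (fun y => ind y • fderiv ℝ φ y) μ := by
      have h1 : Integrable (fun y => fderiv ℝ φ y) μ :=
        (hφ.continuous_fderiv (by norm_num)).integrable_of_hasCompactSupport (hφc.fderiv ℝ)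
      exact h1.bdd_smul 1 hindm.aestronglyMeasurable (Eventually.of_forall hindB)
    set Q : E →L[ℝ] ℝ := ∫ y, ind y • fderiv ℝ φ y ∂μ with hQ
    have hQv : ∀ v, Q v = ∫ y, fderiv ℝ φ y v * ind y ∂μ := by
      intro v
      rw [hQ, ContinuousLinearMap.integral_apply hQi]
      refine integral_congr_ae (Eventually.of_forall fun y => ?_)
      simp only [_root_.smul_apply, smul_eq_mul]; ring
    have hQ0 : ∀ v, a.1 v = 0 → Q v = 0 := by
      intro v hv
      rw [hQv]
      refine Wal_ibp μ hφ hφc v hindm hindB fun y t => ?_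
      have h1 : a.1 (s + ε • (y + t • v)) = a.1 (s + ε • y) := by
        simp only [map_add, map_smul, hv, smul_zero, add_zero]
      simp only [hind, h1]
    have hQb : ∀ i, |Q (e i)| ≤ ∫ y, |fderiv ℝ φ y (e i)| ∂μ := by
      intro i
      rw [hQv, ← Real.norm_eq_abs]
      refine norm_integral_le_of_norm_le (hDi (e i)).abs (Eventually.of_forall fun y => ?_)
      rw [norm_mul, Real.norm_eq_abs, Real.norm_eq_abs]
      exact mul_le_of_le_one_right (abs_nonneg _) (hindB y)
    have hM : ∀ k ∈ I, ∀ i, ∫ y, fderiv ℝ φ y (e i) * c k (s + ε • y) ∂μ =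
        (cp k - cm k) * Q (e i) := by
      intro k hk i
      have h1 : (fun y => fderiv ℝ φ y (e i) * c k (s + ε • y)) =ᵐ[μ]
          fun y => fderiv ℝ φ y (e i) * cm k + (cp k - cm k) * (fderiv ℝ φ y (e i) * ind y) := by
        have h2 : μ {y | (ε • a.1) y + (a.1 s + a.2) = 0} = 0 :=
          Wal_null μ (ε • a.1) (smul_ne_zero hε.ne' (hW a ha)) _
        have h3 : ∀ᵐ y ∂μ, (ε • a.1) y + (a.1 s + a.2) ≠ 0 := by
          rw [ae_iff]; simpa using h2
        filter_upwards [h3] with y hy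
        have h4 : a.1 (s + ε • y) + a.2 = (ε • a.1) y + (a.1 s + a.2) := by
          simp only [map_add, map_smul, _root_.smul_apply]; ring
        by_cases hyt : y ∈ tsupport φ
        · rcases lt_or_gt_of_ne hy with h | h
          · rw [← h4] at h
            rw [hcme k hk _ (hball y hyt) h]
            have h5 : ind y = 0 := by simp only [hind]; rw [if_neg (not_lt.2 h.le)]
            rw [h5]; ring
          · rw [← h4] at h
            rw [hcpe k hk _ (hball y hyt) h]
            have h5 : ind y = 1 := by simp only [hind]; rw [if_pos h]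
            rw [h5]; ring
        · rw [hout y hyt]; ring
      rw [integral_congr_ae h1, integral_add, integral_mul_const, hD0, zero_mul, zero_add,
        integral_const_mul, ← hQv]
      · exact (hDi (e i)).mul_const _
      · refine Integrable.const_mul ?_ _
        have h2 := (hDi (e i)).bdd_mul (c := 1) hindm.aestronglyMeasurable
          (Eventually.of_forall hindB)
        refine h2.congr (Eventually.of_forall fun y => ?_)
        simp only; ring
    have hmatch := H2 w a ha hw0 (fun b hb hb0 => hsame b hb w hw hb0) cp cm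
      (by
        filter_upwards [Metric.isOpen_ball.mem_nhds hw] with z hz h k hk
        exact hcpe k hk z hz h)
      (by
        filter_upwards [Metric.isOpen_ball.mem_nhds hw] with z hz h k hk
        exact hcme k hk z hz h) Q hQ0
    have h1 : ∑ k ∈ I, ∑ i, G k i s * ∫ y, fderiv ℝ φ y (e i) * c k (s + ε • y) ∂μ =
        ∑ k ∈ I, ∑ i, (G k i s - G k i w) * ((cp k - cm k) * Q (e i)) := by
      have h2 : ∑ k ∈ I, ∑ i, G k i s * ∫ y, fderiv ℝ φ y (e i) * c k (s + ε • y) ∂μ =
          ∑ k ∈ I, ∑ i, G k i s * ((cp k - cm k) * Q (e i)) :=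
        Finset.sum_congr rfl fun k hk => Finset.sum_congr rfl fun i _ => by rw [hM k hk i]
      rw [h2, ← sub_zero (∑ k ∈ I, ∑ i, G k i s * ((cp k - cm k) * Q (e i))), ← hmatch,
        ← Finset.sum_sub_distrib]
      refine Finset.sum_congr rfl fun k _ => ?_
      rw [Finset.mul_sum, ← Finset.sum_sub_distrib]
      refine Finset.sum_congr rfl fun i _ => ?_
      ring
    rw [h1]
    refine (Finset.abs_sum_le_sum_abs _ _).trans ?_
    rw [Finset.sum_mul]
    refine Finset.sum_le_sum fun k hk => ?_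
    refine (Finset.abs_sum_le_sum_abs _ _).trans ?_
    rw [Finset.sum_mul]
    refine Finset.sum_le_sum fun i _ => ?_
    rw [abs_mul, abs_mul]
    have h3 : |G k i s - G k i w| ≤ L * ε := by
      have h4 := (hL k hk i).dist_le_mul s w
      rw [Real.dist_eq] at h4
      refine h4.trans (mul_le_mul_of_nonneg_left ?_ L.2)
      rw [dist_comm]
      exact (Metric.mem_ball.1 hw).le
    have h5 : |cp k - cm k| ≤ 2 * B := by
      refine (abs_sub _ _).trans ?_
      have h6 := hB k hk (w + (τ / 2) • u₁)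
      have h7 := hB k hk (w + (-(τ / 2)) • u₁)
      simp only [hcp, hcm]
      linarith
    calc |G k i s - G k i w| * (|cp k - cm k| * |Q (e i)|)
        ≤ (L * ε) * ((2 * B) * ∫ y, |fderiv ℝ φ y (e i)| ∂μ) := by
          refine mul_le_mul h3 (mul_le_mul h5 (hQb i) (abs_nonneg _) (by positivity))
            (by positivity) (by positivity)
      _ = L * (2 * B) * (∫ y, |fderiv ℝ φ y (e i)| ∂μ) * ε := by ring

/-- Stokes for a piecewise smooth vector field with matching normal components -/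
private theorem Wal_core (I : Finset ι) (c : ι → E → ℝ) (G : ι → Fin n → E → ℝ) (e : Fin n → E)
    (W : Finset ((E →L[ℝ] ℝ) × ℝ)) (hW : ∀ a ∈ W, a.1 ≠ 0) {B : ℝ}
    (hc : ∀ k ∈ I, Measurable (c k)) (hB : ∀ k ∈ I, ∀ s, |c k s| ≤ B) (hB0 : 0 ≤ B)
    (H1 : ∀ k ∈ I, ∀ s₀, (∀ a ∈ W, a.1 s₀ + a.2 ≠ 0) → ∀ᶠ s in 𝓝 s₀, c k s = c k s₀)
    (H2 : ∀ w, ∀ a ∈ W, a.1 w + a.2 = 0 →
      (∀ b ∈ W, b.1 w + b.2 = 0 → ∀ z, (b.1 z + b.2 = 0 ↔ a.1 z + a.2 = 0)) →
      ∀ cp cm : ι → ℝ, (∀ᶠ s in 𝓝 w, 0 < a.1 s + a.2 → ∀ k ∈ I, c k s = cp k) →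
      (∀ᶠ s in 𝓝 w, a.1 s + a.2 < 0 → ∀ k ∈ I, c k s = cm k) →
      ∀ Q : E →L[ℝ] ℝ, (∀ v, a.1 v = 0 → Q v = 0) →
        ∑ k ∈ I, (cp k - cm k) * ∑ i, Q (e i) * G k i w = 0)
    {C : Set E} (hC : IsCompact C) (hG : ∀ k ∈ I, ∀ i, ContDiff ℝ 2 (G k i))
    (hGC : ∀ k ∈ I, ∀ i, ∀ s, s ∉ C → G k i s = 0) :
    ∫ s, ∑ k ∈ I, c k s * ∑ i, fderiv ℝ (G k i) s (e i) ∂μ = 0 := by
  classical
  -- the bump function
  let f : ContDiffBump (0 : E) := ⟨1 / 4, 1 / 2, by norm_num, by norm_num⟩
  obtain ⟨φ, hφ, hφc, hφs, hφ1⟩ : ∃ φ : E → ℝ, ContDiff ℝ 2 φ ∧ HasCompactSupport φ ∧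
      tsupport φ ⊆ Metric.closedBall 0 (1 / 2) ∧ ∫ y, φ y ∂μ = 1 :=
    ⟨f.normed μ, f.contDiff_normed, f.hasCompactSupport_normed,
      (f.tsupport_normed_eq (μ := μ)).subset, f.integral_normed⟩
  have hφs' : tsupport φ ⊆ Metric.closedBall 0 1 :=
    hφs.trans (Metric.closedBall_subset_closedBall (by norm_num))
  have hGcs : ∀ k ∈ I, ∀ i, HasCompactSupport (G k i) := fun k hk i =>
    HasCompactSupport.intro hC (hGC k hk i)
  -- constants
  have hLex : ∀ k i, ∃ L : NNReal, k ∈ I → LipschitzWith L (G k i) := by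
    intro k i
    by_cases hk : k ∈ I
    · obtain ⟨L, hL⟩ := ContDiff.lipschitzWith_of_hasCompactSupport (hGcs k hk i) (hG k hk i)
        (by norm_num)
      exact ⟨L, fun _ => hL⟩
    · exact ⟨0, fun h => absurd h hk⟩
  choose Lf hLf using hLex
  set L : NNReal := ∑ k ∈ I, ∑ i, Lf k i with hLdef
  have hL : ∀ k ∈ I, ∀ i, LipschitzWith L (G k i) := by
    intro k hk i
    refine (hLf k i hk).weaken ?_
    have h1 : Lf k i ≤ ∑ i, Lf k i := Finset.single_le_sum (f := fun i => Lf k i)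
      (fun _ _ => zero_le) (Finset.mem_univ i)
    exact h1.trans (Finset.single_le_sum (f := fun k => ∑ i, Lf k i)
      (fun _ _ => zero_le) hk)
  have hbex : ∀ k i, ∃ b : ℝ, 0 ≤ b ∧ (k ∈ I → ∀ s, |G k i s| ≤ b) := by
    intro k i
    by_cases hk : k ∈ I
    · obtain ⟨b, hb⟩ := (hGcs k hk i).exists_bound_of_continuous (hG k hk i).continuous
      exact ⟨b, (norm_nonneg _).trans (hb 0), fun _ s => hb s⟩
    · exact ⟨0, le_rfl, fun h => absurd h hk⟩
  choose bf hbf0 hbf using hbex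
  set GB : ℝ := ∑ k ∈ I, ∑ i, bf k i with hGBdef
  have hGB : ∀ k ∈ I, ∀ i s, |G k i s| ≤ GB := by
    intro k hk i s
    refine (hbf k i hk s).trans ?_
    have h1 : bf k i ≤ ∑ i, bf k i := Finset.single_le_sum (f := fun i => bf k i)
      (fun i _ => hbf0 k i) (Finset.mem_univ i)
    exact h1.trans (Finset.single_le_sum (f := fun k => ∑ i, bf k i)
      (fun k _ => Finset.sum_nonneg fun i _ => hbf0 k i) hk)
  have hCex : ∀ k i, ∃ D : ℝ, k ∈ I → ∀ ε : ℝ, 0 < ε → ε ≤ 1 →
      |∫ s, c k s * fderiv ℝ (G k i) s (e i) ∂μ -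
        ∫ s, c k s * (∫ y, φ y * fderiv ℝ (G k i) (s - ε • y) (e i) ∂μ) ∂μ| ≤ D * ε := by
    intro k i
    by_cases hk : k ∈ I
    · obtain ⟨D, hD⟩ := Wal_B μ (hc k hk) (hB k hk) (hG k hk i) (hGcs k hk i) hφ hφc hφs' hφ1
        (e i)
      exact ⟨D, fun _ => hD⟩
    · exact ⟨0, fun h => absurd h hk⟩
  choose Df hDf using hCex
  have hK1ex : ∀ a : (E →L[ℝ] ℝ) × ℝ, ∃ K : ℝ, 0 ≤ K ∧ (a ∈ W → ∀ t : ℝ, 0 < t →
      μ.real {s | s ∈ C ∧ |a.1 s + a.2| ≤ t} ≤ K * t) := by
    intro a
    by_cases ha : a ∈ W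
    · obtain ⟨K, hK, h⟩ := Wal_V1 μ a.1 (hW a ha) a.2 hC
      exact ⟨K, hK, fun _ => h⟩
    · exact ⟨0, le_rfl, fun h => absurd h ha⟩
  choose K1 hK10 hK1 using hK1ex
  have hK2ex : ∀ a b : (E →L[ℝ] ℝ) × ℝ, ∃ K : ℝ, 0 ≤ K ∧ (a ∈ W → b ∈ W →
      (¬ ∀ z, a.1 z + a.2 = 0 ↔ b.1 z + b.2 = 0) → ∀ t : ℝ, 0 < t →
      μ.real {s | s ∈ C ∧ |a.1 s + a.2| ≤ t ∧ |b.1 s + b.2| ≤ t} ≤ K * t ^ 2) := by
    intro a b
    by_cases h : a ∈ W ∧ b ∈ W ∧ ¬ ∀ z, a.1 z + a.2 = 0 ↔ b.1 z + b.2 = 0
    · obtain ⟨K, hK, h2⟩ := Wal_V2 μ a.1 b.1 (hW a h.1) (hW b h.2.1) a.2 b.2 h.2.2 hC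
      exact ⟨K, hK, fun _ _ _ => h2⟩
    · exact ⟨0, le_rfl, fun h1 h2 h3 => absurd ⟨h1, h2, h3⟩ h⟩
  choose K2 hK20 hK2 using hK2ex
  set LW : ℝ := 1 + ∑ a ∈ W, ‖a.1‖ with hLW
  have hLW0 : 0 < LW := by
    have h1 : 0 ≤ ∑ a ∈ W, ‖a.1‖ := Finset.sum_nonneg fun a _ => norm_nonneg _
    linarith
  have hLWa : ∀ a ∈ W, ‖a.1‖ ≤ LW := by
    intro a ha
    have h1 : ‖a.1‖ ≤ ∑ a ∈ W, ‖a.1‖ :=
      Finset.single_le_sum (f := fun a : (E →L[ℝ] ℝ) × ℝ => ‖a.1‖) (fun a _ => norm_nonneg _) ha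
    linarith
  set C1 : ℝ := ∑ k ∈ I, ∑ i, L * (2 * B) * ∫ y, |fderiv ℝ φ y (e i)| ∂μ with hC1
  set C2 : ℝ := ∑ k ∈ I, ∑ i, GB * (B * ∫ y, |fderiv ℝ φ y (e i)| ∂μ) with hC2
  have hint0 : ∀ i, 0 ≤ ∫ y, |fderiv ℝ φ y (e i)| ∂μ := fun i =>
    integral_nonneg fun y => abs_nonneg _
  have hC10 : 0 ≤ C1 := Finset.sum_nonneg fun k _ => Finset.sum_nonneg fun i _ =>
    mul_nonneg (by positivity) (hint0 i)
  have hGB0 : 0 ≤ GB := Finset.sum_nonneg fun k _ => Finset.sum_nonneg fun i _ => hbf0 k i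
  have hC20 : 0 ≤ C2 := Finset.sum_nonneg fun k _ => Finset.sum_nonneg fun i _ =>
    mul_nonneg hGB0 (mul_nonneg hB0 (hint0 i))
  set S : ℝ := ∫ s, ∑ k ∈ I, c k s * ∑ i, fderiv ℝ (G k i) s (e i) ∂μ with hS
  set C3 : ℝ := C1 * ∑ a ∈ W, K1 a * LW + C2 * ∑ a ∈ W, ∑ b ∈ W, K2 a b * LW ^ 2 with hC3
  set C4 : ℝ := ∑ k ∈ I, ∑ i, Df k i with hC4
  -- the main estimate
  have main : ∀ ε : ℝ, 0 < ε → ε ≤ 1 → |S| ≤ (C3 + C4) * ε := by
    intro ε hε hε1
    set F : E → ℝ := fun s => ∑ k ∈ I, ∑ i, G k i s * ∫ y, fderiv ℝ φ y (e i) *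
      c k (s + ε • y) ∂μ with hF
    have hSeq : S = ∑ k ∈ I, ∑ i, ∫ s, c k s * fderiv ℝ (G k i) s (e i) ∂μ := by
      have hint : ∀ k ∈ I, ∀ i, Integrable (fun s => c k s * fderiv ℝ (G k i) s (e i)) μ := by
        intro k hk i
        have h1 : Continuous fun x => fderiv ℝ (G k i) x (e i) :=
          ((hG k hk i).continuous_fderiv (by norm_num)).clm_apply continuous_const
        exact (h1.integrable_of_hasCompactSupport ((hGcs k hk i).fderiv_apply ℝ (e i))).bdd_mul
          (c := B) (hc k hk).aestronglyMeasurable (Eventually.of_forall fun p => hB k hk _)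
      rw [hS]
      have h2 : ∀ s, ∑ k ∈ I, c k s * ∑ i, fderiv ℝ (G k i) s (e i) =
          ∑ k ∈ I, ∑ i, c k s * fderiv ℝ (G k i) s (e i) := fun s =>
        Finset.sum_congr rfl fun k _ => Finset.mul_sum _ _ _
      simp only [h2]
      rw [integral_finsetSum I fun k hk => integrable_finsetSum _ fun i _ => hint k hk i]
      exact Finset.sum_congr rfl fun k hk => integral_finsetSum _ fun i _ => hint k hk i
    have hFeq : ∫ s, F s ∂μ = ∑ k ∈ I, ∑ i, ∫ s, G k i s * ∫ y, fderiv ℝ φ y (e i) *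
        c k (s + ε • y) ∂μ ∂μ := by
      have hint : ∀ k ∈ I, ∀ i, Integrable (fun s => G k i s * ∫ y, fderiv ℝ φ y (e i) *
          c k (s + ε • y) ∂μ) μ := fun k hk i =>
        (Wal_A μ (hc k hk) (hB k hk) (hG k hk i) (hGcs k hk i) hφ hφc (e i) hε).1
      rw [hF]
      rw [integral_finsetSum I fun k hk => integrable_finsetSum _ fun i _ => hint k hk i]
      exact Finset.sum_congr rfl fun k hk => integral_finsetSum _ fun i _ => hint k hk i
    have h1 : |S - ε⁻¹ * ∫ s, F s ∂μ| ≤ C4 * ε := by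
      rw [hSeq, hFeq, Finset.mul_sum, ← Finset.sum_sub_distrib, hC4, Finset.sum_mul]
      refine (Finset.abs_sum_le_sum_abs _ _).trans (Finset.sum_le_sum fun k hk => ?_)
      rw [Finset.mul_sum, ← Finset.sum_sub_distrib, Finset.sum_mul]
      refine (Finset.abs_sum_le_sum_abs _ _).trans (Finset.sum_le_sum fun i _ => ?_)
      rw [← (Wal_A μ (hc k hk) (hB k hk) (hG k hk i) (hGcs k hk i) hφ hφc (e i) hε).2.2]
      exact hDf k i hk ε hε hε1
    -- the bound for `F`
    set Z : (E →L[ℝ] ℝ) × ℝ → Set E := fun a => {s | s ∈ C ∧ |a.1 s + a.2| ≤ LW * ε} with hZ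
    set N : (E →L[ℝ] ℝ) × ℝ → (E →L[ℝ] ℝ) × ℝ → Set E := fun a b =>
      if (∀ z, a.1 z + a.2 = 0 ↔ b.1 z + b.2 = 0) then ∅ else
        {s | s ∈ C ∧ |a.1 s + a.2| ≤ LW * ε ∧ |b.1 s + b.2| ≤ LW * ε} with hN
    have hcl : ∀ a : (E →L[ℝ] ℝ) × ℝ, IsClosed {s : E | |a.1 s + a.2| ≤ LW * ε} := fun a =>
      isClosed_le (by fun_prop) continuous_const
    have hZm : ∀ a, MeasurableSet (Z a) := fun a =>
      (hC.isClosed.inter (hcl a)).measurableSet
    have hNm : ∀ a b, MeasurableSet (N a b) := by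
      intro a b
      simp only [hN]
      split_ifs
      · exact MeasurableSet.empty
      · exact (hC.isClosed.inter ((hcl a).inter (hcl b))).measurableSet
    have hZfin : ∀ a, μ (Z a) ≠ ⊤ := fun a =>
      ((measure_mono fun s hs => hs.1).trans_lt hC.measure_lt_top).ne
    have hNfin : ∀ a b, μ (N a b) ≠ ⊤ := by
      intro a b
      simp only [hN]
      split_ifs
      · simp
      · exact ((measure_mono fun s hs => hs.1).trans_lt hC.measure_lt_top).ne
    have hmeet : ∀ s, ∀ a ∈ W, ∀ w ∈ Metric.ball s ε, a.1 w + a.2 = 0 →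
        |a.1 s + a.2| ≤ LW * ε := by
      intro s a ha w hw h0
      have h2 : a.1 s + a.2 = a.1 (s - w) := by rw [map_sub]; linarith
      rw [h2, ← Real.norm_eq_abs]
      refine (a.1.le_opNorm _).trans (mul_le_mul (hLWa a ha) ?_ (norm_nonneg _) hLW0.le)
      rw [← dist_eq_norm, dist_comm]
      exact (Metric.mem_ball.1 hw).le
    set bd : E → ℝ := fun s => C1 * ε * ∑ a ∈ W, (Z a).indicator (fun _ => (1 : ℝ)) s +
      C2 * ∑ a ∈ W, ∑ b ∈ W, (N a b).indicator (fun _ => (1 : ℝ)) s with hbd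
    have hi0 : ∀ (T : Set E) (s : E), 0 ≤ T.indicator (fun _ => (1 : ℝ)) s := fun T s =>
      Set.indicator_nonneg (fun _ _ => zero_le_one) s
    have hFbd : ∀ s, ‖F s‖ ≤ bd s := by
      intro s
      rw [Real.norm_eq_abs]
      have hP := Wal_P μ I c G e W hW hc hB hB0 H1 H2 hφ hφc hφs hL hGB hε s
      have hZs0 : 0 ≤ ∑ a ∈ W, (Z a).indicator (fun _ => (1 : ℝ)) s :=
        Finset.sum_nonneg fun a _ => hi0 _ _
      have hNs0 : 0 ≤ ∑ a ∈ W, ∑ b ∈ W, (N a b).indicator (fun _ => (1 : ℝ)) s :=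
        Finset.sum_nonneg fun a _ => Finset.sum_nonneg fun b _ => hi0 _ _
      have hbd0 : 0 ≤ bd s := by simp only [hbd]; positivity
      by_cases hs : s ∈ C
      · by_cases h0 : ∃ a ∈ W, ∃ w ∈ Metric.ball s ε, a.1 w + a.2 = 0
        · obtain ⟨a, ha, w, hw, hw0⟩ := h0
          by_cases h2 : ∀ b ∈ W, ∀ z ∈ Metric.ball s ε, b.1 z + b.2 = 0 →
              ∀ z', (b.1 z' + b.2 = 0 ↔ a.1 z' + a.2 = 0)
          · refine (hP.2.2 a ha ⟨w, hw, hw0⟩ h2).trans ?_
            have h3 : (1 : ℝ) ≤ ∑ a ∈ W, (Z a).indicator (fun _ => (1 : ℝ)) s := by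
              have h4 : (Z a).indicator (fun _ => (1 : ℝ)) s = 1 :=
                Set.indicator_of_mem (show s ∈ Z a from ⟨hs, hmeet s a ha w hw hw0⟩) _
              refine h4.symm.le.trans ?_
              exact Finset.single_le_sum (f := fun a => (Z a).indicator (fun _ => (1 : ℝ)) s)
                (fun a _ => hi0 _ _) ha
            have h5 : C1 * ε * 1 ≤ C1 * ε * ∑ a ∈ W, (Z a).indicator (fun _ => (1 : ℝ)) s :=
              mul_le_mul_of_nonneg_left h3 (by positivity)
            simp only [hbd]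
            have h6 := mul_nonneg hC20 hNs0
            linarith
          · push Not at h2
            obtain ⟨b, hb, z, hz, hz0, z', hz'⟩ := h2
            have hns : ¬ ∀ z, b.1 z + b.2 = 0 ↔ a.1 z + a.2 = 0 := by
              intro h
              have h3 := h z'
              rcases hz' with h4 | h4
              · exact h4.2 (h3.1 h4.1)
              · exact h4.1 (h3.2 h4.2)
            refine hP.1.trans ?_
            have h3 : (1 : ℝ) ≤ ∑ a ∈ W, ∑ b ∈ W, (N a b).indicator (fun _ => (1 : ℝ)) s := by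
              have h4 : (N b a).indicator (fun _ => (1 : ℝ)) s = 1 := by
                refine Set.indicator_of_mem ?_ _
                simp only [hN]
                rw [if_neg hns]
                exact ⟨hs, hmeet s b hb z hz hz0, hmeet s a ha w hw hw0⟩
              refine h4.symm.le.trans ?_
              refine (Finset.single_le_sum (f := fun a' => (N b a').indicator
                (fun _ => (1 : ℝ)) s) (fun a _ => hi0 _ _) ha).trans ?_
              exact Finset.single_le_sum (f := fun b' => ∑ a' ∈ W, (N b' a').indicator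
                (fun _ => (1 : ℝ)) s) (fun b _ => Finset.sum_nonneg fun a _ => hi0 _ _) hb
            have h5 : C2 * 1 ≤ C2 * ∑ a ∈ W, ∑ b ∈ W, (N a b).indicator (fun _ => (1 : ℝ)) s :=
              mul_le_mul_of_nonneg_left h3 hC20
            have h6 : 0 ≤ C1 * ε * ∑ a ∈ W, (Z a).indicator (fun _ => (1 : ℝ)) s := by
              positivity
            simp only [hbd]
            linarith
        · push Not at h0
          have h2 : F s = 0 := hP.2.1 h0
          rw [h2, abs_zero]; exact hbd0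
      · have h2 : F s = 0 := by
          simp only [hF]
          exact Finset.sum_eq_zero fun k hk => Finset.sum_eq_zero fun i _ => by
            rw [hGC k hk i s hs, zero_mul]
        rw [h2, abs_zero]; exact hbd0
    have hindi : ∀ T : Set E, MeasurableSet T → μ T ≠ ⊤ →
        Integrable (T.indicator fun _ => (1 : ℝ)) μ := fun T hT hT' =>
      (integrable_indicator_iff hT).2 (integrableOn_const hT')
    have hindI : ∀ T : Set E, MeasurableSet T → μ T ≠ ⊤ →
        ∫ s, T.indicator (fun _ => (1 : ℝ)) s ∂μ = μ.real T := fun T hT hT' => by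
      rw [integral_indicator hT, setIntegral_const, smul_eq_mul, mul_one]
    have hZi : Integrable (fun s => ∑ a ∈ W, (Z a).indicator (fun _ => (1 : ℝ)) s) μ :=
      integrable_finsetSum _ fun a _ => hindi _ (hZm a) (hZfin a)
    have hNi : Integrable (fun s => ∑ a ∈ W, ∑ b ∈ W,
        (N a b).indicator (fun _ => (1 : ℝ)) s) μ :=
      integrable_finsetSum _ fun a _ => integrable_finsetSum _ fun b _ =>
        hindi _ (hNm a b) (hNfin a b)
    have h2 : |∫ s, F s ∂μ| ≤ C3 * ε ^ 2 := by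
      rw [← Real.norm_eq_abs]
      refine (norm_integral_le_of_norm_le (g := bd) ((hZi.const_mul _).add (hNi.const_mul _))
        (Eventually.of_forall hFbd)).trans ?_
      simp only [hbd]
      rw [integral_add (hZi.const_mul _) (hNi.const_mul _), integral_const_mul,
        integral_const_mul, integral_finsetSum _ fun a _ => hindi _ (hZm a) (hZfin a),
        integral_finsetSum _ fun a _ => integrable_finsetSum _ fun b _ =>
          hindi _ (hNm a b) (hNfin a b)]
      have h3 : ∑ a ∈ W, ∫ s, (Z a).indicator (fun _ => (1 : ℝ)) s ∂μ ≤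
          ∑ a ∈ W, K1 a * LW * ε := by
        refine Finset.sum_le_sum fun a ha => ?_
        rw [hindI _ (hZm a) (hZfin a)]
        refine (hK1 a ha (LW * ε) (by positivity)).trans (le_of_eq (by ring))
      have h4 : ∑ a ∈ W, ∫ s, ∑ b ∈ W, (N a b).indicator (fun _ => (1 : ℝ)) s ∂μ ≤
          ∑ a ∈ W, ∑ b ∈ W, K2 a b * LW ^ 2 * ε ^ 2 := by
        refine Finset.sum_le_sum fun a ha => ?_
        rw [integral_finsetSum _ fun b _ => hindi _ (hNm a b) (hNfin a b)]
        refine Finset.sum_le_sum fun b hb => ?_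
        rw [hindI _ (hNm a b) (hNfin a b)]
        by_cases h : ∀ z, a.1 z + a.2 = 0 ↔ b.1 z + b.2 = 0
        · simp only [hN]
          rw [if_pos h, measureReal_empty]
          have := hK20 a b
          positivity
        · simp only [hN]
          rw [if_neg h]
          refine (hK2 a b ha hb h (LW * ε) (by positivity)).trans (le_of_eq (by ring))
      have h5 : C1 * ε * ∑ a ∈ W, ∫ s, (Z a).indicator (fun _ => (1 : ℝ)) s ∂μ ≤
          C1 * ε * ∑ a ∈ W, K1 a * LW * ε := mul_le_mul_of_nonneg_left h3 (by positivity)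
      have h6 : C2 * ∑ a ∈ W, ∫ s, ∑ b ∈ W, (N a b).indicator (fun _ => (1 : ℝ)) s ∂μ ≤
          C2 * ∑ a ∈ W, ∑ b ∈ W, K2 a b * LW ^ 2 * ε ^ 2 := mul_le_mul_of_nonneg_left h4 hC20
      refine (add_le_add h5 h6).trans (le_of_eq ?_)
      rw [hC3]
      simp only [← Finset.sum_mul]
      ring
    have h3 : |ε⁻¹ * ∫ s, F s ∂μ| ≤ C3 * ε := by
      rw [abs_mul, abs_of_pos (inv_pos.2 hε)]
      calc ε⁻¹ * |∫ s, F s ∂μ| ≤ ε⁻¹ * (C3 * ε ^ 2) :=
            mul_le_mul_of_nonneg_left h2 (inv_pos.2 hε).le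
        _ = C3 * ε := by field_simp
    calc |S| = |(S - ε⁻¹ * ∫ s, F s ∂μ) + ε⁻¹ * ∫ s, F s ∂μ| := by rw [sub_add_cancel]
      _ ≤ |S - ε⁻¹ * ∫ s, F s ∂μ| + |ε⁻¹ * ∫ s, F s ∂μ| := abs_add_le _ _
      _ ≤ C4 * ε + C3 * ε := add_le_add h1 h3
      _ = (C3 + C4) * ε := by ring
  -- conclusion
  by_contra hne
  have hpos : 0 < |S| := abs_pos.2 hne
  have h1 := main 1 one_pos le_rfl
  rw [mul_one] at h1
  have hCC : 0 < C3 + C4 := hpos.trans_le h1
  have h2 := main (min 1 (|S| / (2 * (C3 + C4)))) (lt_min one_pos (by positivity))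
    (min_le_left _ _)
  have h3 : (C3 + C4) * min 1 (|S| / (2 * (C3 + C4))) ≤ |S| / 2 := by
    refine (mul_le_mul_of_nonneg_left (min_le_right _ _) hCC.le).trans (le_of_eq ?_)
    field_simp
  linarith

end pointwise

section algebra

private theorem Wal_alg {m R : ℕ} {E : Type} [NormedAddCommGroup E] [NormedSpace ℝ E]
    [FiniteDimensional ℝ E] (hE : Module.finrank ℝ E = m + 1) (Q ν : E →L[ℝ] ℝ) (hν : ν ≠ 0)
    (hQ : ∀ v, ν v = 0 → Q v = 0) (A A' : E →L[ℝ] (Fin R → ℝ)) (hA : ∀ v, ν v = 0 → A v = A' v)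
    (ω : (Fin R → ℝ) [⋀^Fin m]→L[ℝ] ℝ) (e : Fin (m + 1) → E) :
    ∑ i, Q (e i) * ((-1) ^ (i : ℕ) * ω fun j => A (e (i.succAbove j))) =
      ∑ i, Q (e i) * ((-1) ^ (i : ℕ) * ω fun j => A' (e (i.succAbove j))) := by
  have key : ContinuousAlternatingMap.alternatizeUncurryFin (Q.smulRight (ω.compContinuousLinearMap A)) =
      ContinuousAlternatingMap.alternatizeUncurryFin (Q.smulRight (ω.compContinuousLinearMap A')) := by
    obtain ⟨u, hu⟩ : ∃ u, ν u ≠ 0 := by
      by_contra h
      push Not at h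
      exact hν (ContinuousLinearMap.ext h)
    have hker : Module.finrank ℝ (LinearMap.ker (ν : E →ₗ[ℝ] ℝ)) = m := by
      have h1 : (ν : E →ₗ[ℝ] ℝ) ≠ 0 := by
        intro h
        apply hu
        have h2 := LinearMap.congr_fun h u
        simpa using h2
      have h3 := Module.Dual.finrank_ker_add_one_of_ne_zero (f := (ν : E →ₗ[ℝ] ℝ)) h1
      omega
    set bk : Module.Basis (Fin m) ℝ (LinearMap.ker (ν : E →ₗ[ℝ] ℝ)) :=
      Module.finBasisOfFinrankEq ℝ _ hker with hbk
    set b : Module.Basis (Fin (m + 1)) ℝ E := Module.Basis.mkFinCons u bk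
      (by
        intro c x hx h
        have h1 : ν x = 0 := by simpa using hx
        have h2 : ν (c • u + x) = 0 := by rw [h, map_zero]
        rw [map_add, map_smul, h1, add_zero, smul_eq_mul, mul_eq_zero] at h2
        exact h2.resolve_right hu)
      (by
        intro z
        refine ⟨-(ν z / ν u), ?_⟩
        rw [LinearMap.mem_ker, ContinuousLinearMap.coe_coe, map_add, map_smul, smul_eq_mul]
        field_simp
        ring) with hb
    have hb0 : ∀ i : Fin (m + 1), i ≠ 0 → ν (b i) = 0 := by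
      intro i hi
      obtain ⟨j, rfl⟩ := Fin.exists_succ_eq.2 hi
      have h1 : b j.succ = (bk j : E) := by
        rw [hb, Module.Basis.coe_mkFinCons]
        simp
      rw [h1]
      have h2 := (bk j).2
      simpa using h2
    apply ContinuousAlternatingMap.toAlternatingMap_injective
    refine b.ext_alternating fun σ hσ => ?_
    show ContinuousAlternatingMap.alternatizeUncurryFin (Q.smulRight (ω.compContinuousLinearMap A)) (fun i => b (σ i)) =
      ContinuousAlternatingMap.alternatizeUncurryFin (Q.smulRight (ω.compContinuousLinearMap A')) (fun i => b (σ i))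
    rw [ContinuousAlternatingMap.alternatizeUncurryFin_apply, ContinuousAlternatingMap.alternatizeUncurryFin_apply]
    refine Finset.sum_congr rfl fun i _ => ?_
    congr 1
    simp only [ContinuousLinearMap.smulRight_apply, ContinuousAlternatingMap.smul_apply, smul_eq_mul,
      ContinuousAlternatingMap.compContinuousLinearMap_apply]
    by_cases hi : σ i = 0
    · congr 1
      congr 1
      funext j
      show A (b (σ (i.succAbove j))) = A' (b (σ (i.succAbove j)))
      refine hA _ (hb0 _ fun h => ?_)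
      exact Fin.succAbove_ne i j (hσ (h.trans hi.symm))
    · rw [hQ _ (hb0 _ hi), zero_mul, zero_mul]
  have h1 : ∀ A : E →L[ℝ] (Fin R → ℝ),
      ContinuousAlternatingMap.alternatizeUncurryFin (Q.smulRight (ω.compContinuousLinearMap A)) e =
        ∑ i, Q (e i) * ((-1) ^ (i : ℕ) * ω fun j => A (e (i.succAbove j))) := by
    intro A
    rw [ContinuousAlternatingMap.alternatizeUncurryFin_apply]
    refine Finset.sum_congr rfl fun i _ => ?_
    simp only [ContinuousLinearMap.smulRight_apply, ContinuousAlternatingMap.smul_apply, smul_eq_mul,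
      ContinuousAlternatingMap.compContinuousLinearMap_apply]
    have h2 : (ω (⇑A ∘ Fin.removeNth i e)) = ω fun j => A (e (i.succAbove j)) := rfl
    rw [h2]
    simp only [Int.reduceNeg, zsmul_eq_mul, Int.cast_pow, Int.cast_neg, Int.cast_one]
    ring
  rw [← h1 A, ← h1 A', key]

end algebra

section final

variable {R m : ℕ}

/-- the linear part of a sheet -/
private noncomputable def Wal_cl (k : Matrix (Fin R) (Fin (m + 1)) ℝ × (Fin R → ℝ)) :
    (Fin (m + 1) → ℝ) →L[ℝ] (Fin R → ℝ) := LinearMap.toContinuousLinearMap k.1.mulVecLin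

private theorem Wal_cl_apply (k : Matrix (Fin R) (Fin (m + 1)) ℝ × (Fin R → ℝ))
    (v : Fin (m + 1) → ℝ) : Wal_cl k v = k.1.mulVec v := rfl

/-- the linear part of a coordinate of the difference of two sheets -/
private noncomputable def Wal_nu (k l : Matrix (Fin R) (Fin (m + 1)) ℝ × (Fin R → ℝ))
    (i : Fin R) : (Fin (m + 1) → ℝ) →L[ℝ] ℝ :=
  (ContinuousLinearMap.proj i).comp (Wal_cl k - Wal_cl l)

private theorem Wal_nu_apply (k l : Matrix (Fin R) (Fin (m + 1)) ℝ × (Fin R → ℝ)) (i : Fin R)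
    (v : Fin (m + 1) → ℝ) : Wal_nu k l i v = Wal_cl k v i - Wal_cl l v i := rfl

private theorem Wal_nu_af (k l : Matrix (Fin R) (Fin (m + 1)) ℝ × (Fin R → ℝ)) (i : Fin R)
    (s : Fin (m + 1) → ℝ) : Wal_nu k l i s + (k.2 i - l.2 i) = af k s i - af l s i := by
  rw [Wal_nu_apply, Wal_cl_apply, Wal_cl_apply]
  simp only [af, Pi.add_apply]
  ring

open Classical in
/-- the walls -/
private noncomputable def Wal_W (𝒦 : Finset (Matrix (Fin R) (Fin (m + 1)) ℝ × (Fin R → ℝ))) :
    Finset (((Fin (m + 1) → ℝ) →L[ℝ] ℝ) × ℝ) :=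
  (((𝒦 ×ˢ 𝒦) ×ˢ (Finset.univ : Finset (Fin R))).image fun q =>
    (Wal_nu q.1.1 q.1.2 q.2, q.1.1.2 q.2 - q.1.2.2 q.2)).filter fun a => a.1 ≠ 0

private theorem Wal_mem {𝒦 : Finset (Matrix (Fin R) (Fin (m + 1)) ℝ × (Fin R → ℝ))}
    {k l : Matrix (Fin R) (Fin (m + 1)) ℝ × (Fin R → ℝ)} (hk : k ∈ 𝒦) (hl : l ∈ 𝒦) (i : Fin R)
    (h : Wal_nu k l i ≠ 0) : (Wal_nu k l i, k.2 i - l.2 i) ∈ Wal_W 𝒦 := by
  classical
  rw [Wal_W, Finset.mem_filter, Finset.mem_image]
  exact ⟨⟨((k, l), i), by simp [hk, hl], rfl⟩, h⟩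

private theorem Wal_ne {𝒦 : Finset (Matrix (Fin R) (Fin (m + 1)) ℝ × (Fin R → ℝ))}
    {a : ((Fin (m + 1) → ℝ) →L[ℝ] ℝ) × ℝ} (ha : a ∈ Wal_W 𝒦) : a.1 ≠ 0 := by
  classical
  rw [Wal_W, Finset.mem_filter] at ha
  exact ha.2

private theorem Wal_off {𝒦 : Finset (Matrix (Fin R) (Fin (m + 1)) ℝ × (Fin R → ℝ))}
    {s : Fin (m + 1) → ℝ} (hs : ∀ a ∈ Wal_W 𝒦, a.1 s + a.2 ≠ 0)
    {k l : Matrix (Fin R) (Fin (m + 1)) ℝ × (Fin R → ℝ)} (hk : k ∈ 𝒦) (hl : l ∈ 𝒦)
    (h : af l s = af k s) : l = k := by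
  have h1 : ∀ i, Wal_nu l k i = 0 := by
    intro i
    by_contra h2
    refine hs _ (Wal_mem hl hk i h2) ?_
    show Wal_nu l k i s + (l.2 i - k.2 i) = 0
    rw [Wal_nu_af, h, sub_self]
  have h2 : ∀ v, l.1.mulVec v = k.1.mulVec v := by
    intro v
    funext i
    have h3 := congrArg (fun T : (Fin (m + 1) → ℝ) →L[ℝ] ℝ => T v) (h1 i)
    simp only [Wal_nu_apply, Wal_cl_apply] at h3
    have h4 : l.1.mulVec v i - k.1.mulVec v i = 0 := h3
    linarith
  have h3 : l.1 = k.1 := by
    ext i j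
    have h4 := congrFun (h2 (Pi.single j 1)) i
    simpa using h4
  have h4 : l.2 = k.2 := by
    have h5 : l.2 + l.1.mulVec s = k.2 + k.1.mulVec s := h
    rw [h2 s] at h5
    exact add_right_cancel h5
  exact Prod.ext h3 h4

end final

theorem thm_Wal : St_Loc → St_Wal := by
  intro hLoc R m 𝒦 𝒢 c β C hbal hβ hC hβC
  classical
  obtain ⟨c', hc1, hc2, B, hB⟩ := hLoc R (m + 1) 𝒦 𝒢 c hbal
  set e : Fin (m + 1) → Fin (m + 1) → ℝ := fun j => Pi.single j 1 with he
  set G : (Matrix (Fin R) (Fin (m + 1)) ℝ × (Fin R → ℝ)) → Fin (m + 1) →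
      (Fin (m + 1) → ℝ) → ℝ := fun k i s =>
    (-1) ^ (i : ℕ) * β (af k s) fun j => Wal_cl k (e (i.succAbove j)) with hG
  have haf : ∀ (k : Matrix (Fin R) (Fin (m + 1)) ℝ × (Fin R → ℝ)) s,
      HasFDerivAt (af k) (Wal_cl k) s := by
    intro k s
    have h1 : HasFDerivAt (fun s => k.2 + Wal_cl k s) (Wal_cl k) s :=
      (Wal_cl k).hasFDerivAt.const_add k.2
    exact h1
  have hafs : ∀ k : Matrix (Fin R) (Fin (m + 1)) ℝ × (Fin R → ℝ), ContDiff ℝ 2 (af k) := by
    intro k
    have h1 : ContDiff ℝ 2 fun s => k.2 + Wal_cl k s :=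
      contDiff_const.add (Wal_cl k).contDiff
    exact h1
  have hβ2 : ContDiff ℝ 2 β := contDiff_infty.1 hβ 2
  have hβu : ∀ u : Fin m → Fin R → ℝ, ContDiff ℝ 2 fun y => β y u := fun u =>
    (ContinuousAlternatingMap.apply ℝ (Fin R → ℝ) ℝ u).contDiff.comp hβ2
  have hGs : ∀ k i, ContDiff ℝ 2 (G k i) := by
    intro k i
    exact contDiff_const.mul ((hβu _).comp (hafs k))
  have hGC : ∀ k ∈ 𝒦, ∀ i, ∀ s, s ∉ C → G k i s = 0 := by
    intro k hk i s hs
    simp only [hG]
    rw [hβC k hk s hs]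
    simp
  have hGd : ∀ k s, extDeriv β (af k s) (fun j => k.1.mulVec (Pi.single j 1)) =
      ∑ i, fderiv ℝ (G k i) s (e i) := by
    intro k s
    rw [extDeriv_apply (hβ2.differentiable (by norm_num) _)]
    refine Finset.sum_congr rfl fun i _ => ?_
    have h1 : HasFDerivAt (G k i) ((-1 : ℝ) ^ (i : ℕ) •
        (fderiv ℝ (fun y => β y fun j => Wal_cl k (e (i.succAbove j))) (af k s)).comp
          (Wal_cl k)) s := by
      have h2 := ((hβu fun j => Wal_cl k (e (i.succAbove j))).differentiable (by norm_num)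
        (af k s)).hasFDerivAt.comp s (haf k s)
      exact h2.const_mul _
    rw [h1.fderiv]
    simp only [_root_.smul_apply, ContinuousLinearMap.comp_apply, smul_eq_mul, zsmul_eq_mul,
      Int.cast_pow, Int.cast_neg, Int.cast_one]
    rfl
  -- the two conditions
  have H1 : ∀ k ∈ 𝒦, ∀ s₀, (∀ a ∈ Wal_W 𝒦, a.1 s₀ + a.2 ≠ 0) →
      ∀ᶠ s in 𝓝 s₀, c' k s = c' k s₀ := by
    intro k hk s₀ hs₀
    exact (hc1 k hk s₀ fun l hl h => Wal_off hs₀ hk hl h).mono fun s hs => hs.1
  have H1' : ∀ k ∈ 𝒦, ∀ s₀, (∀ a ∈ Wal_W 𝒦, a.1 s₀ + a.2 ≠ 0) → s₀ ∈ 𝒢 →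
      c k s₀ = c' k s₀ := by
    intro k hk s₀ hs₀ hs
    exact (hc1 k hk s₀ fun l hl h => Wal_off hs₀ hk hl h).self_of_nhds.2 hs
  have hdense : Dense 𝒢 := by
    have h1 : ∀ᵐ s ∂(volume : Measure (Fin (m + 1) → ℝ)), s ∈ 𝒢 := by
      rw [ae_iff]; exact hbal.1
    exact Measure.dense_of_ae h1
  have H2 : ∀ w, ∀ a ∈ Wal_W 𝒦, a.1 w + a.2 = 0 →
      (∀ b ∈ Wal_W 𝒦, b.1 w + b.2 = 0 → ∀ z, (b.1 z + b.2 = 0 ↔ a.1 z + a.2 = 0)) →
      ∀ cp cm : (Matrix (Fin R) (Fin (m + 1)) ℝ × (Fin R → ℝ)) → ℝ,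
      (∀ᶠ s in 𝓝 w, 0 < a.1 s + a.2 → ∀ k ∈ 𝒦, c' k s = cp k) →
      (∀ᶠ s in 𝓝 w, a.1 s + a.2 < 0 → ∀ k ∈ 𝒦, c' k s = cm k) →
      ∀ Q : (Fin (m + 1) → ℝ) →L[ℝ] ℝ, (∀ v, a.1 v = 0 → Q v = 0) →
        ∑ k ∈ 𝒦, (cp k - cm k) * ∑ i, Q (e i) * G k i w = 0 := by
    intro w a ha hw hsame cp cm hcp hcm Q hQ
    obtain ⟨u, hu⟩ : ∃ u, a.1 u ≠ 0 := by
      by_contra h
      push Not at h
      exact Wal_ne ha (ContinuousLinearMap.ext h)
    -- off the walls near `w`
    have hoff : ∀ᶠ s in 𝓝 w, a.1 s + a.2 ≠ 0 → ∀ b ∈ Wal_W 𝒦, b.1 s + b.2 ≠ 0 := by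
      have h1 : ∀ b ∈ Wal_W 𝒦, ∀ᶠ s in 𝓝 w, a.1 s + a.2 ≠ 0 → b.1 s + b.2 ≠ 0 := by
        intro b hb
        by_cases hbw : b.1 w + b.2 = 0
        · exact Eventually.of_forall fun s hs h => hs ((hsame b hb hbw s).1 h)
        · have h2 : Continuous fun s : Fin (m + 1) → ℝ => b.1 s + b.2 := by fun_prop
          filter_upwards [h2.continuousAt.eventually_ne hbw] with s hs _
          exact hs
      filter_upwards [(Finset.eventually_all (Wal_W 𝒦)).2 h1] with s hs h b hb
      exact hs b hb h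
    -- points on both sides
    have hpt : ∀ (σ : ℝ), σ ≠ 0 → ∀ P : (Fin (m + 1) → ℝ) → Prop, (∀ᶠ s in 𝓝 w, P s) →
        ∃ s ∈ 𝒢, 0 < σ * (a.1 s + a.2) ∧ P s := by
      intro σ hσ P hP
      obtain ⟨O, hOP, hO, hwO⟩ := eventually_nhds_iff.1 hP
      have h1 : Continuous fun t : ℝ => w + t • ((σ * a.1 u)⁻¹ • u) := by fun_prop
      have h2 : ∀ᶠ t : ℝ in 𝓝[>] 0, w + t • ((σ * a.1 u)⁻¹ • u) ∈ O := by
        refine (h1.continuousAt.eventually ?_).filter_mono nhdsWithin_le_nhds
        show O ∈ 𝓝 (w + (0 : ℝ) • ((σ * a.1 u)⁻¹ • u))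
        rw [zero_smul, add_zero]
        exact hO.mem_nhds hwO
      obtain ⟨t, htO, ht⟩ := (h2.and self_mem_nhdsWithin).exists
      have ht' : 0 < t := ht
      have h3 : IsOpen (O ∩ {s | 0 < σ * (a.1 s + a.2)}) :=
        hO.inter (isOpen_lt continuous_const (by fun_prop))
      obtain ⟨s, hs, hs'⟩ := hdense.inter_open_nonempty _ h3
        ⟨w + t • ((σ * a.1 u)⁻¹ • u), htO, by
          show 0 < σ * (a.1 (w + t • ((σ * a.1 u)⁻¹ • u)) + a.2)
          have h4 : σ * (a.1 (w + t • ((σ * a.1 u)⁻¹ • u)) + a.2) = t := by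
            rw [map_add, map_smul, map_smul, smul_eq_mul, smul_eq_mul]
            have h5 : a.1 w = - a.2 := by linarith
            rw [h5]
            field_simp
            ring
          rw [h4]; exact ht'⟩
      exact ⟨s, hs', hs.2, hOP s hs.1⟩
    -- the sums
    have hsum : ∀ p : Fin R → ℝ, ∑ k ∈ 𝒦 with af k w = p, (cp k - cm k) = 0 := by
      intro p
      obtain ⟨δ, hδ, D, hD⟩ := hbal.2.2 w p
      obtain ⟨s1, hs1, hs1a, hs1P⟩ := hpt 1 one_ne_zero
        (fun s => s ∈ Metric.ball w δ ∧ (a.1 s + a.2 ≠ 0 → ∀ b ∈ Wal_W 𝒦, b.1 s + b.2 ≠ 0) ∧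
          (0 < a.1 s + a.2 → ∀ k ∈ 𝒦, c' k s = cp k))
        (Filter.Eventually.and (Metric.ball_mem_nhds w hδ) (hoff.and hcp))
      obtain ⟨s2, hs2, hs2a, hs2P⟩ := hpt (-1) (by norm_num)
        (fun s => s ∈ Metric.ball w δ ∧ (a.1 s + a.2 ≠ 0 → ∀ b ∈ Wal_W 𝒦, b.1 s + b.2 ≠ 0) ∧
          (a.1 s + a.2 < 0 → ∀ k ∈ 𝒦, c' k s = cm k))
        (Filter.Eventually.and (Metric.ball_mem_nhds w hδ) (hoff.and hcm))
      have hs1a' : 0 < a.1 s1 + a.2 := by linarith
      have hs2a' : a.1 s2 + a.2 < 0 := by linarith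
      have h1 : ∑ k ∈ 𝒦 with af k w = p, cp k = D := by
        rw [← hD s1 hs1 hs1P.1]
        refine Finset.sum_congr (by ext; simp) fun k hk => ?_
        have hk' : k ∈ 𝒦 := (Finset.mem_filter.1 hk).1
        rw [H1' k hk' s1 (hs1P.2.1 hs1a'.ne') hs1, hs1P.2.2 hs1a' k hk']
      have h2 : ∑ k ∈ 𝒦 with af k w = p, cm k = D := by
        rw [← hD s2 hs2 hs2P.1]
        refine Finset.sum_congr (by ext; simp) fun k hk => ?_
        have hk' : k ∈ 𝒦 := (Finset.mem_filter.1 hk).1
        rw [H1' k hk' s2 (hs2P.2.1 hs2a'.ne) hs2, hs2P.2.2 hs2a' k hk']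
      rw [Finset.sum_sub_distrib, h1, h2, sub_self]
    -- the values
    have hval : ∀ k ∈ 𝒦, ∀ l ∈ 𝒦, af k w = af l w →
        ∑ i, Q (e i) * G k i w = ∑ i, Q (e i) * G l i w := by
      intro k hk l hl hkl
      simp only [hG]
      rw [hkl]
      refine Wal_alg (by simp) Q a.1 (Wal_ne ha) hQ (Wal_cl k) (Wal_cl l) (fun v hv => ?_) _ _
      funext i
      by_cases h1 : Wal_nu k l i = 0
      · have h2 : Wal_nu k l i v = 0 := by rw [h1]; rfl
        rw [Wal_nu_apply] at h2
        linarith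
      · have h2 := hsame _ (Wal_mem hk hl i h1) (by
          show Wal_nu k l i w + (k.2 i - l.2 i) = 0
          rw [Wal_nu_af, hkl, sub_self])
        have h3 : Wal_nu k l i w + (k.2 i - l.2 i) = 0 := by
          rw [Wal_nu_af, hkl, sub_self]
        have h4 := (h2 (w + v)).2 (by rw [map_add, hv, add_zero]; exact hw)
        have h5 : Wal_nu k l i (w + v) + (k.2 i - l.2 i) = 0 := h4
        rw [map_add] at h5
        have h6 : Wal_nu k l i v = 0 := by linarith
        rw [Wal_nu_apply] at h6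
        linarith
    rw [← Finset.sum_fiberwise_of_maps_to (s := 𝒦) (t := 𝒦.image fun k => af k w)
      (g := fun k => af k w) (fun k hk => Finset.mem_image_of_mem _ hk)]
    refine Finset.sum_eq_zero fun p hp => ?_
    obtain ⟨l, hl, rfl⟩ := Finset.mem_image.1 hp
    have h1 : ∑ k ∈ 𝒦 with af k w = af l w, (cp k - cm k) * ∑ i, Q (e i) * G k i w =
        ∑ k ∈ 𝒦 with af k w = af l w, (cp k - cm k) * ∑ i, Q (e i) * G l i w := by
      refine Finset.sum_congr rfl fun k hk => ?_
      rw [hval k (Finset.mem_filter.1 hk).1 l hl (Finset.mem_filter.1 hk).2]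
    rw [h1, ← Finset.sum_mul, hsum, zero_mul]
  -- conclusion
  have hB0 : ∀ k ∈ 𝒦, ∀ s, |c' k s| ≤ max B 0 := fun k hk s => (hB k hk s).trans (le_max_left _ _)
  have main := Wal_core (volume : Measure (Fin (m + 1) → ℝ)) 𝒦 c' G e (Wal_W 𝒦)
    (fun a ha => Wal_ne ha) (fun k hk => (hc2 k hk).1) hB0 (le_max_right _ _) H1 H2 hC
    (fun k _ i => hGs k i) hGC
  rw [← main]
  refine integral_congr_ae ?_
  have h1 : ∀ᵐ s ∂(volume : Measure (Fin (m + 1) → ℝ)), ∀ k ∈ 𝒦, c k s = c' k s :=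
    (Finset.eventually_all 𝒦).2 fun k hk => (hc2 k hk).2
  filter_upwards [h1] with s hs
  exact Finset.sum_congr rfl fun k hk => by rw [hs k hk, hGd k s]

end TDC
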