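import Pool.Agent.TDC.St
import Pool.Agent.TDC.St2

/-! TDC, module WtoD (helper30): exact forms in `Wx` have compactly supported primitives. -/

set_option autoImplicit false

namespace TDC

open scoped Topology

/-- `pull` of a multiple -/
private theorem WtoD_smul {K M : Type} [NormedField K] [Field M] {φ : K →+* M} {R p q : ℕ}
    (F : Fin R → Mˣ) (γ : SF R p q) (c : ℝ) :
    (pull F (fun I t => c • γ I t) : Fam φ p q) = c • pull F γ := by
  funext x δ ε
  show pullAt x F _ δ ε = c * pullAt x F γ δ ε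
  unfold pullAt
  rw [Finset.mul_sum]
  refine Finset.sum_congr rfl fun I _ => ?_
  show _ * (c • γ I (logv x F)) _ = _
  rw [ContinuousAlternatingMap.smul_apply, smul_eq_mul]
  ring

private theorem WtoD_dd_smul {R p q : ℕ} (γ : SF R p q) (c : ℝ) :
    SF.dd (fun I t => c • γ I t) = fun I t => c • γ.dd I t := by
  funext I t
  exact extDeriv_smul c (γ I)

private theorem WtoD_gen {K L : Type} [NormedField K] [Field L] [Algebra K L] {n q : ℕ}
    (h1 : St_Comb) (O : Set (Pt (algebraMap K L))) :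
    ∀ ω ∈ Wx (algebraMap K L) n q O, ∃ (R : ℕ) (F : Fin R → Lˣ) (γ : SF R n q), γ.PC ∧
      (∀ x, x ∉ O → (pull F γ : Fam (algebraMap K L) n q) x = 0 ∧
        (pull F γ.dd : Fam (algebraMap K L) n (q + 1)) x = 0) ∧ ω = pull F γ.dd := by
  intro ω hω
  have hsm : ∀ (c : ℝ) (R : ℕ) (F : Fin R → Lˣ) (γ : SF R n q), γ.PC →
      (∀ x, x ∉ O → (pull F γ : Fam (algebraMap K L) n q) x = 0 ∧
        (pull F γ.dd : Fam (algebraMap K L) n (q + 1)) x = 0) →
      ∃ (R' : ℕ) (F' : Fin R' → Lˣ) (γ' : SF R' n q), γ'.PC ∧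
      (∀ x, x ∉ O → (pull F' γ' : Fam (algebraMap K L) n q) x = 0 ∧
        (pull F' γ'.dd : Fam (algebraMap K L) n (q + 1)) x = 0) ∧
        c • (pull F γ.dd : Fam (algebraMap K L) n (q + 1)) = pull F' γ'.dd := by
    intro c R F γ hγ hO
    refine ⟨R, F, fun I t => c • γ I t, ?_, ?_, ?_⟩
    · intro I
      obtain ⟨h, C, hC, hz⟩ := hγ I
      refine ⟨by exact h.const_smul c, C, hC, fun t ht => ?_⟩
      show c • γ I t = 0
      rw [hz t ht, smul_zero]
    · intro x hx
      obtain ⟨ha, hb⟩ := hO x hx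
      rw [WtoD_dd_smul, WtoD_smul, WtoD_smul]
      constructor
      · show c • (pull F γ : Fam (algebraMap K L) n q) x = 0
        rw [ha, smul_zero]
      · show c • (pull F γ.dd : Fam (algebraMap K L) n (q + 1)) x = 0
        rw [hb, smul_zero]
    · rw [WtoD_dd_smul, WtoD_smul]
  unfold Wx at hω
  induction hω using Submodule.span_induction with
  | mem ω h =>
    obtain ⟨R, F, γ, h1', h2', h3'⟩ := h
    exact ⟨R, F, γ, h1', h2', h3'⟩
  | zero =>
    refine ⟨0, Fin.elim0, fun _ _ => 0, ?_, ?_, ?_⟩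
    · intro I
      exact ⟨contDiff_const, ∅, isCompact_empty, fun _ _ => rfl⟩
    · intro x _
      have hd : SF.dd (fun _ _ => 0 : SF 0 n q) = fun _ _ => 0 := by
        funext I t
        show extDeriv (fun _ => (0 : (Fin 0 → ℝ) [⋀^Fin q]→L[ℝ] ℝ)) t = 0
        simp only [extDeriv, fderiv_fun_const, Pi.zero_apply]
        exact map_zero _
      rw [hd]
      constructor <;>
      · funext δ ε
        show pullAt x _ _ δ ε = 0
        unfold pullAt
        refine Finset.sum_eq_zero fun I _ => ?_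
        exact mul_zero _
    · have hd : SF.dd (fun _ _ => 0 : SF 0 n q) = fun _ _ => 0 := by
        funext I t
        show extDeriv (fun _ => (0 : (Fin 0 → ℝ) [⋀^Fin q]→L[ℝ] ℝ)) t = 0
        simp only [extDeriv, fderiv_fun_const, Pi.zero_apply]
        exact map_zero _
      rw [hd]
      funext x δ ε
      symm
      show pullAt x _ _ δ ε = 0
      unfold pullAt
      refine Finset.sum_eq_zero fun I _ => ?_
      exact mul_zero _
  | add ω₁ ω₂ _ _ ih1 ih2 =>
    obtain ⟨R₁, F₁, γ₁, a1, b1, c1⟩ := ih1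
    obtain ⟨R₂, F₂, γ₂, a2, b2, c2⟩ := ih2
    obtain ⟨α, _, hPC, hp, hpd⟩ := h1 K L (algebraMap K L) n q R₁ R₂ F₁ F₂ γ₁ γ₂
      (fun I => (a1 I).1) (fun I => (a2 I).1)
    refine ⟨R₁ + R₂, Fin.append F₁ F₂, α, hPC a1 a2, ?_, ?_⟩
    · intro x hx
      rw [hp, hpd]
      constructor
      · show (pull F₁ γ₁ : Fam (algebraMap K L) n q) x + (pull F₂ γ₂) x = 0
        rw [(b1 x hx).1, (b2 x hx).1, add_zero]
      · show (pull F₁ γ₁.dd : Fam (algebraMap K L) n (q + 1)) x + (pull F₂ γ₂.dd) x = 0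
        rw [(b1 x hx).2, (b2 x hx).2, add_zero]
    · rw [hpd, c1, c2]
  | smul c ω _ ih =>
    obtain ⟨R, F, γ, a1, b1, c1⟩ := ih
    rw [c1]
    exact hsm c R F γ a1 b1

theorem thm_WtoD (h1 : St_Comb) (h2 : St_CSu) : St_WtoD := by
  intro K L _ _ _ n q hT O ω hω
  obtain ⟨R, F, γ, hγ, hO, hωe⟩ := WtoD_gen h1 O ω hω
  have hdd : γ.dd.PC := h2.1 R n q γ hγ
  refine ⟨pull F γ, ?_, h2.2 K L n hT R q F γ hγ, ?_, fun x hx => (hO x hx).1, ?_, ?_⟩
  · intro x
    exact ⟨R, F, γ, fun I => (hγ I).1, Filter.Eventually.of_forall fun _ => rfl⟩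
  · intro x
    refine ⟨R, F, γ, fun I => (hγ I).1, Filter.Eventually.of_forall fun y => ⟨rfl, ?_⟩⟩
    rw [hωe]
  · rw [hωe]
    exact h2.2 K L n hT R (q + 1) F γ.dd hdd
  · rw [hωe]
    intro x
    exact ⟨R, F, γ.dd, fun I => (hdd I).1, Filter.Eventually.of_forall fun _ => rfl⟩

end TDC
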