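import Pool.Agent.TDC.St
import Pool.Agent.TDC.St2
import Pool.Agent.TDC.St3
import Pool.Agent.TDC.St4
import Pool.Agent.TDC.St6

/-!
# TDC, module ZerC: the pull-back of a top form with integral zero is exact
-/

set_option autoImplicit false

namespace TDC

open scoped Topology
open MeasureTheory AlgebraicGeometry CategoryTheory

/-- a compact support is contained in an open box -/
private theorem ZerC_box {n : ℕ} (b : (Fin n → ℝ) → ℝ) (hc : HasCompactSupport b) :
    ∃ lo hi : Fin n → ℝ, tsupport b ⊆ box lo hi := by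
  obtain ⟨R, hR⟩ := hc.isCompact.isBounded.subset_closedBall (0 : Fin n → ℝ)
  refine ⟨fun _ => -(|R| + 1), fun _ => |R| + 1, fun u hu => ?_⟩
  have h1 : ‖u‖ ≤ R := by
    have h := hR hu
    rwa [mem_closedBall_zero_iff] at h
  intro i _
  have h2 : |u i| ≤ ‖u‖ := by
    have h := norm_le_pi_norm u i
    rwa [Real.norm_eq_abs] at h
  have h3 := abs_le.mp (h2.trans (h1.trans (le_abs_self R)))
  refine ⟨?_, ?_⟩
  · show -(|R| + 1) < u i
    linarith [h3.1]
  · show u i < |R| + 1
    linarith [h3.2]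

/-- the pull-back of a divergence is a sum of moves -/
private theorem ZerC_mem {K M : Type} [NormedField K] [Field M] (φ : K →+* M) {n : ℕ}
    (t : Fin n → Mˣ) (b : (Fin n → ℝ) → ℝ) (c : Fin n → (Fin n → ℝ) → ℝ)
    (S : Set (Fin n → ℝ)) (hc : ∀ j, SC (c j) S)
    (hb : ∀ u, b u = ∑ j, fderiv ℝ (c j) u (Pi.single j 1)) :
    std φ t b ∈ W0 φ n Set.univ := by
  have h : std φ t b = ∑ j, tf (φ := φ) (Fin.elim0 : Fin 0 → Mˣ) t (fun _ => 1)
      (fun u => fderiv ℝ (c j) u (Pi.single j 1)) := by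
    funext x δ ε
    simp only [Finset.sum_apply]
    unfold std tf
    rw [hb, Finset.sum_mul, Finset.sum_mul]
    refine Finset.sum_congr rfl fun j _ => ?_
    ring
  rw [h]
  refine Submodule.sum_mem _ fun j _ => Submodule.subset_span ?_
  refine ⟨0, Fin.elim0, t, fun _ => 1, c j, S, j, ⟨contDiff_const, fun x _ _ => Or.inr ?_⟩, hc j,
    fun x hx => absurd (Set.mem_univ x) hx, rfl⟩
  exact Filter.EventuallyEq.rfl

/-- **ZerC**. If the integral of `b` is zero then `t^*(b)` is `d''` of a compactly supported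
form. -/
theorem thm_ZerC (hDiv : St_Div) (hEM : St_EM) (hWtoD : St_WtoD) (hStdF : St_StdF)
    (hUpA : St_UpA) (hExtE : St_ExtE) : St_ZerC := by
  intro K _ X _ s m t htr b ω₀ hb hc hint hT
  obtain ⟨lo, hi, hbox⟩ := ZerC_box b hc
  obtain ⟨c, hc1, hc2⟩ := hDiv (m + 1) lo hi b ⟨hb, hc, hbox⟩ hint
  have hmem := hEM K (X.residueField (genericPoint X)) (kmap s (genericPoint X)) m Set.univ
    (ZerC_mem (kmap s (genericPoint X)) t b c _ hc1 hc2)
  obtain ⟨η, hη1, hη2, hη3, -, hs, -⟩ := @hWtoD K (X.residueField (genericPoint X)) _ _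
    (kmap s (genericPoint X)).toAlgebra (m + 1) m htr Set.univ _ hmem
  obtain ⟨he, -, -⟩ := @hStdF K (X.residueField (genericPoint X)) _ _
    (kmap s (genericPoint X)).toAlgebra (m + 1) t b htr hb hc
  have he' : (pull t (top b) : Fam (kmap s (genericPoint X)) (m + 1) (m + 1)) =
      std (kmap s (genericPoint X)) t b := he
  have hs' : CSupp (pull t (top b) : Fam (kmap s (genericPoint X)) (m + 1) (m + 1)) := by
    rw [he']
    exact hs
  have hη3' : IsDbar (η : Fam (kmap s (genericPoint X)) (m + 1) m)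
      (pull t (top b) : Fam (kmap s (genericPoint X)) (m + 1) (m + 1)) := by
    rw [he']
    exact hη3
  obtain ⟨η', hη'⟩ := hExtE K X s (m + 1) m (η : Fam (kmap s (genericPoint X)) (m + 1) m)
  have hω₀ : IsExt (pull t (top b) : Fam (kmap s (genericPoint X)) (m + 1) (m + 1)) ω₀ :=
    ⟨fun v => hT.1 v, hT.2⟩
  obtain ⟨h1, h2, -⟩ := (hUpA K X s (m + 1) htr).1 m _ η' hη' hη1 hη2
  exact ⟨η', h1, h2, (hUpA K X s (m + 1) htr).2 m _ _ η' ω₀ hη' hω₀ hη3' hη2 hs'⟩

end TDC
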