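import Pool.Agent.TDC.Aeq
import Pool.Agent.TDC.Avd
import Pool.Agent.TDC.BaJ
import Pool.Agent.TDC.CSu
import Pool.Agent.TDC.Chan
import Pool.Agent.TDC.CleU
import Pool.Agent.TDC.Clos
import Pool.Agent.TDC.Cmp
import Pool.Agent.TDC.CohC
import Pool.Agent.TDC.Comb
import Pool.Agent.TDC.CombA
import Pool.Agent.TDC.CombU
import Pool.Agent.TDC.ConT
import Pool.Agent.TDC.Cpo
import Pool.Agent.TDC.DetZ
import Pool.Agent.TDC.Div
import Pool.Agent.TDC.DnA
import Pool.Agent.TDC.DnD
import Pool.Agent.TDC.EM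
import Pool.Agent.TDC.EmF
import Pool.Agent.TDC.EmG
import Pool.Agent.TDC.EmbA
import Pool.Agent.TDC.ExT
import Pool.Agent.TDC.Exc
import Pool.Agent.TDC.ExtE
import Pool.Agent.TDC.FBdr
import Pool.Agent.TDC.FCS
import Pool.Agent.TDC.FCpt
import Pool.Agent.TDC.FDiv
import Pool.Agent.TDC.FFace
import Pool.Agent.TDC.FFark
import Pool.Agent.TDC.FFin
import Pool.Agent.TDC.FGord
import Pool.Agent.TDC.FHom
import Pool.Agent.TDC.FJ
import Pool.Agent.TDC.FLev
import Pool.Agent.TDC.FNon
import Pool.Agent.TDC.FPar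
import Pool.Agent.TDC.FReD
import Pool.Agent.TDC.FRep
import Pool.Agent.TDC.FSto
import Pool.Agent.TDC.FTop
import Pool.Agent.TDC.FTub
import Pool.Agent.TDC.FVal
import Pool.Agent.TDC.FZero
import Pool.Agent.TDC.FinF
import Pool.Agent.TDC.Fini
import Pool.Agent.TDC.FldA
import Pool.Agent.TDC.Frc
import Pool.Agent.TDC.GAff
import Pool.Agent.TDC.GCmp
import Pool.Agent.TDC.GCor
import Pool.Agent.TDC.GCpl
import Pool.Agent.TDC.GCpt
import Pool.Agent.TDC.GDec
import Pool.Agent.TDC.GEx
import Pool.Agent.TDC.GFin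
import Pool.Agent.TDC.GMul
import Pool.Agent.TDC.GNl
import Pool.Agent.TDC.GPul
import Pool.Agent.TDC.GStd
import Pool.Agent.TDC.GSup
import Pool.Agent.TDC.GTro
import Pool.Agent.TDC.Gen
import Pool.Agent.TDC.GenA
import Pool.Agent.TDC.GenB
import Pool.Agent.TDC.GenI
import Pool.Agent.TDC.Gene
import Pool.Agent.TDC.Homo
import Pool.Agent.TDC.IAf
import Pool.Agent.TDC.IFan
import Pool.Agent.TDC.IGm
import Pool.Agent.TDC.INJ
import Pool.Agent.TDC.IPr
import Pool.Agent.TDC.IndG
import Pool.Agent.TDC.InjC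
import Pool.Agent.TDC.Irr
import Pool.Agent.TDC.Irre
import Pool.Agent.TDC.KeyE
import Pool.Agent.TDC.LoPu
import Pool.Agent.TDC.Loc
import Pool.Agent.TDC.LocR
import Pool.Agent.TDC.MLoc
import Pool.Agent.TDC.Mnr
import Pool.Agent.TDC.Mov
import Pool.Agent.TDC.Newt
import Pool.Agent.TDC.Npg
import Pool.Agent.TDC.PUni
import Pool.Agent.TDC.Pair
import Pool.Agent.TDC.PhiO
import Pool.Agent.TDC.PhiT
import Pool.Agent.TDC.Psi
import Pool.Agent.TDC.Rank
import Pool.Agent.TDC.Real
import Pool.Agent.TDC.Root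
import Pool.Agent.TDC.SelE
import Pool.Agent.TDC.SelU
import Pool.Agent.TDC.Sepa
import Pool.Agent.TDC.Shri
import Pool.Agent.TDC.Slo
import Pool.Agent.TDC.Spli
import Pool.Agent.TDC.StA
import Pool.Agent.TDC.StB
import Pool.Agent.TDC.StJ
import Pool.Agent.TDC.StdF
import Pool.Agent.TDC.Step
import Pool.Agent.TDC.ThmC
import Pool.Agent.TDC.Tng
import Pool.Agent.TDC.TorH
import Pool.Agent.TDC.TowR
import Pool.Agent.TDC.TrT
import Pool.Agent.TDC.TroF
import Pool.Agent.TDC.Uniq
import Pool.Agent.TDC.UpA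
import Pool.Agent.TDC.ValD
import Pool.Agent.TDC.ValT
import Pool.Agent.TDC.VanA
import Pool.Agent.TDC.Wal
import Pool.Agent.TDC.WtoD
import Pool.Agent.TDC.ZerC

/-!
# TDC: the theorems without hypotheses
-/

namespace TDC

private theorem u_GAff : St_GAff := thm_GAff
private theorem u_FFark : St_FFark := thm_FFark
private theorem u_FZero : St_FZero := thm_FZero u_FFark
private theorem u_GCor : St_GCor := thm_GCor u_FZero
private theorem u_EmbA : St_EmbA := thm_EmbA
private theorem u_IndG : St_IndG := thm_IndG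
private theorem u_DetZ : St_DetZ := thm_DetZ
private theorem u_VanA : St_VanA := thm_VanA u_EmbA u_IndG u_DetZ
private theorem u_DnA : St_DnA := thm_DnA u_EmbA u_VanA
private theorem u_GSup : St_GSup := thm_GSup u_GAff u_GCor u_DnA
private theorem u_GMul : St_GMul := thm_GMul
private theorem u_FVal : St_FVal := thm_FVal
private theorem u_FJ : St_FJ := thm_FJ u_FZero u_FVal
private theorem u_FFace : St_FFace := thm_FFace
private theorem u_GTro : St_GTro := thm_GTro u_FFace u_FVal
private theorem u_GStd : St_GStd := thm_GStd u_FZero u_FJ u_GTro u_GCor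
private theorem u_GPul : St_GPul := thm_GPul u_GTro
private theorem u_FGord : St_FGord := thm_FGord
private theorem u_FLev : St_FLev := thm_FLev u_FGord u_FFark
private theorem u_FPar : St_FPar := thm_FPar u_FLev
private theorem u_FBdr : St_FBdr := thm_FBdr u_FFace
private theorem u_FHom : St_FHom := thm_FHom u_FGord u_FFace
private theorem u_FCpt : St_FCpt := thm_FCpt u_FHom u_FFace u_FVal
private theorem u_FFin : St_FFin := thm_FFin u_FGord u_FZero u_FJ u_FCpt u_FVal
private theorem u_FRep : St_FRep := thm_FRep u_FBdr u_FFin u_FJ u_FZero u_FVal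
private theorem u_PUni : St_PUni := thm_PUni
private theorem u_Fini : St_Fini := thm_Fini
private theorem u_Homo : St_Homo := thm_Homo
private theorem u_Real : St_Real := thm_Real u_Homo
private theorem u_GenA : St_GenA := thm_GenA u_Fini u_Real u_DetZ u_IndG
private theorem u_GenB : St_GenB := thm_GenB u_DetZ u_IndG
private theorem u_Gene : St_Gene := thm_Gene u_GenA u_GenB
private theorem u_Div : St_Div := thm_Div
private theorem u_Mov : St_Mov := thm_Mov u_Div
private theorem u_Irre : St_Irre := thm_Irre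
private theorem u_Newt : St_Newt := thm_Newt u_Irre
private theorem u_GCpt : St_GCpt := thm_GCpt
private theorem u_Shri : St_Shri := thm_Shri u_GCpt
private theorem u_LoPu : St_LoPu := thm_LoPu u_Newt u_Shri u_IndG
private theorem u_CleU : St_CleU := thm_CleU
private theorem u_PhiT : St_PhiT := thm_PhiT
private theorem u_StA : St_StA := thm_StA u_Mov u_LoPu u_CleU u_PhiT u_IndG
private theorem u_FinF : St_FinF := thm_FinF
private theorem u_Spli : St_Spli := thm_Spli u_FinF u_Shri u_DetZ u_IndG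
private theorem u_MLoc : St_MLoc := thm_MLoc
private theorem u_Chan : St_Chan := thm_Chan u_MLoc u_Shri u_DetZ u_IndG
private theorem u_Sepa : St_Sepa := thm_Sepa
private theorem u_SelE : St_SelE := thm_SelE u_FinF u_Sepa u_Shri
private theorem u_GenI : St_GenI := thm_GenI
private theorem u_StB : St_StB := thm_StB u_Mov u_Spli u_Chan u_SelE u_FinF u_GenI
private theorem u_Rank : St_Rank := thm_Rank
private theorem u_KeyE : St_KeyE := thm_KeyE
private theorem u_Root : St_Root := thm_Root
private theorem u_Uniq : St_Uniq := thm_Uniq u_Irre u_Root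
private theorem u_SelU : St_SelU := thm_SelU u_Uniq u_IndG
private theorem u_Step : St_Step := thm_Step u_StA u_StB u_Rank u_KeyE u_SelE u_SelU u_IndG
private theorem u_PhiO : St_PhiO := thm_PhiO u_CleU
private theorem u_TowR : St_TowR := thm_TowR
private theorem u_LocR : St_LocR := thm_LocR u_Step u_PhiT u_PhiO u_TowR
private theorem u_EM : St_EM := thm_EM u_DetZ u_IndG
private theorem u_Comb : St_Comb := thm_Comb
private theorem u_CSu : St_CSu := thm_CSu u_DetZ u_IndG u_GCpt
private theorem u_WtoD : St_WtoD := thm_WtoD u_Comb u_CSu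
private theorem u_FldA : St_FldA := thm_FldA u_PUni u_Gene u_LocR u_EM u_WtoD u_TowR
private theorem u_StdF : St_StdF := thm_StdF u_CSu
private theorem u_UpA : St_UpA := thm_UpA u_EmbA u_VanA
private theorem u_ExtE : St_ExtE := thm_ExtE
private theorem u_CombU : St_CombU := thm_CombU
private theorem u_CombA : St_CombA := thm_CombA u_CombU
private theorem u_GDec : St_GDec := thm_GDec u_GSup u_GMul u_GStd u_GPul u_GTro u_GCor u_FPar
    u_FRep u_FGord u_FZero u_FldA u_StdF u_UpA u_DnA u_ExtE u_CombA u_TowR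
private theorem u_ThmC : St_ThmC := thm_ThmC u_FldA u_UpA u_DnA u_ExtE u_StdF u_TowR
private theorem u_FReD : St_FReD := thm_FReD u_FRep u_FBdr u_FFin u_FJ u_FZero u_FVal
private theorem u_FCS : St_FCS := thm_FCS u_FGord u_FZero u_FJ u_FVal
private theorem u_FDiv : St_FDiv := thm_FDiv
private theorem u_FTub : St_FTub := thm_FTub
private theorem u_FNon : St_FNon := thm_FNon u_FLev u_FPar u_FTub
private theorem u_FSto : St_FSto := thm_FSto
private theorem u_FTop : St_FTop := thm_FTop u_FRep u_FReD u_FCS u_FDiv u_FNon u_FLev u_Div u_FSto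
    u_FZero u_FJ
private theorem u_GCmp : St_GCmp := thm_GCmp u_ThmC u_GStd u_GPul u_GCor u_FTop u_DnA u_TowR u_UpA
    u_StdF u_CSu u_FCS u_FRep u_FZero
private theorem u_GCpl : St_GCpl := thm_GCpl u_GSup u_GCor u_FLev u_TowR u_DnA u_EmbA
private theorem u_Tng : St_Tng := thm_Tng u_MLoc
private theorem u_Gen : St_Gen := thm_Gen u_Fini u_Tng u_IndG
private theorem u_GNl : St_GNl := thm_GNl
private theorem u_EmF : St_EmF := thm_EmF
private theorem u_EmG : St_EmG := thm_EmG
private theorem u_Loc : St_Loc := thm_Loc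
private theorem u_Wal : St_Wal := thm_Wal u_Loc
private theorem u_ExT : St_ExT := thm_ExT
private theorem u_GEx : St_GEx := thm_GEx u_ExT u_IndG u_EmG
private theorem u_Npg : St_Npg := thm_Npg
private theorem u_Frc : St_Frc := thm_Frc
private theorem u_Irr : St_Irr := thm_Irr
private theorem u_Psi : St_Psi := thm_Psi u_EmF u_EmG u_Npg u_Frc u_Irr
private theorem u_Slo : St_Slo := thm_Slo
private theorem u_Mnr : St_Mnr := thm_Mnr
private theorem u_Exc : St_Exc := thm_Exc u_EmF u_EmG u_IndG u_Psi u_Slo u_Mnr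
private theorem u_Avd : St_Avd := thm_Avd
private theorem u_Cmp : St_Cmp := thm_Cmp u_EmG u_GEx u_IndG u_FinF u_Exc u_Tng u_Avd
private theorem u_Cpo : St_Cpo := thm_Cpo u_EmF u_EmG u_GEx u_IndG u_Tng u_Cmp
private theorem u_Aeq : St_Aeq := thm_Aeq u_EmG u_IndG u_GNl u_Cpo
private theorem u_Con : St_Con := thm_Con u_EmF u_EmG u_Avd u_Psi
private theorem u_BaJ : St_BaJ := thm_BaJ u_EmF u_EmG u_IndG u_Tng u_GNl u_GEx u_Con
private theorem u_StJ : St_StJ := thm_StJ u_Loc u_Wal u_Aeq u_BaJ
private theorem u_TrT : St_TrT := thm_TrT u_EmF u_GEx u_Loc u_Aeq u_BaJ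
private theorem u_INJ : St_INJ := thm_INJ u_Gen u_Fini u_GNl u_EmF u_EmG u_IndG u_Tng u_StJ u_TrT
private theorem u_InjF : St_InjF := by
  intro K L _ _ _ _ m t hc hR R F γ b hγ hb hbc h
  obtain ⟨h1, h2⟩ := u_TowR.1 K L (m + 1) t hR
  exact u_INJ K L m R h1 h2 hc t hR.1 hR.2 b hb hbc F γ hγ h
private theorem u_DnD : St_DnD := thm_DnD u_EmbA
private theorem u_Pair : St_Pair := thm_Pair
private theorem u_InjC : St_InjC := thm_InjC u_InjF u_DnD u_DnA u_Pair u_StdF u_TowR
private theorem u_GFin : St_GFin := thm_GFin u_GDec u_GCmp u_FTop u_FCS u_GCpl u_InjC u_GCor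
    u_GStd u_GPul u_DnA u_StdF u_TowR u_CombA u_FZero
private theorem u_TroF : St_TroF := thm_TroF u_StdF u_UpA u_ExtE
private theorem u_ZerC : St_ZerC := thm_ZerC u_Div u_EM u_WtoD u_StdF u_UpA u_ExtE
private theorem u_Clos : St_Clos := thm_Clos u_Fini u_DetZ u_IndG u_VanA
private theorem u_CohC : St_CohC := thm_CohC u_ThmC u_TroF u_ZerC u_InjC u_Clos u_TowR
private theorem u_TorH : St_TorH := thm_TorH u_GFin u_GTro u_GPul u_GCmp u_FTop u_GCpl u_GCor
    u_CohC
private theorem u_ValT : St_ValT := thm_ValT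
private theorem u_ValD : St_ValD := thm_ValD u_ValT
private theorem u_IFan : St_IFan := thm_IFan
private theorem u_IGm : St_IGm := thm_IGm
private theorem u_IAf : St_IAf := thm_IAf
private theorem u_IPr : St_IPr := thm_IPr

theorem torH : St_TorH := u_TorH

theorem cohC : St_CohC := u_CohC

theorem valD : St_ValD := u_ValD

theorem iFan : St_IFan := u_IFan

theorem iGm : St_IGm := u_IGm

theorem iAf : St_IAf := u_IAf

theorem iPr : St_IPr := u_IPr

end TDC
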