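import Pool.Agent.TDC.VTBr
import Pool.Agent.TDC.TorU

/-!
# TDC: the toric varieties `𝔾_m^n`, `𝔸^n`, `ℙ^n` in the short definitions
-/

namespace TDC

open scoped Topology
open AlgebraicGeometry CategoryTheory

/-- **InstV**. `𝔾_m^n`, `𝔸^n`, `ℙ^n` are toric varieties; the fan of `𝔾_m^n` and of `𝔸^n`, `n > 0`, is
not complete, the fan of `ℙ^n` is complete. -/
def St_InstV : Prop :=
  ∀ (K : Type) [NormedField K] (n : ℕ),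
    (IsIntegral (GmK K n) ∧ ∃ Δ : Fan n, (0 < n → ¬ Δ.Complete) ∧ Nonempty (ToricV Δ (GmKs K n))) ∧
    (IsIntegral (AfK K n) ∧ ∃ Δ : Fan n, (0 < n → ¬ Δ.Complete) ∧ Nonempty (ToricV Δ (AfKs K n))) ∧
    (IsIntegral (PrK K n) ∧ ∃ Δ : Fan n, Δ.Complete ∧ Nonempty (ToricV Δ (PrKs K n)))

theorem instV : St_InstV := by
  intro K _ n
  obtain ⟨⟨Δ₁, h11, h12⟩, ⟨Δ₂, e₂, h21, h22⟩, ⟨Δ₃, e₃, h31, h32⟩⟩ := iFan n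
  obtain ⟨a1, ⟨t1⟩⟩ := iGm K n Δ₁ h11 h12
  obtain ⟨a2, ⟨t2⟩⟩ := iAf K n Δ₂ e₂ h22
  obtain ⟨a3, ⟨t3⟩⟩ := iPr K n Δ₃ e₃ h32
  refine ⟨⟨a1, Δ₁, fun hn hc => ?_, ⟨t1.toV⟩⟩, ⟨a2, Δ₂, h21, ⟨t2.toV⟩⟩, ⟨a3, Δ₃, h31, ⟨t3.toV⟩⟩⟩
  obtain ⟨i, hi⟩ := hc (fun _ => 1)
  have h : coneOf (Δ₁.gens i) = {0} := by
    rw [h12 i]
    ext u
    constructor
    · rintro ⟨a, -, h⟩
      rw [Finset.sum_empty] at h
      exact h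
    · intro h
      exact ⟨fun _ => 0, fun _ => le_rfl, by rw [Finset.sum_empty]; exact h⟩
  have h1 : (fun _ : Fin n => (1 : ℝ)) ∈ coneOf (Δ₁.gens i) := hi
  rw [h] at h1
  have h2 := congrFun (Set.mem_singleton_iff.1 h1) ⟨0, hn⟩
  exact one_ne_zero h2

end TDC
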