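import Pool.Agent.TDC.StT

/-!
# TDC, module Aeq: comparison of the weights along a sheet, almost everywhere
-/

set_option autoImplicit false

namespace TDC

open scoped Topology
open MeasureTheory

private theorem Aeq_null {n : ℕ} (w : Fin n → ℝ) (hw : w ≠ 0) (d : ℝ) :
    volume {s : Fin n → ℝ | w ⬝ᵥ s = d} = 0 := by
  have hker : volume ((LinearMap.ker (dotProductBilin ℝ ℝ w) : Submodule ℝ (Fin n → ℝ)) :
      Set (Fin n → ℝ)) = 0 := by
    apply Measure.addHaar_submodule
    intro htop
    apply hw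
    funext j
    have hj : (Pi.single j 1 : Fin n → ℝ) ∈ LinearMap.ker (dotProductBilin ℝ ℝ w) := by
      rw [htop]
      exact Submodule.mem_top
    rw [LinearMap.mem_ker] at hj
    have h2 : w ⬝ᵥ Pi.single j 1 = 0 := hj
    rw [dotProduct_single_one] at h2
    exact h2
  rcases Set.eq_empty_or_nonempty {s : Fin n → ℝ | w ⬝ᵥ s = d} with h | ⟨s₀, hs₀⟩
  · rw [h, measure_empty]
  · have e : {s : Fin n → ℝ | w ⬝ᵥ s = d} = (fun s => s + -s₀) ⁻¹'
        ((LinearMap.ker (dotProductBilin ℝ ℝ w) : Submodule ℝ (Fin n → ℝ)) :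
          Set (Fin n → ℝ)) := by
      ext s
      have hs : w ⬝ᵥ s₀ = d := hs₀
      show w ⬝ᵥ s = d ↔ s + -s₀ ∈ LinearMap.ker (dotProductBilin ℝ ℝ w)
      rw [LinearMap.mem_ker]
      show w ⬝ᵥ s = d ↔ w ⬝ᵥ (s + -s₀) = 0
      rw [dotProduct_add, dotProduct_neg, hs]
      constructor
      · intro h
        rw [h]
        ring
      · intro h
        linarith
    rw [e, measure_preimage_add_right, hker]

/-- two different affine maps are different almost everywhere -/
private theorem Aeq_ne {R n : ℕ} (k l : Matrix (Fin R) (Fin n) ℝ × (Fin R → ℝ)) (h : l ≠ k) :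
    ∀ᵐ u : Fin n → ℝ, af l u ≠ af k u := by
  rw [ae_iff]
  by_cases h1 : l.1 = k.1
  · have h2 : l.2 ≠ k.2 := fun h2 => h (Prod.ext h1 h2)
    have h3 : {u : Fin n → ℝ | ¬ af l u ≠ af k u} = ∅ := by
      rw [Set.eq_empty_iff_forall_notMem]
      intro u hu
      have hu' : af l u = af k u := not_not.1 hu
      unfold af at hu'
      rw [h1] at hu'
      exact h2 (add_right_cancel hu')
    rw [h3, measure_empty]
  · have h2 : ∃ i, l.1 i - k.1 i ≠ 0 := by
      by_contra hc
      push Not at hc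
      exact h1 (funext fun i => sub_eq_zero.1 (hc i))
    obtain ⟨i, hi⟩ := h2
    refine measure_mono_null ?_ (Aeq_null _ hi (k.2 i - l.2 i))
    intro u hu
    have hu' : af l u = af k u := not_not.1 hu
    have h3 := congrFun hu' i
    unfold af at h3
    have h4 : l.2 i + l.1 i ⬝ᵥ u = k.2 i + k.1 i ⬝ᵥ u := h3
    show (l.1 i - k.1 i) ⬝ᵥ u = k.2 i - l.2 i
    rw [sub_dotProduct]
    linarith

theorem thm_Aeq (h1 : St_EmG) (h2 : St_IndG) (h3 : St_GNl) (h4 : St_Cpo) : St_Aeq := by
  intro K L _ _ _ _ n R hn htr hfg hcount F I J 𝒦 hS k hk hdet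
  obtain ⟨hsec, hsh⟩ := hS
  have g1 : ∀ᵐ u : Fin n → ℝ, Generic K u := by
    have h := h3 K n hcount 1 0 (by rw [Matrix.det_one]; exact one_ne_zero)
    filter_upwards [h] with u hu
    rwa [Matrix.one_mulVec, zero_add] at hu
  have g2 := h3 K n hcount (k.1.submatrix J id) (k.2 ∘ J) hdet
  have g3 : ∀ᵐ u : Fin n → ℝ, ∀ l ∈ 𝒦, l ≠ k → af l u ≠ af k u := by
    rw [Filter.eventually_all_finset]
    intro l _
    by_cases h : l = k
    · exact Filter.Eventually.of_forall fun u hne => absurd h hne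
    · filter_upwards [Aeq_ne k l h] with u hu _
      exact hu
  filter_upwards [g1, g2, g3] with u hu1 hu2 hu3
  have e1 : af k u ∘ J = k.2 ∘ J + (k.1.submatrix J id).mulVec u := rfl
  have e2 : af k u ∘ I = u := funext fun i => hsec k hk u i
  have hmain := h4 K L n R hn htr hfg F I J (af k u) (k.1.submatrix J id).det
    (by rw [e2]; exact hu1) (by rw [e1]; exact hu2) ?_
  · rw [e2] at hmain
    exact hmain
  · intro y hy δ
    have hlog : logv y (F ∘ I) = u := by
      have h : logv y (F ∘ I) = logv y F ∘ I := rfl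
      rw [h, hy, e2]
    have hInd : Indep y (F ∘ I) := (h1.2.2 K L n (F ∘ I) y).2 (by rw [hlog]; exact hu1)
    obtain ⟨l, hl, hl1, hl2⟩ := hsh y (h2 K L (algebraMap K L) n y (F ∘ I) hInd)
    have hlk : l = k := by
      by_contra hne
      apply hu3 l hl hne
      rw [hlog, hy] at hl1
      exact hl1.symm
    subst hlk
    have hM : (Matrix.of fun a b => ev (F ∘ J) (δ a) b) =
        (Matrix.of fun a b => ev (F ∘ I) (δ a) b) * (l.1.submatrix J id).transpose := by
      ext a b
      have h5 : ev (F ∘ J) (δ a) b = ev F (δ a) (J b) := rfl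
      rw [Matrix.mul_apply, Matrix.of_apply, h5, hl2 (δ a)]
      unfold Matrix.mulVec dotProduct
      refine Finset.sum_congr rfl fun c _ => ?_
      rw [Matrix.transpose_apply, Matrix.submatrix_apply, Matrix.of_apply, mul_comm]
      rfl
    rw [hM, Matrix.det_mul, Matrix.det_transpose, mul_comm]

end TDC
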