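import Pool.Agent.TDC.St

/-!
# TDC, module EM: the moves `W0` are exact
-/

namespace TDC

open scoped Topology

/-- A linear form is determined by its values on the standard basis. -/
private lemma EM_lin {n : ℕ} (l : (Fin n → ℝ) →L[ℝ] ℝ) (w : Fin n → ℝ) :
    l w = ∑ k, l (Pi.single k 1) • w k := by
  have h1 : ∑ k, Pi.single k (w k) = w := Finset.univ_sum_single w
  have h2 : ∀ k, (Pi.single k (w k) : Fin n → ℝ) = w k • Pi.single k 1 := by
    intro k
    rw [← Pi.single_smul', smul_eq_mul, mul_one]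
  calc l w = l (∑ k, Pi.single k (w k)) := by rw [h1]
    _ = ∑ k, l (Pi.single k (w k)) := map_sum l _ _
    _ = ∑ k, l (Pi.single k 1) • w k := by
      refine Finset.sum_congr rfl fun k _ => ?_
      rw [h2 k, map_smul, smul_eq_mul, smul_eq_mul, mul_comm]

/-- Expansion along column `j` after replacing this column by the values of a linear form. -/
private lemma EM_col {m : ℕ} (W : Matrix (Fin (m + 1)) (Fin (m + 1)) ℝ) (j : Fin (m + 1))
    (l : (Fin (m + 1) → ℝ) →L[ℝ] ℝ) :
    ∑ i : Fin (m + 1), (-1 : ℝ) ^ (i : ℕ) * ((-1 : ℝ) ^ (j : ℕ) * l (W i) *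
      (W.submatrix i.succAbove j.succAbove).det) = l (Pi.single j 1) * W.det := by
  have h1 := Matrix.det_updateCol_sum W j (fun k => l (Pi.single k 1))
  have h2 := Matrix.det_succ_column
    (W.updateCol j (fun k => ∑ i, l (Pi.single i 1) • W k i)) j
  rw [h1, smul_eq_mul] at h2
  rw [h2]
  refine Finset.sum_congr rfl fun i _ => ?_
  have h3 : (W.updateCol j (fun k => ∑ i, l (Pi.single i 1) • W k i)).submatrix
      i.succAbove j.succAbove = W.submatrix i.succAbove j.succAbove := by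
    ext a b
    rw [Matrix.submatrix_apply, Matrix.submatrix_apply,
      Matrix.updateCol_ne (Fin.succAbove_ne j b)]
  have h4 : (W.updateCol j (fun k => ∑ i, l (Pi.single i 1) • W k i)) i j = l (W i) := by
    rw [Matrix.updateCol_self, EM_lin l (W i)]
  rw [h3, h4, pow_add]
  ring

section field

variable {K M : Type} [NormedField K] [Field M] {φ : K →+* M} {R n : ℕ}

private lemma EM_left (x : Pt φ) (F : Fin R → Mˣ) (g : Fin n → Mˣ) :
    (fun i => logv x (Fin.append F g) (Fin.castAdd n i)) = logv x F := by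
  funext i
  simp only [logv, Fin.append_left]

private lemma EM_right (x : Pt φ) (F : Fin R → Mˣ) (g : Fin n → Mˣ) :
    (fun i => logv x (Fin.append F g) (Fin.natAdd R i)) = logv x g := by
  funext i
  simp only [logv, Fin.append_right]

private lemma EM_ev {x : Pt φ} (F : Fin R → Mˣ) (g : Fin n → Mˣ) (δ : Tan x) (i : Fin n) :
    ev (Fin.append F g) δ (Fin.natAdd R i) = ev g δ i := by
  simp only [ev, Fin.append_right]

/-- The pull-back of a superform with one non-zero component. -/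
private lemma EM_one {p q : ℕ} (x : Pt φ) (F : Fin R → Mˣ) (α : SF R p q) (I₀ : Fin p → Fin R)
    (h : ∀ I, I ≠ I₀ → α I (logv x F) = 0) (δ : Fin p → Tan x) (ε : Fin q → Tan x) :
    pullAt x F α δ ε = (Matrix.of fun i j => ev F (δ i) (I₀ j)).det *
      α I₀ (logv x F) (fun i => ev F (ε i)) := by
  unfold pullAt
  rw [Finset.sum_eq_single I₀]
  · intro I _ hI
    rw [h I hI]
    simp
  · intro h
    exact absurd (Finset.mem_univ _) h

end field

/-- the coefficient of the primitive -/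
private noncomputable def EM_f {R m : ℕ} (χ : (Fin R → ℝ) → ℝ) (c : (Fin (m + 1) → ℝ) → ℝ)
    (j : Fin (m + 1)) : (Fin (R + (m + 1)) → ℝ) → ℝ := fun t =>
  (-1 : ℝ) ^ (j : ℕ) * χ (fun i => t (Fin.castAdd (m + 1) i)) * c (fun i => t (Fin.natAdd R i))

open Classical in
/-- the primitive -/
private noncomputable def EM_gam {R m : ℕ} (χ : (Fin R → ℝ) → ℝ) (c : (Fin (m + 1) → ℝ) → ℝ)
    (j : Fin (m + 1)) : SF (R + (m + 1)) (m + 1) m := fun I t =>
  if I = Fin.natAdd R then EM_f χ c j t • dx (fun k => Fin.natAdd R (j.succAbove k)) else 0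

private lemma EM_gam_self {R m : ℕ} (χ : (Fin R → ℝ) → ℝ) (c : (Fin (m + 1) → ℝ) → ℝ)
    (j : Fin (m + 1)) : EM_gam χ c j (Fin.natAdd R) =
      fun t => EM_f χ c j t • dx (fun k => Fin.natAdd R (j.succAbove k)) := by
  funext t
  simp only [EM_gam, if_true]

private lemma EM_gam_ne {R m : ℕ} (χ : (Fin R → ℝ) → ℝ) (c : (Fin (m + 1) → ℝ) → ℝ)
    (j : Fin (m + 1)) (I : Fin (m + 1) → Fin (R + (m + 1))) (hI : I ≠ Fin.natAdd R) :
    EM_gam χ c j I = fun _ => 0 := by
  funext t
  simp only [EM_gam, if_neg hI]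

private lemma EM_smooth {R m : ℕ} (χ : (Fin R → ℝ) → ℝ) (c : (Fin (m + 1) → ℝ) → ℝ)
    (j : Fin (m + 1)) (hχ : ContDiff ℝ (⊤ : ℕ∞) χ) (hc : ContDiff ℝ (⊤ : ℕ∞) c) :
    ContDiff ℝ (⊤ : ℕ∞) (EM_f χ c j) := by
  refine (contDiff_const.mul (hχ.comp ?_)).mul (hc.comp ?_)
  · exact contDiff_pi.mpr fun i => contDiff_apply ℝ ℝ (Fin.castAdd (m + 1) i)
  · exact contDiff_pi.mpr fun i => contDiff_apply ℝ ℝ (Fin.natAdd R i)

private lemma EM_PC {R m : ℕ} (χ : (Fin R → ℝ) → ℝ) (c : (Fin (m + 1) → ℝ) → ℝ)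
    (j : Fin (m + 1)) (hχ : ContDiff ℝ (⊤ : ℕ∞) χ) (hc : ContDiff ℝ (⊤ : ℕ∞) c)
    (hs : HasCompactSupport c) : (EM_gam χ c j).PC := by
  intro I
  by_cases hI : I = Fin.natAdd R
  · subst hI
    rw [EM_gam_self]
    refine ⟨(EM_smooth χ c j hχ hc).smul contDiff_const, tsupport c, hs, ?_⟩
    intro t ht
    have h1 : c (fun i => t (Fin.natAdd R i)) = 0 := image_eq_zero_of_notMem_tsupport ht
    show EM_f χ c j t • _ = _
    unfold EM_f
    rw [h1, mul_zero, zero_smul]
  · rw [EM_gam_ne χ c j I hI]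
    exact ⟨contDiff_const, ∅, isCompact_empty, fun _ _ => rfl⟩

/-- The exterior derivative at a point near which `χ` may be replaced by a constant. -/
private lemma EM_ext {R m : ℕ} (χ : (Fin R → ℝ) → ℝ) (c : (Fin (m + 1) → ℝ) → ℝ)
    (j : Fin (m + 1)) (hc : ContDiff ℝ (⊤ : ℕ∞) c) (a : ℝ) (t : Fin (R + (m + 1)) → ℝ)
    (h : EM_f χ c j =ᶠ[𝓝 t] fun t => (-1 : ℝ) ^ (j : ℕ) * a * c (fun i => t (Fin.natAdd R i)))
    (v : Fin (m + 1) → Fin (R + (m + 1)) → ℝ) :
    extDeriv (EM_gam χ c j (Fin.natAdd R)) t v =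
      a * fderiv ℝ c (fun i => t (Fin.natAdd R i)) (Pi.single j 1) *
        (Matrix.of fun i k => v i (Fin.natAdd R k)).det := by
  set W : Matrix (Fin (m + 1)) (Fin (m + 1)) ℝ := Matrix.of fun i k => v i (Fin.natAdd R k)
    with hW
  set u : Fin (m + 1) → ℝ := fun i => t (Fin.natAdd R i) with hu
  set J : Fin m → Fin (R + (m + 1)) := fun k => Fin.natAdd R (j.succAbove k) with hJ
  -- the restriction map
  let P : (Fin (R + (m + 1)) → ℝ) →L[ℝ] (Fin (m + 1) → ℝ) :=
    ContinuousLinearMap.pi fun i => ContinuousLinearMap.proj (Fin.natAdd R i)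
  have hP : ∀ s, P s = fun i => s (Fin.natAdd R i) := fun s => rfl
  have hcu : HasFDerivAt c (fderiv ℝ c u) u :=
    ((hc.differentiable (by simp)) u).hasFDerivAt
  have hg : HasFDerivAt (fun s : Fin (R + (m + 1)) → ℝ =>
      (-1 : ℝ) ^ (j : ℕ) * a * c (fun i => s (Fin.natAdd R i)))
      (((-1 : ℝ) ^ (j : ℕ) * a) • (fderiv ℝ c u).comp P) t := by
    have h1 : HasFDerivAt (fun s => c (P s)) ((fderiv ℝ c u).comp P) t :=
      HasFDerivAt.comp t (show HasFDerivAt c (fderiv ℝ c u) (P t) from hcu) P.hasFDerivAt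
    exact h1.const_mul _
  have h2 : EM_gam χ c j (Fin.natAdd R) =ᶠ[𝓝 t] fun s =>
      ((-1 : ℝ) ^ (j : ℕ) * a * c (fun i => s (Fin.natAdd R i))) • dx J := by
    rw [EM_gam_self]
    filter_upwards [h] with s hs
    rw [hs]
  have hd : DifferentiableAt ℝ (fun s : Fin (R + (m + 1)) → ℝ =>
      ((-1 : ℝ) ^ (j : ℕ) * a * c (fun i => s (Fin.natAdd R i))) • dx (R := R + (m + 1)) J) t :=
    hg.differentiableAt.smul_const _
  rw [h2.extDeriv_eq, extDeriv_apply hd]
  have h3 : ∀ i : Fin (m + 1), fderiv ℝ (fun s : Fin (R + (m + 1)) → ℝ =>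
      (((-1 : ℝ) ^ (j : ℕ) * a * c (fun i => s (Fin.natAdd R i))) •
        dx (R := R + (m + 1)) J) (i.removeNth v)) t (v i) =
      (-1 : ℝ) ^ (j : ℕ) * a * fderiv ℝ c u (W i) *
        (W.submatrix i.succAbove j.succAbove).det := by
    intro i
    have h4 : HasFDerivAt (fun s : Fin (R + (m + 1)) → ℝ =>
        (((-1 : ℝ) ^ (j : ℕ) * a * c (fun i => s (Fin.natAdd R i))) •
        dx (R := R + (m + 1)) J) (i.removeNth v))
        ((W.submatrix i.succAbove j.succAbove).det •
          (((-1 : ℝ) ^ (j : ℕ) * a) • (fderiv ℝ c u).comp P)) t :=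
      hg.mul_const _
    rw [h4.fderiv]
    show (W.submatrix i.succAbove j.succAbove).det *
      ((-1 : ℝ) ^ (j : ℕ) * a * fderiv ℝ c u (P (v i))) = _
    have h5 : P (v i) = W i := rfl
    rw [h5]
    ring
  have h7 : ∀ (i : ℕ) (y : ℝ), ((-1 : ℤ) ^ i) • y = (-1 : ℝ) ^ i * y := by
    intro i y
    rw [zsmul_eq_mul]
    push_cast
    rfl
  simp only [h3, h7]
  have h6 := EM_col W j (fderiv ℝ c u)
  calc ∑ i : Fin (m + 1), (-1 : ℝ) ^ (i : ℕ) * ((-1 : ℝ) ^ (j : ℕ) * a * fderiv ℝ c u (W i) *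
        (W.submatrix i.succAbove j.succAbove).det)
      = ∑ i : Fin (m + 1), a * ((-1 : ℝ) ^ (i : ℕ) * ((-1 : ℝ) ^ (j : ℕ) * fderiv ℝ c u (W i) *
        (W.submatrix i.succAbove j.succAbove).det)) :=
        Finset.sum_congr rfl fun i _ => by ring
    _ = a * (fderiv ℝ c u (Pi.single j 1) * W.det) := by rw [← Finset.mul_sum, h6]
    _ = _ := by ring

/-- **EM**. The moves `W0` are exact. -/
theorem thm_EM (h1 : St_DetZ) (h2 : St_IndG) : St_EM := by
  intro K M _ _ φ m O
  unfold W0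
  rw [Submodule.span_le]
  rintro ω ⟨R, F, g, χ, c, S, j, ⟨hχ, hcl⟩, ⟨hc, hcs, hcS⟩, hO, rfl⟩
  refine Submodule.subset_span ?_
  -- the basic alternative
  have key : ∀ x : Pt φ, Indep x g →
      EM_f χ c j =ᶠ[𝓝 (logv x (Fin.append F g))] fun t =>
        (-1 : ℝ) ^ (j : ℕ) * χ (logv x F) * c (fun i => t (Fin.natAdd R i)) := by
    intro x hx
    have hG : Gauss x g := h2 K M φ (m + 1) x g hx
    have cl : Filter.Tendsto (fun t : Fin (R + (m + 1)) → ℝ =>
        (fun i => t (Fin.castAdd (m + 1) i) : Fin R → ℝ)) (𝓝 (logv x (Fin.append F g)))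
        (𝓝 (logv x F)) := by
      rw [← EM_left x F g]
      exact (continuous_pi fun i => continuous_apply (Fin.castAdd (m + 1) i)).continuousAt
    have cr : Filter.Tendsto (fun t : Fin (R + (m + 1)) → ℝ =>
        (fun i => t (Fin.natAdd R i) : Fin (m + 1) → ℝ)) (𝓝 (logv x (Fin.append F g)))
        (𝓝 (logv x g)) := by
      rw [← EM_right x F g]
      exact (continuous_pi fun i => continuous_apply (Fin.natAdd R i)).continuousAt
    by_cases hxc : logv x g ∈ tsupport c
    · rcases hcl x hG (hcS hxc) with h | h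
      · have h0 : χ (logv x F) = 0 := h.self_of_nhds
        filter_upwards [cl.eventually h] with t ht
        unfold EM_f
        rw [ht, h0]
      · have h0 : χ (logv x F) = 1 := h.self_of_nhds
        filter_upwards [cl.eventually h] with t ht
        unfold EM_f
        rw [ht, h0]
    · have h3 : c =ᶠ[𝓝 (logv x g)] 0 := notMem_tsupport_iff_eventuallyEq.mp hxc
      filter_upwards [cr.eventually h3] with t ht
      unfold EM_f
      rw [ht]
      simp
  -- the value of the primitive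
  have pr : ∀ x : Pt φ, ∀ (δ : Fin (m + 1) → Tan x) (ε : Fin m → Tan x),
      pullAt x (Fin.append F g) (EM_gam χ c j) δ ε =
        (Matrix.of fun i k => ev g (δ i) k).det *
          ((-1 : ℝ) ^ (j : ℕ) * χ (logv x F) * c (logv x g) *
            dx (fun k => Fin.natAdd R (j.succAbove k)) (fun i => ev (Fin.append F g) (ε i))) := by
    intro x δ ε
    rw [EM_one x (Fin.append F g) (EM_gam χ c j) (Fin.natAdd R)
      (fun I hI => by rw [EM_gam_ne χ c j I hI])]
    simp only [EM_ev]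
    rw [EM_gam_self]
    have h3 : EM_f χ c j (logv x (Fin.append F g)) =
        (-1 : ℝ) ^ (j : ℕ) * χ (logv x F) * c (logv x g) := by
      unfold EM_f
      rw [EM_left x F g, EM_right x F g]
    show _ * (EM_f χ c j (logv x (Fin.append F g)) • dx _) _ = _
    rw [h3]
    rfl
  -- the value of its derivative
  have de : (pull (Fin.append F g) (EM_gam χ c j).dd : Fam φ (m + 1) (m + 1)) =
      tf F g χ (fun u => fderiv ℝ c u (Pi.single j 1)) := by
    funext x δ ε
    show pullAt x (Fin.append F g) (EM_gam χ c j).dd δ ε = _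
    rw [EM_one x (Fin.append F g) (EM_gam χ c j).dd (Fin.natAdd R)
      (fun I hI => by
        show extDeriv (EM_gam χ c j I) (logv x (Fin.append F g)) = 0
        rw [EM_gam_ne χ c j I hI]
        unfold extDeriv
        rw [fderiv_fun_const]
        exact map_zero (ContinuousAlternatingMap.alternatizeUncurryFinCLM ℝ _ _))]
    simp only [EM_ev]
    unfold tf
    by_cases hx : Indep x g
    · show _ * extDeriv (EM_gam χ c j (Fin.natAdd R)) (logv x (Fin.append F g)) _ = _
      rw [EM_ext χ c j hc (χ (logv x F)) (logv x (Fin.append F g)) (key x hx)]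
      simp only [EM_ev]
      rw [EM_right x F g]
      ring
    · rw [h1 K M φ (m + 1) x g hx δ]
      ring
  refine ⟨R + (m + 1), Fin.append F g, EM_gam χ c j, EM_PC χ c j hχ hc hcs, ?_, de.symm⟩
  intro x hx
  rw [de]
  by_cases hI : Indep x g
  · by_cases hxc : logv x g ∈ tsupport c
    · have h0 : χ (logv x F) = 0 := hO x hx hI hxc
      refine ⟨?_, ?_⟩
      · funext δ ε
        show pullAt x (Fin.append F g) (EM_gam χ c j) δ ε = 0
        rw [pr, h0]
        ring
      · funext δ ε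
        show tf F g χ (fun u => fderiv ℝ c u (Pi.single j 1)) x δ ε = 0
        unfold tf
        rw [h0]
        ring
    · have h3 : c =ᶠ[𝓝 (logv x g)] fun _ => 0 := notMem_tsupport_iff_eventuallyEq.mp hxc
      have h4 : c (logv x g) = 0 := h3.self_of_nhds
      have h5 : fderiv ℝ c (logv x g) = 0 := by
        rw [h3.fderiv_eq, fderiv_fun_const]
        rfl
      refine ⟨?_, ?_⟩
      · funext δ ε
        show pullAt x (Fin.append F g) (EM_gam χ c j) δ ε = 0
        rw [pr, h4]
        ring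
      · funext δ ε
        show χ (logv x F) * fderiv ℝ c (logv x g) (Pi.single j 1) * _ * _ = 0
        rw [h5]
        simp
  · refine ⟨?_, ?_⟩
    · funext δ ε
      show pullAt x (Fin.append F g) (EM_gam χ c j) δ ε = 0
      rw [pr, h1 K M φ (m + 1) x g hI δ]
      ring
    · funext δ ε
      show tf F g χ (fun u => fderiv ℝ c u (Pi.single j 1)) x δ ε = 0
      unfold tf
      rw [h1 K M φ (m + 1) x g hI δ]
      ring

end TDC
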