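import Pool.Agent.TDC.StF

/-!
# TDC, FPar: small locally finite partitions of unity on a `Fine` set
-/

namespace TDC

open scoped Topology Manifold ContDiff

private theorem FPar_pou {n : ℕ} {S : Set (Fin n → ℝ)} (hS : IsClosed S) (V : ℕ → Set (Fin n → ℝ))
    (hV : ∀ k, IsOpen (V k)) (hb : ∀ k, Bornology.IsBounded (V k)) (hc : S ⊆ ⋃ k, V k) :
    ∃ ψ : ℕ → (Fin n → ℝ) → ℝ, (∀ k, SC (ψ k) (V k)) ∧ ∀ u ∈ S, ∑ᶠ k, ψ k u = 1 := by
  obtain ⟨f, hf⟩ := SmoothPartitionOfUnity.exists_isSubordinate 𝓘(ℝ, Fin n → ℝ) hS V hV hc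
  refine ⟨fun k => f k, fun k => ⟨?_, ?_, hf k⟩, fun u hu => f.sum_eq_one hu⟩
  · exact (f k).contMDiff.contDiff
  · exact Metric.isCompact_of_isClosed_isBounded (isClosed_tsupport _) ((hb k).subset (hf k))

private theorem FPar_cover {n : ℕ} {K : Set (Fin n → ℝ)} (hK : IsCompact K) :
    ∃ N : ℕ, K ⊆ ⋃ l : Fin N, Metric.ball (TopologicalSpace.denseSeq (Fin n → ℝ) l) (1 / 4) := by
  have hd := TopologicalSpace.denseRange_denseSeq (Fin n → ℝ)
  obtain ⟨N, hN⟩ := hK.elim_directed_cover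
    (fun N : ℕ => ⋃ l : Fin N, Metric.ball (TopologicalSpace.denseSeq (Fin n → ℝ) l) (1 / 4))
    (fun N => isOpen_iUnion fun l => Metric.isOpen_ball)
    (by
      intro u _
      obtain ⟨l, hl⟩ := hd.exists_dist_lt u (show (0 : ℝ) < 1 / 4 by norm_num)
      exact Set.mem_iUnion.2 ⟨l + 1, Set.mem_iUnion.2 ⟨⟨l, Nat.lt_succ_self l⟩, hl⟩⟩)
    (by
      intro a b
      refine ⟨max a b, ?_, ?_⟩
      · refine Set.iUnion_subset fun l => ?_
        exact Set.subset_iUnion_of_subset ⟨l, lt_of_lt_of_le l.2 (le_max_left a b)⟩ le_rfl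
      · refine Set.iUnion_subset fun l => ?_
        exact Set.subset_iUnion_of_subset ⟨l, lt_of_lt_of_le l.2 (le_max_right a b)⟩ le_rfl)
  exact ⟨N, hN⟩

theorem thm_FPar (hL : St_FLev) : St_FPar := by
  intro n Δ S hS
  obtain ⟨h, Λ, hΛ, hlip, -, h3, h4, -, -⟩ := hL n Δ
  have hcont : Continuous h := by
    refine Metric.continuous_iff.2 fun u ε hε => ?_
    refine ⟨ε / (Λ + 1), by positivity, fun v hv => ?_⟩
    rw [Real.dist_eq]
    rw [dist_eq_norm, lt_div_iff₀ (by positivity)] at hv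
    refine lt_of_le_of_lt (hlip v u) ?_
    nlinarith [norm_nonneg (v - u)]
  have hcpt : ∀ j : ℕ, IsCompact (S ∩ {u | h u ≤ j}) := fun j =>
    Metric.isCompact_of_isClosed_isBounded (hS.1.inter (isClosed_le hcont continuous_const))
      (h4 S j hS.2)
  choose N hN using fun j => FPar_cover (hcpt j)
  let V : ℕ → Set (Fin n → ℝ) := fun k =>
    {u | k.unpair.2 < N k.unpair.1 ∧
      u ∈ Metric.ball (TopologicalSpace.denseSeq (Fin n → ℝ) k.unpair.2) (1 / 4) ∧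
      (k.unpair.1 = 0 ∨ (k.unpair.1 : ℝ) - 2 < h u)}
  have hVo : ∀ k, IsOpen (V k) := by
    intro k
    refine isOpen_const.inter (Metric.isOpen_ball.inter ?_)
    exact isOpen_const.union (isOpen_lt continuous_const hcont)
  have hVb : ∀ k, Bornology.IsBounded (V k) := fun k =>
    Metric.isBounded_ball.subset fun u hu => hu.2.1
  have hVc : S ⊆ ⋃ k, V k := by
    intro u hu
    have h1 : h u ≤ (⌈h u⌉₊ : ℝ) := Nat.le_ceil _
    obtain ⟨l, hl⟩ := Set.mem_iUnion.1 (hN ⌈h u⌉₊ ⟨hu, h1⟩)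
    refine Set.mem_iUnion.2 ⟨Nat.pair ⌈h u⌉₊ l, ?_⟩
    refine ⟨?_, ?_, ?_⟩
    · rw [Nat.unpair_pair]
      exact l.2
    · rw [Nat.unpair_pair]
      exact hl
    · rw [Nat.unpair_pair]
      by_cases h0 : ⌈h u⌉₊ = 0
      · exact Or.inl h0
      · right
        have h2 : 0 ≤ h u := by
          by_contra hc
          exact h0 (Nat.ceil_eq_zero.2 (not_le.1 hc).le)
        have h3 := Nat.ceil_lt_add_one h2
        show (⌈h u⌉₊ : ℝ) - 2 < h u
        linarith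
  obtain ⟨ψ, h1, h2⟩ := FPar_pou hS.1 V hVo hVb hVc
  refine ⟨ψ, V, fun k => ⟨hVo k, h1 k, fun u hu v hv => ?_⟩, h2, fun i c => ?_⟩
  · have a1 := Metric.mem_ball.1 hu.2.1
    have a2 := Metric.mem_ball.1 hv.2.1
    rw [← dist_eq_norm]
    have a3 := dist_triangle_right u v (TopologicalSpace.denseSeq (Fin n → ℝ) k.unpair.2)
    linarith
  · obtain ⟨C, hC⟩ := h3 i c
    have hfin : (⋃ j ∈ Finset.range (⌈C⌉₊ + 3), (Nat.pair j) '' (Set.Iio (N j))).Finite :=
      Set.Finite.biUnion (Finset.finite_toSet _) fun j _ => (Set.finite_Iio _).image _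
    refine hfin.subset ?_
    rintro k ⟨u, ⟨hk1, hk2, hk3⟩, hu⟩
    have hCu := hC u hu
    refine Set.mem_biUnion (x := k.unpair.1) ?_ ⟨k.unpair.2, hk1, Nat.pair_unpair k⟩
    rw [Finset.mem_coe, Finset.mem_range]
    rcases hk3 with h0 | h0
    · rw [h0]
      omega
    · have h5 := Nat.le_ceil C
      have h6 : (k.unpair.1 : ℝ) < ((⌈C⌉₊ + 3 : ℕ) : ℝ) := by
        push_cast
        linarith
      exact_mod_cast h6

end TDC
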