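import Pool.Agent.TDC.St
import Pool.Agent.TDC.St2
import Pool.Agent.TDC.St3
import Pool.Agent.TDC.St4
import Pool.Agent.TDC.St6

/-!
# TDC, module InjC: injectivity on the analytification
-/

namespace TDC

open scoped Topology
open MeasureTheory AlgebraicGeometry CategoryTheory

private lemma InjC_pc {R p q : ℕ} (γ : SF R p q) (h : γ.CC) : γ.PC := by
  intro I
  refine ⟨(h I).1, (fun t : Fin R → ℝ => t ∘ I) '' tsupport (γ I), ?_, ?_⟩
  · refine (h I).2.isCompact.image ?_
    exact continuous_pi fun i => continuous_apply (I i)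
  · intro t ht
    apply image_eq_zero_of_notMem_tsupport
    intro h1
    exact ht ⟨t, h1, rfl⟩

/-- **InjC**. Injectivity on `X^an`. -/
theorem thm_InjC (h1 : St_InjF) (h2 : St_DnD) (h3 : St_DnA) (h4 : St_Pair) (h5 : St_StdF)
    (h6 : St_TowR) : St_InjC := by
  intro K _ _ X _ s m t hcount hrat b ω₀ η hb hc hT hη hD
  let _ : Algebra K (X.residueField (genericPoint X)) := (kmap s (genericPoint X)).toAlgebra
  have htr : TrLe K (X.residueField (genericPoint X)) (m + 1) := (h6.1 K _ (m + 1) t hrat).1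
  have hform : IsFormA η := by
    intro x
    obtain ⟨U, R, F, α, hα, hev⟩ := hD x
    refine ⟨U, R, F, α, hα, hev.mono ?_⟩
    rintro y ⟨h, h7, _⟩
    exact ⟨h, h7⟩
  have hdb := h2 K X s (m + 1) m η ω₀ hD
  have hcη := (h3 K X s (m + 1) m htr η hform).2.2.2.2 hη
  have hω : (fun v => ω₀ (gen s v) : Fam (kmap s (genericPoint X)) (m + 1) (m + 1)) =
      pull t (top b) := by
    funext v
    exact hT.1 v
  have hstd := h5 K (X.residueField (genericPoint X)) (m + 1) t b htr hb hc
  have hcω : CSupp (pull t (top b) : Fam (algebraMap K (X.residueField (genericPoint X)))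
      (m + 1) (m + 1)) := by
    rw [hstd.1]
    exact hstd.2.2
  rw [hω] at hdb
  obtain ⟨R, F, γ, hγ, _, h8⟩ := h4 K (X.residueField (genericPoint X))
    (kmap s (genericPoint X)) (m + 1) m _ _ hdb hcη hcω
  refine h1 K (X.residueField (genericPoint X)) m t hcount hrat R F γ b (InjC_pc γ hγ) hb hc ?_
  intro y
  exact (congrFun h8 y).symm

end TDC

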