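import Pool.Agent.TDC.St2

/-!
# TDC, Root: the geometry of the fibre over a point

Value of polynomials through a root of a key polynomial in the algebraic closure of the completion.
-/

namespace TDC

open scoped Topology
open Polynomial

section abstr

variable {F E : Type} [NontriviallyNormedField F] [CompleteSpace F] [IsUltrametricDist F]
  [NontriviallyNormedField E] [CompleteSpace E] [IsUltrametricDist E] [Algebra F E]

/-- an embedding of the algebraic closure of `F` in the one of `E` is isometric -/
private theorem Root_iso (h : ∀ a : F, ‖algebraMap F E a‖ = ‖a‖)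
    (j : AlgebraicClosure F →ₐ[F] AlgebraicClosure E) (α : AlgebraicClosure F) :
    spectralNorm E (AlgebraicClosure E) (j α) = spectralNorm F (AlgebraicClosure F) α := by
  let w : AbsoluteValue (AlgebraicClosure F) ℝ :=
    { toFun := fun a => spectralMulAlgNorm E (AlgebraicClosure E) (j a)
      map_mul' := fun a b => by rw [map_mul, map_mul]
      nonneg' := fun a => apply_nonneg _ _
      eq_zero' := fun a => by
        rw [map_eq_zero_iff_eq_zero, map_eq_zero]
      add_le' := fun a b => by
        rw [map_add]; exact map_add_le_add _ _ _ }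
  have hw : ∀ a : F, w (algebraMap F (AlgebraicClosure F) a) = ‖a‖ := by
    intro a
    show spectralNorm E (AlgebraicClosure E) (j (algebraMap F (AlgebraicClosure F) a)) = ‖a‖
    rw [AlgHom.commutes, IsScalarTower.algebraMap_apply F E (AlgebraicClosure E),
      spectralNorm_extends, h]
  exact spectralNorm_unique_field_norm_ext (f := w) hw α

/-- the values with a power in `|F|` -/
private def RD (F : Type) [NontriviallyNormedField F] (s : ℝ) : Prop :=
  ∃ N : ℕ, 0 < N ∧ ∃ a : F, ‖a‖ = s ^ N

omit [CompleteSpace F] [IsUltrametricDist F] in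
private theorem RD_mul {s s' : ℝ} (h : RD F s) (h' : RD F s') : RD F (s * s') := by
  obtain ⟨N, hN, a, ha⟩ := h
  obtain ⟨N', hN', a', ha'⟩ := h'
  refine ⟨N * N', Nat.mul_pos hN hN', a ^ N' * a' ^ N, ?_⟩
  rw [norm_mul, norm_pow, norm_pow, ha, ha', mul_pow, ← pow_mul, ← pow_mul, mul_comm N' N]

omit [CompleteSpace F] [IsUltrametricDist F] in
private theorem RD_prod (m : Multiset ℝ) (h : ∀ s ∈ m, RD F s) : RD F m.prod := by
  induction m using Multiset.induction with
  | empty => exact ⟨1, one_pos, 1, by simp⟩
  | cons a m ih =>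
    rw [Multiset.prod_cons]
    exact RD_mul (h a (Multiset.mem_cons_self a m))
      (ih fun s hs => h s (Multiset.mem_cons_of_mem hs))

private theorem RD_alg (α : AlgebraicClosure F) :
    RD F (spectralNorm F (AlgebraicClosure F) α) := by
  have h := spectralNorm.spectralNorm_eq_norm_coeff_zero_rpow (K := F)
    (L := AlgebraicClosure F) α
  have hp : 0 < (minpoly F α).natDegree :=
    minpoly.natDegree_pos (Algebra.IsIntegral.isIntegral α)
  refine ⟨(minpoly F α).natDegree, hp, (minpoly F α).coeff 0, ?_⟩
  rw [h, one_div, Real.rpow_inv_natCast_pow (norm_nonneg _) hp.ne']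

omit [CompleteSpace F] [IsUltrametricDist F] in
/-- the product formula in the closure -/
private theorem Root_prod (j : AlgebraicClosure F →ₐ[F] AlgebraicClosure E)
    (h : ∀ a : F, ‖algebraMap F E a‖ = ‖a‖) (t : E) (P : F[X]) :
    ‖aeval t P‖ = ‖P.leadingCoeff‖ *
      ((P.map (algebraMap F (AlgebraicClosure F))).roots.map fun α =>
        spectralNorm E (AlgebraicClosure E)
          (algebraMap E (AlgebraicClosure E) t - j α)).prod := by
  have hs : (P.map (algebraMap F (AlgebraicClosure F))).Splits := IsAlgClosed.splits _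
  have h1 := hs.eq_prod_roots
  have h2 : aeval (algebraMap E (AlgebraicClosure E) t) P =
      algebraMap E (AlgebraicClosure E) (algebraMap F E P.leadingCoeff) *
        ((P.map (algebraMap F (AlgebraicClosure F))).roots.map fun α =>
          (algebraMap E (AlgebraicClosure E) t - j α)).prod := by
    have h3 : aeval (algebraMap E (AlgebraicClosure E) t) P =
        (P.map (algebraMap F (AlgebraicClosure F))).eval₂ (j : AlgebraicClosure F →+* _)
          (algebraMap E (AlgebraicClosure E) t) := by
      rw [eval₂_map, aeval_def]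
      congr 1
      ext a
      simp
    rw [h3, h1]
    rw [eval₂_mul, eval₂_C, ← IsScalarTower.algebraMap_apply]
    congr 1
    · rw [leadingCoeff_map]; simp
    · rw [← coe_eval₂RingHom, map_multiset_prod, Multiset.map_map]
      congr 1
      rw [← h1]
      refine Multiset.map_congr rfl fun α _ => ?_
      simp
  have h4 : ‖aeval t P‖ = spectralNorm E (AlgebraicClosure E)
      (aeval (algebraMap E (AlgebraicClosure E) t) P) := by
    rw [aeval_algebraMap_apply, spectralNorm_extends]
  rw [h4, h2, ← spectralMulAlgNorm_def, map_mul, spectralMulAlgNorm_def, spectralNorm_extends, h,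
    map_multiset_prod, Multiset.map_map]
  rfl

/-- the statement for a complete field `F` and an isometric extension `E` -/
private theorem Root_abs (h : ∀ a : F, ‖algebraMap F E a‖ = ‖a‖) (t : E) (Q : F[X])
    (hQ : Irreducible Q) (θ : AlgebraicClosure F) (hθ : aeval θ Q = 0)
    (hfree : ¬ RD F ‖aeval t Q‖) :
    ∃ r : ℝ, 0 < r ∧ (∀ α, spectralNorm F (AlgebraicClosure F) (θ - α) ≠ r) ∧
      ∀ P : F[X], ‖aeval t P‖ = ‖P.leadingCoeff‖ *
        ((P.map (algebraMap F (AlgebraicClosure F))).roots.map fun α =>
          max r (spectralNorm F (AlgebraicClosure F) (θ - α))).prod := by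
  let j₀ : AlgebraicClosure F →ₐ[F] AlgebraicClosure E := IsAlgClosed.lift
  -- a root at free distance
  obtain ⟨β, hβ, hβr⟩ : ∃ β ∈ (Q.map (algebraMap F (AlgebraicClosure F))).roots,
      ¬ RD F (spectralNorm E (AlgebraicClosure E)
          (algebraMap E (AlgebraicClosure E) t - j₀ β)) := by
    by_contra! hc
    refine hfree ?_
    rw [Root_prod j₀ h t Q]
    refine RD_mul ⟨1, one_pos, Q.leadingCoeff, by simp⟩ (RD_prod _ ?_)
    intro s hs
    obtain ⟨α, hα, rfl⟩ := Multiset.mem_map.1 hs
    exact hc α hα
  have hβ0 : aeval β Q = 0 := by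
    have := (mem_roots'.1 hβ).2
    rwa [IsRoot.def, eval_map_algebraMap] at this
  -- conjugation
  obtain ⟨σ, hσ⟩ : ∃ σ : Gal(AlgebraicClosure F/F), σ θ = β := by
    refine minpoly.exists_algEquiv_of_root' (Algebra.IsAlgebraic.isAlgebraic θ) ?_
    rw [← minpoly.eq_of_irreducible hQ hθ, map_mul, hβ0, zero_mul]
  let j : AlgebraicClosure F →ₐ[F] AlgebraicClosure E := j₀.comp (σ : AlgebraicClosure F →ₐ[F] _)
  have hjθ : j θ = j₀ β := by
    show j₀ (σ θ) = j₀ β
    rw [hσ]
  set τ := algebraMap E (AlgebraicClosure E) t with hτ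
  set r := spectralNorm E (AlgebraicClosure E) (τ - j₀ β) with hr
  have hr0 : 0 < r := by
    rcases (spectralNorm_nonneg (K := E) (τ - j₀ β)).eq_or_lt with h0 | h0
    · exfalso
      refine hβr ⟨1, one_pos, 0, ?_⟩
      rw [norm_zero, pow_one]
      exact h0
    · exact h0
  have hne : ∀ α, spectralNorm F (AlgebraicClosure F) (θ - α) ≠ r := by
    intro α hα
    refine hβr ?_
    rw [← hα]
    exact RD_alg _
  refine ⟨r, hr0, hne, fun P => ?_⟩
  rw [Root_prod j h t P]
  congr 2
  refine Multiset.map_congr rfl fun α _ => ?_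
  have h1 : τ - j α = (τ - j₀ β) + j (θ - α) := by
    rw [map_sub, hjθ]; ring
  rw [← hτ, h1, ← Root_iso h j (θ - α)]
  have h2 := IsNonarchimedean.add_eq_max_of_ne' (spectralNorm E (AlgebraicClosure E))
    isNonarchimedean_spectralNorm
    (fun a => (spectralNorm_neg (Algebra.IsAlgebraic.isAlgebraic a)).symm)
    (a := τ - j₀ β) (b := j (θ - α)) (by
      rw [Root_iso h j (θ - α)]
      exact fun hc => hne α hc.symm)
  exact h2

end abstr

section compl

variable {M : Type} [Field M] (v : AbsoluteValue M ℝ)

private theorem Root_norm_inc (a : M) : ‖inc v a‖ = v a :=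
  UniformSpace.Completion.norm_coe ((WithAbs.equiv v).symm a)

/-- the completion is non-trivially normed -/
@[reducible] private noncomputable def Root_nnf (h : ∃ a, 1 < v a) :
    NontriviallyNormedField v.Completion :=
  { (inferInstance : NormedField v.Completion) with
    non_trivial := by
      obtain ⟨a, ha⟩ := h
      exact ⟨inc v a, by rw [Root_norm_inc]; exact ha⟩ }

private theorem Root_ultra (hna : ∀ a b, v (a + b) ≤ max (v a) (v b)) :
    IsUltrametricDist v.Completion := by
  refine IsUltrametricDist.isUltrametricDist_of_forall_norm_natCast_le_one fun n => ?_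
  rw [← map_natCast (inc v) n, Root_norm_inc]
  induction n with
  | zero => simp
  | succ n ih =>
    rw [Nat.cast_succ]
    exact (hna _ _).trans (max_le ih (by simp))

private theorem Root_dense (hna : ∀ a b, v (a + b) ≤ max (v a) (v b)) (a : v.Completion) :
    ∃ a' : M, v a' = ‖a‖ := by
  rcases eq_or_ne a 0 with rfl | ha
  · exact ⟨0, by simp⟩
  · have hd : DenseRange ((↑) : WithAbs v → v.Completion) :=
      UniformSpace.Completion.denseRange_coe
    obtain ⟨y, hy⟩ := hd.exists_dist_lt a (norm_pos_iff.2 ha)
    have := Root_ultra v hna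
    refine ⟨WithAbs.equiv v y, ?_⟩
    have h1 : ‖(y : v.Completion)‖ = v (WithAbs.equiv v y) :=
      UniformSpace.Completion.norm_coe y
    rw [← h1]
    rw [dist_eq_norm] at hy
    have h2 : ‖a + -(y : v.Completion)‖ < max ‖a‖ ‖-(y : v.Completion)‖ := by
      rw [← sub_eq_add_neg]
      exact lt_max_of_lt_left hy
    have h3 := IsUltrametricDist.norm_eq_of_add_norm_lt_max h2
    rw [h3, norm_neg]

end compl

/-- **Root**: the value of polynomials in `t` through a root of a key polynomial. -/
theorem thm_Root : St_Root := by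
  intro K L' L _ _ _ _ _ _ _ t _ z Q hQ θ hθ x hx hfree
  have hz : ∀ a : L', x.v (algebraMap L' L a) = z.v a := by
    intro a
    rw [← hx]; rfl
  obtain ⟨a₀, ha₀⟩ := NontriviallyNormedField.non_trivial (α := K)
  let iF : NontriviallyNormedField z.v.Completion :=
    Root_nnf z.v ⟨algebraMap K L' a₀, by rw [z.ext]; exact ha₀⟩
  let iE : NontriviallyNormedField x.v.Completion :=
    Root_nnf x.v ⟨algebraMap K L a₀, by rw [x.ext]; exact ha₀⟩
  have uF : IsUltrametricDist z.v.Completion := Root_ultra z.v z.na
  have uE : IsUltrametricDist x.v.Completion := Root_ultra x.v x.na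
  -- the embedding of completions
  let f : WithAbs z.v →+* x.v.Completion :=
    (inc x.v).comp ((algebraMap L' L).comp (WithAbs.equiv z.v).toRingHom)
  have hf : Isometry f := by
    refine AddMonoidHomClass.isometry_of_norm f fun a => ?_
    show ‖inc x.v (algebraMap L' L (WithAbs.equiv z.v a))‖ = ‖a‖
    rw [Root_norm_inc, hz]
    rfl
  let aFE : Algebra z.v.Completion x.v.Completion := hf.extensionHom.toAlgebra
  have hFE : ∀ a : z.v.Completion, ‖algebraMap z.v.Completion x.v.Completion a‖ = ‖a‖ := by
    intro a
    have h1 := hf.completion_extension.norm_map_of_map_zero (map_zero hf.extensionHom) a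
    exact h1
  have hcomp : (algebraMap z.v.Completion x.v.Completion).comp (inc z.v) =
      (inc x.v).comp (algebraMap L' L) := by
    ext a
    show hf.extensionHom (((WithAbs.equiv z.v).symm a : WithAbs z.v) : z.v.Completion) = _
    rw [hf.extensionHom_coe]
    rfl
  have hval : ∀ P : L'[X], ‖aeval (inc x.v (t : L)) (P.map (inc z.v))‖ =
      x.v (aeval (t : L) P) := by
    intro P
    rw [← Root_norm_inc x.v, aeval_def, eval₂_map, hcomp, aeval_def, hom_eval₂]
  have hnf : ¬ RD z.v.Completion ‖aeval (inc x.v (t : L)) (Q.map (inc z.v))‖ := by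
    rintro ⟨N, hN, a, ha⟩
    obtain ⟨a', ha'⟩ := Root_dense z.v z.na a
    refine hfree.2 N hN a' ?_
    rw [ha', ← hval]
    exact ha
  obtain ⟨r, hr, hne, hP⟩ := Root_abs hFE (inc x.v (t : L)) (Q.map (inc z.v)) hQ θ
    (by rw [aeval_def]; exact hθ) hnf
  refine ⟨r, hr, hne, fun P _ => ?_⟩
  have h1 := hP (P.map (inc z.v))
  rw [hval, leadingCoeff_map, Root_norm_inc] at h1
  exact h1

end TDC
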