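import Pool.Agent.TDC.St4

/-! TDC, module UpA: extension by zero of compactly supported forms. -/

set_option autoImplicit false

namespace TDC

open scoped Topology
open AlgebraicGeometry CategoryTheory

private theorem UpA_gen {K : Type} [NormedField K] {X : Scheme.{0}} [IrreducibleSpace X]
    (s : X ⟶ Spec (.of K)) (x : An s) (hx : x.1 = genericPoint X) : ∃ v, gen s v = x := by
  obtain ⟨ξ, v⟩ := x
  have h : ξ = genericPoint X := hx
  subst h
  exact ⟨v, rfl⟩

private theorem UpA_open {K : Type} [NormedField K] {X : Scheme.{0}}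
    (s : X ⟶ Spec (.of K)) (U : X.Opens) (f : Γ(X, U)) (a b : ℝ) :
    IsOpen {x : An s | ∃ h : x.1 ∈ U, a < absA x h f ∧ absA x h f < b} :=
  TopologicalSpace.isOpen_generateFrom_of_mem ⟨U, f, a, b, rfl⟩

private theorem UpA_nhdsU {K : Type} [NormedField K] {X : Scheme.{0}}
    (s : X ⟶ Spec (.of K)) (U : X.Opens) (x : An s) (hx : x.1 ∈ U) :
    ∀ᶠ y : An s in 𝓝 x, y.1 ∈ U := by
  have h0 : absA x hx (0 : Γ(X, U)) = 0 := by
    unfold absA
    rw [map_zero, map_zero]
  have h1 := (UpA_open s U 0 (-1) 1).mem_nhds (x := x) ⟨hx, by rw [h0]; norm_num, by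
    rw [h0]; norm_num⟩
  filter_upwards [h1] with y hy
  exact hy.1

private theorem UpA_cont {K M : Type} [NormedField K] [Field M] {φ : K →+* M} (c : M) :
    Continuous fun x : Pt φ => x.v c :=
  (continuous_apply c).comp (continuous_induced_dom (f := fun (x : Pt φ) (f : M) => x.v f))

/-- The extension vanishes near the non-generic points. -/
private theorem UpA_van {K : Type} [NormedField K] {X : Scheme.{0}} [IsIntegral X]
    (s : X ⟶ Spec (.of K)) (h1 : St_EmbA) {n q : ℕ} (ω : Fam (kmap s (genericPoint X)) n q)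
    (ω' : FamA s n q) (hext : IsExt ω ω') (hc : CSupp ω) (x : An s)
    (hx : x.1 ≠ genericPoint X) : ∀ᶠ y in 𝓝 x, ω' y = 0 := by
  obtain ⟨C, hC, hC0⟩ := hc
  obtain ⟨U, hxU, hηU, f, hf0, hf1⟩ := (h1 K X s).2.2 x.1 hx
  have hcont : ContinuousOn (fun v : Pt (kmap s (genericPoint X)) =>
      v.v (X.evaluation U (genericPoint X) hηU f)) C := (UpA_cont _).continuousOn
  obtain ⟨c, hc, hcC⟩ := hC.exists_forall_le' hcont (a := 0) (fun v _ => v.v.pos hf1)
  have h0 : absA x hxU f = 0 := by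
    unfold absA
    rw [hf0, map_zero]
  have hN := (UpA_open s U f (-1) c).mem_nhds (x := x) ⟨hxU, by rw [h0]; norm_num, by
    rw [h0]; exact hc⟩
  filter_upwards [hN] with y hy
  obtain ⟨hyU, -, hy2⟩ := hy
  by_cases hy : y.1 = genericPoint X
  · obtain ⟨v, rfl⟩ := UpA_gen s y hy
    rw [hext.1 v]
    refine hC0 v fun hv => ?_
    have h2 := hcC v hv
    have h3 : absA (gen s v) hyU f = v.v (X.evaluation U (genericPoint X) hηU f) := rfl
    rw [h3] at hy2
    exact absurd h2 (not_le.mpr hy2)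
  · exact hext.2 y hy

/-- Charts of the extension near the generic points. -/
private theorem UpA_chart {K : Type} [NormedField K] {X : Scheme.{0}} [IsIntegral X]
    (s : X ⟶ Spec (.of K)) (n : ℕ)
    (hTr : @TrLe K (X.residueField (genericPoint X)) _ _ (kmap s (genericPoint X)).toAlgebra n)
    (h1 : St_EmbA) (h2 : St_VanA) (R : ℕ)
    (F : Fin R → (X.residueField (genericPoint X))ˣ) :
    ∃ (U : X.Opens) (_ : genericPoint X ∈ U) (F' : Fin R → (Γ(X, U))ˣ),
      ∀ (q : ℕ) (α : SF R n q) (ω : Fam (kmap s (genericPoint X)) n q) (ω' : FamA s n q),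
        IsExt ω ω' → ∀ (y : An s) (hy : y.1 ∈ U),
          (∀ w, gen s w = y → ω w = pull F α w) → ω' y = pullA y hy F' α := by
  obtain ⟨U, hU, F', hF'⟩ := (h1 K X s).2.1 R F
  refine ⟨U, hU, F', ?_⟩
  intro q α ω ω' hext y hy hw
  by_cases hgen : y.1 = genericPoint X
  · obtain ⟨v, rfl⟩ := UpA_gen s y hgen
    rw [hext.1 v, hw v rfl]
    have hu : unitsAt (gen s v) hy F' = F := by
      funext i
      exact hF' i
    show pullAt v F α = pullAt v (unitsAt (gen s v) hy F') α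
    rw [hu]
  · rw [hext.2 y hgen]
    obtain ⟨_, hz⟩ := (h2 K X s n hTr q R U F' α y hy hgen).self_of_nhds
    exact hz.symm

private theorem UpA_nhds {K : Type} [NormedField K] {X : Scheme.{0}} [IsIntegral X]
    (s : X ⟶ Spec (.of K)) (h1 : St_EmbA) (v : Pt (kmap s (genericPoint X)))
    (P : Pt (kmap s (genericPoint X)) → Prop) (hP : ∀ᶠ w in 𝓝 v, P w) :
    ∀ᶠ y in 𝓝 (gen s v), ∀ w, gen s w = y → P w := by
  rw [(h1 K X s).1.nhds_eq_comap, Filter.eventually_comap] at hP
  exact hP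

private theorem UpA_dd0 {R p q : ℕ} : SF.dd (0 : SF R p q) = 0 := by
  funext I t
  ext v
  show extDeriv (fun _ => (0 : (Fin R → ℝ) [⋀^Fin q]→L[ℝ] ℝ)) t v = 0
  rw [extDeriv_apply (differentiableAt_const _)]
  simp

private theorem UpA_pull0 {K : Type} [NormedField K] {X : Scheme.{0}}
    {s : X ⟶ Spec (.of K)} {R p q : ℕ} (y : An s) {U : X.Opens} (h : y.1 ∈ U)
    (F : Fin R → (Γ(X, U))ˣ) : pullA y h F (0 : SF R p q) = 0 := by
  funext δ ε
  show ∑ I : Fin p → Fin R, _ * ((0 : (Fin R → ℝ) [⋀^Fin q]→L[ℝ] ℝ) _) = 0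
  simp

theorem thm_UpA (h1 : St_EmbA) (h2 : St_VanA) : St_UpA := by
  intro K _ X _ s n hTr
  constructor
  · intro q ω ω' hext hform hcs
    have hvan := fun x hx => UpA_van s h1 ω ω' hext hcs x hx
    refine ⟨?_, ?_, hvan⟩
    · intro x
      by_cases hx : x.1 = genericPoint X
      · obtain ⟨v, rfl⟩ := UpA_gen s x hx
        obtain ⟨R, F, α, hα, hev⟩ := hform v
        obtain ⟨U, hU, F', hF'⟩ := UpA_chart s n hTr h1 h2 R F
        refine ⟨U, R, F', α, hα, ?_⟩
        filter_upwards [UpA_nhdsU s U (gen s v) hU, UpA_nhds s h1 v _ hev] with y hyU hy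
        exact ⟨hyU, hF' q α ω ω' hext y hyU hy⟩
      · refine ⟨⊤, 0, fun i => i.elim0, 0, fun I => contDiff_const, ?_⟩
        filter_upwards [hvan x hx] with y hy
        exact ⟨trivial, hy.trans (UpA_pull0 y _ _).symm⟩
    · obtain ⟨C, hC, hC0⟩ := hcs
      refine ⟨gen s '' C, hC.image (h1 K X s).1.continuous, fun x hx => ?_⟩
      by_cases hgen : x.1 = genericPoint X
      · obtain ⟨v, rfl⟩ := UpA_gen s x hgen
        rw [hext.1 v]
        exact hC0 v fun hv => hx ⟨v, hv, rfl⟩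
      · exact hext.2 x hgen
  · intro q η ω η' ω' hη hω hd hcη hcω x
    by_cases hx : x.1 = genericPoint X
    · obtain ⟨v, rfl⟩ := UpA_gen s x hx
      obtain ⟨R, F, α, hα, hev⟩ := hd v
      obtain ⟨U, hU, F', hF'⟩ := UpA_chart s n hTr h1 h2 R F
      refine ⟨U, R, F', α, hα, ?_⟩
      filter_upwards [UpA_nhdsU s U (gen s v) hU, UpA_nhds s h1 v _ hev] with y hyU hy
      exact ⟨hyU, hF' q α η η' hη y hyU fun w hw => (hy w hw).1,
        hF' (q + 1) α.dd ω ω' hω y hyU fun w hw => (hy w hw).2⟩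
    · refine ⟨⊤, 0, fun i => i.elim0, 0, fun I => contDiff_const, ?_⟩
      filter_upwards [UpA_van s h1 η η' hη hcη x hx, UpA_van s h1 ω ω' hω hcω x hx] with y hy1 hy2
      refine ⟨trivial, hy1.trans (UpA_pull0 y _ _).symm, hy2.trans ?_⟩
      rw [UpA_dd0]
      exact (UpA_pull0 y _ _).symm

end TDC
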