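import Pool.Agent.TDC.Aeq
import Pool.Agent.TDC.Avd
import Pool.Agent.TDC.BaJ
import Pool.Agent.TDC.CSu
import Pool.Agent.TDC.Chan
import Pool.Agent.TDC.CleU
import Pool.Agent.TDC.Clos
import Pool.Agent.TDC.Cmp
import Pool.Agent.TDC.CohC
import Pool.Agent.TDC.Comb
import Pool.Agent.TDC.CombA
import Pool.Agent.TDC.CombU
import Pool.Agent.TDC.ConT
import Pool.Agent.TDC.Cpo
import Pool.Agent.TDC.DetZ
import Pool.Agent.TDC.Div
import Pool.Agent.TDC.DnA
import Pool.Agent.TDC.DnD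
import Pool.Agent.TDC.EM
import Pool.Agent.TDC.EmF
import Pool.Agent.TDC.EmG
import Pool.Agent.TDC.EmbA
import Pool.Agent.TDC.ExT
import Pool.Agent.TDC.Exc
import Pool.Agent.TDC.ExtE
import Pool.Agent.TDC.FBdr
import Pool.Agent.TDC.FCS
import Pool.Agent.TDC.FCom
import Pool.Agent.TDC.FCpt
import Pool.Agent.TDC.FDiv
import Pool.Agent.TDC.FFace
import Pool.Agent.TDC.FFark
import Pool.Agent.TDC.FFin
import Pool.Agent.TDC.FGord
import Pool.Agent.TDC.FHom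
import Pool.Agent.TDC.FJ
import Pool.Agent.TDC.FLev
import Pool.Agent.TDC.FNon
import Pool.Agent.TDC.FPar
import Pool.Agent.TDC.FReD
import Pool.Agent.TDC.FRep
import Pool.Agent.TDC.FSto
import Pool.Agent.TDC.FTop
import Pool.Agent.TDC.FTub
import Pool.Agent.TDC.FVal
import Pool.Agent.TDC.FZero
import Pool.Agent.TDC.FinF
import Pool.Agent.TDC.Fini
import Pool.Agent.TDC.FldA
import Pool.Agent.TDC.Frc
import Pool.Agent.TDC.GAff
import Pool.Agent.TDC.GCmp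
import Pool.Agent.TDC.GCor
import Pool.Agent.TDC.GCpl
import Pool.Agent.TDC.GCpt
import Pool.Agent.TDC.GDec
import Pool.Agent.TDC.GEx
import Pool.Agent.TDC.GFin
import Pool.Agent.TDC.GMul
import Pool.Agent.TDC.GNl
import Pool.Agent.TDC.GPul
import Pool.Agent.TDC.GStd
import Pool.Agent.TDC.GSup
import Pool.Agent.TDC.GTro
import Pool.Agent.TDC.Gen
import Pool.Agent.TDC.GenA
import Pool.Agent.TDC.GenB
import Pool.Agent.TDC.GenI
import Pool.Agent.TDC.Gene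
import Pool.Agent.TDC.Homo
import Pool.Agent.TDC.IAf
import Pool.Agent.TDC.IFan
import Pool.Agent.TDC.IGm
import Pool.Agent.TDC.INJ
import Pool.Agent.TDC.IPr
import Pool.Agent.TDC.IndG
import Pool.Agent.TDC.InjC
import Pool.Agent.TDC.Irr
import Pool.Agent.TDC.Irre
import Pool.Agent.TDC.KeyE
import Pool.Agent.TDC.LoPu
import Pool.Agent.TDC.Loc
import Pool.Agent.TDC.LocR
import Pool.Agent.TDC.MLoc
import Pool.Agent.TDC.Mnr
import Pool.Agent.TDC.Mov
import Pool.Agent.TDC.Newt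
import Pool.Agent.TDC.Npg
import Pool.Agent.TDC.PUni
import Pool.Agent.TDC.Pair
import Pool.Agent.TDC.PhiO
import Pool.Agent.TDC.PhiT
import Pool.Agent.TDC.Psi
import Pool.Agent.TDC.Rank
import Pool.Agent.TDC.Real
import Pool.Agent.TDC.Root
import Pool.Agent.TDC.SelE
import Pool.Agent.TDC.SelU
import Pool.Agent.TDC.Sepa
import Pool.Agent.TDC.Shri
import Pool.Agent.TDC.Slo
import Pool.Agent.TDC.Spli
import Pool.Agent.TDC.StA
import Pool.Agent.TDC.StB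
import Pool.Agent.TDC.StJ
import Pool.Agent.TDC.StdF
import Pool.Agent.TDC.Step
import Pool.Agent.TDC.ThmC
import Pool.Agent.TDC.Tng
import Pool.Agent.TDC.TowR
import Pool.Agent.TDC.TrT
import Pool.Agent.TDC.TroF
import Pool.Agent.TDC.Uniq
import Pool.Agent.TDC.UpA
import Pool.Agent.TDC.ValD
import Pool.Agent.TDC.ValT
import Pool.Agent.TDC.VanA
import Pool.Agent.TDC.Wal
import Pool.Agent.TDC.WtoD
import Pool.Agent.TDC.ZerC

/-!
# TDC: all modules put together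
-/

namespace TDC

theorem cl_PUni : St_PUni := thm_PUni

theorem cl_Fini : St_Fini := thm_Fini

theorem cl_Homo : St_Homo := thm_Homo

theorem cl_Real : St_Real := thm_Real cl_Homo

theorem cl_DetZ : St_DetZ := thm_DetZ

theorem cl_IndG : St_IndG := thm_IndG

theorem cl_GenA : St_GenA := thm_GenA cl_Fini cl_Real cl_DetZ cl_IndG

theorem cl_GenB : St_GenB := thm_GenB cl_DetZ cl_IndG

theorem cl_Gene : St_Gene := thm_Gene cl_GenA cl_GenB

theorem cl_Div : St_Div := thm_Div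

theorem cl_Mov : St_Mov := thm_Mov cl_Div

theorem cl_Irre : St_Irre := thm_Irre

theorem cl_Newt : St_Newt := thm_Newt cl_Irre

theorem cl_GCpt : St_GCpt := thm_GCpt

theorem cl_Shri : St_Shri := thm_Shri cl_GCpt

theorem cl_LoPu : St_LoPu := thm_LoPu cl_Newt cl_Shri cl_IndG

theorem cl_CleU : St_CleU := thm_CleU

theorem cl_PhiT : St_PhiT := thm_PhiT

theorem cl_StA : St_StA := thm_StA cl_Mov cl_LoPu cl_CleU cl_PhiT cl_IndG

theorem cl_FinF : St_FinF := thm_FinF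

theorem cl_Spli : St_Spli := thm_Spli cl_FinF cl_Shri cl_DetZ cl_IndG

theorem cl_MLoc : St_MLoc := thm_MLoc

theorem cl_Chan : St_Chan := thm_Chan cl_MLoc cl_Shri cl_DetZ cl_IndG

theorem cl_Sepa : St_Sepa := thm_Sepa

theorem cl_SelE : St_SelE := thm_SelE cl_FinF cl_Sepa cl_Shri

theorem cl_GenI : St_GenI := thm_GenI

theorem cl_StB : St_StB := thm_StB cl_Mov cl_Spli cl_Chan cl_SelE cl_FinF cl_GenI

theorem cl_Rank : St_Rank := thm_Rank

theorem cl_KeyE : St_KeyE := thm_KeyE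

theorem cl_Root : St_Root := thm_Root

theorem cl_Uniq : St_Uniq := thm_Uniq cl_Irre cl_Root

theorem cl_SelU : St_SelU := thm_SelU cl_Uniq cl_IndG

theorem cl_Step : St_Step := thm_Step cl_StA cl_StB cl_Rank cl_KeyE cl_SelE cl_SelU cl_IndG

theorem cl_PhiO : St_PhiO := thm_PhiO cl_CleU

theorem cl_TowR : St_TowR := thm_TowR

theorem cl_LocR : St_LocR := thm_LocR cl_Step cl_PhiT cl_PhiO cl_TowR

theorem cl_EM : St_EM := thm_EM cl_DetZ cl_IndG

theorem cl_Comb : St_Comb := thm_Comb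

theorem cl_CSu : St_CSu := thm_CSu cl_DetZ cl_IndG cl_GCpt

theorem cl_WtoD : St_WtoD := thm_WtoD cl_Comb cl_CSu

theorem cl_FldA : St_FldA := thm_FldA cl_PUni cl_Gene cl_LocR cl_EM cl_WtoD cl_TowR

theorem cl_EmbA : St_EmbA := thm_EmbA

theorem cl_VanA : St_VanA := thm_VanA cl_EmbA cl_IndG cl_DetZ

theorem cl_UpA : St_UpA := thm_UpA cl_EmbA cl_VanA

theorem cl_DnA : St_DnA := thm_DnA cl_EmbA cl_VanA

theorem cl_ExtE : St_ExtE := thm_ExtE

theorem cl_StdF : St_StdF := thm_StdF cl_CSu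

theorem cl_ThmC : St_ThmC := thm_ThmC cl_FldA cl_UpA cl_DnA cl_ExtE cl_StdF cl_TowR

theorem cl_TroF : St_TroF := thm_TroF cl_StdF cl_UpA cl_ExtE

theorem cl_ZerC : St_ZerC := thm_ZerC cl_Div cl_EM cl_WtoD cl_StdF cl_UpA cl_ExtE

theorem cl_Tng : St_Tng := thm_Tng cl_MLoc

theorem cl_Gen : St_Gen := thm_Gen cl_Fini cl_Tng cl_IndG

theorem cl_GNl : St_GNl := thm_GNl

theorem cl_EmF : St_EmF := thm_EmF

theorem cl_EmG : St_EmG := thm_EmG

theorem cl_Loc : St_Loc := thm_Loc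

theorem cl_Wal : St_Wal := thm_Wal cl_Loc

theorem cl_ExT : St_ExT := thm_ExT

theorem cl_GEx : St_GEx := thm_GEx cl_ExT cl_IndG cl_EmG

theorem cl_Npg : St_Npg := thm_Npg

theorem cl_Frc : St_Frc := thm_Frc

theorem cl_Irr : St_Irr := thm_Irr

theorem cl_Psi : St_Psi := thm_Psi cl_EmF cl_EmG cl_Npg cl_Frc cl_Irr

theorem cl_Slo : St_Slo := thm_Slo

theorem cl_Mnr : St_Mnr := thm_Mnr

theorem cl_Exc : St_Exc := thm_Exc cl_EmF cl_EmG cl_IndG cl_Psi cl_Slo cl_Mnr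

theorem cl_Avd : St_Avd := thm_Avd

theorem cl_Cmp : St_Cmp := thm_Cmp cl_EmG cl_GEx cl_IndG cl_FinF cl_Exc cl_Tng cl_Avd

theorem cl_Cpo : St_Cpo := thm_Cpo cl_EmF cl_EmG cl_GEx cl_IndG cl_Tng cl_Cmp

theorem cl_Aeq : St_Aeq := thm_Aeq cl_EmG cl_IndG cl_GNl cl_Cpo

theorem cl_Con : St_Con := thm_Con cl_EmF cl_EmG cl_Avd cl_Psi

theorem cl_BaJ : St_BaJ := thm_BaJ cl_EmF cl_EmG cl_IndG cl_Tng cl_GNl cl_GEx cl_Con

theorem cl_StJ : St_StJ := thm_StJ cl_Loc cl_Wal cl_Aeq cl_BaJ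

theorem cl_TrT : St_TrT := thm_TrT cl_EmF cl_GEx cl_Loc cl_Aeq cl_BaJ

theorem cl_INJ : St_INJ := thm_INJ cl_Gen cl_Fini cl_GNl cl_EmF cl_EmG cl_IndG cl_Tng cl_StJ cl_TrT

theorem cl_InjF : St_InjF := by
  intro K L _ _ _ _ m t hc hr R F γ b hγ hb hcs h
  obtain ⟨h1, h2⟩ := cl_TowR.1 K L (m + 1) t hr
  exact cl_INJ  K L m R h1 h2 hc t hr.1 hr.2 b hb hcs F γ hγ h

theorem cl_DnD : St_DnD := thm_DnD cl_EmbA

theorem cl_Pair : St_Pair := thm_Pair

theorem cl_InjC : St_InjC := thm_InjC cl_InjF cl_DnD cl_DnA cl_Pair cl_StdF cl_TowR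

theorem cl_Clos : St_Clos := thm_Clos cl_Fini cl_DetZ cl_IndG cl_VanA

theorem cl_CohC : St_CohC := thm_CohC cl_ThmC cl_TroF cl_ZerC cl_InjC cl_Clos cl_TowR

theorem cl_GAff : St_GAff := thm_GAff

theorem cl_FFark : St_FFark := thm_FFark

theorem cl_FZero : St_FZero := thm_FZero cl_FFark

theorem cl_GCor : St_GCor := thm_GCor cl_FZero

theorem cl_GSup : St_GSup := thm_GSup cl_GAff cl_GCor cl_DnA

theorem cl_GMul : St_GMul := thm_GMul

theorem cl_FVal : St_FVal := thm_FVal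

theorem cl_FJ : St_FJ := thm_FJ cl_FZero cl_FVal

theorem cl_FFace : St_FFace := thm_FFace

theorem cl_GTro : St_GTro := thm_GTro cl_FFace cl_FVal

theorem cl_GStd : St_GStd := thm_GStd cl_FZero cl_FJ cl_GTro cl_GCor

theorem cl_GPul : St_GPul := thm_GPul cl_GTro

theorem cl_FGord : St_FGord := thm_FGord

theorem cl_FLev : St_FLev := thm_FLev cl_FGord cl_FFark

theorem cl_FPar : St_FPar := thm_FPar cl_FLev

theorem cl_FBdr : St_FBdr := thm_FBdr cl_FFace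

theorem cl_FHom : St_FHom := thm_FHom cl_FGord cl_FFace

theorem cl_FCpt : St_FCpt := thm_FCpt cl_FHom cl_FFace cl_FVal

theorem cl_FFin : St_FFin := thm_FFin cl_FGord cl_FZero cl_FJ cl_FCpt cl_FVal

theorem cl_FRep : St_FRep := thm_FRep cl_FBdr cl_FFin cl_FJ cl_FZero cl_FVal

theorem cl_CombU : St_CombU := thm_CombU

theorem cl_CombA : St_CombA := thm_CombA cl_CombU

theorem cl_GDec : St_GDec := thm_GDec cl_GSup cl_GMul cl_GStd cl_GPul cl_GTro cl_GCor cl_FPar cl_FRep cl_FGord cl_FZero cl_FldA cl_StdF cl_UpA cl_DnA cl_ExtE cl_CombA cl_TowR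

theorem cl_FReD : St_FReD := thm_FReD cl_FRep cl_FBdr cl_FFin cl_FJ cl_FZero cl_FVal

theorem cl_FCS : St_FCS := thm_FCS cl_FGord cl_FZero cl_FJ cl_FVal

theorem cl_FDiv : St_FDiv := thm_FDiv

theorem cl_FTub : St_FTub := thm_FTub

theorem cl_FNon : St_FNon := thm_FNon cl_FLev cl_FPar cl_FTub

theorem cl_FSto : St_FSto := thm_FSto

theorem cl_FTop : St_FTop := thm_FTop cl_FRep cl_FReD cl_FCS cl_FDiv cl_FNon cl_FLev cl_Div cl_FSto cl_FZero cl_FJ

theorem cl_GCmp : St_GCmp := thm_GCmp cl_ThmC cl_GStd cl_GPul cl_GCor cl_FTop cl_DnA cl_TowR cl_UpA cl_StdF cl_CSu cl_FCS cl_FRep cl_FZero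

theorem cl_GCpl : St_GCpl := thm_GCpl cl_GSup cl_GCor cl_FLev cl_TowR cl_DnA cl_EmbA

theorem cl_GFin : St_GFin := thm_GFin cl_GDec cl_GCmp cl_FTop cl_FCS cl_GCpl cl_InjC cl_GCor cl_GStd cl_GPul cl_DnA cl_StdF cl_TowR cl_CombA cl_FZero

theorem cl_FCom : St_FCom := thm_FCom

theorem cl_IGm : St_IGm := thm_IGm

theorem cl_IAf : St_IAf := thm_IAf

theorem cl_IFan : St_IFan := thm_IFan

theorem cl_IPr : St_IPr := thm_IPr

theorem cl_ValT : St_ValT := thm_ValT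

theorem cl_ValD : St_ValD := thm_ValD cl_ValT

end TDC
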