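import Pool.Agent.TDC.DefsN

/-!
# TDN: the algebra part (elliptic curve, reduction, tubes, existence): statements

Every module `TDC/<Name>.lean` proves `theorem TDC.thm_<Name>` with the type given in its docstring
(other modules are hypotheses; keep exactly this type). Import only `Pool.Agent.TDC.StNa`; standard
axioms. `E : y² = x³ + 1`; `i : ℂ → M` an embedding of `ℂ` in a field `M ∋ x, y` on `E`, `x`
transcendental over `ℂ`. The statements `St_NSub`, `St_NLam`, `St_NAsy`, `St_NTub` of `StN.lean` are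
deduced by `thm_NSub : St_NSub`, `thm_NLam : St_NaLam → St_NLam`,
`thm_NAsy : St_NBas → St_NaAsy → St_NAsy`, `thm_NTub : St_NBas → St_NaTub → St_NaSte → St_NTub`.
-/

namespace TDC

open scoped Topology
open Polynomial

/-- `x, y ∈ M` is a point of `E`, `x` is transcendental over `ℂ` -/
structure OnE {M : Type} [Field M] (i : ℂ →+* M) (x y : M) : Prop where
  eq : y ^ 2 = x ^ 3 + 1
  tr : ∀ p : ℂ[X], p ≠ 0 → p.eval₂ i x ≠ 0

/-! ## A. Functions on `E` over `ℂ` -/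

/-- **NaKer** (0.8 h). `theorem thm_NaKer : St_NaKer`. A polynomial relation between `x` and `y` vanishes
on all of `E(ℂ)`.
Proof. Every `G ∈ ℂ[X,Y]` is `G = (Y² - X³ - 1) H + G₀(X) + G₁(X) Y` with `G₀, G₁ ∈ ℂ[X]`
(`Y² ↦ X³+1`; e.g. by `MvPolynomial.induction_on`: the set of `G` for which such a representation
exists contains the constants, `X`, `Y` and is closed under sum and product; or define: there are
`G₀ G₁` with `eval₂ j ![u, v] G = G₀(u) + G₁(u) v` for ALL fields (rings) `R`, `j : ℂ → R`, `u v` with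
`v² = u³+1`). (2) If `G₀(x) + G₁(x) y = 0` then `G₀(x)² = G₁(x)² (x³+1)`, so `G₀² = G₁² (X³+1)` as `x`
is transcendental, so `G₀ = G₁ = 0` (the degrees have different parity). The second claim is (1). -/
def St_NaKer : Prop :=
  (∀ (M : Type) [Field M] (i : ℂ →+* M) (x y : M), OnE i x y →
    ∀ G : MvPolynomial (Fin 2) ℂ, MvPolynomial.eval₂ i ![x, y] G = 0 →
      ∀ Q : ℂ × ℂ, Q.2 ^ 2 = Q.1 ^ 3 + 1 → MvPolynomial.eval ![Q.1, Q.2] G = 0) ∧
  ∀ G : MvPolynomial (Fin 2) ℂ, ∃ G₀ G₁ : ℂ[X], ∀ (R : Type) [CommRing R] (j : ℂ →+* R) (u v : R),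
    v ^ 2 = u ^ 3 + 1 → MvPolynomial.eval₂ j ![u, v] G = G₀.eval₂ j u + G₁.eval₂ j u * v

/-- **NaNf** (0.8 h). `theorem thm_NaNf : St_NaKer → St_NaNf`. Normal form of a function.
Proof. `U(x,y) = U₀(x) + U₁(x) y`, `W(x,y) = W₀(x) + W₁(x) y` (`NaKer`). Multiply with the conjugate
`W₀(x) - W₁(x) y`: `φ (W₀² - W₁² f)(x) = A₁(x) + B₁(x) y`, `f = X³+1`, and
`C = W₀² - W₁² f ≠ 0` (else `W₀ = W₁ = 0` by parity of degrees). `A₁, B₁` are not both zero as `φ ≠ 0`;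
`T = gcd A₁ B₁`, `A = A₁/T`, `B = B₁/T` are coprime (`EuclideanDomain.gcd`,
`isCoprime_div_gcd_div_gcd`). -/
def St_NaNf : Prop :=
  ∀ (M : Type) [Field M] (i : ℂ →+* M) (x y : M), OnE i x y → ∀ φ : M, φ ≠ 0 →
    (∃ U W : MvPolynomial (Fin 2) ℂ, MvPolynomial.eval₂ i ![x, y] W ≠ 0 ∧
      φ * MvPolynomial.eval₂ i ![x, y] W = MvPolynomial.eval₂ i ![x, y] U) →
    ∃ T C A B : ℂ[X], T ≠ 0 ∧ C ≠ 0 ∧ IsCoprime A B ∧
      φ * C.eval₂ i x = T.eval₂ i x * (A.eval₂ i x + B.eval₂ i x * y)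

open Classical in
/-- **NaOrd** (1 h). `theorem thm_NaOrd : St_NaKer → St_NaOrd`. The orders of a function in normal form, and
uniqueness of the order.
Proof. (1) `a = Q.1`, `b = Q.2 ≠ 0`. `T = (X-a)^t T'`, `C = (X-a)^s C'`, `T'(a), C'(a) ≠ 0`. If
`A(a) + B(a) b ≠ 0`: `φ C'(x) = (x-a)^(t-s) T'(x) (A(x) + B(x)y)`: `W = C'(X)`, `U = T'(X)(A(X)+B(X)Y)`.
Otherwise `A(a) - B(a) b ≠ 0` (if both vanish then `A(a) = B(a) = 0` as `2b ≠ 0`, not coprime);
`A² - B² f = (X-a)^k g`, `g(a) ≠ 0` (it is not `0`, parity of degrees: coprime `A, B`, so if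
`A² = B² f` then `B` is a unit, `f` a square, impossible), and
`(A(x)+B(x)y)(A(x)-B(x)y) = (x-a)^k g(x)`: `W = C'(X)(A(X) - B(X)Y)`, `U = T'(X) g(X)`, order
`t - s + k`. Non-vanishing of `W(x,y)` etc. is not needed for `OrdAt`. Multiply/cancel powers of `x - a`
(`≠ 0`) in `M` with `zpow`. (2) Uniqueness: if `φ W = (x-a)^n U`, `φ W' = (x-a)^n' U'`, `n > n'`, then
`(x-a)^(n-n') U W' = U' W` at `(x,y)` (`W(x,y) ≠ 0`, `φ ≠ 0`…: if `φ = 0` then `U(x,y) = 0`, so `U(Q) = 0`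
by `NaKer`, contradiction; cross multiply), so by `NaKer` the polynomial
`(X-a)^(n-n') U W' - U' W` vanishes at `Q`: `U'(Q) W(Q) = 0`, contradiction. -/
def St_NaOrd : Prop :=
  (∀ (M : Type) [Field M] (i : ℂ →+* M) (x y : M), OnE i x y → ∀ (φ : M) (T C A B : ℂ[X]),
    T ≠ 0 → C ≠ 0 → IsCoprime A B →
    φ * C.eval₂ i x = T.eval₂ i x * (A.eval₂ i x + B.eval₂ i x * y) →
    ∀ Q : ℂ × ℂ, Q.2 ^ 2 = Q.1 ^ 3 + 1 → Q.2 ≠ 0 →
      OrdAt i x y φ Q ((T.rootMultiplicity Q.1 : ℤ) - C.rootMultiplicity Q.1 +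
        if A.eval Q.1 + B.eval Q.1 * Q.2 = 0 then
          ((A ^ 2 - B ^ 2 * (X ^ 3 + 1)).rootMultiplicity Q.1 : ℤ) else 0)) ∧
  ∀ (M : Type) [Field M] (i : ℂ →+* M) (x y : M), OnE i x y → ∀ (φ : M) (Q : ℂ × ℂ) (n n' : ℤ),
    Q.2 ^ 2 = Q.1 ^ 3 + 1 → OrdAt i x y φ Q n → OrdAt i x y φ Q n' → n = n'

/-- **NaGrp** (0.8 h). `theorem thm_NaGrp : St_NaKer → St_NaOrd → St_NaGrp`. Divisors form a group, up to
values at bad points.
Proof. Quotient: `φ W₁ = (x-a)^n U₁`, `ψ W₂ = (x-a)^m U₂` give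
`(φ/ψ) (W₁ U₂) = (x-a)^(n-m) (U₁ W₂)`. Values of polynomials which do not vanish at `Q` are non-zero in `M`
(`NaKer`). The integer combination: induction. The last claim: `OrdAt` only at good points, so
`o` may be changed at the bad points. -/
def St_NaGrp : Prop :=
  ∀ (M : Type) [Field M] (i : ℂ →+* M) (x y : M), OnE i x y →
    IsDiv i x y (fun _ => 0) ∧
    (∀ o o' : ℂ × ℂ → ℤ, IsDiv i x y o → IsDiv i x y o' → IsDiv i x y (fun Q => o Q - o' Q)) ∧
    (∀ (O : Finset (ℂ × ℂ → ℤ)) (n : (ℂ × ℂ → ℤ) → ℤ), (∀ o ∈ O, IsDiv i x y o) →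
      IsDiv i x y (fun Q => ∑ o ∈ O, n o * o Q)) ∧
    ∀ o o' : ℂ × ℂ → ℤ, IsDiv i x y o → (∀ Q, GoodE Q → o' Q = o Q) → IsDiv i x y o'

/-- **NaPel** (1.2 h). `theorem thm_NaPel : St_NaPel`. The key polynomial lemma.
Proof. `f = X³+1`; write `P^D` for `P` with `D` applied to the coefficients (`P ↦ P^D` is a derivation of
`ℂ[X]` with `X^D = 0`: `Derivation.mapCoeff` in Mathlib; `f^D = 0` since `D 1 = 0`). All roots of `R` are
killed by `D` and `R` is monic, so `R^D = 0` (product of `X - s`, `D s = 0`). Let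
`ψ = A² - B² f = c (X-a)^N R`, `d = deg ψ = N + deg R`, `G = A B^D - A^D B`. Identities (ring):
`2 A G = 2 B^D ψ - B ψ^D`, `2 B f G = 2 A^D ψ - A ψ^D` (use `ψ^D = 2 A A^D - 2 B B^D f`), and
`ψ^D = (X-a)^(N-1) R (c^D (X-a) - c N D(a))` (`c^D = C (D c)`). (1) `Π = (X-a)^(N-1) R` divides `A G` and
`B f G`. Claim: `Π ∣ G`. With Bezout (`A, B` coprime) `Π ∣ f G`, so `Π ∣ h G`, `h = gcd(A, f)` (monic). The roots
of `f` are killed by `D` (`3 r² D r = 0`, `r ≠ 0`), so `h^D = 0` (`h` is a product of `X - r`), and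
`f(a) ≠ 0`, `h(a) ≠ 0`. `A = h A₁`, `A^D = h A₁^D`, so `h ∣ G = A B^D - A^D B`. `f = h f₁`, `h` and `f₁` are
coprime (`f` is separable), `ψ = h (h A₁² - B² f₁) = h ψ₁` with `h, ψ₁` coprime. `h` is coprime to
`X - a`, so `h ∣ Π`, `Π = h Π₁`, `Π₁ ∣ ψ₁` (as `h Π₁ ∣ h ψ₁`), so `Π₁` and `h` are coprime. `Π₁ ∣ G`
(from `h Π₁ ∣ h G`) and `h ∣ G` give `Π ∣ G`. (2) Degrees: `deg A² ≠ deg (B² f)` (parity), so
`2 deg A ≤ d` and `2 deg B + 3 ≤ d` (if `B ≠ 0`), so `deg G ≤ deg A + deg B ≤ d - 2` (it is `≤ d - 3/2`),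
and `deg Π = d - 1`. So `G = 0`. (3) Then `A ψ^D = 2 A^D ψ`, `B ψ^D = 2 B^D ψ`: `(X-a)^N` divides the
right sides, and `(X-a)^N` does not divide `ψ^D` (`R(a) ≠ 0` since `D a ≠ 0`; `c N D(a) ≠ 0`), so
`X - a` divides `A` and `B`. Contradiction. -/
def St_NaPel : Prop :=
  ∀ (D : Derivation ℤ ℂ ℂ) (A B R : ℂ[X]) (a c : ℂ) (N : ℕ), D a ≠ 0 → c ≠ 0 → 0 < N → R.Monic →
    (∀ s : ℂ, R.IsRoot s → D s = 0) → IsCoprime A B →
    A ^ 2 - B ^ 2 * (X ^ 3 + 1) ≠ C c * (X - C a) ^ N * R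

/-- **NaDer** (1 h). `theorem thm_NaDer : St_NaDer`. Derivations of `ℂ`.
Proof. Let `B ⊂ ℂ` be a transcendence basis over `ℚ` (uncountable, `#B = #ℂ`; Mathlib
`exists_isTranscendenceBasis`). Every `s ∈ S` is algebraic over `ℚ(B_s)` for a finite `B_s ⊂ B`; take
`a ∈ B` outside the finite union `B₀` of the `B_s`. The derivation `∂/∂a` of `ℚ(B)` (it kills
`ℚ(B₀)`) extends to the algebraic extension `ℂ` (characteristic 0), and it kills everything algebraic
over `ℚ(B₀)`. Alternatives: `a` transcendental over `k = ` algebraic closure of `ℚ(S)` in `ℂ` (countable);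
`ℂ/k(a)` is formally smooth/`k(a) → ℂ` separable, or Kähler differentials: `d a ≠ 0` in `Ω[ℂ⁄k]`
(char 0, `a` transcendental over `k`) and a linear functional on the `ℂ`-vector space `Ω[ℂ⁄k]` which does not
vanish on `d a` (`Derivation.liftKaehlerDifferential` backwards); look for
`Algebra.IsAlgebraic`/`transcendental` lemmas about `KaehlerDifferential` in Mathlib (differential basis
= transcendence basis). Regard it as `ℤ`-derivation by `Derivation.restrictScalars`. -/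
def St_NaDer : Prop :=
  ∀ S : Finset ℂ, ∃ (a : ℂ) (D : Derivation ℤ ℂ ℂ), (∀ s ∈ S, D s = 0) ∧ D a ≠ 0

/-- **NaOne** (1.2 h). `theorem thm_NaOne : St_NaKer → St_NaNf → St_NaOrd → St_NaGrp → St_NaPel → St_NaOne`. Step 2 for one
function.
Proof. Let `P = (a,b)`; `D a ≠ 0`, so `a ∉ S`, `a ≠ 0`, `f(a) ≠ 0`. Let `o` be the divisor of `φ`;
suppose `o P ≠ 0`. Passing to `1/φ` (`NaGrp`: `0 - o` is a divisor) we may assume
`o P = N > 0`. Normal form `φ C(x) = T(x)(A(x) + B(x) y)` (`NaNf`); orders by `NaOrd` (and uniqueness).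
Let `ψ = A² - B² f ≠ 0`. (1) Let `a' ∉ S`, `a' ≠ 0`, `f(a') ≠ 0`, `a' ≠ a`; choose `b'` with
`b'² = f(a')`; `(a', ± b')` are good, so both orders are `0`. Not both of `A(a') ± B(a') b'` vanish
(coprime), so one order is `mult T - mult C = 0`, hence the other shows
(`A(a') ± B(a')b' = 0 → mult ψ = 0`), so `ψ(a') ≠ 0` (`ψ(a')` is the product of the two, and if
one vanishes then `mult ψ > 0`). (2) At `a`: with `t = mult T - mult C`: `o(a,-b) = 0` (it is good,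
`≠ P`, first coordinate not in `S`) and `o(a,b) = N > 0`. If `A(a) - B(a) b = 0` then
`A(a) + B(a) b ≠ 0` and `N = t`, `0 = t + mult_a ψ`: impossible. So `t = 0` and
`A(a) + B(a) b = 0`, `N = mult_a ψ`. (3) So `ψ = c (X-a)^N R` with `R` monic and the roots of `R` in
`S ∪ {0} ∪ roots of f`, all killed by `D` (`D 0 = 0`; `r³ = -1` gives `3 r² D r = 0`). `NaPel`:
contradiction. -/
def St_NaOne : Prop :=
  ∀ (M : Type) [Field M] (i : ℂ →+* M) (x y : M), OnE i x y → ∀ (S : Finset ℂ)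
    (D : Derivation ℤ ℂ ℂ) (P : ℂ × ℂ), (∀ s ∈ S, D s = 0) → D P.1 ≠ 0 → GoodE P →
    ∀ o : ℂ × ℂ → ℤ, IsDiv i x y o →
      (∀ Q : ℂ × ℂ, GoodE Q → Q.1 ∉ S → Q ≠ P → o Q = 0) → o P = 0

/-- **NaLin** (0.7 h). `theorem thm_NaLin : St_NaLin`. Linear algebra. Proof: in `ℚ^O` let
`v_Q = (o Q)_{o ∈ O}`. If `v_P` is not in the span of the `v_Q`, `Q ∈ 𝒬`, there is a linear functional over
`ℚ` which vanishes on them and not on `v_P` (`Submodule.exists_le_ker_of_notMem` or similar); multiply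
with a common denominator: integers `n_o` with `∑ n_o o(Q) = 0` on `𝒬` and `≠ 0` at `P`,
contradiction. So `v_P = ∑ μ_Q v_Q` (finite sum); `Λ = single P 1 - ∑ μ_Q single Q`, real
coefficients. -/
def St_NaLin : Prop :=
  ∀ (Pt' : Type) (𝒬 : Set Pt') (P : Pt') (O : Finset (Pt' → ℤ)), P ∉ 𝒬 →
    (∀ n : (Pt' → ℤ) → ℤ, (∀ Q ∈ 𝒬, ∑ o ∈ O, n o * o Q = 0) → ∑ o ∈ O, n o * o P = 0) →
    ∃ Λ : Pt' →₀ ℝ, Λ P = 1 ∧ (∀ Q ∈ Λ.support, Q = P ∨ Q ∈ 𝒬) ∧
      ∀ o ∈ O, Λ.sum (fun Q l => l * (o Q : ℝ)) = 0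

/-- **NaLam** (0.4 h). `theorem thm_NaLam : St_NaDer → St_NaGrp → St_NaOne → St_NaLin → St_NaLam`. Step 2.
Proof. `a`, `D` from `NaDer` for `S`; `b` with `b² = a³ + 1`; `a ≠ 0` (`D 0 = 0`), `b ≠ 0` (else `a³ = -1`,
`3 a² D a = 0`). `P = (a, b)`, `𝒬 = {Q good, Q.1 ∉ S, Q ≠ P}`. `NaLin` with `NaGrp` (integer combinations) and
`NaOne`. `a ∉ S` since `D a ≠ 0`. -/
def St_NaLam : Prop :=
  ∀ (M : Type) [Field M] (i : ℂ →+* M) (x y : M), OnE i x y → ∀ S : Finset ℂ,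
    ∃ P : ℂ × ℂ, GoodE P ∧ P.1 ∉ S ∧ ∀ O : Finset (ℂ × ℂ → ℤ), (∀ o ∈ O, IsDiv i x y o) →
      ∃ Λ : (ℂ × ℂ) →₀ ℝ, Λ P = 1 ∧ (∀ Q ∈ Λ.support, GoodE Q ∧ Q.1 ∉ S) ∧
        ∀ o ∈ O, Λ.sum (fun Q l => l * (o Q : ℝ)) = 0

/-! ## B. Tubes and asymptotics -/

/-- **NaTub** (0.6 h). `theorem thm_NaTub : St_NaTub`. Tube facts. `a = Q.1`, `b = Q.2`.
Proof. Complex numbers `≠ 0` have value `1` (`v.ext`, `ResC.one`). `y² - b² = x³ - a³ =
(x-a)(x² + a x + a²)`, and `x² + ax + a² = 3a² + (x - a)(x + 2a)` has value `1` if `v(x-a) < 1`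
(`v(x) ≤ 1`; `v(3a²) = 1`). So `v(y-b) v(y+b) = v(x-a) < 1`. As `(y+b) - (y-b) = 2b` has value `1`,
`max (v(y-b), v(y+b)) ≥ 1`, and both are `≤ 1` or equal…: if `v(y-b) < 1` then `v(y+b) = v(2b) = 1`; otherwise
`v(y+b) < 1` (product `< 1`), so `v(y-b) = 1` and `v(y+b) = v(x-a)`. (If `v(y-b) ≥ 1` then
`v(y+b) = v(x-a)/v(y-b) < 1`, so `v(y-b) = v(2b) = 1`.) Disjointness: if `v(x-a), v(x-a') < 1` then
`v(a-a') < 1`, so `a = a'`; similarly `b = b'`. Third: `v ∈ Tube` implies `v x ≤ 1`, `v y ≤ 1`. -/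
def St_NaTub : Prop :=
  ∀ (K L : Type) [NontriviallyNormedField K] [IsUltrametricDist K] [Field L] [Algebra K L]
    (c : ℂ →+* K) (x y : L), ResC c → y ^ 2 = x ^ 3 + 1 → ∀ v : Pt (algebraMap K L),
    (∀ Q : ℂ × ℂ, GoodE Q → v.v (x - algebraMap K L (c Q.1)) < 1 →
      (v.v (y - algebraMap K L (c Q.2)) < 1 ∧ v.v (y + algebraMap K L (c Q.2)) = 1) ∨
      (v.v (y - algebraMap K L (c Q.2)) = 1 ∧
        v.v (y + algebraMap K L (c Q.2)) = v.v (x - algebraMap K L (c Q.1)))) ∧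
    (∀ Q Q' : ℂ × ℂ, v ∈ Tube c x y Q → v ∈ Tube c x y Q' → Q = Q') ∧
    (∀ Q : ℂ × ℂ, v ∈ Tube c x y Q → v.v x ≤ 1 ∧ v.v y ≤ 1)

/-- **NaVal** (0.6 h). `theorem thm_NaVal : St_NaTub → St_NaVal`. Values of complex functions in tubes.
Proof. `φ W(x,y) = (x-a)^n U(x,y)`. A polynomial `G ∈ ℂ[X,Y]` with `G(Q) ≠ 0` has value `1` at `(x,y)` in the
tube: `G(x,y) - G(Q)` is a combination of `x - a`, `y - b` with coefficients polynomials in `x, y` of value
`≤ 1` (or: the values `≤ 1` form a ring, those `< 1` an ideal; reduce modulo this ideal: `G(x,y) ≡ G(a,b)`),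
so `v(G(x,y)) = v(G(Q)) = 1`. -/
def St_NaVal : Prop :=
  ∀ (K L : Type) [NontriviallyNormedField K] [IsUltrametricDist K] [Field L] [Algebra K L]
    (c : ℂ →+* K) (x y : L), ResC c → y ^ 2 = x ^ 3 + 1 → ∀ (φ : L) (Q : ℂ × ℂ) (n : ℤ),
    GoodE Q → OrdAt ((algebraMap K L).comp c) x y φ Q n → ∀ v ∈ Tube c x y Q,
      v.v φ = v.v (x - algebraMap K L (c Q.1)) ^ n

/-- **NaAsy** (1.5 h). `theorem thm_NaAsy : St_NaKer → St_NaNf → St_NaOrd → St_NaTub → St_NaVal → St_NaAsy`.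
Reduction of the elements of `K(E)`.
Proof. (0) `w ∈ K(x,y)`: there are `A, B, C ∈ K[X]`, `C ≠ 0`, `w C(x) = A(x) + B(x) y` (the set of such `w`
is a field containing `K, x, y`: `IntermediateField.adjoin_induction`; inverse:
`(A+By)⁻¹ = (A-By)/(A²-B²f)`, and `A(x)² ≠ B(x)² f(x)` unless `A = B = 0` by parity of degrees, as `x` is
transcendental over `K`). (1) For `(A,B) ≠ 0` let `α ∈ K` be a coefficient of `A` or `B` of maximal norm; all
coefficients of `A/α`, `B/α` have norm `≤ 1`, one has norm `1`. By `ResC.res` choose for every coefficient a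
complex number congruent to it: `A/α = Ā + A₂`, `B/α = B̄ + B₂`, `Ā, B̄ ∈ ℂ[X]` (mapped by `c`), not
both `0`, coefficients of `A₂`, `B₂` of norm `≤ θ < 1` (finitely many). In a tube (`v x, v y ≤ 1`)
`v(A₂(x) + B₂(x) y) ≤ θ`. Let `φ₁ = Ā(x) + B̄(x) y ∈ L`, `φ₁ ≠ 0`; at every good `Q` it has an order `n(Q)`
(`NaNf`, `NaOrd`) and `v(φ₁) = v(x-a)^{n(Q)}` (`NaVal`), which is `> θ` if `log v(x-a)` is close to `0`. So
`v(A(x)+B(x)y) = ‖α‖ v(x-a)^{n(Q)}` there. (2) The same for `C` (with `B = 0`): `γ`, `C̄`. So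
`A = log‖α‖ - log‖γ‖` and `o Q = n(Q) - m(Q)`, the divisor of `φ₁ / C̄(x)` (choose `o Q` by `Classical.choose`
at good `Q`, `0` elsewhere; existence of the order of the quotient again by `NaNf`, `NaOrd`, with
value `n - m` by `NaVal` or uniqueness, or directly: quotient of the two representations as in
`NaGrp`). The Gauss hypothesis is not needed. -/
def St_NaAsy : Prop :=
  ∀ (K L : Type) [NontriviallyNormedField K] [IsUltrametricDist K] [Field L] [Algebra K L]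
    (c : ℂ →+* K) (x y : L), ResC c → y ^ 2 = x ^ 3 + 1 →
    (∀ p : Polynomial K, p ≠ 0 → Polynomial.aeval x p ≠ 0) →
    ∀ w ∈ KE K x y, w ≠ 0 → ∃ (A : ℝ) (o : ℂ × ℂ → ℤ), IsDiv ((algebraMap K L).comp c) x y o ∧
      ∀ Q : ℂ × ℂ, GoodE Q → ∃ δ > 0, ∀ v ∈ Tube c x y Q,
        -δ < Real.log (v.v (x - algebraMap K L (c Q.1))) →
        v.v (x - algebraMap K L (c Q.1)) ≠ 0 →
        Real.log (v.v w) = A + o Q * Real.log (v.v (x - algebraMap K L (c Q.1)))

/-- **NaSte** (1.2 h). `theorem thm_NaSte : St_NaSte`. Step 1: tubes not met by `f`.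
Proof. For every `J : Fin n → Fin r` the `n+1` elements `x, f_J` of `L` are algebraically dependent
(`TrLe`): `P_J ∈ K[X, U_1..U_n]`, `P_J ≠ 0`, `P_J(x, f_J) = 0`; write `P_J = ∑_e p_e(X) U^e`
(`MvPolynomial.finSuccEquiv` or `optionEquivLeft` and so on). For `p_e ≠ 0` choose a coefficient `α_e` of maximal norm and
`p̄_e ∈ ℂ[X]`, `p̄_e ≠ 0`, congruent to `p_e/α_e` (`ResC.res`; coefficients of the difference of norm
`< 1`). `S` = the finite set of all roots of all `p̄_e` (`e` in the support, all `J`). Let `a ∉ S`,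
`v(x-a) < 1`. Then `v(p̄_e(x)) = 1` (`p̄_e(x) ≡ p̄_e(a)` modulo values `< 1`, `p̄_e(a) ≠ 0` complex), so
`v(p_e(x)) = ‖α_e‖`. If `f_J` were independent at `v`, the terms `p_e(x) f^e`, `e` in the
support, have pairwise different values (`‖α_e‖ v(f^e) = ‖α_e'‖ v(f^e')` gives
`v(f^(e-e')) ∈ |K|`, `e = e'`), so their sum has value `max > 0` (ultrametric), but it is `0`. -/
def St_NaSte : Prop :=
  ∀ (K L : Type) [NontriviallyNormedField K] [IsUltrametricDist K] [Field L] [Algebra K L]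
    (c : ℂ →+* K) (x : L) (n : ℕ), ResC c → TrLe K L n →
    (∀ p : Polynomial K, p ≠ 0 → Polynomial.aeval x p ≠ 0) →
    ∀ (r : ℕ) (f : Fin r → Lˣ), ∃ S : Finset ℂ, ∀ a : ℂ, a ∉ S → ∀ v : Pt (algebraMap K L),
      v.v (x - algebraMap K L (c a)) < 1 → ∀ J : Fin n → Fin r, ¬ Indep v (f ∘ J)

/-! ## C. Existence -/

/-- **NKex** (1.5 h). `theorem thm_NKex : St_NKex`. A complete field `K` with `ResC` and countable value group.
Proof. On `RatFunc ℂ` (or `FractionRing ℂ[X]`) take the absolute value `|r| = 2^(-ord_X r)`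
(Mathlib: `IsDedekindDomain.HeightOneSpectrum.adicAbv`-style absolute values of a prime of a Dedekind domain, or
`RatFunc` / `Polynomial.idealX` valuations; or define `|p| = 2^(-rootMultiplicity 0 p)` on `ℂ[X]` and
extend to fractions as in other modules of the team). `K` = completion (`AbsoluteValue.Completion`, a complete
normed field), `c = ` the composite of `ℂ → RatFunc ℂ → K`. Ultrametric: by density. Values: `2^ℤ ∪ {0}`
(every element `≠ 0` is close to an element of `RatFunc ℂ` of the same norm), countable. Residues: `z ∈ K`,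
`‖z‖ ≤ 1`: `r ∈ RatFunc` with `‖z - r‖ < 1`, `‖r‖ ≤ 1`; `r = p/q` with `q(0) ≠ 0` (cancel powers of `X`),
`‖r - p(0)/q(0)‖ < 1`. Alternatively `LaurentSeries ℂ` with the norm `2^(-order)` (complete: Mathlib has
completeness of `LaurentSeries` as a valued field). -/
def St_NKex : Prop :=
  ∃ (K : Type) (_ : NontriviallyNormedField K) (_ : IsUltrametricDist K) (_ : CompleteSpace K)
    (c : ℂ →+* K), ResC c ∧ (Set.range fun a : K => ‖a‖).Countable

open AlgebraicGeometry CategoryTheory in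
/-- **NSch** (2 h). `theorem thm_NSch : St_NSch`. Existence of `X = E° × 𝔸^m`.
Proof. `R₀ = K[X][Y]/(Y² - X³ - 1) = (WeierstrassCurve.Affine.CoordinateRing W)`,
`W = ⟨0,0,0,0,1⟩` over `K`, is an integral domain (Mathlib instance) (or
`AdjoinRoot (Y² - C(X³+1))` over `K[X]`; irreducible since `X³+1` is not a square), a `K`-algebra of
finite type; `R = MvPolynomial (Fin m) R₀` is a domain of finite type over `K`. `X = Spec R`,
`s = Spec(K → R)`: `X` is integral; `s` is affine, so separated, and of finite type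
(`LocallyOfFiniteType`, quasi-compact). The residue field at the generic point is `Frac R`
(the point is the zero ideal; residue field of the local ring at the zero ideal: `Frac R`), compatible with
`kmap`. `x, y, t_j` = images of `X, Y, X_j`: the equation; `x, t_j` are algebraically
independent over `K` (`K[X] ⊂ R₀` is injective, and `K[X][t] ⊂ R₀[t]`; so are the maps to `Frac R`);
they generate the field (every element of `R` is a polynomial in `x, y, t`). -/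
def St_NSch : Prop :=
  ∀ (K : Type) [NormedField K] (m : ℕ), ∃ (X : Scheme.{0}) (s : X ⟶ Spec (.of K)) (_ : IsIntegral X),
    IsSeparated s ∧ LocallyOfFiniteType s ∧ QuasiCompact s ∧
    ∃ (x y : X.residueField (genericPoint X)) (t : Fin m → (X.residueField (genericPoint X))ˣ),
      letI : Algebra K (X.residueField (genericPoint X)) := (kmap s (genericPoint X)).toAlgebra
      EFun K x y t

end TDC
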