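import Pool.Agent.TDC.StN
import Pool.Agent.TDC.StNa

/-!
# NAsy: asymptotics of elements of `K(E)` in tubes (bridge)
-/

namespace TDC

open scoped Topology

theorem thm_NAsy : St_NBas → St_NaAsy → St_NAsy := by
  intro hB hA K L _ _ _ _ m c x y t hN w hw hw0
  obtain ⟨-, -, -, -, ⟨htr, hxa⟩, -⟩ := hB K L m c x y t hN
  have htr' : ∀ p : Polynomial K, p ≠ 0 → Polynomial.aeval x p ≠ 0 := by
    intro p hp h0
    exact htr ⟨p, hp, h0⟩
  obtain ⟨A, o, ho, H⟩ := hA K L c x y hN.resC hN.eFun.eq htr' w hw hw0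
  refine ⟨A, o, ho, fun Q gQ => ?_⟩
  obtain ⟨δ, hδ, H'⟩ := H Q gQ
  refine ⟨δ, hδ, fun v hv _ hlog => ?_⟩
  rw [(hxa Q.1).1] at hlog ⊢
  refine H' v hv hlog ?_
  rw [← (hxa Q.1).1]
  exact (v.v.ne_zero_iff).2 (Units.ne_zero _)

end TDC
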