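import Pool.Agent.TDC.StN

/-!
# TDN, module NBal (helper82): balancing along the boundary of the tubes
-/

set_option autoImplicit false

namespace TDC

open scoped Topology
open MeasureTheory Filter

private theorem NBal_log {K L : Type} [NormedField K] [Field L] [Algebra K L] {R : ℕ}
    (σ : L →ₐ[K] AlgebraicClosure L) (X : Pt (algebraMap K (AlgebraicClosure L)))
    (F : Fin R → Lˣ) (r : ℕ) :
    Real.log (X.v (σ ((∏ i : Fin R, F i ^ (r ^ (i : ℕ)) : Lˣ) : L))) =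
      ∑ i : Fin R, (r : ℝ) ^ (i : ℕ) * logv (pb σ X) F i := by
  show Real.log ((pb σ X).v ((∏ i : Fin R, F i ^ (r ^ (i : ℕ)) : Lˣ) : L)) = _
  rw [Units.coe_prod, map_prod, Real.log_prod]
  · refine Finset.sum_congr rfl fun i _ => ?_
    rw [Units.val_pow_eq_pow_val, map_pow, Real.log_pow]
    push_cast
    rfl
  · intro i _
    exact ((pb σ X).v.pos (Units.ne_zero _)).ne'

private theorem NBal_tube {K L : Type} [NormedField K] [Field L] [Algebra K L] {m : ℕ}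
    (c : ℂ →+* K) (x y : L) (g : Fin m → Lˣ) (Q : ℂ × ℂ)
    (σ : L →ₐ[K] AlgebraicClosure L) (hσ : σ ∈ EmbE K x y g)
    (X : Pt (algebraMap K (AlgebraicClosure L))) (hX : pb (incE K L) X ∈ Tube c x y Q) :
    pb σ X ∈ Tube c x y Q := by
  obtain ⟨hx, hy, _⟩ := hσ
  have h1 : σ (x - algebraMap K L (c Q.1)) = incE K L (x - algebraMap K L (c Q.1)) := by
    rw [map_sub, map_sub, σ.commutes, (incE K L).commutes, hx]
    rfl
  have h2 : σ (y - algebraMap K L (c Q.2)) = incE K L (y - algebraMap K L (c Q.2)) := by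
    rw [map_sub, map_sub, σ.commutes, (incE K L).commutes, hy]
    rfl
  obtain ⟨ha, hb⟩ := hX
  refine ⟨?_, ?_⟩
  · show X.v (σ (x - algebraMap K L (c Q.1))) < 1
    rw [h1]
    exact ha
  · show X.v (σ (y - algebraMap K L (c Q.2))) < 1
    rw [h2]
    exact hb

private theorem NBal_cont {R m : ℕ} (k : Matrix (Fin R) (Fin (m + 1)) ℝ × (Fin R → ℝ))
    (s : Fin m → ℝ) : Continuous fun τ : ℝ => af k (Fin.cons τ s : Fin (m + 1) → ℝ) := by
  unfold af
  refine continuous_const.add (Continuous.matrix_mulVec continuous_const ?_)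
  refine continuous_pi fun i => ?_
  refine Fin.cases ?_ (fun j => ?_) i
  · simpa using continuous_id'
  · simpa using continuous_const

private theorem NBal_bcont {R : ℕ} (r : ℕ) :
    Continuous fun p : Fin R → ℝ => ∑ i : Fin R, (r : ℝ) ^ (i : ℕ) * p i :=
  continuous_finsetSum _ fun i _ => continuous_const.mul (continuous_apply i)

theorem thm_NBal (hBas : St_NBas) (hGS : St_NGS) (hVan : St_NVan) (hEmG : St_EmG) : St_NBal := by
  classical
  intro K L _ _ _ _ m c x y t hN g hg R F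
  obtain ⟨_, _, _, hB4, _, hB6, _⟩ := hBas K L m c x y t hN
  have hEfin : (EmbE K x y g).Finite := (hB4 _ (hB6 g hg 0).1).1.subset (hB6 g hg 0).2
  obtain ⟨E, hE⟩ : ∃ E : Finset (L →ₐ[K] AlgebraicClosure L), ∀ σ, σ ∈ E ↔ σ ∈ EmbE K x y g :=
    ⟨hEfin.toFinset, fun σ => by rw [Set.Finite.mem_toFinset]⟩
  obtain ⟨M, hV1, hV2⟩ := hVan R E.card
  choose 𝒪 q 𝒢 hO hG hmain using
    fun r : ℕ => hGS K L m c x y t hN g hg (∏ i : Fin R, F i ^ (r ^ (i : ℕ)))
  refine ⟨(Finset.range (M + 1)).biUnion 𝒪, ?_, ?_⟩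
  · intro o ho
    obtain ⟨r, _, hr⟩ := Finset.mem_biUnion.1 ho
    exact hO r o hr
  intro Λ hΛ hort 𝒦 h𝒦
  refine ⟨⋂ r ∈ Finset.range (M + 1), 𝒢 r, ?_, ?_⟩
  · rw [Set.compl_iInter₂]
    exact (measure_biUnion_null_iff (Finset.countable_toSet _)).2 fun r _ => hG r
  intro s hs p
  have hs' : ∀ r, r ≤ M → s ∈ 𝒢 r := by
    intro r hr
    rw [Set.mem_iInter₂] at hs
    exact hs r (Finset.mem_range.2 (by omega))
  obtain ⟨b, hb⟩ : ∃ b : ℕ → (Fin R → ℝ) → ℝ,
      b = fun (r : ℕ) (p : Fin R → ℝ) => ∑ i : Fin R, (r : ℝ) ^ (i : ℕ) * p i := ⟨_, rfl⟩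
  have hbc : ∀ r, Continuous (b r) := by
    intro r
    rw [hb]
    exact NBal_bcont r
  obtain ⟨𝒜, h𝒜⟩ : ∃ 𝒜 : Finset (Fin R → ℝ), ∀ Q ∈ Λ.support, ∀ k ∈ 𝒦 Q,
      af k (Fin.cons 0 s : Fin (m + 1) → ℝ) ∈ 𝒜 := by
    refine ⟨Λ.support.biUnion fun Q => (𝒦 Q).image fun k => af k (Fin.cons 0 s : Fin (m + 1) → ℝ),
      fun Q hQ k hk => ?_⟩
    exact Finset.mem_biUnion.2 ⟨Q, hQ, Finset.mem_image_of_mem _ hk⟩
  choose N o ho η₀ hη₀ hwin using fun (r : ℕ) (hr : r ≤ M) (ρ₀ : ℝ) => hmain r s (hs' r hr) ρ₀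
  -- choice of η
  obtain ⟨η, hη, hηpos⟩ : ∃ η : ℝ, (∀ r ∈ Finset.range (M + 1), ∀ ρ₀ ∈ 𝒜.image (b r),
      (∀ hr : r ≤ M, η ≤ η₀ r hr ρ₀) ∧ ∀ ρ' ∈ 𝒜.image (b r), ρ₀ ≠ ρ' → 2 * η ≤ |ρ₀ - ρ'|) ∧
      0 < η := by
    have h : ∀ᶠ η in 𝓝[>] (0 : ℝ), ∀ r ∈ Finset.range (M + 1), ∀ ρ₀ ∈ 𝒜.image (b r),
      (∀ hr : r ≤ M, η ≤ η₀ r hr ρ₀) ∧ ∀ ρ' ∈ 𝒜.image (b r), ρ₀ ≠ ρ' → 2 * η ≤ |ρ₀ - ρ'| := by
      rw [Filter.eventually_all_finset]
      intro r hr
      rw [Filter.eventually_all_finset]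
      intro ρ₀ _
      refine Filter.Eventually.and ?_ ?_
      · have hr' : r ≤ M := by
          have := Finset.mem_range.1 hr
          omega
        have h1 : ∀ᶠ η in 𝓝 (0 : ℝ), η < η₀ r hr' ρ₀ := eventually_lt_nhds (hη₀ r hr' ρ₀)
        filter_upwards [h1.filter_mono nhdsWithin_le_nhds] with η hη _
        exact hη.le
      · rw [Filter.eventually_all_finset]
        intro ρ' _
        by_cases hne : ρ₀ = ρ'
        · exact Filter.Eventually.of_forall fun η h => absurd hne h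
        · have hpos : 0 < |ρ₀ - ρ'| / 2 := by
            have := abs_pos.2 (sub_ne_zero.2 hne)
            linarith
          have h1 : ∀ᶠ η in 𝓝 (0 : ℝ), η < |ρ₀ - ρ'| / 2 := eventually_lt_nhds hpos
          filter_upwards [h1.filter_mono nhdsWithin_le_nhds] with η hη _
          linarith
    exact (h.and self_mem_nhdsWithin).exists
  -- choice of δ
  have hev : ∀ᶠ τ in 𝓝[<] (0 : ℝ),
      (∀ r ∈ Finset.range (M + 1), ∀ ρ₀ ∈ 𝒜.image (b r), ∀ Q ∈ Λ.support, ∀ hr : r ≤ M,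
        Generic K (Fin.cons τ s : Fin (m + 1) → ℝ) →
        ∀ X : Pt (algebraMap K (AlgebraicClosure L)),
          Ov (cx c x Q.1 g) (Fin.cons τ s : Fin (m + 1) → ℝ) X →
          pb (incE K L) X ∈ Tube c x y Q →
          ∀ T : Finset (L →ₐ[K] AlgebraicClosure L),
            (T : Set (L →ₐ[K] AlgebraicClosure L)) =
              {σ | σ ∈ EmbE K x y g ∧ |Real.log (X.v (σ ((∏ i : Fin R, F i ^ (r ^ (i : ℕ)) :
                Lˣ) : L))) - ρ₀| < η} →
            T.card = N r hr ρ₀ ∧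
            ∑ σ ∈ T, Real.log (X.v (σ ((∏ i : Fin R, F i ^ (r ^ (i : ℕ)) : Lˣ) : L))) =
              N r hr ρ₀ * ρ₀ + q r * (o r hr ρ₀ Q : ℝ) * τ) ∧
      (∀ r ∈ Finset.range (M + 1), ∀ Q ∈ Λ.support, ∀ k ∈ 𝒦 Q,
        |b r (af k (Fin.cons τ s : Fin (m + 1) → ℝ)) -
          b r (af k (Fin.cons 0 s : Fin (m + 1) → ℝ))| < η) ∧
      (∀ Q ∈ Λ.support, ∀ k ∈ 𝒦 Q, ∀ k' ∈ 𝒦 Q,
        af k (Fin.cons 0 s : Fin (m + 1) → ℝ) ≠ af k' (Fin.cons 0 s : Fin (m + 1) → ℝ) →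
        af k (Fin.cons τ s : Fin (m + 1) → ℝ) ≠ af k' (Fin.cons τ s : Fin (m + 1) → ℝ)) := by
    refine Filter.Eventually.and ?_ (Filter.Eventually.and ?_ ?_)
    · rw [Filter.eventually_all_finset]
      intro r hr
      rw [Filter.eventually_all_finset]
      intro ρ₀ hρ
      rw [Filter.eventually_all_finset]
      intro Q hQ
      have hr' : r ≤ M := by
        have := Finset.mem_range.1 hr
        omega
      obtain ⟨δ, hδ, h⟩ := hwin r hr' ρ₀ η hηpos ((hη r hr ρ₀ hρ).1 hr') Q (hΛ Q hQ)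
      filter_upwards [Ioo_mem_nhdsLT (show -δ < 0 by linarith)] with τ hτ _
      exact h τ hτ.1 hτ.2
    · rw [Filter.eventually_all_finset]
      intro r hr
      rw [Filter.eventually_all_finset]
      intro Q hQ
      rw [Filter.eventually_all_finset]
      intro k hk
      have h1 : Continuous fun τ : ℝ => |b r (af k (Fin.cons τ s : Fin (m + 1) → ℝ)) -
          b r (af k (Fin.cons 0 s : Fin (m + 1) → ℝ))| :=
        (((hbc r).comp (NBal_cont k s)).sub continuous_const).abs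
      have h2 := h1.tendsto 0
      simp only [sub_self, abs_zero] at h2
      exact (h2.eventually (eventually_lt_nhds hηpos)).filter_mono nhdsWithin_le_nhds
    · rw [Filter.eventually_all_finset]
      intro Q hQ
      rw [Filter.eventually_all_finset]
      intro k hk
      rw [Filter.eventually_all_finset]
      intro k' hk'
      by_cases hne : af k (Fin.cons 0 s : Fin (m + 1) → ℝ) = af k' (Fin.cons 0 s : Fin (m + 1) → ℝ)
      · exact Filter.Eventually.of_forall fun τ h => absurd hne h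
      · have h1 := (((NBal_cont k s).sub (NBal_cont k' s)).tendsto 0).eventually_ne
          (sub_ne_zero.2 hne)
        filter_upwards [h1.filter_mono nhdsWithin_le_nhds] with τ hτ _
        exact sub_ne_zero.1 hτ
  obtain ⟨l, hl, hsub⟩ := mem_nhdsLT_iff_exists_Ioo_subset.1 hev
  refine ⟨-l, by simpa using hl, ?_⟩
  intro τ hτ1 hτ2 hgen X hX T hT
  obtain ⟨hw, hsmall, huniq⟩ := hsub ⟨by linarith, hτ2⟩
  -- the limit points
  have hlp : ∀ (Q : ℂ × ℂ) (σ : L →ₐ[K] AlgebraicClosure L), ∃ a : Fin R → ℝ,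
      Q ∈ Λ.support → σ ∈ E → ∃ k ∈ 𝒦 Q, a = af k (Fin.cons 0 s : Fin (m + 1) → ℝ) ∧
        logv (pb σ (X Q)) F = af k (Fin.cons τ s : Fin (m + 1) → ℝ) := by
    intro Q σ
    by_cases hQ : Q ∈ Λ.support
    swap
    · exact ⟨0, fun h => absurd h hQ⟩
    by_cases hσ : σ ∈ E
    swap
    · exact ⟨0, fun _ h => absurd h hσ⟩
    have hσ' := (hE σ).1 hσ
    have h1 := (hB6 g hg Q.1).2 hσ'
    obtain ⟨h2, h3⟩ := hEmG.1 K L (m + 1) (cx c x Q.1 g) (X Q) _ (hX Q hQ).1 σ h1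
    obtain ⟨k, hk, h4⟩ := h𝒦 Q hQ (pb σ (X Q)) (NBal_tube c x y g Q σ hσ' (X Q) (hX Q hQ).2) h2
    rw [h3] at h4
    exact ⟨_, fun _ _ => ⟨k, hk, rfl, h4⟩⟩
  choose lp hlp using hlp
  have hlpA : ∀ Q ∈ Λ.support, ∀ σ ∈ E, lp Q σ ∈ 𝒜 := by
    intro Q hQ σ hσ
    obtain ⟨k, hk, h1, _⟩ := hlp Q σ hQ hσ
    rw [h1]
    exact h𝒜 Q hQ k hk
  have hlog : ∀ (r : ℕ) (Q : ℂ × ℂ) (σ : L →ₐ[K] AlgebraicClosure L),
      Real.log ((X Q).v (σ ((∏ i : Fin R, F i ^ (r ^ (i : ℕ)) : Lˣ) : L))) =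
        b r (logv (pb σ (X Q)) F) := by
    intro r Q σ
    rw [NBal_log, hb]
  -- the windows
  have hwind : ∀ r (hr : r ≤ M), ∀ ρ₀ ∈ 𝒜.image (b r), ∀ Q ∈ Λ.support,
      (E.filter fun σ => b r (lp Q σ) = ρ₀).card = N r hr ρ₀ ∧
      ∑ σ ∈ E.filter (fun σ => b r (lp Q σ) = ρ₀), b r (logv (pb σ (X Q)) F) =
        N r hr ρ₀ * ρ₀ + q r * (o r hr ρ₀ Q : ℝ) * τ := by
    intro r hr ρ₀ hρ Q hQ
    have hr' : r ∈ Finset.range (M + 1) := Finset.mem_range.2 (by omega)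
    have h := hw r hr' ρ₀ hρ Q hQ hr hgen (X Q) (hX Q hQ).1 (hX Q hQ).2
      (E.filter fun σ => b r (lp Q σ) = ρ₀) (by
        ext σ
        rw [Finset.mem_coe, Finset.mem_filter, Set.mem_ofPred_eq, hE, hlog]
        refine and_congr_right fun hσ => ?_
        have hσ' := (hE σ).2 hσ
        obtain ⟨k, hk, h1, h2⟩ := hlp Q σ hQ hσ'
        have h3 := hsmall r hr' Q hQ k hk
        rw [← h1, ← h2] at h3
        constructor
        · intro h4
          rw [← h4]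
          exact h3
        · intro h4
          by_contra hne
          have h5 := (hη r hr' (b r (lp Q σ))
            (Finset.mem_image_of_mem _ (hlpA Q hQ σ hσ'))).2 ρ₀ hρ hne
          have h6 : |b r (lp Q σ) - ρ₀| ≤ |b r (logv (pb σ (X Q)) F) - b r (lp Q σ)| +
              |b r (logv (pb σ (X Q)) F) - ρ₀| := by
            have := abs_sub_le (b r (lp Q σ)) (b r (logv (pb σ (X Q)) F)) ρ₀
            rw [abs_sub_comm (b r (lp Q σ)) (b r (logv (pb σ (X Q)) F))] at this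
            exact this
          linarith)
    refine ⟨h.1, ?_⟩
    rw [← h.2]
    exact Finset.sum_congr rfl fun σ _ => (hlog r Q σ).symm
  -- the sets of limit points
  have himg : ∀ Q ∈ Λ.support, ∀ Q' ∈ Λ.support, ∀ r ≤ M,
      b r '' (E.image (lp Q) : Set (Fin R → ℝ)) ⊆ b r '' (E.image (lp Q') : Set (Fin R → ℝ)) := by
    rintro Q hQ Q' hQ' r hr _ ⟨a, ha, rfl⟩
    obtain ⟨σ, hσ, rfl⟩ := Finset.mem_image.1 (Finset.mem_coe.1 ha)
    have hρ : b r (lp Q σ) ∈ 𝒜.image (b r) := Finset.mem_image_of_mem _ (hlpA Q hQ σ hσ)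
    have h1 := (hwind r hr _ hρ Q hQ).1
    have h2 := (hwind r hr _ hρ Q' hQ').1
    have h3 : 0 < (E.filter fun σ' => b r (lp Q σ') = b r (lp Q σ)).card :=
      Finset.card_pos.2 ⟨σ, Finset.mem_filter.2 ⟨hσ, rfl⟩⟩
    rw [h1, ← h2, Finset.card_pos] at h3
    obtain ⟨σ', hσ'⟩ := h3
    obtain ⟨h4, h5⟩ := Finset.mem_filter.1 hσ'
    exact ⟨lp Q' σ', Finset.mem_coe.2 (Finset.mem_image_of_mem _ h4), h5⟩
  have hBeq : ∀ Q ∈ Λ.support, ∀ Q' ∈ Λ.support, E.image (lp Q) = E.image (lp Q') := by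
    intro Q hQ Q' hQ'
    refine hV1 _ _ Finset.card_image_le Finset.card_image_le fun r hr => ?_
    have h := Set.Subset.antisymm (himg Q hQ Q' hQ' r hr) (himg Q' hQ' Q hQ r hr)
    rw [hb] at h
    exact h
  have hTQ : ∀ Q ∈ Λ.support, T Q = E.filter fun σ => lp Q σ = p := by
    intro Q hQ
    ext σ
    rw [← Finset.mem_coe, hT Q hQ, Set.mem_ofPred_eq, Finset.mem_filter, hE]
    refine and_congr_right fun hσ => ?_
    obtain ⟨k, hk, h1, h2⟩ := hlp Q σ hQ ((hE σ).2 hσ)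
    constructor
    · rintro ⟨k', hk', h3, h4⟩
      rw [h1, ← h3]
      by_contra hne
      exact huniq Q hQ k hk k' hk' hne (h2.symm.trans h4)
    · intro h3
      exact ⟨k, hk, h1.symm.trans h3, h2⟩
  -- conclusion
  rcases Λ.support.eq_empty_or_nonempty with hemp | ⟨Q₀, hQ₀⟩
  · intro i
    rw [hemp, Finset.sum_empty]
  have hz := hV2 (E.image (lp Q₀)) Finset.card_image_le p
    (fun i => ∑ Q ∈ Λ.support, Λ Q * ∑ σ ∈ T Q, (logv (pb σ (X Q)) F i - p i)) (by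
      intro r hr hsep
      have e1 : ∑ i : Fin R, (r : ℝ) ^ (i : ℕ) *
          (∑ Q ∈ Λ.support, Λ Q * ∑ σ ∈ T Q, (logv (pb σ (X Q)) F i - p i)) =
          ∑ Q ∈ Λ.support, Λ Q * ∑ σ ∈ T Q, (b r (logv (pb σ (X Q)) F) - b r p) := by
        rw [hb]
        simp only [← Finset.sum_sub_distrib, Finset.mul_sum]
        rw [Finset.sum_comm]
        refine Finset.sum_congr rfl fun Q _ => ?_
        rw [Finset.sum_comm]
        refine Finset.sum_congr rfl fun σ _ => ?_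
        refine Finset.sum_congr rfl fun i _ => ?_
        ring
      rw [e1]
      by_cases hp : p ∈ E.image (lp Q₀)
      · have hρ : b r p ∈ 𝒜.image (b r) := by
          obtain ⟨σ, hσ, h1⟩ := Finset.mem_image.1 hp
          rw [← h1]
          exact Finset.mem_image_of_mem _ (hlpA Q₀ hQ₀ σ hσ)
        have e2 : ∀ Q ∈ Λ.support, Λ Q * ∑ σ ∈ T Q, (b r (logv (pb σ (X Q)) F) - b r p) =
            q r * τ * (Λ Q * (o r hr (b r p) Q : ℝ)) := by
          intro Q hQ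
          have e3 : T Q = E.filter fun σ => b r (lp Q σ) = b r p := by
            rw [hTQ Q hQ]
            refine Finset.filter_congr fun σ hσ => ⟨fun h => by rw [h], fun h => ?_⟩
            by_contra hne
            have h1 : lp Q σ ∈ E.image (lp Q₀) := by
              rw [hBeq Q₀ hQ₀ Q hQ]
              exact Finset.mem_image_of_mem _ hσ
            have h2 := hsep (lp Q σ) h1 hne
            rw [hb] at h
            exact h2 h
          obtain ⟨h3, h4⟩ := hwind r hr (b r p) hρ Q hQ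
          rw [e3, Finset.sum_sub_distrib, h4, Finset.sum_const, h3, nsmul_eq_mul]
          ring
        rw [Finset.sum_congr rfl e2, ← Finset.mul_sum,
          hort _ (Finset.mem_biUnion.2 ⟨r, Finset.mem_range.2 (by omega), ho r hr (b r p)⟩),
          mul_zero]
      · refine Finset.sum_eq_zero fun Q hQ => ?_
        have e3 : T Q = ∅ := by
          rw [hTQ Q hQ, Finset.filter_eq_empty_iff]
          intro σ hσ h
          apply hp
          rw [hBeq Q₀ hQ₀ Q hQ, ← h]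
          exact Finset.mem_image_of_mem _ hσ
        rw [e3, Finset.sum_empty, mul_zero])
  intro i
  exact congrFun hz i

end TDC
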