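import Pool.Agent.TDC.StN
import Pool.Agent.TDC.EmF

/-!
# TDN, module NBas: basic facts on the field `L = K(E)(t)`
-/

set_option autoImplicit false

namespace TDC

open scoped Topology

section alg

variable {K L : Type} [Field K] [Field L] [Algebra K L] {m : ℕ}

private theorem NBas_trx {x : L} {g : Fin m → L}
    (h : AlgebraicIndependent K (Fin.cons x g : Fin (m + 1) → L)) : Transcendental K x := by
  have := h.transcendental 0
  simpa using this

/-- `L` is algebraic over `K[x,t]` -/
private theorem NBas_isAlg {x y : L} {t : Fin m → Lˣ} (h : EFun K x y t) :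
    Algebra.IsAlgebraic (Algebra.adjoin K (Set.range (Fin.cons x (fun i => (t i : L)) : Fin (m + 1) → L)))
      L := by
  set A := Algebra.adjoin K (Set.range (Fin.cons x (fun i => (t i : L)) : Fin (m + 1) → L)) with hA
  have hx : x ∈ A := Algebra.subset_adjoin ⟨0, by simp⟩
  have ht : ∀ i, (t i : L) ∈ A := fun i => Algebra.subset_adjoin ⟨i.succ, by simp⟩
  have hmem : ∀ z ∈ A, IsAlgebraic A z := fun z hz => isAlgebraic_algebraMap (⟨z, hz⟩ : A)
  refine ⟨fun z => ?_⟩
  have hz : z ∈ IntermediateField.adjoin K (insert x (insert y (Set.range fun i => (t i : L)))) := by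
    rw [h.gen]; exact IntermediateField.mem_top
  induction hz using IntermediateField.adjoin_induction with
  | mem z hz =>
    rcases hz with rfl | rfl | ⟨i, rfl⟩
    · exact hmem _ hx
    · have hs : z ^ 2 ∈ A := by
        rw [h.eq]
        exact A.add_mem (A.pow_mem hx 3) A.one_mem
      have h2 : IsAlgebraic A (z ^ 2) := hmem _ hs
      exact h2.of_pow (by norm_num)
    · exact hmem _ (ht i)
  | algebraMap z => exact hmem _ (A.algebraMap_mem z)
  | add a b _ _ ha hb => exact ha.add hb
  | inv a _ ha => exact ha.inv
  | mul a b _ _ ha hb => exact ha.mul hb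

private theorem NBas_trLe {x y : L} {t : Fin m → Lˣ} (h : EFun K x y t) : TrLe K L (m + 1) := by
  intro g hg
  have := NBas_isAlg h
  have h1 := Algebra.IsAlgebraic.trdeg_le_cardinalMk K
    (Set.range (Fin.cons x (fun i => (t i : L)) : Fin (m + 1) → L))
  have h2 := hg.cardinalMk_le_trdeg
  have h3 : Cardinal.mk (Set.range (Fin.cons x (fun i => (t i : L)) : Fin (m + 1) → L)) ≤
      Cardinal.mk (Fin (m + 1)) := Cardinal.mk_range_le
  have h4 := h2.trans (h1.trans h3)
  simp only [Cardinal.mk_fin] at h4
  have : m + 1 + 1 ≤ m + 1 := by exact_mod_cast h4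
  omega

/-- replacing `x` by `x - b`, `b ∈ K` -/
private theorem NBas_shift {x : L} {g : Fin m → L}
    (h : AlgebraicIndependent K (Fin.cons x g : Fin (m + 1) → L)) (b : K) :
    AlgebraicIndependent K (Fin.cons (x - algebraMap K L b) g : Fin (m + 1) → L) := by
  have hg : AlgebraicIndependent K g := by
    have := h.comp Fin.succ (Fin.succ_injective m)
    exact this
  have hopt : ∀ z : L, AlgebraicIndependent K (Fin.cons z g : Fin (m + 1) → L) ↔
      Transcendental (Algebra.adjoin K (Set.range g)) z := by
    intro z
    rw [← hg.option_iff_transcendental z]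
    constructor
    · intro h1
      have h2 := h1.comp (finSuccEquiv m).symm (finSuccEquiv m).symm.injective
      refine (algebraicIndependent_equiv' (Equiv.refl _) ?_).1 h2
      funext o
      cases o with
      | none => rfl
      | some i => simp
    · intro h1
      have h2 := h1.comp (finSuccEquiv m) (finSuccEquiv m).injective
      refine (algebraicIndependent_equiv' (Equiv.refl _) ?_).1 h2
      funext i
      refine Fin.cases ?_ (fun j => ?_) i
      · simp
      · simp
  rw [hopt] at h ⊢
  intro h1
  apply h
  have h2 : x = (x - algebraMap K L b) + algebraMap K L b := by ring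
  rw [h2]
  refine h1.add ?_
  have : algebraMap K L b = algebraMap (Algebra.adjoin K (Set.range g)) L
      (algebraMap K (Algebra.adjoin K (Set.range g)) b) := rfl
  rw [this]
  exact isAlgebraic_algebraMap _

end alg

private theorem NBas_mkU {L : Type} [Field L] (z : L) (h : z ≠ 0) : ((mkU z : Lˣ) : L) = z := by
  unfold mkU
  rw [dif_pos h]
  rfl

/-- an embedding which is the identity on generators is the identity -/
private theorem NBas_fix {K L : Type} [NormedField K] [Field L] [Algebra K L] (S : Set L)
    (σ : L →ₐ[K] AlgebraicClosure L)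
    (h : ∀ z ∈ S, σ z = algebraMap L (AlgebraicClosure L) z) (z : L)
    (hz : z ∈ IntermediateField.adjoin K S) : σ z = algebraMap L (AlgebraicClosure L) z := by
  induction hz using IntermediateField.adjoin_induction with
  | mem x hx => exact h x hx
  | algebraMap x =>
    rw [σ.commutes, ← IsScalarTower.algebraMap_apply K L (AlgebraicClosure L)]
  | add x y _ _ hx hy => rw [map_add, map_add, hx, hy]
  | inv x _ hx => rw [map_inv₀, map_inv₀, hx]
  | mul x y _ _ hx hy => rw [map_mul, map_mul, hx, hy]

private theorem NBas_ext {K L : Type} [NormedField K] [Field L] [Algebra K L] (S : Set L)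
    (hS : IntermediateField.adjoin K S = ⊤) (σ : L →ₐ[K] AlgebraicClosure L)
    (h : ∀ z ∈ S, σ z = algebraMap L (AlgebraicClosure L) z) : σ = incE K L := by
  apply AlgHom.ext
  intro z
  exact NBas_fix S σ h z (by rw [hS]; exact IntermediateField.mem_top)

/-- the degree is the number of embeddings -/
private theorem NBas_card {K L : Type} [NormedField K] [Field L] [Algebra K L] [CharZero L]
    {n : ℕ} (htr : TrLe K L n) (hfg : (⊤ : IntermediateField K L).FG) (g : Fin n → Lˣ)
    (hg : AlgebraicIndependent K (fun i => (g i : L))) :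
    (Emb K g).Finite ∧ dg K g = ((Emb K g).ncard : ℝ) ∧ 0 < dg K g := by
  obtain ⟨hfin, hF, -, hpos⟩ := thm_EmF K L n htr hfg g hg
  refine ⟨hF, ?_, hpos⟩
  have : CharZero K := by
    refine ⟨fun a b hab => ?_⟩
    have h1 := congrArg (algebraMap K L) hab
    rw [map_natCast, map_natCast] at h1
    exact_mod_cast h1
  let e : Emb K g ≃ (L →ₐ[IntermediateField.adjoin K (Set.range fun i => (g i : L))]
      AlgebraicClosure L) :=
    { toFun := fun σ =>
        { (σ.1 : L →ₐ[K] AlgebraicClosure L).toRingHom with
          commutes' := fun e =>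
            NBas_fix _ σ.1 (by rintro _ ⟨i, rfl⟩; exact σ.2 i) (e : L) e.2 }
      invFun := fun τ => ⟨τ.restrictScalars K, fun i => by
        have hi : (g i : L) ∈ IntermediateField.adjoin K (Set.range fun i => (g i : L)) :=
          IntermediateField.subset_adjoin K _ ⟨i, rfl⟩
        exact τ.commutes ⟨(g i : L), hi⟩⟩
      left_inv := fun σ => by
        apply Subtype.ext
        apply AlgHom.ext
        intro x
        rfl
      right_inv := fun τ => by
        apply AlgHom.ext
        intro x
        rfl }
  have h1 := Nat.card_congr e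
  rw [Nat.card_coe_set_eq] at h1
  rw [h1]
  unfold dg
  congr 1
  rw [Nat.card_eq_fintype_card, AlgHom.card]

theorem thm_NBas : St_NBas := by
  intro K L _ _ _ _ m c x y t hH
  have hE := hH.eFun
  have htr := NBas_trLe hE
  have hC : CharZero L := charZero_of_injective_ringHom ((algebraMap K L).comp c).injective
  have hfg : (⊤ : IntermediateField K L).FG := by
    classical
    refine ⟨insert x (insert y (Finset.univ.image fun i => (t i : L))), ?_⟩
    rw [← hE.gen]
    congr 1
    ext z
    simp
  have hxt : Transcendental K x := NBas_trx hE.ind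
  have hxne : ∀ b : K, x - algebraMap K L b ≠ 0 := by
    intro b hb
    apply hxt
    rw [sub_eq_zero] at hb
    rw [hb]
    exact isAlgebraic_algebraMap b
  have hyne : ∀ b : K, y + algebraMap K L b ≠ 0 := by
    intro b hb
    apply hxt
    have hy : y = - algebraMap K L b := eq_neg_of_add_eq_zero_left hb
    have h1 : x ^ 3 = algebraMap K L (b ^ 2 - 1) := by
      have := hE.eq
      rw [hy] at this
      rw [map_sub, map_pow, map_one]
      linear_combination (-1 : L) * this
    have h2 : IsAlgebraic K (x ^ 3) := by
      rw [h1]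
      exact isAlgebraic_algebraMap _
    exact h2.of_pow (by norm_num)
  have hxa : ∀ a : ℂ, ((xa c x a : Lˣ) : L) = x - algebraMap K L (c a) := fun a => NBas_mkU _ (hxne _)
  have hyb : ∀ a : ℂ, ((yb c y a : Lˣ) : L) = y + algebraMap K L (c a) := fun a => NBas_mkU _ (hyne _)
  refine ⟨htr, hfg, hC, fun g hg => NBas_card htr hfg g hg, ⟨hxt, fun a => ⟨hxa a, hyb a⟩⟩, ?_, ?_⟩
  · intro g hg a
    refine ⟨?_, ?_⟩
    · have h1 := NBas_shift hg (c a)
      have h2 : (fun i => (cx c x a g i : L)) =
          (Fin.cons (x - algebraMap K L (c a)) (fun i => (g i : L)) : Fin (m + 1) → L) := by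
        funext i
        refine Fin.cases ?_ (fun j => ?_) i
        · exact hxa a
        · rfl
      rw [h2]
      exact h1
    · rintro σ ⟨h1, -, h3⟩ i
      refine Fin.cases ?_ (fun j => ?_) i
      · show σ ((xa c x a : Lˣ) : L) = algebraMap L (AlgebraicClosure L) ((xa c x a : Lˣ) : L)
        rw [hxa, map_sub, map_sub, h1, σ.commutes,
          ← IsScalarTower.algebraMap_apply K L (AlgebraicClosure L)]
      · exact h3 j
  · ext σ
    constructor
    · rintro ⟨h1, h2, h3⟩
      refine NBas_ext _ hE.gen σ ?_
      rintro z (rfl | rfl | ⟨i, rfl⟩)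
      · exact h1
      · exact h2
      · exact h3 i
    · rintro rfl
      exact ⟨rfl, rfl, fun i => rfl⟩

end TDC
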