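import Pool.Agent.TDC.StN2

set_option autoImplicit false

/-!
# TDN, module NBd (helper8): the limit lemma
-/

namespace TDC

open scoped Topology
open MeasureTheory Filter

/-! ### the cut-off function -/

private theorem NBd_psi_smooth : ContDiff ℝ (⊤ : ℕ∞) psiC := by
  unfold psiC
  exact Real.smoothTransition.contDiff.comp ((contDiff_const.mul contDiff_id).sub contDiff_const)

private theorem NBd_psi_lt {u : ℝ} (hu : u < 1 / 2) : deriv psiC u = 0 := by
  have h : psiC =ᶠ[𝓝 u] fun _ => (0 : ℝ) := by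
    filter_upwards [Iio_mem_nhds hu] with v hv
    exact Real.smoothTransition.zero_of_nonpos (by have := Set.mem_Iio.1 hv; linarith)
  rw [h.deriv_eq, deriv_const]

private theorem NBd_psi_gt {u : ℝ} (hu : 1 < u) : deriv psiC u = 0 := by
  have h : psiC =ᶠ[𝓝 u] fun _ => (1 : ℝ) := by
    filter_upwards [Ioi_mem_nhds hu] with v hv
    exact Real.smoothTransition.one_of_one_le (by have := Set.mem_Ioi.1 hv; linarith)
  rw [h.deriv_eq, deriv_const]

private theorem NBd_psi_cont : Continuous (deriv psiC) :=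
  NBd_psi_smooth.continuous_deriv (by simp)

private theorem NBd_psi_bdd : ∃ C : ℝ, 0 ≤ C ∧ ∀ u, |deriv psiC u| ≤ C := by
  obtain ⟨C, hC⟩ := (isCompact_Icc (a := (0 : ℝ)) (b := 1)).exists_bound_of_continuousOn
    NBd_psi_cont.continuousOn
  have hC0 : 0 ≤ C := (norm_nonneg _).trans (hC 0 ⟨le_rfl, zero_le_one⟩)
  refine ⟨C, hC0, fun u => ?_⟩
  rcases lt_or_ge u (1 / 2) with h | h
  · rw [NBd_psi_lt h, abs_zero]
    exact hC0
  · rcases lt_or_ge 1 u with h' | h'
    · rw [NBd_psi_gt h', abs_zero]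
      exact hC0
    · exact hC u ⟨by linarith, h'⟩

/-! ### the integrand -/

/-- the function multiplied by the weight of a sheet -/
private noncomputable def NBd_h {R m : ℕ} (A : Matrix (Fin R) (Fin (m + 1)) ℝ × (Fin R → ℝ))
    (γ : SF R (m + 1) m) (u : Fin (m + 1) → ℝ) : ℝ :=
  ∑ I : Fin (m + 1) → Fin R, (A.1.submatrix I id).det *
    γ I (af A u) (fun l => A.1.mulVec (Pi.single l.succ 1))

private theorem NBd_af_cont {R n : ℕ} (A : Matrix (Fin R) (Fin n) ℝ × (Fin R → ℝ)) :
    Continuous (af A) := by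
  unfold af
  exact continuous_const.add (Continuous.matrix_mulVec continuous_const continuous_id)

private theorem NBd_h_cont {R m : ℕ} (A : Matrix (Fin R) (Fin (m + 1)) ℝ × (Fin R → ℝ))
    {γ : SF R (m + 1) m} (hγ : γ.PC) : Continuous (NBd_h A γ) := by
  unfold NBd_h
  refine continuous_finsetSum _ fun I _ => continuous_const.mul ?_
  exact (continuous_eval_const _).comp ((hγ I).1.continuous.comp (NBd_af_cont A))

private theorem NBd_h_supp {R m : ℕ} (A : Matrix (Fin R) (Fin (m + 1)) ℝ × (Fin R → ℝ))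
    {γ : SF R (m + 1) m} (hγ : γ.PC) : HasCompactSupport (NBd_h A γ) := by
  classical
  choose C hC hC0 using fun I => (hγ I).2
  refine HasCompactSupport.intro (K := ⋃ I : Fin (m + 1) → Fin R,
    (fun x : Fin (m + 1) → ℝ => (A.1.submatrix I id)⁻¹.mulVec (x - A.2 ∘ I)) '' C I) ?_ ?_
  · refine isCompact_iUnion fun I => (hC I).image ?_
    exact Continuous.matrix_mulVec continuous_const (continuous_id.sub continuous_const)
  · intro u hu
    unfold NBd_h
    refine Finset.sum_eq_zero fun I _ => ?_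
    by_cases hd : (A.1.submatrix I id).det = 0
    · rw [hd, zero_mul]
    · have hz : γ I (af A u) = 0 := by
        refine hC0 I _ fun hc => hu ?_
        refine Set.mem_iUnion.2 ⟨I, af A u ∘ I, hc, ?_⟩
        have e : af A u ∘ I - A.2 ∘ I = (A.1.submatrix I id).mulVec u := by
          funext r
          simp only [af, Pi.sub_apply, Function.comp, Pi.add_apply, add_sub_cancel_left]
          rfl
        show (A.1.submatrix I id)⁻¹.mulVec (af A u ∘ I - A.2 ∘ I) = u
        rw [e, Matrix.mulVec_mulVec, Matrix.nonsing_inv_mul _ (isUnit_iff_ne_zero.2 hd),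
          Matrix.one_mulVec]
      rw [hz]
      simp

/-! ### scaling of the first coordinate -/

private theorem NBd_cov {m : ℕ} {ε : ℝ} (hε : 0 < ε) {f : (Fin (m + 1) → ℝ) → ℝ}
    (hf : AEStronglyMeasurable f volume) :
    AEStronglyMeasurable (fun u : Fin (m + 1) → ℝ =>
      f (Fin.cons (-(ε * u 0)) (fun j : Fin m => u j.succ))) volume ∧
    ∫ u : Fin (m + 1) → ℝ, f (Fin.cons (-(ε * u 0)) (fun j : Fin m => u j.succ)) =
      ε⁻¹ * ∫ u, f u := by
  classical
  set D : Fin (m + 1) → ℝ := Fin.cons (-ε) (fun _ => 1) with hD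
  have hdet : (Matrix.diagonal D).det = -ε := by
    rw [Matrix.det_diagonal, Fin.prod_univ_succ]
    simp [hD]
  have hdet0 : (Matrix.diagonal D).det ≠ 0 := by
    rw [hdet]
    exact neg_ne_zero.2 hε.ne'
  have hM : ∀ u : Fin (m + 1) → ℝ, Matrix.toLin' (Matrix.diagonal D) u =
      Fin.cons (-(ε * u 0)) (fun j : Fin m => u j.succ) := by
    intro u
    rw [Matrix.toLin'_apply]
    funext i
    rw [Matrix.mulVec_diagonal]
    refine Fin.cases ?_ (fun j => ?_) i
    · simp [hD]
    · simp [hD]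
  have hmap := Real.map_matrix_volume_pi_eq_smul_volume_pi (M := Matrix.diagonal D) hdet0
  have hmeas : AEMeasurable (fun u => Matrix.toLin' (Matrix.diagonal D) u)
      (volume : Measure (Fin (m + 1) → ℝ)) :=
    (LinearMap.continuous_on_pi _).measurable.aemeasurable
  have hf' : AEStronglyMeasurable f (Measure.map (Matrix.toLin' (Matrix.diagonal D)) volume) := by
    rw [hmap]
    exact hf.smul_measure _
  constructor
  · have h := hf'.comp_aemeasurable hmeas
    refine h.congr (Eventually.of_forall fun u => ?_)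
    show f (Matrix.toLin' (Matrix.diagonal D) u) = _
    rw [hM]
  · have h := integral_map hmeas hf'
    rw [hmap, integral_smul_measure, hdet, abs_inv, abs_neg, abs_of_pos hε,
      ENNReal.toReal_ofReal (inv_nonneg.2 hε.le), smul_eq_mul] at h
    rw [h]
    refine integral_congr_ae (Eventually.of_forall fun u => ?_)
    show _ = f (Matrix.toLin' (Matrix.diagonal D) u)
    rw [hM]

/-- almost all points have their last coordinates in a conull set -/
private theorem NBd_tail {m : ℕ} {p : (Fin m → ℝ) → Prop} (h : ∀ᵐ s : Fin m → ℝ, p s) :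
    ∀ᵐ u : Fin (m + 1) → ℝ, p (fun j : Fin m => u j.succ) := by
  have h1 := (volume_preserving_piFinSuccAbove (fun _ : Fin (m + 1) => ℝ) 0)
  have h2 : Measure.QuasiMeasurePreserving (Prod.snd : ℝ × (Fin m → ℝ) → (Fin m → ℝ))
      ((volume : Measure ℝ).prod (volume : Measure (Fin m → ℝ))) volume :=
    Measure.quasiMeasurePreserving_snd
  have h3 := (h2.comp h1.quasiMeasurePreserving).ae h
  filter_upwards [h3] with u hu
  exact hu

/-! ### generic points -/

private theorem NBd_gen {R m : ℕ} (A A' : Matrix (Fin R) (Fin (m + 1)) ℝ × (Fin R → ℝ)) :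
    ∀ᵐ s : Fin m → ℝ, af A (Fin.cons 0 s : Fin (m + 1) → ℝ) = af A' (Fin.cons 0 s) →
      ∀ s' : Fin m → ℝ, af A (Fin.cons 0 s' : Fin (m + 1) → ℝ) = af A' (Fin.cons 0 s') := by
  by_cases hall : ∀ s' : Fin m → ℝ,
      af A (Fin.cons 0 s' : Fin (m + 1) → ℝ) = af A' (Fin.cons 0 s')
  · exact Eventually.of_forall fun s _ => hall
  · have key : ∀ (c : ℝ) (p1 p2 p3 : Fin m → ℝ)
        (B : Matrix (Fin R) (Fin (m + 1)) ℝ × (Fin R → ℝ)),
        af B (Fin.cons 0 (c • (p1 - p2) + p3) : Fin (m + 1) → ℝ) =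
          c • (af B (Fin.cons 0 p1 : Fin (m + 1) → ℝ) - af B (Fin.cons 0 p2)) +
            af B (Fin.cons 0 p3) := by
      intro c p1 p2 p3 B
      have e : (Fin.cons 0 (c • (p1 - p2) + p3) : Fin (m + 1) → ℝ) =
          c • ((Fin.cons 0 p1 : Fin (m + 1) → ℝ) - Fin.cons 0 p2) + Fin.cons 0 p3 := by
        funext i
        refine Fin.cases ?_ (fun j => ?_) i
        · simp
        · simp
      unfold af
      rw [e, Matrix.mulVec_add, Matrix.mulVec_smul, Matrix.mulVec_sub]
      funext r
      simp only [Pi.add_apply, Pi.smul_apply, Pi.sub_apply, smul_eq_mul]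
      ring
    let S : AffineSubspace ℝ (Fin m → ℝ) :=
      { carrier := {s | af A (Fin.cons 0 s : Fin (m + 1) → ℝ) = af A' (Fin.cons 0 s)}
        smul_vsub_vadd_mem' := by
          intro c p1 p2 p3 h1 h2 h3
          show af A (Fin.cons 0 (c • (p1 - p2) + p3) : Fin (m + 1) → ℝ) =
            af A' (Fin.cons 0 (c • (p1 - p2) + p3))
          rw [key, key, show af A (Fin.cons 0 p1 : Fin (m + 1) → ℝ) = _ from h1,
            show af A (Fin.cons 0 p2 : Fin (m + 1) → ℝ) = _ from h2,
            show af A (Fin.cons 0 p3 : Fin (m + 1) → ℝ) = _ from h3] }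
    have hS : S ≠ ⊤ := by
      intro h
      refine hall fun s' => ?_
      have : s' ∈ S := by
        rw [h]
        exact AffineSubspace.mem_top ℝ _ s'
      exact this
    have h0 := Measure.addHaar_affineSubspace (volume : Measure (Fin m → ℝ)) S hS
    have h1 : ∀ᵐ s : Fin m → ℝ, s ∉ (S : Set (Fin m → ℝ)) := measure_eq_zero_iff_ae_notMem.1 h0
    filter_upwards [h1] with s hs h2
    exact absurd h2 hs

/-- equality of the affine maps gives equality of the columns -/
private theorem NBd_col {R m : ℕ} {A A' : Matrix (Fin R) (Fin (m + 1)) ℝ × (Fin R → ℝ)}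
    (h : ∀ s' : Fin m → ℝ, af A (Fin.cons 0 s' : Fin (m + 1) → ℝ) = af A' (Fin.cons 0 s')) :
    ∀ (r : Fin R) (l : Fin m), A.1 r l.succ = A'.1 r l.succ := by
  classical
  intro r l
  have e0 : (Fin.cons 0 (0 : Fin m → ℝ) : Fin (m + 1) → ℝ) = 0 := by
    funext i
    refine Fin.cases ?_ (fun j => ?_) i
    · simp
    · simp
  have e1 : (Fin.cons 0 (Pi.single l 1 : Fin m → ℝ) : Fin (m + 1) → ℝ) = Pi.single l.succ 1 := by
    funext i
    refine Fin.cases ?_ (fun j => ?_) i
    · rw [Fin.cons_zero, Pi.single_eq_of_ne (Fin.succ_ne_zero l).symm]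
    · rw [Fin.cons_succ]
      by_cases hj : j = l
      · rw [hj, Pi.single_eq_same, Pi.single_eq_same]
      · rw [Pi.single_eq_of_ne hj, Pi.single_eq_of_ne fun h => hj (Fin.succ_injective _ h)]
  have h0 := h 0
  have h1 := h (Pi.single l 1)
  rw [e0] at h0
  rw [e1] at h1
  unfold af at h0 h1
  rw [Matrix.mulVec_zero, Matrix.mulVec_zero, add_zero, add_zero] at h0
  rw [h0] at h1
  have h2 := congrFun (add_left_cancel h1) r
  rw [Matrix.mulVec_single_one, Matrix.mulVec_single_one] at h2
  exact h2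

/-! ### the main term vanishes -/

private theorem NBd_alg {R m : ℕ} {ι : Type} [Fintype ι]
    (A : ι → Matrix (Fin R) (Fin (m + 1)) ℝ × (Fin R → ℝ)) (γ : SF R (m + 1) m)
    (u : Fin (m + 1) → ℝ) (W : ι → ℝ)
    (hcol : ∀ i i', af (A i) u = af (A i') u → ∀ (r : Fin R) (l : Fin m),
      (A i).1 r l.succ = (A i').1 r l.succ)
    (hz : ∀ i, ∀ j : Fin R, ∑ᶠ i' ∈ {i' : ι | af (A i') u = af (A i) u},
      W i' * (A i').1 j 0 = 0) :
    ∑ i, W i * NBd_h (A i) γ u = 0 := by
  classical
  let T : ι → (Fin (m + 1) → Fin R) → Fin (m + 1) → ℝ := fun i I r =>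
    (-1) ^ (r : ℕ) * (((A i).1.submatrix I id).submatrix r.succAbove Fin.succ).det *
      γ I (af (A i) u) (fun l => (A i).1.mulVec (Pi.single l.succ 1))
  have hT : ∀ i, NBd_h (A i) γ u = ∑ I, ∑ r, (A i).1 (I r) 0 * T i I r := by
    intro i
    unfold NBd_h
    refine Finset.sum_congr rfl fun I _ => ?_
    rw [Matrix.det_succ_column_zero, Finset.sum_mul]
    refine Finset.sum_congr rfl fun r _ => ?_
    show (-1) ^ (r : ℕ) * (A i).1 (I r) 0 *
      (((A i).1.submatrix I id).submatrix r.succAbove Fin.succ).det * _ = (A i).1 (I r) 0 *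
      ((-1) ^ (r : ℕ) * (((A i).1.submatrix I id).submatrix r.succAbove Fin.succ).det * _)
    ring
  have hTT : ∀ i i', af (A i) u = af (A i') u → T i = T i' := by
    intro i i' h
    have hc := hcol i i' h
    funext I r
    show (-1) ^ (r : ℕ) * (((A i).1.submatrix I id).submatrix r.succAbove Fin.succ).det *
      γ I (af (A i) u) (fun l => (A i).1.mulVec (Pi.single l.succ 1)) =
      (-1) ^ (r : ℕ) * (((A i').1.submatrix I id).submatrix r.succAbove Fin.succ).det *
      γ I (af (A i') u) (fun l => (A i').1.mulVec (Pi.single l.succ 1))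
    have e1 : ((A i).1.submatrix I id).submatrix r.succAbove Fin.succ =
        ((A i').1.submatrix I id).submatrix r.succAbove Fin.succ := by
      ext a b
      exact hc _ _
    have e2 : (fun l : Fin m => (A i).1.mulVec (Pi.single l.succ 1)) =
        fun l : Fin m => (A i').1.mulVec (Pi.single l.succ 1) := by
      funext l
      rw [Matrix.mulVec_single_one, Matrix.mulVec_single_one]
      funext a
      exact hc _ _
    rw [e1, e2, h]
  rw [← Finset.sum_fiberwise_of_maps_to (s := Finset.univ)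
    (t := Finset.univ.image fun i => af (A i) u) (g := fun i => af (A i) u)
    (fun i _ => Finset.mem_image_of_mem _ (Finset.mem_univ i))]
  refine Finset.sum_eq_zero fun p hp => ?_
  obtain ⟨i₀, -, rfl⟩ := Finset.mem_image.1 hp
  have hz' : ∀ j : Fin R, ∑ i' ∈ Finset.univ.filter (fun i' => af (A i') u = af (A i₀) u),
      W i' * (A i').1 j 0 = 0 := by
    intro j
    have h := hz i₀ j
    have e : {i' : ι | af (A i') u = af (A i₀) u} =
        ((Finset.univ.filter (fun i' => af (A i') u = af (A i₀) u) : Finset ι) : Set ι) := by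
      ext i'
      simp
    rw [e, finsum_mem_coe_finset] at h
    exact h
  calc ∑ i ∈ Finset.univ.filter (fun i => af (A i) u = af (A i₀) u), W i * NBd_h (A i) γ u
      = ∑ i ∈ Finset.univ.filter (fun i => af (A i) u = af (A i₀) u),
        ∑ I : Fin (m + 1) → Fin R, ∑ r : Fin (m + 1),
          W i * (A i).1 (I r) 0 * T i₀ I r := by
        refine Finset.sum_congr rfl fun i hi => ?_
        rw [hT i, Finset.mul_sum]
        refine Finset.sum_congr rfl fun I _ => ?_
        rw [Finset.mul_sum]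
        refine Finset.sum_congr rfl fun r _ => ?_
        rw [hTT i i₀ (Finset.mem_filter.1 hi).2, mul_assoc]
    _ = ∑ I : Fin (m + 1) → Fin R, ∑ r : Fin (m + 1),
        (∑ i ∈ Finset.univ.filter (fun i => af (A i) u = af (A i₀) u),
          W i * (A i).1 (I r) 0) * T i₀ I r := by
        rw [Finset.sum_comm]
        refine Finset.sum_congr rfl fun I _ => ?_
        rw [Finset.sum_comm]
        refine Finset.sum_congr rfl fun r _ => ?_
        rw [Finset.sum_mul]
    _ = 0 := by
        refine Finset.sum_eq_zero fun I _ => Finset.sum_eq_zero fun r _ => ?_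
        rw [hz' (I r), zero_mul]

private theorem NBd_cons_cont {m : ℕ} (s : Fin m → ℝ) :
    Continuous fun τ : ℝ => (Fin.cons τ s : Fin (m + 1) → ℝ) := by
  refine continuous_pi fun i => ?_
  refine Fin.cases ?_ (fun j => ?_) i
  · simpa only [Fin.cons_zero] using continuous_id'
  · simpa only [Fin.cons_succ] using continuous_const

theorem thm_NBd : St_NBd := by
  classical
  intro R m ι _ A w γ B 𝒢₁ 𝒢 hγ hw hB h𝒢₁ h𝒢 hyp
  obtain ⟨C₀, hC₀, hψ⟩ := NBd_psi_bdd
  have hcont : ∀ i, Continuous (NBd_h (A i) γ) := fun i => NBd_h_cont (A i) hγ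
  have hsupp : ∀ i, HasCompactSupport (NBd_h (A i) γ) := fun i => NBd_h_supp (A i) hγ
  let G : (Fin (m + 1) → ℝ) → ℝ := fun u => ∑ i, w i u * NBd_h (A i) γ u
  have hGm : AEStronglyMeasurable G volume :=
    Finset.aestronglyMeasurable_fun_sum _ fun i _ =>
      (hw i).mul (hcont i).aestronglyMeasurable
  let G' : (Fin (m + 1) → ℝ) → ℝ := 𝒢₁.indicator G
  have hmem : ∀ᵐ u : Fin (m + 1) → ℝ, u ∈ 𝒢₁ := mem_ae_iff.2 h𝒢₁
  have hGG : G' =ᵐ[volume] G := by
    filter_upwards [hmem] with u hu
    exact Set.indicator_of_mem hu G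
  have hG'm : AEStronglyMeasurable G' volume := hGm.congr hGG.symm
  -- bounds
  obtain ⟨H, hH0, hH⟩ : ∃ H : ℝ, 0 ≤ H ∧ ∀ u, |G' u| ≤ H := by
    choose Hi hHi using fun i => (hsupp i).exists_bound_of_continuous (hcont i)
    have hHi0 : ∀ i, 0 ≤ Hi i := fun i => (norm_nonneg _).trans (hHi i 0)
    have h0 : 0 ≤ ∑ i, |B| * Hi i :=
      Finset.sum_nonneg fun i _ => mul_nonneg (abs_nonneg _) (hHi0 i)
    refine ⟨∑ i, |B| * Hi i, h0, fun u => ?_⟩
    by_cases hu : u ∈ 𝒢₁
    · show |𝒢₁.indicator G u| ≤ _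
      rw [Set.indicator_of_mem hu]
      refine (Finset.abs_sum_le_sum_abs _ _).trans (Finset.sum_le_sum fun i _ => ?_)
      rw [abs_mul]
      exact mul_le_mul ((hB i u hu).trans (le_abs_self B)) (hHi i u) (abs_nonneg _)
        (abs_nonneg _)
    · show |𝒢₁.indicator G u| ≤ _
      rw [Set.indicator_of_notMem hu, abs_zero]
      exact h0
  obtain ⟨ρ, hρ0, hρ⟩ : ∃ ρ : ℝ, 0 ≤ ρ ∧ ∀ u, ρ < ‖u‖ → G' u = 0 := by
    choose ρi hρi using fun i => (hsupp i).isCompact.isBounded.subset_closedBall
      (0 : Fin (m + 1) → ℝ)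
    refine ⟨∑ i, |ρi i|, Finset.sum_nonneg fun i _ => abs_nonneg _, fun u hu => ?_⟩
    have hGu : G u = 0 := by
      refine Finset.sum_eq_zero fun i _ => ?_
      have h1 : u ∉ tsupport (NBd_h (A i) γ) := by
        intro hc
        have h2 := hρi i hc
        rw [mem_closedBall_zero_iff] at h2
        have h3 : |ρi i| ≤ ∑ i, |ρi i| :=
          Finset.single_le_sum (f := fun i => |ρi i|) (fun i _ => abs_nonneg _)
            (Finset.mem_univ i)
        have h4 := le_abs_self (ρi i)
        linarith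
      rw [image_eq_zero_of_notMem_tsupport h1, mul_zero]
    by_cases hu' : u ∈ 𝒢₁
    · exact (Set.indicator_of_mem hu' G).trans hGu
    · exact Set.indicator_of_notMem hu' G
  -- the transformed integral
  have hcov : ∀ ε : ℝ, 0 < ε →
      AEStronglyMeasurable (fun u : Fin (m + 1) → ℝ => deriv psiC (u 0) *
        G' (Fin.cons (-(ε * u 0)) (fun j : Fin m => u j.succ))) volume ∧
      ∫ u : Fin (m + 1) → ℝ, 1 / ε * deriv psiC (-(u 0) / ε) * G u =
        ∫ u : Fin (m + 1) → ℝ, deriv psiC (u 0) *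
          G' (Fin.cons (-(ε * u 0)) (fun j : Fin m => u j.succ)) := by
    intro ε hε
    have hψ1 : Continuous fun u : Fin (m + 1) → ℝ => -(u 0) / ε := by fun_prop
    have hψm : Continuous fun u : Fin (m + 1) → ℝ => 1 / ε * deriv psiC (-(u 0) / ε) :=
      continuous_const.mul (NBd_psi_cont.comp hψ1)
    have hfm : AEStronglyMeasurable
        (fun u : Fin (m + 1) → ℝ => 1 / ε * deriv psiC (-(u 0) / ε) * G' u) volume :=
      hψm.aestronglyMeasurable.mul hG'm
    obtain ⟨c1, -⟩ := NBd_cov hε hG'm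
    obtain ⟨-, c2⟩ := NBd_cov hε hfm
    constructor
    · exact (NBd_psi_cont.comp (continuous_apply 0)).aestronglyMeasurable.mul c1
    · have e1 : ∫ u : Fin (m + 1) → ℝ, 1 / ε * deriv psiC (-(u 0) / ε) * G u =
          ∫ u : Fin (m + 1) → ℝ, 1 / ε * deriv psiC (-(u 0) / ε) * G' u := by
        refine integral_congr_ae ?_
        filter_upwards [hGG] with u hu
        rw [hu]
      have e2 : ∫ u : Fin (m + 1) → ℝ, 1 / ε * deriv psiC (-(u 0) / ε) * G' u =
          ε * ∫ u : Fin (m + 1) → ℝ, 1 / ε * deriv psiC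
            (-((Fin.cons (-(ε * u 0)) (fun j : Fin m => u j.succ) : Fin (m + 1) → ℝ) 0) / ε) *
            G' (Fin.cons (-(ε * u 0)) (fun j : Fin m => u j.succ)) := by
        rw [c2, ← mul_assoc, mul_inv_cancel₀ hε.ne', one_mul]
      rw [e1, e2, ← integral_const_mul]
      refine integral_congr_ae (Eventually.of_forall fun u => ?_)
      show ε * (1 / ε * deriv psiC (-(-(ε * u 0)) / ε) * _) = deriv psiC (u 0) * _
      have e3 : -(-(ε * u 0)) / ε = u 0 := by
        field_simp
      rw [e3]
      field_simp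
  -- the limit along almost all lines
  have hkey : ∀ s : Fin m → ℝ, s ∈ 𝒢 →
      (∀ i i', af (A i) (Fin.cons 0 s : Fin (m + 1) → ℝ) = af (A i') (Fin.cons 0 s) →
        ∀ s' : Fin m → ℝ, af (A i) (Fin.cons 0 s' : Fin (m + 1) → ℝ) =
          af (A i') (Fin.cons 0 s')) →
      Tendsto (fun τ : ℝ => G' (Fin.cons τ s)) (𝓝[<] 0) (𝓝 0) := by
    intro s hs hgen
    have hcol : ∀ i i', af (A i) (Fin.cons 0 s : Fin (m + 1) → ℝ) = af (A i') (Fin.cons 0 s) →
        ∀ (r : Fin R) (l : Fin m), (A i).1 r l.succ = (A i').1 r l.succ :=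
      fun i i' h => NBd_col (hgen i i' h)
    have hev : ∀ᶠ τ : ℝ in 𝓝[<] 0, ∀ i, (Fin.cons τ s : Fin (m + 1) → ℝ) ∈ 𝒢₁ → ∀ j : Fin R,
        ∑ᶠ i' ∈ {i' : ι | af (A i') (Fin.cons 0 s : Fin (m + 1) → ℝ) =
          af (A i) (Fin.cons 0 s)}, w i' (Fin.cons τ s) * (A i').1 j 0 = 0 := by
      refine eventually_all.2 fun i => ?_
      obtain ⟨δ, hδ, hδ'⟩ := hyp s hs (af (A i) (Fin.cons 0 s))
      filter_upwards [Ioo_mem_nhdsLT (neg_lt_zero.2 hδ)] with τ hτ
      exact hδ' τ hτ.1 hτ.2
    have hlim : Tendsto (fun τ : ℝ => ∑ i, |B| *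
        |NBd_h (A i) γ (Fin.cons τ s) - NBd_h (A i) γ (Fin.cons 0 s)|) (𝓝[<] 0) (𝓝 0) := by
      have hc : Continuous (fun τ : ℝ => ∑ i, |B| *
          |NBd_h (A i) γ (Fin.cons τ s) - NBd_h (A i) γ (Fin.cons 0 s)|) := by
        refine continuous_finsetSum _ fun i _ => continuous_const.mul ?_
        exact (((hcont i).comp (NBd_cons_cont s)).sub continuous_const).abs
      have h := (hc.tendsto 0).mono_left (nhdsWithin_le_nhds (s := Set.Iio 0))
      simpa using h
    refine squeeze_zero_norm' ?_ hlim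
    filter_upwards [hev] with τ hτ
    by_cases hu : (Fin.cons τ s : Fin (m + 1) → ℝ) ∈ 𝒢₁
    · have e : G' (Fin.cons τ s) = ∑ i, w i (Fin.cons τ s) *
          (NBd_h (A i) γ (Fin.cons τ s) - NBd_h (A i) γ (Fin.cons 0 s)) := by
        have h0 := NBd_alg A γ (Fin.cons 0 s) (fun i => w i (Fin.cons τ s)) hcol
          (fun i => hτ i hu)
        have h1 : G' (Fin.cons τ s) = ∑ i, w i (Fin.cons τ s) * NBd_h (A i) γ (Fin.cons τ s) :=
          Set.indicator_of_mem hu G
        rw [h1]
        simp only [mul_sub, Finset.sum_sub_distrib]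
        rw [h0, sub_zero]
      rw [e, Real.norm_eq_abs]
      refine (Finset.abs_sum_le_sum_abs _ _).trans (Finset.sum_le_sum fun i _ => ?_)
      rw [abs_mul]
      exact mul_le_mul_of_nonneg_right ((hB i _ hu).trans (le_abs_self B)) (abs_nonneg _)
    · have e : G' (Fin.cons τ s) = 0 := Set.indicator_of_notMem hu G
      rw [e, norm_zero]
      exact Finset.sum_nonneg fun i _ => mul_nonneg (abs_nonneg _) (abs_nonneg _)
  -- dominated convergence
  have hdom : Tendsto (fun ε : ℝ => ∫ u : Fin (m + 1) → ℝ, deriv psiC (u 0) *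
      G' (Fin.cons (-(ε * u 0)) (fun j : Fin m => u j.succ))) (𝓝[>] 0)
      (𝓝 (∫ _u : Fin (m + 1) → ℝ, (0 : ℝ))) := by
    refine tendsto_integral_filter_of_dominated_convergence
      ((Metric.closedBall (0 : Fin (m + 1) → ℝ) (max 1 ρ)).indicator fun _ => C₀ * H) ?_ ?_ ?_ ?_
    · filter_upwards [self_mem_nhdsWithin] with ε hε
      exact (hcov ε hε).1
    · filter_upwards [self_mem_nhdsWithin] with ε _
      refine Eventually.of_forall fun u => ?_
      rw [Real.norm_eq_abs, abs_mul]
      by_cases hu : u ∈ Metric.closedBall (0 : Fin (m + 1) → ℝ) (max 1 ρ)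
      · rw [Set.indicator_of_mem hu]
        exact mul_le_mul (hψ _) (hH _) (abs_nonneg _) hC₀
      · rw [Set.indicator_of_notMem hu]
        refine le_of_eq ?_
        by_cases h0 : |u 0| ≤ 1
        · have h1 : ∃ l : Fin m, ρ < |u l.succ| := by
            by_contra hc
            push Not at hc
            refine hu ?_
            rw [mem_closedBall_zero_iff, pi_norm_le_iff_of_nonneg
              (le_trans zero_le_one (le_max_left 1 ρ))]
            intro i
            refine Fin.cases ?_ (fun j => ?_) i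
            · exact h0.trans (le_max_left _ _)
            · exact (hc j).trans (le_max_right _ _)
          obtain ⟨l, hl⟩ := h1
          have h2 : G' (Fin.cons (-(ε * u 0)) (fun j : Fin m => u j.succ)) = 0 := by
            refine hρ _ (hl.trans_le ?_)
            have h3 := norm_le_pi_norm
              (Fin.cons (-(ε * u 0)) (fun j : Fin m => u j.succ) : Fin (m + 1) → ℝ) l.succ
            rw [Fin.cons_succ, Real.norm_eq_abs] at h3
            exact h3
          rw [h2, abs_zero, mul_zero]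
        · rw [not_le] at h0
          have h1 : deriv psiC (u 0) = 0 := by
            rcases lt_abs.1 h0 with h | h
            · exact NBd_psi_gt h
            · exact NBd_psi_lt (by linarith)
          rw [h1, abs_zero, zero_mul]
    · refine IntegrableOn.integrable_indicator ?_ Metric.isClosed_closedBall.measurableSet
      exact integrableOn_const (measure_closedBall_lt_top.ne)
    · have h1 : ∀ᵐ s : Fin m → ℝ, s ∈ 𝒢 ∧
          (∀ i i', af (A i) (Fin.cons 0 s : Fin (m + 1) → ℝ) = af (A i') (Fin.cons 0 s) →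
            ∀ s' : Fin m → ℝ, af (A i) (Fin.cons 0 s' : Fin (m + 1) → ℝ) =
              af (A i') (Fin.cons 0 s')) := by
        have h2 : ∀ᵐ s : Fin m → ℝ, s ∈ 𝒢 := mem_ae_iff.2 h𝒢
        have h3 : ∀ᵐ s : Fin m → ℝ, ∀ i i',
            af (A i) (Fin.cons 0 s : Fin (m + 1) → ℝ) = af (A i') (Fin.cons 0 s) →
            ∀ s' : Fin m → ℝ, af (A i) (Fin.cons 0 s' : Fin (m + 1) → ℝ) =
              af (A i') (Fin.cons 0 s') :=
          ae_all_iff.2 fun i => ae_all_iff.2 fun i' => NBd_gen (A i) (A i')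
        filter_upwards [h2, h3] with s a b
        exact ⟨a, b⟩
      filter_upwards [NBd_tail h1] with u hu
      rcases lt_or_ge (u 0) (1 / 2) with h | h
      · have e : (fun ε : ℝ => deriv psiC (u 0) *
            G' (Fin.cons (-(ε * u 0)) (fun j : Fin m => u j.succ))) = fun _ => 0 := by
          funext ε
          rw [NBd_psi_lt h, zero_mul]
        rw [e]
        exact tendsto_const_nhds
      · have hpos : 0 < u 0 := by linarith
        have ht : Tendsto (fun ε : ℝ => -(ε * u 0)) (𝓝[>] 0) (𝓝[<] 0) := by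
          refine tendsto_nhdsWithin_iff.2 ⟨?_, ?_⟩
          · have hc : Continuous fun ε : ℝ => -(ε * u 0) :=
              (continuous_id.mul continuous_const).neg
            have h4 := (hc.tendsto 0).mono_left (nhdsWithin_le_nhds (s := Set.Ioi 0))
            simpa using h4
          · filter_upwards [self_mem_nhdsWithin] with ε hε
            exact neg_lt_zero.2 (mul_pos hε hpos)
        have h5 := ((hkey _ hu.1 hu.2).comp ht).const_mul (deriv psiC (u 0))
        rw [mul_zero] at h5
        exact h5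
  rw [integral_zero] at hdom
  refine hdom.congr' ?_
  filter_upwards [self_mem_nhdsWithin] with ε hε
  exact (hcov ε hε).2.symm

end TDC
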