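import Pool.Agent.TDC.StN2

/-! # TDN, module NBmp (helper45): the bump form -/

set_option autoImplicit false

namespace TDC

open scoped Topology
open MeasureTheory

private theorem NBmp_kap_smooth : ContDiff ℝ (⊤ : ℕ∞) kapC := by
  unfold kapC
  exact Real.smoothTransition.contDiff.comp ((contDiff_const.mul contDiff_id).add contDiff_const)

private theorem NBmp_kap_zero {z : ℝ} (hz : z ≤ -1) : kapC z = 0 := by
  unfold kapC
  exact Real.smoothTransition.zero_of_nonpos (by linarith)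

private theorem NBmp_kap_one : kapC 0 = 1 := by
  unfold kapC
  exact Real.smoothTransition.one_of_one_le (by norm_num)

/-- the superform on `ℝ^(m+2)` -/
private noncomputable def NBmp_al {m : ℕ} (b : (Fin (m + 1) → ℝ) → ℝ) :
    SF (m + 2) (m + 1) (m + 1) :=
  mono Fin.succ Fin.succ (fun p => kapC (p 0) * b (p ∘ Fin.succ))

private theorem NBmp_coef {m : ℕ} {b : (Fin (m + 1) → ℝ) → ℝ}
    (hb : ContDiff ℝ (⊤ : ℕ∞) b) :
    ContDiff ℝ (⊤ : ℕ∞) (fun p : Fin (m + 2) → ℝ => kapC (p 0) * b (p ∘ Fin.succ)) := by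
  have h1 : ContDiff ℝ (⊤ : ℕ∞) (fun p : Fin (m + 2) → ℝ => kapC (p 0)) :=
    NBmp_kap_smooth.comp (contDiff_apply ℝ ℝ (0 : Fin (m + 2)))
  have h2 : ContDiff ℝ (⊤ : ℕ∞)
      (fun p : Fin (m + 2) → ℝ => (p ∘ Fin.succ : Fin (m + 1) → ℝ)) := by
    rw [contDiff_pi]
    intro j
    exact contDiff_apply ℝ ℝ (Fin.succ j)
  have h3 : ContDiff ℝ (⊤ : ℕ∞) (fun p : Fin (m + 2) → ℝ => b (p ∘ Fin.succ)) := hb.comp h2
  exact h1.mul h3

private theorem NBmp_smooth {m : ℕ} {b : (Fin (m + 1) → ℝ) → ℝ}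
    (hb : ContDiff ℝ (⊤ : ℕ∞) b) : (NBmp_al b).Smooth := by
  intro I
  unfold NBmp_al mono
  by_cases h : I = Fin.succ
  · subst h
    simp only [if_true]
    exact (NBmp_coef hb).smul contDiff_const
  · simp only [h, if_false]
    exact contDiff_const

private theorem NBmp_pc {m : ℕ} {b : (Fin (m + 1) → ℝ) → ℝ}
    (hb : ContDiff ℝ (⊤ : ℕ∞) b) (hc : HasCompactSupport b) : (NBmp_al b).PC := by
  intro I
  refine ⟨NBmp_smooth hb I, ?_⟩
  by_cases h : I = Fin.succ
  · subst h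
    refine ⟨tsupport b, hc, ?_⟩
    intro t ht
    unfold NBmp_al mono
    simp only [if_true]
    have h1 : b (t ∘ Fin.succ) = 0 := image_eq_zero_of_notMem_tsupport ht
    rw [h1, mul_zero, zero_smul]
  · refine ⟨∅, isCompact_empty, ?_⟩
    intro t _
    unfold NBmp_al mono
    simp only [h, if_false]

private theorem NBmp_pull {K M : Type} [NormedField K] [Field M] {φ : K →+* M} {m : ℕ}
    (h : Mˣ) (g : Fin (m + 1) → Mˣ) (b : (Fin (m + 1) → ℝ) → ℝ) (x : Pt φ) :
    (pull (Fin.cons h g : Fin (m + 2) → Mˣ) (NBmp_al b) : Fam φ (m + 1) (m + 1)) x =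
      fun δ ε => kapC (Real.log (x.v (h : M))) * std φ g b x δ ε := by
  classical
  funext δ ε
  unfold pull pullAt std
  rw [Finset.sum_eq_single (Fin.succ : Fin (m + 1) → Fin (m + 2))]
  · unfold NBmp_al mono
    simp only [if_true]
    rw [ContinuousAlternatingMap.smul_apply, dx_apply, smul_eq_mul]
    have e1 : logv x (Fin.cons h g : Fin (m + 2) → Mˣ) 0 = Real.log (x.v (h : M)) := rfl
    have e2 : logv x (Fin.cons h g : Fin (m + 2) → Mˣ) ∘ Fin.succ = logv x g := rfl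
    have e3 : ∀ (d : Tan x) (j : Fin (m + 1)),
        ev (Fin.cons h g : Fin (m + 2) → Mˣ) d (Fin.succ j) = ev g d j := fun _ _ => rfl
    rw [e1, e2]
    simp only [e3]
    ring
  · intro I _ hI
    unfold NBmp_al mono
    simp only [hI, if_false]
    exact mul_zero _
  · intro h
    exact absurd (Finset.mem_univ _) h

private theorem NBmp_bump (m : ℕ) : ∃ b : (Fin (m + 1) → ℝ) → ℝ,
    SC b {u | -2 < u 0 ∧ u 0 < -1} ∧ ∫ u, b u = 1 := by
  let c₀ : Fin (m + 1) → ℝ := fun _ => -3 / 2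
  let f : ContDiffBump c₀ := ⟨1 / 8, 1 / 4, by norm_num, by norm_num⟩
  refine ⟨f.normed volume, ⟨f.contDiff_normed, f.hasCompactSupport_normed, ?_⟩,
    f.integral_normed⟩
  rw [f.tsupport_normed_eq]
  intro u hu
  have h1 : dist (u 0) (c₀ 0) ≤ 1 / 4 := (dist_le_pi_dist u c₀ 0).trans hu
  have h2 : |u 0 - (-3 / 2)| ≤ 1 / 4 := by
    rw [Real.dist_eq] at h1
    exact h1
  rw [abs_le] at h2
  constructor <;> linarith [h2.1, h2.2]

/-- **NBmp** -/
theorem thm_NBmp (h1 : St_NBas) (h2 : St_NTub) (h3 : St_CSu) : St_NBmp := by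
  intro K L _ _ _ _ m c x y t hN P hP
  obtain ⟨htr, -⟩ := h1 K L m c x y t hN
  obtain ⟨hT1, hT2, -⟩ := h2 K L m c x y t hN
  obtain ⟨b, hb, hbi⟩ := NBmp_bump m
  have hpc : (NBmp_al b).PC := NBmp_pc hb.1 hb.2.1
  refine ⟨b, pull (Fin.cons (yb c y P.2) (cx c x P.1 t) : Fin (m + 2) → Lˣ) (NBmp_al b),
    hb, hbi, ?_, ?_, ?_, ?_⟩
  · intro v
    exact ⟨m + 2, _, NBmp_al b, NBmp_smooth hb.1, Filter.Eventually.of_forall fun _ => rfl⟩
  · exact h3.2 K L (m + 1) htr (m + 2) (m + 1) _ (NBmp_al b) hpc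
  · intro v hv
    rw [NBmp_pull]
    funext δ ε
    show kapC (Real.log (v.v (yb c y P.2 : L))) * std (algebraMap K L) (cx c x P.1 t) b v δ ε = 0
    by_cases hb0 : b (logv v (cx c x P.1 t)) = 0
    · unfold std
      rw [hb0]
      ring
    · have hmem : logv v (cx c x P.1 t) ∈ {u : Fin (m + 1) → ℝ | -2 < u 0 ∧ u 0 < -1} :=
        hb.2.2 (subset_tsupport b hb0)
      have h0 : Real.log (v.v (xa c x P.1 : L)) < -1 := hmem.2
      rcases hT1 P hP v (by linarith) with h | h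
      · exact absurd h.1 hv
      · rw [h.2, NBmp_kap_zero h0.le, zero_mul]
  · intro v hv
    rw [NBmp_pull]
    funext δ ε
    show kapC (Real.log (v.v (yb c y P.2 : L))) * std (algebraMap K L) (cx c x P.1 t) b v δ ε = _
    rcases hT1 P hP v (hT2 P hP v hv) with h | h
    · rw [h.2, NBmp_kap_one, one_mul]
    · exact absurd hv h.1

end TDC
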