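import Pool.Agent.TDC.StN2
import Pool.Agent.TDC.INJ

/-!
# TDN, module NCut: Stokes with cut-off
-/

namespace TDC

open scoped Topology
open MeasureTheory

private theorem NCut_psi : ContDiff ℝ (⊤ : ℕ∞) psiC :=
  Real.smoothTransition.contDiff.comp ((contDiff_const.mul contDiff_id).sub contDiff_const)

private theorem NCut_kap : ContDiff ℝ (⊤ : ℕ∞) kapC :=
  Real.smoothTransition.contDiff.comp ((contDiff_const.mul contDiff_id).add contDiff_const)

private theorem NCut_psi_zero {u : ℝ} (hu : u ≤ 1 / 2) : psiC u = 0 :=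
  Real.smoothTransition.zero_of_nonpos (by linarith)

private theorem NCut_dkap_pos {z : ℝ} (hz : -(1 / 8) < z) : deriv kapC z = 0 := by
  have h1 : kapC =ᶠ[𝓝 z] fun _ => 1 := by
    filter_upwards [isOpen_Ioi.mem_nhds hz] with w hw
    exact Real.smoothTransition.one_of_one_le (by
      have : -(1 / 8) < w := hw
      linarith)
  rw [h1.deriv_eq, deriv_const]

private theorem NCut_dkap_neg {z : ℝ} (hz : z < -(1 / 4)) : deriv kapC z = 0 := by
  have h1 : kapC =ᶠ[𝓝 z] fun _ => 0 := by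
    filter_upwards [isOpen_Iio.mem_nhds hz] with w hw
    exact Real.smoothTransition.zero_of_nonpos (by
      have : w < -(1 / 4) := hw
      linarith)
  rw [h1.deriv_eq, deriv_const]

private theorem NCut_coordx {R' : ℕ} (i : Fin R') (ε : ℝ) :
    ContDiff ℝ (⊤ : ℕ∞) fun p : Fin R' → ℝ => -p i / ε :=
  ((contDiff_apply ℝ ℝ i).neg).div_const ε

private theorem NCut_coordy {R' : ℕ} (i : Fin R') (ε : ℝ) :
    ContDiff ℝ (⊤ : ℕ∞) fun p : Fin R' → ℝ => p i / ε :=
  (contDiff_apply ℝ ℝ i).div_const ε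

private theorem NCut_chi {R' : ℕ} (Λ : (ℂ × ℂ) →₀ ℝ) (ix iy : ℂ × ℂ → Fin R') (ε : ℝ) :
    ContDiff ℝ (⊤ : ℕ∞) (chiC Λ ix iy ε) := by
  unfold chiC
  refine ContDiff.sum fun Q _ => ?_
  exact (contDiff_const.mul (NCut_psi.comp (NCut_coordx (ix Q) ε))).mul
    (NCut_kap.comp (NCut_coordy (iy Q) ε))

/-- the derivative of the cut-off function -/
private theorem NCut_fd {R' : ℕ} (Λ : (ℂ × ℂ) →₀ ℝ) (ix iy : ℂ × ℂ → Fin R') (ε : ℝ)
    (p w : Fin R' → ℝ) :
    fderiv ℝ (chiC Λ ix iy ε) p w =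
      ∑ Q ∈ Λ.support, (-(Λ Q * (1 / ε * deriv psiC (-(p (ix Q)) / ε) * kapC (p (iy Q) / ε)) *
        w (ix Q)) + Λ Q * (psiC (-(p (ix Q)) / ε) * deriv kapC (p (iy Q) / ε)) * (w (iy Q) / ε)) := by
  have hx : ∀ i : Fin R', HasFDerivAt (fun p : Fin R' → ℝ => -p i / ε)
      (ε⁻¹ • -(ContinuousLinearMap.proj i : (Fin R' → ℝ) →L[ℝ] ℝ)) p := by
    intro i
    have h1 : HasFDerivAt (fun p : Fin R' → ℝ => p i)
      (ContinuousLinearMap.proj i : (Fin R' → ℝ) →L[ℝ] ℝ) p := hasFDerivAt_apply i p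
    have h2 := (h1.neg).const_mul ε⁻¹
    refine h2.congr_of_eventuallyEq (Filter.Eventually.of_forall fun q => ?_)
    show -q i / ε = ε⁻¹ * -q i
    rw [div_eq_inv_mul]
  have hy : ∀ i : Fin R', HasFDerivAt (fun p : Fin R' → ℝ => p i / ε)
      (ε⁻¹ • (ContinuousLinearMap.proj i : (Fin R' → ℝ) →L[ℝ] ℝ)) p := by
    intro i
    have h1 : HasFDerivAt (fun p : Fin R' → ℝ => p i)
      (ContinuousLinearMap.proj i : (Fin R' → ℝ) →L[ℝ] ℝ) p := hasFDerivAt_apply i p
    have h2 := h1.const_mul ε⁻¹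
    refine h2.congr_of_eventuallyEq (Filter.Eventually.of_forall fun q => ?_)
    show q i / ε = ε⁻¹ * q i
    rw [div_eq_inv_mul]
  have hpsi : ∀ z : ℝ, HasDerivAt psiC (deriv psiC z) z := fun z =>
    ((NCut_psi.differentiable (by simp)) z).hasDerivAt
  have hkap : ∀ z : ℝ, HasDerivAt kapC (deriv kapC z) z := fun z =>
    ((NCut_kap.differentiable (by simp)) z).hasDerivAt
  have hQ : ∀ Q ∈ Λ.support, HasFDerivAt
      (fun p : Fin R' → ℝ => Λ Q * psiC (-p (ix Q) / ε) * kapC (p (iy Q) / ε))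
      ((Λ Q * psiC (-p (ix Q) / ε)) • (deriv kapC (p (iy Q) / ε) •
        (ε⁻¹ • (ContinuousLinearMap.proj (iy Q) : (Fin R' → ℝ) →L[ℝ] ℝ))) +
       kapC (p (iy Q) / ε) • (Λ Q • (deriv psiC (-p (ix Q) / ε) •
        (ε⁻¹ • -(ContinuousLinearMap.proj (ix Q) : (Fin R' → ℝ) →L[ℝ] ℝ))))) p := by
    intro Q _
    have h1 := (hpsi (-p (ix Q) / ε)).comp_hasFDerivAt p (hx (ix Q))
    have h2 := (hkap (p (iy Q) / ε)).comp_hasFDerivAt p (hy (iy Q))
    exact (h1.const_mul (Λ Q)).mul h2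
  have hsum := HasFDerivAt.fun_sum hQ
  have h3 : fderiv ℝ (chiC Λ ix iy ε) p = _ := hsum.fderiv
  rw [h3, ContinuousLinearMap.sum_apply]
  refine Finset.sum_congr rfl fun Q _ => ?_
  simp only [ContinuousLinearMap.add_apply, ContinuousLinearMap.smul_apply,
    ContinuousLinearMap.neg_apply, ContinuousLinearMap.proj_apply, smul_eq_mul]
  rw [div_eq_mul_inv (w (iy Q)), one_div]
  ring

/-- the exterior derivative of a product -/
private theorem NCut_ext {E : Type} [NormedAddCommGroup E] [NormedSpace ℝ E] {m : ℕ}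
    (f : E → ℝ) (ω : E → E [⋀^Fin m]→L[ℝ] ℝ) (hf : Differentiable ℝ f)
    (hω : Differentiable ℝ ω) (p : E) (w : Fin (m + 1) → E) :
    extDeriv (fun p => f p • ω p) p w = f p * extDeriv ω p w +
      ∑ j : Fin (m + 1), (-1 : ℝ) ^ (j : ℕ) * (fderiv ℝ f p (w j) * ω p (j.removeNth w)) := by
  have h1 : DifferentiableAt ℝ (fun p => f p • ω p) p := (hf p).smul (hω p)
  rw [extDeriv_apply h1, extDeriv_apply (hω p), Finset.mul_sum, ← Finset.sum_add_distrib]
  refine Finset.sum_congr rfl fun j _ => ?_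
  have h2 : (fun q => (f q • ω q) (j.removeNth w)) = fun q => f q * ω q (j.removeNth w) := by
    funext q
    rfl
  have h3 : DifferentiableAt ℝ (fun q => ω q (j.removeNth w)) p :=
    (ContinuousAlternatingMap.apply ℝ E ℝ (j.removeNth w)).differentiableAt.comp p (hω p)
  rw [h2, fderiv_fun_mul (hf p) h3]
  simp only [ContinuousLinearMap.add_apply, ContinuousLinearMap.smul_apply, smul_eq_mul]
  ring

private theorem NCut_zero {R m : ℕ} (J : Fin (m + 1) → Fin R)
    (β : (Fin R → ℝ) → (Fin R → ℝ) [⋀^Fin m]→L[ℝ] ℝ) (C : Set (Fin (m + 1) → ℝ))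
    (hC : IsCompact C) (hβ : ∀ p : Fin R → ℝ, p ∘ J ∉ C → β p = 0) (p : Fin R → ℝ)
    (hp : p ∘ J ∉ C) : extDeriv β p = 0 := by
  have hcont : Continuous fun q : Fin R → ℝ => q ∘ J :=
    continuous_pi fun i => continuous_apply (J i)
  have h1 : β =ᶠ[𝓝 p] fun _ => 0 := by
    have h2 : {q : Fin R → ℝ | q ∘ J ∉ C} ∈ 𝓝 p :=
      (hC.isClosed.isOpen_compl.preimage hcont).mem_nhds hp
    exact Filter.mem_of_superset h2 fun q hq => hβ q hq
  rw [h1.extDeriv_eq]
  have h3 : fderiv ℝ (fun _ : Fin R → ℝ => (0 : (Fin R → ℝ) [⋀^Fin m]→L[ℝ] ℝ)) p = 0 :=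
    fderiv_const_apply _
  show ContinuousAlternatingMap.alternatizeUncurryFinCLM ℝ (Fin R → ℝ) ℝ _ = 0
  rw [h3, map_zero]

private theorem NCut_af {R n : ℕ} (k : Matrix (Fin R) (Fin n) ℝ × (Fin R → ℝ)) :
    Continuous fun u => af k u :=
  continuous_const.add ((Matrix.mulVecLin k.1).continuous_of_finiteDimensional)

/-- compact support along a sheet -/
private theorem NCut_cs {R n : ℕ} (k : Matrix (Fin R) (Fin n) ℝ × (Fin R → ℝ))
    (J : Fin n → Fin R) (hdet : (k.1.submatrix J id).det ≠ 0) (C : Set (Fin n → ℝ))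
    (hC : IsCompact C) (G : (Fin R → ℝ) → ℝ) (hG : ∀ p : Fin R → ℝ, p ∘ J ∉ C → G p = 0) :
    HasCompactSupport fun u => G (af k u) := by
  have hcont : Continuous fun s : Fin n → ℝ => (k.1.submatrix J id)⁻¹.mulVec (s - k.2 ∘ J) :=
    ((Matrix.mulVecLin (k.1.submatrix J id)⁻¹).continuous_of_finiteDimensional).comp
      (continuous_id.sub continuous_const)
  refine HasCompactSupport.intro (hC.image hcont) fun u hu => hG _ fun hmem => hu ?_
  refine ⟨af k u ∘ J, hmem, ?_⟩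
  have h1 : af k u ∘ J - k.2 ∘ J = (k.1.submatrix J id).mulVec u := by
    funext i
    show k.2 (J i) + k.1.mulVec u (J i) - k.2 (J i) = k.1.mulVec u (J i)
    ring
  show (k.1.submatrix J id)⁻¹.mulVec (af k u ∘ J - k.2 ∘ J) = u
  rw [h1, Matrix.mulVec_mulVec, Matrix.nonsing_inv_mul _ (isUnit_iff_ne_zero.2 hdet),
    Matrix.one_mulVec]

/-- `k.1.submatrix ζ id = 1` for a sheet over `ζ` -/
private theorem NCut_one {R n : ℕ} (k : Matrix (Fin R) (Fin n) ℝ × (Fin R → ℝ))
    (ζ : Fin n → Fin R) (h : ∀ (s : Fin n → ℝ) (i : Fin n), af k s (ζ i) = s i) :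
    k.1.submatrix ζ id = 1 ∧ k.2 ∘ ζ = 0 := by
  have h0 : ∀ i, k.2 (ζ i) = 0 := by
    intro i
    have := h 0 i
    simpa [af] using this
  refine ⟨?_, funext h0⟩
  ext i j
  have := h (Pi.single j 1) i
  simp only [af, Pi.add_apply, h0, zero_add, Matrix.mulVec_single_one] at this
  show k.1 (ζ i) j = _
  rw [Matrix.one_apply]
  have h2 : k.1 (ζ i) j = (Pi.single j 1 : Fin n → ℝ) i := this
  rw [h2, Pi.single_apply]

private theorem NCut_rp {R n : ℕ} (k : Matrix (Fin R) (Fin n) ℝ × (Fin R → ℝ))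
    (ζ : Fin n → Fin R) (h : ∀ (s : Fin n → ℝ) (i : Fin n), af k s (ζ i) = s i) :
    rp ζ k = k := by
  obtain ⟨h1, h2⟩ := NCut_one k ζ h
  unfold rp
  rw [h1, h2, inv_one, Matrix.mul_one, Matrix.mulVec_zero, sub_zero]

/-- integrability of a term -/
private theorem NCut_int {R n : ℕ} (k : Matrix (Fin R) (Fin n) ℝ × (Fin R → ℝ))
    (J : Fin n → Fin R) (C : Set (Fin n → ℝ)) (hC : IsCompact C) (G : (Fin R → ℝ) → ℝ)
    (hGc : Continuous G) (hG : ∀ p : Fin R → ℝ, p ∘ J ∉ C → G p = 0)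
    (w : (Fin n → ℝ) → ℝ) (hw : AEStronglyMeasurable w volume) (B : ℝ)
    (hB : ∀ u, |w u| ≤ B) :
    Integrable fun u => w u * ((k.1.submatrix J id).det * G (af k u)) := by
  by_cases hdet : (k.1.submatrix J id).det = 0
  · have : (fun u => w u * ((k.1.submatrix J id).det * G (af k u))) = fun _ => (0 : ℝ) := by
      funext u
      rw [hdet]
      ring
    rw [this]
    exact integrable_zero _ _ _
  · have h1 : Integrable fun u => (k.1.submatrix J id).det * G (af k u) :=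
      ((hGc.comp (NCut_af k)).integrable_of_hasCompactSupport
        (NCut_cs k J hdet C hC G hG)).const_mul _
    exact h1.bdd_mul hw (Filter.Eventually.of_forall fun u =>
      (Real.norm_eq_abs _).le.trans (hB u))

theorem thm_NCut : St_NBas → St_NTub → St_EmG → St_GNl → St_StJ → St_NMea → St_NCut := by
  intro hBas hTub hEmG hGNl hStJ hNMea K L _ _ _ _ m c x y t hN R R' F' a ζ 𝒦 hSh hRef Λ ix iy
    hΛ γ hγ ε hε
  classical
  obtain ⟨hTr, hFG, -, -, -, -, -⟩ := hBas K L m c x y t hN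
  obtain ⟨hT1, -, -, -⟩ := hTub K L m c x y t hN
  have hc := hN.cnt
  obtain ⟨hbd, hmeas⟩ := hNMea K L (m + 1) R' (Nat.succ_pos m) hTr hFG hc F' ζ ζ 𝒦 hSh
    (fun _ h => h)
  -- the weight is measurable and bounded
  have hw : ∀ k ∈ 𝒦, AEStronglyMeasurable (fun u => cw K (F' ∘ ζ) F' u (af k u)) volume := by
    intro k hk
    have h := NCut_rp k ζ (hSh.1 k hk)
    have h1 := NCut_one k ζ (hSh.1 k hk)
    have h2 := hmeas k hk (by rw [h1.1, Matrix.det_one]; exact one_ne_zero)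
    rw [h] at h2
    exact h2
  have hB : ∀ k : Matrix (Fin R') (Fin (m + 1)) ℝ × (Fin R' → ℝ), ∀ u,
      |cw K (F' ∘ ζ) F' u (af k u)| ≤ dg K (F' ∘ ζ) := by
    intro k u
    rw [abs_of_nonneg (hbd u (af k u)).1]
    exact (hbd u (af k u)).2
  -- pulled back forms
  let β : (Fin (m + 1) → Fin R) → (Fin R' → ℝ) → (Fin R' → ℝ) [⋀^Fin m]→L[ℝ] ℝ :=
    fun I p => (γ I (p ∘ a)).compContinuousLinearMap (INJ_pr a)
  have hβs : ∀ I, ContDiff ℝ (⊤ : ℕ∞) (β I) := by
    intro I
    have h1 : ContDiff ℝ (⊤ : ℕ∞) (fun p : Fin R' → ℝ => γ I (p ∘ a)) :=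
      (hγ I).1.comp (INJ_pr a).contDiff
    exact (ContinuousAlternatingMap.compContinuousLinearMapCLM (INJ_pr a)).contDiff.comp h1
  choose C hC hC0 using fun I => (hγ I).2
  have hStJ' := fun I : Fin (m + 1) → Fin R =>
    hStJ K L m R' hTr hFG hc F' ζ (a ∘ I) 𝒦 hSh (hRef I)
      (fun p => chiC Λ ix iy ε p • β I p) (C I) ((NCut_chi Λ ix iy ε).smul (hβs I)) (hC I) (by
      intro p hp
      have : γ I (p ∘ a) = 0 := hC0 I _ (by simpa [Function.comp_def] using hp)
      simp only [β, this]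
      ext w
      simp)
  -- sum over I
  have hsum : ∫ u, ∑ I : Fin (m + 1) → Fin R, ∑ k ∈ 𝒦,
      cw K (F' ∘ ζ) F' u (af k u) * (k.1.submatrix (a ∘ I) id).det *
        extDeriv (fun p => chiC Λ ix iy ε p • β I p) (af k u)
          (fun j => k.1.mulVec (Pi.single j 1)) = 0 := by
    rw [integral_finsetSum]
    · exact Finset.sum_eq_zero fun I _ => (hStJ' I).2
    · intro I _
      exact integrable_finsetSum _ fun k hk => (hStJ' I).1 k hk
  -- the exterior derivative of the product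
  have hprod : ∀ (I : Fin (m + 1) → Fin R) (p : Fin R' → ℝ) (w : Fin (m + 1) → Fin R' → ℝ),
      extDeriv (fun p => chiC Λ ix iy ε p • β I p) p w =
        chiC Λ ix iy ε p * extDeriv (γ I) (p ∘ a) (fun j => (w j) ∘ a) +
        ∑ j : Fin (m + 1), (-1 : ℝ) ^ (j : ℕ) * (fderiv ℝ (chiC Λ ix iy ε) p (w j) *
          γ I (p ∘ a) (fun l => w (j.succAbove l) ∘ a)) := by
    intro I p w
    rw [NCut_ext _ _ ((NCut_chi Λ ix iy ε).differentiable (by simp))
      ((hβs I).differentiable (by simp)) p w, INJ_ext a (γ I) (hγ I).1]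
    rfl
  -- the position of a point
  have hpos : ∀ (v : Pt (algebraMap K L)), ∀ Q ∈ Λ.support,
      psiC (-(logv v F' (ix Q)) / ε) * deriv kapC (logv v F' (iy Q) / ε) = 0 := by
    intro v Q hQ
    obtain ⟨hg, hx, hy⟩ := hΛ Q hQ
    have ex : logv v F' (ix Q) = Real.log (v.v (xa c x Q.1)) := by
      show Real.log (v.v (F' (ix Q))) = _
      rw [hx]
    have ey : logv v F' (iy Q) = Real.log (v.v (yb c y Q.2)) := by
      show Real.log (v.v (F' (iy Q))) = _
      rw [hy]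
    rw [ex, ey]
    by_cases h0 : Real.log (v.v (xa c x Q.1)) < 0
    · rcases hT1 Q hg v h0 with ⟨-, h1⟩ | ⟨-, h1⟩
      · rw [h1, zero_div, NCut_dkap_pos (by norm_num), mul_zero]
      · rw [h1]
        by_cases h2 : -Real.log (v.v (xa c x Q.1)) / ε ≤ 1 / 2
        · rw [NCut_psi_zero h2, zero_mul]
        · rw [NCut_dkap_neg, mul_zero]
          rw [neg_div] at h2
          linarith
    · rw [NCut_psi_zero, zero_mul]
      have h3 : -Real.log (v.v (xa c x Q.1)) / ε ≤ 0 :=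
        div_nonpos_of_nonpos_of_nonneg (by linarith) hε.le
      linarith
  -- a.e. equality
  have hae : ∀ᵐ u : Fin (m + 1) → ℝ, (∑ I : Fin (m + 1) → Fin R, ∑ k ∈ 𝒦,
      cw K (F' ∘ ζ) F' u (af k u) * (k.1.submatrix (a ∘ I) id).det *
        extDeriv (fun p => chiC Λ ix iy ε p • β I p) (af k u)
          (fun j => k.1.mulVec (Pi.single j 1))) =
      (∑ k ∈ 𝒦, cw K (F' ∘ ζ) F' u (af k u) * chiC Λ ix iy ε (af k u) *
          cofD γ a (af k u) k.1) -
      ∑ k ∈ 𝒦, cw K (F' ∘ ζ) F' u (af k u) *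
        ∑ Q ∈ Λ.support, Λ Q * (1 / ε * deriv psiC (-(af k u (ix Q)) / ε) *
          kapC (af k u (iy Q) / ε)) * cofB γ a (ix Q) (af k u) k.1 := by
    refine Filter.Eventually.of_forall fun u => ?_
    rw [Finset.sum_comm, ← Finset.sum_sub_distrib]
    refine Finset.sum_congr rfl fun k hk => ?_
    by_cases hcw : cw K (F' ∘ ζ) F' u (af k u) = 0
    · simp [hcw]
    -- a point over the position
    have hex : ∃ v : Pt (algebraMap K L), logv v F' = af k u := by
      unfold cw at hcw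
      split_ifs at hcw with hx
      · unfold wtS at hcw
        have hne : (Emb K (F' ∘ ζ) ∩ {σ | logv (pb σ hx.choose) F' = af k u}).ncard ≠ 0 := by
          intro h0
          apply hcw
          rw [h0]
          simp
        obtain ⟨σ, hσ⟩ := Set.nonempty_of_ncard_ne_zero hne
        exact ⟨pb σ hx.choose, hσ.2⟩
      · exact absurd rfl hcw
    obtain ⟨v, hv⟩ := hex
    have hfd : ∀ w : Fin R' → ℝ, fderiv ℝ (chiC Λ ix iy ε) (af k u) w =
        -∑ Q ∈ Λ.support, Λ Q * (1 / ε * deriv psiC (-(af k u (ix Q)) / ε) *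
          kapC (af k u (iy Q) / ε)) * w (ix Q) := by
      intro w
      rw [NCut_fd, ← Finset.sum_neg_distrib]
      refine Finset.sum_congr rfl fun Q hQ => ?_
      have h1 := hpos v Q hQ
      rw [hv] at h1
      rw [h1]
      ring
    have hterm : ∀ I : Fin (m + 1) → Fin R,
        cw K (F' ∘ ζ) F' u (af k u) * (k.1.submatrix (a ∘ I) id).det *
        extDeriv (fun p => chiC Λ ix iy ε p • β I p) (af k u)
          (fun j => k.1.mulVec (Pi.single j 1)) =
        cw K (F' ∘ ζ) F' u (af k u) * chiC Λ ix iy ε (af k u) *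
          ((k.1.submatrix (a ∘ I) id).det * extDeriv (γ I) (af k u ∘ a)
            (fun j => (k.1.mulVec (Pi.single j 1)) ∘ a)) -
        cw K (F' ∘ ζ) F' u (af k u) * ∑ Q ∈ Λ.support,
          Λ Q * (1 / ε * deriv psiC (-(af k u (ix Q)) / ε) * kapC (af k u (iy Q) / ε)) *
          ((k.1.submatrix (a ∘ I) id).det * ∑ j : Fin (m + 1), (-1 : ℝ) ^ (j : ℕ) *
            k.1 (ix Q) j * γ I (af k u ∘ a)
              (fun l => (k.1.mulVec (Pi.single (j.succAbove l) 1)) ∘ a)) := by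
      intro I
      rw [hprod]
      have h2 : ∀ j : Fin (m + 1), fderiv ℝ (chiC Λ ix iy ε) (af k u)
          (k.1.mulVec (Pi.single j 1)) = -∑ Q ∈ Λ.support, Λ Q *
            (1 / ε * deriv psiC (-(af k u (ix Q)) / ε) * kapC (af k u (iy Q) / ε)) *
              k.1 (ix Q) j := by
        intro j
        rw [hfd, Matrix.mulVec_single_one]
        rfl
      simp only [h2]
      have h3 : ∑ j : Fin (m + 1), (-1 : ℝ) ^ (j : ℕ) * ((-∑ Q ∈ Λ.support, Λ Q *
            (1 / ε * deriv psiC (-(af k u (ix Q)) / ε) * kapC (af k u (iy Q) / ε)) *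
              k.1 (ix Q) j) * γ I (af k u ∘ a)
              (fun l => (k.1.mulVec (Pi.single (j.succAbove l) 1)) ∘ a)) =
          -∑ Q ∈ Λ.support, Λ Q *
            (1 / ε * deriv psiC (-(af k u (ix Q)) / ε) * kapC (af k u (iy Q) / ε)) *
            ∑ j : Fin (m + 1), (-1 : ℝ) ^ (j : ℕ) *
            k.1 (ix Q) j * γ I (af k u ∘ a)
              (fun l => (k.1.mulVec (Pi.single (j.succAbove l) 1)) ∘ a) := by
        simp only [Finset.mul_sum, ← Finset.sum_neg_distrib, Finset.sum_mul]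
        rw [Finset.sum_comm]
        refine Finset.sum_congr rfl fun Q _ => Finset.sum_congr rfl fun j _ => ?_
        ring
      rw [h3]
      have h4 : ∑ Q ∈ Λ.support,
          Λ Q * (1 / ε * deriv psiC (-(af k u (ix Q)) / ε) * kapC (af k u (iy Q) / ε)) *
          ((k.1.submatrix (a ∘ I) id).det * ∑ j : Fin (m + 1), (-1 : ℝ) ^ (j : ℕ) *
            k.1 (ix Q) j * γ I (af k u ∘ a)
              (fun l => (k.1.mulVec (Pi.single (j.succAbove l) 1)) ∘ a)) =
          (k.1.submatrix (a ∘ I) id).det * ∑ Q ∈ Λ.support, Λ Q *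
            (1 / ε * deriv psiC (-(af k u (ix Q)) / ε) * kapC (af k u (iy Q) / ε)) *
            ∑ j : Fin (m + 1), (-1 : ℝ) ^ (j : ℕ) *
            k.1 (ix Q) j * γ I (af k u ∘ a)
              (fun l => (k.1.mulVec (Pi.single (j.succAbove l) 1)) ∘ a) := by
        rw [Finset.mul_sum]
        exact Finset.sum_congr rfl fun Q _ => by ring
      rw [h4]
      ring
    rw [Finset.sum_congr rfl fun I _ => hterm I, Finset.sum_sub_distrib, ← Finset.mul_sum,
      ← Finset.mul_sum]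
    congr 2
    rw [Finset.sum_comm]
    refine Finset.sum_congr rfl fun Q _ => ?_
    rw [← Finset.mul_sum]
    rfl
  rw [integral_congr_ae hae] at hsum
  -- columns
  have hext : ∀ I, Continuous fun p => extDeriv (γ I) p := fun I =>
    (ContinuousAlternatingMap.alternatizeUncurryFinCLM ℝ (Fin R → ℝ) ℝ).continuous.comp
      ((hγ I).1.continuous_fderiv (by simp))
  have hca : Continuous fun p : Fin R' → ℝ => p ∘ a :=
    continuous_pi fun i => continuous_apply (a i)
  have hint1 : Integrable fun u => ∑ k ∈ 𝒦, cw K (F' ∘ ζ) F' u (af k u) *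
      chiC Λ ix iy ε (af k u) * cofD γ a (af k u) k.1 := by
    refine integrable_finsetSum _ fun k hk => ?_
    have h1 : (fun u => cw K (F' ∘ ζ) F' u (af k u) *
        chiC Λ ix iy ε (af k u) * cofD γ a (af k u) k.1) = fun u =>
        ∑ I : Fin (m + 1) → Fin R, cw K (F' ∘ ζ) F' u (af k u) *
          ((k.1.submatrix (a ∘ I) id).det * (chiC Λ ix iy ε (af k u) *
            extDeriv (γ I) (af k u ∘ a) (fun j => (k.1.mulVec (Pi.single j 1)) ∘ a))) := by
      funext u
      unfold cofD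
      rw [Finset.mul_sum]
      exact Finset.sum_congr rfl fun I _ => by ring
    rw [h1]
    refine integrable_finsetSum _ fun I _ => ?_
    refine NCut_int k (a ∘ I) (C I) (hC I) (fun p => chiC Λ ix iy ε p *
      extDeriv (γ I) (p ∘ a) (fun j => (k.1.mulVec (Pi.single j 1)) ∘ a)) ?_ ?_ _ (hw k hk) _
      (hB k)
    · exact (NCut_chi Λ ix iy ε).continuous.mul
        ((ContinuousAlternatingMap.apply ℝ (Fin R → ℝ) ℝ
          (fun j => (k.1.mulVec (Pi.single j 1)) ∘ a)).continuous.comp ((hext I).comp hca))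
    · intro p hp
      show chiC Λ ix iy ε p * extDeriv (γ I) (p ∘ a)
        (fun j => (k.1.mulVec (Pi.single j 1)) ∘ a) = 0
      rw [NCut_zero I (γ I) (C I) (hC I) (hC0 I) (p ∘ a) hp]
      exact mul_zero _
  have hint2 : Integrable fun u => ∑ k ∈ 𝒦, cw K (F' ∘ ζ) F' u (af k u) *
        ∑ Q ∈ Λ.support, Λ Q * (1 / ε * deriv psiC (-(af k u (ix Q)) / ε) *
          kapC (af k u (iy Q) / ε)) * cofB γ a (ix Q) (af k u) k.1 := by
    refine integrable_finsetSum _ fun k hk => ?_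
    have h1 : (fun u => cw K (F' ∘ ζ) F' u (af k u) *
        ∑ Q ∈ Λ.support, Λ Q * (1 / ε * deriv psiC (-(af k u (ix Q)) / ε) *
          kapC (af k u (iy Q) / ε)) * cofB γ a (ix Q) (af k u) k.1) = fun u =>
        ∑ Q ∈ Λ.support, ∑ I : Fin (m + 1) → Fin R, cw K (F' ∘ ζ) F' u (af k u) *
          ((k.1.submatrix (a ∘ I) id).det * (Λ Q * (1 / ε * deriv psiC (-(af k u (ix Q)) / ε) *
          kapC (af k u (iy Q) / ε)) * ∑ j : Fin (m + 1), (-1 : ℝ) ^ (j : ℕ) *
            k.1 (ix Q) j * γ I (af k u ∘ a)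
              (fun l => (k.1.mulVec (Pi.single (j.succAbove l) 1)) ∘ a))) := by
      funext u
      unfold cofB
      rw [Finset.mul_sum]
      refine Finset.sum_congr rfl fun Q _ => ?_
      rw [Finset.mul_sum, Finset.mul_sum]
      exact Finset.sum_congr rfl fun I _ => by ring
    rw [h1]
    refine integrable_finsetSum _ fun Q _ => integrable_finsetSum _ fun I _ => ?_
    refine NCut_int k (a ∘ I) (C I) (hC I) (fun p => Λ Q * (1 / ε *
      deriv psiC (-(p (ix Q)) / ε) * kapC (p (iy Q) / ε)) * ∑ j : Fin (m + 1),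
        (-1 : ℝ) ^ (j : ℕ) * k.1 (ix Q) j * γ I (p ∘ a)
              (fun l => (k.1.mulVec (Pi.single (j.succAbove l) 1)) ∘ a)) ?_ ?_ _ (hw k hk) _
      (hB k)
    · have hd : Continuous (deriv psiC) := NCut_psi.continuous_deriv (by simp)
      refine (continuous_const.mul ((continuous_const.mul
        (hd.comp (NCut_coordx (ix Q) ε).continuous)).mul
        (NCut_kap.continuous.comp (NCut_coordy (iy Q) ε).continuous))).mul ?_
      refine continuous_finsetSum _ fun j _ => continuous_const.mul ?_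
      exact (ContinuousAlternatingMap.apply ℝ (Fin R → ℝ) ℝ
          (fun l => (k.1.mulVec (Pi.single (j.succAbove l) 1)) ∘ a)).continuous.comp
            ((hγ I).1.continuous.comp hca)
    · intro p hp
      show Λ Q * (1 / ε * deriv psiC (-(p (ix Q)) / ε) * kapC (p (iy Q) / ε)) *
        ∑ j : Fin (m + 1), (-1 : ℝ) ^ (j : ℕ) * k.1 (ix Q) j * γ I (p ∘ a)
              (fun l => (k.1.mulVec (Pi.single (j.succAbove l) 1)) ∘ a) = 0
      rw [hC0 I (p ∘ a) hp, Finset.sum_eq_zero, mul_zero]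
      intro j _
      exact mul_zero _
  rw [integral_sub hint1 hint2] at hsum
  exact sub_eq_zero.1 hsum

end TDC
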