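import Pool.Agent.TDC.StN2

/-!
# TDN NE1: the mass of the bump
-/

set_option autoImplicit false

namespace TDC

open scoped Topology
open MeasureTheory

private theorem NE1_sub {R n : ℕ} (J : Fin n → Fin R) (A : Matrix (Fin R) (Fin n) ℝ)
    (a : Matrix (Fin n) (Fin n) ℝ) : (A * a).submatrix J id = A.submatrix J id * a := by
  ext i j
  rfl

private theorem NE1_one {R n : ℕ} (J : Fin n → Fin R)
    (k : Matrix (Fin R) (Fin n) ℝ × (Fin R → ℝ)) (h : (k.1.submatrix J id).det ≠ 0) :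
    (rp J k).1.submatrix J id = 1 := by
  show (k.1 * (k.1.submatrix J id)⁻¹).submatrix J id = 1
  rw [NE1_sub, Matrix.mul_nonsing_inv _ (isUnit_iff_ne_zero.2 h)]

private theorem NE1_af {R n : ℕ} (J : Fin n → Fin R)
    (k : Matrix (Fin R) (Fin n) ℝ × (Fin R → ℝ)) (h : (k.1.submatrix J id).det ≠ 0)
    (s : Fin n → ℝ) : af (rp J k) s ∘ J = s := by
  have h1 := NE1_one J k h
  have h2 : ∀ w : Fin n → ℝ, (fun i => (rp J k).1.mulVec w (J i)) = w := by
    intro w
    have : (fun i => (rp J k).1.mulVec w (J i)) = ((rp J k).1.submatrix J id).mulVec w := rfl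
    rw [this, h1, Matrix.one_mulVec]
  funext i
  show (rp J k).2 (J i) + (rp J k).1.mulVec s (J i) = s i
  have h3 : (rp J k).2 (J i) = 0 := by
    show k.2 (J i) - (rp J k).1.mulVec (k.2 ∘ J) (J i) = 0
    rw [congrFun (h2 (k.2 ∘ J)) i]
    exact sub_self _
  rw [h3, zero_add]
  exact congrFun (h2 s) i

private theorem NE1_kc : Continuous kapC := by
  unfold kapC
  exact Real.smoothTransition.continuous.comp (by fun_prop)

private theorem NE1_k0 : kapC 0 = 1 := by
  unfold kapC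
  exact Real.smoothTransition.one_of_one_le (by norm_num)

private theorem NE1_k1 {z : ℝ} (h : z < -1) : kapC z = 0 := by
  unfold kapC
  exact Real.smoothTransition.zero_of_nonpos (by linarith)

theorem thm_NE1 : St_NBas → St_NTub → St_NSpl → St_EmG → St_GNl → St_GEx → St_BaJ → St_NTrG →
    St_NE1 := by
  intro hNBas hNTub hNSpl hEmG _ hGEx hBaJ hNTrG K L _ _ _ _ m c x y t hN R' F' ζ J jy 𝒦 hSh hRef P hP
    hFJ hFy b hb
  classical
  obtain ⟨hTr, hFG, -, hcard, -, hcx, hEt⟩ := hNBas K L m c x y t hN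
  obtain ⟨hT1, -, -, -⟩ := hNTub K L m c x y t hN
  have hind : AlgebraicIndependent K (fun i => (cx c x P.1 t i : L)) := (hcx t hN.eFun.ind P.1).1
  obtain ⟨𝒢, hBal, hgen, hsep, hcov⟩ :=
    hBaJ K L (m + 1) R' (Nat.succ_pos m) hTr hFG hN.cnt F' ζ J 𝒦 hSh hRef
  have hG : ∀ᵐ s : Fin (m + 1) → ℝ, s ∈ 𝒢 := by
    rw [ae_iff]
    exact hBal.1
  obtain ⟨hb1, hb2, hb3⟩ := hb
  have hn := hNTrG K L (m + 1) R' (Nat.succ_pos m) hTr hFG hN.cnt F' ζ J 𝒦 hSh hRef
    (fun p A => kapC (p jy) * b (p ∘ J) * (A.submatrix J id).det ^ 2) (tsupport b)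
    (by
      intro p A a
      rw [NE1_sub, Matrix.det_mul]
      ring)
    (by
      intro A
      refine Continuous.mul (Continuous.mul (NE1_kc.comp (continuous_apply jy)) ?_)
        continuous_const
      exact hb1.continuous.comp (continuous_pi fun i => continuous_apply (J i)))
    hb2
    (by
      intro k _ hd s hs
      rw [NE1_af J k hd, image_eq_zero_of_notMem_tsupport hs]
      ring)
  have hg : ∀ k ∈ 𝒦, Integrable (fun u => cw K (F' ∘ ζ) F' u (af k u) *
        (kapC (af k u jy) * b (af k u ∘ J) * (k.1.submatrix J id).det ^ 2)) ∧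
      ∫ u, cw K (F' ∘ ζ) F' u (af k u) *
        (kapC (af k u jy) * b (af k u ∘ J) * (k.1.submatrix J id).det ^ 2) =
        if (k.1.submatrix J id).det ≠ 0 then
          ∫ s, cw K (F' ∘ J) F' s (af (rp J k) s) * (kapC (af (rp J k) s jy) * b s) else 0 := by
    intro k hk
    split_ifs with hd
    · obtain ⟨h1, -, h3⟩ := hn k hk hd
      refine ⟨h1, h3.trans ?_⟩
      refine integral_congr_ae (Filter.Eventually.of_forall fun s => ?_)
      simp only
      rw [NE1_af J k hd, NE1_one J k hd, Matrix.det_one]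
      ring
    · have hd0 : (k.1.submatrix J id).det = 0 := not_not.1 hd
      simp only [hd0]
      simp
  have hf : ∀ k ∈ 𝒦, (k.1.submatrix J id).det ≠ 0 →
      Integrable (fun s => cw K (F' ∘ J) F' s (af (rp J k) s) *
        (kapC (af (rp J k) s jy) * b s)) := by
    intro k hk hd
    obtain ⟨-, h2, -⟩ := hn k hk hd
    refine h2.congr (Filter.Eventually.of_forall fun s => ?_)
    simp only
    rw [NE1_af J k hd, NE1_one J k hd, Matrix.det_one]
    ring
  rw [integral_finsetSum _ (fun k hk => (hg k hk).1),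
    Finset.sum_congr rfl (fun k hk => (hg k hk).2), ← Finset.sum_filter,
    ← integral_finsetSum _ (fun k hk => hf k (Finset.mem_filter.1 hk).1
      (Finset.mem_filter.1 hk).2)]
  refine integral_congr_ae ?_
  filter_upwards [hG] with s hs
  rcases eq_or_ne (b s) 0 with hbs | hbs
  · rw [hbs]
    simp
  obtain ⟨-, hs1⟩ := hb3 (subset_tsupport b (Function.mem_support.2 hbs))
  have hs0 : s 0 < 0 := by linarith
  have hex : ∃ X : Pt (algebraMap K (AlgebraicClosure L)), Ov (F' ∘ J) s X := by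
    rw [hFJ]
    exact hGEx K L (m + 1) hTr (cx c x P.1 t) hind s (hgen s hs)
  obtain ⟨hfin, hdg, hdpos⟩ := hcard (F' ∘ J) (by rw [hFJ]; exact hind)
  have hcw : ∀ p : Fin R' → ℝ, cw K (F' ∘ J) F' s p =
      (((Emb K (F' ∘ J)) ∩ {σ | logv (pb σ hex.choose) F' = p}).ncard : ℝ) := by
    intro p
    unfold cw
    rw [dif_pos hex]
    unfold wtS
    rw [hdg] at hdpos ⊢
    rw [mul_div_cancel₀ _ hdpos.ne']
  set X := hex.choose with hX
  have hOv : Ov (F' ∘ J) s X := hex.choose_spec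
  have hOv' : Ov (cx c x P.1 t) s X := by rw [← hFJ]; exact hOv
  -- the two kinds of embeddings
  have hkind : ∀ σ ∈ Emb K (F' ∘ J), (pb σ X ∈ Tube c x y P ∧ logv (pb σ X) F' jy = 0) ∨
      (pb σ X ∉ Tube c x y P ∧ logv (pb σ X) F' jy = s 0) := by
    intro σ hσ
    have h1 := (hEmG.1 K L (m + 1) (F' ∘ J) X s hOv σ hσ).2
    have h2 : Real.log ((pb σ X).v (xa c x P.1)) = s 0 := by
      have h3 := congrFun h1 0
      have h4 : (F' ∘ J) 0 = xa c x P.1 := by rw [hFJ]; rfl
      rw [← h3]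
      show _ = Real.log ((pb σ X).v ((F' ∘ J) 0 : Lˣ))
      rw [h4]
    have h5 : logv (pb σ X) F' jy = Real.log ((pb σ X).v (yb c y P.2)) := by
      show Real.log ((pb σ X).v (F' jy)) = _
      rw [hFy]
    rw [h5]
    rcases hT1 P hP (pb σ X) (by rw [h2]; exact hs0) with h | h
    · exact Or.inl h
    · rw [h2] at h
      exact Or.inr h
  obtain ⟨X', -, -, θ, hθ, -⟩ := hNSpl K L m c x y t hN t hN.eFun.ind P hP s hs0 X hOv'
  rw [hEt] at hθ
  have hσ₀ : θ (incE K L) ∈ {σ | σ ∈ Emb K (cx c x P.1 t) ∧ pb σ X ∈ Tube c x y P} :=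
    hθ.mapsTo (Set.mem_singleton _)
  have huniq : ∀ σ ∈ Emb K (F' ∘ J), pb σ X ∈ Tube c x y P → σ = θ (incE K L) := by
    intro σ hσ hσT
    rw [hFJ] at hσ
    obtain ⟨τ, hτ, hτ2⟩ := hθ.surjOn ⟨hσ, hσT⟩
    rw [Set.mem_singleton_iff] at hτ
    rw [← hτ2, hτ]
  set σ₀ := θ (incE K L) with hσ₀d
  have hσ₀E : σ₀ ∈ Emb K (F' ∘ J) := by rw [hFJ]; exact hσ₀.1
  have hσ₀T : pb σ₀ X ∈ Tube c x y P := hσ₀.2
  have hσ₀j : logv (pb σ₀ X) F' jy = 0 := by
    rcases hkind σ₀ hσ₀E with h | h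
    · exact h.2
    · exact absurd hσ₀T h.1
  obtain ⟨k₀, hk₀, hd₀, hl₀⟩ := hcov s hs X hOv σ₀ hσ₀E
  rw [Finset.sum_eq_single k₀]
  · have hset : Emb K (F' ∘ J) ∩ {σ | logv (pb σ X) F' = af (rp J k₀) s} = {σ₀} := by
      ext σ
      constructor
      · rintro ⟨h1, h2⟩
        rw [Set.mem_singleton_iff]
        apply huniq σ h1
        rcases hkind σ h1 with h | h
        · exact h.1
        · exfalso
          have h3 : logv (pb σ X) F' jy = logv (pb σ₀ X) F' jy := by
            rw [hl₀, ← h2]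
          rw [hσ₀j, h.2] at h3
          exact hs0.ne h3
      · intro h
        rw [Set.mem_singleton_iff] at h
        rw [h]
        exact ⟨hσ₀E, hl₀⟩
    rw [hcw, hset, Set.ncard_singleton, ← hl₀, hσ₀j, NE1_k0]
    norm_num
  · intro k hk hne
    rw [Finset.mem_filter] at hk
    rw [hcw]
    rcases Set.eq_empty_or_nonempty (Emb K (F' ∘ J) ∩ {σ | logv (pb σ X) F' = af (rp J k) s}) with
      h | ⟨σ, h1, h2⟩
    · rw [h]
      simp
    · have h3 : logv (pb σ X) F' jy = s 0 := by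
        rcases hkind σ h1 with h | h
        · exfalso
          apply hne
          have h4 := huniq σ h1 h.1
          rw [h4] at h2
          exact hsep s hs k hk.1 k₀ hk₀ hk.2 hd₀ ((Eq.symm h2).trans hl₀)
        · exact h.2
      have h5 : af (rp J k) s jy = s 0 := by
        rw [← h3]
        exact (congrFun h2 jy).symm
      rw [h5, NE1_k1 hs1]
      ring
  · intro h
    exact absurd (Finset.mem_filter.2 ⟨hk₀, hd₀⟩) h

end TDC
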