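import Pool.Agent.TDC.StN2
import Pool.Agent.TDC.INJ

/-!
# TDN, NE2: the boundary term tends to zero
-/

set_option autoImplicit false

namespace TDC

open scoped Topology
open MeasureTheory

/-! ### real part -/

private theorem NE2_psi_smooth : ContDiff ℝ (⊤ : ℕ∞) psiC := by
  unfold psiC
  exact Real.smoothTransition.contDiff.comp ((contDiff_const.mul contDiff_id).sub contDiff_const)

private theorem NE2_dpsi_cont : Continuous (deriv psiC) :=
  NE2_psi_smooth.continuous_deriv (by simp)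

private theorem NE2_af {R n : ℕ} (J : Fin n → Fin R)
    (k : Matrix (Fin R) (Fin n) ℝ × (Fin R → ℝ)) (u : Fin n → ℝ) :
    af k u ∘ J = k.2 ∘ J + (k.1.submatrix J id).mulVec u := by
  funext i
  simp [af, Matrix.mulVec, dotProduct]

private theorem NE2_cpt {n : ℕ} (M : Matrix (Fin n) (Fin n) ℝ) (v : Fin n → ℝ)
    (hM : M.det ≠ 0) (C : Set (Fin n → ℝ)) (hC : IsCompact C) :
    IsCompact {s | v + M.mulVec s ∈ C} := by
  have h : {s | v + M.mulVec s ∈ C} = (fun y => (M⁻¹).mulVec (y - v)) '' C := by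
    ext s
    constructor
    · intro hs
      refine ⟨_, hs, ?_⟩
      show (M⁻¹).mulVec (v + M.mulVec s - v) = s
      rw [add_sub_cancel_left, Matrix.mulVec_mulVec,
        Matrix.nonsing_inv_mul _ (isUnit_iff_ne_zero.2 hM), Matrix.one_mulVec]
    · rintro ⟨y, hy, rfl⟩
      show v + M.mulVec ((M⁻¹).mulVec (y - v)) ∈ C
      rw [Matrix.mulVec_mulVec, Matrix.mul_nonsing_inv _ (isUnit_iff_ne_zero.2 hM),
        Matrix.one_mulVec, add_sub_cancel]
      exact hy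
  rw [h]
  exact hC.image (Continuous.matrix_mulVec continuous_const (continuous_id.sub continuous_const))

private theorem NE2_af_cont {R n : ℕ} (k : Matrix (Fin R) (Fin n) ℝ × (Fin R → ℝ)) :
    Continuous fun u : Fin n → ℝ => af k u := by
  unfold af
  exact continuous_const.add (Continuous.matrix_mulVec continuous_const continuous_id)

/-- integrability of the boundary terms -/
private theorem NE2_int {m R : ℕ} (γ : SF R (m + 1) m) (hγ : γ.PC)
    (A : Matrix (Fin R) (Fin (m + 1)) ℝ × (Fin R → ℝ)) (w : (Fin (m + 1) → ℝ) → ℝ)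
    (hw : AEStronglyMeasurable w volume) (B : ℝ) (hB : ∀ u, |w u| ≤ B) (ε : ℝ) :
    Integrable fun u : Fin (m + 1) → ℝ => 1 / ε * deriv psiC (-(u 0) / ε) *
      (w u * ∑ I : Fin (m + 1) → Fin R, (A.1.submatrix I id).det *
        γ I (af A u) (fun l => A.1.mulVec (Pi.single l.succ 1))) := by
  classical
  choose C hC hC0 using fun I => (hγ I).2
  have hcont : Continuous fun u : Fin (m + 1) → ℝ => 1 / ε * deriv psiC (-(u 0) / ε) *
      ∑ I : Fin (m + 1) → Fin R, (A.1.submatrix I id).det *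
        γ I (af A u) (fun l => A.1.mulVec (Pi.single l.succ 1)) := by
    have h0 : Continuous fun u : Fin (m + 1) → ℝ => u 0 := continuous_apply 0
    have h2 : Continuous fun u : Fin (m + 1) → ℝ => deriv psiC (-(u 0) / ε) :=
      NE2_dpsi_cont.comp (h0.neg.div_const ε)
    refine Continuous.mul (continuous_const.mul h2) ?_
    refine continuous_finsetSum _ fun I _ => continuous_const.mul ?_
    have h1 : Continuous fun u : Fin (m + 1) → ℝ => γ I (af A u) :=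
      (hγ I).1.continuous.comp (NE2_af_cont A)
    exact h1.eval_const _
  have hsupp : HasCompactSupport fun u : Fin (m + 1) → ℝ => 1 / ε * deriv psiC (-(u 0) / ε) *
      ∑ I : Fin (m + 1) → Fin R, (A.1.submatrix I id).det *
        γ I (af A u) (fun l => A.1.mulVec (Pi.single l.succ 1)) := by
    refine HasCompactSupport.intro (K := ⋃ I : Fin (m + 1) → Fin R,
      if (A.1.submatrix I id).det ≠ 0 then
        {s | A.2 ∘ I + (A.1.submatrix I id).mulVec s ∈ C I} else ∅) ?_ ?_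
    · refine isCompact_iUnion fun I => ?_
      split_ifs with h
      · exact NE2_cpt _ _ h _ (hC I)
      · exact isCompact_empty
    · intro s hs
      refine mul_eq_zero_of_right _ (Finset.sum_eq_zero fun I _ => ?_)
      by_cases h : (A.1.submatrix I id).det = 0
      · rw [h, zero_mul]
      · have h1 : γ I (af A s) = 0 := by
          refine hC0 I _ fun hmem => hs ?_
          refine Set.mem_iUnion.2 ⟨I, ?_⟩
          rw [if_pos h]
          show A.2 ∘ I + (A.1.submatrix I id).mulVec s ∈ C I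
          rw [← NE2_af]
          exact hmem
        rw [h1]
        exact mul_zero _
  have h1 := (hcont.integrable_of_hasCompactSupport hsupp (μ := volume)).bdd_mul hw
    (Filter.Eventually.of_forall fun u => (Real.norm_eq_abs _).trans_le (hB u))
  refine h1.congr (Filter.Eventually.of_forall fun u => ?_)
  simp only
  ring

/-- one group of sheets -/
private theorem NE2_grp {α κ : Type} {R R' m : ℕ} (E T : Finset α) (pos : α → Fin R' → ℝ)
    (𝒦₁ : Finset κ) (r : κ → Matrix (Fin R') (Fin (m + 1)) ℝ × (Fin R' → ℝ))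
    (a : Fin R → Fin R') (τ : ℝ) (s : Fin m → ℝ) (p : Fin R → ℝ)
    (hcov : ∀ σ ∈ E, ∃ k ∈ 𝒦₁, pos σ = af (r k) (Fin.cons τ s : Fin (m + 1) → ℝ))
    (hsep : ∀ k ∈ 𝒦₁, ∀ l ∈ 𝒦₁, af (r k) (Fin.cons τ s : Fin (m + 1) → ℝ) =
      af (r l) (Fin.cons τ s : Fin (m + 1) → ℝ) → k = l)
    (hTE : T ⊆ E)
    (hT : ∀ σ ∈ E, ∀ k ∈ 𝒦₁, pos σ = af (r k) (Fin.cons τ s : Fin (m + 1) → ℝ) →
      (σ ∈ T ↔ af (r k) (Fin.cons 0 s : Fin (m + 1) → ℝ) ∘ a = p)) (j : Fin R) :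
    ∑ σ ∈ T, (pos σ (a j) - p j) =
      τ * ∑ k ∈ 𝒦₁, if af (r k) (Fin.cons 0 s : Fin (m + 1) → ℝ) ∘ a = p then
        ((E.filter fun σ => pos σ = af (r k) (Fin.cons τ s : Fin (m + 1) → ℝ)).card : ℝ) *
          (r k).1 (a j) 0 else 0 := by
  classical
  have hdiff : ∀ k, af (r k) (Fin.cons 0 s : Fin (m + 1) → ℝ) ∘ a = p →
      af (r k) (Fin.cons τ s : Fin (m + 1) → ℝ) (a j) - p j = τ * (r k).1 (a j) 0 := by
    intro k hk
    have h1 : p j = af (r k) (Fin.cons 0 s : Fin (m + 1) → ℝ) (a j) := (congrFun hk j).symm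
    rw [h1]
    show (r k).2 (a j) + ∑ i, (r k).1 (a j) i * (Fin.cons τ s : Fin (m + 1) → ℝ) i -
      ((r k).2 (a j) + ∑ i, (r k).1 (a j) i * (Fin.cons 0 s : Fin (m + 1) → ℝ) i) = _
    rw [Fin.sum_univ_succ, Fin.sum_univ_succ]
    simp only [Fin.cons_zero, Fin.cons_succ]
    ring
  have h1 : ∀ σ ∈ E, (if σ ∈ T then pos σ (a j) - p j else 0) =
      ∑ k ∈ 𝒦₁, if af (r k) (Fin.cons 0 s : Fin (m + 1) → ℝ) ∘ a = p then
        (if pos σ = af (r k) (Fin.cons τ s : Fin (m + 1) → ℝ) then τ * (r k).1 (a j) 0 else 0)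
        else 0 := by
    intro σ hσ
    obtain ⟨k, hk, hpk⟩ := hcov σ hσ
    rw [Finset.sum_eq_single k]
    · by_cases hp : af (r k) (Fin.cons 0 s : Fin (m + 1) → ℝ) ∘ a = p
      · rw [if_pos ((hT σ hσ k hk hpk).2 hp), if_pos hp, if_pos hpk, ← hdiff k hp, ← hpk]
      · rw [if_neg (fun h => hp ((hT σ hσ k hk hpk).1 h)), if_neg hp]
    · intro l hl hlk
      rw [if_neg (fun h : pos σ = af (r l) (Fin.cons τ s : Fin (m + 1) → ℝ) =>
        hlk (hsep l hl k hk (h.symm.trans hpk)))]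
      split_ifs <;> rfl
    · intro h
      exact absurd hk h
  have h2 : ∑ σ ∈ T, (pos σ (a j) - p j) = ∑ σ ∈ E, if σ ∈ T then pos σ (a j) - p j else 0 := by
    rw [← Finset.sum_filter]
    congr 1
    ext σ
    rw [Finset.mem_filter]
    exact ⟨fun h => ⟨hTE h, h⟩, fun h => h.2⟩
  rw [h2, Finset.sum_congr rfl h1, Finset.sum_comm, Finset.mul_sum]
  refine Finset.sum_congr rfl fun k _ => ?_
  by_cases hp : af (r k) (Fin.cons 0 s : Fin (m + 1) → ℝ) ∘ a = p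
  · simp only [if_pos hp]
    rw [← Finset.sum_filter, Finset.sum_const, nsmul_eq_mul]
    ring
  · simp only [if_neg hp]
    rw [Finset.sum_const_zero, mul_zero]

/-! ### the weights -/

section count

variable {K L : Type} [NontriviallyNormedField K] [IsUltrametricDist K] [Field L] [Algebra K L]

/-- the weights as numbers of embeddings over `K(x, y, g)` -/
private theorem NE2_w (hNBas : St_NBas) (hNTub : St_NTub) (hEmG : St_EmG) {m : ℕ} (c : ℂ →+* K)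
    (x y : L) (t : Fin m → Lˣ) (hN : NHyp c x y t) (g : Fin m → Lˣ)
    (hg : AlgebraicIndependent K (Fin.cons x (fun i => (g i : L)) : Fin (m + 1) → L))
    (Q : ℂ × ℂ) (hQ : GoodE Q) {R' : ℕ} (F' : Fin R' → Lˣ) (J : Fin (m + 1) → Fin R')
    (jy : Fin R') (hFJ : F' ∘ J = cx c x Q.1 g) (hjy : F' jy = yb c y Q.2)
    (u : Fin (m + 1) → ℝ) (hu0 : u 0 < 0)
    (k : Matrix (Fin R') (Fin (m + 1)) ℝ × (Fin R' → ℝ))
    (hcond : af (rp J k) u jy = 0 → (∀ i, (rp J k).1 jy i = 0) ∧ (rp J k).2 jy = 0)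
    (hex : ∃ X : Pt (algebraMap K (AlgebraicClosure L)), Ov (F' ∘ J) u X)
    (X' : Pt (algebraMap K (AlgebraicClosure L)))
    (θ : (L →ₐ[K] AlgebraicClosure L) → (L →ₐ[K] AlgebraicClosure L))
    (hθ : Set.BijOn θ (EmbE K x y g)
      {σ | σ ∈ Emb K (cx c x Q.1 g) ∧ pb σ hex.choose ∈ Tube c x y Q})
    (hθ' : ∀ σ ∈ EmbE K x y g, pb (θ σ) hex.choose = pb σ X')
    (E : Finset (L →ₐ[K] AlgebraicClosure L)) (hE : ∀ σ, σ ∈ E ↔ σ ∈ EmbE K x y g) :
    wQ K F' J jy k u = ((E.filter fun σ => logv (pb σ X') F' = af (rp J k) u).card : ℝ) := by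
  classical
  obtain ⟨-, -, -, hcard, -, hcx, -⟩ := hNBas K L m c x y t hN
  obtain ⟨hT1, -, -, -⟩ := hNTub K L m c x y t hN
  have hind : AlgebraicIndependent K (fun i => (cx c x Q.1 g i : L)) := (hcx g hg Q.1).1
  obtain ⟨hfin, hdg, hdpos⟩ := hcard (F' ∘ J) (by rw [hFJ]; exact hind)
  have hcw : ∀ p : Fin R' → ℝ, cw K (F' ∘ J) F' u p =
      (((Emb K (F' ∘ J)) ∩ {σ | logv (pb σ hex.choose) F' = p}).ncard : ℝ) := by
    intro p
    unfold cw
    rw [dif_pos hex]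
    unfold wtS
    rw [hdg] at hdpos ⊢
    rw [mul_div_cancel₀ _ hdpos.ne']
  have hOv : Ov (F' ∘ J) u hex.choose := hex.choose_spec
  set X := hex.choose with hX
  have hkind : ∀ σ ∈ Emb K (F' ∘ J), (pb σ X ∈ Tube c x y Q ∧ logv (pb σ X) F' jy = 0) ∨
      (pb σ X ∉ Tube c x y Q ∧ logv (pb σ X) F' jy = u 0) := by
    intro σ hσ
    have h1 := (hEmG.1 K L (m + 1) (F' ∘ J) X u hOv σ hσ).2
    have h2 : Real.log ((pb σ X).v (xa c x Q.1)) = u 0 := by
      have h3 := congrFun h1 0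
      have h4 : (F' ∘ J) 0 = xa c x Q.1 := by rw [hFJ]; rfl
      rw [← h3]
      show _ = Real.log ((pb σ X).v ((F' ∘ J) 0 : Lˣ))
      rw [h4]
    have h5 : logv (pb σ X) F' jy = Real.log ((pb σ X).v (yb c y Q.2)) := by
      show Real.log ((pb σ X).v (F' jy)) = _
      rw [hjy]
    rw [h5]
    rcases hT1 Q hQ (pb σ X) (by rw [h2]; exact hu0) with h | h
    · exact Or.inl h
    · rw [h2] at h
      exact Or.inr h
  have hin : ∀ σ ∈ E, θ σ ∈ Emb K (F' ∘ J) ∧ pb (θ σ) X ∈ Tube c x y Q ∧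
      logv (pb σ X') F' jy = 0 ∧ pb (θ σ) X = pb σ X' := by
    intro σ hσ
    have h1 := (hE σ).1 hσ
    have h2 := hθ.mapsTo h1
    have h3 : θ σ ∈ Emb K (F' ∘ J) := by rw [hFJ]; exact h2.1
    have h4 := hθ' σ h1
    refine ⟨h3, h2.2, ?_, h4⟩
    rcases hkind (θ σ) h3 with h | h
    · rw [← h4]
      exact h.2
    · exact absurd h2.2 h.1
  unfold wQ
  split_ifs with hc
  · have hj0 : af (rp J k) u jy = 0 := by
      show (rp J k).2 jy + ∑ i, (rp J k).1 jy i * u i = 0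
      rw [hc.2]
      simp [hc.1]
    rw [hcw]
    congr 1
    rw [← Set.ncard_coe_finset]
    symm
    refine Set.ncard_congr (fun σ _ => θ σ) ?_ ?_ ?_
    · intro σ hσ
      rw [Finset.mem_coe, Finset.mem_filter] at hσ
      obtain ⟨h1, -, -, h4⟩ := hin σ hσ.1
      refine ⟨h1, ?_⟩
      show logv (pb (θ σ) X) F' = _
      rw [h4]
      exact hσ.2
    · intro σ σ' hσ hσ' h
      rw [Finset.mem_coe, Finset.mem_filter] at hσ hσ'
      exact hθ.injOn ((hE σ).1 hσ.1) ((hE σ').1 hσ'.1) h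
    · rintro σ' ⟨h1, h2⟩
      have h2' : logv (pb σ' X) F' = af (rp J k) u := h2
      have h3 : pb σ' X ∈ Tube c x y Q := by
        rcases hkind σ' h1 with h | h
        · exact h.1
        · exfalso
          have h4 := h.2
          rw [h2', hj0] at h4
          exact hu0.ne h4.symm
      obtain ⟨σ, hσ, hσ'⟩ := hθ.surjOn ⟨by rw [← hFJ]; exact h1, h3⟩
      refine ⟨σ, ?_, hσ'⟩
      rw [Finset.mem_coe, Finset.mem_filter]
      refine ⟨(hE σ).2 hσ, ?_⟩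
      rw [← hθ' σ hσ, hσ']
      exact h2'
  · have h0 : (E.filter fun σ => logv (pb σ X') F' = af (rp J k) u) = ∅ := by
      refine Finset.filter_eq_empty_iff.2 fun σ hσ h => hc (hcond ?_)
      obtain ⟨-, -, h3, -⟩ := hin σ hσ
      rw [← h]
      exact h3
    rw [h0]
    simp

end count

private theorem NE2_row {R n : ℕ} (k : Matrix (Fin R) (Fin n) ℝ × (Fin R → ℝ)) (j : Fin R) :
    ∀ᵐ s : Fin n → ℝ, af k s j = 0 → (∀ i, k.1 j i = 0) ∧ k.2 j = 0 := by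
  by_cases h : (∀ i, k.1 j i = 0) ∧ k.2 j = 0
  · exact Filter.Eventually.of_forall fun _ _ => h
  · have hne : ((Matrix.of fun (_ : Fin 1) i => k.1 j i, fun _ : Fin 1 => k.2 j) :
        Matrix (Fin 1) (Fin n) ℝ × (Fin 1 → ℝ)) ≠ (0, 0) := by
      intro h0
      apply h
      constructor
      · intro i
        exact congrFun (congrFun (congrArg Prod.fst h0) 0) i
      · exact congrFun (congrArg Prod.snd h0) 0
    filter_upwards [INJ_ae_ne _ _ hne] with s hs h0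
    exfalso
    apply hs
    funext i
    have h1 : af ((Matrix.of fun (_ : Fin 1) i => k.1 j i, fun _ : Fin 1 => k.2 j) :
        Matrix (Fin 1) (Fin n) ℝ × (Fin 1 → ℝ)) s i = af k s j := rfl
    rw [h1, h0]
    simp [af]

/-- the rows `a` of an affine map -/
private def NE2_ra {R R' n : ℕ} (a : Fin R → Fin R')
    (k : Matrix (Fin R') (Fin n) ℝ × (Fin R' → ℝ)) : Matrix (Fin R) (Fin n) ℝ × (Fin R → ℝ) :=
  (k.1.submatrix a id, k.2 ∘ a)

private theorem NE2_ra_af {R R' n : ℕ} (a : Fin R → Fin R')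
    (k : Matrix (Fin R') (Fin n) ℝ × (Fin R' → ℝ)) (u : Fin n → ℝ) :
    af (NE2_ra a k) u = af k u ∘ a := rfl

theorem thm_NE2 : St_NBas → St_NTub → St_NSpl → St_NBal → St_NBd → St_NE2a → St_NMea → St_EmG →
    St_EmF → St_GNl → St_GEx → St_BaJ → St_Fini → St_NE2 := by
  intro hNBas hNTub hNSpl hNBal hNBd hNE2a hNMea hEmG _ hGNl hGEx hBaJ hFini
  intro K L _ _ _ _ m c x y t hN g hg R F hF
  classical
  obtain ⟨𝒪, h𝒪, hbal⟩ := hNBal K L m c x y t hN g hg R F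
  refine ⟨𝒪, h𝒪, fun Λ hΛ hΛo R' F' a ζ ix iy ig 𝒦 hFa hFig hSh hxy hRef γ hγ => ?_⟩
  obtain ⟨hTr, hFG, -, hcard, -, hcx, -⟩ := hNBas K L m c x y t hN
  let J : ℂ × ℂ → Fin (m + 1) → Fin R' := fun Q => Fin.cons (ix Q) ig
  have hFJ : ∀ Q ∈ Λ.support, F' ∘ J Q = cx c x Q.1 g := by
    intro Q hQ
    funext i
    refine Fin.cases ?_ (fun i => ?_) i
    · exact (hxy Q hQ).1
    · exact congrFun hFig i
  have hind : ∀ Q : ℂ × ℂ, AlgebraicIndependent K (fun i => (cx c x Q.1 g i : L)) :=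
    fun Q => (hcx g hg Q.1).1
  have hEfin : (EmbE K x y g).Finite :=
    (hcard (cx c x 0 g) (hcx g hg 0).1).1.subset (hcx g hg 0).2
  obtain ⟨E, hE⟩ : ∃ E : Finset (L →ₐ[K] AlgebraicClosure L), ∀ σ, σ ∈ E ↔ σ ∈ EmbE K x y g :=
    ⟨hEfin.toFinset, fun σ => hEfin.mem_toFinset⟩
  -- the sets of `BaJ`
  have hB : ∀ Q, ∃ 𝒢 : Set (Fin (m + 1) → ℝ), Q ∈ Λ.support → volume 𝒢ᶜ = 0 ∧
      (∀ s ∈ 𝒢, Generic K s) ∧
      (∀ s ∈ 𝒢, ∀ k ∈ 𝒦, ∀ l ∈ 𝒦, (k.1.submatrix (J Q) id).det ≠ 0 →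
        (l.1.submatrix (J Q) id).det ≠ 0 → af (rp (J Q) k) s = af (rp (J Q) l) s → k = l) ∧
      ∀ s ∈ 𝒢, ∀ X, Ov (F' ∘ J Q) s X → ∀ σ ∈ Emb K (F' ∘ J Q),
          ∃ k ∈ 𝒦, (k.1.submatrix (J Q) id).det ≠ 0 ∧
            logv (pb σ X) F' = af (rp (J Q) k) s := by
    intro Q
    by_cases hQ : Q ∈ Λ.support
    · obtain ⟨𝒢, hBal, hgen, hsep, hcov⟩ := hBaJ K L (m + 1) R' (Nat.succ_pos m) hTr hFG hN.cnt
        F' ζ (J Q) 𝒦 hSh (hRef Q hQ)
      exact ⟨𝒢, fun _ => ⟨hBal.1, hgen, hsep, hcov⟩⟩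
    · exact ⟨∅, fun h => absurd h hQ⟩
  choose 𝒢Q h𝒢Q using hB
  -- the sheets of `F`
  have hK : ∀ Q : ℂ × ℂ, ∃ 𝒦' : Finset (Matrix (Fin R) (Fin (m + 1)) ℝ × (Fin R → ℝ)),
      ∀ v : Pt (algebraMap K L), Gauss v (cx c x Q.1 g) →
        ∃ k ∈ 𝒦', logv v F = af k (logv v (cx c x Q.1 g)) := by
    intro Q
    obtain ⟨A, -, hA⟩ := hFini K L (m + 1) hTr ((m + 1) + R) (Fin.append (cx c x Q.1 g) F)
      (Fin.castAdd R)
    refine ⟨A.image fun k => (k.1.submatrix (Fin.natAdd (m + 1)) id,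
      k.2 ∘ Fin.natAdd (m + 1)), ?_⟩
    intro v hv
    have h1 : (Fin.append (cx c x Q.1 g) F) ∘ Fin.castAdd R = cx c x Q.1 g := by
      funext i
      exact Fin.append_left _ _ i
    rw [h1] at hA
    obtain ⟨k, hk, hk1, -⟩ := hA v hv
    refine ⟨_, Finset.mem_image_of_mem _ hk, ?_⟩
    funext i
    have h2 := congrFun hk1 (Fin.natAdd (m + 1) i)
    have h3 : logv v (Fin.append (cx c x Q.1 g) F) (Fin.natAdd (m + 1) i) = logv v F i := by
      show Real.log (v.v ((Fin.append (cx c x Q.1 g) F (Fin.natAdd (m + 1) i) : Lˣ) : L)) = _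
      rw [Fin.append_right]
      rfl
    rw [← h3, h2]
    rfl
  choose 𝒦' h𝒦' using hK
  obtain ⟨𝒢, h𝒢0, h𝒢⟩ := hbal Λ hΛ hΛo 𝒦' (fun Q _ v _ hv => h𝒦' Q v hv)
  -- the good set
  let 𝒢₁ : Set (Fin (m + 1) → ℝ) := {u | ∀ Q ∈ Λ.support, u ∈ 𝒢Q Q ∧
    (∀ k ∈ 𝒦, ∀ k' ∈ 𝒦' Q, af (NE2_ra a (rp (J Q) k)) u = af k' u →
      NE2_ra a (rp (J Q) k) = k') ∧
    ∀ k ∈ 𝒦, af (rp (J Q) k) u (iy Q) = 0 →
      (∀ i, (rp (J Q) k).1 (iy Q) i = 0) ∧ (rp (J Q) k).2 (iy Q) = 0}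
  have h𝒢₁ : volume 𝒢₁ᶜ = 0 := by
    have h : ∀ᵐ u : Fin (m + 1) → ℝ, ∀ Q ∈ Λ.support, u ∈ 𝒢Q Q ∧
        (∀ k ∈ 𝒦, ∀ k' ∈ 𝒦' Q, af (NE2_ra a (rp (J Q) k)) u = af k' u →
          NE2_ra a (rp (J Q) k) = k') ∧
        ∀ k ∈ 𝒦, af (rp (J Q) k) u (iy Q) = 0 →
          (∀ i, (rp (J Q) k).1 (iy Q) i = 0) ∧ (rp (J Q) k).2 (iy Q) = 0 := by
      rw [Filter.eventually_all_finset]
      intro Q hQ
      refine Filter.Eventually.and ?_ (Filter.Eventually.and ?_ ?_)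
      · rw [ae_iff]
        exact (h𝒢Q Q hQ).1
      · rw [Filter.eventually_all_finset]
        intro k _
        rw [Filter.eventually_all_finset]
        intro k' _
        by_cases hkk : NE2_ra a (rp (J Q) k) = k'
        · exact Filter.Eventually.of_forall fun _ _ => hkk
        · filter_upwards [INJ_ae_ne _ _ hkk] with u hu h
          exact absurd h hu
      · rw [Filter.eventually_all_finset]
        intro k _
        exact NE2_row (rp (J Q) k) (iy Q)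
    exact ae_iff.1 h
  -- the weights
  have hmea : ∀ Q ∈ Λ.support, ∀ k ∈ 𝒦, (k.1.submatrix (J Q) id).det ≠ 0 →
      AEStronglyMeasurable (fun u => wQ K F' (J Q) (iy Q) k u) volume := by
    intro Q hQ k hk hd
    by_cases hc : (∀ i, (rp (J Q) k).1 (iy Q) i = 0) ∧ (rp (J Q) k).2 (iy Q) = 0
    · simp only [wQ, if_pos hc]
      exact (hNMea K L (m + 1) R' (Nat.succ_pos m) hTr hFG hN.cnt F' ζ (J Q) 𝒦 hSh
        (hRef Q hQ)).2 k hk hd
    · simp only [wQ, if_neg hc]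
      exact aestronglyMeasurable_const
  have hdg0 : ∀ Q, 0 ≤ dg K (F' ∘ J Q) := fun Q => Nat.cast_nonneg _
  have hbd : ∀ Q ∈ Λ.support, ∀ k u, |wQ K F' (J Q) (iy Q) k u| ≤ dg K (F' ∘ J Q) := by
    intro Q hQ k u
    unfold wQ
    split_ifs
    · obtain ⟨h1, h2⟩ := (hNMea K L (m + 1) R' (Nat.succ_pos m) hTr hFG hN.cnt F' ζ (J Q) 𝒦 hSh
        (hRef Q hQ)).1 u (af (rp (J Q) k) u)
      rw [abs_of_nonneg h1]
      exact h2
    · rw [abs_zero]
      exact hdg0 Q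
  let S : Finset ((ℂ × ℂ) × (Matrix (Fin R') (Fin (m + 1)) ℝ × (Fin R' → ℝ))) :=
    (Λ.support ×ˢ 𝒦).filter fun q => (q.2.1.submatrix (J q.1) id).det ≠ 0
  have hS : ∀ q ∈ S, q.1 ∈ Λ.support ∧ q.2 ∈ 𝒦 ∧ (q.2.1.submatrix (J q.1) id).det ≠ 0 := by
    intro q hq
    obtain ⟨h1, h2⟩ := Finset.mem_filter.1 hq
    obtain ⟨h3, h4⟩ := Finset.mem_product.1 h1
    exact ⟨h3, h4, h2⟩
  have hSsum : ∀ f : (ℂ × ℂ) × (Matrix (Fin R') (Fin (m + 1)) ℝ × (Fin R' → ℝ)) → ℝ,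
      ∑ q : S, f q.1 = ∑ Q ∈ Λ.support, ∑ k ∈ 𝒦 with (k.1.submatrix (J Q) id).det ≠ 0,
        f (Q, k) := by
    intro f
    rw [Finset.sum_coe_sort S f, Finset.sum_filter, Finset.sum_product]
    refine Finset.sum_congr rfl fun Q _ => ?_
    rw [Finset.sum_filter]
  let A : S → Matrix (Fin R) (Fin (m + 1)) ℝ × (Fin R → ℝ) :=
    fun q => NE2_ra a (rp (J q.1.1) q.1.2)
  let w : S → (Fin (m + 1) → ℝ) → ℝ :=
    fun q u => Λ q.1.1 * wQ K F' (J q.1.1) (iy q.1.1) q.1.2 u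
  have hwm : ∀ i, AEStronglyMeasurable (w i) volume := by
    intro q
    obtain ⟨h1, h2, h3⟩ := hS q.1 q.2
    exact (hmea q.1.1 h1 q.1.2 h2 h3).const_mul _
  have hwb : ∀ i, ∀ u ∈ 𝒢₁, |w i u| ≤ ∑ Q ∈ Λ.support, |Λ Q| * dg K (F' ∘ J Q) := by
    intro q u _
    obtain ⟨h1, h2, h3⟩ := hS q.1 q.2
    have h4 : |w q u| ≤ |Λ q.1.1| * dg K (F' ∘ J q.1.1) := by
      show |Λ q.1.1 * wQ K F' (J q.1.1) (iy q.1.1) q.1.2 u| ≤ _
      rw [abs_mul]
      exact mul_le_mul_of_nonneg_left (hbd q.1.1 h1 q.1.2 u) (abs_nonneg _)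
    refine h4.trans ?_
    exact Finset.single_le_sum (f := fun Q => |Λ Q| * dg K (F' ∘ J Q))
      (fun Q _ => mul_nonneg (abs_nonneg _) (hdg0 Q)) h1
  -- the hypothesis of `NBd`
  have H : ∀ s ∈ 𝒢, ∀ p : Fin R → ℝ, ∃ δ : ℝ, 0 < δ ∧ ∀ τ : ℝ, -δ < τ → τ < 0 →
      (Fin.cons τ s : Fin (m + 1) → ℝ) ∈ 𝒢₁ → ∀ j : Fin R,
      ∑ᶠ i ∈ {i : S | af (A i) (Fin.cons 0 s : Fin (m + 1) → ℝ) = p},
        w i (Fin.cons τ s : Fin (m + 1) → ℝ) * (A i).1 j 0 = 0 := by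
    intro s hs p
    obtain ⟨δ, hδ, hb⟩ := h𝒢 s hs p
    refine ⟨δ, hδ, fun τ hτ1 hτ2 hu j => ?_⟩
    have hfin : ∑ᶠ i ∈ {i : S | af (A i) (Fin.cons 0 s : Fin (m + 1) → ℝ) = p},
        w i (Fin.cons τ s : Fin (m + 1) → ℝ) * (A i).1 j 0 =
        ∑ Q ∈ Λ.support, ∑ k ∈ 𝒦 with (k.1.submatrix (J Q) id).det ≠ 0,
          if af (rp (J Q) k) (Fin.cons 0 s : Fin (m + 1) → ℝ) ∘ a = p then
            Λ Q * wQ K F' (J Q) (iy Q) k (Fin.cons τ s : Fin (m + 1) → ℝ) *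
              (rp (J Q) k).1 (a j) 0 else 0 := by
      rw [finsum_mem_def, finsum_eq_sum_of_fintype]
      rw [← hSsum fun q => if af (rp (J q.1) q.2) (Fin.cons 0 s : Fin (m + 1) → ℝ) ∘ a = p then
            Λ q.1 * wQ K F' (J q.1) (iy q.1) q.2 (Fin.cons τ s : Fin (m + 1) → ℝ) *
              (rp (J q.1) q.2).1 (a j) 0 else 0]
      refine Finset.sum_congr rfl fun q _ => ?_
      rw [Set.indicator_apply]
      rfl
    rw [hfin]
    rcases Λ.support.eq_empty_or_nonempty with hemp | ⟨Q₀, hQ₀⟩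
    · rw [hemp]
      simp
    have hgen : Generic K (Fin.cons τ s : Fin (m + 1) → ℝ) := (h𝒢Q Q₀ hQ₀).2.1 _ (hu Q₀ hQ₀).1
    have hX1 : ∀ Q ∈ Λ.support, ∃ X' : Pt (algebraMap K (AlgebraicClosure L)),
        (Ov (cx c x Q.1 g) (Fin.cons τ s : Fin (m + 1) → ℝ) X' ∧
          pb (incE K L) X' ∈ Tube c x y Q) ∧
        ∀ k ∈ 𝒦, wQ K F' (J Q) (iy Q) k (Fin.cons τ s : Fin (m + 1) → ℝ) =
          ((E.filter fun σ => logv (pb σ X') F' =
            af (rp (J Q) k) (Fin.cons τ s : Fin (m + 1) → ℝ)).card : ℝ) := by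
      intro Q hQ
      have hex : ∃ X : Pt (algebraMap K (AlgebraicClosure L)),
          Ov (F' ∘ J Q) (Fin.cons τ s : Fin (m + 1) → ℝ) X := by
        rw [hFJ Q hQ]
        exact hGEx K L (m + 1) hTr (cx c x Q.1 g) (hind Q) _ hgen
      obtain ⟨X', h1, h2, θ, hθ, hθ'⟩ := hNSpl K L m c x y t hN g hg Q (hΛ Q hQ)
        (Fin.cons τ s : Fin (m + 1) → ℝ) hτ2 hex.choose
        (by rw [← hFJ Q hQ]; exact hex.choose_spec)
      refine ⟨X', ⟨h1, h2⟩, fun k hk => ?_⟩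
      exact NE2_w hNBas hNTub hEmG c x y t hN g hg Q (hΛ Q hQ) F' (J Q) (iy Q) (hFJ Q hQ)
        (hxy Q hQ).2 _ hτ2 k ((hu Q hQ).2.2 k hk) hex X' θ hθ hθ' E hE
    have hX2 : ∀ Q, ∃ X' : Pt (algebraMap K (AlgebraicClosure L)), Q ∈ Λ.support →
        (Ov (cx c x Q.1 g) (Fin.cons τ s : Fin (m + 1) → ℝ) X' ∧
          pb (incE K L) X' ∈ Tube c x y Q) ∧
        ∀ k ∈ 𝒦, wQ K F' (J Q) (iy Q) k (Fin.cons τ s : Fin (m + 1) → ℝ) =
          ((E.filter fun σ => logv (pb σ X') F' =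
            af (rp (J Q) k) (Fin.cons τ s : Fin (m + 1) → ℝ)).card : ℝ) := by
      intro Q
      by_cases hQ : Q ∈ Λ.support
      · obtain ⟨X', h⟩ := hX1 Q hQ
        exact ⟨X', fun _ => h⟩
      · obtain ⟨X', -⟩ := hX1 Q₀ hQ₀
        exact ⟨X', fun h => absurd h hQ⟩
    choose X hX using hX2
    let T : ℂ × ℂ → Finset (L →ₐ[K] AlgebraicClosure L) := fun Q => E.filter fun σ =>
      ∃ k ∈ 𝒦' Q, af k (Fin.cons 0 s : Fin (m + 1) → ℝ) = p ∧
        logv (pb σ (X Q)) F = af k (Fin.cons τ s : Fin (m + 1) → ℝ)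
    have hz := hb τ hτ1 hτ2 hgen X (fun Q hQ => (hX Q hQ).1) T (fun Q _ => by
      ext σ
      show σ ∈ (E.filter _ : Finset _) ↔ _
      rw [Finset.mem_filter, hE]
      rfl) j
    have hgrp : ∀ Q ∈ Λ.support, ∑ σ ∈ T Q, (logv (pb σ (X Q)) F j - p j) =
        τ * ∑ k ∈ 𝒦 with (k.1.submatrix (J Q) id).det ≠ 0,
          if af (rp (J Q) k) (Fin.cons 0 s : Fin (m + 1) → ℝ) ∘ a = p then
            wQ K F' (J Q) (iy Q) k (Fin.cons τ s : Fin (m + 1) → ℝ) *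
              (rp (J Q) k).1 (a j) 0 else 0 := by
      intro Q hQ
      obtain ⟨⟨hOv, hTube⟩, hw⟩ := hX Q hQ
      have hOv' : Ov (F' ∘ J Q) (Fin.cons τ s : Fin (m + 1) → ℝ) (X Q) := by
        rw [hFJ Q hQ]
        exact hOv
      obtain ⟨-, -, hsep, hcov⟩ := h𝒢Q Q hQ
      obtain ⟨hu1, hu2, -⟩ := hu Q hQ
      have hEm : ∀ σ ∈ E, σ ∈ Emb K (F' ∘ J Q) := by
        intro σ hσ
        rw [hFJ Q hQ]
        exact (hcx g hg Q.1).2 ((hE σ).1 hσ)
      have hFF : ∀ σ : L →ₐ[K] AlgebraicClosure L,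
          logv (pb σ (X Q)) F = logv (pb σ (X Q)) F' ∘ a := by
        intro σ
        rw [← hFa]
        rfl
      have h1 := NE2_grp E (T Q) (fun σ => logv (pb σ (X Q)) F')
        (𝒦.filter fun k => (k.1.submatrix (J Q) id).det ≠ 0) (rp (J Q)) a τ s p
        (by
          intro σ hσ
          obtain ⟨k, hk, hk1, hk2⟩ := hcov _ hu1 (X Q) hOv' σ (hEm σ hσ)
          exact ⟨k, Finset.mem_filter.2 ⟨hk, hk1⟩, hk2⟩)
        (by
          intro k hk l hl hkl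
          obtain ⟨hk1, hk2⟩ := Finset.mem_filter.1 hk
          obtain ⟨hl1, hl2⟩ := Finset.mem_filter.1 hl
          exact hsep _ hu1 k hk1 l hl1 hk2 hl2 hkl)
        (Finset.filter_subset _ _)
        (by
          intro σ hσ k hk hpos
          obtain ⟨hk1, hk2⟩ := Finset.mem_filter.1 hk
          have hpos' : logv (pb σ (X Q)) F =
              af (NE2_ra a (rp (J Q) k)) (Fin.cons τ s : Fin (m + 1) → ℝ) := by
            rw [hFF, NE2_ra_af]
            exact congrArg (fun q => q ∘ a) hpos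
          have hG := hEmG.1 K L (m + 1) (cx c x Q.1 g) (X Q) _ hOv σ
            (by rw [← hFJ Q hQ]; exact hEm σ hσ)
          constructor
          · intro hσT
            obtain ⟨-, k', hk', hk'1, hk'2⟩ := Finset.mem_filter.1 hσT
            have h3 := hu2 k hk1 k' hk' (hpos'.symm.trans hk'2)
            rw [← NE2_ra_af, h3]
            exact hk'1
          · intro hp
            obtain ⟨k', hk', hk'1⟩ := h𝒦' Q (pb σ (X Q)) hG.1
            rw [hG.2] at hk'1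
            have h3 := hu2 k hk1 k' hk' (hpos'.symm.trans hk'1)
            refine Finset.mem_filter.2 ⟨hσ, k', hk', ?_, hk'1⟩
            rw [← h3, NE2_ra_af]
            exact hp) j
      have h2 : ∑ σ ∈ T Q, (logv (pb σ (X Q)) F j - p j) =
          ∑ σ ∈ T Q, ((fun σ => logv (pb σ (X Q)) F') σ (a j) - p j) := by
        refine Finset.sum_congr rfl fun σ _ => ?_
        rw [hFF]
        rfl
      rw [h2, h1]
      congr 1
      refine Finset.sum_congr rfl fun k hk => ?_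
      obtain ⟨hk1, hk2⟩ := Finset.mem_filter.1 hk
      rw [hw k hk1]
    have hfinal : τ * ∑ Q ∈ Λ.support, ∑ k ∈ 𝒦 with (k.1.submatrix (J Q) id).det ≠ 0,
          (if af (rp (J Q) k) (Fin.cons 0 s : Fin (m + 1) → ℝ) ∘ a = p then
            Λ Q * wQ K F' (J Q) (iy Q) k (Fin.cons τ s : Fin (m + 1) → ℝ) *
              (rp (J Q) k).1 (a j) 0 else 0) = 0 := by
      refine Eq.trans ?_ hz
      rw [Finset.mul_sum]
      refine Finset.sum_congr rfl fun Q hQ => ?_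
      rw [hgrp Q hQ, Finset.mul_sum, Finset.mul_sum, Finset.mul_sum]
      refine Finset.sum_congr rfl fun k _ => ?_
      split_ifs
      · ring
      · ring
    exact (mul_eq_zero.1 hfinal).resolve_left hτ2.ne
  -- the limit
  have hlim := hNBd R m S A w γ (∑ Q ∈ Λ.support, |Λ Q| * dg K (F' ∘ J Q)) 𝒢₁ 𝒢 hγ hwm hwb
    h𝒢₁ h𝒢0 H
  refine hlim.congr' ?_
  filter_upwards [self_mem_nhdsWithin] with ε hε
  have hε : 0 < ε := hε
  let G : ℂ × ℂ → Matrix (Fin R') (Fin (m + 1)) ℝ × (Fin R' → ℝ) → (Fin (m + 1) → ℝ) → ℝ :=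
    fun Q k u => 1 / ε * deriv psiC (-(u 0) / ε) * (wQ K F' (J Q) (iy Q) k u *
      ∑ I : Fin (m + 1) → Fin R, ((NE2_ra a (rp (J Q) k)).1.submatrix I id).det *
        γ I (af (NE2_ra a (rp (J Q) k)) u)
          (fun l => (NE2_ra a (rp (J Q) k)).1.mulVec (Pi.single l.succ 1)))
  have hGint : ∀ Q ∈ Λ.support, ∀ k ∈ 𝒦, (k.1.submatrix (J Q) id).det ≠ 0 →
      Integrable (G Q k) := by
    intro Q hQ k hk hd
    exact NE2_int γ hγ (NE2_ra a (rp (J Q) k)) _ (hmea Q hQ k hk hd) (dg K (F' ∘ J Q))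
      (hbd Q hQ k) ε
  have hA := fun Q (hQ : Q ∈ Λ.support) => hNE2a K L m c x y t hN g hg R F hF Q (hΛ Q hQ) R' F' a ζ
    (ix Q) (iy Q) ig 𝒦 hFa hFig hSh (hxy Q hQ).1 (hxy Q hQ).2 (hRef Q hQ) γ hγ ε hε
  have e1 : (∫ u : Fin (m + 1) → ℝ, 1 / ε * deriv psiC (-(u 0) / ε) *
      ∑ i, w i u * ∑ I : Fin (m + 1) → Fin R, ((A i).1.submatrix I id).det *
        γ I (af (A i) u) (fun l => (A i).1.mulVec (Pi.single l.succ 1))) =
      ∫ u : Fin (m + 1) → ℝ, ∑ Q ∈ Λ.support, Λ Q *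
        ∑ k ∈ 𝒦 with (k.1.submatrix (J Q) id).det ≠ 0, G Q k u := by
    congr 1
    funext u
    rw [hSsum fun q => Λ q.1 * wQ K F' (J q.1) (iy q.1) q.2 u *
      ∑ I : Fin (m + 1) → Fin R, ((NE2_ra a (rp (J q.1) q.2)).1.submatrix I id).det *
        γ I (af (NE2_ra a (rp (J q.1) q.2)) u)
          (fun l => (NE2_ra a (rp (J q.1) q.2)).1.mulVec (Pi.single l.succ 1)), Finset.mul_sum]
    refine Finset.sum_congr rfl fun Q _ => ?_
    rw [Finset.mul_sum, Finset.mul_sum]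
    refine Finset.sum_congr rfl fun k _ => ?_
    show _ = Λ Q * (_ * (_ * _))
    ring
  have hsumint : ∀ Q ∈ Λ.support, Integrable fun u : Fin (m + 1) → ℝ =>
      ∑ k ∈ 𝒦 with (k.1.submatrix (J Q) id).det ≠ 0, G Q k u := by
    intro Q hQ
    refine integrable_finsetSum _ fun k hk => ?_
    obtain ⟨hk1, hk2⟩ := Finset.mem_filter.1 hk
    exact hGint Q hQ k hk1 hk2
  rw [e1, integral_finsetSum _ fun Q hQ => (hsumint Q hQ).const_mul _]
  have e2 : ∀ u : Fin (m + 1) → ℝ, (∑ k ∈ 𝒦, cw K (F' ∘ ζ) F' u (af k u) *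
          ∑ Q ∈ Λ.support, Λ Q * (1 / ε * deriv psiC (-(af k u (ix Q)) / ε) *
            kapC (af k u (iy Q) / ε)) * cofB γ a (ix Q) (af k u) k.1) =
      ∑ Q ∈ Λ.support, Λ Q * ∑ k ∈ 𝒦, cw K (F' ∘ ζ) F' u (af k u) *
          ((1 / ε * deriv psiC (-(af k u (ix Q)) / ε) * kapC (af k u (iy Q) / ε)) *
            cofB γ a (ix Q) (af k u) k.1) := by
    intro u
    simp only [Finset.mul_sum]
    rw [Finset.sum_comm]
    refine Finset.sum_congr rfl fun Q _ => Finset.sum_congr rfl fun k _ => ?_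
    ring
  simp only [e2]
  rw [integral_finsetSum _ fun Q hQ => (hA Q hQ).1.const_mul _]
  refine Finset.sum_congr rfl fun Q hQ => ?_
  rw [integral_const_mul, integral_const_mul, (hA Q hQ).2]
  congr 1
  refine integral_congr_ae (Filter.Eventually.of_forall fun u => ?_)
  simp only
  rw [Finset.mul_sum]
  rfl

end TDC
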