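import Pool.Agent.TDC.StN2
import Pool.Agent.TDC.INJ

/-!
# TDN, NE2a: the boundary term in the coordinates `(x - a, g)`
-/

namespace TDC

open scoped Topology
open MeasureTheory

/-! ### cut-off functions -/

private theorem NE2a_psi_smooth : ContDiff ℝ (⊤ : ℕ∞) psiC := by
  unfold psiC
  exact Real.smoothTransition.contDiff.comp ((contDiff_const.mul contDiff_id).sub contDiff_const)

private theorem NE2a_dpsi_cont : Continuous (deriv psiC) :=
  NE2a_psi_smooth.continuous_deriv (by simp)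

private theorem NE2a_dpsi (u : ℝ) (hu : u < 1 / 2) : deriv psiC u = 0 := by
  have h1 : psiC =ᶠ[𝓝 u] fun _ => (0 : ℝ) := by
    filter_upwards [Iio_mem_nhds hu] with w hw
    have hw' : w < 1 / 2 := hw
    exact Real.smoothTransition.zero_of_nonpos (by linarith)
  rw [h1.deriv_eq]
  exact deriv_const u 0

private theorem NE2a_kap_cont : Continuous kapC := by
  unfold kapC
  exact Real.smoothTransition.continuous.comp
    ((continuous_const.mul continuous_id).add continuous_const)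

private theorem NE2a_kap (z : ℝ) (hz : z ≤ -(1 / 4)) : kapC z = 0 :=
  Real.smoothTransition.zero_of_nonpos (by linarith)

private theorem NE2a_kap0 : kapC 0 = 1 :=
  Real.smoothTransition.one_of_one_le (by norm_num)

private theorem NE2a_psikap (z ε : ℝ) :
    deriv psiC (-z / ε) * kapC (z / ε) = 0 := by
  by_cases h : z / ε ≤ -(1 / 4)
  · rw [NE2a_kap _ h, mul_zero]
  · rw [NE2a_dpsi, zero_mul]
    rw [neg_div]
    push Not at h
    linarith

/-! ### the form `dp_i ∧ γ` -/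

/-- `dp_i ∧ γ` as an alternating map -/
private noncomputable def NE2a_om {R R' m : ℕ} (γ : (Fin R → ℝ) [⋀^Fin m]→L[ℝ] ℝ)
    (a : Fin R → Fin R') (i : Fin R') : (Fin R' → ℝ) [⋀^Fin (m + 1)]→ₗ[ℝ] ℝ :=
  AlternatingMap.alternatizeUncurryFin
    ((LinearMap.proj i : (Fin R' → ℝ) →ₗ[ℝ] ℝ).smulRight
      (γ.toAlternatingMap.compLinearMap (INJ_pr a).toLinearMap))

private theorem NE2a_om_apply {R R' m : ℕ} (γ : (Fin R → ℝ) [⋀^Fin m]→L[ℝ] ℝ)
    (a : Fin R → Fin R') (i : Fin R') (w : Fin (m + 1) → Fin R' → ℝ) :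
    NE2a_om γ a i w = ∑ j : Fin (m + 1), (-1 : ℝ) ^ (j : ℕ) * w j i *
      γ (fun l => (w (j.succAbove l)) ∘ a) := by
  unfold NE2a_om
  rw [AlternatingMap.alternatizeUncurryFin_apply]
  refine Finset.sum_congr rfl fun j _ => ?_
  rw [zsmul_eq_mul, Int.cast_pow, Int.cast_neg, Int.cast_one, mul_assoc]
  rfl

private theorem NE2a_alt {R m : ℕ} (ω : (Fin R → ℝ) [⋀^Fin (m + 1)]→ₗ[ℝ] ℝ)
    (A : Matrix (Fin R) (Fin (m + 1)) ℝ) (b : Matrix (Fin (m + 1)) (Fin (m + 1)) ℝ) :
    ω (fun j => (A * b).mulVec (Pi.single j 1)) =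
      b.det * ω (fun j => A.mulVec (Pi.single j 1)) := by
  have h := AlternatingMap.eq_smul_basis_det (Pi.basisFun ℝ (Fin (m + 1)))
    (ω.compLinearMap A.mulVecLin)
  have h1 := DFunLike.congr_fun h (fun j => b.mulVec (Pi.single j 1))
  rw [AlternatingMap.smul_apply] at h1
  have h2 : ω (fun j => (A * b).mulVec (Pi.single j 1)) =
      (ω.compLinearMap A.mulVecLin) fun j => b.mulVec (Pi.single j 1) := by
    show ω _ = ω _
    congr 1
    funext j
    show (A * b).mulVec (Pi.single j 1) = A.mulVec (b.mulVec (Pi.single j 1))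
    rw [Matrix.mulVec_mulVec]
  have h3 : (ω.compLinearMap A.mulVecLin) (Pi.basisFun ℝ (Fin (m + 1))) =
      ω (fun j => A.mulVec (Pi.single j 1)) := by
    show ω _ = ω _
    congr 1
    funext j
    show A.mulVec (Pi.basisFun ℝ (Fin (m + 1)) j) = _
    rw [Pi.basisFun_apply]
  have h4 : (Pi.basisFun ℝ (Fin (m + 1))).det (fun j => b.mulVec (Pi.single j 1)) = b.det := by
    rw [Pi.basisFun_det_apply, ← Matrix.det_transpose]
    congr 1
    ext i j
    rw [Matrix.transpose_apply]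
    show b.mulVec (Pi.single j 1) i = b i j
    rw [Matrix.mulVec_single_one]
    rfl
  rw [h2, h1, h3, h4, smul_eq_mul, mul_comm]

private theorem NE2a_cofB {m R R' : ℕ} (γ : SF R (m + 1) m) (a : Fin R → Fin R') (i : Fin R')
    (p : Fin R' → ℝ) (A : Matrix (Fin R') (Fin (m + 1)) ℝ) :
    cofB γ a i p A = ∑ I : Fin (m + 1) → Fin R, (A.submatrix (a ∘ I) id).det *
      NE2a_om (γ I (p ∘ a)) a i (fun j => A.mulVec (Pi.single j 1)) := by
  unfold cofB
  refine Finset.sum_congr rfl fun I _ => ?_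
  rw [NE2a_om_apply]
  congr 1
  refine Finset.sum_congr rfl fun j _ => ?_
  have h1 : A.mulVec (Pi.single j 1) i = A i j := by
    rw [Matrix.mulVec_single_one]
    rfl
  rw [h1]

private theorem NE2a_cofB_mul {m R R' : ℕ} (γ : SF R (m + 1) m) (a : Fin R → Fin R')
    (i : Fin R') (p : Fin R' → ℝ) (A : Matrix (Fin R') (Fin (m + 1)) ℝ)
    (b : Matrix (Fin (m + 1)) (Fin (m + 1)) ℝ) :
    cofB γ a i p (A * b) = b.det ^ 2 * cofB γ a i p A := by
  rw [NE2a_cofB, NE2a_cofB, Finset.mul_sum]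
  refine Finset.sum_congr rfl fun I _ => ?_
  have h1 : (A * b).submatrix (a ∘ I) id = A.submatrix (a ∘ I) id * b := by
    ext i j
    rfl
  rw [NE2a_alt, h1, Matrix.det_mul]
  ring

private theorem NE2a_cofB_cont {m R R' : ℕ} (γ : SF R (m + 1) m) (hγ : γ.PC)
    (a : Fin R → Fin R') (i : Fin R') (A : Matrix (Fin R') (Fin (m + 1)) ℝ) :
    Continuous fun p => cofB γ a i p A := by
  unfold cofB
  refine continuous_finsetSum _ fun I _ => continuous_const.mul
    (continuous_finsetSum _ fun j _ => continuous_const.mul ?_)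
  have h1 : Continuous fun p : Fin R' → ℝ => γ I (p ∘ a) :=
    (hγ I).1.continuous.comp (INJ_pr a).continuous
  exact h1.eval_const _

/-! ### linear algebra -/

private theorem NE2a_exch {m R' : ℕ} (A : Matrix (Fin R') (Fin (m + 1)) ℝ)
    (I : Fin (m + 1) → Fin R') (i : Fin R') (hI : (A.submatrix I id).det ≠ 0)
    (hi : A i ≠ 0) : ∃ j : Fin (m + 1),
      (A.submatrix (Fin.cons i (I ∘ j.succAbove) : Fin (m + 1) → Fin R') id).det ≠ 0 := by
  by_contra hcon
  push Not at hcon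
  apply hi
  have h0 : ∀ j : Fin (m + 1), ((A.submatrix I id).updateRow j (A i)).det = 0 := by
    intro j
    have h1 : (A.submatrix I id).updateRow j (A i) =
        (A.submatrix (Fin.cons i (I ∘ j.succAbove) : Fin (m + 1) → Fin R') id).submatrix
          j.cycleRange id := by
      ext l c
      have h2 : (Fin.cons i (I ∘ j.succAbove) : Fin (m + 1) → Fin R') (j.cycleRange l) =
          (j.insertNth i (I ∘ j.succAbove) : Fin (m + 1) → Fin R') l :=
        congrFun (Fin.cons_comp_cycleRange i (I ∘ j.succAbove) j) l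
      rw [Matrix.submatrix_apply, Matrix.submatrix_apply, h2]
      refine Fin.succAboveCases j ?_ (fun l => ?_) l
      · rw [Matrix.updateRow_self, Fin.insertNth_apply_same]
        rfl
      · rw [Matrix.updateRow_ne (Fin.succAbove_ne j l), Fin.insertNth_apply_succAbove]
        rfl
    rw [h1, Matrix.det_permute, hcon j, mul_zero]
  have h1 : Matrix.cramer (A.submatrix I id).transpose (A i) = 0 := by
    funext j
    rw [Matrix.cramer_transpose_apply]
    exact h0 j
  have h2 := Matrix.mulVec_cramer (A.submatrix I id).transpose (A i)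
  rw [h1, Matrix.mulVec_zero, Matrix.det_transpose] at h2
  exact (smul_eq_zero.1 h2.symm).resolve_left hI

private theorem NE2a_af {R n : ℕ} (J : Fin n → Fin R)
    (k : Matrix (Fin R) (Fin n) ℝ × (Fin R → ℝ)) (u : Fin n → ℝ) :
    af k u ∘ J = k.2 ∘ J + (k.1.submatrix J id).mulVec u := by
  funext i
  simp [af, Matrix.mulVec, dotProduct]

private theorem NE2a_cpt {n : ℕ} (M : Matrix (Fin n) (Fin n) ℝ) (v : Fin n → ℝ)
    (hM : M.det ≠ 0) (C : Set (Fin n → ℝ)) (hC : IsCompact C) :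
    IsCompact {s | v + M.mulVec s ∈ C} := by
  have h : {s | v + M.mulVec s ∈ C} = (fun y => (M⁻¹).mulVec (y - v)) '' C := by
    ext s
    constructor
    · intro hs
      refine ⟨_, hs, ?_⟩
      show (M⁻¹).mulVec (v + M.mulVec s - v) = s
      rw [add_sub_cancel_left, Matrix.mulVec_mulVec,
        Matrix.nonsing_inv_mul _ (isUnit_iff_ne_zero.2 hM), Matrix.one_mulVec]
    · rintro ⟨y, hy, rfl⟩
      show v + M.mulVec ((M⁻¹).mulVec (y - v)) ∈ C
      rw [Matrix.mulVec_mulVec, Matrix.mul_nonsing_inv _ (isUnit_iff_ne_zero.2 hM),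
        Matrix.one_mulVec, add_sub_cancel]
      exact hy
  rw [h]
  exact hC.image (Continuous.matrix_mulVec continuous_const (continuous_id.sub continuous_const))

private theorem NE2a_supp {m R R' : ℕ} (γ : SF R (m + 1) m) (hγ : γ.PC) (a : Fin R → Fin R')
    (i : Fin R') (𝒦' : Finset (Matrix (Fin R') (Fin (m + 1)) ℝ × (Fin R' → ℝ))) :
    ∃ C : Set (Fin (m + 1) → ℝ), IsCompact C ∧
      ∀ k ∈ 𝒦', ∀ s, s ∉ C → cofB γ a i (af k s) k.1 = 0 := by
  classical
  choose C hC hC0 using fun I => (hγ I).2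
  refine ⟨⋃ k ∈ 𝒦', ⋃ I : Fin (m + 1) → Fin R,
    if (k.1.submatrix (a ∘ I) id).det ≠ 0 then
      {s | k.2 ∘ (a ∘ I) + (k.1.submatrix (a ∘ I) id).mulVec s ∈ C I} else ∅, ?_, ?_⟩
  · refine 𝒦'.isCompact_biUnion fun k _ => isCompact_iUnion fun I => ?_
    split_ifs with h
    · exact NE2a_cpt _ _ h _ (hC I)
    · exact isCompact_empty
  · intro k hk s hs
    rw [NE2a_cofB]
    refine Finset.sum_eq_zero fun I _ => ?_
    by_cases h : (k.1.submatrix (a ∘ I) id).det = 0
    · rw [h, zero_mul]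
    · have h1 : γ I (af k s ∘ a) = 0 := by
        refine hC0 I _ fun hmem => hs ?_
        refine Set.mem_iUnion₂.2 ⟨k, hk, Set.mem_iUnion.2 ⟨I, ?_⟩⟩
        rw [if_pos h]
        show k.2 ∘ (a ∘ I) + (k.1.submatrix (a ∘ I) id).mulVec s ∈ C I
        rw [← NE2a_af]
        exact hmem
      rw [h1, NE2a_om_apply]
      refine mul_eq_zero_of_right _ (Finset.sum_eq_zero fun j _ => ?_)
      exact mul_zero _

section pts

variable {K L : Type} [NontriviallyNormedField K] [IsUltrametricDist K] [Field L] [Algebra K L]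

omit [IsUltrametricDist K] in
private theorem NE2a_hom {M : Type} [Field M] {m : ℕ} (δ : Additive Mˣ →+ ℝ) (g : Fin m → Mˣ)
    (k : Fin m → ℤ) :
    δ (Additive.ofMul (∏ i, g i ^ k i)) = ∑ i, (k i : ℝ) * δ (Additive.ofMul (g i)) := by
  rw [ofMul_prod, map_sum]
  refine Finset.sum_congr rfl fun i _ => ?_
  rw [ofMul_zpow, map_zsmul, zsmul_eq_mul]

omit [IsUltrametricDist K] in
private theorem NE2a_ind {R n : ℕ} {y : Pt (algebraMap K L)} (F : Fin R → Lˣ)
    (J : Fin n → Fin R) (M : Matrix (Fin R) (Fin n) ℝ) (δ : Fin n → Tan y)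
    (h : ∀ j, ev F (δ j) = M.mulVec (Pi.single j 1)) (hd : (M.submatrix J id).det ≠ 0) :
    Indep y (F ∘ J) := by
  rintro k ⟨a, ha⟩
  have h1 : ∀ j, ∑ i, (k i : ℝ) * M (J i) j = 0 := by
    intro j
    have h2 := (δ j).2 (∏ i, (F ∘ J) i ^ k i) ⟨a, ha⟩
    rw [NE2a_hom] at h2
    rw [← h2]
    refine Finset.sum_congr rfl fun i _ => ?_
    congr 1
    have h3 := congrFun (h j) (J i)
    rw [Matrix.mulVec_single_one] at h3
    exact h3.symm
  have h2 : Matrix.vecMul (fun i => (k i : ℝ)) (M.submatrix J id) = 0 := by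
    funext j
    exact h1 j
  have h3 := Matrix.eq_zero_of_vecMul_eq_zero hd h2
  funext i
  have h4 : (k i : ℝ) = 0 := congrFun h3 i
  show k i = 0
  exact_mod_cast h4

omit [IsUltrametricDist K] in
private theorem NE2a_pt (hEmG : St_EmG) {R n : ℕ} (g : Fin n → Lˣ) (F : Fin R → Lˣ)
    (u : Fin n → ℝ) (p : Fin R → ℝ) (h : cw K g F u p ≠ 0) :
    ∃ y : Pt (algebraMap K L), Gauss y g ∧ logv y g = u ∧ logv y F = p := by
  unfold cw at h
  split_ifs at h with hx
  · unfold wtS at h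
    have hne : (Emb K g ∩ {σ | logv (pb σ hx.choose) F = p}).ncard ≠ 0 := by
      intro h0
      apply h
      rw [h0]
      simp
    obtain ⟨σ, hσ⟩ := Set.nonempty_of_ncard_ne_zero hne
    have := hEmG.1 K L n g hx.choose u hx.choose_spec σ hσ.1
    exact ⟨pb σ hx.choose, this.1, this.2, hσ.2⟩
  · exact absurd rfl h

omit [IsUltrametricDist K] in
/-- (2): the sheets which contribute are parametrized by `F ∘ J` -/
private theorem NE2a_deg (hTng : St_Tng) {m R R' : ℕ} (hTr : TrLe K L (m + 1))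
    {y : Pt (algebraMap K L)} (F' : Fin R' → Lˣ) (a : Fin R → Fin R')
    (ζ J : Fin (m + 1) → Fin R') (jx : Fin R') (M : Matrix (Fin R') (Fin (m + 1)) ℝ)
    (hy : Indep y (F' ∘ ζ)) (hM : ∀ ε : Tan y, ev F' ε = M.mulVec (ev (F' ∘ ζ) ε))
    (hJ : ∀ J' : Fin m → Fin R, Indep y (F' ∘ (Fin.cons jx (a ∘ J') : Fin (m + 1) → Fin R')) →
      Indep y (F' ∘ J))
    (γ : SF R (m + 1) m) (p : Fin R' → ℝ) (hB : cofB γ a jx p M ≠ 0) :
    (M.submatrix J id).det ≠ 0 := by
  have hδ : ∀ j : Fin (m + 1), ∃ δ : Tan y, ev (F' ∘ ζ) δ = Pi.single j 1 := fun j =>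
    (hTng K L (m + 1) hTr y (F' ∘ ζ) hy).1 _
  choose δ hδ using hδ
  have hev : ∀ j, ev F' (δ j) = M.mulVec (Pi.single j 1) := fun j => by
    rw [hM (δ j), hδ j]
  rw [NE2a_cofB] at hB
  obtain ⟨I, -, hI⟩ := Finset.exists_ne_zero_of_sum_ne_zero hB
  have hI1 : (M.submatrix (a ∘ I) id).det ≠ 0 := left_ne_zero_of_mul hI
  have hI2 := right_ne_zero_of_mul hI
  rw [NE2a_om_apply] at hI2
  obtain ⟨j, -, hj⟩ := Finset.exists_ne_zero_of_sum_ne_zero hI2
  have hrow : M jx ≠ 0 := by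
    intro h0
    apply hj
    have h1 : M.mulVec (Pi.single j 1) jx = M jx j := by
      rw [Matrix.mulVec_single_one]
      rfl
    rw [h1, h0]
    simp
  obtain ⟨l, hl⟩ := NE2a_exch M (a ∘ I) jx hI1 hrow
  have hind : Indep y (F' ∘ J) := hJ (I ∘ l.succAbove) (NE2a_ind F' _ M δ hev hl)
  have hsurj : Function.Surjective (M.submatrix J id).mulVec := by
    intro v
    obtain ⟨ε, hε⟩ := (hTng K L (m + 1) hTr y (F' ∘ J) hind).1 v
    refine ⟨ev (F' ∘ ζ) ε, ?_⟩
    rw [← hε]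
    have h1 := hM ε
    funext i
    have h2 := congrFun h1 (J i)
    exact h2.symm
  have h3 := Matrix.mulVec_surjective_iff_isUnit.1 hsurj
  exact ((Matrix.isUnit_iff_isUnit_det _).1 h3).ne_zero

omit [IsUltrametricDist K] in
private theorem NE2a_gen (hGNl : St_GNl) (n : ℕ) (hc : (Set.range fun a : K => ‖a‖).Countable) :
    ∀ᵐ u : Fin n → ℝ, Generic K u := by
  have := hGNl K n hc 1 0 (by simp)
  simpa using this

omit [IsUltrametricDist K] in
/-- (2): the sheets not parametrized by `F ∘ J` do not contribute -/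
private theorem NE2a_zero (hGNl : St_GNl) (hEmG : St_EmG) (hTng : St_Tng) {m R R' : ℕ}
    (hTr : TrLe K L (m + 1)) (hc : (Set.range fun a : K => ‖a‖).Countable)
    (F' : Fin R' → Lˣ) (a : Fin R → Fin R') (ζ J : Fin (m + 1) → Fin R') (jx : Fin R')
    (𝒦 : Finset (Matrix (Fin R') (Fin (m + 1)) ℝ × (Fin R' → ℝ))) (hSh : Sheets K F' ζ 𝒦)
    (hJ : ∀ (y : Pt (algebraMap K L)) (J' : Fin m → Fin R),
      Indep y (F' ∘ (Fin.cons jx (a ∘ J') : Fin (m + 1) → Fin R')) → Indep y (F' ∘ J))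
    (γ : SF R (m + 1) m) :
    ∀ᵐ u : Fin (m + 1) → ℝ, ∀ k ∈ 𝒦, (k.1.submatrix J id).det = 0 →
      cw K (F' ∘ ζ) F' u (af k u) * cofB γ a jx (af k u) k.1 = 0 := by
  filter_upwards [NE2a_gen (K := K) hGNl (m + 1) hc, INJ_ae_inj 𝒦] with u hu hinj
  intro k hk hdet
  by_contra hne
  obtain ⟨y, hy1, hy2, hy3⟩ := NE2a_pt (K := K) hEmG (F' ∘ ζ) F' u (af k u)
    (left_ne_zero_of_mul hne)
  have hind : Indep y (F' ∘ ζ) := (hEmG.2.2 K L (m + 1) (F' ∘ ζ) y).2 (by rw [hy2]; exact hu)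
  obtain ⟨k', hk', hk1, hk2⟩ := hSh.2 y hy1
  have hkk : k' = k := by
    apply hinj k' hk' k hk
    rw [← hy3, hk1, hy2]
  subst hkk
  exact NE2a_deg hTng hTr F' a ζ J jx k'.1 hind hk2 (hJ y) γ (af k' u)
    (right_ne_zero_of_mul hne) hdet

end pts

/-! ### the sheets over `F ∘ J` -/

private theorem NE2a_rp1 {R n : ℕ} (J : Fin n → Fin R)
    (k : Matrix (Fin R) (Fin n) ℝ × (Fin R → ℝ)) (hk : (k.1.submatrix J id).det ≠ 0) :
    (rp J k).1.submatrix J id = 1 := by
  have h2 : (rp J k).1.submatrix J id = (k.1.submatrix J id) * (k.1.submatrix J id)⁻¹ := by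
    ext i j
    rfl
  rw [h2, Matrix.mul_nonsing_inv _ (isUnit_iff_ne_zero.2 hk)]

private theorem NE2a_rpaf {R n : ℕ} (J : Fin n → Fin R)
    (k : Matrix (Fin R) (Fin n) ℝ × (Fin R → ℝ)) (hk : (k.1.submatrix J id).det ≠ 0)
    (s : Fin n → ℝ) : af (rp J k) s ∘ J = s := by
  have h2 : (rp J k).2 ∘ J = k.2 ∘ J - ((rp J k).1.submatrix J id).mulVec (k.2 ∘ J) := by
    funext i
    rfl
  rw [NE2a_af, h2, NE2a_rp1 J k hk, Matrix.one_mulVec, Matrix.one_mulVec, sub_self, zero_add]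

private theorem NE2a_cof0 {m R R' : ℕ} (γ : SF R (m + 1) m) (a : Fin R → Fin R') (i : Fin R')
    (p : Fin R' → ℝ) (A : Matrix (Fin R') (Fin (m + 1)) ℝ)
    (hA : ∀ j, A i j = if j = 0 then 1 else 0) :
    cofB γ a i p A = ∑ I : Fin (m + 1) → Fin R, (A.submatrix (a ∘ I) id).det *
      γ I (p ∘ a) (fun l => (A.mulVec (Pi.single l.succ 1)) ∘ a) := by
  unfold cofB
  refine Finset.sum_congr rfl fun I _ => ?_
  congr 1
  rw [Finset.sum_eq_single (0 : Fin (m + 1))]
  · rw [hA, if_pos rfl]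
    simp only [Fin.val_zero, pow_zero, one_mul, Fin.zero_succAbove]
  · intro j _ hj
    rw [hA, if_neg hj]
    simp
  · intro h
    exact absurd (Finset.mem_univ _) h

private theorem NE2a_row {R n : ℕ} (k : Matrix (Fin R) (Fin n) ℝ × (Fin R → ℝ)) (j : Fin R) :
    ∀ᵐ s : Fin n → ℝ, af k s j = 0 → (∀ i, k.1 j i = 0) ∧ k.2 j = 0 := by
  by_cases h : (∀ i, k.1 j i = 0) ∧ k.2 j = 0
  · exact Filter.Eventually.of_forall fun _ _ => h
  · have hne : ((Matrix.of fun (_ : Fin 1) i => k.1 j i, fun _ : Fin 1 => k.2 j) :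
        Matrix (Fin 1) (Fin n) ℝ × (Fin 1 → ℝ)) ≠ (0, 0) := by
      intro h0
      apply h
      constructor
      · intro i
        exact congrFun (congrFun (congrArg Prod.fst h0) 0) i
      · exact congrFun (congrArg Prod.snd h0) 0
    filter_upwards [INJ_ae_ne _ _ hne] with s hs h0
    exfalso
    apply hs
    funext i
    have h1 : af ((Matrix.of fun (_ : Fin 1) i => k.1 j i, fun _ : Fin 1 => k.2 j) :
        Matrix (Fin 1) (Fin n) ℝ × (Fin 1 → ℝ)) s i = af k s j := rfl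
    rw [h1, h0]
    simp [af]

section cut

variable {K L : Type} [NontriviallyNormedField K] [IsUltrametricDist K] [Field L] [Algebra K L]

/-- (3): the cut-off selects the sheets in the tube -/
private theorem NE2a_cut (hNTub : St_NTub) (hEmG : St_EmG) {m : ℕ} (c : ℂ →+* K) (x y : L)
    (t : Fin m → Lˣ) (hH : NHyp c x y t) (Q : ℂ × ℂ) (hQ : GoodE Q) {R' : ℕ}
    (F' : Fin R' → Lˣ) (J : Fin (m + 1) → Fin R') (jx jy : Fin R')
    (𝒦 : Finset (Matrix (Fin R') (Fin (m + 1)) ℝ × (Fin R' → ℝ))) (hJ0 : J 0 = jx)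
    (hjx : F' jx = xa c x Q.1) (hjy : F' jy = yb c y Q.2) (ε : ℝ) (hε : 0 < ε) :
    ∀ᵐ s : Fin (m + 1) → ℝ, ∀ k ∈ 𝒦, (k.1.submatrix J id).det ≠ 0 →
      cw K (F' ∘ J) F' s (af (rp J k) s) * (1 / ε * deriv psiC (-(af (rp J k) s jx) / ε) *
        kapC (af (rp J k) s jy / ε)) = 1 / ε * deriv psiC (-(s 0) / ε) * wQ K F' J jy k s := by
  have h0 : ∀ᵐ s : Fin (m + 1) → ℝ, ∀ k ∈ 𝒦, af (rp J k) s jy = 0 →
      (∀ i, (rp J k).1 jy i = 0) ∧ (rp J k).2 jy = 0 := by
    rw [Filter.eventually_all_finset]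
    intro k _
    exact NE2a_row (rp J k) jy
  filter_upwards [h0] with s hs
  intro k hk hdet
  have hx : af (rp J k) s jx = s 0 := by
    rw [← hJ0]
    exact congrFun (NE2a_rpaf J k hdet s) 0
  rw [hx]
  rcases le_or_gt 0 (s 0) with h | h
  · have h1 : deriv psiC (-(s 0) / ε) = 0 := by
      apply NE2a_dpsi
      have h2 : -(s 0) / ε ≤ 0 := div_nonpos_of_nonpos_of_nonneg (by linarith) hε.le
      linarith
    rw [h1]
    ring
  · by_cases hcw : cw K (F' ∘ J) F' s (af (rp J k) s) = 0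
    · have h1 : wQ K F' J jy k s = 0 := by
        unfold wQ
        split_ifs
        · exact hcw
        · rfl
      rw [hcw, h1]
      ring
    · obtain ⟨v, hv1, hv2, hv3⟩ := NE2a_pt (K := K) hEmG (F' ∘ J) F' s (af (rp J k) s) hcw
      have hvx : Real.log (v.v (xa c x Q.1)) = s 0 := by
        rw [← hx, ← hjx]
        exact congrFun hv3 jx
      have hvy : Real.log (v.v (yb c y Q.2)) = af (rp J k) s jy := by
        rw [← hjy]
        exact congrFun hv3 jy
      rcases (hNTub K L m c x y t hH).1 Q hQ v (by rw [hvx]; exact h) with ⟨-, h2⟩ | ⟨-, h2⟩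
      · rw [hvy] at h2
        have h3 : wQ K F' J jy k s = cw K (F' ∘ J) F' s (af (rp J k) s) := by
          unfold wQ
          rw [if_pos (hs k hk h2)]
        rw [h2, h3, zero_div, NE2a_kap0]
        ring
      · rw [hvy, hvx] at h2
        have h3 : wQ K F' J jy k s = 0 := by
          unfold wQ
          rw [if_neg]
          rintro ⟨h4, h5⟩
          have h6 : af (rp J k) s jy = 0 := by
            show (rp J k).2 jy + ∑ i, (rp J k).1 jy i * s i = 0
            rw [h5]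
            simp [h4]
          rw [h2] at h6
          exact h.ne h6
        rw [h2, h3]
        have h4 := NE2a_psikap (s 0) ε
        linear_combination (cw K (F' ∘ J) F' s (af (rp J k) s) * (1 / ε)) * h4

end cut

theorem thm_NE2a : St_NBas → St_NTub → St_NTrG → St_NMea → St_EmG → St_EmF → St_GNl →
    St_GEx → St_Tng → St_IndG → St_NE2a := by
  intro hNBas hNTub hNTrG _ hEmG _ hGNl _ hTng _
  intro K L _ _ _ _ m c x y t hH g _ R F hF Q hQ R' F' a ζ jx jy ig 𝒦 hFa hFig hSh hjx hjy hRef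
    γ hγ ε hε
  classical
  obtain ⟨hTr, hFG, -⟩ := hNBas K L m c x y t hH
  have hc := hH.cnt
  generalize hJdef : (Fin.cons jx ig : Fin (m + 1) → Fin R') = J at hRef ⊢
  have hJ0 : J 0 = jx := by
    rw [← hJdef]
    rfl
  have hFJ : F' ∘ J = cx c x Q.1 g := by
    rw [← hJdef]
    funext i
    refine Fin.cases ?_ (fun i => ?_) i
    · exact hjx
    · exact congrFun hFig i
  have hJ : ∀ (v : Pt (algebraMap K L)) (J' : Fin m → Fin R),
      Indep v (F' ∘ (Fin.cons jx (a ∘ J') : Fin (m + 1) → Fin R')) → Indep v (F' ∘ J) := by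
    intro v J' hv
    rw [hFJ]
    apply hF Q.1 J' v
    have h1 : F' ∘ (Fin.cons jx (a ∘ J') : Fin (m + 1) → Fin R') = cx c x Q.1 (F ∘ J') := by
      funext i
      refine Fin.cases ?_ (fun i => ?_) i
      · exact hjx
      · show F' (a (J' i)) = F (J' i)
        rw [← hFa]
        rfl
    rw [← h1]
    exact hv
  let χ : (Fin R' → ℝ) → ℝ := fun p => 1 / ε * deriv psiC (-(p jx) / ε) * kapC (p jy / ε)
  have hχ : Continuous χ := by
    have h0 : ∀ j : Fin R', Continuous fun p : Fin R' → ℝ => p j := fun j => continuous_apply j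
    have h1 : Continuous fun p : Fin R' → ℝ => deriv psiC (-(p jx) / ε) :=
      NE2a_dpsi_cont.comp ((h0 jx).neg.div_const ε)
    have h2 : Continuous fun p : Fin R' → ℝ => kapC (p jy / ε) :=
      NE2a_kap_cont.comp ((h0 jy).div_const ε)
    exact (continuous_const.mul h1).mul h2
  obtain ⟨C, hC, hC0⟩ := NE2a_supp γ hγ a jx
    ((𝒦.filter fun k => (k.1.submatrix J id).det ≠ 0).image (rp J))
  have hT := hNTrG K L (m + 1) R' (Nat.succ_pos m) hTr hFG hc F' ζ J 𝒦 hSh hRef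
    (fun p A => χ p * cofB γ a jx p A) C
    (fun p A b => by
      show χ p * cofB γ a jx p (A * b) = b.det ^ 2 * (χ p * cofB γ a jx p A)
      rw [NE2a_cofB_mul]
      ring)
    (fun A => hχ.mul (NE2a_cofB_cont γ hγ a jx A)) hC
    (fun k hk hdet s hs => by
      show χ _ * cofB γ a jx _ _ = 0
      rw [hC0 (rp J k) (Finset.mem_image_of_mem _ (Finset.mem_filter.2 ⟨hk, hdet⟩)) s hs,
        mul_zero])
  have hz := NE2a_zero hGNl hEmG hTng hTr hc F' a ζ J jx 𝒦 hSh hJ γ
  have hcut := NE2a_cut hNTub hEmG c x y t hH Q hQ F' J jx jy 𝒦 hJ0 hjx hjy ε hε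
  let f : Matrix (Fin R') (Fin (m + 1)) ℝ × (Fin R' → ℝ) → (Fin (m + 1) → ℝ) → ℝ :=
    fun k u => cw K (F' ∘ ζ) F' u (af k u) * (χ (af k u) * cofB γ a jx (af k u) k.1)
  let h : Matrix (Fin R') (Fin (m + 1)) ℝ × (Fin R' → ℝ) → (Fin (m + 1) → ℝ) → ℝ :=
    fun k s => cw K (F' ∘ J) F' s (af (rp J k) s) *
      (χ (af (rp J k) s) * cofB γ a jx (af (rp J k) s) (rp J k).1)
  have hfz : ∀ k ∈ 𝒦, (k.1.submatrix J id).det = 0 → f k =ᵐ[volume] fun _ => (0 : ℝ) := by
    intro k hk hdet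
    filter_upwards [hz] with u hu
    have h1 := hu k hk hdet
    show cw K (F' ∘ ζ) F' u (af k u) * (χ (af k u) * cofB γ a jx (af k u) k.1) = 0
    linear_combination χ (af k u) * h1
  have hfi : ∀ k ∈ 𝒦, Integrable (f k) := by
    intro k hk
    by_cases hdet : (k.1.submatrix J id).det = 0
    · exact (integrable_zero _ _ _).congr (hfz k hk hdet).symm
    · exact (hT k hk hdet).1
  refine ⟨integrable_finsetSum _ fun k hk => hfi k hk, ?_⟩
  have e1 : ∫ u, ∑ k ∈ 𝒦, f k u = ∑ k ∈ 𝒦, ∫ u, f k u :=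
    integral_finsetSum _ fun k hk => hfi k hk
  have e2 : ∑ k ∈ 𝒦, ∫ u, f k u =
      ∑ k ∈ 𝒦 with (k.1.submatrix J id).det ≠ 0, ∫ s, h k s := by
    rw [Finset.sum_filter]
    refine Finset.sum_congr rfl fun k hk => ?_
    split_ifs with hdet
    · exact (hT k hk hdet).2.2
    · rw [integral_congr_ae (hfz k hk (not_not.1 hdet)), integral_zero]
  have e3 : ∑ k ∈ 𝒦 with (k.1.submatrix J id).det ≠ 0, ∫ s, h k s =
      ∫ s, ∑ k ∈ 𝒦 with (k.1.submatrix J id).det ≠ 0, h k s := by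
    refine (integral_finsetSum _ fun k hk => ?_).symm
    have hk' := Finset.mem_filter.1 hk
    exact (hT k hk'.1 hk'.2).2.1
  refine e1.trans (e2.trans (e3.trans (integral_congr_ae ?_)))
  filter_upwards [hcut] with s hs
  rw [Finset.mul_sum]
  refine Finset.sum_congr (by ext k; simp) fun k hk => ?_
  have hk' := Finset.mem_filter.1 hk
  have h1 := hs k hk'.1 hk'.2
  have hrow : ∀ j, (rp J k).1 jx j = if j = 0 then 1 else 0 := by
    intro j
    have h2 := congrFun (congrFun (NE2a_rp1 J k hk'.2) 0) j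
    rw [Matrix.one_apply] at h2
    have h3 : (rp J k).1 jx j = (rp J k).1.submatrix J id 0 j := by
      rw [← hJ0]
      rfl
    rw [h3, h2]
    by_cases hj : j = 0
    · rw [if_pos hj.symm, if_pos hj]
    · rw [if_neg (Ne.symm hj), if_neg hj]
  show cw K (F' ∘ J) F' s (af (rp J k) s) *
      ((1 / ε * deriv psiC (-(af (rp J k) s jx) / ε) * kapC (af (rp J k) s jy / ε)) *
        cofB γ a jx (af (rp J k) s) (rp J k).1) = _
  rw [← mul_assoc, h1, NE2a_cof0 γ a jx _ _ hrow, mul_assoc]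

end TDC
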