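import Pool.Agent.TDC.StN2

/-!
# TDN, module NFUn: finitely many rows, uniform in `a` (MP_f0f507_ag)
-/

set_option autoImplicit false

namespace TDC

open scoped Topology

private theorem NFUn_sum {K M : Type} [NormedField K] [Field M] {φ : K →+* M} (x : Pt φ)
    {ι : Type} (s : Finset ι) (f : ι → M) {C : ℝ} (hC : 0 < C) (h : ∀ i ∈ s, x.v (f i) < C) :
    x.v (∑ i ∈ s, f i) < C := by
  classical
  induction s using Finset.induction_on with
  | empty => simpa using hC
  | insert a s ha ih =>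
    rw [Finset.sum_insert ha]
    exact lt_of_le_of_lt (x.na _ _) (max_lt (h a (Finset.mem_insert_self a s))
      (ih fun i hi => h i (Finset.mem_insert_of_mem hi)))

private theorem NFUn_pos {K M : Type} [NormedField K] [Field M] {φ : K →+* M} (x : Pt φ)
    (f : Mˣ) : 0 < x.v (f : M) := x.v.pos f.ne_zero

private theorem NFUn_log {K M : Type} [NormedField K] [Field M] {φ : K →+* M} (x : Pt φ)
    {n : ℕ} (G0 : Mˣ) (g : Fin n → Mˣ) (k0 : ℤ) (k : Fin n → ℤ) :
    Real.log (x.v ((G0 ^ k0 * ∏ i, g i ^ k i : Mˣ) : M)) =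
      k0 * Real.log (x.v (G0 : M)) + ∑ i, (k i : ℝ) * Real.log (x.v (g i : M)) := by
  rw [Units.val_mul, Units.coe_prod, map_mul, map_prod, Real.log_mul, Real.log_prod]
  · congr 1
    · rw [Units.val_zpow_eq_zpow_val, map_zpow₀, Real.log_zpow]
    · refine Finset.sum_congr rfl fun i _ => ?_
      rw [Units.val_zpow_eq_zpow_val, map_zpow₀, Real.log_zpow]
  · intro i _
    exact (NFUn_pos x _).ne'
  · exact (NFUn_pos x _).ne'
  · exact Finset.prod_ne_zero_iff.2 fun i _ => (NFUn_pos x _).ne'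

private theorem NFUn_key {K L : Type} [NormedField K] [Field L] [Algebra K L] {n : ℕ}
    (x : Pt (algebraMap K L)) (g : Fin n → Lˣ) (G0 : Lˣ) (P : MvPolynomial (Fin (n + 1)) K)
    (hP : P ≠ 0)
    (h0 : MvPolynomial.aeval (Fin.cons (G0 : L) (fun i => (g i : L)) : Fin (n + 1) → L) P = 0)
    (hx : Gauss x g) :
    ∃ e ∈ P.support, ∃ e' ∈ P.support, e 0 ≠ e' 0 ∧
      Real.log (x.v (G0 : L)) * ((e' 0 : ℝ) - (e 0 : ℝ)) =
        Real.log ‖P.coeff e‖ - Real.log ‖P.coeff e'‖ +
          ∑ i : Fin n, ((e i.succ : ℝ) - (e' i.succ : ℝ)) * Real.log (x.v (g i : L)) ∧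
      ∀ ε : Tan x, ε.1 (Additive.ofMul G0) * ((e' 0 : ℝ) - (e 0 : ℝ)) =
        ∑ i : Fin n, ((e i.succ : ℝ) - (e' i.succ : ℝ)) * ε.1 (Additive.ofMul (g i)) := by
  classical
  set G : Fin (n + 1) → L := Fin.cons (G0 : L) (fun i => (g i : L)) with hG
  set tm : (Fin (n + 1) →₀ ℕ) → L := fun e => algebraMap K L (P.coeff e) * ∏ i, G i ^ e i with htm
  have hsum : ∑ e ∈ P.support, tm e = 0 := by
    rw [MvPolynomial.aeval_def, MvPolynomial.eval₂_eq'] at h0
    exact h0
  have hGpos : ∀ i, 0 < x.v (G i) := by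
    intro i
    refine Fin.cases ?_ (fun j => ?_) i
    · exact NFUn_pos x G0
    · exact NFUn_pos x (g j)
  have hcoef : ∀ e ∈ P.support, 0 < ‖P.coeff e‖ := by
    intro e he
    exact norm_pos_iff.2 (MvPolynomial.mem_support_iff.1 he)
  have hvtm : ∀ e, x.v (tm e) = ‖P.coeff e‖ * ∏ i, x.v (G i) ^ e i := by
    intro e
    simp only [htm]
    rw [map_mul, map_prod, x.ext]
    congr 1
    exact Finset.prod_congr rfl fun i _ => by rw [map_pow]
  have hprodpos : ∀ e : Fin (n + 1) →₀ ℕ, 0 < ∏ i, x.v (G i) ^ e i := fun e =>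
    Finset.prod_pos fun i _ => pow_pos (hGpos i) _
  have hlogtm : ∀ e ∈ P.support, Real.log (x.v (tm e)) = Real.log ‖P.coeff e‖ +
      ((e 0 : ℝ) * Real.log (x.v (G0 : L)) +
        ∑ i : Fin n, (e i.succ : ℝ) * Real.log (x.v (g i : L))) := by
    intro e he
    rw [hvtm, Real.log_mul (hcoef e he).ne' (hprodpos e).ne',
      Real.log_prod (fun i _ => (pow_pos (hGpos i) _).ne'), Fin.sum_univ_succ]
    congr 2
    · rw [Real.log_pow]
      rfl
    · refine Finset.sum_congr rfl fun i _ => ?_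
      rw [Real.log_pow]
      rfl
  obtain ⟨e, he, hmax⟩ := P.support.exists_max_image (fun e => x.v (tm e))
    (by rw [MvPolynomial.support_nonempty]; exact hP)
  have htpos : 0 < x.v (tm e) := by
    rw [hvtm]
    exact mul_pos (hcoef e he) (hprodpos e)
  have hS : x.v (tm e) ≤ x.v (∑ e' ∈ P.support.filter (fun e' => e' 0 = e 0), tm e') := by
    set Q : MvPolynomial (Fin n) K := ∑ e' ∈ P.support.filter (fun e' => e' 0 = e 0),
      MvPolynomial.monomial (Finsupp.tail e') (P.coeff e') with hQ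
    have hc : Q.coeff (Finsupp.tail e) = P.coeff e := by
      rw [hQ, MvPolynomial.coeff_sum, Finset.sum_eq_single e]
      · rw [MvPolynomial.coeff_monomial, if_pos rfl]
      · intro b hb hbe
        rw [Finset.mem_filter] at hb
        rw [MvPolynomial.coeff_monomial, if_neg]
        intro ht
        apply hbe
        rw [← Finsupp.cons_tail b, ← Finsupp.cons_tail e, ht, hb.2]
      · intro h
        exact absurd (Finset.mem_filter.2 (⟨he, rfl⟩ : e ∈ P.support ∧ e 0 = e 0)) h
    have hG1 := hx Q (Finsupp.tail e)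
    have hev : Q.eval₂ (algebraMap K L) (fun i => (g i : L)) =
        ∑ e' ∈ P.support.filter (fun e' => e' 0 = e 0),
          algebraMap K L (P.coeff e') * ∏ i, (g i : L) ^ e' i.succ := by
      rw [hQ, MvPolynomial.eval₂_sum]
      refine Finset.sum_congr rfl fun e' _ => ?_
      rw [MvPolynomial.eval₂_monomial, Finsupp.prod_fintype _ _ (fun i => pow_zero _)]
      rfl
    have hsplit : ∑ e' ∈ P.support.filter (fun e' => e' 0 = e 0), tm e' =
        (G0 : L) ^ e 0 * Q.eval₂ (algebraMap K L) (fun i => (g i : L)) := by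
      rw [hev, Finset.mul_sum]
      refine Finset.sum_congr rfl fun e' he' => ?_
      rw [Finset.mem_filter] at he'
      simp only [htm]
      rw [Fin.prod_univ_succ, he'.2]
      simp only [hG, Fin.cons_zero, Fin.cons_succ]
      ring
    rw [hsplit, hvtm, map_mul, map_pow, Fin.prod_univ_succ]
    have h1 : x.v (G 0) = x.v (G0 : L) := rfl
    have h2 : ∀ i : Fin n, x.v (G i.succ) = x.v (g i : L) := fun i => rfl
    rw [h1]
    have h3 : ∏ i : Fin n, x.v (G i.succ) ^ e i.succ =
        ∏ i : Fin n, x.v (g i : L) ^ (Finsupp.tail e) i :=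
      Finset.prod_congr rfl fun i _ => by rw [h2]; rfl
    rw [h3]
    rw [hc] at hG1
    calc ‖P.coeff e‖ * (x.v (G0 : L) ^ e 0 * ∏ i : Fin n, x.v (g i : L) ^ (Finsupp.tail e) i)
        = x.v (G0 : L) ^ e 0 * (‖P.coeff e‖ * ∏ i : Fin n, x.v (g i : L) ^ (Finsupp.tail e) i) := by
          ring
      _ ≤ _ := mul_le_mul_of_nonneg_left hG1 (pow_nonneg (x.v.nonneg _) _)
  obtain ⟨e', he', hne, heq⟩ : ∃ e' ∈ P.support, e' 0 ≠ e 0 ∧ x.v (tm e') = x.v (tm e) := by
    by_contra hc
    push Not at hc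
    have h1 : x.v (∑ e' ∈ P.support.filter (fun e' => ¬ e' 0 = e 0), tm e') < x.v (tm e) := by
      refine NFUn_sum x _ _ htpos fun e' he' => ?_
      rw [Finset.mem_filter] at he'
      exact lt_of_le_of_ne (hmax e' he'.1) (hc e' he'.1 he'.2)
    have h2 : ∑ e' ∈ P.support.filter (fun e' => e' 0 = e 0), tm e' =
        -∑ e' ∈ P.support.filter (fun e' => ¬ e' 0 = e 0), tm e' := by
      rw [eq_neg_iff_add_eq_zero, Finset.sum_filter_add_sum_filter_not]
      exact hsum
    rw [h2, AbsoluteValue.map_neg] at hS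
    exact absurd hS (not_le.2 h1)
  have hl1 := hlogtm e he
  have hl2 := hlogtm e' he'
  rw [heq] at hl2
  set k0 : ℤ := (e 0 : ℤ) - (e' 0 : ℤ) with hk0
  set k : Fin n → ℤ := fun i => (e i.succ : ℤ) - (e' i.succ : ℤ) with hk
  have hsumk : ∀ w : Fin n → ℝ, ∑ i, (k i : ℝ) * w i =
      ∑ i : Fin n, (e i.succ : ℝ) * w i - ∑ i : Fin n, (e' i.succ : ℝ) * w i := by
    intro w
    rw [← Finset.sum_sub_distrib]
    refine Finset.sum_congr rfl fun i _ => ?_
    simp only [hk]
    push_cast
    ring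
  have hk0r : (k0 : ℝ) = (e 0 : ℝ) - (e' 0 : ℝ) := by
    rw [hk0]
    push_cast
    ring
  have hval : ∃ b : K, ‖b‖ = x.v ((G0 ^ k0 * ∏ i, g i ^ k i : Lˣ) : L) := by
    refine ⟨P.coeff e' / P.coeff e, ?_⟩
    have hb : 0 < ‖P.coeff e' / P.coeff e‖ := by
      rw [norm_div]
      exact div_pos (hcoef e' he') (hcoef e he)
    refine Real.log_injOn_pos (Set.mem_Ioi.2 hb) (Set.mem_Ioi.2 (NFUn_pos x _)) ?_
    rw [NFUn_log, norm_div, Real.log_div (hcoef e' he').ne' (hcoef e he).ne',
      hsumk (fun i => Real.log (x.v (g i : L))), hk0r]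
    linarith
  have hne0 : e 0 ≠ e' 0 := fun h => hne h.symm
  refine ⟨e, he, e', he', hne0, ?_, ?_⟩
  · have h5 : ∑ i : Fin n, ((e i.succ : ℝ) - (e' i.succ : ℝ)) * Real.log (x.v (g i : L)) =
        ∑ i : Fin n, (e i.succ : ℝ) * Real.log (x.v (g i : L)) -
          ∑ i : Fin n, (e' i.succ : ℝ) * Real.log (x.v (g i : L)) := by
      rw [← Finset.sum_sub_distrib]
      exact Finset.sum_congr rfl fun i _ => by ring
    rw [h5]
    linarith
  · intro ε
    have h6 := ε.2 (G0 ^ k0 * ∏ i, g i ^ k i) hval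
    rw [ofMul_mul, map_add, ofMul_zpow, map_zsmul, ofMul_prod, map_sum] at h6
    have h7 : ∑ i, ε.1 (Additive.ofMul (g i ^ k i)) =
        ∑ i, (k i : ℝ) * ε.1 (Additive.ofMul (g i)) := by
      refine Finset.sum_congr rfl fun i _ => ?_
      rw [ofMul_zpow, map_zsmul, zsmul_eq_mul]
    rw [h7, zsmul_eq_mul, hsumk (fun i => ε.1 (Additive.ofMul (g i))), hk0r] at h6
    have h5 : ∑ i : Fin n, ((e i.succ : ℝ) - (e' i.succ : ℝ)) * ε.1 (Additive.ofMul (g i)) =
        ∑ i : Fin n, (e i.succ : ℝ) * ε.1 (Additive.ofMul (g i)) -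
          ∑ i : Fin n, (e' i.succ : ℝ) * ε.1 (Additive.ofMul (g i)) := by
      rw [← Finset.sum_sub_distrib]
      exact Finset.sum_congr rfl fun i _ => by ring
    rw [h5]
    linarith

private theorem NFUn_deg {K σ τ : Type} [Field K] (f : σ → MvPolynomial τ K)
    (hf : ∀ i, (f i).totalDegree ≤ 1) (P : MvPolynomial σ K) :
    (MvPolynomial.aeval f P).totalDegree ≤ P.totalDegree := by
  classical
  rw [MvPolynomial.aeval_def, MvPolynomial.eval₂_eq]
  refine (MvPolynomial.totalDegree_finset_sum _ _).trans (Finset.sup_le fun e he => ?_)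
  refine (MvPolynomial.totalDegree_mul _ _).trans ?_
  have h0 : ((algebraMap K (MvPolynomial τ K)) (MvPolynomial.coeff e P)).totalDegree = 0 :=
    MvPolynomial.totalDegree_C _
  rw [h0, zero_add]
  refine (MvPolynomial.totalDegree_finset_prod _ _).trans ?_
  refine le_trans ?_ (MvPolynomial.le_totalDegree he)
  rw [Finsupp.sum]
  refine Finset.sum_le_sum fun i _ => ?_
  refine (MvPolynomial.totalDegree_pow _ _).trans ?_
  calc e i * (f i).totalDegree ≤ e i * 1 := Nat.mul_le_mul_left _ (hf i)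
    _ = e i := mul_one _

/-- the substitution `X_1 ↦ X_1 + b` -/
private noncomputable def NFUn_sub {K : Type} [Field K] {m : ℕ} (b : K) (k : Fin (m + 2)) :
    MvPolynomial (Fin (m + 2)) K :=
  if k = 1 then MvPolynomial.X 1 + MvPolynomial.C b else MvPolynomial.X k

private theorem NFUn_sub_deg {K : Type} [Field K] {m : ℕ} (b : K) (k : Fin (m + 2)) :
    (NFUn_sub b k).totalDegree ≤ 1 := by
  unfold NFUn_sub
  split_ifs with h
  · refine (MvPolynomial.totalDegree_add _ _).trans ?_
    rw [MvPolynomial.totalDegree_C, MvPolynomial.totalDegree_X]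
    exact max_le le_rfl (Nat.zero_le _)
  · rw [MvPolynomial.totalDegree_X]

private theorem NFUn_sub_inv {K : Type} [Field K] {m : ℕ} (b : K)
    (P : MvPolynomial (Fin (m + 2)) K) :
    MvPolynomial.aeval (NFUn_sub (m := m) (-b)) (MvPolynomial.aeval (NFUn_sub (m := m) b) P) = P := by
  have h : (MvPolynomial.aeval (NFUn_sub (m := m) (-b))).comp
      (MvPolynomial.aeval (NFUn_sub (m := m) b)) = AlgHom.id K (MvPolynomial (Fin (m + 2)) K) := by
    refine MvPolynomial.algHom_ext fun k => ?_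
    rw [AlgHom.comp_apply, MvPolynomial.aeval_X, AlgHom.id_apply]
    unfold NFUn_sub
    by_cases hk : k = 1
    · subst hk
      rw [if_pos rfl, map_add, MvPolynomial.aeval_X, if_pos rfl, MvPolynomial.algHom_C]
      rw [MvPolynomial.algebraMap_eq, map_neg]
      ring
    · rw [if_neg hk, MvPolynomial.aeval_X, if_neg hk]
  exact DFunLike.congr_fun h P

/-- Finitely many rows, uniform in `a`. -/
theorem thm_NFUn : St_NBas → St_EmG → St_NFUn := by
  classical
  intro hNBas hEmG K L _ _ _ _ m c x y t hN R F J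
  obtain ⟨hTr, -, -, -, ⟨-, hxa⟩, -, -⟩ := hNBas K L m c x y t hN
  by_cases hex : ∃ (a : ℂ) (v : Pt (algebraMap K L)), Gauss v (cx c x a (F ∘ J))
  swap
  · push Not at hex
    exact ⟨∅, fun A h => absurd h (Finset.notMem_empty _), fun a v hv => absurd hv (hex a v)⟩
  obtain ⟨a0, v0, hv0⟩ := hex
  have hinj : Function.Injective J := by
    intro l l' hll
    have h1 := (hEmG.2.1 K L (m + 1) (cx c x a0 (F ∘ J)) v0 hv0).injective
    have h2 : (cx c x a0 (F ∘ J) l.succ : L) = (cx c x a0 (F ∘ J) l'.succ : L) := by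
      simp only [cx, Fin.cons_succ, Function.comp_apply, hll]
    exact Fin.succ_injective _ (h1 h2)
  have hpol : ∀ j : Fin R, ∃ P : MvPolynomial (Fin (m + 2)) K, P ≠ 0 ∧
      MvPolynomial.aeval (Fin.cons (F j : L) (Fin.cons x (fun i => ((F ∘ J) i : L))) :
        Fin (m + 2) → L) P = 0 := by
    intro j
    have h1 := hTr (Fin.cons (F j : L) (Fin.cons x (fun i => ((F ∘ J) i : L))))
    rw [algebraicIndependent_iff] at h1
    push Not at h1
    obtain ⟨P, hP1, hP2⟩ := h1
    exact ⟨P, hP2, hP1⟩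
  choose P hP1 hP2 using hpol
  have hPa0 : ∀ (j : Fin R) (a : ℂ), MvPolynomial.aeval (NFUn_sub (m := m) (c a)) (P j) ≠ 0 := by
    intro j a h
    apply hP1 j
    rw [← NFUn_sub_inv (c a) (P j), h, map_zero]
  have hPa : ∀ (j : Fin R) (a : ℂ), MvPolynomial.aeval
      (Fin.cons (F j : L) (fun i => (cx c x a (F ∘ J) i : L)) : Fin (m + 1 + 1) → L)
      (MvPolynomial.aeval (NFUn_sub (m := m) (c a)) (P j)) = 0 := by
    intro j a
    have h : (MvPolynomial.aeval
        (Fin.cons (F j : L) (fun i => (cx c x a (F ∘ J) i : L)) : Fin (m + 1 + 1) → L)).comp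
        (MvPolynomial.aeval (NFUn_sub (m := m) (c a))) =
        MvPolynomial.aeval (Fin.cons (F j : L) (Fin.cons x (fun i => ((F ∘ J) i : L))) :
          Fin (m + 2) → L) := by
      refine MvPolynomial.algHom_ext fun k => ?_
      rw [AlgHom.comp_apply, MvPolynomial.aeval_X, MvPolynomial.aeval_X]
      unfold NFUn_sub
      refine Fin.cases ?_ (fun k' => ?_) k
      · rw [if_neg (zero_ne_one : (0 : Fin (m + 2)) ≠ 1), MvPolynomial.aeval_X]
        rfl
      · refine Fin.cases ?_ (fun l => ?_) k'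
        · have h1 : (Fin.succ 0 : Fin (m + 2)) = 1 := rfl
          rw [h1, if_pos rfl, map_add, MvPolynomial.aeval_X, MvPolynomial.algHom_C]
          have h2 : (Fin.cons (F j : L) (fun i => (cx c x a (F ∘ J) i : L)) :
              Fin (m + 1 + 1) → L) 1 = x - algebraMap K L (c a) := by
            rw [← h1, Fin.cons_succ]
            simp only [cx, Fin.cons_zero]
            exact (hxa a).1
          have h3 : (Fin.cons (F j : L) (Fin.cons x (fun i => ((F ∘ J) i : L))) :
              Fin (m + 2) → L) 1 = x := rfl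
          rw [h2, h3, sub_add_cancel]
        · have h1 : ¬ (Fin.succ (Fin.succ l) : Fin (m + 2)) = 1 := by
            intro h
            have := congrArg Fin.val h
            simp at this
          rw [if_neg h1, MvPolynomial.aeval_X]
          rfl
    have h4 := DFunLike.congr_fun h (P j)
    rw [hP2] at h4
    exact h4
  let d : Fin R → ℕ := fun j => (P j).totalDegree
  have hbd : ∀ (j : Fin R) (a : ℂ),
      ∀ e ∈ (MvPolynomial.aeval (NFUn_sub (m := m) (c a)) (P j)).support, ∀ k, e k ≤ d j := by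
    intro j a e he k
    have h1 := MvPolynomial.le_totalDegree he
    have h2 := NFUn_deg (NFUn_sub (m := m) (c a)) (NFUn_sub_deg (c a)) (P j)
    refine le_trans ?_ (h1.trans h2)
    by_cases hk : k ∈ e.support
    · rw [Finsupp.sum]
      exact Finset.single_le_sum (f := fun i => e i) (fun i _ => Nat.zero_le _) hk
    · rw [Finsupp.notMem_support_iff.1 hk]
      exact Nat.zero_le _
  let C : Fin R → Finset (Fin (m + 1) → ℝ) := fun j =>
    if h : ∃ l, J l = j then {Pi.single h.choose.succ 1}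
    else (Finset.univ : Finset ((Fin (m + 2) → Fin (d j + 1)) × (Fin (m + 2) → Fin (d j + 1)))).image
      fun q => fun i => (((q.1 i.succ : ℕ) : ℝ) - ((q.2 i.succ : ℕ) : ℝ)) /
        (((q.2 0 : ℕ) : ℝ) - ((q.1 0 : ℕ) : ℝ))
  have hCJ : ∀ l : Fin m, C (J l) = {Pi.single l.succ 1} := by
    intro l
    have h : ∃ l', J l' = J l := ⟨l, rfl⟩
    simp only [C]
    rw [dif_pos h]
    have h2 : h.choose = l := hinj h.choose_spec
    rw [h2]
  refine ⟨(Fintype.piFinset C).image fun f => Matrix.of fun j => f j, ?_, ?_⟩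
  · intro A hA l j
    rw [Finset.mem_image] at hA
    obtain ⟨f, hf, rfl⟩ := hA
    rw [Fintype.mem_piFinset] at hf
    have h1 := hf (J l)
    rw [hCJ, Finset.mem_singleton] at h1
    rw [Matrix.of_apply, h1, Pi.single_apply]
  · intro a v hv
    have hch : ∀ j : Fin R, ∃ w ∈ C j, ∀ ε : Tan v, ev F ε j = w ⬝ᵥ ev (cx c x a (F ∘ J)) ε := by
      intro j
      by_cases h : ∃ l, J l = j
      · obtain ⟨l, rfl⟩ := h
        refine ⟨Pi.single l.succ 1, by rw [hCJ]; exact Finset.mem_singleton_self _, ?_⟩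
        intro ε
        rw [single_one_dotProduct]
        rfl
      · obtain ⟨e, he, e', he', hne, -, hε⟩ := NFUn_key v (cx c x a (F ∘ J)) (F j)
          (MvPolynomial.aeval (NFUn_sub (m := m) (c a)) (P j)) (hPa0 j a) (hPa j a) hv
        have hd : (e' 0 : ℝ) - (e 0 : ℝ) ≠ 0 := by
          intro h0
          apply hne
          have : (e' 0 : ℝ) = (e 0 : ℝ) := by linarith
          exact_mod_cast this.symm
        refine ⟨fun i => ((e i.succ : ℝ) - (e' i.succ : ℝ)) / ((e' 0 : ℝ) - (e 0 : ℝ)), ?_, ?_⟩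
        · simp only [C]
          rw [dif_neg h, Finset.mem_image]
          refine ⟨(fun k => ⟨e k, Nat.lt_succ_of_le (hbd j a e he k)⟩,
            fun k => ⟨e' k, Nat.lt_succ_of_le (hbd j a e' he' k)⟩), Finset.mem_univ _, rfl⟩
        · intro ε
          have h1 : (fun i : Fin (m + 1) => ((e i.succ : ℝ) - (e' i.succ : ℝ)) /
              ((e' 0 : ℝ) - (e 0 : ℝ))) ⬝ᵥ ev (cx c x a (F ∘ J)) ε =
              (∑ i : Fin (m + 1), ((e i.succ : ℝ) - (e' i.succ : ℝ)) *
                ε.1 (Additive.ofMul ((cx c x a (F ∘ J)) i))) / ((e' 0 : ℝ) - (e 0 : ℝ)) := by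
            rw [Finset.sum_div]
            refine Finset.sum_congr rfl fun i _ => ?_
            simp only [ev]
            ring
          show ε.1 (Additive.ofMul (F j)) = _
          rw [h1, eq_div_iff hd]
          exact hε ε
    choose f hf1 hf2 using hch
    refine ⟨Matrix.of fun j => f j, ?_, ?_⟩
    · rw [Finset.mem_image]
      exact ⟨f, Fintype.mem_piFinset.2 hf1, rfl⟩
    · intro ε
      funext j
      exact hf2 j ε

end TDC
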