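import Pool.Agent.TDC.StN2
import Pool.Agent.TDC.INJ

/-!
# TDN, module NFld: the field-level theorem
-/

namespace TDC

open scoped Topology
open MeasureTheory

private lemma NFld_pc {R p q : ℕ} (γ : SF R p q) (h : γ.CC) : γ.PC := by
  intro I
  refine ⟨(h I).1, (fun t : Fin R → ℝ => t ∘ I) '' tsupport (γ I), ?_, ?_⟩
  · refine (h I).2.image ?_
    exact continuous_pi fun i => continuous_apply (I i)
  · intro t ht
    by_contra hne
    exact ht ⟨t, subset_tsupport _ hne, rfl⟩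

private lemma NFld_psi0 {u : ℝ} (h : u ≤ 1 / 2) : psiC u = 0 :=
  Real.smoothTransition.zero_of_nonpos (by linarith)

private lemma NFld_psi1 {u : ℝ} (h : 1 ≤ u) : psiC u = 1 :=
  Real.smoothTransition.one_of_one_le (by linarith)

private lemma NFld_kap0 {u : ℝ} (h : u ≤ -(1 / 4)) : kapC u = 0 :=
  Real.smoothTransition.zero_of_nonpos (by linarith)

private lemma NFld_kap1 {u : ℝ} (h : -(1 / 8) ≤ u) : kapC u = 1 :=
  Real.smoothTransition.one_of_one_le (by linarith)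

/-- the product of the two cut-offs vanishes off the tube -/
private lemma NFld_prod {ε z : ℝ} (hε : 0 < ε) (w : ℝ) (h : z < 0 → w = z) :
    psiC (-z / ε) * kapC (w / ε) = 0 := by
  by_cases hz : z < 0
  · rw [h hz]
    by_cases h2 : -z / ε ≤ 1 / 2
    · rw [NFld_psi0 h2, zero_mul]
    · have h3 : z / ε = -(-z / ε) := by ring
      rw [NFld_kap0 (u := z / ε) (by rw [h3]; linarith), mul_zero]
  · have h2 : -z / ε ≤ 0 := div_nonpos_of_nonpos_of_nonneg (by linarith) hε.le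
    rw [NFld_psi0 (by linarith), zero_mul]

section core

variable {K L : Type} [NontriviallyNormedField K] [IsUltrametricDist K] [Field L] [Algebra K L]

omit [IsUltrametricDist K] in
private theorem NFld_ae (hGNl : St_GNl) (hEmG : St_EmG) (hTng : St_Tng)
    {m R R' : ℕ} (c : ℂ →+* K) (x y : L) (t : Fin m → Lˣ)
    (hTr : TrLe K L (m + 1)) (hc : (Set.range fun a : K => ‖a‖).Countable)
    (T1 : ∀ Q, GoodE Q → ∀ v : Pt (algebraMap K L), Real.log (v.v (xa c x Q.1)) < 0 →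
      (v ∈ Tube c x y Q ∧ Real.log (v.v (yb c y Q.2)) = 0) ∨
      (v ∉ Tube c x y Q ∧ Real.log (v.v (yb c y Q.2)) = Real.log (v.v (xa c x Q.1))))
    (T2 : ∀ Q, GoodE Q → ∀ v ∈ Tube c x y Q, Real.log (v.v (xa c x Q.1)) < 0)
    (T3 : ∀ Q Q', GoodE Q → GoodE Q' → Q ≠ Q' → Disjoint (Tube c x y Q) (Tube c x y Q'))
    (Λ : (ℂ × ℂ) →₀ ℝ) (P : ℂ × ℂ) (hP : GoodE P) (hΛP : Λ P = 1)
    (hΛ : ∀ Q ∈ Λ.support, GoodE Q)
    (F' : Fin R' → Lˣ) (a : Fin R → Fin R') (ζ : Fin (m + 1) → Fin R') (ix iy : ℂ × ℂ → Fin R')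
    (it : Fin m → Fin R') (hix : ∀ Q ∈ Λ.support, F' (ix Q) = xa c x Q.1)
    (hiy : ∀ Q ∈ Λ.support, F' (iy Q) = yb c y Q.2) (hit : F' ∘ it = t)
    (𝒦 : Finset (Matrix (Fin R') (Fin (m + 1)) ℝ × (Fin R' → ℝ))) (hSh : Sheets K F' ζ 𝒦)
    (b : (Fin (m + 1) → ℝ) → ℝ) (hb : SC b {u | -2 < u 0 ∧ u 0 < -1})
    (ω ω' : Fam (algebraMap K L) (m + 1) (m + 1))
    (hω0 : ∀ v, v ∉ Tube c x y P → ω v = 0)
    (hω1 : ∀ v ∈ Tube c x y P, ω v = std (algebraMap K L) (cx c x P.1 t) b v)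
    (hω' : ∀ Q ∈ Λ.support, ∀ v ∈ Tube c x y Q, ω' v = 0)
    (γ : SF R (m + 1) m)
    (hγ : ω - ω' = (pull (F' ∘ a) γ.dd : Fam (algebraMap K L) (m + 1) (m + 1)))
    (ε : ℝ) (hε : 0 < ε) (hε1 : ε ≤ 1) :
    ∀ᵐ u : Fin (m + 1) → ℝ, (∑ k ∈ 𝒦, cw K (F' ∘ ζ) F' u (af k u) * chiC Λ ix iy ε (af k u) *
          cofD γ a (af k u) k.1) =
      ∑ k ∈ 𝒦, cw K (F' ∘ ζ) F' u (af k u) * (kapC (af k u (iy P)) *
        b (af k u ∘ (Fin.cons (ix P) it : Fin (m + 1) → Fin R')) *
        (k.1.submatrix (Fin.cons (ix P) it : Fin (m + 1) → Fin R') id).det ^ 2) := by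
  classical
  set g : Fin (m + 1) → Lˣ := F' ∘ ζ with hg
  set J : Fin (m + 1) → Fin R' := Fin.cons (ix P) it with hJ
  have hPs : P ∈ Λ.support := by
    rw [Finsupp.mem_support_iff, hΛP]
    exact one_ne_zero
  have hFJ : F' ∘ J = cx c x P.1 t := by
    funext i
    refine Fin.cases ?_ (fun i => ?_) i
    · simp only [hJ, Function.comp_apply, Fin.cons_zero, cx]
      exact hix P hPs
    · simp only [hJ, Function.comp_apply, Fin.cons_succ, cx]
      exact congrFun hit i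
  have hgen : ∀ᵐ u : Fin (m + 1) → ℝ, Generic K u := by
    have := hGNl K (m + 1) hc 1 0 (by simp)
    simpa using this
  filter_upwards [hgen, INJ_ae_inj 𝒦] with u hu hinj
  refine Finset.sum_congr rfl fun k hk => ?_
  by_cases hcw : cw K g F' u (af k u) = 0
  · rw [hcw]; ring
  -- a point over the position
  have hex : ∃ v : Pt (algebraMap K L), Gauss v g ∧ logv v g = u ∧ logv v F' = af k u := by
    unfold cw at hcw
    split_ifs at hcw with hx
    · unfold wtS at hcw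
      have hne : (Emb K g ∩ {σ | logv (pb σ hx.choose) F' = af k u}).ncard ≠ 0 := by
        intro h0
        apply hcw
        rw [h0]
        simp
      obtain ⟨σ, hσ⟩ := Set.nonempty_of_ncard_ne_zero hne
      have := hEmG.1 K L (m + 1) g hx.choose u hx.choose_spec σ hσ.1
      exact ⟨pb σ hx.choose, this.1, this.2, hσ.2⟩
    · exact absurd rfl hcw
  obtain ⟨v, hv1, hv2, hv3⟩ := hex
  have hind : Indep v g := (hEmG.2.2 K L (m + 1) g v).2 (by rw [hv2]; exact hu)
  obtain ⟨k', hk', hk1, hk2⟩ := hSh.2 v hv1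
  have hkk : k' = k := by
    apply hinj k' hk' k hk
    rw [← hv3, hk1]
    congr 1
    exact hv2.symm
  subst hkk
  -- tangent vectors
  have hδ : ∀ j : Fin (m + 1), ∃ δ : Tan v, ev g δ = Pi.single j 1 := fun j =>
    (hTng K L (m + 1) hTr v g hind).1 _
  choose δ hδ using hδ
  have hev : ∀ j, ev F' (δ j) = k'.1.mulVec (Pi.single j 1) := fun j => by
    rw [hk2 (δ j)]
    congr 1
    exact hδ j
  have hval : ∀ i, af k' u i = Real.log (v.v (F' i)) := fun i => (congrFun hv3 i).symm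
  have hL : cofD γ a (af k' u) k'.1 = (ω - ω') v δ δ := by
    rw [hγ]
    unfold pull pullAt cofD
    refine Finset.sum_congr rfl fun I _ => ?_
    have h1 : (Matrix.of fun i j => ev (F' ∘ a) (δ i) (I j)).det =
        (k'.1.submatrix (a ∘ I) id).det := INJ_det F' (a ∘ I) k'.1 δ hev
    rw [h1]
    congr 1
    have h2 : logv v (F' ∘ a) = af k' u ∘ a := by
      rw [← hv3]; rfl
    have h3 : (fun i => ev (F' ∘ a) (δ i)) = fun j => (k'.1.mulVec (Pi.single j 1)) ∘ a := by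
      funext j
      rw [← hev j]; rfl
    rw [h2, h3]
    rfl
  -- terms off the tubes
  have hoff : ∀ Q ∈ Λ.support, v ∉ Tube c x y Q →
      psiC (-(af k' u (ix Q)) / ε) * kapC (af k' u (iy Q) / ε) = 0 := by
    intro Q hQ hvQ
    refine NFld_prod hε _ ?_
    intro hz
    rw [hval, hix Q hQ] at hz
    rcases T1 Q (hΛ Q hQ) v hz with h | h
    · exact absurd h.1 hvQ
    · rw [hval, hval, hix Q hQ, hiy Q hQ]
      exact h.2
  by_cases hvP : v ∈ Tube c x y P
  · -- in the tube of P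
    have hz := T2 P hP v hvP
    have hy0 : Real.log (v.v (yb c y P.2)) = 0 := by
      rcases T1 P hP v hz with h | h
      · exact h.2
      · exact absurd hvP h.1
    have hiyP : af k' u (iy P) = 0 := by rw [hval, hiy P hPs]; exact hy0
    have hchi : chiC Λ ix iy ε (af k' u) = psiC (-(af k' u (ix P)) / ε) := by
      unfold chiC
      rw [Finset.sum_eq_single P]
      · rw [hΛP, hiyP, zero_div, NFld_kap1 (by norm_num)]
        ring
      · intro Q hQ hQP
        have hvQ : v ∉ Tube c x y Q := by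
          intro h
          exact Set.disjoint_left.mp (T3 Q P (hΛ Q hQ) hP hQP) h hvP
        rw [mul_assoc, hoff Q hQ hvQ, mul_zero]
      · intro h
        exact absurd hPs h
    have hwv : (ω - ω') v δ δ = b (af k' u ∘ J) * (k'.1.submatrix J id).det ^ 2 := by
      have e1 : (ω - ω') v δ δ = ω v δ δ - ω' v δ δ := rfl
      rw [e1, hω' P hPs v hvP, hω1 v hvP]
      have h1 : (Matrix.of fun i j => ev (F' ∘ J) (δ i) j).det =
          (k'.1.submatrix J id).det := INJ_det F' J k'.1 δ hev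
      have h2 : logv v (F' ∘ J) = af k' u ∘ J := by
        rw [← hv3]; rfl
      rw [← hFJ]
      unfold std
      rw [h1, h2]
      simp only [Pi.zero_apply, sub_zero]
      ring
    rw [hL, hwv, hchi, hiyP, NFld_kap1 (by norm_num)]
    by_cases hb0 : b (af k' u ∘ J) = 0
    · rw [hb0]; ring
    · have hmem : af k' u ∘ J ∈ {u : Fin (m + 1) → ℝ | -2 < u 0 ∧ u 0 < -1} :=
        hb.2.2 (subset_tsupport _ hb0)
      have h0 : (af k' u ∘ J) 0 = af k' u (ix P) := by
        simp only [hJ, Function.comp_apply, Fin.cons_zero]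
      have h1 : af k' u (ix P) < -1 := by rw [← h0]; exact hmem.2
      have h2 : 1 ≤ -(af k' u (ix P)) / ε := by
        rw [le_div_iff₀ hε]
        linarith
      rw [NFld_psi1 h2]
      ring
  · -- off the tube of P
    have hR : kapC (af k' u (iy P)) * b (af k' u ∘ J) = 0 := by
      by_cases hb0 : b (af k' u ∘ J) = 0
      · rw [hb0, mul_zero]
      · have hmem : af k' u ∘ J ∈ {u : Fin (m + 1) → ℝ | -2 < u 0 ∧ u 0 < -1} :=
          hb.2.2 (subset_tsupport _ hb0)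
        have h0 : (af k' u ∘ J) 0 = af k' u (ix P) := by
          simp only [hJ, Function.comp_apply, Fin.cons_zero]
        have h1 : af k' u (ix P) < -1 := by rw [← h0]; exact hmem.2
        have h2 := h1
        rw [hval, hix P hPs] at h2
        rcases T1 P hP v (by linarith) with h | h
        · exact absurd h.1 hvP
        · have h3 : af k' u (iy P) < -1 := by
            rw [hval, hiy P hPs, h.2]
            exact h2
          rw [NFld_kap0 (by linarith), zero_mul]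
    have hLz : chiC Λ ix iy ε (af k' u) * cofD γ a (af k' u) k'.1 = 0 := by
      by_cases hex : ∃ Q ∈ Λ.support, v ∈ Tube c x y Q
      · obtain ⟨Q, hQ, hvQ⟩ := hex
        rw [hL]
        have e1 : (ω - ω') v δ δ = ω v δ δ - ω' v δ δ := rfl
        rw [e1, hω' Q hQ v hvQ, hω0 v hvP]
        simp
      · have hchi : chiC Λ ix iy ε (af k' u) = 0 := by
          unfold chiC
          refine Finset.sum_eq_zero fun Q hQ => ?_
          rw [mul_assoc, hoff Q hQ (fun h => hex ⟨Q, hQ, h⟩), mul_zero]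
        rw [hchi, zero_mul]
    rw [mul_assoc, hLz, hR]
    ring

end core

private lemma NFld_csub {K M : Type} [NormedField K] [Field M] {φ : K →+* M} {p q : ℕ}
    {a b : Fam φ p q} (ha : CSupp a) (hb : CSupp b) : CSupp (a - b) := by
  obtain ⟨C, hC, h1⟩ := ha
  obtain ⟨D, hD, h2⟩ := hb
  refine ⟨C ∪ D, hC.union hD, fun x hx => ?_⟩
  rw [Set.mem_union, not_or] at hx
  have : (a - b) x = a x - b x := rfl
  rw [this, h1 x hx.1, h2 x hx.2, sub_zero]

theorem thm_NFld : St_NBas → St_NTub → St_NLam → St_NBmp → St_Pair → St_NGen → St_NE2 → St_NE1 →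
    St_NCut → St_Gen → St_Fini → St_GNl → St_EmG → St_EmF → St_IndG → St_Tng → St_NFld := by
  intro hNBas hNTub hNLam hNBmp hPair hNGen hNE2 hNE1 hNCut hGen hFini hGNl hEmG _ _ hTng K L _ _ _
    _ m c x y t hyp r f
  classical
  obtain ⟨hTr, -, -, -, ⟨hxt, -⟩, -, -⟩ := hNBas K L m c x y t hyp
  obtain ⟨T1, T2, T3, T4⟩ := hNTub K L m c x y t hyp
  obtain ⟨S, hS⟩ := T4 r f
  have hpol : ∀ P : Polynomial ℂ, P.eval₂ ((algebraMap K L).comp c) x = 0 → P = 0 := by
    intro P hP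
    have h1 : Polynomial.aeval x (P.map c) = 0 := by
      rw [Polynomial.aeval_def, Polynomial.eval₂_map]
      exact hP
    have h2 : P.map c = 0 := by
      by_contra hne
      exact hxt ⟨P.map c, hne, h1⟩
    exact (Polynomial.map_eq_zero_iff c.injective).mp h2
  obtain ⟨P, hPg, hPS, hLam⟩ := hNLam L ((algebraMap K L).comp c) x y hyp.eFun.eq hpol S
  obtain ⟨b, ω, hb, hbi, hωf, hωc, hω0, hω1⟩ := hNBmp K L m c x y t hyp P hPg
  refine ⟨ω, hωf, hωc, ?_⟩
  intro ω' η hω' hcω' hcη hdb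
  obtain ⟨R, F, γ, hγc, -, hγ⟩ := hPair K L (algebraMap K L) (m + 1) m η (ω - ω') hdb hcη
    (NFld_csub hωc hcω')
  have hγp : γ.PC := NFld_pc γ hγc
  obtain ⟨g, hgi, hgJ⟩ := hNGen K L m c x y t hyp R F
  obtain ⟨𝒪, h𝒪, hE2⟩ := hNE2 K L m c x y t hyp g hgi R F hgJ
  obtain ⟨Λ, hΛP, hΛ, hΛo⟩ := hLam 𝒪 h𝒪
  have hPs : P ∈ Λ.support := by
    rw [Finsupp.mem_support_iff, hΛP]
    exact one_ne_zero
  -- all the units
  let ι : Type := Fin R ⊕ (Λ.support ⊕ (Λ.support ⊕ (Fin m ⊕ Fin m)))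
  let e : ι ≃ Fin (Fintype.card ι) := Fintype.equivFin ι
  let H : ι → Lˣ := Sum.elim F (Sum.elim (fun Q => xa c x Q.1.1)
    (Sum.elim (fun Q => yb c y Q.1.2) (Sum.elim g t)))
  let F1 : Fin (Fintype.card ι) → Lˣ := fun i => H (e.symm i)
  obtain ⟨g₀, hg₀⟩ := hGen K L (m + 1) (Fintype.card ι) hTr F1
  let F' : Fin (Fintype.card ι + (m + 1)) → Lˣ := Fin.append F1 g₀
  let up : ι → Fin (Fintype.card ι + (m + 1)) := fun i => Fin.castAdd (m + 1) (e i)
  have hup : ∀ i, F' (up i) = H i := by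
    intro i
    simp only [F', up, F1, Fin.append_left, Equiv.symm_apply_apply]
  let ζ : Fin (m + 1) → Fin (Fintype.card ι + (m + 1)) := Fin.natAdd (Fintype.card ι)
  have hζ : F' ∘ ζ = g₀ := by
    funext i
    simp only [F', ζ, Function.comp_apply, Fin.append_right]
  have hRef : ∀ J : Fin (m + 1) → ι, Ref K F' ζ (up ∘ J) := by
    intro J v hv
    rw [hζ]
    apply hg₀ (fun j => e (J j)) v
    have h1 : F1 ∘ (fun j => e (J j)) = F' ∘ (up ∘ J) := by
      funext j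
      simp only [Function.comp_apply, hup]
      simp only [F1, Equiv.symm_apply_apply]
    rw [h1]
    exact hv
  let a : Fin R → Fin (Fintype.card ι + (m + 1)) := fun i => up (Sum.inl i)
  let dx : ℂ × ℂ → ι := fun Q => if h : Q ∈ Λ.support then Sum.inr (Sum.inl ⟨Q, h⟩) else
    Sum.inr (Sum.inl ⟨P, hPs⟩)
  let dy : ℂ × ℂ → ι := fun Q => if h : Q ∈ Λ.support then Sum.inr (Sum.inr (Sum.inl ⟨Q, h⟩)) else
    Sum.inr (Sum.inl ⟨P, hPs⟩)
  let ix : ℂ × ℂ → Fin (Fintype.card ι + (m + 1)) := fun Q => up (dx Q)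
  let iy : ℂ × ℂ → Fin (Fintype.card ι + (m + 1)) := fun Q => up (dy Q)
  let ig : Fin m → Fin (Fintype.card ι + (m + 1)) := fun i =>
    up (Sum.inr (Sum.inr (Sum.inr (Sum.inl i))))
  let it : Fin m → Fin (Fintype.card ι + (m + 1)) := fun i =>
    up (Sum.inr (Sum.inr (Sum.inr (Sum.inr i))))
  have hFa : F' ∘ a = F := by
    funext i
    simp only [Function.comp_apply, a, hup]
    rfl
  have hFg : F' ∘ ig = g := by
    funext i
    simp only [Function.comp_apply, ig, hup]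
    rfl
  have hFt : F' ∘ it = t := by
    funext i
    simp only [Function.comp_apply, it, hup]
    rfl
  have hix : ∀ Q ∈ Λ.support, F' (ix Q) = xa c x Q.1 := by
    intro Q hQ
    simp only [ix, hup, dx, dif_pos hQ]
    rfl
  have hiy : ∀ Q ∈ Λ.support, F' (iy Q) = yb c y Q.2 := by
    intro Q hQ
    simp only [iy, hup, dy, dif_pos hQ]
    rfl
  have hRefa : ∀ I : Fin (m + 1) → Fin R, Ref K F' ζ (a ∘ I) := fun I =>
    hRef (fun j => Sum.inl (I j))
  have hcons : ∀ (i : ι) (j : Fin m → ι), (Fin.cons (up i) (fun l => up (j l)) :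
      Fin (m + 1) → Fin (Fintype.card ι + (m + 1))) = up ∘ (Fin.cons i j : Fin (m + 1) → ι) := by
    intro i j
    funext l
    refine Fin.cases ?_ (fun l => ?_) l
    · simp
    · simp
  have hRefg : ∀ Q ∈ Λ.support, Ref K F' ζ
      (Fin.cons (ix Q) ig : Fin (m + 1) → Fin (Fintype.card ι + (m + 1))) := by
    intro Q _
    have := hcons (dx Q) (fun i => Sum.inr (Sum.inr (Sum.inr (Sum.inl i))))
    show Ref K F' ζ (Fin.cons (up (dx Q)) (fun l => up (Sum.inr (Sum.inr (Sum.inr (Sum.inl l))))) :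
      Fin (m + 1) → Fin (Fintype.card ι + (m + 1)))
    rw [this]
    exact hRef _
  have hReft : Ref K F' ζ
      (Fin.cons (ix P) it : Fin (m + 1) → Fin (Fintype.card ι + (m + 1))) := by
    have := hcons (dx P) (fun i => Sum.inr (Sum.inr (Sum.inr (Sum.inr i))))
    show Ref K F' ζ (Fin.cons (up (dx P)) (fun l => up (Sum.inr (Sum.inr (Sum.inr (Sum.inr l))))) :
      Fin (m + 1) → Fin (Fintype.card ι + (m + 1)))
    rw [this]
    exact hRef _
  obtain ⟨𝒦, h𝒦⟩ := hFini K L (m + 1) hTr _ F' ζ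
  have hSh : Sheets K F' ζ 𝒦 := h𝒦
  -- the three integrals
  have hlim := hE2 Λ (fun Q hQ => (hΛ Q hQ).1) hΛo _ F' a ζ ix iy ig 𝒦 hFa hFg hSh
    (fun Q hQ => ⟨hix Q hQ, hiy Q hQ⟩) hRefg γ hγp
  have hFJ : F' ∘ (Fin.cons (ix P) it : Fin (m + 1) → Fin (Fintype.card ι + (m + 1))) =
      cx c x P.1 t := by
    funext i
    refine Fin.cases ?_ (fun i => ?_) i
    · simp only [Function.comp_apply, Fin.cons_zero, cx]
      exact hix P hPs
    · simp only [Function.comp_apply, Fin.cons_succ, cx]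
      exact congrFun hFt i
  have hone := hNE1 K L m c x y t hyp _ F' ζ
    (Fin.cons (ix P) it : Fin (m + 1) → Fin (Fintype.card ι + (m + 1))) (iy P) 𝒦 hSh hReft P hPg
    hFJ (hiy P hPs) b hb
  rw [hbi] at hone
  have hconst : ∀ ε : ℝ, 0 < ε → ε ≤ 1 →
      (∫ u, ∑ k ∈ 𝒦, cw K (F' ∘ ζ) F' u (af k u) *
        ∑ Q ∈ Λ.support, Λ Q * (1 / ε * deriv psiC (-(af k u (ix Q)) / ε) *
          kapC (af k u (iy Q) / ε)) * cofB γ a (ix Q) (af k u) k.1) = 1 := by
    intro ε hε hε1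
    have hcut := hNCut K L m c x y t hyp R _ F' a ζ 𝒦 hSh hRefa Λ ix iy
      (fun Q hQ => ⟨(hΛ Q hQ).1, hix Q hQ, hiy Q hQ⟩) γ hγp ε hε
    rw [← hcut, ← hone]
    refine integral_congr_ae ?_
    refine NFld_ae hGNl hEmG hTng c x y t hTr hyp.cnt T1 T2 T3 Λ P hPg hΛP
      (fun Q hQ => (hΛ Q hQ).1) F' a ζ ix iy it hix hiy hFt 𝒦 hSh b hb ω ω' hω0 hω1 ?_ γ ?_ ε hε hε1
    · intro Q hQ v hv
      exact hω' v (hS Q (hΛ Q hQ).1 (hΛ Q hQ).2 v hv)
    · rw [hFa]
      exact hγ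
  have hlim1 : Filter.Tendsto (fun ε : ℝ => ∫ u, ∑ k ∈ 𝒦, cw K (F' ∘ ζ) F' u (af k u) *
          ∑ Q ∈ Λ.support, Λ Q * (1 / ε * deriv psiC (-(af k u (ix Q)) / ε) *
            kapC (af k u (iy Q) / ε)) * cofB γ a (ix Q) (af k u) k.1) (𝓝[>] 0) (𝓝 1) := by
    refine tendsto_const_nhds.congr' ?_
    have h1 : Set.Ioc (0 : ℝ) 1 ∈ 𝓝[>] (0 : ℝ) := Ioc_mem_nhdsGT (by norm_num)
    filter_upwards [h1] with ε hε
    exact (hconst ε hε.1 hε.2).symm
  exact absurd (tendsto_nhds_unique hlim hlim1) (by norm_num)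

end TDC
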