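import Pool.Agent.TDC.StN

/-!
# TDN, NGS: group sums from the counting formula over `K(E)`, Newton polygons and asymptotics
-/

set_option autoImplicit false

namespace TDC

open scoped Topology
open MeasureTheory

private theorem NGS_null {n : ℕ} (w : Fin n → ℝ) (hw : w ≠ 0) (d : ℝ) :
    volume {s : Fin n → ℝ | w ⬝ᵥ s = d} = 0 := by
  have hker : volume ((LinearMap.ker (dotProductBilin ℝ ℝ w) : Submodule ℝ (Fin n → ℝ)) :
      Set (Fin n → ℝ)) = 0 := by
    apply Measure.addHaar_submodule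
    intro htop
    apply hw
    funext j
    have hj : (Pi.single j 1 : Fin n → ℝ) ∈ LinearMap.ker (dotProductBilin ℝ ℝ w) := by
      rw [htop]
      exact Submodule.mem_top
    rw [LinearMap.mem_ker] at hj
    have h2 : w ⬝ᵥ Pi.single j 1 = 0 := hj
    rw [dotProduct_single_one] at h2
    exact h2
  rcases Set.eq_empty_or_nonempty {s : Fin n → ℝ | w ⬝ᵥ s = d} with h | ⟨s₀, hs₀⟩
  · rw [h, measure_empty]
  · have e : {s : Fin n → ℝ | w ⬝ᵥ s = d} = (fun s => s + -s₀) ⁻¹'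
        ((LinearMap.ker (dotProductBilin ℝ ℝ w) : Submodule ℝ (Fin n → ℝ)) :
          Set (Fin n → ℝ)) := by
      ext s
      have hs : w ⬝ᵥ s₀ = d := hs₀
      show w ⬝ᵥ s = d ↔ s + -s₀ ∈ LinearMap.ker (dotProductBilin ℝ ℝ w)
      rw [LinearMap.mem_ker]
      show w ⬝ᵥ s = d ↔ w ⬝ᵥ (s + -s₀) = 0
      rw [dotProduct_add, dotProduct_neg, hs]
      constructor
      · intro h
        rw [h]
        ring
      · intro h
        linarith
    rw [e, measure_preimage_add_right, hker]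

/-- the exceptional set is a null set -/
private theorem NGS_G {m : ℕ} (S : Finset (Fin (m + 1) →₀ ℕ))
    (A : (Fin (m + 1) →₀ ℕ) → ℝ) :
    volume {s : Fin m → ℝ | ∀ e ∈ S, ∀ e' ∈ S, e ≠ e' → e 0 = e' 0 →
      A e + ∑ j : Fin m, (e j.succ : ℝ) * s j ≠ A e' + ∑ j : Fin m, (e' j.succ : ℝ) * s j}ᶜ = 0 := by
  classical
  refine measure_mono_null (t := ⋃ p ∈ ((S ×ˢ S).filter fun p => p.1 ≠ p.2 ∧ p.1 0 = p.2 0 :
      Finset ((Fin (m + 1) →₀ ℕ) × (Fin (m + 1) →₀ ℕ))),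
      {s : Fin m → ℝ | (fun j : Fin m => (p.1 j.succ : ℝ) - (p.2 j.succ : ℝ)) ⬝ᵥ s =
        A p.2 - A p.1}) ?_ ?_
  · intro s hs
    have hs' : ¬ ∀ e ∈ S, ∀ e' ∈ S, e ≠ e' → e 0 = e' 0 →
      A e + ∑ j : Fin m, (e j.succ : ℝ) * s j ≠ A e' + ∑ j : Fin m, (e' j.succ : ℝ) * s j := hs
    push Not at hs'
    obtain ⟨e, he, e', he', hne, h0, hA⟩ := hs'
    refine Set.mem_iUnion₂.2 ⟨(e, e'), Finset.mem_filter.2
      ⟨Finset.mem_product.2 ⟨he, he'⟩, hne, h0⟩, ?_⟩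
    show ∑ j : Fin m, ((e j.succ : ℝ) - (e' j.succ : ℝ)) * s j = A e' - A e
    simp only [sub_mul, Finset.sum_sub_distrib]
    linarith
  · rw [measure_iUnion_null_iff]
    intro p
    rw [measure_iUnion_null_iff]
    intro hp
    obtain ⟨_, hne, h0⟩ := Finset.mem_filter.1 hp
    apply NGS_null
    intro hz
    apply hne
    ext j
    refine Fin.cases h0 (fun i => ?_) j
    have h1 := congrFun hz i
    have h2 : (p.1 i.succ : ℝ) - (p.2 i.succ : ℝ) = 0 := h1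
    have h3 : (p.1 i.succ : ℝ) = (p.2 i.succ : ℝ) := by linarith
    exact_mod_cast h3

private theorem NGS_delta {E : Type} (S : Finset E) (p : E → ℝ → Prop)
    (h : ∀ e ∈ S, ∃ δ > 0, p e δ) (hm : ∀ e δ δ', p e δ → δ' ≤ δ → p e δ') :
    ∃ δ > 0, ∀ e ∈ S, p e δ := by
  classical
  induction S using Finset.induction with
  | empty => exact ⟨1, one_pos, fun e he => absurd he (Finset.notMem_empty e)⟩
  | insert a S ha ih =>
    obtain ⟨δ, hδ, H⟩ := ih fun e he => h e (Finset.mem_insert_of_mem he)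
    obtain ⟨δ', hδ', H'⟩ := h a (Finset.mem_insert_self a S)
    refine ⟨min δ δ', lt_min hδ hδ', fun e he => ?_⟩
    rcases Finset.mem_insert.1 he with rfl | he
    · exact hm _ _ _ H' (min_le_right _ _)
    · exact hm _ _ _ (H e he) (min_le_left _ _)

/-- **NGS**: group sums. -/
theorem thm_NGS : St_NBas → St_NInd → St_NPsi → St_NPol → St_NAsy → St_NSub → St_EmG →
    St_IndG → St_NGS := by
  intro hBas hInd hPsi hPol hAsy hSub hEmG hIndG K L _ _ _ _ m c x y t hN g halg h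
  classical
  obtain ⟨P, D, κ, hP0, hD, hκ, hPsi'⟩ := hPsi K L m c x y t hN g halg h
  obtain ⟨_, _, _, hfin, _, hcx, _⟩ := hBas K L m c x y t hN
  have hA : ∀ e : Fin (m + 1) →₀ ℕ, ∃ (A : ℝ) (o : ℂ × ℂ → ℤ), e ∈ P.support →
      (IsDiv ((algebraMap K L).comp c) x y o ∧
      ∀ Q, GoodE Q → ∃ δ > 0, ∀ v ∈ Tube c x y Q, Gauss v ![xa c x Q.1] →
        -δ < Real.log (v.v (xa c x Q.1)) →
        Real.log (v.v ((P.coeff e : KE K x y) : L)) =
          A + (o Q : ℝ) * Real.log (v.v (xa c x Q.1))) := by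
    intro e
    by_cases he : e ∈ P.support
    · have hc : ((P.coeff e : KE K x y) : L) ≠ 0 := by
        intro h0
        exact MvPolynomial.mem_support_iff.1 he (Subtype.ext h0)
      obtain ⟨A, o, h1, h2⟩ := hAsy K L m c x y t hN _ (P.coeff e : KE K x y).2 hc
      exact ⟨A, o, fun _ => ⟨h1, h2⟩⟩
    · exact ⟨0, 0, fun h => absurd h he⟩
  choose A o hAo using hA
  have hS : P.support.Nonempty := MvPolynomial.support_nonempty.2 hP0
  refine ⟨(P.support ×ˢ P.support).image (fun p => fun Q => o p.1 Q - o p.2 Q), D / κ,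
    {s : Fin m → ℝ | ∀ e ∈ P.support, ∀ e' ∈ P.support, e ≠ e' → e 0 = e' 0 →
      A e + ∑ j : Fin m, (e j.succ : ℝ) * s j ≠ A e' + ∑ j : Fin m, (e' j.succ : ℝ) * s j},
    ?_, NGS_G P.support A, ?_⟩
  · intro o' ho'
    obtain ⟨p, hp, rfl⟩ := Finset.mem_image.1 ho'
    obtain ⟨h1, h2⟩ := Finset.mem_product.1 hp
    exact hSub L _ x y _ _ (hAo p.1 h1).1 (hAo p.2 h2).1
  · intro s hs ρ₀
    obtain ⟨e₁, he₁, e₂, he₂, η₀, hη₀, H⟩ := hPol (Fin (m + 1) →₀ ℕ) P.support hS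
      (fun e => A e + ∑ j : Fin m, (e j.succ : ℝ) * s j) (fun e => (e 0 : ℝ)) κ D hκ hD
      (by
        intro e he e' he' h1 h2
        by_contra hne
        exact hs e he e' he' hne (by exact_mod_cast h1) h2) ρ₀
    refine ⟨⌊D * ((e₁ 0 : ℝ) - (e₂ 0 : ℝ)) / κ⌋₊, fun Q => o e₂ Q - o e₁ Q,
      Finset.mem_image.2 ⟨(e₂, e₁), Finset.mem_product.2 ⟨he₂, he₁⟩, rfl⟩, η₀, hη₀, ?_⟩
    intro η hη hηle Q hQ
    obtain ⟨δ₁, hδ₁, H1⟩ := H η hη hηle (fun e => (o e Q : ℝ))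
    obtain ⟨δ₂, hδ₂, H2⟩ := NGS_delta P.support
      (fun e δ => ∀ v ∈ Tube c x y Q, Gauss v ![xa c x Q.1] →
        -δ < Real.log (v.v (xa c x Q.1)) →
        Real.log (v.v ((P.coeff e : KE K x y) : L)) =
          A e + (o e Q : ℝ) * Real.log (v.v (xa c x Q.1)))
      (fun e he => (hAo e he).2 Q hQ)
      (fun e δ δ' h1 h2 v hv hG hl => h1 v hv hG (by linarith))
    refine ⟨min δ₁ δ₂, lt_min hδ₁ hδ₂, ?_⟩
    intro τ hτ hτ0 hgen X hX hXT T hT
    have hτ1 : -δ₁ < τ := lt_of_le_of_lt (neg_le_neg (min_le_left _ _)) hτ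
    have hτ2 : -δ₂ < τ := lt_of_le_of_lt (neg_le_neg (min_le_right _ _)) hτ
    set v := pb (incE K L) X with hv
    obtain ⟨hGa, hlog⟩ := hX
    have hgen' : Generic K (logv v (cx c x Q.1 g)) := by rw [hlog]; exact hgen
    have hIn : Indep v (cx c x Q.1 g) := (hEmG.2.2 K L (m + 1) (cx c x Q.1 g) v).2 hgen'
    have hGE : GaussE x y v g := hInd K L m c x y t hN g Q.1 v hIn
    have hI1 : Indep v ![xa c x Q.1] := by
      intro k hk
      have hpr : ∏ i, (cx c x Q.1 g) i ^ (Fin.cons (k 0) (fun _ => 0) : Fin (m + 1) → ℤ) i =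
          ∏ i, ![xa c x Q.1] i ^ k i := by
        rw [Fin.prod_univ_succ, Fin.prod_univ_succ (n := 0)]
        simp [cx]
      have h1 := hIn (Fin.cons (k 0) (fun _ => 0)) (by
        obtain ⟨a, ha⟩ := hk
        exact ⟨a, ha.trans (by rw [hpr])⟩)
      funext i
      have h2 := congrFun h1 0
      rw [Fin.cons_zero] at h2
      have hi : i = 0 := Subsingleton.elim _ _
      rw [hi, h2]
      rfl
    have hG1 : Gauss v ![xa c x Q.1] := hIndG K L (algebraMap K L) 1 v _ hI1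
    have hlx : Real.log (v.v ((xa c x Q.1 : Lˣ) : L)) = τ := by
      have h1 := congrFun hlog 0
      rw [Fin.cons_zero] at h1
      rw [← h1]
      rfl
    have hlg : ∀ j : Fin m, logv v g j = s j := by
      intro j
      have h1 := congrFun hlog j.succ
      rw [Fin.cons_succ] at h1
      rw [← h1]
      rfl
    have hco : ∀ e ∈ P.support, Real.log (v.v ((P.coeff e : KE K x y) : L)) =
        A e + (o e Q : ℝ) * τ := by
      intro e he
      rw [H2 e he v hXT hG1 (by rw [hlx]; exact hτ2), hlx]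
    obtain ⟨C, hC⟩ := hPsi' X hGE
    obtain ⟨halg', hsub⟩ := hcx g halg Q.1
    have hE : (EmbE K x y g).Finite := (hfin _ halg').1.subset hsub
    have hnew : ∀ ρ : ℝ, C + κ * ∑ σ ∈ hE.toFinset, max ρ (Real.log (X.v (σ (h : L)))) =
        D * ⨆ e : P.support, ((A e.1 + ∑ j : Fin m, (e.1 j.succ : ℝ) * s j) +
          (o e.1 Q : ℝ) * τ + (e.1 0 : ℝ) * ρ) := by
      intro ρ
      have h1 := hC ρ
      rw [finsum_mem_eq_finite_toFinset_sum _ hE] at h1
      rw [h1]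
      congr 1
      refine congrArg iSup (funext fun e => ?_)
      rw [← hv, hco e.1 e.2]
      simp only [hlg]
      ring
    obtain ⟨r1, r2⟩ := H1 τ hτ1 hτ0 (L →ₐ[K] AlgebraicClosure L) hE.toFinset
      (fun σ => Real.log (X.v (σ (h : L)))) C hnew
    have hTT : T = hE.toFinset.filter fun σ => |Real.log (X.v (σ (h : L))) - ρ₀| < η := by
      apply Finset.coe_injective
      rw [hT]
      ext σ
      simp
    have hcard : D * ((e₁ 0 : ℝ) - (e₂ 0 : ℝ)) / κ = (T.card : ℝ) := by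
      rw [div_eq_iff hκ.ne', ← r1, hTT]
      ring
    have hNT : ⌊D * ((e₁ 0 : ℝ) - (e₂ 0 : ℝ)) / κ⌋₊ = T.card := by
      rw [hcard, Nat.floor_natCast]
    refine ⟨hNT.symm, ?_⟩
    rw [hNT, ← hcard]
    have h3 : κ * ∑ σ ∈ T, Real.log (X.v (σ (h : L))) =
        D * ((e₁ 0 : ℝ) - (e₂ 0 : ℝ)) * ρ₀ + D * ((o e₂ Q : ℝ) - (o e₁ Q : ℝ)) * τ := by
      rw [hTT]
      exact r2
    have h4 : ∑ σ ∈ T, Real.log (X.v (σ (h : L))) =
        (D * ((e₁ 0 : ℝ) - (e₂ 0 : ℝ)) * ρ₀ + D * ((o e₂ Q : ℝ) - (o e₁ Q : ℝ)) * τ) / κ := by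
      rw [eq_div_iff hκ.ne', ← h3]
      ring
    rw [h4]
    push_cast
    field_simp

end TDC
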