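import Pool.Agent.TDC.StN2

/-!
# TDN, module NGen: the tuple `g`.
-/

namespace TDC

open scoped Topology
open MeasureTheory

/-- an integer matrix which is transversal to finitely many matrices of full rank -/
private theorem NGen_matrix {n R : ℕ} (S : Finset (Matrix (Fin R) (Fin n) ℝ))
    (hS : ∀ A ∈ S, ∃ B : Matrix (Fin n) (Fin R) ℝ, (B * A).det ≠ 0) :
    ∃ B : Matrix (Fin n) (Fin R) ℤ, ∀ A ∈ S, (B.map (fun z : ℤ => (z : ℝ)) * A).det ≠ 0 := by
  classical
  let X : Matrix (Fin n) (Fin R) (MvPolynomial (Fin n × Fin R) ℝ) :=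
    Matrix.of fun i j => MvPolynomial.X (i, j)
  let D : Matrix (Fin R) (Fin n) ℝ → MvPolynomial (Fin n × Fin R) ℝ := fun A =>
    (X * A.map (fun a => (MvPolynomial.C a : MvPolynomial (Fin n × Fin R) ℝ))).det
  have hev : ∀ (A : Matrix (Fin R) (Fin n) ℝ) (z : Fin n × Fin R → ℝ),
      MvPolynomial.eval z (D A) = ((Matrix.of fun i j => z (i, j)) * A).det := by
    intro A z
    show MvPolynomial.eval z (Matrix.det _) = _
    rw [RingHom.map_det]
    congr 1
    ext i j
    simp [X, Matrix.mul_apply, RingHom.mapMatrix_apply]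
  have hD : ∀ A ∈ S, D A ≠ 0 := by
    intro A hA h0
    obtain ⟨B, hB⟩ := hS A hA
    apply hB
    have h1 := hev A (fun p => B p.1 p.2)
    rw [h0, map_zero] at h1
    exact h1.symm
  have hP : (∏ A ∈ S, D A) ≠ 0 := Finset.prod_ne_zero_iff.mpr hD
  have hinf : ∀ _ : Fin n × Fin R, (Set.range (fun z : ℤ => (z : ℝ))).Infinite := fun _ =>
    Set.infinite_range_of_injective Int.cast_injective
  have hex : ∃ x ∈ Set.pi Set.univ
      (fun _ : Fin n × Fin R => Set.range (fun z : ℤ => (z : ℝ))),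
      MvPolynomial.eval x (∏ A ∈ S, D A) ≠ 0 := by
    by_contra hne
    push Not at hne
    apply hP
    refine MvPolynomial.funext_set (fun _ : Fin n × Fin R => Set.range (fun z : ℤ => (z : ℝ)))
      hinf ?_
    intro x hx
    rw [hne x hx, map_zero]
  obtain ⟨x, hx, hxe⟩ := hex
  have hx' : ∀ p, ∃ z : ℤ, (z : ℝ) = x p := fun p => hx p (Set.mem_univ p)
  choose z hz using hx'
  refine ⟨Matrix.of fun i j => z (i, j), ?_⟩
  intro A hA
  rw [map_prod] at hxe
  have h3 := Finset.prod_ne_zero_iff.mp hxe A hA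
  rw [hev] at h3
  have h4 : (Matrix.of fun i j => z (i, j) : Matrix (Fin n) (Fin R) ℤ).map
      (fun z : ℤ => (z : ℝ)) = Matrix.of fun i j => x (i, j) := by
    ext i j
    simp [hz]
  rw [h4]
  exact h3

/-- value of a homomorphism on a product of powers -/
private theorem NGen_hom {M : Type} [Field M] {m : ℕ} (δ : Additive Mˣ →+ ℝ) (g : Fin m → Mˣ)
    (k : Fin m → ℤ) :
    δ (Additive.ofMul (∏ i, g i ^ k i)) = ∑ i, (k i : ℝ) * δ (Additive.ofMul (g i)) := by
  rw [ofMul_prod, map_sum]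
  refine Finset.sum_congr rfl fun i _ => ?_
  rw [ofMul_zpow, map_zsmul, zsmul_eq_mul]

/-- the determinant of a matrix with first row `(1, 0, ..., 0)` -/
private theorem NGen_det {m : ℕ} (N : Matrix (Fin (m + 1)) (Fin (m + 1)) ℝ)
    (h0 : ∀ j, N 0 j = if j = 0 then 1 else 0) :
    N.det = (N.submatrix Fin.succ Fin.succ).det := by
  rw [Matrix.det_succ_row_zero, Finset.sum_eq_single (0 : Fin (m + 1))]
  · rw [h0, if_pos rfl]
    simp only [Fin.val_zero, pow_zero, one_mul]
    rfl
  · intro j _ hj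
    rw [h0, if_neg hj]
    ring
  · intro h
    exact absurd (Finset.mem_univ _) h

theorem thm_NGen : St_NBas → St_NFUn → St_Tng → St_IndG → St_GenI → St_GEx → St_EmG →
    St_NGen := by
  intro hNBas hNFUn hTng hIndG hGenI hGEx hEmG K L _ _ _ _ m c x y t hN R F
  classical
  obtain ⟨hTr, -, -, -, ⟨-, hxa⟩, hAI, -⟩ := hNBas K L m c x y t hN
  obtain ⟨Fh, hFh⟩ : ∃ Fh : Fin (R + m) → Lˣ, Fh = Fin.append F t := ⟨_, rfl⟩
  have hsh := fun J : Fin m → Fin (R + m) => hNFUn K L m c x y t hN (R + m) Fh J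
  choose 𝓜 hsec hshe using hsh
  let S : Finset (Matrix (Fin (R + m)) (Fin m) ℝ) :=
    Finset.univ.biUnion fun J : Fin m → Fin (R + m) =>
      (𝓜 J).image fun A => A.submatrix id Fin.succ
  have hS : ∀ A ∈ S, ∃ B : Matrix (Fin m) (Fin (R + m)) ℝ, (B * A).det ≠ 0 := by
    intro A hA
    obtain ⟨J, _, hA'⟩ := Finset.mem_biUnion.mp hA
    obtain ⟨A₀, hA₀, rfl⟩ := Finset.mem_image.mp hA'
    refine ⟨Matrix.of fun i j => if j = J i then 1 else 0, ?_⟩
    have h1 : (Matrix.of fun i j => if j = J i then (1 : ℝ) else 0 :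
        Matrix (Fin m) (Fin (R + m)) ℝ) * A₀.submatrix id Fin.succ = 1 := by
      ext i j
      rw [Matrix.mul_apply]
      simp only [Matrix.of_apply, ite_mul, one_mul, zero_mul, Finset.sum_ite_eq',
        Finset.mem_univ, if_true, Matrix.submatrix_apply, id]
      rw [hsec J A₀ hA₀ i j.succ, Matrix.one_apply]
      by_cases hij : i = j
      · subst hij
        simp
      · rw [if_neg hij, if_neg fun h => hij (Fin.succ_injective _ h).symm]
    rw [h1, Matrix.det_one]
    exact one_ne_zero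
  obtain ⟨B, hB⟩ := NGen_matrix S hS
  obtain ⟨g, hg⟩ : ∃ g : Fin m → Lˣ, ∀ j, g j = ∏ i, Fh i ^ B j i := ⟨_, fun _ => rfl⟩
  have key : ∀ (a : ℂ) (J : Fin m → Fin (R + m)) (v : Pt (algebraMap K L)),
      Indep v (cx c x a (Fh ∘ J)) → Indep v (cx c x a g) := by
    intro a J v hv
    have hG := hIndG K L (algebraMap K L) (m + 1) v (cx c x a (Fh ∘ J)) hv
    obtain ⟨A₀, hA₀, hev⟩ := hshe J a v hG
    have hdet := hB (A₀.submatrix id Fin.succ) (Finset.mem_biUnion.mpr ⟨J, Finset.mem_univ _,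
      Finset.mem_image_of_mem _ hA₀⟩)
    obtain ⟨C, hC0, hCs⟩ : ∃ C : Matrix (Fin (m + 1)) (Fin (m + 1)) ℝ,
        (∀ j, C 0 j = if j = 0 then 1 else 0) ∧
        ∀ i j, C (Fin.succ i) j = (B.map (fun z : ℤ => (z : ℝ)) * A₀) i j :=
      ⟨Matrix.of (Fin.cons (fun j => if j = 0 then 1 else 0)
        (fun i j => (B.map (fun z : ℤ => (z : ℝ)) * A₀) i j)), fun _ => rfl, fun _ _ => rfl⟩
    have hCdet : C.det ≠ 0 := by
      rw [NGen_det C hC0]
      have h2 : C.submatrix Fin.succ Fin.succ =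
          B.map (fun z : ℤ => (z : ℝ)) * A₀.submatrix id Fin.succ := by
        ext i j
        rw [Matrix.submatrix_apply, hCs, Matrix.mul_apply, Matrix.mul_apply]
        rfl
      rw [h2]
      exact hdet
    have hgC : ∀ ε : Tan v, ev (cx c x a g) ε = C.mulVec (ev (cx c x a (Fh ∘ J)) ε) := by
      intro ε
      funext i
      refine Fin.cases ?_ (fun j => ?_) i
      · show _ = ∑ j, C 0 j * ev (cx c x a (Fh ∘ J)) ε j
        rw [Finset.sum_eq_single (0 : Fin (m + 1))]
        · rw [hC0, if_pos rfl, one_mul]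
          rfl
        · intro j _ hj
          rw [hC0, if_neg hj, zero_mul]
        · intro h
          exact absurd (Finset.mem_univ _) h
      · have h3 : ev (cx c x a g) ε j.succ = ε.1 (Additive.ofMul (g j)) := rfl
        rw [h3, hg, NGen_hom]
        have h4 : C.mulVec (ev (cx c x a (Fh ∘ J)) ε) j.succ =
            (B.map (fun z : ℤ => (z : ℝ)) * A₀).mulVec (ev (cx c x a (Fh ∘ J)) ε) j := by
          show ∑ l : Fin (m + 1), C j.succ l * _ = ∑ l : Fin (m + 1), _ * _
          refine Finset.sum_congr rfl fun l _ => ?_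
          rw [hCs]
        rw [h4, ← Matrix.mulVec_mulVec, ← hev ε]
        rfl
    intro k hk
    have hz : ∀ ε : Tan v, ∑ j, (k j : ℝ) * ev (cx c x a g) ε j = 0 := by
      intro ε
      have h1 := ε.2 _ hk
      rw [NGen_hom] at h1
      exact h1
    funext j
    obtain ⟨ε, hε⟩ := (hTng K L (m + 1) hTr v (cx c x a (Fh ∘ J)) hv).1
      (C⁻¹.mulVec (Pi.single j 1))
    have h2 := hz ε
    rw [hgC ε, hε, Matrix.mulVec_mulVec, Matrix.mul_nonsing_inv _ (Ne.isUnit hCdet),
      Matrix.one_mulVec] at h2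
    simp only [Pi.single_apply, mul_ite, mul_one, mul_zero, Finset.sum_ite_eq', Finset.mem_univ,
      if_true] at h2
    exact_mod_cast h2
  refine ⟨g, ?_, ?_⟩
  · -- algebraic independence
    obtain ⟨s, -, hs⟩ := hGenI.1 K (m + 1) hN.cnt Set.univ isOpen_univ Set.univ_nonempty
    obtain ⟨X, hX⟩ := hGEx K L (m + 1) hTr (cx c x 0 t) (hAI t hN.eFun.ind 0).1 s hs
    have hind : Indep (pb (incE K L) X) (cx c x 0 t) := by
      refine hGenI.2 K L (algebraMap K L) (m + 1) _ _ ?_
      rw [hX.2]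
      exact hs
    have ht : Fh ∘ (Fin.natAdd R : Fin m → Fin (R + m)) = t := by
      funext i
      rw [hFh]
      exact Fin.append_right F t i
    have hind2 : Indep (pb (incE K L) X) (cx c x 0 g) := by
      refine key 0 (Fin.natAdd R) _ ?_
      rw [ht]
      exact hind
    have hga := hIndG K L (algebraMap K L) (m + 1) _ _ hind2
    have hai := hEmG.2.1 K L (m + 1) (cx c x 0 g) _ hga
    have he : (Fin.cons x (fun i => (g i : L)) : Fin (m + 1) → L) =
        fun i => (cx c x 0 g i : L) := by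
      funext i
      refine Fin.cases ?_ (fun j => ?_) i
      · show x = ((xa c x 0 : Lˣ) : L)
        rw [(hxa 0).1, map_zero, map_zero, sub_zero]
      · rfl
    rw [he]
    exact hai
  · intro a J v hv
    refine key a (Fin.castAdd m ∘ J) v ?_
    have hF : Fh ∘ (Fin.castAdd m ∘ J) = F ∘ J := by
      funext i
      rw [hFh]
      exact Fin.append_left F t (J i)
    rw [hF]
    exact hv

end TDC
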