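import Pool.Agent.TDC.StN

/-!
# TDN: module NInd, independent values give the Gauss property over `K(E)`
-/

set_option autoImplicit false

namespace TDC

open scoped Topology

/-- The strict ultrametric inequality. -/
private lemma NInd_lt {M : Type} [Field M] (v : AbsoluteValue M ℝ)
    (na : ∀ a b, v (a + b) ≤ max (v a) (v b)) (a b : M) (h : v a < v b) : v (a + b) = v b := by
  apply le_antisymm
  · exact (na a b).trans (max_le h.le le_rfl)
  · have h1 : v b ≤ max (v (a + b)) (v (-a)) := by
      have h2 := na (a + b) (-a)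
      have h3 : a + b + -a = b := by ring
      rwa [h3] at h2
    rw [v.map_neg] at h1
    rcases le_max_iff.mp h1 with h4 | h4
    · exact h4
    · exact absurd h4 (not_le.mpr h)

/-- The value of a sum of elements with pairwise different values is the maximum. -/
private lemma NInd_max {M ι : Type} [Field M] [DecidableEq ι] (v : AbsoluteValue M ℝ)
    (na : ∀ a b, v (a + b) ≤ max (v a) (v b)) (m : ι → M) (s : Finset ι) :
    (∀ d ∈ s, ∀ e ∈ s, v (m d) = v (m e) → d = e) → s.Nonempty →
      ∃ d₀ ∈ s, (∀ d ∈ s, v (m d) ≤ v (m d₀)) ∧ v (∑ d ∈ s, m d) = v (m d₀) := by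
  induction s using Finset.induction_on with
  | empty =>
    intro _ h
    exact absurd h (by simp)
  | insert a s ha ih =>
    intro hs _
    rcases s.eq_empty_or_nonempty with h0 | h0
    · subst h0
      refine ⟨a, Finset.mem_insert_self _ _, ?_, by simp⟩
      intro d hd
      rw [Finset.mem_insert] at hd
      rcases hd with rfl | hd
      · exact le_rfl
      · exact absurd hd (Finset.notMem_empty _)
    · obtain ⟨d₀, hd₀, h1, h2⟩ := ih
        (fun d hd e he => hs d (Finset.mem_insert_of_mem hd) e (Finset.mem_insert_of_mem he)) h0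
      rw [Finset.sum_insert ha]
      rcases lt_trichotomy (v (m a)) (v (m d₀)) with h3 | h3 | h3
      · refine ⟨d₀, Finset.mem_insert_of_mem hd₀, ?_, ?_⟩
        · intro d hd
          rcases Finset.mem_insert.mp hd with rfl | hd
          · exact h3.le
          · exact h1 d hd
        · rw [NInd_lt v na _ _ (by rw [h2]; exact h3), h2]
      · exfalso
        have h4 := hs a (Finset.mem_insert_self _ _) d₀ (Finset.mem_insert_of_mem hd₀) h3
        rw [h4] at ha
        exact ha hd₀
      · refine ⟨a, Finset.mem_insert_self _ _, ?_, ?_⟩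
        · intro d hd
          rcases Finset.mem_insert.mp hd with rfl | hd
          · exact le_rfl
          · exact (h1 d hd).trans h3.le
        · rw [add_comm, NInd_lt v na _ _ (by rw [h2]; exact h3)]

/-- transcendence degree of `K(x, y)` -/
private theorem NInd_tr {K L : Type} [Field K] [Field L] [Algebra K L] (x y : L)
    (hxy : y ^ 2 = x ^ 3 + 1) : TrLe K (KE K x y) 1 := by
  have hx : x ∈ KE K x y := IntermediateField.subset_adjoin K _ (by simp)
  have hy : y ∈ KE K x y := IntermediateField.subset_adjoin K _ (by simp)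
  obtain ⟨x', hx'⟩ : ∃ x' : KE K x y, x' = ⟨x, hx⟩ := ⟨_, rfl⟩
  obtain ⟨y', hy'⟩ : ∃ y' : KE K x y, y' = ⟨y, hy⟩ := ⟨_, rfl⟩
  have hxy' : y' ^ 2 = x' ^ 3 + 1 := by
    apply Subtype.ext
    rw [hx', hy']
    exact hxy
  have htop : IntermediateField.adjoin K ({x', y'} : Set (KE K x y)) = ⊤ := by
    apply IntermediateField.map_injective (IntermediateField.val (KE K x y))
    rw [IntermediateField.adjoin_map, ← AlgHom.fieldRange_eq_map,
      IntermediateField.fieldRange_val, Set.image_pair, hx', hy']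
    rfl
  have halg0 : ∀ r ∈ Algebra.adjoin K ({x', y'} : Set (KE K x y)),
      IsAlgebraic (Algebra.adjoin K ({x'} : Set (KE K x y))) r := by
    intro r hr
    induction hr using Algebra.adjoin_induction with
    | mem z hz =>
      rcases hz with hz | hz
      · rw [hz]
        exact isAlgebraic_algebraMap
          (⟨x', Algebra.subset_adjoin (Set.mem_singleton x')⟩ :
            Algebra.adjoin K ({x'} : Set (KE K x y)))
      · rw [Set.mem_singleton_iff.1 hz]
        have h1 : IsAlgebraic (Algebra.adjoin K ({x'} : Set (KE K x y))) (y' ^ 2) := by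
          rw [hxy']
          have h2 : IsAlgebraic (Algebra.adjoin K ({x'} : Set (KE K x y))) x' :=
            isAlgebraic_algebraMap
              (⟨x', Algebra.subset_adjoin (Set.mem_singleton x')⟩ :
                Algebra.adjoin K ({x'} : Set (KE K x y)))
          exact (h2.pow 3).add isAlgebraic_one
        exact IsAlgebraic.of_pow (by norm_num) h1
    | algebraMap z =>
      exact isAlgebraic_algebraMap
        (algebraMap K (Algebra.adjoin K ({x'} : Set (KE K x y))) z)
    | add a b _ _ ha hb => exact ha.add hb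
    | mul a b _ _ ha hb => exact ha.mul hb
  have halg : Algebra.IsAlgebraic (Algebra.adjoin K ({x'} : Set (KE K x y))) (KE K x y) := by
    refine ⟨fun f => ?_⟩
    have hf : f ∈ IntermediateField.adjoin K ({x', y'} : Set (KE K x y)) := by
      rw [htop]; exact IntermediateField.mem_top
    obtain ⟨r, hr, s, hs, hrs⟩ := IntermediateField.mem_adjoin_iff_div.1 hf
    rw [hrs, div_eq_mul_inv]
    exact (halg0 r hr).mul (halg0 s hs).inv
  intro g hg
  have h1 := hg.cardinalMk_le_trdeg
  have h2 := Algebra.IsAlgebraic.trdeg_le_cardinalMk K ({x'} : Set (KE K x y))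
  have h4 := h1.trans h2
  rw [Cardinal.mk_fin, Cardinal.mk_singleton] at h4
  have h5 : (1 + 1 : ℕ) ≤ 1 := by exact_mod_cast h4
  omega

/-- the restriction of a point to `K(x, y)` -/
private noncomputable def NInd_pt {K L : Type} [NormedField K] [Field L] [Algebra K L] (x y : L)
    (v : Pt (algebraMap K L)) : Pt (algebraMap K (KE K x y)) where
  v := v.v.comp (algebraMap (KE K x y) L).injective
  na := fun a b => by
    show v.v (algebraMap (KE K x y) L (a + b)) ≤ _
    rw [map_add]; exact v.na _ _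
  ext := fun a => v.ext a

theorem thm_NInd (hM : St_MLoc) (hB : St_NBas) : St_NInd := by
  classical
  intro K L _ _ _ _ m c x y t hN g a v hv P e
  obtain ⟨-, -, -, -, ⟨-, hxa⟩, -, -⟩ := hB K L m c x y t hN
  have hx : x ∈ KE K x y := IntermediateField.subset_adjoin K _ (by simp)
  have hpos : ∀ i, 0 < v.v (g i : L) := fun i => v.v.pos (g i).ne_zero
  have hxapos : 0 < v.v ((xa c x a : Lˣ) : L) := v.v.pos (xa c x a).ne_zero
  -- the element `x - a` of `K(x, y)`
  obtain ⟨z, hz⟩ : ∃ z : KE K x y, z = ⟨x, hx⟩ - algebraMap K (KE K x y) (c a) := ⟨_, rfl⟩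
  have hzL : (z : L) = ((xa c x a : Lˣ) : L) := by
    rw [hz, (hxa a).1]
    rfl
  have hz0 : z ≠ 0 := by
    intro h
    apply (xa c x a).ne_zero
    rw [← hzL, h]
    rfl
  have hind : Indep (NInd_pt x y v) (fun _ : Fin 1 => Units.mk0 z hz0) := by
    intro k hk
    obtain ⟨b, hb⟩ := hk
    have h1 := hv (Fin.cons (k 0) (fun _ => 0)) ⟨b, ?_⟩
    · ext i
      have h2 := congrFun h1 0
      have h3 : i = 0 := Subsingleton.elim _ _
      rw [h3]
      exact h2
    · rw [hb, Fin.prod_univ_one]
      unfold cx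
      rw [Fin.prod_univ_succ]
      simp only [Fin.cons_zero, Fin.cons_succ, zpow_zero, Finset.prod_const_one, mul_one]
      rw [Units.val_zpow_eq_zpow_val, Units.val_zpow_eq_zpow_val]
      show v.v (algebraMap (KE K x y) L (((Units.mk0 z hz0 : (KE K x y)ˣ) : KE K x y) ^ k 0)) = _
      rw [map_zpow₀]
      show v.v ((z : L) ^ k 0) = _
      rw [hzL]
  have hloc : ∀ w : KE K x y, w ≠ 0 → ∃ (N : ℕ) (k : ℤ) (b : K), 0 < N ∧ b ≠ 0 ∧
      v.v (w : L) ^ N = ‖b‖ * v.v ((xa c x a : Lˣ) : L) ^ k := by
    intro w hw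
    obtain ⟨N, k, b, hN0, hb, h1⟩ := hM K (KE K x y) 1 (NInd_tr x y hN.eFun.eq)
      (NInd_pt x y v) (fun _ => Units.mk0 z hz0) hind (Units.mk0 w hw)
    refine ⟨N, k 0, b, hN0, hb, ?_⟩
    have h2 := h1.self_of_nhds
    rw [Fin.prod_univ_one] at h2
    have h3 : v.v (w : L) ^ N = ‖b‖ * v.v (z : L) ^ k 0 := h2
    rw [h3, hzL]
  have hmon : ∀ (d : Fin m →₀ ℕ),
      v.v (algebraMap (KE K x y) L (P.coeff d) * ∏ i, (g i : L) ^ d i) =
        v.v ((P.coeff d : KE K x y) : L) * ∏ i, v.v (g i) ^ d i := by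
    intro d
    rw [map_mul, map_prod]
    simp only [map_pow]
    rfl
  by_cases he : P.coeff e = 0
  · rw [he]
    have h1 : ((0 : KE K x y) : L) = 0 := rfl
    rw [h1, map_zero, zero_mul]
    exact v.v.nonneg _
  have hinj : ∀ d ∈ P.support, ∀ d' ∈ P.support,
      v.v (algebraMap (KE K x y) L (P.coeff d) * ∏ i, (g i : L) ^ d i) =
        v.v (algebraMap (KE K x y) L (P.coeff d') * ∏ i, (g i : L) ^ d' i) → d = d' := by
    intro d hd d' hd' h
    rw [hmon, hmon] at h
    have hc : P.coeff d ≠ 0 := MvPolynomial.mem_support_iff.mp hd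
    have hc' : P.coeff d' ≠ 0 := MvPolynomial.mem_support_iff.mp hd'
    obtain ⟨N, k, b, hN0, hb, hw⟩ := hloc (P.coeff d / P.coeff d') (div_ne_zero hc hc')
    have hcL : 0 < v.v ((P.coeff d : KE K x y) : L) := v.v.pos (by
      intro h1
      exact hc (Subtype.ext h1))
    have hcL' : 0 < v.v ((P.coeff d' : KE K x y) : L) := v.v.pos (by
      intro h1
      exact hc' (Subtype.ext h1))
    have hdiv : (((P.coeff d / P.coeff d' : KE K x y)) : L) =
        ((P.coeff d : KE K x y) : L) / ((P.coeff d' : KE K x y) : L) := rfl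
    rw [hdiv, map_div₀] at hw
    have hb0 : 0 < ‖b‖ := norm_pos_iff.mpr hb
    have hk := hv (Fin.cons k (fun i => (N : ℤ) * ((d i : ℤ) - (d' i : ℤ)))) ⟨b⁻¹, ?_⟩
    · ext i
      have h1 := congrFun hk i.succ
      simp only [Fin.cons_succ, Pi.zero_apply] at h1
      have h2 : (N : ℤ) ≠ 0 := by exact_mod_cast hN0.ne'
      have h3 : (d i : ℤ) - (d' i : ℤ) = 0 := by
        rcases mul_eq_zero.1 h1 with h4 | h4
        · exact absurd h4 h2
        · exact h4
      omega
    · unfold cx
      rw [Fin.prod_univ_succ]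
      simp only [Fin.cons_zero, Fin.cons_succ]
      rw [Units.val_mul, map_mul, Units.val_zpow_eq_zpow_val, map_zpow₀, Units.coe_prod, map_prod]
      have h2 : ∏ i, v.v (((g i ^ ((N : ℤ) * ((d i : ℤ) - (d' i : ℤ))) : Lˣ)) : L) =
          ((∏ i, v.v (g i) ^ d i) / ∏ i, v.v (g i) ^ d' i) ^ N := by
        rw [← Finset.prod_div_distrib, ← Finset.prod_pow]
        refine Finset.prod_congr rfl fun i _ => ?_
        rw [Units.val_zpow_eq_zpow_val, map_zpow₀, mul_comm, zpow_mul, zpow_sub₀ (hpos i).ne',
          zpow_natCast, zpow_natCast, zpow_natCast]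
      rw [h2]
      have h3 : 0 < ∏ i, v.v (g i : L) ^ d' i := Finset.prod_pos fun i _ => pow_pos (hpos i) _
      have h5 : 0 < ∏ i, v.v (g i : L) ^ d i := Finset.prod_pos fun i _ => pow_pos (hpos i) _
      have h6 : (∏ i, v.v (g i : L) ^ d i) / ∏ i, v.v (g i : L) ^ d' i =
          (v.v ((P.coeff d : KE K x y) : L) / v.v ((P.coeff d' : KE K x y) : L))⁻¹ := by
        rw [inv_div, div_eq_div_iff h3.ne' hcL.ne']
        linarith
      rw [h6, inv_pow, hw, norm_inv, mul_inv]
      have h7 : 0 < v.v ((xa c x a : Lˣ) : L) ^ k := zpow_pos hxapos k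
      field_simp
  have hmem : e ∈ P.support := MvPolynomial.mem_support_iff.mpr he
  obtain ⟨d₀, _, h1, h2⟩ := NInd_max v.v v.na
    (fun d : Fin m →₀ ℕ => algebraMap (KE K x y) L (P.coeff d) * ∏ i, (g i : L) ^ d i)
    P.support hinj ⟨e, hmem⟩
  rw [← hmon e, MvPolynomial.aeval_def, MvPolynomial.eval₂_eq', h2]
  exact h1 e hmem

end TDC
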