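import Pool.Agent.TDC.NKex

/-!
# TDN: [NKac] existence of an algebraically closed base field: the completion of the algebraic
closure of `ℂ((X))`
-/

namespace TDC

open Polynomial UniformSpace

/-- **NKac**. An algebraically closed complete field `K` with `ResC` and countable value group. -/
def St_NKac : Prop :=
  ∃ (K : Type) (_ : NontriviallyNormedField K) (_ : IsUltrametricDist K) (_ : CompleteSpace K)
    (c : ℂ →+* K), IsAlgClosed K ∧ ResC c ∧ (Set.range fun a : K => ‖a‖).Countable

section algcl

variable (K : Type) [NontriviallyNormedField K] [IsUltrametricDist K] [CompleteSpace K]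

omit [IsUltrametricDist K] [CompleteSpace K] in
/-- residues of algebraic elements -/
private theorem NKac_res (c : ℂ →+* K) (hc : ResC c) (Ω : Type) [NormedField Ω]
    [IsUltrametricDist Ω] [Algebra K Ω] (hext : ∀ a : K, ‖algebraMap K Ω a‖ = ‖a‖) (z : Ω)
    (hz : ‖z‖ ≤ 1) (p : K[X]) (hp : p.Monic) (hd : p.natDegree ≠ 0)
    (hcoef : ∀ n, ‖p.coeff n‖ ≤ 1) (hroot : aeval z p = 0) :
    ∃ a : ℂ, ‖z - algebraMap K Ω (c a)‖ < 1 := by
  choose r hr using fun n : ℕ => hc.res (p.coeff n) (hcoef n)
  -- the reduction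
  set q : ℂ[X] := X ^ p.natDegree + ∑ n ∈ Finset.range p.natDegree, C (r n) * X ^ n with hq
  have hlow : (∑ n ∈ Finset.range p.natDegree, C (r n) * X ^ n).degree <
      (p.natDegree : WithBot ℕ) := by
    refine lt_of_le_of_lt (degree_sum_le _ _) ?_
    rw [Finset.sup_lt_iff (WithBot.bot_lt_coe _)]
    intro n hn
    refine lt_of_le_of_lt (degree_C_mul_X_pow_le _ _) ?_
    exact WithBot.coe_lt_coe.2 (Finset.mem_range.1 hn)
  have hqm : q.Monic := monic_X_pow_add hlow
  have hsplit := IsAlgClosed.splits q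
  have hprod : q = (q.roots.map fun a => X - C a).prod := by
    have := hsplit.eq_prod_roots
    rw [hqm.leadingCoeff, C_1, one_mul] at this
    exact this
  by_contra hno
  push Not at hno
  have h1 : 1 ≤ ‖q.eval₂ ((algebraMap K Ω).comp c) z‖ := by
    rw [hprod, eval₂_multiset_prod, Multiset.map_map]
    have hge : ∀ s : Multiset ℂ, 1 ≤ ‖(s.map (eval₂ ((algebraMap K Ω).comp c) z ∘
        fun a => X - C a)).prod‖ := by
      intro s
      induction s using Multiset.induction_on with
      | empty => simp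
      | cons a s ih =>
        rw [Multiset.map_cons, Multiset.prod_cons, norm_mul]
        have h2 : (eval₂ ((algebraMap K Ω).comp c) z ∘ fun a => X - C a) a =
            z - algebraMap K Ω (c a) := by
          simp
        rw [h2]
        exact one_le_mul_of_one_le_of_one_le (hno a) ih
    exact hge _
  have h2 : q.eval₂ ((algebraMap K Ω).comp c) z =
      ∑ n ∈ Finset.range p.natDegree, (algebraMap K Ω (c (r n) - p.coeff n)) * z ^ n := by
    have e1 : q.eval₂ ((algebraMap K Ω).comp c) z = z ^ p.natDegree +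
        ∑ n ∈ Finset.range p.natDegree, algebraMap K Ω (c (r n)) * z ^ n := by
      rw [hq, eval₂_add, eval₂_X_pow, eval₂_finsetSum]
      congr 1
      refine Finset.sum_congr rfl fun n _ => ?_
      rw [eval₂_mul, eval₂_C, eval₂_X_pow]
      rfl
    have e2 : z ^ p.natDegree = - ∑ n ∈ Finset.range p.natDegree,
        algebraMap K Ω (p.coeff n) * z ^ n := by
      have h3 := hroot
      rw [aeval_eq_sum_range, Finset.sum_range_succ, hp.coeff_natDegree, one_smul] at h3
      rw [eq_neg_iff_add_eq_zero, add_comm]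
      rw [← h3]
      congr 1
      exact Finset.sum_congr rfl fun n _ => (Algebra.smul_def _ _).symm
    rw [e1, e2, neg_add_eq_sub, ← Finset.sum_sub_distrib]
    refine Finset.sum_congr rfl fun n _ => ?_
    rw [map_sub, sub_mul]
  have h3 : ‖q.eval₂ ((algebraMap K Ω).comp c) z‖ < 1 := by
    rw [h2]
    have hne : (Finset.range p.natDegree).Nonempty := Finset.nonempty_range_iff.2 hd
    obtain ⟨n, hn, hle⟩ := IsUltrametricDist.exists_norm_finsetSum_le_of_nonempty hne
      (fun n => (algebraMap K Ω (c (r n) - p.coeff n)) * z ^ n)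
    refine lt_of_le_of_lt hle ?_
    rw [norm_mul, hext, norm_pow, norm_sub_rev]
    calc ‖p.coeff n - c (r n)‖ * ‖z‖ ^ n ≤ ‖p.coeff n - c (r n)‖ * 1 := by
          gcongr
          exact pow_le_one₀ (norm_nonneg _) hz
      _ < 1 := by rw [mul_one]; exact hr n
  exact absurd h3 (not_lt.2 h1)

/-- the algebraic closure -/
private theorem NKac_A (c : ℂ →+* K) (hc : ResC c) (hcnt : (Set.range fun a : K => ‖a‖).Countable) :
    ∃ (Ω : Type) (_ : NontriviallyNormedField Ω) (_ : IsUltrametricDist Ω) (c' : ℂ →+* Ω),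
      IsAlgClosed Ω ∧ ResC c' ∧ (Set.range fun a : Ω => ‖a‖).Countable := by
  let nf : NontriviallyNormedField (AlgebraicClosure K) :=
    spectralNorm.nontriviallyNormedField K (AlgebraicClosure K)
  have hnorm : ∀ z : AlgebraicClosure K, ‖z‖ = spectralNorm K (AlgebraicClosure K) z :=
    fun z => rfl
  have hum : IsUltrametricDist (AlgebraicClosure K) :=
    IsUltrametricDist.isUltrametricDist_of_forall_norm_add_le_max_norm
      (isNonarchimedean_spectralNorm (K := K) (L := AlgebraicClosure K))
  have hext : ∀ a : K, ‖algebraMap K (AlgebraicClosure K) a‖ = ‖a‖ := fun a => by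
    rw [hnorm, spectralNorm_extends]
  refine ⟨AlgebraicClosure K, nf, hum, (algebraMap K (AlgebraicClosure K)).comp c,
    inferInstance, ⟨?_, ?_⟩, ?_⟩
  · intro a ha
    rw [RingHom.comp_apply, hext, hc.one a ha]
  · intro z hz
    have hint : IsIntegral K z := Algebra.IsIntegral.isIntegral z
    have hm : (minpoly K z).Monic := minpoly.monic hint
    refine NKac_res K c hc (AlgebraicClosure K) hext z hz (minpoly K z) hm
      (minpoly.natDegree_pos hint).ne' ?_ (minpoly.aeval K z)
    rw [← spectralValue_le_one_iff hm]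
    exact hz
  · refine Set.Countable.mono ?_ ((hcnt.prod (Set.countable_univ (α := ℕ))).image
      fun w : ℝ × ℕ => w.1 ^ (1 / w.2 : ℝ))
    rintro _ ⟨z, rfl⟩
    refine ⟨(‖(minpoly K z).coeff 0‖, (minpoly K z).natDegree), ⟨⟨_, rfl⟩, Set.mem_univ _⟩, ?_⟩
    show _ = ‖z‖
    rw [hnorm, spectralNorm.spectralNorm_eq_norm_coeff_zero_rpow]

end algcl

/-- the completion -/
private theorem NKac_B (Ω : Type) [NontriviallyNormedField Ω] [IsUltrametricDist Ω]
    [IsAlgClosed Ω] (c : ℂ →+* Ω) (hc : ResC c)
    (hcnt : (Set.range fun a : Ω => ‖a‖).Countable) : St_NKac := by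
  have hnorm : ∀ z : Ω, ‖(z : Completion Ω)‖ = ‖z‖ := fun z => Completion.norm_coe z
  let nf : NontriviallyNormedField (Completion Ω) :=
    { (inferInstance : NormedField (Completion Ω)) with
      non_trivial := by
        obtain ⟨x, hx⟩ := NontriviallyNormedField.non_trivial (α := Ω)
        exact ⟨x, by rw [hnorm]; exact hx⟩ }
  have hum : IsUltrametricDist (Completion Ω) := IsUltrametricDist.of_normedAlgebra Ω
  have happrox : ∀ z : Completion Ω, ∀ ε > 0, ∃ w : Ω, ‖z - (w : Completion Ω)‖ < ε := by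
    intro z ε hε
    obtain ⟨w, hw⟩ := (Metric.denseRange_iff.1 (Completion.denseRange_coe (α := Ω))) z ε hε
    exact ⟨w, by rw [← dist_eq_norm]; exact hw⟩
  have hchar : CharZero Ω := (RingHom.charZero_iff c.injective).1 inferInstance
  have hchar' : CharZero (Completion Ω) :=
    (RingHom.charZero_iff (algebraMap Ω (Completion Ω)).injective).1 inferInstance
  refine ⟨Completion Ω, nf, hum, inferInstance, (algebraMap Ω (Completion Ω)).comp c,
    IsAlgClosed.of_denseRange (K := Ω) Completion.denseRange_coe, ⟨?_, ?_⟩, ?_⟩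
  · intro a ha
    rw [← hc.one a ha]
    exact hnorm (c a)
  · intro z hz
    obtain ⟨w, hw⟩ := happrox z 1 one_pos
    have hw1 : ‖w‖ ≤ 1 := by
      rw [← hnorm]
      have : (w : Completion Ω) = z + (w - z) := by ring
      rw [this]
      refine (IsUltrametricDist.norm_add_le_max _ _).trans (max_le hz ?_)
      rw [norm_sub_rev]
      exact hw.le
    obtain ⟨a, ha⟩ := hc.res w hw1
    refine ⟨a, ?_⟩
    have h1 : z - ((algebraMap Ω (Completion Ω)).comp c) a =
        (z - (w : Completion Ω)) + ((w - c a : Ω) : Completion Ω) := by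
      rw [Completion.coe_sub]
      show z - (c a : Completion Ω) = _
      ring
    rw [h1]
    refine (IsUltrametricDist.norm_add_le_max _ _).trans_lt (max_lt hw ?_)
    rw [hnorm]
    exact ha
  · refine hcnt.mono ?_
    rintro _ ⟨z, rfl⟩
    by_cases hz : z = 0
    · exact ⟨0, by rw [hz]; simp⟩
    · obtain ⟨w, hw⟩ := happrox z ‖z‖ (norm_pos_iff.2 hz)
      refine ⟨w, ?_⟩
      show ‖w‖ = ‖z‖
      have h1 := IsUltrametricDist.norm_eq_of_add_norm_lt_max (x := z) (y := -(w : Completion Ω))
        (by rw [← sub_eq_add_neg]; exact hw.trans_le (le_max_left _ _))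
      rw [norm_neg, hnorm] at h1
      exact h1.symm

theorem thm_NKac : St_NKac := by
  obtain ⟨K, h1, h2, h3, c, hc, hcnt⟩ := thm_NKex
  obtain ⟨Ω, h4, h5, c', h6, h7, h8⟩ := NKac_A K c hc hcnt
  exact NKac_B Ω c' h7 h8

end TDC
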