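import Pool.Agent.TDC.StN2

/-!
# TDN, module NMea: measurability of the weights
-/

namespace TDC

open scoped Topology
open MeasureTheory

private theorem NMea_wtS {K L : Type} [NormedField K] [Field L] [Algebra K L] {n : ℕ}
    (g : Fin n → Lˣ) (S : Set (L →ₐ[K] AlgebraicClosure L)) :
    0 ≤ wtS K g S ∧ wtS K g S ≤ dg K g := by
  have h0 : 0 ≤ dg K g := by unfold dg; positivity
  have h1 : 0 ≤ ((Emb K g ∩ S).ncard : ℝ) / ((Emb K g).ncard : ℝ) := by positivity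
  have h2 : ((Emb K g ∩ S).ncard : ℝ) / ((Emb K g).ncard : ℝ) ≤ 1 := by
    by_cases hf : (Emb K g).Finite
    · apply div_le_one_of_le₀ _ (by positivity)
      exact_mod_cast Set.ncard_le_ncard Set.inter_subset_left hf
    · have h3 : (Emb K g).ncard = 0 := Set.Infinite.ncard hf
      rw [h3]
      simp
  unfold wtS
  exact ⟨mul_nonneg h0 h1, mul_le_of_le_one_right h0 h2⟩

private theorem NMea_cw {K L : Type} [NormedField K] [Field L] [Algebra K L] {n R : ℕ}
    (g : Fin n → Lˣ) (F : Fin R → Lˣ) (s : Fin n → ℝ) (p : Fin R → ℝ) :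
    0 ≤ cw K g F s p ∧ cw K g F s p ≤ dg K g := by
  unfold cw
  split_ifs with h
  · exact NMea_wtS g _
  · exact ⟨le_rfl, by unfold dg; positivity⟩

theorem thm_NMea : St_EmF → St_Loc → St_BaJ → St_NMea := by
  classical
  intro _ hLoc hBaJ K L _ _ _ _ n R hn hTr hFG hc F I J 𝒦 hS hRef
  refine ⟨fun s p => NMea_cw _ _ _ _, ?_⟩
  intro k hk hdet
  obtain ⟨𝒢, hBal, _, _, _⟩ := hBaJ K L n R hn hTr hFG hc F I J 𝒦 hS hRef
  obtain ⟨c', _, hc', _⟩ := hLoc R n _ 𝒢 _ hBal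
  have hmem : rp J k ∈ (𝒦.filter fun k => (k.1.submatrix J id).det ≠ 0).image (rp J) :=
    Finset.mem_image_of_mem _ (Finset.mem_filter.2 ⟨hk, hdet⟩)
  obtain ⟨hm, hae⟩ := hc' (rp J k) (by
    rw [Finset.mem_image] at hmem ⊢
    obtain ⟨a, ha, hb⟩ := hmem
    refine ⟨a, ?_, hb⟩
    rw [Finset.mem_filter] at ha ⊢
    exact ha)
  exact (hm.aestronglyMeasurable).congr hae.symm

end TDC
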