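import Pool.Agent.TDC.StN

/-!
# TDN, module NPol: Newton polygons, the real lemma
-/

namespace TDC

open scoped Topology

private lemma NPol_aff (A B η t : ℝ) (hη : 0 < η) (h1 : η / 2 ≤ t) (h2 : t ≤ 2 * η)
    (ha : 0 < A + B * (η / 2)) (hb : 0 < A + B * (2 * η)) : 0 ≤ A + B * t := by
  have h3 : (A + B * t) * (3 / 2 * η) =
      (A + B * (η / 2)) * (2 * η - t) + (A + B * (2 * η)) * (t - η / 2) := by ring
  have h4 : 0 ≤ (A + B * t) * (3 / 2 * η) := by
    rw [h3]
    exact add_nonneg (mul_nonneg ha.le (by linarith)) (mul_nonneg hb.le (by linarith))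
  by_contra hcon
  push Not at hcon
  have : (A + B * t) * (3 / 2 * η) < 0 := mul_neg_of_neg_of_pos hcon (by linarith)
  linarith

/-- domination on one side -/
private lemma NPol_dom {E : Type} (S : Finset E) (b s : E → ℝ) (e₁ : E)
    (h : ∀ e ∈ S, e ≠ e₁ → b e < b e₁ ∨ (b e = b e₁ ∧ s e < s e₁)) :
    ∃ η₀ : ℝ, 0 < η₀ ∧ ∀ η : ℝ, 0 < η → η ≤ η₀ → ∀ n : E → ℝ, ∃ δ : ℝ, 0 < δ ∧
      ∀ τ : ℝ, -δ < τ → τ < 0 → ∀ t : ℝ, η / 2 ≤ t → t ≤ 2 * η → ∀ e ∈ S,
        b e + n e * τ + s e * t ≤ b e₁ + n e₁ * τ + s e₁ * t := by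
  classical
  have h1 : ∀ᶠ t in 𝓝[>] (0 : ℝ), ∀ e ∈ S, e ≠ e₁ → b e + s e * t < b e₁ + s e₁ * t := by
    rw [Filter.eventually_all_finset]
    intro e he
    by_cases hee : e = e₁
    · exact Filter.Eventually.of_forall fun t ht => absurd hee ht
    · rcases h e he hee with h2 | ⟨h2, h3⟩
      · have h4 : ∀ᶠ t in 𝓝 (0 : ℝ), b e + s e * t < b e₁ + s e₁ * t := by
          apply ContinuousAt.eventually_lt
          · exact (continuous_const.add (continuous_const.mul continuous_id)).continuousAt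
          · exact (continuous_const.add (continuous_const.mul continuous_id)).continuousAt
          · simpa using h2
        filter_upwards [nhdsWithin_le_nhds h4] with t ht _
        exact ht
      · filter_upwards [self_mem_nhdsWithin] with t ht _
        have ht' : 0 < t := ht
        rw [h2]
        have := mul_lt_mul_of_pos_right h3 ht'
        linarith
  obtain ⟨u, hu, hsub⟩ := mem_nhdsGT_iff_exists_Ioo_subset.mp h1
  have hu' : (0 : ℝ) < u := hu
  refine ⟨u / 4, by linarith, fun η hη hη2 n => ?_⟩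
  have hA : ∀ e ∈ S, e ≠ e₁ → b e + s e * (η / 2) < b e₁ + s e₁ * (η / 2) :=
    hsub ⟨by linarith, by linarith⟩
  have hB : ∀ e ∈ S, e ≠ e₁ → b e + s e * (2 * η) < b e₁ + s e₁ * (2 * η) :=
    hsub ⟨by linarith, by linarith⟩
  have h5 : ∀ᶠ τ in 𝓝 (0 : ℝ), ∀ e ∈ S, e ≠ e₁ →
      b e + n e * τ + s e * (η / 2) < b e₁ + n e₁ * τ + s e₁ * (η / 2) ∧
      b e + n e * τ + s e * (2 * η) < b e₁ + n e₁ * τ + s e₁ * (2 * η) := by
    rw [Filter.eventually_all_finset]
    intro e he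
    by_cases hee : e = e₁
    · exact Filter.Eventually.of_forall fun t ht => absurd hee ht
    · have h6 : ∀ x : ℝ, b e + s e * x < b e₁ + s e₁ * x → ∀ᶠ τ in 𝓝 (0 : ℝ),
          b e + n e * τ + s e * x < b e₁ + n e₁ * τ + s e₁ * x := by
        intro x hx
        apply ContinuousAt.eventually_lt
        · exact ((continuous_const.add (continuous_const.mul continuous_id)).add
            continuous_const).continuousAt
        · exact ((continuous_const.add (continuous_const.mul continuous_id)).add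
            continuous_const).continuousAt
        · simpa using hx
      filter_upwards [h6 _ (hA e he hee), h6 _ (hB e he hee)] with τ h7 h8 _
      exact ⟨h7, h8⟩
  obtain ⟨δ, hδ, hball⟩ := Metric.eventually_nhds_iff.mp h5
  refine ⟨δ, hδ, fun τ h7 h8 t h9 h10 e he => ?_⟩
  by_cases hee : e = e₁
  · rw [hee]
  · have hd : dist τ 0 < δ := by
      rw [Real.dist_eq, sub_zero, abs_lt]
      exact ⟨h7, by linarith⟩
    obtain ⟨h11, h12⟩ := hball hd e he hee
    have h13 := NPol_aff ((b e₁ - b e) + (n e₁ - n e) * τ) (s e₁ - s e) η t hη h9 h10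
      (by linarith) (by linarith)
    linarith

/-- slope of the sum on an interval without breaks -/
private lemma NPol_brk {ι : Type} (T : Finset ι) (r : ι → ℝ) (κ D C α β p q η : ℝ) (hη : 0 < η)
    (hκ : 0 < κ) (hp : q = p + 3 / 2 * η)
    (h : ∀ ρ, p ≤ ρ → ρ ≤ q → C + κ * ∑ i ∈ T, max ρ (r i) = D * (α + β * ρ)) :
    (∀ i ∈ T, r i ≤ p ∨ q ≤ r i) ∧
    κ * ∑ i ∈ T, (if r i ≤ p then (1 : ℝ) else 0) = D * β := by
  have h1 := h p le_rfl (by linarith)
  have h2 := h q (by linarith) le_rfl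
  have h3 := h (p + η / 2) (by linarith) (by linarith)
  have hs : κ * ∑ i ∈ T, (2 * max p (r i) + max q (r i) - 3 * max (p + η / 2) (r i)) = 0 := by
    rw [Finset.sum_sub_distrib, Finset.sum_add_distrib, ← Finset.mul_sum, ← Finset.mul_sum]
    have e1 : 3 * (p + η / 2) = 2 * p + q := by rw [hp]; ring
    linear_combination 2 * h1 + h2 - 3 * h3 - D * β * e1
  have hs' : ∑ i ∈ T, (2 * max p (r i) + max q (r i) - 3 * max (p + η / 2) (r i)) = 0 := by
    rcases mul_eq_zero.mp hs with h4 | h4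
    · exact absurd h4 hκ.ne'
    · exact h4
  have hnn : ∀ i ∈ T, 0 ≤ 2 * max p (r i) + max q (r i) - 3 * max (p + η / 2) (r i) := by
    intro i _
    rcases le_total (p + η / 2) (r i) with h5 | h5
    · rw [max_eq_right h5, max_eq_right (by linarith : p ≤ r i)]
      linarith [le_max_right q (r i)]
    · rw [max_eq_left h5, max_eq_left (by linarith : r i ≤ q)]
      linarith [le_max_left p (r i)]
  have hz := (Finset.sum_eq_zero_iff_of_nonneg hnn).mp hs'
  have hdich : ∀ i ∈ T, r i ≤ p ∨ q ≤ r i := by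
    intro i hi
    by_contra hcon
    push Not at hcon
    obtain ⟨h6, h7⟩ := hcon
    have h8 := hz i hi
    rw [max_eq_right h6.le, max_eq_left h7.le] at h8
    rcases le_total (p + η / 2) (r i) with h5 | h5
    · rw [max_eq_right h5] at h8
      linarith
    · rw [max_eq_left h5] at h8
      linarith
  refine ⟨hdich, ?_⟩
  have h9 : κ * ∑ i ∈ T, (max q (r i) - max p (r i)) = D * β * (3 / 2 * η) := by
    rw [Finset.sum_sub_distrib, mul_sub]
    linear_combination h2 - h1 + D * β * hp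
  have h10 : ∑ i ∈ T, (max q (r i) - max p (r i)) =
      (∑ i ∈ T, (if r i ≤ p then (1 : ℝ) else 0)) * (3 / 2 * η) := by
    rw [Finset.sum_mul]
    refine Finset.sum_congr rfl fun i hi => ?_
    rcases hdich i hi with h11 | h11
    · rw [if_pos h11, max_eq_left h11, max_eq_left (by linarith)]
      linarith
    · rw [if_neg (by linarith), max_eq_right h11, max_eq_right (by linarith)]
      ring
  rw [h10, ← mul_assoc] at h9
  exact mul_right_cancel₀ (by positivity) h9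

private lemma NPol_sup {E : Type} (S : Finset E) (f : E → ℝ) (e₁ : E) (h1 : e₁ ∈ S)
    (h : ∀ e ∈ S, f e ≤ f e₁) : ⨆ e : S, f e.1 = f e₁ := by
  have : Nonempty S := ⟨⟨e₁, h1⟩⟩
  apply le_antisymm
  · exact ciSup_le fun e => h e.1 e.2
  · exact le_ciSup (f := fun e : S => f e.1) (Set.finite_range _).bddAbove ⟨e₁, h1⟩

theorem thm_NPol : St_NPol := by
  classical
  intro E S hS a l κ D hκ hD hinj ρ₀
  obtain ⟨eM, heM, hmax⟩ := S.exists_max_image (fun e => a e + l e * ρ₀) hS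
  set M : ℝ := a eM + l eM * ρ₀ with hM
  have hS₀ : (S.filter fun e => a e + l e * ρ₀ = M).Nonempty :=
    ⟨eM, Finset.mem_filter.mpr ⟨heM, rfl⟩⟩
  obtain ⟨e₁, he₁, hmax₁⟩ := Finset.exists_max_image _ l hS₀
  obtain ⟨e₂, he₂, hmin₂⟩ := Finset.exists_min_image _ l hS₀
  obtain ⟨he₁S, he₁M⟩ := Finset.mem_filter.mp he₁
  obtain ⟨he₂S, he₂M⟩ := Finset.mem_filter.mp he₂
  have hb₁ : ∀ e ∈ S, e ≠ e₁ → a e + l e * ρ₀ < a e₁ + l e₁ * ρ₀ ∨
      (a e + l e * ρ₀ = a e₁ + l e₁ * ρ₀ ∧ l e < l e₁) := by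
    intro e he hne
    rcases (hmax e he).lt_or_eq with h1 | h1
    · left
      rw [he₁M]
      exact h1
    · right
      refine ⟨by rw [he₁M]; exact h1, ?_⟩
      have h2 := hmax₁ e (Finset.mem_filter.mpr ⟨he, h1⟩)
      refine lt_of_le_of_ne h2 fun h3 => hne ?_
      apply hinj e he e₁ he₁S h3
      rw [h3] at h1
      linarith
  have hb₂ : ∀ e ∈ S, e ≠ e₂ → a e + l e * ρ₀ < a e₂ + l e₂ * ρ₀ ∨
      (a e + l e * ρ₀ = a e₂ + l e₂ * ρ₀ ∧ -l e < -l e₂) := by
    intro e he hne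
    rcases (hmax e he).lt_or_eq with h1 | h1
    · left
      rw [he₂M]
      exact h1
    · right
      refine ⟨by rw [he₂M]; exact h1, ?_⟩
      have h2 := hmin₂ e (Finset.mem_filter.mpr ⟨he, h1⟩)
      apply neg_lt_neg
      refine lt_of_le_of_ne h2 fun h3 => hne ?_
      apply hinj e he e₂ he₂S h3.symm
      rw [← h3] at h1
      linarith
  obtain ⟨η₁, hη₁, hd₁⟩ := NPol_dom S (fun e => a e + l e * ρ₀) l e₁ hb₁
  obtain ⟨η₂, hη₂, hd₂⟩ := NPol_dom S (fun e => a e + l e * ρ₀) (fun e => -l e) e₂ hb₂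
  refine ⟨e₁, he₁S, e₂, he₂S, min η₁ η₂, lt_min hη₁ hη₂, fun η hη hηle n => ?_⟩
  obtain ⟨δ₁, hδ₁, hD₁⟩ := hd₁ η hη (hηle.trans (min_le_left _ _)) n
  obtain ⟨δ₂, hδ₂, hD₂⟩ := hd₂ η hη (hηle.trans (min_le_right _ _)) n
  refine ⟨min δ₁ δ₂, lt_min hδ₁ hδ₂, fun τ hτ hτ0 ι T r C hf => ?_⟩
  have hτ₁ : -δ₁ < τ := lt_of_le_of_lt (neg_le_neg (min_le_left _ _)) hτ
  have hτ₂ : -δ₂ < τ := lt_of_le_of_lt (neg_le_neg (min_le_right _ _)) hτ
  have hf₁ : ∀ ρ, ρ₀ + η / 2 ≤ ρ → ρ ≤ ρ₀ + 2 * η →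
      C + κ * ∑ i ∈ T, max ρ (r i) = D * ((a e₁ + n e₁ * τ) + l e₁ * ρ) := by
    intro ρ h1 h2
    rw [hf ρ, NPol_sup S (fun e => a e + n e * τ + l e * ρ) e₁ he₁S]
    intro e he
    have := hD₁ τ hτ₁ hτ0 (ρ - ρ₀) (by linarith) (by linarith) e he
    linarith
  have hf₂ : ∀ ρ, ρ₀ - 2 * η ≤ ρ → ρ ≤ ρ₀ - η / 2 →
      C + κ * ∑ i ∈ T, max ρ (r i) = D * ((a e₂ + n e₂ * τ) + l e₂ * ρ) := by
    intro ρ h1 h2
    rw [hf ρ, NPol_sup S (fun e => a e + n e * τ + l e * ρ) e₂ he₂S]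
    intro e he
    have := hD₂ τ hτ₂ hτ0 (ρ₀ - ρ) (by linarith) (by linarith) e he
    linarith
  obtain ⟨hdi₁, hc₁⟩ := NPol_brk T r κ D C _ _ (ρ₀ + η / 2) (ρ₀ + 2 * η) η hη hκ (by ring) hf₁
  obtain ⟨hdi₂, hc₂⟩ := NPol_brk T r κ D C _ _ (ρ₀ - 2 * η) (ρ₀ - η / 2) η hη hκ (by ring) hf₂
  have hw : ∀ i ∈ T, (if |r i - ρ₀| < η then (1 : ℝ) else 0) =
      (if r i ≤ ρ₀ + η / 2 then (1 : ℝ) else 0) - (if r i ≤ ρ₀ - 2 * η then (1 : ℝ) else 0) := by
    intro i hi
    rcases hdi₁ i hi with h1 | h1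
    · rcases hdi₂ i hi with h2 | h2
      · have h3 : ¬ |r i - ρ₀| < η := by
          intro h3
          rw [abs_lt] at h3
          linarith [h3.1]
        rw [if_pos h1, if_pos h2, if_neg h3]
        ring
      · have h3 : |r i - ρ₀| < η := by
          rw [abs_lt]
          constructor <;> linarith
        have h4 : ¬ r i ≤ ρ₀ - 2 * η := by linarith
        rw [if_pos h1, if_neg h4, if_pos h3]
        ring
    · have h3 : ¬ |r i - ρ₀| < η := by
        intro h3
        rw [abs_lt] at h3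
        linarith [h3.2]
      have h4 : ¬ r i ≤ ρ₀ - 2 * η := by linarith
      have h5 : ¬ r i ≤ ρ₀ + η / 2 := by linarith
      rw [if_neg h3, if_neg h4, if_neg h5]
      ring
  have hcard : ((T.filter fun i => |r i - ρ₀| < η).card : ℝ) =
      ∑ i ∈ T, (if |r i - ρ₀| < η then (1 : ℝ) else 0) := by
    rw [Finset.sum_boole]
  have hk : κ * ((T.filter fun i => |r i - ρ₀| < η).card : ℝ) = D * (l e₁ - l e₂) := by
    rw [hcard, Finset.sum_congr rfl hw, Finset.sum_sub_distrib, mul_sub, hc₁, hc₂]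
    ring
  refine ⟨hk, ?_⟩
  have hterm : ∀ i ∈ T, max (ρ₀ + η) (r i) - max (ρ₀ - η) (r i) =
      (if r i ≤ ρ₀ - 2 * η then (1 : ℝ) else 0) * (2 * η) +
      (if |r i - ρ₀| < η then (1 : ℝ) else 0) * (ρ₀ + η) -
      (if |r i - ρ₀| < η then r i else 0) := by
    intro i hi
    rcases hdi₁ i hi with h1 | h1
    · rcases hdi₂ i hi with h2 | h2
      · have h3 : ¬ |r i - ρ₀| < η := by
          intro h3
          rw [abs_lt] at h3
          linarith [h3.1]
        rw [if_pos h2, if_neg h3, if_neg h3, max_eq_left (by linarith), max_eq_left (by linarith)]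
        ring
      · have h3 : |r i - ρ₀| < η := by
          rw [abs_lt]
          constructor <;> linarith
        rw [if_neg (by linarith), if_pos h3, if_pos h3, max_eq_left (by linarith),
          max_eq_right (by linarith)]
        ring
    · have h3 : ¬ |r i - ρ₀| < η := by
        intro h3
        rw [abs_lt] at h3
        linarith [h3.2]
      rw [if_neg (by linarith), if_neg h3, if_neg h3, max_eq_right (by linarith),
        max_eq_right (by linarith)]
      ring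
  have hsum : ∑ i ∈ T, max (ρ₀ + η) (r i) - ∑ i ∈ T, max (ρ₀ - η) (r i) =
      (∑ i ∈ T, (if r i ≤ ρ₀ - 2 * η then (1 : ℝ) else 0)) * (2 * η) +
      ((T.filter fun i => |r i - ρ₀| < η).card : ℝ) * (ρ₀ + η) -
      ∑ i ∈ T with |r i - ρ₀| < η, r i := by
    rw [← Finset.sum_sub_distrib, Finset.sum_congr rfl hterm, Finset.sum_sub_distrib,
      Finset.sum_add_distrib, ← Finset.sum_mul, ← Finset.sum_mul, hcard, Finset.sum_filter]
  have hp := hf₁ (ρ₀ + η) (by linarith) (by linarith)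
  have hq := hf₂ (ρ₀ - η) (by linarith) (by linarith)
  have hM2 : a e₁ + l e₁ * ρ₀ = a e₂ + l e₂ * ρ₀ := by rw [he₁M, he₂M]
  linear_combination κ * hsum + hq - hp + (2 * η) * hc₂ + (ρ₀ + η) * hk - D * hM2

end TDC
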