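import Pool.Agent.TDC.StN

/-!
# TDC [NPsi] : the counting formula over `K(E)`
-/

set_option autoImplicit false

namespace TDC

open Polynomial

/-! ## Algebra -/

private theorem NPsi_indep {K L : Type} [Field K] [Field L] [Algebra K L] {m : ℕ} (x y : L)
    (hxy : y ^ 2 = x ^ 3 + 1) (g : Fin m → L)
    (h : AlgebraicIndependent K (Fin.cons x g : Fin (m + 1) → L)) :
    AlgebraicIndependent (KE K x y) g := by
  let x' : Unit → L := fun _ => x
  let f : Fin m ⊕ Unit → Fin (m + 1) := Sum.elim Fin.succ (fun _ => 0)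
  have hf : Function.Injective f := by
    rintro (a | a) (b | b) hab
    · exact congrArg Sum.inl (Fin.succ_injective _ hab)
    · exact absurd hab (Fin.succ_ne_zero a)
    · exact absurd hab.symm (Fin.succ_ne_zero b)
    · rfl
  have h1 : AlgebraicIndependent K (Sum.elim g x') := by
    have h0 := h.comp f hf
    have h2 : (Fin.cons x g : Fin (m + 1) → L) ∘ f = Sum.elim g x' := by
      funext s
      rcases s with s | s <;> rfl
    rwa [h2] at h0
  have h2 := (AlgebraicIndependent.sumElim_iff.1 h1).2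
  have hle : Algebra.adjoin K (Set.range x') ≤ (KE K x y).toSubalgebra := by
    refine Algebra.adjoin_le ?_
    rintro _ ⟨_, rfl⟩
    exact IntermediateField.subset_adjoin K _ (Set.mem_insert _ _)
  let _ : Algebra (Algebra.adjoin K (Set.range x')) (KE K x y) :=
    (Subalgebra.inclusion hle).toRingHom.toAlgebra
  have htow : IsScalarTower (Algebra.adjoin K (Set.range x')) (KE K x y) L :=
    .of_algebraMap_eq fun z => rfl
  have hx : IsAlgebraic (Algebra.adjoin K (Set.range x')) x := by
    have hm : x ∈ Algebra.adjoin K (Set.range x') := Algebra.subset_adjoin ⟨(), rfl⟩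
    exact isAlgebraic_algebraMap (⟨x, hm⟩ : Algebra.adjoin K (Set.range x'))
  have hall : ∀ w ∈ IntermediateField.adjoin K {x, y},
      IsAlgebraic (Algebra.adjoin K (Set.range x')) w := by
    intro w hw
    induction hw using IntermediateField.adjoin_induction with
    | mem z hz =>
      rcases hz with rfl | hz
      · exact hx
      · rw [Set.mem_singleton_iff] at hz
        subst hz
        refine IsAlgebraic.of_pow (n := 2) (by norm_num) ?_
        rw [hxy]
        exact (hx.pow 3).add isAlgebraic_one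
    | algebraMap z =>
      have h3 : algebraMap K L z = algebraMap (Algebra.adjoin K (Set.range x')) L
          (algebraMap K _ z) := rfl
      rw [h3]
      exact isAlgebraic_algebraMap _
    | add a b _ _ ha hb => exact ha.add hb
    | inv a _ ha => exact ha.inv
    | mul a b _ _ ha hb => exact ha.mul hb
  have halg : Algebra.IsAlgebraic (Algebra.adjoin K (Set.range x')) (KE K x y) := by
    refine ⟨fun z => ?_⟩
    rw [← isAlgebraic_algHom_iff
      (IsScalarTower.toAlgHom (Algebra.adjoin K (Set.range x')) (KE K x y) L)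
      (algebraMap (KE K x y) L).injective]
    exact hall z.1 z.2
  exact h2.extendScalars _

private theorem NPsi_TrLe {K L : Type} [Field K] [Field L] [Algebra K L] {m : ℕ} (x y : L)
    (hx : Transcendental K x) (h : TrLe K L (m + 1)) : TrLe (KE K x y) L m := by
  intro G hG
  let x' : Unit → L := fun _ => x
  have hx' : AlgebraicIndependent K x' := algebraicIndependent_unique_type_iff.2 hx
  have hr : Set.range x' ⊆ Set.range (algebraMap (KE K x y) L) := by
    rintro _ ⟨_, rfl⟩
    exact ⟨⟨x, IntermediateField.subset_adjoin K _ (Set.mem_insert _ _)⟩, rfl⟩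
  have h1 : AlgebraicIndependent K (Sum.elim G x') := hx'.sumElim_of_tower hr hG
  let f : Fin (m + 1 + 1) → Fin (m + 1) ⊕ Unit := Fin.cases (Sum.inr ()) Sum.inl
  have hf : Function.Injective f := by
    intro a b hab
    cases a using Fin.cases with
    | zero =>
      cases b using Fin.cases with
      | zero => rfl
      | succ b => exact absurd hab (by simp [f])
    | succ a =>
      cases b using Fin.cases with
      | zero => exact absurd hab (by simp [f])
      | succ b =>
        have h2 : (Sum.inl a : Fin (m + 1) ⊕ Unit) = Sum.inl b := hab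
        rw [Sum.inl_injective h2]
  exact h _ (h1.comp f hf)

private theorem NPsi_finite {K K' L : Type} [Field K] [Field K'] [Field L] [Algebra K L]
    [Algebra K' L] (F : IntermediateField K L) (E : IntermediateField K' L)
    (hF : Module.Finite F L) (hle : ∀ z : L, z ∈ F → z ∈ E) : Module.Finite E L := by
  obtain ⟨s, hs⟩ := hF.fg_top
  refine ⟨⟨s, ?_⟩⟩
  rw [eq_top_iff]
  rintro z -
  have hz : z ∈ Submodule.span F (s : Set L) := by
    rw [hs]
    trivial
  induction hz using Submodule.span_induction with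
  | mem a ha => exact Submodule.subset_span ha
  | zero => exact zero_mem _
  | add a b _ _ ha hb => exact add_mem ha hb
  | smul c a _ ha =>
    have h1 : c • a = (⟨(c : L), hle _ c.2⟩ : E) • a := rfl
    rw [h1]
    exact Submodule.smul_mem _ _ ha

/-! ## Gauss norms -/

private theorem NPsi_log {M E : Type} [Field M] (v : AbsoluteValue M ℝ) (Q : Polynomial M)
    (S : Finset E) (hS : S.Nonempty) (N : E → ℝ) (hN : ∀ e ∈ S, 0 < N e) (de : E → ℕ) (τ : ℝ)
    (h1 : ∀ e ∈ S, N e ≤ v (Q.coeff (de e)))
    (h2 : ∀ (j : ℕ) (B : ℝ), 0 ≤ B → (∀ e ∈ S, de e = j → N e ≤ B) → v (Q.coeff j) ≤ B) :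
    Real.log (Q.gaussNorm v (Real.exp τ)) = ⨆ e : S, (Real.log (N e.1) + (de e.1 : ℝ) * τ) := by
  have hc : ∀ k : ℕ, 0 < Real.exp τ ^ k := fun k => pow_pos (Real.exp_pos τ) k
  obtain ⟨e₀, he₀, hmax⟩ := S.exists_max_image (fun e => N e * Real.exp τ ^ de e) hS
  have hg : Q.gaussNorm v (Real.exp τ) = N e₀ * Real.exp τ ^ de e₀ := by
    apply le_antisymm
    · obtain ⟨j, hj⟩ := Polynomial.exists_eq_gaussNorm v (Real.exp τ) Q
      rw [hj]
      have hB : 0 ≤ N e₀ * Real.exp τ ^ de e₀ / Real.exp τ ^ j :=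
        div_nonneg (mul_nonneg (hN e₀ he₀).le (hc _).le) (hc _).le
      have h3 := h2 j _ hB (fun e he hej => by
        rw [le_div_iff₀ (hc j), ← hej]
        exact hmax e he)
      calc v (Q.coeff j) * Real.exp τ ^ j
          ≤ (N e₀ * Real.exp τ ^ de e₀ / Real.exp τ ^ j) * Real.exp τ ^ j :=
            mul_le_mul_of_nonneg_right h3 (hc j).le
        _ = N e₀ * Real.exp τ ^ de e₀ := div_mul_cancel₀ _ (hc j).ne'
    · exact (mul_le_mul_of_nonneg_right (h1 e₀ he₀) (hc _).le).trans
        (Polynomial.le_gaussNorm v Q (Real.exp_pos τ).le (de e₀))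
  have hlog : ∀ e ∈ S, Real.log (N e * Real.exp τ ^ de e) = Real.log (N e) + (de e : ℝ) * τ := by
    intro e he
    rw [Real.log_mul (hN e he).ne' (hc _).ne', Real.log_pow, Real.log_exp]
  rw [hg, hlog e₀ he₀]
  have : Nonempty S := ⟨⟨e₀, he₀⟩⟩
  have : Finite S := Finite.of_fintype S
  apply le_antisymm
  · exact le_ciSup (f := fun e : S => Real.log (N e.1) + (de e.1 : ℝ) * τ)
      (Set.finite_range _).bddAbove ⟨e₀, he₀⟩
  · refine ciSup_le (fun e => ?_)
    rw [← hlog e.1 e.2, ← hlog e₀ he₀]
    exact Real.log_le_log (mul_pos (hN e.1 e.2) (hc _)) (hmax e.1 e.2)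

private theorem NPsi_na_sum {M E : Type} [Field M] (v : AbsoluteValue M ℝ)
    (na : ∀ a b, v (a + b) ≤ max (v a) (v b))
    (S : Finset E) (T : E → M) (B : ℝ) (hB : 0 ≤ B) (h : ∀ e ∈ S, v (T e) ≤ B) :
    v (∑ e ∈ S, T e) ≤ B := by
  classical
  induction S using Finset.induction_on with
  | empty =>
    rw [Finset.sum_empty, map_zero]
    exact hB
  | insert a S ha ih =>
    rw [Finset.sum_insert ha]
    refine (na _ _).trans (max_le (h a (Finset.mem_insert_self a S)) (ih (fun e he => ?_)))
    exact h e (Finset.mem_insert_of_mem he)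

/-- the exponents without the first one -/
private noncomputable def NPsi_rd {n : ℕ} (e : Fin (n + 1) →₀ ℕ) : Fin n →₀ ℕ :=
  Finsupp.equivFunOnFinite.symm (fun k => e k.succ)

private theorem NPsi_rd_apply {n : ℕ} (e : Fin (n + 1) →₀ ℕ) (k : Fin n) :
    NPsi_rd e k = e k.succ := rfl

private theorem NPsi_rd_inj {n : ℕ} (e e' : Fin (n + 1) →₀ ℕ)
    (h1 : e 0 = e' 0) (h2 : NPsi_rd e = NPsi_rd e') : e = e' := by
  ext j
  cases j using Fin.cases with
  | zero => exact h1
  | succ k => rw [← NPsi_rd_apply, ← NPsi_rd_apply, h2]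

private theorem NPsi_coeff {K L : Type} [Field K] [Field L] [Algebra K L] {n : ℕ}
    (G : Fin (n + 1) → L) (P : MvPolynomial (Fin (n + 1)) K) (j : ℕ) :
    (MvPolynomial.aeval (Function.update (fun j => Polynomial.C (G j)) 0 Polynomial.X)
      P : Polynomial L).coeff j = ∑ e ∈ P.support.filter (fun e => e 0 = j),
        algebraMap K L (P.coeff e) * ∏ k : Fin n, G k.succ ^ e k.succ := by
  have h0 : (MvPolynomial.aeval (Function.update (fun j => Polynomial.C (G j)) 0 Polynomial.X)
      P : Polynomial L) = ∑ e ∈ P.support, Polynomial.C (algebraMap K L (P.coeff e) *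
        ∏ k : Fin n, G k.succ ^ e k.succ) * Polynomial.X ^ e 0 := by
    rw [MvPolynomial.aeval_def, MvPolynomial.eval₂_eq']
    refine Finset.sum_congr rfl (fun e _ => ?_)
    rw [Fin.prod_univ_succ, Function.update_self]
    have h1 : ∏ k : Fin n, (Function.update (fun j => Polynomial.C (G j)) 0 Polynomial.X
        k.succ) ^ e k.succ = Polynomial.C (∏ k : Fin n, G k.succ ^ e k.succ) := by
      rw [map_prod]
      refine Finset.prod_congr rfl (fun k _ => ?_)
      rw [Function.update_of_ne (Fin.succ_ne_zero k), map_pow]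
    rw [h1, Polynomial.C_mul]
    change Polynomial.C (algebraMap K L (P.coeff e)) * _ = _
    ring
  rw [h0, Polynomial.finsetSum_coeff, Finset.sum_filter]
  refine Finset.sum_congr rfl (fun e _ => ?_)
  rw [Polynomial.coeff_C_mul, Polynomial.coeff_X_pow]
  by_cases h : e 0 = j
  · rw [if_pos h, if_pos h.symm, mul_one]
  · rw [if_neg h, if_neg (fun h' => h h'.symm), mul_zero]

private theorem NPsi_TV {K L M : Type} [Field K] [Field L] [Algebra K L] [Field M]
    {n : ℕ} (h : L) (g : Fin n → Lˣ) (ι : L →+* M)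
    (v : AbsoluteValue M ℝ) (w : AbsoluteValue L ℝ) (na : ∀ a b, w (a + b) ≤ max (w a) (w b))
    (hv : ∀ a, v (ι a) = w a)
    (hG : ∀ (Q : MvPolynomial (Fin n) K) (e : Fin n →₀ ℕ), w (algebraMap K L (Q.coeff e)) *
      ∏ i, w (g i) ^ e i ≤ w (MvPolynomial.aeval (fun i => (g i : L)) Q))
    (P : MvPolynomial (Fin (n + 1)) K) (hP : P ≠ 0) (τ : ℝ) :
    Real.log (((MvPolynomial.aeval (Function.update (fun j => Polynomial.C
      ((Fin.cons h (fun i => (g i : L)) : Fin (n + 1) → L) j)) 0
      Polynomial.X) P : Polynomial L).map ι).gaussNorm v (Real.exp τ)) =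
      ⨆ e : P.support, (Real.log (w (algebraMap K L (P.coeff e.1))) +
        ∑ j : Fin n, (e.1 j.succ : ℝ) * Real.log (w (g j)) + (e.1 0 : ℝ) * τ) := by
  have hpos : ∀ k : Fin n, 0 < w (g k : L) := fun k => w.pos (g k).ne_zero
  have hSn : P.support.Nonempty := by
    rw [Finset.nonempty_iff_ne_empty]
    intro h
    exact hP (MvPolynomial.support_eq_empty.1 h)
  obtain ⟨N, hN⟩ : ∃ N : (Fin (n + 1) →₀ ℕ) → ℝ, ∀ e, N e = w (algebraMap K L (P.coeff e)) *
      ∏ k : Fin n, w (g k : L) ^ e k.succ := ⟨_, fun _ => rfl⟩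
  have hprod : ∀ e : Fin (n + 1) →₀ ℕ, 0 < ∏ k : Fin n, w (g k : L) ^ e k.succ := fun e =>
    Finset.prod_pos (fun k _ => pow_pos (hpos k) _)
  have hc0 : ∀ e ∈ P.support, 0 < w (algebraMap K L (P.coeff e)) := fun e he =>
    w.pos ((_root_.map_ne_zero _).2 (MvPolynomial.mem_support_iff.1 he))
  have hNpos : ∀ e ∈ P.support, 0 < N e := by
    intro e he
    rw [hN]
    exact mul_pos (hc0 e he) (hprod e)
  have hterm : ∀ e : Fin (n + 1) →₀ ℕ, w (algebraMap K L (P.coeff e) *
      ∏ k : Fin n, (g k : L) ^ e k.succ) = N e := by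
    intro e
    rw [map_mul, map_prod, hN]
    congr 1
    refine Finset.prod_congr rfl (fun k _ => ?_)
    rw [map_pow]
  have hcf : ∀ j : ℕ, v (((MvPolynomial.aeval (Function.update (fun j =>
      Polynomial.C ((Fin.cons h (fun i => (g i : L)) : Fin (n + 1) → L) j)) 0 Polynomial.X) P :
        Polynomial L).map ι).coeff j) =
      w (∑ e ∈ P.support.filter (fun e => e 0 = j), algebraMap K L (P.coeff e) *
        ∏ k : Fin n, (g k : L) ^ e k.succ) := by
    intro j
    rw [Polynomial.coeff_map, hv, NPsi_coeff _ P j]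
    rfl
  rw [NPsi_log v _ P.support hSn N hNpos (fun e => e 0) τ ?_ ?_]
  · congr 1
    funext e
    have h1 : Real.log (N e.1) = Real.log (w (algebraMap K L (P.coeff e.1))) +
        ∑ k : Fin n, (e.1 k.succ : ℝ) * Real.log (w (g k)) := by
      rw [hN, Real.log_mul (hc0 e.1 e.2).ne' (hprod e.1).ne', Real.log_prod]
      · congr 1
        refine Finset.sum_congr rfl (fun k _ => ?_)
        rw [Real.log_pow]
      · intro k _
        exact (pow_pos (hpos k) _).ne'
    rw [h1]
  · intro e he
    rw [hcf]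
    classical
    obtain ⟨R, hR⟩ : ∃ R : MvPolynomial (Fin n) K, R =
        ∑ e' ∈ P.support.filter (fun e' => e' 0 = e 0),
          MvPolynomial.monomial (NPsi_rd e') (P.coeff e') := ⟨_, rfl⟩
    have hR1 : R.coeff (NPsi_rd e) = P.coeff e := by
      rw [hR, MvPolynomial.coeff_sum, Finset.sum_eq_single e]
      · rw [MvPolynomial.coeff_monomial, if_pos rfl]
      · intro e' he' hne
        rw [MvPolynomial.coeff_monomial, if_neg]
        intro h
        exact hne (NPsi_rd_inj e' e (Finset.mem_filter.1 he').2 h)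
      · intro h
        have h' : e ∈ P.support.filter (fun e' => e' 0 = e 0) := Finset.mem_filter.2 ⟨he, rfl⟩
        exact absurd h' h
    have hR2 : MvPolynomial.aeval (fun k => (g k : L)) R =
        ∑ e' ∈ P.support.filter (fun e' => e' 0 = e 0), algebraMap K L (P.coeff e') *
          ∏ k : Fin n, (g k : L) ^ e' k.succ := by
      rw [hR, map_sum]
      refine Finset.sum_congr rfl (fun e' _ => ?_)
      rw [MvPolynomial.aeval_monomial, Finsupp.prod_fintype _ _ (fun k => pow_zero _)]
      rfl
    have h3 := hG R (NPsi_rd e)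
    rw [hR1, hR2] at h3
    rw [hN]
    exact h3
  · intro j B hB h
    rw [hcf]
    refine NPsi_na_sum w na _ _ B hB (fun e he => ?_)
    rw [hterm]
    rw [Finset.mem_filter] at he
    exact h e he.1 he.2

/-! ## The counting formula -/

private theorem NPsi_fix {K L : Type} [Field K] [Field L] [Algebra K L] (T : Set L)
    (σ : L →ₐ[K] AlgebraicClosure L)
    (h : ∀ a ∈ T, σ a = algebraMap L (AlgebraicClosure L) a) :
    ∀ a ∈ IntermediateField.adjoin K T, σ a = algebraMap L (AlgebraicClosure L) a := by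
  intro a ha
  induction ha using IntermediateField.adjoin_induction with
  | mem x hx => exact h x hx
  | algebraMap x =>
    rw [σ.commutes]
    exact IsScalarTower.algebraMap_apply K L (AlgebraicClosure L) x
  | add x y _ _ hx hy => rw [map_add, map_add, hx, hy]
  | inv x _ hx => rw [map_inv₀, map_inv₀, hx]
  | mul x y _ _ hx hy => rw [map_mul, map_mul, hx, hy]

/-- **NPsi** (the counting formula over `K(E)`) -/
theorem thm_NPsi : St_NBas → St_Npg → St_Frc → St_Irr → St_NPsi := by
  intro hNBas hNpg hFrc hIrr K L _ _ _ _ m c x y t hyp g hg h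
  classical
  obtain ⟨hTr, hFG, -, hEm, ⟨hxt, hxa⟩, hcx, -⟩ := hNBas K L m c x y t hyp
  have hxy : y ^ 2 = x ^ 3 + 1 := hyp.eFun.eq
  have hgi : AlgebraicIndependent (KE K x y) (fun i => (g i : L)) := NPsi_indep x y hxy _ hg
  have hTr' : TrLe (KE K x y) L m := NPsi_TrLe x y hxt hTr
  obtain ⟨P, hP0, hP⟩ := hIrr (KE K x y) L m hTr'
    (Fin.cons (h : L) (fun i => (g i : L)) : Fin (m + 1) → L)
  have hsucc : (Fin.cons (h : L) (fun i => (g i : L)) : Fin (m + 1) → L) ∘
      (0 : Fin (m + 1)).succAbove = fun i => (g i : L) := by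
    funext i
    simp
  obtain ⟨b, hb0, hb⟩ := hP 0 (by rw [hsucc]; exact hgi)
  rw [Fin.cons_zero] at hb
  -- the field `E`
  set E := IntermediateField.adjoin (KE K x y) (Set.range
    ((Fin.cons (h : L) (fun i => (g i : L)) : Fin (m + 1) → L) ∘ (0 : Fin (m + 1)).succAbove))
    with hE
  have hxE : x ∈ KE K x y := IntermediateField.subset_adjoin K _ (Set.mem_insert _ _)
  have hyE : y ∈ KE K x y :=
    IntermediateField.subset_adjoin K _ (Set.mem_insert_of_mem _ (Set.mem_singleton _))
  have hKE : ∀ z ∈ KE K x y, z ∈ E := fun z hz => E.algebraMap_mem (⟨z, hz⟩ : KE K x y)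
  have hgE : ∀ i, (g i : L) ∈ E := by
    intro i
    refine IntermediateField.subset_adjoin _ _ ⟨i, ?_⟩
    rw [hsucc]
  -- finiteness
  obtain ⟨hc1, hc2⟩ := hcx g hg 0
  obtain ⟨hEfin, -, hdg⟩ := hEm (cx c x 0 g) hc1
  have hfd0 : Module.Finite
      (IntermediateField.adjoin K (Set.range fun i => (cx c x 0 g i : L))) L := by
    refine Module.finite_of_finrank_pos ?_
    have h1 : (0 : ℝ) < (Module.finrank
      (IntermediateField.adjoin K (Set.range fun i => (cx c x 0 g i : L))) L : ℝ) := hdg
    exact_mod_cast h1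
  have hfd : FiniteDimensional E L := by
    refine NPsi_finite _ E hfd0 ?_
    intro z hz
    have hle : IntermediateField.adjoin K (Set.range fun i => (cx c x 0 g i : L)) ≤
        E.restrictScalars K := by
      rw [IntermediateField.adjoin_le_iff]
      rintro _ ⟨i, rfl⟩
      cases i using Fin.cases with
      | zero =>
        have h1 : ((cx c x 0 g 0 : Lˣ) : L) = x - algebraMap K L (c 0) := (hxa 0).1
        simp only [h1]
        refine sub_mem (hKE x hxE) (hKE _ ?_)
        exact (KE K x y).algebraMap_mem _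
      | succ i => exact hgE i
    exact hle hz
  have hint : IsIntegral E (h : L) := Algebra.IsIntegral.isIntegral _
  have halg : Algebra.IsAlgebraic E (AlgebraicClosure L) := Algebra.IsAlgebraic.trans E L _
  -- the degrees
  obtain ⟨D0, hD0⟩ : ∃ D0 : ℕ, D0 =
      Module.finrank (IntermediateField.adjoin E {(h : L)}) L := ⟨_, rfl⟩
  have hdeg : (Module.finrank E L : ℝ) = (D0 : ℝ) * ((minpoly E (h : L)).natDegree : ℝ) := by
    have h1 := Module.finrank_mul_finrank E (IntermediateField.adjoin E {(h : L)}) L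
    rw [IntermediateField.adjoin.finrank hint, ← hD0] at h1
    rw [← h1]
    push_cast
    ring
  have hEpos : 0 < (Module.finrank E L : ℝ) := by exact_mod_cast Module.finrank_pos
  have hD0pos : 0 < D0 := by
    rcases Nat.eq_zero_or_pos D0 with h1 | h1
    · rw [hdeg, h1] at hEpos
      simp at hEpos
    · exact h1
  -- the embeddings
  have htow : IsScalarTower K E L := .of_algebraMap_eq fun z => rfl
  have htow2 : IsScalarTower K E (AlgebraicClosure L) := .of_algebraMap_eq fun z => by
    rw [IsScalarTower.algebraMap_apply K L (AlgebraicClosure L)]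
    rfl
  have hrange : Set.range (fun τ : L →ₐ[E] AlgebraicClosure L => τ.restrictScalars K) =
      EmbE K x y g := by
    ext σ
    constructor
    · rintro ⟨τ, rfl⟩
      have h0 : ∀ z ∈ E, τ z = algebraMap L (AlgebraicClosure L) z :=
        fun z hz => τ.commutes ⟨z, hz⟩
      exact ⟨h0 x (hKE x hxE), h0 y (hKE y hyE), fun i => h0 _ (hgE i)⟩
    · rintro ⟨hσ1, hσ2, hσ3⟩
      have hE2 : E.restrictScalars K = IntermediateField.adjoin K ({x, y} ∪
          Set.range (fun i => (g i : L))) := by
        rw [hE, hsucc]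
        exact IntermediateField.adjoin_adjoin_left K _ _
      have h1 : ∀ a ∈ E, σ a = algebraMap L (AlgebraicClosure L) a := by
        intro a ha
        have ha' : a ∈ IntermediateField.adjoin K ({x, y} ∪
            Set.range (fun i => (g i : L))) := by
          rw [← hE2]
          exact ha
        refine NPsi_fix _ σ ?_ a ha'
        rintro a ((rfl | ha) | ⟨k, rfl⟩)
        · exact hσ1
        · rw [Set.mem_singleton_iff] at ha
          subst ha
          exact hσ2
        · exact hσ3 k
      refine ⟨{ toRingHom := σ.toRingHom, commutes' := fun e => h1 e.1 e.2 }, ?_⟩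
      ext a
      rfl
  have hinj : Function.Injective
      (fun τ : L →ₐ[E] AlgebraicClosure L => τ.restrictScalars K) :=
    AlgHom.restrictScalars_injective K
  have hcardpos : 0 < (Nat.card (L →ₐ[E] AlgebraicClosure L) : ℝ) := by
    have : Nonempty (L →ₐ[E] AlgebraicClosure L) := ⟨IsScalarTower.toAlgHom E L _⟩
    exact_mod_cast Nat.card_pos
  refine ⟨P, (D0 : ℝ), (Module.finrank E L : ℝ) / (Nat.card (L →ₐ[E] AlgebraicClosure L) : ℝ),
    hP0, by exact_mod_cast hD0pos, div_pos hEpos hcardpos, ?_⟩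
  intro X hX
  obtain ⟨ψ, hψ⟩ : ∃ ψ : ℝ → AlgebraicClosure L → ℝ,
      ∀ τ ρ, ψ τ ρ = max τ (Real.log (X.v ρ)) := ⟨_, fun _ _ => rfl⟩
  have hsum : ∀ τ : ℝ, ∑ᶠ σ ∈ EmbE K x y g, max τ (Real.log (X.v (σ (h : L)))) =
      ∑ᶠ σ : L →ₐ[E] AlgebraicClosure L, ψ τ (σ (h : L)) := by
    intro τ
    rw [← hrange, finsum_mem_range hinj]
    refine finsum_congr (fun σ => ?_)
    rw [hψ]
    rfl
  -- the polynomial
  obtain ⟨Q, hQ⟩ : ∃ Q : Polynomial (AlgebraicClosure L), Q = (MvPolynomial.aeval
      (Function.update (fun j => Polynomial.C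
        ((Fin.cons (h : L) (fun i => (g i : L)) : Fin (m + 1) → L) j)) 0 Polynomial.X) P :
          Polynomial L).map (algebraMap L (AlgebraicClosure L)) := ⟨_, rfl⟩
  have hQ2 : Q = Polynomial.C (algebraMap L (AlgebraicClosure L) b) *
      (minpoly E (h : L)).map (algebraMap E (AlgebraicClosure L)) := by
    rw [hQ, hb, Polynomial.map_mul, Polynomial.map_C, Polynomial.map_map]
    rfl
  have hb' : algebraMap L (AlgebraicClosure L) b ≠ 0 := by
    intro h1
    exact hb0 ((map_eq_zero _).1 h1)
  have hmonic : ((minpoly E (h : L)).map (algebraMap E (AlgebraicClosure L))).Monic :=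
    (minpoly.monic hint).map _
  have hQne : Q ≠ 0 := by
    rw [hQ2]
    exact mul_ne_zero (Polynomial.C_ne_zero.2 hb') hmonic.ne_zero
  have hQlc : Q.leadingCoeff = algebraMap L (AlgebraicClosure L) b := by
    rw [hQ2, Polynomial.leadingCoeff_mul, Polynomial.leadingCoeff_C, hmonic.leadingCoeff, mul_one]
  have hQroots : Q.roots = (minpoly E (h : L)).aroots (AlgebraicClosure L) := by
    rw [hQ2, Polynomial.roots_C_mul _ hb']
  have hroot0 : ∀ ρ ∈ Q.roots, ρ ≠ 0 := by
    intro ρ hρ h0
    rw [hQroots, h0, Polynomial.mem_aroots, ← Polynomial.coeff_zero_eq_aeval_zero'] at hρ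
    have h1 := (map_eq_zero _).1 hρ.2
    exact minpoly.coeff_zero_ne_zero hint h.ne_zero h1
  refine ⟨(D0 : ℝ) * Real.log (X.v (algebraMap L (AlgebraicClosure L) b)), fun τ => ?_⟩
  have h1 := hNpg (AlgebraicClosure L) X.v X.na Q hQne (IsAlgClosed.splits Q) hroot0 τ
  rw [hQlc, hQroots] at h1
  have h2 := NPsi_TV (K := KE K x y) (h : L) g (algebraMap L (AlgebraicClosure L)) X.v
    (pb (incE K L) X).v (pb (incE K L) X).na (fun a => rfl) hX P hP0 τ
  rw [← hQ, h1] at h2
  have h2' : Real.log (X.v (algebraMap L (AlgebraicClosure L) b)) +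
      (((minpoly E (h : L)).aroots (AlgebraicClosure L)).map (ψ τ)).sum =
      ⨆ e : P.support, (Real.log ((pb (incE K L) X).v ((P.coeff e.1 : KE K x y) : L)) +
        ∑ j : Fin m, (e.1 j.succ : ℝ) * logv (pb (incE K L) X) g j + (e.1 0 : ℝ) * τ) := by
    refine Eq.trans ?_ h2
    congr 3
    funext ρ
    exact hψ τ ρ
  have h3 := hFrc E L (AlgebraicClosure L) (h : L) (ψ τ)
  rw [← h2', hsum, hdeg]
  have h4 : (((minpoly E (h : L)).aroots (AlgebraicClosure L)).map (ψ τ)).sum =
      ((minpoly E (h : L)).natDegree : ℝ) *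
        (∑ᶠ σ : L →ₐ[E] AlgebraicClosure L, ψ τ (σ (h : L))) /
          (Nat.card (L →ₐ[E] AlgebraicClosure L) : ℝ) := by
    rw [h3, mul_div_cancel_left₀ _ hcardpos.ne']
  rw [h4]
  ring

end TDC
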