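import Pool.Agent.TDC.StN2
import Pool.Agent.TDC.EmG

/-!
# TDC.NSpl (helper9): embeddings and tubes, the automorphism `y ↦ -y`
-/

namespace TDC

open scoped Topology

private theorem NSpl_alg {K L : Type} [NormedField K] [Field L] [Algebra K L] {n : ℕ}
    (htr : TrLe K L n) (g : Fin n → L) (hg : AlgebraicIndependent K g) (f : L) :
    IsAlgebraic (IntermediateField.adjoin K (Set.range g)) f := by
  have h1 : ¬ Transcendental (Algebra.adjoin K (Set.range g)) f := by
    intro htra
    have h2 := (hg.option_iff_transcendental f).2 htra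
    have h3 := h2.comp (finSuccEquiv n) (finSuccEquiv n).injective
    exact htr _ h3
  rw [Transcendental, not_not] at h1
  obtain ⟨p, hp0, hp⟩ := h1
  have hle : Algebra.adjoin K (Set.range g) ≤
      (IntermediateField.adjoin K (Set.range g)).toSubalgebra :=
    IntermediateField.algebra_adjoin_le_adjoin K _
  refine ⟨p.map (Subalgebra.inclusion hle).toRingHom, ?_, ?_⟩
  · rw [Polynomial.map_ne_zero_iff]
    · exact hp0
    · exact Subalgebra.inclusion_injective hle
  · rw [Polynomial.aeval_def, Polynomial.eval₂_map]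
    rw [Polynomial.aeval_def] at hp
    exact hp

/-- `y` is not in `K(x, g)` -/
private theorem NSpl_not {K L : Type} [Field K] [Field L] [Algebra K L] {m : ℕ} (x y : L)
    (g : Fin m → L) (hg : AlgebraicIndependent K (Fin.cons x g : Fin (m + 1) → L))
    (hx : Transcendental K x) (hy : y ^ 2 = x ^ 3 + 1) :
    y ∉ IntermediateField.adjoin K (Set.range (Fin.cons x g : Fin (m + 1) → L)) := by
  intro h
  rw [IntermediateField.mem_adjoin_range_iff] at h
  obtain ⟨r, s, hrs⟩ := h
  set v : Fin (m + 1) → L := Fin.cons x g with hv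
  have hs : MvPolynomial.aeval v s ≠ 0 := by
    intro h0
    rw [h0, div_zero] at hrs
    apply hx
    refine ⟨Polynomial.X ^ 3 + 1, ?_, ?_⟩
    · exact (Polynomial.monic_X_pow_add_C (1 : K) (by norm_num : (3 : ℕ) ≠ 0)).ne_zero
    · rw [map_add, map_pow, Polynomial.aeval_X, map_one, ← hy, hrs]
      norm_num
  have h1 : MvPolynomial.aeval v (((MvPolynomial.X 0) ^ 3 + 1) * s ^ 2 - r ^ 2) = 0 := by
    have hvx : v 0 = x := rfl
    rw [map_sub, map_mul, map_add, map_pow, map_pow, map_pow, MvPolynomial.aeval_X, map_one, hvx,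
      ← hy, hrs]
    field_simp
    ring
  have h2 : ((MvPolynomial.X 0 : MvPolynomial (Fin (m + 1)) K) ^ 3 + 1) * s ^ 2 - r ^ 2 = 0 :=
    (injective_iff_map_eq_zero _).1 hg _ h1
  have h3 := congrArg (MvPolynomial.finSuccEquiv K m) h2
  rw [map_sub, map_mul, map_add, map_pow, map_pow, map_pow, MvPolynomial.finSuccEquiv_X_zero,
    map_one, map_zero, sub_eq_zero] at h3
  set S := MvPolynomial.finSuccEquiv K m s with hS
  set T := MvPolynomial.finSuccEquiv K m r with hT
  have hS0 : S ≠ 0 := by
    rw [hS, Ne, map_eq_zero_iff _ (MvPolynomial.finSuccEquiv K m).injective]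
    intro h0
    rw [h0, map_zero] at hs
    exact hs rfl
  have hmon : ((Polynomial.X : Polynomial (MvPolynomial (Fin m) K)) ^ 3 + 1).Monic :=
    Polynomial.monic_X_pow_add_C (1 : MvPolynomial (Fin m) K) (by norm_num : (3 : ℕ) ≠ 0)
  have hdeg : ((Polynomial.X : Polynomial (MvPolynomial (Fin m) K)) ^ 3 + 1).natDegree = 3 :=
    Polynomial.natDegree_X_pow_add_C (r := (1 : MvPolynomial (Fin m) K))
  have h4 := congrArg Polynomial.natDegree h3
  rw [Polynomial.natDegree_mul hmon.ne_zero (pow_ne_zero 2 hS0), hdeg,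
    Polynomial.natDegree_pow, Polynomial.natDegree_pow] at h4
  omega

/-- the automorphism -/
private theorem NSpl_aut {K L : Type} [NormedField K] [Field L] [Algebra K L] {m : ℕ}
    (htr : TrLe K L (m + 1)) (x y : L)
    (g : Fin m → L) (hg : AlgebraicIndependent K (Fin.cons x g : Fin (m + 1) → L))
    (hx : Transcendental K x) (hy : y ^ 2 = x ^ 3 + 1) :
    ∃ θ : AlgebraicClosure L ≃ₐ[IntermediateField.adjoin K
        (Set.range (Fin.cons x g : Fin (m + 1) → L))] AlgebraicClosure L,
      θ (algebraMap L (AlgebraicClosure L) y) = - algebraMap L (AlgebraicClosure L) y := by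
  set E := IntermediateField.adjoin K (Set.range (Fin.cons x g : Fin (m + 1) → L)) with hE
  have i1 : Algebra.IsAlgebraic E L := ⟨NSpl_alg htr _ hg⟩
  have i2 : Algebra.IsAlgebraic E (AlgebraicClosure L) := Algebra.IsAlgebraic.trans E L _
  have i3 : IsAlgClosure E (AlgebraicClosure L) := ⟨inferInstance, i2⟩
  have i4 : Normal E (AlgebraicClosure L) := IsAlgClosure.normal E (AlgebraicClosure L)
  set y' := algebraMap L (AlgebraicClosure L) y with hy'
  have hxE : x ∈ E := IntermediateField.subset_adjoin K _ ⟨0, rfl⟩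
  set q : Polynomial E := Polynomial.X ^ 2 - Polynomial.C ((⟨x, hxE⟩ : E) ^ 3 + 1) with hq
  have hqm : q.Monic := Polynomial.monic_X_pow_sub_C _ (by norm_num)
  have hqe : ∀ z : AlgebraicClosure L, Polynomial.aeval z q = z ^ 2 -
      (algebraMap L (AlgebraicClosure L) x ^ 3 + 1) := by
    intro z
    rw [hq, map_sub, map_pow, Polynomial.aeval_X, Polynomial.aeval_C, map_add, map_pow, map_one]
    rfl
  have hyy : y' ^ 2 = algebraMap L (AlgebraicClosure L) x ^ 3 + 1 := by
    rw [hy', ← map_pow, hy, map_add, map_pow, map_one]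
  have h1 : Polynomial.aeval y' q = 0 := by rw [hqe, hyy, sub_self]
  have h2 : minpoly E y' ∣ q := minpoly.dvd E y' h1
  have hint : IsIntegral E y' := (Algebra.IsAlgebraic.isAlgebraic y').isIntegral
  have h3 : 2 ≤ (minpoly E y').natDegree := by
    rw [minpoly.two_le_natDegree_iff hint]
    rintro ⟨e, he⟩
    apply NSpl_not x y g hg hx hy
    have h4 : (e : L) = y := by
      apply (algebraMap L (AlgebraicClosure L)).injective
      rw [← hy', ← he]
      rfl
    rw [← h4]
    exact e.2
  have h5 : q.natDegree = 2 := Polynomial.natDegree_X_pow_sub_C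
  have h6 : q = minpoly E y' :=
    Polynomial.eq_of_monic_of_dvd_of_natDegree_le (minpoly.monic hint) hqm h2 (by rw [h5]; exact h3)
  obtain ⟨θ, hθ⟩ := minpoly.exists_algEquiv_of_root' (K := E) (L := AlgebraicClosure L) (x := -y')
    (y := y') (Algebra.IsAlgebraic.isAlgebraic y') (by rw [← h6, hqe, neg_sq, hyy, sub_self])
  exact ⟨θ, hθ⟩

/-- a twisted point -/
private noncomputable def NSpl_tw {K L : Type} [NormedField K] [Field L] [Algebra K L]
    (X : Pt (algebraMap K (AlgebraicClosure L))) (θ : AlgebraicClosure L ≃ₐ[K] AlgebraicClosure L) :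
    Pt (algebraMap K (AlgebraicClosure L)) where
  v := X.v.comp θ.toRingEquiv.toRingHom.injective
  na := fun a b => by
    show X.v (θ (a + b)) ≤ _
    rw [map_add]; exact X.na _ _
  ext := fun a => by
    show X.v (θ (algebraMap K (AlgebraicClosure L) a)) = ‖a‖
    rw [θ.commutes]; exact X.ext a

private theorem NSpl_lt {r : ℝ} (_ : 0 ≤ r) (h : Real.log r < 0) : r < 1 := by
  by_contra h1
  exact absurd (Real.log_nonneg (not_lt.1 h1)) (not_le.2 h)

theorem thm_NSpl : St_NBas → St_NTub → St_NSpl := by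
  intro hB hT K L _ _ _ _ m c x y t hH g hg Q hQ u hu X hX
  obtain ⟨htr, -, -, -, ⟨hx, hab⟩, hEm, -⟩ := hB K L m c x y t hH
  obtain ⟨hT1, -, -, -⟩ := hT K L m c x y t hH
  obtain ⟨-, hcE⟩ := hEm g hg Q.1
  set Ω := AlgebraicClosure L with hΩ
  set ι : L →+* Ω := algebraMap L Ω with hι
  have hbase : ∀ k : K, ι (algebraMap K L k) = algebraMap K Ω k :=
    fun k => (IsScalarTower.algebraMap_apply K L Ω k).symm
  -- the point under `X`
  have hva : (pb (incE K L) X).v (xa c x Q.1 : L) < 1 := by
    refine NSpl_lt ((pb (incE K L) X).v.nonneg _) ?_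
    have h1 : logv (pb (incE K L) X) (cx c x Q.1 g) 0 = u 0 := congrFun hX.2 0
    have h2 : logv (pb (incE K L) X) (cx c x Q.1 g) 0 =
      Real.log ((pb (incE K L) X).v (xa c x Q.1 : L)) := rfl
    rw [← h2, h1]
    exact hu
  have hlva : Real.log ((pb (incE K L) X).v (xa c x Q.1)) < 0 := by
    have h1 : logv (pb (incE K L) X) (cx c x Q.1 g) 0 = u 0 := congrFun hX.2 0
    have h2 : logv (pb (incE K L) X) (cx c x Q.1 g) 0 =
      Real.log ((pb (incE K L) X).v (xa c x Q.1 : L)) := rfl
    rw [← h2, h1]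
    exact hu
  have hxa : ∀ v : Pt (algebraMap K L), v.v (xa c x Q.1 : L) =
      v.v (x - algebraMap K L (c Q.1)) := fun v => by rw [(hab Q.1).1]
  -- the automorphism
  have key : ∃ θ : Ω ≃ₐ[K] Ω, θ (ι x) = ι x ∧ (∀ i, θ (ι (g i : L)) = ι (g i : L)) ∧
      (θ (ι y) = ι y ∨ θ (ι y) = -ι y) ∧ X.v (θ (ι y) - ι (algebraMap K L (c Q.2))) < 1 := by
    rcases hT1 Q hQ (pb (incE K L) X) hlva with ⟨h1, -⟩ | ⟨-, h1⟩
    · refine ⟨AlgEquiv.refl, rfl, fun _ => rfl, Or.inl rfl, ?_⟩
      have h2 : X.v (ι (y - algebraMap K L (c Q.2))) < 1 := h1.2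
      rw [map_sub] at h2
      exact h2
    · obtain ⟨θ, hθ⟩ := NSpl_aut htr x y (fun i => (g i : L)) hg hx hH.eFun.eq
      have hfix : ∀ z ∈ IntermediateField.adjoin K
          (Set.range (Fin.cons x (fun i => (g i : L)) : Fin (m + 1) → L)), θ (ι z) = ι z := by
        intro z hz
        exact θ.commutes (⟨z, hz⟩ : IntermediateField.adjoin K
          (Set.range (Fin.cons x (fun i => (g i : L)) : Fin (m + 1) → L)))
      refine ⟨θ.restrictScalars K, hfix x (IntermediateField.subset_adjoin K _ ⟨0, rfl⟩),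
        fun i => hfix _ (IntermediateField.subset_adjoin K _ ⟨i.succ, rfl⟩), Or.inr hθ, ?_⟩
      have h2 : (pb (incE K L) X).v (yb c y Q.2 : L) < 1 :=
        NSpl_lt ((pb (incE K L) X).v.nonneg _) (by rw [h1]; exact hlva)
      rw [(hab Q.2).2] at h2
      have h3 : X.v (ι (y + algebraMap K L (c Q.2))) < 1 := h2
      have h4 : (θ.restrictScalars K) (ι y) - ι (algebraMap K L (c Q.2)) =
          -(ι (y + algebraMap K L (c Q.2))) := by
        have h5 : (θ.restrictScalars K) (ι y) = -ι y := hθ
        rw [h5, map_add]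
        ring
      rw [h4, AbsoluteValue.map_neg]
      exact h3
  obtain ⟨θ, hθx, hθg, hθy, hθv⟩ := key
  have hfixK : ∀ k : K, θ (algebraMap K Ω k) = algebraMap K Ω k := θ.commutes
  have hθcx : ∀ i, θ (ι (cx c x Q.1 g i : L)) = ι (cx c x Q.1 g i : L) := by
    intro i
    refine Fin.cases ?_ (fun j => ?_) i
    · have h1 : ((cx c x Q.1 g 0 : Lˣ) : L) = x - algebraMap K L (c Q.1) := (hab Q.1).1
      rw [h1, map_sub, map_sub, hθx, hbase, hfixK]
    · exact hθg j
  have hEmb : ((θ : Ω →ₐ[K] Ω).comp (incE K L)) ∈ Emb K (cx c x Q.1 g) := fun i => hθcx i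
  have hpb : ∀ σ : L →ₐ[K] Ω, pb ((θ : Ω →ₐ[K] Ω).comp σ) X = pb σ (NSpl_tw X θ) := fun σ => rfl
  refine ⟨NSpl_tw X θ, ?_, ?_, fun σ => (θ : Ω →ₐ[K] Ω).comp σ, ?_, fun σ _ => hpb σ⟩
  · have h1 := thm_EmG.1 K L (m + 1) (cx c x Q.1 g) X u hX _ hEmb
    rw [hpb] at h1
    exact h1
  · constructor
    · show X.v (θ (ι (x - algebraMap K L (c Q.1)))) < 1
      have h1 := hθcx 0
      have h2 : ((cx c x Q.1 g 0 : Lˣ) : L) = x - algebraMap K L (c Q.1) := (hab Q.1).1
      rw [h2] at h1
      rw [h1]
      rw [hxa] at hva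
      exact hva
    · show X.v (θ (ι (y - algebraMap K L (c Q.2)))) < 1
      rw [map_sub, map_sub, hbase, hfixK, ← hbase]
      exact hθv
  · have hcomp : ∀ σ : L →ₐ[K] Ω, σ ∈ EmbE K x y g →
        (θ : Ω →ₐ[K] Ω).comp σ ∈ Emb K (cx c x Q.1 g) := by
      intro σ hσ i
      have h1 : σ (cx c x Q.1 g i : L) = ι (cx c x Q.1 g i : L) := hcE hσ i
      show θ (σ (cx c x Q.1 g i : L)) = ι (cx c x Q.1 g i : L)
      rw [h1, hθcx]
    refine ⟨?_, ?_, ?_⟩
    · intro σ hσ
      refine ⟨hcomp σ hσ, ?_, ?_⟩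
      · show X.v (θ (σ (x - algebraMap K L (c Q.1)))) < 1
        have h1 := hcomp σ hσ 0
        have h2 : ((cx c x Q.1 g 0 : Lˣ) : L) = x - algebraMap K L (c Q.1) := (hab Q.1).1
        rw [h2] at h1
        have h3 : θ (σ (x - algebraMap K L (c Q.1))) = ι (x - algebraMap K L (c Q.1)) := h1
        rw [h3]
        rw [hxa] at hva
        exact hva
      · show X.v (θ (σ (y - algebraMap K L (c Q.2)))) < 1
        have h1 : σ y = ι y := hσ.2.1
        rw [map_sub, map_sub, h1, σ.commutes, hfixK, ← hbase]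
        exact hθv
    · intro σ _ τ _ h
      apply AlgHom.ext
      intro z
      have h1 : θ (σ z) = θ (τ z) := DFunLike.congr_fun h z
      exact θ.injective h1
    · rintro ρ ⟨hρ, hρt⟩
      refine ⟨(θ.symm : Ω →ₐ[K] Ω).comp ρ, ?_, ?_⟩
      · have hρx : ρ x = ι x := by
          have h1 := hρ 0
          have h2 : ((cx c x Q.1 g 0 : Lˣ) : L) = x - algebraMap K L (c Q.1) := (hab Q.1).1
          rw [h2, map_sub, ρ.commutes] at h1
          have h3 : ρ x - algebraMap K Ω (c Q.1) = ι x - algebraMap K Ω (c Q.1) := by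
            rw [h1, ← hbase, ← map_sub]
          exact sub_left_injective h3
        have hρg : ∀ i, ρ (g i : L) = ι (g i : L) := fun i => hρ i.succ
        have hρy2 : (ρ y - ι y) * (ρ y + ι y) = 0 := by
          have h1 : ρ y ^ 2 = ι y ^ 2 := by
            rw [← map_pow, hH.eFun.eq, ← map_pow, hH.eFun.eq, map_add, map_pow, map_one, hρx,
              map_add, map_pow, map_one]
          linear_combination h1
        have hρv : X.v (ρ y - ι (algebraMap K L (c Q.2))) < 1 := by
          have h1 : X.v (ρ (y - algebraMap K L (c Q.2))) < 1 := hρt.2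
          rw [map_sub, ρ.commutes, ← hbase] at h1
          exact h1
        have hρy : ρ y = θ (ι y) := by
          by_contra hne
          have hsum : ρ y + θ (ι y) = 0 := by
            rcases mul_eq_zero.1 hρy2 with h | h
            · rcases hθy with h' | h'
              · exact absurd (by rw [h', sub_eq_zero.1 h]) hne
              · rw [h', sub_eq_zero.1 h]; ring
            · rcases hθy with h' | h'
              · rw [h']; exact h
              · exact absurd (by rw [h']; exact eq_neg_of_add_eq_zero_left h) hne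
          have h1 : algebraMap K Ω (c (2 * Q.2)) = -((ρ y - ι (algebraMap K L (c Q.2))) +
              (θ (ι y) - ι (algebraMap K L (c Q.2)))) := by
            rw [hbase, map_mul, map_mul, map_ofNat, map_ofNat]
            linear_combination hsum
          have h2 : X.v (algebraMap K Ω (c (2 * Q.2))) = 1 := by
            rw [X.ext]
            exact hH.resC.one _ (mul_ne_zero two_ne_zero hQ.2.2)
          have h3 := X.na (ρ y - ι (algebraMap K L (c Q.2))) (θ (ι y) - ι (algebraMap K L (c Q.2)))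
          rw [← AbsoluteValue.map_neg X.v, ← h1, h2] at h3
          exact absurd h3 (not_le.2 (max_lt hρv hθv))
        refine ⟨?_, ?_, fun i => ?_⟩
        · show θ.symm (ρ x) = ι x
          rw [hρx, θ.symm_apply_eq, hθx]
        · show θ.symm (ρ y) = ι y
          rw [hρy, θ.symm_apply_apply]
        · show θ.symm (ρ (g i : L)) = ι (g i : L)
          rw [hρg, θ.symm_apply_eq, hθg]
      · apply AlgHom.ext
        intro z
        show θ (θ.symm (ρ z)) = ρ z
        exact θ.apply_symm_apply _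

end TDC
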