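import Pool.Agent.TDC.StN

/-!
# NSub: divisors of functions are closed under differences
-/

namespace TDC

open scoped Topology

theorem thm_NSub : St_NSub := by
  intro M _ i x y o o' h h'
  obtain ⟨φ, hφ, ⟨U, W, hW, hUW⟩, hQ⟩ := h
  obtain ⟨ψ, hψ, ⟨U', W', hW', hUW'⟩, hQ'⟩ := h'
  refine ⟨φ / ψ, div_ne_zero hφ hψ, ⟨U * W', W * U', ?_, ?_⟩, ?_⟩
  · rw [MvPolynomial.eval₂_mul]
    refine mul_ne_zero hW ?_
    rw [← hUW']
    exact mul_ne_zero hψ hW'
  · rw [MvPolynomial.eval₂_mul, MvPolynomial.eval₂_mul, ← hUW, ← hUW']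
    field_simp
  · intro Q gQ
    obtain ⟨U₁, W₁, hU₁, hW₁, h₁⟩ := hQ Q gQ
    obtain ⟨U₂, W₂, hU₂, hW₂, h₂⟩ := hQ' Q gQ
    have key : φ / ψ * MvPolynomial.eval₂ i ![x, y] (W₁ * U₂) =
        (x - i Q.1) ^ (o Q - o' Q) * MvPolynomial.eval₂ i ![x, y] (U₁ * W₂) ∨
        ∃ V : MvPolynomial (Fin 2) ℂ, MvPolynomial.eval ![Q.1, Q.2] V ≠ 0 ∧
          MvPolynomial.eval₂ i ![x, y] V = 0 := by
      by_cases hx : x - i Q.1 = 0
      · by_cases h0 : o Q = 0
        · by_cases h0' : o' Q = 0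
          · left
            rw [h0, zpow_zero, one_mul] at h₁
            rw [h0', zpow_zero, one_mul] at h₂
            rw [h0, h0', sub_zero, zpow_zero, one_mul, MvPolynomial.eval₂_mul,
              MvPolynomial.eval₂_mul, ← h₁, ← h₂]
            field_simp
          · right
            refine ⟨W₂, hW₂, ?_⟩
            rw [hx, zero_zpow _ h0', zero_mul] at h₂
            exact (mul_eq_zero.1 h₂).resolve_left hψ
        · right
          refine ⟨W₁, hW₁, ?_⟩
          rw [hx, zero_zpow _ h0, zero_mul] at h₁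
          exact (mul_eq_zero.1 h₁).resolve_left hφ
      · left
        rw [MvPolynomial.eval₂_mul, MvPolynomial.eval₂_mul, zpow_sub₀ hx]
        have hz : (x - i Q.1) ^ (o' Q) ≠ 0 := zpow_ne_zero _ hx
        rw [div_mul_eq_mul_div, div_mul_eq_mul_div, div_eq_div_iff hψ hz]
        calc φ * (MvPolynomial.eval₂ i ![x, y] W₁ * MvPolynomial.eval₂ i ![x, y] U₂) *
              (x - i Q.1) ^ (o' Q)
            = (φ * MvPolynomial.eval₂ i ![x, y] W₁) *
              ((x - i Q.1) ^ (o' Q) * MvPolynomial.eval₂ i ![x, y] U₂) := by ring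
          _ = ((x - i Q.1) ^ (o Q) * MvPolynomial.eval₂ i ![x, y] U₁) *
              (ψ * MvPolynomial.eval₂ i ![x, y] W₂) := by rw [h₁, h₂]
          _ = _ := by ring
    rcases key with h | ⟨V, hV, hV'⟩
    · refine ⟨U₁ * W₂, W₁ * U₂, ?_, ?_, h⟩
      · rw [map_mul]; exact mul_ne_zero hU₁ hW₂
      · rw [map_mul]; exact mul_ne_zero hW₁ hU₂
    · exact ⟨V, V, hV, hV, by rw [hV', mul_zero, mul_zero]⟩

end TDC
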