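import Pool.Agent.TDC.StN2

/-!
# TDN NTrG: change of coordinates in the integral
-/

set_option autoImplicit false

namespace TDC

open scoped Topology
open MeasureTheory

private theorem NTrG_cov {n : ℕ} (a : Matrix (Fin n) (Fin n) ℝ) (ha : a.det ≠ 0)
    (w : Fin n → ℝ) (g : (Fin n → ℝ) → ℝ) :
    (Integrable g → Integrable fun u => g (a.mulVec u + w)) ∧
      |a.det| * ∫ u, g (a.mulVec u + w) = ∫ s, g s := by
  have hinj : Function.Injective (Matrix.toLin' a) := by
    rw [Matrix.toLin'_apply']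
    exact Matrix.mulVec_injective_iff_isUnit.2 ((Matrix.isUnit_iff_isUnit_det a).2
      (isUnit_iff_ne_zero.2 ha))
  have hcont : Continuous (Matrix.toLin' a) := LinearMap.continuous_of_finiteDimensional _
  have hemb : MeasurableEmbedding (Matrix.toLin' a) := hcont.measurableEmbedding hinj
  have hmap := Real.map_matrix_volume_pi_eq_smul_volume_pi ha
  constructor
  · intro hg
    have h1 : Integrable (fun s => g (s + w)) := hg.comp_add_right w
    have h2 : Integrable (fun s => g (s + w)) (Measure.map (Matrix.toLin' a) volume) := by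
      rw [hmap]
      exact h1.smul_measure ENNReal.ofReal_ne_top
    exact hemb.integrable_map_iff.1 h2
  · have h1 : ∫ u, g (a.mulVec u + w) = ∫ s, g (s + w) ∂(Measure.map (Matrix.toLin' a) volume) :=
      (hemb.integral_map fun s => g (s + w)).symm
    rw [h1, hmap, integral_smul_measure, ENNReal.toReal_ofReal (abs_nonneg _),
      integral_add_right_eq_self g w, smul_eq_mul, ← mul_assoc, abs_inv,
      mul_inv_cancel₀ (abs_ne_zero.2 ha), one_mul]

private theorem NTrG_af {R n : ℕ} (J : Fin n → Fin R)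
    (k : Matrix (Fin R) (Fin n) ℝ × (Fin R → ℝ)) (hk : (k.1.submatrix J id).det ≠ 0)
    (u : Fin n → ℝ) : af (rp J k) ((k.1.submatrix J id).mulVec u + k.2 ∘ J) = af k u := by
  unfold af rp
  simp only
  rw [Matrix.mulVec_add, Matrix.mulVec_mulVec, Matrix.mul_assoc,
    Matrix.nonsing_inv_mul _ (isUnit_iff_ne_zero.2 hk), Matrix.mul_one]
  abel

theorem thm_NTrG : St_EmF → St_GEx → St_NMea → St_Aeq → St_BaJ → St_NTrG := by
  intro _ _ hNMea hAeq _ K L _ _ _ _ n R hn hTr hFG hct F I J 𝒦 hSh hRef θ C hθ hθc hC hθ0 k hk hdet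
  obtain ⟨hbd, hme⟩ := hNMea K L n R hn hTr hFG hct F I J 𝒦 hSh hRef
  have haf : Continuous fun s : Fin n → ℝ => af (rp J k) s :=
    continuous_const.add ((Matrix.mulVecLin (rp J k).1).continuous_of_finiteDimensional)
  have hE : Continuous fun s : Fin n → ℝ => θ (af (rp J k) s) (rp J k).1 :=
    (hθc (rp J k).1).comp haf
  have hcs : HasCompactSupport fun s : Fin n → ℝ => θ (af (rp J k) s) (rp J k).1 :=
    HasCompactSupport.intro hC fun s hs => hθ0 k hk hdet s hs
  have hg : Integrable fun s : Fin n → ℝ => cw K (F ∘ J) F s (af (rp J k) s) *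
      θ (af (rp J k) s) (rp J k).1 :=
    (hE.integrable_of_hasCompactSupport hcs).bdd_mul (hme k hk hdet)
      (Filter.Eventually.of_forall fun s => by
        rw [Real.norm_eq_abs, abs_of_nonneg (hbd s (af (rp J k) s)).1]
        exact (hbd s (af (rp J k) s)).2)
  have hfg : (fun u => cw K (F ∘ I) F u (af k u) * θ (af k u) k.1) =ᵐ[volume]
      fun u => |(k.1.submatrix J id).det| *
        (cw K (F ∘ J) F ((k.1.submatrix J id).mulVec u + k.2 ∘ J)
            (af (rp J k) ((k.1.submatrix J id).mulVec u + k.2 ∘ J)) *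
          θ (af (rp J k) ((k.1.submatrix J id).mulVec u + k.2 ∘ J)) (rp J k).1) := by
    filter_upwards [hAeq K L n R hn hTr hFG hct F I J 𝒦 hSh k hk hdet] with u hu
    have h1 : (k.1.submatrix J id).mulVec u + k.2 ∘ J = af k u ∘ J := by
      funext i
      show _ = k.2 (J i) + k.1.mulVec u (J i)
      rw [Pi.add_apply, add_comm]
      rfl
    rw [NTrG_af J k hdet u, h1, hu]
    have h2 : (rp J k).1 = k.1 * (k.1.submatrix J id)⁻¹ := rfl
    rw [h2, hθ, Matrix.det_nonsing_inv, Ring.inverse_eq_inv']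
    have h3 : |(k.1.submatrix J id).det| * |(k.1.submatrix J id).det| =
        (k.1.submatrix J id).det * (k.1.submatrix J id).det := abs_mul_abs_self _
    field_simp
    linear_combination (- cw K (F ∘ I) F u (af k u) * θ (af k u) k.1) * h3
  obtain ⟨hc1, hc2⟩ := NTrG_cov _ hdet (k.2 ∘ J) (fun s => cw K (F ∘ J) F s (af (rp J k) s) *
    θ (af (rp J k) s) (rp J k).1)
  refine ⟨((hc1 hg).const_mul _).congr hfg.symm, hg, ?_⟩
  rw [integral_congr_ae hfg, integral_const_mul]
  exact hc2

end TDC
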