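import Pool.Agent.TDC.StN
import Pool.Agent.TDC.StNa

/-!
# NTub: tubes (bridge)
-/

namespace TDC

open scoped Topology

theorem thm_NTub : St_NBas → St_NaTub → St_NaSte → St_NTub := by
  intro hB hT hS K L _ _ _ _ m c x y t hN
  obtain ⟨hTr, -, -, -, ⟨htr, hxa⟩, -⟩ := hB K L m c x y t hN
  have htr' : ∀ p : Polynomial K, p ≠ 0 → Polynomial.aeval x p ≠ 0 := by
    intro p hp h0
    exact htr ⟨p, hp, h0⟩
  have hT' := hT K L c x y hN.resC hN.eFun.eq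
  have hpos : ∀ (v : Pt (algebraMap K L)) (a : ℂ), 0 < v.v (x - algebraMap K L (c a)) := by
    intro v a
    rw [← (hxa a).1]
    exact v.v.pos (Units.ne_zero _)
  refine ⟨?_, ?_, ?_, ?_⟩
  · intro Q gQ v hlog
    rw [(hxa Q.1).1, Real.log_neg_iff (hpos v _)] at hlog
    rw [(hxa Q.1).1, (hxa Q.2).2]
    rcases (hT' v).1 Q gQ hlog with ⟨h1, h2⟩ | ⟨h1, h2⟩
    · exact Or.inl ⟨⟨hlog, h1⟩, by rw [h2, Real.log_one]⟩
    · exact Or.inr ⟨fun hv => absurd h1 (ne_of_lt hv.2), by rw [h2]⟩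
  · intro Q _ v hv
    rw [(hxa Q.1).1, Real.log_neg_iff (hpos v _)]
    exact hv.1
  · intro Q Q' _ _ hne
    rw [Set.disjoint_left]
    intro v hv hv'
    exact hne ((hT' v).2.1 Q Q' hv hv')
  · intro r f
    obtain ⟨S, hS'⟩ := hS K L c x (m + 1) hN.resC hTr htr' r f
    exact ⟨S, fun Q _ hQ v hv J => hS' Q.1 hQ v hv.1 J⟩

end TDC
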