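import Pool.Agent.TDC.StN

set_option autoImplicit false

/-!
# TDC: Vandermonde vectors
-/

namespace TDC

open scoped Topology
open Polynomial

private lemma NVan_key (R : ℕ) (p : Fin R → ℝ) (S : Finset ℕ) (hS : R ≤ S.card)
    (h : ∀ r ∈ S, ∑ i : Fin R, (r : ℝ) ^ (i : ℕ) * p i = 0) : p = 0 := by
  have hP : (∑ i : Fin R, C (p i) * X ^ (i : ℕ) : ℝ[X]) = 0 := by
    refine Polynomial.eq_zero_of_degree_lt_of_eval_finset_eq_zero
      (S.image (Nat.cast : ℕ → ℝ)) ?_ ?_
    · rw [Finset.card_image_of_injective _ Nat.cast_injective]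
      refine lt_of_lt_of_le (Polynomial.degree_sum_fin_lt p) ?_
      exact_mod_cast hS
    · intro x hx
      obtain ⟨r, hr, rfl⟩ := Finset.mem_image.1 hx
      rw [Polynomial.eval_finsetSum, ← h r hr]
      refine Finset.sum_congr rfl fun i _ => ?_
      rw [eval_mul, eval_C, eval_pow, eval_X, mul_comm]
  funext j
  have h1 := congrArg (fun P : ℝ[X] => P.coeff (j : ℕ)) hP
  simp only [Polynomial.finsetSum_coeff, Polynomial.coeff_C_mul, Polynomial.coeff_X_pow,
    Polynomial.coeff_zero] at h1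
  rw [Finset.sum_eq_single j] at h1
  · rw [if_pos rfl, mul_one] at h1
    exact h1
  · intro i _ hij
    rw [if_neg (fun h => hij (Fin.ext h.symm)), mul_zero]
  · intro h
    exact (h (Finset.mem_univ _)).elim

private lemma NVan_sub (R N₀ : ℕ) (A A' : Finset (Fin R → ℝ)) (hA' : A'.card ≤ N₀)
    (h : ∀ r ≤ R * (N₀ + 1), ∀ p ∈ A, ∃ a ∈ A', ∑ i : Fin R, (r : ℝ) ^ (i : ℕ) * a i =
      ∑ i : Fin R, (r : ℝ) ^ (i : ℕ) * p i) : A ⊆ A' := by
  classical
  intro p hp
  have h1 : ∀ r : ℕ, ∃ a, r ≤ R * (N₀ + 1) → a ∈ A' ∧ ∑ i : Fin R, (r : ℝ) ^ (i : ℕ) * a i =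
      ∑ i : Fin R, (r : ℝ) ^ (i : ℕ) * p i := by
    intro r
    by_cases hr : r ≤ R * (N₀ + 1)
    · obtain ⟨a, ha, hae⟩ := h r hr p hp
      exact ⟨a, fun _ => ⟨ha, hae⟩⟩
    · exact ⟨0, fun h => (hr h).elim⟩
  choose f hf using h1
  have hmaps : ∀ r ∈ Finset.range (R * (N₀ + 1) + 1), f r ∈ A' := by
    intro r hr
    rw [Finset.mem_range] at hr
    exact (hf r (by omega)).1
  have hcard : A'.card * R < (Finset.range (R * (N₀ + 1) + 1)).card := by
    rw [Finset.card_range]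
    have h2 : A'.card * R ≤ N₀ * R := Nat.mul_le_mul_right R hA'
    have h3 : R * (N₀ + 1) = N₀ * R + R := by ring
    omega
  obtain ⟨y, hy, hyc⟩ := Finset.exists_lt_card_fiber_of_mul_lt_card_of_maps_to hmaps hcard
  have h2 : p - y = 0 := by
    refine NVan_key R (p - y) _ hyc.le ?_
    intro r hr
    rw [Finset.mem_filter, Finset.mem_range] at hr
    have h3 := (hf r (by omega)).2
    rw [hr.2] at h3
    have h4 : ∑ i : Fin R, (r : ℝ) ^ (i : ℕ) * (p - y) i =
        ∑ i : Fin R, (r : ℝ) ^ (i : ℕ) * p i - ∑ i : Fin R, (r : ℝ) ^ (i : ℕ) * y i := by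
      rw [← Finset.sum_sub_distrib]
      refine Finset.sum_congr rfl fun i _ => ?_
      rw [Pi.sub_apply]
      ring
    rw [h4, h3, sub_self]
  rw [sub_eq_zero.1 h2]
  exact hy

theorem thm_NVan : St_NVan := by
  classical
  intro R N₀
  refine ⟨R * (N₀ + 1), ?_, ?_⟩
  · intro A A' hA hA' h
    apply Finset.Subset.antisymm
    · refine NVan_sub R N₀ A A' hA' fun r hr p hp => ?_
      have h1 : (fun p : Fin R → ℝ => ∑ i : Fin R, (r : ℝ) ^ (i : ℕ) * p i) p ∈
          (fun p : Fin R → ℝ => ∑ i : Fin R, (r : ℝ) ^ (i : ℕ) * p i) ''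
            (A' : Set (Fin R → ℝ)) := by
        rw [← h r hr]
        exact ⟨p, hp, rfl⟩
      obtain ⟨a, ha, hae⟩ := h1
      exact ⟨a, ha, hae⟩
    · refine NVan_sub R N₀ A' A hA fun r hr p hp => ?_
      have h1 : (fun p : Fin R → ℝ => ∑ i : Fin R, (r : ℝ) ^ (i : ℕ) * p i) p ∈
          (fun p : Fin R → ℝ => ∑ i : Fin R, (r : ℝ) ^ (i : ℕ) * p i) ''
            (A : Set (Fin R → ℝ)) := by
        rw [h r hr]
        exact ⟨p, hp, rfl⟩
      obtain ⟨a, ha, hae⟩ := h1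
      exact ⟨a, ha, hae⟩
  · intro A hA p z h
    let S : Finset ℕ := (Finset.range (R * (N₀ + 1) + 1)).filter fun r => ∀ a ∈ A, a ≠ p →
      ∑ i : Fin R, (r : ℝ) ^ (i : ℕ) * a i ≠ ∑ i : Fin R, (r : ℝ) ^ (i : ℕ) * p i
    let B : (Fin R → ℝ) → Finset ℕ := fun a =>
      (Finset.range (R * (N₀ + 1) + 1)).filter fun r => a ≠ p ∧
        ∑ i : Fin R, (r : ℝ) ^ (i : ℕ) * a i = ∑ i : Fin R, (r : ℝ) ^ (i : ℕ) * p i
    have hB : ∀ a ∈ A, (B a).card ≤ R := by
      intro a _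
      by_contra hc
      have hne : (B a).Nonempty := by
        rw [← Finset.card_pos]
        omega
      obtain ⟨r₀, hr₀⟩ := hne
      have hap : a ≠ p := (Finset.mem_filter.1 hr₀).2.1
      have h2 : a - p = 0 := by
        refine NVan_key R (a - p) (B a) (by omega) ?_
        intro r hr
        have h3 := (Finset.mem_filter.1 hr).2.2
        have h4 : ∑ i : Fin R, (r : ℝ) ^ (i : ℕ) * (a - p) i =
            ∑ i : Fin R, (r : ℝ) ^ (i : ℕ) * a i - ∑ i : Fin R, (r : ℝ) ^ (i : ℕ) * p i := by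
          rw [← Finset.sum_sub_distrib]
          refine Finset.sum_congr rfl fun i _ => ?_
          rw [Pi.sub_apply]
          ring
        rw [h4, h3, sub_self]
      exact hap (sub_eq_zero.1 h2)
    have hcov : Finset.range (R * (N₀ + 1) + 1) ⊆ S ∪ A.biUnion B := by
      intro r hr
      rw [Finset.mem_union]
      by_cases hrS : r ∈ S
      · exact Or.inl hrS
      · right
        have h1 : ¬ ∀ a ∈ A, a ≠ p →
            ∑ i : Fin R, (r : ℝ) ^ (i : ℕ) * a i ≠ ∑ i : Fin R, (r : ℝ) ^ (i : ℕ) * p i :=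
          fun h => hrS (Finset.mem_filter.2 ⟨hr, h⟩)
        push Not at h1
        obtain ⟨a, ha, hap, hae⟩ := h1
        exact Finset.mem_biUnion.2 ⟨a, ha, Finset.mem_filter.2 ⟨hr, hap, hae⟩⟩
    have h1 := Finset.card_le_card hcov
    have h2 := Finset.card_union_le S (A.biUnion B)
    have h3 := Finset.card_biUnion_le_card_mul A B R hB
    have h4 : A.card * R ≤ N₀ * R := Nat.mul_le_mul_right R hA
    rw [Finset.card_range] at h1
    have h5 : R * (N₀ + 1) = N₀ * R + R := by ring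
    refine NVan_key R z S (by omega) ?_
    intro r hr
    obtain ⟨hr1, hr2⟩ := Finset.mem_filter.1 hr
    rw [Finset.mem_range] at hr1
    exact h r (by omega) hr2

end TDC
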