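import Pool.Agent.TDC.StNa

/-!
# TDN: module NaAsy (reduction of the elements of `K(E)`)
-/

set_option autoImplicit false

namespace TDC

open scoped Topology
open Polynomial

/-- parity of degrees -/
private theorem NaAsy_par {F : Type} [Field F] (A B : F[X]) (h : A ^ 2 = B ^ 2 * (X ^ 3 + 1)) :
    A = 0 ∧ B = 0 := by
  by_cases hB : B = 0
  · subst hB
    have h1 : A ^ 2 = 0 := by rw [h]; ring
    exact ⟨(pow_eq_zero_iff two_ne_zero).1 h1, rfl⟩
  · exfalso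
    have hd : (X ^ 3 + 1 : F[X]).natDegree = 3 := by
      have h1 := natDegree_X_pow_add_C (n := 3) (r := (1 : F))
      rwa [C_1] at h1
    have hf : (X ^ 3 + 1 : F[X]) ≠ 0 := by
      intro h0
      rw [h0, natDegree_zero] at hd
      omega
    have h2 := congrArg natDegree h
    rw [natDegree_pow, natDegree_mul (pow_ne_zero 2 hB) hf, natDegree_pow, hd] at h2
    omega

private theorem NaAsy_ind {F M : Type} [Field F] [Field M] (j : F →+* M) (x y : M)
    (he : y ^ 2 = x ^ 3 + 1) (htr : ∀ p : F[X], p ≠ 0 → p.eval₂ j x ≠ 0) (A B : F[X])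
    (h : A.eval₂ j x + B.eval₂ j x * y = 0) : A = 0 ∧ B = 0 := by
  apply NaAsy_par
  by_contra hne
  have h1 : (A ^ 2 - B ^ 2 * (X ^ 3 + 1)).eval₂ j x ≠ 0 := htr _ (sub_ne_zero.2 hne)
  apply h1
  simp only [eval₂_sub, eval₂_mul, eval₂_pow, eval₂_add, eval₂_X, eval₂_one]
  have h2 : A.eval₂ j x = -(B.eval₂ j x * y) := eq_neg_of_add_eq_zero_left h
  rw [h2, ← he]
  ring

/-- elements of `K(x, y)` -/
private theorem NaAsy_rep {K L : Type} [Field K] [Field L] [Algebra K L] (x y : L)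
    (he : y ^ 2 = x ^ 3 + 1) (htr : ∀ p : K[X], p ≠ 0 → p.eval₂ (algebraMap K L) x ≠ 0)
    (w : L) (hw : w ∈ KE K x y) : ∃ A B D : K[X], D ≠ 0 ∧
      w * D.eval₂ (algebraMap K L) x =
        A.eval₂ (algebraMap K L) x + B.eval₂ (algebraMap K L) x * y := by
  unfold KE at hw
  induction hw using IntermediateField.adjoin_induction with
  | mem z hz =>
    rcases hz with rfl | hz
    · exact ⟨X, 0, 1, one_ne_zero, by simp⟩
    · rw [Set.mem_singleton_iff] at hz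
      subst hz
      exact ⟨0, 1, 1, one_ne_zero, by simp⟩
  | algebraMap a => exact ⟨C a, 0, 1, one_ne_zero, by simp⟩
  | add u v _ _ hu hv =>
    obtain ⟨A, B, D, hD, h⟩ := hu
    obtain ⟨A', B', D', hD', h'⟩ := hv
    refine ⟨A * D' + A' * D, B * D' + B' * D, D * D', mul_ne_zero hD hD', ?_⟩
    simp only [eval₂_add, eval₂_mul]
    linear_combination (D'.eval₂ (algebraMap K L) x) * h + (D.eval₂ (algebraMap K L) x) * h'
  | inv u _ hu =>
    obtain ⟨A, B, D, hD, h⟩ := hu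
    by_cases hu0 : u = 0
    · exact ⟨0, 0, 1, one_ne_zero, by simp [hu0]⟩
    · have hne : A ^ 2 - B ^ 2 * (X ^ 3 + 1) ≠ 0 := by
        intro h0
        obtain ⟨hA, hB⟩ := NaAsy_par A B (sub_eq_zero.1 h0)
        rw [hA, hB, eval₂_zero, zero_mul, add_zero] at h
        exact mul_ne_zero hu0 (htr D hD) h
      refine ⟨D * A, -(D * B), A ^ 2 - B ^ 2 * (X ^ 3 + 1), hne, ?_⟩
      simp only [eval₂_sub, eval₂_mul, eval₂_pow, eval₂_add, eval₂_X, eval₂_one, eval₂_neg]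
      rw [← he]
      have hi : u⁻¹ * u = 1 := inv_mul_cancel₀ hu0
      linear_combination (-(u⁻¹) * (A.eval₂ (algebraMap K L) x -
        B.eval₂ (algebraMap K L) x * y)) * h + (D.eval₂ (algebraMap K L) x *
        (A.eval₂ (algebraMap K L) x - B.eval₂ (algebraMap K L) x * y)) * hi
  | mul u v _ _ hu hv =>
    obtain ⟨A, B, D, hD, h⟩ := hu
    obtain ⟨A', B', D', hD', h'⟩ := hv
    refine ⟨A * A' + B * B' * (X ^ 3 + 1), A * B' + A' * B, D * D', mul_ne_zero hD hD', ?_⟩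
    simp only [eval₂_add, eval₂_mul, eval₂_pow, eval₂_X, eval₂_one]
    rw [← he]
    linear_combination (v * D'.eval₂ (algebraMap K L) x) * h +
      (A.eval₂ (algebraMap K L) x + B.eval₂ (algebraMap K L) x * y) * h'

private theorem NaAsy_fin {ι : Type} (S : Finset ι) (f : ι → ℝ) (hf : ∀ k ∈ S, f k < 1) :
    ∃ θ : ℝ, 0 < θ ∧ θ < 1 ∧ ∀ k ∈ S, f k ≤ θ := by
  classical
  induction S using Finset.induction_on with
  | empty => exact ⟨1 / 2, by norm_num, by norm_num, fun k hk => absurd hk (Finset.notMem_empty k)⟩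
  | insert a S _ ih =>
    obtain ⟨θ, h0, h1, h2⟩ := ih fun k hk => hf k (Finset.mem_insert_of_mem hk)
    refine ⟨max θ (f a), lt_of_lt_of_le h0 (le_max_left _ _),
      max_lt h1 (hf a (Finset.mem_insert_self a S)), fun k hk => ?_⟩
    rcases Finset.mem_insert.1 hk with rfl | hk
    · exact le_max_right _ _
    · exact (h2 k hk).trans (le_max_left _ _)

section val

variable {K L : Type} [NormedField K] [Field L] [Algebra K L]

private theorem NaAsy_sum {ι : Type} (v : Pt (algebraMap K L)) (S : Finset ι) (f : ι → L) (M : ℝ)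
    (hM : 0 ≤ M) (hf : ∀ k ∈ S, v.v (f k) ≤ M) : v.v (∑ k ∈ S, f k) ≤ M := by
  classical
  induction S using Finset.induction_on with
  | empty => simpa using hM
  | insert a S ha ih =>
    rw [Finset.sum_insert ha]
    exact (v.na _ _).trans (max_le (hf a (Finset.mem_insert_self a S))
      (ih fun k hk => hf k (Finset.mem_insert_of_mem hk)))

private theorem NaAsy_poly (c : ℂ →+* K) (x : L) (P : K[X]) (n : ℕ) (hn : P.natDegree < n)
    (r : ℕ → ℂ) (α : K) (hα : α ≠ 0) (θ : ℝ) (hθ : 0 < θ)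
    (hr : ∀ k ∈ Finset.range n, ‖P.coeff k / α - c (r k)‖ ≤ θ) (v : Pt (algebraMap K L))
    (hx : v.v x ≤ 1) :
    v.v (P.eval₂ (algebraMap K L) x - algebraMap K L α *
      (∑ k ∈ Finset.range n, monomial k (r k)).eval₂ ((algebraMap K L).comp c) x) ≤ ‖α‖ * θ := by
  have e : P.eval₂ (algebraMap K L) x - algebraMap K L α *
      (∑ k ∈ Finset.range n, monomial k (r k)).eval₂ ((algebraMap K L).comp c) x =
      ∑ k ∈ Finset.range n, algebraMap K L (P.coeff k - α * c (r k)) * x ^ k := by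
    rw [eval₂_eq_sum_range' _ hn, eval₂_finsetSum, Finset.mul_sum, ← Finset.sum_sub_distrib]
    refine Finset.sum_congr rfl fun k _ => ?_
    rw [eval₂_monomial, map_sub, map_mul, RingHom.comp_apply]
    ring
  rw [e]
  refine NaAsy_sum v _ _ _ (mul_nonneg (norm_nonneg _) hθ.le) fun k hk => ?_
  rw [map_mul, v.ext, map_pow]
  have h1 : ‖P.coeff k - α * c (r k)‖ = ‖α‖ * ‖P.coeff k / α - c (r k)‖ := by
    rw [← norm_mul]
    congr 1
    field_simp
  rw [h1]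
  have h2 : v.v x ^ k ≤ 1 := pow_le_one₀ (v.v.nonneg x) hx
  calc ‖α‖ * ‖P.coeff k / α - c (r k)‖ * v.v x ^ k ≤ ‖α‖ * ‖P.coeff k / α - c (r k)‖ * 1 :=
        mul_le_mul_of_nonneg_left h2 (mul_nonneg (norm_nonneg _) (norm_nonneg _))
    _ ≤ ‖α‖ * θ := by
        rw [mul_one]
        exact mul_le_mul_of_nonneg_left (hr k hk) (norm_nonneg _)

/-- the reduction -/
private theorem NaAsy_red (c : ℂ →+* K) (x y : L) (hc : ResC c) (A B : K[X])
    (hAB : ¬ (A = 0 ∧ B = 0)) :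
    ∃ (α : K) (A' B' : ℂ[X]) (θ : ℝ), α ≠ 0 ∧ ¬ (A' = 0 ∧ B' = 0) ∧ 0 < θ ∧ θ < 1 ∧
      ∀ v : Pt (algebraMap K L), v.v x ≤ 1 → v.v y ≤ 1 →
        v.v (A.eval₂ (algebraMap K L) x + B.eval₂ (algebraMap K L) x * y - algebraMap K L α *
          (A'.eval₂ ((algebraMap K L).comp c) x + B'.eval₂ ((algebraMap K L).comp c) x * y)) ≤
          ‖α‖ * θ := by
  classical
  obtain ⟨n, hn⟩ : ∃ n, n = max A.natDegree B.natDegree + 1 := ⟨_, rfl⟩
  have hA : A.natDegree < n := by omega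
  have hB : B.natDegree < n := by omega
  obtain ⟨α, hα, hmax⟩ := Finset.exists_max_image
    ((Finset.range n).image A.coeff ∪ (Finset.range n).image B.coeff) (fun z => ‖z‖)
    ⟨A.coeff 0, Finset.mem_union_left _ (Finset.mem_image_of_mem _
      (Finset.mem_range.2 (by omega)))⟩
  have hAm : ∀ k ∈ Finset.range n, ‖A.coeff k‖ ≤ ‖α‖ := fun k hk =>
    hmax _ (Finset.mem_union_left _ (Finset.mem_image_of_mem _ hk))
  have hBm : ∀ k ∈ Finset.range n, ‖B.coeff k‖ ≤ ‖α‖ := fun k hk =>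
    hmax _ (Finset.mem_union_right _ (Finset.mem_image_of_mem _ hk))
  have hα0 : α ≠ 0 := by
    rintro rfl
    apply hAB
    have h : ∀ P : K[X], P.natDegree < n → (∀ k ∈ Finset.range n, ‖P.coeff k‖ ≤ ‖(0 : K)‖) →
        P = 0 := by
      intro P hP h
      ext k
      rw [coeff_zero]
      by_cases hk : k < n
      · have h1 := h k (Finset.mem_range.2 hk)
        rw [norm_zero] at h1
        exact norm_le_zero_iff.1 h1
      · exact coeff_eq_zero_of_natDegree_lt (by omega)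
    exact ⟨h A hA hAm, h B hB hBm⟩
  have hαn : 0 < ‖α‖ := norm_pos_iff.2 hα0
  have hr : ∀ z : K, ∃ a : ℂ, ‖z‖ ≤ 1 → ‖z - c a‖ < 1 := by
    intro z
    by_cases h : ‖z‖ ≤ 1
    · obtain ⟨a, ha⟩ := hc.res z h
      exact ⟨a, fun _ => ha⟩
    · exact ⟨0, fun h' => absurd h' h⟩
  choose r hr using hr
  have hr1 : r 1 ≠ 0 := by
    intro h
    have h1 := hr 1 (by rw [norm_one])
    rw [h, map_zero, sub_zero, norm_one] at h1
    exact lt_irrefl _ h1
  have hdiv : ∀ z : K, ‖z‖ ≤ ‖α‖ → ‖z / α‖ ≤ 1 := by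
    intro z hz
    rw [norm_div]
    exact (div_le_one hαn).2 hz
  obtain ⟨θ₁, h10, h11, h12⟩ := NaAsy_fin (Finset.range n)
    (fun k => ‖A.coeff k / α - c (r (A.coeff k / α))‖) fun k hk => hr _ (hdiv _ (hAm k hk))
  obtain ⟨θ₂, h20, h21, h22⟩ := NaAsy_fin (Finset.range n)
    (fun k => ‖B.coeff k / α - c (r (B.coeff k / α))‖) fun k hk => hr _ (hdiv _ (hBm k hk))
  refine ⟨α, ∑ k ∈ Finset.range n, monomial k (r (A.coeff k / α)),
    ∑ k ∈ Finset.range n, monomial k (r (B.coeff k / α)), max θ₁ θ₂, hα0, ?_,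
    lt_of_lt_of_le h10 (le_max_left _ _), max_lt h11 h21, ?_⟩
  · rintro ⟨hA0, hB0⟩
    have hco : ∀ (P : K[X]) (k : ℕ), k < n →
        (∑ k ∈ Finset.range n, monomial k (r (P.coeff k / α))).coeff k = r (P.coeff k / α) := by
      intro P k hk
      rw [finsetSum_coeff]
      simp only [coeff_monomial]
      rw [Finset.sum_ite_eq' (Finset.range n) k, if_pos (Finset.mem_range.2 hk)]
    rcases Finset.mem_union.1 hα with h | h
    · obtain ⟨k, hk, hk'⟩ := Finset.mem_image.1 h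
      have h1 := hco A k (Finset.mem_range.1 hk)
      rw [hA0, coeff_zero, hk', div_self hα0] at h1
      exact hr1 h1.symm
    · obtain ⟨k, hk, hk'⟩ := Finset.mem_image.1 h
      have h1 := hco B k (Finset.mem_range.1 hk)
      rw [hB0, coeff_zero, hk', div_self hα0] at h1
      exact hr1 h1.symm
  · intro v hx hy
    have hA1 := NaAsy_poly c x A n hA (fun k => r (A.coeff k / α)) α hα0 (max θ₁ θ₂)
      (lt_of_lt_of_le h10 (le_max_left _ _))
      (fun k hk => (h12 k hk).trans (le_max_left _ _)) v hx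
    have hB1 := NaAsy_poly c x B n hB (fun k => r (B.coeff k / α)) α hα0 (max θ₁ θ₂)
      (lt_of_lt_of_le h10 (le_max_left _ _))
      (fun k hk => (h22 k hk).trans (le_max_right _ _)) v hx
    have e : ∀ a b a' b' d : L, a + b * y - d * (a' + b' * y) =
        (a - d * a') + (b - d * b') * y := fun a b a' b' d => by ring
    rw [e]
    refine (v.na _ _).trans (max_le hA1 ?_)
    rw [map_mul]
    calc _ ≤ ‖α‖ * max θ₁ θ₂ * 1 := mul_le_mul hB1 hy (v.v.nonneg _)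
          (mul_nonneg (norm_nonneg _) (h10.le.trans (le_max_left _ _)))
      _ = ‖α‖ * max θ₁ θ₂ := mul_one _

/-- ultrametric equality -/
private theorem NaAsy_eq (v : Pt (algebraMap K L)) (P φ : L) (α : K) (θ : ℝ) (hα : α ≠ 0)
    (h : v.v (P - algebraMap K L α * φ) ≤ ‖α‖ * θ) (hθ : θ < v.v φ) :
    v.v P = ‖α‖ * v.v φ := by
  have h1 : v.v (algebraMap K L α * φ) = ‖α‖ * v.v φ := by rw [map_mul, v.ext]
  have h2 : v.v (P - algebraMap K L α * φ) < v.v (algebraMap K L α * φ) := by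
    rw [h1]
    exact lt_of_le_of_lt h (mul_lt_mul_of_pos_left hθ (norm_pos_iff.2 hα))
  rw [← h1]
  apply le_antisymm
  · have h3 := v.na (P - algebraMap K L α * φ) (algebraMap K L α * φ)
    rw [sub_add_cancel] at h3
    exact h3.trans (max_le h2.le le_rfl)
  · have h3 := v.na (-(P - algebraMap K L α * φ)) P
    have h4 : -(P - algebraMap K L α * φ) + P = algebraMap K L α * φ := by ring
    rw [h4, v.v.map_neg] at h3
    rcases le_max_iff.1 h3 with h5 | h5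
    · exact absurd h2 (not_lt.2 h5)
    · exact h5

end val

private theorem NaAsy_pow (s θ : ℝ) (n : ℤ) (hs : 0 < s) (hs1 : s < 1) (hθ : 0 < θ) (hθ1 : θ < 1)
    (h : -(-Real.log θ / (|(n : ℝ)| + 1)) < Real.log s) : θ < s ^ n := by
  rw [← Real.log_lt_log_iff hθ (zpow_pos hs n), Real.log_zpow]
  have hls : Real.log s < 0 := Real.log_neg hs hs1
  have hlθ : Real.log θ < 0 := Real.log_neg hθ hθ1
  have hn : 0 ≤ |(n : ℝ)| := abs_nonneg _
  have h1 : |(n : ℝ)| * Real.log s ≤ n * Real.log s :=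
    mul_le_mul_of_nonpos_right (le_abs_self _) hls.le
  have h2 : Real.log θ < (|(n : ℝ)| + 1) * Real.log s := by
    have h3 : Real.log θ / (|(n : ℝ)| + 1) < Real.log s := by
      have h4 : -(-Real.log θ / (|(n : ℝ)| + 1)) = Real.log θ / (|(n : ℝ)| + 1) := by ring
      rwa [h4] at h
    rw [div_lt_iff₀ (by positivity)] at h3
    linarith
  nlinarith

/-- a polynomial `A(X) + B(X) Y` -/
private theorem NaAsy_mv {M : Type} [Field M] (i : ℂ →+* M) (x y : M) (A B : ℂ[X]) :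
    ∃ U : MvPolynomial (Fin 2) ℂ, MvPolynomial.eval₂ i ![x, y] U =
      A.eval₂ i x + B.eval₂ i x * y := by
  refine ⟨A.eval₂ MvPolynomial.C (MvPolynomial.X 0) +
    B.eval₂ MvPolynomial.C (MvPolynomial.X 0) * MvPolynomial.X 1, ?_⟩
  have h : ∀ P : ℂ[X], MvPolynomial.eval₂ i ![x, y]
      (P.eval₂ (MvPolynomial.C : ℂ →+* MvPolynomial (Fin 2) ℂ) (MvPolynomial.X 0)) =
      P.eval₂ i x := by
    intro P
    show MvPolynomial.eval₂Hom i ![x, y] _ = _
    rw [Polynomial.hom_eval₂]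
    have h1 : (MvPolynomial.eval₂Hom i ![x, y]).comp MvPolynomial.C = i := by
      ext z
      simp
    rw [h1]
    simp
  rw [MvPolynomial.eval₂_add, MvPolynomial.eval₂_mul, h, h, MvPolynomial.eval₂_X]
  rfl

theorem thm_NaAsy : St_NaKer → St_NaNf → St_NaOrd → St_NaTub → St_NaVal → St_NaAsy := by
  intro _ hNf hOrd hTub hVal K L _ _ _ _ c x y hc he htr w hw hw0
  classical
  have htr' : ∀ p : K[X], p ≠ 0 → p.eval₂ (algebraMap K L) x ≠ 0 := htr
  have hi : OnE ((algebraMap K L).comp c) x y := by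
    refine ⟨he, fun p hp => ?_⟩
    rw [← Polynomial.eval₂_map]
    exact htr' _ ((Polynomial.map_ne_zero_iff c.injective).2 hp)
  obtain ⟨A, B, D, hD, hrep⟩ := NaAsy_rep x y he htr' w hw
  have hAB : ¬ (A = 0 ∧ B = 0) := by
    rintro ⟨hA, hB⟩
    rw [hA, hB, eval₂_zero, zero_mul, add_zero] at hrep
    exact mul_ne_zero hw0 (htr' D hD) hrep
  obtain ⟨α, A', B', θ₁, hα, hAB', h10, h11, h12⟩ := NaAsy_red c x y hc A B hAB
  obtain ⟨γ, D', E', θ₂, hγ, hDE', h20, h21, h22⟩ := NaAsy_red c x y hc D 0 fun h => hD h.1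
  obtain ⟨U₁, hU₁⟩ := NaAsy_mv ((algebraMap K L).comp c) x y A' B'
  obtain ⟨U₂, hU₂⟩ := NaAsy_mv ((algebraMap K L).comp c) x y D' E'
  obtain ⟨φ₁, hφ₁⟩ : ∃ φ₁, φ₁ = A'.eval₂ ((algebraMap K L).comp c) x +
    B'.eval₂ ((algebraMap K L).comp c) x * y := ⟨_, rfl⟩
  obtain ⟨φ₂, hφ₂⟩ : ∃ φ₂, φ₂ = D'.eval₂ ((algebraMap K L).comp c) x +
    E'.eval₂ ((algebraMap K L).comp c) x * y := ⟨_, rfl⟩
  have hne₁ : φ₁ ≠ 0 := by
    rw [hφ₁]
    exact fun h => hAB' (NaAsy_ind _ x y he hi.tr A' B' h)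
  have hne₂ : φ₂ ≠ 0 := by
    rw [hφ₂]
    exact fun h => hDE' (NaAsy_ind _ x y he hi.tr D' E' h)
  rw [← hφ₁] at hU₁ h12
  rw [← hφ₂] at hU₂ h22
  have hex : ∀ φ : L, φ ≠ 0 → (∃ U W : MvPolynomial (Fin 2) ℂ,
      MvPolynomial.eval₂ ((algebraMap K L).comp c) ![x, y] W ≠ 0 ∧
      φ * MvPolynomial.eval₂ ((algebraMap K L).comp c) ![x, y] W =
        MvPolynomial.eval₂ ((algebraMap K L).comp c) ![x, y] U) →
      ∀ Q : ℂ × ℂ, GoodE Q → ∃ n : ℤ, OrdAt ((algebraMap K L).comp c) x y φ Q n := by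
    intro φ hφ hUW Q hQ
    obtain ⟨T, C₀, A₀, B₀, hT, hC₀, hcop, hrel⟩ := hNf L _ x y hi φ hφ hUW
    exact ⟨_, hOrd.1 L _ x y hi φ T C₀ A₀ B₀ hT hC₀ hcop hrel Q hQ.1 hQ.2.2⟩
  have hex₁ := hex φ₁ hne₁ ⟨U₁, 1, by rw [MvPolynomial.eval₂_one]; exact one_ne_zero,
    by rw [MvPolynomial.eval₂_one, mul_one, hU₁]⟩
  have hex₂ := hex φ₂ hne₂ ⟨U₂, 1, by rw [MvPolynomial.eval₂_one]; exact one_ne_zero,
    by rw [MvPolynomial.eval₂_one, mul_one, hU₂]⟩
  have hUW : ∃ U W : MvPolynomial (Fin 2) ℂ,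
      MvPolynomial.eval₂ ((algebraMap K L).comp c) ![x, y] W ≠ 0 ∧
      (φ₁ / φ₂) * MvPolynomial.eval₂ ((algebraMap K L).comp c) ![x, y] W =
        MvPolynomial.eval₂ ((algebraMap K L).comp c) ![x, y] U :=
    ⟨U₁, U₂, by rw [hU₂]; exact hne₂, by rw [hU₁, hU₂, div_mul_cancel₀ _ hne₂]⟩
  have hex₃ := hex (φ₁ / φ₂) (div_ne_zero hne₁ hne₂) hUW
  choose o ho using hex₃
  refine ⟨Real.log ‖α‖ - Real.log ‖γ‖, fun Q => if h : GoodE Q then o Q h else 0,
    ⟨φ₁ / φ₂, div_ne_zero hne₁ hne₂, hUW, fun Q hQ => ?_⟩, fun Q hQ => ?_⟩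
  · simp only [dif_pos hQ]
    exact ho Q hQ
  · obtain ⟨n₁, hn₁⟩ := hex₁ Q hQ
    obtain ⟨n₂, hn₂⟩ := hex₂ Q hQ
    have hl1 : 0 < -Real.log θ₁ / (|(n₁ : ℝ)| + 1) :=
      div_pos (neg_pos.2 (Real.log_neg h10 h11)) (by positivity)
    have hl2 : 0 < -Real.log θ₂ / (|(n₂ : ℝ)| + 1) :=
      div_pos (neg_pos.2 (Real.log_neg h20 h21)) (by positivity)
    refine ⟨min (-Real.log θ₁ / (|(n₁ : ℝ)| + 1)) (-Real.log θ₂ / (|(n₂ : ℝ)| + 1)),
      lt_min hl1 hl2, fun v hv hlog hne => ?_⟩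
    have hs0 : 0 < v.v (x - algebraMap K L (c Q.1)) := lt_of_le_of_ne (v.v.nonneg _) hne.symm
    have hs1 : v.v (x - algebraMap K L (c Q.1)) < 1 := hv.1
    obtain ⟨hvx, hvy⟩ := (hTub K L c x y hc he v).2.2 Q hv
    have hv1 := hVal K L c x y hc he φ₁ Q n₁ hQ hn₁ v hv
    have hv2 := hVal K L c x y hc he φ₂ Q n₂ hQ hn₂ v hv
    have hv3 := hVal K L c x y hc he (φ₁ / φ₂) Q (o Q hQ) hQ (ho Q hQ) v hv
    have hb1 : θ₁ < v.v φ₁ := by
      rw [hv1]
      exact NaAsy_pow _ _ _ hs0 hs1 h10 h11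
        (lt_of_le_of_lt (neg_le_neg (min_le_left _ _)) hlog)
    have hb2 : θ₂ < v.v φ₂ := by
      rw [hv2]
      exact NaAsy_pow _ _ _ hs0 hs1 h20 h21
        (lt_of_le_of_lt (neg_le_neg (min_le_right _ _)) hlog)
    have hw1 := NaAsy_eq v _ φ₁ α θ₁ hα (h12 v hvx hvy) hb1
    have hw2 := NaAsy_eq v _ φ₂ γ θ₂ hγ (h22 v hvx hvy) hb2
    rw [eval₂_zero, zero_mul, add_zero] at hw2
    rw [← hrep, map_mul, hw2] at hw1
    have hαn : 0 < ‖α‖ := norm_pos_iff.2 hα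
    have hγn : 0 < ‖γ‖ := norm_pos_iff.2 hγ
    have hp2 : 0 < v.v φ₂ := h20.trans hb2
    have hval : v.v w = ‖α‖ / ‖γ‖ * v.v (x - algebraMap K L (c Q.1)) ^ (o Q hQ) := by
      rw [← hv3, map_div₀]
      field_simp
      linarith
    simp only [dif_pos hQ]
    rw [hval, Real.log_mul (div_pos hαn hγn).ne' (zpow_pos hs0 _).ne', Real.log_div hαn.ne' hγn.ne',
      Real.log_zpow]

end TDC
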