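import Pool.Agent.TDC.StNa

/-!
# TDN, module NaDer: derivations of the complex numbers which kill a finite set
-/

namespace TDC

open MvPolynomial TensorProduct

/-- a derivation of `E` over `k` which is `1` on a given member of a transcendence basis -/
private theorem NaDer_ext {k E : Type} [Field k] [Field E] [CharZero k] [Algebra k E] {ι : Type}
    {x : ι → E} (hx : IsTranscendenceBasis k x) (i : ι) :
    ∃ D : Derivation k E E, D (x i) = 1 := by
  classical
  have hc : CharZero (IntermediateField.adjoin k (Set.range x)) :=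
    charZero_of_injective_algebraMap (algebraMap k _).injective
  have := hc
  let a1 : Algebra (MvPolynomial ι k) E := (aeval x).toRingHom.toAlgebra
  let a2 : Algebra (MvPolynomial ι k) (IntermediateField.adjoin k (Set.range x)) :=
    ((hx.1.aevalEquivField : FractionRing (MvPolynomial ι k) ≃ₐ[k] _).toAlgHom.toRingHom.comp
      (algebraMap (MvPolynomial ι k) (FractionRing (MvPolynomial ι k)))).toAlgebra
  have s1 : IsScalarTower k (MvPolynomial ι k) E := IsScalarTower.of_algebraMap_eq fun r => by
    change _ = aeval x (algebraMap k (MvPolynomial ι k) r)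
    rw [AlgHom.commutes]
  have s2 : IsScalarTower (MvPolynomial ι k) (IntermediateField.adjoin k (Set.range x)) E :=
    IsScalarTower.of_algebraMap_eq fun r => by
      change aeval x r = ((hx.1.aevalEquivField (algebraMap _ _ r) :
        IntermediateField.adjoin k (Set.range x)) : E)
      rw [AlgebraicIndependent.aevalEquivField_algebraMap_apply_coe]
  have l1 : IsLocalization (nonZeroDivisors (MvPolynomial ι k))
      (IntermediateField.adjoin k (Set.range x)) :=
    IsLocalization.isLocalization_of_algEquiv (nonZeroDivisors (MvPolynomial ι k))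
      (AlgEquiv.ofRingEquiv (f := (hx.1.aevalEquivField :
        FractionRing (MvPolynomial ι k) ≃ₐ[k] _).toRingEquiv) fun r => rfl)
  have f1 : Algebra.FormallyEtale (MvPolynomial ι k) (IntermediateField.adjoin k (Set.range x)) :=
    Algebra.FormallyEtale.of_isLocalization (nonZeroDivisors (MvPolynomial ι k))
  have g1 : Algebra.IsAlgebraic (IntermediateField.adjoin k (Set.range x)) E := hx.isAlgebraic_field
  have f2 : Algebra.FormallyEtale (IntermediateField.adjoin k (Set.range x)) E :=
    Algebra.FormallyEtale.of_isSeparable _ _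
  have f3 : Algebra.FormallyEtale (MvPolynomial ι k) E :=
    Algebra.FormallyEtale.comp _ (IntermediateField.adjoin k (Set.range x)) _
  let d0 : Derivation k (MvPolynomial ι k) E := MvPolynomial.mkDerivation k (Pi.single i (1 : E))
  let F : E ⊗[MvPolynomial ι k] Ω[MvPolynomial ι k⁄k] →ₗ[E] E :=
    LinearMap.liftBaseChange E d0.liftKaehlerDifferential
  let G : Ω[E⁄k] →ₗ[E] E :=
    F ∘ₗ (KaehlerDifferential.tensorKaehlerEquivOfFormallyEtale k (MvPolynomial ι k) E).symm.toLinearMap
  refine ⟨G.compDer (KaehlerDifferential.D k E), ?_⟩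
  have h1 : x i = algebraMap (MvPolynomial ι k) E (X i) := by
    change x i = aeval x (X i)
    rw [aeval_X]
  rw [h1]
  change F ((KaehlerDifferential.tensorKaehlerEquivOfFormallyEtale k (MvPolynomial ι k) E).symm
    (KaehlerDifferential.D k E (algebraMap (MvPolynomial ι k) E (X i)))) = 1
  rw [KaehlerDifferential.tensorKaehlerEquivOfFormallyEtale_symm_D_algebraMap]
  change LinearMap.liftBaseChange E d0.liftKaehlerDifferential (1 ⊗ₜ _) = 1
  rw [LinearMap.liftBaseChange_tmul, Derivation.liftKaehlerDifferential_comp_D, one_smul]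
  change MvPolynomial.mkDerivation k (Pi.single i (1 : E)) (X i) = 1
  rw [MvPolynomial.mkDerivation_X, Pi.single_eq_same]

theorem thm_NaDer : St_NaDer := by
  intro S
  let k : IntermediateField ℚ ℂ := IntermediateField.adjoin ℚ (S : Set ℂ)
  obtain ⟨ι, x, hx⟩ := exists_isTranscendenceBasis' k ℂ
  have hne : Nonempty ι := by
    by_contra hc
    rw [not_nonempty_iff, hx.isEmpty_iff_isAlgebraic] at hc
    have h1 := Algebra.IsAlgebraic.cardinalMk_le_max k ℂ
    have h2 : Cardinal.mk k ≤ Cardinal.aleph0 := by
      refine (IntermediateField.cardinalMk_adjoin_le ℚ (S : Set ℂ)).trans ?_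
      refine max_le (max_le ?_ ?_) le_rfl
      · exact Cardinal.mk_le_aleph0
      · exact Cardinal.mk_le_aleph0
    have h3 : Cardinal.mk ℂ ≤ Cardinal.aleph0 := h1.trans (max_le h2 le_rfl)
    rw [Cardinal.mk_complex] at h3
    exact absurd h3 (not_le.2 Cardinal.aleph0_lt_continuum)
  obtain ⟨i⟩ := hne
  obtain ⟨D, hD⟩ := NaDer_ext hx i
  refine ⟨x i, D.restrictScalars ℤ, fun s hs => ?_, ?_⟩
  · rw [Derivation.restrictScalars_apply]
    have h1 : s ∈ k := IntermediateField.subset_adjoin ℚ _ hs
    have h2 : s = algebraMap k ℂ ⟨s, h1⟩ := rfl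
    rw [h2, Derivation.map_algebraMap]
  · rw [Derivation.restrictScalars_apply, hD]
    exact one_ne_zero

end TDC
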