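import Pool.Agent.TDC.StNa

/-!
# TDN: module NaGrp, divisors form a group
-/

set_option autoImplicit false

namespace TDC

open scoped Topology
open Polynomial

section NaGrp

variable {M : Type} [Field M] {i : ℂ →+* M} {x y : M}

private theorem NaGrp_sub_ne (h : OnE i x y) (a : ℂ) : x - i a ≠ 0 := by
  have h1 := h.tr (X - C a) (X_sub_C_ne_zero a)
  simpa using h1

private theorem NaGrp_zero : IsDiv i x y (fun _ => 0) := by
  refine ⟨1, one_ne_zero, ⟨1, 1, ?_, ?_⟩, ?_⟩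
  · simp
  · simp
  · intro Q _
    refine ⟨1, 1, ?_, ?_, ?_⟩
    · simp
    · simp
    · simp

private theorem NaGrp_ord_div (h : OnE i x y) {φ ψ : M} (hψ : ψ ≠ 0) {Q : ℂ × ℂ} {n m : ℤ}
    (h1 : OrdAt i x y φ Q n) (h2 : OrdAt i x y ψ Q m) : OrdAt i x y (φ / ψ) Q (n - m) := by
  obtain ⟨U₁, W₁, hU₁, hW₁, e₁⟩ := h1
  obtain ⟨U₂, W₂, hU₂, hW₂, e₂⟩ := h2
  have hx := NaGrp_sub_ne h Q.1
  refine ⟨U₁ * W₂, W₁ * U₂, ?_, ?_, ?_⟩
  · rw [map_mul]
    exact mul_ne_zero hU₁ hW₂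
  · rw [map_mul]
    exact mul_ne_zero hW₁ hU₂
  · rw [MvPolynomial.eval₂_mul, MvPolynomial.eval₂_mul, zpow_sub₀ hx]
    have hxm : (x - i Q.1) ^ m ≠ 0 := zpow_ne_zero m hx
    set u₁ := MvPolynomial.eval₂ i ![x, y] U₁
    set w₁ := MvPolynomial.eval₂ i ![x, y] W₁
    set u₂ := MvPolynomial.eval₂ i ![x, y] U₂
    set w₂ := MvPolynomial.eval₂ i ![x, y] W₂
    rw [div_mul_eq_mul_div, div_mul_eq_mul_div, div_eq_div_iff hψ hxm]
    calc φ * (w₁ * u₂) * (x - i Q.1) ^ m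
        = (φ * w₁) * ((x - i Q.1) ^ m * u₂) := by ring
      _ = ((x - i Q.1) ^ n * u₁) * (ψ * w₂) := by rw [e₁, e₂]
      _ = _ := by ring

private theorem NaGrp_sub (h : OnE i x y) {o o' : ℂ × ℂ → ℤ} (h1 : IsDiv i x y o)
    (h2 : IsDiv i x y o') : IsDiv i x y (fun Q => o Q - o' Q) := by
  obtain ⟨φ, hφ, ⟨U₁, W₁, hW₁, e₁⟩, ho⟩ := h1
  obtain ⟨ψ, hψ, ⟨U₂, W₂, hW₂, e₂⟩, ho'⟩ := h2
  have hU₂ : MvPolynomial.eval₂ i ![x, y] U₂ ≠ 0 := by
    rw [← e₂]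
    exact mul_ne_zero hψ hW₂
  refine ⟨φ / ψ, div_ne_zero hφ hψ, ⟨U₁ * W₂, W₁ * U₂, ?_, ?_⟩, ?_⟩
  · rw [MvPolynomial.eval₂_mul]
    exact mul_ne_zero hW₁ hU₂
  · rw [MvPolynomial.eval₂_mul, MvPolynomial.eval₂_mul, ← e₁, ← e₂]
    field_simp
  · intro Q hQ
    exact NaGrp_ord_div h hψ (ho Q hQ) (ho' Q hQ)

private theorem NaGrp_add (h : OnE i x y) {o o' : ℂ × ℂ → ℤ} (h1 : IsDiv i x y o)
    (h2 : IsDiv i x y o') : IsDiv i x y (fun Q => o Q + o' Q) := by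
  have h3 := NaGrp_sub h h1 (NaGrp_sub h (NaGrp_zero (i := i) (x := x) (y := y)) h2)
  have e : (fun Q => o Q - (0 - o' Q)) = fun Q => o Q + o' Q := by
    funext Q
    ring
  rw [← e]
  exact h3

private theorem NaGrp_nat (h : OnE i x y) {o : ℂ × ℂ → ℤ} (h1 : IsDiv i x y o) (k : ℕ) :
    IsDiv i x y (fun Q => (k : ℤ) * o Q) := by
  induction k with
  | zero =>
    have e : (fun Q => ((0 : ℕ) : ℤ) * o Q) = fun _ => 0 := by
      funext Q
      simp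
    rw [e]
    exact NaGrp_zero
  | succ k ih =>
    have e : (fun Q => ((k + 1 : ℕ) : ℤ) * o Q) = fun Q => (k : ℤ) * o Q + o Q := by
      funext Q
      push_cast
      ring
    rw [e]
    exact NaGrp_add h ih h1

private theorem NaGrp_int (h : OnE i x y) {o : ℂ × ℂ → ℤ} (h1 : IsDiv i x y o) (k : ℤ) :
    IsDiv i x y (fun Q => k * o Q) := by
  rcases Int.eq_nat_or_neg k with ⟨n, rfl | rfl⟩
  · exact NaGrp_nat h h1 n
  · have h2 := NaGrp_sub h (NaGrp_zero (i := i) (x := x) (y := y)) (NaGrp_nat h h1 n)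
    have e : (fun Q => -(n : ℤ) * o Q) = fun Q => 0 - (n : ℤ) * o Q := by
      funext Q
      ring
    rw [e]
    exact h2

private theorem NaGrp_sum (h : OnE i x y) (O : Finset (ℂ × ℂ → ℤ)) (n : (ℂ × ℂ → ℤ) → ℤ)
    (hO : ∀ o ∈ O, IsDiv i x y o) : IsDiv i x y (fun Q => ∑ o ∈ O, n o * o Q) := by
  classical
  induction O using Finset.induction_on with
  | empty => simpa using (NaGrp_zero (i := i) (x := x) (y := y))
  | insert a s ha ih =>
    have e : (fun Q => ∑ o ∈ insert a s, n o * o Q) =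
        fun Q => n a * a Q + ∑ o ∈ s, n o * o Q := by
      funext Q
      rw [Finset.sum_insert ha]
    rw [e]
    exact NaGrp_add h (NaGrp_int h (hO a (Finset.mem_insert_self a s)) (n a))
      (ih fun o ho => hO o (Finset.mem_insert_of_mem ho))

end NaGrp

theorem thm_NaGrp : St_NaKer → St_NaOrd → St_NaGrp := by
  intro _ _ M _ i x y h
  refine ⟨NaGrp_zero, fun o o' h1 h2 => NaGrp_sub h h1 h2, fun O n hO => NaGrp_sum h O n hO, ?_⟩
  rintro o o' ⟨φ, hφ, hUW, ho⟩ heq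
  refine ⟨φ, hφ, hUW, fun Q hQ => ?_⟩
  rw [heq Q hQ]
  exact ho Q hQ

end TDC
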