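import Pool.Agent.TDC.StNa

/-!
# TDC: module NaKer, polynomial relations between the coordinates of the curve
-/

set_option autoImplicit false

namespace TDC

open Polynomial

section NaKer

/-- the normal form of a polynomial on the curve -/
private theorem NaKer_nf (G : MvPolynomial (Fin 2) ℂ) :
    ∃ G₀ G₁ : ℂ[X], ∀ (R : Type) [CommRing R] (j : ℂ →+* R) (u v : R),
      v ^ 2 = u ^ 3 + 1 →
        MvPolynomial.eval₂ j ![u, v] G = G₀.eval₂ j u + G₁.eval₂ j u * v := by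
  induction G using MvPolynomial.induction_on with
  | C a =>
    refine ⟨C a, 0, fun R _ j u v _ => ?_⟩
    rw [MvPolynomial.eval₂_C, Polynomial.eval₂_C, Polynomial.eval₂_zero, zero_mul, add_zero]
  | add p q hp hq =>
    obtain ⟨P₀, P₁, hP⟩ := hp
    obtain ⟨Q₀, Q₁, hQ⟩ := hq
    refine ⟨P₀ + Q₀, P₁ + Q₁, fun R _ j u v h => ?_⟩
    rw [MvPolynomial.eval₂_add, hP R j u v h, hQ R j u v h, Polynomial.eval₂_add,
      Polynomial.eval₂_add]
    ring
  | mul_X p n hp =>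
    obtain ⟨P₀, P₁, hP⟩ := hp
    have h01 : n = 0 ∨ n = 1 := by
      rcases n with ⟨n, hn⟩
      interval_cases n
      · exact Or.inl rfl
      · exact Or.inr rfl
    rcases h01 with h01 | h01
    · subst h01
      refine ⟨P₀ * X, P₁ * X, fun R _ j u v h => ?_⟩
      rw [MvPolynomial.eval₂_mul, MvPolynomial.eval₂_X, hP R j u v h, Polynomial.eval₂_mul,
        Polynomial.eval₂_mul, Polynomial.eval₂_X]
      show (_ : R) * u = _
      ring
    · subst h01
      refine ⟨P₁ * (X ^ 3 + 1), P₀, fun R _ j u v h => ?_⟩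
      rw [MvPolynomial.eval₂_mul, MvPolynomial.eval₂_X, hP R j u v h, Polynomial.eval₂_mul,
        Polynomial.eval₂_add, Polynomial.eval₂_pow, Polynomial.eval₂_X, Polynomial.eval₂_one,
        ← h]
      show (_ : R) * v = _
      ring

/-- parity of degrees -/
private theorem NaKer_par (A B : ℂ[X]) (h : A ^ 2 - B ^ 2 * (X ^ 3 + 1) = 0) :
    A = 0 ∧ B = 0 := by
  have hf : (X ^ 3 + 1 : ℂ[X]).natDegree = 3 := by
    have h1 : (X ^ 3 + C 1 : ℂ[X]).natDegree = 3 := natDegree_X_pow_add_C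
    rwa [C_1] at h1
  have hf0 : (X ^ 3 + 1 : ℂ[X]) ≠ 0 := by
    intro h0
    rw [h0, natDegree_zero] at hf
    exact absurd hf (by norm_num)
  by_cases hB : B = 0
  · rw [hB] at h
    refine ⟨?_, hB⟩
    have h1 : A ^ 2 = 0 := by
      rw [← h]
      ring
    exact pow_eq_zero_iff (two_ne_zero) |>.1 h1
  · exfalso
    have h1 : A ^ 2 = B ^ 2 * (X ^ 3 + 1) := sub_eq_zero.1 h
    have h2 := congrArg natDegree h1
    rw [natDegree_pow, natDegree_mul (pow_ne_zero 2 hB) hf0, natDegree_pow, hf] at h2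
    omega

/-- **NaKer** -/
theorem thm_NaKer : St_NaKer := by
  refine ⟨?_, NaKer_nf⟩
  intro M _ i x y hE G hG Q hQ
  obtain ⟨G₀, G₁, h⟩ := NaKer_nf G
  have h1 := h M i x y hE.eq
  rw [hG] at h1
  have h2 : (G₀ ^ 2 - G₁ ^ 2 * (X ^ 3 + 1)).eval₂ i x = 0 := by
    rw [Polynomial.eval₂_sub, Polynomial.eval₂_mul, Polynomial.eval₂_pow, Polynomial.eval₂_pow,
      Polynomial.eval₂_add, Polynomial.eval₂_pow, Polynomial.eval₂_X, Polynomial.eval₂_one,
      ← hE.eq]
    have h3 : G₀.eval₂ i x = -(G₁.eval₂ i x * y) := eq_neg_of_add_eq_zero_left h1.symm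
    rw [h3]
    ring
  have h4 : G₀ ^ 2 - G₁ ^ 2 * (X ^ 3 + 1) = 0 := by
    by_contra h5
    exact hE.tr _ h5 h2
  obtain ⟨h6, h7⟩ := NaKer_par G₀ G₁ h4
  have h8 := h ℂ (RingHom.id ℂ) Q.1 Q.2 hQ
  rw [h6, h7, Polynomial.eval₂_zero, zero_mul, add_zero] at h8
  exact h8

end NaKer

end TDC
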