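import Pool.Agent.TDC.StNa

/-!
# TDN, module NaLam (helper17): step 2
-/

set_option autoImplicit false

namespace TDC

open Polynomial

theorem thm_NaLam : St_NaDer → St_NaGrp → St_NaOne → St_NaLin → St_NaLam := by
  intro hDer hGrp hOne hLin M _ i x y hE S
  obtain ⟨a, D, hS, ha⟩ := hDer S
  obtain ⟨b, hb⟩ := IsAlgClosed.exists_pow_nat_eq (a ^ 3 + 1) (n := 2) (by norm_num)
  have ha0 : a ≠ 0 := by
    rintro rfl
    exact ha (map_zero D)
  have hb0 : b ≠ 0 := by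
    rintro rfl
    have h1 : a ^ 3 = -1 := by
      have h2 : a ^ 3 + 1 = 0 := by
        rw [← hb]
        ring
      exact eq_neg_of_add_eq_zero_left h2
    have h2 : D (a ^ 3) = 0 := by
      rw [h1, map_neg, Derivation.map_one_eq_zero, neg_zero]
    rw [Derivation.leibniz_pow] at h2
    have h3 : (3 : ℂ) * (a ^ 2 * D a) = 0 := by
      rw [nsmul_eq_mul, smul_eq_mul] at h2
      exact_mod_cast h2
    rcases mul_eq_zero.1 h3 with h4 | h4
    · norm_num at h4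
    · rcases mul_eq_zero.1 h4 with h5 | h5
      · exact ha0 (pow_eq_zero_iff (two_ne_zero) |>.1 h5)
      · exact ha h5
  have hP : GoodE (a, b) := ⟨hb, ha0, hb0⟩
  have haS : a ∉ S := fun h => ha (hS a h)
  refine ⟨(a, b), hP, haS, fun O hO => ?_⟩
  obtain ⟨Λ, h1, h2, h3⟩ := hLin (ℂ × ℂ) {Q | GoodE Q ∧ Q.1 ∉ S ∧ Q ≠ (a, b)} (a, b) O
    (fun h => h.2.2 rfl) (fun n hn => by
      have hdiv := (hGrp M i x y hE).2.2.1 O n hO
      exact hOne M i x y hE S D (a, b) hS ha hP _ hdiv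
        (fun Q hQ hQS hQP => hn Q ⟨hQ, hQS, hQP⟩))
  refine ⟨Λ, h1, fun Q hQ => ?_, h3⟩
  rcases h2 Q hQ with rfl | h4
  · exact ⟨hP, haS⟩
  · exact ⟨h4.1, h4.2.1⟩

end TDC
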