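import Pool.Agent.TDC.StNa

/-!
# TDN, module NaLin: linear algebra
-/

namespace TDC

private theorem NaLin_den {ι : Type*} (s : Finset ι) (c : ι → ℚ) :
    ∃ d : ℤ, d ≠ 0 ∧ ∀ i ∈ s, ∃ m : ℤ, (m : ℚ) = d * c i := by
  classical
  refine ⟨∏ i ∈ s, ((c i).den : ℤ), Finset.prod_ne_zero_iff.2 fun i _ => ?_, fun i hi => ?_⟩
  · exact_mod_cast (c i).den_nz
  · refine ⟨(∏ j ∈ s.erase i, ((c j).den : ℤ)) * (c i).num, ?_⟩
    rw [← Finset.mul_prod_erase s _ hi]
    push_cast
    have h := Rat.den_mul_eq_num (c i)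
    rw [← h]
    ring

theorem thm_NaLin : St_NaLin := by
  classical
  intro Pt' 𝒬 P O hP hO
  let v : Pt' → (O → ℚ) := fun Q o => (o.1 Q : ℚ)
  have hmem : v P ∈ Submodule.span ℚ (v '' 𝒬) := by
    by_contra hnot
    obtain ⟨f, hf1, hf2⟩ := Submodule.exists_le_ker_of_notMem hnot
    have hfc : ∀ w : O → ℚ, f w = ∑ o : O, w o * f (fun j => if o = j then 1 else 0) := fun w =>
      f.pi_apply_eq_sum_univ w
    obtain ⟨d, hd, hm⟩ := NaLin_den (Finset.univ : Finset O)
      (fun o => f (fun j => if o = j then 1 else 0))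
    choose m hm using fun o => hm o (Finset.mem_univ o)
    have key : ∀ Q : Pt', ((∑ o ∈ O, (if h : o ∈ O then m ⟨o, h⟩ else 0) * o Q : ℤ) : ℚ) =
        d * f (v Q) := by
      intro Q
      rw [← Finset.sum_coe_sort O (fun o => (if h : o ∈ O then m ⟨o, h⟩ else 0) * o Q), hfc,
        Finset.mul_sum]
      push_cast
      refine Finset.sum_congr rfl fun o _ => ?_
      rw [dif_pos o.2, hm]
      show (d : ℚ) * f (fun j => if o = j then 1 else 0) * (o.1 Q : ℚ) =
        d * ((o.1 Q : ℚ) * f (fun j => if o = j then 1 else 0))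
      ring
    have h0 : ∀ Q ∈ 𝒬, ∑ o ∈ O, (if h : o ∈ O then m ⟨o, h⟩ else 0) * o Q = 0 := by
      intro Q hQ
      have h1 : f (v Q) = 0 := hf2 (Submodule.subset_span ⟨Q, hQ, rfl⟩)
      have h2 := key Q
      rw [h1, mul_zero] at h2
      exact_mod_cast h2
    have h3 := hO _ h0
    have h4 := key P
    rw [h3, Int.cast_zero] at h4
    rcases mul_eq_zero.1 h4.symm with h5 | h5
    · exact hd (by exact_mod_cast h5)
    · exact hf1 h5
  rw [Finsupp.mem_span_image_iff_linearCombination] at hmem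
  obtain ⟨l, hl, hlv⟩ := hmem
  rw [Finsupp.mem_supported] at hl
  have hlP : l P = 0 := by
    by_contra h
    exact hP (hl (Finsupp.mem_support_iff.2 h))
  refine ⟨Finsupp.single P 1 - l.mapRange (fun q : ℚ => (q : ℝ)) (by simp), ?_, ?_, ?_⟩
  · simp [hlP]
  · intro Q hQ
    rw [Finsupp.mem_support_iff] at hQ
    by_cases h : Q = P
    · exact Or.inl h
    · right
      apply hl
      rw [Finset.mem_coe, Finsupp.mem_support_iff]
      intro h0
      apply hQ
      simp [Ne.symm h, h0]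
  · intro o ho
    rw [Finsupp.sum_sub_index, Finsupp.sum_single_index, Finsupp.sum_mapRange_index]
    · have h1 := congrFun hlv ⟨o, ho⟩
      rw [Finsupp.linearCombination_apply, Finsupp.sum, Finset.sum_apply] at h1
      have h2 : ((l.sum fun Q q => (q : ℝ) * (o Q : ℝ)) : ℝ) = (o P : ℝ) := by
        have h3 : (∑ Q ∈ l.support, l Q * (o Q : ℚ)) = (o P : ℚ) := by
          exact h1
        rw [Finsupp.sum]
        exact_mod_cast h3
      rw [h2]
      ring
    · intro a
      simp
    · simp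
    · intro a b c
      ring

end TDC
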