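import Pool.Agent.TDC.StNa

set_option autoImplicit false

/-!
# TDC: normal form of a function on the curve
-/

namespace TDC

open scoped Topology
open Polynomial

private lemma NaNf_par (P Q : ℂ[X]) (h : P ^ 2 = Q ^ 2 * (X ^ 3 + 1)) : P = 0 ∧ Q = 0 := by
  have hf : (X ^ 3 + 1 : ℂ[X]).natDegree = 3 := by
    have : (X ^ 3 + 1 : ℂ[X]) = X ^ 3 + C 1 := by rw [C_1]
    rw [this, natDegree_X_pow_add_C]
  have hf0 : (X ^ 3 + 1 : ℂ[X]) ≠ 0 := by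
    intro h0
    rw [h0, natDegree_zero] at hf
    omega
  have hQ : Q = 0 := by
    by_contra hQ
    have h1 := congrArg natDegree h
    rw [natDegree_pow, natDegree_mul (pow_ne_zero 2 hQ) hf0, natDegree_pow, hf] at h1
    omega
  refine ⟨?_, hQ⟩
  rw [hQ] at h
  have h2 : P ^ 2 = 0 := by
    rw [h]
    ring
  exact pow_eq_zero_iff (two_ne_zero) |>.1 h2

private lemma NaNf_gcd (A₁ B₁ : ℂ[X]) (h : ¬ (A₁ = 0 ∧ B₁ = 0)) :
    ∃ T A B : ℂ[X], T ≠ 0 ∧ IsCoprime A B ∧ A₁ = T * A ∧ B₁ = T * B := by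
  obtain ⟨T, hT⟩ := (IsPrincipalIdealRing.principal (Ideal.span {A₁, B₁})).principal
  have hT' : Ideal.span {A₁, B₁} = Ideal.span {T} := hT
  have hA : A₁ ∈ Ideal.span {T} := by
    rw [← hT']
    exact Ideal.subset_span (by simp)
  have hB : B₁ ∈ Ideal.span {T} := by
    rw [← hT']
    exact Ideal.subset_span (by simp)
  rw [Ideal.mem_span_singleton] at hA hB
  obtain ⟨A, hA⟩ := hA
  obtain ⟨B, hB⟩ := hB
  have hTm : T ∈ Ideal.span {A₁, B₁} := by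
    rw [hT']
    exact Ideal.mem_span_singleton_self T
  rw [Ideal.mem_span_pair] at hTm
  obtain ⟨a, b, hab⟩ := hTm
  have hT0 : T ≠ 0 := by
    intro h0
    apply h
    rw [hA, hB, h0]
    exact ⟨zero_mul _, zero_mul _⟩
  refine ⟨T, A, B, hT0, ⟨a, b, ?_⟩, hA, hB⟩
  apply mul_left_cancel₀ hT0
  rw [mul_one]
  conv_rhs => rw [← hab]
  rw [hA, hB]
  ring

theorem thm_NaNf : St_NaKer → St_NaNf := by
  rintro ⟨-, hK⟩ M _ i x y hE φ hφ ⟨U, W, hW, hUW⟩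
  obtain ⟨U₀, U₁, hU⟩ := hK U
  obtain ⟨W₀, W₁, hW'⟩ := hK W
  have hy := hE.eq
  rw [hU M i x y hy, hW' M i x y hy] at hUW
  rw [hW' M i x y hy] at hW
  have hC0 : W₀ ^ 2 - W₁ ^ 2 * (X ^ 3 + 1) ≠ 0 := by
    intro h0
    obtain ⟨h1, h2⟩ := NaNf_par W₀ W₁ (sub_eq_zero.1 h0)
    apply hW
    rw [h1, h2, eval₂_zero, zero_mul, add_zero]
  have hCx : (W₀ ^ 2 - W₁ ^ 2 * (X ^ 3 + 1)).eval₂ i x =
      W₀.eval₂ i x ^ 2 - W₁.eval₂ i x ^ 2 * y ^ 2 := by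
    rw [hy, eval₂_sub, eval₂_mul, eval₂_pow, eval₂_pow, eval₂_add, eval₂_pow, eval₂_X, eval₂_one]
  have hmain : φ * (W₀ ^ 2 - W₁ ^ 2 * (X ^ 3 + 1)).eval₂ i x =
      (U₀ * W₀ - U₁ * W₁ * (X ^ 3 + 1)).eval₂ i x + (U₁ * W₀ - U₀ * W₁).eval₂ i x * y := by
    rw [hCx, eval₂_sub, eval₂_sub, eval₂_mul, eval₂_mul, eval₂_mul, eval₂_mul, eval₂_mul,
      eval₂_add, eval₂_pow, eval₂_X, eval₂_one, ← hy]
    linear_combination (W₀.eval₂ i x - W₁.eval₂ i x * y) * hUW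
  have hne : ¬ (U₀ * W₀ - U₁ * W₁ * (X ^ 3 + 1) = 0 ∧ U₁ * W₀ - U₀ * W₁ = 0) := by
    rintro ⟨h1, h2⟩
    rw [h1, h2, eval₂_zero, zero_mul, add_zero] at hmain
    rcases mul_eq_zero.1 hmain with h3 | h3
    · exact hφ h3
    · exact hE.tr _ hC0 h3
  obtain ⟨T, A, B, hT, hAB, hA, hB⟩ := NaNf_gcd _ _ hne
  refine ⟨T, W₀ ^ 2 - W₁ ^ 2 * (X ^ 3 + 1), A, B, hT, hC0, hAB, ?_⟩
  rw [hmain, hA, hB, eval₂_mul, eval₂_mul]
  ring

end TDC
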