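import Pool.Agent.TDC.StNa

/-!
# TDN: module NaOrd, orders of a function in normal form
-/

set_option autoImplicit false

namespace TDC

open Polynomial

/-- a polynomial in one variable as a polynomial in two variables -/
private noncomputable def NaOrd_P (p : ℂ[X]) : MvPolynomial (Fin 2) ℂ :=
  p.eval₂ MvPolynomial.C (MvPolynomial.X 0)

private lemma NaOrd_P_eval₂ {M : Type} [Field M] (i : ℂ →+* M) (x y : M) (p : ℂ[X]) :
    MvPolynomial.eval₂ i ![x, y] (NaOrd_P p) = p.eval₂ i x := by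
  have h := Polynomial.hom_eval₂ p (MvPolynomial.C : ℂ →+* MvPolynomial (Fin 2) ℂ)
    (MvPolynomial.eval₂Hom i ![x, y]) (MvPolynomial.X 0)
  have e1 : (MvPolynomial.eval₂Hom i ![x, y]).comp MvPolynomial.C = i := by
    ext z
    simp
  have e2 : MvPolynomial.eval₂Hom i ![x, y] (MvPolynomial.X 0) = x := by simp
  rw [e1, e2] at h
  exact h

private lemma NaOrd_P_eval (a b : ℂ) (p : ℂ[X]) :
    MvPolynomial.eval ![a, b] (NaOrd_P p) = p.eval a := by
  have h := NaOrd_P_eval₂ (RingHom.id ℂ) a b p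
  rw [Polynomial.eval₂_id] at h
  rw [← h, MvPolynomial.eval₂_id]

private lemma NaOrd_split (p : ℂ[X]) (hp : p ≠ 0) (a : ℂ) :
    ∃ q : ℂ[X], p = (X - C a) ^ p.rootMultiplicity a * q ∧ q.eval a ≠ 0 := by
  obtain ⟨q, h1, h2⟩ := Polynomial.exists_eq_pow_rootMultiplicity_mul_and_not_dvd p hp a
  refine ⟨q, h1, fun h => h2 ?_⟩
  rw [Polynomial.dvd_iff_isRoot]
  exact h

private lemma NaOrd_psi (A B : ℂ[X]) (h : IsCoprime A B) : A ^ 2 - B ^ 2 * (X ^ 3 + 1) ≠ 0 := by
  intro h0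
  have h1 : A ^ 2 = B ^ 2 * (X ^ 3 + 1) := sub_eq_zero.1 h0
  have hf : (X ^ 3 + 1 : ℂ[X]).natDegree = 3 := by
    have e : (X ^ 3 + 1 : ℂ[X]) = X ^ 3 + C 1 := by rw [C_1]
    rw [e, Polynomial.natDegree_X_pow_add_C]
  have hf0 : (X ^ 3 + 1 : ℂ[X]) ≠ 0 := by
    intro h2
    rw [h2, Polynomial.natDegree_zero] at hf
    exact absurd hf (by norm_num)
  by_cases hB : B = 0
  · rw [hB, zero_pow two_ne_zero, zero_mul, pow_eq_zero_iff two_ne_zero] at h1
    rw [h1, hB] at h
    exact not_isCoprime_zero_zero h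
  · have h2 := congrArg Polynomial.natDegree h1
    rw [Polynomial.natDegree_pow, Polynomial.natDegree_mul (pow_ne_zero 2 hB) hf0,
      Polynomial.natDegree_pow, hf] at h2
    omega

/-- **NaOrd**. Orders of a function in normal form; uniqueness of the order. -/
theorem thm_NaOrd : St_NaKer → St_NaOrd := by
  intro hKer
  refine ⟨?_, ?_⟩
  · intro M _ i x y hE φ T C' A B hT hC hAB hφ Q hQ hQ2
    obtain ⟨a, b⟩ := Q
    simp only at hQ hQ2 ⊢
    obtain ⟨T₁, hT1, hT2⟩ := NaOrd_split T hT a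
    obtain ⟨C₁, hC1, hC2⟩ := NaOrd_split C' hC a
    obtain ⟨t, ht⟩ : ∃ t, t = T.rootMultiplicity a := ⟨_, rfl⟩
    obtain ⟨s, hs⟩ : ∃ s, s = C'.rootMultiplicity a := ⟨_, rfl⟩
    rw [← ht] at hT1 ⊢
    rw [← hs] at hC1 ⊢
    have hu : x - i a ≠ 0 := by
      have h1 := hE.tr (X - C a) (Polynomial.X_sub_C_ne_zero a)
      rwa [Polynomial.eval₂_sub, Polynomial.eval₂_X, Polynomial.eval₂_C] at h1
    have hux : ∀ k : ℕ, ((X - C a) ^ k : ℂ[X]).eval₂ i x = (x - i a) ^ k := by
      intro k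
      rw [Polynomial.eval₂_pow, Polynomial.eval₂_sub, Polynomial.eval₂_X, Polynomial.eval₂_C]
    have hφ1 : φ * C₁.eval₂ i x * (x - i a) ^ s =
        (x - i a) ^ t * (T₁.eval₂ i x * (A.eval₂ i x + B.eval₂ i x * y)) := by
      have e1 : C'.eval₂ i x = (x - i a) ^ s * C₁.eval₂ i x := by
        rw [← hux, ← Polynomial.eval₂_mul, ← hC1]
      have e2 : T.eval₂ i x = (x - i a) ^ t * T₁.eval₂ i x := by
        rw [← hux, ← Polynomial.eval₂_mul, ← hT1]
      rw [e1, e2] at hφ
      linear_combination hφ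
    have hus : (x - i a) ^ s ≠ 0 := pow_ne_zero s hu
    by_cases h0 : A.eval a + B.eval a * b = 0
    · rw [if_pos h0]
      obtain ⟨g, hg1, hg2⟩ := NaOrd_split _ (NaOrd_psi A B hAB) a
      obtain ⟨k, hk⟩ : ∃ k, k = (A ^ 2 - B ^ 2 * (X ^ 3 + 1)).rootMultiplicity a := ⟨_, rfl⟩
      rw [← hk] at hg1 ⊢
      have h3 : A.eval a - B.eval a * b ≠ 0 := by
        intro h4
        have h5 : A.eval a = 0 := by linear_combination (h0 + h4) / 2
        have h6 : B.eval a = 0 := by
          have h7 : B.eval a * b = 0 := by linear_combination (h0 - h4) / 2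
          exact (mul_eq_zero.1 h7).resolve_right hQ2
        obtain ⟨p, q, hpq⟩ := hAB
        have h8 := congrArg (Polynomial.eval a) hpq
        rw [Polynomial.eval_add, Polynomial.eval_mul, Polynomial.eval_mul, h5, h6, mul_zero,
          mul_zero, add_zero, Polynomial.eval_one] at h8
        exact zero_ne_one h8
      refine ⟨NaOrd_P T₁ * NaOrd_P g,
        NaOrd_P C₁ * (NaOrd_P A - NaOrd_P B * MvPolynomial.X 1), ?_, ?_, ?_⟩
      · rw [map_mul, NaOrd_P_eval, NaOrd_P_eval]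
        exact mul_ne_zero hT2 hg2
      · rw [map_mul, map_sub, map_mul, NaOrd_P_eval, NaOrd_P_eval, NaOrd_P_eval,
          MvPolynomial.eval_X]
        exact mul_ne_zero hC2 h3
      · rw [MvPolynomial.eval₂_mul, MvPolynomial.eval₂_mul, MvPolynomial.eval₂_sub,
          MvPolynomial.eval₂_mul, NaOrd_P_eval₂, NaOrd_P_eval₂, NaOrd_P_eval₂, NaOrd_P_eval₂,
          NaOrd_P_eval₂, MvPolynomial.eval₂_X]
        show φ * (C₁.eval₂ i x * (A.eval₂ i x - B.eval₂ i x * y)) = _
        have h4 : (A.eval₂ i x + B.eval₂ i x * y) * (A.eval₂ i x - B.eval₂ i x * y) =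
            (x - i a) ^ k * g.eval₂ i x := by
          rw [← hux, ← Polynomial.eval₂_mul, ← hg1, Polynomial.eval₂_sub, Polynomial.eval₂_mul,
            Polynomial.eval₂_pow, Polynomial.eval₂_pow, Polynomial.eval₂_add,
            Polynomial.eval₂_pow, Polynomial.eval₂_X, Polynomial.eval₂_one]
          linear_combination (-(B.eval₂ i x) ^ 2) * hE.eq
        rw [zpow_add₀ hu, zpow_sub₀ hu, zpow_natCast, zpow_natCast, zpow_natCast]
        apply mul_right_cancel₀ hus
        rw [show (x - i a) ^ t / (x - i a) ^ s * (x - i a) ^ k *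
            (T₁.eval₂ i x * g.eval₂ i x) * (x - i a) ^ s =
            (x - i a) ^ t * ((x - i a) ^ k * (T₁.eval₂ i x * g.eval₂ i x)) by
          field_simp]
        linear_combination (A.eval₂ i x - B.eval₂ i x * y) * hφ1 +
          (x - i a) ^ t * T₁.eval₂ i x * h4
    · rw [if_neg h0, add_zero]
      refine ⟨NaOrd_P T₁ * (NaOrd_P A + NaOrd_P B * MvPolynomial.X 1), NaOrd_P C₁, ?_, ?_, ?_⟩
      · rw [map_mul, map_add, map_mul, NaOrd_P_eval, NaOrd_P_eval, NaOrd_P_eval,
          MvPolynomial.eval_X]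
        exact mul_ne_zero hT2 h0
      · rw [NaOrd_P_eval]
        exact hC2
      · rw [MvPolynomial.eval₂_mul, MvPolynomial.eval₂_add,
          MvPolynomial.eval₂_mul, NaOrd_P_eval₂, NaOrd_P_eval₂, NaOrd_P_eval₂, NaOrd_P_eval₂,
          MvPolynomial.eval₂_X]
        show φ * C₁.eval₂ i x = (x - i a) ^ ((t : ℤ) - s) *
          (T₁.eval₂ i x * (A.eval₂ i x + B.eval₂ i x * y))
        rw [zpow_sub₀ hu, zpow_natCast, zpow_natCast]
        apply mul_right_cancel₀ hus
        rw [hφ1]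
        field_simp
  · have key : ∀ (M : Type) [Field M] (i : ℂ →+* M) (x y : M), OnE i x y →
        ∀ (φ : M) (Q : ℂ × ℂ) (n n' : ℤ), Q.2 ^ 2 = Q.1 ^ 3 + 1 → OrdAt i x y φ Q n →
          OrdAt i x y φ Q n' → n ≤ n' := by
      intro M _ i x y hE φ Q n n' hQ h h'
      by_contra hlt
      rw [not_le] at hlt
      obtain ⟨U, W, hU, hW, e⟩ := h
      obtain ⟨U', W', hU', hW', e'⟩ := h'
      have hu : x - i Q.1 ≠ 0 := by
        have h1 := hE.tr (X - C Q.1) (Polynomial.X_sub_C_ne_zero Q.1)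
        rwa [Polynomial.eval₂_sub, Polynomial.eval₂_X, Polynomial.eval₂_C] at h1
      obtain ⟨k, hk⟩ : ∃ k : ℕ, n = n' + k + 1 := ⟨(n - n' - 1).toNat, by omega⟩
      have h1 : (x - i Q.1) ^ (k + 1) * MvPolynomial.eval₂ i ![x, y] U *
          MvPolynomial.eval₂ i ![x, y] W' =
          MvPolynomial.eval₂ i ![x, y] U' * MvPolynomial.eval₂ i ![x, y] W := by
        apply mul_left_cancel₀ (zpow_ne_zero n' hu)
        have e1 : (x - i Q.1) ^ n = (x - i Q.1) ^ n' * (x - i Q.1) ^ (k + 1) := by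
          rw [hk, add_assoc, zpow_add₀ hu]
          congr 1
          exact_mod_cast zpow_natCast (x - i Q.1) (k + 1)
        rw [e1] at e
        linear_combination (-(MvPolynomial.eval₂ i ![x, y] W')) * e +
          MvPolynomial.eval₂ i ![x, y] W * e'
      have h2 := hKer.1 M i x y hE
        ((MvPolynomial.X 0 - MvPolynomial.C Q.1) ^ (k + 1) * U * W' - U' * W) (by
          rw [MvPolynomial.eval₂_sub, MvPolynomial.eval₂_mul, MvPolynomial.eval₂_mul,
            MvPolynomial.eval₂_mul, MvPolynomial.eval₂_pow, MvPolynomial.eval₂_sub,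
            MvPolynomial.eval₂_X, MvPolynomial.eval₂_C]
          show (x - i Q.1) ^ (k + 1) * _ * _ - _ = 0
          rw [h1, sub_self]) Q hQ
      rw [map_sub, map_mul, map_mul, map_mul, map_pow, map_sub, MvPolynomial.eval_X,
        MvPolynomial.eval_C] at h2
      have h3 : (![Q.1, Q.2] : Fin 2 → ℂ) 0 - Q.1 = 0 := by simp
      rw [h3, zero_pow (Nat.succ_ne_zero k), zero_mul, zero_mul, zero_sub, neg_eq_zero] at h2
      exact mul_ne_zero hU' hW h2
    intro M _ i x y hE φ Q n n' hQ h h'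
    exact le_antisymm (key M i x y hE φ Q n n' hQ h h') (key M i x y hE φ Q n' n hQ h' h)

end TDC
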