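import Pool.Agent.TDC.StNa

/-!
# TDN: module NaPel, the key polynomial lemma
-/

set_option autoImplicit false

namespace TDC

open scoped Topology
open Polynomial

/-- the derivation applied to the coefficients -/
private theorem NaPel_delta (D : Derivation ℤ ℂ ℂ) : ∃ δ : Derivation ℤ ℂ[X] ℂ[X],
    (∀ x, δ (C x) = C (D x)) ∧ δ X = 0 ∧ ∀ P, (δ P).natDegree ≤ P.natDegree := by
  let _ : Differential ℂ := ⟨D⟩
  refine ⟨Differential.mapCoeffs, fun x => Differential.mapCoeffs_C x,
    Differential.mapCoeffs_X, fun P => ?_⟩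
  rw [natDegree_le_iff_coeff_eq_zero]
  intro i hi
  rw [Differential.coeff_mapCoeffs, coeff_eq_zero_of_natDegree_lt hi]
  exact map_zero _

private theorem NaPel_eval (D : Derivation ℤ ℂ ℂ) (δ : Derivation ℤ ℂ[X] ℂ[X])
    (hC : ∀ x, δ (C x) = C (D x)) (hX : δ X = 0) (s : ℂ) (P : ℂ[X]) :
    D (P.eval s) = (δ P).eval s + (derivative P).eval s * D s := by
  induction P using Polynomial.induction_on with
  | C x =>
    rw [hC]
    simp
  | add p q hp hq =>
    simp only [eval_add, map_add, hp, hq]
    ring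
  | monomial n x ih =>
    have e1 : C x * X ^ (n + 1) = (C x * X ^ n) * X := by rw [pow_succ, mul_assoc]
    obtain ⟨P, hP⟩ : ∃ P : ℂ[X], P = C x * X ^ n := ⟨_, rfl⟩
    rw [e1, ← hP]
    rw [← hP] at ih
    rw [Derivation.leibniz, hX, smul_zero, zero_add, eval_mul, eval_X, Derivation.leibniz, ih,
      derivative_mul, derivative_X, mul_one, smul_eq_mul, smul_eq_mul, smul_eq_mul, eval_mul,
      eval_X, eval_add, eval_mul, eval_X]
    ring

private theorem NaPel_prod (D : Derivation ℤ ℂ ℂ) (δ : Derivation ℤ ℂ[X] ℂ[X])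
    (hC : ∀ x, δ (C x) = C (D x)) (hX : δ X = 0) (m : Multiset ℂ) :
    (∀ s ∈ m, D s = 0) → δ ((m.map fun s => X - C s).prod) = 0 := by
  induction m using Multiset.induction_on with
  | empty =>
    intro _
    rw [Multiset.map_zero, Multiset.prod_zero, Derivation.map_one_eq_zero]
  | cons s m ih =>
    intro h
    rw [Multiset.map_cons, Multiset.prod_cons, Derivation.leibniz,
      ih fun t ht => h t (Multiset.mem_cons_of_mem ht), smul_zero, zero_add, map_sub, hX, hC,
      h s (Multiset.mem_cons_self s m), map_zero, sub_zero, smul_zero]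

theorem thm_NaPel : St_NaPel := by
  intro D A B R a c N hDa hc hN hRm hR hAB hψ
  obtain ⟨n, rfl⟩ : ∃ n, N = n + 1 := ⟨N - 1, by omega⟩
  obtain ⟨δ, hC, hX, hdeg⟩ := NaPel_delta D
  have hev := NaPel_eval D δ hC hX
  -- the derivation kills `R` and `f`
  have hδR : δ R = 0 := by
    have h1 : R = (R.roots.map fun s => X - C s).prod :=
      (IsAlgClosed.splits R).eq_prod_roots_of_monic hRm
    rw [h1]
    exact NaPel_prod D δ hC hX _ fun s hs => hR s (isRoot_of_mem_roots hs)
  obtain ⟨f, hf⟩ : ∃ f : ℂ[X], f = X ^ 3 + 1 := ⟨_, rfl⟩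
  have hδf : δ f = 0 := by
    rw [hf, map_add, Derivation.leibniz_pow, hX, smul_zero, smul_zero, Derivation.map_one_eq_zero,
      add_zero]
  have hfev : ∀ s, f.eval s = s ^ 3 + 1 := by
    intro s
    rw [hf]
    simp
  have hfder : ∀ s, (derivative f).eval s = 3 * s ^ 2 := by
    intro s
    rw [hf, derivative_add, derivative_X_pow, derivative_one, add_zero, eval_mul, eval_pow, eval_X]
    simp
  have hfdeg : f.natDegree = 3 := by
    rw [hf]
    have : (X ^ 3 + 1 : ℂ[X]) = X ^ 3 + C 1 := by rw [C_1]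
    rw [this]
    exact natDegree_X_pow_add_C
  have hf0 : f ≠ 0 := by
    intro h
    rw [h, natDegree_zero] at hfdeg
    omega
  rw [← hf] at hψ
  obtain ⟨ψ, hψ'⟩ : ∃ ψ : ℂ[X], ψ = A ^ 2 - B ^ 2 * f := ⟨_, rfl⟩
  obtain ⟨Q₀, hQ₀⟩ : ∃ Q₀ : ℂ[X], Q₀ = (X - C a) ^ n * R := ⟨_, rfl⟩
  have hψQ₀ : ψ = Q₀ * ((X - C a) * C c) := by
    rw [hψ', hψ, hQ₀]
    ring
  obtain ⟨E, hE⟩ : ∃ E : ℂ[X], E = C (D c) * (X - C a) - C (c * (n + 1) * D a) := ⟨_, rfl⟩
  have hQ₀0 : Q₀ ≠ 0 := by
    rw [hQ₀]
    exact mul_ne_zero (pow_ne_zero _ (X_sub_C_ne_zero a)) hRm.ne_zero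
  have hψ0 : ψ ≠ 0 := by
    rw [hψQ₀]
    exact mul_ne_zero hQ₀0 (mul_ne_zero (X_sub_C_ne_zero a) (C_ne_zero.2 hc))
  -- the derivative of `ψ`
  have hδψ1 : δ ψ = 2 * A * δ A - 2 * B * δ B * f := by
    rw [hψ', map_sub, Derivation.leibniz, Derivation.leibniz_pow, Derivation.leibniz_pow, hδf]
    simp only [smul_eq_mul, nsmul_eq_mul]
    push_cast
    ring
  have hδψ2 : δ ψ = Q₀ * E := by
    have e1 : ψ = C c * ((X - C a) ^ (n + 1) * R) := by
      rw [hψ', hψ]
      ring
    rw [e1, Derivation.leibniz, Derivation.leibniz, Derivation.leibniz_pow, hδR, map_sub, hX,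
      hC, hC, hQ₀, hE]
    simp only [smul_eq_mul, nsmul_eq_mul, Nat.add_sub_cancel]
    rw [C_mul, C_mul, C_add, C_1]
    push_cast
    have e2 : (C (n : ℂ) : ℂ[X]) = (n : ℂ[X]) := by simp
    rw [e2]
    ring
  obtain ⟨G, hG⟩ : ∃ G : ℂ[X], G = A * δ B - δ A * B := ⟨_, rfl⟩
  have id1 : 2 * A * G = 2 * δ B * ψ - B * δ ψ := by
    rw [hδψ1, hG, hψ']
    ring
  have id2 : 2 * B * f * G = 2 * δ A * ψ - A * δ ψ := by
    rw [hδψ1, hG, hψ']
    ring
  have hdQ₀ψ : Q₀ ∣ ψ := ⟨_, hψQ₀⟩
  have hdQ₀δ : Q₀ ∣ δ ψ := ⟨_, hδψ2⟩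
  have h2 : IsUnit (2 : ℂ[X]) := by
    have : (2 : ℂ[X]) = C 2 := (map_ofNat C 2).symm
    rw [this, isUnit_C]
    exact isUnit_iff_ne_zero.2 two_ne_zero
  have d1 : Q₀ ∣ A * G := by
    have e1 : Q₀ ∣ 2 * (A * G) := by
      have : 2 * (A * G) = 2 * δ B * ψ - B * δ ψ := by rw [← id1]; ring
      rw [this]
      exact dvd_sub (dvd_mul_of_dvd_right hdQ₀ψ _) (dvd_mul_of_dvd_right hdQ₀δ _)
    exact (h2.dvd_mul_left).1 e1
  have d2 : Q₀ ∣ B * f * G := by
    have e1 : Q₀ ∣ 2 * (B * f * G) := by
      have : 2 * (B * f * G) = 2 * δ A * ψ - A * δ ψ := by rw [← id2]; ring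
      rw [this]
      exact dvd_sub (dvd_mul_of_dvd_right hdQ₀ψ _) (dvd_mul_of_dvd_right hdQ₀δ _)
    exact (h2.dvd_mul_left).1 e1
  obtain ⟨u, v, huv⟩ := hAB
  have d3 : Q₀ ∣ f * G := by
    have e1 : f * G = u * f * (A * G) + v * (B * f * G) := by
      linear_combination (-(f * G)) * huv
    rw [e1]
    exact dvd_add (dvd_mul_of_dvd_right d1 _) (dvd_mul_of_dvd_right d2 _)
  have hAB' : ∀ s, A.eval s = 0 → B.eval s = 0 → False := by
    intro s h1 h3
    have h4 := congrArg (Polynomial.eval s) huv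
    rw [eval_add, eval_mul, eval_mul, h1, h3, eval_one] at h4
    simp at h4
  -- `G = 0`
  have hG0 : G = 0 := by
    by_contra hG0
    have hB0 : B ≠ 0 := by
      intro hB
      apply hG0
      rw [hG, hB, map_zero, mul_zero, mul_zero, sub_zero]
    -- divisibility
    have hdvd : Q₀ ∣ G := by
      rw [IsAlgClosed.dvd_iff_roots_le_roots hQ₀0 hG0, Multiset.le_iff_count]
      intro s
      rw [count_roots, count_roots]
      by_cases hfs : f.eval s = 0
      · by_cases hAs : A.eval s = 0
        · have hBs : B.eval s ≠ 0 := fun h => hAB' s hAs h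
          have hs0 : s ≠ 0 := by
            intro h
            rw [hfev, h] at hfs
            norm_num at hfs
          have hDs : D s = 0 := by
            have h3 := hev s f
            rw [hfs, hδf, map_zero, eval_zero, zero_add, hfder] at h3
            rcases mul_eq_zero.1 h3.symm with h4 | h4
            · exfalso
              rcases mul_eq_zero.1 h4 with h5 | h5
              · norm_num at h5
              · exact hs0 (pow_eq_zero_iff (two_ne_zero) |>.1 h5)
            · exact h4
          have hm1 : Q₀.rootMultiplicity s ≤ 1 := by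
            have h3 : Q₀.rootMultiplicity s ≤ ψ.rootMultiplicity s :=
              rootMultiplicity_le_rootMultiplicity_of_dvd hψ0 hdQ₀ψ s
            have h4 : ¬ 1 < ψ.rootMultiplicity s := by
              intro h5
              rw [one_lt_rootMultiplicity_iff_isRoot hψ0] at h5
              have h6 : (derivative ψ).eval s = 0 := h5.2
              rw [hψ', derivative_sub, derivative_mul, derivative_pow, derivative_pow] at h6
              simp only [eval_sub, eval_add, eval_mul, eval_pow, hAs, hfs, hfder] at h6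
              have h7 : B.eval s ^ 2 * (3 * s ^ 2) = 0 := by
                have : (2 : ℕ) - 1 = 1 := rfl
                rw [this] at h6
                linear_combination -h6
              rcases mul_eq_zero.1 h7 with h8 | h8
              · exact hBs (pow_eq_zero_iff two_ne_zero |>.1 h8)
              · rcases mul_eq_zero.1 h8 with h9 | h9
                · norm_num at h9
                · exact hs0 (pow_eq_zero_iff two_ne_zero |>.1 h9)
            omega
          have hGs : G.eval s = 0 := by
            have h3 := hev s A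
            rw [hAs, map_zero, hDs, mul_zero, add_zero] at h3
            rw [hG, eval_sub, eval_mul, eval_mul, hAs, ← h3]
            ring
          have hpos : 0 < G.rootMultiplicity s := (rootMultiplicity_pos hG0).2 hGs
          omega
        · -- `A(s) ≠ 0`
          have hA0 : A ≠ 0 := by
            intro h
            rw [h, eval_zero] at hAs
            exact hAs rfl
          have h3 := rootMultiplicity_le_rootMultiplicity_of_dvd (mul_ne_zero hA0 hG0) d1 s
          rw [rootMultiplicity_mul (mul_ne_zero hA0 hG0),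
            rootMultiplicity_eq_zero hAs, zero_add] at h3
          exact h3
      · have h3 := rootMultiplicity_le_rootMultiplicity_of_dvd (mul_ne_zero hf0 hG0) d3 s
        rw [rootMultiplicity_mul (mul_ne_zero hf0 hG0),
          rootMultiplicity_eq_zero hfs, zero_add] at h3
        exact h3
    -- degrees
    have hBf : (B ^ 2 * f).natDegree = 2 * B.natDegree + 3 := by
      rw [natDegree_mul (pow_ne_zero _ hB0) hf0, natDegree_pow, hfdeg]
    have hAA : (A ^ 2).natDegree = 2 * A.natDegree := natDegree_pow _ _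
    have hd1 : 2 * A.natDegree ≤ ψ.natDegree ∧ 2 * B.natDegree + 3 ≤ ψ.natDegree := by
      rcases lt_trichotomy (2 * A.natDegree) (2 * B.natDegree + 3) with h3 | h3 | h3
      · have h4 : ψ.natDegree = 2 * B.natDegree + 3 := by
          rw [hψ', natDegree_sub_eq_right_of_natDegree_lt (by rw [hAA, hBf]; exact h3), hBf]
        omega
      · omega
      · have h4 : ψ.natDegree = 2 * A.natDegree := by
          rw [hψ', natDegree_sub_eq_left_of_natDegree_lt (by rw [hAA, hBf]; exact h3), hAA]
        omega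
    have hd2 : ψ.natDegree = Q₀.natDegree + 1 := by
      rw [hψQ₀, natDegree_mul hQ₀0 (mul_ne_zero (X_sub_C_ne_zero a) (C_ne_zero.2 hc)),
        natDegree_mul (X_sub_C_ne_zero a) (C_ne_zero.2 hc), natDegree_X_sub_C, natDegree_C]
    have hd3 : G.natDegree ≤ A.natDegree + B.natDegree := by
      rw [hG]
      refine (natDegree_sub_le _ _).trans (max_le ?_ ?_)
      · refine natDegree_mul_le.trans ?_
        have := hdeg B
        omega
      · refine natDegree_mul_le.trans ?_
        have := hdeg A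
        omega
    exact hG0 (eq_zero_of_dvd_of_natDegree_lt hdvd (by omega))
  -- the end
  have hEa : E.eval a ≠ 0 := by
    rw [hE]
    simp only [eval_sub, eval_mul, eval_C, eval_X, sub_self, mul_zero, zero_sub]
    rw [neg_ne_zero]
    refine mul_ne_zero (mul_ne_zero hc ?_) hDa
    exact_mod_cast Nat.succ_ne_zero n
  rw [hG0, mul_zero, hδψ2, hψQ₀] at id1 id2
  have e1 : B * E = 2 * δ B * ((X - C a) * C c) := by
    apply mul_left_cancel₀ hQ₀0
    linear_combination id1
  have e2 : A * E = 2 * δ A * ((X - C a) * C c) := by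
    apply mul_left_cancel₀ hQ₀0
    linear_combination id2
  have e3 := congrArg (Polynomial.eval a) e1
  have e4 := congrArg (Polynomial.eval a) e2
  simp only [eval_mul, eval_sub, eval_X, eval_C, sub_self, zero_mul, mul_zero] at e3 e4
  exact hAB' a ((mul_eq_zero.1 e4).resolve_right hEa) ((mul_eq_zero.1 e3).resolve_right hEa)

end TDC
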