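import Pool.Agent.TDC.StNa

/-!
# TDC: module NaSte, tubes which are not met by a tuple
-/

set_option autoImplicit false

namespace TDC

open Polynomial

section NaSte

private theorem NaSte_small {L : Type} [Field L] (v : AbsoluteValue L ℝ)
    (na : ∀ a b, v (a + b) ≤ max (v a) (v b)) {ι : Type} (s : Finset ι) (z : ι → L) (B : ℝ)
    (hB : 0 < B) (h : ∀ i ∈ s, v (z i) < B) : v (∑ i ∈ s, z i) < B := by
  classical
  induction s using Finset.induction_on with
  | empty =>
    rw [Finset.sum_empty, v.map_zero]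
    exact hB
  | insert a s ha ih =>
    rw [Finset.sum_insert ha]
    exact (na _ _).trans_lt (max_lt (h a (Finset.mem_insert_self _ _))
      (ih fun i hi => h i (Finset.mem_insert_of_mem hi)))

private theorem NaSte_one {L : Type} [Field L] (v : AbsoluteValue L ℝ)
    (na : ∀ a b, v (a + b) ≤ max (v a) (v b)) (z w : L) (h : v (z - w) < 1) (hw : v w = 1) :
    v z = 1 := by
  apply le_antisymm
  · have h1 := na (z - w) w
    rw [sub_add_cancel, hw] at h1
    exact h1.trans (max_le h.le le_rfl)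
  · by_contra h2
    have h2' : v z < 1 := not_le.1 h2
    have h1 := na (w - z) z
    rw [sub_add_cancel, hw, v.map_sub w z] at h1
    exact absurd h1 (not_le.2 (max_lt h h2'))

private theorem NaSte_ne {L : Type} [Field L] (v : AbsoluteValue L ℝ)
    (na : ∀ a b, v (a + b) ≤ max (v a) (v b)) {ι : Type} (s : Finset ι) (hs : s.Nonempty)
    (z : ι → L) (h0 : ∀ i ∈ s, z i ≠ 0)
    (hinj : ∀ i ∈ s, ∀ j ∈ s, v (z i) = v (z j) → i = j) :
    ∑ i ∈ s, z i ≠ 0 := by
  classical
  obtain ⟨i₀, hi₀, hmax⟩ := Finset.exists_max_image s (fun i => v (z i)) hs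
  intro hsum
  rw [← Finset.add_sum_erase s z hi₀] at hsum
  have h1 : v (∑ i ∈ s.erase i₀, z i) < v (z i₀) := by
    apply NaSte_small v na
    · exact v.pos (h0 i₀ hi₀)
    · intro i hi
      have hi' := Finset.mem_erase.1 hi
      exact lt_of_le_of_ne (hmax i hi'.2) fun he => hi'.1 (hinj i hi'.2 i₀ hi₀ he)
  have h2 : ∑ i ∈ s.erase i₀, z i = - z i₀ := (neg_eq_of_add_eq_zero_right hsum).symm
  rw [h2, v.map_neg] at h1
  exact lt_irrefl _ h1

/-- the value of a polynomial in `x` at the points reducing to a general complex number -/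
private theorem NaSte_red {K L : Type} [NontriviallyNormedField K] [Field L] [Algebra K L]
    (c : ℂ →+* K) (x : L) (hc : ResC c) (p : K[X]) (hp : p ≠ 0) :
    ∃ (S : Finset ℂ) (α : K), α ≠ 0 ∧ ∀ a : ℂ, a ∉ S → ∀ v : Pt (algebraMap K L),
      v.v (x - algebraMap K L (c a)) < 1 → v.v (aeval x p) = ‖α‖ := by
  classical
  obtain ⟨k₀, hk₀, hmax⟩ := Finset.exists_max_image p.support (fun k => ‖p.coeff k‖)
    (Polynomial.support_nonempty.2 hp)
  obtain ⟨α, hαd⟩ : ∃ α, α = p.coeff k₀ := ⟨_, rfl⟩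
  have hα : α ≠ 0 := by
    rw [hαd]
    exact mem_support_iff.1 hk₀
  have hle : ∀ k, ‖α⁻¹ * p.coeff k‖ ≤ 1 := by
    intro k
    rw [norm_mul, norm_inv, inv_mul_le_iff₀ (norm_pos_iff.2 hα), mul_one]
    by_cases hk : k ∈ p.support
    · rw [hαd]
      exact hmax k hk
    · rw [notMem_support_iff.1 hk, norm_zero]
      exact norm_nonneg _
  choose b hb using fun k => hc.res (α⁻¹ * p.coeff k) (hle k)
  have hb0 : b k₀ ≠ 0 := by
    intro h0
    have h1 := hb k₀
    rw [h0, map_zero, sub_zero, ← hαd, inv_mul_cancel₀ hα, norm_one] at h1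
    exact lt_irrefl _ h1
  obtain ⟨q, hq⟩ : ∃ q : ℂ[X], q = ∑ k ∈ p.support, monomial k (b k) := ⟨_, rfl⟩
  have hqc : q.coeff k₀ = b k₀ := by
    rw [hq, finsetSum_coeff]
    rw [Finset.sum_eq_single k₀]
    · rw [coeff_monomial, if_pos rfl]
    · intro k _ hk
      rw [coeff_monomial, if_neg hk]
    · intro h
      exact absurd hk₀ h
  have hq0 : q ≠ 0 := by
    intro h0
    rw [h0, coeff_zero] at hqc
    exact hb0 hqc.symm
  refine ⟨q.roots.toFinset, α, hα, ?_⟩
  intro a ha v hv
  have hqa : q.eval a ≠ 0 := fun h => ha (by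
    rw [Multiset.mem_toFinset, mem_roots hq0]
    exact h)
  have hcv : ∀ z : ℂ, v.v (algebraMap K L (c z)) ≤ 1 := by
    intro z
    rw [v.ext]
    by_cases hz : z = 0
    · rw [hz, map_zero, norm_zero]
      exact zero_le_one
    · exact (hc.one z hz).le
  have hx : v.v x ≤ 1 := by
    have h1 := v.na (x - algebraMap K L (c a)) (algebraMap K L (c a))
    rw [sub_add_cancel] at h1
    exact h1.trans (max_le hv.le (hcv a))
  have hpow : ∀ k : ℕ, v.v (x ^ k - (algebraMap K L (c a)) ^ k) < 1 := by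
    intro k
    induction k with
    | zero =>
      rw [pow_zero, pow_zero, sub_self, v.v.map_zero]
      exact one_pos
    | succ k ih =>
      have h1 : x ^ (k + 1) - (algebraMap K L (c a)) ^ (k + 1) =
          x ^ k * (x - algebraMap K L (c a)) +
            algebraMap K L (c a) * (x ^ k - (algebraMap K L (c a)) ^ k) := by ring
      rw [h1]
      refine (v.na _ _).trans_lt (max_lt ?_ ?_)
      · rw [v.v.map_mul, v.v.map_pow]
        exact (mul_le_of_le_one_left (v.v.nonneg _) (pow_le_one₀ (v.v.nonneg _) hx)).trans_lt hv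
      · rw [v.v.map_mul]
        exact (mul_le_of_le_one_left (v.v.nonneg _) (hcv a)).trans_lt ih
  have hz : algebraMap K L α⁻¹ * aeval x p =
      ∑ k ∈ p.support, algebraMap K L (α⁻¹ * p.coeff k) * x ^ k := by
    rw [aeval_def, eval₂_eq_sum, Polynomial.sum_def, Finset.mul_sum]
    refine Finset.sum_congr rfl fun k _ => ?_
    rw [map_mul, mul_assoc]
  have hw : algebraMap K L (c (q.eval a)) =
      ∑ k ∈ p.support, algebraMap K L (c (b k)) * (algebraMap K L (c a)) ^ k := by
    rw [hq, eval_finsetSum, map_sum, map_sum]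
    refine Finset.sum_congr rfl fun k _ => ?_
    rw [eval_monomial, map_mul, map_mul, map_pow, map_pow]
  have h2 : v.v (algebraMap K L α⁻¹ * aeval x p) = 1 := by
    refine NaSte_one v.v v.na _ (algebraMap K L (c (q.eval a))) ?_ ?_
    · rw [hz, hw, ← Finset.sum_sub_distrib]
      refine NaSte_small v.v v.na _ _ 1 one_pos fun k _ => ?_
      have h3 : algebraMap K L (α⁻¹ * p.coeff k) * x ^ k -
          algebraMap K L (c (b k)) * (algebraMap K L (c a)) ^ k =
          algebraMap K L (α⁻¹ * p.coeff k - c (b k)) * x ^ k +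
            algebraMap K L (c (b k)) * (x ^ k - (algebraMap K L (c a)) ^ k) := by
        rw [map_sub]
        ring
      rw [h3]
      refine (v.na _ _).trans_lt (max_lt ?_ ?_)
      · rw [v.v.map_mul, v.v.map_pow, v.ext]
        exact (mul_le_of_le_one_right (norm_nonneg _)
          (pow_le_one₀ (v.v.nonneg _) hx)).trans_lt (hb k)
      · rw [v.v.map_mul]
        exact (mul_le_of_le_one_left (v.v.nonneg _) (hcv (b k))).trans_lt (hpow k)
    · rw [v.ext]
      exact hc.one _ hqa
  rw [v.v.map_mul, v.ext, norm_inv] at h2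
  have h4 : ‖α‖ ≠ 0 := norm_ne_zero_iff.2 hα
  calc v.v (aeval x p) = ‖α‖ * (‖α‖⁻¹ * v.v (aeval x p)) := by
        rw [← mul_assoc, mul_inv_cancel₀ h4, one_mul]
    _ = ‖α‖ := by rw [h2, mul_one]

/-- a relation sorted by the exponents of the last variables -/
private theorem NaSte_rel {K L : Type} [Field K] [Field L] [Algebra K L] (x : L) {n : ℕ}
    (g : Fin n → L) (P : MvPolynomial (Fin (n + 1)) K) (hP : P ≠ 0)
    (h0 : MvPolynomial.aeval (Fin.cons x g : Fin (n + 1) → L) P = 0) :
    ∃ (E : Finset (Fin n →₀ ℕ)) (p : (Fin n →₀ ℕ) → K[X]), E.Nonempty ∧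
      (∀ e ∈ E, p e ≠ 0) ∧ ∑ e ∈ E, aeval x (p e) * ∏ i, g i ^ e i = 0 := by
  classical
  refine ⟨P.support.image Finsupp.tail, fun e => ∑ d ∈ P.support.filter
    (fun d => Finsupp.tail d = e), monomial (d 0) (P.coeff d), ?_, ?_, ?_⟩
  · exact (MvPolynomial.support_nonempty.2 hP).image _
  · intro e he h1
    obtain ⟨d, hd, hde⟩ := Finset.mem_image.1 he
    have h2 := congrArg (fun q : K[X] => q.coeff (d 0)) h1
    have h3 : (∑ d ∈ P.support.filter (fun d => Finsupp.tail d = e),
        monomial (d 0) (P.coeff d) : K[X]).coeff (d 0) = P.coeff d := by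
      rw [finsetSum_coeff, Finset.sum_eq_single d]
      · rw [coeff_monomial, if_pos rfl]
      · intro d' hd' hne
        rw [coeff_monomial, if_neg]
        intro h4
        apply hne
        rw [← Finsupp.cons_tail d', ← Finsupp.cons_tail d, h4, (Finset.mem_filter.1 hd').2, hde]
      · intro h4
        exact absurd (Finset.mem_filter.2 ⟨hd, hde⟩) h4
    have h5 : P.coeff d = 0 := by
      rw [← h3]
      exact h2
    exact MvPolynomial.mem_support_iff.1 hd h5
  · rw [MvPolynomial.aeval_def, MvPolynomial.eval₂_eq'] at h0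
    refine Eq.trans ?_ h0
    rw [← Finset.sum_fiberwise_of_maps_to (s := P.support)
      (t := P.support.image Finsupp.tail) (g := Finsupp.tail)
      (fun d hd => Finset.mem_image_of_mem _ hd)]
    refine Finset.sum_congr rfl fun e _ => ?_
    rw [map_sum, Finset.sum_mul]
    refine Finset.sum_congr rfl fun d hd => ?_
    rw [aeval_monomial, Fin.prod_univ_succ, Fin.cons_zero, mul_assoc]
    refine congrArg (fun z => algebraMap K L (P.coeff d) * (x ^ d 0 * z)) ?_
    refine Finset.prod_congr rfl fun i _ => ?_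
    rw [Fin.cons_succ, ← (Finset.mem_filter.1 hd).2, Finsupp.tail_apply]

private theorem NaSte_key {K L : Type} [NontriviallyNormedField K] [Field L] [Algebra K L]
    (c : ℂ →+* K) (x : L) (n : ℕ) (hc : ResC c) (hTr : TrLe K L n) (g : Fin n → Lˣ) :
    ∃ S : Finset ℂ, ∀ a : ℂ, a ∉ S → ∀ v : Pt (algebraMap K L),
      v.v (x - algebraMap K L (c a)) < 1 → ¬ Indep v g := by
  classical
  obtain ⟨P, hP0, hP⟩ : ∃ P : MvPolynomial (Fin (n + 1)) K,
      MvPolynomial.aeval (Fin.cons x (fun i => (g i : L)) : Fin (n + 1) → L) P = 0 ∧ P ≠ 0 := by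
    by_contra hcon
    refine hTr (Fin.cons x (fun i => (g i : L))) (algebraicIndependent_iff.2 ?_)
    intro P h1
    by_contra h2
    exact hcon ⟨P, h1, h2⟩
  obtain ⟨E, p, hE, hp, hsum⟩ := NaSte_rel x (fun i => (g i : L)) P hP hP0
  choose! S α hα hS using fun (p : K[X]) (hp : p ≠ 0) => NaSte_red c x hc p hp
  refine ⟨E.biUnion fun e => S (p e), ?_⟩
  intro a ha v hv hind
  have hval : ∀ e ∈ E, v.v (aeval x (p e)) = ‖α (p e)‖ := by
    intro e he
    refine hS (p e) (hp e he) a (fun h => ha ?_) v hv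
    exact Finset.mem_biUnion.2 ⟨e, he, h⟩
  have hne : ∀ e ∈ E, aeval x (p e) ≠ 0 := by
    intro e he h0
    have h1 := hval e he
    rw [h0, v.v.map_zero] at h1
    exact hα (p e) (hp e he) (norm_eq_zero.1 h1.symm)
  refine NaSte_ne v.v v.na E hE (fun e => aeval x (p e) * ∏ i, (g i : L) ^ e i) ?_ ?_ hsum
  · intro e he
    refine mul_ne_zero (hne e he) (Finset.prod_ne_zero_iff.2 fun i _ => ?_)
    exact pow_ne_zero _ (g i).ne_zero
  · intro e he e' he' hee
    rw [v.v.map_mul, v.v.map_mul, hval e he, hval e' he'] at hee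
    have h1 := hind (fun i => (e i : ℤ) - (e' i : ℤ)) ⟨α (p e') / α (p e), ?_⟩
    · ext i
      have h2 := congrFun h1 i
      have h3 : (e i : ℤ) - (e' i : ℤ) = 0 := h2
      have h4 : (e i : ℤ) = (e' i : ℤ) := sub_eq_zero.1 h3
      exact_mod_cast h4
    · have hpos : ∀ e : Fin n →₀ ℕ, v.v (∏ i, (g i : L) ^ e i) ≠ 0 := by
        intro e
        rw [v.v.ne_zero_iff]
        exact Finset.prod_ne_zero_iff.2 fun i _ => pow_ne_zero _ (g i).ne_zero
      have h5 : ((∏ i, g i ^ ((e i : ℤ) - (e' i : ℤ)) : Lˣ) : L) =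
          (∏ i, (g i : L) ^ e i) / ∏ i, (g i : L) ^ e' i := by
        rw [Units.coe_prod, ← Finset.prod_div_distrib]
        refine Finset.prod_congr rfl fun i _ => ?_
        rw [Units.val_zpow_eq_zpow_val, zpow_sub₀ (g i).ne_zero, zpow_natCast, zpow_natCast]
      rw [h5, map_div₀, norm_div, div_eq_div_iff (norm_ne_zero_iff.2 (hα _ (hp e he)))
        (hpos e')]
      rw [← hee, mul_comm]

/-- **NaSte** -/
theorem thm_NaSte : St_NaSte := by
  intro K L _ _ _ _ c x n hc hTr _ r f
  classical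
  choose S hS using fun J : Fin n → Fin r => NaSte_key c x n hc hTr (f ∘ J)
  refine ⟨Finset.univ.biUnion S, ?_⟩
  intro a ha v hv J
  refine hS J a (fun h => ha ?_) v hv
  exact Finset.mem_biUnion.2 ⟨J, Finset.mem_univ _, h⟩

end NaSte

end TDC
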