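import Pool.Agent.TDC.StNa

/-!
# TDN, module NaTub (helper37): tube facts
-/

namespace TDC

open scoped Topology

private theorem NaTub_eq {K M : Type} [NormedField K] [Field M] {φ : K →+* M} (v : Pt φ)
    (u w : M) (h : v.v u < v.v w) : v.v (u + w) = v.v w := by
  apply le_antisymm
  · exact (v.na u w).trans (max_le h.le le_rfl)
  · have h1 := v.na (u + w) (-u)
    rw [add_neg_cancel_comm, v.v.map_neg] at h1
    rcases le_max_iff.1 h1 with h2 | h2
    · exact h2
    · exact absurd h2 (not_le.2 h)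

private theorem NaTub_one {K L : Type} [NormedField K] [Field L] [Algebra K L] (c : ℂ →+* K)
    (hc : ResC c) (v : Pt (algebraMap K L)) (a : ℂ) (ha : a ≠ 0) :
    v.v (algebraMap K L (c a)) = 1 := by
  rw [v.ext, hc.one a ha]

private theorem NaTub_le {K L : Type} [NormedField K] [Field L] [Algebra K L] (c : ℂ →+* K)
    (hc : ResC c) (v : Pt (algebraMap K L)) (a : ℂ) : v.v (algebraMap K L (c a)) ≤ 1 := by
  by_cases h : a = 0
  · rw [h, map_zero, map_zero, map_zero]
    exact zero_le_one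
  · exact (NaTub_one c hc v a h).le

private theorem NaTub_x {K L : Type} [NormedField K] [Field L] [Algebra K L] (c : ℂ →+* K)
    (hc : ResC c) (v : Pt (algebraMap K L)) (x : L) (a : ℂ)
    (h : v.v (x - algebraMap K L (c a)) < 1) : v.v x ≤ 1 := by
  have h1 := v.na (x - algebraMap K L (c a)) (algebraMap K L (c a))
  rw [sub_add_cancel] at h1
  exact h1.trans (max_le h.le (NaTub_le c hc v a))

private theorem NaTub_inj {K L : Type} [NormedField K] [Field L] [Algebra K L] (c : ℂ →+* K)
    (hc : ResC c) (v : Pt (algebraMap K L)) (x : L) (a a' : ℂ)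
    (h : v.v (x - algebraMap K L (c a)) < 1) (h' : v.v (x - algebraMap K L (c a')) < 1) :
    a = a' := by
  by_contra hne
  have h1 := NaTub_one c hc v (a - a') (sub_ne_zero.2 hne)
  have h2 := v.na (x - algebraMap K L (c a')) (-(x - algebraMap K L (c a)))
  have h3 : x - algebraMap K L (c a') + -(x - algebraMap K L (c a)) =
      algebraMap K L (c (a - a')) := by
    rw [map_sub, map_sub]
    ring
  rw [h3, h1, v.v.map_neg] at h2
  exact absurd h2 (not_le.2 (max_lt h' h))

theorem thm_NaTub : St_NaTub := by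
  intro K L _ _ _ _ c x y hc hxy v
  refine ⟨?_, ?_, ?_⟩
  · rintro ⟨a, b⟩ ⟨hQ, ha, hb⟩ hs
    simp only at hQ ha hb hs ⊢
    obtain ⟨A, hA⟩ : ∃ A, A = algebraMap K L (c a) := ⟨_, rfl⟩
    obtain ⟨B, hB⟩ : ∃ B, B = algebraMap K L (c b) := ⟨_, rfl⟩
    have hx := NaTub_x c hc v x a hs
    rw [← hA] at hs ⊢
    rw [← hB]
    have hQ' : B ^ 2 = A ^ 3 + 1 := by
      rw [hA, hB, ← map_pow, ← map_pow, ← map_pow, ← map_pow, hQ]
      simp
    have h3 : v.v (3 * A ^ 2) = 1 := by
      have : (3 : L) * A ^ 2 = algebraMap K L (c (3 * a ^ 2)) := by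
        rw [hA, map_mul, map_mul, map_ofNat, map_ofNat, map_pow, map_pow]
      rw [this]
      exact NaTub_one c hc v _ (mul_ne_zero (by norm_num) (pow_ne_zero 2 ha))
    have h2B : v.v (2 * B) = 1 := by
      have : (2 : L) * B = algebraMap K L (c (2 * b)) := by
        rw [hB, map_mul, map_mul, map_ofNat, map_ofNat]
      rw [this]
      exact NaTub_one c hc v _ (mul_ne_zero (by norm_num) hb)
    have h2A : v.v (2 * A) ≤ 1 := by
      have : (2 : L) * A = algebraMap K L (c (2 * a)) := by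
        rw [hA, map_mul, map_mul, map_ofNat, map_ofNat]
      rw [this]
      exact NaTub_le c hc v _
    have h4 : v.v (x + 2 * A) ≤ 1 := (v.na _ _).trans (max_le hx h2A)
    have h5 : v.v ((x - A) * (x + 2 * A)) < 1 := by
      rw [map_mul]
      exact mul_lt_one_of_nonneg_of_lt_one_left (apply_nonneg v.v _) hs h4
    have h6 : v.v ((x - A) * (x + 2 * A) + 3 * A ^ 2) = 1 := by
      rw [NaTub_eq v _ _ (by rw [h3]; exact h5), h3]
    have h7 : (y - B) * (y + B) = (x - A) * ((x - A) * (x + 2 * A) + 3 * A ^ 2) := by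
      linear_combination hxy - hQ'
    have h8 : v.v (y - B) * v.v (y + B) = v.v (x - A) := by
      rw [← map_mul, h7, map_mul, h6, mul_one]
    by_cases h9 : v.v (y - B) < 1
    · left
      refine ⟨h9, ?_⟩
      have h10 : y + B = (y - B) + 2 * B := by ring
      rw [h10, NaTub_eq v _ _ (by rw [h2B]; exact h9), h2B]
    · right
      rw [not_lt] at h9
      have h10 : v.v (y + B) < 1 := by
        have h11 : v.v (y + B) ≤ v.v (y - B) * v.v (y + B) :=
          le_mul_of_one_le_left (apply_nonneg v.v _) h9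
        rw [h8] at h11
        exact h11.trans_lt hs
      have h12 : v.v (y - B) = 1 := by
        have h13 : y - B = (y + B) + -(2 * B) := by ring
        rw [h13, NaTub_eq v _ _ (by rw [v.v.map_neg, h2B]; exact h10), v.v.map_neg, h2B]
      refine ⟨h12, ?_⟩
      rw [h12, one_mul] at h8
      exact h8
  · rintro ⟨a, b⟩ ⟨a', b'⟩ ⟨h1, h2⟩ ⟨h1', h2'⟩
    exact Prod.ext (NaTub_inj c hc v x a a' h1 h1') (NaTub_inj c hc v y b b' h2 h2')
  · rintro ⟨a, b⟩ ⟨h1, h2⟩
    exact ⟨NaTub_x c hc v x a h1, NaTub_x c hc v y b h2⟩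

end TDC
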