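import Pool.Agent.TDC.StNa

/-!
# TDN, module NaVal: values of complex functions in tubes
-/

namespace TDC

private theorem NaVal_le {K L : Type} [NormedField K] [Field L] [Algebra K L] (c : ℂ →+* K)
    (hc : ResC c) (v : Pt (algebraMap K L)) (a : ℂ) : v.v (algebraMap K L (c a)) ≤ 1 := by
  by_cases h : a = 0
  · rw [h, map_zero, map_zero, map_zero]
    exact zero_le_one
  · rw [v.ext, hc.one a h]

private theorem NaVal_poly {K L : Type} [NormedField K] [Field L] [Algebra K L] (c : ℂ →+* K)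
    (hc : ResC c) (x y : L) (v : Pt (algebraMap K L)) (Q : ℂ × ℂ) (hx : v.v x ≤ 1)
    (hy : v.v y ≤ 1) (hxa : v.v (x - algebraMap K L (c Q.1)) < 1)
    (hyb : v.v (y - algebraMap K L (c Q.2)) < 1) (G : MvPolynomial (Fin 2) ℂ) :
    v.v (MvPolynomial.eval₂ ((algebraMap K L).comp c) ![x, y] G) ≤ 1 ∧
      v.v (MvPolynomial.eval₂ ((algebraMap K L).comp c) ![x, y] G -
        algebraMap K L (c (MvPolynomial.eval ![Q.1, Q.2] G))) < 1 := by
  have hX : ∀ j : Fin 2, v.v ((![x, y] : Fin 2 → L) j) ≤ 1 ∧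
      v.v ((![x, y] : Fin 2 → L) j - algebraMap K L (c ((![Q.1, Q.2] : Fin 2 → ℂ) j))) < 1 := by
    intro j
    fin_cases j
    · exact ⟨hx, hxa⟩
    · exact ⟨hy, hyb⟩
  induction G using MvPolynomial.induction_on with
  | C a =>
    rw [MvPolynomial.eval₂_C, MvPolynomial.eval_C]
    refine ⟨NaVal_le c hc v a, ?_⟩
    rw [RingHom.comp_apply, sub_self, map_zero]
    exact zero_lt_one
  | add p q hp hq =>
    rw [MvPolynomial.eval₂_add]
    refine ⟨(v.na _ _).trans (max_le hp.1 hq.1), ?_⟩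
    have h1 : MvPolynomial.eval₂ ((algebraMap K L).comp c) ![x, y] p +
        MvPolynomial.eval₂ ((algebraMap K L).comp c) ![x, y] q -
          algebraMap K L (c (MvPolynomial.eval ![Q.1, Q.2] (p + q))) =
        (MvPolynomial.eval₂ ((algebraMap K L).comp c) ![x, y] p -
          algebraMap K L (c (MvPolynomial.eval ![Q.1, Q.2] p))) +
        (MvPolynomial.eval₂ ((algebraMap K L).comp c) ![x, y] q -
          algebraMap K L (c (MvPolynomial.eval ![Q.1, Q.2] q))) := by
      simp only [map_add]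
      ring
    rw [h1]
    exact (v.na _ _).trans_lt (max_lt hp.2 hq.2)
  | mul_X p j hp =>
    rw [MvPolynomial.eval₂_mul, MvPolynomial.eval₂_X]
    refine ⟨by rw [map_mul]; exact mul_le_one₀ hp.1 (apply_nonneg v.v _) (hX j).1, ?_⟩
    have h1 : MvPolynomial.eval₂ ((algebraMap K L).comp c) ![x, y] p * (![x, y] : Fin 2 → L) j -
        algebraMap K L (c (MvPolynomial.eval ![Q.1, Q.2] (p * MvPolynomial.X j))) =
        MvPolynomial.eval₂ ((algebraMap K L).comp c) ![x, y] p *
          ((![x, y] : Fin 2 → L) j - algebraMap K L (c ((![Q.1, Q.2] : Fin 2 → ℂ) j))) +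
        (MvPolynomial.eval₂ ((algebraMap K L).comp c) ![x, y] p -
          algebraMap K L (c (MvPolynomial.eval ![Q.1, Q.2] p))) *
          algebraMap K L (c ((![Q.1, Q.2] : Fin 2 → ℂ) j)) := by
      rw [MvPolynomial.eval_mul, MvPolynomial.eval_X, map_mul c, map_mul (algebraMap K L)]
      ring
    rw [h1]
    refine (v.na _ _).trans_lt (max_lt ?_ ?_)
    · rw [map_mul]
      exact mul_lt_one_of_nonneg_of_lt_one_right hp.1 (apply_nonneg v.v _) (hX j).2
    · rw [map_mul]
      exact mul_lt_one_of_nonneg_of_lt_one_left (apply_nonneg v.v _) hp.2 (NaVal_le c hc v _)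

private theorem NaVal_one {K L : Type} [NormedField K] [Field L] [Algebra K L] (c : ℂ →+* K)
    (hc : ResC c) (x y : L) (v : Pt (algebraMap K L)) (Q : ℂ × ℂ) (hx : v.v x ≤ 1)
    (hy : v.v y ≤ 1) (hxa : v.v (x - algebraMap K L (c Q.1)) < 1)
    (hyb : v.v (y - algebraMap K L (c Q.2)) < 1) (G : MvPolynomial (Fin 2) ℂ)
    (hG : MvPolynomial.eval ![Q.1, Q.2] G ≠ 0) :
    v.v (MvPolynomial.eval₂ ((algebraMap K L).comp c) ![x, y] G) = 1 := by
  obtain ⟨h1, h2⟩ := NaVal_poly c hc x y v Q hx hy hxa hyb G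
  refine le_antisymm h1 ?_
  by_contra h3
  rw [not_le] at h3
  have h4 : v.v (algebraMap K L (c (MvPolynomial.eval ![Q.1, Q.2] G))) = 1 := by
    rw [v.ext, hc.one _ hG]
  have h5 : algebraMap K L (c (MvPolynomial.eval ![Q.1, Q.2] G)) =
      MvPolynomial.eval₂ ((algebraMap K L).comp c) ![x, y] G +
        -(MvPolynomial.eval₂ ((algebraMap K L).comp c) ![x, y] G -
          algebraMap K L (c (MvPolynomial.eval ![Q.1, Q.2] G))) := by ring
  rw [h5] at h4
  have h6 := v.na (MvPolynomial.eval₂ ((algebraMap K L).comp c) ![x, y] G)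
    (-(MvPolynomial.eval₂ ((algebraMap K L).comp c) ![x, y] G -
          algebraMap K L (c (MvPolynomial.eval ![Q.1, Q.2] G))))
  rw [h4, AbsoluteValue.map_neg] at h6
  exact absurd h6 (not_le.2 (max_lt h3 h2))

theorem thm_NaVal : St_NaTub → St_NaVal := by
  intro hT K L _ _ _ _ c x y hc hE φ Q n hQ hO v hv
  obtain ⟨U, W, hU, hW, hφ⟩ := hO
  obtain ⟨-, -, h3⟩ := hT K L c x y hc hE v
  obtain ⟨hx, hy⟩ := h3 Q hv
  have hU1 := NaVal_one c hc x y v Q hx hy hv.1 hv.2 U hU
  have hW1 := NaVal_one c hc x y v Q hx hy hv.1 hv.2 W hW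
  have h4 := congrArg v.v hφ
  rw [map_mul, map_mul, hU1, hW1, mul_one, mul_one, map_zpow₀] at h4
  exact h4

end TDC
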