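import Pool.Agent.TDC.StN
import Pool.Agent.TDC.St3

/-!
# TDN, analytic part 2: cut-offs, boundary term, assembly (statements, proofs in the docstrings)
-/

namespace TDC

open scoped Topology
open MeasureTheory

/-- cut-off: `0` for `u ≤ 1/2`, `1` for `u ≥ 1` -/
noncomputable def psiC (u : ℝ) : ℝ := Real.smoothTransition (2 * u - 1)

/-- cut-off: `0` for `z ≤ -1/4`, `1` for `z ≥ -1/8` -/
noncomputable def kapC (z : ℝ) : ℝ := Real.smoothTransition (8 * z + 2)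

/-- the cut-off function `∑_Q Λ_Q ψ(-p_{ix Q}/ε) κ(p_{iy Q}/ε)` -/
noncomputable def chiC {R' : ℕ} (Λ : (ℂ × ℂ) →₀ ℝ) (ix iy : ℂ × ℂ → Fin R') (ε : ℝ)
    (p : Fin R' → ℝ) : ℝ :=
  ∑ Q ∈ Λ.support, Λ Q * psiC (-p (ix Q) / ε) * kapC (p (iy Q) / ε)

/-- the coefficient of `d''γ` along the matrix `A` (columns = images of the coordinate vectors) -/
noncomputable def cofD {m R R' : ℕ} (γ : SF R (m + 1) m) (a : Fin R → Fin R') (p : Fin R' → ℝ)
    (A : Matrix (Fin R') (Fin (m + 1)) ℝ) : ℝ :=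
  ∑ I : Fin (m + 1) → Fin R, (A.submatrix (a ∘ I) id).det *
    extDeriv (γ I) (p ∘ a) (fun j => (A.mulVec (Pi.single j 1)) ∘ a)

/-- the coefficient of `d''p_i ∧ γ` along the matrix `A` -/
noncomputable def cofB {m R R' : ℕ} (γ : SF R (m + 1) m) (a : Fin R → Fin R') (i : Fin R')
    (p : Fin R' → ℝ) (A : Matrix (Fin R') (Fin (m + 1)) ℝ) : ℝ :=
  ∑ I : Fin (m + 1) → Fin R, (A.submatrix (a ∘ I) id).det *
    ∑ j : Fin (m + 1), (-1 : ℝ) ^ (j : ℕ) * A i j *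
      γ I (p ∘ a) (fun l => (A.mulVec (Pi.single (j.succAbove l) 1)) ∘ a)

/-- independence of `F ∘ J` implies independence of the reference tuple -/
def Ref (K : Type) {L : Type} [NormedField K] [Field L] [Algebra K L] {R n : ℕ} (F : Fin R → Lˣ)
    (ζ J : Fin n → Fin R) : Prop :=
  ∀ v : Pt (algebraMap K L), Indep v (F ∘ J) → Indep v (F ∘ ζ)

/-! ## B. The coordinates `g` -/

/-- **NFUn** (uniform sheets). `theorem thm_NFUn : St_NBas → St_EmG → St_NFUn`.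
Proof. If `(x, F_J)` is algebraically dependent there is no Gauss point (`EmG` (2)): `𝓜 = ∅`. Otherwise
for every `i` let `P_i(x, F_J, F_i) = 0`, `P_i ∈ K[X, U, S]`, `P_i ≠ 0` (`TrLe`), degree `≤ d` in every
variable. For `a ∈ ℂ` substitute `X = T + a`: `∑_l c_l(T, U) S^l` with `c_l` of degree `≤ d` in every
variable. At a Gauss point `v` of `(x - a, F_J)` the maximum of `|c_l(x-a, F_J)| |F_i|^l` is attained
for two different `l ≠ l'`, and `|c_l(x-a, F_J)| = ‖α‖ |x-a|^j |F_J|^e` for a monomial of `c_l`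
(Gauss property and the ultrametric inequality); so
`(l' - l) ε(F_i) = (j - j') ε(x-a) + (e - e')·ε(F_J)` for all tangent vectors (as in `Fini`,
`TDC/Fini.lean`). The numbers `l, l', j, j', e, e'` are in `{0..d}`: finitely many possible rows, not
depending on `a`. For `i = J l` take the row `e_{l+1}` (every row in the range of `J`; `J` is injective by
independence). -/
def St_NFUn : Prop :=
  ∀ (K L : Type) [NontriviallyNormedField K] [IsUltrametricDist K] [Field L] [Algebra K L]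
    (m : ℕ) (c : ℂ →+* K) (x y : L) (t : Fin m → Lˣ), NHyp c x y t →
    ∀ (R : ℕ) (F : Fin R → Lˣ) (J : Fin m → Fin R),
      ∃ 𝓜 : Finset (Matrix (Fin R) (Fin (m + 1)) ℝ),
        (∀ A ∈ 𝓜, ∀ (l : Fin m) (j : Fin (m + 1)), A (J l) j = if j = l.succ then 1 else 0) ∧
        ∀ (a : ℂ) (v : Pt (algebraMap K L)), Gauss v (cx c x a (F ∘ J)) → ∃ A ∈ 𝓜,
          ∀ ε : Tan v, ev F ε = A.mulVec (ev (cx c x a (F ∘ J)) ε)

/-- **NGen** (the tuple `g`). `theorem thm_NGen : St_NBas → St_NFUn → St_Tng → St_IndG → St_GenI →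
St_GEx → St_EmG → St_NGen`.
Proof. Let `F̂ = Fin.append F t`, of length `R̂ = R + m`. For every `J : Fin m → Fin R̂` let `𝓜_J` be from
`NFUn`; for `A ∈ 𝓜_J` let `A♭` be `A` without the column `0` (`R̂ × m`; its rows `J` are the unit
matrix). Choose an integer `m × R̂` matrix `B` with `det(B A♭) ≠ 0` for all `J`, `A ∈ 𝓜_J` (as in `Gen`,
`TDC/Gen.lean`: a non-zero polynomial in the entries of `B`, value `1` for the `B` selecting
the rows `J`; finitely many). `g_j = ∏_i F̂_i^{B_ji}`. Let `Indep v (cx a (F̂ ∘ J))`: `v` is a Gauss point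
(`IndG`), `ev F̂ ε = A ev(cx a (F̂∘J)) ε`, `ev g ε = B A ev(cx a (F̂ ∘ J)) ε`, so
`ev (cx a g) ε = N ev(cx a (F̂∘J)) ε` with `N` block triangular (first row `(1,0,..,0)`, lower right block
`B A♭`), invertible; `ev (cx a (F̂∘J))` is onto `ℝ^{m+1}` (`Tng`), so `ev (cx a g)` is onto and `cx a g` is
independent at `v`. Algebraic independence of `(x, g)`: `(x, t)` is algebraically independent, so
is `(x - 0, t)`; take a generic `s` (`GenI`), a Gauss point over it (`GEx`), `v` its restriction: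
`Indep v (cx 0 t)` (`EmG`), hence `Indep v (cx 0 g)`, so `(x, g)` is algebraically independent
(`IndG`, `EmG` (2)). (`J` with values in `Fin R` is composed with `Fin.castAdd`.) -/
def St_NGen : Prop :=
  ∀ (K L : Type) [NontriviallyNormedField K] [IsUltrametricDist K] [Field L] [Algebra K L]
    (m : ℕ) (c : ℂ →+* K) (x y : L) (t : Fin m → Lˣ), NHyp c x y t →
    ∀ (R : ℕ) (F : Fin R → Lˣ), ∃ g : Fin m → Lˣ,
      AlgebraicIndependent K (Fin.cons x (fun i => (g i : L)) : Fin (m + 1) → L) ∧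
      ∀ (a : ℂ) (J : Fin m → Fin R) (v : Pt (algebraMap K L)),
        Indep v (cx c x a (F ∘ J)) → Indep v (cx c x a g)

/-- **NSpl** (embeddings and tubes). `theorem thm_NSpl : St_NBas → St_NTub → St_NSpl`.
Proof. Let `a = Q.1`, `b = Q.2`, `E₁ = K(x, g)`, purely transcendental over `K(x)`. `y ∉ E₁`: `y` is
algebraic over `K(x)`, which is algebraically closed in `E₁`, and `x³ + 1` is not a square in `K(x)`
(odd degree). So `Y² - (x³+1)` is the minimal polynomial of `y` over `E₁` and there is an automorphism `θ`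
of `Ω` over `E₁` with `θ y = -y` (`Ω` is normal over `E₁`). Let `v = pb incE X`; `log v(x-a) = τ < 0`. If
`v ∈ Tube Q` let `X' = X`, `θ' = id`. Otherwise `v(y + b) = v(x - a) < 1` (`NTub`); let `X' = X ∘ θ`,
`θ' = θ`; then `X'(y - b) = X(-y-b) < 1`. For `σ ∈ Emb K (cx a g)`: `σ y = ± y`, and
`pb σ X ∈ Tube Q` iff `X(σ y - b) < 1` iff `σ y = θ' y` (the values of `y - b` and `-y - b` cannot be both
`< 1` as `|2b| = 1`). `σ ↦ θ' ∘ σ` is a bijection of `EmbE` onto these `σ`, and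
`pb (θ'∘σ) X = pb σ X'`. (`X'` is again a Gauss point over `(τ,s)`: `θ` fixes `x - a` and `g`.) -/
def St_NSpl : Prop :=
  ∀ (K L : Type) [NontriviallyNormedField K] [IsUltrametricDist K] [Field L] [Algebra K L]
    (m : ℕ) (c : ℂ →+* K) (x y : L) (t : Fin m → Lˣ), NHyp c x y t →
    ∀ (g : Fin m → Lˣ), AlgebraicIndependent K (Fin.cons x (fun i => (g i : L)) : Fin (m + 1) → L) →
    ∀ Q, GoodE Q → ∀ (u : Fin (m + 1) → ℝ), u 0 < 0 →
    ∀ X : Pt (algebraMap K (AlgebraicClosure L)), Ov (cx c x Q.1 g) u X →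
    ∃ X' : Pt (algebraMap K (AlgebraicClosure L)), Ov (cx c x Q.1 g) u X' ∧
      pb (incE K L) X' ∈ Tube c x y Q ∧
      ∃ θ : (L →ₐ[K] AlgebraicClosure L) → (L →ₐ[K] AlgebraicClosure L),
        Set.BijOn θ (EmbE K x y g) {σ | σ ∈ Emb K (cx c x Q.1 g) ∧ pb σ X ∈ Tube c x y Q} ∧
        ∀ σ ∈ EmbE K x y g, pb (θ σ) X = pb σ X'

/-! ## C. Integration -/

/-- **NMea** (measurability). `theorem thm_NMea : St_EmF → St_Loc → St_BaJ → St_NMea`.
Proof. `BaJ` gives `Bal` for the functions `k' ↦ (s ↦ cw K (F∘J) F s (af k' s))`, `k' = rp J k`, and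
`Loc` a.e. equality with bounded measurable functions. Bound and sign: `0 ≤ cw ≤ dg K (F ∘ J)`. -/
def St_NMea : Prop :=
  ∀ (K L : Type) [NontriviallyNormedField K] [IsUltrametricDist K] [Field L] [Algebra K L]
    (n R : ℕ), 0 < n → TrLe K L n → (⊤ : IntermediateField K L).FG →
      (Set.range fun a : K => ‖a‖).Countable → ∀ (F : Fin R → Lˣ) (I J : Fin n → Fin R)
      (𝒦 : Finset (Matrix (Fin R) (Fin n) ℝ × (Fin R → ℝ))), Sheets K F I 𝒦 → Ref K F I J →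
      (∀ (s : Fin n → ℝ) (p : Fin R → ℝ), 0 ≤ cw K (F ∘ J) F s p ∧
        cw K (F ∘ J) F s p ≤ dg K (F ∘ J)) ∧
      ∀ k ∈ 𝒦, (k.1.submatrix J id).det ≠ 0 →
        AEStronglyMeasurable (fun s : Fin n → ℝ => cw K (F ∘ J) F s (af (rp J k) s)) volume

/-- **NTrG** (change of coordinates). `theorem thm_NTrG : St_EmF → St_GEx → St_NMea → St_Aeq →
St_BaJ → St_NTrG`. As `StJ` and `TrT` (`TDC/StJ.lean`, `TDC/TrT.lean`).
Proof. For `k ∈ 𝒦` with `a_k = k.1.submatrix J id` invertible: change of variables `s = L_k(u)`,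
`L_k(u) = af k u ∘ J`, `ds = |det a_k| du`, `af (rp J k) (L_k u) = af k u`, `k.1 = (rp J k).1 * a_k`, so
`θ(af k u)(k.1) = (det a_k)² θ(af (rp J k) s)((rp J k).1)`, and
`cw K (F∘J) F (L_k u) (af k u) = |det a_k| cw K (F∘I) F u (af k u)` a.e. (`Aeq`). So
`cw K (F∘I) F u (af k u) θ(af k u)(k.1) du = cw K (F∘J) F s (af (rp J k) s) θ(..)((rp J k).1) ds`.
Integrability of the right side: `NMea`, `θ` continuous in `p` and zero off a compact set. -/
def St_NTrG : Prop :=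
  ∀ (K L : Type) [NontriviallyNormedField K] [IsUltrametricDist K] [Field L] [Algebra K L]
    (n R : ℕ), 0 < n → TrLe K L n → (⊤ : IntermediateField K L).FG →
      (Set.range fun a : K => ‖a‖).Countable → ∀ (F : Fin R → Lˣ) (I J : Fin n → Fin R)
      (𝒦 : Finset (Matrix (Fin R) (Fin n) ℝ × (Fin R → ℝ))), Sheets K F I 𝒦 → Ref K F I J →
      ∀ (θ : (Fin R → ℝ) → Matrix (Fin R) (Fin n) ℝ → ℝ) (C : Set (Fin n → ℝ)),
      (∀ p A (a : Matrix (Fin n) (Fin n) ℝ), θ p (A * a) = a.det ^ 2 * θ p A) →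
      (∀ A, Continuous fun p => θ p A) → IsCompact C →
      (∀ k ∈ 𝒦, (k.1.submatrix J id).det ≠ 0 → ∀ s, s ∉ C →
        θ (af (rp J k) s) (rp J k).1 = 0) →
      (∀ k ∈ 𝒦, (k.1.submatrix J id).det ≠ 0 →
        (Integrable fun u => cw K (F ∘ I) F u (af k u) * θ (af k u) k.1) ∧
        (Integrable fun s => cw K (F ∘ J) F s (af (rp J k) s) *
          θ (af (rp J k) s) (rp J k).1) ∧
        ∫ u, cw K (F ∘ I) F u (af k u) * θ (af k u) k.1 =
          ∫ s, cw K (F ∘ J) F s (af (rp J k) s) * θ (af (rp J k) s) (rp J k).1)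

/-- **NCut** (Stokes with cut-off). `theorem thm_NCut : St_NBas → St_NTub → St_EmG → St_GNl →
St_StJ → St_NMea → St_NCut`.
Proof. `β_I(p) = chiC(p) (γ I (p ∘ a)).comp(· ∘ a)`: smooth (`ε > 0`), `β_I p = 0` unless
`p ∘ (a ∘ I) ∈ C_I`. `StJ` for `J = a ∘ I`, summed over `I`. By the product rule
`extDeriv β_I p (w_0..w_m) = chiC(p) extDeriv (γ I)(p∘a)(w∘a) +
∑_j (-1)^j (D chiC(p) w_j) γ I (p∘a)(w∘a without w_j)`
(`extDeriv_apply` / `extDeriv` of a product function · form), and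
`D chiC(p) w = ∑_Q Λ_Q (-(1/ε) ψ'(-p_x/ε) κ(p_y/ε) w_x + ψ(-p_x/ε) (1/ε) κ'(p_y/ε) w_y)`,
`p_x = p (ix Q)`, `p_y = p (iy Q)`. For almost all `u` (generic) and `k` with `cw ≠ 0` the position
`p = af k u` is `logv v F'` for a point `v` of `L`. There `ψ(-p_x/ε) κ'(p_y/ε) = 0`: if `p_x ≥ 0` then
`ψ = 0`; otherwise by `NTub` `p_y = 0`, `κ' (0) = 0` (`κ = 1` near `0`), or `p_y = p_x`: `ψ ≠ 0` means
`p_x/ε < -1/2`, and there `κ' = 0`. So
`0 = ∫ ∑_k cw (chiC cofD - ∑_Q Λ_Q (1/ε) ψ'(-p_x/ε) κ(p_y/ε) cofB_{ix Q})`. Both terms are integrable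
(`NMea` with `J = I`: `rp ζ k = k` as `k.1.submatrix ζ id = 1` by `Sheets`; the other factors are
continuous in `u` with compact support: for `I` with `det (k.1.submatrix (a∘I) id) ≠ 0` the
map `u ↦ af k u ∘ a ∘ I` is an affine isomorphism). -/
def St_NCut : Prop :=
  ∀ (K L : Type) [NontriviallyNormedField K] [IsUltrametricDist K] [Field L] [Algebra K L]
    (m : ℕ) (c : ℂ →+* K) (x y : L) (t : Fin m → Lˣ), NHyp c x y t →
    ∀ (R R' : ℕ) (F' : Fin R' → Lˣ) (a : Fin R → Fin R') (ζ : Fin (m + 1) → Fin R')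
      (𝒦 : Finset (Matrix (Fin R') (Fin (m + 1)) ℝ × (Fin R' → ℝ))), Sheets K F' ζ 𝒦 →
      (∀ I : Fin (m + 1) → Fin R, Ref K F' ζ (a ∘ I)) →
    ∀ (Λ : (ℂ × ℂ) →₀ ℝ) (ix iy : ℂ × ℂ → Fin R'),
      (∀ Q ∈ Λ.support, GoodE Q ∧ F' (ix Q) = xa c x Q.1 ∧ F' (iy Q) = yb c y Q.2) →
    ∀ γ : SF R (m + 1) m, γ.PC → ∀ ε : ℝ, 0 < ε →
      ∫ u, ∑ k ∈ 𝒦, cw K (F' ∘ ζ) F' u (af k u) * chiC Λ ix iy ε (af k u) *
          cofD γ a (af k u) k.1 =
      ∫ u, ∑ k ∈ 𝒦, cw K (F' ∘ ζ) F' u (af k u) *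
        ∑ Q ∈ Λ.support, Λ Q * (1 / ε * deriv psiC (-(af k u (ix Q)) / ε) *
          kapC (af k u (iy Q) / ε)) * cofB γ a (ix Q) (af k u) k.1

/-- **NE1** (the mass of the bump). `theorem thm_NE1 : St_NBas → St_NTub → St_NSpl → St_EmG → St_GNl →
St_GEx → St_BaJ → St_NTrG → St_NE1`.
Proof. `NTrG` with `θ(p)(A) = κ(p_{jy}) b(p ∘ J) det(A.submatrix J id)²` (`af (rp J k) s ∘ J = s`,
`(rp J k).1.submatrix J id = 1`; terms with `det a_k = 0` vanish). So the left side is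
`∫_s b(s) ∑_{k, det a_k ≠ 0} cw K (F'∘J) F' s (af (rp J k) s) κ((af (rp J k) s) jy) ds`. For almost all `s`
with `b(s) ≠ 0` (so `-2 < s_0 < -1`): by `BaJ` the `af (rp J k) s` are pairwise different and every
position `logv (pb σ X) F'`, `σ ∈ Emb K (F'∘J)`, `X` the chosen Gauss point over `s` (`GEx`), is
one of them; so the inner sum is `(dg/#Emb) ∑_{σ ∈ Emb} κ(log|σ(y+b)|_X)`, `dg = #Emb` (`NBas`), and
`κ(log|y+b|) = 1` on `Tube P`, `0` off it (`NTub`: `log|y+b| = s_0 < -1`). By `NSpl` (`g = t`) it is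
`#EmbE K x y t = 1` (`NBas`). -/
def St_NE1 : Prop :=
  ∀ (K L : Type) [NontriviallyNormedField K] [IsUltrametricDist K] [Field L] [Algebra K L]
    (m : ℕ) (c : ℂ →+* K) (x y : L) (t : Fin m → Lˣ), NHyp c x y t →
    ∀ (R' : ℕ) (F' : Fin R' → Lˣ) (ζ J : Fin (m + 1) → Fin R') (jy : Fin R')
      (𝒦 : Finset (Matrix (Fin R') (Fin (m + 1)) ℝ × (Fin R' → ℝ))), Sheets K F' ζ 𝒦 →
      Ref K F' ζ J → ∀ P, GoodE P → F' ∘ J = cx c x P.1 t → F' jy = yb c y P.2 →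
    ∀ b : (Fin (m + 1) → ℝ) → ℝ, SC b {u | -2 < u 0 ∧ u 0 < -1} →
      ∫ u, ∑ k ∈ 𝒦, cw K (F' ∘ ζ) F' u (af k u) * (kapC (af k u jy) * b (af k u ∘ J) *
        (k.1.submatrix J id).det ^ 2) = ∫ s, b s

/-- **NBd** (the limit lemma, real variables only). `theorem thm_NBd : St_NBd`.
Proof. `deriv psiC` is continuous, bounded by some `C₀` and zero off `[1/2, 1]`. Write `u = (τ, s)`; the
integrand vanishes unless `-ε ≤ τ ≤ -ε/2`. `G(τ, s) = ∑_i w_i ∑_I det(A_{i,I}) γ_I(af A_i u)(cols)`. For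
`ε ≤ 1`: if `det(A_{i,I}) ≠ 0` the condition `(af A_i (τ,s))∘I ∈ C_I` bounds `(τ,s)`, so the
integrand is zero unless `s` is in a fixed compact set `C'`, and `|G| ≤ B'` on `𝒢₁ ∩ {-1 ≤ τ ≤ 0}`.
Fubini on `ℝ × ℝ^m` (`MeasurableEquiv.piFinSuccAbove` / `volume_preserving_piFinSuccAbove`): for almost
all `s` almost all `τ` have `(τ,s) ∈ 𝒢₁`. By dominated convergence it is enough: for almost all
`s`, `(1/ε) ∫_{-ε}^{-ε/2} |G(τ,s)| dτ → 0`. Let `s ∈ 𝒢` and `s` not in any of the proper affine subspaces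
`{s : af A_i (0,s) = af A_j (0,s)}` (those pairs for which it is not everything). Group the `i` by
`p_i = af A_i (0,s)`. In one group (value `p`) the affine maps `s ↦ af A_i (0,s)` are equal, so all columns
`A_i e_{l+1} =: v_l` are equal, and
`Σ_i w_i Σ_I det(A_{i,I}) γ_I(p + τ A_i e_0)(v) = Σ_i w_i Σ_I det(A_{i,I}) γ_I(p)(v) + O(τ)`
(the `w_i` are bounded, `γ_I` is `C^1`), and `det(A_{i,I})` is linear in the column
`A_i e_0` (the other columns being fixed), so the main part is `Σ_I det((Σ_i w_i A_i e_0, v)_I) γ_I(p)(v) = 0`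
by hypothesis, for `-δ < τ < 0`, `(τ,s) ∈ 𝒢₁`. So `|G(τ,s)| ≤ C(s)|τ|` for small `|τ|`. -/
def St_NBd : Prop :=
  ∀ (R m : ℕ) (ι : Type) [Fintype ι] (A : ι → Matrix (Fin R) (Fin (m + 1)) ℝ × (Fin R → ℝ))
    (w : ι → (Fin (m + 1) → ℝ) → ℝ) (γ : SF R (m + 1) m) (B : ℝ)
    (𝒢₁ : Set (Fin (m + 1) → ℝ)) (𝒢 : Set (Fin m → ℝ)), γ.PC →
    (∀ i, AEStronglyMeasurable (w i) volume) → (∀ i, ∀ u ∈ 𝒢₁, |w i u| ≤ B) →
    volume 𝒢₁ᶜ = 0 → volume 𝒢ᶜ = 0 →
    (∀ s ∈ 𝒢, ∀ p : Fin R → ℝ, ∃ δ : ℝ, 0 < δ ∧ ∀ τ : ℝ, -δ < τ → τ < 0 →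
      (Fin.cons τ s : Fin (m + 1) → ℝ) ∈ 𝒢₁ → ∀ j : Fin R,
      ∑ᶠ i ∈ {i : ι | af (A i) (Fin.cons 0 s : Fin (m + 1) → ℝ) = p},
        w i (Fin.cons τ s : Fin (m + 1) → ℝ) * (A i).1 j 0 = 0) →
    Filter.Tendsto (fun ε : ℝ => ∫ u : Fin (m + 1) → ℝ, 1 / ε * deriv psiC (-(u 0) / ε) *
      ∑ i, w i u * ∑ I : Fin (m + 1) → Fin R, ((A i).1.submatrix I id).det *
        γ I (af (A i) u) (fun l => (A i).1.mulVec (Pi.single l.succ 1))) (𝓝[>] 0) (𝓝 0)

open Classical in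
/-- the weight of the sheet `rp J k` over the coordinates `F ∘ J` if it lies in the tube (the
`jy`-coordinate is identically zero) -/
noncomputable def wQ (K : Type) {L : Type} [NormedField K] [Field L] [Algebra K L] {R n : ℕ}
    (F : Fin R → Lˣ) (J : Fin n → Fin R) (jy : Fin R)
    (k : Matrix (Fin R) (Fin n) ℝ × (Fin R → ℝ)) (s : Fin n → ℝ) : ℝ :=
  if (∀ i, (rp J k).1 jy i = 0) ∧ (rp J k).2 jy = 0 then cw K (F ∘ J) F s (af (rp J k) s) else 0

/-- **NE2a** (the boundary term in the coordinates `(x - a, g)`). `theorem thm_NE2a : St_NBas →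
St_NTub → St_NTrG → St_NMea → St_EmG → St_EmF → St_GNl → St_GEx → St_Tng → St_IndG → St_NE2a`.
Proof. Let `J = Fin.cons jx ig`, so `F' ∘ J = cx c x Q.1 g`. (1) `NTrG` for `J` and
`θ(p)(A) = (1/ε) ψ'(-p_{jx}/ε) κ(p_{jy}/ε) cofB γ a jx p A`. `cofB` is multiplied by `(det a)²` under
`A ↦ A * a`: one `det` from the `(m+1) × (m+1)` minors, one from the alternating `(m+1)`-form
`dp_{jx} ∧ γ_I` evaluated on the columns (`∑_j (-1)^j A_{jx,j} γ_I(columns without j)` is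
`alternatizeUncurryFin` of `v ↦ v_{jx} γ_I`); continuous in `p` (`γ` and `psiC` smooth); compact support:
`(rp J k).1.submatrix J id = 1`; for `I` with `det ((rp J k).1.submatrix (a∘I) id) ≠ 0` the condition
`(af (rp J k) s) ∘ a ∘ I ∈ C_I` bounds `s`; the other `I` contribute `0`. (2) The terms with
`det (k.1.submatrix J id) = 0` are zero for almost all `u`: if `cw ≠ 0` there is `v` with
`logv v F' = af k u` and `δ_j ∈ Tan v` with `ev F' δ_j = k.1 e_j` (`Tng`, `Sheets`, uniqueness of the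
sheet for a.e. `u`, as in `TDC/INJ.lean`); if `cofB ≠ 0` some `(m+1)`-form `dp_{jx} ∧ γ_I`, in the
coordinates `(jx, a)`, is not zero on the vectors `k.1 e_j`, so some minor
`det (k.1.submatrix (Fin.cons jx (a ∘ J')) id)`, `J' : Fin m → Fin R`, is not `0` (an alternating form on
`ℝ^R × ℝ` is a combination of minors; minors not containing `jx`: such a term of `dp_{jx} ∧ γ_I`
does not occur). Hence `Indep v (cx c x Q.1 (F ∘ J'))`, so `Indep v (cx c x Q.1 g)` by the hypothesis on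
`g`, and `det (k.1.submatrix J id) ≠ 0` (`ev (F' ∘ J)` is onto, `Tng`). (3) Row `jx` of `(rp J k).1`
is `e_0` and `(af (rp J k) s) jx = s 0`, so `cofB γ a jx p A = ∑_I det(A_{a∘I}) γ_I(p∘a)(A e_1, …, A e_m)`
(only `j = 0`). For almost all `s` with `s 0 < 0` and all `ε`:
`cw ψ'(-s_0/ε) κ((af (rp J k) s)_{jy}/ε) = wQ ψ'(-s_0/ε)`: if `cw ≠ 0` the position is `logv v F'`, `v` a
point of `L`; `v ∈ Tube Q`: the `jy`-coordinate is `0` at `s`, hence identically (for a.e. `s`), `κ(0) = 1`;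
`v ∉ Tube Q`: it is `s_0 ≠ 0` (`NTub`), so `wQ = 0`, and `ψ'(-z/ε) κ(z/ε) = 0` for `z < 0` (`ψ'(w) ≠ 0` only for
`1/2 ≤ w ≤ 1`, where `κ(-w) = 0`). For `s 0 ≥ 0`: `ψ'(-s_0/ε) = 0`. -/
def St_NE2a : Prop :=
  ∀ (K L : Type) [NontriviallyNormedField K] [IsUltrametricDist K] [Field L] [Algebra K L]
    (m : ℕ) (c : ℂ →+* K) (x y : L) (t : Fin m → Lˣ), NHyp c x y t →
    ∀ (g : Fin m → Lˣ), AlgebraicIndependent K (Fin.cons x (fun i => (g i : L)) : Fin (m + 1) → L) →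
    ∀ (R : ℕ) (F : Fin R → Lˣ),
      (∀ (a : ℂ) (J : Fin m → Fin R) (v : Pt (algebraMap K L)),
        Indep v (cx c x a (F ∘ J)) → Indep v (cx c x a g)) →
      ∀ Q, GoodE Q →
      ∀ (R' : ℕ) (F' : Fin R' → Lˣ) (a : Fin R → Fin R') (ζ : Fin (m + 1) → Fin R')
        (jx jy : Fin R') (ig : Fin m → Fin R')
        (𝒦 : Finset (Matrix (Fin R') (Fin (m + 1)) ℝ × (Fin R' → ℝ))),
        F' ∘ a = F → F' ∘ ig = g → Sheets K F' ζ 𝒦 → F' jx = xa c x Q.1 → F' jy = yb c y Q.2 →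
        Ref K F' ζ (Fin.cons jx ig : Fin (m + 1) → Fin R') →
      ∀ γ : SF R (m + 1) m, γ.PC → ∀ ε : ℝ, 0 < ε →
        (Integrable fun u => ∑ k ∈ 𝒦, cw K (F' ∘ ζ) F' u (af k u) *
          ((1 / ε * deriv psiC (-(af k u jx) / ε) * kapC (af k u jy / ε)) *
            cofB γ a jx (af k u) k.1)) ∧
        ∫ u, ∑ k ∈ 𝒦, cw K (F' ∘ ζ) F' u (af k u) *
          ((1 / ε * deriv psiC (-(af k u jx) / ε) * kapC (af k u jy / ε)) *
            cofB γ a jx (af k u) k.1) =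
        ∫ s : Fin (m + 1) → ℝ, 1 / ε * deriv psiC (-(s 0) / ε) *
          ∑ k ∈ 𝒦 with (k.1.submatrix (Fin.cons jx ig : Fin (m + 1) → Fin R') id).det ≠ 0,
            wQ K F' (Fin.cons jx ig : Fin (m + 1) → Fin R') jy k s *
            ∑ I : Fin (m + 1) → Fin R,
              ((rp (Fin.cons jx ig : Fin (m + 1) → Fin R') k).1.submatrix (a ∘ I) id).det *
              γ I (af (rp (Fin.cons jx ig : Fin (m + 1) → Fin R') k) s ∘ a)
                (fun l => ((rp (Fin.cons jx ig : Fin (m + 1) → Fin R') k).1.mulVec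
                  (Pi.single l.succ 1)) ∘ a)

/-- **NE2** (the boundary term tends to zero). `theorem thm_NE2 : St_NBas → St_NTub → St_NSpl →
St_NBal → St_NBd → St_NE2a → St_NMea → St_EmG → St_EmF → St_GNl → St_GEx → St_BaJ → St_Fini →
St_NE2`.
Proof. `𝒪` from `NBal` for `(g, F)`. Write `J_Q = Fin.cons (ix Q) ig`. By `NE2a` (and linearity) the integral is
`∫ (1/ε) ψ'(-s_0/ε) ∑_{(Q,k)} w_{Q,k}(s) ∑_I …`, `w_{Q,k} = Λ_Q wQ`, the sum over the finite set `ι` of all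
`(Q, k)`, `Q ∈ supp Λ`, `k ∈ 𝒦`, `det (k.1.submatrix J_Q id) ≠ 0`. Apply `NBd` with `A_{Q,k}` = the rows `a` of
`rp J_Q k`, measurability and bound from `NMea`, and `𝒢₁` = the set of the `s` with, for all `Q ∈ supp Λ`:
`s` generic; the `af (rp J_Q k) s` (`k` as above) are pairwise different; every position
`logv (pb σ X) F'`, `σ ∈ Emb K (F' ∘ J_Q)`, `X` a Gauss point over `s`, is one of them (`BaJ`);
`𝒦 Q` := the finite set given by `Fini` for the tuple `Fin.append (cx c x Q.1 g) F` and the first `m+1`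
indices, restricted to the rows of `F`: if `(af (rp J_Q k) s) ∘ a = af k' s` with `k' ∈ 𝒦 Q` then
`(rows a of rp J_Q k) = k'` (true off a null set); the `jy`-coordinate of `af (rp J_Q k) s` is not `0`
unless identically. Hypothesis of `NBd` from `NBal`: let `s'` be in the `𝒢` of `NBal`, `p ∈ ℝ^R`, `τ < 0`
small, `(τ,s') ∈ 𝒢₁`; `X` the Gauss point over `(τ,s')` chosen in the definition of `cw K (F'∘J_Q)`
(`GEx`), `X_Q` the point `X'` of `NSpl`, `θ` the bijection. `w_{Q,k}(τ,s') =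
Λ_Q (dg/#Emb) #{σ ∈ Emb K (F'∘J_Q) : logv (pb σ X) F' = af (rp J_Q k)(τ,s')}` if the `jy`-coordinate
is identically `0`, that is (`NTub`) if these `pb σ X` are in `Tube Q`; `dg = #Emb` (`NBas`); so by
`NSpl` it is `Λ_Q #{σ ∈ EmbE : logv (pb σ X_Q) F' = af (rp J_Q k)(τ,s')}`, and every `σ ∈ EmbE` is on exactly one
`k`. As `(af (rp J_Q k) (τ,s'))∘a - (af (rp J_Q k) (0,s'))∘a = τ A_{Q,k} e_0`:
`τ ∑_{(Q,k) : (af (rp J_Q k)(0,s'))∘a = p} w_{Q,k}(τ,s') (A_{Q,k})_{j0} =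
∑_Q Λ_Q ∑_{σ ∈ T Q} (logv (pb σ X_Q) F j - p_j) = 0` with `T Q` as in `NBal`. -/
def St_NE2 : Prop :=
  ∀ (K L : Type) [NontriviallyNormedField K] [IsUltrametricDist K] [Field L] [Algebra K L]
    (m : ℕ) (c : ℂ →+* K) (x y : L) (t : Fin m → Lˣ), NHyp c x y t →
    ∀ (g : Fin m → Lˣ), AlgebraicIndependent K (Fin.cons x (fun i => (g i : L)) : Fin (m + 1) → L) →
    ∀ (R : ℕ) (F : Fin R → Lˣ),
      (∀ (a : ℂ) (J : Fin m → Fin R) (v : Pt (algebraMap K L)),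
        Indep v (cx c x a (F ∘ J)) → Indep v (cx c x a g)) →
      ∃ 𝒪 : Finset (ℂ × ℂ → ℤ), (∀ o ∈ 𝒪, IsDiv ((algebraMap K L).comp c) x y o) ∧
      ∀ Λ : (ℂ × ℂ) →₀ ℝ, (∀ Q ∈ Λ.support, GoodE Q) →
        (∀ o ∈ 𝒪, ∑ Q ∈ Λ.support, Λ Q * (o Q : ℝ) = 0) →
      ∀ (R' : ℕ) (F' : Fin R' → Lˣ) (a : Fin R → Fin R') (ζ : Fin (m + 1) → Fin R')
        (ix iy : ℂ × ℂ → Fin R') (ig : Fin m → Fin R')
        (𝒦 : Finset (Matrix (Fin R') (Fin (m + 1)) ℝ × (Fin R' → ℝ))),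
        F' ∘ a = F → F' ∘ ig = g → Sheets K F' ζ 𝒦 →
        (∀ Q ∈ Λ.support, F' (ix Q) = xa c x Q.1 ∧ F' (iy Q) = yb c y Q.2) →
        (∀ Q ∈ Λ.support, Ref K F' ζ (Fin.cons (ix Q) ig : Fin (m + 1) → Fin R')) →
      ∀ γ : SF R (m + 1) m, γ.PC →
        Filter.Tendsto (fun ε : ℝ => ∫ u, ∑ k ∈ 𝒦, cw K (F' ∘ ζ) F' u (af k u) *
          ∑ Q ∈ Λ.support, Λ Q * (1 / ε * deriv psiC (-(af k u (ix Q)) / ε) *
            kapC (af k u (iy Q) / ε)) * cofB γ a (ix Q) (af k u) k.1) (𝓝[>] 0) (𝓝 0)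

/-! ## D. The field-level theorem -/

/-- **NBmp** (the bump form). `theorem thm_NBmp : St_NBas → St_NTub → St_CSu → St_NBmp`.
Proof. `b` a smooth bump with integral `1` supported in the open set. The form is
`tf ![yb c y P.2] (cx c x P.1 t) κ₀ b` with `κ₀(z) = kapC (z 0)`: `= pull (Fin.append ![yb] (cx)) α`,
`α` = the `mono` form with coefficient `κ₀ b` in the last `m+1` coordinates (compare the proofs in
`TDC/WtoD.lean`, `TDC/StdF.lean`), properly supported, so `CSupp` (`CSu`) and `IsForm`.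
If `ω v ≠ 0` then `-2 < log|x-a| < -1`, and off `Tube P` `log|y+b| = log|x-a| < -1`, `κ₀ = 0`
(`NTub`); on `Tube P` `κ₀(log|y+b|) = κ₀(0) = 1`. -/
def St_NBmp : Prop :=
  ∀ (K L : Type) [NontriviallyNormedField K] [IsUltrametricDist K] [Field L] [Algebra K L]
    (m : ℕ) (c : ℂ →+* K) (x y : L) (t : Fin m → Lˣ), NHyp c x y t → ∀ P, GoodE P →
    ∃ (b : (Fin (m + 1) → ℝ) → ℝ) (ω : Fam (algebraMap K L) (m + 1) (m + 1)),
      SC b {u | -2 < u 0 ∧ u 0 < -1} ∧ ∫ u, b u = 1 ∧ IsForm ω ∧ CSupp ω ∧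
      (∀ v, v ∉ Tube c x y P → ω v = 0) ∧
      ∀ v ∈ Tube c x y P, ω v = std (algebraMap K L) (cx c x P.1 t) b v

/-- **NFld** (the field-level theorem).
`theorem thm_NFld : St_NBas → St_NTub → St_NLam → St_NBmp → St_Pair → St_NGen → St_NE2 → St_NE1 →
St_NCut → St_Gen → St_Fini → St_GNl → St_EmG → St_EmF → St_IndG → St_Tng → St_NFld`.
Proof. `S` from `NTub` (4) for `f`; `P` from `NLam` (with `M = L`); `b, ω` from `NBmp`. Suppose
`ω', η` as in the statement. `Pair` (for `η` and `ω - ω'`): `η = pull F γ`, `ω - ω' = pull F γ.dd`,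
`γ.CC`, so `γ.PC`. `g` from `NGen` for `F`; `𝒪` from `NE2`; `Λ` from `NLam`. Let `F''` be the
concatenation of `F`, the units `xa c x Q.1`, `yb c y Q.2` for `Q ∈ supp Λ ∪ {P}`, `g`, `t`;
`g₀` from `Gen` for `F''`; `F' = Fin.append F'' g₀`, `ζ` the last `m+1` indices; `𝒦` from `Fini`;
`Ref K F' ζ J` for all `J` with values in the first part. (`P ∈ supp Λ` as `Λ P = 1`.) `NCut`:
`LHS(ε) = RHS(ε)`, `RHS(ε) → 0` (`NE2`). Claim: for `0 < ε ≤ 1`
`LHS(ε) = ∫ ∑_k cw κ(p_{iy P}) b(p ∘ J) det(..)² = ∫ b = 1` (`NE1`, `J = Fin.cons (ix P) it`): for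
almost all `u` (generic, the `af k u` pairwise different) and `cw ≠ 0`: there is `v` with
`logv v F' = af k u`, `Indep v (F'∘ζ)`, `δ_j ∈ Tan v`, `ev F' δ_j = k.1 e_j` (see `INJ`,
`TDC/INJ.lean`), and `cofD γ a (af k u) k.1 = (pull F γ.dd) v δ δ = (ω - ω') v δ δ`. If `v` is in no
`Tube Q`, `Q ∈ supp Λ`, then `chiC (af k u) = 0` (`NTub`: `log|x-a| ≥ 0`, `psiC = 0`, or
`log|y+b| = log|x-a| < 0` and `psiC (-z/ε) kapC (z/ε) = 0` for `z < 0`) and `v ∉ Tube P`: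
both sides are `0` (the right side: `b ≠ 0` requires `-2 < log|x-a| < -1`, then `κ = 0`). If
`v ∈ Tube Q`: `ω' v = 0` by the choice of `S` (`Q.1 ∉ S`, no `f ∘ J` is independent); `chiC` has only
the term `Q` (tubes are disjoint; for the others the factor is `0` as before). If `Q ≠ P`:
`ω v = 0` and both sides are zero. If `Q = P`: `Λ P = 1`, `kapC (0) = 1`, and
`ω v δ δ = b(log|cx|) det²`, non-zero only for `log|x-a| < -1`, where `psiC = 1` (`ε ≤ 1`). So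
`1 = LHS(ε) → 0`, contradiction. -/
def St_NFld : Prop :=
  ∀ (K L : Type) [NontriviallyNormedField K] [IsUltrametricDist K] [Field L] [Algebra K L]
    (m : ℕ) (c : ℂ →+* K) (x y : L) (t : Fin m → Lˣ), NHyp c x y t →
    ∀ (r : ℕ) (f : Fin r → Lˣ), ∃ ω : Fam (algebraMap K L) (m + 1) (m + 1),
      IsForm ω ∧ CSupp ω ∧
      ∀ (ω' : Fam (algebraMap K L) (m + 1) (m + 1)) (η : Fam (algebraMap K L) (m + 1) m),
        (∀ v, (∀ J : Fin (m + 1) → Fin r, ¬ Indep v (f ∘ J)) → ω' v = 0) →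
        CSupp ω' → CSupp η → IsDbar η (ω - ω') → False

end TDC
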