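import Pool.Agent.TDC.StNs
import Pool.Agent.TDC.StN2

/-! # TDN, module NsFld: the field level statement in the form used on the scheme side -/

namespace TDC

theorem thm_NsFld (h : St_NFld) : St_NsFld := by
  intro K L _ _ _ _ c m x y t r f hcount hres hE
  exact h K L m c x y t ⟨hres, hE, hcount⟩ r f

end TDC
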