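import Pool.Agent.TDC.StNs

/-!
# TDN, scheme side: module NsPro (the tropicalization map of a closed embedding is proper)
-/

set_option autoImplicit false

namespace TDC

open scoped Topology
open MeasureTheory AlgebraicGeometry CategoryTheory

section scheme

variable {K : Type} [NormedField K]

private theorem NsPro_res {X : Scheme.{0}} {U V : X.Opens} (hVU : V ≤ U) (ξ : X) (h : ξ ∈ V)
    (f : Γ(X, U)) :
    X.evaluation V ξ h (X.presheaf.map (homOfLE hVU).op f) = X.evaluation U ξ (hVU h) f := by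
  have e : X.presheaf.map (homOfLE hVU).op ≫ X.evaluation V ξ h = X.evaluation U ξ (hVU h) := by
    rw [← X.germ_residue ξ h, ← X.germ_residue ξ (hVU h), ← Category.assoc,
      X.presheaf.germ_res (homOfLE hVU) ξ h]
  exact congrArg (fun g => g.hom f) e

private theorem NsPro_const {X : Scheme.{0}} {s : X ⟶ Spec (.of K)} (U : X.Opens) (ξ : X)
    (h : ξ ∈ U) (a : K) : X.evaluation U ξ h (kΓ s U a) = kmap s ξ a :=
  NsPro_res (le_top : U ≤ ⊤) ξ h _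

private theorem NsPro_k {X Y : Scheme.{0}} (s' : Y ⟶ Spec (.of K)) (φ : X ⟶ Y) (U : Y.Opens)
    (a : K) : (φ.app U).hom (kΓ s' U a) = kΓ (φ ≫ s') (φ ⁻¹ᵁ U) a := by
  have h2 := φ.naturality (homOfLE (le_top : U ≤ ⊤)).op
  have h3 := congrArg (fun f => f.hom (s'.appTop.hom ((Scheme.ΓSpecIso (.of K)).inv.hom a))) h2
  have h4 : (φ ≫ s').appTop = s'.appTop ≫ φ.appTop := rfl
  unfold kΓ
  rw [h4]
  exact h3

/-- a function of the affine toric variety is bounded where the characters are bounded -/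
private theorem NsPro_le {N : ℕ} {Δ : Fan N} {X Y : Scheme.{0}} {s' : Y ⟶ Spec (.of K)}
    (τ : Toric Δ s') (φ : X ⟶ Y) (i : Δ.ι) (x : An (φ ≫ s')) (h : x.1 ∈ φ ⁻¹ᵁ τ.U i)
    (c : Δ.dual i → ℝ)
    (hc : ∀ m : Δ.dual i, absA x h ((τ.pull φ).χ i (Multiplicative.ofAdd m)) ≤ c m)
    (a : Δ.dual i →₀ K) :
    absA x h ((φ.app (τ.U i)).hom
      (a.sum fun m b => kΓ s' (τ.U i) b * τ.χ i (Multiplicative.ofAdd m))) ≤
      a.sum fun m b => ‖b‖ * c m := by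
  unfold Finsupp.sum
  rw [map_sum]
  unfold absA
  have e : X.evaluation (φ ⁻¹ᵁ τ.U i) x.1 h
      (∑ m ∈ a.support, (φ.app (τ.U i)).hom
        (kΓ s' (τ.U i) (a m) * τ.χ i (Multiplicative.ofAdd m))) =
      ∑ m ∈ a.support, kmap (φ ≫ s') x.1 (a m) *
        X.evaluation (φ ⁻¹ᵁ τ.U i) x.1 h ((τ.pull φ).χ i (Multiplicative.ofAdd m)) := by
    show (X.evaluation (φ ⁻¹ᵁ τ.U i) x.1 h).hom _ = _
    rw [map_sum]
    refine Finset.sum_congr rfl fun m _ => ?_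
    rw [map_mul, map_mul, NsPro_k]
    exact congrArg₂ (fun x y => x * y) (NsPro_const _ _ h (a m)) rfl
  rw [e]
  refine (x.2.v.sum_le _ _).trans (Finset.sum_le_sum fun m _ => ?_)
  rw [map_mul, x.2.ext]
  exact mul_le_mul_of_nonneg_left (hc m) (norm_nonneg _)

end scheme

/-- finitely many inequalities imply all -/
private theorem NsPro_bd {N : ℕ} {Δ : Fan N} (hV : St_FVal) (hF : St_FFace) (i : Δ.ι)
    (G : Finset (Fin N → ℤ)) (hG : AddSubmonoid.closure (G : Set (Fin N → ℤ)) = Δ.dual i)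
    (c₀ : (Fin N → ℤ) → ℝ) (m : Fin N → ℤ) (hm : m ∈ Δ.dual i) :
    ∃ C : ℝ, ∀ z : NR Δ, Δ.cone z.i ⊆ Δ.cone i → (∀ g ∈ G, z.val g < c₀ g) → z.val m ≤ C := by
  rw [← hG] at hm
  induction hm using AddSubmonoid.closure_induction with
  | mem g hg => exact ⟨c₀ g, fun z _ hz => (hz g hg).le⟩
  | zero => exact ⟨1, fun z _ _ => (((hV N Δ).1 z).1).le⟩
  | add a b ha' hb' ha hb =>
    obtain ⟨A, hA⟩ := ha
    obtain ⟨B, hB⟩ := hb
    refine ⟨A * B, fun z hzi hz => ?_⟩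
    have hle := ((hF N).1 (Δ.gens z.i) (Δ.gens i) hzi).1
    rw [hG] at ha' hb'
    obtain ⟨-, h0, hmul, -, -⟩ := (hV N Δ).1 z
    rw [hmul a (hle ha') b (hle hb')]
    have h1 := hA z hzi hz
    have h2 := hB z hzi hz
    exact mul_le_mul h1 h2 (h0 b) ((h0 a).trans h1)

theorem thm_NsPro (hT : St_NsTro) (hA : St_GAff) (hG : St_FGord) (hV : St_FVal)
    (hF : St_FFace) : St_NsPro := by
  classical
  intro N Δ K _ X Y s s' τ φ hs hφ T hTr C hC
  subst hs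
  obtain ⟨-, -, hT3⟩ := hT N Δ K X (φ ≫ s') (τ.pull φ)
  obtain ⟨-, hmem, hval⟩ := hT3 T hTr
  -- part (b)
  have hb : ∀ (i : Δ.ι) (c : Δ.dual i → ℝ), ∃ C' : Set (An (φ ≫ s')), IsCompact C' ∧
      ∀ x : An (φ ≫ s'), Δ.cone (T x).i ⊆ Δ.cone i → (∀ m : Δ.dual i, (T x).val m ≤ c m) →
        x ∈ C' := by
    intro i c
    have haff : IsAffineOpen (φ ⁻¹ᵁ τ.U i) := (τ.aff i).preimage φ
    have hsur : Function.Surjective (φ.app (τ.U i)) := φ.app_surjective (τ.U i) (τ.aff i)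
    have hex : ∀ g : Γ(X, φ ⁻¹ᵁ τ.U i), ∃ a : Δ.dual i →₀ K, (φ.app (τ.U i)).hom
        (a.sum fun m b => kΓ s' (τ.U i) b * τ.χ i (Multiplicative.ofAdd m)) = g := by
      intro g
      obtain ⟨f, rfl⟩ := hsur g
      obtain ⟨a, ha⟩ := (τ.basis i).2 f
      refine ⟨a, ?_⟩
      have ha' : (a.sum fun m b => kΓ s' (τ.U i) b * τ.χ i (Multiplicative.ofAdd m)) = f := ha
      rw [ha']
    choose a ha using hex
    refine ⟨_, hA K X (φ ≫ s') (φ ⁻¹ᵁ τ.U i) haff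
      (fun g => (a g).sum fun m b => ‖b‖ * c m), fun x hx hxc => ?_⟩
    have hxU : x.1 ∈ φ ⁻¹ᵁ τ.U i := (hmem x i).2 hx
    refine ⟨hxU, fun g => ?_⟩
    have h1 := NsPro_le τ φ i x hxU c
      (fun m => (hval x i hxU m).le.trans (hxc m)) (a g)
    rw [ha g] at h1
    exact h1
  -- part (a)
  have hloc : ∀ y : NR Δ, ∃ (O : Set (NR Δ)) (C' : Set (An (φ ≫ s'))), O ∈ 𝓝 y ∧
      IsCompact C' ∧ T ⁻¹' O ⊆ C' := by
    intro y
    obtain ⟨G, hGd⟩ := hG N (Δ.gens y.i)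
    have hGm : ∀ g ∈ G, g ∈ Δ.dual y.i := by
      intro g hg
      have h : g ∈ AddSubmonoid.closure (G : Set (Fin N → ℤ)) := AddSubmonoid.subset_closure hg
      rw [hGd] at h
      exact h
    have hbd : ∀ m : Δ.dual y.i, ∃ B : ℝ, ∀ z : NR Δ, Δ.cone z.i ⊆ Δ.cone y.i →
        (∀ g ∈ G, z.val g < y.val g + 1) → z.val m ≤ B := fun m =>
      NsPro_bd hV hF y.i G hGd (fun g => y.val g + 1) m m.2
    choose c hc using hbd
    obtain ⟨C', hC', hin⟩ := hb y.i c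
    refine ⟨{z | Δ.cone z.i ⊆ Δ.cone y.i ∧ ∀ g ∈ G, z.val g < y.val g + 1}, C', ?_, hC', ?_⟩
    · have h1 : ∀ᶠ z in 𝓝 y, Δ.cone z.i ⊆ Δ.cone y.i :=
        ((hV N Δ).2.2.1 y.i).mem_nhds (Set.Subset.refl _)
      have h2 : ∀ g ∈ G, ∀ᶠ z in 𝓝 y, z.val g < y.val g + 1 := by
        intro g hg
        have ho : IsOpen {z : NR Δ | Δ.cone z.i ⊆ Δ.cone y.i ∧ -1 < z.val g ∧
            z.val g < y.val g + 1} :=
          TopologicalSpace.isOpen_generateFrom_of_mem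
            ⟨y.i, ⟨g, hGm g hg⟩, -1, y.val g + 1, rfl⟩
        have h0 : 0 ≤ y.val g := ((hV N Δ).1 y).2.1 g
        have hy : y ∈ {z : NR Δ | Δ.cone z.i ⊆ Δ.cone y.i ∧ -1 < z.val g ∧
            z.val g < y.val g + 1} := ⟨Set.Subset.refl _, by linarith, by linarith⟩
        filter_upwards [ho.mem_nhds hy] with z hz
        exact hz.2.2
      exact h1.and ((Filter.eventually_all_finset G).2 h2)
    · rintro x ⟨hx1, hx2⟩
      exact hin x hx1 fun m => hc m (T x) hx1 hx2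
  choose O C' hO hC' hsub using hloc
  obtain ⟨t, -, ht⟩ := hC.elim_nhds_subcover O fun y _ => hO y
  refine ⟨⋃ y ∈ t, C' y, t.isCompact_biUnion fun y _ => hC' y, fun x hx => ?_⟩
  obtain ⟨y, hy, hxy⟩ := Set.mem_iUnion₂.1 (ht hx)
  exact Set.mem_iUnion₂.2 ⟨y, hy, hsub y hxy⟩

end TDC
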