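import Pool.Agent.TDC.StNs

/-!
# TDN, module NsRed: reduction to the field level
-/

namespace TDC

open scoped Topology
open MeasureTheory AlgebraicGeometry CategoryTheory

theorem thm_NsRed (hNFld : St_NsFld) (hPul : St_NsPul) (hVan : St_NsVan) (hTrl : St_NsTrl)
    (hUpA : St_UpA) (hDnA : St_DnA) (hDnD : St_DnD) (hExtE : St_ExtE) (hClos : St_Clos) :
    St_NsRed := by
  intro K _ _ X _ s c m x y t hcount hres hE N Δ μ T hT
  let _ : Algebra K (X.residueField (genericPoint X)) := (kmap s (genericPoint X)).toAlgebra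
  obtain ⟨r, f, hf⟩ := hVan N Δ K X s μ T hT (m + 1)
  have htr : TrLe K (X.residueField (genericPoint X)) (m + 1) :=
    (hTrl K (X.residueField (genericPoint X)) m x y t hE).1
  obtain ⟨w₀, hw1, hw2, hw3⟩ : ∃ w₀ : Fam (kmap s (genericPoint X)) (m + 1) (m + 1),
      IsForm w₀ ∧ CSupp w₀ ∧
        ∀ (w' : Fam (kmap s (genericPoint X)) (m + 1) (m + 1))
          (η : Fam (kmap s (genericPoint X)) (m + 1) m),
          (∀ v, (∀ J : Fin (m + 1) → Fin r, ¬ Indep v (f ∘ J)) → w' v = 0) → CSupp w' →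
          CSupp η → IsDbar η (w₀ - w') → False :=
    hNFld K (X.residueField (genericPoint X)) c m x y t r f hcount hres hE
  obtain ⟨w, hw⟩ := hExtE K X s (m + 1) (m + 1)
    (w₀ : Fam (kmap s (genericPoint X)) (m + 1) (m + 1))
  obtain ⟨ha, hac, -⟩ := (hUpA K X s (m + 1) htr).1 (m + 1) _ w hw hw1 hw2
  refine ⟨w, hClos K X s (m + 1) htr w ha, hac, ?_⟩
  intro ω η hω hcω hcη hD
  have hη : IsFormA η := by
    intro z
    obtain ⟨U, R, F, α, hα, hev⟩ := hD z
    refine ⟨U, R, F, α, hα, hev.mono ?_⟩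
    rintro u ⟨h, h7, _⟩
    exact ⟨h, h7⟩
  have hform : IsFormA (pullR μ T hT (m + 1) (m + 1) ω) :=
    (hPul N Δ K X s μ T hT (m + 1) (m + 1)).1 ω hω
  have hdb := hDnD K X s (m + 1) m η _ hD
  obtain ⟨w', hw'⟩ : ∃ w' : Fam (kmap s (genericPoint X)) (m + 1) (m + 1),
      w' = fun v => pullR μ T hT (m + 1) (m + 1) ω (gen s v) := ⟨_, rfl⟩
  refine hw3 w' (fun v => η (gen s v)) ?_ ?_ ?_ ?_
  · intro v hv
    rw [hw']
    exact hf (m + 1) ω hω v hv
  · rw [hw']
    exact (hDnA K X s (m + 1) (m + 1) htr _ hform).2.2.2.2 hcω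
  · exact (hDnA K X s (m + 1) m htr η hη).2.2.2.2 hcη
  · have h8 : (fun v => (w - pullR μ T hT (m + 1) (m + 1) ω) (gen s v) :
        Fam (kmap s (genericPoint X)) (m + 1) (m + 1)) = w₀ - w' := by
      funext v
      rw [hw']
      exact congrArg (fun z => z - pullR μ T hT (m + 1) (m + 1) ω (gen s v)) (hw.1 v)
    rw [h8] at hdb
    exact hdb

end TDC
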