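import Pool.Agent.TDC.StNs

/-!
# TDN: module NsTrl, transcendence degree and finite generation of the function field
-/

set_option autoImplicit false

namespace TDC

/-- **NsTrl**. The function field of `E × 𝔸^m` has transcendence degree at most `m + 1` and is
finitely generated. -/
theorem thm_NsTrl : St_NsTrl := by
  intro K L _ _ _ m x y t h
  obtain ⟨z, hz⟩ : ∃ z : Fin (m + 1) → L, z = Fin.cons x (fun i => (t i : L)) := ⟨_, rfl⟩
  have hx : x ∈ Set.range z := ⟨0, by rw [hz, Fin.cons_zero]⟩
  have ht : ∀ i, (t i : L) ∈ Set.range z := fun i => ⟨i.succ, by rw [hz, Fin.cons_succ]⟩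
  have hbase : ∀ w ∈ Set.range z, IsAlgebraic (Algebra.adjoin K (Set.range z)) w := fun w hw =>
    isAlgebraic_algebraMap
      (⟨w, Algebra.subset_adjoin hw⟩ : Algebra.adjoin K (Set.range z))
  have halg0 : ∀ r ∈ Algebra.adjoin K (insert x (insert y (Set.range fun i => (t i : L)))),
      IsAlgebraic (Algebra.adjoin K (Set.range z)) r := by
    intro r hr
    induction hr using Algebra.adjoin_induction with
    | mem w hw =>
      rcases hw with hw | hw | ⟨i, hw⟩
      · rw [hw]
        exact hbase x hx
      · rw [hw]
        have h1 : IsAlgebraic (Algebra.adjoin K (Set.range z)) (y ^ 2) := by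
          rw [h.eq]
          exact ((hbase x hx).pow 3).add isAlgebraic_one
        exact IsAlgebraic.of_pow (by norm_num) h1
      · rw [← hw]
        exact hbase _ (ht i)
    | algebraMap w =>
      exact isAlgebraic_algebraMap
        (algebraMap K (Algebra.adjoin K (Set.range z)) w)
    | add a b _ _ ha hb => exact ha.add hb
    | mul a b _ _ ha hb => exact ha.mul hb
  have halg : Algebra.IsAlgebraic (Algebra.adjoin K (Set.range z)) L := by
    refine ⟨fun f => ?_⟩
    have hf : f ∈ IntermediateField.adjoin K
        (insert x (insert y (Set.range fun i => (t i : L)))) := by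
      rw [h.gen]
      exact IntermediateField.mem_top
    obtain ⟨r, hr, s, hs, hrs⟩ := IntermediateField.mem_adjoin_iff_div.1 hf
    rw [hrs, div_eq_mul_inv]
    exact (halg0 r hr).mul (halg0 s hs).inv
  refine ⟨?_, ?_⟩
  · intro g hg
    have h1 := hg.cardinalMk_le_trdeg
    have h2 := Algebra.IsAlgebraic.trdeg_le_cardinalMk K (Set.range z)
    have h3 : Cardinal.mk (Set.range z) ≤ Cardinal.mk (Fin (m + 1)) := Cardinal.mk_range_le
    have h4 := (h1.trans h2).trans h3
    rw [Cardinal.mk_fin, Cardinal.mk_fin] at h4
    have h5 : m + 1 + 1 ≤ m + 1 := by exact_mod_cast h4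
    omega
  · rw [← h.gen]
    exact IntermediateField.fg_adjoin_of_finite (((Set.finite_range _).insert y).insert x)

end TDC
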