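import Pool.Agent.TDC.StNs

/-!
# TDC: module NsVan, vanishing of pulled back superforms at dependent points
-/

set_option autoImplicit false

namespace TDC

open scoped Topology
open AlgebraicGeometry CategoryTheory

section NsVan

/-- multilinear expansion of a determinant whose columns are combinations of given columns -/
private theorem NsVan_det {n r : ℕ} (A : Fin n → Fin r → ℝ) (B : Fin n → Fin r → ℝ)
    (h : ∀ J : Fin n → Fin r, (Matrix.of fun k l => A k (J l)).det = 0) :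
    (Matrix.of fun k l => ∑ j, B l j * A k j).det = 0 := by
  classical
  rw [← Matrix.det_transpose]
  have h1 : (Matrix.of fun k l => ∑ j, B l j * A k j).transpose.det =
      Matrix.detRowAlternating (R := ℝ) (n := Fin n)
        (fun l => ∑ j, B l j • fun k => A k j) := by
    show Matrix.det _ = Matrix.det _
    refine congrArg Matrix.det ?_
    ext l k
    show ∑ j, B l j * A k j = (∑ j, B l j • fun k => A k j) k
    rw [Finset.sum_apply]
    rfl
  rw [h1]
  have h2 := (Matrix.detRowAlternating (R := ℝ) (n := Fin n)).toMultilinearMap.map_sum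
    (fun (l : Fin n) (j : Fin r) => B l j • fun k => A k j)
  refine h2.trans (Finset.sum_eq_zero fun J _ => ?_)
  have h3 := (Matrix.detRowAlternating (R := ℝ) (n := Fin n)).toMultilinearMap.map_smul_univ
    (fun l => B l (J l)) (fun l k => A k (J l))
  refine h3.trans ?_
  have h4 : (Matrix.detRowAlternating (R := ℝ) (n := Fin n)).toMultilinearMap
      (fun l k => A k (J l)) = (Matrix.of fun k l => A k (J l)).det := by
    rw [← Matrix.det_transpose]
    rfl
  rw [h4, h J, smul_zero]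

variable {K : Type} [NormedField K] {X : Scheme.{0}} {s : X ⟶ Spec (.of K)}
variable {N : ℕ} {Δ : Fan N}

private theorem NsVan_evm (μ : TorMap Δ X) (x : An s) {i i₀ : Δ.ι} (hi : i = i₀)
    (h : x.1 ∈ μ.U i) (h₀ : x.1 ∈ μ.U i₀) (δ : Tan x.2) {r : ℕ} (m : Fin r → Δ.perp i₀)
    (B : Fin r → ℤ) (a : Fin N → ℤ) (ha : ∑ j, B j • (m j : Fin N → ℤ) = a) :
    evm (tanM μ x h δ) a = ∑ j, (B j : ℝ) * δ.1 (Additive.ofMul
      (Units.map (X.evaluation (μ.U i₀) x.1 h₀).hom.toMonoidHom
        (μ.un i₀ (Multiplicative.ofAdd (m j))))) := by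
  subst hi
  have h1 : ((∑ j, B j • m j : Δ.perp i) : Fin N → ℤ) = a := by
    rw [← ha]
    rw [AddSubgroup.val_finsetSum]
    rfl
  have h2 : a ∈ Δ.perp i := by
    rw [← h1]
    exact (∑ j, B j • m j : Δ.perp i).2
  have h3 : evm (tanM μ x h δ) a = tanM μ x h δ ⟨a, h2⟩ := dif_pos h2
  have h4 : (⟨a, h2⟩ : Δ.perp i) = ∑ j, B j • m j := Subtype.ext h1.symm
  rw [h3, h4, map_sum]
  refine Finset.sum_congr rfl fun j _ => ?_
  rw [map_zsmul, zsmul_eq_mul]
  rfl

/-- **NsVan** -/
theorem thm_NsVan : St_NsTro → St_DetZ → St_NsVan := by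
  intro hTro hDet N Δ K _ X _ s μ T hT n
  classical
  by_cases hne : Nonempty (Pt (kmap s (genericPoint X)))
  swap
  · exact ⟨0, Fin.elim0, fun q ω _ v => absurd ⟨v⟩ hne⟩
  obtain ⟨v₀⟩ := hne
  obtain ⟨-, -, h3⟩ := hTro N Δ K X s μ
  obtain ⟨-, hmem, -⟩ := h3 T hT
  have hidx : ∀ v, (T (gen s v)).i = (T (gen s v₀)).i := by
    intro v
    apply Δ.inj
    apply Set.Subset.antisymm
    · exact (hmem (gen s v) _).1 (hT.mem (gen s v₀))
    · exact (hmem (gen s v₀) _).1 (hT.mem (gen s v))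
  have hU : genericPoint X ∈ μ.U (T (gen s v₀)).i := hT.mem (gen s v₀)
  generalize (T (gen s v₀)).i = i₀ at hidx hU
  obtain ⟨r, m, hm⟩ : ∃ (r : ℕ) (m : Fin r → Δ.perp i₀), ∀ a ∈ Δ.perp i₀,
      ∃ B : Fin r → ℤ, ∑ j, B j • (m j : Fin N → ℤ) = a := by
    obtain ⟨r, m, hm⟩ := Submodule.fg_iff_exists_fin_generating_family.1
      (IsNoetherian.noetherian (AddSubgroup.toIntSubmodule (Δ.perp i₀)))
    refine ⟨r, fun j => ⟨m j, ?_⟩, ?_⟩
    · have h1 : m j ∈ AddSubgroup.toIntSubmodule (Δ.perp i₀) := by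
        rw [← hm]
        exact Submodule.subset_span ⟨j, rfl⟩
      exact h1
    · intro a ha
      have h1 : a ∈ AddSubgroup.toIntSubmodule (Δ.perp i₀) := ha
      rw [← hm] at h1
      exact (Submodule.mem_span_range_iff_exists_fun ℤ).1 h1
  refine ⟨r, fun j => Units.map (X.evaluation (μ.U i₀) (genericPoint X) hU).hom.toMonoidHom
    (μ.un i₀ (Multiplicative.ofAdd (m j))), ?_⟩
  intro q ω hω v hv
  obtain ⟨R, F, α, hF, -, hev⟩ := hω (T (gen s v)) ⟨gen s v, rfl⟩
  have hz := hev.self_of_nhds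
  funext δ ε
  have h5 := hz.2 ⟨dT μ T hT n q ⟨gen s v, δ, ε⟩, Set.mem_range_self _⟩ rfl
  have h6 : pullR μ T hT n q ω (gen s v) δ ε =
      pullT (T (gen s v)) F α (fun k => tanM μ (gen s v) (hT.mem (gen s v)) (δ k))
        (fun k => tanM μ (gen s v) (hT.mem (gen s v)) (ε k)) := h5
  rw [h6]
  show ∑ I : Fin n → Fin R, _ = _
  refine Finset.sum_eq_zero fun I _ => ?_
  have hB : ∀ l, ∃ B : Fin r → ℤ, ∑ j, B j • (m j : Fin N → ℤ) = F l := by
    intro l
    refine hm (F l) ?_
    rw [← hidx v]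
    exact hF l
  choose B hB using hB
  have h7 : (Matrix.of fun k l =>
      evm (tanM μ (gen s v) (hT.mem (gen s v)) (δ k)) (F (I l))).det = 0 := by
    have h8 := NsVan_det (fun (k : Fin n) (j : Fin r) => (δ k).1 (Additive.ofMul
      (Units.map (X.evaluation (μ.U i₀) (genericPoint X) hU).hom.toMonoidHom
        (μ.un i₀ (Multiplicative.ofAdd (m j)))))) (fun l j => (B (I l) j : ℝ))
      (fun J => hDet K _ (kmap s (genericPoint X)) n v _ (hv J) δ)
    refine Eq.trans (congrArg Matrix.det ?_) h8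
    ext k l
    exact NsVan_evm μ (gen s v) (hidx v) (hT.mem (gen s v)) hU (δ k) m (B (I l)) (F (I l))
      (hB (I l))
  rw [h7, zero_mul]

end NsVan

end TDC
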