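import Pool.Agent.TDC.All
import Pool.Agent.TDC.NAsy
import Pool.Agent.TDC.NBal
import Pool.Agent.TDC.NBas
import Pool.Agent.TDC.NBd
import Pool.Agent.TDC.NBmp
import Pool.Agent.TDC.NCut
import Pool.Agent.TDC.NE1
import Pool.Agent.TDC.NE2
import Pool.Agent.TDC.NE2a
import Pool.Agent.TDC.NFUn
import Pool.Agent.TDC.NFld
import Pool.Agent.TDC.NGS
import Pool.Agent.TDC.NGen
import Pool.Agent.TDC.NInd
import Pool.Agent.TDC.NKac
import Pool.Agent.TDC.NLam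
import Pool.Agent.TDC.NMea
import Pool.Agent.TDC.NPol
import Pool.Agent.TDC.NPsi
import Pool.Agent.TDC.NSch
import Pool.Agent.TDC.NSpl
import Pool.Agent.TDC.NSub
import Pool.Agent.TDC.NTrG
import Pool.Agent.TDC.NTub
import Pool.Agent.TDC.NVan
import Pool.Agent.TDC.NaAsy
import Pool.Agent.TDC.NaDer
import Pool.Agent.TDC.NaGrp
import Pool.Agent.TDC.NaKer
import Pool.Agent.TDC.NaLam
import Pool.Agent.TDC.NaLin
import Pool.Agent.TDC.NaNf
import Pool.Agent.TDC.NaOne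
import Pool.Agent.TDC.NaOrd
import Pool.Agent.TDC.NaPel
import Pool.Agent.TDC.NaSte
import Pool.Agent.TDC.NaTub
import Pool.Agent.TDC.NaVal
import Pool.Agent.TDC.NsFin
import Pool.Agent.TDC.NsFld
import Pool.Agent.TDC.NsPro
import Pool.Agent.TDC.NsPul
import Pool.Agent.TDC.NsRed
import Pool.Agent.TDC.NsTrl
import Pool.Agent.TDC.NsTro
import Pool.Agent.TDC.NsVan

/-!
# TDC: all modules of the negative theorem put together
-/

namespace TDC

theorem cl_NBas : St_NBas := thm_NBas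

theorem cl_NaTub : St_NaTub := thm_NaTub

theorem cl_NaSte : St_NaSte := thm_NaSte

theorem cl_NTub : St_NTub := thm_NTub cl_NBas cl_NaTub cl_NaSte

theorem cl_NaDer : St_NaDer := thm_NaDer

theorem cl_NaKer : St_NaKer := thm_NaKer

theorem cl_NaOrd : St_NaOrd := thm_NaOrd cl_NaKer

theorem cl_NaGrp : St_NaGrp := thm_NaGrp cl_NaKer cl_NaOrd

theorem cl_NaNf : St_NaNf := thm_NaNf cl_NaKer

theorem cl_NaPel : St_NaPel := thm_NaPel

theorem cl_NaOne : St_NaOne := thm_NaOne cl_NaKer cl_NaNf cl_NaOrd cl_NaGrp cl_NaPel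

theorem cl_NaLin : St_NaLin := thm_NaLin

theorem cl_NaLam : St_NaLam := thm_NaLam cl_NaDer cl_NaGrp cl_NaOne cl_NaLin

theorem cl_NLam : St_NLam := thm_NLam cl_NaLam

theorem cl_NBmp : St_NBmp := thm_NBmp cl_NBas cl_NTub cl_CSu

theorem cl_NFUn : St_NFUn := thm_NFUn cl_NBas cl_EmG

theorem cl_NGen : St_NGen := thm_NGen cl_NBas cl_NFUn cl_Tng cl_IndG cl_GenI cl_GEx cl_EmG

theorem cl_NSpl : St_NSpl := thm_NSpl cl_NBas cl_NTub

theorem cl_NInd : St_NInd := thm_NInd cl_MLoc cl_NBas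

theorem cl_NPsi : St_NPsi := thm_NPsi cl_NBas cl_Npg cl_Frc cl_Irr

theorem cl_NPol : St_NPol := thm_NPol

theorem cl_NaVal : St_NaVal := thm_NaVal cl_NaTub

theorem cl_NaAsy : St_NaAsy := thm_NaAsy cl_NaKer cl_NaNf cl_NaOrd cl_NaTub cl_NaVal

theorem cl_NAsy : St_NAsy := thm_NAsy cl_NBas cl_NaAsy

theorem cl_NSub : St_NSub := thm_NSub

theorem cl_NGS : St_NGS := thm_NGS cl_NBas cl_NInd cl_NPsi cl_NPol cl_NAsy cl_NSub cl_EmG cl_IndG

theorem cl_NVan : St_NVan := thm_NVan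

theorem cl_NBal : St_NBal := thm_NBal cl_NBas cl_NGS cl_NVan cl_EmG

theorem cl_NBd : St_NBd := thm_NBd

theorem cl_NMea : St_NMea := thm_NMea cl_EmF cl_Loc cl_BaJ

theorem cl_NTrG : St_NTrG := thm_NTrG cl_EmF cl_GEx cl_NMea cl_Aeq cl_BaJ

theorem cl_NE2a : St_NE2a := thm_NE2a cl_NBas cl_NTub cl_NTrG cl_NMea cl_EmG cl_EmF cl_GNl cl_GEx cl_Tng cl_IndG

theorem cl_NE2 : St_NE2 := thm_NE2 cl_NBas cl_NTub cl_NSpl cl_NBal cl_NBd cl_NE2a cl_NMea cl_EmG cl_EmF cl_GNl cl_GEx cl_BaJ cl_Fini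

theorem cl_NE1 : St_NE1 := thm_NE1 cl_NBas cl_NTub cl_NSpl cl_EmG cl_GNl cl_GEx cl_BaJ cl_NTrG

theorem cl_NCut : St_NCut := thm_NCut cl_NBas cl_NTub cl_EmG cl_GNl cl_StJ cl_NMea

theorem cl_NFld : St_NFld := thm_NFld cl_NBas cl_NTub cl_NLam cl_NBmp cl_Pair cl_NGen cl_NE2 cl_NE1 cl_NCut cl_Gen cl_Fini cl_GNl cl_EmG cl_EmF cl_IndG cl_Tng

theorem cl_NsFld : St_NsFld := thm_NsFld cl_NFld

theorem cl_NsTro : St_NsTro := thm_NsTro cl_FFace cl_FVal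

theorem cl_NsPul : St_NsPul := thm_NsPul cl_NsTro

theorem cl_NsVan : St_NsVan := thm_NsVan cl_NsTro cl_DetZ

theorem cl_NsTrl : St_NsTrl := thm_NsTrl

theorem cl_NsRed : St_NsRed := thm_NsRed cl_NsFld cl_NsPul cl_NsVan cl_NsTrl cl_UpA cl_DnA cl_DnD cl_ExtE cl_Clos

theorem cl_NsPro : St_NsPro := thm_NsPro cl_NsTro cl_GAff cl_FGord cl_FVal cl_FFace

theorem cl_NsFin : St_NsFin := thm_NsFin cl_NsRed cl_NsPro

theorem cl_NSch : St_NSch := thm_NSch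

theorem cl_NKac : St_NKac := thm_NKac

end TDC
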