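import Mathlib

/-!
# TDC (MP_f0f507_ag): tropical Dolbeault cohomology in the top bidegree.  Definitions.

`K` is a field with a non-archimedean absolute value.  A point of the analytification of a variety
`X` over `K` is a pair (`ξ`, absolute value on the residue field `κ(ξ)` extending the one of `K`).
Superforms of bidegree `(p,q)` are families `ω(x)` of functions on
`Tan(x)^p × Tan(x)^q`, locally pulled back from smooth superforms on `ℝ^R` by
`x ↦ log|F(x)|`, where `F` is a tuple of `R` units.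
-/

namespace TDC

open scoped Topology

/-! ## 1. Points and tangent spaces over a field `M ⊇ K` -/

/-- An absolute value on `M` extending the one of `K` (via `φ : K → M`). -/
structure Pt {K M : Type} [NormedField K] [Field M] (φ : K →+* M) where
  /-- the absolute value -/
  v : AbsoluteValue M ℝ
  /-- it is non-archimedean -/
  na : ∀ a b, v (a + b) ≤ max (v a) (v b)
  /-- it extends the absolute value of `K` -/
  ext : ∀ a : K, v (φ a) = ‖a‖

section field

variable {K M : Type} [NormedField K] [Field M] {φ : K →+* M}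

/-- topology of pointwise convergence -/
instance : TopologicalSpace (Pt φ) :=
  TopologicalSpace.induced (fun (x : Pt φ) (f : M) => x.v f) inferInstance

/-- Tangent vectors at `x`: homomorphisms `Mˣ → (ℝ,+)` which vanish on all `f` with
`|f(x)| ∈ |K|`. -/
def Tan (x : Pt φ) : Submodule ℝ (Additive Mˣ →+ ℝ) where
  carrier := {δ | ∀ f : Mˣ, (∃ a : K, ‖a‖ = x.v f) → δ (Additive.ofMul f) = 0}
  add_mem' := by
    intro a b ha hb f hf
    simp [ha f hf, hb f hf]
  zero_mem' := by intro f _; rfl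
  smul_mem' := by
    intro c a ha f hf
    simp [ha f hf]

/-- `log |F(x)|` -/
noncomputable def logv {R : ℕ} (x : Pt φ) (F : Fin R → Mˣ) : Fin R → ℝ :=
  fun i => Real.log (x.v (F i))

/-- `δ(F)`: the image of a tangent vector under the differential of `log |F|` -/
def ev {R : ℕ} {x : Pt φ} (F : Fin R → Mˣ) (δ : Tan x) : Fin R → ℝ :=
  fun i => δ.1 (Additive.ofMul (F i))

end field

/-! ## 2. Superforms on `ℝ^R` -/

/-- A superform of bidegree `(p,q)` on `ℝ^R`: `α = ∑_I d'x_I ∧ α_I`, the sum over all maps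
`I : Fin p → Fin R`, where `α_I` is an ordinary `q`-form (in `d''x_1, …, d''x_R`). -/
abbrev SF (R p q : ℕ) : Type :=
  (Fin p → Fin R) → (Fin R → ℝ) → (Fin R → ℝ) [⋀^Fin q]→L[ℝ] ℝ

variable {R p q : ℕ}

/-- smooth coefficients -/
def SF.Smooth (α : SF R p q) : Prop := ∀ I, ContDiff ℝ (⊤ : ℕ∞) (α I)

/-- `d''` (up to the sign `(-1)^p`): the exterior derivative in the second set of variables -/
noncomputable def SF.dd (α : SF R p q) : SF R p (q + 1) := fun I t => extDeriv (α I) t

/-- the form `d''x_J` on `ℝ^R`: `(dx J)(v) = det (v_i (J j))` -/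
noncomputable def dx (J : Fin q → Fin R) : (Fin R → ℝ) [⋀^Fin q]→L[ℝ] ℝ where
  toMultilinearMap :=
    (Matrix.detRowAlternating.compLinearMap (LinearMap.funLeft ℝ ℝ J)).toMultilinearMap
  cont := by
    have h : Continuous fun v : Fin q → Fin R → ℝ => (Matrix.of fun i j => v i (J j)).det := by
      refine Continuous.matrix_det ?_
      refine continuous_pi fun i => continuous_pi fun j => ?_
      exact (continuous_apply (J j)).comp (continuous_apply i)
    exact h
  map_eq_zero_of_eq' := fun v i j h hij =>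
    (Matrix.detRowAlternating.compLinearMap (LinearMap.funLeft ℝ ℝ J)).map_eq_zero_of_eq v h hij

theorem dx_apply (J : Fin q → Fin R) (v : Fin q → Fin R → ℝ) :
    dx J v = (Matrix.of fun i j => v i (J j)).det := rfl

open Classical in
/-- the superform `a d'x_I ∧ d''x_J` -/
noncomputable def mono (I : Fin p → Fin R) (J : Fin q → Fin R) (a : (Fin R → ℝ) → ℝ) :
    SF R p q := fun I' t => if I' = I then a t • dx J else 0

/-- the superform `b d'x_1 ∧ … ∧ d'x_n ∧ d''x_1 ∧ … ∧ d''x_n` on `ℝ^n` -/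
noncomputable def top {n : ℕ} (b : (Fin n → ℝ) → ℝ) : SF n n n := mono id id b

/-! ## 3. Forms over a field `M ⊇ K` -/

section field

variable {K M : Type} [NormedField K] [Field M] {φ : K →+* M}

/-- the value at `x` of the pull-back `F^*α` of the superform `α` -/
noncomputable def pullAt (x : Pt φ) (F : Fin R → Mˣ) (α : SF R p q)
    (δ : Fin p → Tan x) (ε : Fin q → Tan x) : ℝ :=
  ∑ I : Fin p → Fin R, (Matrix.of fun i j => ev F (δ i) (I j)).det *
    α I (logv x F) (fun i => ev F (ε i))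

/-- families of values on `Tan(x)^p × Tan(x)^q` -/
abbrev Fam (φ : K →+* M) (p q : ℕ) : Type :=
  ∀ x : Pt φ, (Fin p → Tan x) → (Fin q → Tan x) → ℝ

/-- the pull-back `F^*α` -/
noncomputable def pull (F : Fin R → Mˣ) (α : SF R p q) : Fam φ p q := fun x => pullAt x F α

/-- forms of bidegree `(p,q)` on the space `Pt φ` -/
def IsForm (ω : Fam φ p q) : Prop :=
  ∀ x : Pt φ, ∃ (R : ℕ) (F : Fin R → Mˣ) (α : SF R p q), α.Smooth ∧
    ∀ᶠ y in 𝓝 x, ω y = pull F α y

/-- `ω = d''η` on `Pt φ` -/
def IsDbar (η : Fam φ p q) (ω : Fam φ p (q + 1)) : Prop :=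
  ∀ x : Pt φ, ∃ (R : ℕ) (F : Fin R → Mˣ) (α : SF R p q), α.Smooth ∧
    ∀ᶠ y in 𝓝 x, η y = pull F α y ∧ ω y = pull F α.dd y

/-- compact support -/
def CSupp (ω : Fam φ p q) : Prop := ∃ C : Set (Pt φ), IsCompact C ∧ ∀ x, x ∉ C → ω x = 0

end field

/-! ## 4. The analytification of a scheme and its forms -/

open AlgebraicGeometry CategoryTheory

section scheme

variable {K : Type} [NormedField K] {X : Scheme.{0}} (s : X ⟶ Spec (.of K))

/-- the structure map `K → κ(ξ)` -/
noncomputable def kmap (ξ : X) : K →+* X.residueField ξ :=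
  ((X.Γevaluation ξ).hom.comp s.appTop.hom).comp (Scheme.ΓSpecIso (.of K)).inv.hom

/-- the set underlying the analytification `X^an`: points `ξ` of `X` with an absolute value on
the residue field extending the one of `K` -/
def An : Type := Σ ξ : X, Pt (kmap s ξ)

variable {s}

/-- the absolute value of `f ∈ Γ(X, U)` at `x ∈ U^an` -/
noncomputable def absA (x : An s) {U : X.Opens} (h : x.1 ∈ U) (f : Γ(X, U)) : ℝ :=
  x.2.v (X.evaluation U x.1 h f)

/-- the topology of `X^an`: generated by the sets `{x ∈ U^an : a < |f(x)| < b}` -/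
instance : TopologicalSpace (An s) :=
  TopologicalSpace.generateFrom
    {T | ∃ (U : X.Opens) (f : Γ(X, U)) (a b : ℝ),
      T = {x | ∃ h : x.1 ∈ U, a < absA x h f ∧ absA x h f < b}}

/-- families of values -/
abbrev FamA (s : X ⟶ Spec (.of K)) (p q : ℕ) : Type :=
  ∀ x : An s, (Fin p → Tan x.2) → (Fin q → Tan x.2) → ℝ

/-- a tuple of units of `Γ(X, U)` at a point of `U^an` -/
noncomputable def unitsAt (x : An s) {U : X.Opens} (h : x.1 ∈ U) (F : Fin R → (Γ(X, U))ˣ) :
    Fin R → (X.residueField x.1)ˣ :=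
  fun i => Units.map (X.evaluation U x.1 h).hom.toMonoidHom (F i)

/-- the value at `x` of the pull-back `F^*α` by a tuple of units of `Γ(X, U)` -/
noncomputable def pullA (x : An s) {U : X.Opens} (h : x.1 ∈ U) (F : Fin R → (Γ(X, U))ˣ)
    (α : SF R p q) : (Fin p → Tan x.2) → (Fin q → Tan x.2) → ℝ :=
  pullAt x.2 (unitsAt x h F) α

/-- forms of bidegree `(p,q)` on `X^an` -/
def IsFormA (ω : FamA s p q) : Prop :=
  ∀ x : An s, ∃ (U : X.Opens) (R : ℕ) (F : Fin R → (Γ(X, U))ˣ) (α : SF R p q), α.Smooth ∧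
    ∀ᶠ y in 𝓝 x, ∃ h : y.1 ∈ U, ω y = pullA y h F α

/-- `ω = d''η` on `X^an` -/
def IsDbarA (η : FamA s p q) (ω : FamA s p (q + 1)) : Prop :=
  ∀ x : An s, ∃ (U : X.Opens) (R : ℕ) (F : Fin R → (Γ(X, U))ˣ) (α : SF R p q), α.Smooth ∧
    ∀ᶠ y in 𝓝 x, ∃ h : y.1 ∈ U, η y = pullA y h F α ∧ ω y = pullA y h F α.dd

/-- compact support -/
def CSuppA (ω : FamA s p q) : Prop :=
  ∃ C : Set (An s), IsCompact C ∧ ∀ x, x ∉ C → ω x = 0

/-- `ω₀ = t^*(b d'x_1 ∧ … ∧ d''x_n)`: the pull-back of a superform of type `(n,n)` on `ℝ^n` by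
`log|t| = (log|t_1|, …, log|t_n|)`, where `t` is an `n`-tuple in the function field of `X`, and
the value is `0` at all points which do not lie over the generic point. -/
def IsTrop [IrreducibleSpace X] {n : ℕ} (t : Fin n → (X.residueField (genericPoint X))ˣ)
    (b : (Fin n → ℝ) → ℝ) (ω₀ : FamA s n n) : Prop :=
  (∀ v : Pt (kmap s (genericPoint X)), ω₀ ⟨genericPoint X, v⟩ = pullAt v t (top b)) ∧
    ∀ x : An s, x.1 ≠ genericPoint X → ω₀ x = 0

end scheme

end TDC
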