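import Pool.Agent.TDC.Defs

/-!
# TDC: auxiliary definitions for the proof (field level)
-/

namespace TDC

open scoped Topology

section field

variable {K M : Type} [NormedField K] [Field M] {φ : K →+* M} {R n m q : ℕ}

/-- The values `|g_i(x)|` are multiplicatively independent modulo `|K^*|`. -/
def Indep (x : Pt φ) (g : Fin n → Mˣ) : Prop :=
  ∀ k : Fin n → ℤ, (∃ a : K, ‖a‖ = x.v ((∏ i, g i ^ k i : Mˣ) : M)) → k = 0

/-- `x` is a Gauss point for `g`: the value of every polynomial in `g` is the maximum of the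
values of its monomials (only `≥` has to be required). -/
def Gauss (x : Pt φ) (g : Fin n → Mˣ) : Prop :=
  ∀ (P : MvPolynomial (Fin n) K) (e : Fin n →₀ ℕ),
    ‖P.coeff e‖ * ∏ i, x.v (g i) ^ e i ≤ x.v (P.eval₂ φ (fun i => (g i : M)))

/-- Transcendence degree at most `n`. -/
def TrLe (K L : Type) [Field K] [Field L] [Algebra K L] (n : ℕ) : Prop :=
  ∀ g : Fin (n + 1) → L, ¬ AlgebraicIndependent K g

/-- `α_I` smooth, and its support has compact image under the coordinates `x_I` -/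
def SF.PC {p q : ℕ} (γ : SF R p q) : Prop :=
  ∀ I, ContDiff ℝ (⊤ : ℕ∞) (γ I) ∧
    ∃ C : Set (Fin p → ℝ), IsCompact C ∧ ∀ t : Fin R → ℝ, t ∘ I ∉ C → γ I t = 0

/-- Exact forms of bidegree `(n,q+1)` whose primitives (and themselves) vanish off `O`. -/
def Wx (φ : K →+* M) (n q : ℕ) (O : Set (Pt φ)) : Submodule ℝ (Fam φ n (q + 1)) :=
  Submodule.span ℝ {ω | ∃ (R : ℕ) (F : Fin R → Mˣ) (γ : SF R n q), γ.PC ∧
    (∀ x, x ∉ O → (pull F γ : Fam φ n q) x = 0 ∧ (pull F γ.dd : Fam φ n (q + 1)) x = 0) ∧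
    ω = pull F γ.dd}

/-- The form `χ(log|F|) b(log|g|) d'log|g_1|∧…∧d'log|g_n| ∧ d''log|g_1|∧…∧d''log|g_n|`. -/
noncomputable def tf (F : Fin R → Mˣ) (g : Fin n → Mˣ) (χ : (Fin R → ℝ) → ℝ)
    (b : (Fin n → ℝ) → ℝ) : Fam φ n n := fun x δ ε =>
  χ (logv x F) * b (logv x g) * (Matrix.of fun i j => ev g (δ i) j).det *
    (Matrix.of fun i j => ev g (ε i) j).det

/-- At all Gauss points `x` of `g` with `log|g(x)| ∈ S` the function `χ` is constant, equal to
`0` or to `1`, in a neighbourhood of `log|F(x)|`. -/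
def Clean (φ : K →+* M) (F : Fin R → Mˣ) (g : Fin n → Mˣ) (χ : (Fin R → ℝ) → ℝ)
    (S : Set (Fin n → ℝ)) : Prop :=
  ContDiff ℝ (⊤ : ℕ∞) χ ∧ ∀ x : Pt φ, Gauss x g → logv x g ∈ S →
    (χ =ᶠ[𝓝 (logv x F)] fun _ => 0) ∨ (χ =ᶠ[𝓝 (logv x F)] fun _ => 1)

/-- open box -/
def box (lo hi : Fin n → ℝ) : Set (Fin n → ℝ) := Set.pi Set.univ fun i => Set.Ioo (lo i) (hi i)

/-- closed box -/
def cbox (lo hi : Fin n → ℝ) : Set (Fin n → ℝ) := Set.pi Set.univ fun i => Set.Icc (lo i) (hi i)

/-- `b` is smooth with compact support contained in `S` -/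
def SC (b : (Fin n → ℝ) → ℝ) (S : Set (Fin n → ℝ)) : Prop :=
  ContDiff ℝ (⊤ : ℕ∞) b ∧ HasCompactSupport b ∧ tsupport b ⊆ S

/-- The exact forms used for moving bumps:
`χ(log|F|) (∂c/∂s_j)(log|g|) d's ∧ d''s`, `χ` clean on the support of `c`; the
form and its primitive vanish off `O`. -/
def W0 (φ : K →+* M) (n : ℕ) (O : Set (Pt φ)) : Submodule ℝ (Fam φ n n) :=
  Submodule.span ℝ {ω | ∃ (R : ℕ) (F : Fin R → Mˣ) (g : Fin n → Mˣ) (χ : (Fin R → ℝ) → ℝ)
    (c : (Fin n → ℝ) → ℝ) (S : Set (Fin n → ℝ)) (j : Fin n), Clean φ F g χ S ∧ SC c S ∧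
    (∀ x : Pt φ, x ∉ O → Indep x g → logv x g ∈ tsupport c → χ (logv x F) = 0) ∧
    ω = tf F g χ (fun u => fderiv ℝ c u (Pi.single j 1))}

/-- `χ(log|F|)` selects the Gauss point `x` of `g` among all Gauss points `y` of `g` with
`log|g(y)| = log|g(x)|`, and it is clean near. -/
def Sel (x : Pt φ) (F : Fin R → Mˣ) (g : Fin n → Mˣ) (χ : (Fin R → ℝ) → ℝ) : Prop :=
  (∃ ρ : ℝ, 0 < ρ ∧ Clean φ F g χ (Metric.ball (logv x g) ρ)) ∧ Gauss x g ∧
    χ (logv x F) = 1 ∧
    ∀ y : Pt φ, Gauss y g → logv y g = logv x g → χ (logv y F) ≠ 0 → y = x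

end field

/-! ## towers `K → L' → L = L'(t)` -/

section tower

variable {K L' L : Type} [NormedField K] [Field L'] [Field L] [Algebra K L'] [Algebra K L]
  [Algebra L' L] [IsScalarTower K L' L]

/-- restriction of an absolute value to `L'` -/
def res (L' : Type) [Field L'] [Algebra K L'] [Algebra L' L] [IsScalarTower K L' L]
    (x : Pt (algebraMap K L)) : Pt (algebraMap K L') where
  v := x.v.comp (algebraMap L' L).injective
  na := fun a b => by
    show x.v (algebraMap L' L (a + b)) ≤ _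
    rw [map_add]; exact x.na _ _
  ext := fun a => by
    show x.v (algebraMap L' L (algebraMap K L' a)) = ‖a‖
    rw [← IsScalarTower.algebraMap_apply K L' L]; exact x.ext a

/-- a tuple of units of `L'` as a tuple of units of `L` -/
def up (L : Type) [Field L] [Algebra L' L] {R : ℕ} (F : Fin R → L'ˣ) : Fin R → Lˣ :=
  fun i => Units.map (algebraMap L' L).toMonoidHom (F i)

/-- restriction of tangent vectors -/
def resT (L' : Type) [Field L'] [Algebra K L'] [Algebra L' L] [IsScalarTower K L' L]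
    {x : Pt (algebraMap K L)} (δ : Tan x) : Tan (res L' x) :=
  ⟨δ.1.comp (Units.map (algebraMap L' L).toMonoidHom).toAdditive, by
    intro f hf
    exact δ.2 (Units.map (algebraMap L' L).toMonoidHom f) hf⟩

/-- `L = L'(t)` with `t` transcendental over `L'` -/
def RatOver (L' L : Type) [Field L'] [Field L] [Algebra L' L] (t : L) : Prop :=
  Transcendental L' t ∧
    ∀ f : L, ∃ P Q : Polynomial L', Polynomial.aeval t Q ≠ 0 ∧
      f * Polynomial.aeval t Q = Polynomial.aeval t P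

/-- `r` is multiplicatively independent of the values of `z` -/
def Free {K M : Type} [NormedField K] [Field M] {φ : K →+* M} (z : Pt φ) (r : ℝ) : Prop :=
  0 < r ∧ ∀ N : ℕ, 0 < N → ∀ a : M, z.v a ≠ r ^ N

/-- `Q` is monic, has a value at `x` which is independent of the values of `x` on `L'`, and it has
minimal degree with this property. -/
def KeyPol (x : Pt (algebraMap K L)) (t : L) (Q : Polynomial L') : Prop :=
  Q.Monic ∧ Free (res L' x) (x.v (Polynomial.aeval t Q)) ∧
    ∀ P : Polynomial L', P.natDegree < Q.natDegree →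
      ¬ Free (res L' x) (x.v (Polynomial.aeval t P))

open Classical in
/-- the cross product with the form `β(log|t|) d'log|t| ∧ d''log|t|`:
`Φ_β : Fam(L')_{m,m} → Fam(L)_{m+1,m+1}` -/
noncomputable def Phi {m : ℕ} (t : Lˣ) (β : ℝ → ℝ) :
    Fam (algebraMap K L') m m →ₗ[ℝ] Fam (algebraMap K L) (m + 1) (m + 1) where
  toFun ω x δ ε := β (Real.log (x.v t)) *
    ∑ i : Fin (m + 1), ∑ j : Fin (m + 1), (-1 : ℝ) ^ ((i : ℕ) + (j : ℕ)) *
      (δ i).1 (Additive.ofMul t) * (ε j).1 (Additive.ofMul t) *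
        ω (res L' x) (fun k => resT L' (δ (i.succAbove k))) (fun k => resT L' (ε (j.succAbove k)))
  map_add' := by
    intro a b
    funext x δ ε
    simp only [Pi.add_apply, mul_add, Finset.sum_add_distrib]
  map_smul' := by
    intro c a
    funext x δ ε
    simp only [Pi.smul_apply, smul_eq_mul, RingHom.id_apply, Finset.mul_sum]
    refine Finset.sum_congr rfl fun i _ => Finset.sum_congr rfl fun j _ => ?_
    ring

end tower

end TDC
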