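import Pool.Agent.TDC.Defs2

/-!
# TDC: auxiliary definitions for group 2 (tube data, rational towers)
-/

namespace TDC

open scoped Topology

/-- data of a tube form `χ(log|F|) b(log|g|) d'log|g| ∧ d''log|g|` -/
structure TD (M : Type) [Field M] (n : ℕ) where
  /-- number of auxiliary functions -/
  R : ℕ
  /-- auxiliary functions, used by the cut-off -/
  F : Fin R → Mˣ
  /-- coordinates -/
  g : Fin n → Mˣ
  /-- cut-off -/
  χ : (Fin R → ℝ) → ℝ
  /-- the box -/
  lo : Fin n → ℝ
  /-- the box -/
  hi : Fin n → ℝ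
  /-- coefficient -/
  b : (Fin n → ℝ) → ℝ

variable {K M : Type} [NormedField K] [Field M] {n : ℕ}

/-- The cut-off is clean over the box, `b` is supported in the box, and the data vanish off `O`. -/
def TD.Good (φ : K →+* M) (D : TD M n) (O : Set (Pt φ)) : Prop :=
  Clean φ D.F D.g D.χ (box D.lo D.hi) ∧ SC D.b (box D.lo D.hi) ∧
    ∀ x : Pt φ, x ∉ O → Indep x D.g → logv x D.g ∈ box D.lo D.hi → D.χ (logv x D.F) = 0

/-- the form of the data -/
noncomputable def TD.form (φ : K →+* M) (D : TD M n) : Fam φ n n := tf D.F D.g D.χ D.b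

/-- `L = K(t_1, …, t_n)` with `t` algebraically independent -/
def RatN (K L : Type) [Field K] [Field L] [Algebra K L] (n : ℕ) (t : Fin n → Lˣ) : Prop :=
  AlgebraicIndependent K (fun i => ((t i : Lˣ) : L)) ∧
    IntermediateField.adjoin K (Set.range fun i => ((t i : Lˣ) : L)) = ⊤

/-- `t^*(b)`: the pull-back of `b d'x_1 ∧ … ∧ d''x_n` by `log|t|` -/
noncomputable def std (φ : K →+* M) (t : Fin n → Mˣ) (b : (Fin n → ℝ) → ℝ) : Fam φ n n :=
  fun x δ ε => b (logv x t) * (Matrix.of fun i j => ev t (δ i) j).det *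
    (Matrix.of fun i j => ev t (ε i) j).det

/-- the inclusion of a field in its completion for an absolute value -/
noncomputable def inc (v : AbsoluteValue M ℝ) : M →+* v.Completion :=
  (algebraMap (WithAbs v) v.Completion).comp (WithAbs.equiv v).symm.toRingHom

/-- smooth coefficients with compact support -/
def SF.CC {R p q : ℕ} (α : SF R p q) : Prop :=
  ∀ I, ContDiff ℝ (⊤ : ℕ∞) (α I) ∧ HasCompactSupport (α I)

end TDC
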