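import Pool.Agent.TDC.Defs

/-!
# TDC: fans, toric varieties, the tropical toric variety `N_ℝ(Σ)` and its superforms; cohomology

Notation: `M = ℤ^n` (characters), `N_ℝ = ℝ^n`, a fan is called `Δ`.
-/

namespace TDC

open scoped Topology
open AlgebraicGeometry CategoryTheory

/-! ## 1. Fans -/

section fan

variable {n : ℕ}

/-- the pairing of `M = ℤ^n` with `N_ℝ = ℝ^n` -/
def pr (m : Fin n → ℤ) (u : Fin n → ℝ) : ℝ := ∑ k, (m k : ℝ) * u k

/-- the convex cone in `ℝ^n` generated by a finite set of vectors of `N = ℤ^n` -/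
def coneOf (V : Finset (Fin n → ℤ)) : Set (Fin n → ℝ) :=
  {u | ∃ a : (Fin n → ℤ) → ℝ, (∀ v, 0 ≤ a v) ∧ u = ∑ v ∈ V, a v • fun k => (v k : ℝ)}

/-- `σ^∨ ∩ M` for the cone `σ` generated by `V` -/
def dualOf (V : Finset (Fin n → ℤ)) : AddSubmonoid (Fin n → ℤ) where
  carrier := {m | ∀ v ∈ V, 0 ≤ ∑ k, m k * v k}
  zero_mem' := by intro v _; simp
  add_mem' := by
    intro a b ha hb v hv
    have h : ∑ k, (a + b) k * v k = ∑ k, a k * v k + ∑ k, b k * v k := by
      rw [← Finset.sum_add_distrib]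
      exact Finset.sum_congr rfl fun k _ => by rw [Pi.add_apply]; ring
    rw [h]
    exact add_nonneg (ha v hv) (hb v hv)

/-- `σ^⊥ ∩ M` for the cone `σ` generated by `V` -/
def perpOf (V : Finset (Fin n → ℤ)) : AddSubgroup (Fin n → ℤ) where
  carrier := {m | ∀ v ∈ V, ∑ k, m k * v k = 0}
  zero_mem' := by intro v _; simp
  add_mem' := by
    intro a b ha hb v hv
    have h : ∑ k, (a + b) k * v k = ∑ k, a k * v k + ∑ k, b k * v k := by
      rw [← Finset.sum_add_distrib]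
      exact Finset.sum_congr rfl fun k _ => by rw [Pi.add_apply]; ring
    rw [h, ha v hv, hb v hv, add_zero]
  neg_mem' := by
    intro a ha v hv
    have h : ∑ k, (-a) k * v k = - ∑ k, a k * v k := by
      rw [← Finset.sum_neg_distrib]
      exact Finset.sum_congr rfl fun k _ => by rw [Pi.neg_apply]; ring
    rw [h, ha v hv, neg_zero]

/-- the face of `σ` cut out by the hyperplane `m^⊥` -/
def faceOf (V : Finset (Fin n → ℤ)) (m : Fin n → ℤ) : Set (Fin n → ℝ) :=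
  coneOf V ∩ {u | pr m u = 0}

/-- A fan in `N = ℤ^n`: a finite non-empty set of strongly convex rational polyhedral cones (given by
generators), such that every face of a cone of the fan is in the fan, and the intersection of two
cones of the fan is a face of each of them. -/
structure Fan (n : ℕ) where
  /-- index set of the cones -/
  ι : Type
  /-- the fan is finite -/
  fin : Finite ι
  /-- the fan is not empty -/
  ne : Nonempty ι
  /-- generators of the cones -/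
  gens : ι → Finset (Fin n → ℤ)
  /-- every cone is listed once -/
  inj : ∀ i j, coneOf (gens i) = coneOf (gens j) → i = j
  /-- the cones are strongly convex -/
  pointed : ∀ i, ∀ u ∈ coneOf (gens i), -u ∈ coneOf (gens i) → u = 0
  /-- faces of cones are in the fan -/
  face : ∀ i, ∀ m ∈ dualOf (gens i), ∃ j, coneOf (gens j) = faceOf (gens i) m
  /-- intersections of two cones are faces of both -/
  inter : ∀ i j, ∃ k, coneOf (gens k) = coneOf (gens i) ∩ coneOf (gens j) ∧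
    (∃ m ∈ dualOf (gens i), coneOf (gens k) = faceOf (gens i) m) ∧
    (∃ m ∈ dualOf (gens j), coneOf (gens k) = faceOf (gens j) m)

/-- the cone with index `i` -/
def Fan.cone (Δ : Fan n) (i : Δ.ι) : Set (Fin n → ℝ) := coneOf (Δ.gens i)

/-- `σ_i^∨ ∩ M` -/
def Fan.dual (Δ : Fan n) (i : Δ.ι) : AddSubmonoid (Fin n → ℤ) := dualOf (Δ.gens i)

/-- `σ_i^⊥ ∩ M` -/
def Fan.perp (Δ : Fan n) (i : Δ.ι) : AddSubgroup (Fin n → ℤ) := perpOf (Δ.gens i)

/-- the fan is complete: its cones cover `N_ℝ` -/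
def Fan.Complete (Δ : Fan n) : Prop := ∀ u : Fin n → ℝ, ∃ i, u ∈ Δ.cone i

/-! ## 2. The tropical toric variety `N_ℝ(Σ)` -/

/-- `N_ℝ(Σ)` is the disjoint union of the `N_ℝ/span(σ) = Hom(σ^⊥ ∩ M, ℝ)`, `σ ∈ Σ`. The number
`φ(m)` is `log|χ^m|` at the point. -/
structure NR (Δ : Fan n) where
  /-- the cone -/
  i : Δ.ι
  /-- the point of `Hom(σ^⊥ ∩ M, ℝ)` -/
  φ : Δ.perp i →+ ℝ

open Classical in
/-- value of a homomorphism defined on a subgroup (`0` outside) -/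
noncomputable def evm {G : AddSubgroup (Fin n → ℤ)} (δ : G →+ ℝ) (m : Fin n → ℤ) : ℝ :=
  if h : m ∈ G then δ ⟨m, h⟩ else 0

open Classical in
/-- the value `|χ^m(y)|` of the character `χ^m` at the point `y = (σ, φ)`, for `m ∈ σ^∨`: it is
`exp φ(m)` for `m ∈ σ^⊥` and `0` otherwise -/
noncomputable def NR.val {Δ : Fan n} (y : NR Δ) (m : Fin n → ℤ) : ℝ :=
  if m ∈ Δ.perp y.i then Real.exp (evm y.φ m) else 0

/-- The topology of `N_ℝ(Σ)`: for every cone `σ` the set `N_ℝ(σ)` of all `(τ, φ)` with `τ ⊆ σ` is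
open and carries the topology of pointwise convergence of the values `|χ^m(y)|`,
`m ∈ σ^∨ ∩ M`. -/
instance {Δ : Fan n} : TopologicalSpace (NR Δ) :=
  TopologicalSpace.generateFrom
    {T | ∃ (j : Δ.ι) (m : Δ.dual j) (a b : ℝ),
      T = {y | Δ.cone y.i ⊆ Δ.cone j ∧ a < y.val m ∧ y.val m < b}}

/-- families of values: at `y = (σ, φ)` on the tangent space `Hom(σ^⊥ ∩ M, ℝ) = N_ℝ/span(σ)` -/
abbrev FamT (Δ : Fan n) (p q : ℕ) : Type :=
  ∀ y : NR Δ, (Fin p → Δ.perp y.i →+ ℝ) → (Fin q → Δ.perp y.i →+ ℝ) → ℝ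

/-- the value at `y` of the pull-back of the superform `α` on `ℝ^R` by the characters `F` -/
noncomputable def pullT {Δ : Fan n} {R p q : ℕ} (y : NR Δ) (F : Fin R → Fin n → ℤ)
    (α : SF R p q) : (Fin p → Δ.perp y.i →+ ℝ) → (Fin q → Δ.perp y.i →+ ℝ) → ℝ :=
  fun δ ε => ∑ I : Fin p → Fin R, (Matrix.of fun k l => evm (δ k) (F (I l))).det *
    α I (fun l => evm y.φ (F l)) (fun k l => evm (ε k) (F l))

/-- Superforms on `N_ℝ(Σ)`: near `y = (σ, φ)` they are pulled back from `N_ℝ/span(σ)`. -/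
def IsFormT {Δ : Fan n} {p q : ℕ} (ω : FamT Δ p q) : Prop :=
  ∀ y : NR Δ, ∃ (R : ℕ) (F : Fin R → Fin n → ℤ) (α : SF R p q),
    (∀ l, F l ∈ Δ.perp y.i) ∧ α.Smooth ∧
      ∀ᶠ z in 𝓝 y, Δ.cone z.i ⊆ Δ.cone y.i ∧ ω z = pullT z F α

/-- `ω = d''η` on `N_ℝ(Σ)` -/
def IsDbarT {Δ : Fan n} {p q : ℕ} (η : FamT Δ p q) (ω : FamT Δ p (q + 1)) : Prop :=
  ∀ y : NR Δ, ∃ (R : ℕ) (F : Fin R → Fin n → ℤ) (α : SF R p q),
    (∀ l, F l ∈ Δ.perp y.i) ∧ α.Smooth ∧
      ∀ᶠ z in 𝓝 y, Δ.cone z.i ⊆ Δ.cone y.i ∧ η z = pullT z F α ∧ ω z = pullT z F α.dd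

/-- compact support -/
def CSuppT {Δ : Fan n} {p q : ℕ} (ω : FamT Δ p q) : Prop :=
  ∃ C : Set (NR Δ), IsCompact C ∧ ∀ y, y ∉ C → ω y = 0

end fan

/-! ## 3. Toric varieties -/

section toric

variable {K : Type} [NormedField K] {X : Scheme.{0}}

/-- the structure map `K → Γ(X, U)` -/
noncomputable def kΓ (s : X ⟶ Spec (.of K)) (U : X.Opens) : K →+* Γ(X, U) :=
  ((X.presheaf.map (homOfLE le_top : U ⟶ ⊤).op).hom.comp s.appTop.hom).comp
    (Scheme.ΓSpecIso (.of K)).inv.hom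

/-- `X → Spec K` is the toric variety of the fan `Δ`: it is covered by affine open sets `U_σ`,
`σ ∈ Δ`, with `Γ(X, U_σ) = K[σ^∨ ∩ M] = ⊕ K χ^m`, glued as usual: for `τ ⊆ σ` the
inclusion `U_τ ⊆ U_σ` corresponds to `K[σ^∨ ∩ M] ⊆ K[τ^∨ ∩ M]`, `U_τ` is the principal open set
`χ^m ≠ 0` of `U_σ` for the face `τ = σ ∩ m^⊥`, and `U_σ ∩ U_τ = U_{σ ∩ τ}`. -/
structure Toric {n : ℕ} (Δ : Fan n) (s : X ⟶ Spec (.of K)) where
  /-- the open sets `U_σ` -/
  U : Δ.ι → X.Opens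
  /-- they are affine -/
  aff : ∀ i, IsAffineOpen (U i)
  /-- they cover `X` -/
  cover : ∀ ξ : X, ∃ i, ξ ∈ U i
  /-- the characters `χ^m ∈ Γ(X, U_σ)`, `m ∈ σ^∨ ∩ M` -/
  χ : ∀ i, Multiplicative (Δ.dual i) →* Γ(X, U i)
  /-- they form a basis of `Γ(X, U_σ)` over `K` -/
  basis : ∀ i, Function.Bijective fun f : Δ.dual i →₀ K =>
    f.sum fun m a => kΓ s (U i) a * χ i (Multiplicative.ofAdd m)
  /-- `U_τ ⊆ U_σ` for `τ ⊆ σ` -/
  le : ∀ i j, Δ.cone j ⊆ Δ.cone i → U j ≤ U i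
  /-- restriction of characters -/
  res : ∀ i j (h : Δ.cone j ⊆ Δ.cone i) (m : Δ.dual i) (m' : Δ.dual j),
    (m : Fin n → ℤ) = m' →
    (X.presheaf.map (homOfLE (le i j h)).op).hom (χ i (Multiplicative.ofAdd m)) =
      χ j (Multiplicative.ofAdd m')
  /-- faces give principal open sets -/
  basic : ∀ i j (m : Δ.dual i), Δ.cone j = faceOf (Δ.gens i) m →
    U j = X.basicOpen (χ i (Multiplicative.ofAdd m))
  /-- intersections -/
  inter : ∀ i j k, Δ.cone k = Δ.cone i ∩ Δ.cone j → U i ⊓ U j = U k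

variable {n : ℕ} {Δ : Fan n} {s : X ⟶ Spec (.of K)}

theorem perpOf_le_dualOf (V : Finset (Fin n → ℤ)) :
    (perpOf V).toAddSubmonoid ≤ dualOf V := fun _ hm v hv => (hm v hv).ge

/-- the characters `χ^m`, `m ∈ σ^⊥ ∩ M`, as units of `Γ(X, U_σ)` -/
noncomputable def Toric.un (τ : Toric Δ s) (i : Δ.ι) :
    Multiplicative (Δ.perp i) →* (Γ(X, τ.U i))ˣ :=
  MonoidHom.toHomUnits ((τ.χ i).comp
    (AddMonoidHom.toMultiplicative
      (AddSubmonoid.inclusion (perpOf_le_dualOf (Δ.gens i)) :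
        (Δ.perp i).toAddSubmonoid →+ Δ.dual i)))

/-- `trop : X^an → N_ℝ(Σ)`: a point `x = (ξ, |·|)` is mapped to `(σ, m ↦ log|χ^m(x)|)` where
`σ` is the smallest cone with `ξ ∈ U_σ`, in other words `|χ^m(x)| = |χ^m(trop x)|` for all
`m ∈ σ^∨ ∩ M`. -/
structure IsTropMap (τ : Toric Δ s) (T : An s → NR Δ) : Prop where
  /-- `x ∈ U_σ^an` -/
  mem : ∀ x : An s, x.1 ∈ τ.U (T x).i
  /-- the values of the characters -/
  val : ∀ (x : An s) (m : Δ.dual (T x).i),
    absA x (mem x) (τ.χ _ (Multiplicative.ofAdd m)) = (T x).val m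

/-- the differential of `trop`: restriction of a tangent vector to the characters -/
noncomputable def tanT (τ : Toric Δ s) (x : An s) {i : Δ.ι} (h : x.1 ∈ τ.U i) (δ : Tan x.2) :
    Δ.perp i →+ ℝ :=
  δ.1.comp (MonoidHom.toAdditiveRight
    ((Units.map (X.evaluation (τ.U i) x.1 h).hom.toMonoidHom).comp (τ.un i)))

/-- the pull-back `trop^*` of superforms -/
noncomputable def tropPull (τ : Toric Δ s) (T : An s → NR Δ) (hT : IsTropMap τ T) (p q : ℕ) :
    FamT Δ p q →ₗ[ℝ] FamA s p q where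
  toFun ω := fun x δ ε => ω (T x) (fun k => tanT τ x (hT.mem x) (δ k))
    (fun k => tanT τ x (hT.mem x) (ε k))
  map_add' _ _ := rfl
  map_smul' _ _ := rfl

end toric

end TDC
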