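import Pool.Agent.TDC.StT

/-!
# TDN: the negative answer in bidegree `(n,n)`: definitions

`K ⊇ ℂ` (embedding `c`) non-archimedean with residue field `ℂ`; `E : y² = x³ + 1`;
`L = K(E)(t_1, …, t_m)`, `n = m + 1`.
-/

namespace TDC

open scoped Topology

/-- `K` contains `ℂ` (trivially valued) and has residue field `ℂ`. -/
structure ResC {K : Type} [NormedField K] (c : ℂ →+* K) : Prop where
  /-- `ℂ` is trivially valued -/
  one : ∀ a : ℂ, a ≠ 0 → ‖c a‖ = 1
  /-- the residue field is `ℂ` -/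
  res : ∀ z : K, ‖z‖ ≤ 1 → ∃ a : ℂ, ‖z - c a‖ < 1

/-- `L` is the function field of `E × 𝔸^m` over `K`. -/
structure EFun (K : Type) {L : Type} [Field K] [Field L] [Algebra K L] {m : ℕ} (x y : L)
    (t : Fin m → Lˣ) : Prop where
  /-- the equation of `E` -/
  eq : y ^ 2 = x ^ 3 + 1
  /-- `x, t_1, …, t_m` are algebraically independent -/
  ind : AlgebraicIndependent K (Fin.cons x (fun i => (t i : L)) : Fin (m + 1) → L)
  /-- they generate `L` -/
  gen : IntermediateField.adjoin K (insert x (insert y (Set.range fun i => (t i : L)))) = ⊤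

open Classical in
/-- an element as a unit (`1` if it is zero) -/
noncomputable def mkU {L : Type} [Field L] (z : L) : Lˣ := if h : z ≠ 0 then Units.mk0 z h else 1

/-- the good points of `E(ℂ)` -/
def GoodE (Q : ℂ × ℂ) : Prop := Q.2 ^ 2 = Q.1 ^ 3 + 1 ∧ Q.1 ≠ 0 ∧ Q.2 ≠ 0

/-- the field `K(E) = K(x, y)` -/
def KE (K : Type) {L : Type} [Field K] [Field L] [Algebra K L] (x y : L) : IntermediateField K L :=
  IntermediateField.adjoin K {x, y}

section val

variable {K L : Type} [NormedField K] [Field L] [Algebra K L]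

/-- the tube over the point `Q` of `E(ℂ)` -/
def Tube (c : ℂ →+* K) (x y : L) (Q : ℂ × ℂ) : Set (Pt (algebraMap K L)) :=
  {v | v.v (x - algebraMap K L (c Q.1)) < 1 ∧ v.v (y - algebraMap K L (c Q.2)) < 1}

/-- the unit `x - a` -/
noncomputable def xa (c : ℂ →+* K) (x : L) (a : ℂ) : Lˣ := mkU (x - algebraMap K L (c a))

/-- the unit `y + b` -/
noncomputable def yb (c : ℂ →+* K) (y : L) (b : ℂ) : Lˣ := mkU (y + algebraMap K L (c b))

/-- the tuple `(x - a, g_1, …, g_m)` -/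
noncomputable def cx (c : ℂ →+* K) (x : L) (a : ℂ) {m : ℕ} (g : Fin m → Lˣ) : Fin (m + 1) → Lˣ :=
  Fin.cons (xa c x a) g

/-- the embeddings of `L` in its algebraic closure over `K(x, y)(g_1, …, g_m)` -/
def EmbE (K : Type) {L : Type} [NormedField K] [Field L] [Algebra K L] (x y : L) {m : ℕ}
    (g : Fin m → Lˣ) : Set (L →ₐ[K] AlgebraicClosure L) :=
  {σ | σ x = algebraMap L (AlgebraicClosure L) x ∧ σ y = algebraMap L (AlgebraicClosure L) y ∧
    ∀ i, σ (g i : L) = algebraMap L (AlgebraicClosure L) (g i : L)}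

end val

/-- the order at the good point `Q` of the element `φ` of `ℂ(x,y) ⊆ M` is `n` -/
def OrdAt {M : Type} [Field M] (i : ℂ →+* M) (x y φ : M) (Q : ℂ × ℂ) (n : ℤ) : Prop :=
  ∃ U W : MvPolynomial (Fin 2) ℂ, MvPolynomial.eval ![Q.1, Q.2] U ≠ 0 ∧
    MvPolynomial.eval ![Q.1, Q.2] W ≠ 0 ∧
    φ * MvPolynomial.eval₂ i ![x, y] W = (x - i Q.1) ^ n * MvPolynomial.eval₂ i ![x, y] U

/-- `o` is the divisor, on the good points of `E`, of an element `φ ≠ 0` of `ℂ(x,y)` -/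
def IsDiv {M : Type} [Field M] (i : ℂ →+* M) (x y : M) (o : ℂ × ℂ → ℤ) : Prop :=
  ∃ φ : M, φ ≠ 0 ∧ (∃ U W : MvPolynomial (Fin 2) ℂ, MvPolynomial.eval₂ i ![x, y] W ≠ 0 ∧
    φ * MvPolynomial.eval₂ i ![x, y] W = MvPolynomial.eval₂ i ![x, y] U) ∧
    ∀ Q : ℂ × ℂ, GoodE Q → OrdAt i x y φ Q (o Q)

end TDC
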