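import Pool.Agent.TDC.DefsF

/-!
# TDN: tropicalization of a morphism to a toric variety, superforms on the tropical variety

`Y` is the toric variety of the fan `Δ`, `φ : X ⟶ Y` a morphism. The tropicalization map
`T = trop_φ : X^an → N_ℝ(Σ)` is given by `|χ^m(T x)| = |(φ^* χ^m)(x)|`, and
`Trop_φ(X) = T(X^an)`.
-/

namespace TDC

open scoped Topology
open AlgebraicGeometry CategoryTheory

section

variable {N : ℕ} {Δ : Fan N}

/-- The open sets `U_σ` and the characters `χ^m` on `U_σ` of a toric variety, pulled back to a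
scheme `X` by a morphism (see `Toric.pull`). -/
structure TorMap (Δ : Fan N) (X : Scheme.{0}) where
  /-- the open sets -/
  U : Δ.ι → X.Opens
  /-- the characters -/
  χ : ∀ i, Multiplicative (Δ.dual i) →* Γ(X, U i)
  /-- they cover `X` -/
  cover : ∀ ξ : X, ∃ i, ξ ∈ U i
  /-- `U_τ ⊆ U_σ` for `τ ⊆ σ` -/
  le : ∀ i j, Δ.cone j ⊆ Δ.cone i → U j ≤ U i
  /-- restriction of characters -/
  res : ∀ i j (h : Δ.cone j ⊆ Δ.cone i) (m : Δ.dual i) (m' : Δ.dual j),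
    (m : Fin N → ℤ) = m' →
    (X.presheaf.map (homOfLE (le i j h)).op).hom (χ i (Multiplicative.ofAdd m)) =
      χ j (Multiplicative.ofAdd m')
  /-- faces give principal open sets -/
  basic : ∀ i j (m : Δ.dual i), Δ.cone j = faceOf (Δ.gens i) m →
    U j = X.basicOpen (χ i (Multiplicative.ofAdd m))
  /-- intersections -/
  inter : ∀ i j k, Δ.cone k = Δ.cone i ∩ Δ.cone j → U i ⊓ U j = U k

/-- the pull-back of the open sets `U_σ` and of the characters of the toric variety `Y` by the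
morphism `φ : X ⟶ Y` -/
noncomputable def Toric.pull {K : Type} [NormedField K] {X Y : Scheme.{0}}
    {s' : Y ⟶ Spec (.of K)} (τ : Toric Δ s') (φ : X ⟶ Y) : TorMap Δ X where
  U i := φ ⁻¹ᵁ τ.U i
  χ i := (φ.app (τ.U i)).hom.toMonoidHom.comp (τ.χ i)
  cover ξ := τ.cover (φ ξ)
  le i j h := by
    intro ξ hξ
    exact τ.le i j h hξ
  res i j h m m' hm := by
    have h1 := τ.res i j h m m' hm
    have h2 := φ.naturality (homOfLE (τ.le i j h)).op
    have h3 := congrArg (fun f => f.hom (τ.χ i (Multiplicative.ofAdd m))) h2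
    show _ = (φ.app (τ.U j)).hom (τ.χ j (Multiplicative.ofAdd m'))
    rw [← h1]
    exact h3.symm
  basic i j m h := by
    have h1 := τ.basic i j m h
    show φ ⁻¹ᵁ τ.U j = X.basicOpen ((φ.app (τ.U i)).hom (τ.χ i (Multiplicative.ofAdd m)))
    rw [h1]
    exact Scheme.preimage_basicOpen φ _
  inter i j k h := by
    show φ ⁻¹ᵁ τ.U i ⊓ φ ⁻¹ᵁ τ.U j = φ ⁻¹ᵁ τ.U k
    rw [← τ.inter i j k h]
    rfl

variable {X : Scheme.{0}}

/-- the characters `χ^m`, `m ∈ σ^⊥ ∩ M`, as units -/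
noncomputable def TorMap.un (μ : TorMap Δ X) (i : Δ.ι) :
    Multiplicative (Δ.perp i) →* (Γ(X, μ.U i))ˣ :=
  MonoidHom.toHomUnits ((μ.χ i).comp
    (AddMonoidHom.toMultiplicative
      (AddSubmonoid.inclusion (perpOf_le_dualOf (Δ.gens i)) :
        (Δ.perp i).toAddSubmonoid →+ Δ.dual i)))

variable {K : Type} [NormedField K] {s : X ⟶ Spec (.of K)}

/-- `T = trop_φ : X^an → N_ℝ(Σ)`: a point `x = (ξ, |·|)` is mapped to
`(σ, m ↦ log|(φ^* χ^m)(x)|)`, where `σ` is the smallest cone with `φ(ξ) ∈ U_σ`; in other words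
`|(φ^* χ^m)(x)| = |χ^m(T x)|` for all `m ∈ σ^∨ ∩ M`. -/
structure IsTropOf (μ : TorMap Δ X) (T : An s → NR Δ) : Prop where
  /-- `x ∈ U_σ^an` -/
  mem : ∀ x : An s, x.1 ∈ μ.U (T x).i
  /-- the values of the characters -/
  val : ∀ (x : An s) (m : Δ.dual (T x).i),
    absA x (mem x) (μ.χ _ (Multiplicative.ofAdd m)) = (T x).val m

/-- the differential of `trop_φ` -/
noncomputable def tanM (μ : TorMap Δ X) (x : An s) {i : Δ.ι} (h : x.1 ∈ μ.U i) (δ : Tan x.2) :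
    Δ.perp i →+ ℝ :=
  δ.1.comp (MonoidHom.toAdditiveRight
    ((Units.map (X.evaluation (μ.U i) x.1 h).hom.toMonoidHom).comp (μ.un i)))

/-- points of `X^an` with `p + q` tangent vectors -/
abbrev TX (s : X ⟶ Spec (.of K)) (p q : ℕ) : Type :=
  Σ x : An s, (Fin p → Tan x.2) × (Fin q → Tan x.2)

/-- points of `N_ℝ(Σ)` with `p + q` tangent vectors -/
abbrev TN (Δ : Fan N) (p q : ℕ) : Type :=
  Σ y : NR Δ, (Fin p → Δ.perp y.i →+ ℝ) × (Fin q → Δ.perp y.i →+ ℝ)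

/-- `trop_φ` and its differential. The image consists of the points of `Trop_φ(X)` with tangent
vectors of `Trop_φ(X)`. -/
noncomputable def dT (μ : TorMap Δ X) (T : An s → NR Δ) (hT : IsTropOf μ T) (p q : ℕ) :
    TX s p q → TN Δ p q :=
  fun u => ⟨T u.1, fun k => tanM μ u.1 (hT.mem u.1) (u.2.1 k),
    fun k => tanM μ u.1 (hT.mem u.1) (u.2.2 k)⟩

/-- families of values on `Trop_φ(X)` -/
abbrev FamR (μ : TorMap Δ X) (T : An s → NR Δ) (hT : IsTropOf μ T) (p q : ℕ) : Type :=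
  Set.range (dT μ T hT p q) → ℝ

/-- Superforms on `Trop_φ(X)`: near every point of `Trop_φ(X)` they are restrictions of superforms
on `N_ℝ(Σ)`. -/
def IsFormR {μ : TorMap Δ X} {T : An s → NR Δ} {hT : IsTropOf μ T} {p q : ℕ}
    (ω : FamR μ T hT p q) : Prop :=
  ∀ y ∈ Set.range T, ∃ (R : ℕ) (F : Fin R → Fin N → ℤ) (α : SF R p q),
    (∀ l, F l ∈ Δ.perp y.i) ∧ α.Smooth ∧
      ∀ᶠ z in 𝓝 y, Δ.cone z.i ⊆ Δ.cone y.i ∧
        ∀ w : Set.range (dT μ T hT p q), w.1.1 = z → ω w = pullT w.1.1 F α w.1.2.1 w.1.2.2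

/-- `ω = d''η` on `Trop_φ(X)` -/
def IsDbarR {μ : TorMap Δ X} {T : An s → NR Δ} {hT : IsTropOf μ T} {p q : ℕ}
    (η : FamR μ T hT p q) (ω : FamR μ T hT p (q + 1)) : Prop :=
  ∀ y ∈ Set.range T, ∃ (R : ℕ) (F : Fin R → Fin N → ℤ) (α : SF R p q),
    (∀ l, F l ∈ Δ.perp y.i) ∧ α.Smooth ∧
      ∀ᶠ z in 𝓝 y, Δ.cone z.i ⊆ Δ.cone y.i ∧
        (∀ w : Set.range (dT μ T hT p q), w.1.1 = z →
          η w = pullT w.1.1 F α w.1.2.1 w.1.2.2) ∧
        ∀ w : Set.range (dT μ T hT p (q + 1)), w.1.1 = z →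
          ω w = pullT w.1.1 F α.dd w.1.2.1 w.1.2.2

/-- compact support -/
def CSuppR {μ : TorMap Δ X} {T : An s → NR Δ} {hT : IsTropOf μ T} {p q : ℕ}
    (ω : FamR μ T hT p q) : Prop :=
  ∃ C : Set (NR Δ), IsCompact C ∧ ∀ w, w.1.1 ∉ C → ω w = 0

/-- the pull-back `trop_φ^*` of superforms -/
noncomputable def pullR (μ : TorMap Δ X) (T : An s → NR Δ) (hT : IsTropOf μ T) (p q : ℕ) :
    FamR μ T hT p q →ₗ[ℝ] FamA s p q where
  toFun ω := fun x δ ε => ω ⟨dT μ T hT p q ⟨x, δ, ε⟩, Set.mem_range_self _⟩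
  map_add' _ _ := rfl
  map_smul' _ _ := rfl

end

end TDC
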