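import Pool.Agent.TDC.IndG
import Pool.Agent.TDC.Fini
import Pool.Agent.TDC.MLoc
import Pool.Agent.TDC.FinF
import Pool.Agent.TDC.EmF
import Pool.Agent.TDC.EmG
import Pool.Agent.TDC.ExT
import Pool.Agent.TDC.GEx
import Pool.Agent.TDC.Npg
import Pool.Agent.TDC.Frc
import Pool.Agent.TDC.Irr
import Pool.Agent.TDC.Psi
import Pool.Agent.TDC.Slo
import Pool.Agent.TDC.ConT
import Pool.Agent.TDC.Mnr
import Pool.Agent.TDC.Exc
import Pool.Agent.TDC.Tng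
import Pool.Agent.TDC.Avd
import Pool.Agent.TDC.Cmp
import Pool.Agent.TDC.Cpo
import Pool.Agent.TDC.Gen
import Pool.Agent.TDC.GNl
import Pool.Agent.TDC.Loc
import Pool.Agent.TDC.Aeq
import Pool.Agent.TDC.BaJ
import Pool.Agent.TDC.Wal
import Pool.Agent.TDC.StJ
import Pool.Agent.TDC.TrT
import Pool.Agent.TDC.INJ

/-!
# TDC, Phase 2: final assembly
-/

namespace TDC

theorem INJ_IndG : St_IndG := thm_IndG

theorem INJ_EmG : St_EmG := thm_EmG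

theorem INJ_Fini : St_Fini := thm_Fini

theorem INJ_Tng : St_Tng := thm_Tng thm_MLoc

theorem INJ_Psi : St_Psi := thm_Psi thm_EmF thm_EmG thm_Npg thm_Frc thm_Irr

theorem INJ_Con : St_Con := thm_Con thm_EmF thm_EmG thm_Avd INJ_Psi

theorem INJ_GEx : St_GEx := thm_GEx thm_ExT thm_IndG thm_EmG

theorem INJ_Exc : St_Exc := thm_Exc thm_EmF thm_EmG thm_IndG INJ_Psi thm_Slo thm_Mnr

theorem INJ_Cmp : St_Cmp := thm_Cmp thm_EmG INJ_GEx thm_IndG thm_FinF INJ_Exc INJ_Tng thm_Avd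

theorem INJ_Cpo : St_Cpo := thm_Cpo thm_EmF thm_EmG INJ_GEx thm_IndG INJ_Tng INJ_Cmp

theorem INJ_Aeq : St_Aeq := thm_Aeq thm_EmG thm_IndG thm_GNl INJ_Cpo

theorem INJ_Gen : St_Gen := thm_Gen thm_Fini INJ_Tng thm_IndG

theorem INJ_BaJ : St_BaJ := thm_BaJ thm_EmF thm_EmG thm_IndG INJ_Tng thm_GNl INJ_GEx INJ_Con

theorem INJ_TrT : St_TrT := thm_TrT thm_EmF INJ_GEx thm_Loc INJ_Aeq INJ_BaJ

theorem INJ_Wal : St_Wal := thm_Wal thm_Loc

theorem INJ_StJ : St_StJ := thm_StJ thm_Loc INJ_Wal INJ_Aeq INJ_BaJ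

/-- Phase 2: if `t^* b` is exact then `∫ b = 0` -/
theorem INJ_final : St_INJ :=
  thm_INJ INJ_Gen thm_Fini thm_GNl thm_EmF thm_EmG thm_IndG INJ_Tng INJ_StJ INJ_TrT

end TDC
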