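import Pool.Agent.TDC.StN
import Pool.Agent.TDC.StNa

/-!
# NLam: the choice of the coefficients (bridge)
-/

namespace TDC

open scoped Topology

theorem thm_NLam : St_NaLam → St_NLam := by
  intro h M _ i x y he ht S
  exact h M i x y ⟨he, fun p hp h0 => hp (ht p h0)⟩ S

end TDC
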