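import Pool.Agent.TDC.StNa

/-!
# TDN: step 2 for one function
-/

namespace TDC

open scoped Topology
open Polynomial

private theorem NaOne_psi_ne {A B : ℂ[X]} (hAB : IsCoprime A B) :
    A ^ 2 - B ^ 2 * (X ^ 3 + 1) ≠ 0 := by
  intro h
  have hf : (X ^ 3 + 1 : ℂ[X]) ≠ 0 := by
    have := Polynomial.X_pow_add_C_ne_zero (R := ℂ) (n := 3) (by norm_num) 1
    simpa using this
  have hdeg : (X ^ 3 + 1 : ℂ[X]).natDegree = 3 := by
    have := Polynomial.natDegree_X_pow_add_C (R := ℂ) (n := 3) (r := 1)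
    simpa using this
  have h1 : A ^ 2 = B ^ 2 * (X ^ 3 + 1) := sub_eq_zero.mp h
  by_cases hB : B = 0
  · rw [hB] at h1 hAB
    have hA : A = 0 := by
      have : A ^ 2 = 0 := by
        rw [h1]
        ring
      exact pow_eq_zero_iff (two_ne_zero) |>.mp this
    rw [hA] at hAB
    obtain ⟨u, w, huw⟩ := hAB
    rw [mul_zero, mul_zero, add_zero] at huw
    exact zero_ne_one huw
  · have h2 := congrArg Polynomial.natDegree h1
    rw [Polynomial.natDegree_pow, Polynomial.natDegree_mul (pow_ne_zero 2 hB) hf,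
      Polynomial.natDegree_pow, hdeg] at h2
    omega

private theorem NaOne_not_both {A B : ℂ[X]} (hAB : IsCoprime A B) {a b : ℂ} (hb : b ≠ 0)
    (h1 : A.eval a + B.eval a * b = 0) (h2 : A.eval a + B.eval a * (-b) = 0) : False := by
  have hA : A.eval a = 0 := by
    have : 2 * A.eval a = 0 := by linear_combination h1 + h2
    simpa using this
  have hB : B.eval a = 0 := by
    rw [hA, zero_add] at h1
    rcases mul_eq_zero.mp h1 with h | h
    · exact h
    · exact absurd h hb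
  obtain ⟨u, w, huw⟩ := hAB
  have h3 := congrArg (Polynomial.eval a) huw
  simp only [Polynomial.eval_add, Polynomial.eval_mul, Polynomial.eval_one, hA, hB, mul_zero,
    add_zero] at h3
  exact zero_ne_one h3

private theorem NaOne_D_root (D : Derivation ℤ ℂ ℂ) {s : ℂ} (hs : s ^ 3 + 1 = 0) : D s = 0 := by
  have hs0 : s ≠ 0 := by
    intro h
    rw [h] at hs
    norm_num at hs
  have h1 : D (s ^ 3) = 0 := by
    have : s ^ 3 = -1 := by linear_combination hs
    rw [this, map_neg, Derivation.map_one_eq_zero, neg_zero]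
  rw [Derivation.leibniz_pow] at h1
  have h2 : (3 : ℂ) * (s ^ 2 * D s) = 0 := by
    simpa [nsmul_eq_mul, smul_eq_mul] using h1
  have h3 : s ^ 2 * D s = 0 := by
    rcases mul_eq_zero.mp h2 with h | h
    · norm_num at h
    · exact h
  rcases mul_eq_zero.mp h3 with h | h
  · exact absurd h (pow_ne_zero 2 hs0)
  · exact h

open Classical in
private theorem NaOne_core (hNf : St_NaNf) (hOrd : St_NaOrd) (hPel : St_NaPel)
    (M : Type) [Field M] (i : ℂ →+* M) (x y : M) (hE : OnE i x y) (S : Finset ℂ)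
    (D : Derivation ℤ ℂ ℂ) (P : ℂ × ℂ) (hS : ∀ s ∈ S, D s = 0) (hDP : D P.1 ≠ 0) (hP : GoodE P)
    (o : ℂ × ℂ → ℤ) (ho : IsDiv i x y o)
    (hz : ∀ Q : ℂ × ℂ, GoodE Q → Q.1 ∉ S → Q ≠ P → o Q = 0) : ¬ 0 < o P := by
  intro hpos
  obtain ⟨φ, hφ, hUW, hord⟩ := ho
  obtain ⟨T, C, A, B, hT, hC, hAB, heq⟩ := hNf M i x y hE φ hφ hUW
  have hkey : ∀ Q : ℂ × ℂ, GoodE Q → o Q = ((T.rootMultiplicity Q.1 : ℤ) - C.rootMultiplicity Q.1 +
        if A.eval Q.1 + B.eval Q.1 * Q.2 = 0 then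
          ((A ^ 2 - B ^ 2 * (X ^ 3 + 1)).rootMultiplicity Q.1 : ℤ) else 0) := fun Q hQ =>
    hOrd.2 M i x y hE φ Q _ _ hQ.1 (hord Q hQ)
      (hOrd.1 M i x y hE φ T C A B hT hC hAB heq Q hQ.1 hQ.2.2)
  have hψ := NaOne_psi_ne hAB
  have hev : ∀ a' : ℂ, (A ^ 2 - B ^ 2 * (X ^ 3 + 1)).eval a' =
      A.eval a' ^ 2 - B.eval a' ^ 2 * (a' ^ 3 + 1) := fun a' => by
    simp
  generalize hψd : A ^ 2 - B ^ 2 * (X ^ 3 + 1) = ψ at hkey hψ hev
  -- other points
  have h1 : ∀ a' : ℂ, a' ∉ S → a' ≠ 0 → a' ^ 3 + 1 ≠ 0 → a' ≠ P.1 → ψ.eval a' ≠ 0 := by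
    intro a' haS ha0 haf haP hψa
    obtain ⟨b', hb'⟩ := IsAlgClosed.exists_pow_nat_eq (a' ^ 3 + 1) (n := 2) (by norm_num)
    have hb0 : b' ≠ 0 := by
      intro hc
      rw [hc] at hb'
      apply haf
      rw [← hb']
      ring
    have hQ1 : GoodE (a', b') := ⟨hb', ha0, hb0⟩
    have hQ2 : GoodE (a', -b') := ⟨by
      show (-b') ^ 2 = a' ^ 3 + 1
      rw [← hb']
      ring, ha0, neg_ne_zero.mpr hb0⟩
    have hz1 := hz _ hQ1 haS (fun h => haP (congrArg Prod.fst h))
    have hz2 := hz _ hQ2 haS (fun h => haP (congrArg Prod.fst h))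
    rw [hkey _ hQ1] at hz1
    rw [hkey _ hQ2] at hz2
    simp only at hz1 hz2
    have hm : 0 < ψ.rootMultiplicity a' := (Polynomial.rootMultiplicity_pos hψ).mpr hψa
    rw [hev a'] at hψa
    have hprod : (A.eval a' + B.eval a' * b') * (A.eval a' + B.eval a' * (-b')) = 0 := by
      rw [← hψa, ← hb']
      ring
    rcases mul_eq_zero.mp hprod with hc | hc
    · have hc2 : ¬ (A.eval a' + B.eval a' * (-b') = 0) := fun h =>
        NaOne_not_both hAB hb0 hc h
      rw [if_pos hc] at hz1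
      rw [if_neg hc2] at hz2
      omega
    · have hc2 : ¬ (A.eval a' + B.eval a' * b' = 0) := fun h =>
        NaOne_not_both hAB hb0 h hc
      rw [if_neg hc2] at hz1
      rw [if_pos hc] at hz2
      omega
  -- the point P
  have haS : P.1 ∉ S := fun h => hDP (hS _ h)
  have hP' : GoodE (P.1, -P.2) := ⟨by
    show (-P.2) ^ 2 = P.1 ^ 3 + 1
    rw [← hP.1]
    ring, hP.2.1, neg_ne_zero.mpr hP.2.2⟩
  have hPP : ((P.1, -P.2) : ℂ × ℂ) ≠ P := by
    intro h
    have h2 : -P.2 = P.2 := congrArg Prod.snd h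
    apply hP.2.2
    have h3 : 2 * P.2 = 0 := by linear_combination -h2
    simpa using h3
  have hz1 := hkey P hP
  have hz2 := hz _ hP' haS hPP
  rw [hkey _ hP'] at hz2
  simp only at hz2
  have h2 : (ψ.rootMultiplicity P.1 : ℤ) = o P := by
    by_cases hc1 : A.eval P.1 + B.eval P.1 * P.2 = 0
    · have hc2 : ¬ (A.eval P.1 + B.eval P.1 * (-P.2) = 0) := fun h =>
        NaOne_not_both hAB hP.2.2 hc1 h
      rw [if_pos hc1] at hz1
      rw [if_neg hc2] at hz2
      omega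
    · rw [if_neg hc1] at hz1
      by_cases hc2 : A.eval P.1 + B.eval P.1 * (-P.2) = 0
      · rw [if_pos hc2] at hz2
        omega
      · rw [if_neg hc2] at hz2
        omega
  have hN : 0 < ψ.rootMultiplicity P.1 := by omega
  obtain ⟨g, hg, hgn⟩ := Polynomial.exists_eq_pow_rootMultiplicity_mul_and_not_dvd ψ hψ P.1
  have hg0 : g ≠ 0 := by
    intro hc
    apply hψ
    rw [hg, hc, mul_zero]
  have hga : g.eval P.1 ≠ 0 := by
    intro hc
    exact hgn (Polynomial.dvd_iff_isRoot.mpr hc)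
  have hc0 : g.leadingCoeff ≠ 0 := Polynomial.leadingCoeff_ne_zero.mpr hg0
  have hmon : (Polynomial.C (g.leadingCoeff)⁻¹ * g).Monic := by
    unfold Polynomial.Monic
    rw [Polynomial.leadingCoeff_mul, Polynomial.leadingCoeff_C]
    exact inv_mul_cancel₀ hc0
  refine hPel D A B (Polynomial.C (g.leadingCoeff)⁻¹ * g) P.1 g.leadingCoeff
    (ψ.rootMultiplicity P.1) hDP hc0 hN hmon ?_ hAB ?_
  · intro s hs
    have hgs : g.eval s = 0 := by
      have h3 : (Polynomial.C (g.leadingCoeff)⁻¹ * g).eval s = 0 := hs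
      rw [Polynomial.eval_mul, Polynomial.eval_C] at h3
      rcases mul_eq_zero.mp h3 with h | h
      · exact absurd h (inv_ne_zero hc0)
      · exact h
    have hsa : s ≠ P.1 := by
      intro hc
      rw [hc] at hgs
      exact hga hgs
    have hψs : ψ.eval s = 0 := by
      rw [hg, Polynomial.eval_mul, hgs, mul_zero]
    by_cases hsS : s ∈ S
    · exact hS s hsS
    by_cases hs0 : s = 0
    · rw [hs0, map_zero]
    by_cases hsf : s ^ 3 + 1 = 0
    · exact NaOne_D_root D hsf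
    exact absurd hψs (h1 s hsS hs0 hsf hsa)
  · rw [hψd]
    have hCC : Polynomial.C g.leadingCoeff * Polynomial.C (g.leadingCoeff)⁻¹ = 1 := by
      rw [← Polynomial.C_mul, mul_inv_cancel₀ hc0, Polynomial.C_1]
    calc ψ = (X - Polynomial.C P.1) ^ ψ.rootMultiplicity P.1 * g := hg
      _ = (Polynomial.C g.leadingCoeff * Polynomial.C (g.leadingCoeff)⁻¹) *
          ((X - Polynomial.C P.1) ^ ψ.rootMultiplicity P.1 * g) := by rw [hCC, one_mul]
      _ = _ := by ring

theorem thm_NaOne : St_NaKer → St_NaNf → St_NaOrd → St_NaGrp → St_NaPel → St_NaOne := by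
  intro _ hNf hOrd hGrp hPel M _ i x y hE S D P hS hDP hP o ho hz
  have h1 := NaOne_core hNf hOrd hPel M i x y hE S D P hS hDP hP o ho hz
  have hG := hGrp M i x y hE
  have h2 := NaOne_core hNf hOrd hPel M i x y hE S D P hS hDP hP _ (hG.2.1 _ o hG.1 ho)
    (fun Q hQ hQS hQP => by
      show (0 : ℤ) - o Q = 0
      rw [hz Q hQ hQS hQP]
      norm_num)
  have h3 : ¬ 0 < (0 : ℤ) - o P := h2
  omega

end TDC
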