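import Pool.Agent.TDC.All
import Pool.Agent.TDC.NFld
import Pool.Agent.TDC.NE2a
import Pool.Agent.TDC.NE2
import Pool.Agent.TDC.NBd
import Pool.Agent.TDC.NE1
import Pool.Agent.TDC.NCut
import Pool.Agent.TDC.NTrG
import Pool.Agent.TDC.NMea
import Pool.Agent.TDC.NSpl
import Pool.Agent.TDC.NGen
import Pool.Agent.TDC.NFUn
import Pool.Agent.TDC.NBal
import Pool.Agent.TDC.NVan
import Pool.Agent.TDC.NGS
import Pool.Agent.TDC.NPol
import Pool.Agent.TDC.NPsi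
import Pool.Agent.TDC.NInd
import Pool.Agent.TDC.NBas
import Pool.Agent.TDC.NBmp
import Pool.Agent.TDC.NTub
import Pool.Agent.TDC.NLam
import Pool.Agent.TDC.NAsy
import Pool.Agent.TDC.NSub
import Pool.Agent.TDC.NaLam
import Pool.Agent.TDC.NaAsy
import Pool.Agent.TDC.NaTub
import Pool.Agent.TDC.NaSte
import Pool.Agent.TDC.NaKer
import Pool.Agent.TDC.NaNf
import Pool.Agent.TDC.NaOrd
import Pool.Agent.TDC.NaGrp
import Pool.Agent.TDC.NaPel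
import Pool.Agent.TDC.NaDer
import Pool.Agent.TDC.NaOne
import Pool.Agent.TDC.NaLin
import Pool.Agent.TDC.NaVal
import Pool.Agent.TDC.NKac
import Pool.Agent.TDC.NSch
import Pool.Agent.TDC.NsFin
import Pool.Agent.TDC.NsRed
import Pool.Agent.TDC.NsPro
import Pool.Agent.TDC.NsVan
import Pool.Agent.TDC.NsTrl
import Pool.Agent.TDC.NsTro
import Pool.Agent.TDC.NsPul
import Pool.Agent.TDC.NsLin
import Pool.Agent.TDC.NsFld

/-!
# TDN: all modules of Theorem N together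
-/

set_option autoImplicit false

namespace TDC

theorem cn_NBas : St_NBas := thm_NBas

theorem cn_NaKer : St_NaKer := thm_NaKer
theorem cn_NaNf : St_NaNf := thm_NaNf cn_NaKer
theorem cn_NaOrd : St_NaOrd := thm_NaOrd cn_NaKer
theorem cn_NaGrp : St_NaGrp := thm_NaGrp cn_NaKer cn_NaOrd
theorem cn_NaOne : St_NaOne := thm_NaOne cn_NaKer cn_NaNf cn_NaOrd cn_NaGrp thm_NaPel
theorem cn_NaLam : St_NaLam := thm_NaLam thm_NaDer cn_NaGrp cn_NaOne thm_NaLin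
theorem cn_NaTub : St_NaTub := thm_NaTub
theorem cn_NaVal : St_NaVal := thm_NaVal cn_NaTub
theorem cn_NaAsy : St_NaAsy := thm_NaAsy cn_NaKer cn_NaNf cn_NaOrd cn_NaTub cn_NaVal

theorem cn_NTub : St_NTub := thm_NTub cn_NBas cn_NaTub thm_NaSte
theorem cn_NLam : St_NLam := thm_NLam cn_NaLam
theorem cn_NAsy : St_NAsy := thm_NAsy cn_NBas cn_NaAsy
theorem cn_NSub : St_NSub := thm_NSub

theorem cn_NInd : St_NInd := thm_NInd cl_MLoc cn_NBas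
theorem cn_NPsi : St_NPsi := thm_NPsi cn_NBas cl_Npg cl_Frc cl_Irr
theorem cn_NGS : St_NGS :=
  thm_NGS cn_NBas cn_NInd cn_NPsi thm_NPol cn_NAsy cn_NSub cl_EmG cl_IndG
theorem cn_NBal : St_NBal := thm_NBal cn_NBas cn_NGS thm_NVan cl_EmG

theorem cn_NFUn : St_NFUn := thm_NFUn cn_NBas cl_EmG
theorem cn_NGen : St_NGen := thm_NGen cn_NBas cn_NFUn cl_Tng cl_IndG cl_GenI cl_GEx cl_EmG
theorem cn_NSpl : St_NSpl := thm_NSpl cn_NBas cn_NTub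
theorem cn_NMea : St_NMea := thm_NMea cl_EmF cl_Loc cl_BaJ
theorem cn_NTrG : St_NTrG := thm_NTrG cl_EmF cl_GEx cn_NMea cl_Aeq cl_BaJ
theorem cn_NCut : St_NCut := thm_NCut cn_NBas cn_NTub cl_EmG cl_GNl cl_StJ cn_NMea
theorem cn_NE1 : St_NE1 :=
  thm_NE1 cn_NBas cn_NTub cn_NSpl cl_EmG cl_GNl cl_GEx cl_BaJ cn_NTrG
theorem cn_NE2a : St_NE2a :=
  thm_NE2a cn_NBas cn_NTub cn_NTrG cn_NMea cl_EmG cl_EmF cl_GNl cl_GEx cl_Tng cl_IndG
theorem cn_NE2 : St_NE2 :=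
  thm_NE2 cn_NBas cn_NTub cn_NSpl cn_NBal thm_NBd cn_NE2a cn_NMea cl_EmG cl_EmF cl_GNl cl_GEx
    cl_BaJ cl_Fini
theorem cn_NBmp : St_NBmp := thm_NBmp cn_NBas cn_NTub cl_CSu

theorem cn_NFld : St_NFld :=
  thm_NFld cn_NBas cn_NTub cn_NLam cn_NBmp cl_Pair cn_NGen cn_NE2 cn_NE1 cn_NCut cl_Gen cl_Fini
    cl_GNl cl_EmG cl_EmF cl_IndG cl_Tng

theorem cn_NsTro : St_NsTro := thm_NsTro thm_FFace thm_FVal
theorem cn_NsRed : St_NsRed :=
  thm_NsRed (thm_NsFld cn_NFld) (thm_NsPul cn_NsTro) (thm_NsVan cn_NsTro cl_DetZ) thm_NsTrl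
    cl_UpA cl_DnA cl_DnD cl_ExtE cl_Clos
theorem cn_NsPro : St_NsPro := thm_NsPro cn_NsTro cl_GAff cl_FGord cl_FVal cl_FFace
theorem cn_NsFin : St_NsFin := thm_NsFin cn_NsRed cn_NsPro

end TDC
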