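import Pool.Agent.TDC.StNa

/-!
# TDN: [NKex] existence of the base field: `K = ℂ((X))`
-/

namespace TDC

open scoped WithZero

/-- the valuation of `ℂ((X))` has rank one, with the embedding `exp n ↦ 2 ^ n` of the value group -/
@[instance_reducible]
noncomputable def NKex_r :
    Valuation.RankOne (Valued.v : Valuation (LaurentSeries ℂ) ℤᵐ⁰) where
  hom' := (WithZeroMulInt.toNNReal (e := 2) two_ne_zero).comp
    MonoidWithZeroHom.ValueGroup₀.embedding
  strictMono' := (WithZeroMulInt.toNNReal_strictMono (e := 2) one_lt_two).comp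
    MonoidWithZeroHom.ValueGroup₀.embedding_strictMono
  exists_val_nontrivial := by
    refine ⟨HahnSeries.single 1 (1 : ℂ), ?_, ?_⟩
    · have := LaurentSeries.valuation_single_zpow ℂ 1
      rw [this]
      exact WithZero.exp_ne_zero
    · have := LaurentSeries.valuation_single_zpow ℂ 1
      rw [this]
      intro h
      have h2 : WithZero.exp (-1 : ℤ) = WithZero.exp (0 : ℤ) := h
      rw [WithZero.exp_inj] at h2
      norm_num at h2

/-- constants have value at most one -/
theorem NKex_C (a : ℂ) : Valued.v (HahnSeries.C a : LaurentSeries ℂ) ≤ (1 : ℤᵐ⁰) := by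
  have h := (LaurentSeries.valuation_le_iff_coeff_lt_eq_zero ℂ (D := 0)
    (f := (HahnSeries.C a : LaurentSeries ℂ))).2 (fun n hn => by
      rw [HahnSeries.C_apply, HahnSeries.coeff_single_of_ne (ne_of_lt hn)])
  simpa using h

theorem NKex_one (a : ℂ) (ha : a ≠ 0) : Valued.v (HahnSeries.C a : LaurentSeries ℂ) = (1 : ℤᵐ⁰) := by
  apply le_antisymm (NKex_C a)
  have h1 := NKex_C a⁻¹
  have h2 : (HahnSeries.C a : LaurentSeries ℂ) * HahnSeries.C a⁻¹ = 1 := by
    rw [← map_mul, mul_inv_cancel₀ ha, map_one]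
  have h3 : Valued.v (HahnSeries.C a : LaurentSeries ℂ) *
      Valued.v (HahnSeries.C a⁻¹ : LaurentSeries ℂ) = (1 : ℤᵐ⁰) := by
    rw [← map_mul, h2, map_one]
  calc (1 : ℤᵐ⁰) = Valued.v (HahnSeries.C a : LaurentSeries ℂ) *
      Valued.v (HahnSeries.C a⁻¹ : LaurentSeries ℂ) := h3.symm
    _ ≤ Valued.v (HahnSeries.C a : LaurentSeries ℂ) * 1 := by gcongr
    _ = Valued.v (HahnSeries.C a : LaurentSeries ℂ) := mul_one _

theorem NKex_res (z : LaurentSeries ℂ) (hz : Valued.v z ≤ (1 : ℤᵐ⁰)) :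
    Valued.v (z - HahnSeries.C (z.coeff 0)) < (1 : ℤᵐ⁰) := by
  have h0 : Valued.v z ≤ WithZero.exp (-(0 : ℤ)) := by simpa using hz
  have h1 := (LaurentSeries.valuation_le_iff_coeff_lt_eq_zero ℂ (D := 0) (f := z)).1 h0
  have h2 := (LaurentSeries.valuation_le_iff_coeff_lt_eq_zero ℂ (D := 1)
    (f := z - HahnSeries.C (z.coeff 0))).2 (fun n hn => by
      rcases eq_or_ne n 0 with rfl | hn0
      · rw [HahnSeries.coeff_sub, HahnSeries.C_apply, HahnSeries.coeff_single_same, sub_self]
      · rw [HahnSeries.coeff_sub, HahnSeries.C_apply, HahnSeries.coeff_single_of_ne hn0, sub_zero,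
          h1 n (by omega)])
  refine lt_of_le_of_lt h2 ?_
  have h3 : WithZero.exp (-(1 : ℤ)) < WithZero.exp (0 : ℤ) := by
    rw [WithZero.exp_lt_exp]
    norm_num
  exact h3

theorem thm_NKex : St_NKex := by
  let r := NKex_r
  let nf := Valued.toNontriviallyNormedField (LaurentSeries ℂ) ℤᵐ⁰
  refine ⟨LaurentSeries ℂ, nf, ?_, ?_, HahnSeries.C, ?_, ?_⟩
  · exact Valued.instIsUltrametricDist (LaurentSeries ℂ) ℤᵐ⁰
  · exact LaurentSeries.instLaurentSeriesComplete
  · refine ResC.mk ?_ ?_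
    · intro a ha
      have h1 := NKex_one a ha
      apply le_antisymm
      · exact Valued.toNormedField.norm_le_one_iff.2 h1.le
      · exact Valued.toNormedField.one_le_norm_iff.2 h1.ge
    · intro z hz
      exact ⟨z.coeff 0, Valued.toNormedField.norm_lt_one_iff.2
        (NKex_res z (Valued.toNormedField.norm_le_one_iff.1 hz))⟩
  · have h1 : Countable ℤᵐ⁰ := inferInstanceAs (Countable (Option (Multiplicative ℤ)))
    refine Set.Countable.mono ?_ (Set.countable_range fun g : ℤᵐ⁰ =>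
      ((WithZeroMulInt.toNNReal (e := 2) two_ne_zero g : NNReal) : ℝ))
    rintro _ ⟨a, rfl⟩
    exact ⟨MonoidWithZeroHom.ValueGroup₀.embedding
      ((Valued.v : Valuation (LaurentSeries ℂ) ℤᵐ⁰).restrict a), rfl⟩

end TDC
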