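import Pool.Agent.TDC.OutDefs
import Pool.Agent.TDC.DefsNs2

/-!
# TDN: conversion between the definitions of `OutDefs.lean` and those of `Defs.lean`, `DefsNs.lean`
-/

set_option autoImplicit false

namespace TDC

namespace Out

open scoped Topology
open AlgebraicGeometry CategoryTheory

variable {N : ℕ} {Δ : Fan N} {K : Type} [NormedField K] {X Y : Scheme.{0}} {s : X ⟶ Spec (.of K)}
  {s' : Y ⟶ Spec (.of K)}

/-- the toric variety in the sense of `DefsF.lean` -/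
noncomputable def ToricVar.old (τ : ToricVar Δ s') : Toric Δ s' where
  U := τ.U
  aff := τ.aff
  cover := τ.cover
  χ i :=
    { toFun := fun a => τ.χ i (Multiplicative.toAdd a)
      map_one' := τ.one i _ rfl
      map_mul' := fun _ _ => τ.mul i _ _ _ rfl }
  basis := τ.basis
  le := τ.le
  res i j h a b hab := τ.res i j h a b hab
  basic i j a h := τ.basic i j a h
  inter := τ.inter

theorem isTropOf {τ : ToricVar Δ s'} {φ : X ⟶ Y} {T : AnX s → NR Δ} (hT : IsTropX τ φ T) :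
    IsTropOf (s := s) (τ.old.pull φ) T where
  mem := hT.mem
  val x m := hT.val x m

theorem isTropX {τ : ToricVar Δ s'} {φ : X ⟶ Y} {T : An s → NR Δ}
    (hT : IsTropOf (τ.old.pull φ) T) : IsTropX (s := s) τ φ T where
  mem := hT.mem
  val x m := hT.val x m

theorem isDbarX {p q : ℕ} {η : FX s p q} {ω : FX s p (q + 1)} :
    IsDbarX η ω ↔ IsDbarA (s := s) (p := p) (q := q) η ω := Iff.rfl

theorem cSuppX {p q : ℕ} {ω : FX s p q} : CSuppX ω ↔ CSuppA (s := s) (p := p) (q := q) ω := by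
  constructor
  · rintro ⟨C, hC, h⟩
    exact ⟨C, hC, fun x hx => funext fun δ => funext fun ε => h x hx δ ε⟩
  · rintro ⟨C, hC, h⟩
    refine ⟨C, hC, fun x hx δ ε => ?_⟩
    have h1 := h x hx
    exact congrFun (congrFun h1 δ) ε

theorem tanM_eq {τ : ToricVar Δ s'} {φ : X ⟶ Y} {T : AnX s → NR Δ} (hT : IsTropX τ φ T)
    (x : AnX s) (δ : TX x) :
    tanM (s := s) (τ.old.pull φ) x (i := (T x).i) (hT.mem x) δ = tanX τ φ hT x δ := rfl

variable {τ : ToricVar Δ s'} {φ : X ⟶ Y} {T : AnX s → NR Δ} (hT : IsTropX τ φ T) {p q : ℕ}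

/-- a family of values on `Trop_φ(X)` in the sense of `DefsNs.lean` -/
noncomputable def FR.old {hT : IsTropX τ φ T} (ω : FR hT p q) :
    FamR (s := s) (τ.old.pull φ) T (isTropOf hT) p q :=
  fun w => ω ⟨w.1, by
    obtain ⟨u, hu⟩ := w.2
    exact ⟨u.1, u.2.1, u.2.2, hu⟩⟩

/-- a family of values in the sense of `OutDefs.lean` -/
noncomputable def FR.new (ω : FamR (s := s) (τ.old.pull φ) T (isTropOf hT) p q) : FR hT p q :=
  fun w => ω ⟨w.w, by
    obtain ⟨x, δ, ε, hu⟩ := w.2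
    exact ⟨⟨x, δ, ε⟩, hu⟩⟩

variable {hT}

theorem pull_old (ω : FR hT p q) :
    pullR (s := s) (τ.old.pull φ) T (isTropOf hT) p q ω.old = pullFR ω := rfl

theorem isDbarFR {η : FR hT p q} {ω : FR hT p (q + 1)} (h : IsDbarFR η ω) :
    IsDbarR η.old ω.old := by
  rintro y ⟨x, rfl⟩
  obtain ⟨R, F, α, hF, hα, hz⟩ := h x
  refine ⟨R, F, α, hF, hα, hz.mono fun z hz => ⟨hz.1, fun w hw => ?_, fun w hw => ?_⟩⟩
  · exact hz.2.1 _ hw
  · exact hz.2.2 _ hw

theorem cSuppFR {ω : FR hT p q} (h : CSuppFR ω) : CSuppR ω.old := by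
  obtain ⟨C, hC, h⟩ := h
  exact ⟨C, hC, fun w hw => h _ hw⟩

theorem not_surjHc {m : ℕ} (hp : PropR (s := s) (τ.old.pull φ) T (isTropOf hT))
    (h : ¬ Function.Surjective (tropHc (s := s) (τ.old.pull φ) T (isTropOf hT) p (m + 1) hp)) :
    ¬ SurjHc hT p m := by
  intro hs
  refine h fun c => ?_
  obtain ⟨⟨ω, hω⟩, rfl⟩ := Submodule.mkQ_surjective _ c
  obtain ⟨α, η, hα, hαc, hηc, hd⟩ := hs ω hω.1 (cSuppX.2 hω.2)
  refine ⟨Submodule.Quotient.mk ⟨α.old, isDbarFR hα, cSuppFR hαc⟩, ?_⟩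
  refine Eq.symm ((Submodule.Quotient.eq _).2 ?_)
  exact ⟨η, cSuppX.1 hηc, hd⟩

theorem not_surjH {m : ℕ}
    (h : ¬ Function.Surjective (tropH (s := s) (τ.old.pull φ) T (isTropOf hT) p (m + 1))) :
    ¬ SurjH hT p m := by
  intro hs
  refine h fun c => ?_
  obtain ⟨⟨ω, hω⟩, rfl⟩ := Submodule.mkQ_surjective _ c
  obtain ⟨α, η, hα, hd⟩ := hs ω hω
  refine ⟨Submodule.Quotient.mk ⟨α.old, isDbarFR hα⟩, ?_⟩
  refine Eq.symm ((Submodule.Quotient.eq _).2 ?_)
  exact ⟨η, hd⟩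

theorem dbar_pull {η : FR hT p q} {ω : FR hT p (q + 1)} (h : IsDbarFR η ω) :
    IsDbarX (pullFR η) (pullFR ω) :=
  (thm_NsPul (thm_NsTro thm_FFace thm_FVal) N Δ K X s (τ.old.pull φ) T (isTropOf hT) p q).2 _ _
    (isDbarFR h)

theorem supp_pull (hp : PropR (s := s) (τ.old.pull φ) T (isTropOf hT)) {ω : FR hT p q}
    (h : CSuppFR ω) : CSuppX (pullFR ω) := cSuppX.2 (hp p q ω.old (cSuppFR h))

theorem continuous_T (T : AnX s → NR Δ) (h : Continuous (X := An s) T) : Continuous T := h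

end Out

end TDC
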