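import Pool.Agent.TDC.DefsF

/-!
# MP_f0f507_ag: superforms on `X^an` and on `Trop_φ(X)`: the definitions in short form

Same definitions as in `Defs.lean`, `DefsNs.lean`, with names for the types which occur (residue
fields, sections, tangent spaces).
-/

set_option autoImplicit false

namespace TDC

namespace Out

open scoped Topology
open AlgebraicGeometry CategoryTheory

/-! ## 1. Tangent vectors over a field -/

section field

variable {K M : Type} [NormedField K] [Field M] {φ : K →+* M}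

/-- the tangent space at `x`: homomorphisms `Mˣ → ℝ` which vanish on all `f` with
`|f(x)| ∈ |K|` -/
def TV (x : Pt φ) : Type := Tan x

/-- the value `δ(f)` -/
def TV.ap {x : Pt φ} (δ : TV x) (f : Mˣ) : ℝ := Subtype.val δ (Additive.ofMul f)

/-- the value at `x` of the pull-back of the superform `α` on `ℝ^R` by `log|F|` -/
noncomputable def pullV {R p q : ℕ} (x : Pt φ) (F : Fin R → Mˣ) (α : SF R p q)
    (δ : Fin p → TV x) (ε : Fin q → TV x) : ℝ :=
  ∑ I : Fin p → Fin R, (Matrix.of fun i j => (δ i).ap (F (I j))).det *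
    α I (fun k => Real.log (x.v (F k))) (fun i k => (ε i).ap (F k))

end field

/-! ## 2. The analytification and its superforms -/

/-- the residue field `κ(ξ)` -/
def RF (X : Scheme.{0}) (ξ : X) : Type := X.residueField ξ

noncomputable instance instFieldRF (X : Scheme.{0}) (ξ : X) : Field (RF X ξ) :=
  Scheme.instFieldCarrierResidueField X ξ

/-- the ring `Γ(X, U)` -/
def Sec (X : Scheme.{0}) (U : X.Opens) : Type := Γ(X, U)

noncomputable instance instRingSec (X : Scheme.{0}) (U : X.Opens) : CommRing (Sec X U) :=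
  (Γ(X, U)).commRing

/-- the value of a section at a point -/
noncomputable def evl {X : Scheme.{0}} {U : X.Opens} (ξ : X) (h : ξ ∈ U) : Sec X U →+* RF X ξ :=
  (X.evaluation U ξ h).hom

/-- restriction of sections -/
noncomputable def res {X : Scheme.{0}} {U V : X.Opens} (h : V ≤ U) : Sec X U →+* Sec X V :=
  (X.presheaf.map (homOfLE h).op).hom

/-- pull-back of sections -/
noncomputable def pb {X Y : Scheme.{0}} (φ : X ⟶ Y) (U : Y.Opens) :
    Sec Y U →+* Sec X (φ ⁻¹ᵁ U) := (φ.app U).hom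

section scheme

variable {K : Type} [NormedField K] {X : Scheme.{0}} (s : X ⟶ Spec (.of K))

/-- the structure map `K → Γ(X, X)` -/
noncomputable def kG : K →+* Sec X ⊤ := (pb s ⊤).comp (Scheme.ΓSpecIso (.of K)).inv.hom

/-- the structure map `K → Γ(X, U)` -/
noncomputable def kS (U : X.Opens) : K →+* Sec X U := (res le_top).comp (kG s)

/-- the structure map `K → κ(ξ)` -/
noncomputable def kap (ξ : X) : K →+* RF X ξ := (evl ξ (U := ⊤) trivial).comp (kG s)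

/-- the set underlying the analytification `X^an`: points `ξ` of `X` with an absolute value on
the residue field extending the one of `K` -/
def AnX : Type := Σ ξ : X, Pt (kap s ξ)

variable {s}

/-- the point `ξ` of `X` -/
def AnX.pt (x : AnX s) : X := x.1

/-- the absolute value on `κ(ξ)` -/
def AnX.v (x : AnX s) : Pt (kap s x.pt) := x.2

/-- the absolute value of `f ∈ Γ(X, U)` at `x ∈ U^an` -/
noncomputable def absX (x : AnX s) {U : X.Opens} (h : x.pt ∈ U) (f : Sec X U) : ℝ :=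
  x.v.v (evl x.pt h f)

/-- the topology of `X^an`: generated by the sets `{x ∈ U^an : a < |f(x)| < b}` -/
instance : TopologicalSpace (AnX s) :=
  TopologicalSpace.generateFrom
    {T | ∃ (U : X.Opens) (f : Sec X U) (a b : ℝ),
      T = {x | ∃ h : x.pt ∈ U, a < absX x h f ∧ absX x h f < b}}

/-- the tangent space at `x ∈ X^an` -/
def TX (x : AnX s) : Type := TV x.v

/-- the value `δ(f)`, `f` a unit of `Γ(X, U)` -/
noncomputable def TX.ap {x : AnX s} (δ : TX x) {U : X.Opens} (h : x.pt ∈ U) (f : (Sec X U)ˣ) : ℝ :=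
  TV.ap δ (Units.map (evl x.pt h).toMonoidHom f)

/-- families of values on `X^an` -/
def FX (s : X ⟶ Spec (.of K)) (p q : ℕ) : Type := ∀ x : AnX s, (Fin p → TX x) → (Fin q → TX x) → ℝ

/-- the value at `x` of the pull-back `F^*α` by a tuple of units of `Γ(X, U)` -/
noncomputable def pullX {R p q : ℕ} (x : AnX s) {U : X.Opens} (h : x.pt ∈ U)
    (F : Fin R → (Sec X U)ˣ) (α : SF R p q) (δ : Fin p → TX x) (ε : Fin q → TX x) : ℝ :=
  pullV x.v (fun i => Units.map (evl x.pt h).toMonoidHom (F i)) α δ ε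

/-- `ω = d''η` on `X^an`, `η` a superform of bidegree `(p,q)` -/
def IsDbarX {p q : ℕ} (η : FX s p q) (ω : FX s p (q + 1)) : Prop :=
  ∀ x : AnX s, ∃ (U : X.Opens) (R : ℕ) (F : Fin R → (Sec X U)ˣ) (α : SF R p q), α.Smooth ∧
    ∀ᶠ y in 𝓝 x, ∃ h : y.pt ∈ U, η y = pullX y h F α ∧ ω y = pullX y h F α.dd

/-- compact support -/
def CSuppX {p q : ℕ} (ω : FX s p q) : Prop :=
  ∃ C : Set (AnX s), IsCompact C ∧ ∀ x, x ∉ C → ∀ δ ε, ω x δ ε = 0

end scheme

/-! ## 3. `Trop_φ(X)` and its superforms -/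

section trop

variable {N : ℕ} {Δ : Fan N}

/-- the tangent space `Hom(σ^⊥ ∩ M, ℝ) = N_ℝ/span(σ)` of `N_ℝ(Σ)` at `y = (σ, φ)` -/
def TY (y : NR Δ) : Type := Δ.perp y.i →+ ℝ

/-- the value `δ(χ^m)`, `m ∈ σ^⊥ ∩ M` (`0` for other `m`) -/
noncomputable def TY.ap {y : NR Δ} (δ : TY y) (m : Fin N → ℤ) : ℝ := evm δ m

/-- points of `N_ℝ(Σ)` with `p + q` tangent vectors -/
def TN (Δ : Fan N) (p q : ℕ) : Type := Σ y : NR Δ, (Fin p → TY y) × (Fin q → TY y)

/-- the point -/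
def TN.pt {p q : ℕ} (w : TN Δ p q) : NR Δ := w.1

/-- the first `p` tangent vectors -/
def TN.l {p q : ℕ} (w : TN Δ p q) : Fin p → TY w.pt := w.2.1

/-- the last `q` tangent vectors -/
def TN.r {p q : ℕ} (w : TN Δ p q) : Fin q → TY w.pt := w.2.2

/-- the value at `w` of the pull-back of the superform `α` on `ℝ^R` by the characters `χ^{F_l}` -/
noncomputable def pullN {R p q : ℕ} (F : Fin R → Fin N → ℤ) (α : SF R p q) (w : TN Δ p q) : ℝ :=
  ∑ I : Fin p → Fin R, (Matrix.of fun k l => (w.l k).ap (F (I l))).det *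
    α I (fun l => evm w.pt.φ (F l)) (fun k l => (w.r k).ap (F l))

/-- the set `σ_i^∨ ∩ M` -/
def DM (Δ : Fan N) (i : Δ.ι) : Type := Δ.dual i

/-- the underlying element of `M = ℤ^N` -/
def DM.m {i : Δ.ι} (a : DM Δ i) : Fin N → ℤ := Subtype.val a

variable {K : Type} [NormedField K] {X Y : Scheme.{0}} {s : X ⟶ Spec (.of K)}
  {s' : Y ⟶ Spec (.of K)}

/-- `Y → Spec K` is the toric variety of the fan `Δ`: it is covered by affine open sets `U_σ`,
`σ ∈ Δ`, with `Γ(Y, U_σ) = K[σ^∨ ∩ M] = ⊕ K χ^m`, glued as usual: for `τ ⊆ σ` the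
inclusion `U_τ ⊆ U_σ` corresponds to `K[σ^∨ ∩ M] ⊆ K[τ^∨ ∩ M]`, `U_τ` is the principal open set
`χ^m ≠ 0` of `U_σ` for the face `τ = σ ∩ m^⊥`, and `U_σ ∩ U_τ = U_{σ ∩ τ}`. -/
structure ToricVar (Δ : Fan N) (s' : Y ⟶ Spec (.of K)) where
  /-- the open sets `U_σ` -/
  U : Δ.ι → Y.Opens
  /-- they are affine -/
  aff : ∀ i, IsAffineOpen (U i)
  /-- they cover `Y` -/
  cover : ∀ ξ : Y, ∃ i, ξ ∈ U i
  /-- the characters `χ^m ∈ Γ(Y, U_σ)`, `m ∈ σ^∨ ∩ M` -/
  χ : ∀ i, DM Δ i → Sec Y (U i)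
  /-- `χ^0 = 1` -/
  one : ∀ i (a : DM Δ i), a.m = 0 → χ i a = 1
  /-- `χ^(m + m') = χ^m χ^m'` -/
  mul : ∀ i (a b c : DM Δ i), c.m = a.m + b.m → χ i c = χ i a * χ i b
  /-- they form a basis of `Γ(Y, U_σ)` over `K` -/
  basis : ∀ i, Function.Bijective fun f : DM Δ i →₀ K => f.sum fun a c => kS s' (U i) c * χ i a
  /-- `U_τ ⊆ U_σ` for `τ ⊆ σ` -/
  le : ∀ i j, Δ.cone j ⊆ Δ.cone i → U j ≤ U i
  /-- restriction of characters -/
  res : ∀ i j (h : Δ.cone j ⊆ Δ.cone i) (a : DM Δ i) (b : DM Δ j), a.m = b.m →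
    res (le i j h) (χ i a) = χ j b
  /-- faces give principal open sets -/
  basic : ∀ i j (a : DM Δ i), Δ.cone j = faceOf (Δ.gens i) a.m → U j = Y.basicOpen (χ i a)
  /-- intersections -/
  inter : ∀ i j k, Δ.cone k = Δ.cone i ∩ Δ.cone j → U i ⊓ U j = U k

/-- `φ^*χ^m ∈ Γ(X, φ⁻¹ U_σ)`, `m ∈ σ^∨ ∩ M` -/
noncomputable def chi (τ : ToricVar Δ s') (φ : X ⟶ Y) (i : Δ.ι) (a : DM Δ i) : Sec X (φ ⁻¹ᵁ τ.U i) :=
  pb φ (τ.U i) (τ.χ i a)

/-- `T = trop_φ : X^an → N_ℝ(Σ)`: a point `x = (ξ, |·|)` is mapped to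
`(σ, m ↦ log|(φ^* χ^m)(x)|)`, where `σ` is the smallest cone with `φ(ξ) ∈ U_σ`; in other words
`|(φ^* χ^m)(x)| = |χ^m(T x)|` for all `m ∈ σ^∨ ∩ M`. -/
structure IsTropX (τ : ToricVar Δ s') (φ : X ⟶ Y) (T : AnX s → NR Δ) : Prop where
  /-- `x ∈ U_σ^an` -/
  mem : ∀ x : AnX s, x.pt ∈ φ ⁻¹ᵁ τ.U (T x).i
  /-- the values of the characters -/
  val : ∀ (x : AnX s) (a : DM Δ (T x).i), absX x (mem x) (chi τ φ (T x).i a) = (T x).val a.m

/-- `m ∈ σ^⊥ ∩ M` as an element of `σ^∨ ∩ M` -/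
def pos {i : Δ.ι} (m : Δ.perp i) : DM Δ i := ⟨m.1, fun v hv => (m.2 v hv).ge⟩

theorem chi_inv (τ : ToricVar Δ s') (φ : X ⟶ Y) (i : Δ.ι) (m : Δ.perp i) :
    chi τ φ i (pos m) * chi τ φ i (pos (-m)) = 1 := by
  unfold chi
  rw [← map_mul, ← τ.mul i (pos m) (pos (-m)) (pos 0) ?_, τ.one i (pos 0) rfl, map_one]
  exact (add_neg_cancel m.1).symm

/-- `φ^*χ^m` for `m ∈ σ^⊥ ∩ M`, as a unit -/
noncomputable def chiU (τ : ToricVar Δ s') (φ : X ⟶ Y) (i : Δ.ι) (m : Δ.perp i) :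
    (Sec X (φ ⁻¹ᵁ τ.U i))ˣ :=
  Units.mkOfMulEqOne (chi τ φ i (pos m)) (chi τ φ i (pos (-m))) (chi_inv τ φ i m)

theorem chiU_add (τ : ToricVar Δ s') (φ : X ⟶ Y) (i : Δ.ι) (a b : Δ.perp i) :
    chiU τ φ i (a + b) = chiU τ φ i a * chiU τ φ i b := by
  refine Units.ext ?_
  show chi τ φ i (pos (a + b)) = chi τ φ i (pos a) * chi τ φ i (pos b)
  unfold chi
  rw [← map_mul, ← τ.mul i (pos a) (pos b) (pos (a + b)) rfl]

/-- the differential of `trop_φ` at `x`: `δ ↦ (m ↦ δ(φ^*χ^m))` -/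
noncomputable def tanX (τ : ToricVar Δ s') (φ : X ⟶ Y) {T : AnX s → NR Δ} (hT : IsTropX τ φ T)
    (x : AnX s) (δ : TX x) : TY (T x) :=
  AddMonoidHom.mk' (fun m => δ.ap (hT.mem x) (chiU τ φ (T x).i m)) (by
    intro a b
    show δ.ap (hT.mem x) (chiU τ φ (T x).i (a + b)) =
      δ.ap (hT.mem x) (chiU τ φ (T x).i a) + δ.ap (hT.mem x) (chiU τ φ (T x).i b)
    rw [chiU_add]
    unfold TX.ap TV.ap
    rw [map_mul, ofMul_mul, map_add])

/-- `(x, δ, ε) ↦ (trop_φ(x), d trop_φ(δ), d trop_φ(ε))` -/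
noncomputable def dX {τ : ToricVar Δ s'} {φ : X ⟶ Y} {T : AnX s → NR Δ} (hT : IsTropX τ φ T)
    {p q : ℕ} (x : AnX s) (δ : Fin p → TX x) (ε : Fin q → TX x) : TN Δ p q :=
  ⟨T x, fun k => tanX τ φ hT x (δ k), fun k => tanX τ φ hT x (ε k)⟩

/-- points of `Trop_φ(X)` with `p + q` tangent vectors -/
def TTrop {τ : ToricVar Δ s'} {φ : X ⟶ Y} {T : AnX s → NR Δ} (hT : IsTropX τ φ T) (p q : ℕ) :
    Type :=
  {w : TN Δ p q // ∃ (x : AnX s) (δ : Fin p → TX x) (ε : Fin q → TX x), dX hT x δ ε = w}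

variable {τ : ToricVar Δ s'} {φ : X ⟶ Y} {T : AnX s → NR Δ}

/-- the underlying point of `N_ℝ(Σ)` with `p + q` tangent vectors -/
def TTrop.w {hT : IsTropX τ φ T} {p q : ℕ} (w : TTrop hT p q) : TN Δ p q := w.1

/-- families of values on `Trop_φ(X)` -/
def FR (hT : IsTropX τ φ T) (p q : ℕ) : Type := TTrop hT p q → ℝ

/-- `ω = d''η` on `Trop_φ(X)`, `η` a superform of bidegree `(p,q)`: near every point of
`Trop_φ(X)` these are restrictions of superforms on `N_ℝ(Σ)`. -/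
def IsDbarFR {hT : IsTropX τ φ T} {p q : ℕ} (η : FR hT p q) (ω : FR hT p (q + 1)) : Prop :=
  ∀ x : AnX s, ∃ (R : ℕ) (F : Fin R → Fin N → ℤ) (α : SF R p q),
    (∀ l, F l ∈ Δ.perp (T x).i) ∧ α.Smooth ∧
      ∀ᶠ z in 𝓝 (T x), Δ.cone z.i ⊆ Δ.cone (T x).i ∧
        (∀ w : TTrop hT p q, w.w.pt = z → η w = pullN F α w.w) ∧
        ∀ w : TTrop hT p (q + 1), w.w.pt = z → ω w = pullN F α.dd w.w

/-- compact support -/
def CSuppFR {hT : IsTropX τ φ T} {p q : ℕ} (ω : FR hT p q) : Prop :=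
  ∃ C : Set (NR Δ), IsCompact C ∧ ∀ w : TTrop hT p q, w.w.pt ∉ C → ω w = 0

/-- the pull-back `trop_φ^*` of superforms -/
noncomputable def pullFR {hT : IsTropX τ φ T} {p q : ℕ} (ω : FR hT p q) : FX s p q :=
  fun x δ ε => ω ⟨dX hT x δ ε, x, δ, ε, rfl⟩

/-- `trop_φ^* : H^{p,q+1}(Trop_φ(X)) → H^{p,q+1}(X^an)` is surjective: every closed form is the
pull-back of a closed form plus an exact form. -/
def SurjH (hT : IsTropX τ φ T) (p q : ℕ) : Prop :=
  ∀ ω : FX s p (q + 1), IsDbarX ω (fun _ _ _ => 0) →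
    ∃ (α : FR hT p (q + 1)) (η : FX s p q), IsDbarFR α (fun _ => 0) ∧
      IsDbarX η fun x δ ε => ω x δ ε - pullFR α x δ ε

/-- `trop_φ^* : H_c^{p,q+1}(Trop_φ(X)) → H_c^{p,q+1}(X^an)` is defined and surjective: every
closed form with compact support is the pull-back of a closed form with compact support plus
`d''η`, where `η` has compact support. -/
def SurjHc (hT : IsTropX τ φ T) (p q : ℕ) : Prop :=
  ∀ ω : FX s p (q + 1), IsDbarX ω (fun _ _ _ => 0) → CSuppX ω →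
    ∃ (α : FR hT p (q + 1)) (η : FX s p q), IsDbarFR α (fun _ => 0) ∧ CSuppFR α ∧ CSuppX η ∧
      IsDbarX η fun x δ ε => ω x δ ε - pullFR α x δ ε

end trop

end Out

end TDC
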