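import Pool.Agent.TDC.St
import Pool.Agent.TDC.St2

/-!
# TDC, module Push: far out along the fibre the value of `Q(t)` is the value of `t ^ d`
-/

set_option autoImplicit false

namespace TDC

open scoped Topology
open Polynomial

section basic

variable {K M : Type} [NormedField K] [Field M] {φ : K →+* M}

private theorem push_sum_le (y : Pt φ) {ι : Type} (s : Finset ι) (f : ι → M) (c : ℝ)
    (hc : 0 ≤ c) (h : ∀ j ∈ s, y.v (f j) ≤ c) : y.v (∑ j ∈ s, f j) ≤ c :=
  Finset.sum_induction f (fun a => y.v a ≤ c)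
    (fun a b ha hb => (y.na a b).trans (max_le ha hb)) (by rw [map_zero]; exact hc) h

private theorem push_sum_lt (y : Pt φ) {ι : Type} (s : Finset ι) (f : ι → M) (c : ℝ)
    (hc : 0 < c) (h : ∀ j ∈ s, y.v (f j) < c) : y.v (∑ j ∈ s, f j) < c :=
  Finset.sum_induction f (fun a => y.v a < c)
    (fun a b ha hb => (y.na a b).trans_lt (max_lt ha hb)) (by rw [map_zero]; exact hc) h

private theorem push_add (y : Pt φ) (a b : M) (h : y.v a < y.v b) : y.v (a + b) = y.v b := by
  refine le_antisymm ((y.na a b).trans (max_le h.le le_rfl)) ?_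
  have h1 := y.na (a + b) (-a)
  have h2 : a + b + -a = b := by ring
  rw [h2, y.v.map_neg] at h1
  rcases le_max_iff.mp h1 with h3 | h3
  · exact h3
  · exact absurd h3 (not_le.mpr h)

private theorem push_cont (a : M) : Continuous fun x : Pt φ => x.v a :=
  (continuous_apply a).comp continuous_induced_dom

end basic

section tower

variable {K L' L : Type} [NormedField K] [Field L'] [Field L] [Algebra K L'] [Algebra K L]
  [Algebra L' L] [IsScalarTower K L' L]

private theorem push_indep {m : ℕ} (y : Pt (algebraMap K L)) (g' : Fin m → L'ˣ) (q : Lˣ)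
    (h : Indep y (Fin.snoc (α := fun _ => Lˣ) (up L g') q)) : Indep (res L' y) g' := by
  intro k hk
  obtain ⟨a, ha⟩ := hk
  have e : (∏ i : Fin (m + 1), (Fin.snoc (α := fun _ => Lˣ) (up L g') q : Fin (m + 1) → Lˣ) i ^
      (Fin.snoc (α := fun _ => ℤ) k 0 : Fin (m + 1) → ℤ) i) =
      Units.map (algebraMap L' L).toMonoidHom (∏ i, g' i ^ k i) := by
    rw [Fin.prod_univ_castSucc, map_prod]
    simp [up]
  have h1 := h (Fin.snoc (α := fun _ => ℤ) k 0) ⟨a, by rw [ha, e]; rfl⟩
  funext i
  have h2 := congrFun h1 i.castSucc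
  simpa using h2

private theorem push_log {m : ℕ} (y : Pt (algebraMap K L)) (g' : Fin m → L'ˣ) (q : Lˣ) :
    (fun i : Fin m => logv y (Fin.snoc (α := fun _ => Lˣ) (up L g') q) i.castSucc) =
      logv (res L' y) g' := by
  funext i
  simp only [logv, Fin.snoc_castSucc]
  rfl

private theorem push_aeval (t : Lˣ) (Q : L'[X]) (hQ : Q.Monic) :
    aeval (t : L) Q = (∑ i ∈ Finset.range Q.natDegree,
      algebraMap L' L (Q.coeff i) * (t : L) ^ i) + (t : L) ^ Q.natDegree := by
  rw [Polynomial.aeval_eq_sum_range, Finset.sum_range_succ, hQ.coeff_natDegree, one_smul]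
  congr 1
  exact Finset.sum_congr rfl fun i _ => Algebra.smul_def _ _

private theorem push_small (y : Pt (algebraMap K L)) (t : Lˣ) (Q : L'[X]) (hQ : Q.Monic) (B : ℝ)
    (hB : 1 ≤ B) (hc : ∀ i, (res L' y).v (Q.coeff i) ≤ B) (ht : y.v t ≤ B + 1) :
    y.v (aeval (t : L) Q) ≤ (B + 1) ^ Q.natDegree := by
  rw [push_aeval t Q hQ]
  have h0 : (0 : ℝ) ≤ y.v t := y.v.nonneg _
  refine (y.na _ _).trans (max_le ?_ ?_)
  · refine push_sum_le y _ _ _ (by positivity) fun i hi => ?_
    have h1 : y.v (algebraMap L' L (Q.coeff i)) = (res L' y).v (Q.coeff i) := rfl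
    rw [map_mul, map_pow, h1]
    have h2 : (res L' y).v (Q.coeff i) ≤ B + 1 := (hc i).trans (by linarith)
    calc (res L' y).v (Q.coeff i) * y.v t ^ i ≤ (B + 1) * (B + 1) ^ i := by
          refine mul_le_mul h2 (pow_le_pow_left₀ h0 ht i) (by positivity) (by linarith)
      _ = (B + 1) ^ (i + 1) := by ring
      _ ≤ (B + 1) ^ Q.natDegree :=
          pow_le_pow_right₀ (by linarith) (Finset.mem_range.mp hi)
  · rw [map_pow]
    exact pow_le_pow_left₀ h0 ht _

private theorem push_big (y : Pt (algebraMap K L)) (t : Lˣ) (Q : L'[X]) (hQ : Q.Monic) (B : ℝ)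
    (hB : 1 ≤ B) (hc : ∀ i, (res L' y).v (Q.coeff i) ≤ B) (ht : B + 1 < y.v t) :
    y.v (aeval (t : L) Q) = y.v t ^ Q.natDegree := by
  rw [push_aeval t Q hQ, push_add, map_pow]
  rw [map_pow]
  have h0 : (0 : ℝ) < y.v t := by linarith
  refine push_sum_lt y _ _ _ (by positivity) fun i hi => ?_
  have h1 : y.v (algebraMap L' L (Q.coeff i)) = (res L' y).v (Q.coeff i) := rfl
  rw [map_mul, map_pow, h1]
  have h2 : (res L' y).v (Q.coeff i) < y.v t := by linarith [hc i]
  calc (res L' y).v (Q.coeff i) * y.v t ^ i < y.v t * y.v t ^ i :=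
        mul_lt_mul_of_pos_right h2 (by positivity)
    _ = y.v t ^ (i + 1) := by ring
    _ ≤ y.v t ^ Q.natDegree :=
        pow_le_pow_right₀ (by linarith) (Finset.mem_range.mp hi)

private theorem push_tan (y : Pt (algebraMap K L)) (t q : Lˣ) (d : ℕ)
    (h : y.v q = y.v t ^ d) (δ : Tan y) :
    δ.1 (Additive.ofMul q) = d * δ.1 (Additive.ofMul t) := by
  have ht : y.v t ≠ 0 := by
    rw [Ne, y.v.eq_zero]
    exact t.ne_zero
  have h1 := δ.2 (q * (t ^ d)⁻¹) ⟨1, by
    rw [norm_one, Units.val_mul, map_mul, h]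
    have h2 : y.v (((t ^ d)⁻¹ : Lˣ) : L) = (y.v t ^ d)⁻¹ := by
      rw [Units.val_inv_eq_inv_val, map_inv₀, Units.val_pow_eq_pow_val, map_pow]
    rw [h2, mul_inv_cancel₀ (pow_ne_zero _ ht)]⟩
  rw [ofMul_mul, ofMul_inv, ofMul_pow, map_add, map_neg, map_nsmul, nsmul_eq_mul] at h1
  linarith

omit [Algebra K L'] [IsScalarTower K L' L] in
private theorem push_det {m : ℕ} (y : Pt (algebraMap K L)) (g' : Fin m → L'ˣ) (t q : Lˣ) (d : ℕ)
    (h : y.v q = y.v t ^ d) (δ : Fin (m + 1) → Tan y) :
    (Matrix.of fun i j => ev (Fin.snoc (α := fun _ => Lˣ) (up L g') q) (δ i) j).det =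
      d * (Matrix.of fun i j => ev (Fin.snoc (α := fun _ => Lˣ) (up L g') t) (δ i) j).det := by
  have h1 : (Matrix.of fun i j => ev (Fin.snoc (α := fun _ => Lˣ) (up L g') q) (δ i) j) =
      Matrix.of fun i j => (Fin.snoc (α := fun _ => ℝ) (fun _ : Fin m => (1 : ℝ)) (d : ℝ) :
        Fin (m + 1) → ℝ) j *
        (Matrix.of fun i j => ev (Fin.snoc (α := fun _ => Lˣ) (up L g') t) (δ i) j) i j := by
    ext i j
    simp only [Matrix.of_apply, ev]
    refine Fin.lastCases ?_ (fun j => ?_) j
    · simp only [Fin.snoc_last]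
      exact push_tan y t q d h (δ i)
    · simp only [Fin.snoc_castSucc, one_mul]
  rw [h1, Matrix.det_mul_row, Fin.prod_univ_castSucc]
  simp

end tower

theorem thm_Push (h1 : St_GCpt) (h2 : St_DetZ) (h3 : St_IndG) : St_Push := by
  intro K L' L _ _ _ _ _ _ _ t hrat m R htr F₀ g' χ' C Q q hC hQ hd hq
  have hS : IsCompact {z : Pt (algebraMap K L') | Gauss z g' ∧ logv z g' ∈ C} :=
    h1 K L' m htr g' C hC
  have hb : ∀ i : ℕ, ∃ c : ℝ, ∀ z ∈ {z : Pt (algebraMap K L') | Gauss z g' ∧ logv z g' ∈ C},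
      ‖z.v (Q.coeff i)‖ ≤ c := fun i =>
    hS.exists_bound_of_continuousOn (push_cont (Q.coeff i)).continuousOn
  choose c hc using hb
  obtain ⟨B, hB⟩ : ∃ B : ℝ, B = 1 + ∑ i ∈ Finset.range (Q.natDegree + 1), |c i| := ⟨_, rfl⟩
  have hsn : 0 ≤ ∑ i ∈ Finset.range (Q.natDegree + 1), |c i| :=
    Finset.sum_nonneg fun i _ => abs_nonneg _
  have hB1 : 1 ≤ B := by linarith
  have hcB : ∀ z : Pt (algebraMap K L'), Gauss z g' → logv z g' ∈ C → ∀ i,
      z.v (Q.coeff i) ≤ B := by
    intro z hz1 hz2 i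
    by_cases hi : i ∈ Finset.range (Q.natDegree + 1)
    · have h4 := hc i z ⟨hz1, hz2⟩
      have h5 : |c i| ≤ ∑ i ∈ Finset.range (Q.natDegree + 1), |c i| :=
        Finset.single_le_sum (f := fun i => |c i|) (fun i _ => abs_nonneg _) hi
      have h6 := (le_abs_self _).trans h4
      have h7 := le_abs_self (c i)
      linarith
    · have h4 : Q.coeff i = 0 := by
        refine Polynomial.coeff_eq_zero_of_natDegree_lt ?_
        rw [Finset.mem_range] at hi
        omega
      rw [h4, map_zero]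
      linarith
  have hd0 : (0 : ℝ) < Q.natDegree := by exact_mod_cast hd
  refine ⟨Q.natDegree * Real.log (B + 1) + 1, ?_⟩
  intro b hbb
  -- the value of `q`
  have hkq : ∀ y : Pt (algebraMap K L), Indep (res L' y) g' → logv (res L' y) g' ∈ C →
      Q.natDegree * Real.log (B + 1) + 1 < Real.log (y.v q) → y.v q = y.v t ^ Q.natDegree := by
    intro y hy1 hy2 hy3
    have hG := h3 K L' (algebraMap K L') m (res L' y) g' hy1
    rw [hq]
    rw [hq] at hy3
    refine push_big y t Q hQ B hB1 (hcB _ hG hy2) ?_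
    by_contra hn
    rw [not_lt] at hn
    have h4 := push_small y t Q hQ B hB1 (hcB _ hG hy2) hn
    have h5 : 0 < y.v (aeval (t : L) Q) := by
      rw [← hq]
      exact y.v.pos q.ne_zero
    have h6 := Real.log_le_log h5 h4
    rw [Real.log_pow] at h6
    linarith
  have hkt : ∀ y : Pt (algebraMap K L), Indep (res L' y) g' → logv (res L' y) g' ∈ C →
      Q.natDegree * Real.log (B + 1) + 1 < Q.natDegree * Real.log (y.v t) →
      y.v q = y.v t ^ Q.natDegree := by
    intro y hy1 hy2 hy3
    have hG := h3 K L' (algebraMap K L') m (res L' y) g' hy1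
    rw [hq]
    refine push_big y t Q hQ B hB1 (hcB _ hG hy2) ?_
    by_contra hn
    rw [not_lt] at hn
    have h5 : 0 < y.v (t : L) := y.v.pos t.ne_zero
    have h6 := mul_le_mul_of_nonneg_left (Real.log_le_log h5 hn) hd0.le
    linarith
  funext y δ ε
  by_cases hv : y.v q = y.v t ^ Q.natDegree
  · -- the values agree
    have hlog : logv y (Fin.snoc (α := fun _ => Lˣ) (up L g') q) =
        Fin.snoc (α := fun _ => ℝ)
          (fun i : Fin m => logv y (Fin.snoc (α := fun _ => Lˣ) (up L g') t) i.castSucc)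
          (Q.natDegree * logv y (Fin.snoc (α := fun _ => Lˣ) (up L g') t) (Fin.last m)) := by
      funext j
      refine Fin.lastCases ?_ (fun j => ?_) j
      · simp only [logv, Fin.snoc_last]
        rw [hv, Real.log_pow]
      · simp only [logv, Fin.snoc_castSucc]
    unfold tf
    rw [push_det y g' t q _ hv δ, push_det y g' t q _ hv ε, hlog]
    ring
  · -- both sides vanish
    have hl : tf (up L F₀) (Fin.snoc (α := fun _ => Lˣ) (up L g') q) χ' b y δ ε = 0 := by
      unfold tf
      by_cases hb0 : b (logv y (Fin.snoc (α := fun _ => Lˣ) (up L g') q)) = 0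
      · rw [hb0]
        ring
      · by_cases hI : Indep y (Fin.snoc (α := fun _ => Lˣ) (up L g') q)
        · exfalso
          obtain ⟨h4, h5⟩ := hbb _ hb0
          rw [push_log] at h4
          refine hv (hkq y (push_indep y g' q hI) h4 ?_)
          simpa only [logv, Fin.snoc_last] using h5
        · rw [h2 K L (algebraMap K L) (m + 1) y _ hI δ]
          ring
    have hr : tf (up L F₀) (Fin.snoc (α := fun _ => Lˣ) (up L g') t) χ'
        (fun u => (Q.natDegree : ℝ) ^ 2 * b (Fin.snoc (α := fun _ => ℝ)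
            (fun i : Fin m => u i.castSucc) (Q.natDegree * u (Fin.last m)))) y δ ε = 0 := by
      unfold tf
      by_cases hb0 : b (Fin.snoc (α := fun _ => ℝ)
          (fun i : Fin m => logv y (Fin.snoc (α := fun _ => Lˣ) (up L g') t) i.castSucc)
          (Q.natDegree * logv y (Fin.snoc (α := fun _ => Lˣ) (up L g') t) (Fin.last m))) = 0
      · beta_reduce
        rw [hb0]
        ring
      · by_cases hI : Indep y (Fin.snoc (α := fun _ => Lˣ) (up L g') t)
        · exfalso
          obtain ⟨h4, h5⟩ := hbb _ hb0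
          simp only [Fin.snoc_castSucc] at h4
          rw [push_log] at h4
          refine hv (hkt y (push_indep y g' t hI) h4 ?_)
          simpa only [logv, Fin.snoc_last] using h5
        · rw [h2 K L (algebraMap K L) (m + 1) y _ hI δ]
          ring
    rw [hl, hr]

end TDC
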