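import Mathlib

/-!
# TDC, real lemma, part 2: the trace identity for alternating maps
-/

namespace TDC

open Module

/-- `∑ (-1)^i c(T v_i, v_0, …, v̂_i, …, v_n) = tr(T) c(v)` in dimension `n + 1` -/
theorem sum_alt_trace {V F : Type} [AddCommGroup V] [Module ℝ V] [AddCommGroup F]
    [Module ℝ F] [FiniteDimensional ℝ V] {n : ℕ} (hV : finrank ℝ V = n + 1)
    (c : V [⋀^Fin (n + 1)]→ₗ[ℝ] F) (T : V →ₗ[ℝ] V) (v : Fin (n + 1) → V) :
    ∑ i : Fin (n + 1), (-1 : ℝ) ^ i.val • c (Fin.cons (T (v i)) (i.removeNth v)) =
      LinearMap.trace ℝ V T • c v := by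
  classical
  let b : Basis (Fin (n + 1)) ℝ V := (finBasis ℝ V).reindex (finCongr hV)
  let f : V →ₗ[ℝ] V [⋀^Fin n]→ₗ[ℝ] F := c.curryLeft.comp T
  have hf : AlternatingMap.alternatizeUncurryFin f = LinearMap.trace ℝ V T • c := by
    refine Basis.ext_alternating b fun σ hσ => ?_
    rw [AlternatingMap.alternatizeUncurryFin_apply]
    have key : ∀ i : Fin (n + 1), ((-1 : ℤ) ^ i.val) • f (b (σ i))
        (i.removeNth fun j => b (σ j)) = (LinearMap.toMatrix b b T (σ i) (σ i)) •
          c fun j => b (σ j) := by
      intro i
      have h1 : T (b (σ i)) = ∑ l, (LinearMap.toMatrix b b T l (σ i)) • b l := by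
        have := (b.sum_repr (T (b (σ i)))).symm
        simpa only [LinearMap.toMatrix_apply] using this
      let g : V →ₗ[ℝ] F :=
        { toFun := fun u => c.curryLeft u (i.removeNth fun j => b (σ j))
          map_add' := by intro x y; simp
          map_smul' := by intro x y; simp }
      have h2 : f (b (σ i)) (i.removeNth fun j => b (σ j)) =
          ∑ l, (LinearMap.toMatrix b b T l (σ i)) •
            c.curryLeft (b l) (i.removeNth fun j => b (σ j)) := by
        show c.curryLeft (T (b (σ i))) (i.removeNth fun j => b (σ j)) = _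
        show g (T (b (σ i))) = _
        rw [h1, map_sum]
        refine Finset.sum_congr rfl fun l _ => ?_
        rw [map_smul]
        rfl
      rw [h2, Finset.sum_eq_single (σ i)]
      · rw [smul_comm]
        congr 1
        have h5 := c.map_insertNth i (b (σ i)) (i.removeNth fun j => b (σ j))
        rw [Fin.insertNth_removeNth] at h5
        have h4 : Function.update (fun j => b (σ j)) i (b (σ i)) = fun j => b (σ j) :=
          Function.update_eq_self i _
        rw [h4] at h5
        exact h5.symm
      · intro l _ hl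
        have : c.curryLeft (b l) (i.removeNth fun j => b (σ j)) = 0 := by
          obtain ⟨k, hk⟩ : ∃ k, σ k = l := (Finite.injective_iff_surjective.1 hσ) l
          have hki : k ≠ i := by rintro rfl; exact hl hk.symm
          obtain ⟨k', hk'⟩ := Fin.exists_succAbove_eq hki
          show c (Matrix.vecCons (b l) (i.removeNth fun j => b (σ j))) = 0
          refine c.map_eq_zero_of_eq _ (i := 0) (j := k'.succ) ?_ (Fin.succ_ne_zero _).symm
          simp [Fin.removeNth, hk', hk]
        rw [this, smul_zero]
      · intro h; exact absurd (Finset.mem_univ _) h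
    rw [Finset.sum_congr rfl fun i _ => key i, ← Finset.sum_smul, AlternatingMap.smul_apply]
    congr 1
    rw [LinearMap.trace_eq_matrix_trace ℝ b T, Matrix.trace]
    exact (Equiv.ofBijective σ ⟨hσ, Finite.injective_iff_surjective.1 hσ⟩).sum_comp
      fun j => LinearMap.toMatrix b b T j j
  have := congrArg (fun g => g v) hf
  simp only [AlternatingMap.alternatizeUncurryFin_apply, AlternatingMap.smul_apply] at this
  rw [← this]
  refine Finset.sum_congr rfl fun i _ => ?_
  show _ = ((-1 : ℤ) ^ i.val) • c (Matrix.vecCons (T (v i)) (i.removeNth v))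
  rw [← Int.cast_smul_eq_zsmul ℝ]
  push_cast
  rfl

end TDC
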