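import Pool.Agent.TDC.RA1
import Pool.Agent.TDC.RA2

/-!
# TDC, real lemma, part 3: the homotopy operator
-/

namespace TDC

open Set MeasureTheory Module
open scoped ContDiff Topology

variable {E : Type} [NormedAddCommGroup E] [NormedSpace ℝ E] [FiniteDimensional ℝ E] {n : ℕ}

set_option linter.unusedSectionVars false

/-- the point `ν(t) + l (t - ν(t))`, `ν(t) = t₀ + P(t - t₀)` -/
def ht (P : E →L[ℝ] E) (t₀ : E) (z : E × ℝ) : E :=
  t₀ + P (z.1 - t₀) + z.2 • (z.1 - t₀ - P (z.1 - t₀))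

theorem contDiff_ht (P : E →L[ℝ] E) (t₀ : E) : ContDiff ℝ ∞ (ht P t₀) := by
  unfold ht
  have h1 : ContDiff ℝ ∞ fun z : E × ℝ => z.1 - t₀ := contDiff_fst.sub contDiff_const
  have h2 : ContDiff ℝ ∞ fun z : E × ℝ => P (z.1 - t₀) := P.contDiff.comp h1
  exact (contDiff_const.add h2).add (contDiff_snd.smul (h1.sub h2))

/-- averaging along the segments towards `ν(t)` -/
noncomputable def kc (P : E →L[ℝ] E) (t₀ : E) (m : ℕ) (α : E → E [⋀^Fin (n + 1)]→L[ℝ] ℝ)
    (t : E) : E [⋀^Fin (n + 1)]→L[ℝ] ℝ :=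
  ∫ l in (0 : ℝ)..1, l ^ m • α (ht P t₀ (t, l))

theorem contDiff_kc (P : E →L[ℝ] E) (t₀ : E) (m : ℕ) {α : E → E [⋀^Fin (n + 1)]→L[ℝ] ℝ}
    (hα : ContDiff ℝ ∞ α) : ContDiff ℝ ∞ (kc P t₀ m α) := by
  unfold kc
  have : ContDiff ℝ ∞ fun z : E × ℝ => z.2 ^ m • α (ht P t₀ z) :=
    (contDiff_snd.pow m).smul (hα.comp (contDiff_ht P t₀))
  exact contDiff_param this

/-- the differential equation of the homotopy operator -/
theorem kc_deriv (P : E →L[ℝ] E) (hP : ∀ u, P (P u) = P u) (t₀ : E) (m : ℕ)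
    {α : E → E [⋀^Fin (n + 1)]→L[ℝ] ℝ} (hα : ContDiff ℝ ∞ α) (t : E) :
    fderiv ℝ (kc P t₀ m α) t (t - t₀ - P (t - t₀)) + ((m : ℝ) + 1) • kc P t₀ m α t = α t := by
  set X : E := t - t₀ - P (t - t₀) with hX
  have hPX : P X = 0 := by rw [hX, map_sub, hP, sub_self]
  -- the path
  let γ : ℝ → E := fun τ => ht P t₀ (t, τ)
  have hγ1 : γ 1 = t := by
    show t₀ + P (t - t₀) + (1 : ℝ) • (t - t₀ - P (t - t₀)) = t
    rw [one_smul]; abel
  have hγd : HasDerivAt γ X 1 := by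
    have : HasDerivAt (fun τ : ℝ => (t₀ + P (t - t₀)) + τ • X) ((1 : ℝ) • X) 1 :=
      ((hasDerivAt_id (1 : ℝ)).smul_const X).const_add _
    rw [one_smul] at this
    exact this
  have h1 : HasDerivAt (fun τ => kc P t₀ m α (γ τ)) (fderiv ℝ (kc P t₀ m α) t X) 1 := by
    have hd : HasFDerivAt (kc P t₀ m α) (fderiv ℝ (kc P t₀ m α) (γ 1)) (γ 1) :=
      ((contDiff_kc P t₀ m hα).differentiable (by simp)).differentiableAt.hasFDerivAt
    have := hd.comp_hasDerivAt (1 : ℝ) hγd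
    rw [hγ1] at this
    exact this
  -- second computation
  have hg : Continuous fun s : ℝ => s ^ m • α (γ s) := by
    refine (continuous_pow m).smul (hα.continuous.comp ?_)
    exact (contDiff_ht P t₀).continuous.comp (by fun_prop)
  have hcomp : ∀ τ l : ℝ, ht P t₀ (γ τ, l) = γ (τ * l) := by
    intro τ l
    have e1 : γ τ - t₀ = P (t - t₀) + τ • X := by
      show t₀ + P (t - t₀) + τ • X - t₀ = _
      abel
    show t₀ + P (γ τ - t₀) + l • (γ τ - t₀ - P (γ τ - t₀)) = t₀ + P (t - t₀) + (τ * l) • X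
    rw [e1, map_add, map_smul, hP, hPX, smul_zero, add_zero, add_sub_cancel_left, smul_smul,
      mul_comm l τ]
  have h2 : ∀ τ : ℝ, τ ^ (m + 1) • kc P t₀ m α (γ τ) = ∫ s in (0 : ℝ)..τ, s ^ m • α (γ s) := by
    intro τ
    have h3 := intervalIntegral.smul_integral_comp_mul_left (a := 0) (b := 1)
      (fun s : ℝ => s ^ m • α (γ s)) τ
    rw [mul_zero, mul_one] at h3
    rw [← h3]
    show τ ^ (m + 1) • (∫ l in (0 : ℝ)..1, l ^ m • α (ht P t₀ (γ τ, l))) = _
    rw [pow_succ', mul_smul]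
    congr 1
    rw [← intervalIntegral.integral_smul]
    refine intervalIntegral.integral_congr fun l _ => ?_
    simp only [hcomp, smul_smul]
    rw [mul_pow]
  have h3 : HasDerivAt (fun τ : ℝ => ∫ s in (0 : ℝ)..τ, s ^ m • α (γ s))
      ((1 : ℝ) ^ m • α (γ 1)) 1 :=
    intervalIntegral.integral_hasDerivAt_right (hg.intervalIntegrable _ _)
      (hg.stronglyMeasurableAtFilter _ _) hg.continuousAt
  have h4 : HasDerivAt (fun τ : ℝ => τ ^ (m + 1) • kc P t₀ m α (γ τ))
      (fderiv ℝ (kc P t₀ m α) t X + ((m : ℝ) + 1) • kc P t₀ m α t) 1 := by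
    have h5 : HasDerivAt (fun τ : ℝ => τ ^ (m + 1)) ((m : ℝ) + 1) 1 := by
      have := hasDerivAt_pow (m + 1) (1 : ℝ)
      simpa using this
    have h6 := h5.smul h1
    rw [one_pow, one_smul, hγ1] at h6
    exact h6
  have h5 : (fun τ : ℝ => τ ^ (m + 1) • kc P t₀ m α (γ τ)) =
      fun τ : ℝ => ∫ s in (0 : ℝ)..τ, s ^ m • α (γ s) := funext h2
  rw [h5] at h4
  have h6 := h4.unique h3
  rw [one_pow, one_smul, hγ1] at h6
  exact h6

/-- the homotopy operator -/
noncomputable def kb (P : E →L[ℝ] E) (t₀ : E) (m : ℕ) (α : E → E [⋀^Fin (n + 1)]→L[ℝ] ℝ)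
    (t : E) : E [⋀^Fin n]→L[ℝ] ℝ :=
  (kc P t₀ m α t).curryLeft (t - t₀ - P (t - t₀))

theorem kb_eq (P : E →L[ℝ] E) (t₀ : E) (m : ℕ) (α : E → E [⋀^Fin (n + 1)]→L[ℝ] ℝ) :
    kb P t₀ m α = fun t => (ContinuousAlternatingMap.curryLeftLI (𝕜 := ℝ) (E := E) (F := ℝ)
      (n := n)).toContinuousLinearMap (kc P t₀ m α t) (t - t₀ - P (t - t₀)) := rfl

theorem contDiff_kb (P : E →L[ℝ] E) (t₀ : E) (m : ℕ) {α : E → E [⋀^Fin (n + 1)]→L[ℝ] ℝ}
    (hα : ContDiff ℝ ∞ α) : ContDiff ℝ ∞ (kb P t₀ m α) := by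
  rw [kb_eq]
  have h1 : ContDiff ℝ ∞ fun t : E => t - t₀ := contDiff_id.sub contDiff_const
  have h2 : ContDiff ℝ ∞ fun t : E => P (t - t₀) := P.contDiff.comp h1
  exact ((ContinuousLinearMap.contDiff _).comp (contDiff_kc P t₀ m hα)).clm_apply (h1.sub h2)

theorem fderiv_kb (P : E →L[ℝ] E) (t₀ : E) (m : ℕ) {α : E → E [⋀^Fin (n + 1)]→L[ℝ] ℝ}
    (hα : ContDiff ℝ ∞ α) (t u : E) :
    fderiv ℝ (kb P t₀ m α) t u =
      (fderiv ℝ (kc P t₀ m α) t u).curryLeft (t - t₀ - P (t - t₀)) +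
        (kc P t₀ m α t).curryLeft (u - P u) := by
  rw [kb_eq]
  have h1 : HasFDerivAt (fun t : E => t - t₀ - P (t - t₀))
      (ContinuousLinearMap.id ℝ E - P) t := by
    have h0 : HasFDerivAt (fun t : E => t - t₀) (ContinuousLinearMap.id ℝ E) t :=
      (hasFDerivAt_id t).sub_const t₀
    have h2 : HasFDerivAt (fun t : E => P (t - t₀)) (P.comp (ContinuousLinearMap.id ℝ E)) t :=
      P.hasFDerivAt.comp t h0
    exact h0.sub h2
  have h3 : HasFDerivAt (kc P t₀ m α) (fderiv ℝ (kc P t₀ m α) t) t :=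
    ((contDiff_kc P t₀ m hα).differentiable (by simp)).differentiableAt.hasFDerivAt
  let L := (ContinuousAlternatingMap.curryLeftLI (𝕜 := ℝ) (E := E) (F := ℝ)
      (n := n)).toContinuousLinearMap
  have h7 : HasFDerivAt (fun c : E [⋀^Fin (n + 1)]→L[ℝ] ℝ => L c) L (kc P t₀ m α t) :=
    L.hasFDerivAt
  have h5 : HasFDerivAt (fun t => L (kc P t₀ m α t)) (L.comp (fderiv ℝ (kc P t₀ m α) t)) t :=
    HasFDerivAt.comp (g := fun c : E [⋀^Fin (n + 1)]→L[ℝ] ℝ => L c) t h7 h3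
  have h4 := h5.clm_apply h1
  have h6 := h4.fderiv
  show fderiv ℝ (fun t => L (kc P t₀ m α t) (t - t₀ - P (t - t₀))) t u = _
  rw [h6, add_comm]
  rfl

/-- the exterior derivative of the homotopy operator -/
theorem extDeriv_kb (P : E →L[ℝ] E) (hP : ∀ u, P (P u) = P u) (t₀ : E) (m : ℕ)
    {α : E → E [⋀^Fin (n + 1)]→L[ℝ] ℝ} (hα : ContDiff ℝ ∞ α)
    (W : Submodule ℝ E) (hW : finrank ℝ W = n + 1) (hPW : ∀ u ∈ W, P u ∈ W)
    (hr : finrank ℝ (LinearMap.range (P : E →ₗ[ℝ] E)) + (m + 1) = n + 1)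
    (hPr : LinearMap.range (P : E →ₗ[ℝ] E) ≤ W) (t : E) (ht : t - t₀ ∈ W)
    (v : Fin (n + 1) → E) (hv : ∀ k, v k ∈ W) :
    extDeriv (kb P t₀ m α) t v = α t v := by
  classical
  set X : E := t - t₀ - P (t - t₀) with hX
  have hXW : X ∈ W := W.sub_mem ht (hPW _ ht)
  set c := kc P t₀ m α with hc
  -- the expansion
  have e1 : extDeriv (kb P t₀ m α) t v =
      ∑ i : Fin (n + 1), (-1 : ℝ) ^ i.val • (fderiv ℝ c t (v i)) (Fin.cons X (i.removeNth v)) +
      ∑ i : Fin (n + 1), (-1 : ℝ) ^ i.val • (c t) (Fin.cons (v i - P (v i)) (i.removeNth v)) := by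
    rw [extDeriv, ContinuousAlternatingMap.alternatizeUncurryFin_apply,
      ← Finset.sum_add_distrib]
    refine Finset.sum_congr rfl fun i _ => ?_
    rw [fderiv_kb P t₀ m hα, ContinuousAlternatingMap.add_apply, ← smul_add]
    rw [← Int.cast_smul_eq_zsmul ℝ]
    push_cast
    rfl
  -- first part
  have e2 : ∑ i : Fin (n + 1), (-1 : ℝ) ^ i.val •
      (fderiv ℝ c t (v i)) (Fin.cons X (i.removeNth v)) = fderiv ℝ c t X v := by
    have h0 : ContinuousAlternatingMap.alternatizeUncurryFin (fderiv ℝ c t) (Fin.cons X v) = 0 := by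
      have hmem : ∀ k : Fin (n + 2), (Fin.cons X v : Fin (n + 2) → E) k ∈ W := by
        intro k
        refine Fin.cases ?_ (fun j => ?_) k
        · exact hXW
        · exact hv j
      have hdep : ¬ LinearIndependent ℝ (Fin.cons X v : Fin (n + 2) → E) := by
        intro hli
        have hli' : LinearIndependent ℝ (fun k : Fin (n + 2) =>
            (⟨(Fin.cons X v : Fin (n + 2) → E) k, hmem k⟩ : W)) := by
          refine LinearIndependent.of_comp W.subtype ?_
          exact hli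
        have := hli'.fintype_card_le_finrank
        rw [hW] at this
        simp at this
      exact (ContinuousAlternatingMap.alternatizeUncurryFin
        (fderiv ℝ c t)).toAlternatingMap.map_linearDependent _ hdep
    rw [ContinuousAlternatingMap.alternatizeUncurryFin_apply, Fin.sum_univ_succ] at h0
    simp only [Fin.val_zero, pow_zero, one_smul, Fin.cons_zero, Fin.cons_succ,
      Fin.val_succ] at h0
    have h1 : (Fin.removeNth 0 (Fin.cons X v : Fin (n + 2) → E)) = v := by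
      ext k; simp [Fin.removeNth]
    rw [h1] at h0
    have h2 : ∀ i : Fin (n + 1), (i.succ.removeNth (Fin.cons X v : Fin (n + 2) → E)) =
        (Fin.cons X (i.removeNth v) : Fin (n + 1) → E) := by
      intro i
      funext k
      refine Fin.cases ?_ (fun j => ?_) k
      · simp [Fin.removeNth]
      · simp [Fin.removeNth]
    simp only [h2] at h0
    have h3 : fderiv ℝ c t X v = - ∑ i : Fin (n + 1), ((-1 : ℤ) ^ (i.val + 1)) •
        (fderiv ℝ c t (v i)) (Fin.cons X (i.removeNth v)) := by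
      rw [eq_neg_iff_add_eq_zero]
      exact h0
    rw [h3, ← Finset.sum_neg_distrib]
    refine Finset.sum_congr rfl fun i _ => ?_
    rw [← Int.cast_smul_eq_zsmul ℝ, pow_succ]
    push_cast
    rw [mul_neg_one, neg_smul, neg_neg]
  -- second part
  have e3 : ∑ i : Fin (n + 1), (-1 : ℝ) ^ i.val •
      (c t) (Fin.cons (v i - P (v i)) (i.removeNth v)) = ((m : ℝ) + 1) * c t v := by
    let PW : W →ₗ[ℝ] W := (P : E →ₗ[ℝ] E).restrict hPW
    let T : W →ₗ[ℝ] W := LinearMap.id - PW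
    let cW : W [⋀^Fin (n + 1)]→ₗ[ℝ] ℝ := (c t).toAlternatingMap.compLinearMap W.subtype
    have h1 := sum_alt_trace hW cW T (fun k => ⟨v k, hv k⟩)
    have h2 : LinearMap.trace ℝ W T = (m : ℝ) + 1 := by
      have hproj : LinearMap.IsProj (LinearMap.range PW) PW := by
        refine ⟨fun x => ⟨x, rfl⟩, ?_⟩
        rintro x ⟨y, rfl⟩
        exact Subtype.ext (hP y.1)
      have htr : LinearMap.trace ℝ W PW = (finrank ℝ (LinearMap.range PW) : ℝ) := hproj.trace
      have hrk : finrank ℝ (LinearMap.range PW) =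
          finrank ℝ (LinearMap.range (P : E →ₗ[ℝ] E)) := by
        have hmap : (LinearMap.range PW).map W.subtype = LinearMap.range (P : E →ₗ[ℝ] E) := by
          ext x
          constructor
          · rintro ⟨y, ⟨z, rfl⟩, rfl⟩
            exact ⟨z.1, rfl⟩
          · rintro ⟨z, rfl⟩
            have hz : (P : E →ₗ[ℝ] E) z ∈ W := hPr ⟨z, rfl⟩
            refine ⟨⟨P z, hz⟩, ⟨⟨P z, hz⟩, Subtype.ext (hP z)⟩, rfl⟩
        rw [← hmap]
        exact (LinearEquiv.finrank_eq (Submodule.equivMapOfInjective W.subtype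
          W.injective_subtype (LinearMap.range PW)))
      show LinearMap.trace ℝ W (LinearMap.id - PW) = _
      rw [map_sub, LinearMap.trace_id, htr, hrk, hW]
      have : (finrank ℝ (LinearMap.range (P : E →ₗ[ℝ] E)) : ℝ) + (m + 1) = (n : ℝ) + 1 := by
        exact_mod_cast hr
      push_cast
      linarith
    rw [h2] at h1
    have h3 : ∀ i : Fin (n + 1), cW (Fin.cons (T ⟨v i, hv i⟩)
        (i.removeNth fun k => (⟨v k, hv k⟩ : W))) =
        (c t) (Fin.cons (v i - P (v i)) (i.removeNth v)) := by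
      intro i
      show (c t) (fun k => W.subtype ((Fin.cons (T ⟨v i, hv i⟩)
        (i.removeNth fun k => (⟨v k, hv k⟩ : W)) : Fin (n + 1) → W) k)) = _
      congr 1
      funext k
      refine Fin.cases ?_ (fun j => ?_) k
      · rfl
      · rfl
    simp only [h3] at h1
    rw [h1]
    rfl
  rw [e1, e2, e3]
  have h := congrArg (fun g : E [⋀^Fin (n + 1)]→L[ℝ] ℝ => g v) (kc_deriv P hP t₀ m hα t)
  simp only [ContinuousAlternatingMap.add_apply, ContinuousAlternatingMap.smul_apply,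
    smul_eq_mul] at h
  exact h

end TDC
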