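import Pool.Agent.TDC.Defs2

/-!
# TDC: statements of the modules, group 5: the values determine the form on the tropicalization
-/

namespace TDC

open scoped Topology
open AlgebraicGeometry CategoryTheory

/-- **ValT**. The image of the tangent space `Tan x` under `ev F`: all vectors orthogonal to the
exponents `k` with `|F^k(x)| ∈ |K|`.
Proof. `H = {f ∈ Mˣ : |f(x)| ∈ |K|}` is a subgroup. On the subgroup `⟨F⟩ H` the map
`∏ F_i^{k_i} h ↦ ∑ k_i w_i` is a well-defined homomorphism to `ℝ` by the hypothesis (if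
`∏ F^k h = ∏ F^{k'} h'` then `∏ F^{k-k'} ∈ H`). `ℝ` is divisible, so it is an injective
`ℤ`-module and the homomorphism extends to `Mˣ`; it vanishes on `H`. -/
def St_ValT : Prop :=
  ∀ (K M : Type) [NormedField K] [Field M] (φ : K →+* M) (R : ℕ) (x : Pt φ) (F : Fin R → Mˣ)
    (w : Fin R → ℝ),
    (∀ k : Fin R → ℤ, (∃ a : K, ‖a‖ = x.v ((∏ i, F i ^ k i : Mˣ) : M)) →
      ∑ i, (k i : ℝ) * w i = 0) →
    ∃ ε : Tan x, ev F ε = w

/-- **ValD** (uses `ValT`). The values determine the form on the tropicalization: if the value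
group of `K` is countable and the values of `F^*α` are `0` at all points of `W`, then the superform
`α` restricts to `0` on every relatively open piece `C` of an affine subspace `t₀ + L` which is
contained in `log|F|(W)`.
Proof. For `k ∈ ℤ^R`, not orthogonal to `L`, and `a ∈ K`, `a ≠ 0`, the set of `t ∈ t₀ + L` with
`k·t = log‖a‖` is a hyperplane of `t₀ + L`, closed with empty interior. There are countably many
(`log‖a‖` has countably many values), so by Baire's theorem (or by measure zero) in `C` there is a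
dense set of `t` which are not on any of them. Let `t = log|F(x)|` with `x ∈ W` be such a
point. If `|F^k(x)| ∈ |K|` (it is not zero) then `k·t = log‖a‖`, so `k ⊥ L`. So by `ValT`
every vector of `L` is of the form `ev F ε`, `ε ∈ Tan x`, and
`∑_I det(δ_i(I j)) α_I(t)(ε) = 0` for all `δ, ε` in `L`. Both sides are continuous in `t`, so this
is true for all `t ∈ C`. -/
def St_ValD : Prop :=
  ∀ (K : Type) [NormedField K], (Set.range fun a : K => ‖a‖).Countable →
    ∀ (X : Scheme.{0}) (s : X ⟶ Spec (.of K)) (U : X.Opens) (R p q : ℕ)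
      (F : Fin R → (Γ(X, U))ˣ) (α : SF R p q), α.Smooth → ∀ W : Set (An s),
      (∀ x ∈ W, ∃ h : x.1 ∈ U, pullA x h F α = 0) →
      ∀ (t₀ : Fin R → ℝ) (L : Submodule ℝ (Fin R → ℝ)) (O : Set (Fin R → ℝ)), IsOpen O →
        (∀ t ∈ O, t - t₀ ∈ L → ∃ x ∈ W, ∃ h : x.1 ∈ U, logv x.2 (unitsAt x h F) = t) →
        ∀ t ∈ O, t - t₀ ∈ L → ∀ (δ : Fin p → Fin R → ℝ) (ε : Fin q → Fin R → ℝ),
          (∀ i, δ i ∈ L) → (∀ i, ε i ∈ L) →
          ∑ I : Fin p → Fin R, (Matrix.of fun i j => δ i (I j)).det * α I t ε = 0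

end TDC
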