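import Pool.Agent.TDC.DefsF
import Pool.Agent.TDC.Defs3

/-!
# TDC, toric side, group F: fans, `N_ℝ(Σ)` and real analysis (statements, proofs in the docstrings)

Every module `TDC/<Name>.lean` proves `theorem TDC.thm_<Name> : TDC.St_<Name>` (the modules named
as used may be hypotheses of the theorem). `Δ` is a fan in `ℤ^n`. `u ∈ ℝ^n` corresponds to the
point of `N_ℝ` with `log|χ^m| = m·u = pr m u`; so `|χ^m|` is bounded on `-σ` for `m ∈ σ^∨`.
-/

namespace TDC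

open scoped Topology
open MeasureTheory

variable {n : ℕ}

/-- Closed, and bounded in all the polyhedra `{u | m·u ≤ c(m) for all m ∈ σ^∨ ∩ M}`. These are
the subsets of `N_ℝ` which are closed in `N_ℝ(Σ)` (`St_FFin`). -/
def Fine (Δ : Fan n) (S : Set (Fin n → ℝ)) : Prop :=
  IsClosed S ∧ ∀ (i : Δ.ι) (c : Δ.dual i → ℝ),
    Bornology.IsBounded (S ∩ {u | ∀ m : Δ.dual i, pr m u ≤ c m})

/-- the homomorphism `m ↦ m·u` on a subgroup of `M` -/
def prHom (G : AddSubgroup (Fin n → ℤ)) (u : Fin n → ℝ) : G →+ ℝ where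
  toFun m := pr m u
  map_zero' := by simp [pr]
  map_add' a b := by
    simp only [pr, AddSubgroup.coe_add, Pi.add_apply, Int.cast_add, add_mul,
      Finset.sum_add_distrib]

/-- the inclusion `N_ℝ → N_ℝ(Σ)` (`i₀` is the index of the zero cone) -/
def jT (Δ : Fan n) (i₀ : Δ.ι) (u : Fin n → ℝ) : NR Δ := ⟨i₀, prHom _ u⟩

/-- coordinates of a homomorphism `G → ℝ` -/
noncomputable def crd {G : AddSubgroup (Fin n → ℤ)} (δ : G →+ ℝ) : Fin n → ℝ :=
  fun k => evm δ (Pi.single k 1)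

open Classical in
/-- the form `d'x_1 ∧ … ∧ d'x_n ∧ γ` on the open stratum, extended by zero -/
noncomputable def extT (Δ : Fan n) {q : ℕ} (γ : (Fin n → ℝ) → (Fin n → ℝ) [⋀^Fin q]→L[ℝ] ℝ) :
    FamT Δ n q := fun y δ ε =>
  if Δ.cone y.i = {0} then
    (Matrix.of fun k l => crd (δ k) l).det * γ (crd y.φ) (fun k => crd (ε k))
  else 0

/-! ## combinatorics -/

/-- **FGord** (Gordan's lemma). Proof: `dualOf V → ℕ^V`, `m ↦ (m·v)_v`; e.g. with
`AddSubmonoid.fg_eqLocusM` (Mathlib, `GroupTheory/Finiteness`): for `N = ℕ^n × ℕ^n × ℕ^V` and the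
two homomorphisms `(a,b,c) ↦ (a·v)_v`, `(a,b,c) ↦ (b·v + c_v)_v` to `ℤ^V` the locus of
equality is finitely generated and maps onto `dualOf V` by `(a,b,c) ↦ a - b`. -/
def St_FGord : Prop := ∀ (n : ℕ) (V : Finset (Fin n → ℤ)), (dualOf V).FG

/-- **FFark** (Farkas' lemma with integral inequalities). Proof: e.g. Fourier–Motzkin or
the usual induction. One way: the cone generated by a finite set is closed (Carathéodory: finite
union of cones on linearly independent subsets) and convex; if `u ∉ coneOf V` separate: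
`c ∈ ℝ^n` with `c·v ≥ 0` for `v ∈ V`, `c·u < 0`. To get an integral `c`: the set of real `c` with
`c·v ≥ 0` on `V` is a polyhedral cone with rational inequalities; let `V₀ = {v ∈ V | c·v = 0}`;
rational points are dense in the rational subspace `V₀^⊥ ∋ c`, so choose a rational
`c' ∈ V₀^⊥` near `c`: `c'·v > 0` for `v ∈ V \ V₀` and `c'·u < 0`; clear denominators. (Density:
`V₀^⊥` has a basis of rational vectors.) Alternatively prove Farkas over an arbitrary ordered field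
extension by elimination. -/
def St_FFark : Prop :=
  ∀ (n : ℕ) (V : Finset (Fin n → ℤ)) (u : Fin n → ℝ), (∀ m ∈ dualOf V, 0 ≤ pr m u) →
    u ∈ coneOf V

/-- **FFace**. (1) Inclusion of cones: for `v ∈ V` the real vector `v` is in `coneOf V`, so
`m·v ≥ 0` for `m ∈ dualOf W` when `coneOf V ⊆ coneOf W`. (2) The dual of a face: `m` vanishes on
`coneOf W = faceOf V m` and `dualOf V ≤ dualOf W` by (1); if `m' ∈ dualOf W` and `v ∈ V`: if
`m·v = 0` then `v ∈ faceOf V m`, so `m'·v ≥ 0`; otherwise `m·v ≥ 1`, so `(m' + r m)·v ≥ 0` for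
`r ≥ |m'·v|`. -/
def St_FFace : Prop :=
  ∀ (n : ℕ),
    (∀ V W : Finset (Fin n → ℤ), coneOf V ⊆ coneOf W →
      dualOf W ≤ dualOf V ∧ perpOf W ≤ perpOf V) ∧
    ∀ (V W : Finset (Fin n → ℤ)), ∀ m ∈ dualOf V, coneOf W = faceOf V m →
      m ∈ perpOf W ∧ ∀ m' : Fin n → ℤ, m' ∈ dualOf W ↔ ∃ r : ℕ, m' + r • m ∈ dualOf V

/-- **FZero** (uses `FFark`, `FFace`). The zero cone, and the dual monoids generate `M`.
Proof. For `v ∈ gens i`, `v ≠ 0`: `-v ∉ cone i` (pointed), so by `FFark` some `m_v ∈ dual i` has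
`m_v·v > 0`; `m₀ = ∑ m_v ∈ dual i` is `≥ 1` on all non-zero generators (integers). (4) So
`m = (m + r m₀) - r m₀` with both in `dual i` for large `r`. (1) The face `i₀` of any cone
cut out by its `m₀` is `{0}` (`∑ a_v v` with `m₀·(..) = 0` has `a_v = 0` for `v ≠ 0`). (2) If
`cone i₀ = {0}` then all generators are `0` (they are in the cone). (5) If `cone i ≠ {0}` some
generator is not `0` and `m₀ ∉ perp i`. (3) `0 ∈ cone i`. -/
def St_FZero : Prop :=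
  ∀ (n : ℕ) (Δ : Fan n), (∃ i₀, Δ.cone i₀ = {0}) ∧
    (∀ i₀, Δ.cone i₀ = {0} → Δ.dual i₀ = ⊤ ∧ Δ.perp i₀ = ⊤ ∧ ∀ i, Δ.cone i₀ ⊆ Δ.cone i) ∧
    (∀ i, ∀ m : Fin n → ℤ, ∃ a ∈ Δ.dual i, ∃ b ∈ Δ.dual i, m = a - b) ∧
    (∀ i, Δ.cone i ≠ {0} → ∃ m ∈ Δ.dual i, m ∉ Δ.perp i)

/-- **FVal**. Elementary facts about `N_ℝ(Σ)`. (`perp` is a group contained in `dual`; if
`a + b ∈ perp` with `a, b ∈ dual` then `a, b ∈ perp`, as the numbers `a·v, b·v ≥ 0` have sum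
zero.) The last two by definition of the topology (with `m = 0`, value `1`, for openness).
(`dual j ≤ dual y.i` for `cone y.i ⊆ cone j` is `FFace`.) -/
def St_FVal : Prop :=
  ∀ (n : ℕ) (Δ : Fan n),
    (∀ y : NR Δ, y.val 0 = 1 ∧ (∀ m, 0 ≤ y.val m) ∧
      (∀ a ∈ Δ.dual y.i, ∀ b ∈ Δ.dual y.i, y.val (a + b) = y.val a * y.val b) ∧
      (∀ m, y.val m ≠ 0 ↔ m ∈ Δ.perp y.i) ∧
      ∀ m ∈ Δ.perp y.i, Real.log (y.val m) = evm y.φ m) ∧
    (∀ y y' : NR Δ, Δ.cone y.i ⊆ Δ.cone y'.i → Δ.cone y'.i ⊆ Δ.cone y.i →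
      (∀ m ∈ Δ.dual y.i, y.val m = y'.val m) → y = y') ∧
    (∀ j, IsOpen {y : NR Δ | Δ.cone y.i ⊆ Δ.cone j}) ∧
    ∀ (j : Δ.ι) (m : Δ.dual j),
      ContinuousOn (fun y : NR Δ => y.val m) {y | Δ.cone y.i ⊆ Δ.cone j}

/-- **FHom** (uses `FGord`, `FFace`, `FVal`). Every multiplicative function `w ≥ 0` on
`σ^∨ ∩ M` is a point of `N_ℝ(σ)`.
Proof. Let `G` be a finite set of generators of `dual i`, `m₀` the sum of the `g ∈ G` with
`w g ≠ 0`; `w m₀ ≠ 0`. Let `j` be the face `cone j = faceOf (gens i) m₀` (fan axiom). For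
`m' ∈ dual j` choose `r` with `m' + r m₀ ∈ dual i` (`FFace`) and put
`w'(m') = w(m' + r m₀)/w(m₀)^r`: independent of `r`, multiplicative, extends `w`. For `m' ∈ perp j` we
have `w'(m') w'(-m') = 1`, so `w'(m') > 0`, `φ = log w'` on `perp j`; `y = (j, φ)`. It remains:
`w'(m) = 0` for `m ∈ dual i`, `m ∉ perp j`: if `w m ≠ 0` then `m` is a sum of generators `g` with
`w g ≠ 0` (multiplicativity), so `k m₀ - m` is a sum of generators for large `k`, in `dual i`;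
since `m₀ ∈ perp j`, `-m ∈ dual j`, and `m ∈ dual j`, so `m ∈ perp j`. -/
def St_FHom : Prop :=
  ∀ (n : ℕ) (Δ : Fan n) (i : Δ.ι) (w : Δ.dual i → ℝ), w 0 = 1 →
    (∀ a b, w (a + b) = w a * w b) → (∀ a, 0 ≤ w a) →
    ∃ y : NR Δ, Δ.cone y.i ⊆ Δ.cone i ∧ ∀ m : Δ.dual i, y.val m = w m

/-- **FCpt** (uses `FHom`, `FFace`, `FVal`). Compactness.
Proof. Let `𝒰` be an ultrafilter on the set. For `m ∈ dual i` the numbers `val z m ∈ [0, c m]`
converge along `𝒰` to `w m`; `w` is multiplicative: `FHom` gives `y`, which is in the set. `𝒰 → y`: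
let `y` be in the subbasic open set `{z | cone z.i ⊆ cone j, a < val z m' < b}`, `m' ∈ dual j`.
Let `k` be the index with `cone k = cone i ∩ cone j = faceOf (gens i) m₀`, `m₀ ∈ dual i` (fan axiom
`inter`). `cone y.i ⊆ cone k ⊆ m₀^⊥`, so `m₀ ∈ perp y.i` and `w m₀ = val y m₀ > 0`. So for
`𝒰`-almost all `z`: `val z m₀ > 0`, `m₀ ∈ perp z.i`, hence `cone z.i ⊆ cone i ∩ m₀^⊥ = cone k ⊆
cone j`. `m' ∈ dual j ≤ dual k`, so `m' + r m₀ ∈ dual i` for some `r` (`FFace`), and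
`val z m' = val z (m' + r m₀)/(val z m₀)^r` for these `z` and for `y` (all the elements are in
`dual z.i`); so `val z m' → val y m'`. (`isCompact_iff_ultrafilter_le_nhds`,
`nhds_generateFrom`.) -/
def St_FCpt : Prop :=
  ∀ (n : ℕ) (Δ : Fan n) (i : Δ.ι) (c : Δ.dual i → ℝ),
    IsCompact {y : NR Δ | Δ.cone y.i ⊆ Δ.cone i ∧ ∀ m : Δ.dual i, y.val m ≤ c m}

/-- **FJ** (uses `FZero`, `FVal`). The open stratum.
`val (jT u) m = exp (m·u)` for all `m`. `jT` is continuous (preimage of a subbasic set: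
`{u | a < exp(m·u) < b}`), every `y` with zero cone is `jT (crd y.φ)` (a homomorphism
`ℤ^n → ℝ` is determined by the values on the basis), `crd (jT u).φ = u`, `jT` is open
(neighbourhoods `{z | cone z.i ⊆ {0}, exp(u_k - ε) < val z e_k < exp(u_k + ε)}`). `y.φ ↦ crd`
is continuous at points of the open stratum. -/
def St_FJ : Prop :=
  ∀ (n : ℕ) (Δ : Fan n) (i₀ : Δ.ι), Δ.cone i₀ = {0} →
    (∀ u m, (jT Δ i₀ u).val m = Real.exp (pr m u)) ∧
    (∀ u, crd (jT Δ i₀ u).φ = u) ∧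
    (∀ y : NR Δ, Δ.cone y.i = {0} → y = jT Δ i₀ (crd y.φ)) ∧
    Topology.IsOpenEmbedding (jT Δ i₀)

/-- **FFin** (uses `FGord`, `FZero`, `FJ`, `FCpt`, `FVal`). `Fine` = closed in `N_ℝ(Σ)`.
(⇒) Let `y ∉ jT '' S`. If `cone y.i = {0}`, `jT` is an open embedding and `S` closed. Otherwise let
`i = y.i`, `G` finite set of generators of `dual i`, `c_g` with `val y g < e^{c_g}`. If
`g·u ≤ c_g` for all `g ∈ G` then `m·u ≤ c(m)` for all `m ∈ dual i`, with `c(m)` depending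
only on `m` and the `c_g`. So `S ∩ {u | g·u ≤ c_g}` is bounded; choose `m₁ ∈ dual i`, `m₁ ∉ perp i`
(`FZero`) and `C` with `m₁·u ≥ -C` on this bounded set. The neighbourhood
`{z ∈ N_ℝ(σ_i) | val z g < e^{c_g}, val z m₁ < e^{-C}}` of `y` (`val y m₁ = 0`) misses `jT '' S`.
(⇐) `S` is closed (`jT` is an embedding, continuous). `K = {y ∈ N_ℝ(σ_i) | val y m ≤ e^{c m}}` is
compact (`FCpt`), so `K ∩ jT '' S` is compact, equal to the image of `S ∩ {m·u ≤ c m}`, and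
`jT` is an embedding: `S ∩ {…}` is compact. -/
def St_FFin : Prop :=
  ∀ (n : ℕ) (Δ : Fan n) (i₀ : Δ.ι), Δ.cone i₀ = {0} → ∀ S : Set (Fin n → ℝ),
    Fine Δ S ↔ IsClosed (jT Δ i₀ '' S)

/-! ## superforms of type `(n,q)` on `N_ℝ(Σ)` -/

/-- **FCom**. The superforms on `N_ℝ(Σ)` form a vector space and `d''` is linear. Compare
`TDC/Comb.lean` (superforms on `ℝ^{R₁}`, `ℝ^{R₂}` are pulled back to `ℝ^{R₁+R₂}`; the same lemmas,
`pullT` has the same shape as `pullAt`). -/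
def St_FCom : Prop :=
  ∀ (n : ℕ) (Δ : Fan n) (p q : ℕ),
    (IsFormT (0 : FamT Δ p q)) ∧
    (∀ ω₁ ω₂ : FamT Δ p q, IsFormT ω₁ → IsFormT ω₂ → IsFormT (ω₁ + ω₂)) ∧
    (∀ (c : ℝ) (ω : FamT Δ p q), IsFormT ω → IsFormT (c • ω)) ∧
    (IsDbarT (0 : FamT Δ p q) 0) ∧
    (∀ (η₁ η₂ : FamT Δ p q) (ω₁ ω₂ : FamT Δ p (q + 1)), IsDbarT η₁ ω₁ → IsDbarT η₂ ω₂ →
      IsDbarT (η₁ + η₂) (ω₁ + ω₂)) ∧
    (∀ (c : ℝ) (η : FamT Δ p q) (ω : FamT Δ p (q + 1)), IsDbarT η ω → IsDbarT (c • η) (c • ω)) ∧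
    (∀ (η : FamT Δ p q) (ω : FamT Δ p (q + 1)), IsDbarT η ω → IsFormT η ∧ IsFormT ω)

/-- **FBdr** (uses `FFace`). Forms of type `(n,q)` vanish at the boundary. If `cone y.i ≠ {0}` there is a generator
`v ≠ 0`; characters `F l ∈ perp y.i` are orthogonal to `v`; so any `n` of them satisfy a
non-trivial integral linear relation `∑ c_l F(I l) = 0`, and
`∑ c_l δ_k(F(I l)) = 0` for all `k` (`perp y.i ≤ perp z.i`): the determinant is zero. -/
def St_FBdr : Prop :=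
  ∀ (n : ℕ) (Δ : Fan n) (y z : NR Δ) (R q : ℕ) (F : Fin R → Fin n → ℤ) (α : SF R n q),
    Δ.cone y.i ≠ {0} → (∀ l, F l ∈ Δ.perp y.i) → Δ.cone z.i ⊆ Δ.cone y.i → pullT z F α = 0

/-- **FRep** (uses `FBdr`, `FFin`, `FJ`, `FZero`). Forms of type `(n,q)` on `N_ℝ(Σ)` are smooth
`q`-forms `γ` on `ℝ^n` (coefficient of `d'x_1 ∧ … ∧ d'x_n`) with `Fine` support.
(⇒) Put `γ(u)(v_1..v_q) = ω(jT u)(e_1^*, …, e_n^*; v_1, …, v_q)`, where vectors `v ∈ ℝ^n` are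
homomorphisms `prHom ⊤ v` and `e_k^* = prHom ⊤ e_k`. Near `u₀` the chart at `jT u₀` gives
`ω(jT u)(δ;ε) = ∑_I det(δ_k(F(I l))) α_I((F l·u)_l)(ε(F))` and, as `n × n` determinants,
`det(δ_k(F(I l))) = det(crd δ) det(F(I l)_k)`: smooth in `u` and equal to
`det(crd δ) γ(u)(crd ε)`. Support: near `y` with `cone y.i ≠ {0}` `ω = 0` (`FBdr`), so
`jT '' (tsupport γ)` is closed (its complement is open: near `jT u₀`, `u₀ ∉ tsupport γ`, use
that `jT` is open; near a boundary point take the neighbourhood where `ω = 0`: its preimage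
under `jT` is open and `γ = 0` on it). `FFin`.
(⇐) Chart at `jT u₀`: `R = n`, `F l = e_l`, `α_I = γ` for `I = id`, `0` otherwise. Chart at a
boundary point: `R = 0`, `α = 0` (or `F = 0`), valid on a neighbourhood of `y` inside
`N_ℝ(σ_{y.i})` missing the closed set `jT '' (tsupport γ)` (`FFin`). -/
def St_FRep : Prop :=
  ∀ (n : ℕ) (Δ : Fan n) (q : ℕ) (ω : FamT Δ n q),
    IsFormT ω ↔ ∃ γ : (Fin n → ℝ) → (Fin n → ℝ) [⋀^Fin q]→L[ℝ] ℝ,
      ContDiff ℝ (⊤ : ℕ∞) γ ∧ Fine Δ (tsupport γ) ∧ ω = extT Δ γ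

/-- **FReD** (uses `FRep`, `FBdr`, `FFin`, `FJ`, `FZero`; take the lemmas of `FRep`). The same for
`d''`. (⇒) `η = extT γ` by `FRep`; at `jT u₀` the chart `(F, α)` gives, near `u₀`,
`γ(u) = ∑_I det(F(I l)_k) • (A^*α_I)(u)`, `A u = (F l·u)_l` linear, so
`dγ(u) = ∑_I det(..) • (A^* dα_I)(u)` (`extDeriv_pullback` or directly: `fderiv` of
`u ↦ (α_I (A u)).compContinuousLinearMap A`), which is the value of `ω`. (⇐) as in `FRep`. -/
def St_FReD : Prop :=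
  ∀ (n : ℕ) (Δ : Fan n) (q : ℕ) (η : FamT Δ n q) (ω : FamT Δ n (q + 1)),
    IsDbarT η ω ↔ ∃ γ : (Fin n → ℝ) → (Fin n → ℝ) [⋀^Fin q]→L[ℝ] ℝ,
      ContDiff ℝ (⊤ : ℕ∞) γ ∧ Fine Δ (tsupport γ) ∧ η = extT Δ γ ∧ ω = extT Δ (extDeriv γ)

/-- **FCS** (uses `FGord`, `FZero`, `FJ`, `FVal`). Compact supports.
(⇒) Let `C` be compact with `extT γ = 0` off `C`. `G_i` finite set of generators of `dual i`; the
open sets `O_k = ⋃_i {y ∈ N_ℝ(σ_i) | val y g < e^k for g ∈ G_i}` increase and cover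
`N_ℝ(Σ)`, so `C ⊆ O_k`; hence `{γ ≠ 0} ⊆ ⋃_i {u | g·u ≤ k, g ∈ G_i}` (closed), contains
`tsupport γ`, and each `tsupport γ ∩ {g·u ≤ k}` is bounded (`Fine`; `g·u ≤ k` on `G_i` implies
`m·u ≤ c(m)`). (`γ(u) ≠ 0` implies `extT γ (jT u) ≠ 0`: take `δ` with `crd δ` the standard
basis.) (⇐) `C = jT '' (tsupport γ)`. -/
def St_FCS : Prop :=
  ∀ (n : ℕ) (Δ : Fan n) (q : ℕ) (γ : (Fin n → ℝ) → (Fin n → ℝ) [⋀^Fin q]→L[ℝ] ℝ),
    Fine Δ (tsupport γ) → (CSuppT (extT Δ γ) ↔ HasCompactSupport γ)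

/-! ## real analysis -/

/-- **FLev** (uses `FGord`, `FFark`, `FZero`). The level function
`h(u) = min_i max_{g ∈ G_i} g·u`, `G_i` a finite generating set of `dual i` with `0` added (so it
is not empty; then `h ≥ 0`). Lipschitz with constant
`Λ = max_g ∑_k |g_k|` (sup norm), positively homogeneous. (3) On `{m·u ≤ c m, m ∈ dual i}`:
`h(u) ≤ max_{g ∈ G_i} c g`. (4) `{h ≤ C} = ⋃_i {u | g·u ≤ C, g ∈ G_i}`, finite union, and
`g·u ≤ C` on `G_i` implies `m·u ≤ c(m)` for `m ∈ dual i`, `c(m) = (number of generators in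
a representation of m) · max(C,0)`. (5) If `Δ` is not complete let `-u₀` be in no cone; by `FFark`
for every `i` there is `m ∈ dual i` with `m·(-u₀) < 0`, so some `g ∈ G_i` has `g·u₀ > 0`.
(6) If `-u ∈ cone i` then `m·u ≤ 0` for all `m ∈ dual i`. -/
def St_FLev : Prop :=
  ∀ (n : ℕ) (Δ : Fan n), ∃ (h : (Fin n → ℝ) → ℝ) (Λ : ℝ), 0 ≤ Λ ∧
    (∀ u v, |h u - h v| ≤ Λ * ‖u - v‖) ∧
    (∀ (t : ℝ) (u : Fin n → ℝ), 0 ≤ t → h (t • u) = t * h u) ∧
    (∀ (i : Δ.ι) (c : Δ.dual i → ℝ), ∃ C : ℝ, ∀ u, (∀ m : Δ.dual i, pr m u ≤ c m) → h u ≤ C) ∧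
    (∀ (S : Set (Fin n → ℝ)) (C : ℝ), (∀ (i : Δ.ι) (c : Δ.dual i → ℝ),
      Bornology.IsBounded (S ∩ {u | ∀ m : Δ.dual i, pr m u ≤ c m})) →
      Bornology.IsBounded (S ∩ {u | h u ≤ C})) ∧
    (¬ Δ.Complete → ∃ u₀, 0 < h u₀) ∧ (Δ.Complete → ∀ u, h u ≤ 0)

/-- **FPar** (uses `FLev`). Small locally finite partitions of unity on a `Fine` set.
Proof. `h` from `FLev`; `S ∩ {h ≤ C}` is compact for all `C`. For `j ∈ ℕ` let
`S_j = S ∩ {j - 1 ≤ h ≤ j}` (`S_0 = S ∩ {h ≤ 0}`): compact; cover it by finitely many balls of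
radius `< 1/4` contained in `{h > j - 2}` (for `j ≥ 1`; `h` is continuous). All balls together
(countably many, enumerate; add empty sets if there are finitely many) cover `S`, and
only those with `j ≤ C + 2` meet `{h ≤ C}`. Mathlib:
`SmoothPartitionOfUnity.exists_isSubordinate` (closed set `S`, on the manifold `ℝ^n` over
itself) gives `ψ_k`, smooth, `tsupport (ψ k) ⊆ V k`, locally finite, sum `1` on `S`. Compactness of
`tsupport (ψ k)`: closed in a bounded ball. -/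
def St_FPar : Prop :=
  ∀ (n : ℕ) (Δ : Fan n) (S : Set (Fin n → ℝ)), Fine Δ S →
    ∃ (ψ : ℕ → (Fin n → ℝ) → ℝ) (V : ℕ → Set (Fin n → ℝ)),
      (∀ k, IsOpen (V k) ∧ SC (ψ k) (V k) ∧ (∀ u ∈ V k, ∀ v ∈ V k, ‖u - v‖ ≤ 1)) ∧
      (∀ u ∈ S, ∑ᶠ k, ψ k u = 1) ∧
      ∀ (i : Δ.ι) (c : Δ.dual i → ℝ),
        {k | (V k ∩ {u | ∀ m : Δ.dual i, pr m u ≤ c m}).Nonempty}.Finite

/-- **FTub**. Moving a bump to infinity along a direction: `c(u) = ∫_0^∞ f(u - τ v) dτ` is smooth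
(locally the integral is over `[0, T]`; smoothness of `∫_0^1` of a smooth function of
`(u, τ)`: `TDC.contDiff_param` in `TDC/RA1.lean`), has `D_v c = f`, and vanishes off the tube. The
tube `{w + τ v | w ∈ tsupport f, τ ≥ 0}` is closed (`f` has compact support). -/
def St_FTub : Prop :=
  ∀ (n : ℕ) (f : (Fin n → ℝ) → ℝ) (v : Fin n → ℝ), ContDiff ℝ (⊤ : ℕ∞) f →
    HasCompactSupport f → v ≠ 0 →
    ∃ c : (Fin n → ℝ) → ℝ, ContDiff ℝ (⊤ : ℕ∞) c ∧
      tsupport c ⊆ {u | ∃ w ∈ tsupport f, ∃ τ : ℝ, 0 ≤ τ ∧ u = w + τ • v} ∧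
      ∀ u, fderiv ℝ c u v = f u

/-- **FNon** (uses `FLev`, `FPar`, `FTub`). `Δ` not complete: every smooth `b` with `Fine` support is
the divergence of a field with `Fine` support.
Proof. `S = tsupport b`, `ψ, V` from `FPar`; `f_k = ψ_k b`, `b = ∑ f_k`. `h, Λ, u₀` from `FLev`. For
the finitely many `k` such that `V_k` meets `{h ≤ Λ + 1}` (by (3), (4) of `FLev` and `FPar`; the
set `{h ≤ C}` is contained in a finite union of polyhedra; or apply the finiteness of `FPar` to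
them) put `v_k = u₀`. For the other `k`, if `V_k` is not empty choose `w_k ∈ V_k` and `v_k = w_k`
(`h(w_k) > Λ + 1 > 0`, so `w_k ≠ 0`); if `V_k` is empty `f_k = 0`, `v_k = u₀`. `FTub`: `c_k` with
`D_{v_k} c_k = f_k`. On the tube of `k` (second kind): `u = w + τ w_k`, `w ∈ V_k`:
`h(u) ≥ h((1+τ) w_k) - Λ ‖w - w_k‖ ≥ (1+τ) h(w_k) - Λ`. So the tube meets `{h ≤ C}` only if
`h(w_k) ≤ C + Λ`, that is for finitely many `k`, and its intersection with `{h ≤ C}` is bounded.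
First kind: `h(w + τ u₀) ≥ τ h(u₀) - Λ‖w‖`: bounded too. So on every `{h < C}` (open, these
exhaust `ℝ^n`) only finitely many `c_k` are not zero: `c j = ∑_k (v_k)_j c_k` is smooth,
`∑_j ∂_j c_j = ∑_k D_{v_k} c_k = b`, and `tsupport (c j) ∩ {h ≤ C}` is bounded (finitely many
tubes), hence `Fine` by (3) of `FLev`. (`h` exists also for the converse translation of
`Fine`.) For the finiteness: `{k | (V k ∩ {h ≤ C}).Nonempty}` is finite because
`{h ≤ C} = ⋃_i {g·u ≤ C, g ∈ G_i}`; if this is not available from the statement of `FLev`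
use `S' = ` the union of points: choose `x_k ∈ V_k ∩ {h ≤ C}` for infinitely many `k`; `FPar`
says that `{x_k}` has only finitely many elements in every polyhedron, so by (4) of `FLev`
applied to `S = {x_k}` (all its intersections with polyhedra are finite) it is bounded, hence
contained in a polyhedron `{m·u ≤ c m}`: contradiction. -/
def St_FNon : Prop :=
  ∀ (n : ℕ) (Δ : Fan n), ¬ Δ.Complete → ∀ b : (Fin n → ℝ) → ℝ, ContDiff ℝ (⊤ : ℕ∞) b →
    Fine Δ (tsupport b) →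
    ∃ c : Fin n → (Fin n → ℝ) → ℝ,
      (∀ j, ContDiff ℝ (⊤ : ℕ∞) (c j) ∧ Fine Δ (tsupport (c j))) ∧
      ∀ u, b u = ∑ j, fderiv ℝ (c j) u (Pi.single j 1)

/-- **FDiv** (top forms and divergences on `ℝ^{m+1}`). (1) Every `(m+1)`-form is `b • dx id` with
`b = γ(e_0, …, e_m)`. (2) For `c : Fin (m+1) → …` smooth, `β = ∑_j (-1)^j c_j • dx (succAbove j)`
is smooth, `tsupport β ⊆ ⋃ tsupport (c j)` and `dβ = (∑ ∂_j c_j) dx id`. (3) Conversely
`dβ = (∑ ∂_j c_j) dx id` with `c_j = (-1)^j β(e_0, …, ê_j, …, e_m)`,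
`tsupport (c j) ⊆ tsupport β`. (`extDeriv_apply` evaluated at the basis.) -/
def St_FDiv : Prop :=
  ∀ (m : ℕ),
    (∀ γ : (Fin (m + 1) → ℝ) → (Fin (m + 1) → ℝ) [⋀^Fin (m + 1)]→L[ℝ] ℝ,
      γ = fun u => (γ u fun k => Pi.single k 1) • dx id) ∧
    (∀ c : Fin (m + 1) → (Fin (m + 1) → ℝ) → ℝ, (∀ j, ContDiff ℝ (⊤ : ℕ∞) (c j)) →
      ∃ β : (Fin (m + 1) → ℝ) → (Fin (m + 1) → ℝ) [⋀^Fin m]→L[ℝ] ℝ,
        ContDiff ℝ (⊤ : ℕ∞) β ∧ tsupport β ⊆ ⋃ j, tsupport (c j) ∧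
        ∀ u, extDeriv β u = (∑ j, fderiv ℝ (c j) u (Pi.single j 1)) • dx id) ∧
    ∀ β : (Fin (m + 1) → ℝ) → (Fin (m + 1) → ℝ) [⋀^Fin m]→L[ℝ] ℝ, ContDiff ℝ (⊤ : ℕ∞) β →
      ∃ c : Fin (m + 1) → (Fin (m + 1) → ℝ) → ℝ,
        (∀ j, ContDiff ℝ (⊤ : ℕ∞) (c j) ∧ tsupport (c j) ⊆ tsupport β) ∧
        ∀ u, extDeriv β u = (∑ j, fderiv ℝ (c j) u (Pi.single j 1)) • dx id

/-- **FSto**. The integral of a divergence of compactly supported functions is zero (Fubini and the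
fundamental theorem; Mathlib: `integral_fderiv_eq_zero`-like lemmas,
`integral_bilinear_hasLineDerivAt_right_eq_neg_left_of_integrable` with the constant function, or
`MeasureTheory.integral_divergence…`). -/
def St_FSto : Prop :=
  ∀ (n : ℕ) (c : Fin n → (Fin n → ℝ) → ℝ),
    (∀ j, ContDiff ℝ (⊤ : ℕ∞) (c j) ∧ HasCompactSupport (c j)) →
    ∫ u, ∑ j, fderiv ℝ (c j) u (Pi.single j 1) = 0

/-- **FTop** (uses `FRep`, `FReD`, `FCS`, `FDiv`, `FNon`, `FLev`, `Div` (`St_Div`), `FSto`). The cohomology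
of `N_ℝ(Σ)` in bidegree `(m+1,m+1)`.
(1) All forms are closed: `extT (dγ)` with `dγ` an `(m+2)`-form on `ℝ^{m+1}`, zero.
(2) Every form is `extT (b • dx id)`. (3) `Δ` complete: `h ≤ 0` everywhere, so `Fine` sets are
bounded and all forms (also of type `(m+1, m)`) have compact support. (4) `Δ` not complete:
every form is exact (`FNon`, `FDiv`). (5) With compact supports: `extT (b • dx id)` is exact iff
`∫ b = 0` (`Div` on a large box, `FSto`). -/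
def St_FTop : Prop :=
  ∀ (m : ℕ) (Δ : Fan (m + 1)),
    (∀ ω : FamT Δ (m + 1) (m + 1), IsFormT ω → IsDbarT ω 0) ∧
    (∀ ω : FamT Δ (m + 1) (m + 1), IsFormT ω ↔ ∃ b : (Fin (m + 1) → ℝ) → ℝ,
      ContDiff ℝ (⊤ : ℕ∞) b ∧ Fine Δ (tsupport b) ∧ ω = extT Δ (fun u => b u • dx id)) ∧
    (Δ.Complete → ∀ (q : ℕ) (ω : FamT Δ (m + 1) q), IsFormT ω → CSuppT ω) ∧
    (¬ Δ.Complete → ∀ ω : FamT Δ (m + 1) (m + 1), IsFormT ω →
      ∃ η : FamT Δ (m + 1) m, IsDbarT η ω) ∧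
    (∀ b : (Fin (m + 1) → ℝ) → ℝ, ContDiff ℝ (⊤ : ℕ∞) b → HasCompactSupport b →
      IsFormT (extT Δ (fun u => b u • dx id)) ∧ CSuppT (extT Δ (fun u => b u • dx id)) ∧
      (∫ u, b u = 0 ↔ ∃ η : FamT Δ (m + 1) m, CSuppT η ∧
        IsDbarT η (extT Δ (fun u => b u • dx id))))

end TDC
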