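import Pool.Agent.TDC.DefsF

/-!
# TDC: the toric varieties `𝔾_m^n`, `𝔸^n`, `ℙ^n` (definitions, statements with proofs)
-/

namespace TDC

open scoped Topology
open AlgebraicGeometry CategoryTheory

attribute [local instance] MvPolynomial.gradedAlgebra

/-- projective space `ℙ^n = Proj K[x_0, …, x_n]` over a field -/
noncomputable def PrK (K : Type) [Field K] (n : ℕ) : Scheme.{0} :=
  Proj (MvPolynomial.homogeneousSubmodule (Fin (n + 1)) K)

/-- its structure morphism -/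
noncomputable def PrKs (K : Type) [Field K] (n : ℕ) : PrK K n ⟶ Spec (.of K) :=
  Proj.toSpecZero (MvPolynomial.homogeneousSubmodule (Fin (n + 1)) K) ≫
    Spec.map (CommRingCat.ofHom
      (algebraMap K (MvPolynomial.homogeneousSubmodule (Fin (n + 1)) K 0)))

/-- the torus `𝔾_m^n = Spec K[ℤ^n]` -/
noncomputable def GmK (K : Type) [Field K] (n : ℕ) : Scheme.{0} :=
  Spec (.of (AddMonoidAlgebra K (Fin n → ℤ)))

/-- its structure morphism -/
noncomputable def GmKs (K : Type) [Field K] (n : ℕ) : GmK K n ⟶ Spec (.of K) :=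
  Spec.map (CommRingCat.ofHom (algebraMap K (AddMonoidAlgebra K (Fin n → ℤ))))

/-- affine space `𝔸^n = Spec K[x_1, …, x_n]` over a field -/
noncomputable def AfK (K : Type) [Field K] (n : ℕ) : Scheme.{0} :=
  Spec (.of (MvPolynomial (Fin n) K))

/-- its structure morphism -/
noncomputable def AfKs (K : Type) [Field K] (n : ℕ) : AfK K n ⟶ Spec (.of K) :=
  Spec.map (CommRingCat.ofHom (algebraMap K (MvPolynomial (Fin n) K)))

/-- **IFan** (the three fans). For `J ⊆ Fin n` let `E_J = {e_j | j ∈ J}` (standard basis).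
(1) `{0}`: the only cone is generated by the empty set. (2) The fan of `𝔸^n`: `ι = Finset (Fin n)`,
`gens J = E_J`; `coneOf E_J = {u ≥ 0, u_k = 0 for k ∉ J}`; the face of `J` cut out by
`m ∈ dualOf E_J` (`m_j ≥ 0` for `j ∈ J`) is `{j ∈ J | m_j = 0}`; `J ∩ J'` is the face of `J` cut out by
the indicator function of `J \ J'`. (3) The fan of `ℙ^n`: rays `e_0 = -(e_1 + … + e_n), e_1, …, e_n`;
`ι = {J : Finset (Fin (n+1)) // J ≠ univ}`, `gens J = {e_j | j ∈ J}`. Any `n` of the `n+1` rays form a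
basis of `ℤ^n`. Write `N = ℤ^{n+1}/ℤ(1,…,1)`, `u = (0,u_1,…,u_n)` mod `(1,…,1)`: for `u ∈ ℝ^n`
let `μ = min(0, u_1, …, u_n)`; then `u = ∑_j (u_j - μ) e_j` (`u_0 = 0`) is the unique
representation with non-negative coefficients not all positive; `u ∈ cone J` iff
`{j | u_j > μ} ⊆ J`. So the fan is complete and `cone J ∩ cone J' = cone (J ∩ J')`. A character
`m ∈ ℤ^n` has `m·e_0 = -∑ m_k`, `m·e_k = m_k`; the face of `J` cut out by `m` is
`{j ∈ J | m·e_j = 0}`; for `J' ⊆ J` and `l ∉ J` the character with `m·e_j = 1` for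
`j ∈ J \ J'`, `0` for `j ∈ J'`, and `m·e_l` determined by `∑_j m·e_j = 0` cuts out `J'`. -/
def St_IFan : Prop :=
  ∀ n : ℕ,
    (∃ Δ : Fan n, Subsingleton Δ.ι ∧ (∀ i, Δ.gens i = ∅)) ∧
    (∃ (Δ : Fan n) (e : Δ.ι ≃ Finset (Fin n)), (0 < n → ¬ Δ.Complete) ∧
      ∀ i, Δ.gens i = (e i).image fun j => Pi.single j 1) ∧
    (∃ (Δ : Fan n) (e : Δ.ι ≃ {J : Finset (Fin (n + 1)) // J ≠ Finset.univ}), Δ.Complete ∧
      ∀ i, Δ.gens i = (e i).1.image
        (Fin.cons (α := fun _ => Fin n → ℤ) (fun _ => -1) fun j => Pi.single j 1))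

/-- **IGm** (uses `IFan`). The torus is the toric variety of the fan `{0}`: `U = ⊤`,
`Γ(Spec A, ⊤) = A` (`Scheme.ΓSpecIso`), `χ^m = single m 1`; `dualOf ∅ = ⊤`. -/
def St_IGm : Prop :=
  ∀ (K : Type) [NormedField K] (n : ℕ) (Δ : Fan n), Subsingleton Δ.ι → (∀ i, Δ.gens i = ∅) →
    IsIntegral (GmK K n) ∧ Nonempty (Toric Δ (GmKs K n))

/-- **IAf** (uses `IFan`). Affine space. `U_J` = basic open set of `∏_{j ∉ J} x_j`,
`Γ(X, U_J) = K[x_1..x_n]` localized at this element, `χ^m = ∏ x_k^{m_k}`, `m_j ≥ 0` for `j ∈ J`; the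
monomials form a basis. `dualOf (E_J) = {m | m_j ≥ 0 for j ∈ J}`. -/
def St_IAf : Prop :=
  ∀ (K : Type) [NormedField K] (n : ℕ) (Δ : Fan n) (e : Δ.ι ≃ Finset (Fin n)),
    (∀ i, Δ.gens i = (e i).image fun j => Pi.single j 1) →
    IsIntegral (AfK K n) ∧ Nonempty (Toric Δ (AfKs K n))

/-- **IPr** (uses `IFan`). Projective space. `f_J = ∏_{j ∉ J} x_j`, homogeneous of degree
`n + 1 - |J| > 0`, `U_J = Proj.basicOpen f_J` (`Proj.isAffineOpen_basicOpen`,
`Proj.basicOpenIsoAway : Away 𝒜 f ≅ Γ(Proj 𝒜, basicOpen 𝒜 f)`); the elements of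
`HomogeneousLocalization.Away` are quotients `P/f_J^k`, `P` homogeneous of degree
`k deg f_J`; a basis over `K` is given by the Laurent monomials `∏_{j=0}^n x_j^{a_j}`, `a ∈ ℤ^{n+1}`,
`∑ a_j = 0`, `a_j ≥ 0` for `j ∈ J`, that is `χ^m` with `a_j = m·e_j` (`a_0 = -∑ m_k`,
`a_k = m_k`). `IsIntegral`: `Proj` of a domain. Faces: `U_{J'} = U_J ∩ D_+(∏_{J \ J'} x_j)`. -/
def St_IPr : Prop :=
  ∀ (K : Type) [NormedField K] (n : ℕ) (Δ : Fan n)
    (e : Δ.ι ≃ {J : Finset (Fin (n + 1)) // J ≠ Finset.univ}),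
    (∀ i, Δ.gens i = (e i).1.image
        (Fin.cons (α := fun _ => Fin n → ℤ) (fun _ => -1) fun j => Pi.single j 1)) →
    IsIntegral (PrK K n) ∧ Nonempty (Toric Δ (PrKs K n))

end TDC
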