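import Pool.Agent.TDC.DefsN
import Pool.Agent.TDC.St2

/-!
# TDN, analytic part: statements of the modules (proofs in the docstrings)

Notation: `Ω` algebraic closure of `L`; `n = m + 1`; `K(E) = KE K x y`; `i : ℂ → L` is
`(algebraMap K L).comp c`. Every module `TDC/<Name>.lean` proves `theorem TDC.thm_<Name>`.
-/

namespace TDC

open scoped Topology
open MeasureTheory

/-- all assumptions on the fields -/
structure NHyp {K L : Type} [NormedField K] [Field L] [Algebra K L] {m : ℕ} (c : ℂ →+* K)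
    (x y : L) (t : Fin m → Lˣ) : Prop where
  /-- residue field -/
  resC : ResC c
  /-- function field -/
  eFun : EFun K x y t
  /-- countable value group -/
  cnt : (Set.range fun a : K => ‖a‖).Countable

/-- Gauss property over `K(E)`: the value of a polynomial in `g` over `K(E)` is at least the
value of each monomial. -/
def GaussE {K L : Type} [NormedField K] [Field L] [Algebra K L] {m : ℕ} (x y : L)
    (v : Pt (algebraMap K L)) (g : Fin m → Lˣ) : Prop :=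
  ∀ (P : MvPolynomial (Fin m) (KE K x y)) (e : Fin m →₀ ℕ),
    v.v ((P.coeff e : KE K x y) : L) * ∏ i, v.v (g i) ^ e i ≤
      v.v (MvPolynomial.aeval (fun i => (g i : L)) P)

/-! ## A. The group sums -/

/-- **NBas** (basic facts). `theorem thm_NBas : St_NBas`. (1) Transcendence degree: `L` is
algebraic over `K(x,t)`. (2) finitely generated. (3) characteristic zero: `ℂ ⊆ K ⊆ L`. (4) In
characteristic zero `[L : K(g)]` is the number of embeddings (`L/K(g)` finite separable: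
`Field.finSepDegree` or `AlgHom.card`), for `g` algebraically independent, `n = m+1` (as in
`EmF`: finite-dimensional). (5) `x` is transcendental over `K`; `x - a`, `y + b` are not zero
(`y ∈ K` would make `x` algebraic), so `(xa c x a : L) = x - a`, `(yb c y b : L) = y + b`.
(6) If `(x, g)` is algebraically independent over `K` then so is `(x - a, g)` (automorphism of
the polynomial ring), and `K(x - a, g) = K(x, g)`. (7) `EmbE ⊆ Emb K (cx c x a g)`; for `g = t`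
`EmbE` consists only of the inclusion. -/
def St_NBas : Prop :=
  ∀ (K L : Type) [NontriviallyNormedField K] [IsUltrametricDist K] [Field L] [Algebra K L]
    (m : ℕ) (c : ℂ →+* K) (x y : L) (t : Fin m → Lˣ), NHyp c x y t →
    TrLe K L (m + 1) ∧ (⊤ : IntermediateField K L).FG ∧ CharZero L ∧
    (∀ g : Fin (m + 1) → Lˣ, AlgebraicIndependent K (fun i => (g i : L)) →
      (Emb K g).Finite ∧ dg K g = ((Emb K g).ncard : ℝ) ∧ 0 < dg K g) ∧
    (Transcendental K x ∧ ∀ a : ℂ, ((xa c x a : Lˣ) : L) = x - algebraMap K L (c a) ∧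
      ((yb c y a : Lˣ) : L) = y + algebraMap K L (c a)) ∧
    (∀ g : Fin m → Lˣ, AlgebraicIndependent K (Fin.cons x (fun i => (g i : L)) : Fin (m + 1) → L) →
      ∀ a : ℂ, AlgebraicIndependent K (fun i => (cx c x a g i : L)) ∧
        EmbE K x y g ⊆ Emb K (cx c x a g)) ∧
    EmbE K x y t = {incE K L}

/-- **NInd** (uses `MLoc`, `NBas`). `theorem thm_NInd : St_MLoc → St_NBas → St_NInd`.
Proof. `x - a` and `g` have independent values at `v`. `MLoc` for `K(E)/K` (transcendence degree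
`1`: `y` is algebraic over `K(x)`), the restriction of `v` to `K(E)` and the `1`-tuple `x - a`: for every
`w ∈ K(E)`, `w ≠ 0`, there are `N > 0`, `k ∈ ℤ` with `|w|^N = ‖a'‖ |x - a|^k`. So if
`|w| |g^e| = |w'| |g^{e'}|` then (raise to a power) a monomial `(x-a)^j g^{N(e-e')}` has value in
`|K|`, so `e = e'`. Hence the non-zero monomials of `P(g)` have pairwise different values and
`|P(g)|` is their maximum (as in `IndG`). -/
def St_NInd : Prop :=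
  ∀ (K L : Type) [NontriviallyNormedField K] [IsUltrametricDist K] [Field L] [Algebra K L]
    (m : ℕ) (c : ℂ →+* K) (x y : L) (t : Fin m → Lˣ), NHyp c x y t →
    ∀ (g : Fin m → Lˣ) (a : ℂ) (v : Pt (algebraMap K L)), Indep v (cx c x a g) → GaussE x y v g

/-- **NPsi** (the counting formula over `K(E)`).
`theorem thm_NPsi : St_NBas → St_Npg → St_Frc → St_Irr → St_NPsi`. As `Psi` (`TDC/Psi.lean`), with the
base field `K' = K(E)`, `E' = K'(g)`, `G = (h, g)` (variable `0` is `h`). `TrLe K' L m`: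
`m + 1` elements of `L` algebraically independent over `K(E)`, together with `x`, would be `m + 2`
elements algebraically independent over `K`. `g` is algebraically independent over `K(E)`
(`K(E)/K(x)` is algebraic). `EmbE` is in bijection with `L →ₐ[E'] Ω`. `Irr` (for `K'`, `L`, `G`)
gives `P`, whose specialization is `c·minpoly E' h`; `κ = [L : E']/#EmbE`, `D = [L : E'(h)]`.
With the absolute value `X.v` of `Ω`: `log gaussNorm = log|c| + ∑_ρ max(τ, log|ρ|)` (`Npg`), the sum over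
the roots by `Frc`; and `|c_j(g)|_X = max_e |P_{(j,e)}|_X |g|^e`: `≥` is `GaussE`, `≤` the
ultrametric inequality. Note that `P, D, κ` do not depend on `X`. -/
def St_NPsi : Prop :=
  ∀ (K L : Type) [NontriviallyNormedField K] [IsUltrametricDist K] [Field L] [Algebra K L]
    (m : ℕ) (c : ℂ →+* K) (x y : L) (t : Fin m → Lˣ), NHyp c x y t →
    ∀ (g : Fin m → Lˣ), AlgebraicIndependent K (Fin.cons x (fun i => (g i : L)) : Fin (m + 1) → L) →
    ∀ h : Lˣ, ∃ (P : MvPolynomial (Fin (m + 1)) (KE K x y)) (D κ : ℝ), P ≠ 0 ∧ 0 < D ∧ 0 < κ ∧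
      ∀ X : Pt (algebraMap K (AlgebraicClosure L)), GaussE x y (pb (incE K L) X) g →
        ∃ C : ℝ, ∀ ρ : ℝ, C + κ * ∑ᶠ σ ∈ EmbE K x y g, max ρ (Real.log (X.v (σ (h : L)))) =
          D * ⨆ e : P.support, (Real.log ((pb (incE K L) X).v ((P.coeff e.1 : KE K x y) : L)) +
            ∑ j : Fin m, (e.1 j.succ : ℝ) * logv (pb (incE K L) X) g j + (e.1 0 : ℝ) * ρ)

/-- **NPol** (Newton polygons, real lemma). `theorem thm_NPol : St_NPol`.
Proof. Let `M = max_{e ∈ S} (a_e + l_e ρ₀)`, `S₀` the set of `e` where it is attained, `e₁` (`e₂`) the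
element of `S₀` with the largest (smallest) `l` (unique by hypothesis). `η₀ > 0` such that for
`0 < |ρ - ρ₀| ≤ 2η₀` the maximum of `a_e + l_e ρ` is attained only at `e₁` (if `ρ > ρ₀`), only at
`e₂` (if `ρ < ρ₀`): elements of `S₀` by comparing slopes, the others by continuity. For `η ≤ η₀` and `n`
given and `|τ|` small the maximum of `a_e + n_e τ + l_e ρ` is attained only at `e₁` for all
`ρ ∈ [ρ₀ + η/2, ρ₀ + 2η]` and only at `e₂` for all `ρ ∈ [ρ₀ - 2η, ρ₀ - η/2]` (compactness). Let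
`f(ρ) = C + κ ∑_i max(ρ, r_i)`. Its slope on `[ρ₀+η/2, ρ₀+2η]` is constant, `= D l_{e₁}`, so no
`r_i` lies in the open interval and `κ #{r_i ≤ ρ₀ + η/2} = D l_{e₁}`; similarly
`κ #{r_i ≤ ρ₀ - 2η} = κ #{r_i < ρ₀ - η/2} = D l_{e₂}`. So `κ #{|r_i - ρ₀| < η} = D(l_{e₁} - l_{e₂})`,
and with `ρ_± = ρ₀ ± η`:
`κ ∑_{|r_i - ρ₀| < η} r_i = D l_{e₁} ρ_+ - D l_{e₂} ρ_- - f(ρ_+) + f(ρ_-)`, with
`f(ρ_+) = D(a_{e₁} + n_{e₁}τ + l_{e₁}ρ_+)`, `f(ρ_-) = D(a_{e₂} + n_{e₂}τ + l_{e₂}ρ_-)`; finally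
`a_{e₂} - a_{e₁} = (l_{e₁} - l_{e₂}) ρ₀`. -/
def St_NPol : Prop :=
  ∀ (E : Type) (S : Finset E), S.Nonempty → ∀ (a l : E → ℝ) (κ D : ℝ), 0 < κ → 0 < D →
    (∀ e ∈ S, ∀ e' ∈ S, l e = l e' → a e = a e' → e = e') →
    ∀ ρ₀ : ℝ, ∃ e₁ ∈ S, ∃ e₂ ∈ S, ∃ η₀ : ℝ, 0 < η₀ ∧ ∀ η : ℝ, 0 < η → η ≤ η₀ →
      ∀ n : E → ℝ, ∃ δ : ℝ, 0 < δ ∧
      ∀ τ : ℝ, -δ < τ → τ < 0 → ∀ (ι : Type) (T : Finset ι) (r : ι → ℝ) (C : ℝ),
        (∀ ρ : ℝ, C + κ * ∑ i ∈ T, max ρ (r i) =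
          D * ⨆ e : S, (a e.1 + n e.1 * τ + l e.1 * ρ)) →
        κ * ((T.filter fun i => |r i - ρ₀| < η).card : ℝ) = D * (l e₁ - l e₂) ∧
        κ * ∑ i ∈ T with |r i - ρ₀| < η, r i =
          D * (l e₁ - l e₂) * ρ₀ + D * (n e₂ - n e₁) * τ

/-- **NAsy** (algebra part, see `StNa.lean`). Values of elements of `K(E)` near the boundary of the
tubes. For `w ∈ K(E)`, `w ≠ 0`, there are `α ∈ K`, `φ ∈ ℂ(E)` with `|w - αφ| < |α|` at the Gauss point
of `E`. -/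
def St_NAsy : Prop :=
  ∀ (K L : Type) [NontriviallyNormedField K] [IsUltrametricDist K] [Field L] [Algebra K L]
    (m : ℕ) (c : ℂ →+* K) (x y : L) (t : Fin m → Lˣ), NHyp c x y t →
    ∀ w ∈ KE K x y, w ≠ 0 → ∃ (A : ℝ) (o : ℂ × ℂ → ℤ), IsDiv ((algebraMap K L).comp c) x y o ∧
      ∀ Q, GoodE Q → ∃ δ > 0, ∀ v ∈ Tube c x y Q, Gauss v ![xa c x Q.1] →
        -δ < Real.log (v.v (xa c x Q.1)) →
        Real.log (v.v w) = A + (o Q : ℝ) * Real.log (v.v (xa c x Q.1))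

/-- **NSub** (algebra part). Differences of divisors of functions are divisors of functions. -/
def St_NSub : Prop :=
  ∀ (M : Type) [Field M] (i : ℂ →+* M) (x y : M) (o o' : ℂ × ℂ → ℤ),
    IsDiv i x y o → IsDiv i x y o' → IsDiv i x y (fun Q => o Q - o' Q)

/-- **NLam** (algebra part). The choice of `λ`. -/
def St_NLam : Prop :=
  ∀ (M : Type) [Field M] (i : ℂ →+* M) (x y : M), y ^ 2 = x ^ 3 + 1 →
    (∀ P : Polynomial ℂ, P.eval₂ i x = 0 → P = 0) → ∀ S : Finset ℂ, ∃ P : ℂ × ℂ, GoodE P ∧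
      P.1 ∉ S ∧ ∀ 𝒪 : Finset (ℂ × ℂ → ℤ), (∀ o ∈ 𝒪, IsDiv i x y o) →
        ∃ Λ : (ℂ × ℂ) →₀ ℝ, Λ P = 1 ∧ (∀ Q ∈ Λ.support, GoodE Q ∧ Q.1 ∉ S) ∧
          ∀ o ∈ 𝒪, ∑ Q ∈ Λ.support, Λ Q * (o Q : ℝ) = 0

/-- **NTub** (algebra part). Facts about tubes. (1) `Q` good, `v(x - a) < 1`:
`y² - b² = (x-a)(x² + ax + a²)`, `v(x² + ax + a²) = |3a²| = 1` and the difference of `y - b` and
`y + b` is `-2b`, of value `1`. (2) Tubes of different good points are disjoint. (3) the tuple `f`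
meets only finitely many tubes: see the paper, Step 1. -/
def St_NTub : Prop :=
  ∀ (K L : Type) [NontriviallyNormedField K] [IsUltrametricDist K] [Field L] [Algebra K L]
    (m : ℕ) (c : ℂ →+* K) (x y : L) (t : Fin m → Lˣ), NHyp c x y t →
    (∀ Q, GoodE Q → ∀ v : Pt (algebraMap K L), Real.log (v.v (xa c x Q.1)) < 0 →
      (v ∈ Tube c x y Q ∧ Real.log (v.v (yb c y Q.2)) = 0) ∨
      (v ∉ Tube c x y Q ∧ Real.log (v.v (yb c y Q.2)) = Real.log (v.v (xa c x Q.1)))) ∧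
    (∀ Q, GoodE Q → ∀ v ∈ Tube c x y Q, Real.log (v.v (xa c x Q.1)) < 0) ∧
    (∀ Q Q', GoodE Q → GoodE Q' → Q ≠ Q' → Disjoint (Tube c x y Q) (Tube c x y Q')) ∧
    ∀ (r : ℕ) (f : Fin r → Lˣ), ∃ S : Finset ℂ, ∀ Q, GoodE Q → Q.1 ∉ S →
      ∀ v ∈ Tube c x y Q, ∀ J : Fin (m + 1) → Fin r, ¬ Indep v (f ∘ J)

/-- **NGS** (group sums). `theorem thm_NGS : St_NBas → St_NInd → St_NPsi → St_NPol → St_NAsy →
St_NSub → St_EmG → St_IndG → St_NGS`.
Proof. `P, D, κ` from `NPsi`; for `e ∈ P.support`: `A_e`, `o_e` from `NAsy` for the coefficient `P_e`.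
`𝒪` = all differences `o_e - o_{e'}`, `q = D/κ`. `𝒢` = set of `s ∈ ℝ^m` with: for `e ≠ e' ∈ P.support` and
`e 0 = e' 0`: `A_e + ∑_j e(j+1) s_j ≠ A_{e'} + ∑_j e'(j+1) s_j` (the complement is a finite union of
affine hyperplanes). For `s ∈ 𝒢` and `ρ₀` apply `NPol` with `E = ` monomials, `S = P.support`,
`a_e = A_e + ∑ e(j+1) s_j`, `l_e = e 0`: `e₁, e₂, η`. `N` = the number with
`κ N = D (l_{e₁} - l_{e₂})` (a natural number: it is the cardinality of a set of embeddings if there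
is any `X` for some `Q`, `τ`; if for no `Q, δ`... simply put `N = ⌊D(l_{e₁} - l_{e₂})/κ⌋₊`),
`o = o_{e₂} - o_{e₁}`. For `Q` good: `n_e = o_e(Q)`, `δ` = minimum of the `δ` of `NPol` and of those of
`NAsy` for the finitely many `e`. For `X` over `(τ, s)` generic: `v = pb incE X` has independent
values on `(x - a, g)` (`EmG`), so it is a Gauss point for `x - a` alone, `GaussE` holds (`NInd`),
and `log|P_e|_v = A_e + o_e(Q) τ` (`NAsy`). `NPsi` is the hypothesis of `NPol` (sum over the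
finite set `EmbE`, `finsum_mem` to a finset sum). -/
def St_NGS : Prop :=
  ∀ (K L : Type) [NontriviallyNormedField K] [IsUltrametricDist K] [Field L] [Algebra K L]
    (m : ℕ) (c : ℂ →+* K) (x y : L) (t : Fin m → Lˣ), NHyp c x y t →
    ∀ (g : Fin m → Lˣ), AlgebraicIndependent K (Fin.cons x (fun i => (g i : L)) : Fin (m + 1) → L) →
    ∀ h : Lˣ, ∃ (𝒪 : Finset (ℂ × ℂ → ℤ)) (q : ℝ) (𝒢 : Set (Fin m → ℝ)),
      (∀ o ∈ 𝒪, IsDiv ((algebraMap K L).comp c) x y o) ∧ volume 𝒢ᶜ = 0 ∧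
      ∀ s ∈ 𝒢, ∀ ρ₀ : ℝ, ∃ N : ℕ, ∃ o ∈ 𝒪, ∃ η₀ : ℝ, 0 < η₀ ∧ ∀ η : ℝ, 0 < η → η ≤ η₀ →
        ∀ Q, GoodE Q → ∃ δ : ℝ, 0 < δ ∧ ∀ τ : ℝ, -δ < τ → τ < 0 → Generic K (Fin.cons τ s : Fin (m + 1) → ℝ) →
        ∀ X : Pt (algebraMap K (AlgebraicClosure L)),
          Ov (cx c x Q.1 g) (Fin.cons τ s : Fin (m + 1) → ℝ) X →
          pb (incE K L) X ∈ Tube c x y Q →
          ∀ T : Finset (L →ₐ[K] AlgebraicClosure L),
            (T : Set (L →ₐ[K] AlgebraicClosure L)) =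
              {σ | σ ∈ EmbE K x y g ∧ |Real.log (X.v (σ (h : L))) - ρ₀| < η} →
            T.card = N ∧
            ∑ σ ∈ T, Real.log (X.v (σ (h : L))) = N * ρ₀ + q * (o Q : ℝ) * τ

/-- **NVan** (Vandermonde vectors). `theorem thm_NVan : St_NVan`. Write `b_r·p = ∑_i r^i p_i`: for
`p ≠ 0` a non-zero polynomial in `r` of degree `< R`, at most `R - 1` zeros. `M = R (N₀ + 1)`.
(1) If `p ∈ A \ A'`: for every `r ≤ M` there is `a' ∈ A'` with `b_r·(p - a') = 0`; by pigeonhole one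
`a'` for at least `R` values of `r`, so `p = a'`. (2) For each `a ∈ A`, `a ≠ p`, at most `R - 1` values
of `r` have `b_r·a = b_r·p`; the other ones, at least `R`, are zeros of `z`. -/
def St_NVan : Prop :=
  ∀ (R N₀ : ℕ), ∃ M : ℕ,
    (∀ A A' : Finset (Fin R → ℝ), A.card ≤ N₀ → A'.card ≤ N₀ →
      (∀ r ≤ M, (fun p : Fin R → ℝ => ∑ i : Fin R, (r : ℝ) ^ (i : ℕ) * p i) '' (A : Set (Fin R → ℝ)) =
        (fun p : Fin R → ℝ => ∑ i : Fin R, (r : ℝ) ^ (i : ℕ) * p i) '' (A' : Set (Fin R → ℝ))) →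
      A = A') ∧
    ∀ A : Finset (Fin R → ℝ), A.card ≤ N₀ → ∀ p z : Fin R → ℝ,
      (∀ r ≤ M, (∀ a ∈ A, a ≠ p →
        ∑ i : Fin R, (r : ℝ) ^ (i : ℕ) * a i ≠ ∑ i : Fin R, (r : ℝ) ^ (i : ℕ) * p i) →
        ∑ i : Fin R, (r : ℝ) ^ (i : ℕ) * z i = 0) → z = 0

/-- **NBal** (balancing along the boundary). `theorem thm_NBal : St_NBas → St_NGS → St_NVan →
St_EmG → St_NBal`.
Proof. `N₀ = #EmbE`, `M` from `NVan`; for `r ≤ M` let `h_r = ∏_i F_i^{r^i}`, so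
`log|h_r| = b_r·log|F|`; `NGS` gives `𝒪_r, q_r, 𝒢_r`; `𝒪 = ⋃ 𝒪_r`, `𝒢 = ⋂ 𝒢_r`. Let `s ∈ 𝒢`,
`p ∈ ℝ^R`. For `Q ∈ supp Λ` let `A_Q = {af k (0,s) : k ∈ 𝒦 Q}` (finite); all positions
`logv (pb σ (X Q)) F` are `af k (τ,s)`, `k ∈ 𝒦 Q` (for `σ ∈ EmbE`, `pb σ (X Q)` is a Gauss point of
`(x - a, g)` over `(τ, s)` and in the tube, as `σ y = y`), so they are within `C|τ|` of points
of `A_Q`. For small `|τ|` the limit point is unique: `k, k' ∈ 𝒦 Q` with
`af k (τ,s) = af k' (τ,s)` have `af k (0,s) = af k' (0,s)`. Let `B_Q ⊆ A_Q` be the set of limit points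
which occur (for this `τ`); `|B_Q| ≤ N₀`. Let `V_r = {b_r·a : a ∈ ⋃_Q A_Q}`, a finite set; for
`ρ₀ ∈ V_r` let `N_r(ρ₀)`, `o_{r,ρ₀}`, `η₀` be as in `NGS`, and choose one `η > 0` smaller than all
these `η₀` and than half of the distances of different elements of `V_r`, `r ≤ M`. For
`C'|τ| < η` and `|τ| < δ` (finitely many `Q, r, ρ₀`) the `σ` in the window `|log|σ h_r| - ρ₀| < η` are
exactly those whose limit point `a` has `b_r·a = ρ₀`. Hence
`b_r·B_Q = {ρ₀ ∈ V_r : N_r(ρ₀) > 0}` is independent of `Q`, and `B_Q = B` is the same for all `Q`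
(`NVan` (1)). If `p ∉ B` all summands are `0` (no `σ` has limit point `p`). If `p ∈ B`: for `r ≤ M`
with `b_r·a ≠ b_r·p` for all `a ∈ B`, `a ≠ p`: the `σ` with limit point `p` are those in the window of
`ρ₀ = b_r·p`, so `∑_σ b_r·(log|σF| - p) = q_r o(Q) τ` with `o ∈ 𝒪`. Multiply by `Λ Q` and sum over
`Q`: `b_r·z = 0` for the vector `z` with components the left side of the claim; by `NVan` (2)
`z = 0`. -/
def St_NBal : Prop :=
  ∀ (K L : Type) [NontriviallyNormedField K] [IsUltrametricDist K] [Field L] [Algebra K L]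
    (m : ℕ) (c : ℂ →+* K) (x y : L) (t : Fin m → Lˣ), NHyp c x y t →
    ∀ (g : Fin m → Lˣ), AlgebraicIndependent K (Fin.cons x (fun i => (g i : L)) : Fin (m + 1) → L) →
    ∀ (R : ℕ) (F : Fin R → Lˣ), ∃ 𝒪 : Finset (ℂ × ℂ → ℤ),
      (∀ o ∈ 𝒪, IsDiv ((algebraMap K L).comp c) x y o) ∧
      ∀ Λ : (ℂ × ℂ) →₀ ℝ, (∀ Q ∈ Λ.support, GoodE Q) →
        (∀ o ∈ 𝒪, ∑ Q ∈ Λ.support, Λ Q * (o Q : ℝ) = 0) →
      ∀ 𝒦 : ℂ × ℂ → Finset (Matrix (Fin R) (Fin (m + 1)) ℝ × (Fin R → ℝ)),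
        (∀ Q ∈ Λ.support, ∀ v ∈ Tube c x y Q, Gauss v (cx c x Q.1 g) →
          ∃ k ∈ 𝒦 Q, logv v F = af k (logv v (cx c x Q.1 g))) →
      ∃ 𝒢 : Set (Fin m → ℝ), volume 𝒢ᶜ = 0 ∧ ∀ s ∈ 𝒢, ∀ p : Fin R → ℝ, ∃ δ : ℝ, 0 < δ ∧
        ∀ τ : ℝ, -δ < τ → τ < 0 → Generic K (Fin.cons τ s : Fin (m + 1) → ℝ) →
        ∀ X : ℂ × ℂ → Pt (algebraMap K (AlgebraicClosure L)),
          (∀ Q ∈ Λ.support, Ov (cx c x Q.1 g) (Fin.cons τ s : Fin (m + 1) → ℝ) (X Q) ∧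
            pb (incE K L) (X Q) ∈ Tube c x y Q) →
          ∀ T : ℂ × ℂ → Finset (L →ₐ[K] AlgebraicClosure L),
            (∀ Q ∈ Λ.support, (T Q : Set (L →ₐ[K] AlgebraicClosure L)) =
              {σ | σ ∈ EmbE K x y g ∧ ∃ k ∈ 𝒦 Q, af k (Fin.cons 0 s : Fin (m + 1) → ℝ) = p ∧
                logv (pb σ (X Q)) F = af k (Fin.cons τ s : Fin (m + 1) → ℝ)}) →
            ∀ i : Fin R, ∑ Q ∈ Λ.support, Λ Q * ∑ σ ∈ T Q, (logv (pb σ (X Q)) F i - p i) = 0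

end TDC
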