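import Pool.Agent.TDC.DefsNs
import Pool.Agent.TDC.DefsN
import Pool.Agent.TDC.StG
import Pool.Agent.TDC.St6

/-!
# TDN, scheme side: statements (proofs in the docstrings)
-/

namespace TDC

open scoped Topology
open MeasureTheory AlgebraicGeometry CategoryTheory

/-- **NsTro** (as `GTro`). The tropicalization map of a morphism to a toric variety. -/
def St_NsTro : Prop :=
  ∀ (N : ℕ) (Δ : Fan N) (K : Type) [NormedField K] (X : Scheme.{0})
    (s : X ⟶ Spec (.of K)) (μ : TorMap Δ X),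
    (∃ T : An s → NR Δ, IsTropOf μ T) ∧
    (∀ T T' : An s → NR Δ, IsTropOf μ T → IsTropOf μ T' → T = T') ∧
    ∀ T : An s → NR Δ, IsTropOf μ T → Continuous T ∧
      (∀ (x : An s) (j : Δ.ι), x.1 ∈ μ.U j ↔ Δ.cone (T x).i ⊆ Δ.cone j) ∧
      ∀ (x : An s) (j : Δ.ι) (h : x.1 ∈ μ.U j) (m : Δ.dual j),
        absA x h (μ.χ j (Multiplicative.ofAdd m)) = (T x).val m

/-- **NsPul** (uses `NsTro`; as `GPul`). `trop_φ^*` maps forms to forms and commutes with `d''`. -/
def St_NsPul : Prop :=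
  ∀ (N : ℕ) (Δ : Fan N) (K : Type) [NormedField K] (X : Scheme.{0})
    (s : X ⟶ Spec (.of K)) (μ : TorMap Δ X) (T : An s → NR Δ) (hT : IsTropOf μ T) (p q : ℕ),
    (∀ ω : FamR μ T hT p q, IsFormR ω → IsFormA (pullR μ T hT p q ω)) ∧
    ∀ (η : FamR μ T hT p q) (ω : FamR μ T hT p (q + 1)), IsDbarR η ω →
      IsDbarA (pullR μ T hT p q η) (pullR μ T hT p (q + 1) ω)

/-- **NsLin** (as `FCom`). The superforms on `Trop_φ(X)` form a vector space, `d''` is linear. -/
def St_NsLin : Prop :=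
  ∀ (N : ℕ) (Δ : Fan N) (K : Type) [NormedField K] (X : Scheme.{0})
    (s : X ⟶ Spec (.of K)) (μ : TorMap Δ X) (T : An s → NR Δ) (hT : IsTropOf μ T) (p q : ℕ),
    (IsFormR (0 : FamR μ T hT p q)) ∧
    (∀ ω₁ ω₂ : FamR μ T hT p q, IsFormR ω₁ → IsFormR ω₂ → IsFormR (ω₁ + ω₂)) ∧
    (∀ (c : ℝ) (ω : FamR μ T hT p q), IsFormR ω → IsFormR (c • ω)) ∧
    (IsDbarR (0 : FamR μ T hT p q) 0) ∧
    (∀ (η₁ η₂ : FamR μ T hT p q) (ω₁ ω₂ : FamR μ T hT p (q + 1)), IsDbarR η₁ ω₁ →
      IsDbarR η₂ ω₂ → IsDbarR (η₁ + η₂) (ω₁ + ω₂)) ∧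
    (∀ (c : ℝ) (η : FamR μ T hT p q) (ω : FamR μ T hT p (q + 1)), IsDbarR η ω →
      IsDbarR (c • η) (c • ω)) ∧
    (∀ (η : FamR μ T hT p q) (ω : FamR μ T hT p (q + 1)), IsDbarR η ω →
      IsFormR η ∧ IsFormR ω)

/-- **NsPro** (uses `NsTro`, `GAff`, `FGord`, `FVal`). `trop_φ` is proper for a closed embedding `φ` in
the toric variety `Y`.
Proof. For `i : Δ.ι` and `c : Δ.dual i → ℝ` let `P_{i,c} = {y | cone y.i ⊆ cone i, val y m ≤ c m}`.
(a) Every compact `C ⊆ N_ℝ(Σ)` is contained in a finite union of sets `P_{i,c}`: for `y ∈ C`,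
`i = y.i`, let `G` be a finite generating set of `dual i` (`FGord`); the set
`O_y = {z | cone z.i ⊆ cone i, val z g < val y g + 1 for g ∈ G}` is open (finite intersection
of subbasic sets) and contains `y`; on it `val z m ≤ c m` for all `m ∈ dual i`, with
`c m = ∏ (val y g_j + 1)` for a representation `m = ∑ g_j` (`FVal`: `val z (a + b) = val z a * val z b`
for `a, b ∈ dual i ≤ dual z.i`, `FFace`). (b) `T⁻¹(P_{i,c})` is contained in a compact set: let
`U = φ⁻¹(τ.U i)`, affine as `φ` is a closed immersion (affine morphism) and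
`Γ(Y, τ.U i) → Γ(X, U)` is surjective (closed immersion and affine open: Mathlib
`IsClosedImmersion`, `IsAffineOpen.preimage`; surjectivity: `IsClosedImmersion` of the restriction to
an affine scheme, `isAffine_surjective_of_isAffine` or similar). For `g ∈ Γ(X,U)` choose
`f ∈ Γ(Y, τ.U i)` with `φ^* f = g` and write `f = ∑ a_m χ^m` (`τ.basis`, finite sum, `a_m ∈ K`); put
`B g = ∑_m ‖a_m‖ c m`. If `T x ∈ P_{i,c}` then `x.1 ∈ U` (`NsTro`) and
`|g(x)| = |∑ a_m (φ^*χ^m)(x)| ≤ ∑ ‖a_m‖ |(φ^* χ^m)(x)| ≤ B g` (`NsTro`: the value is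
`val (T x) m ≤ c m`; `kΓ`: the restriction of a constant `a ∈ K` to `κ(x.1)` is `kmap s x.1 a` since
`φ ≫ s' = s`). So `x` is in the compact set of `GAff` for `U` and `B`. -/
def St_NsPro : Prop :=
  ∀ (N : ℕ) (Δ : Fan N) (K : Type) [NormedField K] (X Y : Scheme.{0})
    (s : X ⟶ Spec (.of K)) (s' : Y ⟶ Spec (.of K)) (τ : Toric Δ s') (φ : X ⟶ Y),
    φ ≫ s' = s → IsClosedImmersion φ → ∀ (T : An s → NR Δ), IsTropOf (τ.pull φ) T →
    ∀ C : Set (NR Δ), IsCompact C → ∃ C' : Set (An s), IsCompact C' ∧ T ⁻¹' C ⊆ C'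

/-- **NsVan** (uses `NsTro`, `DetZ`). Superforms of type `(n,q)` pulled back from `Trop_φ(X)` vanish at
the points `v` of the function field at which no `n` of the elements `f_1, …, f_r` have independent
values; the `f_l` are the characters of the torus orbit which contains `φ(η)`.
Proof. Let `η` be the generic point. All `T (gen v)` have the same index `i₀`: by `NsTro`
`cone (T x).i ⊆ cone j` iff `x.1 ∈ U j`, which depends only on `x.1 = η`; so
`cone (T (gen v)).i = cone (T (gen v')).i` and `Fan.inj`. If there is no `v` take `r = 0`. The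
subgroup `perp i₀` of `ℤ^N` is finitely generated: generators `m_1, …, m_r`; `f_l` = value at `η` of
the unit `μ.un i₀ m_l`. For a form `ω` take the chart `(F, α)` at `y = T (gen v)`, evaluated at
`z = y`: `(pullR ω)(gen v)(δ, ε) = ∑_I det(δ_k(χ^{F(I l)}(η)))_{k,l} · (…)`, where
`F(I l) = ∑_j B_{I l, j} m_j` with `B` integral, so the column `l` of the matrix is
`∑_j B_{I l,j} (δ_k(f_j))_k`, and the determinant is
`∑_{J : Fin n → Fin r} (∏_l B_{I l, J l}) det(δ_k(f_{J l}))` (multilinearity), and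
every `det(δ_k(f_{J l})) = 0` by `DetZ`. -/
def St_NsVan : Prop :=
  ∀ (N : ℕ) (Δ : Fan N) (K : Type) [NormedField K] (X : Scheme.{0}) [IsIntegral X]
    (s : X ⟶ Spec (.of K)) (μ : TorMap Δ X) (T : An s → NR Δ) (hT : IsTropOf μ T) (n : ℕ),
    ∃ (r : ℕ) (f : Fin r → (X.residueField (genericPoint X))ˣ),
      ∀ (q : ℕ) (ω : FamR μ T hT n q), IsFormR ω → ∀ v : Pt (kmap s (genericPoint X)),
        (∀ J : Fin n → Fin r, ¬ Indep v (f ∘ J)) → pullR μ T hT n q ω (gen s v) = 0

/-- The field level statement of Theorem N (proved from `StN.lean`). -/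
def St_NsFld : Prop :=
  ∀ (K L : Type) [NontriviallyNormedField K] [IsUltrametricDist K] [Field L] [Algebra K L]
    (c : ℂ →+* K) (m : ℕ) (x y : L) (t : Fin m → Lˣ) (r : ℕ) (f : Fin r → Lˣ),
    (Set.range fun a : K => ‖a‖).Countable → ResC c → EFun K x y t →
    ∃ w : Fam (algebraMap K L) (m + 1) (m + 1), IsForm w ∧ CSupp w ∧
      ∀ (w' : Fam (algebraMap K L) (m + 1) (m + 1)) (η : Fam (algebraMap K L) (m + 1) m),
        (∀ v, (∀ J : Fin (m + 1) → Fin r, ¬ Indep v (f ∘ J)) → w' v = 0) → CSupp w' →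
        CSupp η → IsDbar η (w - w') → False

/-- **NsTrl**. The transcendence degree of the function field of `E × 𝔸^m` is at most `m + 1`, and
it is finitely generated. Proof: `y` is algebraic over `K(x, t)`, so `L` is algebraic over
`K(x,t)`, and `(x,t)` is a transcendence basis of `m + 1` elements. -/
def St_NsTrl : Prop :=
  ∀ (K L : Type) [Field K] [Field L] [Algebra K L] (m : ℕ) (x y : L) (t : Fin m → Lˣ),
    EFun K x y t → TrLe K L (m + 1) ∧ (⊤ : IntermediateField K L).FG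

/-- **NsRed** (uses `NsFld`, `NsPul`, `NsVan`, `NsTrl`, `UpA`, `DnA`, `DnD`, `ExtE`, `EmbA`, `Clos`).
The reduction to the field level. For every morphism from `X` to a toric variety there
is a closed form `w` with compact support on `X^an` which is not of the form
`trop_φ^*(ω) + d''η`, `η` of compact support, `ω` a form on `Trop_φ(X)` whose pull-back has compact
support.
Proof. `f` from `NsVan` with `n = m + 1`; `w₀` from `NsFld` for `L = κ(η)` with the algebra structure
`(kmap s η).toAlgebra` (`algebraMap` is then `kmap s η` by definition); `w` its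
extension by zero (`ExtE`, `UpA`): form with compact support, closed by `Clos`. Suppose
`IsDbarA η (w - pullR ω)`. `pullR ω` is a form (`NsPul`). Restrict to the generic points: `DnD`,
`IsDbar η₀ (w₀ - w')` with `w' v = pullR ω (gen v)`; compact supports by `DnA`. `NsVan` and `NsFld` give
a contradiction. -/
def St_NsRed : Prop :=
  ∀ (K : Type) [NontriviallyNormedField K] [IsUltrametricDist K] (X : Scheme.{0}) [IsIntegral X]
    (s : X ⟶ Spec (.of K)) (c : ℂ →+* K) (m : ℕ)
    (x y : X.residueField (genericPoint X)) (t : Fin m → (X.residueField (genericPoint X))ˣ),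
    (Set.range fun a : K => ‖a‖).Countable → ResC c →
    @EFun K (X.residueField (genericPoint X)) _ _ (kmap s (genericPoint X)).toAlgebra m x y t →
    ∀ (N : ℕ) (Δ : Fan N) (μ : TorMap Δ X) (T : An s → NR Δ) (hT : IsTropOf μ T),
      ∃ w : FamA s (m + 1) (m + 1), IsDbarA w 0 ∧ CSuppA w ∧
        ∀ (ω : FamR μ T hT (m + 1) (m + 1)) (η : FamA s (m + 1) m), IsFormR ω →
          CSuppA (pullR μ T hT (m + 1) (m + 1) ω) → CSuppA η →
          IsDbarA η (w - pullR μ T hT (m + 1) (m + 1) ω) → False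

end TDC
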