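import Pool.Agent.TDC.St

/-!
# TDC, Phase 2: `t^* b` exact implies `∫ b = 0`, `L = K(t_1, …, t_n)`.

Statements (with proofs in the docstrings). Every module `TDC/<Name>.lean` proves
`theorem TDC.thm_<Name>` with the type given in its docstring, e.g.
`theorem thm_Psi : St_EmF → St_EmG → St_Npg → St_Frc → St_Irr → St_Psi` (other modules are
hypotheses; keep exactly this type, also if you do not need one of them). Import only
`Pool.Agent.TDC.StT` (no other modules); standard axioms.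

Idea. For an `n`-tuple `g` of elements of `L`, algebraically independent over `K`, and a Gauss
point `x` of the algebraic closure `Ω` of `L` for `g`, the points `x ∘ σ` of `L`, `σ : L → Ω` an
embedding over `K(g)`, are the Gauss points of `g` over `s = log|g(x)|`. The weight of a
point `y` is `wt g x y = [L : K(g)] · #{σ : x ∘ σ = y} / #{σ}`.
-/

namespace TDC

open scoped Topology
open MeasureTheory

section embd

variable (K : Type) {L : Type} [NormedField K] [Field L] [Algebra K L] {R n : ℕ}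

variable {K} in
/-- the point `x ∘ σ` of `L` -/
noncomputable def pb (σ : L →ₐ[K] AlgebraicClosure L) (x : Pt (algebraMap K (AlgebraicClosure L))) :
    Pt (algebraMap K L) where
  v := x.v.comp σ.toRingHom.injective
  na := fun a b => by
    show x.v (σ (a + b)) ≤ _
    rw [map_add]; exact x.na _ _
  ext := fun a => by
    show x.v (σ (algebraMap K L a)) = ‖a‖
    rw [σ.commutes]; exact x.ext a

variable (L) in
/-- the inclusion of `L` in its algebraic closure -/
noncomputable def incE : L →ₐ[K] AlgebraicClosure L := IsScalarTower.toAlgHom K L (AlgebraicClosure L)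

/-- the embeddings of `L` in its algebraic closure over `K(g)` -/
def Emb (g : Fin n → Lˣ) : Set (L →ₐ[K] AlgebraicClosure L) :=
  {σ | ∀ i, σ (g i : L) = algebraMap L (AlgebraicClosure L) (g i : L)}

/-- the degree `[L : K(g)]` -/
noncomputable def dg (g : Fin n → Lˣ) : ℝ :=
  (Module.finrank (IntermediateField.adjoin K (Set.range fun i => (g i : L))) L : ℝ)

/-- `[L : K(g)]` times the fraction of the embeddings over `K(g)` which lie in `S` -/
noncomputable def wtS (g : Fin n → Lˣ) (S : Set (L →ₐ[K] AlgebraicClosure L)) : ℝ :=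
  dg K g * (((Emb K g ∩ S).ncard : ℝ) / ((Emb K g).ncard : ℝ))

variable {K} in
/-- `x` is a Gauss point for `g` over `s` -/
def Ov (g : Fin n → Lˣ) (s : Fin n → ℝ) (x : Pt (algebraMap K (AlgebraicClosure L))) : Prop :=
  Gauss (pb (incE K L) x) g ∧ logv (pb (incE K L) x) g = s

variable {K} in
/-- the weight of a point `y` of `L` -/
noncomputable def wt (g : Fin n → Lˣ) (x : Pt (algebraMap K (AlgebraicClosure L)))
    (y : Pt (algebraMap K L)) : ℝ := wtS K g {σ | pb σ x = y}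

open Classical in
/-- the weight of a position `p ∈ ℝ^R` (for a chosen Gauss point `x` over `s`; `0` if there is
none) -/
noncomputable def cw (g : Fin n → Lˣ) (F : Fin R → Lˣ) (s : Fin n → ℝ) (p : Fin R → ℝ) : ℝ :=
  if h : ∃ x : Pt (algebraMap K (AlgebraicClosure L)), Ov g s x then
    wtS K g {σ | logv (pb σ h.choose) F = p} else 0

end embd

/-- tropicalization of a polynomial: the maximum of `log‖P_e‖ + e·p` over the monomials of `P` -/
noncomputable def TV {K : Type} [NormedField K] {N : ℕ} (P : MvPolynomial (Fin N) K)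
    (p : Fin N → ℝ) : ℝ :=
  ⨆ e : P.support, (Real.log ‖P.coeff e.1‖ + ∑ j, (e.1 j : ℝ) * p j)

/-- the affine map `s ↦ v + M s` -/
noncomputable def af {R n : ℕ} (k : Matrix (Fin R) (Fin n) ℝ × (Fin R → ℝ)) (s : Fin n → ℝ) :
    Fin R → ℝ := k.2 + k.1.mulVec s

/-- `𝒦` is a system of sheets for `F` over the coordinates `F ∘ I` (exists by `St_Fini`) -/
def Sheets (K : Type) {L : Type} [NormedField K] [Field L] [Algebra K L] {R n : ℕ}
    (F : Fin R → Lˣ) (I : Fin n → Fin R)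
    (𝒦 : Finset (Matrix (Fin R) (Fin n) ℝ × (Fin R → ℝ))) : Prop :=
  (∀ k ∈ 𝒦, ∀ (s : Fin n → ℝ) (i : Fin n), af k s (I i) = s i) ∧
    ∀ x : Pt (algebraMap K L), Gauss x (F ∘ I) → ∃ k ∈ 𝒦,
      logv x F = af k (logv x (F ∘ I)) ∧ ∀ ε : Tan x, ev F ε = k.1.mulVec (ev (F ∘ I) ε)

/-! ## A. Embeddings, existence of Gauss points -/

/-- **EmF**. `theorem thm_EmF : St_EmF`. Finiteness of the set of embeddings. `E = K(g)`; `L/E` is algebraic (`TrLe`: any
`f ∈ L` and `g` are algebraically dependent and `g` is independent, so `f` is algebraic over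
`K(g)`) and finitely generated, hence finite-dimensional, `finrank > 0`. `Emb K g` is in bijection
with `L →ₐ[E] Ω` (an element of `Emb` fixes `K` and `g`, hence `E`; `E = adjoin`, e.g.
`IntermediateField.adjoin_induction` / compare `σ` and the inclusion with
`AlgHom.equalizer`), which is finite and non-empty (`incE K L ∈ Emb K g`).
The last claim: `σ ∈ Emb K g` fixes `P(g)` for every polynomial `P`, so that `pb σ x` and
`pb (incE K L) x` have the same values on `P(g)`. -/
def St_EmF : Prop :=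
  ∀ (K L : Type) [NormedField K] [Field L] [Algebra K L] (n : ℕ), TrLe K L n →
    (⊤ : IntermediateField K L).FG → ∀ g : Fin n → Lˣ,
      AlgebraicIndependent K (fun i => (g i : L)) →
      FiniteDimensional (IntermediateField.adjoin K (Set.range fun i => (g i : L))) L ∧
      (Emb K g).Finite ∧ (Emb K g).Nonempty ∧ 0 < dg K g

/-- **EmG**. `theorem thm_EmG : St_EmG`. `σ ∈ Emb K g` preserves being a Gauss point for `g`, and `log|g|`. Also: if there is a
Gauss point for `g` then `g` is algebraically independent (if `P(g) = 0`, the Gauss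
inequality kills all coefficients). Also `Indep y g` is equivalent to `Generic K (logv y g)`
(take exponentials/logarithms; `y.v (∏ g_i^{k_i}) = exp (∑ k_i log|g_i|) > 0`), so (IndG) a point
`y` with generic `logv y g` is a Gauss point for `g`. -/
def St_EmG : Prop :=
  (∀ (K L : Type) [NormedField K] [Field L] [Algebra K L] (n : ℕ) (g : Fin n → Lˣ)
    (x : Pt (algebraMap K (AlgebraicClosure L))) (s : Fin n → ℝ), Ov g s x →
    ∀ σ ∈ Emb K g, Gauss (pb σ x) g ∧ logv (pb σ x) g = s) ∧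
  (∀ (K L : Type) [NormedField K] [Field L] [Algebra K L] (n : ℕ) (g : Fin n → Lˣ)
    (y : Pt (algebraMap K L)), Gauss y g → AlgebraicIndependent K (fun i => (g i : L))) ∧
  (∀ (K L : Type) [NormedField K] [Field L] [Algebra K L] (n : ℕ) (g : Fin n → Lˣ)
    (y : Pt (algebraMap K L)), Indep y g ↔ Generic K (logv y g))

/-- **ExT**. `theorem thm_ExT : St_ExT`. Adjoining an element of given absolute value. Proof: on `C[T]` take the Gauss norm
`Polynomial.gaussNorm` with radius `r` (multiplicative and non-archimedean, Mathlib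
`Polynomial.gaussNorm_mul`, `isNonarchimedean_gaussNorm`); extend it to the fraction field
`C(T)` (`RatFunc C` or `FractionRing C[X]`), `|P/Q| = |P|/|Q|`; complete (Mathlib:
`AbsoluteValue.Completion`/`UniformSpace.Completion` of the normed field, e.g. through
`WithAbs`), take the algebraic closure of the completion with the spectral norm
(`spectralNorm.normedField`, Mathlib `Mathlib/Analysis/Normed/Unbundled/SpectralNorm.lean`); it
is non-archimedean, extends the norm and is algebraically closed. -/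
def St_ExT : Prop :=
  ∀ (C : Type) [NontriviallyNormedField C] [IsUltrametricDist C] (r : ℝ), 0 < r →
    ∃ (C' : Type) (_ : NontriviallyNormedField C'), IsUltrametricDist C' ∧ IsAlgClosed C' ∧
      ∃ (φ : C →+* C') (T : C'), (∀ a, ‖φ a‖ = ‖a‖) ∧ ‖T‖ = r

/-- **GEx**. `theorem thm_GEx : St_ExT → St_IndG → St_EmG → St_GEx`. Existence of Gauss points over
generic `s`.
Proof. Iterating `ExT` `n` times (at least once): an algebraically closed ultrametric `C'`, an
isometric `φ : K → C'` and `T_1..T_n ∈ C'` with `‖T_i‖ = exp (s_i)`. As `s` is generic, the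
values of the monomials `a T^e`, `a ≠ 0`, with different `e` are different, so
`‖P(T)‖ = max ‖P_e‖ exp(e·s)` (as in `IndG`) and `T` is algebraically independent over `K`. Hence
`K(g) → C'`, `g_i ↦ T_i` (`K[g] ≅ MvPolynomial` by `AlgebraicIndependent.aevalEquiv`; `K(g)` is its
fraction field) extends to `L → C'` and to `ψ : Ω → C'` (`L/K(g)` algebraic by `TrLe`, `Ω/L`
algebraic, `C'` algebraically closed: `IsAlgClosed.lift`). Pull back the norm by `ψ`. -/
def St_GEx : Prop :=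
  ∀ (K L : Type) [NontriviallyNormedField K] [IsUltrametricDist K] [Field L] [Algebra K L]
    (n : ℕ), TrLe K L n → ∀ g : Fin n → Lˣ, AlgebraicIndependent K (fun i => (g i : L)) →
      ∀ s : Fin n → ℝ, Generic K s →
        ∃ x : Pt (algebraMap K (AlgebraicClosure L)), Ov g s x

/-! ## B. The counting formula -/

/-- **Npg**. `theorem thm_Npg : St_Npg`. Gauss norm of a split polynomial. Proof: `P = c ∏ (X - ρ)`
(`Polynomial.Splits.eq_prod_roots` or similar), `gaussNorm` is multiplicative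
(`Polynomial.gaussNorm_mul`), `gaussNorm (X - C ρ) = max (exp τ) (v ρ)`, `gaussNorm (C c) = v c`;
logarithm of a product of positive numbers, `log` is monotone (`v ρ > 0`). -/
def St_Npg : Prop :=
  ∀ (M : Type) [Field M] (v : AbsoluteValue M ℝ), IsNonarchimedean v →
    ∀ P : Polynomial M, P ≠ 0 → P.Splits → (∀ ρ ∈ P.roots, ρ ≠ 0) → ∀ τ : ℝ,
      Real.log (P.gaussNorm v (Real.exp τ)) =
        Real.log (v P.leadingCoeff) + (P.roots.map fun ρ => max τ (Real.log (v ρ))).sum

/-- **Frc**. `theorem thm_Frc : St_Frc`. The conjugates of `h`, with multiplicities as images of embeddings, and with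
multiplicities as roots of the minimal polynomial, are proportional.
Proof: both multisets on the finite set `Z` of roots of `minpoly E h` in `Ω` (`σ h` is a root; every
root occurs as `σ h`: embed `E(h)` and extend) are invariant under `Aut(Ω/E)`, which acts
transitively on `Z` (`Ω/E` normal, `IsConjRoot`, `minpoly` irreducible):
`#{σ : σ h = ρ} = #{σ : σ h = τρ}` by `σ ↦ τ ∘ σ`, and
`rootMultiplicity` is invariant since `minpoly` has coefficients in `E`. So they are constants `a`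
and `b` on `Z`, with `a·#Z = #{σ}`, `b·#Z = natDegree`. -/
def St_Frc : Prop :=
  ∀ (E L Ω : Type) [Field E] [Field L] [Field Ω] [Algebra E L] [Algebra E Ω] [IsAlgClosed Ω]
    [Algebra.IsAlgebraic E Ω] [FiniteDimensional E L] (h : L) (ψ : Ω → ℝ),
    ((minpoly E h).natDegree : ℝ) * ∑ᶠ σ : L →ₐ[E] Ω, ψ (σ h) =
      (Nat.card (L →ₐ[E] Ω) : ℝ) * (((minpoly E h).aroots Ω).map ψ).sum

/-- **Irr**. `theorem thm_Irr : St_Irr`. The irreducible relation between `n+1` elements: its specializations in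
each of the variables are minimal polynomials (up to a constant).
Proof. If no `G ∘ succAbove i` is algebraically independent take `P = 1`. `G` is algebraically
dependent (`TrLe`): the kernel of `aeval G : K[X_0..X_n] → L` is a non-zero prime ideal; a non-zero
element of it is a product of irreducible ones (UFD), so there is an irreducible `P` with
`P(G) = 0`. Let `G ∘ succAbove i` be independent. `MvPolynomial (Fin (n+1)) K ≅ A[Y]`,
`A = MvPolynomial (Fin n) K` with `Y = X_i` (rename by `finSuccEquiv' i : Fin (n+1) ≃ Option (Fin n)`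
and `MvPolynomial.optionEquivLeft`). The image `Q` of `P` is irreducible and not constant in `Y`
(otherwise `P(G) = 0` would be a relation of `G ∘ succAbove i`), so primitive
(`Irreducible.isPrimitive`), so its image in `Frac(A)[Y]` is irreducible (Gauss lemma,
`Polynomial.IsPrimitive.irreducible_iff_irreducible_map_fraction_map`), and
`Frac(A) ≅ E = K(G ∘ succAbove i)` through `X_j ↦ G_j`. The image in `E[Y]` is irreducible and kills
`G_i`, so it is a constant times `minpoly E (G i)`. -/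
def St_Irr : Prop :=
  ∀ (K L : Type) [Field K] [Field L] [Algebra K L] (n : ℕ), TrLe K L n →
    ∀ G : Fin (n + 1) → L, ∃ P : MvPolynomial (Fin (n + 1)) K, P ≠ 0 ∧
      ∀ i : Fin (n + 1), AlgebraicIndependent K (G ∘ i.succAbove) → ∃ c : L, c ≠ 0 ∧
        MvPolynomial.aeval (Function.update (fun j => Polynomial.C (G j)) i Polynomial.X) P =
          Polynomial.C c * (minpoly (IntermediateField.adjoin K (Set.range (G ∘ i.succAbove)))
            (G i)).map (algebraMap (IntermediateField.adjoin K (Set.range (G ∘ i.succAbove))) L)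

/-- **Psi** (the counting formula).
`theorem thm_Psi : St_EmF → St_EmG → St_Npg → St_Frc → St_Irr → St_Psi`.
Proof. `P` from `Irr`, `D = [L : K(G)]` (`K(G) = adjoin (range G)`; `D = 1` if no `G ∘ succAbove i` is
independent). Let `g = G ∘ succAbove i` with the Gauss point `x` (so `g` is
independent, `EmG`), `E = K(g)`, `d = deg minpoly E (G i) = [E(G_i) : E]`, so `dg K g = D d`
(tower law, `E(G_i) = K(G)`). Map the identity of `Irr` to `Ω[Y]`: the polynomial
`Q(Y) = ∑_j c_j(g) Y^j` (`c_j ∈ K[X_j, j ≠ i]` the coefficients of `P`) splits over `Ω` with roots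
`aroots (minpoly)` and leading coefficient `c`. By `Npg` with the absolute value `x.v`:
`log gaussNorm = log|c| + ∑_ρ max(τ, log|ρ|)`, and by `Frc` and the bijection of `Emb K g` with
`L →ₐ[E] Ω`: `∑_ρ max(τ, log|ρ|) = (d/#Emb) ∑_σ max(τ, log|σ G_i|)`. On the other hand
`|c_j(g)|_x = max_e ‖c_{j,e}‖ exp(e·s)`: `≥` is the Gauss property, `≤` the ultrametric
inequality. So `log gaussNorm = TV P (insertNth i τ s)`. Multiply by `D`; `C = D log|c|`. -/
def St_Psi : Prop :=
  ∀ (K L : Type) [NontriviallyNormedField K] [Field L] [Algebra K L] (n : ℕ), TrLe K L n →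
    (⊤ : IntermediateField K L).FG → ∀ G : Fin (n + 1) → Lˣ,
      ∃ (P : MvPolynomial (Fin (n + 1)) K) (D : ℝ), P ≠ 0 ∧ 0 < D ∧
        ∀ (i : Fin (n + 1)) (s : Fin n → ℝ) (x : Pt (algebraMap K (AlgebraicClosure L))),
          Ov (G ∘ i.succAbove) s x → ∃ C : ℝ, ∀ τ : ℝ,
            C + dg K (G ∘ i.succAbove) / ((Emb K (G ∘ i.succAbove)).ncard : ℝ) *
              ∑ᶠ σ ∈ Emb K (G ∘ i.succAbove), max τ (Real.log (x.v (σ (G i : L)))) =
            D * TV P (i.insertNth τ s)

/-- **Slo**. `theorem thm_Slo : St_Slo`. Slopes of a piecewise linear function of one variable.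
Proof: right and left derivative at `r` of both sides. Right: `κ #{ρ_i ≤ r} = D max {d_e}` over
the `e` which are maximal at `r`; left: `κ #{ρ_i < r} = D min {d_e}`. (Or: for small `h > 0` the
value of the left side at `r + h` is the one at `r` plus `κ h #{ρ_i ≤ r}`, and the right side is
`D (max + h d_{e₁})`; similarly at `r - h`.) -/
def St_Slo : Prop :=
  ∀ (ι E : Type) (T : Finset ι) (S : Finset E), S.Nonempty → ∀ (ρ : ι → ℝ) (a d : E → ℝ)
    (C κ D : ℝ), 0 < D →
    (∀ τ : ℝ, C + κ * ∑ i ∈ T, max τ (ρ i) = D * ⨆ e : S, (a e.1 + d e.1 * τ)) →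
    ∀ r : ℝ, ∃ e₁ ∈ S, ∃ e₂ ∈ S,
      (∀ e ∈ S, a e + d e * r ≤ a e₁ + d e₁ * r) ∧ (∀ e ∈ S, a e + d e * r ≤ a e₂ + d e₂ * r) ∧
      (∀ e ∈ S, a e + d e * r = a e₁ + d e₁ * r → d e₂ ≤ d e ∧ d e ≤ d e₁) ∧
      κ * ((T.filter fun i => ρ i = r).card : ℝ) = D * (d e₁ - d e₂)

/-! ## C. Conservation -/

/-- **Con**. `theorem thm_Con : St_EmF → St_EmG → St_Avd → St_Psi → St_Con`. Conservation of the number
of sheets.
Proof. If `𝒢` meets no small ball nothing to do; otherwise `g` is independent and `Emb K g` is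
finite. The finite set `Q = {af k s₀ : k ∈ 𝒦}`; choose `b : Fin R → ℤ` with `b·(q - p₀) ≠ 0` for all
`q ∈ Q`, `q ≠ p₀` (finitely many proper subspaces do not cover `ℤ^R`; e.g. `St_Avd`, or
`b_i = N^i`). Let `h = ∏ F_i^{b_i}`, `G = Fin.cons h g` (or `Fin.insertNth 0 h g`), `i = 0`, so that
`G ∘ succAbove 0 = g`; `P`, `D` from `Psi`. For `s ∈ 𝒢` and `σ ∈ Emb K g`:
`log|σ h|_{X s} = b·logv (pb σ (X s)) F =: ρ_σ(s)`, one of the numbers `b·af k s`. Let `ε > 0` be
such that no `b·q`, `q ∈ Q`, lies in `[b·p₀ - 2ε, b·p₀ + 2ε]` except `b·p₀`; let `δ` be such that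
`|b·af k s - b·af k s₀| < ε/2` for `s ∈ B(s₀, δ)`, `k ∈ 𝒦`. For `s ∈ 𝒢 ∩ B(s₀,δ)` no
`ρ_σ(s)` is in `[τ - ε/4, τ + ε/4]` for `τ = b·p₀ + ε` and for `τ = b·p₀ - ε`. So with
`κ = dg/#Emb`: `κ #{σ : ρ_σ(s) < τ} = (D/(ε/4)) (TV P (τ, s) - TV P (τ - ε/4, s))` (the function
`∑_σ max(·, ρ_σ)` is affine with slope `#{σ : ρ_σ(s) < τ}` on `[τ - ε/4, τ]`; the constant `C`
cancels). The right side is continuous in `s` (finite supremum of affine functions) and takes
values in the finite set `{κ j : j ≤ #Emb}` on the dense subset `𝒢 ∩ B` of the ball `B`, hence on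
`B`; the ball is connected, so it is constant. The difference of the two constants is
`κ #{σ : b·p₀ - ε < ρ_σ(s) < b·p₀ + ε}`, and this set of `σ` is the set in the
statement (if `logv .. F = af k s` with `af k s₀ ≠ p₀`, then `ρ_σ(s)` is not in this
interval; note `σ` may have `logv.. F = af k s = af k' s` for several `k`, but
then all of them satisfy `af k' s₀ = p₀` or none). `wtS = κ #(Emb ∩ S)`. -/
def St_Con : Prop :=
  ∀ (K L : Type) [NontriviallyNormedField K] [Field L] [Algebra K L] (n R : ℕ), TrLe K L n →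
    (⊤ : IntermediateField K L).FG → ∀ (g : Fin n → Lˣ) (F : Fin R → Lˣ)
      (𝒢 : Set (Fin n → ℝ)) (X : (Fin n → ℝ) → Pt (algebraMap K (AlgebraicClosure L)))
      (𝒦 : Finset (Matrix (Fin R) (Fin n) ℝ × (Fin R → ℝ))),
      Dense 𝒢 → (∀ s ∈ 𝒢, Ov g s (X s)) →
      (∀ s ∈ 𝒢, ∀ σ ∈ Emb K g, ∃ k ∈ 𝒦, logv (pb σ (X s)) F = af k s) →
      ∀ (s₀ : Fin n → ℝ) (p₀ : Fin R → ℝ), ∃ δ > 0, ∃ C : ℝ, ∀ s ∈ 𝒢, s ∈ Metric.ball s₀ δ →
        wtS K g {σ | ∃ k ∈ 𝒦, af k s₀ = p₀ ∧ logv (pb σ (X s)) F = af k s} = C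

/-! ## D. Comparison of the weights for two tuples -/

/-- **Mnr**. `theorem thm_Mnr : St_Mnr`. Minors: `M` is an `n × (n+1)` matrix and `M m = 0`; then the minors `Δ_i` (column `i`
omitted) satisfy `|m_i| |Δ_j| = |m_j| |Δ_i|`. Proof: Cramer. E.g. for `i ≠ j`: `m_j • (column j) =
- ∑_{l≠j} m_l • (column l)`; in `Δ_i` (which contains column `j`) replace column `j` by
`m_j • column j`: `m_j Δ_i = det(.., - ∑_{l ≠ j} m_l column l, ..)`, only `l = i` survives (the
other columns already occur): `= ± m_i Δ_j`. (Or use the adjugate of the square matrix obtained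
by adding a row: with row `r` the determinant is `∑ (-1)^l r_l Δ_l`; choose the row
`r = m_j e_i - m_i e_j`, then the square matrix kills `m`, so if `m ≠ 0` its
determinant vanishes: `(-1)^i m_j Δ_i = (-1)^j m_i Δ_j`.) -/
def St_Mnr : Prop :=
  ∀ (n : ℕ) (M : Matrix (Fin n) (Fin (n + 1)) ℝ) (m : Fin (n + 1) → ℝ), M.mulVec m = 0 →
    ∀ i j : Fin (n + 1),
      |m i| * |(M.submatrix id j.succAbove).det| = |m j| * |(M.submatrix id i.succAbove).det|

/-- **Exc**. `theorem thm_Exc : St_EmF → St_EmG → St_IndG → St_Psi → St_Slo → St_Mnr → St_Exc`.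
Exchange of one coordinate.
Proof. `P, D` from `Psi` for `G`. Let `p_l = log|G_l(y)|`, `g = G ∘ succAbove i`,
`g' = G ∘ succAbove j`. `S` = set of monomials `e` of `P` with `log‖P_e‖ + e·p` maximal. By `Psi` for
`(i, x)` (`s = logv y g`) and `Slo` at `r = p_i` (`T = Emb K g` as a finset, `d_e = e_i`):
`κ_i #{σ ∈ Emb K g : log|σ G_i|_x = p_i} = D (max_S e_i - min_S e_i)`, `κ_i = dg K g/#Emb K g`. Now for
`σ ∈ Emb K g`: `log|σ G_i|_x = p_i` iff `pb σ x = y` (`pb σ x` is a Gauss point for `g` with the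
same `|g_l|` as `y`, so by (Sep) it is `y` as soon as `|G_i|` agrees). So
`wt g x y = D (max_S e_i - min_S e_i)`. The same for `(j, x')`: `z = pb σ x'` has the same values
on `g'` as `y`; if also `|G_j(z)| = |G_j(y)|` then `z` and `y` have equal values on all
`G_l`, so `Indep z g` (as `Indep y g`), `z` is a Gauss point for `g` (`IndG`) and (Sep) applies. So
`wt g' x' y = D (max_S e_j - min_S e_j)` with the SAME `S`. For `e, e' ∈ S`, `m = e - e'`:
`∑ m_l p_l = log‖P_{e'}‖ - log‖P_e‖`, so `|∏ G_l^{m_l}(y)| ∈ |K|` and `∑_l m_l ε(G_l) = 0` for all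
`ε ∈ Tan y`. `Mnr` (rows `ev G (δ_a)`): `|m_i| |Δ_j| = |m_j| |Δ_i|`, `Δ_j = det (ev g' δ)`,
`Δ_i = det (ev g δ)`. If both are `0` done. If `Δ_i ≠ 0`: `|e_j - e'_j| = |e_i - e'_i| |Δ_j|/|Δ_i|` for
all `e, e' ∈ S`, so (take maxima over pairs) `(max e_j - min e_j)|Δ_i| = (max e_i - min e_i)|Δ_j|`.
Similarly if `Δ_j ≠ 0`. -/
def St_Exc : Prop :=
  ∀ (K L : Type) [NontriviallyNormedField K] [Field L] [Algebra K L] (n : ℕ), TrLe K L n →
    (⊤ : IntermediateField K L).FG → ∀ (G : Fin (n + 1) → Lˣ) (i j : Fin (n + 1))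
      (y : Pt (algebraMap K L)), Indep y (G ∘ i.succAbove) → Indep y (G ∘ j.succAbove) →
      (∀ z : Pt (algebraMap K L), Gauss z (G ∘ i.succAbove) →
        (∀ l, z.v (G l : L) = y.v (G l : L)) → z = y) →
      ∀ x x' : Pt (algebraMap K (AlgebraicClosure L)),
        Ov (G ∘ i.succAbove) (logv y (G ∘ i.succAbove)) x →
        Ov (G ∘ j.succAbove) (logv y (G ∘ j.succAbove)) x' →
        ∀ δ : Fin n → Tan y,
          wt (G ∘ i.succAbove) x y * |(Matrix.of fun a b => ev (G ∘ j.succAbove) (δ a) b).det| =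
          wt (G ∘ j.succAbove) x' y * |(Matrix.of fun a b => ev (G ∘ i.succAbove) (δ a) b).det|

/-- **Tng**. `theorem thm_Tng : St_MLoc → St_Tng`. Tangent vectors at a point where `g` is independent.
Uses `MLoc` (only at the point
itself: `Filter.Eventually.self_of_nhds`). Proof. (1) For `f ∈ Lˣ`:
`|f|^N = ‖a‖ ∏ |g_i|^{k_i}`, `N > 0`; the vector `k/N ∈ ℚ^n` is unique by `Indep`
(`|f|^{N'}=‖a'‖∏|g|^{k'}` gives `|∏ g^{N'k - Nk'}| ∈ |K|`); call it `λ(f)`. It is additive in `f`, and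
`λ(f) = 0` if `|f| ∈ |K|`, `λ(g_i) = e_i`. For `v ∈ ℝ^n` put `δ(f) = v·λ(f)`.
(2) For every tangent vector `δ`: `N δ(f) = ∑ k_i δ(g_i)`; row `f_j` of `M` is `λ(f_j)`. -/
def St_Tng : Prop :=
  ∀ (K L : Type) [NormedField K] [Field L] [Algebra K L] (n : ℕ), TrLe K L n →
    ∀ (y : Pt (algebraMap K L)) (g : Fin n → Lˣ), Indep y g →
      (∀ v : Fin n → ℝ, ∃ δ : Tan y, ev g δ = v) ∧
      ∀ (R : ℕ) (f : Fin R → Lˣ), ∃ M : Matrix (Fin R) (Fin n) ℝ, ∀ δ : Tan y,
        ev f δ = M.mulVec (ev g δ)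

/-- **Avd**. `theorem thm_Avd : St_Avd`. Finitely many non-zero homomorphisms to `ℝ` have a common non-zero. Proof: induction:
`a` with `φ(a) ≠ 0` for `φ ∈ Φ`, and `b` with `ψ(b) ≠ 0`. If `ψ(a) ≠ 0` done. Otherwise `N a + b`,
`N ∈ ℕ`: `ψ(Na+b) = ψ(b) ≠ 0`, and `φ(Na + b) = Nφ(a) + φ(b) = 0` for at most one `N` for each
`φ ∈ Φ`. -/
def St_Avd : Prop :=
  ∀ (A : Type) [AddCommGroup A] (Φ : Set (A →+ ℝ)), Φ.Finite → (∀ φ ∈ Φ, φ ≠ 0) →
    ∃ a : A, ∀ φ ∈ Φ, φ a ≠ 0

/-- **Cmp**. `theorem thm_Cmp :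
St_EmG → St_GEx → St_IndG → St_FinF → St_Exc → St_Tng → St_Avd → St_Cmp`.
Comparison of the weights for two tuples which are independent at `y`.
Proof. Write `R(g,h)` for the claim (for all `x, x', δ`). (a) Transitivity: `R(g,k)`, `R(k,h)` and
`Indep y k` imply `R(g,h)`: a Gauss point over `logv y k` exists (`GEx`; `logv y k` is generic,
`EmG`); by `Tng` `det(ev h δ) = det M_h det(ev k δ)`, `det(ev g δ) = det M_g det(ev k δ)` for all `δ`,
so it suffices to have the claim for one `δ` with `ev k δ_a = e_a`, where it follows from `R(g,k)`,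
`R(k,h)` (`det(ev k δ) = 1`). Symmetry is clear. (b) Construct `u_0, …, u_{n-1}` with, for all
`k ≤ n`: `g^k = (u_0..u_{k-1}, g_k..g_{n-1})`, `h^k = (u_0..u_{k-1}, h_k..h_{n-1})` independent at
`y`, and `R(g^k, g^{k+1})`, `R(h^k, h^{k+1})`. Then `R(g,u)`, `R(h,u)`, so `R(g,h)`. Choice of
`u_k` by `Avd` in `A = Additive Lˣ`, with the following finitely many non-zero homomorphisms:
`f ↦ log|f(z)| - log|f(y)|` for the Gauss points `z ≠ y` of `g^k` over `logv y g^k` and of `h^k` over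
`logv y h^k` (finitely many by `FinF`; non-zero as `z ≠ y`), the tangent vector `e ∈ Tan y` with
`ev g^k e = e_k` (`Tng`) and the one with `ev h^k e = e_k`. Then `g^{k+1} = update g^k k u_k` is
independent at `y`: if `|∏ (g^{k+1})^m (y)| ∈ |K|`, apply `e`: `m_k e(u_k) = 0`, so `m_k = 0`, and
then `m = 0` by independence of `g^k`. And (Sep) holds for `G = insertNth k u_k g^k` (`u_k` inserted
before `g_k`; index type `Fin (n+1)`, position `k.castSucc`), for which
`G ∘ succAbove (k.castSucc) = g^k` and `G ∘ succAbove (k.succ) = g^{k+1}`. So `Exc` gives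
`R(g^k, g^{k+1})`. Same for `h`. (For `R(g,g)` with `x ≠ x'`: go to `u` and back, or `n = 0`
where `K(g) = K`, `L/K` algebraic: for `n = 0` `R` has no step; `Exc` is not
available; so the statement assumes `0 < n`; with `n > 0` and `g = h` the chain `g → u → g` gives it.) -/
def St_Cmp : Prop :=
  ∀ (K L : Type) [NontriviallyNormedField K] [IsUltrametricDist K] [Field L] [Algebra K L]
    (n : ℕ), 0 < n → TrLe K L n → (⊤ : IntermediateField K L).FG → ∀ (g h : Fin n → Lˣ)
      (y : Pt (algebraMap K L)), Indep y g → Indep y h →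
      ∀ x x' : Pt (algebraMap K (AlgebraicClosure L)),
        Ov g (logv y g) x → Ov h (logv y h) x' → ∀ δ : Fin n → Tan y,
          wt g x y * |(Matrix.of fun a b => ev h (δ a) b).det| =
            wt h x' y * |(Matrix.of fun a b => ev g (δ a) b).det|

/-- **Cpo**. `theorem thm_Cpo : St_EmF → St_EmG → St_GEx → St_IndG → St_Tng → St_Cmp → St_Cpo`.
Comparison for positions.
Proof. Let `g = F ∘ I`, `h = F ∘ J`, `u = p ∘ I`, `s = p ∘ J`, generic. A point `y` with
`logv y F = p` has `logv y g = u`, `logv y h = s`, so `Indep y g`, `Indep y h` (`EmG`). If `g` or `h` is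
algebraically dependent, there is no such `y` (`EmG`: independent values imply algebraically
independent, via `IndG`) and both weights are `0` (no `σ` has `logv (pb σ x) F = p`, or there
is no `x` at all). Otherwise there are Gauss points `x` of `g` over `u`, `x'` of `h` over `s`
(`GEx`; take the chosen ones in the definition of `cw`). Let `Y` be the finite set of the points
`pb σ x`, `σ ∈ Emb K g`, and `pb σ x'`, `σ ∈ Emb K h`, with `logv y F = p`. Then
`cw K g F u p = ∑_{y ∈ Y} wt g x y`, `cw K h F s p = ∑_{y ∈ Y} wt h x' y`. For `y ∈ Y` take `δ` with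
`ev g δ_a = e_a` (`Tng`): `wt h x' y = wt g x y |det (ev h δ)| = |r| wt g x y` by `Cmp`. -/
def St_Cpo : Prop :=
  ∀ (K L : Type) [NontriviallyNormedField K] [IsUltrametricDist K] [Field L] [Algebra K L]
    (n R : ℕ), 0 < n → TrLe K L n → (⊤ : IntermediateField K L).FG → ∀ (F : Fin R → Lˣ)
      (I J : Fin n → Fin R) (p : Fin R → ℝ) (r : ℝ), Generic K (p ∘ I) → Generic K (p ∘ J) →
      (∀ y : Pt (algebraMap K L), logv y F = p → ∀ δ : Fin n → Tan y,
        (Matrix.of fun a b => ev (F ∘ J) (δ a) b).det =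
          r * (Matrix.of fun a b => ev (F ∘ I) (δ a) b).det) →
      cw K (F ∘ J) F (p ∘ J) p = |r| * cw K (F ∘ I) F (p ∘ I) p

/-! ## E. The reference tuple, null sets -/

/-- **Gen**. `theorem thm_Gen : St_Fini → St_Tng → St_IndG → St_Gen`. A reference tuple.
Proof. For every `I : Fin n → Fin R` let `𝒦_I` be the finite set of sheets (`Fini`): matrices `A`
(`R × n`) with `A.submatrix I id = 1` (section property). For an integer matrix `B` (`n × R`) let
`g₀_j = ∏ F_i^{B_ji}`; `ev g₀ ε = B (ev F ε)`. Choose `B` with `det (B A) ≠ 0` for all `I`,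
`A ∈ 𝒦_I`: `det (B A)` is a non-zero polynomial in the entries of `B` (value `1` for
the `B` which selects the rows `I`), and a product of finitely many non-zero polynomials over the
infinite domain `ℤ` (or `ℝ`, evaluated at integer points) has a non-zero value at an integer
point. If `Indep y (F ∘ I)`: `y` is a Gauss point (`IndG`), `ev F ε = A ev (F∘I) ε` for some
`A ∈ 𝒦_I`, so `ev g₀ ε = (B A) ev (F ∘ I) ε` and, as `ev (F ∘ I)` is onto `ℝ^n` (`Tng`) and `B A`
invertible, `ev g₀ : Tan y → ℝ^n` is onto. If `|∏ g₀^k (y)| ∈ |K|` then `∑ k_j ε(g₀_j) = 0` for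
all `ε`, so `k = 0`. -/
def St_Gen : Prop :=
  ∀ (K L : Type) [NormedField K] [Field L] [Algebra K L] (n R : ℕ), TrLe K L n →
    ∀ F : Fin R → Lˣ, ∃ g₀ : Fin n → Lˣ, ∀ (I : Fin n → Fin R) (y : Pt (algebraMap K L)),
      Indep y (F ∘ I) → Indep y g₀

/-- **GNl**. `theorem thm_GNl : St_GNl`. Almost all `s` are generic. Proof: the complement is the union over the countably
many pairs (`k ≠ 0`, `log‖a‖` in the countable set of values) of the hyperplanes
`{∑ k_i s_i = log‖a‖}`, of measure `0` (`Measure.addHaar_affineSubspace`). Also `{s : A s + v generic}`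
for invertible `A` (preimage of a null set under an affine isomorphism:
quasi-measure-preserving). -/
def St_GNl : Prop :=
  ∀ (K : Type) [NormedField K] (n : ℕ), (Set.range fun a : K => ‖a‖).Countable →
    ∀ (A : Matrix (Fin n) (Fin n) ℝ) (v : Fin n → ℝ), A.det ≠ 0 →
      ∀ᵐ s : Fin n → ℝ, Generic K (v + A.mulVec s)

/-! ## F. Real part -/

/-- The hypotheses of the real lemmas: `c k` (`k ∈ 𝒦`) is bounded on the conull set `𝒢` and the
number of sheets near `(s₀, p₀)` is locally constant. -/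
def Bal {R n : ℕ} (𝒦 : Finset (Matrix (Fin R) (Fin n) ℝ × (Fin R → ℝ))) (𝒢 : Set (Fin n → ℝ))
    (c : Matrix (Fin R) (Fin n) ℝ × (Fin R → ℝ) → (Fin n → ℝ) → ℝ) : Prop :=
  volume 𝒢ᶜ = 0 ∧ (∃ B : ℝ, ∀ k ∈ 𝒦, ∀ s ∈ 𝒢, |c k s| ≤ B) ∧
    ∀ (s₀ : Fin n → ℝ) (p₀ : Fin R → ℝ), ∃ δ > 0, ∃ C : ℝ, ∀ s ∈ 𝒢, s ∈ Metric.ball s₀ δ →
      ∑ k ∈ 𝒦 with af k s₀ = p₀, c k s = C

open Classical in
/-- **Loc**. `theorem thm_Loc : St_Loc`. The coefficients are locally constant off the coincidence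
sets. Proof. `k ≠ l` implies `af k ≠ af l`; `{s : af k s = af l s}` is a proper affine subspace, closed
of measure `0`. For `k ∈ 𝒦` let `O_k = {s₀ : ∀ l ∈ 𝒦, af l s₀ = af k s₀ → l = k}`, open and conull. For
`s₀ ∈ O_k` the only `l ∈ 𝒦` with `af l s₀ = af k s₀` is `k`, so (`Bal` at `(s₀, af k s₀)`) `c k` is
constant on `𝒢 ∩ B(s₀, δ)`. Put `c' k s₀` = this constant (`𝒢` is dense, so it is unique), `0` off
`O_k`; `c' k` is locally constant on the open set `O_k`, and equal to `c k` on `𝒢 ∩ O_k`. -/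
def St_Loc : Prop :=
  ∀ (R n : ℕ) (𝒦 : Finset (Matrix (Fin R) (Fin n) ℝ × (Fin R → ℝ))) (𝒢 : Set (Fin n → ℝ))
    (c : Matrix (Fin R) (Fin n) ℝ × (Fin R → ℝ) → (Fin n → ℝ) → ℝ), Bal 𝒦 𝒢 c →
    ∃ c' : Matrix (Fin R) (Fin n) ℝ × (Fin R → ℝ) → (Fin n → ℝ) → ℝ,
      (∀ k ∈ 𝒦, ∀ s₀, (∀ l ∈ 𝒦, af l s₀ = af k s₀ → l = k) →
        ∀ᶠ s in 𝓝 s₀, c' k s = c' k s₀ ∧ (s ∈ 𝒢 → c k s = c' k s₀)) ∧
      (∀ k ∈ 𝒦, Measurable (c' k) ∧ c k =ᵐ[volume] c' k) ∧ ∃ B : ℝ, ∀ k ∈ 𝒦, ∀ s, |c' k s| ≤ B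

/-- **Wal** (Stokes for the multi-sheet). `theorem thm_Wal : St_Loc → St_Wal`. `n = m + 1`.
Proof. Replace `c` by `c'` of `Loc`. WALLS: for `k ≠ l ∈ 𝒦` and a coordinate `i` such that the affine
function `(af k - af l)_i` is not constant let `H_{k,l,i}` be its zero set; let `𝓗` be the finite set
of these hyperplanes and for `H ∈ 𝓗` choose one of these affine functions, `ℓ_H = ν_H + const`,
`ν_H ≠ 0` linear, `H = {ℓ_H = 0}`. Off the walls the `af k s`, `k ∈ 𝒦`, are
pairwise different, and `c k` is locally constant. Let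
`ω(s) = ∑_k c k s • (β (af k s)).compContinuousLinearMap A_k`, an `m`-form on `ℝ^{m+1}`, smooth off the
walls, bounded, zero off `C`; off the walls
`dω(s)(e_0..e_m) = ∑_k c k s extDeriv β (af k s) (A_k e_j)` (`extDeriv_pullback`, `c k` locally
constant). So we want `∫ dω(e) = 0`. CUT-OFF: `θ : ℝ → ℝ` smooth, even, `0` on `[-1,1]`, `1` off
`[-2,2]`, `0 ≤ θ ≤ 1`; `χ_ε = ∏_H θ(ℓ_H/ε)`. `χ_ε ω` is smooth on `ℝ^{m+1}` with compact
support, so `∫ d(χ_ε ω)(e) = 0` (`extDeriv_apply`; the integral of a partial derivative of a `C^1`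
function with compact support is `0`). `d(χ_ε ω) = χ_ε dω + dχ_ε ∧ ω`, and as `ε → 0`
`∫ χ_ε dω(e) → ∫ dω(e)` (dominated convergence, `χ_ε → 1` off the walls). It
remains: `∫ (dχ_ε ∧ ω)(e) → 0`. Now `dχ_ε = ∑_H (1/ε) θ'(ℓ_H/ε) (∏_{H'≠H} θ(ℓ_{H'}/ε)) ν_H`, so put
`V_H(s) = (ν_H ∧ ω(s))(e) = ∑_i (-1)^i ν_H(e_i) ω(s)(e_0..ê_i..e_m)`.
MATCHING: let `w ∈ H` be on no other wall. Then `V_H(w + τν) → v(w)` as `τ → 0`, `τ ≠ 0`, for a fixed
vector `ν` with `ν_H(ν) = 1`, with one and the same limit from both sides: near `w` off `H`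
the `c k` are constant on each side, `c_k^±` (the two half balls are convex, without walls);
group the `k` according to `p = af k w`: `∑_{k ∈ G_p} c_k^+ = ∑_{k∈G_p} c_k^-` (`Bal` at
`(w, p)`), and for `k, l ∈ G_p`: `af k = af l` on `H` (each coordinate of `af k - af l` vanishes at
`w`; if it is not constant its zero set is a wall through `w`, so it is `H`; if it is constant
it is `0`), so `A_k = A_l` on `ker ν_H`, and
`(ν_H ∧ A_k^*β(p))(e) = (ν_H ∧ A_l^*β(p))(e)`: the difference is `ν_H ∧ η` for an `m`-form `η` which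
vanishes on `ker ν_H`; it is an alternating `(m+1)`-form, evaluate it on a basis
`(ν, w_1..w_m)`, `w_i ∈ ker ν_H`: `ν_H(ν) η(w_1..w_m) ± 0 = 0`. (In Mathlib `ν ∧ η` is
`alternatizeUncurryFin (ν.smulRight η)`, also used for `extDeriv`.)
LIMIT: for fixed `H`, `f_ε(s) = (1/ε) θ'(ℓ(s)/ε) W_ε(s)`, `ℓ = ℓ_H`,
`W_ε = V_H ∏_{H'≠H} θ(ℓ_{H'}/ε)`, bounded, zero off `C`. Let `ψ ≥ 0` be a continuous function on `ℝ` with
compact support and integral `1`. Fubini and translation invariance: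
`∫ f_ε(s) ds = ∫_s ψ(ℓ(s)) ∫_τ f_ε(s + τ ν) dτ ds`
(`∫_s ∫_τ ψ(ℓ(s)) f_ε(s+τν) = ∫_τ ∫_s ψ(ℓ(s) - τ) f_ε(s) = ∫_s f_ε(s)`), and with
`τ = -ℓ(s) + ε τ'` the inner integral is `∫ θ'(τ') W_ε(π(s) + ε τ' ν) dτ'`, `π(s) = s - ℓ(s) ν ∈ H`.
For almost all `s` (`π(s)` on no other wall) `W_ε(π(s) + ετ'ν) → v(π(s))` for `τ' ≠ 0`, so by dominated
convergence the limit is `∫_s ψ(ℓ(s)) v(π(s)) ∫ θ' = 0` as `∫ θ' = 0`. (Domination: everything is
bounded and vanishes unless `π(s)` lies in a bounded set and `ℓ(s) ∈ supp ψ`.) -/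
def St_Wal : Prop :=
  ∀ (R m : ℕ) (𝒦 : Finset (Matrix (Fin R) (Fin (m + 1)) ℝ × (Fin R → ℝ)))
    (𝒢 : Set (Fin (m + 1) → ℝ))
    (c : Matrix (Fin R) (Fin (m + 1)) ℝ × (Fin R → ℝ) → (Fin (m + 1) → ℝ) → ℝ)
    (β : (Fin R → ℝ) → (Fin R → ℝ) [⋀^Fin m]→L[ℝ] ℝ) (C : Set (Fin (m + 1) → ℝ)),
    Bal 𝒦 𝒢 c → ContDiff ℝ (⊤ : ℕ∞) β → IsCompact C →
    (∀ k ∈ 𝒦, ∀ s, s ∉ C → β (af k s) = 0) →
    ∫ s, ∑ k ∈ 𝒦, c k s * extDeriv β (af k s) (fun j => k.1.mulVec (Pi.single j 1)) = 0

/-! ## G. Assembly -/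

/-- **Aeq**. `theorem thm_Aeq : St_EmG → St_IndG → St_GNl → St_Cpo → St_Aeq`. Comparison of the
weights along a sheet.
Proof. `L(u) = af k u ∘ J` is an affine isomorphism with linear part `a = k.1.submatrix J id`. For
almost all `u`: `u` is generic, `L(u)` is generic (`GNl`), and `af l u ≠ af k u` for all
`l ∈ 𝒦`, `l ≠ k` (proper affine subspaces). Let `p = af k u`; `p ∘ I = u`, `p ∘ J = L(u)`. If
`logv y F = p` then `Indep y (F∘I)`, so `y` is a Gauss point for `F∘I` and by `Sheets` (the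
sheet is `k` by uniqueness) `ev F ε = k.1 (ev (F∘I) ε)`, so
`det (ev (F∘J) δ) = det a · det (ev (F∘I) δ)`. Apply `Cpo` with `r = det a`. -/
def St_Aeq : Prop :=
  ∀ (K L : Type) [NontriviallyNormedField K] [IsUltrametricDist K] [Field L] [Algebra K L]
    (n R : ℕ), 0 < n → TrLe K L n → (⊤ : IntermediateField K L).FG →
      (Set.range fun a : K => ‖a‖).Countable → ∀ (F : Fin R → Lˣ) (I J : Fin n → Fin R)
      (𝒦 : Finset (Matrix (Fin R) (Fin n) ℝ × (Fin R → ℝ))), Sheets K F I 𝒦 → ∀ k ∈ 𝒦,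
      (k.1.submatrix J id).det ≠ 0 →
      ∀ᵐ u : Fin n → ℝ, cw K (F ∘ J) F (af k u ∘ J) (af k u) =
        |(k.1.submatrix J id).det| * cw K (F ∘ I) F u (af k u)

/-- **BaJ**. The weights of `F ∘ J` on the sheets of `F ∘ I`, reparametrized by `F ∘ J`, are balanced.
`rp J k = (A a⁻¹, v - A a⁻¹ (v∘J))`, `k = (A, v)`, `a = A.submatrix J id`: the affine map
`s ↦ af k (L⁻¹ s)`, `L(u) = af k u ∘ J`. `theorem thm_BaJ :
St_EmF → St_EmG → St_IndG → St_Tng → St_GNl → St_GEx → St_Con → St_BaJ`.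
Proof. Let `𝒦' = {rp J k : k ∈ 𝒦, det a_k ≠ 0}`. `rp J` is injective on `{k ∈ 𝒦 : det a_k ≠ 0}`
(`af (rp J k) (L_k u) = af k u`, whose `I`-part is `u` (`Sheets`), so `rp J k` determines `L_k⁻¹`, then
`L_k`, then `af k`). `𝒢` = set of `s` which are generic and such that the
`af k' s`, `k' ∈ 𝒦'`, are pairwise different: conull. (1) For `s ∈ 𝒢`, `x` a Gauss point of `g = F∘J`
over `s` and `σ ∈ Emb K g`: `y = pb σ x` has `logv y g = s` generic, so `Indep y g`, so by hypothesis
`Indep y (F∘I)`, so `y` is a Gauss point of `F∘I`; `Sheets`: `logv y F = af k u`,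
`u = logv y (F∘I)`, `ev F ε = A_k ev (F∘I) ε`. Then `a_k` is invertible: `ev g = a_k ∘ ev (F∘I)` on
`Tan y` is onto (`Tng`). And `s = af k u ∘ J = L_k(u)`, so `logv y F = af (rp J k) s`. (2) If
`g` is algebraically independent, for every generic `s` there is `x` (`GEx`); `X s` := the
chosen one in the definition of `cw`. `Con` gives the local constancy of
`wtS K g {σ | ∃ k' ∈ 𝒦', af k' s₀ = p₀ ∧ logv (pb σ (X s)) F = af k' s}`, which for `s ∈ 𝒢` is
`∑_{k' ∈ 𝒦', af k' s₀ = p₀} cw K g F s (af k' s)` (disjoint union over `k'`). Bounded by `dg K g`.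
If `g` is dependent all `cw` are `0` (`Ov g s x` is impossible by `EmG`). -/
noncomputable def rp {R n : ℕ} (J : Fin n → Fin R) (k : Matrix (Fin R) (Fin n) ℝ × (Fin R → ℝ)) :
    Matrix (Fin R) (Fin n) ℝ × (Fin R → ℝ) :=
  (k.1 * (k.1.submatrix J id)⁻¹, k.2 - (k.1 * (k.1.submatrix J id)⁻¹).mulVec (k.2 ∘ J))

open Classical in
/-- see `rp` for the proof -/
def St_BaJ : Prop :=
  ∀ (K L : Type) [NontriviallyNormedField K] [IsUltrametricDist K] [Field L] [Algebra K L]
    (n R : ℕ), 0 < n → TrLe K L n → (⊤ : IntermediateField K L).FG →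
      (Set.range fun a : K => ‖a‖).Countable → ∀ (F : Fin R → Lˣ) (I J : Fin n → Fin R)
      (𝒦 : Finset (Matrix (Fin R) (Fin n) ℝ × (Fin R → ℝ))), Sheets K F I 𝒦 →
      (∀ y : Pt (algebraMap K L), Indep y (F ∘ J) → Indep y (F ∘ I)) →
      ∃ 𝒢 : Set (Fin n → ℝ),
        Bal ((𝒦.filter fun k => (k.1.submatrix J id).det ≠ 0).image (rp J)) 𝒢
          (fun k s => cw K (F ∘ J) F s (af k s)) ∧
        (∀ s ∈ 𝒢, Generic K s) ∧
        (∀ s ∈ 𝒢, ∀ k ∈ 𝒦, ∀ l ∈ 𝒦, (k.1.submatrix J id).det ≠ 0 → (l.1.submatrix J id).det ≠ 0 →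
          af (rp J k) s = af (rp J l) s → k = l) ∧
        ∀ s ∈ 𝒢, ∀ x, Ov (F ∘ J) s x → ∀ σ ∈ Emb K (F ∘ J),
          ∃ k ∈ 𝒦, (k.1.submatrix J id).det ≠ 0 ∧
            logv (pb σ x) F = af (rp J k) s

/-- **StJ**. `theorem thm_StJ : St_Loc → St_Wal → St_Aeq → St_BaJ → St_StJ`.
Stokes for one index `J`, in the reference coordinates `F ∘ I`. `n = m + 1`.
Proof. The summand of a `k` with `det a_k = 0` (`a_k = k.1.submatrix J id`) is zero. Let
`𝒦₁ = {k ∈ 𝒦 : det a_k ≠ 0}`. `rp J` is injective on `𝒦₁`: from `k' = rp J k`,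
`af k' (L_k u) = af k u`, whose `I`-part is `u`, so `k'` determines `L_k⁻¹`, then `L_k`, then `k`.
`BaJ` for `J` (weights `c(s) = cw K (F∘J) F s (af k' s)`) and `Wal` with the compact set `C`
(`af k' s ∘ J = s`): `∫_s ∑_{k ∈ 𝒦₁} c_k(s) extDeriv β (af k' s)(A_k a_k⁻¹ e_j) = 0`. Every summand is
integrable: by `Loc` the weight is a.e. equal to a bounded measurable function, and the other factor
is continuous and zero for `s ∉ C` (`C` closed; `extDeriv β` vanishes where `β` vanishes near). So the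
integral is `∑_{k∈𝒦₁} ∫_s …`. Change of variables `s = L_k(u)`, `ds = |det a_k| du`; `af k' s = af k u`,
`extDeriv β (af k u)(A_k a_k⁻¹ e_j) = (det a_k)⁻¹ extDeriv β (af k u)(A_k e_j)` (alternating
map composed with the linear map `a_k⁻¹`), and `c_k(L_k u) = |det a_k| cw K (F∘I) F u (af k u)`
a.e. (`Aeq`). So the summand is `∫_u cw K (F∘I) F u (af k u) det a_k extDeriv β (af k u)(A_k e_j) du`;
integrability is transported too. -/
def St_StJ : Prop :=
  ∀ (K L : Type) [NontriviallyNormedField K] [IsUltrametricDist K] [Field L] [Algebra K L]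
    (m R : ℕ), TrLe K L (m + 1) → (⊤ : IntermediateField K L).FG →
      (Set.range fun a : K => ‖a‖).Countable → ∀ (F : Fin R → Lˣ) (I J : Fin (m + 1) → Fin R)
      (𝒦 : Finset (Matrix (Fin R) (Fin (m + 1)) ℝ × (Fin R → ℝ))), Sheets K F I 𝒦 →
      (∀ y : Pt (algebraMap K L), Indep y (F ∘ J) → Indep y (F ∘ I)) →
      ∀ (β : (Fin R → ℝ) → (Fin R → ℝ) [⋀^Fin m]→L[ℝ] ℝ) (C : Set (Fin (m + 1) → ℝ)),
      ContDiff ℝ (⊤ : ℕ∞) β → IsCompact C → (∀ p : Fin R → ℝ, p ∘ J ∉ C → β p = 0) →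
      (∀ k ∈ 𝒦, Integrable fun u => cw K (F ∘ I) F u (af k u) * (k.1.submatrix J id).det *
        extDeriv β (af k u) (fun j => k.1.mulVec (Pi.single j 1))) ∧
      ∫ u, ∑ k ∈ 𝒦, cw K (F ∘ I) F u (af k u) * (k.1.submatrix J id).det *
        extDeriv β (af k u) (fun j => k.1.mulVec (Pi.single j 1)) = 0

/-- **TrT**. `theorem thm_TrT : St_EmF → St_GEx → St_Loc → St_Aeq → St_BaJ → St_TrT`.
The `t`-part: `t = F ∘ J` with `K(t) = L`.
Proof. As in `StJ`: `∫_u cw K (F∘I) F u (af k u) (det a_k)² b(af k u ∘ J) du =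
∫_s cw K t F s (af (rp J k) s) b(s) ds` for `k ∈ 𝒦₁`, and `0` for the other `k`; all integrable. So
the left side is `∫_s b(s) ∑_{k ∈ 𝒦₁} cw K t F s (af (rp J k) s) ds`. For `s ∈ 𝒢` (`BaJ`; and
`af (rp J k) s` pairwise different for `k ∈ 𝒦₁`, a.e.) the inner sum is `1`: `Emb K t = {incE}` since
`K(t) = L`, `dg K t = 1`, and `logv (pb incE x) F` is one of the `af (rp J k) s`. -/
def St_TrT : Prop :=
  ∀ (K L : Type) [NontriviallyNormedField K] [IsUltrametricDist K] [Field L] [Algebra K L]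
    (n R : ℕ), 0 < n → TrLe K L n → (⊤ : IntermediateField K L).FG →
      (Set.range fun a : K => ‖a‖).Countable → ∀ (F : Fin R → Lˣ) (I J : Fin n → Fin R)
      (𝒦 : Finset (Matrix (Fin R) (Fin n) ℝ × (Fin R → ℝ))), Sheets K F I 𝒦 →
      (∀ y : Pt (algebraMap K L), Indep y (F ∘ J) → Indep y (F ∘ I)) →
      AlgebraicIndependent K (fun i => (F (J i) : L)) →
      IntermediateField.adjoin K (Set.range fun i => (F (J i) : L)) = ⊤ →
      ∀ b : (Fin n → ℝ) → ℝ, Continuous b → HasCompactSupport b →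
      ∫ u, ∑ k ∈ 𝒦, cw K (F ∘ I) F u (af k u) * (k.1.submatrix J id).det ^ 2 *
        b (af k u ∘ J) = ∫ s, b s

/-- **INJ** (the result of Phase 2). `theorem thm_INJ : St_Gen → St_Fini → St_GNl → St_EmF → St_EmG →
St_IndG → St_Tng → St_StJ → St_TrT → St_INJ`.
Proof. `g₀` from `Gen` for `Fin.append F t`; `F' = Fin.append (Fin.append F t) g₀` with the index maps
`a : Fin R → Fin R'`, `τ`, `ζ`: `F' ∘ a = F`, `F' ∘ τ = t`, `F' ∘ ζ = g₀`; `𝒦` from `Fini` for `(F', ζ)`.
For `J = a ∘ I` and `J = τ`: `Indep y (F' ∘ J) → Indep y g₀`. For `I : Fin n → Fin R` let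
`β_I(p) = (γ I (p ∘ a)).compContinuousLinearMap (· ∘ a)`, so
`extDeriv β_I p w = extDeriv (γ I) (p ∘ a) (w ∘ a)` (`extDeriv_pullback`), and `StJ` for `J = a ∘ I`
(compact set of `PC`). Sum over `I`: `0 = ∫ ∑_k cw(u, af k u) ∑_I det(a_{k,a∘I}) extDeriv β_I …`.
For almost all `u` (generic; `af k u` pairwise different), `k ∈ 𝒦` with `cw ≠ 0`: there is `σ` with
`y = pb σ x`, `logv y F' = af k u`, `y` a Gauss point for `g₀` with `Indep y g₀`; take `δ_j ∈ Tan y` with
`ev g₀ δ_j = e_j` (`Tng`), then `ev F' δ_j = A_k e_j` (`Sheets`, uniqueness of `k`) and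
`∑_I det(a_{k,a∘I}) extDeriv β_I (af k u) (A_k e_j) = pullAt y F γ.dd δ δ = pullAt y t (top b) δ δ =
(det a_{k,τ})² b(af k u ∘ τ)` (`det` of the transpose). So `0 = ∫ ∑_k cw (det a_{k,τ})² b(…) = ∫ b` by
`TrT`. -/
def St_INJ : Prop :=
  ∀ (K L : Type) [NontriviallyNormedField K] [IsUltrametricDist K] [Field L] [Algebra K L]
    (m R : ℕ), TrLe K L (m + 1) → (⊤ : IntermediateField K L).FG →
      (Set.range fun a : K => ‖a‖).Countable → ∀ (t : Fin (m + 1) → Lˣ),
      AlgebraicIndependent K (fun i => (t i : L)) →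
      IntermediateField.adjoin K (Set.range fun i => (t i : L)) = ⊤ →
      ∀ b : (Fin (m + 1) → ℝ) → ℝ, ContDiff ℝ (⊤ : ℕ∞) b → HasCompactSupport b →
      ∀ (F : Fin R → Lˣ) (γ : SF R (m + 1) m), γ.PC →
      (∀ y : Pt (algebraMap K L), pull F γ.dd y = pull t (top b) y) →
      ∫ s, b s = 0

end TDC
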