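import Pool.Agent.TDC.Defs5
import Pool.Agent.TDC.Defs4
import Pool.Agent.TDC.GPul
import Pool.Agent.TDC.GTro
import Pool.Agent.TDC.FFace
import Pool.Agent.TDC.FVal

/-!
# TDC: the theorem on toric varieties in terms of cohomology groups (statement)
-/

namespace TDC

open scoped Topology
open MeasureTheory AlgebraicGeometry CategoryTheory

section pullback

variable {K : Type} [NormedField K] {X : Scheme.{0}} {s : X ⟶ Spec (.of K)} {n : ℕ} {Δ : Fan n}

/-- `trop^*` maps closed superforms to closed forms -/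
theorem tropPull_closed (τ : Toric Δ s) (T : An s → NR Δ) (hT : IsTropMap τ T) (p q : ℕ)
    (α : FamT Δ p q) (h : α ∈ closedT Δ p q) : tropPull τ T hT p q α ∈ closedA s p q := by
  have h1 := (thm_GPul (thm_GTro thm_FFace thm_FVal) n Δ K X s τ T hT p q).2 α 0 h
  rw [map_zero] at h1
  exact h1

/-- `trop^*` maps exact superforms to exact forms -/
theorem tropPull_exact (τ : Toric Δ s) (T : An s → NR Δ) (hT : IsTropMap τ T) (p : ℕ) :
    ∀ (q : ℕ) (α : FamT Δ p q), α ∈ exactT Δ p q → tropPull τ T hT p q α ∈ exactA s p q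
  | 0, α, h => by
    have h1 : α = 0 := h
    rw [h1, map_zero]
    exact (exactA s p 0).zero_mem
  | q + 1, α, h => by
    obtain ⟨η, hη⟩ := h
    exact ⟨_, (thm_GPul (thm_GTro thm_FFace thm_FVal) n Δ K X s τ T hT p q).2 η α hη⟩

/-- `trop^*` on closed superforms -/
noncomputable def tropC (τ : Toric Δ s) (T : An s → NR Δ) (hT : IsTropMap τ T) (p q : ℕ) :
    closedT Δ p q →ₗ[ℝ] closedA s p q :=
  (tropPull τ T hT p q).restrict (tropPull_closed τ T hT p q)

/-- the map `trop^* : H^{p,q}(N_ℝ(Σ)) → H^{p,q}(X^an)` -/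
noncomputable def tropHT (τ : Toric Δ s) (T : An s → NR Δ) (hT : IsTropMap τ T) (p q : ℕ) :
    HT Δ p q →ₗ[ℝ] HA s p q :=
  Submodule.mapQ _ _ (tropC τ T hT p q) fun α h =>
    tropPull_exact τ T hT p q α.1 h

theorem tropHT_mk (τ : Toric Δ s) (T : An s → NR Δ) (hT : IsTropMap τ T) (p q : ℕ)
    (α : FamT Δ p q) (h : α ∈ closedT Δ p q) :
    tropHT τ T hT p q (Submodule.Quotient.mk ⟨α, h⟩) =
      Submodule.Quotient.mk ⟨tropPull τ T hT p q α, tropPull_closed τ T hT p q α h⟩ := rfl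

end pullback

/-- **Top**. Toric varieties of dimension `m+1`: the tropicalization map, the pull-back of forms,
and the isomorphisms in bidegree `(m+1,m+1)`. -/
def St_Top : Prop :=
  ∀ (K : Type) [NontriviallyNormedField K] [IsUltrametricDist K],
    (Set.range fun a : K => ‖a‖).Countable →
    ∀ (m : ℕ) (Δ : Fan (m + 1)) (X : Scheme.{0}) [IsIntegral X] (s : X ⟶ Spec (.of K))
      (τ : Toric Δ s),
      (∃ T, IsTropMap τ T) ∧
      ∀ (T : An s → NR Δ) (hT : IsTropMap τ T),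
        (∀ T', IsTropMap τ T' → T' = T) ∧ Continuous T ∧
        (∀ (p q : ℕ) (ω : FamT Δ p q), IsFormT ω → IsFormA (tropPull τ T hT p q ω)) ∧
        (∀ (p q : ℕ) (η : FamT Δ p q) (ω : FamT Δ p (q + 1)), IsDbarT η ω →
          IsDbarA (tropPull τ T hT p q η) (tropPull τ T hT p (q + 1) ω)) ∧
        Function.Bijective (tropHT τ T hT (m + 1) (m + 1)) ∧
        (∃ g : HTc Δ (m + 1) (m + 1) ≃ₗ[ℝ] HAc s (m + 1) (m + 1),
          ∀ (α : FamT Δ (m + 1) (m + 1))
            (h : α ∈ closedT Δ (m + 1) (m + 1) ⊓ suppT Δ (m + 1) (m + 1)),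
            ∃ h' : tropPull τ T hT (m + 1) (m + 1) α ∈
                closedA s (m + 1) (m + 1) ⊓ suppA s (m + 1) (m + 1),
              g (Submodule.Quotient.mk ⟨α, h⟩) = Submodule.Quotient.mk ⟨_, h'⟩) ∧
        Nonempty (HAc s (m + 1) (m + 1) ≃ₗ[ℝ] ℝ) ∧
        (Δ.Complete → Nonempty (HA s (m + 1) (m + 1) ≃ₗ[ℝ] ℝ)) ∧
        (¬ Δ.Complete → Subsingleton (HA s (m + 1) (m + 1)))

end TDC
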