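import Pool.Agent.TDC.StTop
import Pool.Agent.TDC.StG
import Pool.Agent.TDC.St7
import Pool.Agent.TDC.GFin

/-!
# TDC: the theorem on toric varieties in terms of cohomology groups
-/

namespace TDC

open scoped Topology
open MeasureTheory AlgebraicGeometry CategoryTheory

private theorem Top_mk0 {V : Type} [AddCommGroup V] [Module ℝ V] (Z B : Submodule ℝ V) (x : V)
    (h : x ∈ Z) :
    (Submodule.Quotient.mk ⟨x, h⟩ : Z ⧸ B.comap Z.subtype) = 0 ↔ x ∈ B := by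
  rw [Submodule.Quotient.mk_eq_zero]
  rfl

private theorem Top_mkeq {V : Type} [AddCommGroup V] [Module ℝ V] (Z B : Submodule ℝ V) (x y : V)
    (h : x ∈ Z) (h' : y ∈ Z) :
    (Submodule.Quotient.mk ⟨x, h⟩ : Z ⧸ B.comap Z.subtype) = Submodule.Quotient.mk ⟨y, h'⟩ ↔
      x - y ∈ B := by
  rw [Submodule.Quotient.eq]
  rfl

private theorem Top_bij {V W : Type} [AddCommGroup V] [Module ℝ V] [AddCommGroup W] [Module ℝ W]
    (Z B : Submodule ℝ V) (Z' B' : Submodule ℝ W) (f : V →ₗ[ℝ] W) (hZ : ∀ x ∈ Z, f x ∈ Z')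
    (hB : ∀ x ∈ Z, x ∈ B → f x ∈ B') (hinj : ∀ x ∈ Z, f x ∈ B' → x ∈ B)
    (hsur : ∀ y ∈ Z', ∃ x ∈ Z, y - f x ∈ B') :
    ∃ g : (Z ⧸ B.comap Z.subtype) ≃ₗ[ℝ] (Z' ⧸ B'.comap Z'.subtype),
      ∀ (x : V) (h : x ∈ Z), ∃ h' : f x ∈ Z',
        g (Submodule.Quotient.mk ⟨x, h⟩) = Submodule.Quotient.mk ⟨f x, h'⟩ := by
  let F : (Z ⧸ B.comap Z.subtype) →ₗ[ℝ] (Z' ⧸ B'.comap Z'.subtype) :=
    Submodule.mapQ _ _ (f.restrict hZ) fun x h => hB x.1 x.2 h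
  have hF : ∀ (x : V) (h : x ∈ Z), F (Submodule.Quotient.mk ⟨x, h⟩) =
      Submodule.Quotient.mk ⟨f x, hZ x h⟩ := fun x h => rfl
  have hb : Function.Bijective F := by
    constructor
    · rw [injective_iff_map_eq_zero]
      intro a
      obtain ⟨⟨x, h⟩, rfl⟩ := Submodule.Quotient.mk_surjective _ a
      intro h0
      rw [hF x h, Top_mk0] at h0
      exact (Top_mk0 Z B x h).2 (hinj x h h0)
    · intro a
      obtain ⟨⟨y, h⟩, rfl⟩ := Submodule.Quotient.mk_surjective _ a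
      obtain ⟨x, hx, hxy⟩ := hsur y h
      refine ⟨Submodule.Quotient.mk ⟨x, hx⟩, ?_⟩
      rw [hF x hx, eq_comm, Top_mkeq]
      exact hxy
  exact ⟨LinearEquiv.ofBijective F hb, fun x h => ⟨hZ x h, rfl⟩⟩

/-- **Top**. -/
theorem thm_Top (hGFin : St_GFin) (hGTro : St_GTro) (hGPul : St_GPul) (hGCmp : St_GCmp)
    (hCohC : St_CohC) (hGCor : St_GCor) (hGCpl : St_GCpl) (hFTop : St_FTop) (hFCom : St_FCom)
    (hComb : St_CombA) : St_Top := by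
  intro K _ _ hcount m Δ X _ s τ
  refine ⟨(hGTro (m + 1) Δ K X s τ).1, ?_⟩
  intro T hT
  obtain ⟨-, huniq, hcont⟩ := hGTro (m + 1) Δ K X s τ
  obtain ⟨s1, i1, s2, i2⟩ := hGFin K hcount m Δ X s τ T hT
  have hfT : ∀ α : FamT Δ (m + 1) (m + 1), α ∈ closedT Δ (m + 1) (m + 1) → IsFormT α :=
    fun α h => ((hFCom (m + 1) Δ (m + 1) (m + 1)).2.2.2.2.2.2 _ _ h).1
  have hfA : ∀ α : FamA s (m + 1) (m + 1), α ∈ closedA s (m + 1) (m + 1) → IsFormA α :=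
    fun α h => ((hComb K X s (m + 1) (m + 1)).2.2.2.2.2.2 _ _ h).1
  have hcl : ∀ α : FamT Δ (m + 1) (m + 1), IsFormT α → α ∈ closedT Δ (m + 1) (m + 1) :=
    fun α h => (hFTop m Δ).1 α h
  have hbij : Function.Bijective (tropHT τ T hT (m + 1) (m + 1)) := by
    constructor
    · rw [injective_iff_map_eq_zero]
      intro a
      obtain ⟨⟨x, h⟩, rfl⟩ := Submodule.Quotient.mk_surjective _ a
      intro h0
      rw [tropHT_mk, Top_mk0] at h0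
      obtain ⟨η, hη⟩ := h0
      rw [Top_mk0]
      exact i1 x (hfT x h) η hη
    · intro a
      obtain ⟨⟨y, h⟩, rfl⟩ := Submodule.Quotient.mk_surjective _ a
      obtain ⟨α, hα, η, hη⟩ := s1 y (hfA y h)
      refine ⟨Submodule.Quotient.mk ⟨α, hcl α hα⟩, ?_⟩
      rw [tropHT_mk, eq_comm, Top_mkeq]
      exact ⟨η, hη⟩
  have hcoh : Nonempty (HAc s (m + 1) (m + 1) ≃ₗ[ℝ] ℝ) := by
    obtain ⟨-, t, -, hrat⟩ := hGCor (m + 1) Δ K X s τ
    obtain ⟨⟨e, -⟩, -⟩ := hCohC K X s m t hcount hrat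
    exact ⟨e⟩
  refine ⟨fun T' h' => huniq T' T h' hT, (hcont T hT).1,
    fun p q => (hGPul (m + 1) Δ K X s τ T hT p q).1,
    fun p q => (hGPul (m + 1) Δ K X s τ T hT p q).2, hbij, ?_, hcoh, ?_, ?_⟩
  · refine Top_bij (closedT Δ (m + 1) (m + 1) ⊓ suppT Δ (m + 1) (m + 1))
      (exactTc Δ (m + 1) (m + 1)) (closedA s (m + 1) (m + 1) ⊓ suppA s (m + 1) (m + 1))
      (exactAc s (m + 1) (m + 1)) (tropPull τ T hT (m + 1) (m + 1)) ?_ ?_ ?_ ?_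
    · intro x hx
      exact ⟨tropPull_closed τ T hT _ _ x hx.1,
        (hGCmp m Δ K X s τ T hT).1 (m + 1) x (hfT x hx.1) hx.2⟩
    · rintro x hx ⟨η, hc, hη⟩
      exact ⟨tropPull τ T hT (m + 1) m η, (hGCmp m Δ K X s τ T hT).1 m η
        ((hFCom (m + 1) Δ (m + 1) m).2.2.2.2.2.2 _ _ hη).1 hc,
        (hGPul (m + 1) Δ K X s τ T hT (m + 1) m).2 η x hη⟩
    · rintro x hx ⟨η, hc, hη⟩
      exact i2 x (hfT x hx.1) hx.2 η hc hη
    · rintro y ⟨h1, h2⟩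
      obtain ⟨α, hα, hc, η, hη⟩ := s2 y (hfA y h1) h2
      exact ⟨α, ⟨hcl α hα, hc⟩, η, hη⟩
  · intro hΔ
    obtain ⟨e⟩ := hcoh
    have hcs := hGCpl (m + 1) Δ K X s τ hΔ
    obtain ⟨g, -⟩ := Top_bij (closedA s (m + 1) (m + 1) ⊓ suppA s (m + 1) (m + 1))
      (exactAc s (m + 1) (m + 1)) (closedA s (m + 1) (m + 1)) (exactA s (m + 1) (m + 1))
      LinearMap.id (fun x hx => hx.1) (fun x _ hx => by
        obtain ⟨η, -, hη⟩ := hx
        exact ⟨η, hη⟩) (fun x _ hx => by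
        obtain ⟨η, hη⟩ := hx
        exact ⟨η, hcs m η ((hComb K X s (m + 1) m).2.2.2.2.2.2 _ _ hη).1, hη⟩)
      (fun y hy => ⟨y, ⟨hy, hcs (m + 1) y (hfA y hy)⟩, by
        rw [LinearMap.id_apply, sub_self]
        exact (exactA s (m + 1) (m + 1)).zero_mem⟩)
    exact ⟨g.symm.trans e⟩
  · intro hΔ
    have h0 : Subsingleton (HT Δ (m + 1) (m + 1)) := by
      refine subsingleton_of_forall_eq 0 fun a => ?_
      obtain ⟨⟨x, h⟩, rfl⟩ := Submodule.Quotient.mk_surjective _ a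
      rw [Top_mk0]
      exact (hFTop m Δ).2.2.2.1 hΔ x (hfT x h)
    exact hbij.2.subsingleton

end TDC
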