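import Pool.Agent.TDC.All
import Pool.Agent.TDC.Top

/-!
# TDC: the theorem on toric varieties, closed form, and the instances
-/

open scoped Topology
open AlgebraicGeometry CategoryTheory

namespace TDC

/-- **Top**, without hypotheses -/
theorem cl_Top : St_Top :=
  thm_Top cl_GFin cl_GTro cl_GPul cl_GCmp cl_CohC cl_GCor cl_GCpl cl_FTop cl_FCom cl_CombA

private theorem TopI_not_complete {m : ℕ} (Δ : Fan (m + 1)) (h : ∀ i, Δ.gens i = ∅) :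
    ¬ Δ.Complete := by
  intro hc
  obtain ⟨i, a, -, hu⟩ := hc fun _ => 1
  rw [h i, Finset.sum_empty] at hu
  have h1 := congrFun hu 0
  rw [Pi.zero_apply] at h1
  exact one_ne_zero h1

/-- the torus, affine space and projective space are toric varieties -/
theorem TopI_inst (K : Type) [NormedField K] (m : ℕ) :
    (∃ Δ : Fan (m + 1), (∀ i, Δ.gens i = ∅) ∧ IsIntegral (GmK K (m + 1)) ∧
      Nonempty (Toric Δ (GmKs K (m + 1)))) ∧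
    (∃ (Δ : Fan (m + 1)) (e : Δ.ι ≃ Finset (Fin (m + 1))),
      (∀ i, Δ.gens i = (e i).image fun j => Pi.single j 1) ∧ IsIntegral (AfK K (m + 1)) ∧
      Nonempty (Toric Δ (AfKs K (m + 1)))) ∧
    (∃ (Δ : Fan (m + 1)) (e : Δ.ι ≃ {J : Finset (Fin (m + 2)) // J ≠ Finset.univ}),
      (∀ i, Δ.gens i = (e i).1.image
        (Fin.cons (α := fun _ => Fin (m + 1) → ℤ) (fun _ => -1) fun j => Pi.single j 1)) ∧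
      IsIntegral (PrK K (m + 1)) ∧ Nonempty (Toric Δ (PrKs K (m + 1)))) := by
  obtain ⟨⟨Δ₁, hs₁, hg₁⟩, ⟨Δ₂, e₂, hc₂, hg₂⟩, ⟨Δ₃, e₃, hc₃, hg₃⟩⟩ := cl_IFan (m + 1)
  exact ⟨⟨Δ₁, hg₁, cl_IGm K (m + 1) Δ₁ hs₁ hg₁⟩, ⟨Δ₂, e₂, hg₂, cl_IAf K (m + 1) Δ₂ e₂ hg₂⟩,
    ⟨Δ₃, e₃, hg₃, cl_IPr K (m + 1) Δ₃ e₃ hg₃⟩⟩

private theorem TopI_cor (K : Type) [NontriviallyNormedField K] [IsUltrametricDist K]
    (hcount : (Set.range fun a : K => ‖a‖).Countable) (m : ℕ) (Δ : Fan (m + 1)) (X : Scheme.{0})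
    (hX : IsIntegral X) (s : X ⟶ Spec (.of K)) (hτ : Nonempty (Toric Δ s)) :
    Nonempty (HAc s (m + 1) (m + 1) ≃ₗ[ℝ] ℝ) ∧
    (Δ.Complete → Nonempty (HA s (m + 1) (m + 1) ≃ₗ[ℝ] ℝ)) ∧
    (¬ Δ.Complete → Subsingleton (HA s (m + 1) (m + 1))) := by
  obtain ⟨τ⟩ := hτ
  obtain ⟨⟨T, hT'⟩, h2⟩ := cl_Top K hcount m Δ X s τ
  exact (h2 T hT').2.2.2.2.2.2

/-- the cohomology of the torus, of affine space and of projective space -/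
theorem TopI_coh (K : Type) [NontriviallyNormedField K] [IsUltrametricDist K]
    (hcount : (Set.range fun a : K => ‖a‖).Countable) (m : ℕ) :
    (Subsingleton (HA (GmKs K (m + 1)) (m + 1) (m + 1)) ∧
      Nonempty (HAc (GmKs K (m + 1)) (m + 1) (m + 1) ≃ₗ[ℝ] ℝ)) ∧
    (Subsingleton (HA (AfKs K (m + 1)) (m + 1) (m + 1)) ∧
      Nonempty (HAc (AfKs K (m + 1)) (m + 1) (m + 1) ≃ₗ[ℝ] ℝ)) ∧
    Nonempty (HA (PrKs K (m + 1)) (m + 1) (m + 1) ≃ₗ[ℝ] ℝ) := by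
  obtain ⟨⟨Δ₁, hs₁, hg₁⟩, ⟨Δ₂, e₂, hc₂, hg₂⟩, ⟨Δ₃, e₃, hc₃, hg₃⟩⟩ := cl_IFan (m + 1)
  obtain ⟨hi₁, ht₁⟩ := cl_IGm K (m + 1) Δ₁ hs₁ hg₁
  obtain ⟨hi₂, ht₂⟩ := cl_IAf K (m + 1) Δ₂ e₂ hg₂
  obtain ⟨hi₃, ht₃⟩ := cl_IPr K (m + 1) Δ₃ e₃ hg₃
  have h1 := TopI_cor K hcount m Δ₁ _ hi₁ _ ht₁
  have h2 := TopI_cor K hcount m Δ₂ _ hi₂ _ ht₂
  have h3 := TopI_cor K hcount m Δ₃ _ hi₃ _ ht₃
  exact ⟨⟨h1.2.2 (TopI_not_complete Δ₁ hg₁), h1.1⟩, ⟨h2.2.2 (hc₂ (Nat.succ_pos m)), h2.1⟩,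
    h3.2.1 hc₃⟩

end TDC
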