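import Pool.Agent.TDC.VTBr
import Pool.Agent.TDC.TorU

/-!
# TDC: the theorem on toric varieties, in the short definitions
-/

namespace TDC

open scoped Topology
open AlgebraicGeometry CategoryTheory

private theorem TopV_f {K : Type} [NormedField K] {X : Scheme.{0}} {s : X ⟶ Spec (.of K)} {n : ℕ}
    {Δ : Fan n} (τ : ToricV Δ s) (T : An s → NR Δ) (hT : IsTropV τ T)
    (hT' : IsTropMap τ.toT T) (p q : ℕ) (f : HT Δ p q →ₗ[ℝ] HA s p q)
    (hf : ∀ (ω : FamT Δ p q) (h : ω ∈ closedT Δ p q),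
      ∃ h' : tropPull τ.toT T hT' p q ω ∈ closedA s p q,
        f (Submodule.Quotient.mk ⟨ω, h⟩) =
          Submodule.Quotient.mk ⟨tropPull τ.toT T hT' p q ω, h'⟩)
    (hb : Function.Bijective f) :
    IsoBy (closedTV Δ p q) (exactTV Δ p q) (closedV s p q) (exactV s p q) (tropV τ T hT) := by
  obtain ⟨e, he⟩ := hTV_equiv Δ p q
  obtain ⟨e', he'⟩ := hV_equiv s p q
  refine isoBy_abs e e' f hb _ fun α hα => ?_
  obtain ⟨h1, h2⟩ := he α hα
  obtain ⟨h3, h4⟩ := hf (famTVT Δ p q α) h1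
  have h5 := tropV_eq τ T hT hT' p q α
  have h6 : tropV τ T hT α ∈ closedV s p q := by
    rw [closedV_iff, h5]
    exact h3
  obtain ⟨h7, h8⟩ := he' (tropV τ T hT α) h6
  refine ⟨h6, ?_⟩
  rw [h2, h4, h8]
  congr 1
  exact Subtype.ext h5.symm

private theorem TopV_g {K : Type} [NormedField K] {X : Scheme.{0}} {s : X ⟶ Spec (.of K)} {n : ℕ}
    {Δ : Fan n} (τ : ToricV Δ s) (T : An s → NR Δ) (hT : IsTropV τ T)
    (hT' : IsTropMap τ.toT T) (p q : ℕ) (f : HTc Δ p q →ₗ[ℝ] HAc s p q)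
    (hf : ∀ (ω : FamT Δ p q) (h : ω ∈ closedT Δ p q ⊓ suppT Δ p q),
      ∃ h' : tropPull τ.toT T hT' p q ω ∈ closedA s p q ⊓ suppA s p q,
        f (Submodule.Quotient.mk ⟨ω, h⟩) =
          Submodule.Quotient.mk ⟨tropPull τ.toT T hT' p q ω, h'⟩)
    (hb : Function.Bijective f) :
    IsoBy (closedTVc Δ p q) (exactTVc Δ p q) (closedVc s p q) (exactVc s p q)
      (tropV τ T hT) := by
  obtain ⟨e, he⟩ := hTVc_equiv Δ p q
  obtain ⟨e', he'⟩ := hVc_equiv s p q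
  refine isoBy_abs e e' f hb _ fun α hα => ?_
  obtain ⟨h1, h2⟩ := he α hα
  obtain ⟨h3, h4⟩ := hf (famTVT Δ p q α) h1
  have h5 := tropV_eq τ T hT hT' p q α
  have h6 : tropV τ T hT α ∈ closedVc s p q := by
    rw [closedVc_iff, h5]
    exact h3
  obtain ⟨h7, h8⟩ := he' (tropV τ T hT α) h6
  refine ⟨h6, ?_⟩
  rw [h2, h4, h8]
  congr 1
  exact Subtype.ext h5.symm

private theorem TopV_one {W A : Type} [AddCommGroup W] [Module ℝ W] [AddCommGroup A] [Module ℝ A]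
    {Z B : Set W} (e : Coh Z B ≃ₗ[ℝ] A) (h : Module.finrank ℝ A = 1) : OneDim Z B := by
  have h1 : Module.finrank ℝ (Coh Z B) = 1 := by rw [e.finrank_eq, h]
  have h2 : Module.finrank ℝ (Coh Z B) = Module.finrank ℝ ℝ := by
    rw [h1, Module.finrank_self]
  have : FiniteDimensional ℝ (Coh Z B) := Module.finite_of_finrank_pos (by rw [h1]; exact one_pos)
  exact ⟨LinearEquiv.ofFinrankEq _ _ h2⟩

theorem topV : St_TopV := by
  intro K _ _ hK m Δ X _ s τ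
  obtain ⟨T₀, hT₀, huniq, hcont, f, g, hf, hg, hfb, hgb, h1, h2, h3⟩ :=
    torH K hK m Δ X s τ.toT
  obtain ⟨e, -⟩ := hV_equiv s (m + 1) (m + 1)
  obtain ⟨ec, -⟩ := hVc_equiv s (m + 1) (m + 1)
  refine ⟨⟨T₀, (isTropV_iff τ T₀).2 hT₀⟩, fun T hT => ?_⟩
  have hT' : IsTropMap τ.toT T := (isTropV_iff τ T).1 hT
  have hTT : T = T₀ := huniq T hT'
  subst hTT
  have hGP := thm_GPul (thm_GTro thm_FFace thm_FVal) (m + 1) Δ K X s τ.toT T hT'
  refine ⟨fun T' h' => huniq T' ((isTropV_iff τ T').1 h'), hcont, fun p q ω h => ?_,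
    fun p q η ω h => ?_, TopV_f τ T hT hT' _ _ f hf hfb, TopV_g τ T hT hT' _ _ g hg hgb,
    TopV_one ec h1, fun hc => TopV_one e (h2 hc), fun hc => ?_⟩
  · rw [isFormV_iff, tropV_eq τ T hT hT' p q ω]
    exact (hGP p q).1 _ h
  · rw [isDbarV_iff, tropV_eq τ T hT hT' p q η, tropV_eq τ T hT hT' p (q + 1) ω]
    exact (hGP p q).2 _ _ h
  · have := h3 hc
    exact e.toEquiv.subsingleton

end TDC
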