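import Pool.Agent.TDC.Defs

/-!
# TDC: the definitions used in the final statements (forms on `X^an`, cohomology)

The same notions as in `TDC/Defs.lean`, `TDC/Defs4.lean`, in a form in which every definition is short.
-/

namespace TDC

open scoped Topology
open AlgebraicGeometry CategoryTheory

/-! ## 1. Cohomology -/

section coh

variable {V : Type} [AddCommGroup V] [Module ℝ V]

/-- The quotient `Z / (B ∩ Z)` of a space `Z` of closed forms by the exact ones among them (`Z`, `B` are
sets of forms which are linear subspaces; the definition uses the subspaces generated by them). -/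
def Coh (Z B : Set V) : Type :=
  Submodule.span ℝ Z ⧸ (Submodule.span ℝ B).comap (Submodule.span ℝ Z).subtype

noncomputable instance Coh.group (Z B : Set V) : AddCommGroup (Coh Z B) :=
  Submodule.Quotient.addCommGroup _

noncomputable instance Coh.module (Z B : Set V) : Module ℝ (Coh Z B) :=
  Submodule.Quotient.module _

/-- the class of `x ∈ Z` -/
def Coh.mk {Z : Set V} (B : Set V) (x : V) (h : x ∈ Z) : Coh Z B :=
  Submodule.Quotient.mk ⟨x, Submodule.subset_span h⟩

end coh

/-! ## 2. Values at a point -/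

section field

variable {K M : Type} [NormedField K] [Field M] {φ : K →+* M}

/-- values at `x`: functions on `Tan(x)^p × Tan(x)^q` -/
def Val (x : Pt φ) (p q : ℕ) : Type := (Fin p → Tan x) → (Fin q → Tan x) → ℝ

noncomputable instance Val.group (x : Pt φ) (p q : ℕ) : AddCommGroup (Val x p q) :=
  Pi.addCommGroup

noncomputable instance Val.module (x : Pt φ) (p q : ℕ) : Module ℝ (Val x p q) :=
  Pi.module _ _ _

/-- the value at `x` of the pull-back `F^*α` of the superform `α` by units `F` of a ring `A`, where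
`f : A → M` is the evaluation at `x` -/
noncomputable def pullU {A : Type} [CommRing A] {R p q : ℕ} (x : Pt φ) (f : A →+* M)
    (F : Fin R → Aˣ) (α : SF R p q) : Val x p q :=
  pullAt x (fun i => Units.map f.toMonoidHom (F i)) α

/-- the value at `x` of the pull-back `t^*α` -/
noncomputable def pullV {R p q : ℕ} (x : Pt φ) (t : Fin R → Mˣ) (α : SF R p q) : Val x p q :=
  pullAt x t α

end field

/-! ## 3. Forms on the analytification -/

section scheme

variable {K : Type} [NormedField K] {X : Scheme.{0}} {s : X ⟶ Spec (.of K)}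

/-- the point of `X` under the point `x` of `X^an` -/
def An.pt (x : An s) : X := x.1

/-- the absolute value of the point `x` of `X^an` -/
def An.abs (x : An s) : Pt (kmap s x.pt) := x.2

/-- evaluation of functions at `x ∈ U^an` -/
noncomputable def An.eval (x : An s) (U : X.Opens) (h : x.pt ∈ U) :
    Γ(X, U) →+* X.residueField x.pt := (X.evaluation U x.pt h).hom

/-- families of values -/
def FamV (s : X ⟶ Spec (.of K)) (p q : ℕ) : Type := ∀ x : An s, Val x.abs p q

noncomputable instance FamV.group (s : X ⟶ Spec (.of K)) (p q : ℕ) : AddCommGroup (FamV s p q) :=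
  Pi.addCommGroup

noncomputable instance FamV.module (s : X ⟶ Spec (.of K)) (p q : ℕ) : Module ℝ (FamV s p q) :=
  Pi.module _ _ _

variable {p q : ℕ}

/-- forms of bidegree `(p,q)` on `X^an` -/
def IsFormV (ω : FamV s p q) : Prop :=
  ∀ x : An s, ∃ (U : X.Opens) (R : ℕ) (F : Fin R → (Γ(X, U))ˣ) (α : SF R p q), α.Smooth ∧
    ∀ᶠ y in 𝓝 x, ∃ h : y.pt ∈ U, ω y = pullU y.abs (y.eval U h) F α

/-- `ω = d''η` on `X^an` -/
def IsDbarV (η : FamV s p q) (ω : FamV s p (q + 1)) : Prop :=
  ∀ x : An s, ∃ (U : X.Opens) (R : ℕ) (F : Fin R → (Γ(X, U))ˣ) (α : SF R p q), α.Smooth ∧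
    ∀ᶠ y in 𝓝 x, ∃ h : y.pt ∈ U, η y = pullU y.abs (y.eval U h) F α ∧
      ω y = pullU y.abs (y.eval U h) F α.dd

/-- compact support -/
def CSuppV (ω : FamV s p q) : Prop :=
  ∃ C : Set (An s), IsCompact C ∧ ∀ x, x ∉ C → ω x = 0

/-- closed forms -/
def closedV (s : X ⟶ Spec (.of K)) (p q : ℕ) : Set (FamV s p q) := {ω | IsDbarV ω 0}

/-- closed forms with compact support -/
def closedVc (s : X ⟶ Spec (.of K)) (p q : ℕ) : Set (FamV s p q) := {ω | IsDbarV ω 0 ∧ CSuppV ω}

/-- exact forms: all `d''η`, `η` of bidegree `(p,q-1)` -/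
def exactV (s : X ⟶ Spec (.of K)) (p : ℕ) : (q : ℕ) → Set (FamV s p q)
  | 0 => {0}
  | _ + 1 => {ω | ∃ η, IsDbarV η ω}

/-- all `d''η`, `η` of bidegree `(p,q-1)` with compact support -/
def exactVc (s : X ⟶ Spec (.of K)) (p : ℕ) : (q : ℕ) → Set (FamV s p q)
  | 0 => {0}
  | _ + 1 => {ω | ∃ η, CSuppV η ∧ IsDbarV η ω}

/-- the tropical Dolbeault cohomology group `H^{p,q}(X^an)` -/
abbrev HV (s : X ⟶ Spec (.of K)) (p q : ℕ) : Type := Coh (closedV s p q) (exactV s p q)

/-- the tropical Dolbeault cohomology group with compact supports `H_c^{p,q}(X^an)` -/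
abbrev HVc (s : X ⟶ Spec (.of K)) (p q : ℕ) : Type := Coh (closedVc s p q) (exactVc s p q)

end scheme

end TDC
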