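import Pool.Agent.TDC.VT
import Pool.Agent.TDC.DefsN

/-!
# TDC: the definitions used in the final statement on closed embeddings in toric varieties

`Y` is the toric variety of the fan `Δ`, `φ : X ⟶ Y` a morphism. The tropicalization map
`T = trop_φ : X^an → N_ℝ(Σ)` is given by `|χ^m(T x)| = |(φ^* χ^m)(x)|`, and
`Trop_φ(X) = T(X^an)`. The same notions as in `TDC/DefsNs.lean`, `TDC/DefsNs2.lean`, in a form in which
every definition is short.
-/

namespace TDC

open scoped Topology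
open AlgebraicGeometry CategoryTheory

/-! ## 0. Tuples of tangent vectors -/

section tuples

variable {K M : Type} [NormedField K] [Field M] {φ : K →+* M} {N : ℕ}

/-- `p + q` tangent vectors at `x` -/
def TanPQ (x : Pt φ) (p q : ℕ) : Type := (Fin p → Tan x) × (Fin q → Tan x)

/-- functions of `p + q` tangent vectors at `x` -/
def TanPQ.toVal {x : Pt φ} {p q : ℕ} (f : TanPQ x p q → ℝ) : Val x p q := fun δ ε => f (δ, ε)

/-- `p + q` elements of `Hom(G, ℝ)` -/
def HomPQ (G : AddSubgroup (Fin N → ℤ)) (p q : ℕ) : Type := (Fin p → HomG G) × (Fin q → HomG G)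

/-- the value -/
def HomPQ.eval {G : AddSubgroup (Fin N → ℤ)} {p q : ℕ} (u : HomPQ G p q) (v : ValT G p q) : ℝ :=
  v u.1 u.2

/-- image of `p + q` tangent vectors under a map -/
def TanPQ.push {x : Pt φ} {G : AddSubgroup (Fin N → ℤ)} {p q : ℕ} (u : TanPQ x p q)
    (g : Tan x → HomG G) : HomPQ G p q := (fun k => g (u.1 k), fun k => g (u.2 k))

end tuples

/-! ## 1. Superforms on subsets of `N_ℝ(Σ)` -/

section tropical

variable {N : ℕ} {Δ : Fan N}

/-- points `y` of `N_ℝ(Σ)` with `p + q` tangent vectors at `y` -/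
def TNV (Δ : Fan N) (p q : ℕ) : Type := Σ y : NR Δ, HomPQ (Δ.perp y.i) p q

/-- the point -/
def TNV.pt {p q : ℕ} (w : TNV Δ p q) : NR Δ := w.1

/-- the value of the pull-back of the superform `α` on `ℝ^R` by the characters `F` -/
noncomputable def TNV.pull {p q R : ℕ} (w : TNV Δ p q) (F : Fin R → Fin N → ℤ) (α : SF R p q) : ℝ :=
  w.2.eval (pullG w.1.φ F α)

/-- families of values on a set `S` of points with tangent vectors -/
def FamS (S : (p q : ℕ) → Set (TNV Δ p q)) (p q : ℕ) : Type := S p q → ℝ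

noncomputable instance FamS.group (S : (p q : ℕ) → Set (TNV Δ p q)) (p q : ℕ) :
    AddCommGroup (FamS S p q) :=
  Pi.addCommGroup

noncomputable instance FamS.module (S : (p q : ℕ) → Set (TNV Δ p q)) (p q : ℕ) :
    Module ℝ (FamS S p q) :=
  Pi.module _ _ _

variable {S : (p q : ℕ) → Set (TNV Δ p q)} {p q : ℕ}

/-- `ω = d''η` on the subset `Tr` of `N_ℝ(Σ)` with tangent vectors `S`: near every point of `Tr` both are
restrictions of superforms on `N_ℝ(Σ)` -/
def IsDbarS (Tr : Set (NR Δ)) (η : FamS S p q) (ω : FamS S p (q + 1)) : Prop :=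
  ∀ y ∈ Tr, ∃ (R : ℕ) (F : Fin R → Fin N → ℤ) (α : SF R p q),
    (∀ l, F l ∈ Δ.perp y.i) ∧ α.Smooth ∧
      ∀ᶠ z in 𝓝 y, Δ.cone z.i ⊆ Δ.cone y.i ∧
        (∀ w : S p q, w.1.pt = z → η w = w.1.pull F α) ∧
        ∀ w : S p (q + 1), w.1.pt = z → ω w = w.1.pull F α.dd

/-- compact support -/
def CSuppS (ω : FamS S p q) : Prop :=
  ∃ C : Set (NR Δ), IsCompact C ∧ ∀ w : S p q, w.1.pt ∉ C → ω w = 0

/-- closed superforms -/
def closedS (Tr : Set (NR Δ)) (S : (p q : ℕ) → Set (TNV Δ p q)) (p q : ℕ) : Set (FamS S p q) :=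
  {ω | IsDbarS Tr ω 0}

/-- closed superforms with compact support -/
def closedSc (Tr : Set (NR Δ)) (S : (p q : ℕ) → Set (TNV Δ p q)) (p q : ℕ) : Set (FamS S p q) :=
  {ω | IsDbarS Tr ω 0 ∧ CSuppS ω}

/-- exact superforms: all `d''η`, `η` of bidegree `(p,q-1)` -/
def exactS (Tr : Set (NR Δ)) (S : (p q : ℕ) → Set (TNV Δ p q)) (p : ℕ) :
    (q : ℕ) → Set (FamS S p q)
  | 0 => {0}
  | _ + 1 => {ω | ∃ η, IsDbarS Tr η ω}

/-- all `d''η`, `η` of bidegree `(p,q-1)` with compact support -/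
def exactSc (Tr : Set (NR Δ)) (S : (p q : ℕ) → Set (TNV Δ p q)) (p : ℕ) :
    (q : ℕ) → Set (FamS S p q)
  | 0 => {0}
  | _ + 1 => {ω | ∃ η, CSuppS η ∧ IsDbarS Tr η ω}

end tropical

/-! ## 2. The tropicalization map of a morphism to a toric variety -/

section morphism

variable {K : Type} [NormedField K] {X Y : Scheme.{0}} {s : X ⟶ Spec (.of K)}
  {s' : Y ⟶ Spec (.of K)} {N : ℕ} {Δ : Fan N}

/-- `φ^* : Γ(Y, U) → Γ(X, φ⁻¹ U)` -/
noncomputable def appS (φ : X ⟶ Y) (U : Y.Opens) : Sec Y U →+* Sec X (φ ⁻¹ᵁ U) := (φ.app U).hom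

/-- evaluation of functions on `Y` at `x ∈ X^an`: `f ↦ (φ^* f)(x)` -/
noncomputable def An.evp (φ : X ⟶ Y) (x : An s) (U : Y.Opens) (h : x.pt ∈ φ ⁻¹ᵁ U) :
    Sec Y U →+* X.residueField x.pt := (x.ev (φ ⁻¹ᵁ U) h).comp (appS φ U)

/-- `T = trop_φ : X^an → N_ℝ(Σ)`: a point `x = (ξ, |·|)` is mapped to
`(σ, m ↦ log|(φ^* χ^m)(x)|)`, where `σ` is the smallest cone with `φ(ξ) ∈ U_σ`; in other words
`|(φ^* χ^m)(x)| = |χ^m(T x)|` for all `m ∈ σ^∨ ∩ M`. -/
structure IsTropP (τ : ToricV Δ s') (φ : X ⟶ Y) (T : An s → NR Δ) : Prop where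
  /-- `φ(x) ∈ U_σ^an` -/
  mem : ∀ x : An s, x.pt ∈ φ ⁻¹ᵁ τ.U (T x).i
  /-- the values of the characters -/
  val : ∀ (x : An s) (m : Δ.dual (T x).i),
    x.abs.v (x.evp φ _ (mem x) ((τ.χ _).pow m)) = (T x).val m

/-- points of `X^an` with `p + q` tangent vectors -/
def TXV (s : X ⟶ Spec (.of K)) (p q : ℕ) : Type := Σ x : An s, TanPQ x.abs p q

/-- `trop_φ` and its differential -/
noncomputable def dTV (τ : ToricV Δ s') (φ : X ⟶ Y) (T : An s → NR Δ) (hT : IsTropP τ φ T)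
    (p q : ℕ) (u : TXV s p q) : TNV Δ p q :=
  ⟨T u.1, u.2.push (tanU (An.evp φ u.1 _ (hT.mem u.1)) (τ.χ (T u.1).i))⟩

/-- the points of `Trop_φ(X)` with tangent vectors: the image of `dTV` -/
def TropS (τ : ToricV Δ s') (φ : X ⟶ Y) (T : An s → NR Δ) (hT : IsTropP τ φ T) (p q : ℕ) :
    Set (TNV Δ p q) := Set.range (dTV τ φ T hT p q)

/-- the pull-back `trop_φ^*` of superforms on `Trop_φ(X)` -/
noncomputable def pullS (τ : ToricV Δ s') (φ : X ⟶ Y) (T : An s → NR Δ) (hT : IsTropP τ φ T)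
    {p q : ℕ} (ω : FamS (TropS τ φ T hT) p q) : FamV s p q :=
  fun x => TanPQ.toVal fun u => ω ⟨dTV τ φ T hT p q ⟨x, u⟩, Set.mem_range_self _⟩

end morphism

/-! ## 3. Statements -/

section statements

variable {V W : Type} [AddCommGroup V] [Module ℝ V] [AddCommGroup W] [Module ℝ W]

/-- the map `P` induces a linear map `Z / (B ∩ Z) → Z' / (B' ∩ Z')`, and this is not surjective -/
def NotOnto (Z B : Set V) (Z' B' : Set W) (P : V → W) : Prop :=
  ∃ f : Coh Z B →ₗ[ℝ] Coh Z' B', (∀ (α : V) (h : α ∈ Z), ∃ h' : P α ∈ Z',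
    f (Coh.mk B α h) = Coh.mk B' (P α) h') ∧ ¬ Function.Surjective f

/-- the function field of `X` -/
noncomputable abbrev FunF (X : Scheme.{0}) [IsIntegral X] : Type := X.residueField (genericPoint X)

/-- the function field of `X` is `K(E)(t_1, …, t_m)`, `E` the elliptic curve `y² = x³ + 1` -/
def EFunX {K : Type} [NormedField K] {X : Scheme.{0}} [IsIntegral X] (s : X ⟶ Spec (.of K)) (m : ℕ)
    (x y : FunF X) (t : Fin m → (FunF X)ˣ) : Prop :=
  @EFun K (FunF X) _ _ (kmap s (genericPoint X)).toAlgebra m x y t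

/-- For every closed embedding `φ : X → Y` over `K` in a toric variety `Y`, `T = trop_φ` exists, is
unique and continuous, and `trop_φ^*` is not surjective on `H_c^{n,n}` and, if `X^an` is compact, on
`H^{n,n}`. -/
def NoSurj {K : Type} [NormedField K] {X : Scheme.{0}} (s : X ⟶ Spec (.of K)) (n : ℕ) : Prop :=
  ∀ (N : ℕ) (Δ : Fan N) (Y : Scheme.{0}) (s' : Y ⟶ Spec (.of K)) (τ : ToricV Δ s') (φ : X ⟶ Y),
    φ ≫ s' = s → IsClosedImmersion φ →
    ∃ (T : An s → NR Δ) (hT : IsTropP τ φ T),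
      (∀ T' : An s → NR Δ, IsTropP τ φ T' → T' = T) ∧ Continuous T ∧
      NotOnto (closedSc (Set.range T) (TropS τ φ T hT) n n)
        (exactSc (Set.range T) (TropS τ φ T hT) n n) (closedVc s n n) (exactVc s n n)
        (pullS τ φ T hT) ∧
      (CompactSpace (An s) →
        NotOnto (closedS (Set.range T) (TropS τ φ T hT) n n)
          (exactS (Set.range T) (TropS τ φ T hT) n n) (closedV s n n) (exactV s n n)
          (pullS τ φ T hT))

end statements

end TDC
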