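import Pool.Agent.TDC.V
import Pool.Agent.TDC.DefsF

/-!
# TDC: the definitions used in the final statement on toric varieties

The same notions as in `TDC/DefsF.lean`, `TDC/Defs5.lean`, in a form in which every definition is
short.
-/

namespace TDC

open scoped Topology
open AlgebraicGeometry CategoryTheory

/-! ## 1. Forms on `N_ℝ(Σ)` and their cohomology -/

section fan

variable {n : ℕ}

/-- `Hom(G, ℝ)` for a subgroup `G` of `M = ℤ^n` -/
def HomG (G : AddSubgroup (Fin n → ℤ)) : Type := G →+ ℝ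

/-- functions on `Hom(G, ℝ)^p × Hom(G, ℝ)^q` -/
def ValT (G : AddSubgroup (Fin n → ℤ)) (p q : ℕ) : Type := (Fin p → HomG G) → (Fin q → HomG G) → ℝ

noncomputable instance ValT.group (G : AddSubgroup (Fin n → ℤ)) (p q : ℕ) :
    AddCommGroup (ValT G p q) :=
  Pi.addCommGroup

noncomputable instance ValT.module (G : AddSubgroup (Fin n → ℤ)) (p q : ℕ) :
    Module ℝ (ValT G p q) :=
  Pi.module _ _ _

/-- the value `δ(m)` of `δ ∈ Hom(G, ℝ)` (`0` for `m ∉ G`) -/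
noncomputable def HomG.at {G : AddSubgroup (Fin n → ℤ)} (δ : HomG G) (m : Fin n → ℤ) : ℝ := evm δ m

/-- the value at the point `φ ∈ Hom(G, ℝ)` of the pull-back of the superform `α` on `ℝ^R` by the
characters `F` -/
noncomputable def pullG {G : AddSubgroup (Fin n → ℤ)} (φ : HomG G) {R p q : ℕ}
    (F : Fin R → Fin n → ℤ) (α : SF R p q) : ValT G p q :=
  fun δ ε => ∑ I : Fin p → Fin R, (Matrix.of fun k l => (δ k).at (F (I l))).det *
    α I (fun l => φ.at (F l)) (fun k l => (ε k).at (F l))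

/-- families of values: at `y = (σ, φ)` on the tangent space `Hom(σ^⊥ ∩ M, ℝ) = N_ℝ/span(σ)` -/
def FamTV (Δ : Fan n) (p q : ℕ) : Type := ∀ y : NR Δ, ValT (Δ.perp y.i) p q

noncomputable instance FamTV.group (Δ : Fan n) (p q : ℕ) : AddCommGroup (FamTV Δ p q) :=
  Pi.addCommGroup

noncomputable instance FamTV.module (Δ : Fan n) (p q : ℕ) : Module ℝ (FamTV Δ p q) :=
  Pi.module _ _ _

variable {Δ : Fan n} {p q : ℕ}

/-- Superforms on `N_ℝ(Σ)`: near `y = (σ, φ)` they are pulled back from `N_ℝ/span(σ)`. -/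
def IsFormTV (ω : FamTV Δ p q) : Prop :=
  ∀ y : NR Δ, ∃ (R : ℕ) (F : Fin R → Fin n → ℤ) (α : SF R p q),
    (∀ l, F l ∈ Δ.perp y.i) ∧ α.Smooth ∧
      ∀ᶠ z in 𝓝 y, Δ.cone z.i ⊆ Δ.cone y.i ∧ ω z = pullG z.φ F α

/-- `ω = d''η` on `N_ℝ(Σ)` -/
def IsDbarTV (η : FamTV Δ p q) (ω : FamTV Δ p (q + 1)) : Prop :=
  ∀ y : NR Δ, ∃ (R : ℕ) (F : Fin R → Fin n → ℤ) (α : SF R p q),
    (∀ l, F l ∈ Δ.perp y.i) ∧ α.Smooth ∧
      ∀ᶠ z in 𝓝 y, Δ.cone z.i ⊆ Δ.cone y.i ∧ η z = pullG z.φ F α ∧ ω z = pullG z.φ F α.dd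

/-- compact support -/
def CSuppTV (ω : FamTV Δ p q) : Prop := ∃ C : Set (NR Δ), IsCompact C ∧ ∀ y, y ∉ C → ω y = 0

/-- closed superforms -/
def closedTV (Δ : Fan n) (p q : ℕ) : Set (FamTV Δ p q) := {ω | IsDbarTV ω 0}

/-- closed superforms with compact support -/
def closedTVc (Δ : Fan n) (p q : ℕ) : Set (FamTV Δ p q) := {ω | IsDbarTV ω 0 ∧ CSuppTV ω}

/-- exact superforms: all `d''η`, `η` of bidegree `(p,q-1)` -/
def exactTV (Δ : Fan n) (p : ℕ) : (q : ℕ) → Set (FamTV Δ p q)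
  | 0 => {0}
  | _ + 1 => {ω | ∃ η, IsDbarTV η ω}

/-- all `d''η`, `η` of bidegree `(p,q-1)` with compact support -/
def exactTVc (Δ : Fan n) (p : ℕ) : (q : ℕ) → Set (FamTV Δ p q)
  | 0 => {0}
  | _ + 1 => {ω | ∃ η, CSuppTV η ∧ IsDbarTV η ω}

/-- the cohomology group `H^{p,q}(N_ℝ(Σ))` -/
abbrev HTV (Δ : Fan n) (p q : ℕ) : Type := Coh (closedTV Δ p q) (exactTV Δ p q)

/-- the cohomology group with compact supports `H_c^{p,q}(N_ℝ(Σ))` -/
abbrev HTVc (Δ : Fan n) (p q : ℕ) : Type := Coh (closedTVc Δ p q) (exactTVc Δ p q)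

end fan

/-! ## 2. Characters with values in a ring -/

section chars

variable {n : ℕ} {D D' : AddSubmonoid (Fin n → ℤ)} {V : Finset (Fin n → ℤ)} {A B K M : Type}
  [CommRing A] [CommRing B] [NormedField K] [Field M] {φ : K →+* M}

/-- characters: a map `m ↦ χ^m` from a monoid `D ⊆ M` to the ring `A` with `χ^0 = 1`,
`χ^(a+b) = χ^a χ^b` -/
structure Chars (D : AddSubmonoid (Fin n → ℤ)) (A : Type) [CommRing A] where
  /-- `χ^m` -/
  pow : D → A
  /-- `χ^0 = 1` -/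
  zero : pow 0 = 1
  /-- `χ^(a+b) = χ^a χ^b` -/
  add : ∀ a b, pow (a + b) = pow a * pow b

/-- the `χ^m`, `m ∈ D`, form a basis of `A` over `K` -/
def Chars.Basis (χ : Chars D A) (k : K →+* A) : Prop :=
  Function.Bijective fun f : D →₀ K => f.sum fun m a => k a * χ.pow m

/-- `f(χ^m) = χ'^m` -/
def Chars.Comp (f : A →+* B) (χ : Chars D A) (χ' : Chars D' B) : Prop :=
  ∀ (m : D) (m' : D'), (m : Fin n → ℤ) = m' → f (χ.pow m) = χ'.pow m'

/-- `χ^m` for `m ∈ σ^⊥ ∩ M` -/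
def Chars.perp (χ : Chars (dualOf V) A) (m : perpOf V) : A :=
  χ.pow ⟨m, perpOf_le_dualOf V m.2⟩

open Classical in
/-- the value `δ(z)` of a tangent vector at `z ∈ M`, `z ≠ 0` -/
noncomputable def tanAt {x : Pt φ} (δ : Tan x) (z : M) : ℝ :=
  if h : z = 0 then 0 else δ.1 (Additive.ofMul (Units.mk0 z h))

theorem tanAt_eq {x : Pt φ} (δ : Tan x) (u : Mˣ) : tanAt δ (u : M) = δ.1 (Additive.ofMul u) := by
  unfold tanAt
  rw [dif_neg u.ne_zero]
  congr 2
  exact Units.ext rfl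

theorem tanAt_mul {x : Pt φ} (δ : Tan x) {z w : M} (hz : z ≠ 0) (hw : w ≠ 0) :
    tanAt δ (z * w) = tanAt δ z + tanAt δ w := by
  have h1 := tanAt_eq δ (Units.mk0 z hz)
  have h2 := tanAt_eq δ (Units.mk0 w hw)
  have h3 := tanAt_eq δ (Units.mk0 z hz * Units.mk0 w hw)
  have h4 : δ.1 (Additive.ofMul (Units.mk0 z hz * Units.mk0 w hw)) =
      δ.1 (Additive.ofMul (Units.mk0 z hz)) + δ.1 (Additive.ofMul (Units.mk0 w hw)) :=
    map_add δ.1 _ _
  rw [h4, ← h1, ← h2] at h3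
  exact h3

theorem Chars.perp_zero (χ : Chars (dualOf V) A) : χ.perp 0 = 1 := χ.zero

theorem Chars.perp_add (χ : Chars (dualOf V) A) (a b : perpOf V) :
    χ.perp (a + b) = χ.perp a * χ.perp b :=
  χ.add ⟨a, perpOf_le_dualOf V a.2⟩ ⟨b, perpOf_le_dualOf V b.2⟩

theorem Chars.ne (f : A →+* M) (χ : Chars (dualOf V) A) (a : perpOf V) : f (χ.perp a) ≠ 0 := by
  intro h
  have h1 := χ.perp_add a (-a)
  rw [add_neg_cancel, χ.perp_zero] at h1
  have h3 := congrArg f h1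
  rw [map_one, map_mul, h, zero_mul] at h3
  exact one_ne_zero h3

theorem tanU_zero {x : Pt φ} (f : A →+* M) (χ : Chars (dualOf V) A) (δ : Tan x) :
    tanAt δ (f (χ.perp 0)) = 0 := by
  rw [χ.perp_zero, map_one]
  have h1 := tanAt_eq δ (1 : Mˣ)
  rw [Units.val_one] at h1
  rw [h1]
  exact map_zero δ.1

theorem tanU_add {x : Pt φ} (f : A →+* M) (χ : Chars (dualOf V) A) (δ : Tan x)
    (a b : perpOf V) :
    tanAt δ (f (χ.perp (a + b))) = tanAt δ (f (χ.perp a)) + tanAt δ (f (χ.perp b)) := by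
  rw [χ.perp_add, map_mul]
  exact tanAt_mul δ (χ.ne f a) (χ.ne f b)

/-- restriction of a tangent vector `δ` at `x` to the characters: `m ↦ δ(χ^m(x))`, `m ∈ σ^⊥ ∩ M`;
`f : A → M` is the evaluation at `x` -/
noncomputable def tanU {x : Pt φ} (f : A →+* M) (χ : Chars (dualOf V) A) (δ : Tan x) :
    HomG (perpOf V) where
  toFun m := tanAt δ (f (χ.perp m))
  map_zero' := tanU_zero f χ δ
  map_add' := tanU_add f χ δ

/-- pull-back of functions of tangent vectors -/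
def ValT.comp {p q : ℕ} {G : AddSubgroup (Fin n → ℤ)} {x : Pt φ} (v : ValT G p q)
    (g : Tan x → HomG G) : Val x p q :=
  fun δ ε => v (fun k => g (δ k)) (fun k => g (ε k))

end chars

/-! ## 3. Toric varieties and the tropicalization map -/

section toric

variable {K : Type} [NormedField K] {X : Scheme.{0}} {s : X ⟶ Spec (.of K)}

/-- the ring `Γ(X, U)` -/
def Sec (X : Scheme.{0}) (U : X.Opens) : Type := Γ(X, U)

noncomputable instance Sec.ring (X : Scheme.{0}) (U : X.Opens) : CommRing (Sec X U) :=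
  (X.presheaf.obj (.op U)).commRing

/-- restriction `Γ(X, U) → Γ(X, V)` -/
def resS {U V : X.Opens} (h : V ≤ U) : Sec X U →+* Sec X V :=
  (X.presheaf.map (homOfLE h).op).hom

/-- the structure map `K → Γ(X, U)` -/
noncomputable def kS (s : X ⟶ Spec (.of K)) (U : X.Opens) : K →+* Sec X U :=
  ((Scheme.ΓSpecIso (.of K)).inv ≫ s.appTop ≫
    X.presheaf.map (homOfLE le_top : U ⟶ ⊤).op).hom

/-- the open set `f ≠ 0` -/
def Sec.ne {U : X.Opens} (f : Sec X U) : X.Opens := X.basicOpen (show Γ(X, U) from f)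

/-- evaluation of functions at `x ∈ U^an` -/
noncomputable def An.ev (x : An s) (U : X.Opens) (h : x.pt ∈ U) :
    Sec X U →+* X.residueField x.pt := x.eval U h

/-- `|f(x)|` -/
noncomputable def An.val (x : An s) {U : X.Opens} (h : x.pt ∈ U) (f : Sec X U) : ℝ :=
  x.abs.v (x.ev U h f)

/-- `X → Spec K` is the toric variety of the fan `Δ`: it is covered by affine open sets `U_σ`,
`σ ∈ Δ`, with `Γ(X, U_σ) = K[σ^∨ ∩ M] = ⊕ K χ^m`, glued as usual: for `τ ⊆ σ` the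
inclusion `U_τ ⊆ U_σ` corresponds to `K[σ^∨ ∩ M] ⊆ K[τ^∨ ∩ M]`, `U_τ` is the principal open set
`χ^m ≠ 0` of `U_σ` for the face `τ = σ ∩ m^⊥`, and `U_σ ∩ U_τ = U_{σ ∩ τ}`. -/
structure ToricV {n : ℕ} (Δ : Fan n) (s : X ⟶ Spec (.of K)) where
  /-- the open sets `U_σ` -/
  U : Δ.ι → X.Opens
  /-- they are affine -/
  aff : ∀ i, IsAffineOpen (U i)
  /-- they cover `X` -/
  cover : ∀ ξ : X, ∃ i, ξ ∈ U i
  /-- the characters `χ^m ∈ Γ(X, U_σ)`, `m ∈ σ^∨ ∩ M` -/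
  χ : ∀ i, Chars (Δ.dual i) (Sec X (U i))
  /-- they form a basis of `Γ(X, U_σ)` over `K` -/
  basis : ∀ i, (χ i).Basis (kS s (U i))
  /-- `U_τ ⊆ U_σ` for `τ ⊆ σ` -/
  le : ∀ i j, Δ.cone j ⊆ Δ.cone i → U j ≤ U i
  /-- restriction of characters -/
  res : ∀ i j (h : Δ.cone j ⊆ Δ.cone i), Chars.Comp (resS (le i j h)) (χ i) (χ j)
  /-- faces give principal open sets -/
  basic : ∀ i j (m : Δ.dual i), Δ.cone j = faceOf (Δ.gens i) m → U j = ((χ i).pow m).ne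
  /-- intersections -/
  inter : ∀ i j k, Δ.cone k = Δ.cone i ∩ Δ.cone j → U i ⊓ U j = U k

variable {n : ℕ} {Δ : Fan n}

/-- `trop : X^an → N_ℝ(Σ)`: a point `x = (ξ, |·|)` is mapped to `(σ, m ↦ log|χ^m(x)|)` where
`σ` is the smallest cone with `ξ ∈ U_σ`, in other words `|χ^m(x)| = |χ^m(trop x)|` for all
`m ∈ σ^∨ ∩ M`. -/
structure IsTropV (τ : ToricV Δ s) (T : An s → NR Δ) : Prop where
  /-- `x ∈ U_σ^an` -/
  mem : ∀ x : An s, x.pt ∈ τ.U (T x).i
  /-- the values of the characters -/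
  val : ∀ (x : An s) (m : Δ.dual (T x).i), x.val (mem x) ((τ.χ _).pow m) = (T x).val m

/-- the pull-back `trop^*` of superforms -/
noncomputable def tropV (τ : ToricV Δ s) (T : An s → NR Δ) (hT : IsTropV τ T) {p q : ℕ}
    (ω : FamTV Δ p q) : FamV s p q :=
  fun x => (ω (T x)).comp (tanU (x.ev _ (hT.mem x)) (τ.χ (T x).i))

end toric

/-! ## 4. Comparison of cohomology groups -/

section compare

variable {V W : Type} [AddCommGroup V] [Module ℝ V] [AddCommGroup W] [Module ℝ W]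

/-- the map `P` induces an isomorphism `Z / (B ∩ Z) → Z' / (B' ∩ Z')` -/
def IsoBy (Z B : Set V) (Z' B' : Set W) (P : V → W) : Prop :=
  ∃ f : Coh Z B ≃ₗ[ℝ] Coh Z' B', ∀ (α : V) (h : α ∈ Z), ∃ h' : P α ∈ Z',
    f (Coh.mk B α h) = Coh.mk B' (P α) h'

/-- `dim Z / (B ∩ Z) = 1` -/
def OneDim (Z B : Set V) : Prop := Nonempty (Coh Z B ≃ₗ[ℝ] ℝ)

/-- `Z / (B ∩ Z) = 0` -/
def ZeroDim (Z B : Set V) : Prop := Subsingleton (Coh Z B)

end compare

end TDC
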